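import Mathlib

open MeasureTheory FourierTransform SchwartzMap
open scoped ENNReal ContDiff

namespace Pool.Agent.H.MP_b7167f_an

variable {H : Type*} [NormedAddCommGroup H] [InnerProductSpace ℂ H] [CompleteSpace H]

/-- The `L²` Fourier transform agrees a.e. with the Fourier integral on `L¹ ∩ L²`. -/
theorem fourier_toLp_ae_eq {f : ℝ → H} (hf1 : Integrable f) (hf2 : MemLp f 2) :
    (𝓕 (hf2.toLp f) : Lp H 2 (volume : Measure ℝ)) =ᵐ[volume] (𝓕 f : ℝ → H) := by
  apply ae_eq_of_integral_contDiff_smul_eq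
  · exact (Lp.memLp _).locallyIntegrable (by norm_num)
  · apply Continuous.locallyIntegrable
    exact VectorFourier.fourierIntegral_continuous Real.continuous_fourierChar
      (by exact continuous_inner) hf1
  · intro g g_smooth g_cpt
    have hg₁ : HasCompactSupport (Complex.ofRealCLM ∘ g) := g_cpt.comp_left rfl
    have hg₂ : ContDiff ℝ ∞ (Complex.ofRealCLM ∘ g) := by fun_prop
    set G : 𝓢(ℝ, ℂ) := hg₁.toSchwartzMap hg₂ with hG
    have h1 : ∫ x, g x • ((𝓕 (hf2.toLp f) : Lp H 2 (volume : Measure ℝ)) : ℝ → H) x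
        = (Lp.toTemperedDistribution (𝓕 (hf2.toLp f) : Lp H 2 (volume : Measure ℝ))) G := by
      rw [Lp.toTemperedDistribution_apply]
      congr 1
    rw [h1, ← Lp.fourier_toTemperedDistribution_eq, TemperedDistribution.fourier_apply,
      Lp.toTemperedDistribution_apply]
    have h2 : ∫ x, (𝓕 G) x • (hf2.toLp f) x = ∫ x, (𝓕 G) x • f x := by
      apply integral_congr_ae
      filter_upwards [hf2.coeFn_toLp] with x hx
      rw [hx]
    rw [h2]
    have h3 : (fun x => (𝓕 G) x • f x) = fun x => (𝓕 (G : ℝ → ℂ)) x • f x := by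
      ext x
      rw [SchwartzMap.fourier_coe]
    rw [h3]
    have h4 := VectorFourier.integral_fourierIntegral_smul_eq_flip (μ := volume) (ν := volume)
      (L := innerₗ ℝ) (f := (G : ℝ → ℂ)) (g := f) Real.continuous_fourierChar
      (by exact continuous_inner) G.integrable hf1
    rw [flip_innerₗ] at h4
    exact h4

/-- Plancherel for `L¹ ∩ L²` functions with values in a Hilbert space. -/
theorem plancherel {f : ℝ → H} (hf1 : Integrable f) (hf2 : MemLp f 2) :
    ∫⁻ x, ‖𝓕 f x‖ₑ ^ 2 = ∫⁻ x, ‖f x‖ₑ ^ 2 := by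
  have h1 : eLpNorm (𝓕 f : ℝ → H) 2 volume = eLpNorm f 2 volume := by
    rw [← eLpNorm_congr_ae (fourier_toLp_ae_eq hf1 hf2),
      ← eLpNorm_congr_ae (hf2.coeFn_toLp)]
    have := Lp.norm_fourier_eq (hf2.toLp f)
    rw [Lp.norm_def, Lp.norm_def] at this
    exact (ENNReal.toReal_eq_toReal_iff' (Lp.eLpNorm_ne_top _) (Lp.eLpNorm_ne_top _)).1 this
  have h2 := eLpNorm_nnreal_pow_eq_lintegral (f := (𝓕 f : ℝ → H)) (μ := volume) (p := 2) (by norm_num)
  have h3 := eLpNorm_nnreal_pow_eq_lintegral (f := f) (μ := volume) (p := 2) (by norm_num)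
  simp only [ENNReal.coe_ofNat, NNReal.coe_ofNat, ENNReal.rpow_ofNat] at h2 h3
  rw [← h2, ← h3, h1]

end Pool.Agent.H.MP_b7167f_an
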