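import Mathlib
import Pool.Agent.H.MP_b7167f_an.Plancherel

open MeasureTheory FourierTransform Set
open scoped ENNReal NNReal ComplexConjugate InnerProductSpace

namespace Pool.Agent.H.MP_b7167f_an

/-- `ch r = exp(2π i r)`. -/
noncomputable def ch (r : ℝ) : ℂ := Complex.exp (2 * Real.pi * Complex.I * r)

lemma ch_eq (r : ℝ) : ch r = Complex.exp (↑(2 * Real.pi * r) * Complex.I) := by
  unfold ch; congr 1; push_cast; ring

@[simp] lemma norm_ch (r : ℝ) : ‖ch r‖ = 1 := by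
  rw [ch_eq, Complex.norm_exp_ofReal_mul_I]

@[simp] lemma enorm_ch (r : ℝ) : ‖ch r‖ₑ = 1 := by
  rw [← ofReal_norm, norm_ch]; simp

lemma ch_add (r s : ℝ) : ch (r + s) = ch r * ch s := by
  unfold ch; rw [← Complex.exp_add]; congr 1; push_cast; ring

lemma conj_ch (r : ℝ) : conj (ch r) = ch (-r) := by
  rw [ch_eq, ch_eq, ← Complex.exp_conj]
  congr 1
  rw [map_mul, Complex.conj_ofReal, Complex.conj_I]
  push_cast; ring

@[fun_prop] lemma continuous_ch : Continuous ch := by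
  unfold ch; fun_prop

lemma fourierChar_eq (r : ℝ) : (Real.fourierChar r : ℂ) = ch r := by
  rw [Real.fourierChar_apply, ch_eq]

variable {H : Type*} [NormedAddCommGroup H] [InnerProductSpace ℂ H] [CompleteSpace H]

/-- The Fourier transform written with `ch`. -/
lemma fourier_eq_ch (f : ℝ → H) (w : ℝ) : 𝓕 f w = ∫ v, ch (-(v * w)) • f v := by
  rw [Real.fourier_real_eq]
  congr 1
  ext v
  rw [Circle.smul_def, fourierChar_eq]

/-- admissible one-variable data: strongly measurable, bounded by `1`, supported in `[-1,1]` -/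
structure Adm (v : ℝ → H) : Prop where
  sm : StronglyMeasurable v
  bd : ∀ s, ‖v s‖ ≤ 1
  supp : ∀ s, s ∉ Icc (-1:ℝ) 1 → v s = 0

/-- one dimensional extension operator (vector valued) -/
noncomputable def Uop (v : ℝ → H) (x t : ℝ) : H := ∫ s, ch (s * x + s ^ 2 * t) • v s

lemma Uop_eq_fourier (v : ℝ → H) (x t : ℝ) :
    Uop v x t = 𝓕 (fun s => ch (s ^ 2 * t) • v s) (-x) := by
  rw [fourier_eq_ch]
  unfold Uop
  congr 1
  ext s
  rw [smul_smul, ← ch_add]
  congr 2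
  ring

lemma integrable_of_supp {E : Type*} [NormedAddCommGroup E] {g : ℝ → E} {R C : ℝ}
    (hm : AEStronglyMeasurable g) (hb : ∀ s, ‖g s‖ ≤ C) (hs : ∀ s, s ∉ Icc (-R) R → g s = 0) :
    Integrable g := by
  have : g = indicator (Icc (-R) R) g := by
    ext s
    by_cases h : s ∈ Icc (-R) R
    · simp [h]
    · simp [h, hs s h]
  rw [this, integrable_indicator_iff measurableSet_Icc]
  exact Measure.integrableOn_of_bounded (M := C) (by simp) hm
    (Filter.Eventually.of_forall hb)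

lemma memLp_of_supp {E : Type*} [NormedAddCommGroup E] {g : ℝ → E} {R C : ℝ}
    (hm : AEStronglyMeasurable g) (hb : ∀ s, ‖g s‖ ≤ C) (hs : ∀ s, s ∉ Icc (-R) R → g s = 0) 
    (p : ℝ≥0∞) : MemLp g p := by
  have : g = indicator (Icc (-R) R) g := by
    ext s
    by_cases h : s ∈ Icc (-R) R
    · simp [h]
    · simp [h, hs s h]
  rw [this, memLp_indicator_iff_restrict measurableSet_Icc]
  exact MemLp.of_bound hm.restrict C (Filter.Eventually.of_forall hb)

lemma lintegral_comp_neg' (f : ℝ → ℝ≥0∞) : ∫⁻ x, f (-x) = ∫⁻ x, f x :=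
  (Measure.measurePreserving_neg (volume : Measure ℝ)).lintegral_comp_emb
    (MeasurableEquiv.neg ℝ).measurableEmbedding f

lemma lintegral_enorm_sq_le {v : ℝ → H} (hv : Adm v) : ∫⁻ s, ‖v s‖ₑ ^ 2 ≤ 2 := by
  have h1 : ∀ s, ‖v s‖ₑ ^ 2 ≤ indicator (Icc (-1:ℝ) 1) (fun _ => (1:ℝ≥0∞)) s := by
    intro s
    by_cases h : s ∈ Icc (-1:ℝ) 1
    · simp only [h, indicator_of_mem]
      have : ‖v s‖ₑ ≤ 1 := by
        rw [← ofReal_norm]; exact ENNReal.ofReal_le_one.2 (hv.bd s)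
      calc ‖v s‖ₑ ^ 2 ≤ 1 ^ 2 := by gcongr
        _ = 1 := by simp
    · simp [h, hv.supp s h]
  calc ∫⁻ s, ‖v s‖ₑ ^ 2 ≤ ∫⁻ s, indicator (Icc (-1:ℝ) 1) (fun _ => (1:ℝ≥0∞)) s :=
        lintegral_mono h1
    _ = 2 := by
        rw [lintegral_indicator measurableSet_Icc]
        simp only [lintegral_const, MeasurableSet.univ, Measure.restrict_apply, univ_inter,
          Real.volume_Icc, one_mul]
        norm_num

theorem Uop_L2 {v : ℝ → H} (hv : Adm v) (t : ℝ) :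
    ∫⁻ x, ‖Uop v x t‖ₑ ^ 2 = ∫⁻ s, ‖v s‖ₑ ^ 2 := by
  have hm : AEStronglyMeasurable (fun s => ch (s ^ 2 * t) • v s) :=
    (Continuous.stronglyMeasurable (by fun_prop)).aestronglyMeasurable.smul
      hv.sm.aestronglyMeasurable
  have hb : ∀ s, ‖ch (s ^ 2 * t) • v s‖ ≤ 1 := by
    intro s; rw [norm_smul, norm_ch, one_mul]; exact hv.bd s
  have hs : ∀ s, s ∉ Icc (-1:ℝ) 1 → ch (s ^ 2 * t) • v s = 0 := by
    intro s h; rw [hv.supp s h, smul_zero]
  simp_rw [Uop_eq_fourier]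
  rw [lintegral_comp_neg' (fun x => ‖𝓕 (fun s => ch (s ^ 2 * t) • v s) x‖ₑ ^ 2),
    plancherel (integrable_of_supp hm hb hs) (memLp_of_supp hm hb hs 2)]
  congr 1
  ext s
  rw [enorm_smul, enorm_ch, one_mul]

/-- autocorrelation kernel -/
noncomputable def Kop (v : ℝ → H) (z t : ℝ) : ℂ :=
  ∫ η, ch ((2 * η * z + z ^ 2) * t) * ⟪v η, v (η + z)⟫_ℂ

lemma lintegral_comp_mul_left' {c : ℝ} (hc : c ≠ 0) (F : ℝ → ℝ≥0∞) :
    ∫⁻ t, F (c * t) = ENNReal.ofReal |c⁻¹| * ∫⁻ t, F t := by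
  have h := lintegral_map_equiv (μ := volume) F (Homeomorph.mulLeft₀ c hc).toMeasurableEquiv
  have h2 : Measure.map (⇑(Homeomorph.mulLeft₀ c hc).toMeasurableEquiv) (volume : Measure ℝ)
      = ENNReal.ofReal |c⁻¹| • volume := Real.map_volume_mul_left hc
  rw [h2, lintegral_smul_measure] at h
  exact h.symm

lemma norm_inner_le_indicator {v : ℝ → H} (hv : Adm v) (η z : ℝ) :
    ‖⟪v η, v (η + z)⟫_ℂ‖ ≤ indicator (Icc (-1:ℝ) 1) (fun _ => (1:ℝ)) η := by
  by_cases h : η ∈ Icc (-1:ℝ) 1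
  · simp only [h, indicator_of_mem]
    calc ‖⟪v η, v (η + z)⟫_ℂ‖ ≤ ‖v η‖ * ‖v (η + z)‖ := norm_inner_le_norm _ _
      _ ≤ 1 * 1 := mul_le_mul (hv.bd _) (hv.bd _) (norm_nonneg _) zero_le_one
      _ = 1 := by norm_num
  · simp [h, hv.supp η h]

lemma sm_inner {v : ℝ → H} (hv : Adm v) :
    StronglyMeasurable (fun p : ℝ × ℝ => ⟪v p.1, v (p.1 + p.2)⟫_ℂ) :=
  (hv.sm.comp_measurable measurable_fst).inner
    (hv.sm.comp_measurable (measurable_fst.add measurable_snd))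

lemma Kop_supp {v : ℝ → H} (hv : Adm v) (z t : ℝ) (hz : z ∉ Icc (-2:ℝ) 2) : Kop v z t = 0 := by
  unfold Kop
  rw [← integral_zero ℝ ℂ]
  congr 1
  ext η
  by_cases h : η ∈ Icc (-1:ℝ) 1
  · have h2 : η + z ∉ Icc (-1:ℝ) 1 := by
      intro h3
      apply hz
      rw [mem_Icc] at *
      constructor <;> linarith [h.1, h.2, h3.1, h3.2]
    simp [hv.supp _ h2]
  · simp [hv.supp _ h]

lemma Kop_bound {v : ℝ → H} (hv : Adm v) (z t : ℝ) : ‖Kop v z t‖ ≤ 2 := by
  unfold Kop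
  calc ‖∫ η, ch ((2 * η * z + z ^ 2) * t) * ⟪v η, v (η + z)⟫_ℂ‖
      ≤ ∫ η, indicator (Icc (-1:ℝ) 1) (fun _ => (1:ℝ)) η := by
        apply norm_integral_le_of_norm_le
        · rw [integrable_indicator_iff measurableSet_Icc]
          simp
        · refine Filter.Eventually.of_forall fun η => ?_
          rw [norm_mul, norm_ch, one_mul]
          exact norm_inner_le_indicator hv η z
    _ = 2 := by
        rw [integral_indicator measurableSet_Icc]
        simp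
        norm_num

lemma sm_Kop {v : ℝ → H} (hv : Adm v) :
    StronglyMeasurable (fun p : ℝ × ℝ => Kop v p.1 p.2) := by
  unfold Kop
  apply StronglyMeasurable.integral_prod_right' (f := fun q : (ℝ × ℝ) × ℝ =>
    ch ((2 * q.2 * q.1.1 + q.1.1 ^ 2) * q.1.2) * ⟪v q.2, v (q.2 + q.1.1)⟫_ℂ)
  apply StronglyMeasurable.mul
  · exact Continuous.stronglyMeasurable (by fun_prop)
  · exact (sm_inner hv).comp_measurable (measurable_snd.prodMk (measurable_fst.comp measurable_fst))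

/-- The squared norm of the extension is the Fourier transform of the autocorrelation kernel. -/
lemma norm_sq_Uop {v : ℝ → H} (hv : Adm v) (x t : ℝ) :
    ((‖Uop v x t‖ ^ 2 : ℝ) : ℂ) = 𝓕 (fun z => Kop v z t) (-x) := by
  have hm : AEStronglyMeasurable (fun s => ch (s * x + s ^ 2 * t) • v s) :=
    (Continuous.stronglyMeasurable (by fun_prop)).aestronglyMeasurable.smul
      hv.sm.aestronglyMeasurable
  have hb : ∀ s, ‖ch (s * x + s ^ 2 * t) • v s‖ ≤ 1 := by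
    intro s; rw [norm_smul, norm_ch, one_mul]; exact hv.bd s
  have hs : ∀ s, s ∉ Icc (-1:ℝ) 1 → ch (s * x + s ^ 2 * t) • v s = 0 := by
    intro s h; rw [hv.supp s h, smul_zero]
  have hint := integrable_of_supp hm hb hs
  have e1 : ((‖Uop v x t‖ ^ 2 : ℝ) : ℂ) = ⟪Uop v x t, Uop v x t⟫_ℂ := by
    rw [inner_self_eq_norm_sq_to_K]; norm_cast
  have e2 : ⟪Uop v x t, Uop v x t⟫_ℂ
      = ∫ η, ∫ z, ch (z * x + (2 * η * z + z ^ 2) * t) * ⟪v η, v (η + z)⟫_ℂ := by
    have : ⟪Uop v x t, Uop v x t⟫_ℂ = conj (⟪Uop v x t, Uop v x t⟫_ℂ) := by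
      rw [inner_conj_symm]
    rw [this]
    conv_lhs => rw [show (⟪Uop v x t, Uop v x t⟫_ℂ)
      = ∫ η, ⟪Uop v x t, ch (η * x + η ^ 2 * t) • v η⟫_ℂ from (integral_inner hint _).symm]
    rw [← integral_conj]
    congr 1
    ext η
    rw [inner_conj_symm]
    conv_lhs => rw [show ⟪ch (η * x + η ^ 2 * t) • v η, Uop v x t⟫_ℂ
      = ∫ ξ, ⟪ch (η * x + η ^ 2 * t) • v η, ch (ξ * x + ξ ^ 2 * t) • v ξ⟫_ℂ
      from (integral_inner hint _).symm]
    rw [← integral_add_left_eq_self _ η]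
    congr 1
    ext z
    rw [inner_smul_left, inner_smul_right, conj_ch, ← mul_assoc, ← ch_add]
    congr 2
    ring
  rw [e1, e2, fourier_eq_ch]
  rw [integral_integral_swap]
  · congr 1
    ext z
    rw [Kop, smul_eq_mul, ← integral_const_mul]
    congr 1
    ext η
    rw [← mul_assoc, ← ch_add]
    congr 2
    ring
  · have hsupp : ∀ p : ℝ × ℝ, p ∉ (Icc (-1:ℝ) 1) ×ˢ (Icc (-2:ℝ) 2) →
        ch (p.2 * x + (2 * p.1 * p.2 + p.2 ^ 2) * t) * ⟪v p.1, v (p.1 + p.2)⟫_ℂ = 0 := by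
      intro p hp
      by_cases h : p.1 ∈ Icc (-1:ℝ) 1
      · have h2 : p.1 + p.2 ∉ Icc (-1:ℝ) 1 := by
          intro h3
          apply hp
          rw [mem_prod]
          refine ⟨h, ?_⟩
          rw [mem_Icc] at *
          constructor <;> linarith [h.1, h.2, h3.1, h3.2]
        simp [hv.supp _ h2]
      · simp [hv.supp _ h]
    have : Function.uncurry (fun η z => ch (z * x + (2 * η * z + z ^ 2) * t) *
        ⟪v η, v (η + z)⟫_ℂ) = indicator ((Icc (-1:ℝ) 1) ×ˢ (Icc (-2:ℝ) 2))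
        (fun p : ℝ × ℝ => ch (p.2 * x + (2 * p.1 * p.2 + p.2 ^ 2) * t) *
          ⟪v p.1, v (p.1 + p.2)⟫_ℂ) := by
      ext p
      by_cases h : p ∈ (Icc (-1:ℝ) 1) ×ˢ (Icc (-2:ℝ) 2)
      · rw [indicator_of_mem h]; rfl
      · rw [indicator_of_notMem h]; exact hsupp p h
    rw [this, integrable_indicator_iff (measurableSet_Icc.prod measurableSet_Icc)]
    apply Measure.integrableOn_of_bounded (M := 1)
    · rw [← Measure.volume_eq_prod, Measure.volume_eq_prod, Measure.prod_prod]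
      simp only [Real.volume_Icc]
      exact (ENNReal.mul_lt_top ENNReal.ofReal_lt_top ENNReal.ofReal_lt_top).ne
    · apply AEStronglyMeasurable.mul
      · exact (Continuous.aestronglyMeasurable (by fun_prop))
      · exact (sm_inner hv).aestronglyMeasurable
    · refine Filter.Eventually.of_forall fun p => ?_
      rw [norm_mul, norm_ch, one_mul]
      refine (norm_inner_le_indicator hv p.1 p.2).trans ?_
      exact indicator_le_self' (fun _ _ => zero_le_one) _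

lemma Kop_zmeas {v : ℝ → H} (hv : Adm v) (t : ℝ) : StronglyMeasurable (fun z => Kop v z t) := by
  have h : Measurable (fun z : ℝ => ((z, t) : ℝ × ℝ)) := by fun_prop
  exact (sm_Kop hv).comp_measurable h

/-- `L⁴` norm in `x` at time `t` in terms of the kernel. -/
lemma Uop_L4 {v : ℝ → H} (hv : Adm v) (t : ℝ) :
    ∫⁻ x, ‖Uop v x t‖ₑ ^ 4 = ∫⁻ z, ‖Kop v z t‖ₑ ^ 2 := by
  have h1 : ∀ x, ‖Uop v x t‖ₑ ^ 4 = ‖𝓕 (fun z => Kop v z t) (-x)‖ₑ ^ 2 := by
    intro x
    rw [← norm_sq_Uop hv, ← ofReal_norm, ← ofReal_norm, Complex.norm_real, Real.norm_eq_abs,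
      abs_of_nonneg (by positivity), ENNReal.ofReal_pow (norm_nonneg _), ← pow_mul]
  simp_rw [h1]
  rw [lintegral_comp_neg' (fun x => ‖𝓕 (fun z => Kop v z t) x‖ₑ ^ 2)]
  exact plancherel
    (integrable_of_supp (Kop_zmeas hv t).aestronglyMeasurable (fun z => Kop_bound hv z t)
      (fun z hz => Kop_supp hv z t hz))
    (memLp_of_supp (Kop_zmeas hv t).aestronglyMeasurable (fun z => Kop_bound hv z t)
      (fun z hz => Kop_supp hv z t hz) 2)

/-- For fixed separation `z`, the kernel is square integrable in time. -/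
lemma Kop_time {v : ℝ → H} (hv : Adm v) {z : ℝ} (hz : z ≠ 0) :
    ∫⁻ t, ‖Kop v z t‖ₑ ^ 2 ≤ ENNReal.ofReal |z|⁻¹ := by
  set g : ℝ → ℂ := fun η => ⟪v η, v (η + z)⟫_ℂ with hg
  have hgm : AEStronglyMeasurable g :=
    ((sm_inner hv).comp_measurable (measurable_id.prodMk measurable_const)).aestronglyMeasurable
  have hgb : ∀ s, ‖g s‖ ≤ 1 := fun s => (norm_inner_le_indicator hv s z).trans
    (indicator_le_self' (fun _ _ => zero_le_one) _)
  have hgs : ∀ s, s ∉ Icc (-1:ℝ) 1 → g s = 0 := by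
    intro s h; simp [hg, hv.supp _ h]
  have h1 : ∀ t, ‖Kop v z t‖ₑ ^ 2 = ‖𝓕 g ((-(2 * z)) * t)‖ₑ ^ 2 := by
    intro t
    rw [fourier_eq_ch, Kop]
    have : ∀ η, ch ((2 * η * z + z ^ 2) * t) * ⟪v η, v (η + z)⟫_ℂ
        = ch (z ^ 2 * t) * (ch (-(η * ((-(2 * z)) * t))) • g η) := by
      intro η
      rw [smul_eq_mul, ← mul_assoc, ← ch_add]
      congr 2
      ring
    simp_rw [this]
    rw [integral_const_mul, enorm_mul, enorm_ch, one_mul]
  simp_rw [h1]
  have hc : (-(2 * z)) ≠ 0 := by simpa using hz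
  rw [lintegral_comp_mul_left' hc (fun s => ‖𝓕 g s‖ₑ ^ 2),
    plancherel (integrable_of_supp hgm hgb hgs) (memLp_of_supp hgm hgb hgs 2)]
  have h2 : ∫⁻ x, ‖g x‖ₑ ^ 2 ≤ 2 := by
    have h1 : ∀ s, ‖g s‖ₑ ^ 2 ≤ indicator (Icc (-1:ℝ) 1) (fun _ => (1:ℝ≥0∞)) s := by
      intro s
      by_cases h : s ∈ Icc (-1:ℝ) 1
      · simp only [h, indicator_of_mem]
        have : ‖g s‖ₑ ≤ 1 := by
          rw [← ofReal_norm]; exact ENNReal.ofReal_le_one.2 (hgb s)
        calc ‖g s‖ₑ ^ 2 ≤ 1 ^ 2 := by gcongr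
          _ = 1 := by simp
      · simp [h, hgs s h]
    calc ∫⁻ s, ‖g s‖ₑ ^ 2 ≤ ∫⁻ s, indicator (Icc (-1:ℝ) 1) (fun _ => (1:ℝ≥0∞)) s :=
          lintegral_mono h1
      _ = 2 := by
          rw [lintegral_indicator measurableSet_Icc]
          simp only [lintegral_const, MeasurableSet.univ, Measure.restrict_apply, univ_inter,
            Real.volume_Icc, one_mul]
          norm_num
  calc ENNReal.ofReal |(-(2 * z))⁻¹| * ∫⁻ x, ‖g x‖ₑ ^ 2
      ≤ ENNReal.ofReal |(-(2 * z))⁻¹| * 2 := by gcongr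
    _ = ENNReal.ofReal |z|⁻¹ := by
        rw [show (2:ℝ≥0∞) = ENNReal.ofReal 2 by simp, ← ENNReal.ofReal_mul (abs_nonneg _)]
        congr 1
        rw [abs_inv, abs_neg, abs_mul, abs_two, mul_inv]
        ring

end Pool.Agent.H.MP_b7167f_an
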