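import Mathlib
import Pool.Agent.H.MP_b7167f_an.OneDim

open MeasureTheory FourierTransform Set
open scoped ENNReal NNReal ComplexConjugate InnerProductSpace

namespace Pool.Agent.H.MP_b7167f_an

lemma integrableOn_abs_rpow {r : ℝ} (hr : -1 < r) :
    IntegrableOn (fun z : ℝ => |z| ^ r) (Icc (-2) 2) := by
  have h1 : IntervalIntegrable (fun z : ℝ => |z| ^ r) volume 0 2 := by
    apply (intervalIntegral.intervalIntegrable_rpow' (a := 0) (b := 2) hr).congr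
    intro z hz
    rw [uIoc_of_le (by norm_num)] at hz
    simp only
    rw [abs_of_pos hz.1]
  have h2 : IntervalIntegrable (fun z : ℝ => |z| ^ r) volume (-2) 0 := by
    rw [IntervalIntegrable.iff_comp_neg]
    simpa using h1.symm
  have h3 := h2.trans h1
  rwa [intervalIntegrable_iff_integrableOn_Icc_of_le (by norm_num)] at h3

lemma lintegral_abs_rpow_lt_top {r : ℝ} (hr : -1 < r) :
    ∫⁻ z in Icc (-2:ℝ) 2, ENNReal.ofReal (|z| ^ r) < ∞ := by
  have h := (integrableOn_abs_rpow hr).hasFiniteIntegral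
  rw [hasFiniteIntegral_iff_ofReal] at h
  · exact h
  · exact Filter.Eventually.of_forall fun z => by positivity

/-- The (finite) constant in the time integrated bound. -/
noncomputable def Ca (a : ℝ) : ℝ≥0∞ :=
  (∫⁻ z in Icc (-2:ℝ) 2, ENNReal.ofReal (|z| ^ (-(1/2) : ℝ))) ^ (a - 1) *
    (4 ^ (a - 1) * ∫⁻ z in Icc (-2:ℝ) 2, ENNReal.ofReal (|z| ^ ((a - 1) / 2 - 1)))

lemma Ca_ne_top {a : ℝ} (ha : 1 < a) : Ca a ≠ ∞ := by
  unfold Ca
  apply ENNReal.mul_ne_top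
  · exact ENNReal.rpow_ne_top_of_nonneg (by linarith) (lintegral_abs_rpow_lt_top (by norm_num)).ne
  · apply ENNReal.mul_ne_top
    · exact ENNReal.rpow_ne_top_of_nonneg (by linarith) (by norm_num)
    · exact (lintegral_abs_rpow_lt_top (by linarith)).ne

variable {H : Type*} [NormedAddCommGroup H] [InnerProductSpace ℂ H] [CompleteSpace H]

/-- `L(t) = ∫ ‖U(x,t)‖⁴ dx`. -/
noncomputable def Lop (v : ℝ → H) (t : ℝ) : ℝ≥0∞ := ∫⁻ x, ‖Uop v x t‖ₑ ^ 4

lemma Kop_enorm_sq_le {v : ℝ → H} (hv : Adm v) (z t : ℝ) : ‖Kop v z t‖ₑ ^ 2 ≤ 4 := by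
  have : ‖Kop v z t‖ₑ ≤ 2 := by
    rw [← ofReal_norm]
    calc ENNReal.ofReal ‖Kop v z t‖ ≤ ENNReal.ofReal 2 := ENNReal.ofReal_le_ofReal (Kop_bound hv z t)
      _ = 2 := by simp
  calc ‖Kop v z t‖ₑ ^ 2 ≤ 2 ^ 2 := by gcongr
    _ = 4 := by norm_num

lemma ae_ne_zero_restrict : ∀ᵐ z ∂(volume.restrict (Icc (-2:ℝ) 2)), z ≠ 0 := by
  apply ae_restrict_of_ae
  have : ({0}ᶜ : Set ℝ) ∈ ae (volume : Measure ℝ) := by
    rw [mem_ae_iff, compl_compl]; exact Real.volume_singleton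
  exact this

lemma Lop_pow_le {a : ℝ} (ha : 1 < a) {v : ℝ → H} (hv : Adm v) (t : ℝ) :
    (Lop v t) ^ a ≤ (∫⁻ z in Icc (-2:ℝ) 2, ENNReal.ofReal (|z| ^ (-(1/2) : ℝ))) ^ (a - 1) *
      ∫⁻ z in Icc (-2:ℝ) 2, ENNReal.ofReal (|z| ^ ((a - 1) / 2)) * (‖Kop v z t‖ₑ ^ 2) ^ a := by
  have ha0 : 0 < a := by linarith
  set a' : ℝ := a / (a - 1) with ha'
  have hpq : a'.HolderConjugate a := by
    rw [ha']
    exact (Real.HolderConjugate.conjExponent ha).symm
  set β : ℝ := (a - 1) / (2 * a) with hβ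
  have e1 : Lop v t = ∫⁻ z in Icc (-2:ℝ) 2, ‖Kop v z t‖ₑ ^ 2 := by
    rw [Lop, Uop_L4 hv, ← lintegral_indicator measurableSet_Icc]
    congr 1
    ext z
    by_cases h : z ∈ Icc (-2:ℝ) 2
    · rw [indicator_of_mem h]
    · rw [indicator_of_notMem h, Kop_supp hv z t h]; simp
  have e2 : ∫⁻ z in Icc (-2:ℝ) 2, ‖Kop v z t‖ₑ ^ 2 =
      ∫⁻ z in Icc (-2:ℝ) 2, ((fun z : ℝ => ENNReal.ofReal (|z| ^ (-β))) *
        (fun z : ℝ => ENNReal.ofReal (|z| ^ β) * ‖Kop v z t‖ₑ ^ 2)) z := by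
    apply lintegral_congr_ae
    filter_upwards [ae_ne_zero_restrict] with z hz
    have hz' : 0 < |z| := abs_pos.2 hz
    rw [Pi.mul_apply, ← mul_assoc, ← ENNReal.ofReal_mul (by positivity), ← Real.rpow_add hz']
    simp
  have hmK : Measurable (fun z => ‖Kop v z t‖ₑ ^ 2) :=
    ((Kop_zmeas hv t).measurable.enorm).pow_const 2
  have hm1 : ∀ r : ℝ, Measurable (fun z : ℝ => ENNReal.ofReal (|z| ^ r)) := by
    intro r
    exact (measurable_norm.pow_const r).ennreal_ofReal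
  have e3 := ENNReal.lintegral_mul_le_Lp_mul_Lq (volume.restrict (Icc (-2:ℝ) 2)) hpq
    (hm1 (-β)).aemeasurable ((hm1 β).mul hmK).aemeasurable
  rw [e1, e2]
  calc (∫⁻ z in Icc (-2:ℝ) 2, ((fun z : ℝ => ENNReal.ofReal (|z| ^ (-β))) *
        (fun z : ℝ => ENNReal.ofReal (|z| ^ β) * ‖Kop v z t‖ₑ ^ 2)) z) ^ a
      ≤ ((∫⁻ z in Icc (-2:ℝ) 2, (ENNReal.ofReal (|z| ^ (-β))) ^ a') ^ (1 / a') *
        (∫⁻ z in Icc (-2:ℝ) 2, (ENNReal.ofReal (|z| ^ β) * ‖Kop v z t‖ₑ ^ 2) ^ a) ^ (1 / a)) ^ a :=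
        ENNReal.rpow_le_rpow e3 ha0.le
    _ = _ := by
        rw [ENNReal.mul_rpow_of_nonneg _ _ ha0.le, ← ENNReal.rpow_mul, ← ENNReal.rpow_mul]
        have h1 : 1 / a' * a = a - 1 := by
          rw [ha']; field_simp
        have h2 : 1 / a * a = 1 := by field_simp
        rw [h1, h2, ENNReal.rpow_one]
        congr 2
        · congr 1
          ext z
          rw [ENNReal.ofReal_rpow_of_nonneg (by positivity) (by rw [ha']; apply div_nonneg <;> linarith)]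
          congr 1
          rw [← Real.rpow_mul (abs_nonneg _)]
          congr 1
          rw [ha', hβ]
          have : a - 1 ≠ 0 := by linarith
          field_simp
        · ext z
          rw [ENNReal.mul_rpow_of_nonneg _ _ ha0.le,
            ENNReal.ofReal_rpow_of_nonneg (by positivity) ha0.le]
          congr 2
          rw [← Real.rpow_mul (abs_nonneg _)]
          congr 1
          rw [hβ]
          field_simp

/-- Time integrated bound: `∫ L(t)^a dt ≤ C_a` for every `a > 1`. -/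
theorem Lop_time {a : ℝ} (ha : 1 < a) {v : ℝ → H} (hv : Adm v) :
    ∫⁻ t, (Lop v t) ^ a ≤ Ca a := by
  have hm1 : ∀ r : ℝ, Measurable (fun z : ℝ => ENNReal.ofReal (|z| ^ r)) := by
    intro r
    exact (measurable_norm.pow_const r).ennreal_ofReal
  have hmK : Measurable (fun p : ℝ × ℝ => ‖Kop v p.1 p.2‖ₑ ^ 2) :=
    ((sm_Kop hv).measurable.enorm).pow_const 2
  have hpt : ∀ z t, (‖Kop v z t‖ₑ ^ 2) ^ a ≤ 4 ^ (a - 1) * ‖Kop v z t‖ₑ ^ 2 := by
    intro z t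
    have h := Kop_enorm_sq_le hv z t
    have hne : ‖Kop v z t‖ₑ ^ 2 ≠ ∞ := (h.trans_lt (by norm_num)).ne
    calc (‖Kop v z t‖ₑ ^ 2) ^ a = (‖Kop v z t‖ₑ ^ 2) ^ ((a - 1) + 1) := by ring_nf
      _ = (‖Kop v z t‖ₑ ^ 2) ^ (a - 1) * (‖Kop v z t‖ₑ ^ 2) := by
          rw [ENNReal.rpow_add_of_nonneg _ _ (by linarith) (by norm_num), ENNReal.rpow_one]
      _ ≤ 4 ^ (a - 1) * ‖Kop v z t‖ₑ ^ 2 := by
          gcongr
  calc ∫⁻ t, (Lop v t) ^ a
      ≤ ∫⁻ t, (∫⁻ z in Icc (-2:ℝ) 2, ENNReal.ofReal (|z| ^ (-(1/2) : ℝ))) ^ (a - 1) *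
        ∫⁻ z in Icc (-2:ℝ) 2, ENNReal.ofReal (|z| ^ ((a - 1) / 2)) *
          (4 ^ (a - 1) * ‖Kop v z t‖ₑ ^ 2) := by
        apply lintegral_mono
        intro t
        refine (Lop_pow_le ha hv t).trans ?_
        refine mul_le_mul_right (lintegral_mono fun z => ?_) _
        exact mul_le_mul_right (hpt z t) _
    _ = (∫⁻ z in Icc (-2:ℝ) 2, ENNReal.ofReal (|z| ^ (-(1/2) : ℝ))) ^ (a - 1) *
        ∫⁻ t, ∫⁻ z in Icc (-2:ℝ) 2, ENNReal.ofReal (|z| ^ ((a - 1) / 2)) *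
          (4 ^ (a - 1) * ‖Kop v z t‖ₑ ^ 2) := by
        rw [lintegral_const_mul']
        exact ENNReal.rpow_ne_top_of_nonneg (by linarith)
          (lintegral_abs_rpow_lt_top (by norm_num)).ne
    _ = (∫⁻ z in Icc (-2:ℝ) 2, ENNReal.ofReal (|z| ^ (-(1/2) : ℝ))) ^ (a - 1) *
        ∫⁻ z in Icc (-2:ℝ) 2, ∫⁻ t, ENNReal.ofReal (|z| ^ ((a - 1) / 2)) *
          (4 ^ (a - 1) * ‖Kop v z t‖ₑ ^ 2) := by
        congr 1
        apply lintegral_lintegral_swap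
        apply Measurable.aemeasurable
        apply Measurable.mul
        · exact (hm1 _).comp measurable_snd
        · exact (hmK.comp measurable_swap).const_mul _
    _ ≤ (∫⁻ z in Icc (-2:ℝ) 2, ENNReal.ofReal (|z| ^ (-(1/2) : ℝ))) ^ (a - 1) *
        ∫⁻ z in Icc (-2:ℝ) 2, 4 ^ (a - 1) * ENNReal.ofReal (|z| ^ ((a - 1) / 2 - 1)) := by
        refine mul_le_mul_right (lintegral_mono_ae ?_) _
        filter_upwards [ae_ne_zero_restrict] with z hz
        have hz' : 0 < |z| := abs_pos.2 hz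
        rw [lintegral_const_mul' _ _ ENNReal.ofReal_ne_top, lintegral_const_mul']
        · calc ENNReal.ofReal (|z| ^ ((a - 1) / 2)) * (4 ^ (a - 1) * ∫⁻ t, ‖Kop v z t‖ₑ ^ 2)
              ≤ ENNReal.ofReal (|z| ^ ((a - 1) / 2)) * (4 ^ (a - 1) * ENNReal.ofReal |z|⁻¹) := by
                gcongr
                exact Kop_time hv hz
            _ = 4 ^ (a - 1) * ENNReal.ofReal (|z| ^ ((a - 1) / 2 - 1)) := by
                rw [mul_left_comm, ← ENNReal.ofReal_mul (by positivity), Real.rpow_sub_one hz'.ne']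
                rfl
        · exact ENNReal.rpow_ne_top_of_nonneg (by linarith) (by norm_num)
    _ = Ca a := by
        rw [lintegral_const_mul' _ _ (ENNReal.rpow_ne_top_of_nonneg (by linarith) (by norm_num))]
        rfl

end Pool.Agent.H.MP_b7167f_an
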