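import Mathlib
import Pool.Agent.H.MP_b7167f_an.TimeBound

open MeasureTheory FourierTransform Set
open scoped ENNReal NNReal ComplexConjugate InnerProductSpace

namespace Pool.Agent.H.MP_b7167f_an

lemma stronglyMeasurable_pi' {α ι : Type*} [MeasurableSpace α] [Fintype ι] {E : ι → Type*}
    [∀ i, TopologicalSpace (E i)] {f : α → ∀ i, E i}
    (hf : ∀ i, StronglyMeasurable (fun x => f x i)) : StronglyMeasurable f := by
  refine ⟨fun n => ⟨fun x i => (hf i).approx n x, ?_, ?_⟩, fun x => ?_⟩
  · intro y
    have : (fun x i => (hf i).approx n x) ⁻¹' {y} = ⋂ i, (hf i).approx n ⁻¹' {y i} := by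
      ext x
      simp [funext_iff]
    rw [this]
    exact MeasurableSet.iInter fun i => ((hf i).approx n).measurableSet_fiber _
  · apply (Set.Finite.pi (fun i => ((hf i).approx n).finite_range)).subset
    rintro _ ⟨x, rfl⟩
    simp
  · rw [tendsto_pi_nhds]
    intro i
    exact (hf i).tendsto_approx x

/-- Tonelli for products of one-variable functions. -/
theorem lintegral_fin_prod {n : ℕ} {f : Fin n → ℝ → ℝ≥0∞} (hf : ∀ i, Measurable (f i)) :
    ∫⁻ x : Fin n → ℝ, ∏ i, f i (x i) = ∏ i, ∫⁻ x, f i x := by
  induction n with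
  | zero => simp [volume_pi]
  | succ n ih =>
    have h := (volume_preserving_piFinSuccAbove (fun _ : Fin (n + 1) => ℝ) 0).symm
    rw [← h.lintegral_comp_emb (MeasurableEquiv.measurableEmbedding _)]
    simp_rw [MeasurableEquiv.piFinSuccAbove_symm_apply, Fin.insertNthEquiv,
      Fin.prod_univ_succ, Fin.insertNth_zero, Equiv.coe_fn_mk, Fin.cons_succ,
      Fin.cons_zero, cast_eq]
    rw [Measure.volume_eq_prod]
    rw [lintegral_prod_mul (f := f 0) (g := fun y : Fin n → ℝ => ∏ i : Fin n, f i.succ (y i))]
    · rw [ih (fun i => hf _)]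
    · exact (hf 0).aemeasurable
    · apply Measurable.aemeasurable
      exact Finset.measurable_fun_prod _ fun i _ => (hf i.succ).comp (measurable_pi_apply i)

/-- Integral of a multilinear map applied to one-variable functions. -/
theorem integral_multilinear {n : ℕ} {H : Fin n → Type*} [∀ i, NormedAddCommGroup (H i)]
    [∀ i, NormedSpace ℂ (H i)] [∀ i, CompleteSpace (H i)]
    {G : Type*} [NormedAddCommGroup G] [NormedSpace ℂ G] [CompleteSpace G]
    (T : ContinuousMultilinearMap ℂ H G) {g : ∀ i, ℝ → H i}
    (hg : ∀ i, Integrable (g i)) (hgm : ∀ i, StronglyMeasurable (g i)) :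
    Integrable (fun ξ : Fin n → ℝ => T (fun i => g i (ξ i))) ∧
    ∫ ξ : Fin n → ℝ, T (fun i => g i (ξ i)) = T (fun i => ∫ s, g i s) := by
  have hint : Integrable (fun ξ : Fin n → ℝ => T (fun i => g i (ξ i))) := by
    have hb : Integrable (fun ξ : Fin n → ℝ => ‖T‖ * ∏ i, ‖g i (ξ i)‖) := by
      apply Integrable.const_mul
      exact Integrable.fintype_prod (f := fun i s => ‖g i s‖) (fun i => (hg i).norm)
    apply hb.mono'
    · apply StronglyMeasurable.aestronglyMeasurable
      apply T.cont.comp_stronglyMeasurable
      apply stronglyMeasurable_pi'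
      intro i
      exact (hgm i).comp_measurable (measurable_pi_apply i)
    · exact Filter.Eventually.of_forall fun ξ => T.le_opNorm _
  refine ⟨hint, ?_⟩
  induction n generalizing G with
  | zero =>
    have : ∀ ξ : Fin 0 → ℝ, (fun i => g i (ξ i)) = (fun i => ∫ s, g i s) := by
      intro ξ; ext i; exact Fin.elim0 i
    simp_rw [this]
    simp [volume_pi, measureReal_def]
  | succ n ih =>
    have h := (volume_preserving_piFinSuccAbove (fun _ : Fin (n + 1) => ℝ) 0).symm
    have hint' := (h.integrable_comp_emb (MeasurableEquiv.measurableEmbedding _)).2 hint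
    rw [← h.integral_comp (MeasurableEquiv.measurableEmbedding _)]
    have key : ∀ p : ℝ × (Fin n → ℝ),
        T (fun i => g i ((MeasurableEquiv.piFinSuccAbove (fun _ : Fin (n + 1) => ℝ) 0).symm p i))
        = T.curryLeft (g 0 p.1) (fun i : Fin n => g i.succ (p.2 i)) := by
      intro p
      rw [ContinuousMultilinearMap.curryLeft_apply]
      congr 1
      ext i
      refine Fin.cases ?_ (fun j => ?_) i
      · simp [MeasurableEquiv.piFinSuccAbove_symm_apply, Fin.insertNthEquiv]
      · simp [MeasurableEquiv.piFinSuccAbove_symm_apply, Fin.insertNthEquiv]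
    simp only [Function.comp_def, key] at hint' ⊢
    rw [Measure.volume_eq_prod] at hint' ⊢
    rw [integral_prod _ hint']
    have h1 : ∀ s : ℝ, ∫ y : Fin n → ℝ, T.curryLeft (g 0 s) (fun i : Fin n => g i.succ (y i))
        = T.curryLeft (g 0 s) (fun i : Fin n => ∫ r, g i.succ r) := by
      intro s
      have hb : Integrable (fun ξ : Fin n → ℝ =>
          T.curryLeft (g 0 s) (fun i : Fin n => g i.succ (ξ i))) := by
        have hb : Integrable (fun ξ : Fin n → ℝ =>
            ‖T.curryLeft (g 0 s)‖ * ∏ i : Fin n, ‖g i.succ (ξ i)‖) := by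
          apply Integrable.const_mul
          exact Integrable.fintype_prod (f := fun (i : Fin n) s => ‖g i.succ s‖)
            (fun i => (hg _).norm)
        apply hb.mono'
        · apply StronglyMeasurable.aestronglyMeasurable
          apply (T.curryLeft (g 0 s)).cont.comp_stronglyMeasurable
          apply stronglyMeasurable_pi'
          intro i
          exact (hgm i.succ).comp_measurable (measurable_pi_apply i)
        · exact Filter.Eventually.of_forall fun ξ => ContinuousMultilinearMap.le_opNorm _ _
      exact ih (H := fun i => H i.succ) (T.curryLeft (g 0 s)) (fun i => hg i.succ)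
        (fun i => hgm i.succ) hb
    simp_rw [h1]
    have h2 := (ContinuousMultilinearMap.apply ℂ (fun i : Fin n => H i.succ) G
      (fun i : Fin n => ∫ r, g i.succ r)).comp T.curryLeft |>.integral_comp_comm (hg 0)
    simp only [ContinuousLinearMap.comp_apply, ContinuousMultilinearMap.apply_apply] at h2
    rw [h2, ContinuousMultilinearMap.curryLeft_apply]
    congr 1
    ext i
    refine Fin.cases ?_ (fun j => ?_) i <;> simp

end Pool.Agent.H.MP_b7167f_an
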