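import Mathlib
import Pool.Agent.H.MP_b7167f_an.Multi

open MeasureTheory FourierTransform Set
open scoped ENNReal NNReal ComplexConjugate InnerProductSpace

namespace Pool.Agent.H.MP_b7167f_an

variable {H : Type*} [NormedAddCommGroup H] [InnerProductSpace ℂ H] [CompleteSpace H]

lemma sm_Uop {v : ℝ → H} (hv : Adm v) :
    StronglyMeasurable (fun p : ℝ × ℝ => Uop v p.1 p.2) := by
  unfold Uop
  apply StronglyMeasurable.integral_prod_right' (f := fun q : (ℝ × ℝ) × ℝ =>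
    ch (q.2 * q.1.1 + q.2 ^ 2 * q.1.2) • v q.2)
  apply StronglyMeasurable.smul
  · exact Continuous.stronglyMeasurable (by fun_prop)
  · exact hv.sm.comp_measurable measurable_snd

lemma meas_slice {H' : Type*} [NormedAddCommGroup H'] {G : ℝ × ℝ → H'}
    (hG : StronglyMeasurable G) (t r : ℝ) : Measurable (fun x : ℝ => ‖G (x, t)‖ₑ ^ r) := by
  have h : Measurable (fun x : ℝ => ((x, t) : ℝ × ℝ)) := by fun_prop
  exact (hG.enorm.comp h).pow_const r

lemma meas_lint {H' : Type*} [NormedAddCommGroup H'] {G : ℝ × ℝ → H'}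
    (hG : StronglyMeasurable G) (r : ℝ) : Measurable (fun t : ℝ => ∫⁻ x, ‖G (x, t)‖ₑ ^ r) := by
  have h1 : Measurable (fun p : ℝ × ℝ => ‖G p‖ₑ ^ r) := hG.enorm.pow_const r
  exact h1.lintegral_prod_left'

lemma measurable_enorm_Uop {v : ℝ → H} (hv : Adm v) (r : ℝ) :
    Measurable (fun p : ℝ × ℝ => ‖Uop v p.1 p.2‖ₑ ^ r) :=
  (sm_Uop hv).enorm.pow_const r

lemma measurable_enorm_Uop_x {v : ℝ → H} (hv : Adm v) (t r : ℝ) :
    Measurable (fun x : ℝ => ‖Uop v x t‖ₑ ^ r) :=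
  meas_slice (sm_Uop hv) t r

lemma measurable_lint_Uop {v : ℝ → H} (hv : Adm v) (r : ℝ) :
    Measurable (fun t : ℝ => ∫⁻ x, ‖Uop v x t‖ₑ ^ r) :=
  meas_lint (sm_Uop hv) r

lemma measurable_Lop {v : ℝ → H} (hv : Adm v) : Measurable (Lop v) := by
  have h := measurable_lint_Uop hv (4:ℕ)
  have h2 : Lop v = fun t : ℝ => ∫⁻ x, ‖Uop v x t‖ₑ ^ ((4:ℕ):ℝ) := by
    funext t
    simp only [ENNReal.rpow_natCast]
    rfl
  rw [h2]
  exact h

lemma norm_Uop_le {v : ℝ → H} (hv : Adm v) (x t : ℝ) : ‖Uop v x t‖ ≤ 2 := by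
  unfold Uop
  calc ‖∫ s, ch (s * x + s ^ 2 * t) • v s‖
      ≤ ∫ s, indicator (Icc (-1:ℝ) 1) (fun _ => (1:ℝ)) s := by
        apply norm_integral_le_of_norm_le
        · rw [integrable_indicator_iff measurableSet_Icc]
          simp
        · refine Filter.Eventually.of_forall fun s => ?_
          rw [norm_smul, norm_ch, one_mul]
          by_cases h : s ∈ Icc (-1:ℝ) 1
          · simp only [h, indicator_of_mem]; exact hv.bd s
          · simp [h, hv.supp s h]
    _ = 2 := by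
        rw [integral_indicator measurableSet_Icc]
        simp
        norm_num

lemma enorm_Uop_le {v : ℝ → H} (hv : Adm v) (x t : ℝ) : ‖Uop v x t‖ₑ ≤ 2 := by
  rw [← ofReal_norm]
  calc ENNReal.ofReal ‖Uop v x t‖ ≤ ENNReal.ofReal 2 := ENNReal.ofReal_le_ofReal (norm_Uop_le hv x t)
    _ = 2 := by simp

/-- Fixed time interpolation between `L²` and `L⁴`. -/
lemma Uop_Lq {v : ℝ → H} (hv : Adm v) (t : ℝ) {q : ℝ} (hq2 : 2 ≤ q) (hq4 : q ≤ 4) :
    ∫⁻ x, ‖Uop v x t‖ₑ ^ q ≤ 2 ^ ((4 - q) / 2) * (Lop v t) ^ ((q - 2) / 2) := by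
  have h1 : ∀ x, ‖Uop v x t‖ₑ ^ q
      = (‖Uop v x t‖ₑ ^ 2) ^ ((4 - q) / 2) * (‖Uop v x t‖ₑ ^ 4) ^ ((q - 2) / 2) := by
    intro x
    rw [← ENNReal.rpow_natCast, ← ENNReal.rpow_natCast, ← ENNReal.rpow_mul, ← ENNReal.rpow_mul,
      ← ENNReal.rpow_add_of_nonneg]
    · congr 1
      push_cast
      ring
    · push_cast; linarith
    · push_cast; linarith
  simp_rw [h1]
  have hm := measurable_enorm_Uop_x hv t 1
  simp only [ENNReal.rpow_one] at hm
  refine (ENNReal.lintegral_mul_norm_pow_le (hm.pow_const 2).aemeasurable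
    (hm.pow_const 4).aemeasurable (by linarith) (by linarith) (by ring)).trans ?_
  rw [Uop_L2 hv]
  refine mul_le_mul_left ?_ _
  exact ENNReal.rpow_le_rpow (lintegral_enorm_sq_le hv) (by linarith)

/-- Time integrated product bound. -/
theorem prod_time_bound {n : ℕ} (hn : 0 < n) {q : ℝ} (hq2 : 2 ≤ q) (hq4 : q ≤ 4)
    (ha : 1 < n * (q - 2) / 2)
    {H : Fin n → Type*} [∀ i, NormedAddCommGroup (H i)]
    [∀ i, InnerProductSpace ℂ (H i)] [∀ i, CompleteSpace (H i)]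
    {v : ∀ i, ℝ → H i} (hv : ∀ i, Adm (v i)) :
    ∫⁻ t, ∏ j, ∫⁻ x, ‖Uop (v j) x t‖ₑ ^ q
      ≤ (2 ^ ((4 - q) / 2)) ^ n * Ca (n * (q - 2) / 2) := by
  have hn' : (0:ℝ) < n := by exact_mod_cast hn
  set a : ℝ := n * (q - 2) / 2 with hadef
  calc ∫⁻ t, ∏ j, ∫⁻ x, ‖Uop (v j) x t‖ₑ ^ q
      ≤ ∫⁻ t, ∏ j : Fin n, (2 ^ ((4 - q) / 2) * (Lop (v j) t) ^ ((q - 2) / 2)) := by
        apply lintegral_mono
        intro t
        exact Finset.prod_le_prod' fun j _ => Uop_Lq (hv j) t hq2 hq4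
    _ = (2 ^ ((4 - q) / 2)) ^ n * ∫⁻ t, ∏ j : Fin n, (Lop (v j) t ^ a) ^ ((1:ℝ) / n) := by
        rw [← lintegral_const_mul' _ _ (ENNReal.pow_ne_top
          (ENNReal.rpow_ne_top_of_nonneg (by linarith) (by norm_num)))]
        congr 1
        ext t
        rw [Finset.prod_mul_distrib, Finset.prod_const, Finset.card_univ, Fintype.card_fin]
        congr 1
        apply Finset.prod_congr rfl
        intro j _
        rw [← ENNReal.rpow_mul]
        congr 1
        rw [hadef]; field_simp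
    _ ≤ (2 ^ ((4 - q) / 2)) ^ n * ∏ j : Fin n, (∫⁻ t, Lop (v j) t ^ a) ^ ((1:ℝ) / n) := by
        refine mul_le_mul_right ?_ _
        apply ENNReal.lintegral_prod_norm_pow_le
        · intro j _
          exact ((measurable_Lop (hv j)).pow_const a).aemeasurable
        · rw [Finset.sum_const, Finset.card_univ, Fintype.card_fin, nsmul_eq_mul]
          field_simp
        · intro j _; positivity
    _ ≤ (2 ^ ((4 - q) / 2)) ^ n * ∏ _j : Fin n, (Ca a) ^ ((1:ℝ) / n) := by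
        refine mul_le_mul_right ?_ _
        exact Finset.prod_le_prod' fun j _ =>
          ENNReal.rpow_le_rpow (Lop_time ha (hv j)) (by positivity)
    _ = (2 ^ ((4 - q) / 2)) ^ n * Ca a := by
        congr 1
        rw [Finset.prod_const, Finset.card_univ, Fintype.card_fin, ← ENNReal.rpow_natCast,
          ← ENNReal.rpow_mul]
        rw [one_div, inv_mul_cancel₀ hn'.ne', ENNReal.rpow_one]

end Pool.Agent.H.MP_b7167f_an
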