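import Mathlib
import Pool.Agent.H.MP_b7167f_an.Fixed

open MeasureTheory FourierTransform Set
open scoped ENNReal NNReal ComplexConjugate InnerProductSpace

namespace Pool.Agent.H.MP_b7167f_an

/-- Abstract estimate: a Hilbert-valued one-dimensional extension composed with a family of
functionals satisfying an `L²` bound and a decay bound. -/
theorem abs_rough {𝓗 : Type*} [NormedAddCommGroup 𝓗] [InnerProductSpace ℂ 𝓗] [CompleteSpace 𝓗]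
    {X : Type*} [MeasurableSpace X] {μ : Measure X} [SFinite μ]
    {κ : X → ℝ → 𝓗} (hκm : StronglyMeasurable (fun p : X × ℝ => κ p.1 p.2))
    (hκ2 : ∀ t h, ∫⁻ x, ‖⟪κ x t, h⟫_ℂ‖ₑ ^ 2 ∂μ ≤ ‖h‖ₑ ^ 2)
    {m : ℕ} {M : ℝ≥0∞} (hM : M ≠ ∞) {w : ℝ → ℝ≥0∞} (hw : Measurable w)
    (hκi : ∀ x t, ‖κ x t‖ₑ ^ 2 ≤ M * w t ^ m)
    {q : ℝ} (hq2 : 2 < q) (hq4 : q ≤ 4) (ha : 1 < ((m:ℝ) + 1) * (q - 2) / 2)
    {v : ℝ → 𝓗} (hv : Adm v) :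
    ∫⁻ p : (ℝ × X) × ℝ, ‖⟪κ p.1.2 p.2, Uop v p.1.1 p.2⟫_ℂ‖ₑ ^ q ∂((volume.prod μ).prod volume)
      ≤ M ^ ((q - 2) / 2) * (2 ^ ((4 - q) / 2) *
        ((∫⁻ t, w t ^ (((m:ℝ) + 1) * (q - 2) / 2)) ^ ((m:ℝ) / (m + 1)) *
          (Ca (((m:ℝ) + 1) * (q - 2) / 2)) ^ ((1:ℝ) / (m + 1)))) := by
  set a : ℝ := ((m:ℝ) + 1) * (q - 2) / 2 with hadef
  have hm0 : (0:ℝ) ≤ m := Nat.cast_nonneg m
  have hUm : StronglyMeasurable (fun p : (ℝ × X) × ℝ => Uop v p.1.1 p.2) := by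
    have h1 := sm_Uop hv
    have h2 : Measurable (fun p : (ℝ × X) × ℝ => ((p.1.1, p.2) : ℝ × ℝ)) := by fun_prop
    exact h1.comp_measurable h2
  have hκm' : StronglyMeasurable (fun p : (ℝ × X) × ℝ => κ p.1.2 p.2) := by
    have h2 : Measurable (fun p : (ℝ × X) × ℝ => ((p.1.2, p.2) : X × ℝ)) := by fun_prop
    exact hκm.comp_measurable h2
  have hmeas : Measurable (fun p : (ℝ × X) × ℝ => ‖⟪κ p.1.2 p.2, Uop v p.1.1 p.2⟫_ℂ‖ₑ ^ q) :=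
    ((hκm'.inner hUm).measurable.enorm).pow_const q
  have hq0 : 0 ≤ q - 2 := by linarith
  -- fixed time and fixed first variable
  have hfix : ∀ (t : ℝ) (h : 𝓗), ∫⁻ x, ‖⟪κ x t, h⟫_ℂ‖ₑ ^ q ∂μ
      ≤ (M * w t ^ m) ^ ((q - 2) / 2) * ‖h‖ₑ ^ q := by
    intro t h
    have hpt : ∀ x, ‖⟪κ x t, h⟫_ℂ‖ₑ ^ q
        ≤ ((M * w t ^ m) ^ ((q - 2) / 2) * ‖h‖ₑ ^ (q - 2)) * ‖⟪κ x t, h⟫_ℂ‖ₑ ^ 2 := by
      intro x
      have h1 : ‖⟪κ x t, h⟫_ℂ‖ₑ ≤ ‖κ x t‖ₑ * ‖h‖ₑ := by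
        rw [← ofReal_norm, ← ofReal_norm, ← ofReal_norm, ← ENNReal.ofReal_mul (norm_nonneg _)]
        exact ENNReal.ofReal_le_ofReal (norm_inner_le_norm _ _)
      calc ‖⟪κ x t, h⟫_ℂ‖ₑ ^ q = ‖⟪κ x t, h⟫_ℂ‖ₑ ^ (q - 2) * ‖⟪κ x t, h⟫_ℂ‖ₑ ^ 2 := by
            rw [← ENNReal.rpow_natCast, ← ENNReal.rpow_add_of_nonneg _ _ hq0 (by norm_num)]
            congr 1; norm_num
        _ ≤ (‖κ x t‖ₑ * ‖h‖ₑ) ^ (q - 2) * ‖⟪κ x t, h⟫_ℂ‖ₑ ^ 2 := by gcongr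
        _ = ((‖κ x t‖ₑ ^ 2) ^ ((q - 2) / 2) * ‖h‖ₑ ^ (q - 2)) * ‖⟪κ x t, h⟫_ℂ‖ₑ ^ 2 := by
            rw [ENNReal.mul_rpow_of_nonneg _ _ hq0, ← ENNReal.rpow_natCast (‖κ x t‖ₑ) 2,
              ← ENNReal.rpow_mul]
            congr 3
            push_cast; ring
        _ ≤ ((M * w t ^ m) ^ ((q - 2) / 2) * ‖h‖ₑ ^ (q - 2)) * ‖⟪κ x t, h⟫_ℂ‖ₑ ^ 2 := by
            gcongr
            exact hκi x t
    have hmx : Measurable (fun x => ‖⟪κ x t, h⟫_ℂ‖ₑ ^ 2) := by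
      have h2 : Measurable (fun x : X => ((x, t) : X × ℝ)) := by fun_prop
      exact (((hκm.comp_measurable h2).inner stronglyMeasurable_const).measurable.enorm).pow_const 2
    calc ∫⁻ x, ‖⟪κ x t, h⟫_ℂ‖ₑ ^ q ∂μ
        ≤ ∫⁻ x, ((M * w t ^ m) ^ ((q - 2) / 2) * ‖h‖ₑ ^ (q - 2)) * ‖⟪κ x t, h⟫_ℂ‖ₑ ^ 2 ∂μ :=
          lintegral_mono hpt
      _ = ((M * w t ^ m) ^ ((q - 2) / 2) * ‖h‖ₑ ^ (q - 2)) * ∫⁻ x, ‖⟪κ x t, h⟫_ℂ‖ₑ ^ 2 ∂μ :=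
          lintegral_const_mul _ hmx
      _ ≤ ((M * w t ^ m) ^ ((q - 2) / 2) * ‖h‖ₑ ^ (q - 2)) * ‖h‖ₑ ^ 2 := by
          gcongr
          exact hκ2 t h
      _ = (M * w t ^ m) ^ ((q - 2) / 2) * ‖h‖ₑ ^ q := by
          rw [mul_assoc, ← ENNReal.rpow_natCast (‖h‖ₑ) 2,
            ← ENNReal.rpow_add_of_nonneg _ _ hq0 (by norm_num)]
          congr 2; norm_num
  have hmU : ∀ t : ℝ, Measurable (fun x : ℝ => ‖Uop v x t‖ₑ ^ q) :=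
    fun t => measurable_enorm_Uop_x hv t q
  calc ∫⁻ p : (ℝ × X) × ℝ, ‖⟪κ p.1.2 p.2, Uop v p.1.1 p.2⟫_ℂ‖ₑ ^ q
          ∂((volume.prod μ).prod volume)
      = ∫⁻ t, ∫⁻ z : ℝ × X, ‖⟪κ z.2 t, Uop v z.1 t⟫_ℂ‖ₑ ^ q ∂(volume.prod μ) :=
        lintegral_prod_symm _ hmeas.aemeasurable
    _ = ∫⁻ t, ∫⁻ x1, ∫⁻ x, ‖⟪κ x t, Uop v x1 t⟫_ℂ‖ₑ ^ q ∂μ := by
        apply lintegral_congr
        intro t
        have hmt : Measurable (fun z : ℝ × X => ‖⟪κ z.2 t, Uop v z.1 t⟫_ℂ‖ₑ ^ q) :=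
          hmeas.comp (measurable_id.prodMk measurable_const)
        exact lintegral_prod _ hmt.aemeasurable
    _ ≤ ∫⁻ t, ∫⁻ x1, (M * w t ^ m) ^ ((q - 2) / 2) * ‖Uop v x1 t‖ₑ ^ q :=
        lintegral_mono fun t => lintegral_mono fun x1 => hfix t _
    _ = ∫⁻ t, (M * w t ^ m) ^ ((q - 2) / 2) * ∫⁻ x1, ‖Uop v x1 t‖ₑ ^ q := by
        apply lintegral_congr
        intro t
        exact lintegral_const_mul _ (hmU t)
    _ ≤ ∫⁻ t, (M * w t ^ m) ^ ((q - 2) / 2) *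
          (2 ^ ((4 - q) / 2) * (Lop v t) ^ ((q - 2) / 2)) := by
        apply lintegral_mono
        intro t
        exact mul_le_mul_right (Uop_Lq hv t hq2.le hq4) _
    _ = (M ^ ((q - 2) / 2) * 2 ^ ((4 - q) / 2)) *
          ∫⁻ t, (w t ^ a) ^ ((m:ℝ) / (m + 1)) * (Lop v t ^ a) ^ ((1:ℝ) / (m + 1)) := by
        rw [← lintegral_const_mul']
        · apply lintegral_congr
          intro t
          rw [ENNReal.mul_rpow_of_nonneg _ _ (by linarith), ← ENNReal.rpow_mul,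
            ← ENNReal.rpow_mul, ← ENNReal.rpow_natCast, ← ENNReal.rpow_mul]
          have e1 : a * ((m:ℝ) / (m + 1)) = (m:ℝ) * ((q - 2) / 2) := by
            rw [hadef]; field_simp
          have e2 : a * ((1:ℝ) / (m + 1)) = (q - 2) / 2 := by
            rw [hadef]; field_simp
          rw [e1, e2]
          ring
        · apply ENNReal.mul_ne_top
          · exact ENNReal.rpow_ne_top_of_nonneg (by linarith) hM
          · exact ENNReal.rpow_ne_top_of_nonneg (by linarith) (by norm_num)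
    _ ≤ (M ^ ((q - 2) / 2) * 2 ^ ((4 - q) / 2)) *
          ((∫⁻ t, w t ^ a) ^ ((m:ℝ) / (m + 1)) * (∫⁻ t, Lop v t ^ a) ^ ((1:ℝ) / (m + 1))) := by
        refine mul_le_mul_right ?_ _
        apply ENNReal.lintegral_mul_norm_pow_le
        · exact (hw.pow_const a).aemeasurable
        · exact ((measurable_Lop hv).pow_const a).aemeasurable
        · positivity
        · positivity
        · field_simp
    _ ≤ (M ^ ((q - 2) / 2) * 2 ^ ((4 - q) / 2)) *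
          ((∫⁻ t, w t ^ a) ^ ((m:ℝ) / (m + 1)) * (Ca a) ^ ((1:ℝ) / (m + 1))) := by
        gcongr
        exact Lop_time ha hv
    _ = _ := by ring

end Pool.Agent.H.MP_b7167f_an
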