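import Mathlib

open MeasureTheory Set Filter
open scoped ENNReal NNReal Topology

namespace Pool.Agent.H.MP_b7167f_an

/-- quantile of a measure on the line -/
noncomputable def qt (ν : Measure ℝ) (θ : ℝ) : ℝ := sInf {y | θ ≤ ν.real (Iic y)}

variable {ν : Measure ℝ} [IsFiniteMeasure ν]

lemma G_mono : Monotone (fun y => ν.real (Iic y)) := fun _ _ h =>
  measureReal_mono (Iic_subset_Iic.2 h)

lemma exists_G_ge {θ : ℝ} (h : θ < ν.real univ) : ∃ y, θ ≤ ν.real (Iic y) := by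
  have h1 : Tendsto (fun x => ν (Iic x)) atTop (𝓝 (ν univ)) := tendsto_measure_Iic_atTop ν
  have h2 : Tendsto (fun x => ν.real (Iic x)) atTop (𝓝 (ν.real univ)) :=
    (ENNReal.tendsto_toReal (measure_ne_top ν univ)).comp h1
  obtain ⟨y, hy⟩ := (h2.eventually_const_lt h).exists
  exact ⟨y, hy.le⟩

lemma exists_G_lt {θ : ℝ} (h : 0 < θ) : ∃ y, ν.real (Iic y) < θ := by
  have h1 : Tendsto (fun x => ν (Ici x)) atBot (𝓝 (ν univ)) := tendsto_measure_Ici_atBot ν
  have h2 : Tendsto (fun x => ν.real (Ici x)) atBot (𝓝 (ν.real univ)) :=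
    (ENNReal.tendsto_toReal (measure_ne_top ν univ)).comp h1
  obtain ⟨y, hy⟩ := (h2.eventually_const_lt (by linarith : ν.real univ - θ < ν.real univ)).exists
  refine ⟨y - 1, ?_⟩
  have h3 : Disjoint (Iic (y - 1)) (Ici y) := by
    rw [Set.disjoint_left]
    intro z hz1 hz2
    rw [mem_Iic] at hz1; rw [mem_Ici] at hz2
    linarith
  have h4 : ν.real (Iic (y - 1)) + ν.real (Ici y) ≤ ν.real univ := by
    rw [← measureReal_union h3 measurableSet_Ici]
    exact measureReal_mono (subset_univ _)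
  linarith

lemma qt_bdd {θ : ℝ} (h : 0 < θ) : BddBelow {y | θ ≤ ν.real (Iic y)} := by
  obtain ⟨y0, hy0⟩ := exists_G_lt (ν := ν) h
  refine ⟨y0, fun y hy => ?_⟩
  by_contra hcon
  push Not at hcon
  have := G_mono (ν := ν) hcon.le
  simp only at this
  exact absurd (hy.trans this) (not_le.2 hy0)

lemma le_G_qt {θ : ℝ} (h1 : θ < ν.real univ) : θ ≤ ν.real (Iic (qt ν θ)) := by
  have hne : {y | θ ≤ ν.real (Iic y)}.Nonempty := exists_G_ge h1
  have hstep : ∀ n : ℕ, θ ≤ ν.real (Iic (qt ν θ + 1 / ((n:ℝ) + 1))) := by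
    intro n
    have hpos : (0:ℝ) < 1 / ((n:ℝ) + 1) := by positivity
    obtain ⟨y, hy, hy2⟩ := exists_lt_of_csInf_lt hne (by linarith : qt ν θ < qt ν θ + 1 / ((n:ℝ) + 1))
    exact (show θ ≤ ν.real (Iic y) from hy).trans (G_mono hy2.le)
  have hanti : Antitone (fun n : ℕ => Iic (qt ν θ + 1 / ((n:ℝ) + 1))) := by
    intro m n hmn
    apply Iic_subset_Iic.2
    have : 1 / ((n:ℝ) + 1) ≤ 1 / ((m:ℝ) + 1) := by
      apply one_div_le_one_div_of_le (by positivity)
      have : (m:ℝ) ≤ n := by exact_mod_cast hmn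
      linarith
    linarith
  have hinter : ⋂ n : ℕ, Iic (qt ν θ + 1 / ((n:ℝ) + 1)) = Iic (qt ν θ) := by
    ext z
    simp only [mem_iInter, mem_Iic]
    constructor
    · intro h
      have hl : Tendsto (fun n : ℕ => qt ν θ + 1 / ((n:ℝ) + 1)) atTop (𝓝 (qt ν θ + 0)) :=
        tendsto_const_nhds.add tendsto_one_div_add_atTop_nhds_zero_nat
      rw [add_zero] at hl
      exact ge_of_tendsto' hl h
    · intro h n
      have hpos : (0:ℝ) < 1 / ((n:ℝ) + 1) := by positivity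
      linarith
  have ht : Tendsto (fun n : ℕ => ν (Iic (qt ν θ + 1 / ((n:ℝ) + 1)))) atTop
      (𝓝 (ν (Iic (qt ν θ)))) := by
    rw [← hinter]
    exact tendsto_measure_iInter_atTop (fun n => measurableSet_Iic.nullMeasurableSet) hanti
      ⟨0, measure_ne_top ν _⟩
  have ht2 : Tendsto (fun n : ℕ => ν.real (Iic (qt ν θ + 1 / ((n:ℝ) + 1)))) atTop
      (𝓝 (ν.real (Iic (qt ν θ)))) :=
    (ENNReal.tendsto_toReal (measure_ne_top ν _)).comp ht
  exact ge_of_tendsto' ht2 hstep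

lemma G_lt_of_lt_qt {θ y : ℝ} (h0 : 0 < θ) (h : y < qt ν θ) : ν.real (Iic y) < θ := by
  by_contra hcon
  push Not at hcon
  exact absurd (csInf_le (qt_bdd h0) hcon) (not_le.2 h)

lemma Iio_qt_le {θ : ℝ} (h0 : 0 < θ) : ν.real (Iio (qt ν θ)) ≤ θ := by
  have hmono : Monotone (fun n : ℕ => Iic (qt ν θ - 1 / ((n:ℝ) + 1))) := by
    intro m n hmn
    apply Iic_subset_Iic.2
    have : 1 / ((n:ℝ) + 1) ≤ 1 / ((m:ℝ) + 1) := by
      apply one_div_le_one_div_of_le (by positivity)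
      have : (m:ℝ) ≤ n := by exact_mod_cast hmn
      linarith
    linarith
  have hunion : ⋃ n : ℕ, Iic (qt ν θ - 1 / ((n:ℝ) + 1)) = Iio (qt ν θ) := by
    ext z
    simp only [mem_iUnion, mem_Iic, mem_Iio]
    constructor
    · rintro ⟨n, hn⟩
      have hpos : (0:ℝ) < 1 / ((n:ℝ) + 1) := by positivity
      linarith
    · intro h
      obtain ⟨n, hn⟩ := exists_nat_one_div_lt (sub_pos.2 h)
      exact ⟨n, by linarith⟩
  have ht : Tendsto (fun n : ℕ => ν (Iic (qt ν θ - 1 / ((n:ℝ) + 1)))) atTop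
      (𝓝 (ν (Iio (qt ν θ)))) := by
    rw [← hunion]
    exact tendsto_measure_iUnion_atTop hmono
  have ht2 : Tendsto (fun n : ℕ => ν.real (Iic (qt ν θ - 1 / ((n:ℝ) + 1)))) atTop
      (𝓝 (ν.real (Iio (qt ν θ)))) :=
    (ENNReal.tendsto_toReal (measure_ne_top ν _)).comp ht
  apply le_of_tendsto' ht2
  intro n
  have hpos : (0:ℝ) < 1 / ((n:ℝ) + 1) := by positivity
  exact (G_lt_of_lt_qt h0 (by linarith)).le

lemma qt_mono {θ θ' : ℝ} (h0 : 0 < θ) (h : θ ≤ θ') (h1 : θ' < ν.real univ) :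
    qt ν θ ≤ qt ν θ' := by
  apply csInf_le_csInf (qt_bdd h0) (exists_G_ge h1)
  intro y hy
  exact h.trans hy

lemma Ioo_qt_le {θ θ' : ℝ} (h0 : 0 < θ) (h : θ < θ') (h1 : θ' < ν.real univ) :
    ν.real (Ioo (qt ν θ) (qt ν θ')) ≤ θ' - θ := by
  by_cases hlt : qt ν θ < qt ν θ'
  · have hd : Disjoint (Iic (qt ν θ)) (Ioo (qt ν θ) (qt ν θ')) := by
      rw [Set.disjoint_left]
      intro z hz1 hz2
      exact absurd hz2.1 (not_lt.2 hz1)
    have h2 : ν.real (Iic (qt ν θ)) + ν.real (Ioo (qt ν θ) (qt ν θ')) ≤ ν.real (Iio (qt ν θ')) := by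
      rw [← measureReal_union hd measurableSet_Ioo]
      refine measureReal_mono ?_ (measure_ne_top _ _)
      intro z hz
      rcases hz with hz | hz
      · exact lt_of_le_of_lt hz hlt
      · exact hz.2
    have h3 := le_G_qt (ν := ν) (h.trans h1)
    have h4 := Iio_qt_le (ν := ν) (h0.trans h)
    linarith
  · rw [Ioo_eq_empty hlt]
    simp
    linarith

lemma Ioi_qt_le {θ : ℝ} (h1 : θ < ν.real univ) :
    ν.real (Ioi (qt ν θ)) ≤ ν.real univ - θ := by
  have hd : Disjoint (Iic (qt ν θ)) (Ioi (qt ν θ)) := by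
    rw [Set.disjoint_left]
    intro z hz1 hz2
    exact absurd (mem_Ioi.1 hz2) (not_lt.2 (mem_Iic.1 hz1))
  have h2 : ν.real (Iic (qt ν θ)) + ν.real (Ioi (qt ν θ)) ≤ ν.real univ := by
    rw [← measureReal_union hd measurableSet_Ioi]
    exact measureReal_mono (subset_univ _)
  have h3 := le_G_qt (ν := ν) h1
  linarith

end Pool.Agent.H.MP_b7167f_an
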