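import Mathlib
import Pool.Agent.H.MP_b7167f_an.Quantile

open MeasureTheory Set Filter
open scoped ENNReal NNReal Topology

namespace Pool.Agent.H.MP_b7167f_an

set_option linter.unusedSectionVars false

/-- levels -/
noncomputable def th (l k : ℕ) : ℝ := (k:ℝ) * 2 / 2 ^ l

/-- dyadic quantile cut points -/
noncomputable def tau (ν : Measure ℝ) (l k : ℕ) : ℝ := qt ν (th l k)

lemma th_succ (l k : ℕ) : th (l + 1) (2 * k) = th l k := by
  unfold th
  rw [pow_succ]
  push_cast
  field_simp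

lemma tau_succ (ν : Measure ℝ) (l k : ℕ) : tau ν (l + 1) (2 * k) = tau ν l k := by
  unfold tau; rw [th_succ]

lemma th_pos {l k : ℕ} (hk : 1 ≤ k) : 0 < th l k := by
  unfold th
  have : (0:ℝ) < k := by exact_mod_cast hk
  positivity

lemma th_lt_two {l k : ℕ} (hk : k < 2 ^ l) : th l k < 2 := by
  unfold th
  rw [div_lt_iff₀ (by positivity)]
  have : (k:ℝ) < 2 ^ l := by exact_mod_cast hk
  linarith

lemma th_le {l k k' : ℕ} (hk : k ≤ k') : th l k ≤ th l k' := by
  unfold th
  have : (k:ℝ) ≤ k' := by exact_mod_cast hk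
  gcongr

lemma th_lt {l k k' : ℕ} (hk : k < k') : th l k < th l k' := by
  unfold th
  have : (k:ℝ) < k' := by exact_mod_cast hk
  gcongr

/-- cells of the partition of level `l` -/
def cell (ν : Measure ℝ) (l k : ℕ) : Set ℝ :=
  {y | (k = 0 ∨ tau ν l k ≤ y) ∧ (k + 1 = 2 ^ l ∨ y < tau ν l (k + 1))}

lemma measurableSet_cell (ν : Measure ℝ) (l k : ℕ) : MeasurableSet (cell ν l k) := by
  have e : cell ν l k = ({y | k = 0} ∪ Ici (tau ν l k)) ∩
      ({y | k + 1 = 2 ^ l} ∪ Iio (tau ν l (k + 1))) := by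
    ext y; simp [cell]
  rw [e]
  exact ((MeasurableSet.const _).union measurableSet_Ici).inter
    ((MeasurableSet.const _).union measurableSet_Iio)

variable {ν : Measure ℝ} [IsFiniteMeasure ν]

lemma tau_mono (h2 : ν.real univ = 2) {l k k' : ℕ} (hk : 1 ≤ k) (hkk : k ≤ k')
    (hk' : k' < 2 ^ l) : tau ν l k ≤ tau ν l k' :=
  qt_mono (th_pos hk) (th_le hkk) (by rw [h2]; exact th_lt_two hk')

lemma cell_even_subset (h2 : ν.real univ = 2) {l k : ℕ} (hk : k < 2 ^ l) :
    cell ν (l + 1) (2 * k) ⊆ cell ν l k := by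
  intro y hy
  obtain ⟨h1, h3⟩ := hy
  constructor
  · rcases h1 with h1 | h1
    · left; omega
    · right; rw [tau_succ] at h1; exact h1
  · by_cases hl : k + 1 = 2 ^ l
    · left; exact hl
    · right
      have hk2 : k + 1 < 2 ^ l := lt_of_le_of_ne hk hl
      have hpow : 2 ^ (l + 1) = 2 * 2 ^ l := by ring
      rcases h3 with h3 | h3
      · omega
      · refine h3.trans_le ?_
        rw [← tau_succ ν l (k + 1)]
        exact tau_mono h2 (by omega) (by omega) (by omega)

lemma cell_odd_subset (h2 : ν.real univ = 2) {l k : ℕ} (hk : k < 2 ^ l) :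
    cell ν (l + 1) (2 * k + 1) ⊆ cell ν l k := by
  intro y hy
  obtain ⟨h1, h3⟩ := hy
  have hpow : 2 ^ (l + 1) = 2 * 2 ^ l := by ring
  constructor
  · by_cases hk0 : k = 0
    · left; exact hk0
    · right
      rcases h1 with h1 | h1
      · omega
      · refine le_trans ?_ h1
        rw [← tau_succ ν l k]
        exact tau_mono h2 (by omega) (by omega) (by omega)
  · rcases h3 with h3 | h3
    · left; omega
    · right
      rw [← tau_succ ν l (k + 1)]
      exact h3

lemma cell_subset_union {l k : ℕ} :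
    cell ν l k ⊆ cell ν (l + 1) (2 * k) ∪ cell ν (l + 1) (2 * k + 1) := by
  intro y hy
  obtain ⟨h1, h3⟩ := hy
  have hpow : 2 ^ (l + 1) = 2 * 2 ^ l := by ring
  by_cases hlt : y < tau ν (l + 1) (2 * k + 1)
  · left
    constructor
    · rcases h1 with h1 | h1
      · left; omega
      · right; rw [tau_succ]; exact h1
    · right; exact hlt
  · right
    push Not at hlt
    constructor
    · right; exact hlt
    · rcases h3 with h3 | h3
      · left; omega
      · right
        have : 2 * k + 1 + 1 = 2 * (k + 1) := by ring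
        rw [this, tau_succ]; exact h3

lemma cell_even_odd_disjoint {l k : ℕ} :
    Disjoint (cell ν (l + 1) (2 * k)) (cell ν (l + 1) (2 * k + 1)) := by
  rw [Set.disjoint_left]
  intro y hy1 hy2
  have hpow : 2 ^ (l + 1) = 2 * 2 ^ l := by ring
  rcases hy1.2 with h | h
  · omega
  · rcases hy2.1 with h' | h'
    · omega
    · exact absurd h (not_lt.2 h')

lemma cell_disjoint (h2 : ν.real univ = 2) {l k k' : ℕ} (hkk : k < k') (hk' : k' < 2 ^ l) :
    Disjoint (cell ν l k) (cell ν l k') := by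
  rw [Set.disjoint_left]
  intro y hy1 hy2
  rcases hy1.2 with h | h
  · omega
  · rcases hy2.1 with h' | h'
    · omega
    · have h3 := tau_mono h2 (l := l) (k := k + 1) (k' := k') (by omega) (by omega) hk'
      exact absurd (h.trans_le (h3.trans h')) (lt_irrefl y)

lemma cell_disjoint' (h2 : ν.real univ = 2) {l k k' : ℕ} (hkk : k ≠ k') (hk : k < 2 ^ l)
    (hk' : k' < 2 ^ l) : Disjoint (cell ν l k) (cell ν l k') := by
  rcases lt_or_gt_of_ne hkk with h | h
  · exact cell_disjoint h2 h hk'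
  · exact (cell_disjoint h2 h hk).symm

lemma exists_cell (l : ℕ) (y : ℝ) : ∃ k < 2 ^ l, y ∈ cell ν l k := by
  induction l with
  | zero => exact ⟨0, by norm_num, Or.inl rfl, Or.inl rfl⟩
  | succ l ih =>
    obtain ⟨k, hk, hy⟩ := ih
    have hpow : 2 ^ (l + 1) = 2 * 2 ^ l := by ring
    rcases cell_subset_union hy with h | h
    · exact ⟨2 * k, by omega, h⟩
    · exact ⟨2 * k + 1, by omega, h⟩

/-- values at cut points -/
noncomputable def cval (ν : Measure ℝ) (g : ℝ → ℂ) (l k : ℕ) : ℂ :=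
  if k = 0 then 0 else g (tau ν l k)

/-- sampled approximation of `g` -/
noncomputable def FA (ν : Measure ℝ) (g : ℝ → ℂ) (l : ℕ) (y : ℝ) : ℂ :=
  ∑ k ∈ Finset.range (2 ^ l), cval ν g l k * indicator (cell ν l k) (fun _ => (1:ℂ)) y

/-- coefficients of the differences -/
noncomputable def dco (ν : Measure ℝ) (g : ℝ → ℂ) (l k : ℕ) : ℂ :=
  cval ν g (l + 1) (2 * k + 1) - cval ν g (l + 1) (2 * k)

/-- differences -/
noncomputable def DA (ν : Measure ℝ) (g : ℝ → ℂ) (l : ℕ) (y : ℝ) : ℂ :=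
  ∑ k ∈ Finset.range (2 ^ l),
    dco ν g l k * indicator (cell ν (l + 1) (2 * k + 1)) (fun _ => (1:ℂ)) y

lemma sum_range_two_mul {M : Type*} [AddCommMonoid M] (h : ℕ → M) (n : ℕ) :
    ∑ k ∈ Finset.range (2 * n), h k = ∑ i ∈ Finset.range n, (h (2 * i) + h (2 * i + 1)) := by
  induction n with
  | zero => simp
  | succ n ih =>
    have : 2 * (n + 1) = 2 * n + 1 + 1 := by ring
    rw [this, Finset.sum_range_succ, Finset.sum_range_succ, ih, Finset.sum_range_succ, add_assoc]

lemma cval_even (ν : Measure ℝ) (g : ℝ → ℂ) (l k : ℕ) :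
    cval ν g (l + 1) (2 * k) = cval ν g l k := by
  unfold cval
  rw [tau_succ]
  by_cases hk : k = 0
  · simp [hk]
  · simp [hk]

lemma FA_succ (h2 : ν.real univ = 2) (g : ℝ → ℂ) (l : ℕ) (y : ℝ) :
    FA ν g (l + 1) y = FA ν g l y + DA ν g l y := by
  unfold FA DA
  rw [show 2 ^ (l + 1) = 2 * 2 ^ l by ring, sum_range_two_mul, ← Finset.sum_add_distrib]
  apply Finset.sum_congr rfl
  intro k hk
  rw [Finset.mem_range] at hk
  have hind : indicator (cell ν l k) (fun _ => (1:ℂ)) y
      = indicator (cell ν (l + 1) (2 * k)) (fun _ => (1:ℂ)) y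
        + indicator (cell ν (l + 1) (2 * k + 1)) (fun _ => (1:ℂ)) y := by
    have hu : cell ν l k = cell ν (l + 1) (2 * k) ∪ cell ν (l + 1) (2 * k + 1) := by
      apply Subset.antisymm cell_subset_union
      exact union_subset (cell_even_subset h2 hk) (cell_odd_subset h2 hk)
    rw [hu, indicator_union_of_disjoint cell_even_odd_disjoint]
  rw [hind, dco, cval_even]
  ring

lemma FA_zero (g : ℝ → ℂ) (y : ℝ) : FA ν g 0 y = 0 := by
  unfold FA cval
  simp

lemma FA_eq_sum (h2 : ν.real univ = 2) (g : ℝ → ℂ) (L : ℕ) (y : ℝ) :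
    FA ν g L y = ∑ l ∈ Finset.range L, DA ν g l y := by
  induction L with
  | zero => simp [FA_zero]
  | succ L ih => rw [FA_succ h2, ih, Finset.sum_range_succ]

lemma FA_of_mem (h2 : ν.real univ = 2) (g : ℝ → ℂ) {l k : ℕ} (hk : k < 2 ^ l) {y : ℝ}
    (hy : y ∈ cell ν l k) : FA ν g l y = cval ν g l k := by
  unfold FA
  rw [Finset.sum_eq_single k]
  · rw [indicator_of_mem hy, mul_one]
  · intro k' hk' hne
    rw [Finset.mem_range] at hk'
    have hd := cell_disjoint' h2 hne hk' hk
    have : y ∉ cell ν l k' := fun h => (Set.disjoint_left.1 hd) h hy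
    rw [indicator_of_notMem this, mul_zero]
  · intro h
    exact absurd (Finset.mem_range.2 hk) h

lemma norm_cval_le {g : ℝ → ℂ} (hg : ∀ y, ‖g y‖ ≤ 1) (l k : ℕ) : ‖cval ν g l k‖ ≤ 1 := by
  unfold cval
  split_ifs
  · simp
  · exact hg _

lemma norm_dco_le {g : ℝ → ℂ} (hg : ∀ y, ‖g y‖ ≤ 1) (l k : ℕ) : ‖dco ν g l k‖ ≤ 2 := by
  unfold dco
  calc _ ≤ ‖cval ν g (l + 1) (2 * k + 1)‖ + ‖cval ν g (l + 1) (2 * k)‖ := norm_sub_le _ _
    _ ≤ 1 + 1 := add_le_add (norm_cval_le hg _ _) (norm_cval_le hg _ _)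
    _ = 2 := by norm_num

lemma DA_of_mem (h2 : ν.real univ = 2) (g : ℝ → ℂ) {l k : ℕ} (hk : k < 2 ^ l) {y : ℝ}
    (hy : y ∈ cell ν (l + 1) (2 * k + 1)) : DA ν g l y = dco ν g l k := by
  have hpow : 2 ^ (l + 1) = 2 * 2 ^ l := by ring
  unfold DA
  rw [Finset.sum_eq_single k]
  · rw [indicator_of_mem hy, mul_one]
  · intro k' hk' hne
    rw [Finset.mem_range] at hk'
    have hd := cell_disjoint' h2 (l := l + 1) (k := 2 * k' + 1) (k' := 2 * k + 1)
      (by omega) (by omega) (by omega)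
    have : y ∉ cell ν (l + 1) (2 * k' + 1) := fun h => (Set.disjoint_left.1 hd) h hy
    rw [indicator_of_notMem this, mul_zero]
  · intro h
    exact absurd (Finset.mem_range.2 hk) h

lemma DA_of_even (h2 : ν.real univ = 2) (g : ℝ → ℂ) {l k : ℕ} (hk : k < 2 ^ l) {y : ℝ}
    (hy : y ∈ cell ν (l + 1) (2 * k)) : DA ν g l y = 0 := by
  have hpow : 2 ^ (l + 1) = 2 * 2 ^ l := by ring
  unfold DA
  apply Finset.sum_eq_zero
  intro k' hk'
  rw [Finset.mem_range] at hk'
  have hd := cell_disjoint' h2 (l := l + 1) (k := 2 * k' + 1) (k' := 2 * k)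
    (by omega) (by omega) (by omega)
  have : y ∉ cell ν (l + 1) (2 * k' + 1) := fun h => (Set.disjoint_left.1 hd) h hy
  rw [indicator_of_notMem this, mul_zero]

lemma norm_DA_le (h2 : ν.real univ = 2) {g : ℝ → ℂ} (hg : ∀ y, ‖g y‖ ≤ 1) (l : ℕ) (y : ℝ) :
    ‖DA ν g l y‖ ≤ 2 := by
  obtain ⟨k, hk, hy⟩ := exists_cell (ν := ν) l y
  rcases cell_subset_union hy with h | h
  · rw [DA_of_even h2 g hk h]; simp
  · rw [DA_of_mem h2 g hk h]; exact norm_dco_le hg _ _

lemma norm_FA_le (h2 : ν.real univ = 2) {g : ℝ → ℂ} (hg : ∀ y, ‖g y‖ ≤ 1) (l : ℕ) (y : ℝ) :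
    ‖FA ν g l y‖ ≤ 1 := by
  obtain ⟨k, hk, hy⟩ := exists_cell (ν := ν) l y
  rw [FA_of_mem h2 g hk hy]; exact norm_cval_le hg _ _

/-- `p`-variation at most one. -/
def PVar (p : ℝ) (g : ℝ → ℂ) : Prop :=
  ∀ y : ℕ → ℝ, Monotone y → ∀ k : ℕ, ∑ l ∈ Finset.range k, ‖g (y (l + 1)) - g (y l)‖ ^ p ≤ 1

/-- the coefficients are in `ℓ^p`. -/
lemma sum_dco_le (h2 : ν.real univ = 2) {p : ℝ} (hp : 1 ≤ p) {g : ℝ → ℂ} (hg : ∀ y, ‖g y‖ ≤ 1)
    (hv : PVar p g) (l : ℕ) : ∑ k ∈ Finset.range (2 ^ l), ‖dco ν g l k‖ ^ p ≤ 2 := by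
  have hpow : 2 ^ (l + 1) = 2 * 2 ^ l := by ring
  have hpos : 0 < 2 ^ l := by positivity
  set z : ℕ → ℝ := fun i => tau ν (l + 1) (min (max i 1) (2 ^ (l + 1) - 1)) with hz
  have hzm : Monotone z := by
    intro i j hij
    rw [hz]
    simp only
    apply tau_mono h2
    · omega
    · omega
    · omega
  have h1 := hv z hzm (2 * 2 ^ l)
  rw [sum_range_two_mul (fun i => ‖g (z (i + 1)) - g (z i)‖ ^ p)] at h1
  have h3 : ∑ k ∈ Finset.range (2 ^ l), ‖g (z (2 * k + 1)) - g (z (2 * k))‖ ^ p ≤ 1 := by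
    refine le_trans (Finset.sum_le_sum fun k _ => ?_) h1
    have : 0 ≤ ‖g (z (2 * k + 1 + 1)) - g (z (2 * k + 1))‖ ^ p := by positivity
    linarith
  have h4 : ∀ k ∈ Finset.range (2 ^ l), ‖dco ν g l k‖ ^ p
      ≤ ‖g (z (2 * k + 1)) - g (z (2 * k))‖ ^ p + (if k = 0 then 1 else 0) := by
    intro k hk
    rw [Finset.mem_range] at hk
    by_cases hk0 : k = 0
    · subst hk0
      have : 0 ≤ ‖g (z (2 * 0 + 1)) - g (z (2 * 0))‖ ^ p := by positivity
      have h5 : ‖dco ν g l 0‖ ^ p ≤ 1 := by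
        have h6 : ‖dco ν g l 0‖ ≤ 1 := by
          unfold dco cval
          simp only [mul_zero, zero_add]
          simpa using hg _
        exact Real.rpow_le_one (norm_nonneg _) h6 (by linarith)
      simp only [if_true]
      linarith
    · rw [if_neg hk0, add_zero]
      have e1 : min (max (2 * k + 1) 1) (2 ^ (l + 1) - 1) = 2 * k + 1 := by omega
      have e2 : min (max (2 * k) 1) (2 ^ (l + 1) - 1) = 2 * k := by omega
      rw [hz]
      simp only [e1, e2]
      unfold dco cval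
      rw [if_neg (by omega), if_neg (by omega)]
  calc ∑ k ∈ Finset.range (2 ^ l), ‖dco ν g l k‖ ^ p
      ≤ ∑ k ∈ Finset.range (2 ^ l), (‖g (z (2 * k + 1)) - g (z (2 * k))‖ ^ p
        + (if k = 0 then 1 else 0)) := Finset.sum_le_sum h4
    _ = ∑ k ∈ Finset.range (2 ^ l), ‖g (z (2 * k + 1)) - g (z (2 * k))‖ ^ p
        + ∑ k ∈ Finset.range (2 ^ l), (if k = 0 then (1:ℝ) else 0) := Finset.sum_add_distrib
    _ ≤ 1 + 1 := by
        apply add_le_add h3
        rw [Finset.sum_ite_eq' (Finset.range (2 ^ l)) 0 (fun _ => (1:ℝ))]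
        simp
    _ = 2 := by norm_num

/-- mass of the relevant cells -/
lemma cell_mass (h2 : ν.real univ = 2) (g : ℝ → ℂ) {l k : ℕ} (hk : k < 2 ^ l)
    (hc : dco ν g l k ≠ 0) : ν.real (cell ν (l + 1) (2 * k + 1)) ≤ 2 / 2 ^ l := by
  have hpow : 2 ^ (l + 1) = 2 * 2 ^ l := by ring
  have hpowR : (2:ℝ) ^ (l + 1) = 2 * 2 ^ l := by ring
  have hposR : (0:ℝ) < 2 ^ l := by positivity
  by_cases hk0 : k = 0
  · subst hk0
    by_cases hl : l = 0
    · subst hl
      calc ν.real (cell ν (0 + 1) (2 * 0 + 1)) ≤ ν.real univ := measureReal_mono (subset_univ _)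
        _ = 2 / 2 ^ 0 := by rw [h2]; norm_num
    · have hl2 : 2 < 2 ^ (l + 1) := by
        calc 2 < 2 ^ 2 := by norm_num
          _ ≤ 2 ^ (l + 1) := Nat.pow_le_pow_right (by norm_num) (by omega)
      calc ν.real (cell ν (l + 1) (2 * 0 + 1)) ≤ ν.real (Iio (tau ν (l + 1) 2)) := by
            refine measureReal_mono ?_ (measure_ne_top _ _)
            intro y hy
            rcases hy.2 with h | h
            · omega
            · exact h
        _ ≤ th (l + 1) 2 := Iio_qt_le (th_pos (by norm_num))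
        _ = 2 / 2 ^ l := by
            unfold th
            rw [hpowR]
            field_simp
            norm_num
  · have hne : tau ν (l + 1) (2 * k) ≠ tau ν (l + 1) (2 * k + 1) := by
      intro h
      apply hc
      unfold dco cval
      rw [if_neg (by omega), if_neg (by omega), h, sub_self]
    have hlt : tau ν (l + 1) (2 * k) < tau ν (l + 1) (2 * k + 1) :=
      lt_of_le_of_ne (tau_mono h2 (by omega) (by omega) (by omega)) hne
    by_cases hlast : k + 1 = 2 ^ l
    · have hlastR : (k:ℝ) + 1 = 2 ^ l := by exact_mod_cast hlast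
      calc ν.real (cell ν (l + 1) (2 * k + 1)) ≤ ν.real (Ioi (tau ν (l + 1) (2 * k))) := by
            refine measureReal_mono ?_ (measure_ne_top _ _)
            intro y hy
            rcases hy.1 with h | h
            · omega
            · exact hlt.trans_le h
        _ ≤ ν.real univ - th (l + 1) (2 * k) :=
            Ioi_qt_le (by rw [h2]; exact th_lt_two (by omega))
        _ = 2 / 2 ^ l := by
            rw [h2]
            unfold th
            rw [hpowR, ← hlastR]
            have : ((k:ℝ) + 1) ≠ 0 := by positivity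
            push_cast
            field_simp
            ring
    · calc ν.real (cell ν (l + 1) (2 * k + 1))
          ≤ ν.real (Ioo (tau ν (l + 1) (2 * k)) (tau ν (l + 1) (2 * k + 2))) := by
            refine measureReal_mono ?_ (measure_ne_top _ _)
            intro y hy
            constructor
            · rcases hy.1 with h | h
              · omega
              · exact hlt.trans_le h
            · rcases hy.2 with h | h
              · omega
              · exact h
        _ ≤ th (l + 1) (2 * k + 2) - th (l + 1) (2 * k) :=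
            Ioo_qt_le (th_pos (by omega)) (th_lt (by omega))
              (by rw [h2]; exact th_lt_two (by omega))
        _ = 2 / 2 ^ l := by
            unfold th
            rw [hpowR]
            push_cast
            field_simp
            ring

end Pool.Agent.H.MP_b7167f_an
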