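import Mathlib
import Pool.Agent.H.MP_b7167f_an.Cells

open MeasureTheory Set Filter
open scoped ENNReal NNReal Topology

namespace Pool.Agent.H.MP_b7167f_an

set_option linter.unusedSectionVars false

variable {ν : Measure ℝ} [IsFiniteMeasure ν]

/-- from `ℓ^p` to `ℓ²` over a finite range. -/
lemma sum_sq_le_of_pow {p : ℝ} (hp : 2 ≤ p) {c : ℕ → ℝ} (hc : ∀ k, 0 ≤ c k) {K : ℕ}
    (h : ∑ k ∈ Finset.range K, c k ^ p ≤ 2) :
    ∑ k ∈ Finset.range K, c k ^ 2 ≤ 2 * (K:ℝ) ^ (1 - 2 / p) := by
  rcases eq_or_lt_of_le hp with hp2 | hp2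
  · subst hp2
    norm_num at h ⊢
    exact_mod_cast h
  · have hp0 : 0 < p := by linarith
    set r : ℝ := p / 2 with hr
    have hr1 : 1 < r := by rw [hr]; linarith
    have hpq := Real.HolderConjugate.conjExponent hr1
    have h1 := Real.inner_le_Lp_mul_Lq (Finset.range K) (fun k => c k ^ 2) (fun _ => (1:ℝ)) hpq
    simp only [mul_one] at h1
    have e1 : ∀ k, |c k ^ 2| ^ r = c k ^ p := by
      intro k
      rw [abs_of_nonneg (by positivity), ← Real.rpow_natCast, ← Real.rpow_mul (hc k)]
      congr 1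
      rw [hr]; push_cast; ring
    simp_rw [e1] at h1
    have e2 : ∑ _k ∈ Finset.range K, |(1:ℝ)| ^ (Real.conjExponent r) = K := by simp
    rw [e2] at h1
    have e3 : 1 / Real.conjExponent r = 1 - 2 / p := by
      rw [Real.conjExponent, hr]
      field_simp
    rw [e3] at h1
    refine h1.trans ?_
    apply mul_le_mul_of_nonneg_right _ (by positivity)
    calc (∑ k ∈ Finset.range K, c k ^ p) ^ (1 / r) ≤ 2 ^ (1 / r) := by
          apply Real.rpow_le_rpow _ h (by positivity)
          exact Finset.sum_nonneg fun k _ => Real.rpow_nonneg (hc k) _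
      _ ≤ 2 ^ (1:ℝ) := by
          apply Real.rpow_le_rpow_of_exponent_le (by norm_num)
          rw [div_le_one (by linarith)]; linarith
      _ = 2 := by norm_num

/-- square sum of the coefficients of level `l` -/
lemma sum_dco_sq_le (h2 : ν.real univ = 2) {p : ℝ} (hp : 2 ≤ p) {g : ℝ → ℂ}
    (hg : ∀ y, ‖g y‖ ≤ 1) (hv : PVar p g) (l : ℕ) :
    ∑ k ∈ Finset.range (2 ^ l), ‖dco ν g l k‖ ^ 2 ≤ 2 * (2:ℝ) ^ ((l:ℝ) * (1 - 2 / p)) := by
  have h := sum_sq_le_of_pow hp (c := fun k => ‖dco ν g l k‖) (fun k => norm_nonneg _)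
    (sum_dco_le h2 (by linarith) hg hv l)
  refine h.trans (le_of_eq ?_)
  congr 1
  push_cast
  rw [← Real.rpow_natCast, ← Real.rpow_mul (by norm_num)]

lemma DA_sq (h2 : ν.real univ = 2) (g : ℝ → ℂ) (l : ℕ) (y : ℝ) :
    ‖DA ν g l y‖ₑ ^ 2 = ∑ k ∈ Finset.range (2 ^ l),
      indicator (cell ν (l + 1) (2 * k + 1)) (fun _ => ‖dco ν g l k‖ₑ ^ 2) y := by
  have hpow : 2 ^ (l + 1) = 2 * 2 ^ l := by ring
  obtain ⟨k, hk, hy⟩ := exists_cell (ν := ν) l y
  rcases cell_subset_union hy with h | h
  · rw [DA_of_even h2 g hk h]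
    symm
    simp only [enorm_zero, ne_eq, OfNat.ofNat_ne_zero, not_false_eq_true, zero_pow]
    apply Finset.sum_eq_zero
    intro k' hk'
    rw [Finset.mem_range] at hk'
    have hd := cell_disjoint' h2 (l := l + 1) (k := 2 * k' + 1) (k' := 2 * k)
      (by omega) (by omega) (by omega)
    have : y ∉ cell ν (l + 1) (2 * k' + 1) := fun h' => (Set.disjoint_left.1 hd) h' h
    rw [indicator_of_notMem this]
  · rw [DA_of_mem h2 g hk h, Finset.sum_eq_single k]
    · rw [indicator_of_mem h]
    · intro k' hk' hne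
      rw [Finset.mem_range] at hk'
      have hd := cell_disjoint' h2 (l := l + 1) (k := 2 * k' + 1) (k' := 2 * k + 1)
        (by omega) (by omega) (by omega)
      have : y ∉ cell ν (l + 1) (2 * k' + 1) := fun h' => (Set.disjoint_left.1 hd) h' h
      rw [indicator_of_notMem this]
    · intro h
      exact absurd (Finset.mem_range.2 hk) h

/-- `L²` size of the differences of level `l`. -/
lemma lintegral_DA_sq (h2 : ν.real univ = 2) {p : ℝ} (hp : 2 ≤ p) {g : ℝ → ℂ}
    (hg : ∀ y, ‖g y‖ ≤ 1) (hv : PVar p g) (l : ℕ) :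
    ∫⁻ y, ‖DA ν g l y‖ₑ ^ 2 ∂ν ≤ ENNReal.ofReal (4 * (2:ℝ) ^ (-((l:ℝ) * (2 / p)))) := by
  simp_rw [DA_sq h2 g l]
  rw [lintegral_finsetSum _ (fun k _ => measurable_const.indicator (measurableSet_cell ν _ _))]
  calc ∑ k ∈ Finset.range (2 ^ l), ∫⁻ y, indicator (cell ν (l + 1) (2 * k + 1))
        (fun _ => ‖dco ν g l k‖ₑ ^ 2) y ∂ν
      ≤ ∑ k ∈ Finset.range (2 ^ l), ENNReal.ofReal (‖dco ν g l k‖ ^ 2 * (2 / 2 ^ l)) := by
        apply Finset.sum_le_sum
        intro k hk
        rw [Finset.mem_range] at hk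
        rw [lintegral_indicator (measurableSet_cell ν _ _), lintegral_const,
          Measure.restrict_apply_univ]
        by_cases hc : dco ν g l k = 0
        · rw [hc]; simp
        · have hm := cell_mass h2 g hk hc
          rw [← ofReal_norm, ← ENNReal.ofReal_pow (norm_nonneg _),
            ← ENNReal.ofReal_toReal (measure_ne_top ν (cell ν (l + 1) (2 * k + 1))),
            ← ENNReal.ofReal_mul (by positivity)]
          apply ENNReal.ofReal_le_ofReal
          exact mul_le_mul_of_nonneg_left hm (by positivity)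
    _ = ENNReal.ofReal ((∑ k ∈ Finset.range (2 ^ l), ‖dco ν g l k‖ ^ 2) * (2 / 2 ^ l)) := by
        rw [← ENNReal.ofReal_sum_of_nonneg (fun k _ => by positivity), Finset.sum_mul]
    _ ≤ ENNReal.ofReal (4 * (2:ℝ) ^ (-((l:ℝ) * (2 / p)))) := by
        apply ENNReal.ofReal_le_ofReal
        calc (∑ k ∈ Finset.range (2 ^ l), ‖dco ν g l k‖ ^ 2) * (2 / 2 ^ l)
            ≤ (2 * (2:ℝ) ^ ((l:ℝ) * (1 - 2 / p))) * (2 / 2 ^ l) := by
              apply mul_le_mul_of_nonneg_right (sum_dco_sq_le h2 hp hg hv l) (by positivity)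
          _ = 4 * (2:ℝ) ^ (-((l:ℝ) * (2 / p))) := by
              rw [← Real.rpow_natCast 2 l]
              have e : (2:ℝ) ^ ((l:ℝ) * (1 - 2 / p)) = 2 ^ (-((l:ℝ) * (2 / p))) * 2 ^ (l:ℝ) := by
                rw [← Real.rpow_add (by norm_num)]
                congr 1; ring
              rw [e]
              have : (2:ℝ) ^ (l:ℝ) ≠ 0 := by positivity
              field_simp
              norm_num

/-- sums of increments over sequences below `y` -/
def incSet (p : ℝ) (g : ℝ → ℂ) (y : ℝ) : Set ℝ :=
  {s | ∃ z : ℕ → ℝ, Monotone z ∧ (∀ i, z i ≤ y) ∧ ∃ k : ℕ,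
    s = ∑ l ∈ Finset.range k, ‖g (z (l + 1)) - g (z l)‖ ^ p}

/-- control function -/
noncomputable def ctl (p : ℝ) (g : ℝ → ℂ) (y : ℝ) : ℝ := sSup (incSet p g y)

lemma incSet_nonempty (p : ℝ) (g : ℝ → ℂ) (y : ℝ) : (incSet p g y).Nonempty :=
  ⟨0, fun _ => y, monotone_const, fun _ => le_rfl, 0, by simp⟩

lemma incSet_bdd {p : ℝ} {g : ℝ → ℂ} (hv : PVar p g) (y : ℝ) :
    ∀ s ∈ incSet p g y, s ≤ 1 := by
  rintro s ⟨z, hz, _, k, rfl⟩
  exact hv z hz k

lemma ctl_le_one {p : ℝ} {g : ℝ → ℂ} (hv : PVar p g) (y : ℝ) : ctl p g y ≤ 1 :=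
  csSup_le (incSet_nonempty p g y) (incSet_bdd hv y)

lemma ctl_nonneg {p : ℝ} {g : ℝ → ℂ} (hv : PVar p g) (y : ℝ) : 0 ≤ ctl p g y :=
  le_csSup ⟨1, incSet_bdd hv y⟩ ⟨fun _ => y, monotone_const, fun _ => le_rfl, 0, by simp⟩

lemma ctl_add {p : ℝ} {g : ℝ → ℂ} (hv : PVar p g) {y y' : ℝ} (hyy : y ≤ y') :
    ctl p g y + ‖g y' - g y‖ ^ p ≤ ctl p g y' := by
  rw [← le_sub_iff_add_le]
  apply csSup_le (incSet_nonempty p g y)
  rintro s ⟨z, hz, hzy, k, rfl⟩
  rw [le_sub_iff_add_le]
  set z' : ℕ → ℝ := fun i => if i ≤ k then z i else if i = k + 1 then y else y' with hz'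
  have hm : Monotone z' := by
    intro i j hij
    rw [hz']
    simp only
    split_ifs with h1 h2 h3 h4 h5 h6
    · exact hz hij
    · exact hzy i
    · exact (hzy i).trans hyy
    · omega
    · exact le_rfl
    · exact hyy
    · omega
    · omega
    · exact le_rfl
  have hle : ∀ i, z' i ≤ y' := by
    intro i
    rw [hz']
    simp only
    split_ifs with h1 h2
    · exact (hzy i).trans hyy
    · exact hyy
    · exact le_rfl
  have hmem : ∑ l ∈ Finset.range (k + 1 + 1), ‖g (z' (l + 1)) - g (z' l)‖ ^ p ∈ incSet p g y' :=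
    ⟨z', hm, hle, k + 1 + 1, rfl⟩
  have h1 := le_csSup ⟨1, incSet_bdd hv y'⟩ hmem
  refine le_trans ?_ h1
  rw [Finset.sum_range_succ, Finset.sum_range_succ]
  have e1 : ∑ l ∈ Finset.range k, ‖g (z' (l + 1)) - g (z' l)‖ ^ p
      = ∑ l ∈ Finset.range k, ‖g (z (l + 1)) - g (z l)‖ ^ p := by
    apply Finset.sum_congr rfl
    intro l hl
    rw [Finset.mem_range] at hl
    rw [hz']
    simp only
    rw [if_pos (by omega), if_pos (by omega)]
  have e2 : z' (k + 1) = y := by
    rw [hz']; simp
  have e3 : z' (k + 1 + 1) = y' := by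
    rw [hz']; simp
  rw [e1, e2, e3]
  have : 0 ≤ ‖g y - g (z' k)‖ ^ p := by positivity
  linarith

lemma ctl_mono {p : ℝ} {g : ℝ → ℂ} (hv : PVar p g) : Monotone (ctl p g) := by
  intro y y' h
  have h1 := ctl_add hv h
  have : 0 ≤ ‖g y' - g y‖ ^ p := by positivity
  linarith

/-- values of the control at cut points, with value one at the end -/
noncomputable def Om (ν : Measure ℝ) (p : ℝ) (g : ℝ → ℂ) (L k : ℕ) : ℝ :=
  if k = 2 ^ L then 1 else ctl p g (tau ν L k)

/-- approximation error in `L^p`. -/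
lemma lintegral_err (h2 : ν.real univ = 2) {p : ℝ} (hp : 1 ≤ p) {g : ℝ → ℂ}
    (hg : ∀ y, ‖g y‖ ≤ 1) (hv : PVar p g) (L : ℕ) :
    ∫⁻ y, ‖g y - FA ν g L y‖ₑ ^ p ∂ν ≤ ENNReal.ofReal (4 / 2 ^ L) := by
  have hp0 : 0 < p := by linarith
  set a : ℕ → ℝ := fun k => if k = 0 then 1 else Om ν p g L (k + 1) - Om ν p g L k with ha
  set S : ℕ → Set ℝ := fun k => if k = 0 then cell ν L 0 else cell ν L k \ {tau ν L k} with hS
  have hSm : ∀ k, MeasurableSet (S k) := by
    intro k
    rw [hS]
    simp only
    split_ifs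
    · exact measurableSet_cell _ _ _
    · exact (measurableSet_cell _ _ _).diff (measurableSet_singleton _)
  have hOmono : ∀ k, 1 ≤ k → k < 2 ^ L → Om ν p g L k ≤ Om ν p g L (k + 1) := by
    intro k hk1 hk
    unfold Om
    rw [if_neg (by omega)]
    split_ifs with h
    · exact ctl_le_one hv _
    · exact ctl_mono hv (tau_mono h2 hk1 (by omega) (by omega))
  have ha0 : ∀ k, k < 2 ^ L → 0 ≤ a k := by
    intro k hk
    rw [ha]
    simp only
    split_ifs with h
    · norm_num
    · linarith [hOmono k (by omega) hk]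
  have hmass : ∀ k, k < 2 ^ L → ν.real (S k) ≤ 2 / 2 ^ L := by
    intro k hk
    rw [hS]
    simp only
    split_ifs with h
    · by_cases hL : 1 = 2 ^ L
      · have hLR : (2:ℝ) ^ L = 1 := by exact_mod_cast hL.symm
        calc ν.real (cell ν L 0) ≤ ν.real univ := measureReal_mono (subset_univ _)
          _ = 2 / 2 ^ L := by rw [h2, hLR]; norm_num
      · calc ν.real (cell ν L 0) ≤ ν.real (Iio (tau ν L 1)) := by
              refine measureReal_mono ?_ (measure_ne_top _ _)
              intro y hy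
              rcases hy.2 with h' | h'
              · omega
              · exact h'
          _ ≤ th L 1 := Iio_qt_le (th_pos le_rfl)
          _ = 2 / 2 ^ L := by unfold th; simp
    · by_cases hlast : k + 1 = 2 ^ L
      · have hlastR : (k:ℝ) + 1 = 2 ^ L := by exact_mod_cast hlast
        calc ν.real (cell ν L k \ {tau ν L k}) ≤ ν.real (Ioi (tau ν L k)) := by
              refine measureReal_mono ?_ (measure_ne_top _ _)
              rintro y ⟨hy, hne⟩
              rcases hy.1 with h' | h'
              · omega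
              · exact lt_of_le_of_ne h' (fun e => hne (by simp [e]))
          _ ≤ ν.real univ - th L k := Ioi_qt_le (by rw [h2]; exact th_lt_two hk)
          _ = 2 / 2 ^ L := by
              rw [h2]
              unfold th
              rw [← hlastR]
              have : ((k:ℝ) + 1) ≠ 0 := by positivity
              field_simp
              ring
      · calc ν.real (cell ν L k \ {tau ν L k}) ≤ ν.real (Ioo (tau ν L k) (tau ν L (k + 1))) := by
              refine measureReal_mono ?_ (measure_ne_top _ _)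
              rintro y ⟨hy, hne⟩
              constructor
              · rcases hy.1 with h' | h'
                · omega
                · exact lt_of_le_of_ne h' (fun e => hne (by simp [e]))
              · rcases hy.2 with h' | h'
                · omega
                · exact h'
          _ ≤ th L (k + 1) - th L k :=
              Ioo_qt_le (th_pos (by omega)) (th_lt (by omega)) (by rw [h2]; exact th_lt_two (by omega))
          _ = 2 / 2 ^ L := by
              unfold th
              push_cast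
              ring
  -- pointwise bound
  have hpt : ∀ y, ‖g y - FA ν g L y‖ₑ ^ p
      ≤ ∑ k ∈ Finset.range (2 ^ L), indicator (S k) (fun _ => ENNReal.ofReal (a k)) y := by
    intro y
    obtain ⟨k, hk, hy⟩ := exists_cell (ν := ν) L y
    rw [FA_of_mem h2 g hk hy]
    by_cases hyk : y ∈ S k
    · refine le_trans ?_ (Finset.single_le_sum (f := fun k => indicator (S k)
        (fun _ => ENNReal.ofReal (a k)) y) (fun _ _ => zero_le) (Finset.mem_range.2 hk))
      rw [indicator_of_mem hyk, ← ofReal_norm, ENNReal.ofReal_rpow_of_nonneg (norm_nonneg _) hp0.le]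
      apply ENNReal.ofReal_le_ofReal
      rw [ha]
      simp only
      unfold cval
      split_ifs with h
      · rw [sub_zero]
        exact Real.rpow_le_one (norm_nonneg _) (hg y) hp0.le
      · have hty : tau ν L k ≤ y := by
          rcases hy.1 with h' | h'
          · exact absurd h' h
          · exact h'
        have h3 := ctl_add hv hty
        have h4 : Om ν p g L k = ctl p g (tau ν L k) := by
          unfold Om; rw [if_neg (by omega)]
        have h5 : ctl p g y ≤ Om ν p g L (k + 1) := by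
          unfold Om
          split_ifs with h'
          · exact ctl_le_one hv _
          · rcases hy.2 with h'' | h''
            · exact absurd h'' h'
            · exact ctl_mono hv h''.le
        rw [h4]
        linarith
    · have hk0 : k ≠ 0 := by
        intro h
        apply hyk
        rw [hS]
        simp only [h, if_true]
        rw [← h]; exact hy
      have hyt : y = tau ν L k := by
        by_contra hne
        apply hyk
        rw [hS]
        simp only [if_neg hk0]
        exact ⟨hy, by simpa using hne⟩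
      have : g y - cval ν g L k = 0 := by
        unfold cval; rw [if_neg hk0, hyt, sub_self]
      rw [this, enorm_zero, ENNReal.zero_rpow_of_pos hp0]
      exact zero_le
  have hsum : ∑ k ∈ Finset.range (2 ^ L), a k ≤ 2 := by
    have hpos : 0 < 2 ^ L := by positivity
    obtain ⟨K, hK⟩ : ∃ K, 2 ^ L = K + 1 := ⟨2 ^ L - 1, by omega⟩
    rw [hK, Finset.sum_range_succ']
    have e1 : ∑ k ∈ Finset.range K, a (k + 1)
        = ∑ k ∈ Finset.range K, (Om ν p g L (k + 1 + 1) - Om ν p g L (k + 1)) := by
      apply Finset.sum_congr rfl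
      intro k _
      rw [ha]; simp
    rw [e1, Finset.sum_range_sub (fun k => Om ν p g L (k + 1))]
    have e2 : a 0 = 1 := by rw [ha]; simp
    rw [e2]
    have e3 : Om ν p g L (K + 1) = 1 := by
      unfold Om; rw [if_pos hK.symm]
    have e4 : 0 ≤ Om ν p g L (0 + 1) := by
      unfold Om
      split_ifs
      · norm_num
      · exact ctl_nonneg hv _
    rw [e3]
    linarith
  calc ∫⁻ y, ‖g y - FA ν g L y‖ₑ ^ p ∂ν
      ≤ ∫⁻ y, ∑ k ∈ Finset.range (2 ^ L), indicator (S k) (fun _ => ENNReal.ofReal (a k)) y ∂ν :=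
        lintegral_mono hpt
    _ = ∑ k ∈ Finset.range (2 ^ L), ENNReal.ofReal (a k) * ν (S k) := by
        rw [lintegral_finsetSum _ (fun k _ => measurable_const.indicator (hSm k))]
        apply Finset.sum_congr rfl
        intro k _
        rw [lintegral_indicator (hSm k), lintegral_const, Measure.restrict_apply_univ]
    _ ≤ ∑ k ∈ Finset.range (2 ^ L), ENNReal.ofReal (a k * (2 / 2 ^ L)) := by
        apply Finset.sum_le_sum
        intro k hk
        rw [Finset.mem_range] at hk
        rw [← ENNReal.ofReal_toReal (measure_ne_top ν (S k)), ← ENNReal.ofReal_mul (ha0 k hk)]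
        apply ENNReal.ofReal_le_ofReal
        exact mul_le_mul_of_nonneg_left (hmass k hk) (ha0 k hk)
    _ = ENNReal.ofReal ((∑ k ∈ Finset.range (2 ^ L), a k) * (2 / 2 ^ L)) := by
        rw [← ENNReal.ofReal_sum_of_nonneg, Finset.sum_mul]
        intro k hk
        rw [Finset.mem_range] at hk
        exact mul_nonneg (ha0 k hk) (by positivity)
    _ ≤ ENNReal.ofReal (4 / 2 ^ L) := by
        apply ENNReal.ofReal_le_ofReal
        have hpos : (0:ℝ) < 2 ^ L := by positivity
        calc (∑ k ∈ Finset.range (2 ^ L), a k) * (2 / 2 ^ L) ≤ 2 * (2 / 2 ^ L) := by gcongr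
          _ = 4 / 2 ^ L := by ring

end Pool.Agent.H.MP_b7167f_an
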