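import Mathlib

open MeasureTheory

namespace Pool.Agent.H.MP_b7167f_an

/-- The extension operator for the truncated paraboloid in `ℝ^(n+1) = ℝ^n × ℝ`:
`Ef(x,t) = ∫_{[-1,1]^n} f(ξ) exp(2πi(ξ·x + |ξ|² t)) dξ`, where `p = (x,t)`. -/
noncomputable def extOp (n : ℕ) (f : (Fin n → ℝ) → ℂ) (p : (Fin n → ℝ) × ℝ) : ℂ :=
  ∫ ξ in Set.Icc (fun _ : Fin n => (-1 : ℝ)) (fun _ : Fin n => (1 : ℝ)),
    f ξ * Complex.exp (2 * Real.pi * Complex.I *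
      (((∑ j, ξ j * p.1 j) + (∑ j, ξ j ^ 2) * p.2 : ℝ) : ℂ))

end Pool.Agent.H.MP_b7167f_an
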