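import Mathlib
import Pool.Agent.H.MP_b7167f_an.Def
import Pool.Agent.H.MP_b7167f_an.Fixed

open MeasureTheory FourierTransform Set
open scoped ENNReal NNReal ComplexConjugate InnerProductSpace

namespace Pool.Agent.H.MP_b7167f_an

/-- cut-off of one-variable data to `[-1,1]`. -/
noncomputable def cutoff {H : Type*} [Zero H] (u : ℝ → H) : ℝ → H := indicator (Icc (-1:ℝ) 1) u

lemma adm_cutoff {H : Type*} [NormedAddCommGroup H] [InnerProductSpace ℂ H] [CompleteSpace H]
    {u : ℝ → H} (hu : StronglyMeasurable u) (hb : ∀ s ∈ Icc (-1:ℝ) 1, ‖u s‖ ≤ 1) :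
    Adm (cutoff u) := by
  refine ⟨hu.indicator measurableSet_Icc, fun s => ?_, fun s hs => ?_⟩
  · by_cases h : s ∈ Icc (-1:ℝ) 1
    · simp [cutoff, h, hb s h]
    · simp [cutoff, h]
  · simp [cutoff, hs]

lemma ch_sum {ι : Type*} (s : Finset ι) (r : ι → ℝ) : ch (∑ i ∈ s, r i) = ∏ i ∈ s, ch (r i) := by
  classical
  induction s using Finset.induction_on with
  | empty => simp [ch]
  | insert a s ha ih => rw [Finset.sum_insert ha, Finset.prod_insert ha, ch_add, ih]

/-- The extension of a multilinear form function. -/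
lemma extOp_form {n : ℕ} {H : Fin n → Type*} [∀ i, NormedAddCommGroup (H i)]
    [∀ i, InnerProductSpace ℂ (H i)] [∀ i, CompleteSpace (H i)]
    (T : ContinuousMultilinearMap ℂ H ℂ) {u : ∀ i, ℝ → H i}
    (hu : ∀ i, StronglyMeasurable (u i)) (hb : ∀ i, ∀ s ∈ Icc (-1:ℝ) 1, ‖u i s‖ ≤ 1)
    (p : (Fin n → ℝ) × ℝ) :
    extOp n (fun ξ => T (fun i => u i (ξ i))) p
      = T (fun i => Uop (cutoff (u i)) (p.1 i) p.2) := by
  classical
  have hadm : ∀ i, Adm (cutoff (u i)) := fun i => adm_cutoff (hu i) (hb i)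
  have hmeas : MeasurableSet (Icc (fun _ : Fin n => (-1:ℝ)) (fun _ : Fin n => (1:ℝ))) :=
    measurableSet_Icc
  unfold extOp
  rw [← integral_indicator hmeas]
  have key : ∀ ξ : Fin n → ℝ,
      (Icc (fun _ : Fin n => (-1:ℝ)) (fun _ : Fin n => (1:ℝ))).indicator (fun ξ : Fin n → ℝ =>
        T (fun i => u i (ξ i)) * Complex.exp (2 * Real.pi * Complex.I *
        (((∑ j, ξ j * p.1 j) + (∑ j, ξ j ^ 2) * p.2 : ℝ) : ℂ))) ξ
      = T (fun i => (fun s : ℝ => ch (s * p.1 i + s ^ 2 * p.2) • cutoff (u i) s) (ξ i)) := by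
    intro ξ
    simp only []
    rw [ContinuousMultilinearMap.map_smul_univ T (fun i => ch (ξ i * p.1 i + (ξ i) ^ 2 * p.2))
      (fun i => cutoff (u i) (ξ i))]
    by_cases hξ : ξ ∈ Icc (fun _ : Fin n => (-1:ℝ)) (fun _ : Fin n => (1:ℝ))
    · have h1 : ∀ i, cutoff (u i) (ξ i) = u i (ξ i) := by
        intro i
        have : ξ i ∈ Icc (-1:ℝ) 1 := ⟨hξ.1 i, hξ.2 i⟩
        simp [cutoff, this]
      rw [indicator_of_mem hξ]
      simp_rw [h1]
      rw [← ch_sum, smul_eq_mul, mul_comm]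
      congr 1
      unfold ch
      congr 3
      rw [Finset.sum_add_distrib, Finset.sum_mul]
    · rw [indicator_of_notMem hξ]
      have : ∃ i, ξ i ∉ Icc (-1:ℝ) 1 := by
        by_contra hcon
        push Not at hcon
        exact hξ ⟨fun i => (hcon i).1, fun i => (hcon i).2⟩
      obtain ⟨i, hi⟩ := this
      rw [ContinuousMultilinearMap.map_coord_zero T i (by simp [cutoff, hi]), smul_zero]
  simp_rw [key]
  have hint : ∀ i, Integrable (fun s : ℝ => ch (s * p.1 i + s ^ 2 * p.2) • cutoff (u i) s) := by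
    intro i
    apply integrable_of_supp (R := 1) (C := 1)
    · apply AEStronglyMeasurable.smul
      · exact Continuous.aestronglyMeasurable (by fun_prop)
      · exact (hadm i).sm.aestronglyMeasurable
    · intro s; rw [norm_smul, norm_ch, one_mul]; exact (hadm i).bd s
    · intro s hs; rw [(hadm i).supp s hs, smul_zero]
  have hsm : ∀ i, StronglyMeasurable
      (fun s : ℝ => ch (s * p.1 i + s ^ 2 * p.2) • cutoff (u i) s) := by
    intro i
    apply StronglyMeasurable.smul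
    · exact Continuous.stronglyMeasurable (by fun_prop)
    · exact (hadm i).sm
  rw [(integral_multilinear T hint hsm).2]
  rfl

/-- `Lq` bound for products of one-dimensional extensions. -/
theorem prod_Lq {n : ℕ} (hn : 0 < n) {q : ℝ} (hq2 : 2 ≤ q) (hq4 : q ≤ 4)
    (ha : 1 < n * (q - 2) / 2)
    {H : Fin n → Type*} [∀ i, NormedAddCommGroup (H i)]
    [∀ i, InnerProductSpace ℂ (H i)] [∀ i, CompleteSpace (H i)]
    {v : ∀ i, ℝ → H i} (hv : ∀ i, Adm (v i)) :
    ∫⁻ p : (Fin n → ℝ) × ℝ, ∏ j, ‖Uop (v j) (p.1 j) p.2‖ₑ ^ q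
      ≤ (2 ^ ((4 - q) / 2)) ^ n * Ca (n * (q - 2) / 2) := by
  rw [Measure.volume_eq_prod, lintegral_prod_symm]
  · refine le_trans (le_of_eq ?_) (prod_time_bound hn hq2 hq4 ha hv)
    congr 1
    ext t
    exact lintegral_fin_prod (f := fun j x => ‖Uop (v j) x t‖ₑ ^ q)
      (fun j => measurable_enorm_Uop_x (hv j) t q)
  · apply Measurable.aemeasurable
    apply Finset.measurable_fun_prod
    intro j _
    have h1 := measurable_enorm_Uop (hv j) q
    have h2 : Measurable (fun p : (Fin n → ℝ) × ℝ => ((p.1 j, p.2) : ℝ × ℝ)) := by fun_prop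
    exact h1.comp h2

end Pool.Agent.H.MP_b7167f_an
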