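import Mathlib
import Pool.Agent.H.MP_b7167f_an.Forms

open MeasureTheory Set
open scoped ENNReal NNReal

namespace Pool.Agent.H.MP_b7167f_an

universe v

/-- a bundled bounded multilinear form on Hilbert spaces, composed with one-variable functions -/
structure HForm (n : ℕ) where
  H : Fin n → Type v
  [nacg : ∀ j, NormedAddCommGroup (H j)]
  [ips : ∀ j, InnerProductSpace ℂ (H j)]
  [cs : ∀ j, CompleteSpace (H j)]
  T : ContinuousMultilinearMap ℂ H ℂ
  u : ∀ j, ℝ → H j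
  sm : ∀ j, StronglyMeasurable (u j)
  bd : ∀ j, ∀ s ∈ Icc (-1:ℝ) 1, ‖u j s‖ ≤ 1

attribute [instance] HForm.nacg HForm.ips HForm.cs

variable {n : ℕ}

/-- the function represented by the form -/
noncomputable def HForm.val (F : HForm.{v} n) (ξ : Fin n → ℝ) : ℂ := F.T (fun j => F.u j (ξ j))

/-- the coefficients of the step -/
noncomputable def stepCoef {M : ℕ} [NeZero M] (i j : Fin n) (R : ℝ) (c : Fin M → ℝ → ℂ)
    (B : Fin M → Set ℝ) (k : Fin M) (l : Fin n) (s : ℝ) : ℂ :=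
  if l = i then c k s / R else if l = j then indicator (B k) (fun _ => (1:ℂ)) s
    else if k = 0 then 1 else 0

lemma measurable_stepCoef {M : ℕ} [NeZero M] (i j : Fin n) (R : ℝ) {c : Fin M → ℝ → ℂ}
    (hc : ∀ k, Measurable (c k)) {B : Fin M → Set ℝ} (hB : ∀ k, MeasurableSet (B k))
    (k : Fin M) (l : Fin n) : Measurable (stepCoef i j R c B k l) := by
  unfold stepCoef
  split_ifs
  · exact (hc k).div_const _
  · exact measurable_const.indicator (hB k)
  · exact measurable_const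
  · exact measurable_const

lemma sum_sq_stepCoef_le {M : ℕ} [NeZero M] {i j : Fin n} {R : ℝ} (hR : 0 < R)
    {c : Fin M → ℝ → ℂ} {B : Fin M → Set ℝ} (hBd : ∀ k k', k ≠ k' → Disjoint (B k) (B k'))
    {s : ℝ} (hcs : ∑ k, ‖c k s‖ ^ 2 ≤ R ^ 2) (l : Fin n) :
    ∑ k, ‖stepCoef i j R c B k l s‖ ^ 2 ≤ 1 := by
  unfold stepCoef
  split_ifs with h1 h2
  · have : ∀ k, ‖c k s / (R:ℂ)‖ ^ 2 = ‖c k s‖ ^ 2 / R ^ 2 := by
      intro k
      rw [norm_div, div_pow]
      congr 2
      simp [abs_of_pos hR]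
    simp_rw [this]
    rw [← Finset.sum_div]
    rw [div_le_one (by positivity)]
    exact hcs
  · by_cases h : ∃ k, s ∈ B k
    · obtain ⟨k, hk⟩ := h
      rw [Finset.sum_eq_single k]
      · simp [hk]
      · intro k' _ hk'
        have : s ∉ B k' := fun h' => Set.disjoint_left.1 (hBd k' k hk') h' hk
        simp [this]
      · simp
    · push Not at h
      simp [h]
  · have : ∀ k : Fin M, ‖(if k = 0 then (1:ℂ) else 0)‖ ^ 2 = if k = 0 then 1 else 0 := by
      intro k; split_ifs <;> simp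
    simp_rw [this]
    simp

/-- the multilinear form of the step -/
noncomputable def stepT {M : ℕ} [NeZero M] {H : Fin n → Type v} [∀ j, NormedAddCommGroup (H j)]
    [∀ j, InnerProductSpace ℂ (H j)] (T : ContinuousMultilinearMap ℂ H ℂ) (i j : Fin n) (R : ℝ) :
    ContinuousMultilinearMap ℂ (fun l : Fin n => PiLp 2 (fun _ : Fin M => H l)) ℂ :=
  (R:ℂ) • ∑ k : Fin M, T.compContinuousLinearMap
    (fun l => PiLp.proj 2 (fun _ : Fin M => H l) (if l = i ∨ l = j then k else 0))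

lemma stepT_apply {M : ℕ} [NeZero M] {H : Fin n → Type v} [∀ j, NormedAddCommGroup (H j)]
    [∀ j, InnerProductSpace ℂ (H j)] (T : ContinuousMultilinearMap ℂ H ℂ) (i j : Fin n) (R : ℝ)
    (x : ∀ l : Fin n, PiLp 2 (fun _ : Fin M => H l)) :
    stepT T i j R x = R * ∑ k : Fin M, T (fun l => x l (if l = i ∨ l = j then k else 0)) := by
  unfold stepT
  rw [_root_.smul_apply, _root_.sum_apply, smul_eq_mul]
  rfl

lemma norm_stepT_le {M : ℕ} [NeZero M] {H : Fin n → Type v} [∀ j, NormedAddCommGroup (H j)]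
    [∀ j, InnerProductSpace ℂ (H j)] (T : ContinuousMultilinearMap ℂ H ℂ) {i j : Fin n}
    (hij : i ≠ j) {R : ℝ} (hR : 0 ≤ R) : ‖stepT (M := M) T i j R‖ ≤ R * ‖T‖ := by
  apply ContinuousMultilinearMap.opNorm_le_bound (by positivity)
  intro x
  rw [stepT_apply, norm_mul, Complex.norm_real, Real.norm_eq_abs, abs_of_nonneg hR, mul_assoc]
  apply mul_le_mul_of_nonneg_left _ hR
  have hji : j ∈ Finset.univ.erase i := Finset.mem_erase.2 ⟨hij.symm, Finset.mem_univ _⟩
  have hsplit : ∀ f : Fin n → ℝ, ∏ l, f l = f i * (f j * ∏ l ∈ (Finset.univ.erase i).erase j, f l) := by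
    intro f
    rw [Finset.mul_prod_erase _ _ hji, Finset.mul_prod_erase _ _ (Finset.mem_univ i)]
  set P : ℝ := ∏ l ∈ (Finset.univ.erase i).erase j, ‖x l‖ with hP
  have hP0 : 0 ≤ P := Finset.prod_nonneg fun _ _ => norm_nonneg _
  have hk : ∀ k : Fin M, ‖T (fun l => x l (if l = i ∨ l = j then k else 0))‖
      ≤ ‖T‖ * (‖x i k‖ * ‖x j k‖ * P) := by
    intro k
    refine (T.le_opNorm _).trans ?_
    apply mul_le_mul_of_nonneg_left _ (norm_nonneg _)
    rw [hsplit (fun l => ‖x l (if l = i ∨ l = j then k else 0)‖)]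
    simp only [true_or, or_true, if_true]
    rw [← mul_assoc]
    apply mul_le_mul_of_nonneg_left _ (by positivity)
    apply Finset.prod_le_prod (fun _ _ => norm_nonneg _)
    intro l _
    exact PiLp.norm_apply_le (x l) _
  have hcs : ∑ k : Fin M, ‖x i k‖ * ‖x j k‖ ≤ ‖x i‖ * ‖x j‖ := by
    rw [PiLp.norm_eq_of_L2, PiLp.norm_eq_of_L2]
    exact Real.sum_mul_le_sqrt_mul_sqrt _ _ _
  calc ‖∑ k : Fin M, T (fun l => x l (if l = i ∨ l = j then k else 0))‖
      ≤ ∑ k : Fin M, ‖T (fun l => x l (if l = i ∨ l = j then k else 0))‖ := norm_sum_le _ _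
    _ ≤ ∑ k : Fin M, ‖T‖ * (‖x i k‖ * ‖x j k‖ * P) := Finset.sum_le_sum fun k _ => hk k
    _ = ‖T‖ * ((∑ k : Fin M, ‖x i k‖ * ‖x j k‖) * P) := by
        rw [Finset.sum_mul, Finset.mul_sum]
    _ ≤ ‖T‖ * ((‖x i‖ * ‖x j‖) * P) := by gcongr
    _ = ‖T‖ * ∏ l, ‖x l‖ := by
        rw [hsplit (fun l => ‖x l‖), hP]; ring

/-- The product of a form function with `∑ₖ cₖ(ξᵢ) 1_{Bₖ}(ξⱼ)`. -/
noncomputable def HForm.step (F : HForm.{v} n) {M : ℕ} [NeZero M] (i j : Fin n) (R : ℝ)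
    (hR : 0 < R) (c : Fin M → ℝ → ℂ) (hc : ∀ k, Measurable (c k))
    (B : Fin M → Set ℝ) (hB : ∀ k, MeasurableSet (B k))
    (hBd : ∀ k k', k ≠ k' → Disjoint (B k) (B k'))
    (hcs : ∀ s, ∑ k, ‖c k s‖ ^ 2 ≤ R ^ 2) : HForm.{v} n where
  H l := PiLp 2 (fun _ : Fin M => F.H l)
  T := stepT F.T i j R
  u l s := WithLp.toLp 2 (fun k => stepCoef i j R c B k l s • F.u l s)
  sm l := by
    apply (PiLp.continuous_toLp 2 _).comp_stronglyMeasurable
    apply stronglyMeasurable_pi'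
    intro k
    exact (measurable_stepCoef i j R hc hB k l).stronglyMeasurable.smul (F.sm l)
  bd l s hs := by
    have h1 : ‖(WithLp.toLp 2 (fun k => stepCoef i j R c B k l s • F.u l s) :
        PiLp 2 (fun _ : Fin M => F.H l))‖ ^ 2 ≤ 1 := by
      rw [PiLp.norm_sq_eq_of_L2]
      calc ∑ k, ‖stepCoef i j R c B k l s • F.u l s‖ ^ 2
          = (∑ k, ‖stepCoef i j R c B k l s‖ ^ 2) * ‖F.u l s‖ ^ 2 := by
            rw [Finset.sum_mul]
            apply Finset.sum_congr rfl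
            intro k _
            rw [norm_smul, mul_pow]
        _ ≤ 1 * 1 := by
            apply mul_le_mul (sum_sq_stepCoef_le hR hBd (hcs s) l) _ (by positivity) zero_le_one
            exact pow_le_one₀ (norm_nonneg _) (F.bd l s hs)
        _ = 1 := one_mul 1
    exact (sq_le_one_iff₀ (norm_nonneg _)).1 h1

variable (F : HForm.{v} n) {M : ℕ} [NeZero M] {i j : Fin n} {R : ℝ}
    {hR : 0 < R} {c : Fin M → ℝ → ℂ} {hc : ∀ k, Measurable (c k)}
    {B : Fin M → Set ℝ} {hB : ∀ k, MeasurableSet (B k)}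
    {hBd : ∀ k k', k ≠ k' → Disjoint (B k) (B k')}
    {hcs : ∀ s, ∑ k, ‖c k s‖ ^ 2 ≤ R ^ 2}

lemma HForm.norm_step_T_le (hij : i ≠ j) :
    ‖(F.step i j R hR c hc B hB hBd hcs).T‖ ≤ R * ‖F.T‖ :=
  norm_stepT_le F.T hij hR.le

lemma HForm.val_step (hij : i ≠ j) (ξ : Fin n → ℝ) :
    (F.step i j R hR c hc B hB hBd hcs).val ξ
      = F.val ξ * ∑ k, c k (ξ i) * indicator (B k) (fun _ => (1:ℂ)) (ξ j) := by
  have hR' : (R:ℂ) ≠ 0 := by exact_mod_cast hR.ne'
  have h1 : (F.step i j R hR c hc B hB hBd hcs).val ξ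
      = R * ∑ k : Fin M, F.T (fun l =>
        stepCoef i j R c B (if l = i ∨ l = j then k else 0) l (ξ l) • F.u l (ξ l)) := by
    unfold HForm.val HForm.step
    simp only
    rw [stepT_apply]
  rw [h1]
  have h2 : ∀ k : Fin M, F.T (fun l =>
        stepCoef i j R c B (if l = i ∨ l = j then k else 0) l (ξ l) • F.u l (ξ l))
      = (c k (ξ i) / R * indicator (B k) (fun _ => (1:ℂ)) (ξ j)) * F.val ξ := by
    intro k
    rw [ContinuousMultilinearMap.map_smul_univ F.T
      (fun l => stepCoef i j R c B (if l = i ∨ l = j then k else 0) l (ξ l))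
      (fun l => F.u l (ξ l)), smul_eq_mul]
    congr 1
    have hji : j ∈ Finset.univ.erase i := Finset.mem_erase.2 ⟨hij.symm, Finset.mem_univ _⟩
    rw [← Finset.mul_prod_erase _ _ (Finset.mem_univ i), ← Finset.mul_prod_erase _ _ hji]
    rw [Finset.prod_eq_one, mul_one]
    · congr 1
      · simp [stepCoef]
      · simp [stepCoef, hij.symm]
    · intro l hl
      have hlj : l ≠ j := (Finset.mem_erase.1 hl).1
      have hli : l ≠ i := (Finset.mem_erase.1 (Finset.mem_erase.1 hl).2).1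
      simp [stepCoef, hli, hlj]
  simp_rw [h2]
  rw [← Finset.sum_mul, mul_comm (F.val ξ), ← mul_assoc]
  congr 1
  rw [Finset.mul_sum]
  apply Finset.sum_congr rfl
  intro k _
  field_simp

end Pool.Agent.H.MP_b7167f_an
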