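import Mathlib

open MeasureTheory Set
open scoped ENNReal

namespace Pool.Agent.H.MP_b7167f_an

lemma measurable_of_dist {α E : Type*} [MeasurableSpace α] [PseudoMetricSpace E]
    [SecondCountableTopology E] [MeasurableSpace E] [BorelSpace E] {u : α → E}
    (h : ∀ e : E, Measurable (fun a => dist (u a) e)) : Measurable u := by
  apply measurable_of_isOpen
  intro O hO
  have h1 : ∀ x : O, ∃ r > 0, Metric.ball (x : E) r ⊆ O := fun x =>
    Metric.isOpen_iff.1 hO x x.2
  choose r hr0 hr using h1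
  obtain ⟨T, hT, hTO⟩ := TopologicalSpace.isOpen_iUnion_countable
    (fun x : O => Metric.ball (x : E) (r x)) (fun x => Metric.isOpen_ball)
  have h2 : O = ⋃ x : O, Metric.ball (x : E) (r x) := by
    ext y
    constructor
    · intro hy
      exact mem_iUnion.2 ⟨⟨y, hy⟩, Metric.mem_ball_self (hr0 _)⟩
    · intro hy
      obtain ⟨x, hx⟩ := mem_iUnion.1 hy
      exact hr x hx
  rw [h2, ← hTO, preimage_iUnion₂]
  apply MeasurableSet.biUnion hT
  intro x _
  exact measurableSet_lt (h x) measurable_const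

/-- Measurability of a curried `L²`-valued map. -/
theorem sm_curry {α Y : Type*} [MeasurableSpace α] [MeasurableSpace Y] {ν : Measure Y}
    [SFinite ν] [MeasurableSpace.CountablyGenerated Y] {G : α → Y → ℂ}
    (hG : Measurable (Function.uncurry G)) (h2 : ∀ a, MemLp (G a) 2 ν) :
    StronglyMeasurable (fun a => (h2 a).toLp (G a)) := by
  haveI : Fact ((2:ℝ≥0∞) ≠ ⊤) := ⟨by norm_num⟩
  borelize (↥(Lp ℂ 2 ν))
  apply Measurable.stronglyMeasurable
  apply measurable_of_dist
  intro e
  have hem : ∃ e' : Y → ℂ, Measurable e' ∧ (e : Y → ℂ) =ᵐ[ν] e' := by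
    have := (Lp.aestronglyMeasurable e).aemeasurable
    exact ⟨this.mk _, this.measurable_mk, this.ae_eq_mk⟩
  obtain ⟨e', he', hee⟩ := hem
  have h3 : ∀ a, dist ((h2 a).toLp (G a)) e
      = (((∫⁻ y, ‖G a y - e' y‖ₑ ^ (2:ℝ) ∂ν)) ^ (1/2 : ℝ)).toReal := by
    intro a
    rw [Lp.dist_def]
    have h4 : eLpNorm (((h2 a).toLp (G a) : Y → ℂ) - (e : Y → ℂ)) 2 ν
        = eLpNorm (fun y => G a y - e' y) 2 ν := by
      apply eLpNorm_congr_ae
      filter_upwards [(h2 a).coeFn_toLp, hee] with y hy1 hy2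
      rw [Pi.sub_apply, hy1, hy2]
    rw [h4, eLpNorm_eq_lintegral_rpow_enorm_toReal (by norm_num) (by norm_num)]
    norm_num
  simp_rw [h3]
  apply Measurable.ennreal_toReal
  apply Measurable.pow_const
  apply Measurable.lintegral_prod_right' (f := fun p : α × Y => ‖G p.1 p.2 - e' p.2‖ₑ ^ (2:ℝ))
  apply Measurable.pow_const
  apply Measurable.enorm
  exact hG.sub (he'.comp measurable_snd)

end Pool.Agent.H.MP_b7167f_an
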