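import Mathlib
import Pool.Agent.H.MP_b7167f_an.Fixed

open MeasureTheory FourierTransform Set
open scoped ENNReal NNReal ComplexConjugate InnerProductSpace

namespace Pool.Agent.H.MP_b7167f_an

lemma norm_intervalIntegral_ch_le (α β c d : ℝ) (hc : c ≠ 0) :
    ‖∫ η in α..β, ch (c * η + d)‖ ≤ 1 / |c| := by
  have hpi : (2 * Real.pi * Complex.I * c : ℂ) ≠ 0 := by
    have h1 : (c : ℂ) ≠ 0 := by exact_mod_cast hc
    have h2 : (Real.pi : ℂ) ≠ 0 := by exact_mod_cast Real.pi_ne_zero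
    simp [h1, h2, Complex.I_ne_zero]
  have hder : ∀ η ∈ uIcc α β, HasDerivAt (fun η : ℝ => ch (c * η + d) / (2 * Real.pi * Complex.I * c))
      (ch (c * η + d)) η := by
    intro η _
    have h1 : HasDerivAt (fun η : ℝ => (2 * Real.pi * Complex.I * ((c * η + d : ℝ) : ℂ)))
        (2 * Real.pi * Complex.I * c) η := by
      have h0 : HasDerivAt (fun η : ℝ => c * η + d) c η := by
        simpa using ((hasDerivAt_id η).const_mul c).add_const d
      exact (h0.ofReal_comp).const_mul _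
    have h2 := (h1.cexp).div_const (2 * Real.pi * Complex.I * c)
    rw [mul_div_assoc, div_self hpi, mul_one] at h2
    exact h2
  have hcont : Continuous (fun η : ℝ => ch (c * η + d)) := by fun_prop
  rw [intervalIntegral.integral_eq_sub_of_hasDerivAt hder (hcont.intervalIntegrable _ _)]
  rw [← sub_div, norm_div]
  have h3 : ‖(2 * Real.pi * Complex.I * c : ℂ)‖ = 2 * Real.pi * |c| := by
    simp [Real.pi_pos.le, abs_of_pos Real.pi_pos]
  rw [h3]
  have h4 : ‖ch (c * β + d) - ch (c * α + d)‖ ≤ 2 := by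
    calc _ ≤ ‖ch (c * β + d)‖ + ‖ch (c * α + d)‖ := norm_sub_le _ _
      _ = 2 := by simp; norm_num
  have hc' : 0 < |c| := abs_pos.2 hc
  rw [div_le_div_iff₀ (by positivity) hc']
  have h5 := Real.pi_gt_three
  nlinarith [mul_pos hc' Real.pi_pos]

/-- the indicator of `[-1,1]`. -/
noncomputable def v1 : ℝ → ℂ := indicator (Icc (-1:ℝ) 1) (fun _ => 1)

lemma adm_v1 : Adm v1 := by
  refine ⟨stronglyMeasurable_const.indicator measurableSet_Icc, fun s => ?_, fun s hs => ?_⟩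
  · by_cases h : s ∈ Icc (-1:ℝ) 1
    · simp [v1, h]
    · simp [v1, h]
  · simp [v1, hs]

lemma Kop_v1_le {z t : ℝ} (hz : z ≠ 0) (ht : t ≠ 0) : ‖Kop v1 z t‖ ≤ 1 / (|z| * |t|) := by
  have e1 : Kop v1 z t = ∫ η in Icc (max (-1) (-1 - z)) (min 1 (1 - z)),
      ch ((2 * z * t) * η + z ^ 2 * t) := by
    rw [← integral_indicator measurableSet_Icc]
    unfold Kop
    congr 1
    ext η
    by_cases h : η ∈ Icc (max (-1) (-1 - z)) (min 1 (1 - z))
    · have h1 : η ∈ Icc (-1:ℝ) 1 := ⟨(le_max_left _ _).trans h.1, h.2.trans (min_le_left _ _)⟩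
      have h2 : η + z ∈ Icc (-1:ℝ) 1 := by
        have h3 := (le_max_right (-1:ℝ) (-1 - z)).trans h.1
        have h4 := h.2.trans (min_le_right (1:ℝ) (1 - z))
        constructor <;> linarith
      rw [indicator_of_mem h]
      simp only [v1, indicator_of_mem h1, indicator_of_mem h2]
      simp only [inner_self_eq_norm_sq_to_K, norm_one, map_one, one_pow, mul_one]
      congr 1
      ring
    · rw [indicator_of_notMem h]
      have : η ∉ Icc (-1:ℝ) 1 ∨ η + z ∉ Icc (-1:ℝ) 1 := by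
        by_contra hcon
        push Not at hcon
        apply h
        obtain ⟨h1, h2⟩ := hcon
        constructor
        · apply max_le h1.1; linarith [h2.1]
        · apply le_min h1.2; linarith [h2.2]
      rcases this with h1 | h1 <;> simp [v1, h1]
  rw [e1]
  have hc : (2 * z * t) ≠ 0 := by simp [hz, ht]
  by_cases hle : max (-1:ℝ) (-1 - z) ≤ min 1 (1 - z)
  · rw [integral_Icc_eq_integral_Ioc, ← intervalIntegral.integral_of_le hle]
    refine (norm_intervalIntegral_ch_le _ _ _ _ hc).trans ?_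
    have h1 : |2 * z * t| = 2 * (|z| * |t|) := by
      rw [abs_mul, abs_mul, abs_two]; ring
    rw [h1]
    have h2 : 0 < |z| * |t| := mul_pos (abs_pos.2 hz) (abs_pos.2 ht)
    exact one_div_le_one_div_of_le h2 (by linarith)
  · rw [Icc_eq_empty hle]
    simp
    positivity

/-- constant in the dispersive bound -/
noncomputable def Kth (θ : ℝ) : ℝ≥0∞ :=
  2 * ∫⁻ z in Icc (-2:ℝ) 2, ENNReal.ofReal (|z| ^ (-θ))

lemma Kth_ne_top {θ : ℝ} (h1 : θ < 1) : Kth θ ≠ ∞ := by
  unfold Kth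
  exact ENNReal.mul_ne_top (by norm_num) (lintegral_abs_rpow_lt_top (by linarith)).ne

lemma Kop_v1_interp {θ : ℝ} (h0 : 0 < θ) (h1 : θ < 1) {z t : ℝ} (hz : z ≠ 0) (ht : t ≠ 0) :
    ‖Kop v1 z t‖ ≤ 2 * (|z| ^ (-θ) * |t| ^ (-θ)) := by
  have hb1 := Kop_bound adm_v1 z t
  have hb2 := Kop_v1_le hz ht
  have hz' : 0 < |z| := abs_pos.2 hz
  have ht' : 0 < |t| := abs_pos.2 ht
  have hn := norm_nonneg (Kop v1 z t)
  have e1 : ‖Kop v1 z t‖ = ‖Kop v1 z t‖ ^ (1 - θ) * ‖Kop v1 z t‖ ^ θ := by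
    rw [← Real.rpow_add_of_nonneg hn (by linarith) h0.le]
    norm_num
  rw [e1]
  calc ‖Kop v1 z t‖ ^ (1 - θ) * ‖Kop v1 z t‖ ^ θ
      ≤ (2:ℝ) ^ (1 - θ) * (1 / (|z| * |t|)) ^ θ := by
        apply mul_le_mul
        · exact Real.rpow_le_rpow hn hb1 (by linarith)
        · exact Real.rpow_le_rpow hn hb2 h0.le
        · positivity
        · positivity
    _ ≤ 2 * (|z| ^ (-θ) * |t| ^ (-θ)) := by
        apply mul_le_mul
        · calc (2:ℝ) ^ (1 - θ) ≤ 2 ^ (1:ℝ) := by
                apply Real.rpow_le_rpow_of_exponent_le (by norm_num) (by linarith)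
            _ = 2 := by norm_num
        · rw [one_div, Real.inv_rpow (by positivity), ← Real.rpow_neg (by positivity),
            Real.mul_rpow (by positivity) (by positivity)]
        · positivity
        · norm_num

lemma enorm_sq_Uop_v1_le {θ : ℝ} (h0 : 0 < θ) (h1 : θ < 1) (x : ℝ) {t : ℝ} (ht : t ≠ 0) :
    ‖Uop v1 x t‖ₑ ^ 2 ≤ Kth θ * ENNReal.ofReal (|t| ^ (-θ)) := by
  have e1 : ‖Uop v1 x t‖ₑ ^ 2 = ‖𝓕 (fun z => Kop v1 z t) (-x)‖ₑ := by
    rw [← norm_sq_Uop adm_v1, ← ofReal_norm, ← ofReal_norm, Complex.norm_real, Real.norm_eq_abs,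
      abs_of_nonneg (by positivity), ENNReal.ofReal_pow (norm_nonneg _)]
  rw [e1, fourier_eq_ch]
  calc ‖∫ v, ch (-(v * -x)) • Kop v1 v t‖ₑ
      ≤ ∫⁻ v, ‖ch (-(v * -x)) • Kop v1 v t‖ₑ := enorm_integral_le_lintegral_enorm _
    _ = ∫⁻ v in Icc (-2:ℝ) 2, ‖Kop v1 v t‖ₑ := by
        rw [← lintegral_indicator measurableSet_Icc]
        congr 1
        ext v
        rw [enorm_smul, enorm_ch, one_mul]
        by_cases h : v ∈ Icc (-2:ℝ) 2
        · rw [indicator_of_mem h]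
        · rw [indicator_of_notMem h, Kop_supp adm_v1 v t h]; simp
    _ ≤ ∫⁻ v in Icc (-2:ℝ) 2, (2 * ENNReal.ofReal (|t| ^ (-θ))) * ENNReal.ofReal (|v| ^ (-θ)) := by
        apply lintegral_mono_ae
        filter_upwards [ae_ne_zero_restrict] with z hz
        rw [← ofReal_norm, show (2:ℝ≥0∞) = ENNReal.ofReal 2 by simp,
          ← ENNReal.ofReal_mul (by norm_num), ← ENNReal.ofReal_mul (by positivity)]
        apply ENNReal.ofReal_le_ofReal
        refine (Kop_v1_interp h0 h1 hz ht).trans (le_of_eq (by ring))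
    _ = Kth θ * ENNReal.ofReal (|t| ^ (-θ)) := by
        rw [lintegral_const_mul' _ _ (ENNReal.mul_ne_top (by norm_num) ENNReal.ofReal_ne_top)]
        unfold Kth
        ring

/-- the decay weight: `‖K(x,t)‖² ≤ wgt θ t`, with `∫ wgt^a < ∞` for `a θ > 1`. -/
noncomputable def wgt (θ t : ℝ) : ℝ≥0∞ :=
  (2 * Kth θ + 8) * ENNReal.ofReal ((1 + ‖t‖) ^ (-θ))

lemma enorm_sq_Uop_v1_le_wgt {θ : ℝ} (h0 : 0 < θ) (h1 : θ < 1) (x t : ℝ) :
    ‖Uop v1 x t‖ₑ ^ 2 ≤ wgt θ t := by
  unfold wgt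
  rw [add_mul]
  have h2θ : (2:ℝ) ^ θ ≤ 2 := by
    calc (2:ℝ) ^ θ ≤ 2 ^ (1:ℝ) := Real.rpow_le_rpow_of_exponent_le (by norm_num) h1.le
      _ = 2 := by norm_num
  by_cases ht : |t| ≤ 1
  · calc ‖Uop v1 x t‖ₑ ^ 2 ≤ 2 ^ 2 := by gcongr; exact enorm_Uop_le adm_v1 x t
      _ = 8 * ENNReal.ofReal (1 / 2) := by
          rw [show (8:ℝ≥0∞) = ENNReal.ofReal 8 by simp, ← ENNReal.ofReal_mul (by norm_num)]
          norm_num
      _ ≤ 8 * ENNReal.ofReal ((1 + ‖t‖) ^ (-θ)) := by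
          gcongr
          rw [Real.norm_eq_abs, Real.rpow_neg (by positivity), one_div]
          apply inv_anti₀ (by positivity)
          calc (1 + |t|) ^ θ ≤ 2 ^ θ := by
                apply Real.rpow_le_rpow (by positivity) (by linarith) h0.le
            _ ≤ 2 := h2θ
      _ ≤ _ := le_add_self
  · push Not at ht
    have ht0 : t ≠ 0 := by
      intro h; rw [h] at ht; norm_num at ht
    calc ‖Uop v1 x t‖ₑ ^ 2 ≤ Kth θ * ENNReal.ofReal (|t| ^ (-θ)) :=
          enorm_sq_Uop_v1_le h0 h1 x ht0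
      _ ≤ Kth θ * ENNReal.ofReal (2 * (1 + ‖t‖) ^ (-θ)) := by
          gcongr
          rw [Real.norm_eq_abs, Real.rpow_neg (by positivity), Real.rpow_neg (by positivity),
            ← div_eq_mul_inv, ← one_div, div_le_div_iff₀ (by positivity) (by positivity), one_mul]
          calc (1 + |t|) ^ θ ≤ (2 * |t|) ^ θ :=
                Real.rpow_le_rpow (by positivity) (by linarith) h0.le
            _ = 2 ^ θ * |t| ^ θ := Real.mul_rpow (by norm_num) (by positivity)
            _ ≤ 2 * |t| ^ θ := by gcongr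
      _ = 2 * Kth θ * ENNReal.ofReal ((1 + ‖t‖) ^ (-θ)) := by
          rw [ENNReal.ofReal_mul (by norm_num)]
          simp only [ENNReal.ofReal_ofNat]
          ring
      _ ≤ _ := le_self_add

lemma measurable_wgt (θ : ℝ) : Measurable (wgt θ) := by
  unfold wgt
  apply Measurable.const_mul
  apply Measurable.ennreal_ofReal
  exact (measurable_const.add measurable_norm).pow_const _

lemma lintegral_wgt_rpow {θ a : ℝ} (h1 : θ < 1) (ha0 : 0 < a) (ha : 1 < a * θ) :
    ∫⁻ t, (wgt θ t) ^ a ≠ ∞ := by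
  unfold wgt
  have hC : (2 * Kth θ + 8) ^ a ≠ ∞ := by
    apply ENNReal.rpow_ne_top_of_nonneg ha0.le
    exact ENNReal.add_ne_top.2 ⟨ENNReal.mul_ne_top (by norm_num) (Kth_ne_top h1), by norm_num⟩
  have e1 : ∀ t : ℝ, ((2 * Kth θ + 8) * ENNReal.ofReal ((1 + ‖t‖) ^ (-θ))) ^ a
      = (2 * Kth θ + 8) ^ a * ENNReal.ofReal ((1 + ‖t‖) ^ (-(a * θ))) := by
    intro t
    rw [ENNReal.mul_rpow_of_nonneg _ _ ha0.le, ENNReal.ofReal_rpow_of_nonneg (by positivity) ha0.le,
      ← Real.rpow_mul (by positivity)]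
    congr 3
    ring
  simp_rw [e1]
  rw [lintegral_const_mul' _ _ hC]
  apply ENNReal.mul_ne_top hC
  have h2 : Integrable (fun t : ℝ => (1 + ‖t‖) ^ (-(a * θ))) := by
    apply integrable_one_add_norm
    simpa using ha
  have h3 := h2.hasFiniteIntegral
  rw [hasFiniteIntegral_iff_ofReal (Filter.Eventually.of_forall fun t => by positivity)] at h3
  exact h3.ne

end Pool.Agent.H.MP_b7167f_an
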