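import Mathlib

open MeasureTheory FourierTransform SchwartzMap
open scoped ENNReal ContDiff InnerProductSpace

namespace Pool.Agent.H.MP_b7167f_an

variable {V : Type*} [NormedAddCommGroup V] [InnerProductSpace ℝ V] [FiniteDimensional ℝ V]
  [MeasurableSpace V] [BorelSpace V]
variable {H : Type*} [NormedAddCommGroup H] [InnerProductSpace ℂ H] [CompleteSpace H]

/-- The `L²` Fourier transform agrees a.e. with the Fourier integral on `L¹ ∩ L²`. -/
theorem fourierV_toLp_ae_eq {f : V → H} (hf1 : Integrable f) (hf2 : MemLp f 2) :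
    (𝓕 (hf2.toLp f) : Lp H 2 (volume : Measure V)) =ᵐ[volume] (𝓕 f : V → H) := by
  apply ae_eq_of_integral_contDiff_smul_eq
  · exact (Lp.memLp _).locallyIntegrable (by norm_num)
  · apply Continuous.locallyIntegrable
    exact VectorFourier.fourierIntegral_continuous Real.continuous_fourierChar
      (by exact continuous_inner) hf1
  · intro g g_smooth g_cpt
    have hg₁ : HasCompactSupport (Complex.ofRealCLM ∘ g) := g_cpt.comp_left rfl
    have hg₂ : ContDiff ℝ ∞ (Complex.ofRealCLM ∘ g) := by fun_prop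
    set G : 𝓢(V, ℂ) := hg₁.toSchwartzMap hg₂ with hG
    have h1 : ∫ x, g x • ((𝓕 (hf2.toLp f) : Lp H 2 (volume : Measure V)) : V → H) x
        = (Lp.toTemperedDistribution (𝓕 (hf2.toLp f) : Lp H 2 (volume : Measure V))) G := by
      rw [Lp.toTemperedDistribution_apply]
      congr 1
    rw [h1, ← Lp.fourier_toTemperedDistribution_eq, TemperedDistribution.fourier_apply,
      Lp.toTemperedDistribution_apply]
    have h2 : ∫ x, (𝓕 G) x • (hf2.toLp f) x = ∫ x, (𝓕 G) x • f x := by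
      apply integral_congr_ae
      filter_upwards [hf2.coeFn_toLp] with x hx
      rw [hx]
    rw [h2]
    have h3 : (fun x => (𝓕 G) x • f x) = fun x => (𝓕 (G : V → ℂ)) x • f x := by
      ext x
      rw [SchwartzMap.fourier_coe]
    rw [h3]
    have h4 := VectorFourier.integral_fourierIntegral_smul_eq_flip (μ := volume) (ν := volume)
      (L := innerₗ V) (f := (G : V → ℂ)) (g := f) Real.continuous_fourierChar
      (by exact continuous_inner) G.integrable hf1
    rw [flip_innerₗ] at h4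
    exact h4

/-- Plancherel for `L¹ ∩ L²` functions with values in a Hilbert space. -/
theorem plancherelV {f : V → H} (hf1 : Integrable f) (hf2 : MemLp f 2) :
    ∫⁻ x, ‖𝓕 f x‖ₑ ^ 2 = ∫⁻ x, ‖f x‖ₑ ^ 2 := by
  have h1 : eLpNorm (𝓕 f : V → H) 2 volume = eLpNorm f 2 volume := by
    rw [← eLpNorm_congr_ae (fourierV_toLp_ae_eq hf1 hf2),
      ← eLpNorm_congr_ae (hf2.coeFn_toLp)]
    have := Lp.norm_fourier_eq (hf2.toLp f)
    rw [Lp.norm_def, Lp.norm_def] at this
    exact (ENNReal.toReal_eq_toReal_iff' (Lp.eLpNorm_ne_top _) (Lp.eLpNorm_ne_top _)).1 this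
  have h2 := eLpNorm_nnreal_pow_eq_lintegral (f := (𝓕 f : V → H)) (μ := volume) (p := 2) (by norm_num)
  have h3 := eLpNorm_nnreal_pow_eq_lintegral (f := f) (μ := volume) (p := 2) (by norm_num)
  simp only [ENNReal.coe_ofNat, NNReal.coe_ofNat, ENNReal.rpow_ofNat] at h2 h3
  rw [← h2, ← h3, h1]

theorem memLp_fourierV {f : V → H} (hf1 : Integrable f) (hf2 : MemLp f 2) :
    MemLp (𝓕 f : V → H) 2 volume :=
  (memLp_congr_ae (fourierV_toLp_ae_eq hf1 hf2)).1 (Lp.memLp _)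

/-- Parseval for `L¹ ∩ L²` functions. -/
theorem parsevalV {f g : V → ℂ} (hf1 : Integrable f) (hf2 : MemLp f 2)
    (hg1 : Integrable g) (hg2 : MemLp g 2) :
    ∫ x, ⟪𝓕 f x, 𝓕 g x⟫_ℂ = ∫ x, ⟪f x, g x⟫_ℂ := by
  have h := Lp.inner_fourier_eq (hf2.toLp f) (hg2.toLp g)
  rw [L2.inner_def, L2.inner_def] at h
  have e1 : ∫ x, ⟪((𝓕 (hf2.toLp f) : Lp ℂ 2 (volume : Measure V)) : V → ℂ) x,
      ((𝓕 (hg2.toLp g) : Lp ℂ 2 (volume : Measure V)) : V → ℂ) x⟫_ℂ
      = ∫ x, ⟪𝓕 f x, 𝓕 g x⟫_ℂ := by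
    apply integral_congr_ae
    filter_upwards [fourierV_toLp_ae_eq hf1 hf2, fourierV_toLp_ae_eq hg1 hg2] with x h1 h2
    rw [h1, h2]
  have e2 : ∫ x, ⟪(hf2.toLp f) x, (hg2.toLp g) x⟫_ℂ = ∫ x, ⟪f x, g x⟫_ℂ := by
    apply integral_congr_ae
    filter_upwards [hf2.coeFn_toLp, hg2.coeFn_toLp] with x h1 h2
    rw [h1, h2]
  rw [← e1, ← e2]
  exact h

end Pool.Agent.H.MP_b7167f_an
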