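import Mathlib
import Pool.Agent.H.MP_b7167f_an.Fresnel
import Pool.Agent.H.MP_b7167f_an.Forms
import Pool.Agent.H.MP_b7167f_an.PlancherelV
import Pool.Agent.H.MP_b7167f_an.CurryL2

open MeasureTheory FourierTransform Set
open scoped ENNReal NNReal ComplexConjugate InnerProductSpace

namespace Pool.Agent.H.MP_b7167f_an

/-- `ℝ^m` with its Euclidean structure -/
abbrev EV (m : ℕ) := EuclideanSpace ℝ (Fin m)

variable {m : ℕ}

/-- indicator of the cube `[-1,1]^m`. -/
noncomputable def qV (η : EV m) : ℂ := ∏ j, v1 (η j)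

lemma fourierV_eq_ch {W : Type*} [NormedAddCommGroup W] [InnerProductSpace ℝ W]
    [MeasurableSpace W] [BorelSpace W] [FiniteDimensional ℝ W]
    {E : Type*} [NormedAddCommGroup E] [NormedSpace ℂ E] (f : W → E) (w : W) :
    𝓕 f w = ∫ v, ch (-⟪v, w⟫_ℝ) • f v := by
  rw [Real.fourier_eq']
  congr 1
  ext v
  congr 1
  rw [ch_eq]
  congr 2
  push_cast
  ring

lemma v1_real (s : ℝ) : conj (v1 s) = v1 s := by
  by_cases h : s ∈ Icc (-1:ℝ) 1
  · simp [v1, h]
  · simp [v1, h]

lemma norm_v1_le (s : ℝ) : ‖v1 s‖ ≤ 1 := adm_v1.bd s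

lemma measurable_v1 : Measurable v1 := adm_v1.sm.measurable

lemma measurable_coord (j : Fin m) : Measurable (fun η : EV m => η j) := by
  fun_prop

lemma measurable_qV : Measurable (qV : EV m → ℂ) := by
  unfold qV
  exact Finset.measurable_fun_prod _ fun j _ => measurable_v1.comp (measurable_coord j)

lemma norm_qV_le (η : EV m) : ‖qV η‖ ≤ 1 := by
  unfold qV
  rw [norm_prod]
  exact Finset.prod_le_one (fun j _ => norm_nonneg _) fun j _ => norm_v1_le _

/-- the test function `φ_{x,t}` -/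
noncomputable def phiV (x : EV m) (t : ℝ) (η : EV m) : ℂ :=
  ch (-(⟪η, x⟫_ℝ + ‖η‖ ^ 2 * t)) * qV η

/-- the kernel `K_t(x+y)`, a product of one-dimensional kernels -/
noncomputable def kV (z : EV m) (t : ℝ) : ℂ := ∏ j, Uop v1 (z j) t

lemma fourier_phiV (x : EV m) (t : ℝ) (y : EV m) : 𝓕 (phiV x t) y = conj (kV (x + y) t) := by
  rw [fourierV_eq_ch, ← (PiLp.volume_preserving_toLp (Fin m)).integral_comp
    (MeasurableEquiv.toLp 2 (Fin m → ℝ)).measurableEmbedding]
  have h1 : ∀ η : Fin m → ℝ, ch (-⟪(WithLp.toLp 2 η : EV m), y⟫_ℝ) • phiV x t (WithLp.toLp 2 η)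
      = ∏ j, (fun (j : Fin m) (s : ℝ) => ch (-(s * (x j + y j) + s ^ 2 * t)) * v1 s) j (η j) := by
    intro η
    unfold phiV qV
    rw [smul_eq_mul, ← mul_assoc, ← ch_add, Finset.prod_mul_distrib, ← ch_sum]
    congr 2
    rw [EuclideanSpace.norm_sq_eq]
    simp only [PiLp.inner_apply, RCLike.inner_apply, conj_trivial, Real.norm_eq_abs, sq_abs]
    rw [Finset.sum_mul, ← Finset.sum_neg_distrib, ← Finset.sum_add_distrib,
      ← Finset.sum_neg_distrib, ← Finset.sum_add_distrib]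
    apply Finset.sum_congr rfl
    intro j _
    ring
  simp_rw [h1]
  rw [integral_fintype_prod_volume_eq_prod
    (fun (j : Fin m) (s : ℝ) => ch (-(s * (x j + y j) + s ^ 2 * t)) * v1 s)]
  unfold kV
  rw [map_prod]
  apply Finset.prod_congr rfl
  intro j _
  unfold Uop
  rw [← integral_conj]
  congr 1
  ext s
  rw [smul_eq_mul, map_mul, conj_ch, v1_real]
  rfl

lemma enorm_sq_kV_le {θ : ℝ} (h0 : 0 < θ) (h1 : θ < 1) (z : EV m) (t : ℝ) :
    ‖kV z t‖ₑ ^ 2 ≤ (wgt θ t) ^ m := by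
  unfold kV
  rw [← ofReal_norm, norm_prod, ENNReal.ofReal_prod_of_nonneg (fun _ _ => norm_nonneg _),
    ← Finset.prod_pow]
  calc ∏ j, ENNReal.ofReal ‖Uop v1 (z j) t‖ ^ 2 ≤ ∏ _j : Fin m, wgt θ t := by
        apply Finset.prod_le_prod'
        intro j _
        rw [ofReal_norm]
        exact enorm_sq_Uop_v1_le_wgt h0 h1 _ _
    _ = (wgt θ t) ^ m := by simp

lemma norm_kV_le (z : EV m) (t : ℝ) : ‖kV z t‖ ≤ 2 ^ m := by
  unfold kV
  rw [norm_prod]
  calc ∏ j, ‖Uop v1 (z j) t‖ ≤ ∏ _j : Fin m, (2:ℝ) :=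
        Finset.prod_le_prod (fun _ _ => norm_nonneg _) fun j _ => norm_Uop_le adm_v1 _ _
    _ = 2 ^ m := by simp

lemma measurable_kV : Measurable (fun p : EV m × ℝ => kV p.1 p.2) := by
  unfold kV
  apply Finset.measurable_fun_prod
  intro j _
  have h1 := (sm_Uop adm_v1).measurable
  have h2 : Measurable (fun p : EV m × ℝ => ((p.1 j, p.2) : ℝ × ℝ)) := by fun_prop
  exact h1.comp h2

lemma integrable_of_qV {g : EV m → ℂ} (hg : Measurable g) {C : ℝ} (hb : ∀ η, ‖g η‖ ≤ C) :
    Integrable (fun η => g η * qV η) ∧ MemLp (fun η => g η * qV η) 2 volume := by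
  have hS : MeasurableSet {η : EV m | ∀ j, η j ∈ Icc (-1:ℝ) 1} := by
    have : {η : EV m | ∀ j, η j ∈ Icc (-1:ℝ) 1} = ⋂ j, (fun η : EV m => η j) ⁻¹' (Icc (-1:ℝ) 1) := by
      ext η; simp
    rw [this]
    exact MeasurableSet.iInter fun j => measurable_coord j measurableSet_Icc
  have hvol : volume {η : EV m | ∀ j, η j ∈ Icc (-1:ℝ) 1} ≠ ∞ := by
    have h1 : {η : EV m | ∀ j, η j ∈ Icc (-1:ℝ) 1} ⊆ Metric.closedBall 0 (Real.sqrt m) := by
      intro η hη
      rw [mem_closedBall_zero_iff, EuclideanSpace.norm_eq]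
      apply Real.sqrt_le_sqrt
      calc ∑ j, ‖η j‖ ^ 2 ≤ ∑ _j : Fin m, (1:ℝ) := by
            apply Finset.sum_le_sum
            intro j _
            have h := hη j
            rw [mem_Icc] at h
            rw [Real.norm_eq_abs, sq_abs]
            nlinarith [h.1, h.2]
        _ = m := by simp
    exact ((measure_mono h1).trans_lt measure_closedBall_lt_top).ne
  have hsupp : (fun η => g η * qV η)
      = indicator {η : EV m | ∀ j, η j ∈ Icc (-1:ℝ) 1} (fun η => g η * qV η) := by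
    ext η
    by_cases h : η ∈ {η : EV m | ∀ j, η j ∈ Icc (-1:ℝ) 1}
    · rw [indicator_of_mem h]
    · rw [indicator_of_notMem h]
      simp only [mem_setOf_eq, not_forall] at h
      obtain ⟨j, hj⟩ := h
      have : qV η = 0 := by
        unfold qV
        exact Finset.prod_eq_zero (Finset.mem_univ j) (by simp [v1, hj])
      rw [this, mul_zero]
  have hm : AEStronglyMeasurable (fun η => g η * qV η) (volume : Measure (EV m)) :=
    (hg.mul measurable_qV).aestronglyMeasurable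
  have hb' : ∀ η, ‖g η * qV η‖ ≤ C := by
    intro η
    rw [norm_mul]
    have h0 : 0 ≤ C := (norm_nonneg _).trans (hb η)
    calc ‖g η‖ * ‖qV η‖ ≤ C * 1 := mul_le_mul (hb η) (norm_qV_le η) (norm_nonneg _) h0
      _ = C := mul_one C
  constructor
  · rw [hsupp, integrable_indicator_iff hS]
    exact Measure.integrableOn_of_bounded (M := C) hvol hm (Filter.Eventually.of_forall hb')
  · rw [hsupp, memLp_indicator_iff_restrict hS]
    haveI : IsFiniteMeasure (volume.restrict {η : EV m | ∀ j, η j ∈ Icc (-1:ℝ) 1}) :=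
      ⟨by rw [Measure.restrict_apply_univ]; exact hvol.lt_top⟩
    exact MemLp.of_bound hm.restrict C (Filter.Eventually.of_forall hb')

lemma phiV_mem (x : EV m) (t : ℝ) :
    Integrable (phiV x t) ∧ MemLp (phiV x t) 2 volume := by
  apply integrable_of_qV (C := 1)
  · apply Continuous.measurable
    fun_prop
  · intro η
    rw [norm_ch]

end Pool.Agent.H.MP_b7167f_an
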