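import Mathlib
import Pool.Agent.H.MP_b7167f_an.HForm
import Pool.Agent.H.MP_b7167f_an.KernelV

open MeasureTheory FourierTransform Set
open scoped ENNReal NNReal ComplexConjugate InnerProductSpace

namespace Pool.Agent.H.MP_b7167f_an

universe v

variable {n : ℕ}

/-- the cube `[-1,1]^n` -/
def cube (n : ℕ) : Set (Fin n → ℝ) := Icc (fun _ : Fin n => (-1:ℝ)) (fun _ : Fin n => (1:ℝ))

lemma measurableSet_cube : MeasurableSet (cube n) := measurableSet_Icc

lemma mem_cube {ξ : Fin n → ℝ} : ξ ∈ cube n ↔ ∀ j, ξ j ∈ Icc (-1:ℝ) 1 := by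
  constructor
  · intro h j; exact ⟨h.1 j, h.2 j⟩
  · intro h; exact ⟨fun j => (h j).1, fun j => (h j).2⟩

lemma extOp_eq_integral (f : (Fin n → ℝ) → ℂ) (p : (Fin n → ℝ) × ℝ) :
    extOp n f p = ∫ ξ : Fin n → ℝ, ch ((∑ j, ξ j * p.1 j) + (∑ j, ξ j ^ 2) * p.2) *
      indicator (cube n) f ξ := by
  unfold extOp
  have hmeas : MeasurableSet (Icc (fun _ : Fin n => (-1:ℝ)) (fun _ : Fin n => (1:ℝ))) :=
    measurableSet_Icc
  rw [← integral_indicator hmeas]
  congr 1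
  ext ξ
  by_cases hξ : ξ ∈ cube n
  · rw [indicator_of_mem hξ, indicator_of_mem (s := Icc _ _) hξ, mul_comm]
    rfl
  · rw [indicator_of_notMem hξ, indicator_of_notMem (s := Icc _ _) hξ, mul_zero]

lemma qV_of_mem {η : EV n} (h : ∀ j, η j ∈ Icc (-1:ℝ) 1) : qV η = 1 := by
  unfold qV
  apply Finset.prod_eq_one
  intro j _
  simp [v1, h j]

/-- Plancherel at fixed time. -/
lemma extOp_L2 {f : (Fin n → ℝ) → ℂ} (hf : Measurable f) {C : ℝ}
    (hb : ∀ ξ ∈ cube n, ‖f ξ‖ ≤ C) (t : ℝ) :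
    ∫⁻ x : Fin n → ℝ, ‖extOp n f (x, t)‖ₑ ^ 2 = ∫⁻ ξ in cube n, ‖f ξ‖ₑ ^ 2 := by
  set f' : (Fin n → ℝ) → ℂ := indicator (cube n) f with hf'
  have hf'm : Measurable f' := hf.indicator measurableSet_cube
  have hf'b : ∀ ξ, ‖f' ξ‖ ≤ max C 0 := by
    intro ξ
    by_cases h : ξ ∈ cube n
    · rw [hf', indicator_of_mem h]; exact (hb ξ h).trans (le_max_left _ _)
    · rw [hf', indicator_of_notMem h, norm_zero]; exact le_max_right _ _
  -- the Euclidean version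
  set g : EV n → ℂ := fun η => (ch (‖η‖ ^ 2 * t) * f' (WithLp.ofLp η)) * qV η with hg
  have hofm : Measurable (fun η : EV n => WithLp.ofLp η) := by fun_prop
  have hgm := integrable_of_qV (m := n) (g := fun η => ch (‖η‖ ^ 2 * t) * f' (WithLp.ofLp η))
    (C := max C 0)
    (by
      apply Measurable.mul
      · exact Continuous.measurable (by fun_prop)
      · exact hf'm.comp hofm)
    (by
      intro η
      rw [norm_mul, norm_ch, one_mul]
      exact hf'b _)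
  have hgval : ∀ η : EV n, g η = ch (‖η‖ ^ 2 * t) * f' (WithLp.ofLp η) := by
    intro η
    rw [hg]
    simp only
    by_cases h : (WithLp.ofLp η) ∈ cube n
    · rw [qV_of_mem (mem_cube.1 h), mul_one]
    · rw [hf', indicator_of_notMem h, mul_zero, zero_mul]
  have hF : ∀ y : EV n, 𝓕 g (-y) = extOp n f (WithLp.ofLp y, t) := by
    intro y
    rw [fourierV_eq_ch, extOp_eq_integral,
      ← (PiLp.volume_preserving_toLp (Fin n)).integral_comp
        (MeasurableEquiv.toLp 2 (Fin n → ℝ)).measurableEmbedding]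
    congr 1
    ext ξ
    rw [hgval, smul_eq_mul, ← mul_assoc, ← ch_add]
    congr 2
    rw [EuclideanSpace.norm_sq_eq]
    simp only [PiLp.inner_apply, RCLike.inner_apply, conj_trivial, Real.norm_eq_abs, sq_abs,
      PiLp.neg_apply]
    rw [← Finset.sum_neg_distrib]
    congr 1
    apply Finset.sum_congr rfl
    intro j _
    ring
  calc ∫⁻ x : Fin n → ℝ, ‖extOp n f (x, t)‖ₑ ^ 2
      = ∫⁻ y : EV n, ‖extOp n f (WithLp.ofLp y, t)‖ₑ ^ 2 := by
        rw [← (PiLp.volume_preserving_ofLp (Fin n)).lintegral_comp_emb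
          (MeasurableEquiv.toLp 2 (Fin n → ℝ)).symm.measurableEmbedding]
    _ = ∫⁻ y : EV n, ‖𝓕 g (-y)‖ₑ ^ 2 := by simp_rw [hF]
    _ = ∫⁻ y : EV n, ‖𝓕 g y‖ₑ ^ 2 := lintegral_neg_eq_self (fun y => ‖𝓕 g y‖ₑ ^ 2)
    _ = ∫⁻ y : EV n, ‖g y‖ₑ ^ 2 := plancherelV hgm.1 hgm.2
    _ = ∫⁻ y : EV n, ‖f' (WithLp.ofLp y)‖ₑ ^ 2 := by
        congr 1
        ext y
        rw [hgval, enorm_mul, enorm_ch, one_mul]
    _ = ∫⁻ ξ : Fin n → ℝ, ‖f' ξ‖ₑ ^ 2 := by
        rw [← (PiLp.volume_preserving_ofLp (Fin n)).lintegral_comp_emb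
          (MeasurableEquiv.toLp 2 (Fin n → ℝ)).symm.measurableEmbedding]
    _ = ∫⁻ ξ in cube n, ‖f ξ‖ₑ ^ 2 := by
        rw [← lintegral_indicator measurableSet_cube]
        congr 1
        ext ξ
        by_cases h : ξ ∈ cube n
        · rw [hf', indicator_of_mem h, indicator_of_mem h]
        · rw [hf', indicator_of_notMem h, indicator_of_notMem h]; simp

lemma sm_extOp {f : (Fin n → ℝ) → ℂ} (hf : Measurable f) : StronglyMeasurable (extOp n f) := by
  have h1 : extOp n f = fun p : (Fin n → ℝ) × ℝ => ∫ ξ : Fin n → ℝ,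
      ch ((∑ j, ξ j * p.1 j) + (∑ j, ξ j ^ 2) * p.2) * indicator (cube n) f ξ := by
    funext p
    exact extOp_eq_integral f p
  rw [h1]
  apply StronglyMeasurable.integral_prod_right'
    (f := fun q : ((Fin n → ℝ) × ℝ) × (Fin n → ℝ) =>
      ch ((∑ j, q.2 j * q.1.1 j) + (∑ j, q.2 j ^ 2) * q.1.2) * indicator (cube n) f q.2)
  apply Measurable.stronglyMeasurable
  apply Measurable.mul
  · exact Continuous.measurable (by fun_prop)
  · exact (hf.indicator measurableSet_cube).comp measurable_snd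

lemma HForm.measurable_val (F : HForm.{v} n) : Measurable F.val := by
  have h : StronglyMeasurable F.val := by
    unfold HForm.val
    apply F.T.cont.comp_stronglyMeasurable
    apply stronglyMeasurable_pi'
    intro i
    exact (F.sm i).comp_measurable (measurable_pi_apply i)
  exact h.measurable

lemma HForm.norm_val_le (F : HForm.{v} n) {ξ : Fin n → ℝ} (hξ : ξ ∈ cube n) :
    ‖F.val ξ‖ ≤ ‖F.T‖ := by
  refine (F.T.le_opNorm _).trans ?_
  calc ‖F.T‖ * ∏ i, ‖F.u i (ξ i)‖ ≤ ‖F.T‖ * 1 := by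
        apply mul_le_mul_of_nonneg_left _ (norm_nonneg _)
        exact Finset.prod_le_one (fun _ _ => norm_nonneg _) fun j _ => F.bd j _ (mem_cube.1 hξ j)
    _ = ‖F.T‖ := mul_one _

/-- the one-dimensional `L⁴` quantities -/
noncomputable def HForm.L (F : HForm.{v} n) (j : Fin n) (t : ℝ) : ℝ≥0∞ := Lop (cutoff (F.u j)) t

lemma HForm.adm (F : HForm.{v} n) (j : Fin n) : Adm (cutoff (F.u j)) :=
  adm_cutoff (F.sm j) (F.bd j)

lemma HForm.enorm_ext_le (F : HForm.{v} n) (x : Fin n → ℝ) (t : ℝ) :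
    ‖extOp n F.val (x, t)‖ₑ ≤ ‖F.T‖ₑ * ∏ j, ‖Uop (cutoff (F.u j)) (x j) t‖ₑ := by
  have h0 : extOp n F.val (x, t) = F.T (fun i => Uop (cutoff (F.u i)) (x i) t) :=
    extOp_form F.T F.sm F.bd (x, t)
  rw [h0]
  have h := F.T.le_opNorm (fun i => Uop (cutoff (F.u i)) (x i) t)
  have h' := ENNReal.ofReal_le_ofReal h
  rw [ENNReal.ofReal_mul (norm_nonneg _), ENNReal.ofReal_prod_of_nonneg
    (fun i _ => norm_nonneg _)] at h'
  simpa only [ofReal_norm] using h'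

/-- fixed-time `L⁴` bound -/
lemma HForm.L4 (F : HForm.{v} n) (t : ℝ) :
    ∫⁻ x : Fin n → ℝ, ‖extOp n F.val (x, t)‖ₑ ^ 4 ≤ ‖F.T‖ₑ ^ 4 * ∏ j, F.L j t := by
  have hm : ∀ j, Measurable (fun x : ℝ => ‖Uop (cutoff (F.u j)) x t‖ₑ ^ 4) := by
    intro j
    have := measurable_enorm_Uop_x (F.adm j) t 1
    simp only [ENNReal.rpow_one] at this
    exact this.pow_const 4
  calc ∫⁻ x : Fin n → ℝ, ‖extOp n F.val (x, t)‖ₑ ^ 4
      ≤ ∫⁻ x : Fin n → ℝ, ‖F.T‖ₑ ^ 4 * ∏ j, ‖Uop (cutoff (F.u j)) (x j) t‖ₑ ^ 4 := by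
        apply lintegral_mono
        intro x
        simp only
        rw [Finset.prod_pow, ← mul_pow]
        exact pow_le_pow_left' (F.enorm_ext_le x t) 4
    _ = ‖F.T‖ₑ ^ 4 * ∏ j, F.L j t := by
        rw [lintegral_const_mul' _ _ (ENNReal.pow_ne_top (by simp)),
          lintegral_fin_prod (f := fun j x => ‖Uop (cutoff (F.u j)) x t‖ₑ ^ 4) hm]
        rfl

/-- Interpolation between the fixed time `L²` and `L⁴` bounds. -/
theorem HForm.interp (F : HForm.{v} n) (hn : 0 < n) {r : ℝ} (hr2 : 2 ≤ r) (hr4 : r ≤ 4)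
    (ha : 1 < n * (r - 2) / 2) :
    ∫⁻ p, ‖extOp n F.val p‖ₑ ^ r
      ≤ (∫⁻ ξ in cube n, ‖F.val ξ‖ₑ ^ 2) ^ ((4 - r) / 2) *
        (‖F.T‖ₑ ^ (2 * (r - 2)) * Ca (n * (r - 2) / 2)) := by
  have hn' : (0:ℝ) < n := by exact_mod_cast hn
  set a : ℝ := n * (r - 2) / 2 with hadef
  set D : ℝ≥0∞ := ∫⁻ ξ in cube n, ‖F.val ξ‖ₑ ^ 2 with hD
  have hDt : D ≠ ⊤ := by
    have h1 : D ≤ ∫⁻ ξ in cube n, ‖F.T‖ₑ ^ 2 := by
      apply setLIntegral_mono' measurableSet_cube
      intro ξ hξ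
      have : ‖F.val ξ‖ₑ ≤ ‖F.T‖ₑ := by
        rw [← ofReal_norm, ← ofReal_norm]
        exact ENNReal.ofReal_le_ofReal (F.norm_val_le hξ)
      gcongr
    rw [setLIntegral_const] at h1
    refine (h1.trans_lt ?_).ne
    apply ENNReal.mul_lt_top (by simp)
    exact isCompact_Icc.measure_lt_top
  have hsm := sm_extOp F.measurable_val
  have hfix : ∀ t, ∫⁻ x : Fin n → ℝ, ‖extOp n F.val (x, t)‖ₑ ^ r
      ≤ D ^ ((4 - r) / 2) * (‖F.T‖ₑ ^ 4 * ∏ j, F.L j t) ^ ((r - 2) / 2) := by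
    intro t
    have h1 : ∀ x : Fin n → ℝ, ‖extOp n F.val (x, t)‖ₑ ^ r
        = (‖extOp n F.val (x, t)‖ₑ ^ 2) ^ ((4 - r) / 2) *
          (‖extOp n F.val (x, t)‖ₑ ^ 4) ^ ((r - 2) / 2) := by
      intro x
      rw [← ENNReal.rpow_natCast, ← ENNReal.rpow_natCast, ← ENNReal.rpow_mul, ← ENNReal.rpow_mul,
        ← ENNReal.rpow_add_of_nonneg]
      · congr 1
        push_cast
        ring
      · push_cast; linarith
      · push_cast; linarith
    simp_rw [h1]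
    have hm : Measurable (fun x : Fin n → ℝ => ‖extOp n F.val (x, t)‖ₑ) := by
      have h : Measurable (fun x : Fin n → ℝ => ((x, t) : (Fin n → ℝ) × ℝ)) := by fun_prop
      exact hsm.enorm.comp h
    refine (ENNReal.lintegral_mul_norm_pow_le (hm.pow_const 2).aemeasurable
      (hm.pow_const 4).aemeasurable (by linarith) (by linarith) (by ring)).trans ?_
    rw [extOp_L2 F.measurable_val (C := ‖F.T‖) (fun ξ hξ => F.norm_val_le hξ)]
    refine mul_le_mul_right ?_ _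
    exact ENNReal.rpow_le_rpow (F.L4 t) (by linarith)
  have hT4 : (‖F.T‖ₑ ^ 4) ^ ((r - 2) / 2) = ‖F.T‖ₑ ^ (2 * (r - 2)) := by
    rw [← ENNReal.rpow_natCast, ← ENNReal.rpow_mul]
    congr 1
    push_cast
    ring
  have hTt : ‖F.T‖ₑ ^ (2 * (r - 2)) ≠ ⊤ := ENNReal.rpow_ne_top_of_nonneg (by linarith) (by simp)
  calc ∫⁻ p, ‖extOp n F.val p‖ₑ ^ r
      = ∫⁻ t, ∫⁻ x : Fin n → ℝ, ‖extOp n F.val (x, t)‖ₑ ^ r := by
        rw [Measure.volume_eq_prod, lintegral_prod_symm]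
        exact (hsm.enorm.pow_const r).aemeasurable
    _ ≤ ∫⁻ t, D ^ ((4 - r) / 2) * (‖F.T‖ₑ ^ 4 * ∏ j, F.L j t) ^ ((r - 2) / 2) :=
        lintegral_mono hfix
    _ = D ^ ((4 - r) / 2) * (‖F.T‖ₑ ^ (2 * (r - 2)) *
          ∫⁻ t, ∏ j : Fin n, (F.L j t ^ a) ^ ((1:ℝ) / n)) := by
        rw [lintegral_const_mul' _ _ (ENNReal.rpow_ne_top_of_nonneg (by linarith) hDt),
          ← lintegral_const_mul' _ _ hTt]
        congr 2
        ext t
        rw [ENNReal.mul_rpow_of_nonneg _ _ (by linarith), hT4,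
          ← ENNReal.prod_rpow_of_nonneg (by linarith)]
        congr 1
        apply Finset.prod_congr rfl
        intro j _
        rw [← ENNReal.rpow_mul]
        congr 1
        rw [hadef]; field_simp
    _ ≤ D ^ ((4 - r) / 2) * (‖F.T‖ₑ ^ (2 * (r - 2)) *
          ∏ j : Fin n, (∫⁻ t, F.L j t ^ a) ^ ((1:ℝ) / n)) := by
        refine mul_le_mul_right (mul_le_mul_right ?_ _) _
        apply ENNReal.lintegral_prod_norm_pow_le
        · intro j _
          exact ((measurable_Lop (F.adm j)).pow_const a).aemeasurable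
        · rw [Finset.sum_const, Finset.card_univ, Fintype.card_fin, nsmul_eq_mul]
          field_simp
        · intro j _; positivity
    _ ≤ D ^ ((4 - r) / 2) * (‖F.T‖ₑ ^ (2 * (r - 2)) * ∏ _j : Fin n, (Ca a) ^ ((1:ℝ) / n)) := by
        refine mul_le_mul_right (mul_le_mul_right ?_ _) _
        exact Finset.prod_le_prod' fun j _ =>
          ENNReal.rpow_le_rpow (Lop_time ha (F.adm j)) (by positivity)
    _ = D ^ ((4 - r) / 2) * (‖F.T‖ₑ ^ (2 * (r - 2)) * Ca a) := by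
        congr 2
        rw [Finset.prod_const, Finset.card_univ, Fintype.card_fin, ← ENNReal.rpow_natCast,
          ← ENNReal.rpow_mul]
        rw [one_div, inv_mul_cancel₀ hn'.ne', ENNReal.rpow_one]

end Pool.Agent.H.MP_b7167f_an
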