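import Mathlib
import Pool.Agent.H.MP_b7167f_an.FormInterp

open MeasureTheory Set
open scoped ENNReal NNReal

namespace Pool.Agent.H.MP_b7167f_an

lemma volume_cube (n : ℕ) : volume (cube n) = 2 ^ n := by
  unfold cube
  rw [Real.volume_Icc_pi]
  simp
  norm_num

/-- Integrating first in one variable over the cube. -/
lemma lintegral_cube_slice {n : ℕ} (j : Fin n) {g : (Fin n → ℝ) → ℝ≥0∞} (hg : Measurable g)
    {K : ℝ≥0∞}
    (h : ∀ ξ ∈ cube n, ∫⁻ s in Icc (-1:ℝ) 1, g (Function.update ξ j s) ≤ K) :
    ∫⁻ ξ in cube n, g ξ ≤ 2 ^ n * K := by
  cases n with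
  | zero => exact Fin.elim0 j
  | succ m =>
    have hmp := (volume_preserving_piFinSuccAbove (fun _ : Fin (m + 1) => ℝ) j).symm
    rw [← lintegral_indicator measurableSet_cube,
      ← hmp.lintegral_comp_emb (MeasurableEquiv.measurableEmbedding _)]
    simp_rw [MeasurableEquiv.piFinSuccAbove_symm_apply, Fin.insertNthEquiv, Equiv.coe_fn_mk]
    rw [Measure.volume_eq_prod]
    have hgm : Measurable (fun z : ℝ × (Fin m → ℝ) =>
        (cube (m + 1)).indicator g (j.insertNth z.1 z.2)) := by
      have h1 := (hg.indicator (measurableSet_cube (n := m + 1))).comp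
        (MeasurableEquiv.piFinSuccAbove (fun _ : Fin (m + 1) => ℝ) j).symm.measurable
      exact h1
    have hsw := lintegral_prod_symm (μ := (volume : Measure ℝ)) (ν := (volume : Measure (Fin m → ℝ)))
      (fun z : ℝ × (Fin m → ℝ) => (cube (m + 1)).indicator g (j.insertNth z.1 z.2)) hgm.aemeasurable
    rw [hsw]
    have hin : ∀ y : Fin m → ℝ, ∫⁻ s, (cube (m + 1)).indicator g (j.insertNth s y)
        ≤ (cube m).indicator (fun _ => K) y := by
      intro y
      by_cases hy : y ∈ cube m
      · rw [indicator_of_mem hy]
        have h0 : (j.insertNth (0:ℝ) y : Fin (m + 1) → ℝ) ∈ cube (m + 1) := by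
          rw [mem_cube]
          intro l
          refine Fin.succAboveCases j ?_ (fun k => ?_) l
          · rw [Fin.insertNth_apply_same]; norm_num
          · rw [Fin.insertNth_apply_succAbove]; exact mem_cube.1 hy k
        refine le_trans (le_of_eq ?_) (h _ h0)
        rw [← lintegral_indicator measurableSet_Icc]
        congr 1
        ext s
        have hup : Function.update (j.insertNth (0:ℝ) y : Fin (m + 1) → ℝ) j s
            = (j.insertNth s y : Fin (m + 1) → ℝ) :=
          Fin.update_insertNth (α := fun _ => ℝ) j (0:ℝ) s y
        by_cases hs : s ∈ Icc (-1:ℝ) 1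
        · rw [indicator_of_mem hs, hup, indicator_of_mem]
          rw [mem_cube]
          intro l
          refine Fin.succAboveCases j ?_ (fun k => ?_) l
          · rw [Fin.insertNth_apply_same]; exact hs
          · rw [Fin.insertNth_apply_succAbove]; exact mem_cube.1 hy k
        · rw [indicator_of_notMem hs, indicator_of_notMem]
          intro hcon
          have := mem_cube.1 hcon j
          rw [Fin.insertNth_apply_same] at this
          exact hs this
      · rw [indicator_of_notMem hy]
        refine le_of_eq ?_
        rw [← lintegral_zero (μ := (volume : Measure ℝ))]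
        congr 1
        ext s
        rw [indicator_of_notMem]
        intro hcon
        apply hy
        rw [mem_cube]
        intro k
        have := mem_cube.1 hcon (j.succAbove k)
        rwa [Fin.insertNth_apply_succAbove] at this
    calc ∫⁻ y : Fin m → ℝ, ∫⁻ s, (cube (m + 1)).indicator g (j.insertNth s y)
        ≤ ∫⁻ y : Fin m → ℝ, (cube m).indicator (fun _ => K) y := lintegral_mono hin
      _ = 2 ^ m * K := by
          rw [lintegral_indicator measurableSet_cube, lintegral_const,
            Measure.restrict_apply_univ, volume_cube, mul_comm]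
      _ ≤ 2 ^ (m + 1) * K := by
          gcongr
          · norm_num
          · omega

end Pool.Agent.H.MP_b7167f_an
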