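import Mathlib
import Pool.Agent.H.MP_b7167f_an.CubeSlice
import Pool.Agent.H.MP_b7167f_an.CellsL2

open MeasureTheory Set
open scoped ENNReal NNReal

namespace Pool.Agent.H.MP_b7167f_an

universe v

/-- distribution of `b` on `[-1,1]` -/
noncomputable def nu (b : ℝ → ℝ) : Measure ℝ := (volume.restrict (Icc (-1:ℝ) 1)).map b

instance (b : ℝ → ℝ) : IsFiniteMeasure (nu b) := by
  unfold nu; infer_instance

lemma nu_univ {b : ℝ → ℝ} (hb : Measurable b) : (nu b).real univ = 2 := by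
  unfold nu Measure.real
  rw [Measure.map_apply hb MeasurableSet.univ]
  simp
  norm_num

lemma lintegral_nu {b : ℝ → ℝ} (hb : Measurable b) {g : ℝ → ℝ≥0∞} (hg : Measurable g) :
    ∫⁻ y, g y ∂(nu b) = ∫⁻ s in Icc (-1:ℝ) 1, g (b s) := lintegral_map hg hb

/-- data of the pair factors -/
structure PF (n N : ℕ) where
  i : Fin N → Fin n
  j : Fin N → Fin n
  hij : ∀ e, i e ≠ j e
  b : Fin N → ℝ → ℝ
  hb : ∀ e, Measurable (b e)
  φ : Fin N → ℝ → ℝ → ℂ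
  hφ : ∀ e, Measurable (Function.uncurry (φ e))
  p : Fin N → ℝ
  hp : ∀ e, 2 ≤ p e
  bd : ∀ e x y, ‖φ e x y‖ ≤ 1
  pv : ∀ e x, PVar (p e) (φ e x)

lemma measurable_cval {ν : Measure ℝ} {φ : ℝ → ℝ → ℂ} (hφ : Measurable (Function.uncurry φ))
    (l k : ℕ) : Measurable (fun x => cval ν (φ x) l k) := by
  unfold cval
  split_ifs
  · exact measurable_const
  · have h : Measurable (fun x : ℝ => ((x, tau ν l k) : ℝ × ℝ)) := by fun_prop
    exact hφ.comp h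

lemma measurable_dco {ν : Measure ℝ} {φ : ℝ → ℝ → ℂ} (hφ : Measurable (Function.uncurry φ))
    (l k : ℕ) : Measurable (fun x => dco ν (φ x) l k) := by
  unfold dco
  exact (measurable_cval hφ _ _).sub (measurable_cval hφ _ _)

lemma measurable_DA {ν : Measure ℝ} {φ : ℝ → ℝ → ℂ} (hφ : Measurable (Function.uncurry φ))
    (l : ℕ) : Measurable (fun z : ℝ × ℝ => DA ν (φ z.1) l z.2) := by
  unfold DA
  apply Finset.measurable_fun_sum
  intro k _
  apply Measurable.mul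
  · exact (measurable_dco hφ l k).comp measurable_fst
  · exact (measurable_const.indicator (measurableSet_cell ν _ _)).comp measurable_snd

lemma measurable_FA {ν : Measure ℝ} {φ : ℝ → ℝ → ℂ} (hφ : Measurable (Function.uncurry φ))
    (l : ℕ) : Measurable (fun z : ℝ × ℝ => FA ν (φ z.1) l z.2) := by
  unfold FA
  apply Finset.measurable_fun_sum
  intro k _
  apply Measurable.mul
  · exact (measurable_cval hφ l k).comp measurable_fst
  · exact (measurable_const.indicator (measurableSet_cell ν _ _)).comp measurable_snd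

section
attribute [local irreducible] DA FA

lemma measurable_DA_comp {ν : Measure ℝ} {φ : ℝ → ℝ → ℂ}
    (hφ : Measurable (Function.uncurry φ)) (l : ℕ) {α : Type*} [MeasurableSpace α] {g h : α → ℝ}
    (hg : Measurable g) (hh : Measurable h) :
    Measurable (fun a => DA ν (φ (g a)) l (h a)) :=
  (measurable_DA (ν := ν) hφ l).comp (hg.prodMk hh)

lemma measurable_FA_comp {ν : Measure ℝ} {φ : ℝ → ℝ → ℂ}
    (hφ : Measurable (Function.uncurry φ)) (l : ℕ) {α : Type*} [MeasurableSpace α] {g h : α → ℝ}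
    (hg : Measurable g) (hh : Measurable h) :
    Measurable (fun a => FA ν (φ (g a)) l (h a)) :=
  (measurable_FA (ν := ν) hφ l).comp (hg.prodMk hh)

end

namespace PF

variable {n N : ℕ} (P : PF n N)

/-- the factor -/
noncomputable def fac (e : Fin N) (ξ : Fin n → ℝ) : ℂ := P.φ e (ξ (P.i e)) (P.b e (ξ (P.j e)))

/-- its level-`l` difference -/
noncomputable def D (e : Fin N) (l : ℕ) (ξ : Fin n → ℝ) : ℂ :=
  DA (nu (P.b e)) (P.φ e (ξ (P.i e))) l (P.b e (ξ (P.j e)))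

/-- its level-`L` approximation -/
noncomputable def A (e : Fin N) (L : ℕ) (ξ : Fin n → ℝ) : ℂ :=
  FA (nu (P.b e)) (P.φ e (ξ (P.i e))) L (P.b e (ξ (P.j e)))

lemma measurable_fac (e : Fin N) : Measurable (P.fac e) := by
  have h : Measurable (fun ξ : Fin n → ℝ => ((ξ (P.i e), P.b e (ξ (P.j e))) : ℝ × ℝ)) :=
    (measurable_pi_apply _).prodMk ((P.hb e).comp (measurable_pi_apply _))
  exact (P.hφ e).comp h

lemma measurable_D (e : Fin N) (l : ℕ) : Measurable (P.D e l) :=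
  measurable_DA_comp (P.hφ e) l (measurable_pi_apply _) ((P.hb e).comp (measurable_pi_apply _))

lemma measurable_A (e : Fin N) (l : ℕ) : Measurable (P.A e l) :=
  measurable_FA_comp (P.hφ e) l (measurable_pi_apply _) ((P.hb e).comp (measurable_pi_apply _))

lemma A_eq_sum (e : Fin N) (L : ℕ) (ξ : Fin n → ℝ) :
    P.A e L ξ = ∑ l ∈ Finset.range L, P.D e l ξ := FA_eq_sum (nu_univ (P.hb e)) _ _ _

lemma norm_D_le (e : Fin N) (l : ℕ) (ξ : Fin n → ℝ) : ‖P.D e l ξ‖ ≤ 2 :=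
  norm_DA_le (nu_univ (P.hb e)) (P.bd e _) l _

lemma norm_A_le (e : Fin N) (l : ℕ) (ξ : Fin n → ℝ) : ‖P.A e l ξ‖ ≤ 1 :=
  norm_FA_le (nu_univ (P.hb e)) (P.bd e _) l _

/-- the size of the level `l` form -/
noncomputable def R (e : Fin N) (l : ℕ) : ℝ := Real.sqrt (2 * (2:ℝ) ^ ((l:ℝ) * (1 - 2 / P.p e)))

lemma R_pos (e : Fin N) (l : ℕ) : 0 < P.R e l := by
  unfold R; positivity

/-- The product of a form with differences is a form. -/
theorem exists_form (F : HForm.{v} n) (l : Fin N → ℕ) (s : Finset (Fin N)) :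
    ∃ G : HForm.{v} n, (∀ ξ, G.val ξ = F.val ξ * ∏ e ∈ s, P.D e (l e) ξ) ∧
      ‖G.T‖ ≤ ‖F.T‖ * ∏ e ∈ s, P.R e (l e) := by
  induction s using Finset.induction_on with
  | empty => exact ⟨F, fun ξ => by simp, by simp⟩
  | insert e s he ih =>
    obtain ⟨G, hG1, hG2⟩ := ih
    have h2 := nu_univ (P.hb e)
    refine ⟨G.step (M := 2 ^ l e) (P.i e) (P.j e) (P.R e (l e)) (P.R_pos e (l e))
      (fun k s => dco (nu (P.b e)) (P.φ e s) (l e) k) (fun k => measurable_dco (P.hφ e) _ _)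
      (fun k => P.b e ⁻¹' (cell (nu (P.b e)) (l e + 1) (2 * k + 1)))
      (fun k => P.hb e (measurableSet_cell _ _ _)) ?_ ?_, ?_, ?_⟩
    · intro k k' hkk
      apply Disjoint.preimage
      have hpow : 2 ^ (l e + 1) = 2 * 2 ^ (l e) := by ring
      have hk := k.2
      have hk' := k'.2
      have hne : (k:ℕ) ≠ k' := fun h => hkk (Fin.ext h)
      exact cell_disjoint' h2 (by omega) (by omega) (by omega)
    · intro s
      have h := sum_dco_sq_le h2 (P.hp e) (P.bd e s) (P.pv e s) (l e)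
      rw [Finset.sum_range] at h
      unfold R
      rw [Real.sq_sqrt (by positivity)]
      exact h
    · intro ξ
      rw [HForm.val_step G (P.hij e), hG1, Finset.prod_insert he]
      have hD : ∑ k : Fin (2 ^ l e), dco (nu (P.b e)) (P.φ e (ξ (P.i e))) (l e) k *
          indicator (P.b e ⁻¹' (cell (nu (P.b e)) (l e + 1) (2 * k + 1))) (fun _ => (1:ℂ)) (ξ (P.j e))
          = P.D e (l e) ξ := by
        unfold D DA
        rw [Finset.sum_range]
        rfl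
      rw [hD]
      ring
    · refine (HForm.norm_step_T_le G (P.hij e)).trans ?_
      rw [Finset.prod_insert he]
      calc P.R e (l e) * ‖G.T‖ ≤ P.R e (l e) * (‖F.T‖ * ∏ e ∈ s, P.R e (l e)) :=
            mul_le_mul_of_nonneg_left hG2 (P.R_pos e _).le
        _ = _ := by ring

/-- `L²` bound for the pieces -/
lemma L2_le (F : HForm.{v} n) (l : Fin N → ℕ) (e : Fin N) :
    ∫⁻ ξ in cube n, ‖F.val ξ * ∏ e, P.D e (l e) ξ‖ₑ ^ 2
      ≤ 2 ^ n * (‖F.T‖ₑ ^ 2 * 4 ^ N *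
        ENNReal.ofReal (4 * (2:ℝ) ^ (-((l e:ℝ) * (2 / P.p e))))) := by
  have hpt : ∀ ξ ∈ cube n, ‖F.val ξ * ∏ e, P.D e (l e) ξ‖ₑ ^ 2
      ≤ ‖F.T‖ₑ ^ 2 * 4 ^ N * ‖P.D e (l e) ξ‖ₑ ^ 2 := by
    intro ξ hξ
    have h1 : ‖F.val ξ‖ₑ ≤ ‖F.T‖ₑ := by
      rw [← ofReal_norm, ← ofReal_norm]
      exact ENNReal.ofReal_le_ofReal (F.norm_val_le hξ)
    have h2 : ∀ e', ‖P.D e' (l e') ξ‖ₑ ^ 2 ≤ 4 := by
      intro e'
      have : ‖P.D e' (l e') ξ‖ₑ ≤ 2 := by
        rw [← ofReal_norm]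
        calc _ ≤ ENNReal.ofReal 2 := ENNReal.ofReal_le_ofReal (P.norm_D_le e' _ ξ)
          _ = 2 := by simp
      calc _ ≤ (2:ℝ≥0∞) ^ 2 := by gcongr
        _ = 4 := by norm_num
    have h3 : ‖∏ e, P.D e (l e) ξ‖ₑ ^ 2 = ∏ e, ‖P.D e (l e) ξ‖ₑ ^ 2 := by
      rw [← ofReal_norm, norm_prod, ENNReal.ofReal_prod_of_nonneg (fun _ _ => norm_nonneg _),
        ← Finset.prod_pow]
      simp_rw [ofReal_norm]
    rw [enorm_mul, mul_pow, h3, ← Finset.mul_prod_erase _ _ (Finset.mem_univ e), mul_assoc]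
    have h4 : ∏ e' ∈ Finset.univ.erase e, ‖P.D e' (l e') ξ‖ₑ ^ 2 ≤ 4 ^ N := by
      calc ∏ e' ∈ Finset.univ.erase e, ‖P.D e' (l e') ξ‖ₑ ^ 2
          ≤ ∏ _e' ∈ Finset.univ.erase e, (4:ℝ≥0∞) := Finset.prod_le_prod' fun e' _ => h2 e'
        _ = 4 ^ (Finset.univ.erase e).card := by rw [Finset.prod_const]
        _ ≤ 4 ^ N := by
            apply pow_le_pow_right₀ (by norm_num)
            refine (Finset.card_erase_le).trans ?_
            simp
    calc ‖F.val ξ‖ₑ ^ 2 * (‖P.D e (l e) ξ‖ₑ ^ 2 * ∏ e' ∈ Finset.univ.erase e, ‖P.D e' (l e') ξ‖ₑ ^ 2)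
        ≤ ‖F.T‖ₑ ^ 2 * (‖P.D e (l e) ξ‖ₑ ^ 2 * 4 ^ N) := by gcongr
      _ = ‖F.T‖ₑ ^ 2 * (4 ^ N * ‖P.D e (l e) ξ‖ₑ ^ 2) := by rw [mul_comm (4 ^ N)]
  have hDm : Measurable (fun ξ => ‖P.D e (l e) ξ‖ₑ ^ 2) := (P.measurable_D e (l e)).enorm.pow_const 2
  have hslice : ∫⁻ ξ in cube n, ‖P.D e (l e) ξ‖ₑ ^ 2
      ≤ 2 ^ n * ENNReal.ofReal (4 * (2:ℝ) ^ (-((l e:ℝ) * (2 / P.p e)))) := by
    apply lintegral_cube_slice (P.j e) hDm
    intro ξ _
    have h := lintegral_DA_sq (nu_univ (P.hb e)) (P.hp e) (P.bd e (ξ (P.i e)))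
      (P.pv e (ξ (P.i e))) (l e)
    have hm : Measurable (fun y => ‖DA (nu (P.b e)) (P.φ e (ξ (P.i e))) (l e) y‖ₑ ^ 2) := by
      exact ((measurable_DA_comp (P.hφ e) (l e) (g := fun _ : ℝ => ξ (P.i e)) (h := fun y => y)
        measurable_const measurable_id).enorm).pow_const 2
    rw [lintegral_nu (P.hb e) hm] at h
    refine le_trans (le_of_eq ?_) h
    congr 1
    ext s
    unfold D
    rw [Function.update_of_ne (P.hij e), Function.update_self]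
  have hC : ‖F.T‖ₑ ^ 2 * 4 ^ N ≠ ⊤ :=
    ENNReal.mul_ne_top (ENNReal.pow_ne_top (by simp)) (ENNReal.pow_ne_top (by norm_num))
  calc ∫⁻ ξ in cube n, ‖F.val ξ * ∏ e, P.D e (l e) ξ‖ₑ ^ 2
      ≤ ∫⁻ ξ in cube n, ‖F.T‖ₑ ^ 2 * 4 ^ N * ‖P.D e (l e) ξ‖ₑ ^ 2 :=
        setLIntegral_mono' measurableSet_cube hpt
    _ = ‖F.T‖ₑ ^ 2 * 4 ^ N * ∫⁻ ξ in cube n, ‖P.D e (l e) ξ‖ₑ ^ 2 :=
        lintegral_const_mul' _ _ hC
    _ ≤ ‖F.T‖ₑ ^ 2 * 4 ^ N *
        (2 ^ n * ENNReal.ofReal (4 * (2:ℝ) ^ (-((l e:ℝ) * (2 / P.p e))))) :=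
        mul_le_mul_right hslice _
    _ = _ := by ring

end PF

end Pool.Agent.H.MP_b7167f_an
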