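import Mathlib
import Pool.Agent.H.MP_b7167f_an.PairData

open MeasureTheory Set Filter
open scoped ENNReal NNReal Topology

namespace Pool.Agent.H.MP_b7167f_an

universe v

lemma ennreal_rpow_sum {ι : Type*} (s : Finset ι) (x : ℝ≥0∞) {w : ι → ℝ} (hw : ∀ e, 0 ≤ w e) :
    x ^ (∑ e ∈ s, w e) = ∏ e ∈ s, x ^ (w e) := by
  classical
  induction s using Finset.induction_on with
  | empty => simp
  | insert e s he ih =>
    rw [Finset.sum_insert he, Finset.prod_insert he,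
      ENNReal.rpow_add_of_nonneg _ _ (hw e) (Finset.sum_nonneg fun e _ => hw e), ih]

lemma ofReal_two_rpow (x : ℝ) : ENNReal.ofReal ((2:ℝ) ^ x) = (2:ℝ≥0∞) ^ x := by
  rw [← ENNReal.ofReal_rpow_of_pos (by norm_num)]
  simp

lemma weighted_bound {N : ℕ} {w : Fin N → ℝ} (hw : ∀ e, 0 ≤ w e) (hw1 : ∑ e, w e = 1)
    {s : ℝ} (hs : 0 ≤ s) {D X : ℝ≥0∞} {y : Fin N → ℝ≥0∞} (h : ∀ e, D ≤ X * y e) :
    D ^ s ≤ X ^ s * ∏ e, (y e) ^ (s * w e) := by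
  have h1 : ∀ x : ℝ≥0∞, x ^ s = ∏ e, x ^ (s * w e) := by
    intro x
    rw [← ennreal_rpow_sum _ _ (fun e => mul_nonneg hs (hw e)), ← Finset.mul_sum, hw1, mul_one]
  rw [h1 D, h1 X, ← Finset.prod_mul_distrib]
  apply Finset.prod_le_prod'
  intro e _
  rw [← ENNReal.mul_rpow_of_nonneg _ _ (mul_nonneg hs (hw e))]
  exact ENNReal.rpow_le_rpow (h e) (mul_nonneg hs (hw e))

namespace PF

variable {n N : ℕ} (P : PF n N)

/-- decay exponent of the pieces -/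
noncomputable def dl (r : ℝ) (w : Fin N → ℝ) (e : Fin N) : ℝ :=
  (4 - r) * w e / P.p e - (1 - 2 / P.p e) * (r - 2)

/-- the constant -/
noncomputable def KK (n N : ℕ) (r : ℝ) : ℝ≥0∞ :=
  (2 ^ n * 4 ^ N * 4) ^ ((4 - r) / 2) * ((2 ^ (r - 2)) ^ N * Ca (n * (r - 2) / 2))

lemma KK_ne_top {n N : ℕ} {r : ℝ} (hr2 : 2 ≤ r) (hr4 : r ≤ 4) (ha : 1 < n * (r - 2) / 2) :
    KK n N r ≠ ⊤ := by
  unfold KK
  apply ENNReal.mul_ne_top
  · apply ENNReal.rpow_ne_top_of_nonneg (by linarith)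
    apply ENNReal.mul_ne_top _ (by norm_num)
    exact ENNReal.mul_ne_top (ENNReal.pow_ne_top (by norm_num)) (ENNReal.pow_ne_top (by norm_num))
  · apply ENNReal.mul_ne_top _ (Ca_ne_top ha)
    exact ENNReal.pow_ne_top (ENNReal.rpow_ne_top_of_nonneg (by linarith) (by norm_num))

lemma ofReal_R_rpow (e : Fin N) (l : ℕ) {r : ℝ} (hr2 : 2 ≤ r) :
    (ENNReal.ofReal (P.R e l)) ^ (2 * (r - 2))
      = 2 ^ (r - 2) * (2:ℝ≥0∞) ^ ((l:ℝ) * ((1 - 2 / P.p e) * (r - 2))) := by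
  have h1 : ENNReal.ofReal (P.R e l)
      = (2 * (2:ℝ≥0∞) ^ ((l:ℝ) * (1 - 2 / P.p e))) ^ (1 / 2 : ℝ) := by
    unfold R
    rw [Real.sqrt_eq_rpow, ← ENNReal.ofReal_rpow_of_nonneg (by positivity) (by norm_num),
      ENNReal.ofReal_mul (by norm_num), ofReal_two_rpow]
    simp
  rw [h1, ← ENNReal.rpow_mul, ENNReal.mul_rpow_of_nonneg _ _ (by linarith), ← ENNReal.rpow_mul]
  congr 2
  · ring
  · ring

/-- Bound for the extension of a piece. -/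
theorem piece_bound (F : HForm.{v} n) (hn : 0 < n) {r : ℝ} (hr2 : 2 ≤ r) (hr4 : r ≤ 4)
    (ha : 1 < n * (r - 2) / 2) {w : Fin N → ℝ} (hw : ∀ e, 0 ≤ w e) (hw1 : ∑ e, w e = 1)
    (l : Fin N → ℕ) :
    ∫⁻ z, ‖extOp n (fun ξ => F.val ξ * ∏ e, P.D e (l e) ξ) z‖ₑ ^ r
      ≤ KK n N r * (‖F.T‖ₑ ^ r * ∏ e, (2:ℝ≥0∞) ^ (-((l e:ℝ) * P.dl r w e))) := by
  obtain ⟨G, hG1, hG2⟩ := P.exists_form F l Finset.univ
  have hGv : (fun ξ => F.val ξ * ∏ e, P.D e (l e) ξ) = G.val := by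
    funext ξ; exact (hG1 ξ).symm
  rw [hGv]
  refine (G.interp hn hr2 hr4 ha).trans ?_
  set D : ℝ≥0∞ := ∫⁻ ξ in cube n, ‖G.val ξ‖ₑ ^ 2 with hD
  set X : ℝ≥0∞ := 2 ^ n * 4 ^ N * 4 * ‖F.T‖ₑ ^ 2 with hX
  set y : Fin N → ℝ≥0∞ := fun e => (2:ℝ≥0∞) ^ (-((l e:ℝ) * (2 / P.p e))) with hy
  have hDe : ∀ e, D ≤ X * y e := by
    intro e
    have h := P.L2_le F l e
    have h' : D = ∫⁻ ξ in cube n, ‖F.val ξ * ∏ e, P.D e (l e) ξ‖ₑ ^ 2 := by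
      rw [hD]
      congr 1
      ext ξ
      rw [hG1]
    rw [h']
    refine h.trans (le_of_eq ?_)
    rw [hX, hy, ENNReal.ofReal_mul (by norm_num), ofReal_two_rpow]
    have : ENNReal.ofReal 4 = 4 := by simp
    rw [this]
    ring
  have h1 := weighted_bound hw hw1 (s := (4 - r) / 2) (by linarith) hDe
  have hGT : ‖G.T‖ₑ ≤ ‖F.T‖ₑ * ∏ e, ENNReal.ofReal (P.R e (l e)) := by
    rw [← ofReal_norm, ← ofReal_norm, ← ENNReal.ofReal_prod_of_nonneg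
      (fun e _ => (P.R_pos e _).le), ← ENNReal.ofReal_mul (norm_nonneg _)]
    exact ENNReal.ofReal_le_ofReal hG2
  have h2 : ‖G.T‖ₑ ^ (2 * (r - 2)) ≤ ‖F.T‖ₑ ^ (2 * (r - 2)) *
      ((2 ^ (r - 2)) ^ N * ∏ e, (2:ℝ≥0∞) ^ ((l e:ℝ) * ((1 - 2 / P.p e) * (r - 2)))) := by
    calc ‖G.T‖ₑ ^ (2 * (r - 2))
        ≤ (‖F.T‖ₑ * ∏ e, ENNReal.ofReal (P.R e (l e))) ^ (2 * (r - 2)) :=
          ENNReal.rpow_le_rpow hGT (by linarith)
      _ = ‖F.T‖ₑ ^ (2 * (r - 2)) * ∏ e, (ENNReal.ofReal (P.R e (l e))) ^ (2 * (r - 2)) := by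
          rw [ENNReal.mul_rpow_of_nonneg _ _ (by linarith),
            ← ENNReal.prod_rpow_of_nonneg (by linarith)]
      _ = _ := by
          congr 1
          simp_rw [P.ofReal_R_rpow _ _ hr2]
          rw [Finset.prod_mul_distrib, Finset.prod_const, Finset.card_univ, Fintype.card_fin]
  have hexp : ∀ e, (y e) ^ ((4 - r) / 2 * w e) * (2:ℝ≥0∞) ^ ((l e:ℝ) * ((1 - 2 / P.p e) * (r - 2)))
      = (2:ℝ≥0∞) ^ (-((l e:ℝ) * P.dl r w e)) := by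
    intro e
    rw [hy]
    simp only
    rw [← ENNReal.rpow_mul, ← ENNReal.rpow_add _ _ (by norm_num) (by norm_num)]
    congr 1
    unfold dl
    ring
  calc D ^ ((4 - r) / 2) * (‖G.T‖ₑ ^ (2 * (r - 2)) * Ca (n * (r - 2) / 2))
      ≤ (X ^ ((4 - r) / 2) * ∏ e, (y e) ^ ((4 - r) / 2 * w e)) *
        ((‖F.T‖ₑ ^ (2 * (r - 2)) *
          ((2 ^ (r - 2)) ^ N * ∏ e, (2:ℝ≥0∞) ^ ((l e:ℝ) * ((1 - 2 / P.p e) * (r - 2))))) *
          Ca (n * (r - 2) / 2)) := by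
        gcongr
    _ = (2 ^ n * 4 ^ N * 4) ^ ((4 - r) / 2) * ((2 ^ (r - 2)) ^ N * Ca (n * (r - 2) / 2)) *
        (((‖F.T‖ₑ ^ 2) ^ ((4 - r) / 2) * ‖F.T‖ₑ ^ (2 * (r - 2))) *
        ((∏ e, (y e) ^ ((4 - r) / 2 * w e)) *
          ∏ e, (2:ℝ≥0∞) ^ ((l e:ℝ) * ((1 - 2 / P.p e) * (r - 2))))) := by
        rw [hX, ENNReal.mul_rpow_of_nonneg _ _ (by linarith : 0 ≤ (4 - r) / 2)]
        ring
    _ = KK n N r * (‖F.T‖ₑ ^ r * ∏ e, (2:ℝ≥0∞) ^ (-((l e:ℝ) * P.dl r w e))) := by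
        rw [← Finset.prod_mul_distrib]
        simp_rw [hexp]
        congr 3
        rw [← ENNReal.rpow_natCast, ← ENNReal.rpow_mul, ← ENNReal.rpow_add_of_nonneg]
        · congr 1
          push_cast
          ring
        · push_cast; linarith
        · linarith

/-- the ratio of the geometric series -/
noncomputable def tht (r : ℝ) (w : Fin N → ℝ) (e : Fin N) : ℝ≥0∞ := (2:ℝ≥0∞) ^ (-(P.dl r w e / r))

lemma piece_norm (F : HForm.{v} n) (hn : 0 < n) {r : ℝ} (hr2 : 2 ≤ r) (hr4 : r ≤ 4)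
    (ha : 1 < n * (r - 2) / 2) {w : Fin N → ℝ} (hw : ∀ e, 0 ≤ w e) (hw1 : ∑ e, w e = 1)
    (l : Fin N → ℕ) :
    eLpNorm (extOp n (fun ξ => F.val ξ * ∏ e, P.D e (l e) ξ)) (ENNReal.ofReal r) volume
      ≤ KK n N r ^ (1 / r) * (‖F.T‖ₑ * ∏ e, (P.tht r w e) ^ (l e)) := by
  have hr0 : 0 < r := by linarith
  rw [eLpNorm_eq_lintegral_rpow_enorm_toReal (by simpa using hr0) (by simp),
    ENNReal.toReal_ofReal hr0.le]
  refine (ENNReal.rpow_le_rpow (P.piece_bound F hn hr2 hr4 ha hw hw1 l) (by positivity)).trans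
    (le_of_eq ?_)
  rw [ENNReal.mul_rpow_of_nonneg _ _ (by positivity), ENNReal.mul_rpow_of_nonneg _ _ (by positivity)]
  congr 1
  congr 1
  · rw [← ENNReal.rpow_mul, mul_one_div_cancel hr0.ne', ENNReal.rpow_one]
  · rw [← ENNReal.prod_rpow_of_nonneg (by positivity)]
    apply Finset.prod_congr rfl
    intro e _
    unfold tht
    rw [← ENNReal.rpow_natCast, ← ENNReal.rpow_mul, ← ENNReal.rpow_mul]
    congr 1
    field_simp

end PF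

end Pool.Agent.H.MP_b7167f_an
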