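import Mathlib
import Pool.Agent.H.MP_b7167f_an.PairSum

open MeasureTheory Set Filter
open scoped ENNReal NNReal Topology

namespace Pool.Agent.H.MP_b7167f_an

universe v

variable {n N : ℕ}

lemma integrable_ext {f : (Fin n → ℝ) → ℂ} (hf : Measurable f) {C : ℝ}
    (hb : ∀ ξ ∈ cube n, ‖f ξ‖ ≤ C) (p : (Fin n → ℝ) × ℝ) :
    Integrable (fun ξ : Fin n → ℝ => ch ((∑ j, ξ j * p.1 j) + (∑ j, ξ j ^ 2) * p.2) *
      indicator (cube n) f ξ) := by
  have h1 : (fun ξ : Fin n → ℝ => ch ((∑ j, ξ j * p.1 j) + (∑ j, ξ j ^ 2) * p.2) *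
      indicator (cube n) f ξ) = indicator (cube n) (fun ξ : Fin n → ℝ =>
        ch ((∑ j, ξ j * p.1 j) + (∑ j, ξ j ^ 2) * p.2) * f ξ) := by
    ext ξ
    by_cases h : ξ ∈ cube n
    · rw [indicator_of_mem h, indicator_of_mem h]
    · rw [indicator_of_notMem h, indicator_of_notMem h, mul_zero]
  rw [h1, integrable_indicator_iff measurableSet_cube]
  apply Measure.integrableOn_of_bounded (M := C)
  · rw [volume_cube]; exact ENNReal.pow_ne_top (by norm_num)
  · apply Measurable.aestronglyMeasurable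
    apply Measurable.mul _ hf
    exact Continuous.measurable (by fun_prop)
  · filter_upwards [ae_restrict_mem measurableSet_cube] with ξ hξ
    rw [norm_mul, norm_ch, one_mul]
    exact hb ξ hξ

lemma extOp_sum {ι : Type*} (s : Finset ι) {f : ι → (Fin n → ℝ) → ℂ}
    (hf : ∀ i ∈ s, Measurable (f i)) {C : ι → ℝ}
    (hb : ∀ i ∈ s, ∀ ξ ∈ cube n, ‖f i ξ‖ ≤ C i) (p : (Fin n → ℝ) × ℝ) :
    extOp n (fun ξ => ∑ i ∈ s, f i ξ) p = ∑ i ∈ s, extOp n (f i) p := by
  simp_rw [extOp_eq_integral]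
  rw [← integral_finsetSum _ (fun i hi => integrable_ext (hf i hi) (hb i hi) p)]
  congr 1
  ext ξ
  rw [← Finset.mul_sum]
  congr 1
  by_cases h : ξ ∈ cube n
  · simp_rw [indicator_of_mem h]
  · simp_rw [indicator_of_notMem h]; simp

lemma enorm_extOp_le {f : (Fin n → ℝ) → ℂ} {C : ℝ}
    (hb : ∀ ξ ∈ cube n, ‖f ξ‖ ≤ C) (p : (Fin n → ℝ) × ℝ) :
    ‖extOp n f p‖ₑ ≤ 2 ^ n * ENNReal.ofReal C := by
  rw [extOp_eq_integral]
  calc ‖∫ ξ : Fin n → ℝ, ch ((∑ j, ξ j * p.1 j) + (∑ j, ξ j ^ 2) * p.2) *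
      indicator (cube n) f ξ‖ₑ
      ≤ ∫⁻ ξ : Fin n → ℝ, ‖ch ((∑ j, ξ j * p.1 j) + (∑ j, ξ j ^ 2) * p.2) *
      indicator (cube n) f ξ‖ₑ := enorm_integral_le_lintegral_enorm _
    _ ≤ ∫⁻ ξ : Fin n → ℝ, indicator (cube n) (fun _ => ENNReal.ofReal C) ξ := by
        apply lintegral_mono
        intro ξ
        simp only
        rw [enorm_mul, enorm_ch, one_mul]
        by_cases h : ξ ∈ cube n
        · rw [indicator_of_mem h, indicator_of_mem h, ← ofReal_norm]
          exact ENNReal.ofReal_le_ofReal (hb ξ h)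
        · rw [indicator_of_notMem h, indicator_of_notMem h]; simp
    _ = 2 ^ n * ENNReal.ofReal C := by
        rw [lintegral_indicator measurableSet_cube, lintegral_const, Measure.restrict_apply_univ,
          volume_cube, mul_comm]

lemma norm_prod_sub_prod_le {ι : Type*} (s : Finset ι) {a b : ι → ℂ} (ha : ∀ e, ‖a e‖ ≤ 1)
    (hb : ∀ e, ‖b e‖ ≤ 1) : ‖∏ e ∈ s, a e - ∏ e ∈ s, b e‖ ≤ ∑ e ∈ s, ‖a e - b e‖ := by
  classical
  induction s using Finset.induction_on with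
  | empty => simp
  | insert e s he ih =>
    rw [Finset.prod_insert he, Finset.prod_insert he, Finset.sum_insert he]
    have h1 : a e * ∏ e ∈ s, a e - b e * ∏ e ∈ s, b e
        = (a e - b e) * ∏ e ∈ s, a e + b e * (∏ e ∈ s, a e - ∏ e ∈ s, b e) := by ring
    rw [h1]
    refine (norm_add_le _ _).trans ?_
    rw [norm_mul, norm_mul]
    have h2 : ‖∏ e ∈ s, a e‖ ≤ 1 := by
      rw [norm_prod]
      exact Finset.prod_le_one (fun _ _ => norm_nonneg _) fun e _ => ha e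
    apply add_le_add
    · calc ‖a e - b e‖ * ‖∏ e ∈ s, a e‖ ≤ ‖a e - b e‖ * 1 := by gcongr
        _ = _ := mul_one _
    · calc ‖b e‖ * ‖∏ e ∈ s, a e - ∏ e ∈ s, b e‖ ≤ 1 * ‖∏ e ∈ s, a e - ∏ e ∈ s, b e‖ := by
            gcongr
            exact hb e
        _ ≤ _ := by rw [one_mul]; exact ih

namespace PF

variable (P : PF n N)

lemma norm_fac_le (e : Fin N) (ξ : Fin n → ℝ) : ‖P.fac e ξ‖ ≤ 1 := P.bd e _ _

/-- `L¹` error of the approximation of a factor -/
lemma err_le (e : Fin N) (L : ℕ) :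
    ∫⁻ ξ in cube n, ‖P.A e L ξ - P.fac e ξ‖ₑ
      ≤ 2 ^ n * ((ENNReal.ofReal (4 / 2 ^ L)) ^ (1 / P.p e) * 2) := by
  have hp := P.hp e
  have hm : Measurable (fun ξ => ‖P.A e L ξ - P.fac e ξ‖ₑ) :=
    ((P.measurable_A e L).sub (P.measurable_fac e)).enorm
  apply lintegral_cube_slice (P.j e) hm
  intro ξ _
  set g := P.φ e (ξ (P.i e)) with hg
  have hgm : Measurable g := by
    have h : Measurable (fun y : ℝ => ((ξ (P.i e), y) : ℝ × ℝ)) := by fun_prop
    exact (P.hφ e).comp h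
  have hAm : Measurable (fun y => FA (nu (P.b e)) g L y) :=
    measurable_FA_comp (P.hφ e) L (g := fun _ : ℝ => ξ (P.i e)) (h := fun y => y)
        measurable_const measurable_id
  have hmm : Measurable (fun y => ‖g y - FA (nu (P.b e)) g L y‖ₑ) := (hgm.sub hAm).enorm
  have h1 : ∀ s, ‖P.A e L (Function.update ξ (P.j e) s) - P.fac e (Function.update ξ (P.j e) s)‖ₑ
      = ‖g (P.b e s) - FA (nu (P.b e)) g L (P.b e s)‖ₑ := by
    intro s
    unfold A fac
    rw [Function.update_of_ne (P.hij e), Function.update_self, ← hg, ← enorm_neg]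
    congr 1
    ring
  simp_rw [h1]
  have h2 := lintegral_err (nu_univ (P.hb e)) (p := P.p e) (by linarith) (P.bd e (ξ (P.i e)))
      (P.pv e (ξ (P.i e))) L
  rw [← hg, lintegral_nu (P.hb e) (hmm.pow_const _)] at h2
  have hpq := Real.HolderConjugate.conjExponent (p := P.p e) (by linarith)
  have h3 := ENNReal.lintegral_mul_le_Lp_mul_Lq (volume.restrict (Icc (-1:ℝ) 1)) hpq
    (f := fun s => ‖g (P.b e s) - FA (nu (P.b e)) g L (P.b e s)‖ₑ) (g := fun _ => 1)
    (hmm.comp (P.hb e)).aemeasurable aemeasurable_const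
  simp only [Pi.mul_apply, mul_one, ENNReal.one_rpow, lintegral_const, one_mul,
    Measure.restrict_apply_univ, Real.volume_Icc] at h3
  refine h3.trans ?_
  have h4 : (ENNReal.ofReal (1 - -1)) ^ (1 / Real.conjExponent (P.p e)) ≤ 2 := by
    have h5 : ENNReal.ofReal (1 - -1) = 2 := by norm_num
    rw [h5]
    calc (2:ℝ≥0∞) ^ (1 / Real.conjExponent (P.p e)) ≤ 2 ^ (1:ℝ) := by
          apply ENNReal.rpow_le_rpow_of_exponent_le (by norm_num)
          rw [div_le_one hpq.symm.pos]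
          exact hpq.symm.lt.le
      _ = 2 := by simp
  have h6 : 0 ≤ 1 / P.p e := by positivity
  gcongr

/-- the product of the approximations -/
lemma val_A_eq_sum (F : HForm.{v} n) (L : ℕ) (ξ : Fin n → ℝ) :
    F.val ξ * ∏ e, P.A e L ξ
      = ∑ l ∈ Fintype.piFinset (fun _ : Fin N => Finset.range L),
        F.val ξ * ∏ e, P.D e (l e) ξ := by
  simp_rw [A_eq_sum]
  rw [Finset.prod_univ_sum, Finset.mul_sum]

lemma meas_piece (F : HForm.{v} n) (l : Fin N → ℕ) :
    Measurable (fun ξ => F.val ξ * ∏ e, P.D e (l e) ξ) :=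
  F.measurable_val.mul (Finset.measurable_fun_prod _ fun e _ => P.measurable_D e (l e))

lemma meas_approx (F : HForm.{v} n) (L : ℕ) :
    Measurable (fun ξ => F.val ξ * ∏ e, P.A e L ξ) :=
  F.measurable_val.mul (Finset.measurable_fun_prod _ fun e _ => P.measurable_A e L)

lemma meas_full (F : HForm.{v} n) :
    Measurable (fun ξ => F.val ξ * ∏ e, P.fac e ξ) :=
  F.measurable_val.mul (Finset.measurable_fun_prod _ fun e _ => P.measurable_fac e)

lemma norm_piece_le (F : HForm.{v} n) (l : Fin N → ℕ) {ξ : Fin n → ℝ} (hξ : ξ ∈ cube n) :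
    ‖F.val ξ * ∏ e, P.D e (l e) ξ‖ ≤ ‖F.T‖ * 2 ^ N := by
  rw [norm_mul, norm_prod]
  have h : ∏ e, ‖P.D e (l e) ξ‖ ≤ 2 ^ N := by
    calc ∏ e, ‖P.D e (l e) ξ‖ ≤ ∏ _e : Fin N, (2:ℝ) :=
          Finset.prod_le_prod (fun _ _ => norm_nonneg _) fun e _ => P.norm_D_le e _ ξ
      _ = 2 ^ N := by simp
  exact mul_le_mul (F.norm_val_le hξ) h (Finset.prod_nonneg fun _ _ => norm_nonneg _)
    (norm_nonneg _)

lemma norm_approx_le (F : HForm.{v} n) (L : ℕ) {ξ : Fin n → ℝ} (hξ : ξ ∈ cube n) :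
    ‖F.val ξ * ∏ e, P.A e L ξ‖ ≤ ‖F.T‖ := by
  rw [norm_mul, norm_prod]
  calc ‖F.val ξ‖ * ∏ e, ‖P.A e L ξ‖ ≤ ‖F.T‖ * 1 := by
        apply mul_le_mul (F.norm_val_le hξ) _ (Finset.prod_nonneg fun _ _ => norm_nonneg _)
          (norm_nonneg _)
        exact Finset.prod_le_one (fun _ _ => norm_nonneg _) fun e _ => P.norm_A_le e _ ξ
    _ = _ := mul_one _

lemma norm_full_le (F : HForm.{v} n) {ξ : Fin n → ℝ} (hξ : ξ ∈ cube n) :
    ‖F.val ξ * ∏ e, P.fac e ξ‖ ≤ ‖F.T‖ := by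
  rw [norm_mul, norm_prod]
  calc ‖F.val ξ‖ * ∏ e, ‖P.fac e ξ‖ ≤ ‖F.T‖ * 1 := by
        apply mul_le_mul (F.norm_val_le hξ) _ (Finset.prod_nonneg fun _ _ => norm_nonneg _)
          (norm_nonneg _)
        exact Finset.prod_le_one (fun _ _ => norm_nonneg _) fun e _ => P.norm_fac_le e ξ
    _ = _ := mul_one _

/-- Bound for the approximations. -/
lemma approx_norm (F : HForm.{v} n) (hn : 0 < n) {r : ℝ} (hr2 : 2 ≤ r) (hr4 : r ≤ 4)
    (ha : 1 < n * (r - 2) / 2) {w : Fin N → ℝ} (hw : ∀ e, 0 ≤ w e) (hw1 : ∑ e, w e = 1)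
    (L : ℕ) :
    eLpNorm (extOp n (fun ξ => F.val ξ * ∏ e, P.A e L ξ)) (ENNReal.ofReal r) volume
      ≤ KK n N r ^ (1 / r) * (∏ e, (1 - P.tht r w e)⁻¹) * ‖F.T‖ₑ := by
  have hr1 : (1:ℝ≥0∞) ≤ ENNReal.ofReal r := by
    rw [← ENNReal.ofReal_one]; exact ENNReal.ofReal_le_ofReal (by linarith)
  have h1 : extOp n (fun ξ => F.val ξ * ∏ e, P.A e L ξ)
      = ∑ l ∈ Fintype.piFinset (fun _ : Fin N => Finset.range L),
        extOp n (fun ξ => F.val ξ * ∏ e, P.D e (l e) ξ) := by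
    funext p
    have h2 : (fun ξ => F.val ξ * ∏ e, P.A e L ξ)
        = fun ξ => ∑ l ∈ Fintype.piFinset (fun _ : Fin N => Finset.range L),
        F.val ξ * ∏ e, P.D e (l e) ξ := by
      funext ξ; exact P.val_A_eq_sum F L ξ
    rw [h2, extOp_sum _ (fun l _ => P.meas_piece F l) (C := fun _ => ‖F.T‖ * 2 ^ N)
      (fun l _ ξ hξ => P.norm_piece_le F l hξ), Finset.sum_apply]
  rw [h1]
  refine (eLpNorm_sum_le (fun l _ => (sm_extOp (P.meas_piece F l)).aestronglyMeasurable) hr1).trans ?_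
  calc ∑ l ∈ Fintype.piFinset (fun _ : Fin N => Finset.range L),
        eLpNorm (extOp n (fun ξ => F.val ξ * ∏ e, P.D e (l e) ξ)) (ENNReal.ofReal r) volume
      ≤ ∑ l ∈ Fintype.piFinset (fun _ : Fin N => Finset.range L),
        KK n N r ^ (1 / r) * (‖F.T‖ₑ * ∏ e, (P.tht r w e) ^ (l e)) :=
        Finset.sum_le_sum fun l _ => P.piece_norm F hn hr2 hr4 ha hw hw1 l
    _ = KK n N r ^ (1 / r) * (∏ e, ∑ l ∈ Finset.range L, (P.tht r w e) ^ l) * ‖F.T‖ₑ := by
        rw [Finset.prod_univ_sum, Finset.mul_sum, Finset.sum_mul]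
        apply Finset.sum_congr rfl
        intro l _
        ring
    _ ≤ KK n N r ^ (1 / r) * (∏ e, (1 - P.tht r w e)⁻¹) * ‖F.T‖ₑ := by
        gcongr with e _
        rw [← ENNReal.tsum_geometric]
        exact ENNReal.sum_le_tsum _

/-- pointwise convergence -/
lemma tendsto_ext (F : HForm.{v} n) (p : (Fin n → ℝ) × ℝ) :
    Tendsto (fun L => extOp n (fun ξ => F.val ξ * ∏ e, P.A e L ξ) p) atTop
      (𝓝 (extOp n (fun ξ => F.val ξ * ∏ e, P.fac e ξ) p)) := by
  simp_rw [extOp_eq_integral]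
  apply tendsto_integral_of_L1
  · exact (integrable_ext (P.meas_full F) (fun ξ hξ => P.norm_full_le F hξ) p).aestronglyMeasurable
  · exact Eventually.of_forall fun L =>
      integrable_ext (P.meas_approx F L) (fun ξ hξ => P.norm_approx_le F L hξ) p
  · have hub : ∀ L, ∫⁻ ξ, ‖ch ((∑ j, ξ j * p.1 j) + (∑ j, ξ j ^ 2) * p.2) *
          indicator (cube n) (fun ξ => F.val ξ * ∏ e, P.A e L ξ) ξ
          - ch ((∑ j, ξ j * p.1 j) + (∑ j, ξ j ^ 2) * p.2) *
          indicator (cube n) (fun ξ => F.val ξ * ∏ e, P.fac e ξ) ξ‖ₑ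
        ≤ ‖F.T‖ₑ * ∑ e, 2 ^ n * ((ENNReal.ofReal (4 / 2 ^ L)) ^ (1 / P.p e) * 2) := by
      intro L
      calc ∫⁻ ξ, ‖ch ((∑ j, ξ j * p.1 j) + (∑ j, ξ j ^ 2) * p.2) *
          indicator (cube n) (fun ξ => F.val ξ * ∏ e, P.A e L ξ) ξ
          - ch ((∑ j, ξ j * p.1 j) + (∑ j, ξ j ^ 2) * p.2) *
          indicator (cube n) (fun ξ => F.val ξ * ∏ e, P.fac e ξ) ξ‖ₑ
          ≤ ∫⁻ ξ, indicator (cube n) (fun ξ => ‖F.T‖ₑ * ∑ e, ‖P.A e L ξ - P.fac e ξ‖ₑ) ξ := by
            apply lintegral_mono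
            intro ξ
            simp only
            rw [← mul_sub, enorm_mul, enorm_ch, one_mul]
            by_cases h : ξ ∈ cube n
            · rw [indicator_of_mem h, indicator_of_mem h, indicator_of_mem h, ← mul_sub, enorm_mul]
              have e1 : ‖F.val ξ‖ₑ ≤ ‖F.T‖ₑ := by
                rw [← ofReal_norm, ← ofReal_norm]
                exact ENNReal.ofReal_le_ofReal (F.norm_val_le h)
              have e2 : ‖∏ e, P.A e L ξ - ∏ e, P.fac e ξ‖ₑ
                  ≤ ∑ e, ‖P.A e L ξ - P.fac e ξ‖ₑ := by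
                have := norm_prod_sub_prod_le Finset.univ (a := fun e => P.A e L ξ)
                  (b := fun e => P.fac e ξ) (fun e => P.norm_A_le e L ξ)
                  (fun e => P.norm_fac_le e ξ)
                rw [← ofReal_norm]
                refine (ENNReal.ofReal_le_ofReal this).trans (le_of_eq ?_)
                rw [ENNReal.ofReal_sum_of_nonneg (fun _ _ => norm_nonneg _)]
                simp_rw [ofReal_norm]
              gcongr
            · rw [indicator_of_notMem h, indicator_of_notMem h, indicator_of_notMem h]; simp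
        _ = ‖F.T‖ₑ * ∑ e, ∫⁻ ξ in cube n, ‖P.A e L ξ - P.fac e ξ‖ₑ := by
            rw [lintegral_indicator measurableSet_cube, lintegral_const_mul' _ _ (by simp),
              lintegral_finsetSum]
            intro e _
            exact ((P.measurable_A e L).sub (P.measurable_fac e)).enorm
        _ ≤ _ := by
            gcongr with e _
            exact P.err_le e L
    refine tendsto_of_tendsto_of_tendsto_of_le_of_le tendsto_const_nhds ?_ (fun _ => zero_le) hub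
    have h0 : Tendsto (fun L : ℕ => ENNReal.ofReal (4 / 2 ^ L)) atTop (𝓝 0) := by
      rw [← ENNReal.ofReal_zero]
      apply ENNReal.tendsto_ofReal
      have : Tendsto (fun L : ℕ => (4:ℝ) * (1 / 2) ^ L) atTop (𝓝 (4 * 0)) :=
        (tendsto_pow_atTop_nhds_zero_of_lt_one (by norm_num) (by norm_num)).const_mul 4
      rw [mul_zero] at this
      refine this.congr fun L => ?_
      rw [one_div, inv_pow]; rfl
    have h1 : ∀ e, Tendsto (fun L : ℕ => 2 ^ n * ((ENNReal.ofReal (4 / 2 ^ L)) ^ (1 / P.p e) * 2))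
        atTop (𝓝 0) := by
      intro e
      have hp : 0 < 1 / P.p e := by have := P.hp e; positivity
      have h2 := ((ENNReal.continuous_rpow_const (y := 1 / P.p e)).tendsto 0).comp h0
      rw [ENNReal.zero_rpow_of_pos hp] at h2
      have h3 := ENNReal.Tendsto.mul_const h2 (b := 2) (Or.inr (by norm_num))
      have h4 := ENNReal.Tendsto.const_mul (a := 2 ^ n) h3
        (Or.inr (ENNReal.pow_ne_top (by norm_num)))
      simpa using h4
    have h5 := tendsto_finsetSum (s := (Finset.univ : Finset (Fin N))) (fun e _ => h1 e)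
    have h6 := ENNReal.Tendsto.const_mul (a := ‖F.T‖ₑ) h5 (Or.inr (by simp))
    simpa using h6

/-- The extension bound at exponent `r`. -/
theorem full_norm (F : HForm.{v} n) (hn : 0 < n) {r : ℝ} (hr2 : 2 ≤ r) (hr4 : r ≤ 4)
    (ha : 1 < n * (r - 2) / 2) {w : Fin N → ℝ} (hw : ∀ e, 0 ≤ w e) (hw1 : ∑ e, w e = 1) :
    eLpNorm (extOp n (fun ξ => F.val ξ * ∏ e, P.fac e ξ)) (ENNReal.ofReal r) volume
      ≤ KK n N r ^ (1 / r) * (∏ e, (1 - P.tht r w e)⁻¹) * ‖F.T‖ₑ := by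
  refine (Lp.eLpNorm_lim_le_liminf_eLpNorm
    (f := fun L => extOp n (fun ξ => F.val ξ * ∏ e, P.A e L ξ))
    (fun L => (sm_extOp (P.meas_approx F L)).aestronglyMeasurable) _
    (Eventually.of_forall fun p => P.tendsto_ext F p)).trans ?_
  apply liminf_le_of_frequently_le'
  exact Frequently.of_forall fun L => P.approx_norm F hn hr2 hr4 ha hw hw1 L

end PF

end Pool.Agent.H.MP_b7167f_an
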