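import Mathlib
import Pool.Agent.H.MP_b7167f_an.PairLimit

open MeasureTheory Set Filter
open scoped ENNReal NNReal Topology

namespace Pool.Agent.H.MP_b7167f_an

variable {n N : ℕ}

/-- Abstract summation over multi-indices. -/
theorem abs_sum {g₀ : (Fin n → ℝ) → ℂ} (hg₀ : Measurable g₀) {B : ℝ} (hB : ∀ ξ ∈ cube n, ‖g₀ ξ‖ ≤ B)
    {D : Fin N → ℕ → (Fin n → ℝ) → ℂ} (hD : ∀ e l, Measurable (D e l)) {CD : ℝ}
    (hDb : ∀ e l, ∀ ξ ∈ cube n, ‖D e l ξ‖ ≤ CD)
    (hA : ∀ e L, ∀ ξ ∈ cube n, ‖∑ l ∈ Finset.range L, D e l ξ‖ ≤ 1)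
    {fac : Fin N → (Fin n → ℝ) → ℂ} (hf : ∀ e, Measurable (fac e))
    (hfb : ∀ e, ∀ ξ ∈ cube n, ‖fac e ξ‖ ≤ 1)
    (hlim : ∀ e, Tendsto (fun L => ∫⁻ ξ in cube n, ‖∑ l ∈ Finset.range L, D e l ξ - fac e ξ‖ₑ)
      atTop (𝓝 0))
    {r : ℝ} (hr : 1 ≤ r) {K : ℝ≥0∞} {θ : Fin N → ℝ≥0∞}
    (hpiece : ∀ l : Fin N → ℕ, eLpNorm (extOp n (fun ξ => g₀ ξ * ∏ e, D e (l e) ξ))
      (ENNReal.ofReal r) volume ≤ K * ∏ e, (θ e) ^ (l e)) :
    eLpNorm (extOp n (fun ξ => g₀ ξ * ∏ e, fac e ξ)) (ENNReal.ofReal r) volume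
      ≤ K * ∏ e, (1 - θ e)⁻¹ := by
  classical
  have hB0 : 0 ≤ B ∨ cube n = ∅ := by
    by_cases h : (cube n).Nonempty
    · obtain ⟨ξ, hξ⟩ := h
      exact Or.inl ((norm_nonneg _).trans (hB ξ hξ))
    · exact Or.inr (not_nonempty_iff_eq_empty.1 h)
  have hr1 : (1:ℝ≥0∞) ≤ ENNReal.ofReal r := by
    rw [← ENNReal.ofReal_one]; exact ENNReal.ofReal_le_ofReal hr
  set A : Fin N → ℕ → (Fin n → ℝ) → ℂ := fun e L ξ => ∑ l ∈ Finset.range L, D e l ξ with hAdef
  have hAm : ∀ e L, Measurable (A e L) := fun e L =>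
    Finset.measurable_fun_sum _ fun l _ => hD e l
  have mpiece : ∀ l : Fin N → ℕ, Measurable (fun ξ => g₀ ξ * ∏ e, D e (l e) ξ) := fun l =>
    hg₀.mul (Finset.measurable_fun_prod _ fun e _ => hD e (l e))
  have mapp : ∀ L, Measurable (fun ξ => g₀ ξ * ∏ e, A e L ξ) := fun L =>
    hg₀.mul (Finset.measurable_fun_prod _ fun e _ => hAm e L)
  have mfull : Measurable (fun ξ => g₀ ξ * ∏ e, fac e ξ) :=
    hg₀.mul (Finset.measurable_fun_prod _ fun e _ => hf e)
  have hBabs : ∀ ξ ∈ cube n, ‖g₀ ξ‖ ≤ |B| := fun ξ hξ => (hB ξ hξ).trans (le_abs_self B)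
  have bpiece : ∀ l : Fin N → ℕ, ∀ ξ ∈ cube n, ‖g₀ ξ * ∏ e, D e (l e) ξ‖ ≤ |B| * CD ^ N := by
    intro l ξ hξ
    rw [norm_mul, norm_prod]
    have h : ∏ e, ‖D e (l e) ξ‖ ≤ CD ^ N := by
      calc ∏ e, ‖D e (l e) ξ‖ ≤ ∏ _e : Fin N, CD :=
            Finset.prod_le_prod (fun _ _ => norm_nonneg _) fun e _ => hDb e _ ξ hξ
        _ = CD ^ N := by simp
    exact mul_le_mul (hBabs ξ hξ) h (Finset.prod_nonneg fun _ _ => norm_nonneg _) (abs_nonneg _)
  have bapp : ∀ L, ∀ ξ ∈ cube n, ‖g₀ ξ * ∏ e, A e L ξ‖ ≤ |B| := by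
    intro L ξ hξ
    rw [norm_mul, norm_prod]
    calc ‖g₀ ξ‖ * ∏ e, ‖A e L ξ‖ ≤ |B| * 1 := by
          apply mul_le_mul (hBabs ξ hξ) _ (Finset.prod_nonneg fun _ _ => norm_nonneg _)
            (abs_nonneg _)
          exact Finset.prod_le_one (fun _ _ => norm_nonneg _) fun e _ => hA e L ξ hξ
      _ = _ := mul_one _
  have bfull : ∀ ξ ∈ cube n, ‖g₀ ξ * ∏ e, fac e ξ‖ ≤ |B| := by
    intro ξ hξ
    rw [norm_mul, norm_prod]
    calc ‖g₀ ξ‖ * ∏ e, ‖fac e ξ‖ ≤ |B| * 1 := by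
          apply mul_le_mul (hBabs ξ hξ) _ (Finset.prod_nonneg fun _ _ => norm_nonneg _)
            (abs_nonneg _)
          exact Finset.prod_le_one (fun _ _ => norm_nonneg _) fun e _ => hfb e ξ hξ
      _ = _ := mul_one _
  -- bound for the approximations
  have happ : ∀ L, eLpNorm (extOp n (fun ξ => g₀ ξ * ∏ e, A e L ξ)) (ENNReal.ofReal r) volume
      ≤ K * ∏ e, (1 - θ e)⁻¹ := by
    intro L
    have h1 : extOp n (fun ξ => g₀ ξ * ∏ e, A e L ξ)
        = ∑ l ∈ Fintype.piFinset (fun _ : Fin N => Finset.range L),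
          extOp n (fun ξ => g₀ ξ * ∏ e, D e (l e) ξ) := by
      funext p
      have h2 : (fun ξ => g₀ ξ * ∏ e, A e L ξ)
          = fun ξ => ∑ l ∈ Fintype.piFinset (fun _ : Fin N => Finset.range L),
          g₀ ξ * ∏ e, D e (l e) ξ := by
        funext ξ
        rw [hAdef]
        simp only
        rw [Finset.prod_univ_sum, Finset.mul_sum]
      rw [h2, extOp_sum _ (fun l _ => mpiece l) (C := fun _ => |B| * CD ^ N)
        (fun l _ ξ hξ => bpiece l ξ hξ), Finset.sum_apply]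
    rw [h1]
    refine (eLpNorm_sum_le (fun l _ => (sm_extOp (mpiece l)).aestronglyMeasurable) hr1).trans ?_
    calc ∑ l ∈ Fintype.piFinset (fun _ : Fin N => Finset.range L),
          eLpNorm (extOp n (fun ξ => g₀ ξ * ∏ e, D e (l e) ξ)) (ENNReal.ofReal r) volume
        ≤ ∑ l ∈ Fintype.piFinset (fun _ : Fin N => Finset.range L), K * ∏ e, (θ e) ^ (l e) :=
          Finset.sum_le_sum fun l _ => hpiece l
      _ = K * (∏ e, ∑ l ∈ Finset.range L, (θ e) ^ l) := by
          rw [Finset.prod_univ_sum, Finset.mul_sum]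
      _ ≤ K * (∏ e, (1 - θ e)⁻¹) := by
          gcongr with e _
          rw [← ENNReal.tsum_geometric]
          exact ENNReal.sum_le_tsum _
  -- pointwise convergence
  have hconv : ∀ p, Tendsto (fun L => extOp n (fun ξ => g₀ ξ * ∏ e, A e L ξ) p) atTop
      (𝓝 (extOp n (fun ξ => g₀ ξ * ∏ e, fac e ξ) p)) := by
    intro p
    simp_rw [extOp_eq_integral]
    apply tendsto_integral_of_L1
    · exact (integrable_ext mfull bfull p).aestronglyMeasurable
    · exact Eventually.of_forall fun L => integrable_ext (mapp L) (bapp L) p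
    · have hub : ∀ L, ∫⁻ ξ, ‖ch ((∑ j, ξ j * p.1 j) + (∑ j, ξ j ^ 2) * p.2) *
            indicator (cube n) (fun ξ => g₀ ξ * ∏ e, A e L ξ) ξ
            - ch ((∑ j, ξ j * p.1 j) + (∑ j, ξ j ^ 2) * p.2) *
            indicator (cube n) (fun ξ => g₀ ξ * ∏ e, fac e ξ) ξ‖ₑ
          ≤ ENNReal.ofReal |B| * ∑ e, ∫⁻ ξ in cube n, ‖A e L ξ - fac e ξ‖ₑ := by
        intro L
        calc ∫⁻ ξ, ‖ch ((∑ j, ξ j * p.1 j) + (∑ j, ξ j ^ 2) * p.2) *
            indicator (cube n) (fun ξ => g₀ ξ * ∏ e, A e L ξ) ξ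
            - ch ((∑ j, ξ j * p.1 j) + (∑ j, ξ j ^ 2) * p.2) *
            indicator (cube n) (fun ξ => g₀ ξ * ∏ e, fac e ξ) ξ‖ₑ
            ≤ ∫⁻ ξ, indicator (cube n) (fun ξ => ENNReal.ofReal |B| *
              ∑ e, ‖A e L ξ - fac e ξ‖ₑ) ξ := by
              apply lintegral_mono
              intro ξ
              simp only
              rw [← mul_sub, enorm_mul, enorm_ch, one_mul]
              by_cases h : ξ ∈ cube n
              · rw [indicator_of_mem h, indicator_of_mem h, indicator_of_mem h, ← mul_sub,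
                  enorm_mul]
                have e1 : ‖g₀ ξ‖ₑ ≤ ENNReal.ofReal |B| := by
                  rw [← ofReal_norm]
                  exact ENNReal.ofReal_le_ofReal (hBabs ξ h)
                have e2 : ‖∏ e, A e L ξ - ∏ e, fac e ξ‖ₑ
                    ≤ ∑ e, ‖A e L ξ - fac e ξ‖ₑ := by
                  have := norm_prod_sub_prod_le Finset.univ (a := fun e => A e L ξ)
                    (b := fun e => fac e ξ) (fun e => hA e L ξ h)
                    (fun e => hfb e ξ h)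
                  rw [← ofReal_norm]
                  refine (ENNReal.ofReal_le_ofReal this).trans (le_of_eq ?_)
                  rw [ENNReal.ofReal_sum_of_nonneg (fun _ _ => norm_nonneg _)]
                  simp_rw [ofReal_norm]
                gcongr
              · rw [indicator_of_notMem h, indicator_of_notMem h, indicator_of_notMem h]; simp
          _ = ENNReal.ofReal |B| * ∑ e, ∫⁻ ξ in cube n, ‖A e L ξ - fac e ξ‖ₑ := by
              rw [lintegral_indicator measurableSet_cube,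
                lintegral_const_mul' _ _ ENNReal.ofReal_ne_top, lintegral_finsetSum]
              intro e _
              exact ((hAm e L).sub (hf e)).enorm
      refine tendsto_of_tendsto_of_tendsto_of_le_of_le tendsto_const_nhds ?_
        (fun _ => zero_le) hub
      have h5 := tendsto_finsetSum (s := (Finset.univ : Finset (Fin N))) (fun e _ => hlim e)
      have h6 := ENNReal.Tendsto.const_mul (a := ENNReal.ofReal |B|) h5
        (Or.inr ENNReal.ofReal_ne_top)
      simpa using h6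
  refine (Lp.eLpNorm_lim_le_liminf_eLpNorm
    (f := fun L => extOp n (fun ξ => g₀ ξ * ∏ e, A e L ξ))
    (fun L => (sm_extOp (mapp L)).aestronglyMeasurable) _
    (Eventually.of_forall fun p => hconv p)).trans ?_
  apply liminf_le_of_frequently_le'
  exact Frequently.of_forall fun L => happ L

end Pool.Agent.H.MP_b7167f_an
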