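import Mathlib

open MeasureTheory Set Filter Topology
open scoped ENNReal NNReal

namespace Pool.Agent.H.MP_b7167f_an

/-- weighted convexity inequality for infinite sums -/
lemma jensen_tsum {s : ℝ} (hs : 1 ≤ s) {ρ : ℕ → ℝ≥0∞} (w : ℕ → ℝ≥0∞) (hρ : ∑' j, ρ j ≤ 1)
    (h0 : ∀ j, ρ j ≠ 0) (hT : ∀ j, ρ j ≠ ∞) :
    (∑' j, w j) ^ s ≤ ∑' j, ρ j ^ (1 - s) * w j ^ s := by
  have hs0 : 0 < s := by linarith
  rcases eq_or_lt_of_le hs with rfl | hs1
  · simp
  · have hfin : ∀ F : Finset ℕ, (∑ j ∈ F, w j) ≤ (∑' j, ρ j ^ (1 - s) * w j ^ s) ^ (1 / s) := by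
      intro F
      have hpq : (s / (s - 1)).HolderConjugate s := by
        rw [Real.holderConjugate_comm]
        exact Real.HolderConjugate.conjExponent hs1
      have h := ENNReal.inner_le_Lp_mul_Lq F (fun j => ρ j ^ ((s - 1) / s))
        (fun j => ρ j ^ (-((s - 1) / s)) * w j) hpq
      have e1 : ∀ j, ρ j ^ ((s - 1) / s) * (ρ j ^ (-((s - 1) / s)) * w j) = w j := by
        intro j
        rw [← mul_assoc, ← ENNReal.rpow_add _ _ (h0 j) (hT j), add_neg_cancel, ENNReal.rpow_zero,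
          one_mul]
      have e2 : ∀ j, (ρ j ^ ((s - 1) / s)) ^ (s / (s - 1)) = ρ j := by
        intro j
        rw [← ENNReal.rpow_mul]
        have : (s - 1) / s * (s / (s - 1)) = 1 := by
          have : s - 1 ≠ 0 := by linarith
          field_simp
        rw [this, ENNReal.rpow_one]
      have e3 : ∀ j, (ρ j ^ (-((s - 1) / s)) * w j) ^ s = ρ j ^ (1 - s) * w j ^ s := by
        intro j
        rw [ENNReal.mul_rpow_of_nonneg _ _ hs0.le, ← ENNReal.rpow_mul]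
        congr 2
        field_simp
        ring
      simp only [e1, e2, e3] at h
      refine h.trans ?_
      have h1 : (∑ j ∈ F, ρ j) ^ (1 / (s / (s - 1))) ≤ 1 := by
        apply ENNReal.rpow_le_one ((ENNReal.sum_le_tsum F).trans hρ)
        have : 0 < s - 1 := by linarith
        positivity
      calc _ ≤ 1 * (∑ j ∈ F, ρ j ^ (1 - s) * w j ^ s) ^ (1 / s) := by gcongr
        _ ≤ _ := by
          rw [one_mul]
          gcongr
          exact ENNReal.sum_le_tsum F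
    have h : (∑' j, w j) ≤ (∑' j, ρ j ^ (1 - s) * w j ^ s) ^ (1 / s) := by
      rw [ENNReal.tsum_eq_iSup_sum]
      exact iSup_le hfin
    calc (∑' j, w j) ^ s ≤ ((∑' j, ρ j ^ (1 - s) * w j ^ s) ^ (1 / s)) ^ s := by gcongr
      _ = _ := by
        rw [← ENNReal.rpow_mul, one_div, inv_mul_cancel₀ hs0.ne', ENNReal.rpow_one]

/-- the weights -/
noncomputable def rw' (ε : ℝ) (j : ℕ) : ℝ := (1 - (2:ℝ) ^ (-ε)) * (2:ℝ) ^ (-(ε * j))

lemma two_rpow_lt {ε : ℝ} (hε : 0 < ε) : (2:ℝ) ^ (-ε) < 1 :=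
  Real.rpow_lt_one_of_one_lt_of_neg (by norm_num) (by linarith)

lemma rw'_pos {ε : ℝ} (hε : 0 < ε) (j : ℕ) : 0 < rw' ε j := by
  have := two_rpow_lt hε
  unfold rw'
  have h2 : 0 < 1 - (2:ℝ) ^ (-ε) := by linarith
  positivity

lemma two_rpow_pow (ε : ℝ) (j : ℕ) : (2:ℝ) ^ (-(ε * j)) = ((2:ℝ) ^ (-ε)) ^ j := by
  rw [← Real.rpow_natCast, ← Real.rpow_mul (by norm_num)]
  congr 1
  ring

lemma tsum_rw' {ε : ℝ} (hε : 0 < ε) : ∑' j, ENNReal.ofReal (rw' ε j) ≤ 1 := by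
  have h1 := two_rpow_lt hε
  have h0 : 0 < (2:ℝ) ^ (-ε) := by positivity
  rw [← ENNReal.ofReal_tsum_of_nonneg (fun j => (rw'_pos hε j).le)]
  · rw [ENNReal.ofReal_le_one]
    unfold rw'
    rw [tsum_mul_left]
    simp_rw [two_rpow_pow]
    rw [tsum_geometric_of_lt_one h0.le h1, mul_inv_cancel₀]
    linarith
  · unfold rw'
    apply Summable.mul_left
    simp_rw [two_rpow_pow]
    exact summable_geometric_of_lt_one h0.le h1

/-- convergence of the final series -/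
lemma final_sum {q r : ℝ} (hq : 2 ≤ q) (hr : 1 ≤ r) (h : 1 < (q - 2) * r) :
    ∃ ε κ : ℝ, 0 < ε ∧ 0 < κ ∧ ∀ K : ℝ, 0 < K → ∑' j : ℕ, (ENNReal.ofReal (rw' ε j)) ^ (1 - r) *
      ((ENNReal.ofReal (rw' ε j)) ^ (1 - q) *
        (ENNReal.ofReal (K * (2:ℝ) ^ (-((1 - κ) * j)))) ^ (q - 2)) ^ r *
        ENNReal.ofReal ((2:ℝ) ^ (j:ℝ)) < ∞ := by
  set η := (q - 2) * r - 1 with hη
  have hη0 : 0 < η := by rw [hη]; linarith
  have hS : 0 < (r - 1) + (q - 1) * r := by nlinarith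
  have hS2 : 0 < (q - 2) * r := by linarith
  set ε := η / (4 * ((r - 1) + (q - 1) * r)) with hε
  set κ := η / (4 * ((q - 2) * r)) with hκ
  have hε0 : 0 < ε := by positivity
  have hκ0 : 0 < κ := by positivity
  refine ⟨ε, κ, hε0, hκ0, fun K hK => ?_⟩
  have hc : 0 < 1 - (2:ℝ) ^ (-ε) := by have := two_rpow_lt hε0; linarith
  set c := 1 - (2:ℝ) ^ (-ε) with hcdef
  have e1 : ε * ((r - 1) + (q - 1) * r) = η / 4 := by
    rw [hε, div_mul_eq_mul_div, mul_div_mul_right _ _ hS.ne']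
  have e2 : κ * ((q - 2) * r) = η / 4 := by
    rw [hκ, div_mul_eq_mul_div, mul_div_mul_right _ _ hS2.ne']
  have key : ∀ j : ℕ, (ENNReal.ofReal (rw' ε j)) ^ (1 - r) *
      ((ENNReal.ofReal (rw' ε j)) ^ (1 - q) *
        (ENNReal.ofReal (K * (2:ℝ) ^ (-((1 - κ) * j)))) ^ (q - 2)) ^ r *
        ENNReal.ofReal ((2:ℝ) ^ (j:ℝ)) =
      ENNReal.ofReal (c ^ (1 - r) * (c ^ (1 - q) * K ^ (q - 2)) ^ r *
        ((2:ℝ) ^ (-(η / 2))) ^ j) := by
    intro j
    have hj := rw'_pos hε0 j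
    have hp : 0 < K * (2:ℝ) ^ (-((1 - κ) * j)) := by positivity
    rw [ENNReal.ofReal_rpow_of_pos hj, ENNReal.ofReal_rpow_of_pos hj,
      ENNReal.ofReal_rpow_of_pos hp, ← ENNReal.ofReal_mul (by positivity),
      ENNReal.ofReal_rpow_of_pos (by positivity), ← ENNReal.ofReal_mul (by positivity),
      ← ENNReal.ofReal_mul (by positivity)]
    congr 1
    unfold rw'
    rw [← hcdef, Real.mul_rpow hc.le (by positivity), Real.mul_rpow hc.le (by positivity),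
      Real.mul_rpow hK.le (by positivity)]
    have f1 : ∀ a b : ℝ, ((2:ℝ) ^ a) ^ b = (2:ℝ) ^ (a * b) := fun a b =>
      (Real.rpow_mul (by norm_num) a b).symm
    rw [f1, f1, f1]
    have f2 : (c ^ (1 - q) * (2:ℝ) ^ (-(ε * j) * (1 - q)) *
        (K ^ (q - 2) * (2:ℝ) ^ (-((1 - κ) * j) * (q - 2)))) ^ r =
        (c ^ (1 - q) * K ^ (q - 2)) ^ r *
        (2:ℝ) ^ ((-(ε * j) * (1 - q) + -((1 - κ) * j) * (q - 2)) * r) := by
      rw [← f1 (-(ε * j) * (1 - q) + -((1 - κ) * j) * (q - 2)) r,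
        ← Real.mul_rpow (by positivity) (by positivity)]
      congr 1
      rw [Real.rpow_add (by norm_num)]
      ring
    rw [f2, ← Real.rpow_natCast, f1]
    have f3 : -(η / 2) * (j:ℝ) = -(ε * j) * (1 - r) +
        ((-(ε * j) * (1 - q) + -((1 - κ) * j) * (q - 2)) * r) + (j:ℝ) := by
      have : -(ε * j) * (1 - r) + ((-(ε * j) * (1 - q) + -((1 - κ) * j) * (q - 2)) * r) + (j:ℝ)
          = (j:ℝ) * (ε * ((r - 1) + (q - 1) * r) + κ * ((q - 2) * r) - (q - 2) * r + 1) := by ring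
      rw [this, e1, e2]
      have : (q - 2) * r = η + 1 := by rw [hη]; ring
      rw [this]
      ring
    rw [f3, Real.rpow_add (by norm_num), Real.rpow_add (by norm_num)]
    ring
  simp_rw [key]
  have hb0 : 0 < (2:ℝ) ^ (-(η / 2)) := by positivity
  have hb1 : (2:ℝ) ^ (-(η / 2)) < 1 := two_rpow_lt (by positivity)
  rw [← ENNReal.ofReal_tsum_of_nonneg (fun j => by positivity)]
  · exact ENNReal.ofReal_lt_top
  · exact (summable_geometric_of_lt_one hb0.le hb1).mul_left _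

end Pool.Agent.H.MP_b7167f_an
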