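import Mathlib

open MvPolynomial MeasureTheory Set
open scoped ENNReal

namespace Pool.Agent.H.MP_b7167f_an

/-- real polynomials in two variables -/
abbrev P2 := MvPolynomial (Fin 2) ℝ

/-- polynomial function on the plane -/
noncomputable def pf (p : P2) (z : ℝ × ℝ) : ℝ := MvPolynomial.eval ![z.1, z.2] p

/-- the square -/
def sq : Set (ℝ × ℝ) := Icc (-1:ℝ) 1 ×ˢ Icc (-1:ℝ) 1

lemma measurableSet_sq : MeasurableSet sq := measurableSet_Icc.prod measurableSet_Icc

@[simp] lemma pf_C (a : ℝ) (z : ℝ × ℝ) : pf (C a) z = a := by simp [pf]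
@[simp] lemma pf_zero (z : ℝ × ℝ) : pf 0 z = 0 := by simp [pf]
@[simp] lemma pf_one (z : ℝ × ℝ) : pf 1 z = 1 := by simp [pf]
@[simp] lemma pf_X0 (z : ℝ × ℝ) : pf (X 0) z = z.1 := by simp [pf]
@[simp] lemma pf_X1 (z : ℝ × ℝ) : pf (X 1) z = z.2 := by simp [pf]
@[simp] lemma pf_add (p q : P2) (z : ℝ × ℝ) : pf (p + q) z = pf p z + pf q z := by simp [pf]
@[simp] lemma pf_sub (p q : P2) (z : ℝ × ℝ) : pf (p - q) z = pf p z - pf q z := by simp [pf]
@[simp] lemma pf_neg (p : P2) (z : ℝ × ℝ) : pf (-p) z = -pf p z := by simp [pf]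
@[simp] lemma pf_mul (p q : P2) (z : ℝ × ℝ) : pf (p * q) z = pf p z * pf q z := by simp [pf]
@[simp] lemma pf_pow (p : P2) (n : ℕ) (z : ℝ × ℝ) : pf (p ^ n) z = pf p z ^ n := by simp [pf]

open ContinuousLinearMap in
lemma hasFDerivAt_pf (p : P2) (z : ℝ × ℝ) :
    HasFDerivAt (pf p) (pf (pderiv 0 p) z • fst ℝ ℝ ℝ + pf (pderiv 1 p) z • snd ℝ ℝ ℝ) z := by
  induction p using MvPolynomial.induction_on with
  | C a =>
    have h : pf (C a) = fun _ => a := by ext; simp
    rw [h]
    refine (hasFDerivAt_const a z).congr_fderiv ?_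
    apply ContinuousLinearMap.ext
    rintro ⟨x, y⟩
    simp
  | add p q hp hq =>
    have h : pf (p + q) = fun z => pf p z + pf q z := by ext; simp
    rw [h]
    refine (hp.add hq).congr_fderiv ?_
    apply ContinuousLinearMap.ext
    rintro ⟨x, y⟩
    simp
    ring
  | mul_X p i hp =>
    have h : pf (p * X i) = fun z => pf p z * pf (X i) z := by ext; simp
    rw [h]
    have hX : HasFDerivAt (pf (X i)) (pf (pderiv 0 (X i)) z • fst ℝ ℝ ℝ +
        pf (pderiv 1 (X i)) z • snd ℝ ℝ ℝ) z := by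
      fin_cases i
      · have h0 : pf (X 0) = fun z => z.1 := by ext; simp
        simp only [Fin.zero_eta, h0]
        refine (hasFDerivAt_fst (p := z)).congr_fderiv ?_
        apply ContinuousLinearMap.ext
        rintro ⟨x, y⟩
        simp [pderiv_X]
      · have h0 : pf (X 1) = fun z => z.2 := by ext; simp
        simp only [Fin.mk_one, h0]
        refine (hasFDerivAt_snd (p := z)).congr_fderiv ?_
        apply ContinuousLinearMap.ext
        rintro ⟨x, y⟩
        simp [pderiv_X]
    refine (hp.mul hX).congr_fderiv ?_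
    apply ContinuousLinearMap.ext
    rintro ⟨x, y⟩
    simp only [Derivation.leibniz, smul_eq_mul, pf_add, pf_mul]
    simp
    ring

lemma continuous_pf (p : P2) : Continuous (pf p) :=
  continuous_iff_continuousAt.2 fun z => (hasFDerivAt_pf p z).continuousAt

lemma hasDerivAt_pf_x (p : P2) (x y : ℝ) :
    HasDerivAt (fun x => pf p (x, y)) (pf (pderiv 0 p) (x, y)) x := by
  have h := (hasFDerivAt_pf p (x, y)).comp_hasDerivAt x
    ((hasDerivAt_id x).prodMk (hasDerivAt_const x y))
  refine h.congr_deriv ?_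
  simp

lemma hasDerivAt_pf_y (p : P2) (x y : ℝ) :
    HasDerivAt (fun y => pf p (x, y)) (pf (pderiv 1 p) (x, y)) y := by
  have h := (hasFDerivAt_pf p (x, y)).comp_hasDerivAt y
    ((hasDerivAt_const y x).prodMk (hasDerivAt_id y))
  refine h.congr_deriv ?_
  simp

/-- quotient of two polynomials of degree at most `D` with positive denominator -/
structure RatF (D : ℕ) where
  /-- numerator -/
  A : P2
  /-- denominator -/
  B : P2
  hA : A.totalDegree ≤ D
  hB : B.totalDegree ≤ D
  pos : ∀ z, 0 < pf B z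

variable {D : ℕ}

namespace RatF

/-- the function -/
noncomputable def val (u : RatF D) (z : ℝ × ℝ) : ℝ := pf u.A z / pf u.B z

/-- partial derivative in the first variable -/
noncomputable def dx (u : RatF D) (z : ℝ × ℝ) : ℝ :=
  (pf (pderiv 0 u.A) z * pf u.B z - pf u.A z * pf (pderiv 0 u.B) z) / (pf u.B z) ^ 2

/-- partial derivative in the second variable -/
noncomputable def dy (u : RatF D) (z : ℝ × ℝ) : ℝ :=
  (pf (pderiv 1 u.A) z * pf u.B z - pf u.A z * pf (pderiv 1 u.B) z) / (pf u.B z) ^ 2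

lemma hasDerivAt_x (u : RatF D) (x y : ℝ) :
    HasDerivAt (fun x => u.val (x, y)) (u.dx (x, y)) x :=
  (hasDerivAt_pf_x u.A x y).div (hasDerivAt_pf_x u.B x y) (u.pos _).ne'

lemma hasDerivAt_y (u : RatF D) (x y : ℝ) :
    HasDerivAt (fun y => u.val (x, y)) (u.dy (x, y)) y :=
  (hasDerivAt_pf_y u.A x y).div (hasDerivAt_pf_y u.B x y) (u.pos _).ne'

lemma continuous_val (u : RatF D) : Continuous u.val :=
  (continuous_pf _).div (continuous_pf _) fun z => (u.pos z).ne'

lemma continuous_dx (u : RatF D) : Continuous u.dx :=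
  (((continuous_pf _).mul (continuous_pf _)).sub ((continuous_pf _).mul (continuous_pf _))).div
    ((continuous_pf _).pow 2) fun z => (pow_pos (u.pos z) 2).ne'

lemma continuous_dy (u : RatF D) : Continuous u.dy :=
  (((continuous_pf _).mul (continuous_pf _)).sub ((continuous_pf _).mul (continuous_pf _))).div
    ((continuous_pf _).pow 2) fun z => (pow_pos (u.pos z) 2).ne'

end RatF

end Pool.Agent.H.MP_b7167f_an
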