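import Mathlib
import Pool.Agent.H.MP_b7167f_an.AlgDef

open MvPolynomial MeasureTheory Set
open scoped ENNReal

namespace Pool.Agent.H.MP_b7167f_an

/-- monotone `C¹` step functions -/
structure StepF where
  /-- the function -/
  f : ℝ → ℝ
  /-- its derivative -/
  f' : ℝ → ℝ
  der : ∀ c, HasDerivAt f (f' c) c
  cont : Continuous f'
  nonneg : ∀ c, 0 ≤ f' c
  b0 : ∀ c, 0 ≤ f c
  b1 : ∀ c, f c ≤ 1
  tv : ∫⁻ c, ENNReal.ofReal (f' c) ≤ 1

lemma StepF.continuous (θ : StepF) : Continuous θ.f :=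
  continuous_iff_continuousAt.2 fun c => (θ.der c).continuousAt

variable {D m : ℕ}

/-- amplitude -/
noncomputable def amp (θ : Fin m → StepF) (u : Fin m → RatF D) (z : ℝ × ℝ) : ℝ :=
  ∏ i, (θ i).f ((u i).val z)

/-- coefficient of the gradient of `u i` in the gradient of the amplitude -/
noncomputable def ampC (θ : Fin m → StepF) (u : Fin m → RatF D) (i : Fin m) (z : ℝ × ℝ) : ℝ :=
  (∏ l ∈ Finset.univ.erase i, (θ l).f ((u l).val z)) * (θ i).f' ((u i).val z)

section
variable (θ : Fin m → StepF) (u : Fin m → RatF D)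

lemma amp_nonneg (z : ℝ × ℝ) : 0 ≤ amp θ u z := Finset.prod_nonneg fun i _ => (θ i).b0 _

lemma amp_le_one (z : ℝ × ℝ) : amp θ u z ≤ 1 :=
  Finset.prod_le_one (fun i _ => (θ i).b0 _) fun i _ => (θ i).b1 _

lemma ampC_nonneg (i : Fin m) (z : ℝ × ℝ) : 0 ≤ ampC θ u i z :=
  mul_nonneg (Finset.prod_nonneg fun l _ => (θ l).b0 _) ((θ i).nonneg _)

lemma ampC_le (i : Fin m) (z : ℝ × ℝ) : ampC θ u i z ≤ (θ i).f' ((u i).val z) := by
  have h : ∏ l ∈ Finset.univ.erase i, (θ l).f ((u l).val z) ≤ 1 :=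
    Finset.prod_le_one (fun i _ => (θ i).b0 _) fun i _ => (θ i).b1 _
  exact mul_le_of_le_one_left ((θ i).nonneg _) h

lemma continuous_amp : Continuous (amp θ u) := by
  unfold amp
  exact continuous_finsetProd _ fun i _ => (θ i).continuous.comp (u i).continuous_val

lemma continuous_ampC (i : Fin m) : Continuous (ampC θ u i) := by
  unfold ampC
  exact (continuous_finsetProd _ fun i _ => (θ i).continuous.comp (u i).continuous_val).mul
    ((θ i).cont.comp (u i).continuous_val)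

lemma amp_x (x y : ℝ) : HasDerivAt (fun x => amp θ u (x, y))
    (∑ i, ampC θ u i (x, y) * (u i).dx (x, y)) x := by
  have h := HasDerivAt.fun_finsetProd (u := (Finset.univ : Finset (Fin m)))
    (f := fun i x => (θ i).f ((u i).val (x, y)))
    (f' := fun i => (θ i).f' ((u i).val (x, y)) * (u i).dx (x, y)) (x := x)
    (fun i _ => ((θ i).der _).comp x ((u i).hasDerivAt_x x y))
  refine h.congr_deriv ?_
  apply Finset.sum_congr rfl
  intro i _
  rw [smul_eq_mul, ampC]
  ring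

lemma amp_y (x y : ℝ) : HasDerivAt (fun y => amp θ u (x, y))
    (∑ i, ampC θ u i (x, y) * (u i).dy (x, y)) y := by
  have h := HasDerivAt.fun_finsetProd (u := (Finset.univ : Finset (Fin m)))
    (f := fun i y => (θ i).f ((u i).val (x, y)))
    (f' := fun i => (θ i).f' ((u i).val (x, y)) * (u i).dy (x, y)) (x := y)
    (fun i _ => ((θ i).der _).comp y ((u i).hasDerivAt_y x y))
  refine h.congr_deriv ?_
  apply Finset.sum_congr rfl
  intro i _
  rw [smul_eq_mul, ampC]
  ring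

end

lemma ftc_Icc {G g : ℝ → ℂ} (h : ∀ x, HasDerivAt G (g x) x) (c : Continuous g) :
    ∫ x in Icc (-1:ℝ) 1, g x = G 1 - G (-1) := by
  rw [integral_Icc_eq_integral_Ioc, ← intervalIntegral.integral_of_le (by norm_num)]
  exact intervalIntegral.integral_eq_sub_of_hasDerivAt (fun x _ => h x) (c.intervalIntegrable _ _)

/-- integration by parts on the square, as an inequality -/
lemma ibp_sq {G0 G1 g0 g1 : ℝ × ℝ → ℂ}
    (h0 : ∀ x y, HasDerivAt (fun x => G0 (x, y)) (g0 (x, y)) x)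
    (h1 : ∀ x y, HasDerivAt (fun y => G1 (x, y)) (g1 (x, y)) y)
    (c0 : Continuous g0) (c1 : Continuous g1) :
    ‖∫ z in sq, (g0 z + g1 z)‖ₑ ≤
      (∫⁻ y in Icc (-1:ℝ) 1, (‖G0 (1, y)‖ₑ + ‖G0 (-1, y)‖ₑ)) +
      ∫⁻ x in Icc (-1:ℝ) 1, (‖G1 (x, 1)‖ₑ + ‖G1 (x, -1)‖ₑ) := by
  have hcomp : IsCompact sq := isCompact_Icc.prod isCompact_Icc
  have i0 : IntegrableOn g0 sq := c0.continuousOn.integrableOn_compact hcomp
  have i1 : IntegrableOn g1 sq := c1.continuousOn.integrableOn_compact hcomp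
  rw [integral_add i0 i1]
  refine (enorm_add_le _ _).trans ?_
  gcongr ?_ + ?_
  · have e : ∫ z in sq, g0 z = ∫ y in Icc (-1:ℝ) 1, (G0 (1, y) - G0 (-1, y)) := by
      unfold sq IntegrableOn at i0
      unfold sq
      rw [Measure.volume_eq_prod, ← Measure.prod_restrict] at i0 ⊢
      rw [integral_prod_symm _ i0]
      congr 1
      ext y
      exact ftc_Icc (G := fun x => G0 (x, y)) (fun x => h0 x y) (by fun_prop)
    rw [e]
    refine (enorm_integral_le_lintegral_enorm _).trans (lintegral_mono fun y => ?_)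
    exact enorm_sub_le
  · have e : ∫ z in sq, g1 z = ∫ x in Icc (-1:ℝ) 1, (G1 (x, 1) - G1 (x, -1)) := by
      unfold sq IntegrableOn at i1
      unfold sq
      rw [Measure.volume_eq_prod, ← Measure.prod_restrict] at i1 ⊢
      rw [integral_prod _ i1]
      congr 1
      ext x
      exact ftc_Icc (G := fun y => G1 (x, y)) (fun y => h1 x y) (by fun_prop)
    rw [e]
    refine (enorm_integral_le_lintegral_enorm _).trans (lintegral_mono fun x => ?_)
    exact enorm_sub_le

/-! ### the phase -/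

section
variable (ψ : P2)

/-- `∂_a ∂_b ψ` -/
noncomputable def hs (a b : Fin 2) : P2 := pderiv a (pderiv b ψ)

/-- determinant of the Hessian -/
noncomputable def detP : P2 := hs ψ 0 0 * hs ψ 1 1 - hs ψ 1 0 * hs ψ 0 1

/-- square of the Hilbert–Schmidt norm of the Hessian -/
noncomputable def nsP : P2 := hs ψ 0 0 ^ 2 + hs ψ 0 1 ^ 2 + hs ψ 1 0 ^ 2 + hs ψ 1 1 ^ 2

/-- gradient components -/
noncomputable def gr (b : Fin 2) : P2 := pderiv b ψ

/-- `|∇ψ|²` -/
noncomputable def g2 (z : ℝ × ℝ) : ℝ := pf (gr ψ 0) z ^ 2 + pf (gr ψ 1) z ^ 2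

/-- sum of the absolute values of the entries of the Hessian -/
noncomputable def m1 (z : ℝ × ℝ) : ℝ :=
  |pf (hs ψ 0 0) z| + |pf (hs ψ 1 0) z| + |pf (hs ψ 0 1) z| + |pf (hs ψ 1 1) z|

lemma g2_nonneg (z : ℝ × ℝ) : 0 ≤ g2 ψ z := by unfold g2; positivity
lemma m1_nonneg (z : ℝ × ℝ) : 0 ≤ m1 ψ z := by unfold m1; positivity

/-- the vector field `∇ψ/(1+|∇ψ|²)` -/
noncomputable def vf (b : Fin 2) (z : ℝ × ℝ) : ℝ := pf (gr ψ b) z / (1 + g2 ψ z)

/-- `∂_a` of the component `b` of the vector field -/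
noncomputable def dvf (a b : Fin 2) (z : ℝ × ℝ) : ℝ :=
  (pf (hs ψ a b) z * (1 + g2 ψ z) - pf (gr ψ b) z *
    (2 * pf (gr ψ 0) z * pf (hs ψ a 0) z + 2 * pf (gr ψ 1) z * pf (hs ψ a 1) z)) / (1 + g2 ψ z) ^ 2

lemma continuous_g2 : Continuous (g2 ψ) := by
  unfold g2
  exact ((continuous_pf _).pow 2).add ((continuous_pf _).pow 2)

lemma continuous_m1 : Continuous (m1 ψ) := by
  unfold m1
  exact ((((continuous_pf _).abs).add ((continuous_pf _).abs)).add ((continuous_pf _).abs)).add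
    ((continuous_pf _).abs)

lemma one_add_g2_pos (z : ℝ × ℝ) : 0 < 1 + g2 ψ z := by have := g2_nonneg ψ z; linarith

lemma continuous_vf (b : Fin 2) : Continuous (vf ψ b) :=
  (continuous_pf _).div (continuous_const.add (continuous_g2 ψ)) fun z => (one_add_g2_pos ψ z).ne'

lemma continuous_dvf (a b : Fin 2) : Continuous (dvf ψ a b) := by
  have h1 := continuous_g2 ψ
  have h2 := fun p => continuous_pf p
  refine Continuous.div ?_ ?_ fun z => (pow_pos (one_add_g2_pos ψ z) 2).ne'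
  · exact ((h2 _).mul (continuous_const.add h1)).sub ((h2 _).mul
      (((continuous_const.mul (h2 _)).mul (h2 _)).add ((continuous_const.mul (h2 _)).mul (h2 _))))
  · exact (continuous_const.add h1).pow 2

lemma hasDerivAt_g2_x (x y : ℝ) : HasDerivAt (fun x => g2 ψ (x, y))
    (2 * pf (gr ψ 0) (x, y) * pf (hs ψ 0 0) (x, y) + 2 * pf (gr ψ 1) (x, y) * pf (hs ψ 0 1) (x, y))
    x := by
  have h := ((hasDerivAt_pf_x (gr ψ 0) x y).pow 2).add ((hasDerivAt_pf_x (gr ψ 1) x y).pow 2)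
  refine h.congr_deriv ?_
  simp only [gr, hs]
  norm_num

lemma hasDerivAt_g2_y (x y : ℝ) : HasDerivAt (fun y => g2 ψ (x, y))
    (2 * pf (gr ψ 0) (x, y) * pf (hs ψ 1 0) (x, y) + 2 * pf (gr ψ 1) (x, y) * pf (hs ψ 1 1) (x, y))
    y := by
  have h := ((hasDerivAt_pf_y (gr ψ 0) x y).pow 2).add ((hasDerivAt_pf_y (gr ψ 1) x y).pow 2)
  refine h.congr_deriv ?_
  simp only [gr, hs]
  norm_num

lemma hasDerivAt_vf_x (b : Fin 2) (x y : ℝ) :
    HasDerivAt (fun x => vf ψ b (x, y)) (dvf ψ 0 b (x, y)) x :=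
  (hasDerivAt_pf_x (gr ψ b) x y).div ((hasDerivAt_g2_x ψ x y).const_add 1)
    (one_add_g2_pos ψ _).ne'

lemma hasDerivAt_vf_y (b : Fin 2) (x y : ℝ) :
    HasDerivAt (fun y => vf ψ b (x, y)) (dvf ψ 1 b (x, y)) y :=
  (hasDerivAt_pf_y (gr ψ b) x y).div ((hasDerivAt_g2_y ψ x y).const_add 1)
    (one_add_g2_pos ψ _).ne'

lemma div_le (z : ℝ × ℝ) : |dvf ψ 0 0 z + dvf ψ 1 1 z| ≤ 3 * m1 ψ z / (1 + g2 ψ z) := by
  set a := pf (gr ψ 0) z with ha
  set b := pf (gr ψ 1) z with hb
  set p := pf (hs ψ 0 0) z with hp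
  set q := pf (hs ψ 1 0) z with hq
  set r := pf (hs ψ 0 1) z with hr
  set t := pf (hs ψ 1 1) z with ht
  have hs1 := one_add_g2_pos ψ z
  set s := 1 + g2 ψ z with hs
  have hsab : s = 1 + (a ^ 2 + b ^ 2) := rfl
  have e : dvf ψ 0 0 z + dvf ψ 1 1 z = ((p + t) * s - 2 * (a ^ 2 * p + a * b * (q + r) + b ^ 2 * t))
      / s ^ 2 := by
    simp only [dvf, ← ha, ← hb, ← hp, ← hq, ← hr, ← ht, ← hs]
    rw [← add_div]
    congr 1
    ring
  rw [e, abs_div, abs_of_pos (show 0 < s ^ 2 by positivity), div_le_div_iff₀ (by positivity) hs1]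
  have hm : m1 ψ z = |p| + |q| + |r| + |t| := rfl
  rw [hm]
  have h1 : |(p + t) * s - 2 * (a ^ 2 * p + a * b * (q + r) + b ^ 2 * t)|
      ≤ 3 * (|p| + |q| + |r| + |t|) * s := by
    have b1 : |(p + t) * s| ≤ (|p| + |t|) * s := by
      rw [abs_mul, abs_of_pos hs1]
      gcongr
      exact abs_add_le _ _
    have b2 : |a ^ 2 * p| ≤ s * |p| := by
      rw [abs_mul, abs_of_nonneg (sq_nonneg a)]
      gcongr
      nlinarith [sq_nonneg b]
    have b3 : |b ^ 2 * t| ≤ s * |t| := by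
      rw [abs_mul, abs_of_nonneg (sq_nonneg b)]
      gcongr
      nlinarith [sq_nonneg a]
    have b4 : |a * b * (q + r)| ≤ s * (|q| + |r|) := by
      rw [abs_mul]
      have : |a * b| ≤ s := by
        rw [abs_mul]
        nlinarith [sq_nonneg (|a| - |b|), sq_abs a, sq_abs b]
      gcongr
      exact abs_add_le _ _
    calc |(p + t) * s - 2 * (a ^ 2 * p + a * b * (q + r) + b ^ 2 * t)|
        ≤ |(p + t) * s| + |2 * (a ^ 2 * p + a * b * (q + r) + b ^ 2 * t)| := abs_sub _ _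
      _ ≤ (|p| + |t|) * s + 2 * (s * |p| + s * (|q| + |r|) + s * |t|) := by
          gcongr
          rw [abs_mul, abs_two]
          gcongr
          calc |a ^ 2 * p + a * b * (q + r) + b ^ 2 * t|
              ≤ |a ^ 2 * p + a * b * (q + r)| + |b ^ 2 * t| := abs_add_le _ _
            _ ≤ |a ^ 2 * p| + |a * b * (q + r)| + |b ^ 2 * t| := by gcongr; exact abs_add_le _ _
            _ ≤ _ := by gcongr
      _ ≤ 3 * (|p| + |q| + |r| + |t|) * s := by
          nlinarith [abs_nonneg p, abs_nonneg q, abs_nonneg r, abs_nonneg t,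
            mul_nonneg (abs_nonneg q) hs1.le, mul_nonneg (abs_nonneg r) hs1.le]
  calc |(p + t) * s - 2 * (a ^ 2 * p + a * b * (q + r) + b ^ 2 * t)| * s
      ≤ 3 * (|p| + |q| + |r| + |t|) * s * s := by gcongr
    _ = _ := by ring

end

/-- the oscillating factor -/
noncomputable def osc (ψ : P2) (z : ℝ × ℝ) : ℂ := Complex.exp (Complex.I * pf ψ z)

lemma norm_osc (ψ : P2) (z : ℝ × ℝ) : ‖osc ψ z‖ = 1 := by
  unfold osc
  rw [mul_comm]
  exact Complex.norm_exp_ofReal_mul_I _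

lemma continuous_osc (ψ : P2) : Continuous (osc ψ) := by
  unfold osc
  have := continuous_pf ψ
  fun_prop

lemma hasDerivAt_osc_x (ψ : P2) (x y : ℝ) : HasDerivAt (fun x => osc ψ (x, y))
    (osc ψ (x, y) * (Complex.I * pf (gr ψ 0) (x, y))) x := by
  unfold osc
  exact ((hasDerivAt_pf_x ψ x y).ofReal_comp.const_mul Complex.I).cexp

lemma hasDerivAt_osc_y (ψ : P2) (x y : ℝ) : HasDerivAt (fun y => osc ψ (x, y))
    (osc ψ (x, y) * (Complex.I * pf (gr ψ 1) (x, y))) y := by
  unfold osc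
  exact ((hasDerivAt_pf_y ψ x y).ofReal_comp.const_mul Complex.I).cexp

/-- divergence of amplitude times vector field -/
noncomputable def divA (θ : Fin m → StepF) (u : Fin m → RatF D) (ψ : P2) (z : ℝ × ℝ) : ℝ :=
  ((∑ i, ampC θ u i z * (u i).dx z) * vf ψ 0 z + amp θ u z * dvf ψ 0 0 z) +
  ((∑ i, ampC θ u i z * (u i).dy z) * vf ψ 1 z + amp θ u z * dvf ψ 1 1 z)

lemma divA_le (θ : Fin m → StepF) (u : Fin m → RatF D) (ψ : P2) (z : ℝ × ℝ) :
    |divA θ u ψ z| ≤ (∑ i, ampC θ u i z *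
        ((|(u i).dx z| * |pf (gr ψ 0) z| + |(u i).dy z| * |pf (gr ψ 1) z|) / (1 + g2 ψ z))) +
      amp θ u z * (3 * m1 ψ z / (1 + g2 ψ z)) := by
  have hs := one_add_g2_pos ψ z
  have e : divA θ u ψ z = (∑ i, ampC θ u i z * ((u i).dx z * vf ψ 0 z + (u i).dy z * vf ψ 1 z)) +
      amp θ u z * (dvf ψ 0 0 z + dvf ψ 1 1 z) := by
    unfold divA
    rw [Finset.sum_mul, Finset.sum_mul]
    have : ∑ i, ampC θ u i z * ((u i).dx z * vf ψ 0 z + (u i).dy z * vf ψ 1 z)
        = ∑ i, ampC θ u i z * (u i).dx z * vf ψ 0 z + ∑ i, ampC θ u i z * (u i).dy z * vf ψ 1 z := by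
      rw [← Finset.sum_add_distrib]
      apply Finset.sum_congr rfl
      intro i _
      ring
    rw [this]
    ring
  rw [e]
  refine (abs_add_le _ _).trans ?_
  gcongr ?_ + ?_
  · refine (Finset.abs_sum_le_sum_abs _ _).trans (Finset.sum_le_sum fun i _ => ?_)
    rw [abs_mul, abs_of_nonneg (ampC_nonneg θ u i z)]
    refine mul_le_mul_of_nonneg_left ?_ (ampC_nonneg θ u i z)
    refine (abs_add_le _ _).trans ?_
    unfold vf
    rw [abs_mul, abs_mul, abs_div, abs_div, abs_of_pos hs, add_div, mul_div_assoc, mul_div_assoc]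
  · rw [abs_mul, abs_of_nonneg (amp_nonneg θ u z)]
    exact mul_le_mul_of_nonneg_left (div_le ψ z) (amp_nonneg θ u z)

/-- The oscillatory integral is controlled by non-oscillatory ones. -/
theorem osc_le (θ : Fin m → StepF) (u : Fin m → RatF D) (ψ : P2) :
    ‖∫ z in sq, (amp θ u z : ℂ) * osc ψ z‖ₑ ≤
      (∫⁻ z in sq, ENNReal.ofReal (amp θ u z * ((1 + 3 * m1 ψ z) / (1 + g2 ψ z)))) +
      (∑ i, ∫⁻ z in sq, ENNReal.ofReal (ampC θ u i z *
        ((|(u i).dx z| * |pf (gr ψ 0) z| + |(u i).dy z| * |pf (gr ψ 1) z|) / (1 + g2 ψ z)))) +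
      ((∫⁻ y in Icc (-1:ℝ) 1, (ENNReal.ofReal (amp θ u (1, y) * |vf ψ 0 (1, y)|) +
        ENNReal.ofReal (amp θ u (-1, y) * |vf ψ 0 (-1, y)|))) +
      ∫⁻ x in Icc (-1:ℝ) 1, (ENNReal.ofReal (amp θ u (x, 1) * |vf ψ 1 (x, 1)|) +
        ENNReal.ofReal (amp θ u (x, -1) * |vf ψ 1 (x, -1)|))) := by
  set G0 : ℝ × ℝ → ℂ := fun z => ((amp θ u z * vf ψ 0 z : ℝ) : ℂ) * osc ψ z with hG0
  set G1 : ℝ × ℝ → ℂ := fun z => ((amp θ u z * vf ψ 1 z : ℝ) : ℂ) * osc ψ z with hG1
  set a0 : ℝ × ℝ → ℝ := fun z => (∑ i, ampC θ u i z * (u i).dx z) * vf ψ 0 z +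
    amp θ u z * dvf ψ 0 0 z with ha0
  set a1 : ℝ × ℝ → ℝ := fun z => (∑ i, ampC θ u i z * (u i).dy z) * vf ψ 1 z +
    amp θ u z * dvf ψ 1 1 z with ha1
  set g0 : ℝ × ℝ → ℂ := fun z => (a0 z : ℂ) * osc ψ z +
    ((amp θ u z * vf ψ 0 z : ℝ) : ℂ) * (osc ψ z * (Complex.I * pf (gr ψ 0) z)) with hg0
  set g1 : ℝ × ℝ → ℂ := fun z => (a1 z : ℂ) * osc ψ z +
    ((amp θ u z * vf ψ 1 z : ℝ) : ℂ) * (osc ψ z * (Complex.I * pf (gr ψ 1) z)) with hg1
  have cA := continuous_amp θ u
  have cC := continuous_ampC θ u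
  have cO := continuous_osc ψ
  have cV := continuous_vf ψ
  have cdV := continuous_dvf ψ
  have cP := fun p => continuous_pf p
  have c2 := continuous_g2 ψ
  have hdx := fun i => (u i).continuous_dx
  have hdy := fun i => (u i).continuous_dy
  have ca0 : Continuous a0 := by
    apply Continuous.add
    · exact (continuous_finsetSum _ fun i _ => (cC i).mul (hdx i)).mul (cV 0)
    · exact cA.mul (cdV 0 0)
  have ca1 : Continuous a1 := by
    apply Continuous.add
    · exact (continuous_finsetSum _ fun i _ => (cC i).mul (hdy i)).mul (cV 1)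
    · exact cA.mul (cdV 1 1)
  have cg0 : Continuous g0 :=
    ((Complex.continuous_ofReal.comp ca0).mul cO).add
      ((Complex.continuous_ofReal.comp (cA.mul (cV 0))).mul
        (cO.mul (continuous_const.mul (Complex.continuous_ofReal.comp (cP _)))))
  have cg1 : Continuous g1 :=
    ((Complex.continuous_ofReal.comp ca1).mul cO).add
      ((Complex.continuous_ofReal.comp (cA.mul (cV 1))).mul
        (cO.mul (continuous_const.mul (Complex.continuous_ofReal.comp (cP _)))))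
  have h0 : ∀ x y, HasDerivAt (fun x => G0 (x, y)) (g0 (x, y)) x := by
    intro x y
    have h := (((amp_x θ u x y).mul (hasDerivAt_vf_x ψ 0 x y)).ofReal_comp).mul
      (hasDerivAt_osc_x ψ x y)
    exact h
  have h1 : ∀ x y, HasDerivAt (fun y => G1 (x, y)) (g1 (x, y)) y := by
    intro x y
    have h := (((amp_y θ u x y).mul (hasDerivAt_vf_y ψ 1 x y)).ofReal_comp).mul
      (hasDerivAt_osc_y ψ x y)
    exact h
  have hib := ibp_sq h0 h1 cg0 cg1
  have hcomp : IsCompact sq := isCompact_Icc.prod isCompact_Icc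
  set R : ℝ × ℝ → ℂ := fun z => ((amp θ u z / (1 + g2 ψ z) : ℝ) : ℂ) * osc ψ z +
    Complex.I * (divA θ u ψ z * osc ψ z) with hR
  have cR : Continuous R := by
    have cd : Continuous (divA θ u ψ) := ca0.add ca1
    exact ((Complex.continuous_ofReal.comp (cA.div (continuous_const.add c2)
      fun z => (one_add_g2_pos ψ z).ne')).mul cO).add
      (continuous_const.mul ((Complex.continuous_ofReal.comp cd).mul cO))
  have key : ∀ z, (amp θ u z : ℂ) * osc ψ z = R z - Complex.I * (g0 z + g1 z) := by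
    intro z
    have hs : (1 + g2 ψ z : ℝ) ≠ 0 := (one_add_g2_pos ψ z).ne'
    have hsum : vf ψ 0 z * pf (gr ψ 0) z + vf ψ 1 z * pf (gr ψ 1) z
        = 1 - 1 / (1 + g2 ψ z) := by
      unfold vf
      have : g2 ψ z = pf (gr ψ 0) z ^ 2 + pf (gr ψ 1) z ^ 2 := rfl
      rw [eq_sub_iff_add_eq]
      rw [div_mul_eq_mul_div, div_mul_eq_mul_div, ← add_div, ← add_div, div_eq_one_iff_eq hs, this]
      ring
    have e1 : g0 z + g1 z = (divA θ u ψ z : ℂ) * osc ψ z +
        Complex.I * ((amp θ u z * (1 - 1 / (1 + g2 ψ z)) : ℝ) : ℂ) * osc ψ z := by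
      rw [← hsum]
      simp only [hg0, hg1, divA, ha0, ha1]
      push_cast
      ring
    rw [e1, hR]
    simp only
    have hI : Complex.I * (Complex.I * ((amp θ u z * (1 - 1 / (1 + g2 ψ z)) : ℝ) : ℂ) * osc ψ z)
        = -(((amp θ u z * (1 - 1 / (1 + g2 ψ z)) : ℝ) : ℂ) * osc ψ z) := by
      rw [← mul_assoc, ← mul_assoc, Complex.I_mul_I]
      ring
    rw [mul_add, hI]
    have h2 : amp θ u z = amp θ u z / (1 + g2 ψ z) + amp θ u z * (1 - 1 / (1 + g2 ψ z)) := by
      field_simp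
      ring
    have h3 : (amp θ u z : ℂ) = ((amp θ u z / (1 + g2 ψ z) : ℝ) : ℂ) +
        ((amp θ u z * (1 - 1 / (1 + g2 ψ z)) : ℝ) : ℂ) := by
      rw [← Complex.ofReal_add, ← h2]
    rw [h3]
    ring
  have hint : ∫ z in sq, (amp θ u z : ℂ) * osc ψ z
      = (∫ z in sq, R z) - Complex.I * ∫ z in sq, (g0 z + g1 z) := by
    simp_rw [key]
    have i1 : IntegrableOn R sq := cR.continuousOn.integrableOn_compact hcomp
    have i2 : IntegrableOn (fun z => Complex.I * (g0 z + g1 z)) sq :=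
      (continuous_const.mul (cg0.add cg1)).continuousOn.integrableOn_compact hcomp
    rw [integral_sub i1 i2, integral_const_mul]
  rw [hint]
  refine enorm_sub_le.trans ?_
  gcongr ?_ + ?_
  · refine (enorm_integral_le_lintegral_enorm _).trans ?_
    rw [← lintegral_finsetSum']
    · rw [← lintegral_add_right']
      · apply lintegral_mono
        intro z
        simp only
        have hs := one_add_g2_pos ψ z
        have hn : ∀ i, 0 ≤ ampC θ u i z * ((|(u i).dx z| * |pf (gr ψ 0) z| +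
            |(u i).dy z| * |pf (gr ψ 1) z|) / (1 + g2 ψ z)) := fun i =>
          mul_nonneg (ampC_nonneg θ u i z) (by positivity)
        rw [← ENNReal.ofReal_sum_of_nonneg (fun i _ => hn i), ← ENNReal.ofReal_add
          (mul_nonneg (amp_nonneg θ u z) (by have := m1_nonneg ψ z; positivity))
          (Finset.sum_nonneg fun i _ => hn i), ← ofReal_norm]
        apply ENNReal.ofReal_le_ofReal
        calc ‖R z‖ ≤ ‖((amp θ u z / (1 + g2 ψ z) : ℝ) : ℂ) * osc ψ z‖ +
              ‖Complex.I * (divA θ u ψ z * osc ψ z)‖ := norm_add_le _ _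
          _ = amp θ u z / (1 + g2 ψ z) + |divA θ u ψ z| := by
              rw [norm_mul, norm_mul, norm_mul, norm_osc, Complex.norm_I, Complex.norm_real,
                Complex.norm_real, Real.norm_eq_abs, Real.norm_eq_abs, mul_one, mul_one, one_mul,
                abs_of_nonneg (div_nonneg (amp_nonneg θ u z) hs.le)]
          _ ≤ _ := by
              have := divA_le θ u ψ z
              have e : amp θ u z * ((1 + 3 * m1 ψ z) / (1 + g2 ψ z)) = amp θ u z / (1 + g2 ψ z) +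
                amp θ u z * (3 * m1 ψ z / (1 + g2 ψ z)) := by
                rw [add_div, mul_add, mul_one_div]
              rw [e]
              linarith
      · apply Measurable.aemeasurable
        refine Finset.measurable_sum _ fun i _ => ?_
        apply Measurable.ennreal_ofReal
        apply Continuous.measurable
        refine (cC i).mul (Continuous.div ?_ (continuous_const.add c2)
          fun z => (one_add_g2_pos ψ z).ne')
        exact ((hdx i).abs.mul (cP _).abs).add ((hdy i).abs.mul (cP _).abs)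
    · intro i _
      apply Measurable.aemeasurable
      apply Measurable.ennreal_ofReal
      apply Continuous.measurable
      refine (cC i).mul (Continuous.div ?_ (continuous_const.add c2)
        fun z => (one_add_g2_pos ψ z).ne')
      exact ((hdx i).abs.mul (cP _).abs).add ((hdy i).abs.mul (cP _).abs)
  · rw [enorm_mul]
    have hIn : ‖Complex.I‖ₑ = 1 := by
      rw [← ofReal_norm, Complex.norm_I, ENNReal.ofReal_one]
    rw [hIn, one_mul]
    refine hib.trans ?_
    have hn : ∀ (v : ℝ × ℝ → ℝ) (z : ℝ × ℝ), ‖((amp θ u z * v z : ℝ) : ℂ) * osc ψ z‖ₑ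
        = ENNReal.ofReal (amp θ u z * |v z|) := by
      intro v z
      rw [← ofReal_norm, norm_mul, norm_osc, mul_one, Complex.norm_real, Real.norm_eq_abs, abs_mul,
        abs_of_nonneg (amp_nonneg θ u z)]
    simp only [hG0, hG1, hn]
    exact le_rfl

end Pool.Agent.H.MP_b7167f_an
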