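import Mathlib

open MeasureTheory Set
open scoped ENNReal

namespace Pool.Agent.H.MP_b7167f_an

/-- Area inequality for maps whose regular points have multiplicity at most `N`. -/
theorem area_mult {E : Type*} [NormedAddCommGroup E] [NormedSpace ℝ E] [FiniteDimensional ℝ E]
    [MeasurableSpace E] [BorelSpace E] (μ : Measure E) [μ.IsAddHaarMeasure]
    {f : E → E} {f' : E → E →L[ℝ] E} {s : Set E} (hs : MeasurableSet s)
    (hf : ∀ x ∈ s, HasFDerivWithinAt f (f' x) s x) (hdet : Measurable fun x => (f' x).det)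
    {N : ℕ} (hN : ∀ y, {x ∈ s | f x = y ∧ (f' x).det ≠ 0}.encard ≤ N)
    {g : E → ℝ≥0∞} (hg : Measurable g) :
    ∫⁻ x in s, ENNReal.ofReal |(f' x).det| * g (f x) ∂μ ≤ N * ∫⁻ y, g y ∂μ := by
  classical
  have hDm : MeasurableSet {x | (f' x).det ≠ 0} := hdet (measurableSet_singleton 0).compl
  set s1 : Set E := s ∩ {x | (f' x).det ≠ 0} with hs1
  have hs1m : MeasurableSet s1 := hs.inter hDm
  have hstep : ∫⁻ x in s, ENNReal.ofReal |(f' x).det| * g (f x) ∂μ
      = ∫⁻ x in s1, ENNReal.ofReal |(f' x).det| * g (f x) ∂μ := by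
    rw [← lintegral_inter_add_sdiff _ s hDm]
    have h0 : ∫⁻ x in s \ {x | (f' x).det ≠ 0}, ENNReal.ofReal |(f' x).det| * g (f x) ∂μ = 0 := by
      apply setLIntegral_eq_zero (hs.diff hDm)
      intro x hx
      have : (f' x).det = 0 := by
        by_contra h
        exact hx.2 h
      simp [this]
    rw [h0, add_zero]
  rw [hstep]
  have hr : ∀ A : E →L[ℝ] E, ∃ r : NNReal, r ≠ 0 ∧ (A.det ≠ 0 → ∀ (t : Set E),
      ApproximatesLinearOn f A t r → InjOn f t) := by
    intro A
    by_cases hA : A.det = 0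
    · exact ⟨1, one_ne_zero, fun h => absurd hA h⟩
    · rcases subsingleton_or_nontrivial E with hE | hE
      · exact ⟨1, one_ne_zero, fun _ t _ => fun x _ y _ _ => Subsingleton.elim x y⟩
      · let B := A.toContinuousLinearEquivOfDetNeZero hA
        have hB : (B : E →L[ℝ] E) = A := rfl
        have hpos : 0 < ‖(B.symm : E →L[ℝ] E)‖₊⁻¹ := by
          have := B.norm_symm_pos
          have h2 : 0 < ‖(B.symm : E →L[ℝ] E)‖₊ := by exact_mod_cast this
          positivity
        refine ⟨‖(B.symm : E →L[ℝ] E)‖₊⁻¹ / 2, ?_, fun _ t ht => ?_⟩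
        · positivity
        · have ht' : ApproximatesLinearOn f (B : E →L[ℝ] E) t (‖(B.symm : E →L[ℝ] E)‖₊⁻¹ / 2) := ht
          exact ht'.injOn (Or.inr (NNReal.half_lt_self hpos.ne'))
  choose r hr0 hr1 using hr
  have hf1 : ∀ x ∈ s1, HasFDerivWithinAt f (f' x) s1 x := fun x hx =>
    (hf x hx.1).mono inter_subset_left
  obtain ⟨t, A, tdisj, tmeas, tcov, happrox, hAy⟩ :=
    exists_partition_approximatesLinearOn_of_hasFDerivWithinAt f s1 f' hf1 r hr0
  rcases s1.eq_empty_or_nonempty with hemp | hne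
  · rw [hemp]; simp
  have hinj : ∀ n, InjOn f (s1 ∩ t n) := by
    intro n
    obtain ⟨y, hy, hAn⟩ := hAy hne n
    refine hr1 (A n) ?_ _ (happrox n)
    rw [hAn]; exact hy.2
  have hBm : ∀ n, MeasurableSet (s1 ∩ t n) := fun n => hs1m.inter (tmeas n)
  have hBd : Pairwise (Function.onFun Disjoint fun n => s1 ∩ t n) :=
    pairwise_disjoint_mono tdisj fun i => inter_subset_right
  have hU : s1 = ⋃ n, s1 ∩ t n := by
    rw [← inter_iUnion]
    exact (inter_eq_left.2 tcov).symm
  have hfB : ∀ n, ∀ x ∈ s1 ∩ t n, HasFDerivWithinAt f (f' x) (s1 ∩ t n) x := fun n x hx =>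
    (hf1 x hx.1).mono inter_subset_left
  have himg : ∀ n, MeasurableSet (f '' (s1 ∩ t n)) := fun n =>
    measurable_image_of_fderivWithin (hBm n) (hfB n) (hinj n)
  calc ∫⁻ x in s1, ENNReal.ofReal |(f' x).det| * g (f x) ∂μ
      = ∫⁻ x in ⋃ n, s1 ∩ t n, ENNReal.ofReal |(f' x).det| * g (f x) ∂μ := by rw [← hU]
    _ = ∑' n, ∫⁻ x in s1 ∩ t n, ENNReal.ofReal |(f' x).det| * g (f x) ∂μ :=
        lintegral_iUnion hBm hBd _
    _ = ∑' n, ∫⁻ y, (f '' (s1 ∩ t n)).indicator g y ∂μ := by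
        congr 1
        ext1 n
        rw [← lintegral_image_eq_lintegral_abs_det_fderiv_mul μ (hBm n) (hfB n) (hinj n) g,
          lintegral_indicator (himg n)]
    _ = ∫⁻ y, ∑' n, (f '' (s1 ∩ t n)).indicator g y ∂μ := by
        rw [lintegral_tsum]
        exact fun n => (hg.indicator (himg n)).aemeasurable
    _ ≤ ∫⁻ y, N * g y ∂μ := by
        apply lintegral_mono
        intro y
        show ∑' n, (f '' (s1 ∩ t n)).indicator g y ≤ N * g y
        rw [ENNReal.tsum_eq_iSup_sum]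
        apply iSup_le
        intro F
        have h1 : ∑ n ∈ F, (f '' (s1 ∩ t n)).indicator g y
            = ((F.filter fun n => y ∈ f '' (s1 ∩ t n)).card : ℝ≥0∞) * g y := by
          rw [← nsmul_eq_mul, ← Finset.sum_const, Finset.sum_filter]
          apply Finset.sum_congr rfl
          intro n _
          simp only [indicator]
        rw [h1]
        gcongr
        have h2 : ((F.filter fun n => y ∈ f '' (s1 ∩ t n)).card : ℕ∞) ≤ N := by
          have hch : ∀ n : ℕ, ∃ x : E, y ∈ f '' (s1 ∩ t n) → x ∈ s1 ∩ t n ∧ f x = y := by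
            intro n
            by_cases h : y ∈ f '' (s1 ∩ t n)
            · obtain ⟨x, hx, hxy⟩ := h
              exact ⟨x, fun _ => ⟨hx, hxy⟩⟩
            · exact ⟨y, fun h' => absurd h' h⟩
          choose φ hφ using hch
          refine le_trans ?_ (hN y)
          rw [← Set.encard_coe_eq_coe_finsetCard]
          apply Set.encard_le_encard_of_injOn (f := φ)
          · intro n hn
            have hn' : y ∈ f '' (s1 ∩ t n) := by simpa using (Finset.mem_filter.1 hn).2
            obtain ⟨h3, h4⟩ := hφ n hn'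
            exact ⟨h3.1.1, h4, h3.1.2⟩
          · intro n hn m hm hnm
            have hn' : y ∈ f '' (s1 ∩ t n) := by simpa using (Finset.mem_filter.1 hn).2
            have hm' : y ∈ f '' (s1 ∩ t m) := by simpa using (Finset.mem_filter.1 hm).2
            have h3 := (hφ n hn').1
            have h4 := (hφ m hm').1
            by_contra hne'
            have := Set.disjoint_left.1 (hBd hne') h3
            apply this
            rw [hnm]; exact h4
        exact_mod_cast h2
    _ = N * ∫⁻ y, g y ∂μ := lintegral_const_mul _ hg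

/-- One-variable version. -/
theorem area_mult_one {u u' : ℝ → ℝ} {s : Set ℝ} (hs : MeasurableSet s)
    (hu : ∀ x ∈ s, HasDerivWithinAt u (u' x) s x) (hu' : Measurable u')
    {N : ℕ} (hN : ∀ y, {x ∈ s | u x = y ∧ u' x ≠ 0}.encard ≤ N)
    {g : ℝ → ℝ≥0∞} (hg : Measurable g) :
    ∫⁻ x in s, ENNReal.ofReal |u' x| * g (u x) ≤ N * ∫⁻ y, g y := by
  have hd : ∀ x, (ContinuousLinearMap.toSpanSingleton ℝ (u' x)).det = u' x := by
    intro x
    simp
  have := area_mult (volume : Measure ℝ) (f := u)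
    (f' := fun x => ContinuousLinearMap.toSpanSingleton ℝ (u' x)) (s := s) hs
    (fun x hx => (hu x hx).hasFDerivWithinAt) (by simpa [hd] using hu')
    (N := N) (by simpa only [hd] using hN) hg
  simpa only [hd] using this

/-- Version for maps `ℝ × ℝ → ℝ × ℝ`, `z ↦ (u z, v z)`. -/
theorem area_mult_two {u v : ℝ × ℝ → ℝ} {a b c d : ℝ × ℝ → ℝ} {s : Set (ℝ × ℝ)}
    (hs : MeasurableSet s)
    (hu : ∀ z ∈ s, HasFDerivAt u (a z • ContinuousLinearMap.fst ℝ ℝ ℝ +
      b z • ContinuousLinearMap.snd ℝ ℝ ℝ) z)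
    (hv : ∀ z ∈ s, HasFDerivAt v (c z • ContinuousLinearMap.fst ℝ ℝ ℝ +
      d z • ContinuousLinearMap.snd ℝ ℝ ℝ) z)
    (hJ : Measurable fun z => a z * d z - b z * c z)
    {N : ℕ} (hN : ∀ y w : ℝ, {z ∈ s | u z = y ∧ v z = w ∧ a z * d z - b z * c z ≠ 0}.encard ≤ N)
    {g : ℝ × ℝ → ℝ≥0∞} (hg : Measurable g) :
    ∫⁻ z in s, ENNReal.ofReal |a z * d z - b z * c z| * g (u z, v z) ≤ N * ∫⁻ y, g y := by
  have hd : ∀ a b c d : ℝ, ((a • ContinuousLinearMap.fst ℝ ℝ ℝ +
      b • ContinuousLinearMap.snd ℝ ℝ ℝ).prod (c • ContinuousLinearMap.fst ℝ ℝ ℝ +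
      d • ContinuousLinearMap.snd ℝ ℝ ℝ)).det = a * d - b * c := by
    intro a b c d
    have h1 : ((a • ContinuousLinearMap.fst ℝ ℝ ℝ +
      b • ContinuousLinearMap.snd ℝ ℝ ℝ).prod (c • ContinuousLinearMap.fst ℝ ℝ ℝ +
      d • ContinuousLinearMap.snd ℝ ℝ ℝ)) = LinearMap.toContinuousLinearMap
        (Matrix.toLin (Module.Basis.finTwoProd ℝ) (Module.Basis.finTwoProd ℝ) !![a, b; c, d]) := by
      rw [Matrix.toLin_finTwoProd_toContinuousLinearMap]
    rw [h1]
    simp [ContinuousLinearMap.det, LinearMap.det_toLin, Matrix.det_fin_two_of]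
  have := area_mult (volume : Measure (ℝ × ℝ)) (f := fun z => (u z, v z))
    (f' := fun z => ((a z • ContinuousLinearMap.fst ℝ ℝ ℝ +
      b z • ContinuousLinearMap.snd ℝ ℝ ℝ).prod (c z • ContinuousLinearMap.fst ℝ ℝ ℝ +
      d z • ContinuousLinearMap.snd ℝ ℝ ℝ))) (s := s) hs
    (fun x hx => ((hu x hx).prodMk (hv x hx)).hasFDerivWithinAt) (by simpa only [hd] using hJ)
    (N := N) (by
      rintro ⟨y, w⟩
      refine le_trans (Set.encard_le_encard ?_) (hN y w)
      rintro z ⟨h1, h2, h3⟩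
      rw [hd] at h3
      simp only [Prod.mk.injEq] at h2
      exact ⟨h1, h2.1, h2.2, h3⟩) hg
  simpa only [hd] using this

end Pool.Agent.H.MP_b7167f_an
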