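import Mathlib

open MvPolynomial

namespace Pool.Agent.H.MP_b7167f_an

/-- Resultant of two polynomials without common factor over a domain is nonzero. -/
theorem bez_resultant_ne_zero {R : Type*} [CommRing R] [IsDomain R] (A B : Polynomial R)
    (hA : A ≠ 0) (hB : B ≠ 0)
    (hAB : ∀ Q, A ∣ B * Q → A ∣ Q) :
    Polynomial.resultant A B ≠ 0 := by
  intro h0
  unfold Polynomial.resultant at h0
  rw [← Matrix.exists_mulVec_eq_zero_iff] at h0
  obtain ⟨v, hv0, hv⟩ := h0
  set b₁ := (((Polynomial.degreeLT.basis R A.natDegree).prod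
    (Polynomial.degreeLT.basis R B.natDegree)).reindex finSumFinEquiv) with hb₁
  set b₂ := Polynomial.degreeLT.basis R (A.natDegree + B.natDegree) with hb₂
  set L := Polynomial.sylvesterMap A B le_rfl le_rfl with hL
  have hM := Polynomial.toMatrix_sylvesterMap' A B le_rfl le_rfl
  set x := b₁.equivFun.symm v with hx
  have hx0 : x ≠ 0 := by
    rw [hx]
    intro hh
    exact hv0 ((LinearEquiv.map_eq_zero_iff b₁.equivFun.symm).1 hh)
  have hLx : L x = 0 := by
    have h1 : b₂.equivFun (L x) = 0 := by
      have h2 := LinearMap.toMatrix_mulVec_repr b₁ b₂ L x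
      have h3 : (⇑(b₁.repr x) : Fin (A.natDegree + B.natDegree) → R) = v := by
        rw [hx]
        ext i
        have := b₁.equivFun.apply_symm_apply v
        exact congrFun this i
      rw [h3] at h2
      rw [hM, hv] at h2
      ext i
      have := congrFun h2 i
      simpa using this.symm
    exact (LinearEquiv.map_eq_zero_iff _).1 h1
  have hval : A * (x.2 : Polynomial R) + B * (x.1 : Polynomial R) = 0 := by
    have := congrArg Subtype.val hLx
    simpa [hL] using this
  have hd1 : A ∣ B * (x.1 : Polynomial R) := by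
    refine ⟨-(x.2 : Polynomial R), ?_⟩
    linear_combination hval
  have hd2 := hAB _ hd1
  have hx1 : (x.1 : Polynomial R) = 0 := by
    by_contra hne
    have h4 : ((x.1 : Polynomial R)).degree < (A.natDegree : WithBot ℕ) :=
      Polynomial.mem_degreeLT.1 x.1.2
    have h5 := Polynomial.degree_le_of_dvd hd2 hne
    rw [Polynomial.degree_eq_natDegree hA] at h5
    exact absurd (lt_of_le_of_lt h5 h4) (lt_irrefl _)
  have hx2 : (x.2 : Polynomial R) = 0 := by
    rw [hx1] at hval
    simpa [hA] using hval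
  apply hx0
  ext1
  · exact Subtype.ext hx1
  · exact Subtype.ext hx2

/-- Total degree of a determinant. -/
theorem bez_totalDegree_det {n : ℕ} {m : ℕ} {σ : Type*} (M : Matrix (Fin m) (Fin m) (MvPolynomial σ ℝ))
    (hM : ∀ i j, (M i j).totalDegree ≤ n) : M.det.totalDegree ≤ m * n := by
  rw [Matrix.det_apply]
  refine (totalDegree_finsetSum _ _).trans (Finset.sup_le fun s _ => ?_)
  have h1 : (Equiv.Perm.sign s • ∏ i, M (s i) i).totalDegree ≤ (∏ i, M (s i) i).totalDegree := by
    rcases Int.units_eq_one_or (Equiv.Perm.sign s) with h | h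
    · rw [h, one_smul]
    · rw [h, Units.neg_smul, one_smul, totalDegree_neg]
  refine h1.trans ((totalDegree_finsetProd _ _).trans ?_)
  calc ∑ i : Fin m, (M (s i) i).totalDegree ≤ ∑ i : Fin m, n := Finset.sum_le_sum fun i _ => hM _ _
    _ = m * n := by simp

/-- Zeros of a nonzero polynomial in one variable (as an `MvPolynomial (Fin 1)`). -/
theorem bez_one_var (r : MvPolynomial (Fin 1) ℝ) (hr : r ≠ 0) :
    ∃ T : Finset ℝ, T.card ≤ r.totalDegree ∧ ∀ s : Fin 1 → ℝ, eval s r = 0 → s 0 ∈ T := by
  classical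
  set f : MvPolynomial (Fin 1) ℝ →ₐ[ℝ] Polynomial ℝ := aeval (fun _ => Polynomial.X) with hf
  have hinj : f r ≠ 0 := by
    intro h
    apply hr
    have h2 : (Polynomial.aeval (X 0 : MvPolynomial (Fin 1) ℝ)) (f r) = r := by
      have : ((Polynomial.aeval (X 0 : MvPolynomial (Fin 1) ℝ)).comp f) = AlgHom.id ℝ _ := by
        apply MvPolynomial.algHom_ext
        intro i
        have : i = 0 := Subsingleton.elim _ _
        subst this
        simp [hf]
      exact DFunLike.congr_fun this r
    rw [h] at h2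
    simpa using h2.symm
  refine ⟨(f r).roots.toFinset, ?_, ?_⟩
  · refine (Multiset.toFinset_card_le _).trans ((Polynomial.card_roots' _).trans ?_)
    have := aeval_natDegree_le r le_rfl (fun _ => (Polynomial.X : Polynomial ℝ)) (n := 1)
      (fun _ => Polynomial.natDegree_X_le)
    simpa using this
  · intro s hs
    rw [Multiset.mem_toFinset, Polynomial.mem_roots hinj, Polynomial.IsRoot.def]
    have h3 : Polynomial.eval (s 0) (f r) = eval s r := by
      have : ((Polynomial.aeval (s 0)).comp f) = (aeval s : MvPolynomial (Fin 1) ℝ →ₐ[ℝ] ℝ) := by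
        apply MvPolynomial.algHom_ext
        intro i
        have : i = 0 := Subsingleton.elim _ _
        subst this
        simp [hf]
      have := DFunLike.congr_fun this r
      simpa [Polynomial.coe_aeval_eq_eval, MvPolynomial.coe_aeval_eq_eval] using this
    rw [h3, hs]

/-- Elimination of the variable `0`. -/
theorem bez_elim (D : ℕ) (a b : MvPolynomial (Fin 2) ℝ) (ha : a ≠ 0) (hb : b ≠ 0)
    (hab : ∀ q, a ∣ b * q → a ∣ q) (haD : a.totalDegree ≤ D) (hbD : b.totalDegree ≤ D) :
    ∃ T : Finset ℝ, T.card ≤ 2 * D * D + D ∧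
      ∀ z : Fin 2 → ℝ, eval z a = 0 → eval z b = 0 → z 1 ∈ T := by
  classical
  set e := finSuccEquiv ℝ 1 with he
  set A := e a with hA
  set B := e b with hB
  have hA0 : A ≠ 0 := by rw [hA]; simpa using ha
  have hB0 : B ≠ 0 := by rw [hB]; simpa using hb
  have hAn : A.natDegree ≤ D := by
    rw [hA, he, natDegree_finSuccEquiv]
    exact (degreeOf_le_totalDegree _ _).trans haD
  have hBn : B.natDegree ≤ D := by
    rw [hB, he, natDegree_finSuccEquiv]
    exact (degreeOf_le_totalDegree _ _).trans hbD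
  have hcoef : ∀ p : MvPolynomial (Fin 2) ℝ, p.totalDegree ≤ D → ∀ i,
      ((e p).coeff i).totalDegree ≤ D := by
    intro p hp i
    by_cases h : (e p).coeff i = 0
    · rw [h]; simp
    · have := totalDegree_coeff_finSuccEquiv_add_le p i h
      exact (Nat.le_of_add_right_le this).trans hp
  have hev : ∀ (z : Fin 2 → ℝ) (p : MvPolynomial (Fin 2) ℝ), eval z p =
      Polynomial.eval (z 0) (Polynomial.map (eval (Fin.tail z)) (e p)) := by
    intro z p
    have := eval_eq_eval_mv_eval' (Fin.tail z) (z 0) p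
    rwa [Fin.cons_self_tail] at this
  by_cases hdeg : A.natDegree = 0
  · -- `a` depends only on the variable `1`
    obtain ⟨r, hr⟩ := Polynomial.natDegree_eq_zero.1 hdeg
    have hr0 : r ≠ 0 := by
      rintro rfl
      exact hA0 (by rw [← hr]; simp)
    obtain ⟨T, hT, hTz⟩ := bez_one_var r hr0
    refine ⟨T, ?_, ?_⟩
    · have : r = A.coeff 0 := by rw [← hr]; simp
      have h2 := hcoef a haD 0
      rw [← hA, ← this] at h2
      have := hT.trans h2
      nlinarith
    · intro z hz _
      have h1 := hev z a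
      rw [← hA, ← hr, hz] at h1
      have h2 : eval (Fin.tail z) r = 0 := by simpa using h1.symm
      exact hTz _ h2
  · -- the resultant
    set r := Polynomial.resultant A B with hrdef
    have hr0 : r ≠ 0 := by
      apply bez_resultant_ne_zero A B hA0 hB0
      intro Q hQ
      have h1 : a ∣ b * e.symm Q := by
        obtain ⟨W, hW⟩ := hQ
        refine ⟨e.symm W, ?_⟩
        apply e.injective
        rw [map_mul, map_mul, AlgEquiv.apply_symm_apply, AlgEquiv.apply_symm_apply]
        exact hW
      obtain ⟨w, hw⟩ := hab _ h1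
      refine ⟨e w, ?_⟩
      have := congrArg e hw
      rwa [AlgEquiv.apply_symm_apply, map_mul] at this
    have hrdeg : r.totalDegree ≤ (A.natDegree + B.natDegree) * D := by
      apply bez_totalDegree_det
      intro i j
      rw [Polynomial.sylvester, Matrix.of_apply]
      refine Fin.addCases (fun j => ?_) (fun j => ?_) j
      · rw [Fin.addCases_left]
        split_ifs
        · exact hcoef b hbD _
        · simp
      · rw [Fin.addCases_right]
        split_ifs
        · exact hcoef a haD _
        · simp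
    obtain ⟨T, hT, hTz⟩ := bez_one_var r hr0
    refine ⟨T, ?_, ?_⟩
    · have h1 : (A.natDegree + B.natDegree) * D ≤ (D + D) * D :=
        Nat.mul_le_mul (by omega) le_rfl
      have := hT.trans (hrdeg.trans h1)
      nlinarith
    · intro z hz hz'
      obtain ⟨P, Q, _, _, hPQ⟩ := Polynomial.exists_mul_add_mul_eq_C_resultant A B le_rfl le_rfl
        (Or.inl hdeg)
      have h1 := hev z a
      have h2 := hev z b
      rw [hz, ← hA] at h1
      rw [hz', ← hB] at h2
      have h3 := congrArg (fun p => Polynomial.eval (z 0) (Polynomial.map (eval (Fin.tail z)) p)) hPQ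
      simp only [Polynomial.map_add, Polynomial.map_mul, Polynomial.eval_add,
        Polynomial.eval_mul, ← h1, ← h2, zero_mul, add_zero, Polynomial.map_C,
        Polynomial.eval_C] at h3
      exact hTz _ h3.symm

/-- Relatively prime plane polynomials have boundedly many common zeros. -/
theorem bez_coprime (D : ℕ) (a b : MvPolynomial (Fin 2) ℝ) (ha : a ≠ 0) (hb : b ≠ 0)
    (hab : IsRelPrime a b) (haD : a.totalDegree ≤ D) (hbD : b.totalDegree ≤ D) :
    {z : Fin 2 → ℝ | eval z a = 0 ∧ eval z b = 0}.encard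
      ≤ ((2 * D * D + D) * (2 * D * D + D) : ℕ) := by
  classical
  have hdiv : ∀ q, a ∣ b * q → a ∣ q := fun q hq => hab.dvd_of_dvd_mul_left hq
  obtain ⟨T1, hT1, hT1z⟩ := bez_elim D a b ha hb hdiv haD hbD
  -- swap the variables
  set s : MvPolynomial (Fin 2) ℝ ≃ₐ[ℝ] MvPolynomial (Fin 2) ℝ :=
    renameEquiv ℝ (Equiv.swap (0 : Fin 2) 1) with hs
  have hsa : s a ≠ 0 := by simpa using ha
  have hsb : s b ≠ 0 := by simpa using hb
  have hsdiv : ∀ q, s a ∣ s b * q → s a ∣ q := by
    intro Q hQ
    have h1 : a ∣ b * s.symm Q := by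
      obtain ⟨W, hW⟩ := hQ
      refine ⟨s.symm W, ?_⟩
      apply s.injective
      rw [map_mul, map_mul, AlgEquiv.apply_symm_apply, AlgEquiv.apply_symm_apply]
      exact hW
    obtain ⟨w, hw⟩ := hdiv _ h1
    refine ⟨s w, ?_⟩
    have := congrArg s hw
    rwa [AlgEquiv.apply_symm_apply, map_mul] at this
  have hsD : ∀ p : MvPolynomial (Fin 2) ℝ, p.totalDegree ≤ D → (s p).totalDegree ≤ D := by
    intro p hp
    have : (rename (Equiv.swap (0 : Fin 2) 1) p).totalDegree ≤ p.totalDegree :=
      totalDegree_rename_le _ _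
    exact le_trans this hp
  obtain ⟨T0, hT0, hT0z⟩ := bez_elim D (s a) (s b) hsa hsb hsdiv (hsD a haD) (hsD b hbD)
  have hevs : ∀ (z : Fin 2 → ℝ) (p : MvPolynomial (Fin 2) ℝ),
      eval (z ∘ (Equiv.swap (0 : Fin 2) 1)) (s p) = eval z p := by
    intro z p
    have h1 : s p = rename (Equiv.swap (0 : Fin 2) 1) p := rfl
    rw [h1, eval_rename]
    congr 2
    ext i
    simp
  have hsub : {z : Fin 2 → ℝ | eval z a = 0 ∧ eval z b = 0} ⊆
      ((T0 ×ˢ T1).image (fun p : ℝ × ℝ => (![p.1, p.2] : Fin 2 → ℝ)) : Finset (Fin 2 → ℝ)) := by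
    rintro z ⟨hz, hz'⟩
    have h1 := hT1z z hz hz'
    have h0 := hT0z (z ∘ (Equiv.swap (0 : Fin 2) 1)) (by rw [hevs]; exact hz)
      (by rw [hevs]; exact hz')
    have h0' : z 0 ∈ T0 := by simpa using h0
    rw [Finset.coe_image]
    refine ⟨(z 0, z 1), ?_, ?_⟩
    · simp [h0', h1]
    · ext i
      fin_cases i <;> simp
  refine (Set.encard_le_encard hsub).trans ?_
  rw [Set.encard_coe_eq_coe_finsetCard]
  have h2 : ((T0 ×ˢ T1).image (fun p : ℝ × ℝ => (![p.1, p.2] : Fin 2 → ℝ))).card
      ≤ (2 * D * D + D) * (2 * D * D + D) := by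
    refine Finset.card_image_le.trans ?_
    rw [Finset.card_product]
    exact Nat.mul_le_mul hT0 hT1
  exact_mod_cast h2

/-- Nondegenerate common real zeros of two real polynomials in two variables: their number is
bounded in terms of the degrees only. -/
theorem bezout_nondeg (D : ℕ) : ∃ N : ℕ, ∀ p q : MvPolynomial (Fin 2) ℝ,
    p.totalDegree ≤ D → q.totalDegree ≤ D →
    {z : Fin 2 → ℝ | eval z p = 0 ∧ eval z q = 0 ∧
      eval z (pderiv 0 p) * eval z (pderiv 1 q) - eval z (pderiv 1 p) * eval z (pderiv 0 q) ≠ 0}.encard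
      ≤ N := by
  refine ⟨(2 * D * D + D) * (2 * D * D + D), ?_⟩
  intro p q hp hq
  by_cases hp0 : p = 0
  · subst hp0
    simp
  by_cases hq0 : q = 0
  · subst hq0
    simp
  obtain ⟨a, b, g, hab, hga, hgb⟩ := UniqueFactorizationMonoid.exists_reduced_factors p hp0 q
  have ha0 : a ≠ 0 := by
    rintro rfl
    exact hp0 (by rw [← hga, mul_zero])
  have hb0 : b ≠ 0 := by
    rintro rfl
    exact hq0 (by rw [← hgb, mul_zero])
  have hg0 : g ≠ 0 := by
    rintro rfl
    exact hp0 (by rw [← hga, zero_mul])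
  have haD : a.totalDegree ≤ D := by
    have := totalDegree_mul_of_isDomain hg0 ha0
    rw [hga] at this
    omega
  have hbD : b.totalDegree ≤ D := by
    have := totalDegree_mul_of_isDomain hg0 hb0
    rw [hgb] at this
    omega
  refine (Set.encard_le_encard ?_).trans (bez_coprime D a b ha0 hb0 hab haD hbD)
  rintro z ⟨hzp, hzq, hdet⟩
  have hgz : eval z g ≠ 0 := by
    intro hgz
    apply hdet
    rw [← hga, ← hgb]
    simp only [Derivation.leibniz, map_add, smul_eq_mul, map_mul, hgz, zero_mul, zero_add]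
    ring
  rw [← hga, map_mul] at hzp
  rw [← hgb, map_mul] at hzq
  exact ⟨(mul_eq_zero.1 hzp).resolve_left hgz, (mul_eq_zero.1 hzq).resolve_left hgz⟩

end Pool.Agent.H.MP_b7167f_an
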