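import Mathlib
import Pool.Agent.H.MP_b7167f_an.AlgDef
import Pool.Agent.H.MP_b7167f_an.BezoutND
import Pool.Agent.H.MP_b7167f_an.AreaMult

open MvPolynomial MeasureTheory Set
open scoped ENNReal

namespace Pool.Agent.H.MP_b7167f_an

variable {D : ℕ}

open ContinuousLinearMap in
lemma RatF.hasFDerivAt_val (u : RatF D) (z : ℝ × ℝ) :
    HasFDerivAt u.val (u.dx z • fst ℝ ℝ ℝ + u.dy z • snd ℝ ℝ ℝ) z := by
  have hA := hasFDerivAt_pf u.A z
  have hB := hasFDerivAt_pf u.B z
  have h := hA.mul ((hasDerivAt_inv (u.pos z).ne').comp_hasFDerivAt z hB)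
  have h2 : u.val = fun w => pf u.A w * (pf u.B w)⁻¹ := by
    funext w
    simp [RatF.val, div_eq_mul_inv]
  rw [h2]
  refine h.congr_fderiv ?_
  have hp := (u.pos z).ne'
  apply ContinuousLinearMap.ext
  rintro ⟨x, y⟩
  simp [RatF.dx, RatF.dy]
  field_simp
  ring

lemma totalDegree_sub_C_mul_le (u : RatF D) (y : ℝ) : (u.A - C y * u.B).totalDegree ≤ D := by
  refine (totalDegree_sub _ _).trans (max_le u.hA ?_)
  refine (totalDegree_mul _ _).trans ?_
  rw [totalDegree_C, zero_add]
  exact u.hB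

lemma pf_pderiv_C_mul (i : Fin 2) (y : ℝ) (p : P2) (z : ℝ × ℝ) :
    pf (pderiv i (C y * p)) z = y * pf (pderiv i p) z := by
  rw [pderiv_C_mul]
  simp [pf]

/-- two-dimensional change of variables inequality for rational functions, uniform in the
coefficients -/
theorem plane_ineq (D : ℕ) : ∃ N : ℕ, ∀ (u : RatF D) (F : P2), F.totalDegree ≤ D →
    ∀ g : ℝ × ℝ → ℝ≥0∞, Measurable g →
    ∫⁻ z in sq, ENNReal.ofReal |u.dx z * pf (pderiv 1 F) z - u.dy z * pf (pderiv 0 F) z| *
      g (u.val z, pf F z) ≤ N * ∫⁻ y, g y := by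
  obtain ⟨N, hN⟩ := bezout_nondeg D
  refine ⟨N, fun u F hF g hg => ?_⟩
  refine area_mult_two (a := u.dx) (b := u.dy) (c := pf (pderiv 0 F)) (d := pf (pderiv 1 F))
    measurableSet_sq (fun z _ => u.hasFDerivAt_val z) (fun z _ => hasFDerivAt_pf F z)
    (((u.continuous_dx.mul (continuous_pf _)).sub
      (u.continuous_dy.mul (continuous_pf _))).measurable) (fun y w => ?_) hg
  refine le_trans ?_ (hN (u.A - C y * u.B) (F - C w) (totalDegree_sub_C_mul_le u y)
    ((totalDegree_sub _ _).trans (max_le hF (by rw [totalDegree_C]; exact Nat.zero_le _))))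
  have hinj : InjOn (fun z : ℝ × ℝ => (![z.1, z.2] : Fin 2 → ℝ))
      {z ∈ sq | u.val z = y ∧ pf F z = w ∧
        u.dx z * pf (pderiv 1 F) z - u.dy z * pf (pderiv 0 F) z ≠ 0} := by
    rintro ⟨x1, y1⟩ _ ⟨x2, y2⟩ _ h
    have h0 := congrFun h 0
    have h1 := congrFun h 1
    simp at h0 h1
    rw [h0, h1]
  rw [← hinj.encard_image]
  refine encard_le_encard ?_
  rintro _ ⟨z, ⟨_, h1, h2, h3⟩, rfl⟩
  have hB := (u.pos z).ne'
  have hAy : pf u.A z = y * pf u.B z := by
    rw [← h1, RatF.val, div_mul_cancel₀ _ hB]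
  have key : ∀ p : P2, eval (![z.1, z.2] : Fin 2 → ℝ) p = pf p z := fun p => rfl
  have hdx : pf (pderiv 0 (u.A - C y * u.B)) z = pf u.B z * u.dx z := by
    rw [map_sub, pf_sub, pf_pderiv_C_mul, RatF.dx, hAy]
    field_simp
  have hdy : pf (pderiv 1 (u.A - C y * u.B)) z = pf u.B z * u.dy z := by
    rw [map_sub, pf_sub, pf_pderiv_C_mul, RatF.dy, hAy]
    field_simp
  have hF' : ∀ i : Fin 2, pf (pderiv i (F - C w)) z = pf (pderiv i F) z := by
    intro i
    rw [map_sub, pderiv_C, sub_zero]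
  refine ⟨?_, ?_, ?_⟩
  · simp only [key, pf_sub, pf_mul, pf_C]
    rw [hAy]; ring
  · simp only [key, pf_sub, pf_C]
    rw [h2]; ring
  · simp only [key, hdx, hdy, hF']
    intro h
    apply h3
    have : pf u.B z * (u.dx z * pf (pderiv 1 F) z - u.dy z * pf (pderiv 0 F) z) = 0 := by
      rw [← h]; ring
    exact (mul_eq_zero.1 this).resolve_left hB

lemma eval_aeval_x (p : P2) (x y : ℝ) :
    (aeval ![(Polynomial.X : Polynomial ℝ), Polynomial.C y] p).eval x = pf p (x, y) := by
  induction p using MvPolynomial.induction_on with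
  | C a => simp
  | add p q hp hq => simp [hp, hq]
  | mul_X p i hp =>
    rw [map_mul, Polynomial.eval_mul, hp, pf_mul]
    fin_cases i
    · simp
    · simp

lemma eval_aeval_y (p : P2) (x y : ℝ) :
    (aeval ![(Polynomial.C x : Polynomial ℝ), Polynomial.X] p).eval y = pf p (x, y) := by
  induction p using MvPolynomial.induction_on with
  | C a => simp
  | add p q hp hq => simp [hp, hq]
  | mul_X p i hp =>
    rw [map_mul, Polynomial.eval_mul, hp, pf_mul]
    fin_cases i
    · simp
    · simp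

lemma natDegree_aeval_x_le (p : P2) (hp : p.totalDegree ≤ D) (y : ℝ) :
    (aeval ![(Polynomial.X : Polynomial ℝ), Polynomial.C y] p).natDegree ≤ D := by
  refine (aeval_natDegree_le p hp _ (n := 1) ?_).trans (by rw [mul_one])
  intro i
  fin_cases i
  · simp
  · simp

lemma natDegree_aeval_y_le (p : P2) (hp : p.totalDegree ≤ D) (x : ℝ) :
    (aeval ![(Polynomial.C x : Polynomial ℝ), Polynomial.X] p).natDegree ≤ D := by
  refine (aeval_natDegree_le p hp _ (n := 1) ?_).trans (by rw [mul_one])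
  intro i
  fin_cases i
  · simp
  · simp

/-- points of multiplicity: a one variable polynomial of degree at most `D` either vanishes
identically or has at most `D` roots -/
lemma encard_line_le {f f' : ℝ → ℝ} {c : ℝ} {P : Polynomial ℝ} (hP : P.natDegree ≤ D)
    (hf : ∀ x, HasDerivAt f (f' x) x) (h : ∀ x, f x = c ↔ P.eval x = 0) (s : Set ℝ) :
    {x ∈ s | f x = c ∧ f' x ≠ 0}.encard ≤ D := by
  by_cases h0 : P = 0
  · have hc : ∀ x, f x = c := fun x => (h x).2 (by rw [h0, Polynomial.eval_zero])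
    have hfc : f = fun _ => c := funext hc
    have hempty : {x ∈ s | f x = c ∧ f' x ≠ 0} = ∅ := by
      rw [Set.eq_empty_iff_forall_notMem]
      rintro x ⟨_, _, hx⟩
      apply hx
      have h1 := hf x
      rw [hfc] at h1
      exact h1.unique (hasDerivAt_const x c)
    rw [hempty, Set.encard_empty]
    exact zero_le
  · have hsub : {x ∈ s | f x = c ∧ f' x ≠ 0} ⊆ ((P.roots.toFinset : Finset ℝ) : Set ℝ) := by
      rintro x ⟨_, hx, _⟩
      rw [Finset.mem_coe, Multiset.mem_toFinset, Polynomial.mem_roots h0]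
      exact (h x).1 hx
    refine (encard_le_encard hsub).trans ?_
    rw [Set.encard_coe_eq_coe_finsetCard]
    exact_mod_cast ((Multiset.toFinset_card_le _).trans (Polynomial.card_roots' P)).trans hP

/-- one-dimensional versions on lines -/
theorem line_ineq_x (u : RatF D) (y : ℝ) {g : ℝ → ℝ≥0∞} (hg : Measurable g) :
    ∫⁻ x in Icc (-1:ℝ) 1, ENNReal.ofReal |u.dx (x, y)| * g (u.val (x, y)) ≤ D * ∫⁻ c, g c := by
  refine area_mult_one (u := fun x => u.val (x, y)) (u' := fun x => u.dx (x, y))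
    measurableSet_Icc (fun x _ => (u.hasDerivAt_x x y).hasDerivWithinAt)
    (u.continuous_dx.comp (Continuous.prodMk continuous_id continuous_const)).measurable
    (fun c => ?_) hg
  refine encard_line_le (natDegree_aeval_x_le _ (totalDegree_sub_C_mul_le u c) y)
    (fun x => u.hasDerivAt_x x y) (fun x => ?_) _
  rw [eval_aeval_x, pf_sub, pf_mul, pf_C, sub_eq_zero, RatF.val, div_eq_iff (u.pos _).ne']

theorem line_ineq_y (u : RatF D) (x : ℝ) {g : ℝ → ℝ≥0∞} (hg : Measurable g) :
    ∫⁻ y in Icc (-1:ℝ) 1, ENNReal.ofReal |u.dy (x, y)| * g (u.val (x, y)) ≤ D * ∫⁻ c, g c := by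
  refine area_mult_one (u := fun y => u.val (x, y)) (u' := fun y => u.dy (x, y))
    measurableSet_Icc (fun y _ => (u.hasDerivAt_y x y).hasDerivWithinAt)
    (u.continuous_dy.comp (Continuous.prodMk continuous_const continuous_id)).measurable
    (fun c => ?_) hg
  refine encard_line_le (natDegree_aeval_y_le _ (totalDegree_sub_C_mul_le u c) x)
    (fun y => u.hasDerivAt_y x y) (fun y => ?_) _
  rw [eval_aeval_y, pf_sub, pf_mul, pf_C, sub_eq_zero, RatF.val, div_eq_iff (u.pos _).ne']

end Pool.Agent.H.MP_b7167f_an
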