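import Mathlib
import Pool.Agent.H.MP_b7167f_an.AlgIBP
import Pool.Agent.H.MP_b7167f_an.PlaneIneq

open MvPolynomial MeasureTheory Set
open scoped ENNReal

namespace Pool.Agent.H.MP_b7167f_an

variable {D m : ℕ}

/-! ### weights -/

/-- `1/max(1,|y|)` on `[-δ,δ]` -/
noncomputable def wt (δ y : ℝ) : ℝ≥0∞ :=
  indicator (Icc (-δ) δ) (fun y => ENNReal.ofReal (1 / max 1 |y|)) y

/-- `1/max(δ,|y|)²` -/
noncomputable def vt (δ y : ℝ) : ℝ≥0∞ := ENNReal.ofReal (1 / (max δ |y|) ^ 2)

lemma measurable_wt (δ : ℝ) : Measurable (wt δ) := by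
  unfold wt
  apply Measurable.indicator _ measurableSet_Icc
  exact (measurable_const.div (measurable_const.max measurable_norm)).ennreal_ofReal

lemma measurable_vt (δ : ℝ) : Measurable (vt δ) := by
  unfold vt
  exact (measurable_const.div ((measurable_const.max measurable_norm).pow_const 2)).ennreal_ofReal

lemma lintegral_comp_neg (f : ℝ → ℝ≥0∞) : ∫⁻ y, f (-y) = ∫⁻ y, f y :=
  (Measure.measurePreserving_neg (volume : Measure ℝ)).lintegral_comp_emb
    (MeasurableEquiv.neg ℝ).measurableEmbedding f

lemma lintegral_wt {δ : ℝ} (hδ : 1 ≤ δ) : ∫⁻ y, wt δ y ≤ ENNReal.ofReal (2 * (1 + Real.log δ)) := by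
  set b : ℝ → ℝ≥0∞ := indicator (Icc 1 δ) (fun y => ENNReal.ofReal (y⁻¹)) with hb
  have hbm : Measurable b := by
    apply Measurable.indicator _ measurableSet_Icc
    exact measurable_inv.ennreal_ofReal
  have hle : ∀ y, wt δ y ≤ indicator (Icc (-1:ℝ) 1) (fun _ => 1) y + (b y + b (-y)) := by
    intro y
    unfold wt
    by_cases h : y ∈ Icc (-δ) δ
    · rw [indicator_of_mem h]
      by_cases h1 : y ∈ Icc (-1:ℝ) 1
      · rw [indicator_of_mem h1]
        refine le_trans ?_ le_self_add
        rw [ENNReal.ofReal_le_one, div_le_one (by positivity)]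
        exact le_max_left _ _
      · rw [indicator_of_notMem h1, zero_add]
        have h2 : 1 < |y| := by
          rw [mem_Icc, ← abs_le] at h1
          exact not_le.1 h1
        rw [max_eq_right h2.le]
        rcases le_total 0 y with h0 | h0
        · rw [abs_of_nonneg h0] at h2 ⊢
          refine le_trans ?_ le_self_add
          rw [hb, indicator_of_mem (show y ∈ Icc 1 δ from ⟨h2.le, h.2⟩), one_div]
        · rw [abs_of_nonpos h0] at h2 ⊢
          refine le_trans ?_ le_add_self
          rw [hb, indicator_of_mem (show -y ∈ Icc 1 δ from ⟨h2.le, by linarith [h.1]⟩), one_div]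
    · rw [indicator_of_notMem h]; exact zero_le
  have hbi : ∫⁻ y, b y = ENNReal.ofReal (Real.log δ) := by
    rw [hb, lintegral_indicator measurableSet_Icc]
    have hcont : ContinuousOn (fun y : ℝ => y⁻¹) (Icc 1 δ) := by
      apply continuousOn_inv₀.mono
      intro y hy
      have : 0 < y := by linarith [hy.1]
      exact this.ne'
    rw [← ofReal_integral_eq_lintegral_ofReal]
    · congr 1
      rw [integral_Icc_eq_integral_Ioc, ← intervalIntegral.integral_of_le hδ, integral_inv_of_pos
        one_pos (by linarith)]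
      simp
    · exact hcont.integrableOn_compact isCompact_Icc
    · filter_upwards [ae_restrict_mem measurableSet_Icc] with y hy
      have : 0 < y := by linarith [hy.1]
      simp only [Pi.zero_apply]
      positivity
  have hlog : 0 ≤ Real.log δ := Real.log_nonneg hδ
  calc ∫⁻ y, wt δ y ≤ ∫⁻ y, (indicator (Icc (-1:ℝ) 1) (fun _ => 1) y + (b y + b (-y))) :=
        lintegral_mono hle
    _ = 2 + (ENNReal.ofReal (Real.log δ) + ENNReal.ofReal (Real.log δ)) := by
        rw [lintegral_add_left (measurable_const.indicator measurableSet_Icc),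
          lintegral_add_left hbm, lintegral_comp_neg, hbi, lintegral_indicator measurableSet_Icc,
          setLIntegral_const, Real.volume_Icc]
        norm_num
    _ = ENNReal.ofReal (2 * (1 + Real.log δ)) := by
        rw [← ENNReal.ofReal_add hlog hlog, show (2:ℝ≥0∞) = ENNReal.ofReal 2 by simp,
          ← ENNReal.ofReal_add (by norm_num) (by linarith)]
        congr 1
        ring

lemma lintegral_vt {δ : ℝ} (hδ : 1 ≤ δ) : ∫⁻ y, vt δ y ≤ ENNReal.ofReal (4 / δ) := by
  have hδ0 : 0 < δ := by linarith
  set b : ℝ → ℝ≥0∞ := indicator (Ioi δ) (fun y => ENNReal.ofReal (y ^ (-2:ℝ))) with hb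
  have hbm : Measurable b := by
    apply Measurable.indicator _ measurableSet_Ioi
    exact (measurable_id.pow_const _).ennreal_ofReal
  have hle : ∀ y, vt δ y ≤ indicator (Icc (-δ) δ) (fun _ => ENNReal.ofReal (1 / δ ^ 2)) y +
      (b y + b (-y)) := by
    intro y
    unfold vt
    by_cases h1 : y ∈ Icc (-δ) δ
    · rw [indicator_of_mem h1]
      refine le_trans ?_ le_self_add
      apply ENNReal.ofReal_le_ofReal
      apply one_div_le_one_div_of_le (by positivity)
      gcongr
      exact le_max_left _ _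
    · rw [indicator_of_notMem h1, zero_add]
      have h2 : δ < |y| := by
        rw [mem_Icc, ← abs_le] at h1
        exact not_le.1 h1
      rw [max_eq_right h2.le]
      rcases le_total 0 y with h0 | h0
      · rw [abs_of_nonneg h0] at h2 ⊢
        refine le_trans ?_ le_self_add
        rw [hb, indicator_of_mem (show y ∈ Ioi δ from h2), Real.rpow_neg h0, one_div]
        norm_num
      · rw [abs_of_nonpos h0] at h2 ⊢
        refine le_trans ?_ le_add_self
        rw [hb, indicator_of_mem (show -y ∈ Ioi δ from h2), Real.rpow_neg (by linarith), one_div]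
        norm_num
  have hbi : ∫⁻ y, b y = ENNReal.ofReal (1 / δ) := by
    rw [hb, lintegral_indicator measurableSet_Ioi]
    rw [← ofReal_integral_eq_lintegral_ofReal]
    · congr 1
      rw [integral_Ioi_rpow_of_lt (by norm_num) hδ0]
      rw [show (-2:ℝ) + 1 = -1 by norm_num, Real.rpow_neg_one]
      field_simp
    · exact integrableOn_Ioi_rpow_of_lt (by norm_num) hδ0
    · filter_upwards [ae_restrict_mem measurableSet_Ioi] with y hy
      have : 0 < y := lt_trans hδ0 hy
      simp only [Pi.zero_apply]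
      positivity
  calc ∫⁻ y, vt δ y ≤ ∫⁻ y, (indicator (Icc (-δ) δ) (fun _ => ENNReal.ofReal (1 / δ ^ 2)) y +
        (b y + b (-y))) := lintegral_mono hle
    _ = ENNReal.ofReal (1 / δ ^ 2) * ENNReal.ofReal (2 * δ) +
        (ENNReal.ofReal (1 / δ) + ENNReal.ofReal (1 / δ)) := by
        rw [lintegral_add_left (measurable_const.indicator measurableSet_Icc),
          lintegral_add_left hbm, lintegral_comp_neg, hbi, lintegral_indicator measurableSet_Icc,
          setLIntegral_const, Real.volume_Icc]
        congr 3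
        ring
    _ = ENNReal.ofReal (4 / δ) := by
        rw [← ENNReal.ofReal_mul (by positivity), ← ENNReal.ofReal_add (by positivity) (by positivity),
          ← ENNReal.ofReal_add (by positivity) (by positivity)]
        congr 1
        field_simp
        ring

/-! ### polynomials as rational functions -/

/-- a polynomial as an element of `RatF` -/
noncomputable def polyR (p : P2) (hp : p.totalDegree ≤ D) : RatF D where
  A := p
  B := 1
  hA := hp
  hB := by simp
  pos := fun z => by simp

@[simp] lemma polyR_val (p : P2) (hp : p.totalDegree ≤ D) (z : ℝ × ℝ) :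
    (polyR p hp).val z = pf p z := by simp [polyR, RatF.val]

@[simp] lemma polyR_dx (p : P2) (hp : p.totalDegree ≤ D) (z : ℝ × ℝ) :
    (polyR p hp).dx z = pf (pderiv 0 p) z := by simp [polyR, RatF.dx]

@[simp] lemma polyR_dy (p : P2) (hp : p.totalDegree ≤ D) (z : ℝ × ℝ) :
    (polyR p hp).dy z = pf (pderiv 1 p) z := by simp [polyR, RatF.dy]

/-! ### integrated line inequalities -/

lemma sq_ineq_x (u : RatF D) {g : ℝ → ℝ≥0∞} (hg : Measurable g) :
    ∫⁻ z in sq, ENNReal.ofReal |u.dx z| * g (u.val z) ≤ 2 * (D * ∫⁻ c, g c) := by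
  have hm : Measurable (fun z : ℝ × ℝ => ENNReal.ofReal |u.dx z| * g (u.val z)) :=
    (u.continuous_dx.abs.measurable.ennreal_ofReal).mul (hg.comp u.continuous_val.measurable)
  unfold sq
  rw [Measure.volume_eq_prod, ← Measure.prod_restrict, lintegral_prod_symm _ hm.aemeasurable]
  calc ∫⁻ y in Icc (-1:ℝ) 1, ∫⁻ x in Icc (-1:ℝ) 1, ENNReal.ofReal |u.dx (x, y)| * g (u.val (x, y))
      ≤ ∫⁻ _y in Icc (-1:ℝ) 1, (D * ∫⁻ c, g c) := lintegral_mono fun y => line_ineq_x u y hg
    _ = 2 * (D * ∫⁻ c, g c) := by
        rw [setLIntegral_const, Real.volume_Icc, mul_comm]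
        norm_num

lemma sq_ineq_y (u : RatF D) {g : ℝ → ℝ≥0∞} (hg : Measurable g) :
    ∫⁻ z in sq, ENNReal.ofReal |u.dy z| * g (u.val z) ≤ 2 * (D * ∫⁻ c, g c) := by
  have hm : Measurable (fun z : ℝ × ℝ => ENNReal.ofReal |u.dy z| * g (u.val z)) :=
    (u.continuous_dy.abs.measurable.ennreal_ofReal).mul (hg.comp u.continuous_val.measurable)
  unfold sq
  rw [Measure.volume_eq_prod, ← Measure.prod_restrict, lintegral_prod _ hm.aemeasurable]
  calc ∫⁻ x in Icc (-1:ℝ) 1, ∫⁻ y in Icc (-1:ℝ) 1, ENNReal.ofReal |u.dy (x, y)| * g (u.val (x, y))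
      ≤ ∫⁻ _y in Icc (-1:ℝ) 1, (D * ∫⁻ c, g c) := lintegral_mono fun x => line_ineq_y u x hg
    _ = 2 * (D * ∫⁻ c, g c) := by
        rw [setLIntegral_const, Real.volume_Icc, mul_comm]
        norm_num

end Pool.Agent.H.MP_b7167f_an
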