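import Mathlib
import Pool.Agent.H.MP_b7167f_an.AlgWt

open MvPolynomial MeasureTheory Set
open scoped ENNReal NNReal

namespace Pool.Agent.H.MP_b7167f_an

variable {D m : ℕ}

/-- the nondegeneracy condition -/
def Good (ψ : P2) (δ : ℝ) (z : ℝ × ℝ) : Prop :=
  δ ^ 2 * (pf (nsP ψ) z + δ ^ 2) ≤ 2 * pf (detP ψ) z ^ 2

lemma pf_nsP (ψ : P2) (z : ℝ × ℝ) : pf (nsP ψ) z =
    pf (hs ψ 0 0) z ^ 2 + pf (hs ψ 0 1) z ^ 2 + pf (hs ψ 1 0) z ^ 2 + pf (hs ψ 1 1) z ^ 2 := by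
  simp [nsP]

lemma pf_detP (ψ : P2) (z : ℝ × ℝ) : pf (detP ψ) z =
    pf (hs ψ 0 0) z * pf (hs ψ 1 1) z - pf (hs ψ 1 0) z * pf (hs ψ 0 1) z := by
  simp [detP]

/-- the largest component of the gradient is at most `δ` -/
def Sm (ψ : P2) (δ : ℝ) (z : ℝ × ℝ) : Prop := |pf (gr ψ 0) z| ≤ δ ∧ |pf (gr ψ 1) z| ≤ δ

section real

lemma abs_le_of_sq {x y c : ℝ} (hc : 0 ≤ c) (h : x ^ 2 ≤ c ^ 2 * y ^ 2) : |x| ≤ c * |y| := by
  have h1 : x ^ 2 ≤ (c * |y|) ^ 2 := by rw [mul_pow, sq_abs]; exact h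
  exact abs_le_of_sq_le_sq h1 (by positivity)

lemma good_entry {δ p q r t : ℝ} (hδ : 1 ≤ δ)
    (h : δ ^ 2 * (p ^ 2 + r ^ 2 + q ^ 2 + t ^ 2 + δ ^ 2) ≤ 2 * (p * t - q * r) ^ 2) :
    3 * (|p| + |q| + |r| + |t|) + 1 ≤ 20 / δ * |p * t - q * r| := by
  have hδ0 : 0 < δ := by linarith
  set d := p * t - q * r with hd
  have e : ∀ x : ℝ, x ^ 2 ≤ p ^ 2 + r ^ 2 + q ^ 2 + t ^ 2 + δ ^ 2 → δ * |x| ≤ (3/2) * |d| := by
    intro x hx
    have h1 : (δ * x) ^ 2 ≤ (3/2) ^ 2 * d ^ 2 := by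
      have : δ ^ 2 * x ^ 2 ≤ δ ^ 2 * (p ^ 2 + r ^ 2 + q ^ 2 + t ^ 2 + δ ^ 2) := by gcongr
      nlinarith [sq_nonneg d]
    have := abs_le_of_sq (by norm_num) h1
    rwa [abs_mul, abs_of_pos hδ0] at this
  have h1 := e p (by nlinarith [sq_nonneg p, sq_nonneg q, sq_nonneg r, sq_nonneg t, sq_nonneg δ])
  have h2 := e q (by nlinarith [sq_nonneg p, sq_nonneg q, sq_nonneg r, sq_nonneg t, sq_nonneg δ])
  have h3 := e r (by nlinarith [sq_nonneg p, sq_nonneg q, sq_nonneg r, sq_nonneg t, sq_nonneg δ])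
  have h4 := e t (by nlinarith [sq_nonneg p, sq_nonneg q, sq_nonneg r, sq_nonneg t, sq_nonneg δ])
  have h5 := e δ (by nlinarith [sq_nonneg p, sq_nonneg q, sq_nonneg r, sq_nonneg t, sq_nonneg δ])
  rw [abs_of_pos hδ0] at h5
  have h6 : δ * 1 ≤ 3/2 * |d| := by nlinarith
  rw [div_mul_eq_mul_div, le_div_iff₀ hδ0]
  nlinarith [abs_nonneg d]

lemma good_vec {δ p q r t : ℝ} (hδ : 1 ≤ δ)
    (h : δ ^ 2 * (p ^ 2 + r ^ 2 + q ^ 2 + t ^ 2 + δ ^ 2) ≤ 2 * (p * t - q * r) ^ 2) (a b : ℝ) :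
    δ ^ 2 * (a ^ 2 + b ^ 2) ≤ 2 * ((a * q - b * p) ^ 2 + (a * t - b * r) ^ 2) := by
  have hδ0 : 0 < δ := by linarith
  set ns := p ^ 2 + r ^ 2 + q ^ 2 + t ^ 2 with hns
  set d := p * t - q * r with hd
  set w0 := a * q - b * p with hw0
  set w1 := a * t - b * r with hw1
  have k1 : d * a = p * w1 - r * w0 := by rw [hd, hw0, hw1]; ring
  have k2 : d * b = q * w1 - t * w0 := by rw [hd, hw0, hw1]; ring
  have k3 : d ^ 2 * (a ^ 2 + b ^ 2) ≤ ns * (w0 ^ 2 + w1 ^ 2) := by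
    have : d ^ 2 * (a ^ 2 + b ^ 2) = (p * w1 - r * w0) ^ 2 + (q * w1 - t * w0) ^ 2 := by
      rw [← k1, ← k2]; ring
    rw [this, hns]
    nlinarith [sq_nonneg (p * w0 + r * w1), sq_nonneg (q * w0 + t * w1)]
  rcases eq_or_lt_of_le (show 0 ≤ ns by rw [hns]; positivity) with h0 | h0
  · exfalso
    have hd0 : d ^ 2 = 0 := by
      have hp : p = 0 := by nlinarith [sq_nonneg p, sq_nonneg q, sq_nonneg r, sq_nonneg t]
      have hq : q = 0 := by nlinarith [sq_nonneg p, sq_nonneg q, sq_nonneg r, sq_nonneg t]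
      rw [hd, hp, hq]; ring
    rw [hd0, ← h0] at h
    have : 0 < δ ^ 2 * (0 + δ ^ 2) := by positivity
    linarith
  · have k4 : ns * (δ ^ 2 * (a ^ 2 + b ^ 2)) ≤ ns * (2 * (w0 ^ 2 + w1 ^ 2)) := by
      have h5 : δ ^ 2 * ns ≤ 2 * d ^ 2 := by nlinarith [sq_nonneg δ, sq_nonneg (δ ^ 2)]
      calc ns * (δ ^ 2 * (a ^ 2 + b ^ 2)) = (δ ^ 2 * ns) * (a ^ 2 + b ^ 2) := by ring
        _ ≤ (2 * d ^ 2) * (a ^ 2 + b ^ 2) := by gcongr
        _ ≤ _ := by nlinarith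
    exact le_of_mul_le_mul_left k4 h0

lemma good_vec_abs {δ p q r t : ℝ} (hδ : 1 ≤ δ)
    (h : δ ^ 2 * (p ^ 2 + r ^ 2 + q ^ 2 + t ^ 2 + δ ^ 2) ≤ 2 * (p * t - q * r) ^ 2) (a b F0 F1 : ℝ) :
    |a| * |F0| + |b| * |F1| ≤
      2 / δ * (|a * q - b * p| + |a * t - b * r|) * Real.sqrt (F0 ^ 2 + F1 ^ 2) := by
  have hδ0 : 0 < δ := by linarith
  have h1 := good_vec hδ h a b
  set w0 := a * q - b * p with hw0
  set w1 := a * t - b * r with hw1
  set G := Real.sqrt (F0 ^ 2 + F1 ^ 2) with hG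
  have hG2 : G ^ 2 = F0 ^ 2 + F1 ^ 2 := Real.sq_sqrt (by positivity)
  have hG0 : 0 ≤ G := Real.sqrt_nonneg _
  rw [div_mul_eq_mul_div, div_mul_eq_mul_div, le_div_iff₀ hδ0]
  apply le_of_sq_le_sq _ (by positivity)
  have e1 : (|a| * |F0| + |b| * |F1|) ^ 2 ≤ (a ^ 2 + b ^ 2) * (F0 ^ 2 + F1 ^ 2) := by
    have : (|a| * |F0| + |b| * |F1|) ^ 2 + (|a| * |F1| - |b| * |F0|) ^ 2 =
      (|a| ^ 2 + |b| ^ 2) * (|F0| ^ 2 + |F1| ^ 2) := by ring
    rw [sq_abs, sq_abs, sq_abs, sq_abs] at this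
    nlinarith [sq_nonneg (|a| * |F1| - |b| * |F0|)]
  calc ((|a| * |F0| + |b| * |F1|) * δ) ^ 2 = (|a| * |F0| + |b| * |F1|) ^ 2 * δ ^ 2 := by ring
    _ ≤ ((a ^ 2 + b ^ 2) * (F0 ^ 2 + F1 ^ 2)) * δ ^ 2 := by gcongr
    _ = (δ ^ 2 * (a ^ 2 + b ^ 2)) * G ^ 2 := by rw [hG2]; ring
    _ ≤ (2 * (w0 ^ 2 + w1 ^ 2)) * G ^ 2 := by gcongr
    _ ≤ (2 * (|w0| + |w1|)) ^ 2 * G ^ 2 := by
        gcongr
        nlinarith [sq_abs w0, sq_abs w1, mul_nonneg (abs_nonneg w0) (abs_nonneg w1),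
          sq_nonneg w0, sq_nonneg w1]
    _ = (2 * (|w0| + |w1|) * G) ^ 2 := by ring

lemma prod_max_le (a b : ℝ) : max 1 |a| * max 1 |b| ≤ 1 + (a ^ 2 + b ^ 2) := by
  rcases le_total 1 |a| with ha | ha <;> rcases le_total 1 |b| with hb | hb
  · rw [max_eq_right ha, max_eq_right hb]
    nlinarith [sq_nonneg (|a| - |b|), sq_abs a, sq_abs b]
  · rw [max_eq_right ha, max_eq_left hb]
    nlinarith [sq_abs a, sq_abs b, sq_nonneg b]
  · rw [max_eq_left ha, max_eq_right hb]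
    nlinarith [sq_abs a, sq_abs b, sq_nonneg a]
  · rw [max_eq_left ha, max_eq_left hb]
    nlinarith [sq_nonneg a, sq_nonneg b]

lemma sqrt_div_le (a b c : ℝ) (hc : c ^ 2 ≤ a ^ 2 + b ^ 2) :
    Real.sqrt (a ^ 2 + b ^ 2) / (1 + (a ^ 2 + b ^ 2)) ≤ 1 / max 1 |c| := by
  set G := Real.sqrt (a ^ 2 + b ^ 2) with hG
  have hG2 : G ^ 2 = a ^ 2 + b ^ 2 := Real.sq_sqrt (by positivity)
  have hG0 : 0 ≤ G := Real.sqrt_nonneg _
  rw [← hG2, div_le_div_iff₀ (by positivity) (by positivity), one_mul]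
  have hcG : |c| ≤ G := by
    rw [hG]; exact Real.abs_le_sqrt hc
  rcases le_total 1 |c| with h | h
  · rw [max_eq_right h]; nlinarith [abs_nonneg c]
  · rw [max_eq_left h]; nlinarith [sq_nonneg (G - 1)]

end real

lemma wt_of_le {δ y : ℝ} (h : |y| ≤ δ) : wt δ y = ENNReal.ofReal (1 / max 1 |y|) := by
  unfold wt
  rw [indicator_of_mem]
  exact abs_le.1 h

section pointwise
variable {ψ : P2} {δ : ℝ} {z : ℝ × ℝ}

lemma Good.real (h : Good ψ δ z) : δ ^ 2 * (pf (hs ψ 0 0) z ^ 2 + pf (hs ψ 0 1) z ^ 2 +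
    pf (hs ψ 1 0) z ^ 2 + pf (hs ψ 1 1) z ^ 2 + δ ^ 2) ≤
    2 * (pf (hs ψ 0 0) z * pf (hs ψ 1 1) z - pf (hs ψ 1 0) z * pf (hs ψ 0 1) z) ^ 2 := by
  unfold Good at h
  rwa [pf_nsP, pf_detP] at h

/-- pointwise bound for the first term -/
lemma P1 (hδ : 1 ≤ δ) (h : Good ψ δ z) :
    ENNReal.ofReal ((1 + 3 * m1 ψ z) / (1 + g2 ψ z)) ≤
      ENNReal.ofReal (20 / δ) * (ENNReal.ofReal |pf (detP ψ) z| *
        (wt δ (pf (gr ψ 0) z) * wt δ (pf (gr ψ 1) z))) + (ENNReal.ofReal (1 / δ ^ 2) +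
      3 * ∑ a : Fin 2, ∑ b : Fin 2, ENNReal.ofReal |pf (hs ψ a b) z| * vt δ (pf (gr ψ b) z)) := by
  have hδ0 : 0 < δ := by linarith
  have hr := h.real
  have hg := one_add_g2_pos ψ z
  have hgd : g2 ψ z = pf (gr ψ 0) z ^ 2 + pf (gr ψ 1) z ^ 2 := rfl
  by_cases hs' : |pf (gr ψ 0) z| ≤ δ ∧ |pf (gr ψ 1) z| ≤ δ
  · refine le_trans ?_ le_self_add
    rw [wt_of_le hs'.1, wt_of_le hs'.2, ← ENNReal.ofReal_mul (by positivity),
      ← ENNReal.ofReal_mul (by positivity), ← ENNReal.ofReal_mul (by positivity)]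
    apply ENNReal.ofReal_le_ofReal
    have h1 := good_entry hδ hr
    rw [← pf_detP] at h1
    have h2 := prod_max_le (pf (gr ψ 0) z) (pf (gr ψ 1) z)
    rw [← hgd] at h2
    have h3 : 1 + 3 * m1 ψ z ≤ 20 / δ * |pf (detP ψ) z| := by
      unfold m1; linarith
    calc (1 + 3 * m1 ψ z) / (1 + g2 ψ z)
        ≤ (20 / δ * |pf (detP ψ) z|) / (max 1 |pf (gr ψ 0) z| * max 1 |pf (gr ψ 1) z|) := by
          gcongr
      _ = _ := by field_simp
  · refine le_trans ?_ le_add_self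
    have hbig : δ ^ 2 ≤ g2 ψ z := by
      rw [hgd]
      rw [not_and_or, not_le, not_le] at hs'
      rcases hs' with h1 | h1
      · nlinarith [sq_abs (pf (gr ψ 0) z), sq_nonneg (pf (gr ψ 1) z)]
      · nlinarith [sq_abs (pf (gr ψ 1) z), sq_nonneg (pf (gr ψ 0) z)]
    rw [add_div, ENNReal.ofReal_add (by positivity) (by have := m1_nonneg ψ z; positivity)]
    gcongr ?_ + ?_
    · apply ENNReal.ofReal_le_ofReal
      apply one_div_le_one_div_of_le (by positivity)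
      linarith
    · have hv : ∀ b : Fin 2, 1 / (1 + g2 ψ z) ≤ 1 / (max δ |pf (gr ψ b) z|) ^ 2 := by
        intro b
        apply one_div_le_one_div_of_le (by positivity)
        have hb : |pf (gr ψ b) z| ^ 2 ≤ g2 ψ z := by
          rw [hgd, sq_abs]
          fin_cases b
          · simp only [Fin.zero_eta]; nlinarith [sq_nonneg (pf (gr ψ 1) z)]
          · simp only [Fin.mk_one]; nlinarith [sq_nonneg (pf (gr ψ 0) z)]
        rcases le_total δ |pf (gr ψ b) z| with h2 | h2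
        · rw [max_eq_right h2]; linarith
        · rw [max_eq_left h2]; linarith
      have h3 : 3 * m1 ψ z / (1 + g2 ψ z) ≤ 3 * ∑ a : Fin 2, ∑ b : Fin 2,
          |pf (hs ψ a b) z| * (1 / (max δ |pf (gr ψ b) z|) ^ 2) := by
        simp only [Fin.sum_univ_two]
        unfold m1
        rw [mul_div_assoc]
        apply mul_le_mul_of_nonneg_left _ (by norm_num)
        rw [div_eq_mul_one_div]
        have h00 := mul_le_mul_of_nonneg_left (hv 0) (abs_nonneg (pf (hs ψ 0 0) z))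
        have h01 := mul_le_mul_of_nonneg_left (hv 1) (abs_nonneg (pf (hs ψ 0 1) z))
        have h10 := mul_le_mul_of_nonneg_left (hv 0) (abs_nonneg (pf (hs ψ 1 0) z))
        have h11 := mul_le_mul_of_nonneg_left (hv 1) (abs_nonneg (pf (hs ψ 1 1) z))
        linarith
      refine (ENNReal.ofReal_le_ofReal h3).trans ?_
      rw [ENNReal.ofReal_mul (by norm_num), show ENNReal.ofReal 3 = 3 by simp]
      gcongr
      rw [ENNReal.ofReal_sum_of_nonneg (fun a _ => Finset.sum_nonneg fun b _ => by positivity)]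
      apply Finset.sum_le_sum
      intro a _
      rw [ENNReal.ofReal_sum_of_nonneg (fun b _ => by positivity)]
      apply Finset.sum_le_sum
      intro b _
      unfold vt
      rw [ENNReal.ofReal_mul (by positivity)]

/-- pointwise bound for vectors -/
lemma P2' (hδ : 1 ≤ δ) (h : Good ψ δ z) (a b : ℝ) :
    ENNReal.ofReal ((|a| * |pf (gr ψ 0) z| + |b| * |pf (gr ψ 1) z|) / (1 + g2 ψ z)) ≤
      ENNReal.ofReal (2 / δ) * ∑ c : Fin 2, (ENNReal.ofReal |a * pf (hs ψ 1 c) z -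
        b * pf (hs ψ 0 c) z| * wt δ (pf (gr ψ c) z)) +
      ENNReal.ofReal (1 / δ) * (ENNReal.ofReal |a| + ENNReal.ofReal |b|) := by
  have hδ0 : 0 < δ := by linarith
  have hr := h.real
  have hg := one_add_g2_pos ψ z
  have hgd : g2 ψ z = pf (gr ψ 0) z ^ 2 + pf (gr ψ 1) z ^ 2 := rfl
  by_cases hs' : |pf (gr ψ 0) z| ≤ δ ∧ |pf (gr ψ 1) z| ≤ δ
  · refine le_trans ?_ le_self_add
    rw [Fin.sum_univ_two, wt_of_le hs'.1, wt_of_le hs'.2, ← ENNReal.ofReal_mul (by positivity),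
      ← ENNReal.ofReal_mul (by positivity), ← ENNReal.ofReal_add (by positivity) (by positivity),
      ← ENNReal.ofReal_mul (by positivity)]
    apply ENNReal.ofReal_le_ofReal
    have h1 := good_vec_abs hδ hr a b (pf (gr ψ 0) z) (pf (gr ψ 1) z)
    rw [← hgd] at h1
    have h2 := sqrt_div_le (pf (gr ψ 0) z) (pf (gr ψ 1) z) (pf (gr ψ 0) z)
      (by nlinarith [sq_nonneg (pf (gr ψ 1) z)])
    have h3 := sqrt_div_le (pf (gr ψ 0) z) (pf (gr ψ 1) z) (pf (gr ψ 1) z)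
      (by nlinarith [sq_nonneg (pf (gr ψ 0) z)])
    rw [← hgd] at h2 h3
    set w0 := |a * pf (hs ψ 1 0) z - b * pf (hs ψ 0 0) z| with hw0
    set w1 := |a * pf (hs ψ 1 1) z - b * pf (hs ψ 0 1) z| with hw1
    calc (|a| * |pf (gr ψ 0) z| + |b| * |pf (gr ψ 1) z|) / (1 + g2 ψ z)
        ≤ (2 / δ * (w0 + w1) * Real.sqrt (g2 ψ z)) / (1 + g2 ψ z) := by gcongr
      _ = 2 / δ * (w0 * (Real.sqrt (g2 ψ z) / (1 + g2 ψ z)) +
          w1 * (Real.sqrt (g2 ψ z) / (1 + g2 ψ z))) := by ring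
      _ ≤ _ := by gcongr
  · refine le_trans ?_ le_add_self
    have hbig : δ ^ 2 ≤ g2 ψ z := by
      rw [hgd]
      rw [not_and_or, not_le, not_le] at hs'
      rcases hs' with h1 | h1
      · nlinarith [sq_abs (pf (gr ψ 0) z), sq_nonneg (pf (gr ψ 1) z)]
      · nlinarith [sq_abs (pf (gr ψ 1) z), sq_nonneg (pf (gr ψ 0) z)]
    rw [← ENNReal.ofReal_add (abs_nonneg _) (abs_nonneg _), ← ENNReal.ofReal_mul (by positivity)]
    apply ENNReal.ofReal_le_ofReal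
    have hb : ∀ c : ℝ, c ^ 2 ≤ g2 ψ z → |c| / (1 + g2 ψ z) ≤ 1 / δ := by
      intro c hc
      rw [div_le_div_iff₀ hg hδ0, one_mul]
      have : |c| * δ ≤ (|c| ^ 2 + δ ^ 2) / 2 := by nlinarith [sq_nonneg (|c| - δ)]
      rw [sq_abs] at this
      linarith
    have h0 := hb (pf (gr ψ 0) z) (by rw [hgd]; nlinarith [sq_nonneg (pf (gr ψ 1) z)])
    have h1 := hb (pf (gr ψ 1) z) (by rw [hgd]; nlinarith [sq_nonneg (pf (gr ψ 0) z)])
    calc (|a| * |pf (gr ψ 0) z| + |b| * |pf (gr ψ 1) z|) / (1 + g2 ψ z)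
        = |a| * (|pf (gr ψ 0) z| / (1 + g2 ψ z)) + |b| * (|pf (gr ψ 1) z| / (1 + g2 ψ z)) := by
          ring
      _ ≤ |a| * (1 / δ) + |b| * (1 / δ) := by gcongr
      _ = _ := by ring

end pointwise

end Pool.Agent.H.MP_b7167f_an
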