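import Mathlib
import Pool.Agent.H.MP_b7167f_an.AlgEst

open MvPolynomial MeasureTheory Set
open scoped ENNReal NNReal

namespace Pool.Agent.H.MP_b7167f_an

variable {D m : ℕ}

lemma totalDegree_pderiv_le (i : Fin 2) (p : P2) : (pderiv i p).totalDegree ≤ p.totalDegree := by
  have e : pderiv i p = ∑ s ∈ p.support, pderiv i (monomial s (coeff s p)) := by
    conv_lhs => rw [p.as_sum]
    rw [map_sum]
  rw [e]
  refine totalDegree_finsetSum_le (fun s hs => ?_)
  rw [pderiv_monomial]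
  refine (totalDegree_monomial_le _ _).trans ?_
  refine le_trans ?_ (le_totalDegree hs)
  exact Finsupp.degree_mono (tsub_le_self)

lemma volume_sq : volume sq = 4 := by
  unfold sq
  rw [Measure.volume_eq_prod, Measure.prod_prod, Real.volume_Icc]
  rw [← ENNReal.ofReal_mul (by norm_num)]
  norm_num

/-- the weighted size `(1+log δ)²/δ` -/
noncomputable def XX (δ : ℝ) : ℝ≥0∞ := ENNReal.ofReal ((1 + Real.log δ) ^ 2 / δ)

lemma le_XX {δ x : ℝ} (h : x ≤ (1 + Real.log δ) ^ 2 / δ) : ENNReal.ofReal x ≤ XX δ :=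
  ENNReal.ofReal_le_ofReal h

lemma one_le_L {δ : ℝ} (hδ : 1 ≤ δ) : 1 ≤ 1 + Real.log δ := by
  have := Real.log_nonneg hδ; linarith

lemma one_div_le_XX {δ : ℝ} (hδ : 1 ≤ δ) : ENNReal.ofReal (1 / δ) ≤ XX δ := by
  apply le_XX
  have := one_le_L hδ
  gcongr
  nlinarith

lemma one_div_sq_le_XX {δ : ℝ} (hδ : 1 ≤ δ) : ENNReal.ofReal (1 / δ ^ 2) ≤ XX δ := by
  refine le_trans (ENNReal.ofReal_le_ofReal ?_) (one_div_le_XX hδ)
  have : 0 < δ := by linarith
  apply one_div_le_one_div_of_le this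
  nlinarith

lemma lintegral_vt' {δ : ℝ} (hδ : 1 ≤ δ) : ∫⁻ y, vt δ y ≤ 4 * XX δ := by
  refine (lintegral_vt hδ).trans ?_
  rw [show (4:ℝ) / δ = 4 * (1 / δ) by ring, ENNReal.ofReal_mul (by norm_num),
    show ENNReal.ofReal 4 = 4 by simp]
  gcongr
  exact one_div_le_XX hδ

lemma wt_X1 {δ : ℝ} (hδ : 1 ≤ δ) : ENNReal.ofReal (2 / δ) * ∫⁻ y, wt δ y ≤ 4 * XX δ := by
  have h1 := one_le_L hδ
  calc ENNReal.ofReal (2 / δ) * ∫⁻ y, wt δ y
      ≤ ENNReal.ofReal (2 / δ) * ENNReal.ofReal (2 * (1 + Real.log δ)) := by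
        gcongr; exact lintegral_wt hδ
    _ = ENNReal.ofReal (4 * ((1 + Real.log δ) / δ)) := by
        rw [← ENNReal.ofReal_mul (by positivity)]
        congr 1
        ring
    _ ≤ ENNReal.ofReal (4 * ((1 + Real.log δ) ^ 2 / δ)) := by
        apply ENNReal.ofReal_le_ofReal
        gcongr
        nlinarith
    _ = 4 * XX δ := by
        rw [ENNReal.ofReal_mul (by norm_num), show ENNReal.ofReal 4 = 4 by simp, XX]

lemma wt_X2 {δ : ℝ} (hδ : 1 ≤ δ) : ENNReal.ofReal (20 / δ) * ((∫⁻ y, wt δ y) * ∫⁻ y, wt δ y) ≤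
    80 * XX δ := by
  have h1 := one_le_L hδ
  calc ENNReal.ofReal (20 / δ) * ((∫⁻ y, wt δ y) * ∫⁻ y, wt δ y)
      ≤ ENNReal.ofReal (20 / δ) * (ENNReal.ofReal (2 * (1 + Real.log δ)) *
          ENNReal.ofReal (2 * (1 + Real.log δ))) := by
        gcongr <;> exact lintegral_wt hδ
    _ = ENNReal.ofReal (80 * ((1 + Real.log δ) ^ 2 / δ)) := by
        rw [← ENNReal.ofReal_mul (by positivity), ← ENNReal.ofReal_mul (by positivity)]
        congr 1
        ring
    _ = 80 * XX δ := by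
        rw [ENNReal.ofReal_mul (by norm_num), show ENNReal.ofReal 80 = 80 by simp, XX]

/-- the plane inequality as a predicate -/
def PI (D N : ℕ) : Prop := ∀ (u : RatF D) (F : P2), F.totalDegree ≤ D →
    ∀ g : ℝ × ℝ → ℝ≥0∞, Measurable g →
    ∫⁻ z in sq, ENNReal.ofReal |u.dx z * pf (pderiv 1 F) z - u.dy z * pf (pderiv 0 F) z| *
      g (u.val z, pf F z) ≤ N * ∫⁻ y, g y

lemma measurable_pf (p : P2) : Measurable (pf p) := (continuous_pf p).measurable

/-- the main nonoscillatory term -/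
lemma T1_le {N : ℕ} (hN : PI D N) (ψ : P2) (hψ : ∀ b, (gr ψ b).totalDegree ≤ D)
    (θ : Fin m → StepF) (u : Fin m → RatF D) {δ : ℝ} (hδ : 1 ≤ δ)
    (hG : ∀ z, amp θ u z ≠ 0 → Good ψ δ z) :
    ∫⁻ z in sq, ENNReal.ofReal (amp θ u z * ((1 + 3 * m1 ψ z) / (1 + g2 ψ z))) ≤
      (80 * N + 4 + 96 * D) * XX δ := by
  have hmw := fun b => (measurable_wt δ).comp (measurable_pf (gr ψ b))
  have hmv := fun b => (measurable_vt δ).comp (measurable_pf (gr ψ b))
  have hmh := fun a b => (measurable_pf (hs ψ a b)).norm.ennreal_ofReal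
  have hpt : ∀ z, ENNReal.ofReal (amp θ u z * ((1 + 3 * m1 ψ z) / (1 + g2 ψ z))) ≤
      ENNReal.ofReal (20 / δ) * (ENNReal.ofReal |pf (detP ψ) z| *
        (wt δ (pf (gr ψ 0) z) * wt δ (pf (gr ψ 1) z))) + (ENNReal.ofReal (1 / δ ^ 2) +
      3 * ∑ a : Fin 2, ∑ b : Fin 2, ENNReal.ofReal |pf (hs ψ a b) z| * vt δ (pf (gr ψ b) z)) := by
    intro z
    by_cases h0 : amp θ u z = 0
    · rw [h0, zero_mul, ENNReal.ofReal_zero]; exact zero_le
    · refine le_trans (ENNReal.ofReal_le_ofReal ?_) (P1 hδ (hG z h0))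
      have := m1_nonneg ψ z
      have := one_add_g2_pos ψ z
      exact mul_le_of_le_one_left (by positivity) (amp_le_one θ u z)
  refine (lintegral_mono hpt).trans ?_
  rw [lintegral_add_left, lintegral_add_left measurable_const, lintegral_const_mul,
    lintegral_const_mul]
  rotate_left
  · simp only [Fin.sum_univ_two]
    exact (((hmh 0 0).mul (hmv 0)).add ((hmh 0 1).mul (hmv 1))).add
      (((hmh 1 0).mul (hmv 0)).add ((hmh 1 1).mul (hmv 1)))
  · exact ((measurable_pf _).norm.ennreal_ofReal).mul ((hmw 0).mul (hmw 1))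
  · exact (((measurable_pf _).norm.ennreal_ofReal).mul ((hmw 0).mul (hmw 1))).const_mul _
  have A1 : ENNReal.ofReal (20 / δ) * ∫⁻ z in sq, (ENNReal.ofReal |pf (detP ψ) z| *
        (wt δ (pf (gr ψ 0) z) * wt δ (pf (gr ψ 1) z))) ≤ 80 * N * XX δ := by
    have h := hN (polyR (gr ψ 0) (hψ 0)) (gr ψ 1) (hψ 1) (fun y => wt δ y.1 * wt δ y.2)
      (((measurable_wt δ).comp measurable_fst).mul ((measurable_wt δ).comp measurable_snd))
    have e : ∀ z, pf (detP ψ) z = (polyR (gr ψ 0) (hψ 0)).dx z * pf (pderiv 1 (gr ψ 1)) z -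
        (polyR (gr ψ 0) (hψ 0)).dy z * pf (pderiv 0 (gr ψ 1)) z := by
      intro z
      rw [polyR_dx, polyR_dy, pf_detP]
      rfl
    have e2 : ∫⁻ y : ℝ × ℝ, wt δ y.1 * wt δ y.2 = (∫⁻ y, wt δ y) * ∫⁻ y, wt δ y := by
      rw [Measure.volume_eq_prod, lintegral_prod_mul (measurable_wt δ).aemeasurable
        (measurable_wt δ).aemeasurable]
    simp only [← e, polyR_val, e2] at h
    calc _ ≤ ENNReal.ofReal (20 / δ) * (N * ((∫⁻ y, wt δ y) * ∫⁻ y, wt δ y)) := by gcongr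
      _ = N * (ENNReal.ofReal (20 / δ) * ((∫⁻ y, wt δ y) * ∫⁻ y, wt δ y)) := by ring
      _ ≤ N * (80 * XX δ) := mul_le_mul_right (wt_X2 hδ) _
      _ = _ := by ring
  have A2 : ∫⁻ _z in sq, ENNReal.ofReal (1 / δ ^ 2) ≤ 4 * XX δ := by
    rw [setLIntegral_const, volume_sq, mul_comm]
    gcongr
    exact one_div_sq_le_XX hδ
  have A3 : 3 * ∫⁻ z in sq, ∑ a : Fin 2, ∑ b : Fin 2,
      ENNReal.ofReal |pf (hs ψ a b) z| * vt δ (pf (gr ψ b) z) ≤ 96 * D * XX δ := by
    have hx : ∀ b, ∫⁻ z in sq, ENNReal.ofReal |pf (hs ψ 0 b) z| * vt δ (pf (gr ψ b) z) ≤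
        2 * (D * (4 * XX δ)) := by
      intro b
      have h := sq_ineq_x (polyR (gr ψ b) (hψ b)) (measurable_vt δ)
      simp only [polyR_dx, polyR_val] at h
      refine (h.trans ?_)
      gcongr
      exact lintegral_vt' hδ
    have hy : ∀ b, ∫⁻ z in sq, ENNReal.ofReal |pf (hs ψ 1 b) z| * vt δ (pf (gr ψ b) z) ≤
        2 * (D * (4 * XX δ)) := by
      intro b
      have h := sq_ineq_y (polyR (gr ψ b) (hψ b)) (measurable_vt δ)
      simp only [polyR_dy, polyR_val] at h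
      refine (h.trans ?_)
      gcongr
      exact lintegral_vt' hδ
    simp only [Fin.sum_univ_two]
    rw [lintegral_add_left, lintegral_add_left, lintegral_add_left]
    · calc _ ≤ 3 * ((2 * (D * (4 * XX δ)) + 2 * (D * (4 * XX δ))) +
            (2 * (D * (4 * XX δ)) + 2 * (D * (4 * XX δ)))) := by
            gcongr
            · exact hx 0
            · exact hx 1
            · exact hy 0
            · exact hy 1
        _ = _ := by ring
    · exact (hmh 1 0).mul (hmv 0)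
    · exact (hmh 0 0).mul (hmv 0)
    · exact ((hmh 0 0).mul (hmv 0)).add ((hmh 0 1).mul (hmv 1))
  calc _ ≤ 80 * N * XX δ + (4 * XX δ + 96 * D * XX δ) := add_le_add A1 (add_le_add A2 A3)
    _ = _ := by ring

lemma measurable_ofReal_f' (θ : StepF) : Measurable (fun c => ENNReal.ofReal (θ.f' c)) :=
  θ.cont.measurable.ennreal_ofReal

/-- the terms with derivatives of the amplitude -/
lemma T2_le {N : ℕ} (hN : PI D N) (ψ : P2) (hψ : ∀ b, (gr ψ b).totalDegree ≤ D)
    (θ : Fin m → StepF) (u : Fin m → RatF D) {δ : ℝ} (hδ : 1 ≤ δ) (i : Fin m)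
    (hG : ∀ z, ampC θ u i z ≠ 0 → Good ψ δ z) :
    ∫⁻ z in sq, ENNReal.ofReal (ampC θ u i z *
        ((|(u i).dx z| * |pf (gr ψ 0) z| + |(u i).dy z| * |pf (gr ψ 1) z|) / (1 + g2 ψ z))) ≤
      (8 * N + 4 * D) * XX δ := by
  have hmw := fun b => (measurable_wt δ).comp (measurable_pf (gr ψ b))
  have hmh := fun a b => (measurable_pf (hs ψ a b))
  have hmt : Measurable (fun z => ENNReal.ofReal ((θ i).f' ((u i).val z))) :=
    (measurable_ofReal_f' (θ i)).comp (u i).continuous_val.measurable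
  have hdx := (u i).continuous_dx.measurable
  have hdy := (u i).continuous_dy.measurable
  have hpt : ∀ z, ENNReal.ofReal (ampC θ u i z *
        ((|(u i).dx z| * |pf (gr ψ 0) z| + |(u i).dy z| * |pf (gr ψ 1) z|) / (1 + g2 ψ z))) ≤
      ENNReal.ofReal (2 / δ) * ∑ c : Fin 2, (ENNReal.ofReal |(u i).dx z * pf (hs ψ 1 c) z -
        (u i).dy z * pf (hs ψ 0 c) z| *
          (ENNReal.ofReal ((θ i).f' ((u i).val z)) * wt δ (pf (gr ψ c) z))) +
      ENNReal.ofReal (1 / δ) * (ENNReal.ofReal |(u i).dx z| *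
          ENNReal.ofReal ((θ i).f' ((u i).val z)) +
        ENNReal.ofReal |(u i).dy z| * ENNReal.ofReal ((θ i).f' ((u i).val z))) := by
    intro z
    by_cases h0 : ampC θ u i z = 0
    · rw [h0, zero_mul, ENNReal.ofReal_zero]; exact zero_le
    · have h1 := P2' hδ (hG z h0) ((u i).dx z) ((u i).dy z)
      rw [ENNReal.ofReal_mul (ampC_nonneg θ u i z)]
      calc _ ≤ ENNReal.ofReal ((θ i).f' ((u i).val z)) * (ENNReal.ofReal (2 / δ) *
            ∑ c : Fin 2, (ENNReal.ofReal |(u i).dx z * pf (hs ψ 1 c) z -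
            (u i).dy z * pf (hs ψ 0 c) z| * wt δ (pf (gr ψ c) z)) +
            ENNReal.ofReal (1 / δ) * (ENNReal.ofReal |(u i).dx z| + ENNReal.ofReal |(u i).dy z|)) :=
            mul_le_mul' (ENNReal.ofReal_le_ofReal (ampC_le θ u i z)) h1
        _ = _ := by
            simp only [Fin.sum_univ_two]
            ring
  refine (lintegral_mono hpt).trans ?_
  have m1' : ∀ c, Measurable (fun z => ENNReal.ofReal |(u i).dx z * pf (hs ψ 1 c) z -
        (u i).dy z * pf (hs ψ 0 c) z| *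
          (ENNReal.ofReal ((θ i).f' ((u i).val z)) * wt δ (pf (gr ψ c) z))) := by
    intro c
    exact (((hdx.mul (hmh 1 c)).sub (hdy.mul (hmh 0 c))).norm.ennreal_ofReal).mul
      (hmt.mul (hmw c))
  have mx : Measurable (fun z => ENNReal.ofReal |(u i).dx z| *
          ENNReal.ofReal ((θ i).f' ((u i).val z))) := hdx.norm.ennreal_ofReal.mul hmt
  have my : Measurable (fun z => ENNReal.ofReal |(u i).dy z| *
          ENNReal.ofReal ((θ i).f' ((u i).val z))) := hdy.norm.ennreal_ofReal.mul hmt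
  have hA : ∀ c, ∫⁻ z in sq, ENNReal.ofReal |(u i).dx z * pf (hs ψ 1 c) z -
        (u i).dy z * pf (hs ψ 0 c) z| *
          (ENNReal.ofReal ((θ i).f' ((u i).val z)) * wt δ (pf (gr ψ c) z)) ≤
      N * ∫⁻ y, wt δ y := by
    intro c
    have h := hN (u i) (gr ψ c) (hψ c) (fun y => ENNReal.ofReal ((θ i).f' y.1) * wt δ y.2)
      (((measurable_ofReal_f' (θ i)).comp measurable_fst).mul
        ((measurable_wt δ).comp measurable_snd))
    refine h.trans ?_
    gcongr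
    rw [Measure.volume_eq_prod, lintegral_prod_mul (measurable_ofReal_f' (θ i)).aemeasurable
        (measurable_wt δ).aemeasurable]
    exact (mul_le_mul_left (θ i).tv _).trans (by rw [one_mul])
  have hx := sq_ineq_x (u i) (measurable_ofReal_f' (θ i))
  have hy := sq_ineq_y (u i) (measurable_ofReal_f' (θ i))
  simp only [Fin.sum_univ_two]
  rw [lintegral_add_left, lintegral_const_mul, lintegral_const_mul, lintegral_add_left (m1' 0),
    lintegral_add_left mx]
  rotate_left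
  · exact mx.add my
  · exact (m1' 0).add (m1' 1)
  · exact ((m1' 0).add (m1' 1)).const_mul _
  have hD : ∫⁻ c, ENNReal.ofReal ((θ i).f' c) ≤ 1 := (θ i).tv
  calc _ ≤ ENNReal.ofReal (2 / δ) * (N * (∫⁻ y, wt δ y) + N * (∫⁻ y, wt δ y)) +
        ENNReal.ofReal (1 / δ) * (2 * (D * 1) + 2 * (D * 1)) := by
        gcongr
        · exact hA 0
        · exact hA 1
        · exact hx.trans (by gcongr)
        · exact hy.trans (by gcongr)
    _ = 2 * N * (ENNReal.ofReal (2 / δ) * ∫⁻ y, wt δ y) + 4 * D * ENNReal.ofReal (1 / δ) := by ring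
    _ ≤ 2 * N * (4 * XX δ) + 4 * D * XX δ :=
        add_le_add (mul_le_mul_right (wt_X1 hδ) _) (mul_le_mul_right (one_div_le_XX hδ) _)
    _ = _ := by ring

/-- pointwise bound on vertical edges -/
lemma edge_pt {ψ : P2} {δ : ℝ} {z : ℝ × ℝ} (hδ : 1 ≤ δ) (h : Good ψ δ z) (a b : Fin 2) :
    ENNReal.ofReal |vf ψ b z| ≤
      ENNReal.ofReal (2 / δ) * ∑ c : Fin 2, (ENNReal.ofReal |pf (hs ψ a c) z| *
        wt δ (pf (gr ψ c) z)) + ENNReal.ofReal (1 / δ) := by
  have hg := one_add_g2_pos ψ z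
  -- choose the unit vector orthogonal to the derivative direction; the estimate is for both
  -- components of the field
  have hδ0 : 0 < δ := by linarith
  have hr := h.real
  have hgd : g2 ψ z = pf (gr ψ 0) z ^ 2 + pf (gr ψ 1) z ^ 2 := rfl
  have hbb : pf (gr ψ b) z ^ 2 ≤ g2 ψ z := by
    rw [hgd]
    fin_cases b
    · simp only [Fin.zero_eta]; nlinarith [sq_nonneg (pf (gr ψ 1) z)]
    · simp only [Fin.mk_one]; nlinarith [sq_nonneg (pf (gr ψ 0) z)]
  have hle : |vf ψ b z| ≤ Real.sqrt (g2 ψ z) / (1 + g2 ψ z) := by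
    unfold vf
    rw [abs_div, abs_of_pos hg]
    gcongr
    exact Real.abs_le_sqrt hbb
  by_cases hs' : |pf (gr ψ 0) z| ≤ δ ∧ |pf (gr ψ 1) z| ≤ δ
  · refine le_trans ?_ le_self_add
    rw [Fin.sum_univ_two, wt_of_le hs'.1, wt_of_le hs'.2, ← ENNReal.ofReal_mul (by positivity),
      ← ENNReal.ofReal_mul (by positivity), ← ENNReal.ofReal_add (by positivity) (by positivity),
      ← ENNReal.ofReal_mul (by positivity)]
    apply ENNReal.ofReal_le_ofReal
    have h2 := sqrt_div_le (pf (gr ψ 0) z) (pf (gr ψ 1) z) (pf (gr ψ 0) z)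
      (by nlinarith [sq_nonneg (pf (gr ψ 1) z)])
    have h3 := sqrt_div_le (pf (gr ψ 0) z) (pf (gr ψ 1) z) (pf (gr ψ 1) z)
      (by nlinarith [sq_nonneg (pf (gr ψ 0) z)])
    rw [← hgd] at h2 h3
    have h1 : δ ≤ 2 * (|pf (hs ψ a 0) z| + |pf (hs ψ a 1) z|) := by
      apply le_of_sq_le_sq _ (by positivity)
      have key : δ ^ 2 ≤ 2 * (pf (hs ψ a 0) z ^ 2 + pf (hs ψ a 1) z ^ 2) := by
        fin_cases a
        · have := good_vec hδ hr 0 1
          simp only [Fin.zero_eta]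
          nlinarith
        · have := good_vec hδ hr 1 0
          simp only [Fin.mk_one]
          nlinarith
      nlinarith [sq_abs (pf (hs ψ a 0) z), sq_abs (pf (hs ψ a 1) z),
        mul_nonneg (abs_nonneg (pf (hs ψ a 0) z)) (abs_nonneg (pf (hs ψ a 1) z)),
        sq_nonneg (pf (hs ψ a 0) z), sq_nonneg (pf (hs ψ a 1) z)]
    have hS : 0 ≤ Real.sqrt (g2 ψ z) / (1 + g2 ψ z) := div_nonneg (Real.sqrt_nonneg _) hg.le
    calc |vf ψ b z| ≤ 1 * (Real.sqrt (g2 ψ z) / (1 + g2 ψ z)) := by rw [one_mul]; exact hle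
      _ ≤ (2 / δ * (|pf (hs ψ a 0) z| + |pf (hs ψ a 1) z|)) *
          (Real.sqrt (g2 ψ z) / (1 + g2 ψ z)) := by
          gcongr
          rw [div_mul_eq_mul_div, le_div_iff₀ hδ0, one_mul]
          exact h1
      _ = 2 / δ * (|pf (hs ψ a 0) z| * (Real.sqrt (g2 ψ z) / (1 + g2 ψ z)) +
          |pf (hs ψ a 1) z| * (Real.sqrt (g2 ψ z) / (1 + g2 ψ z))) := by ring
      _ ≤ _ := by gcongr
  · refine le_trans ?_ le_add_self
    have hbig : δ ^ 2 ≤ g2 ψ z := by
      rw [hgd]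
      rw [not_and_or, not_le, not_le] at hs'
      rcases hs' with h1 | h1
      · nlinarith [sq_abs (pf (gr ψ 0) z), sq_nonneg (pf (gr ψ 1) z)]
      · nlinarith [sq_abs (pf (gr ψ 1) z), sq_nonneg (pf (gr ψ 0) z)]
    apply ENNReal.ofReal_le_ofReal
    unfold vf
    rw [abs_div, abs_of_pos hg, div_le_div_iff₀ hg hδ0, one_mul]
    have : |pf (gr ψ b) z| * δ ≤ (|pf (gr ψ b) z| ^ 2 + δ ^ 2) / 2 := by
      nlinarith [sq_nonneg (|pf (gr ψ b) z| - δ)]
    rw [sq_abs] at this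
    linarith

/-- a vertical edge -/
lemma edge_y (ψ : P2) (hψ : ∀ b, (gr ψ b).totalDegree ≤ D)
    (θ : Fin m → StepF) (u : Fin m → RatF D) {δ : ℝ} (hδ : 1 ≤ δ)
    (hG : ∀ z, amp θ u z ≠ 0 → Good ψ δ z) (x : ℝ) (b : Fin 2) :
    ∫⁻ y in Icc (-1:ℝ) 1, ENNReal.ofReal (amp θ u (x, y) * |vf ψ b (x, y)|) ≤
      (8 * D + 2) * XX δ := by
  have hcm : Measurable (fun y : ℝ => (x, y)) := measurable_const.prodMk measurable_id
  have hmw := fun b => ((measurable_wt δ).comp (measurable_pf (gr ψ b))).comp hcm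
  have hmh := fun a b => ((measurable_pf (hs ψ a b)).norm.ennreal_ofReal).comp hcm
  have hpt : ∀ y, ENNReal.ofReal (amp θ u (x, y) * |vf ψ b (x, y)|) ≤
      ENNReal.ofReal (2 / δ) * ∑ c : Fin 2, (ENNReal.ofReal |pf (hs ψ 1 c) (x, y)| *
        wt δ (pf (gr ψ c) (x, y))) + ENNReal.ofReal (1 / δ) := by
    intro y
    by_cases h0 : amp θ u (x, y) = 0
    · rw [h0, zero_mul, ENNReal.ofReal_zero]; exact zero_le
    · refine le_trans (ENNReal.ofReal_le_ofReal ?_) (edge_pt hδ (hG _ h0) 1 b)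
      exact mul_le_of_le_one_left (abs_nonneg _) (amp_le_one θ u _)
  refine (lintegral_mono hpt).trans ?_
  simp only [Fin.sum_univ_two]
  have hA : ∀ c, ∫⁻ y in Icc (-1:ℝ) 1, ENNReal.ofReal |pf (hs ψ 1 c) (x, y)| *
        wt δ (pf (gr ψ c) (x, y)) ≤ D * ∫⁻ y, wt δ y := by
    intro c
    have h := line_ineq_y (polyR (gr ψ c) (hψ c)) x (measurable_wt δ)
    simp only [polyR_dy, polyR_val] at h
    exact h
  rw [lintegral_add_right _ measurable_const, lintegral_const_mul, lintegral_add_left,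
    setLIntegral_const, Real.volume_Icc]
  · calc _ ≤ ENNReal.ofReal (2 / δ) * (D * (∫⁻ y, wt δ y) + D * (∫⁻ y, wt δ y)) +
        ENNReal.ofReal (1 / δ) * ENNReal.ofReal (1 - -1) := by
          gcongr
          · exact hA 0
          · exact hA 1
      _ = 2 * D * (ENNReal.ofReal (2 / δ) * ∫⁻ y, wt δ y) + 2 * ENNReal.ofReal (1 / δ) := by
          rw [show ENNReal.ofReal (1 - -1) = 2 by norm_num]
          ring
      _ ≤ 2 * D * (4 * XX δ) + 2 * XX δ :=
          add_le_add (mul_le_mul_right (wt_X1 hδ) _) (mul_le_mul_right (one_div_le_XX hδ) _)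
      _ = _ := by ring
  · exact (hmh 1 0).mul (hmw 0)
  · exact ((hmh 1 0).mul (hmw 0)).add ((hmh 1 1).mul (hmw 1))

/-- a horizontal edge -/
lemma edge_x (ψ : P2) (hψ : ∀ b, (gr ψ b).totalDegree ≤ D)
    (θ : Fin m → StepF) (u : Fin m → RatF D) {δ : ℝ} (hδ : 1 ≤ δ)
    (hG : ∀ z, amp θ u z ≠ 0 → Good ψ δ z) (y : ℝ) (b : Fin 2) :
    ∫⁻ x in Icc (-1:ℝ) 1, ENNReal.ofReal (amp θ u (x, y) * |vf ψ b (x, y)|) ≤
      (8 * D + 2) * XX δ := by
  have hcm : Measurable (fun x : ℝ => (x, y)) := measurable_id.prodMk measurable_const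
  have hmw := fun b => ((measurable_wt δ).comp (measurable_pf (gr ψ b))).comp hcm
  have hmh := fun a b => ((measurable_pf (hs ψ a b)).norm.ennreal_ofReal).comp hcm
  have hpt : ∀ x, ENNReal.ofReal (amp θ u (x, y) * |vf ψ b (x, y)|) ≤
      ENNReal.ofReal (2 / δ) * ∑ c : Fin 2, (ENNReal.ofReal |pf (hs ψ 0 c) (x, y)| *
        wt δ (pf (gr ψ c) (x, y))) + ENNReal.ofReal (1 / δ) := by
    intro x
    by_cases h0 : amp θ u (x, y) = 0
    · rw [h0, zero_mul, ENNReal.ofReal_zero]; exact zero_le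
    · refine le_trans (ENNReal.ofReal_le_ofReal ?_) (edge_pt hδ (hG _ h0) 0 b)
      exact mul_le_of_le_one_left (abs_nonneg _) (amp_le_one θ u _)
  refine (lintegral_mono hpt).trans ?_
  simp only [Fin.sum_univ_two]
  have hA : ∀ c, ∫⁻ x in Icc (-1:ℝ) 1, ENNReal.ofReal |pf (hs ψ 0 c) (x, y)| *
        wt δ (pf (gr ψ c) (x, y)) ≤ D * ∫⁻ y, wt δ y := by
    intro c
    have h := line_ineq_x (polyR (gr ψ c) (hψ c)) y (measurable_wt δ)
    simp only [polyR_dx, polyR_val] at h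
    exact h
  rw [lintegral_add_right _ measurable_const, lintegral_const_mul, lintegral_add_left,
    setLIntegral_const, Real.volume_Icc]
  · calc _ ≤ ENNReal.ofReal (2 / δ) * (D * (∫⁻ y, wt δ y) + D * (∫⁻ y, wt δ y)) +
        ENNReal.ofReal (1 / δ) * ENNReal.ofReal (1 - -1) := by
          gcongr
          · exact hA 0
          · exact hA 1
      _ = 2 * D * (ENNReal.ofReal (2 / δ) * ∫⁻ y, wt δ y) + 2 * ENNReal.ofReal (1 / δ) := by
          rw [show ENNReal.ofReal (1 - -1) = 2 by norm_num]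
          ring
      _ ≤ 2 * D * (4 * XX δ) + 2 * XX δ :=
          add_le_add (mul_le_mul_right (wt_X1 hδ) _) (mul_le_mul_right (one_div_le_XX hδ) _)
      _ = _ := by ring
  · exact (hmh 0 0).mul (hmw 0)
  · exact ((hmh 0 0).mul (hmw 0)).add ((hmh 0 1).mul (hmw 1))

/-- **Uniform bound for two-dimensional oscillatory integrals** whose amplitude is supported in the
set where the Hessian of the phase has both eigenvalues essentially at least `δ`. -/
theorem sup_bound (D m : ℕ) : ∃ C : ℕ, ∀ (ψ : P2), (∀ b, (gr ψ b).totalDegree ≤ D) →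
    ∀ (θ : Fin m → StepF) (u : Fin m → RatF D) (δ : ℝ), 1 ≤ δ →
    (∀ z, amp θ u z ≠ 0 → Good ψ δ z) → (∀ i z, ampC θ u i z ≠ 0 → Good ψ δ z) →
    ‖∫ z in sq, (amp θ u z : ℂ) * osc ψ z‖ₑ ≤ C * XX δ := by
  obtain ⟨N, hN⟩ := plane_ineq D
  refine ⟨(80 * N + 4 + 96 * D) + m * (8 * N + 4 * D) + 4 * (8 * D + 2), ?_⟩
  intro ψ hψ θ u δ hδ hG hG'
  have mv : ∀ b, Measurable (fun z => ENNReal.ofReal (amp θ u z * |vf ψ b z|)) := fun b =>
    ((continuous_amp θ u).mul (continuous_vf ψ b).abs).measurable.ennreal_ofReal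
  refine (osc_le θ u ψ).trans ?_
  have h1 := T1_le hN ψ hψ θ u hδ hG
  have h2 : ∑ i, ∫⁻ z in sq, ENNReal.ofReal (ampC θ u i z *
        ((|(u i).dx z| * |pf (gr ψ 0) z| + |(u i).dy z| * |pf (gr ψ 1) z|) / (1 + g2 ψ z))) ≤
      m * ((8 * N + 4 * D) * XX δ) := by
    refine (Finset.sum_le_sum fun i _ => T2_le hN ψ hψ θ u hδ i (hG' i)).trans ?_
    rw [Finset.sum_const, Finset.card_univ, Fintype.card_fin, nsmul_eq_mul]
  have h3 : ∫⁻ y in Icc (-1:ℝ) 1, (ENNReal.ofReal (amp θ u (1, y) * |vf ψ 0 (1, y)|) +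
        ENNReal.ofReal (amp θ u (-1, y) * |vf ψ 0 (-1, y)|)) ≤
      (8 * D + 2) * XX δ + (8 * D + 2) * XX δ := by
    have hm : Measurable (fun y : ℝ => ENNReal.ofReal (amp θ u (1, y) * |vf ψ 0 (1, y)|)) :=
      (mv 0).comp (measurable_const.prodMk measurable_id)
    rw [lintegral_add_left hm]
    exact add_le_add (edge_y ψ hψ θ u hδ hG 1 0) (edge_y ψ hψ θ u hδ hG (-1) 0)
  have h4 : ∫⁻ x in Icc (-1:ℝ) 1, (ENNReal.ofReal (amp θ u (x, 1) * |vf ψ 1 (x, 1)|) +
        ENNReal.ofReal (amp θ u (x, -1) * |vf ψ 1 (x, -1)|)) ≤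
      (8 * D + 2) * XX δ + (8 * D + 2) * XX δ := by
    have hm : Measurable (fun x : ℝ => ENNReal.ofReal (amp θ u (x, 1) * |vf ψ 1 (x, 1)|)) :=
      (mv 1).comp (measurable_id.prodMk measurable_const)
    rw [lintegral_add_left hm]
    exact add_le_add (edge_x ψ hψ θ u hδ hG 1 1) (edge_x ψ hψ θ u hδ hG (-1) 1)
  refine (add_le_add (add_le_add h1 h2) (add_le_add h3 h4)).trans (le_of_eq ?_)
  push_cast
  ring

end Pool.Agent.H.MP_b7167f_an
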