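import Mathlib
import Pool.Agent.H.MP_b7167f_an.AlgSup

open MvPolynomial MeasureTheory Set Filter Topology
open scoped ENNReal NNReal

namespace Pool.Agent.H.MP_b7167f_an

variable {k m : ℕ}

/-- derivative of the basic step -/
noncomputable def stp' (c : ℝ) : ℝ := 6 * max 0 (c * (1 - c))

/-- basic step: `0` for `c ≤ 0` and `1` for `c ≥ 1` -/
noncomputable def stp (c : ℝ) : ℝ := ∫ s in (0:ℝ)..c, stp' s

lemma continuous_stp' : Continuous stp' := by unfold stp'; fun_prop

lemma stp'_nonneg (c : ℝ) : 0 ≤ stp' c := by unfold stp'; positivity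

lemma stp'_eq_zero {c : ℝ} (h : c ≤ 0 ∨ 1 ≤ c) : stp' c = 0 := by
  unfold stp'
  rw [max_eq_left, mul_zero]
  rcases h with h | h <;> nlinarith

lemma hasDerivAt_stp (c : ℝ) : HasDerivAt stp (stp' c) c :=
  (continuous_stp'.integral_hasStrictDerivAt 0 c).hasDerivAt

lemma monotone_stp : Monotone stp := by
  apply monotone_of_deriv_nonneg
  · exact fun c => (hasDerivAt_stp c).differentiableAt
  · intro c
    rw [(hasDerivAt_stp c).deriv]
    exact stp'_nonneg c

lemma stp_of_nonpos {c : ℝ} (h : c ≤ 0) : stp c = 0 := by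
  unfold stp
  rw [intervalIntegral.integral_congr (g := fun _ => (0:ℝ))]
  · simp
  · intro s hs
    rw [uIcc_of_ge h] at hs
    exact stp'_eq_zero (Or.inl hs.2)

lemma stp_one : stp 1 = 1 := by
  unfold stp
  have h : ∀ s ∈ uIcc (0:ℝ) 1, HasDerivAt (fun s : ℝ => 3 * s ^ 2 - 2 * s ^ 3) (stp' s) s := by
    intro s hs
    rw [uIcc_of_le (by norm_num)] at hs
    have h1 := ((hasDerivAt_pow 2 s).const_mul 3).sub ((hasDerivAt_pow 3 s).const_mul 2)
    refine h1.congr_deriv ?_
    unfold stp'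
    rw [max_eq_right (mul_nonneg hs.1 (by linarith [hs.2]))]
    norm_num
    ring
  rw [intervalIntegral.integral_eq_sub_of_hasDerivAt h (continuous_stp'.intervalIntegrable _ _)]
  norm_num

lemma stp_of_one_le {c : ℝ} (h : 1 ≤ c) : stp c = 1 := by
  have e : stp c = stp 1 + ∫ s in (1:ℝ)..c, stp' s := by
    unfold stp
    rw [intervalIntegral.integral_add_adjacent_intervals] <;>
      exact continuous_stp'.intervalIntegrable _ _
  rw [e, stp_one, intervalIntegral.integral_congr (g := fun _ => (0:ℝ))]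
  · simp
  · intro s hs
    rw [uIcc_of_le h] at hs
    exact stp'_eq_zero (Or.inr hs.1)

lemma stp_nonneg (c : ℝ) : 0 ≤ stp c := by
  rcases le_total c 0 with h | h
  · rw [stp_of_nonpos h]
  · rw [← stp_of_nonpos le_rfl]; exact monotone_stp h

lemma stp_le_one (c : ℝ) : stp c ≤ 1 := by
  rw [← stp_of_one_le (le_max_right c 1)]
  exact monotone_stp (le_max_left _ _)

lemma continuous_stp : Continuous stp :=
  continuous_iff_continuousAt.2 fun c => (hasDerivAt_stp c).continuousAt

lemma tv_le {f f' : ℝ → ℝ} (der : ∀ c, HasDerivAt f (f' c) c) (cont : Continuous f')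
    (nonneg : ∀ c, 0 ≤ f' c) (b0 : ∀ c, 0 ≤ f c) (b1 : ∀ c, f c ≤ 1) :
    ∫⁻ c, ENNReal.ofReal (f' c) ≤ 1 := by
  have hU : (⋃ n : ℕ, Icc (-(n:ℝ)) n) = univ := by
    rw [eq_univ_iff_forall]
    intro x
    obtain ⟨n, hn⟩ := exists_nat_ge |x|
    exact mem_iUnion.2 ⟨n, abs_le.1 hn⟩
  rw [← setLIntegral_univ, ← hU, setLIntegral_iUnion_of_directed]
  · apply iSup_le
    intro n
    rw [← ofReal_integral_eq_lintegral_ofReal (cont.integrableOn_Icc)
      (Eventually.of_forall nonneg), integral_Icc_eq_integral_Ioc,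
      ← intervalIntegral.integral_of_le (by have := n.cast_nonneg (α := ℝ); linarith),
      intervalIntegral.integral_eq_sub_of_hasDerivAt (fun x _ => der x)
        (cont.intervalIntegrable _ _)]
    rw [ENNReal.ofReal_le_one]
    have h1 := b1 n
    have h2 := b0 (-(n:ℝ))
    linarith
  · apply Monotone.directed_le
    intro a b hab
    apply Icc_subset_Icc
    · simp only [neg_le_neg_iff]; exact_mod_cast hab
    · exact_mod_cast hab

lemma hasDerivAt_aff (a b c : ℝ) :
    HasDerivAt (fun c => stp (a * c + b)) (stp' (a * c + b) * a) c := by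
  have h1 : HasDerivAt (fun c : ℝ => a * c + b) a c := by
    simpa using ((hasDerivAt_id c).const_mul a).add_const b
  exact (hasDerivAt_stp (a * c + b)).comp c h1

/-- affine changes of the basic step -/
noncomputable def StepF.aff (a b : ℝ) (ha : 0 ≤ a) : StepF where
  f := fun c => stp (a * c + b)
  f' := fun c => stp' (a * c + b) * a
  der := fun c => hasDerivAt_aff a b c
  cont := (continuous_stp'.comp (by fun_prop)).mul continuous_const
  nonneg := fun c => mul_nonneg (stp'_nonneg _) ha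
  b0 := fun c => stp_nonneg _
  b1 := fun c => stp_le_one _
  tv := tv_le (f := fun c => stp (a * c + b)) (f' := fun c => stp' (a * c + b) * a)
      (fun c => hasDerivAt_aff a b c) ((continuous_stp'.comp (by fun_prop)).mul continuous_const)
      (fun c => mul_nonneg (stp'_nonneg _) ha) (fun c => stp_nonneg _) (fun c => stp_le_one _)

/-! ### the cut-off in the Hessian -/

/-- the cut-off to the region where the Hessian is large -/
noncomputable def chi (ψ : P2) (δ : ℝ) (z : ℝ × ℝ) : ℝ :=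
  stp (2 * (pf (detP ψ) z ^ 2 / (δ ^ 2 * (pf (nsP ψ) z + δ ^ 2))) - 1)

lemma totalDegree_hs_le {ψ : P2} (h : ψ.totalDegree ≤ k) (a b : Fin 2) :
    (hs ψ a b).totalDegree ≤ k :=
  ((totalDegree_pderiv_le _ _).trans (totalDegree_pderiv_le _ _)).trans h

lemma totalDegree_detP_le {ψ : P2} (h : ψ.totalDegree ≤ k) : (detP ψ).totalDegree ≤ 2 * k := by
  unfold detP
  refine (totalDegree_sub _ _).trans (max_le ?_ ?_) <;>
  · refine (totalDegree_mul _ _).trans ?_
    have h1 := totalDegree_hs_le h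
    have := h1 0 0
    have := h1 0 1
    have := h1 1 0
    have := h1 1 1
    omega

lemma totalDegree_nsP_le {ψ : P2} (h : ψ.totalDegree ≤ k) : (nsP ψ).totalDegree ≤ 2 * k := by
  unfold nsP
  have h1 : ∀ a b, (hs ψ a b ^ 2).totalDegree ≤ 2 * k := by
    intro a b
    refine (totalDegree_pow _ _).trans ?_
    have := totalDegree_hs_le h a b
    omega
  exact (totalDegree_add _ _).trans (max_le ((totalDegree_add _ _).trans (max_le
    ((totalDegree_add _ _).trans (max_le (h1 _ _) (h1 _ _))) (h1 _ _))) (h1 _ _))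

lemma pf_nsP_nonneg (ψ : P2) (z : ℝ × ℝ) : 0 ≤ pf (nsP ψ) z := by rw [pf_nsP]; positivity

/-- the rational function in the cut-off -/
noncomputable def u0 (ψ : P2) (h : ψ.totalDegree ≤ k) (δ : ℝ) (hδ : 1 ≤ δ) : RatF (4 * k) where
  A := detP ψ ^ 2
  B := C (δ ^ 2) * (nsP ψ + C (δ ^ 2))
  hA := by
    refine (totalDegree_pow _ _).trans ?_
    have := totalDegree_detP_le h
    omega
  hB := by
    refine (totalDegree_mul _ _).trans ?_
    rw [totalDegree_C, zero_add]
    refine (totalDegree_add _ _).trans (max_le ((totalDegree_nsP_le h).trans (by omega)) ?_)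
    rw [totalDegree_C]; omega
  pos := fun z => by
    have h1 := pf_nsP_nonneg ψ z
    have h2 : 0 < δ ^ 2 := by positivity
    simp only [pf_mul, pf_add, pf_C]
    positivity

lemma chi_eq (ψ : P2) (h : ψ.totalDegree ≤ k) (δ : ℝ) (hδ : 1 ≤ δ) (z : ℝ × ℝ) :
    chi ψ δ z = (StepF.aff 2 (-1) (by norm_num)).f ((u0 ψ h δ hδ).val z) := by
  simp [chi, StepF.aff, u0, RatF.val, sub_eq_add_neg]

lemma good_of_lt {ψ : P2} {δ : ℝ} {z : ℝ × ℝ} (hδ : 1 ≤ δ)
    (h : 0 < 2 * (pf (detP ψ) z ^ 2 / (δ ^ 2 * (pf (nsP ψ) z + δ ^ 2))) - 1) : Good ψ δ z := by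
  have h1 := pf_nsP_nonneg ψ z
  have h2 : 0 < δ ^ 2 * (pf (nsP ψ) z + δ ^ 2) := by positivity
  unfold Good
  have h3 : 1 < 2 * pf (detP ψ) z ^ 2 / (δ ^ 2 * (pf (nsP ψ) z + δ ^ 2)) := by
    rw [mul_div_assoc]; linarith
  rw [lt_div_iff₀ h2] at h3
  linarith

lemma good_of_chi {ψ : P2} {δ : ℝ} {z : ℝ × ℝ} (hδ : 1 ≤ δ) (h : chi ψ δ z ≠ 0) :
    Good ψ δ z := by
  apply good_of_lt hδ
  by_contra hcon
  exact h (stp_of_nonpos (not_lt.1 hcon))

lemma chi_nonneg (ψ : P2) (δ : ℝ) (z : ℝ × ℝ) : 0 ≤ chi ψ δ z := stp_nonneg _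
lemma chi_le_one (ψ : P2) (δ : ℝ) (z : ℝ × ℝ) : chi ψ δ z ≤ 1 := stp_le_one _

lemma continuous_chi (ψ : P2) {δ : ℝ} (hδ : 1 ≤ δ) : Continuous (chi ψ δ) := by
  unfold chi
  apply continuous_stp.comp
  apply Continuous.sub _ continuous_const
  apply continuous_const.mul
  apply ((continuous_pf _).pow 2).div (continuous_const.mul ((continuous_pf _).add continuous_const))
  intro z
  have h1 := pf_nsP_nonneg ψ z
  have h2 : 0 < δ ^ 2 * (pf (nsP ψ) z + δ ^ 2) := by positivity
  exact h2.ne'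

/-- indicator function of a basic semialgebraic set -/
noncomputable def indS (p : Fin m → P2) (z : ℝ × ℝ) : ℝ :=
  indicator {z | ∀ i, 0 < pf (p i) z} (fun _ => 1) z

lemma measurableSet_S (p : Fin m → P2) : MeasurableSet {z | ∀ i, 0 < pf (p i) z} := by
  rw [Set.ofPred_forall]
  exact MeasurableSet.iInter fun i => measurableSet_lt measurable_const (measurable_pf _)

instance isFiniteMeasure_sq : IsFiniteMeasure (volume.restrict sq) := by
  constructor
  rw [Measure.restrict_apply MeasurableSet.univ, univ_inter, volume_sq]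
  norm_num

lemma measurable_indS (p : Fin m → P2) : Measurable (indS p) :=
  measurable_const.indicator (measurableSet_S p)

lemma indS_nonneg (p : Fin m → P2) (z : ℝ × ℝ) : 0 ≤ indS p z :=
  indicator_nonneg (fun _ _ => zero_le_one) z

lemma indS_le_one (p : Fin m → P2) (z : ℝ × ℝ) : indS p z ≤ 1 := by
  unfold indS
  exact indicator_le_self' (fun _ _ => zero_le_one) z

/-- the approximating families -/
noncomputable def thF (m : ℕ) (l : ℕ) : Fin (m + 1) → StepF :=
  Fin.cons (StepF.aff 2 (-1) (by norm_num)) (fun _ => StepF.aff (l + 1) 0 (by positivity))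

/-- the approximating families -/
noncomputable def uF (ψ : P2) (h : ψ.totalDegree ≤ k) (δ : ℝ) (hδ : 1 ≤ δ) (p : Fin m → P2)
    (hp : ∀ i, (p i).totalDegree ≤ k) : Fin (m + 1) → RatF (4 * k) :=
  Fin.cons (u0 ψ h δ hδ) (fun i => polyR (p i) ((hp i).trans (by omega)))

lemma amp_F (ψ : P2) (h : ψ.totalDegree ≤ k) (δ : ℝ) (hδ : 1 ≤ δ) (p : Fin m → P2)
    (hp : ∀ i, (p i).totalDegree ≤ k) (l : ℕ) (z : ℝ × ℝ) :
    amp (thF m l) (uF ψ h δ hδ p hp) z = chi ψ δ z * ∏ i, stp ((l + 1) * pf (p i) z) := by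
  unfold amp thF uF
  rw [Fin.prod_univ_succ, Fin.cons_zero, Fin.cons_zero, ← chi_eq]
  congr 1
  apply Finset.prod_congr rfl
  intro i _
  rw [Fin.cons_succ, Fin.cons_succ, polyR_val]
  simp [StepF.aff]

lemma tendsto_factor (c : ℝ) :
    Tendsto (fun l : ℕ => stp (((l:ℝ) + 1) * c)) atTop (𝓝 (if 0 < c then 1 else 0)) := by
  by_cases h : 0 < c
  · rw [if_pos h]
    apply tendsto_const_nhds.congr'
    obtain ⟨n, hn⟩ := exists_nat_ge (1 / c)
    filter_upwards [eventually_ge_atTop n] with l hl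
    rw [stp_of_one_le]
    have h1 : (n:ℝ) ≤ l := by exact_mod_cast hl
    rw [div_le_iff₀ h] at hn
    nlinarith
  · rw [if_neg h]
    apply tendsto_const_nhds.congr
    intro l
    rw [stp_of_nonpos]
    have : (0:ℝ) ≤ (l:ℝ) + 1 := by positivity
    nlinarith [not_lt.1 h]

lemma tendsto_prod (p : Fin m → P2) (z : ℝ × ℝ) :
    Tendsto (fun l : ℕ => ∏ i, stp (((l:ℝ) + 1) * pf (p i) z)) atTop (𝓝 (indS p z)) := by
  have h := tendsto_finsetProd (Finset.univ : Finset (Fin m))
    (f := fun i (l : ℕ) => stp (((l:ℝ) + 1) * pf (p i) z))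
    (a := fun i => if 0 < pf (p i) z then (1:ℝ) else 0) (fun i _ => tendsto_factor (pf (p i) z))
  have e : ∏ i, (if 0 < pf (p i) z then (1:ℝ) else 0) = indS p z := by
    unfold indS
    by_cases hz : ∀ i, 0 < pf (p i) z
    · rw [indicator_of_mem (show z ∈ {z | ∀ i, 0 < pf (p i) z} from hz)]
      exact Finset.prod_eq_one fun i _ => if_pos (hz i)
    · rw [indicator_of_notMem (show z ∉ {z | ∀ i, 0 < pf (p i) z} from hz)]
      push Not at hz
      obtain ⟨i, hi⟩ := hz
      exact Finset.prod_eq_zero (Finset.mem_univ i) (if_neg (not_lt.2 hi))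
  rwa [e] at h

/-- uniform bound for the localized oscillatory integral with a sharp semialgebraic cut-off -/
theorem chi_bound (k m : ℕ) : ∃ C : ℕ, ∀ ψ : P2, ψ.totalDegree ≤ k → ∀ p : Fin m → P2,
    (∀ i, (p i).totalDegree ≤ k) → ∀ δ : ℝ, 1 ≤ δ →
    ‖∫ z in sq, ((chi ψ δ z * indS p z : ℝ) : ℂ) * osc ψ z‖ₑ ≤ C * XX δ := by
  obtain ⟨C, hC⟩ := sup_bound (4 * k) (m + 1)
  refine ⟨C, ?_⟩
  intro ψ h p hp δ hδ
  have hgr : ∀ b, (gr ψ b).totalDegree ≤ 4 * k := fun b =>
    ((totalDegree_pderiv_le _ _).trans h).trans (by omega)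
  have hb : ∀ l : ℕ, ‖∫ z in sq, ((amp (thF m l) (uF ψ h δ hδ p hp) z : ℝ) : ℂ) * osc ψ z‖ₑ ≤
      C * XX δ := by
    intro l
    apply hC ψ hgr _ _ δ hδ
    · intro z hz
      rw [amp_F] at hz
      exact good_of_chi hδ (left_ne_zero_of_mul hz)
    · intro i z hz
      unfold ampC at hz
      refine Fin.cases ?_ (fun j => ?_) i hz
      · intro hz
        apply good_of_lt hδ
        by_contra hcon
        apply right_ne_zero_of_mul hz
        unfold thF uF
        rw [Fin.cons_zero, Fin.cons_zero]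
        simp only [StepF.aff]
        rw [stp'_eq_zero, zero_mul]
        left
        simpa [u0, RatF.val, sub_eq_add_neg] using not_lt.1 hcon
      · intro hz
        apply good_of_chi hδ
        have h0 := left_ne_zero_of_mul hz
        rw [Finset.prod_ne_zero_iff] at h0
        have h1 := h0 0 (Finset.mem_erase.2 ⟨(Fin.succ_ne_zero j).symm, Finset.mem_univ _⟩)
        unfold thF uF at h1
        rw [Fin.cons_zero, Fin.cons_zero, ← chi_eq] at h1
        exact h1
  have hlim : Tendsto (fun l : ℕ =>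
      ∫ z in sq, ((amp (thF m l) (uF ψ h δ hδ p hp) z : ℝ) : ℂ) * osc ψ z) atTop
      (𝓝 (∫ z in sq, ((chi ψ δ z * indS p z : ℝ) : ℂ) * osc ψ z)) := by
    apply tendsto_integral_of_dominated_convergence (fun _ => (1:ℝ))
    · intro l
      exact ((Complex.continuous_ofReal.comp (continuous_amp _ _)).mul
        (continuous_osc ψ)).aestronglyMeasurable
    · exact (integrable_const (1:ℝ) : Integrable (fun _ => (1:ℝ)) (volume.restrict sq))
    · intro l
      refine Eventually.of_forall fun z => ?_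
      rw [norm_mul, norm_osc, mul_one, Complex.norm_real, Real.norm_eq_abs,
        abs_of_nonneg (amp_nonneg _ _ z)]
      exact amp_le_one _ _ z
    · refine Eventually.of_forall fun z => ?_
      apply Tendsto.mul _ tendsto_const_nhds
      apply (Complex.continuous_ofReal.tendsto _).comp
      simp_rw [amp_F]
      exact (tendsto_prod p z).const_mul _
  exact le_of_tendsto' hlim.enorm hb

end Pool.Agent.H.MP_b7167f_an
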