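import Mathlib
import Pool.Agent.H.MP_b7167f_an.AlgStep

open MvPolynomial MeasureTheory Set Filter Topology
open scoped ENNReal NNReal

namespace Pool.Agent.H.MP_b7167f_an

variable {k m : ℕ}

lemma pderiv_comm01 (p : P2) : pderiv 0 (pderiv 1 p) = pderiv 1 (pderiv 0 p) := by
  have h : ⁅(pderiv 0 : Derivation ℝ P2 P2), (pderiv 1 : Derivation ℝ P2 P2)⁆ = 0 := by
    apply MvPolynomial.derivation_ext
    intro i
    rw [Derivation.commutator_apply]
    fin_cases i <;> simp [pderiv_X]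
  have h2 := congrArg (fun D : Derivation ℝ P2 P2 => D p) h
  simp only [Derivation.commutator_apply, Derivation.coe_zero, Pi.zero_apply] at h2
  exact sub_eq_zero.1 h2

/-- the phase of the extension operator applied to `e^{iP}` -/
noncomputable def phs (P : P2) (x : ℝ × ℝ) (t : ℝ) : P2 :=
  P + (C (2 * Real.pi * x.1) * X 0 + C (2 * Real.pi * x.2) * X 1 +
    C (2 * Real.pi * t) * (X 0 ^ 2 + X 1 ^ 2))

lemma pf_phs (P : P2) (x : ℝ × ℝ) (t : ℝ) (z : ℝ × ℝ) :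
    pf (phs P x t) z = pf P z + 2 * Real.pi * ((z.1 * x.1 + z.2 * x.2) +
      (z.1 ^ 2 + z.2 ^ 2) * t) := by
  simp only [phs, pf_add, pf_mul, pf_C, pf_X0, pf_X1, pf_pow]
  ring

lemma totalDegree_phs_le {P : P2} (h : P.totalDegree ≤ k) (x : ℝ × ℝ) (t : ℝ) :
    (phs P x t).totalDegree ≤ k + 2 := by
  have hX : ∀ i : Fin 2, (X i : P2).totalDegree ≤ 1 := fun i => (totalDegree_X i).le
  have hC : ∀ (a : ℝ) (q : P2), (C a * q).totalDegree ≤ q.totalDegree := by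
    intro a q
    refine (totalDegree_mul _ _).trans ?_
    rw [totalDegree_C, zero_add]
  unfold phs
  refine (totalDegree_add _ _).trans (max_le (by omega) ?_)
  refine (totalDegree_add _ _).trans (max_le ?_ ?_)
  · refine (totalDegree_add _ _).trans (max_le ?_ ?_)
    · exact (hC _ _).trans ((hX 0).trans (by omega))
    · exact (hC _ _).trans ((hX 1).trans (by omega))
  · refine (hC _ _).trans ((totalDegree_add _ _).trans (max_le ?_ ?_))
    · refine (totalDegree_pow _ _).trans ?_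
      have := hX 0
      omega
    · refine (totalDegree_pow _ _).trans ?_
      have := hX 1
      omega

lemma pderiv_two (i : Fin 2) : pderiv i (2 : P2) = 0 := by
  simpa using (pderiv i : Derivation ℝ P2 P2).map_natCast 2

lemma pf_hs00 (P : P2) (x : ℝ × ℝ) (t : ℝ) (z : ℝ × ℝ) :
    pf (hs (phs P x t) 0 0) z = pf (hs P 0 0) z + 4 * Real.pi * t := by
  simp only [hs, phs, map_add, Derivation.leibniz, Derivation.leibniz_pow, pderiv_C, pderiv_X,
    smul_eq_mul, nsmul_eq_mul]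
  simp [pf, pderiv_two]
  ring

lemma pf_hs11 (P : P2) (x : ℝ × ℝ) (t : ℝ) (z : ℝ × ℝ) :
    pf (hs (phs P x t) 1 1) z = pf (hs P 1 1) z + 4 * Real.pi * t := by
  simp only [hs, phs, map_add, Derivation.leibniz, Derivation.leibniz_pow, pderiv_C, pderiv_X,
    smul_eq_mul, nsmul_eq_mul]
  simp [pf, pderiv_two]
  ring

lemma pf_hs01 (P : P2) (x : ℝ × ℝ) (t : ℝ) (z : ℝ × ℝ) :
    pf (hs (phs P x t) 0 1) z = pf (hs P 0 1) z := by
  simp only [hs, phs, map_add, Derivation.leibniz, Derivation.leibniz_pow, pderiv_C, pderiv_X,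
    smul_eq_mul, nsmul_eq_mul]
  simp [pf, pderiv_two]

lemma pf_hs10 (P : P2) (x : ℝ × ℝ) (t : ℝ) (z : ℝ × ℝ) :
    pf (hs (phs P x t) 1 0) z = pf (hs P 0 1) z := by
  rw [← pf_hs01 P x t z]
  unfold hs
  rw [pderiv_comm01]

lemma pf_detP_phs (P : P2) (x : ℝ × ℝ) (t : ℝ) (z : ℝ × ℝ) :
    pf (detP (phs P x t)) z = (pf (hs P 0 0) z + 4 * Real.pi * t) *
      (pf (hs P 1 1) z + 4 * Real.pi * t) - pf (hs P 0 1) z ^ 2 := by
  rw [pf_detP, pf_hs00, pf_hs11, pf_hs01, pf_hs10]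
  ring

lemma pf_nsP_phs (P : P2) (x : ℝ × ℝ) (t : ℝ) (z : ℝ × ℝ) :
    pf (nsP (phs P x t)) z = (pf (hs P 0 0) z + 4 * Real.pi * t) ^ 2 +
      (pf (hs P 1 1) z + 4 * Real.pi * t) ^ 2 + 2 * pf (hs P 0 1) z ^ 2 := by
  rw [pf_nsP, pf_hs00, pf_hs11, pf_hs01, pf_hs10]
  ring

lemma chi_phs (P : P2) (x : ℝ × ℝ) (t : ℝ) (δ : ℝ) (z : ℝ × ℝ) :
    chi (phs P x t) δ z = chi (phs P 0 t) δ z := by
  unfold chi
  rw [pf_detP_phs, pf_nsP_phs, pf_detP_phs, pf_nsP_phs]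

/-- the set where the Hessian has a small eigenvalue -/
def Bd (P : P2) (t δ : ℝ) : Set (ℝ × ℝ) :=
  {z | pf (detP (phs P 0 t)) z ^ 2 < δ ^ 2 * (pf (nsP (phs P 0 t)) z + δ ^ 2)}

lemma measurableSet_Bd (P : P2) (t δ : ℝ) : MeasurableSet (Bd P t δ) :=
  measurableSet_lt ((measurable_pf _).pow_const 2)
    (((measurable_pf _).add measurable_const).const_mul _)

lemma measurableSet_Bd2 (P : P2) (δ : ℝ) :
    MeasurableSet {w : ℝ × (ℝ × ℝ) | w.2 ∈ Bd P w.1 δ} := by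
  have h : {w : ℝ × (ℝ × ℝ) | w.2 ∈ Bd P w.1 δ} =
      {w : ℝ × (ℝ × ℝ) | ((pf (hs P 0 0) w.2 + 4 * Real.pi * w.1) *
      (pf (hs P 1 1) w.2 + 4 * Real.pi * w.1) - pf (hs P 0 1) w.2 ^ 2) ^ 2 <
      δ ^ 2 * (((pf (hs P 0 0) w.2 + 4 * Real.pi * w.1) ^ 2 +
      (pf (hs P 1 1) w.2 + 4 * Real.pi * w.1) ^ 2 + 2 * pf (hs P 0 1) w.2 ^ 2) + δ ^ 2)} := by
    ext w
    simp only [Bd, Set.mem_ofPred_eq, pf_detP_phs, pf_nsP_phs]
  rw [h]
  have c00 := (continuous_pf (hs P 0 0)).comp (continuous_snd (X := ℝ) (Y := ℝ × ℝ))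
  have c11 := (continuous_pf (hs P 1 1)).comp (continuous_snd (X := ℝ) (Y := ℝ × ℝ))
  have c01 := (continuous_pf (hs P 0 1)).comp (continuous_snd (X := ℝ) (Y := ℝ × ℝ))
  simp only [Function.comp_def] at c00 c11 c01
  apply measurableSet_lt
  · apply Continuous.measurable; fun_prop
  · apply Continuous.measurable; fun_prop

lemma eig_small {A B E δ t : ℝ} (hδ : 0 < δ)
    (h : ((A + 4 * Real.pi * t) * (E + 4 * Real.pi * t) - B ^ 2) ^ 2 <
      δ ^ 2 * (((A + 4 * Real.pi * t) ^ 2 + (E + 4 * Real.pi * t) ^ 2 + 2 * B ^ 2) + δ ^ 2)) :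
    |(|(A + E) / 2 + 4 * Real.pi * t| - Real.sqrt (((A - E) / 2) ^ 2 + B ^ 2))| < 2 * δ := by
  set mm := (A + E) / 2 + 4 * Real.pi * t with hm
  set r := Real.sqrt (((A - E) / 2) ^ 2 + B ^ 2) with hr
  have hr0 : 0 ≤ r := Real.sqrt_nonneg _
  have hr2 : r ^ 2 = ((A - E) / 2) ^ 2 + B ^ 2 := Real.sq_sqrt (by positivity)
  have e1 : (A + 4 * Real.pi * t) * (E + 4 * Real.pi * t) - B ^ 2 = mm ^ 2 - r ^ 2 := by
    rw [hr2, hm]; ring
  have e2 : (A + 4 * Real.pi * t) ^ 2 + (E + 4 * Real.pi * t) ^ 2 + 2 * B ^ 2 =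
      2 * (mm ^ 2 + r ^ 2) := by
    rw [hr2, hm]; ring
  rw [e1, e2, ← sq_abs mm] at h
  set M := |mm| with hM
  have hM0 : 0 ≤ M := abs_nonneg _
  by_contra hcon
  rw [not_lt] at hcon
  have h1 : (2 * δ) ^ 2 ≤ (M - r) ^ 2 := by
    rw [← sq_abs (M - r)]
    gcongr
  have h2 : |M - r| ≤ M + r := by
    rw [abs_le]; constructor <;> linarith
  have h3 : 2 * δ ≤ M + r := hcon.trans h2
  have h4 : (2 * δ) ^ 2 ≤ (M + r) ^ 2 := by gcongr
  have h5 : (M ^ 2 - r ^ 2) ^ 2 = (M - r) ^ 2 * (M + r) ^ 2 := by ring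
  have h6 : (2 * δ) ^ 2 * (M + r) ^ 2 ≤ (M ^ 2 - r ^ 2) ^ 2 := by
    rw [h5]; gcongr
  have h7 : δ ^ 2 * (2 * (M ^ 2 + r ^ 2) + δ ^ 2) ≤ (2 * δ) ^ 2 * (M + r) ^ 2 := by
    have h8 : 2 * (M ^ 2 + r ^ 2) + δ ^ 2 ≤ 4 * (M + r) ^ 2 := by
      nlinarith [mul_nonneg hM0 hr0]
    calc δ ^ 2 * (2 * (M ^ 2 + r ^ 2) + δ ^ 2) ≤ δ ^ 2 * (4 * (M + r) ^ 2) := by gcongr
      _ = _ := by ring
  linarith

lemma time_measure {δ : ℝ} (hδ : 0 < δ) (c r : ℝ) :
    volume {t : ℝ | |(|c + 4 * Real.pi * t| - r)| < 2 * δ} ≤ ENNReal.ofReal (2 * δ) := by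
  have hpi : 3 < Real.pi := Real.pi_gt_three
  have hsub : {t : ℝ | |(|c + 4 * Real.pi * t| - r)| < 2 * δ} ⊆
      Icc ((r - 2 * δ - c) / (4 * Real.pi)) ((r + 2 * δ - c) / (4 * Real.pi)) ∪
      Icc ((-r - 2 * δ - c) / (4 * Real.pi)) ((-r + 2 * δ - c) / (4 * Real.pi)) := by
    intro t ht
    simp only [Set.mem_ofPred_eq, abs_lt] at ht
    rcases le_total 0 (c + 4 * Real.pi * t) with h | h
    · rw [abs_of_nonneg h] at ht
      left
      constructor
      · rw [div_le_iff₀ (by positivity)]; linarith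
      · rw [le_div_iff₀ (by positivity)]; linarith
    · rw [abs_of_nonpos h] at ht
      right
      constructor
      · rw [div_le_iff₀ (by positivity)]; linarith
      · rw [le_div_iff₀ (by positivity)]; linarith
  refine (measure_mono hsub).trans ((measure_union_le _ _).trans ?_)
  rw [Real.volume_Icc, Real.volume_Icc, ← ENNReal.ofReal_add]
  · apply ENNReal.ofReal_le_ofReal
    rw [← sub_div, ← sub_div, ← add_div, div_le_iff₀ (by positivity)]
    nlinarith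
  · rw [← sub_div]
    apply div_nonneg _ (by positivity)
    linarith
  · rw [← sub_div]
    apply div_nonneg _ (by positivity)
    linarith

/-- the indicator of the bad set, as a function of time and frequency -/
noncomputable def bdI (P : P2) (δ : ℝ) (w : ℝ × (ℝ × ℝ)) : ℝ≥0∞ :=
  Set.indicator {w : ℝ × (ℝ × ℝ) | w.2 ∈ Bd P w.1 δ} (fun _ => (1:ℝ≥0∞)) w

lemma measurable_bdI (P : P2) (δ : ℝ) : Measurable (bdI P δ) :=
  measurable_const.indicator (measurableSet_Bd2 P δ)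

lemma bdI_z (P : P2) (δ t : ℝ) : volume (sq ∩ Bd P t δ) = ∫⁻ z in sq, bdI P δ (t, z) := by
  have h : (fun z => bdI P δ (t, z)) = Set.indicator (Bd P t δ) (fun _ => 1) := by
    ext z
    unfold bdI
    by_cases hz : z ∈ Bd P t δ
    · rw [Set.indicator_of_mem hz, Set.indicator_of_mem]
      exact hz
    · rw [Set.indicator_of_notMem hz, Set.indicator_of_notMem]
      exact hz
  rw [h, lintegral_indicator (measurableSet_Bd P t δ), setLIntegral_one,
      Measure.restrict_apply (measurableSet_Bd P t δ), inter_comm]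

lemma bdI_t (P : P2) {δ : ℝ} (hδ : 0 < δ) (z : ℝ × ℝ) :
    ∫⁻ t, bdI P δ (t, z) ≤ ENNReal.ofReal (2 * δ) := by
  set T : Set ℝ := {t : ℝ | |(|(pf (hs P 0 0) z + pf (hs P 1 1) z) / 2 + 4 * Real.pi * t| -
    Real.sqrt (((pf (hs P 0 0) z - pf (hs P 1 1) z) / 2) ^ 2 + pf (hs P 0 1) z ^ 2))| < 2 * δ}
    with hT
  have hTm : MeasurableSet T := by
    apply measurableSet_lt _ measurable_const
    apply Continuous.measurable
    fun_prop
  calc ∫⁻ t, bdI P δ (t, z) ≤ ∫⁻ t, Set.indicator T (fun _ => (1:ℝ≥0∞)) t := by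
        apply lintegral_mono
        intro t
        simp only [bdI]
        by_cases hz : z ∈ Bd P t δ
        · have ht : t ∈ T := by
            simp only [Bd, Set.mem_ofPred_eq, pf_detP_phs, pf_nsP_phs] at hz
            exact eig_small hδ hz
          rw [Set.indicator_of_mem ht]
          exact Set.indicator_le_self' (s := {w : ℝ × (ℝ × ℝ) | w.2 ∈ Bd P w.1 δ})
            (f := fun _ => (1:ℝ≥0∞)) (fun _ _ => zero_le_one) (t, z)
        · have hz' : (t, z) ∉ {w : ℝ × (ℝ × ℝ) | w.2 ∈ Bd P w.1 δ} := hz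
          rw [Set.indicator_of_notMem hz']
          exact zero_le
    _ = volume T := by
        rw [lintegral_indicator hTm, setLIntegral_one]
    _ ≤ _ := time_measure hδ _ _

/-- the time integral of the measure of the bad set -/
theorem time_Bd (P : P2) {δ : ℝ} (hδ : 0 < δ) :
    ∫⁻ t, volume (sq ∩ Bd P t δ) ≤ ENNReal.ofReal (8 * δ) := by
  simp_rw [bdI_z]
  have hm : Measurable (Function.uncurry fun (t : ℝ) (z : ℝ × ℝ) => bdI P δ (t, z)) :=
    measurable_bdI P δ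
  rw [lintegral_lintegral_swap hm.aemeasurable]
  calc ∫⁻ z in sq, ∫⁻ t, bdI P δ (t, z)
        ≤ ∫⁻ _z in sq, ENNReal.ofReal (2 * δ) := lintegral_mono fun z => bdI_t P hδ z
      _ = ENNReal.ofReal (8 * δ) := by
          rw [setLIntegral_const, volume_sq, show (8:ℝ) * δ = (2 * δ) * 4 by ring,
            ENNReal.ofReal_mul (p := 2 * δ) (by positivity), show ENNReal.ofReal 4 = 4 by simp]

end Pool.Agent.H.MP_b7167f_an
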