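import Mathlib
import Pool.Agent.H.MP_b7167f_an.AlgTime
import Pool.Agent.H.MP_b7167f_an.AlgJensen
import Pool.Agent.H.MP_b7167f_an.FormInterp

open MvPolynomial MeasureTheory Set Filter Topology
open scoped ENNReal NNReal

namespace Pool.Agent.H.MP_b7167f_an

variable {k m : ℕ}

/-- two-dimensional extension operator on `ℝ × ℝ` -/
noncomputable def Wop (h : ℝ × ℝ → ℂ) (x : ℝ × ℝ) (t : ℝ) : ℂ :=
  ∫ z in sq, ch ((z.1 * x.1 + z.2 * x.2) + (z.1 ^ 2 + z.2 ^ 2) * t) * h z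

lemma Wop_eq_extOp (h : ℝ × ℝ → ℂ) (x : ℝ × ℝ) (t : ℝ) :
    Wop h x t = extOp 2 (fun ξ => h (ξ 0, ξ 1)) (![x.1, x.2], t) := by
  rw [extOp_eq_integral]
  unfold Wop
  rw [← integral_indicator measurableSet_sq]
  rw [← (volume_preserving_finTwoArrow ℝ).integral_comp
    (MeasurableEquiv.finTwoArrow (α := ℝ)).measurableEmbedding]
  congr 1
  ext ξ
  have e : MeasurableEquiv.finTwoArrow ξ = (ξ 0, ξ 1) := rfl
  rw [e]
  by_cases hξ : ξ ∈ cube 2
  · have h2 : (ξ 0, ξ 1) ∈ sq := ⟨(mem_cube.1 hξ) 0, (mem_cube.1 hξ) 1⟩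
    rw [Set.indicator_of_mem h2, Set.indicator_of_mem hξ]
    simp [Fin.sum_univ_two]
  · have h2 : (ξ 0, ξ 1) ∉ sq := by
      intro hcon
      apply hξ
      rw [mem_cube]
      intro j
      fin_cases j
      · exact hcon.1
      · exact hcon.2
    rw [Set.indicator_of_notMem h2, Set.indicator_of_notMem hξ, mul_zero]

lemma Wop_L2 {h : ℝ × ℝ → ℂ} (hh : Measurable h) {C : ℝ} (hb : ∀ z ∈ sq, ‖h z‖ ≤ C) (t : ℝ) :
    ∫⁻ x : ℝ × ℝ, ‖Wop h x t‖ₑ ^ 2 = ∫⁻ z in sq, ‖h z‖ₑ ^ 2 := by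
  have hm : Measurable (fun ξ : Fin 2 → ℝ => h (ξ 0, ξ 1)) := by
    apply hh.comp; fun_prop
  have h1 := extOp_L2 (n := 2) (f := fun ξ => h (ξ 0, ξ 1)) hm (C := C)
    (fun ξ hξ => hb _ ⟨(mem_cube.1 hξ) 0, (mem_cube.1 hξ) 1⟩) t
  have h2 : ∫⁻ x : ℝ × ℝ, ‖Wop h x t‖ₑ ^ 2 =
      ∫⁻ x : Fin 2 → ℝ, ‖extOp 2 (fun ξ => h (ξ 0, ξ 1)) (x, t)‖ₑ ^ 2 := by
    rw [← (volume_preserving_finTwoArrow ℝ).lintegral_comp_emb
      (MeasurableEquiv.finTwoArrow (α := ℝ)).measurableEmbedding]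
    congr 1
    ext ξ
    have e : MeasurableEquiv.finTwoArrow ξ = (ξ 0, ξ 1) := rfl
    rw [e, Wop_eq_extOp]
    congr 4
    ext j
    fin_cases j <;> rfl
  rw [h2, h1, ← lintegral_indicator measurableSet_cube, ← lintegral_indicator measurableSet_sq,
    ← (volume_preserving_finTwoArrow ℝ).lintegral_comp_emb
      (MeasurableEquiv.finTwoArrow (α := ℝ)).measurableEmbedding]
  congr 1
  ext ξ
  have e : MeasurableEquiv.finTwoArrow ξ = (ξ 0, ξ 1) := rfl
  rw [e]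
  by_cases hξ : ξ ∈ cube 2
  · have h2 : (ξ 0, ξ 1) ∈ sq := ⟨(mem_cube.1 hξ) 0, (mem_cube.1 hξ) 1⟩
    rw [Set.indicator_of_mem h2, Set.indicator_of_mem hξ]
  · have h2 : (ξ 0, ξ 1) ∉ sq := by
      intro hcon
      apply hξ
      rw [mem_cube]
      intro j
      fin_cases j
      · exact hcon.1
      · exact hcon.2
    rw [Set.indicator_of_notMem h2, Set.indicator_of_notMem hξ]

/-- the function `1_S e^{iP}` -/
noncomputable def hh (P : P2) (p : Fin m → P2) (z : ℝ × ℝ) : ℂ := (indS p z : ℂ) * osc P z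

lemma measurable_hh (P : P2) (p : Fin m → P2) : Measurable (hh P p) :=
  (Complex.measurable_ofReal.comp (measurable_indS p)).mul (continuous_osc P).measurable

lemma norm_hh_le (P : P2) (p : Fin m → P2) (z : ℝ × ℝ) : ‖hh P p z‖ ≤ 1 := by
  unfold hh
  rw [norm_mul, norm_osc, mul_one, Complex.norm_real, Real.norm_eq_abs,
    abs_of_nonneg (indS_nonneg p z)]
  exact indS_le_one p z

lemma osc_phs (P : P2) (x : ℝ × ℝ) (t : ℝ) (z : ℝ × ℝ) :
    osc (phs P x t) z = ch ((z.1 * x.1 + z.2 * x.2) + (z.1 ^ 2 + z.2 ^ 2) * t) * osc P z := by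
  unfold osc ch
  rw [← Complex.exp_add, pf_phs]
  congr 1
  push_cast
  ring

/-- the pieces of the decomposition of `1` -/
noncomputable def aj (P : P2) (t : ℝ) : ℕ → ℝ × ℝ → ℝ
  | 0 => fun z => 1 - chi (phs P 0 t) 1 z
  | j + 1 => fun z => chi (phs P 0 t) (2 ^ j) z - chi (phs P 0 t) (2 ^ (j + 1)) z

lemma one_le_two_pow' (j : ℕ) : (1:ℝ) ≤ 2 ^ j := one_le_pow₀ (by norm_num)

lemma continuous_aj (P : P2) (t : ℝ) (j : ℕ) : Continuous (aj P t j) := by
  cases j with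
  | zero => exact continuous_const.sub (continuous_chi _ le_rfl)
  | succ j => exact (continuous_chi _ (one_le_two_pow' j)).sub (continuous_chi _ (one_le_two_pow' _))

lemma abs_aj_le (P : P2) (t : ℝ) (j : ℕ) (z : ℝ × ℝ) : |aj P t j z| ≤ 1 := by
  cases j with
  | zero =>
    simp only [aj]
    rw [abs_le]
    constructor <;> linarith [chi_nonneg (phs P 0 t) 1 z, chi_le_one (phs P 0 t) 1 z]
  | succ j =>
    simp only [aj]
    rw [abs_le]
    constructor <;> linarith [chi_nonneg (phs P 0 t) (2 ^ j) z, chi_le_one (phs P 0 t) (2 ^ j) z,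
      chi_nonneg (phs P 0 t) (2 ^ (j + 1)) z, chi_le_one (phs P 0 t) (2 ^ (j + 1)) z]

lemma sum_aj (P : P2) (t : ℝ) (J : ℕ) (z : ℝ × ℝ) :
    ∑ j ∈ Finset.range (J + 1), aj P t j z = 1 - chi (phs P 0 t) (2 ^ J) z := by
  induction J with
  | zero => simp [aj]
  | succ J ih => rw [Finset.sum_range_succ, ih]; simp only [aj]; ring

lemma chi_eq_one {ψ : P2} {δ : ℝ} {z : ℝ × ℝ} (hδ : 1 ≤ δ)
    (h : δ ^ 2 * (pf (nsP ψ) z + δ ^ 2) ≤ pf (detP ψ) z ^ 2) : chi ψ δ z = 1 := by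
  have h1 := pf_nsP_nonneg ψ z
  have h2 : 0 < δ ^ 2 * (pf (nsP ψ) z + δ ^ 2) := by positivity
  unfold chi
  apply stp_of_one_le
  have h3 : 1 ≤ pf (detP ψ) z ^ 2 / (δ ^ 2 * (pf (nsP ψ) z + δ ^ 2)) := by
    rw [le_div_iff₀ h2, one_mul]; exact h
  linarith

lemma aj_supp (P : P2) (t : ℝ) (j : ℕ) (z : ℝ × ℝ) (h : z ∉ Bd P t (2 ^ j)) : aj P t j z = 0 := by
  unfold Bd at h
  rw [Set.mem_ofPred_eq, not_lt] at h
  cases j with
  | zero =>
    simp only [aj]
    rw [pow_zero] at h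
    rw [chi_eq_one le_rfl h, sub_self]
  | succ j =>
    simp only [aj]
    have h1 := chi_eq_one (one_le_two_pow' (j + 1)) h
    have h2 : chi (phs P 0 t) (2 ^ j) z = 1 := by
      apply chi_eq_one (one_le_two_pow' j)
      refine le_trans ?_ h
      have hn := pf_nsP_nonneg (phs P 0 t) z
      have h3 : (2:ℝ) ^ j ≤ 2 ^ (j + 1) := pow_le_pow_right₀ (by norm_num) (Nat.le_succ j)
      gcongr
    rw [h1, h2, sub_self]

/-- the extension of the `j`-th piece -/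
noncomputable def Wj (P : P2) (p : Fin m → P2) (j : ℕ) (x : ℝ × ℝ) (t : ℝ) : ℂ :=
  Wop (fun z => (aj P t j z : ℂ) * hh P p z) x t

lemma integral_chi (P : P2) (p : Fin m → P2) (δ : ℝ) (x : ℝ × ℝ) (t : ℝ) :
    Wop (fun z => (chi (phs P 0 t) δ z : ℂ) * hh P p z) x t =
      ∫ z in sq, ((chi (phs P x t) δ z * indS p z : ℝ) : ℂ) * osc (phs P x t) z := by
  unfold Wop
  congr 1
  ext z
  rw [osc_phs, chi_phs]
  unfold hh
  push_cast
  ring

lemma integrable_W {a : ℝ × ℝ → ℂ} (ha : Measurable a) {C : ℝ} (hb : ∀ z, ‖a z‖ ≤ C) (x : ℝ × ℝ)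
    (t : ℝ) : IntegrableOn (fun z : ℝ × ℝ =>
      ch ((z.1 * x.1 + z.2 * x.2) + (z.1 ^ 2 + z.2 ^ 2) * t) * a z) sq := by
  apply Measure.integrableOn_of_bounded (M := C)
  · rw [volume_sq]; norm_num
  · apply Measurable.aestronglyMeasurable
    apply Measurable.mul _ ha
    apply Continuous.measurable
    fun_prop
  · refine Eventually.of_forall fun z => ?_
    rw [norm_mul, norm_ch, one_mul]
    exact hb z

lemma measurable_ahh {a : ℝ × ℝ → ℝ} (ha : Continuous a) (P : P2) (p : Fin m → P2) :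
    Measurable (fun z => (a z : ℂ) * hh P p z) :=
  (Complex.measurable_ofReal.comp ha.measurable).mul (measurable_hh P p)

lemma norm_ahh_le {a : ℝ × ℝ → ℝ} {B : ℝ} (hB : 0 ≤ B) (ha : ∀ z, |a z| ≤ B) (P : P2)
    (p : Fin m → P2) (z : ℝ × ℝ) : ‖(a z : ℂ) * hh P p z‖ ≤ B := by
  rw [norm_mul, Complex.norm_real, Real.norm_eq_abs]
  calc |a z| * ‖hh P p z‖ ≤ B * 1 := by
        apply mul_le_mul (ha z) (norm_hh_le P p z) (norm_nonneg _) hB
    _ = B := mul_one B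

lemma Wop_le_volume {a : ℝ × ℝ → ℂ} (hb : ∀ z, ‖a z‖ ≤ 1) (x : ℝ × ℝ) (t : ℝ) :
    ‖Wop a x t‖ₑ ≤ 4 := by
  unfold Wop
  refine (enorm_integral_le_lintegral_enorm _).trans ?_
  calc ∫⁻ z in sq, ‖ch ((z.1 * x.1 + z.2 * x.2) + (z.1 ^ 2 + z.2 ^ 2) * t) * a z‖ₑ
      ≤ ∫⁻ _z in sq, 1 := by
        apply lintegral_mono
        intro z
        simp only
        rw [enorm_mul, enorm_ch, one_mul, ← ofReal_norm]
        exact ENNReal.ofReal_le_one.2 (hb z)
    _ = 4 := by rw [setLIntegral_one, volume_sq]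

lemma XX_one : XX 1 = 1 := by simp [XX]

lemma XX_double (j : ℕ) : XX (2 ^ j) ≤ 2 * XX (2 ^ (j + 1)) := by
  unfold XX
  rw [show (2:ℝ≥0∞) = ENNReal.ofReal 2 by simp, ← ENNReal.ofReal_mul (by norm_num)]
  apply ENNReal.ofReal_le_ofReal
  have h1 : Real.log (2 ^ j) ≤ Real.log (2 ^ (j + 1)) :=
    Real.log_le_log (by positivity) (pow_le_pow_right₀ (by norm_num) (Nat.le_succ j))
  have h0 : 0 ≤ Real.log (2 ^ j) := Real.log_nonneg (one_le_two_pow' j)
  rw [pow_succ 2 j, ← mul_div_assoc, mul_comm (2:ℝ), mul_comm ((2:ℝ) ^ j) 2, ← mul_comm (2:ℝ) (_ ^ 2),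
    mul_div_mul_left _ _ (by norm_num : (2:ℝ) ≠ 0)]
  gcongr
  norm_num

/-- sup bound for the pieces -/
theorem Wj_sup (k m : ℕ) : ∃ C : ℕ, ∀ P : P2, P.totalDegree ≤ k → ∀ p : Fin m → P2,
    (∀ i, (p i).totalDegree ≤ k) → ∀ (j : ℕ) (x : ℝ × ℝ) (t : ℝ),
    ‖Wj P p j x t‖ₑ ≤ C * XX (2 ^ j) := by
  obtain ⟨C, hC⟩ := chi_bound (k + 2) m
  refine ⟨3 * C + 4, ?_⟩
  intro P hP p hp j x t
  have hchi : ∀ δ : ℝ, 1 ≤ δ →
      ‖Wop (fun z => (chi (phs P 0 t) δ z : ℂ) * hh P p z) x t‖ₑ ≤ C * XX δ := by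
    intro δ hδ
    rw [integral_chi]
    exact hC _ (totalDegree_phs_le hP x t) p (fun i => (hp i).trans (by omega)) δ hδ
  cases j with
  | zero =>
    rw [pow_zero, XX_one, mul_one]
    refine (Wop_le_volume (fun z => norm_ahh_le zero_le_one (abs_aj_le P t 0) P p z) x t).trans ?_
    push_cast
    exact le_add_self
  | succ j =>
    have e : Wj P p (j + 1) x t = Wop (fun z => (chi (phs P 0 t) (2 ^ j) z : ℂ) * hh P p z) x t -
        Wop (fun z => (chi (phs P 0 t) (2 ^ (j + 1)) z : ℂ) * hh P p z) x t := by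
      have habs : ∀ δ z, |chi (phs P 0 t) δ z| ≤ 1 := fun δ z => by
        rw [abs_of_nonneg (chi_nonneg _ _ _)]; exact chi_le_one _ _ _
      unfold Wj Wop
      rw [← integral_sub]
      · congr 1
        ext z
        simp only [aj]
        push_cast
        ring
      · exact integrable_W (measurable_ahh (continuous_chi _ (one_le_two_pow' j)) P p)
          (fun z => norm_ahh_le zero_le_one (habs _) P p z) x t
      · exact integrable_W (measurable_ahh (continuous_chi _ (one_le_two_pow' _)) P p)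
          (fun z => norm_ahh_le zero_le_one (habs _) P p z) x t
    rw [e]
    refine enorm_sub_le.trans ((add_le_add (hchi _ (one_le_two_pow' j))
      (hchi _ (one_le_two_pow' (j + 1)))).trans ?_)
    calc (C:ℝ≥0∞) * XX (2 ^ j) + C * XX (2 ^ (j + 1))
        ≤ C * (2 * XX (2 ^ (j + 1))) + C * XX (2 ^ (j + 1)) := by
          gcongr
          exact XX_double j
      _ = (3 * C) * XX (2 ^ (j + 1)) := by ring
      _ ≤ _ := by
          push_cast
          gcongr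
          exact le_self_add

/-- measure of the `j`-th bad set -/
noncomputable def mj (P : P2) (j : ℕ) (t : ℝ) : ℝ≥0∞ := volume (sq ∩ Bd P t (2 ^ j))

lemma mj_le (P : P2) (j : ℕ) (t : ℝ) : mj P j t ≤ 4 := by
  unfold mj
  rw [← volume_sq]
  exact measure_mono inter_subset_left

lemma measurable_mj (P : P2) (j : ℕ) : Measurable (mj P j) := by
  unfold mj
  simp_rw [bdI_z]
  exact (measurable_bdI P (2 ^ j)).lintegral_prod_right'

lemma Wj_L2 (P : P2) (p : Fin m → P2) (j : ℕ) (t : ℝ) :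
    ∫⁻ x : ℝ × ℝ, ‖Wj P p j x t‖ₑ ^ 2 ≤ mj P j t := by
  unfold Wj
  rw [Wop_L2 (measurable_ahh (continuous_aj P t j) P p) (C := 1)
    (fun z _ => norm_ahh_le zero_le_one (abs_aj_le P t j) P p z) t]
  calc ∫⁻ z in sq, ‖(aj P t j z : ℂ) * hh P p z‖ₑ ^ 2
      ≤ ∫⁻ z in sq, Set.indicator (Bd P t (2 ^ j)) (fun _ => (1:ℝ≥0∞)) z := by
        apply lintegral_mono
        intro z
        simp only
        by_cases hz : z ∈ Bd P t (2 ^ j)
        · rw [Set.indicator_of_mem hz]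
          have h1 : ‖(aj P t j z : ℂ) * hh P p z‖ₑ ≤ 1 := by
            rw [← ofReal_norm]
            exact ENNReal.ofReal_le_one.2 (norm_ahh_le zero_le_one (abs_aj_le P t j) P p z)
          calc _ ≤ (1:ℝ≥0∞) ^ 2 := by gcongr
            _ = 1 := one_pow 2
        · rw [aj_supp P t j z hz]
          simp
    _ = mj P j t := by
        rw [lintegral_indicator (measurableSet_Bd P t _), setLIntegral_one,
          Measure.restrict_apply (measurableSet_Bd P t _), inter_comm]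
        rfl

/-- `L^q` bound of the pieces at fixed time -/
lemma Wj_Lq {q : ℝ} (hq : 2 ≤ q) (P : P2) (p : Fin m → P2) (j : ℕ) (t : ℝ) {B : ℝ≥0∞}
    (hB : ∀ x, ‖Wj P p j x t‖ₑ ≤ B) :
    ∫⁻ x : ℝ × ℝ, ‖Wj P p j x t‖ₑ ^ q ≤ B ^ (q - 2) * mj P j t := by
  by_cases hBt : B ^ (q - 2) = ∞
  · by_cases hm : mj P j t = 0
    · have h := Wj_L2 P p j t
      have hmeas : AEMeasurable (fun x : ℝ × ℝ => ‖Wj P p j x t‖ₑ ^ 2) := by
        apply Measurable.aemeasurable
        apply Measurable.pow_const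
        apply Measurable.enorm
        unfold Wj Wop
        apply StronglyMeasurable.measurable
        apply StronglyMeasurable.integral_prod_right' (f := fun w : (ℝ × ℝ) × (ℝ × ℝ) =>
          ch ((w.2.1 * w.1.1 + w.2.2 * w.1.2) + (w.2.1 ^ 2 + w.2.2 ^ 2) * t) *
            ((aj P t j w.2 : ℂ) * hh P p w.2))
        apply Measurable.stronglyMeasurable
        apply Measurable.mul
        · apply Continuous.measurable; fun_prop
        · exact (measurable_ahh (continuous_aj P t j) P p).comp measurable_snd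
      rw [hm, nonpos_iff_eq_zero, lintegral_eq_zero_iff' hmeas] at h
      have h2 : ∫⁻ x : ℝ × ℝ, ‖Wj P p j x t‖ₑ ^ q = 0 := by
        rw [← lintegral_zero]
        apply lintegral_congr_ae
        filter_upwards [h] with x hx
        simp only [Pi.zero_apply, pow_eq_zero_iff, ne_eq, OfNat.ofNat_ne_zero, not_false_eq_true]
          at hx
        rw [hx, ENNReal.zero_rpow_of_pos (by linarith)]
      rw [h2]
      exact zero_le
    · rw [hBt, ENNReal.top_mul hm]; exact le_top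
  · calc ∫⁻ x : ℝ × ℝ, ‖Wj P p j x t‖ₑ ^ q
        ≤ ∫⁻ x : ℝ × ℝ, B ^ (q - 2) * ‖Wj P p j x t‖ₑ ^ 2 := by
          apply lintegral_mono
          intro x
          simp only
          have e : ‖Wj P p j x t‖ₑ ^ q = ‖Wj P p j x t‖ₑ ^ (q - 2) * ‖Wj P p j x t‖ₑ ^ 2 := by
            rw [← ENNReal.rpow_natCast, ← ENNReal.rpow_add_of_nonneg _ _ (by linarith)
              (by norm_num)]
            congr 1
            push_cast
            ring
          rw [e]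
          exact mul_le_mul_left (ENNReal.rpow_le_rpow (hB x) (by linarith)) _
      _ = B ^ (q - 2) * ∫⁻ x : ℝ × ℝ, ‖Wj P p j x t‖ₑ ^ 2 := by
          rw [lintegral_const_mul' _ _ hBt]
      _ ≤ _ := by
          gcongr
          exact Wj_L2 P p j t

/-- at each time the decomposition is finite -/
lemma exists_J (P : P2) (t : ℝ) : ∃ J : ℕ, ∀ z ∈ sq, chi (phs P 0 t) (2 ^ J) z = 0 := by
  have hcomp : IsCompact sq := isCompact_Icc.prod isCompact_Icc
  obtain ⟨M, hM⟩ := hcomp.exists_bound_of_continuousOn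
    ((continuous_pf (detP (phs P 0 t))).continuousOn (s := sq))
  obtain ⟨J, hJ⟩ := pow_unbounded_of_one_lt (2 * M ^ 2) (show (1:ℝ) < 2 by norm_num)
  refine ⟨J, fun z hz => ?_⟩
  unfold chi
  apply stp_of_nonpos
  have h1 := pf_nsP_nonneg (phs P 0 t) z
  have hδ := one_le_two_pow' J
  have h2 : 0 < (2 ^ J) ^ 2 * (pf (nsP (phs P 0 t)) z + (2 ^ J) ^ 2) := by positivity
  have h3 : pf (detP (phs P 0 t)) z ^ 2 / ((2 ^ J) ^ 2 * (pf (nsP (phs P 0 t)) z + (2 ^ J) ^ 2))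
      ≤ 1 / 2 := by
    rw [div_le_div_iff₀ h2 (by norm_num), one_mul]
    have h4 : pf (detP (phs P 0 t)) z ^ 2 ≤ M ^ 2 := by
      have := hM z hz
      rw [Real.norm_eq_abs] at this
      rw [← sq_abs]
      gcongr
    have h5 : (2:ℝ) ^ J ≤ (2 ^ J) ^ 2 * (pf (nsP (phs P 0 t)) z + (2 ^ J) ^ 2) := by
      have h6 : (1:ℝ) ≤ (2 ^ J) ^ 2 := one_le_pow₀ hδ
      calc (2:ℝ) ^ J = 2 ^ J * 1 := (mul_one _).symm
        _ ≤ (2 ^ J) ^ 2 * (2 ^ J) ^ 2 := by
            apply mul_le_mul _ h6 zero_le_one (by positivity)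
            nlinarith
        _ ≤ _ := by
            gcongr
            linarith
    linarith
  linarith

lemma Wop_le_tsum (P : P2) (p : Fin m → P2) (x : ℝ × ℝ) (t : ℝ) :
    ‖Wop (hh P p) x t‖ₑ ≤ ∑' j, ‖Wj P p j x t‖ₑ := by
  obtain ⟨J, hJ⟩ := exists_J P t
  have e : Wop (hh P p) x t = ∑ j ∈ Finset.range (J + 1), Wj P p j x t := by
    unfold Wj Wop
    rw [← integral_finsetSum]
    · apply setIntegral_congr_fun measurableSet_sq
      intro z hz
      simp only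
      rw [← Finset.mul_sum, ← Finset.sum_mul]
      congr 1
      have h := sum_aj P t J z
      rw [hJ z hz, sub_zero] at h
      rw [← Complex.ofReal_sum, h]
      simp
    · intro j _
      exact integrable_W (measurable_ahh (continuous_aj P t j) P p)
        (fun z => norm_ahh_le zero_le_one (abs_aj_le P t j) P p z) x t
  rw [e]
  exact (enorm_sum_le _ _).trans (ENNReal.sum_le_tsum _)

lemma XX_le {κ : ℝ} (hκ : 0 < κ) (j : ℕ) :
    XX (2 ^ j) ≤ ENNReal.ofReal ((1 + 2 / κ) ^ 2 * (2:ℝ) ^ (-((1 - κ) * j))) := by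
  unfold XX
  apply ENNReal.ofReal_le_ofReal
  set δ : ℝ := 2 ^ j with hδ
  have hδ1 : 1 ≤ δ := one_le_two_pow' j
  have h0 : 0 ≤ Real.log δ := Real.log_nonneg hδ1
  have h1 : Real.log δ ≤ δ ^ (κ / 2) / (κ / 2) :=
    Real.log_le_rpow_div (by linarith) (by positivity)
  have h2 : 1 ≤ δ ^ (κ / 2) := Real.one_le_rpow hδ1 (by positivity)
  have h3 : 1 + Real.log δ ≤ (1 + 2 / κ) * δ ^ (κ / 2) := by
    have : δ ^ (κ / 2) / (κ / 2) = 2 / κ * δ ^ (κ / 2) := by field_simp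
    rw [this] at h1
    nlinarith
  have h4 : (2:ℝ) ^ (-((1 - κ) * j)) = δ ^ κ / δ := by
    rw [hδ, ← Real.rpow_natCast 2 j, ← Real.rpow_mul (by norm_num), ← Real.rpow_sub (by norm_num)]
    congr 1
    ring
  rw [h4, ← mul_div_assoc]
  gcongr
  calc (1 + Real.log δ) ^ 2 ≤ ((1 + 2 / κ) * δ ^ (κ / 2)) ^ 2 := by gcongr
    _ = (1 + 2 / κ) ^ 2 * δ ^ κ := by
        rw [mul_pow, ← Real.rpow_natCast (δ ^ (κ / 2)) 2, ← Real.rpow_mul (by positivity)]
        congr 2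
        push_cast
        ring

lemma mj_time (P : P2) {r : ℝ} (hr : 1 ≤ r) (j : ℕ) :
    ∫⁻ t, mj P j t ^ r ≤ 4 ^ (r - 1) * 8 * ENNReal.ofReal ((2:ℝ) ^ (j:ℝ)) := by
  have h4 : ((4:ℝ≥0∞) ^ (r - 1)) ≠ ∞ := ENNReal.rpow_ne_top_of_nonneg (by linarith) (by norm_num)
  calc ∫⁻ t, mj P j t ^ r ≤ ∫⁻ t, 4 ^ (r - 1) * mj P j t := by
        apply lintegral_mono
        intro t
        simp only
        have e : mj P j t ^ r = mj P j t ^ (r - 1) * mj P j t := by
          conv_rhs => rw [← ENNReal.rpow_one (mj P j t)]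
          rw [← ENNReal.rpow_mul, one_mul, ← ENNReal.rpow_add_of_nonneg _ _ (by linarith)
            (by norm_num)]
          congr 1
          ring
        rw [e]
        exact mul_le_mul_left (ENNReal.rpow_le_rpow (mj_le P j t) (by linarith)) _
    _ = 4 ^ (r - 1) * ∫⁻ t, mj P j t := lintegral_const_mul' _ _ h4
    _ ≤ 4 ^ (r - 1) * ENNReal.ofReal (8 * 2 ^ j) := by
        gcongr
        exact time_Bd P (by positivity)
    _ = _ := by
        rw [ENNReal.ofReal_mul (by norm_num), Real.rpow_natCast, mul_assoc]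
        simp

/-- **Mixed-norm restriction estimate for semialgebraic polynomial-phase functions.** -/
theorem block_time (k m : ℕ) {q r : ℝ} (hq : 2 ≤ q) (hr : 1 ≤ r) (h : 1 < (q - 2) * r) :
    ∃ C : ℝ≥0, ∀ P : P2, P.totalDegree ≤ k → ∀ p : Fin m → P2,
    (∀ i, (p i).totalDegree ≤ k) →
    ∫⁻ t, (∫⁻ x : ℝ × ℝ, ‖Wop (hh P p) x t‖ₑ ^ q) ^ r ≤ C := by
  obtain ⟨C₀, hC₀⟩ := Wj_sup k m
  obtain ⟨ε, κ, hε, hκ, hfs⟩ := final_sum hq hr h
  set K : ℝ := (C₀ + 1 : ℝ) * (1 + 2 / κ) ^ 2 with hK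
  have hK0 : 0 < K := by positivity
  have hfin := hfs K hK0
  set ρ : ℕ → ℝ≥0∞ := fun j => ENNReal.ofReal (rw' ε j) with hρ
  set B : ℕ → ℝ≥0∞ := fun j => ENNReal.ofReal (K * (2:ℝ) ^ (-((1 - κ) * j))) with hB
  have hρ0 : ∀ j, ρ j ≠ 0 := fun j => by
    simp only [hρ, ne_eq, ENNReal.ofReal_eq_zero, not_le]
    exact rw'_pos hε j
  have hρT : ∀ j, ρ j ≠ ∞ := fun j => ENNReal.ofReal_ne_top
  have hρs : ∑' j, ρ j ≤ 1 := tsum_rw' hε
  have h4 : ((4:ℝ≥0∞) ^ (r - 1) * 8) ≠ ∞ := ENNReal.mul_ne_top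
    (ENNReal.rpow_ne_top_of_nonneg (by linarith) (by norm_num)) (by norm_num)
  have hlt : 4 ^ (r - 1) * 8 * ∑' j : ℕ, (ρ j) ^ (1 - r) * ((ρ j) ^ (1 - q) *
        (B j) ^ (q - 2)) ^ r * ENNReal.ofReal ((2:ℝ) ^ (j:ℝ)) < ∞ :=
    ENNReal.mul_lt_top h4.lt_top hfin
  refine ⟨(4 ^ (r - 1) * 8 * ∑' j : ℕ, (ρ j) ^ (1 - r) * ((ρ j) ^ (1 - q) *
        (B j) ^ (q - 2)) ^ r * ENNReal.ofReal ((2:ℝ) ^ (j:ℝ))).toNNReal, ?_⟩
  intro P hP p hp
  rw [ENNReal.coe_toNNReal hlt.ne]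
  have hsup : ∀ j x t, ‖Wj P p j x t‖ₑ ≤ B j := by
    intro j x t
    refine (hC₀ P hP p hp j x t).trans ?_
    calc (C₀:ℝ≥0∞) * XX (2 ^ j)
        ≤ ENNReal.ofReal (C₀ + 1) *
          ENNReal.ofReal ((1 + 2 / κ) ^ 2 * (2:ℝ) ^ (-((1 - κ) * j))) := by
          apply mul_le_mul' _ (XX_le hκ j)
          rw [← ENNReal.ofReal_natCast]
          exact ENNReal.ofReal_le_ofReal (by linarith)
      _ = B j := by
          rw [← ENNReal.ofReal_mul (by positivity)]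
          simp only [hB, hK]
          congr 1
          ring
  have hWm : ∀ j t, Measurable (fun x : ℝ × ℝ => ‖Wj P p j x t‖ₑ ^ q) := by
    intro j t
    apply Measurable.pow_const
    apply Measurable.enorm
    unfold Wj Wop
    apply StronglyMeasurable.measurable
    apply StronglyMeasurable.integral_prod_right' (f := fun w : (ℝ × ℝ) × (ℝ × ℝ) =>
      ch ((w.2.1 * w.1.1 + w.2.2 * w.1.2) + (w.2.1 ^ 2 + w.2.2 ^ 2) * t) *
        ((aj P t j w.2 : ℂ) * hh P p w.2))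
    apply Measurable.stronglyMeasurable
    apply Measurable.mul
    · apply Continuous.measurable; fun_prop
    · exact (measurable_ahh (continuous_aj P t j) P p).comp measurable_snd
  have hN : ∀ t, ∫⁻ x : ℝ × ℝ, ‖Wop (hh P p) x t‖ₑ ^ q ≤
      ∑' j, ρ j ^ (1 - q) * B j ^ (q - 2) * mj P j t := by
    intro t
    calc ∫⁻ x : ℝ × ℝ, ‖Wop (hh P p) x t‖ₑ ^ q
        ≤ ∫⁻ x : ℝ × ℝ, ∑' j, ρ j ^ (1 - q) * ‖Wj P p j x t‖ₑ ^ q := by
          apply lintegral_mono
          intro x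
          simp only
          exact (ENNReal.rpow_le_rpow (Wop_le_tsum P p x t) (by linarith)).trans
            (jensen_tsum (by linarith) _ hρs hρ0 hρT)
      _ = ∑' j, ρ j ^ (1 - q) * ∫⁻ x : ℝ × ℝ, ‖Wj P p j x t‖ₑ ^ q := by
          rw [lintegral_tsum (fun j => ((hWm j t).const_mul _).aemeasurable)]
          congr 1
          ext j
          rw [lintegral_const_mul _ (hWm j t)]
      _ ≤ _ := by
          apply ENNReal.tsum_le_tsum
          intro j
          rw [mul_assoc]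
          exact mul_le_mul_right (Wj_Lq hq P p j t (fun x => hsup j x t)) _
  calc ∫⁻ t, (∫⁻ x : ℝ × ℝ, ‖Wop (hh P p) x t‖ₑ ^ q) ^ r
      ≤ ∫⁻ t, ∑' j, ρ j ^ (1 - r) * (ρ j ^ (1 - q) * B j ^ (q - 2)) ^ r * mj P j t ^ r := by
        apply lintegral_mono
        intro t
        simp only
        refine (ENNReal.rpow_le_rpow (hN t) (by linarith)).trans
            ((jensen_tsum hr _ hρs hρ0 hρT).trans (le_of_eq ?_))
        congr 1
        ext j
        rw [ENNReal.mul_rpow_of_nonneg _ _ (show 0 ≤ r by linarith), mul_assoc]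
    _ = ∑' j, ρ j ^ (1 - r) * (ρ j ^ (1 - q) * B j ^ (q - 2)) ^ r * ∫⁻ t, mj P j t ^ r := by
        rw [lintegral_tsum (fun j =>
          (((measurable_mj P j).pow_const r).const_mul _).aemeasurable)]
        congr 1
        ext j
        rw [lintegral_const_mul _ ((measurable_mj P j).pow_const r)]
    _ ≤ ∑' j, ρ j ^ (1 - r) * (ρ j ^ (1 - q) * B j ^ (q - 2)) ^ r *
          (4 ^ (r - 1) * 8 * ENNReal.ofReal ((2:ℝ) ^ (j:ℝ))) := by
        apply ENNReal.tsum_le_tsum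
        intro j
        exact mul_le_mul_right (mj_time P hr j) _
    _ = _ := by
        rw [← ENNReal.tsum_mul_left]
        congr 1
        ext j
        ring

end Pool.Agent.H.MP_b7167f_an
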