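import Mathlib
import Pool.Agent.H.MP_b7167f_an.AlgBlock

open MvPolynomial MeasureTheory Set Filter Topology
open scoped ENNReal NNReal

namespace Pool.Agent.H.MP_b7167f_an

variable {n n₁ n₂ : ℕ}

/-- merging one-dimensional and two-dimensional blocks -/
def merge (e : Fin n₁ ⊕ Fin n₂ × Fin 2 ≃ Fin n) (w : (Fin n₁ → ℝ) × (Fin n₂ → ℝ × ℝ)) :
    Fin n → ℝ :=
  fun j => Sum.elim w.1 (fun lc => if lc.2 = 0 then (w.2 lc.1).1 else (w.2 lc.1).2) (e.symm j)

@[simp] lemma merge_inl (e : Fin n₁ ⊕ Fin n₂ × Fin 2 ≃ Fin n)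
    (w : (Fin n₁ → ℝ) × (Fin n₂ → ℝ × ℝ)) (i : Fin n₁) : merge e w (e (Sum.inl i)) = w.1 i := by
  simp [merge]

@[simp] lemma merge_inr0 (e : Fin n₁ ⊕ Fin n₂ × Fin 2 ≃ Fin n)
    (w : (Fin n₁ → ℝ) × (Fin n₂ → ℝ × ℝ)) (l : Fin n₂) :
    merge e w (e (Sum.inr (l, 0))) = (w.2 l).1 := by
  simp [merge]

@[simp] lemma merge_inr1 (e : Fin n₁ ⊕ Fin n₂ × Fin 2 ≃ Fin n)
    (w : (Fin n₁ → ℝ) × (Fin n₂ → ℝ × ℝ)) (l : Fin n₂) :
    merge e w (e (Sum.inr (l, 1))) = (w.2 l).2 := by
  simp [merge]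

lemma measurable_merge (e : Fin n₁ ⊕ Fin n₂ × Fin 2 ≃ Fin n) : Measurable (merge e) := by
  rw [measurable_pi_iff]
  intro j
  obtain ⟨s, rfl⟩ := e.surjective j
  rcases s with i | ⟨l, c⟩
  · simp only [merge_inl]; fun_prop
  · fin_cases c
    · simp only [Fin.zero_eta, merge_inr0]; fun_prop
    · simp only [Fin.mk_one, merge_inr1]; fun_prop

lemma forall_merge (e : Fin n₁ ⊕ Fin n₂ × Fin 2 ≃ Fin n) {Q : Fin n → Prop} :
    (∀ j, Q j) ↔ (∀ i, Q (e (Sum.inl i))) ∧ ∀ l, Q (e (Sum.inr (l, 0))) ∧ Q (e (Sum.inr (l, 1))) := by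
  constructor
  · intro h; exact ⟨fun i => h _, fun l => ⟨h _, h _⟩⟩
  · rintro ⟨h1, h2⟩ j
    obtain ⟨s, rfl⟩ := e.surjective j
    rcases s with i | ⟨l, c⟩
    · exact h1 i
    · fin_cases c
      · exact (h2 l).1
      · exact (h2 l).2

lemma prod_merge {M : Type*} [CommMonoid M] (e : Fin n₁ ⊕ Fin n₂ × Fin 2 ≃ Fin n) (Q : Fin n → M) :
    ∏ j, Q j = (∏ i, Q (e (Sum.inl i))) * ∏ l, Q (e (Sum.inr (l, 0))) * Q (e (Sum.inr (l, 1))) := by
  rw [← e.prod_comp, Fintype.prod_sum_type, Fintype.prod_prod_type]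
  simp only [Fin.prod_univ_two]

lemma sum_merge {M : Type*} [AddCommMonoid M] (e : Fin n₁ ⊕ Fin n₂ × Fin 2 ≃ Fin n)
    (Q : Fin n → M) :
    ∑ j, Q j = (∑ i, Q (e (Sum.inl i))) + ∑ l, (Q (e (Sum.inr (l, 0))) + Q (e (Sum.inr (l, 1)))) := by
  rw [← e.sum_comp, Fintype.sum_sum_type, Fintype.sum_prod_type]
  simp only [Fin.sum_univ_two]

lemma map_merge (e : Fin n₁ ⊕ Fin n₂ × Fin 2 ≃ Fin n) :
    Measure.map (merge e) (volume : Measure ((Fin n₁ → ℝ) × (Fin n₂ → ℝ × ℝ))) = volume := by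
  symm
  rw [volume_pi]
  apply Measure.pi_eq
  intro s hs
  rw [Measure.map_apply (measurable_merge e) (MeasurableSet.univ_pi hs)]
  have h1 : merge e ⁻¹' (Set.pi univ s) = (Set.pi univ (fun i => s (e (Sum.inl i)))) ×ˢ
      (Set.pi univ (fun l => s (e (Sum.inr (l, 0))) ×ˢ s (e (Sum.inr (l, 1))))) := by
    ext w
    simp only [mem_preimage, Set.mem_pi, mem_univ, true_imp_iff, mem_prod]
    rw [forall_merge e]
    simp
  rw [h1, Measure.volume_eq_prod, Measure.prod_prod, volume_pi, volume_pi, Measure.pi_pi,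
    Measure.pi_pi, prod_merge e]
  congr 1
  apply Finset.prod_congr rfl
  intro l _
  rw [Measure.volume_eq_prod, Measure.prod_prod]

lemma measurePreserving_merge (e : Fin n₁ ⊕ Fin n₂ × Fin 2 ≃ Fin n) :
    MeasurePreserving (merge e) := ⟨measurable_merge e, map_merge e⟩

/-- Tonelli for products over `Fin n` of functions on general measure spaces -/
theorem lintegral_fin_prod' {X : Type*} [MeasureSpace X] [SigmaFinite (volume : Measure X)]
    {n : ℕ} {f : Fin n → X → ℝ≥0∞} (hf : ∀ i, Measurable (f i)) :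
    ∫⁻ x : Fin n → X, ∏ i, f i (x i) = ∏ i, ∫⁻ x, f i x := by
  induction n with
  | zero => simp [volume_pi]
  | succ n ih =>
    have h := (volume_preserving_piFinSuccAbove (fun _ : Fin (n + 1) => X) 0).symm
    rw [← h.lintegral_comp_emb (MeasurableEquiv.measurableEmbedding _)]
    simp_rw [MeasurableEquiv.piFinSuccAbove_symm_apply, Fin.insertNthEquiv,
      Fin.prod_univ_succ, Fin.insertNth_zero, Equiv.coe_fn_mk, Fin.cons_succ,
      Fin.cons_zero, cast_eq]
    rw [Measure.volume_eq_prod]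
    rw [lintegral_prod_mul (f := f 0) (g := fun y : Fin n → X => ∏ i : Fin n, f i.succ (y i))]
    · rw [ih (fun i => hf _)]
    · exact (hf 0).aemeasurable
    · apply Measurable.aemeasurable
      exact Finset.measurable_fun_prod _ fun i _ => (hf i.succ).comp (measurable_pi_apply i)

/-- factorization of the extension operator -/
lemma extOp_merge (e : Fin n₁ ⊕ Fin n₂ × Fin 2 ≃ Fin n) {g : (Fin n₁ → ℝ) → ℂ} (hg : Measurable g)
    {h : Fin n₂ → ℝ × ℝ → ℂ} (hh : ∀ l, Measurable (h l)) (x : Fin n → ℝ) (t : ℝ) :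
    extOp n (fun ξ => g (fun i => ξ (e (Sum.inl i))) *
      ∏ l, h l (ξ (e (Sum.inr (l, 0))), ξ (e (Sum.inr (l, 1))))) (x, t) =
    extOp n₁ g (fun i => x (e (Sum.inl i)), t) *
      ∏ l, Wop (h l) (x (e (Sum.inr (l, 0))), x (e (Sum.inr (l, 1)))) t := by
  rw [extOp_eq_integral, extOp_eq_integral]
  unfold Wop
  simp_rw [← integral_indicator measurableSet_sq]
  rw [← integral_fintype_prod_volume_eq_prod, ← integral_prod_mul, ← Measure.volume_eq_prod,
    ← map_merge e, integral_map (measurable_merge e).aemeasurable]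
  · congr 1
    ext w
    have hc : merge e w ∈ cube n ↔ w.1 ∈ cube n₁ ∧ ∀ l, w.2 l ∈ sq := by
      rw [mem_cube, forall_merge e, mem_cube]
      simp only [merge_inl, merge_inr0, merge_inr1]
      rfl
    have hsum : ch ((∑ j, merge e w j * x j) + (∑ j, merge e w j ^ 2) * t) =
        ch ((∑ i, w.1 i * x (e (Sum.inl i))) + (∑ i, w.1 i ^ 2) * t) *
        ∏ l, ch (((w.2 l).1 * x (e (Sum.inr (l, 0))) + (w.2 l).2 * x (e (Sum.inr (l, 1)))) +
          ((w.2 l).1 ^ 2 + (w.2 l).2 ^ 2) * t) := by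
      rw [← ch_sum, ← ch_add]
      congr 1
      rw [sum_merge e, sum_merge e (fun j => merge e w j ^ 2)]
      simp only [merge_inl, merge_inr0, merge_inr1]
      simp only [Finset.sum_add_distrib, add_mul, Finset.sum_mul]
      ring
    rw [hsum]
    by_cases hw : merge e w ∈ cube n
    · obtain ⟨hw1, hw2⟩ := hc.1 hw
      rw [Set.indicator_of_mem hw, Set.indicator_of_mem hw1]
      have : ∀ l, Set.indicator sq (fun z : ℝ × ℝ =>
          ch ((z.1 * x (e (Sum.inr (l, 0))) + z.2 * x (e (Sum.inr (l, 1)))) +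
          (z.1 ^ 2 + z.2 ^ 2) * t) * h l z) (w.2 l) =
          ch (((w.2 l).1 * x (e (Sum.inr (l, 0))) + (w.2 l).2 * x (e (Sum.inr (l, 1)))) +
          ((w.2 l).1 ^ 2 + (w.2 l).2 ^ 2) * t) * h l (w.2 l) := fun l =>
        Set.indicator_of_mem (hw2 l) _
      simp_rw [this]
      rw [Finset.prod_mul_distrib]
      simp only [merge_inl, merge_inr0, merge_inr1]
      ring
    · rw [Set.indicator_of_notMem hw, mul_zero]
      rw [hc, not_and_or] at hw
      rcases hw with h1 | h1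
      · rw [Set.indicator_of_notMem h1, mul_zero, zero_mul]
      · push Not at h1
        obtain ⟨l, hl⟩ := h1
        rw [Finset.prod_eq_zero (Finset.mem_univ l) (Set.indicator_of_notMem hl _), mul_zero]
  · apply Measurable.aestronglyMeasurable
    apply Measurable.mul
    · apply Continuous.measurable; fun_prop
    · apply Measurable.indicator _ measurableSet_cube
      apply Measurable.mul
      · apply hg.comp; fun_prop
      · apply Finset.measurable_fun_prod
        intro l _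
        apply (hh l).comp; fun_prop

/-- factorization of the spatial integral -/
lemma lintegral_merge (e : Fin n₁ ⊕ Fin n₂ × Fin 2 ≃ Fin n) {f : Fin n₁ → ℝ → ℝ≥0∞}
    (hf : ∀ i, Measurable (f i)) {g : Fin n₂ → ℝ × ℝ → ℝ≥0∞} (hg : ∀ l, Measurable (g l)) :
    ∫⁻ x : Fin n → ℝ, (∏ i, f i (x (e (Sum.inl i)))) *
      ∏ l, g l (x (e (Sum.inr (l, 0))), x (e (Sum.inr (l, 1)))) =
    (∏ i, ∫⁻ s, f i s) * ∏ l, ∫⁻ z, g l z := by
  rw [← map_merge e, lintegral_map _ (measurable_merge e)]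
  · simp only [merge_inl, merge_inr0, merge_inr1, Prod.mk.eta]
    rw [Measure.volume_eq_prod, lintegral_prod_mul
      (f := fun a : Fin n₁ → ℝ => ∏ i, f i (a i))
      (g := fun b : Fin n₂ → ℝ × ℝ => ∏ l, g l (b l)), lintegral_fin_prod' hf,
      lintegral_fin_prod' hg]
    · apply Measurable.aemeasurable
      exact Finset.measurable_fun_prod _ fun i _ => (hf i).comp (measurable_pi_apply i)
    · apply Measurable.aemeasurable
      exact Finset.measurable_fun_prod _ fun i _ => (hg i).comp (measurable_pi_apply i)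
  · apply Measurable.mul
    · exact Finset.measurable_fun_prod _ fun i _ => (hf i).comp (measurable_pi_apply _)
    · apply Finset.measurable_fun_prod
      intro l _
      apply (hg l).comp; fun_prop

end Pool.Agent.H.MP_b7167f_an
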