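import Mathlib
import Pool.Agent.H.MP_b7167f_an.KernelV
import Pool.Agent.H.MP_b7167f_an.AbsRough

open MeasureTheory FourierTransform Set
open scoped ENNReal NNReal ComplexConjugate InnerProductSpace

namespace Pool.Agent.H.MP_b7167f_an

variable {m : ℕ}

lemma continuous_fourierV {W : Type*} [NormedAddCommGroup W] [InnerProductSpace ℝ W]
    [MeasurableSpace W] [BorelSpace W] [FiniteDimensional ℝ W] {f : W → ℂ} (hf : Integrable f) :
    Continuous (𝓕 f) :=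
  VectorFourier.fourierIntegral_continuous Real.continuous_fourierChar
    (by exact continuous_inner) hf

lemma norm_fourierV_le {W : Type*} [NormedAddCommGroup W] [InnerProductSpace ℝ W]
    [MeasurableSpace W] [BorelSpace W] [FiniteDimensional ℝ W] (f : W → ℂ) (w : W) :
    ‖𝓕 f w‖ ≤ ∫ v, ‖f v‖ := by
  rw [fourierV_eq_ch]
  calc ‖∫ v, ch (-⟪v, w⟫_ℝ) • f v‖ ≤ ∫ v, ‖ch (-⟪v, w⟫_ℝ) • f v‖ := norm_integral_le_integral_norm _
    _ = ∫ v, ‖f v‖ := by simp_rw [norm_smul, norm_ch, one_mul]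

/-- The kernel operator written as a Fourier transform. -/
lemma kernel_eq_fourier {g : EV m → ℂ} (hg1 : Integrable g) (x : EV m) (t : ℝ) :
    ∫ y, kV (x + y) t * g y
      = 𝓕 (fun η : EV m => (ch (‖η‖ ^ 2 * t) * 𝓕 g (-η)) * qV η) (-x) := by
  have hφ := phiV_mem x t
  -- the reflected conjugate of φ
  set ψ : EV m → ℂ := fun η => conj (phiV x t (-η)) with hψ
  have hψ1 : Integrable ψ := by
    have h1 : Integrable (fun η => phiV x t (-η)) := hφ.1.comp_neg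
    have h2 := (Complex.conjCLE : ℂ ≃L[ℝ] ℂ).integrable_comp_iff.2 h1
    exact h2
  have hF : ∀ y, 𝓕 ψ y = kV (x + y) t := by
    intro y
    have h1 : kV (x + y) t = conj (𝓕 (phiV x t) y) := by
      rw [fourier_phiV, Complex.conj_conj]
    rw [h1, fourierV_eq_ch, fourierV_eq_ch, ← integral_conj, ← integral_neg_eq_self]
    congr 1
    ext η
    simp only [hψ, neg_neg, smul_eq_mul, map_mul, conj_ch, inner_neg_left]
  have h4 := VectorFourier.integral_fourierIntegral_smul_eq_flip (μ := volume) (ν := volume)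
      (L := innerₗ (EV m)) (f := ψ) (g := g) Real.continuous_fourierChar
      (by exact continuous_inner) hψ1 hg1
  rw [flip_innerₗ] at h4
  have h5 : ∫ y, 𝓕 ψ y • g y = ∫ η, ψ η • 𝓕 g η := h4
  simp_rw [hF] at h5
  simp only [smul_eq_mul] at h5
  rw [h5, fourierV_eq_ch, ← integral_neg_eq_self]
  congr 1
  ext η
  simp only [hψ, neg_neg, phiV, smul_eq_mul, map_mul, conj_ch]
  have hq : conj (qV η) = qV η := by
    unfold qV
    rw [map_prod]
    exact Finset.prod_congr rfl fun j _ => v1_real _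
  rw [hq, inner_neg_right, neg_neg]
  rw [ch_add]
  ring

lemma lintegral_comp_negV (f : EV m → ℝ≥0∞) : ∫⁻ x, f (-x) = ∫⁻ x, f x :=
  (Measure.measurePreserving_neg (volume : Measure (EV m))).lintegral_comp_emb
    (MeasurableEquiv.neg (EV m)).measurableEmbedding f

/-- `L²` bound for the kernel operator. -/
theorem kernel_L2 {g : EV m → ℂ} (hg1 : Integrable g) (hg2 : MemLp g 2) (t : ℝ) :
    ∫⁻ x, ‖∫ y, kV (x + y) t * g y‖ₑ ^ 2 ≤ ∫⁻ y, ‖g y‖ₑ ^ 2 := by
  simp_rw [kernel_eq_fourier hg1]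
  rw [lintegral_comp_negV
    (fun x => ‖𝓕 (fun η : EV m => (ch (‖η‖ ^ 2 * t) * 𝓕 g (-η)) * qV η) x‖ₑ ^ 2)]
  have hmeas : Measurable (fun η : EV m => ch (‖η‖ ^ 2 * t) * 𝓕 g (-η)) := by
    apply Continuous.measurable
    have := continuous_fourierV hg1
    fun_prop
  have hb : ∀ η : EV m, ‖ch (‖η‖ ^ 2 * t) * 𝓕 g (-η)‖ ≤ ∫ v, ‖g v‖ := by
    intro η
    rw [norm_mul, norm_ch, one_mul]
    exact norm_fourierV_le g _
  obtain ⟨h1, h2⟩ := integrable_of_qV hmeas hb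
  rw [plancherelV h1 h2]
  calc ∫⁻ η, ‖(ch (‖η‖ ^ 2 * t) * 𝓕 g (-η)) * qV η‖ₑ ^ 2
      ≤ ∫⁻ η, ‖𝓕 g (-η)‖ₑ ^ 2 := by
        apply lintegral_mono
        intro η
        apply pow_le_pow_left₀ (zero_le)
        rw [enorm_mul, enorm_mul, enorm_ch, one_mul]
        calc ‖𝓕 g (-η)‖ₑ * ‖qV η‖ₑ ≤ ‖𝓕 g (-η)‖ₑ * 1 := by
              refine mul_le_mul_right ?_ _
              rw [← ofReal_norm]
              exact ENNReal.ofReal_le_one.2 (norm_qV_le η)
          _ = ‖𝓕 g (-η)‖ₑ := mul_one _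
    _ = ∫⁻ η, ‖𝓕 g η‖ₑ ^ 2 := lintegral_comp_negV (fun η => ‖𝓕 g η‖ₑ ^ 2)
    _ = ∫⁻ y, ‖g y‖ₑ ^ 2 := plancherelV hg1 hg2

end Pool.Agent.H.MP_b7167f_an
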