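import Mathlib
import Pool.Agent.H.MP_b7167f_an.KernelL2

open MeasureTheory FourierTransform Set
open scoped ENNReal NNReal ComplexConjugate InnerProductSpace

namespace Pool.Agent.H.MP_b7167f_an

variable {m : ℕ} {S : Set (EV m)}

attribute [local irreducible] kV Uop

lemma meas_conj_comp {K : EV m × ℝ → ℂ} (hK : Measurable K) :
    Measurable (fun z : (EV m × ℝ) × EV m => conj (K (z.1.1 + z.2, z.1.2))) := by
  have h2 : Measurable (fun z : (EV m × ℝ) × EV m => ((z.1.1 + z.2, z.1.2) : EV m × ℝ)) := by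
    fun_prop
  exact (Complex.continuous_conj.measurable).comp (hK.comp h2)

lemma enorm_toLp_sq {Y : Type*} [MeasurableSpace Y] {ν : Measure Y} {g : Y → ℂ}
    (hg : MemLp g 2 ν) : ‖hg.toLp g‖ₑ ^ 2 = ∫⁻ y, ‖g y‖ₑ ^ 2 ∂ν := by
  rw [Lp.enorm_toLp]
  have h2 := eLpNorm_nnreal_pow_eq_lintegral (f := g) (μ := ν) (p := 2) (by norm_num)
  simp only [ENNReal.coe_ofNat, NNReal.coe_ofNat, ENNReal.rpow_ofNat] at h2
  exact h2

lemma enorm_Lp_sq {Y : Type*} [MeasurableSpace Y] {ν : Measure Y} (h : Lp ℂ 2 ν) :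
    ‖h‖ₑ ^ 2 = ∫⁻ y, ‖h y‖ₑ ^ 2 ∂ν := by
  have h1 := enorm_toLp_sq (Lp.memLp h)
  rwa [Lp.toLp_coeFn] at h1

/-- kernel function localised to `S` -/
noncomputable def GS (S : Set (EV m)) (x : EV m) (t : ℝ) (y : EV m) : ℂ :=
  indicator S (fun y => conj (kV (x + y) t)) y

lemma measurable_GS (hS : MeasurableSet S) :
    Measurable (Function.uncurry (fun (p : EV m × ℝ) (y : EV m) => GS S p.1 p.2 y)) := by
  have h1 : Measurable (fun z : (EV m × ℝ) × EV m => conj (kV (z.1.1 + z.2) z.1.2)) :=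
    meas_conj_comp measurable_kV
  have h3 : (Function.uncurry (fun (p : EV m × ℝ) (y : EV m) => GS S p.1 p.2 y))
      = indicator (Prod.snd ⁻¹' S) (fun z : (EV m × ℝ) × EV m => conj (kV (z.1.1 + z.2) z.1.2)) := by
    ext z
    by_cases h : z.2 ∈ S
    · have h' : z ∈ Prod.snd ⁻¹' S := h
      rw [indicator_of_mem h', Function.uncurry, GS, indicator_of_mem h]
    · have h' : z ∉ Prod.snd ⁻¹' S := h
      rw [indicator_of_notMem h', Function.uncurry, GS, indicator_of_notMem h]
  rw [h3]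
  exact h1.indicator (measurable_snd hS)

lemma measurable_GS_y (hS : MeasurableSet S) (x : EV m) (t : ℝ) : Measurable (GS S x t) :=
  (measurable_GS hS).comp (measurable_const.prodMk measurable_id : Measurable
    (fun y : EV m => (((x, t) : EV m × ℝ), y)))

lemma memLp_GS (hS : MeasurableSet S) (hvol : volume S ≠ ∞) (x : EV m) (t : ℝ) :
    MemLp (GS S x t) 2 volume := by
  have h1 : GS S x t = indicator S (GS S x t) := by
    ext y
    by_cases h : y ∈ S
    · rw [indicator_of_mem h]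
    · rw [indicator_of_notMem h]; simp [GS, h]
  rw [h1, memLp_indicator_iff_restrict hS]
  have : IsFiniteMeasure (volume.restrict S) :=
    ⟨by rw [Measure.restrict_apply_univ]; exact hvol.lt_top⟩
  refine MemLp.of_bound (measurable_GS_y hS x t).aestronglyMeasurable.restrict (2 ^ m)
    (Filter.Eventually.of_forall fun y => ?_)
  unfold GS
  by_cases h : y ∈ S
  · rw [indicator_of_mem h, RCLike.norm_conj]
    exact norm_kV_le _ _
  · rw [indicator_of_notMem h, norm_zero]
    positivity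

/-- the kernel vectors -/
noncomputable def kapS (hS : MeasurableSet S) (hvol : volume S ≠ ∞) (x : EV m) (t : ℝ) :
    Lp ℂ 2 (volume : Measure (EV m)) := (memLp_GS hS hvol x t).toLp (GS S x t)

lemma sm_kapS (hS : MeasurableSet S) (hvol : volume S ≠ ∞) :
    StronglyMeasurable (fun p : EV m × ℝ => kapS hS hvol p.1 p.2) :=
  sm_curry (measurable_GS hS) (fun p => memLp_GS hS hvol p.1 p.2)

lemma inner_kapS (hS : MeasurableSet S) (hvol : volume S ≠ ∞) (x : EV m) (t : ℝ)
    {g : EV m → ℂ} (hg : MemLp g 2 volume) :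
    ⟪kapS hS hvol x t, hg.toLp g⟫_ℂ = ∫ y, kV (x + y) t * indicator S g y := by
  rw [L2.inner_def]
  apply integral_congr_ae
  filter_upwards [(memLp_GS hS hvol x t).coeFn_toLp, hg.coeFn_toLp] with y h1 h2
  rw [kapS, h1, h2]
  unfold GS
  by_cases h : y ∈ S
  · rw [indicator_of_mem h, indicator_of_mem h]
    rw [RCLike.inner_apply, RCLike.conj_conj, mul_comm]
  · rw [indicator_of_notMem h, indicator_of_notMem h]
    simp

lemma kapS_L2 (hS : MeasurableSet S) (hvol : volume S ≠ ∞) (t : ℝ)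
    (h : Lp ℂ 2 (volume : Measure (EV m))) :
    ∫⁻ x, ‖⟪kapS hS hvol x t, h⟫_ℂ‖ₑ ^ 2 ≤ ‖h‖ₑ ^ 2 := by
  have h1 : ∀ x, ⟪kapS hS hvol x t, h⟫_ℂ = ∫ y, kV (x + y) t * indicator S (h : EV m → ℂ) y := by
    intro x
    have h2 := inner_kapS hS hvol x t (Lp.memLp h)
    rwa [Lp.toLp_coeFn] at h2
  simp_rw [h1]
  have hg2 : MemLp (indicator S (h : EV m → ℂ)) 2 volume := (Lp.memLp h).indicator hS
  have hg1 : Integrable (indicator S (h : EV m → ℂ)) := by
    rw [integrable_indicator_iff hS]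
    have : IsFiniteMeasure (volume.restrict S) :=
      ⟨by rw [Measure.restrict_apply_univ]; exact hvol.lt_top⟩
    exact ((Lp.memLp h).restrict S).integrable (by norm_num)
  refine (kernel_L2 hg1 hg2 t).trans ?_
  rw [enorm_Lp_sq h]
  apply lintegral_mono
  intro y
  apply pow_le_pow_left₀ (zero_le)
  exact enorm_indicator_le_enorm_self _ _

lemma kapS_bound (hS : MeasurableSet S) (hvol : volume S ≠ ∞) {θ : ℝ} (h0 : 0 < θ) (h1 : θ < 1)
    (x : EV m) (t : ℝ) : ‖kapS hS hvol x t‖ₑ ^ 2 ≤ volume S * (wgt θ t) ^ m := by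
  rw [kapS, enorm_toLp_sq]
  calc ∫⁻ y, ‖GS S x t y‖ₑ ^ 2 ≤ ∫⁻ y, indicator S (fun _ => (wgt θ t) ^ m) y := by
        apply lintegral_mono
        intro y
        simp only [GS]
        by_cases h : y ∈ S
        · rw [indicator_of_mem h, indicator_of_mem h, RCLike.enorm_conj]
          exact enorm_sq_kV_le h0 h1 _ _
        · rw [indicator_of_notMem h, indicator_of_notMem h]; simp
    _ = volume S * (wgt θ t) ^ m := by
        rw [lintegral_indicator hS, lintegral_const, Measure.restrict_apply_univ, mul_comm]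

end Pool.Agent.H.MP_b7167f_an
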