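import Mathlib
import Pool.Agent.H.MP_b7167f_an.RoughSet

open MeasureTheory FourierTransform Set
open scoped ENNReal NNReal ComplexConjugate InnerProductSpace

namespace Pool.Agent.H.MP_b7167f_an

variable {m : ℕ}

attribute [local irreducible] kV Uop

/-- data supported in the cube, with uniformly bounded `L²` slices. -/
structure Dat (f : ℝ → EV m → ℂ) (A : ℝ) : Prop where
  meas : Measurable (Function.uncurry f)
  supp1 : ∀ a, a ∉ Icc (-1:ℝ) 1 → f a = 0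
  supp2 : ∀ a η, (∃ j, η j ∉ Icc (-1:ℝ) 1) → f a η = 0
  L2 : ∀ a, ∫⁻ η, ‖f a η‖ₑ ^ 2 ≤ ENNReal.ofReal (A ^ 2)

lemma qV_eq_one {η : EV m} (h : ∀ j, η j ∈ Icc (-1:ℝ) 1) : qV η = 1 := by
  unfold qV
  apply Finset.prod_eq_one
  intro j _
  simp [v1, h j]

variable {f : ℝ → EV m → ℂ} {A : ℝ}

lemma Dat.mul_qV (hf : Dat f A) (a : ℝ) (η : EV m) : f a η * qV η = f a η := by
  by_cases h : ∀ j, η j ∈ Icc (-1:ℝ) 1
  · rw [qV_eq_one h, mul_one]
  · push Not at h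
    rw [hf.supp2 a η h, zero_mul]

lemma Dat.meas_slice (hf : Dat f A) (a : ℝ) : Measurable (f a) :=
  hf.meas.comp (measurable_const.prodMk measurable_id : Measurable (fun η : EV m => (a, η)))

lemma Dat.memLp (hf : Dat f A) (a : ℝ) : MemLp (f a) 2 volume := by
  refine ⟨(hf.meas_slice a).aestronglyMeasurable, ?_⟩
  have h2 := eLpNorm_nnreal_pow_eq_lintegral (f := f a) (μ := (volume : Measure (EV m))) (p := 2)
    (by norm_num)
  simp only [ENNReal.coe_ofNat, NNReal.coe_ofNat, ENNReal.rpow_ofNat] at h2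
  have h3 : eLpNorm (f a) 2 volume ^ 2 < ∞ := by
    rw [h2]; exact (hf.L2 a).trans_lt ENNReal.ofReal_lt_top
  by_contra hcon
  rw [not_lt_top_iff] at hcon
  rw [hcon] at h3
  simp at h3

lemma Dat.integrable (hf : Dat f A) (a : ℝ) : Integrable (f a) := by
  -- product of two `L²` functions `f` and `qV`
  have h1 : f a = fun η => f a η * qV η := by
    ext η; rw [hf.mul_qV]
  rw [h1]
  have hq : MemLp (fun η : EV m => (1:ℂ) * qV η) 2 volume :=
    (integrable_of_qV (m := m) (g := fun _ => (1:ℂ)) measurable_const (C := 1) (by simp)).2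
  simp only [one_mul] at hq
  exact (hf.memLp a).integrable_mul hq

/-- the partial Fourier transform -/
noncomputable def Fh (f : ℝ → EV m → ℂ) (a : ℝ) (y : EV m) : ℂ := 𝓕 (f a) y

lemma measurable_Fh (hf : Dat f A) : Measurable (Function.uncurry (Fh f)) := by
  have h1 : (Function.uncurry (Fh f)) = fun p : ℝ × EV m =>
      ∫ η, ch (-⟪η, p.2⟫_ℝ) • f p.1 η := by
    ext p
    rw [Function.uncurry, Fh, fourierV_eq_ch]
  rw [h1]
  apply StronglyMeasurable.measurable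
  apply StronglyMeasurable.integral_prod_right' (f := fun z : (ℝ × EV m) × EV m =>
    ch (-⟪z.2, z.1.2⟫_ℝ) • f z.1.1 z.2)
  have hc : Continuous (fun z : (ℝ × EV m) × EV m => ch (-⟪z.2, z.1.2⟫_ℝ)) := by fun_prop
  have h2 : Measurable (fun z : (ℝ × EV m) × EV m => ((z.1.1, z.2) : ℝ × EV m)) := by fun_prop
  have h3 : Measurable (fun z : (ℝ × EV m) × EV m => f z.1.1 z.2) := hf.meas.comp h2
  exact hc.stronglyMeasurable.smul h3.stronglyMeasurable

lemma Fh_memLp (hf : Dat f A) (a : ℝ) : MemLp (Fh f a) 2 volume :=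
  memLp_fourierV (hf.integrable a) (hf.memLp a)

lemma Fh_L2 (hf : Dat f A) (a : ℝ) : ∫⁻ y, ‖Fh f a y‖ₑ ^ 2 ≤ ENNReal.ofReal (A ^ 2) := by
  have := plancherelV (hf.integrable a) (hf.memLp a)
  exact (le_of_eq this).trans (hf.L2 a)

lemma Fh_supp (hf : Dat f A) {a : ℝ} (ha : a ∉ Icc (-1:ℝ) 1) : Fh f a = 0 := by
  ext y
  unfold Fh
  rw [hf.supp1 a ha, fourierV_eq_ch]
  simp

variable {S : Set (EV m)}

/-- the Hilbert-valued one-variable data attached to the set `S` -/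
noncomputable def uS (hf : Dat f A) (hS : MeasurableSet S) (a : ℝ) :
    Lp ℂ 2 (volume : Measure (EV m)) :=
  ((Fh_memLp hf a).indicator hS).toLp (indicator S (Fh f a))

lemma sm_uS (hf : Dat f A) (hS : MeasurableSet S) : StronglyMeasurable (uS hf hS) := by
  apply sm_curry (G := fun a => indicator S (Fh f a))
  have h3 : (Function.uncurry (fun (a : ℝ) => indicator S (Fh f a)))
      = indicator (Prod.snd ⁻¹' S) (Function.uncurry (Fh f)) := by
    ext z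
    by_cases h : z.2 ∈ S
    · have h' : z ∈ Prod.snd ⁻¹' S := h
      rw [indicator_of_mem h', Function.uncurry, indicator_of_mem h]
      rfl
    · have h' : z ∉ Prod.snd ⁻¹' S := h
      rw [indicator_of_notMem h', Function.uncurry, indicator_of_notMem h]
  rw [h3]
  exact (measurable_Fh hf).indicator (measurable_snd hS)

lemma uS_enorm_sq (hf : Dat f A) (hS : MeasurableSet S) (a : ℝ) :
    ‖uS hf hS a‖ₑ ^ 2 = ∫⁻ y in S, ‖Fh f a y‖ₑ ^ 2 := by
  rw [uS, enorm_toLp_sq, ← lintegral_indicator hS]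
  congr 1
  ext y
  by_cases h : y ∈ S
  · rw [indicator_of_mem h, indicator_of_mem h]
  · rw [indicator_of_notMem h, indicator_of_notMem h]; simp

lemma uS_supp (hf : Dat f A) (hS : MeasurableSet S) {a : ℝ} (ha : a ∉ Icc (-1:ℝ) 1) :
    uS hf hS a = 0 := by
  have h1 := uS_enorm_sq hf hS a
  rw [Fh_supp hf ha] at h1
  simpa using h1

lemma uS_norm_le (hf : Dat f A) (hS : MeasurableSet S) {β : ℝ} (hβ0 : 0 ≤ β)
    (hβ : ∀ a, ∫⁻ y in S, ‖Fh f a y‖ₑ ^ 2 ≤ ENNReal.ofReal (β ^ 2)) (a : ℝ) :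
    ‖uS hf hS a‖ ≤ β := by
  have h1 := (uS_enorm_sq hf hS a).le.trans (hβ a)
  rw [← ofReal_norm, ← ENNReal.ofReal_pow (norm_nonneg _), 
    ENNReal.ofReal_le_ofReal_iff (by positivity)] at h1
  exact (sq_le_sq₀ (norm_nonneg _) hβ0).1 h1

/-- Inner integral over `S`. -/
noncomputable def IS (f : ℝ → EV m → ℂ) (S : Set (EV m)) (x : EV m) (t a : ℝ) : ℂ :=
  ∫ y in S, kV (x + y) t * Fh f a y

/-- the localised extension -/
noncomputable def ES (f : ℝ → EV m → ℂ) (S : Set (EV m)) (p : (ℝ × EV m) × ℝ) : ℂ :=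
  ∫ a, ch (a * p.1.1 + a ^ 2 * p.2) * IS f S p.1.2 p.2 a

lemma inner_kap_uS (hf : Dat f A) (hS : MeasurableSet S) (hvol : volume S ≠ ∞)
    (x : EV m) (t a : ℝ) : ⟪kapS hS hvol x t, uS hf hS a⟫_ℂ = IS f S x t a := by
  rw [uS, inner_kapS, IS, ← integral_indicator hS]
  congr 1
  ext y
  by_cases h : y ∈ S
  · rw [indicator_of_mem h, indicator_of_mem h, indicator_of_mem h]
  · rw [indicator_of_notMem h, indicator_of_notMem h, mul_zero]

lemma ES_eq_inner (hf : Dat f A) (hS : MeasurableSet S) (hvol : volume S ≠ ∞)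
    (p : (ℝ × EV m) × ℝ) :
    ES f S p = ⟪kapS hS hvol p.1.2 p.2, Uop (uS hf hS) p.1.1 p.2⟫_ℂ := by
  have hc : Continuous (fun s : ℝ => ch (s * p.1.1 + s ^ 2 * p.2)) := by fun_prop
  have hm : AEStronglyMeasurable (fun s : ℝ => ch (s * p.1.1 + s ^ 2 * p.2) • uS hf hS s) :=
    hc.stronglyMeasurable.aestronglyMeasurable.smul (sm_uS hf hS).aestronglyMeasurable
  have hbβ : ∀ a, ∫⁻ y in S, ‖Fh f a y‖ₑ ^ 2 ≤ ENNReal.ofReal (|A| ^ 2) := by
    intro a
    rw [sq_abs]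
    exact (setLIntegral_le_lintegral _ _).trans (Fh_L2 hf a)
  have hb : ∀ s : ℝ, ‖ch (s * p.1.1 + s ^ 2 * p.2) • uS hf hS s‖ ≤ |A| := by
    intro s; rw [norm_smul, norm_ch, one_mul]
    exact uS_norm_le hf hS (abs_nonneg A) hbβ s
  have hs : ∀ s : ℝ, s ∉ Icc (-1:ℝ) 1 → ch (s * p.1.1 + s ^ 2 * p.2) • uS hf hS s = 0 := by
    intro s h; rw [uS_supp hf hS h, smul_zero]
  have hint := integrable_of_supp hm hb hs
  unfold ES
  have h1 : Uop (uS hf hS) p.1.1 p.2 = ∫ s, ch (s * p.1.1 + s ^ 2 * p.2) • uS hf hS s := by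
    unfold Uop; rfl
  rw [h1, ← integral_inner hint]
  congr 1
  ext a
  rw [inner_smul_right, inner_kap_uS]

/-- constant of the localised estimate -/
noncomputable def CR (m : ℕ) (θ q : ℝ) : ℝ≥0∞ :=
  2 ^ ((4 - q) / 2) *
    ((∫⁻ t, wgt θ t ^ (((m:ℝ) + 1) * (q - 2) / 2)) ^ ((m:ℝ) / (m + 1)) *
      (Ca (((m:ℝ) + 1) * (q - 2) / 2)) ^ ((1:ℝ) / (m + 1)))

/-- The localised estimate. -/
theorem ES_bound (hf : Dat f A) (hS : MeasurableSet S) (hvol : volume S ≠ ∞) {β : ℝ}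
    (hβ0 : 0 < β) (hβ : ∀ a, ∫⁻ y in S, ‖Fh f a y‖ₑ ^ 2 ≤ ENNReal.ofReal (β ^ 2))
    {θ : ℝ} (h0 : 0 < θ) (h1 : θ < 1)
    {q : ℝ} (hq2 : 2 < q) (hq4 : q ≤ 4) (ha : 1 < ((m:ℝ) + 1) * (q - 2) / 2) :
    ∫⁻ p : (ℝ × EV m) × ℝ, ‖ES f S p‖ₑ ^ q
      ≤ ENNReal.ofReal β ^ q * (volume S ^ ((q - 2) / 2) * CR m θ q) := by
  set v : ℝ → Lp ℂ 2 (volume : Measure (EV m)) := fun a => ((β⁻¹ : ℝ) : ℂ) • uS hf hS a with hv
  have hadm : Adm v := by
    refine ⟨(sm_uS hf hS).const_smul' _, fun s => ?_, fun s hs => ?_⟩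
    · rw [hv]
      simp only [norm_smul, Complex.norm_real, Real.norm_eq_abs, abs_inv, abs_of_pos hβ0]
      rw [inv_mul_le_iff₀ hβ0, mul_one]
      exact uS_norm_le hf hS hβ0.le hβ s
    · rw [hv]
      simp only [uS_supp hf hS hs, smul_zero]
  have hpt : ∀ p : (ℝ × EV m) × ℝ, ‖ES f S p‖ₑ ^ q
      = ENNReal.ofReal β ^ q * ‖⟪kapS hS hvol p.1.2 p.2, Uop v p.1.1 p.2⟫_ℂ‖ₑ ^ q := by
    intro p
    have e1 : Uop v p.1.1 p.2 = ((β⁻¹ : ℝ) : ℂ) • Uop (uS hf hS) p.1.1 p.2 := by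
      unfold Uop
      rw [← integral_smul]
      congr 1
      ext1 s
      rw [hv]
      simp only [smul_smul, mul_comm]
    rw [e1, inner_smul_right, ← ES_eq_inner hf hS hvol p, enorm_mul,
      ENNReal.mul_rpow_of_nonneg _ _ (by linarith), ← mul_assoc,
      ← ENNReal.mul_rpow_of_nonneg _ _ (by linarith)]
    have e2 : ENNReal.ofReal β * ‖((β⁻¹ : ℝ) : ℂ)‖ₑ = 1 := by
      rw [← ofReal_norm, Complex.norm_real, Real.norm_eq_abs, abs_inv, abs_of_pos hβ0,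
        ← ENNReal.ofReal_mul hβ0.le, mul_inv_cancel₀ hβ0.ne', ENNReal.ofReal_one]
    rw [e2, ENNReal.one_rpow, one_mul]
  simp_rw [hpt]
  rw [lintegral_const_mul' _ _ (ENNReal.rpow_ne_top_of_nonneg (by linarith) ENNReal.ofReal_ne_top)]
  refine mul_le_mul_right ?_ _
  have hmain := abs_rough (μ := (volume : Measure (EV m))) (κ := kapS hS hvol)
    (sm_kapS hS hvol) (fun t h => kapS_L2 hS hvol t h) (m := m) (M := volume S) hvol
    (w := wgt θ) (measurable_wgt θ) (fun x t => kapS_bound hS hvol h0 h1 x t) hq2 hq4 ha hadm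
  exact hmain

end Pool.Agent.H.MP_b7167f_an
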