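import Mathlib
import Pool.Agent.H.MP_b7167f_an.RoughData

open MeasureTheory FourierTransform Set Filter
open scoped ENNReal NNReal ComplexConjugate InnerProductSpace Topology

namespace Pool.Agent.H.MP_b7167f_an

variable {m : ℕ}

attribute [local irreducible] kV Uop

variable {f : ℝ → EV m → ℂ} {A : ℝ}

lemma memLp_kV (x : EV m) (t : ℝ) : MemLp (fun y => kV (x + y) t) 2 volume := by
  have h1 := memLp_fourierV (phiV_mem x t).1 (phiV_mem x t).2
  have h2 : (fun y => kV (x + y) t) = fun y => conj (𝓕 (phiV x t) y) := by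
    ext y; rw [fourier_phiV, Complex.conj_conj]
  rw [h2]
  exact h1.star

/-- the inner slice integral rewritten by Parseval. -/
lemma slice_eq (hf : Dat f A) (x : EV m) (t a : ℝ) :
    ∫ η, ch (⟪η, x⟫_ℝ + ‖η‖ ^ 2 * t) * f a η = ∫ y, kV (x + y) t * Fh f a y := by
  have h := parsevalV (phiV_mem x t).1 (phiV_mem x t).2 (hf.integrable a) (hf.memLp a)
  have e1 : ∫ y, ⟪𝓕 (phiV x t) y, 𝓕 (f a) y⟫_ℂ = ∫ y, kV (x + y) t * Fh f a y := by
    congr 1
    ext y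
    rw [fourier_phiV, RCLike.inner_apply, RCLike.conj_conj, mul_comm]
    rfl
  have e2 : ∫ η, ⟪phiV x t η, f a η⟫_ℂ = ∫ η, ch (⟪η, x⟫_ℝ + ‖η‖ ^ 2 * t) * f a η := by
    congr 1
    ext η
    have hq : conj (qV η) = qV η := by
      unfold qV
      rw [map_prod]
      exact Finset.prod_congr rfl fun j _ => v1_real _
    rw [RCLike.inner_apply, phiV, map_mul, conj_ch, hq, neg_neg]
    calc f a η * (ch (⟪η, x⟫_ℝ + ‖η‖ ^ 2 * t) * qV η)
        = ch (⟪η, x⟫_ℝ + ‖η‖ ^ 2 * t) * (f a η * qV η) := by ring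
      _ = ch (⟪η, x⟫_ℝ + ‖η‖ ^ 2 * t) * f a η := by rw [hf.mul_qV]
  rw [← e2, ← h, e1]

/-- the full extension in the split variables -/
noncomputable def EF (f : ℝ → EV m → ℂ) (p : (ℝ × EV m) × ℝ) : ℂ :=
  ∫ a, ch (a * p.1.1 + a ^ 2 * p.2) * ∫ η, ch (⟪η, p.1.2⟫_ℝ + ‖η‖ ^ 2 * p.2) * f a η

lemma integrable_kV_Fh (hf : Dat f A) (x : EV m) (t a : ℝ) :
    Integrable (fun y => kV (x + y) t * Fh f a y) :=
  (memLp_kV x t).integrable_mul (Fh_memLp hf a)

/-- bound for the inner integrals, uniform in the set. -/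
lemma IS_bound (hf : Dat f A) (S : Set (EV m)) (x : EV m) (t a : ℝ) :
    ‖IS f S x t a‖ₑ ≤ (∫⁻ y, ‖kV (x + y) t‖ₑ ^ (2:ℝ)) ^ (1 / 2 : ℝ)
      * (ENNReal.ofReal (A ^ 2)) ^ (1 / 2 : ℝ) := by
  have h2 : (∫⁻ y, ‖Fh f a y‖ₑ ^ (2:ℝ)) ≤ ENNReal.ofReal (A ^ 2) := by
    have := Fh_L2 hf a
    simpa only [ENNReal.rpow_ofNat] using this
  calc ‖IS f S x t a‖ₑ ≤ ∫⁻ y in S, ‖kV (x + y) t * Fh f a y‖ₑ :=
        enorm_integral_le_lintegral_enorm _
    _ ≤ ∫⁻ y, ‖kV (x + y) t * Fh f a y‖ₑ := setLIntegral_le_lintegral _ _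
    _ = ∫⁻ y, ((fun y : EV m => ‖kV (x + y) t‖ₑ) * (fun y : EV m => ‖Fh f a y‖ₑ)) y := by
        congr 1; ext y; rw [Pi.mul_apply, enorm_mul]
    _ ≤ (∫⁻ y, ‖kV (x + y) t‖ₑ ^ (2:ℝ)) ^ (1 / 2 : ℝ) * (∫⁻ y, ‖Fh f a y‖ₑ ^ (2:ℝ)) ^ (1 / 2 : ℝ) :=
        ENNReal.lintegral_mul_le_Lp_mul_Lq volume Real.HolderConjugate.two_two
          (memLp_kV x t).1.enorm (Fh_memLp hf a).1.enorm
    _ ≤ _ := by gcongr

lemma kV_L2_ne_top (x : EV m) (t : ℝ) :
    (∫⁻ y, ‖kV (x + y) t‖ₑ ^ (2:ℝ)) ^ (1 / 2 : ℝ) ≠ ∞ := by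
  have h1 := (memLp_kV x t).2
  rw [eLpNorm_eq_lintegral_rpow_enorm_toReal (by norm_num) (by norm_num)] at h1
  simpa using h1.ne

lemma IS_norm_bound (hf : Dat f A) (x : EV m) (t : ℝ) :
    ∃ B : ℝ, 0 ≤ B ∧ ∀ (S : Set (EV m)) (a : ℝ), ‖IS f S x t a‖ ≤ B := by
  refine ⟨((∫⁻ y, ‖kV (x + y) t‖ₑ ^ (2:ℝ)) ^ (1 / 2 : ℝ)
      * (ENNReal.ofReal (A ^ 2)) ^ (1 / 2 : ℝ)).toReal, ENNReal.toReal_nonneg, fun S a => ?_⟩
  have h := IS_bound hf S x t a
  rw [← ofReal_norm] at h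
  have hne : ((∫⁻ y, ‖kV (x + y) t‖ₑ ^ (2:ℝ)) ^ (1 / 2 : ℝ)
      * (ENNReal.ofReal (A ^ 2)) ^ (1 / 2 : ℝ)) ≠ ∞ :=
    ENNReal.mul_ne_top (kV_L2_ne_top x t)
      (ENNReal.rpow_ne_top_of_nonneg (by norm_num) ENNReal.ofReal_ne_top)
  exact (ENNReal.ofReal_le_iff_le_toReal hne).1 h

lemma IS_supp (hf : Dat f A) (S : Set (EV m)) (x : EV m) (t : ℝ) {a : ℝ}
    (ha : a ∉ Icc (-1:ℝ) 1) : IS f S x t a = 0 := by
  unfold IS
  rw [Fh_supp hf ha]
  simp

lemma meas_shift {K : EV m × ℝ → ℂ} (hK : Measurable K) (x : EV m) (t : ℝ) :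
    Measurable (fun z : ℝ × EV m => K (x + z.2, t)) := by
  have h2 : Measurable (fun z : ℝ × EV m => ((x + z.2, t) : EV m × ℝ)) := by fun_prop
  exact hK.comp h2

lemma sm_IS (hf : Dat f A) (S : Set (EV m)) (x : EV m) (t : ℝ) :
    StronglyMeasurable (fun a => IS f S x t a) := by
  unfold IS
  apply StronglyMeasurable.integral_prod_right' (f := fun z : ℝ × EV m =>
    kV (x + z.2) t * Fh f z.1 z.2)
  exact ((meas_shift measurable_kV x t).mul (measurable_Fh hf)).stronglyMeasurable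

lemma continuous_ch_a (x1 t : ℝ) : Continuous (fun a : ℝ => ch (a * x1 + a ^ 2 * t)) := by fun_prop

lemma integrable_outer (hf : Dat f A) (S : Set (EV m)) (x : EV m) (x1 t : ℝ) :
    Integrable (fun a => ch (a * x1 + a ^ 2 * t) * IS f S x t a) := by
  obtain ⟨B, hB0, hB⟩ := IS_norm_bound hf x t
  apply integrable_of_supp (R := 1) (C := B)
  · exact (continuous_ch_a x1 t).aestronglyMeasurable.mul (sm_IS hf S x t).aestronglyMeasurable
  · intro a; rw [norm_mul, norm_ch, one_mul]; exact hB S a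
  · intro a ha; rw [IS_supp hf S x t ha, mul_zero]

lemma ES_finset_sum (hf : Dat f A) {D : ℕ → Set (EV m)} (hD : ∀ i, MeasurableSet (D i))
    (hd : Pairwise (Function.onFun Disjoint D)) (N : ℕ) (p : (ℝ × EV m) × ℝ) :
    ∑ i ∈ Finset.range N, ES f (D i) p = ES f (⋃ i ∈ Finset.range N, D i) p := by
  unfold ES
  rw [← integral_finsetSum _ (fun i _ => integrable_outer hf (D i) p.1.2 p.1.1 p.2)]
  congr 1
  ext a
  rw [← Finset.mul_sum]
  congr 1
  unfold IS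
  rw [integral_biUnion_finset _ (fun i _ => hD i) (fun i _ j _ hij => hd hij)]
  intro i _
  exact (integrable_kV_Fh hf _ _ _).integrableOn

lemma tendsto_IS (hf : Dat f A) {D : ℕ → Set (EV m)} (hD : ∀ i, MeasurableSet (D i))
    (hd : Pairwise (Function.onFun Disjoint D)) (hU : ⋃ i, D i = univ) (x : EV m) (t a : ℝ) :
    Tendsto (fun N => IS f (⋃ i ∈ Finset.range N, D i) x t a) atTop
      (𝓝 (∫ η, ch (⟪η, x⟫_ℝ + ‖η‖ ^ 2 * t) * f a η)) := by
  rw [slice_eq hf]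
  have h1 := hasSum_integral_iUnion (f := fun y => kV (x + y) t * Fh f a y) (μ := volume)
    hD hd (integrable_kV_Fh hf x t a).integrableOn
  rw [hU, Measure.restrict_univ] at h1
  have h2 := h1.tendsto_sum_nat
  refine h2.congr fun N => ?_
  unfold IS
  rw [integral_biUnion_finset _ (fun i _ => hD i) (fun i _ j _ hij => hd hij)]
  intro i _
  exact (integrable_kV_Fh hf _ _ _).integrableOn

lemma tendsto_ES (hf : Dat f A) {D : ℕ → Set (EV m)} (hD : ∀ i, MeasurableSet (D i))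
    (hd : Pairwise (Function.onFun Disjoint D)) (hU : ⋃ i, D i = univ) (p : (ℝ × EV m) × ℝ) :
    Tendsto (fun N => ∑ i ∈ Finset.range N, ES f (D i) p) atTop (𝓝 (EF f p)) := by
  simp_rw [ES_finset_sum hf hD hd]
  obtain ⟨B, hB0, hB⟩ := IS_norm_bound hf p.1.2 p.2
  unfold ES EF
  apply tendsto_integral_of_dominated_convergence (indicator (Icc (-1:ℝ) 1) (fun _ => B))
  · intro N
    exact (continuous_ch_a _ _).aestronglyMeasurable.mul (sm_IS hf _ _ _).aestronglyMeasurable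
  · rw [integrable_indicator_iff measurableSet_Icc]
    simp
  · intro N
    refine Eventually.of_forall fun a => ?_
    rw [norm_mul, norm_ch, one_mul]
    by_cases ha : a ∈ Icc (-1:ℝ) 1
    · rw [indicator_of_mem ha]; exact hB _ _
    · rw [indicator_of_notMem ha, IS_supp hf _ _ _ ha, norm_zero]
  · refine Eventually.of_forall fun a => ?_
    exact (tendsto_IS hf hD hd hU p.1.2 p.2 a).const_mul _

lemma sm_comp_left {E : Type*} [NormedAddCommGroup E] {G : EV m × ℝ → E}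
    (hG : StronglyMeasurable G) :
    StronglyMeasurable (fun p : (ℝ × EV m) × ℝ => G (p.1.2, p.2)) := by
  have h2 : Measurable (fun p : (ℝ × EV m) × ℝ => ((p.1.2, p.2) : EV m × ℝ)) := by fun_prop
  exact hG.comp_measurable h2

lemma sm_comp_right {E : Type*} [NormedAddCommGroup E] {G : ℝ × ℝ → E}
    (hG : StronglyMeasurable G) :
    StronglyMeasurable (fun p : (ℝ × EV m) × ℝ => G (p.1.1, p.2)) := by
  have h2 : Measurable (fun p : (ℝ × EV m) × ℝ => ((p.1.1, p.2) : ℝ × ℝ)) := by fun_prop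
  exact hG.comp_measurable h2

lemma sm_Uop' {𝓗 : Type*} [NormedAddCommGroup 𝓗] [InnerProductSpace ℂ 𝓗] [CompleteSpace 𝓗]
    {v : ℝ → 𝓗} (hv : StronglyMeasurable v) :
    StronglyMeasurable (fun p : ℝ × ℝ => Uop v p.1 p.2) := by
  unfold Uop
  apply StronglyMeasurable.integral_prod_right' (f := fun q : (ℝ × ℝ) × ℝ =>
    ch (q.2 * q.1.1 + q.2 ^ 2 * q.1.2) • v q.2)
  have hc : Continuous (fun q : (ℝ × ℝ) × ℝ => ch (q.2 * q.1.1 + q.2 ^ 2 * q.1.2)) := by fun_prop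
  exact hc.stronglyMeasurable.smul (hv.comp_measurable measurable_snd)

lemma sm_ES (hf : Dat f A) {S : Set (EV m)} (hS : MeasurableSet S) (hvol : volume S ≠ ∞) :
    StronglyMeasurable (ES f S) := by
  have h1 : ES f S = fun p => ⟪kapS hS hvol p.1.2 p.2, Uop (v := uS hf hS) p.1.1 p.2⟫_ℂ := by
    ext p; exact ES_eq_inner hf hS hvol p
  rw [h1]
  exact (sm_comp_left (sm_kapS hS hvol)).inner (sm_comp_right (sm_Uop' (sm_uS hf hS)))

/-- `L^q` bound for the localised extension, in norm form. -/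
lemma eLpNorm_ES_le (hf : Dat f A) {S : Set (EV m)} (hS : MeasurableSet S)
    (hvol : volume S ≠ ∞) {β : ℝ}
    (hβ0 : 0 < β) (hβ : ∀ a, ∫⁻ y in S, ‖Fh f a y‖ₑ ^ 2 ≤ ENNReal.ofReal (β ^ 2))
    {θ : ℝ} (h0 : 0 < θ) (h1 : θ < 1)
    {q : ℝ} (hq2 : 2 < q) (hq4 : q ≤ 4) (ha : 1 < ((m:ℝ) + 1) * (q - 2) / 2) :
    eLpNorm (ES f S) (ENNReal.ofReal q) volume
      ≤ CR m θ q ^ (1 / q) * (ENNReal.ofReal β * volume S ^ ((q - 2) / (2 * q))) := by
  have hq0 : 0 < q := by linarith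
  rw [eLpNorm_eq_lintegral_rpow_enorm_toReal (by simpa using hq0) (by simp)]
  rw [ENNReal.toReal_ofReal hq0.le]
  calc (∫⁻ p : (ℝ × EV m) × ℝ, ‖ES f S p‖ₑ ^ q) ^ (1 / q)
      ≤ (ENNReal.ofReal β ^ q * (volume S ^ ((q - 2) / 2) * CR m θ q)) ^ (1 / q) := by
        apply ENNReal.rpow_le_rpow (ES_bound hf hS hvol hβ0 hβ h0 h1 hq2 hq4 ha) (by positivity)
    _ = CR m θ q ^ (1 / q) * (ENNReal.ofReal β * volume S ^ ((q - 2) / (2 * q))) := by
        rw [ENNReal.mul_rpow_of_nonneg _ _ (by positivity),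
          ENNReal.mul_rpow_of_nonneg _ _ (by positivity), ← ENNReal.rpow_mul, ← ENNReal.rpow_mul,
          mul_one_div_cancel hq0.ne', ENNReal.rpow_one]
        have e1 : (q - 2) / 2 * (1 / q) = (q - 2) / (2 * q) := by field_simp
        rw [e1]
        ring

/-- The summed estimate. -/
theorem EF_bound (hf : Dat f A) {D : ℕ → Set (EV m)} (hD : ∀ i, MeasurableSet (D i))
    (hd : Pairwise (Function.onFun Disjoint D)) (hU : ⋃ i, D i = univ)
    (hvol : ∀ i, volume (D i) ≠ ∞) {β : ℕ → ℝ} (hβ0 : ∀ i, 0 < β i)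
    (hβ : ∀ i a, ∫⁻ y in D i, ‖Fh f a y‖ₑ ^ 2 ≤ ENNReal.ofReal (β i ^ 2))
    {θ : ℝ} (h0 : 0 < θ) (h1 : θ < 1)
    {q : ℝ} (hq2 : 2 < q) (hq4 : q ≤ 4) (ha : 1 < ((m:ℝ) + 1) * (q - 2) / 2) :
    eLpNorm (EF f) (ENNReal.ofReal q) volume
      ≤ CR m θ q ^ (1 / q) *
        ∑' i, (ENNReal.ofReal (β i) * volume (D i) ^ ((q - 2) / (2 * q))) := by
  have hq0 : 0 < q := by linarith
  refine (Lp.eLpNorm_lim_le_liminf_eLpNorm
    (f := fun N p => ∑ i ∈ Finset.range N, ES f (D i) p) ?_ (EF f) ?_).trans ?_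
  · intro N
    apply StronglyMeasurable.aestronglyMeasurable
    exact Finset.stronglyMeasurable_fun_sum _ fun i _ => sm_ES hf (hD i) (hvol i)
  · exact Eventually.of_forall fun p => tendsto_ES hf hD hd hU p
  · apply liminf_le_of_frequently_le'
    apply Frequently.of_forall
    intro N
    have e1 : (fun p => ∑ i ∈ Finset.range N, ES f (D i) p) = ∑ i ∈ Finset.range N, ES f (D i) := by
      ext p; simp
    rw [e1]
    calc eLpNorm (∑ i ∈ Finset.range N, ES f (D i)) (ENNReal.ofReal q) volume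
        ≤ ∑ i ∈ Finset.range N, eLpNorm (ES f (D i)) (ENNReal.ofReal q) volume := by
          apply eLpNorm_sum_le
          · exact fun i _ => (sm_ES hf (hD i) (hvol i)).aestronglyMeasurable
          · rw [ENNReal.one_le_ofReal]; linarith
      _ ≤ ∑ i ∈ Finset.range N, CR m θ q ^ (1 / q) *
            (ENNReal.ofReal (β i) * volume (D i) ^ ((q - 2) / (2 * q))) :=
          Finset.sum_le_sum fun i _ =>
            eLpNorm_ES_le hf (hD i) (hvol i) (hβ0 i) (hβ i) h0 h1 hq2 hq4 ha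
      _ = CR m θ q ^ (1 / q) * ∑ i ∈ Finset.range N,
            (ENNReal.ofReal (β i) * volume (D i) ^ ((q - 2) / (2 * q))) := by
          rw [Finset.mul_sum]
      _ ≤ _ := by
          gcongr
          exact ENNReal.sum_le_tsum _

end Pool.Agent.H.MP_b7167f_an
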