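import Mathlib
import Pool.Agent.H.MP_b7167f_an.RoughLimit

open MeasureTheory FourierTransform Set Filter
open scoped ENNReal NNReal ComplexConjugate InnerProductSpace Topology

namespace Pool.Agent.H.MP_b7167f_an

variable {m : ℕ}

attribute [local irreducible] kV Uop

/-- the product weight `∏ (1+|y_j|)`. -/
noncomputable def Wt (y : EV m) : ℝ := ∏ j, (1 + |y j|)

lemma one_le_Wt (y : EV m) : 1 ≤ Wt y := by
  unfold Wt
  calc (1:ℝ) = ∏ _j : Fin m, (1:ℝ) := by simp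
    _ ≤ ∏ j, (1 + |y j|) := Finset.prod_le_prod (fun _ _ => zero_le_one)
        fun j _ => by linarith [abs_nonneg (y j)]

lemma Wt_pos (y : EV m) : 0 < Wt y := lt_of_lt_of_le one_pos (one_le_Wt y)

lemma continuous_Wt : Continuous (Wt : EV m → ℝ) := by
  unfold Wt
  fun_prop

/-- total mass of `W^{-r}` -/
noncomputable def WI (m : ℕ) (r : ℝ) : ℝ≥0∞ := (∫⁻ x : ℝ, ENNReal.ofReal ((1 + ‖x‖) ^ (-r))) ^ m

lemma WI_ne_top (m : ℕ) {r : ℝ} (hr : 1 < r) : WI m r ≠ ∞ := by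
  unfold WI
  apply ENNReal.pow_ne_top
  have h2 : Integrable (fun t : ℝ => (1 + ‖t‖) ^ (-r)) := by
    apply integrable_one_add_norm
    simpa using hr
  have h3 := h2.hasFiniteIntegral
  rw [hasFiniteIntegral_iff_ofReal (Filter.Eventually.of_forall fun t => by positivity)] at h3
  exact h3.ne

lemma lintegral_Wt (r : ℝ) : ∫⁻ y : EV m, ENNReal.ofReal (Wt y ^ (-r)) = WI m r := by
  rw [← (PiLp.volume_preserving_toLp (Fin m)).lintegral_comp_emb
    (MeasurableEquiv.toLp 2 (Fin m → ℝ)).measurableEmbedding]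
  have h1 : ∀ η : Fin m → ℝ, ENNReal.ofReal (Wt (WithLp.toLp 2 η : EV m) ^ (-r))
      = ∏ j, (fun (_ : Fin m) (x : ℝ) => ENNReal.ofReal ((1 + ‖x‖) ^ (-r))) j (η j) := by
    intro η
    unfold Wt
    rw [← Real.finsetProd_rpow _ _ (fun j _ => by positivity),
      ENNReal.ofReal_prod_of_nonneg (fun j _ => by positivity)]
    rfl
  simp_rw [h1]
  rw [lintegral_fin_prod (f := fun (_ : Fin m) (x : ℝ) => ENNReal.ofReal ((1 + ‖x‖) ^ (-r)))]
  · unfold WI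
    simp
  · intro i
    apply Measurable.ennreal_ofReal
    exact (measurable_const.add measurable_norm).pow_const _

/-- layers of the weight -/
def Lay (m : ℕ) (k : ℕ) : Set (EV m) := {y | (2:ℝ) ^ k ≤ Wt y ∧ Wt y < 2 ^ (k + 1)}

lemma measurableSet_Lay (k : ℕ) : MeasurableSet (Lay m k) := by
  unfold Lay
  exact (measurableSet_le measurable_const continuous_Wt.measurable).inter
    (measurableSet_lt continuous_Wt.measurable measurable_const)

lemma Lay_disjoint : Pairwise (Function.onFun Disjoint (Lay m)) := by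
  have key : ∀ i j : ℕ, i < j → Disjoint (Lay m i) (Lay m j) := by
    intro i j hij
    rw [Set.disjoint_left]
    intro y hy1 hy2
    have h1 : (2:ℝ) ^ (i + 1) ≤ 2 ^ j := pow_le_pow_right₀ (by norm_num) hij
    exact absurd (hy1.2.trans_le h1) (not_lt.2 hy2.1)
  intro i j hij
  rcases lt_or_gt_of_ne hij with h | h
  · exact key i j h
  · exact (key j i h).symm

lemma Lay_union : ⋃ k, Lay m k = univ := by
  rw [eq_univ_iff_forall]
  intro y
  rw [mem_iUnion]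
  obtain ⟨k, hk1, hk2⟩ := exists_nat_pow_near (one_le_Wt y) (by norm_num : (1:ℝ) < 2)
  exact ⟨k, hk1, hk2⟩

lemma volume_Lay_le {r : ℝ} (hr : 0 < r) (k : ℕ) :
    volume (Lay m k) ≤ ENNReal.ofReal (2 ^ ((k + 1 : ℝ) * r)) * WI m r := by
  have h1 : ∀ y ∈ Lay m k, (1:ℝ≥0∞) ≤
      ENNReal.ofReal (2 ^ ((k + 1 : ℝ) * r)) * ENNReal.ofReal (Wt y ^ (-r)) := by
    intro y hy
    rw [← ENNReal.ofReal_mul (by positivity), ← ENNReal.ofReal_one]
    apply ENNReal.ofReal_le_ofReal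
    have hW := Wt_pos y
    rw [Real.rpow_neg hW.le, ← div_eq_mul_inv, one_le_div (by positivity)]
    have h2 : Wt y ≤ 2 ^ ((k:ℝ) + 1) := by
      have := hy.2.le
      calc Wt y ≤ 2 ^ (k + 1) := this
        _ = 2 ^ ((k:ℝ) + 1) := by
          rw [← Real.rpow_natCast]; push_cast; rfl
    calc Wt y ^ r ≤ (2 ^ ((k:ℝ) + 1)) ^ r := Real.rpow_le_rpow hW.le h2 hr.le
      _ = 2 ^ ((k + 1 : ℝ) * r) := by rw [← Real.rpow_mul (by norm_num)]
  calc volume (Lay m k) = ∫⁻ y in Lay m k, 1 := by simp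
    _ ≤ ∫⁻ y in Lay m k, ENNReal.ofReal (2 ^ ((k + 1 : ℝ) * r)) * ENNReal.ofReal (Wt y ^ (-r)) :=
        setLIntegral_mono' (measurableSet_Lay k) h1
    _ ≤ ∫⁻ y, ENNReal.ofReal (2 ^ ((k + 1 : ℝ) * r)) * ENNReal.ofReal (Wt y ^ (-r)) :=
        setLIntegral_le_lintegral _ _
    _ = ENNReal.ofReal (2 ^ ((k + 1 : ℝ) * r)) * WI m r := by
        rw [lintegral_const_mul' _ _ ENNReal.ofReal_ne_top, lintegral_Wt]

variable {f : ℝ → EV m → ℂ} {A : ℝ}

/-- mass of `F` on a layer -/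
lemma Lay_mass {s : ℝ} (hs : 0 ≤ s) {a : ℝ}
    (h : ∫⁻ y, ENNReal.ofReal (Wt y ^ (2 * s)) * ‖Fh f a y‖ₑ ^ 2 ≤ ENNReal.ofReal (A ^ 2))
    (k : ℕ) :
    ∫⁻ y in Lay m k, ‖Fh f a y‖ₑ ^ 2 ≤ ENNReal.ofReal ((A * 2 ^ (-(s * k))) ^ 2) := by
  have h1 : ∀ y ∈ Lay m k, ‖Fh f a y‖ₑ ^ 2
      ≤ ENNReal.ofReal (2 ^ (-(2 * s * k))) * (ENNReal.ofReal (Wt y ^ (2 * s)) * ‖Fh f a y‖ₑ ^ 2) := by
    intro y hy
    rw [← mul_assoc, ← ENNReal.ofReal_mul (by positivity)]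
    have h2 : (1:ℝ) ≤ 2 ^ (-(2 * s * k)) * Wt y ^ (2 * s) := by
      have h3 : (2:ℝ) ^ (k:ℝ) ≤ Wt y := by
        rw [Real.rpow_natCast]; exact hy.1
      have h4 : (2:ℝ) ^ (2 * s * k) ≤ Wt y ^ (2 * s) := by
        calc (2:ℝ) ^ (2 * s * k) = (2 ^ (k:ℝ)) ^ (2 * s) := by
              rw [← Real.rpow_mul (by norm_num)]; congr 1; ring
          _ ≤ Wt y ^ (2 * s) := Real.rpow_le_rpow (by positivity) h3 (by linarith)
      rw [Real.rpow_neg (by norm_num), inv_mul_eq_div, one_le_div (by positivity)]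
      exact h4
    calc ‖Fh f a y‖ₑ ^ 2 = 1 * ‖Fh f a y‖ₑ ^ 2 := (one_mul _).symm
      _ ≤ ENNReal.ofReal (2 ^ (-(2 * s * k)) * Wt y ^ (2 * s)) * ‖Fh f a y‖ₑ ^ 2 := by
          gcongr
          rw [← ENNReal.ofReal_one]
          exact ENNReal.ofReal_le_ofReal h2
  calc ∫⁻ y in Lay m k, ‖Fh f a y‖ₑ ^ 2
      ≤ ∫⁻ y in Lay m k, ENNReal.ofReal (2 ^ (-(2 * s * k))) *
          (ENNReal.ofReal (Wt y ^ (2 * s)) * ‖Fh f a y‖ₑ ^ 2) :=
        setLIntegral_mono' (measurableSet_Lay k) h1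
    _ ≤ ∫⁻ y, ENNReal.ofReal (2 ^ (-(2 * s * k))) *
          (ENNReal.ofReal (Wt y ^ (2 * s)) * ‖Fh f a y‖ₑ ^ 2) := setLIntegral_le_lintegral _ _
    _ = ENNReal.ofReal (2 ^ (-(2 * s * k))) *
          ∫⁻ y, (ENNReal.ofReal (Wt y ^ (2 * s)) * ‖Fh f a y‖ₑ ^ 2) :=
        lintegral_const_mul' _ _ ENNReal.ofReal_ne_top
    _ ≤ ENNReal.ofReal (2 ^ (-(2 * s * k))) * ENNReal.ofReal (A ^ 2) := by gcongr
    _ = ENNReal.ofReal ((A * 2 ^ (-(s * k))) ^ 2) := by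
        rw [← ENNReal.ofReal_mul (by positivity)]
        congr 1
        rw [mul_pow, ← Real.rpow_natCast (2 ^ (-(s * (k:ℝ)))) 2, ← Real.rpow_mul (by norm_num)]
        rw [mul_comm]
        congr 2
        push_cast
        ring

/-- The constant of the final estimate. -/
noncomputable def CS (m : ℕ) (θ q r s : ℝ) : ℝ≥0∞ :=
  CR m θ q ^ (1 / q) * ∑' k : ℕ, (ENNReal.ofReal (2 ^ (-(s * k))) *
    (ENNReal.ofReal (2 ^ ((k + 1 : ℝ) * r)) * WI m r) ^ ((q - 2) / (2 * q)))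

lemma CR_ne_top {θ q : ℝ} (h1 : θ < 1) (hq4 : q ≤ 4)
    (ha : 1 < ((m:ℝ) + 1) * (q - 2) / 2) (haθ : 1 < ((m:ℝ) + 1) * (q - 2) / 2 * θ) :
    CR m θ q ≠ ∞ := by
  unfold CR
  apply ENNReal.mul_ne_top
  · exact ENNReal.rpow_ne_top_of_nonneg (by linarith) (by norm_num)
  · apply ENNReal.mul_ne_top
    · apply ENNReal.rpow_ne_top_of_nonneg (by positivity)
      exact lintegral_wgt_rpow h1 (by linarith) haθ
    · exact ENNReal.rpow_ne_top_of_nonneg (by positivity) (Ca_ne_top ha)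

lemma CS_ne_top {θ q r s : ℝ} (h1 : θ < 1) (hq2 : 2 < q) (hq4 : q ≤ 4)
    (ha : 1 < ((m:ℝ) + 1) * (q - 2) / 2) (haθ : 1 < ((m:ℝ) + 1) * (q - 2) / 2 * θ)
    (hr : 1 < r) (hs : r * ((q - 2) / (2 * q)) < s) : CS m θ q r s ≠ ∞ := by
  unfold CS
  have hσ : 0 < (q - 2) / (2 * q) := div_pos (by linarith) (by linarith)
  set σ : ℝ := (q - 2) / (2 * q) with hσdef
  apply ENNReal.mul_ne_top
  · exact ENNReal.rpow_ne_top_of_nonneg (by positivity) (CR_ne_top h1 hq4 ha haθ)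
  · have e1 : ∀ k : ℕ, ENNReal.ofReal (2 ^ (-(s * k))) *
        (ENNReal.ofReal (2 ^ ((k + 1 : ℝ) * r)) * WI m r) ^ σ
        = (ENNReal.ofReal (2 ^ (r * σ)) * WI m r ^ σ) * (ENNReal.ofReal (2 ^ (r * σ - s))) ^ k := by
      intro k
      rw [ENNReal.mul_rpow_of_nonneg _ _ hσ.le, ENNReal.ofReal_rpow_of_nonneg (by positivity) hσ.le,
        ← ENNReal.ofReal_pow (by positivity), ← Real.rpow_natCast (2 ^ (r * σ - s)) k,
        ← Real.rpow_mul (by norm_num), ← Real.rpow_mul (by norm_num)]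
      rw [← mul_assoc, ← ENNReal.ofReal_mul (by positivity), ← Real.rpow_add (by norm_num)]
      rw [mul_right_comm (ENNReal.ofReal (2 ^ (r * σ))) (WI m r ^ σ),
        ← ENNReal.ofReal_mul (by positivity), ← Real.rpow_add (by norm_num)]
      congr 3
      ring
    simp_rw [e1]
    rw [ENNReal.tsum_mul_left, ENNReal.tsum_geometric]
    apply ENNReal.mul_ne_top
    · exact ENNReal.mul_ne_top ENNReal.ofReal_ne_top
        (ENNReal.rpow_ne_top_of_nonneg hσ.le (WI_ne_top m hr))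
    · rw [ENNReal.inv_ne_top]
      have h2 : ENNReal.ofReal (2 ^ (r * σ - s)) < 1 := by
        rw [← ENNReal.ofReal_one, ENNReal.ofReal_lt_ofReal_iff (by norm_num)]
        exact Real.rpow_lt_one_of_one_lt_of_neg (by norm_num) (by linarith)
      exact (tsub_pos_of_lt h2).ne'

/-- The bound for data with dominating mixed smoothness `s` in the last `m` variables. -/
theorem EF_bound_smooth (hf : Dat f A) (hA : 0 < A) {s : ℝ} (hs0 : 0 ≤ s)
    (h : ∀ a, ∫⁻ y, ENNReal.ofReal (Wt y ^ (2 * s)) * ‖Fh f a y‖ₑ ^ 2 ≤ ENNReal.ofReal (A ^ 2))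
    {θ : ℝ} (h0 : 0 < θ) (h1 : θ < 1) {r : ℝ} (hr : 1 < r)
    {q : ℝ} (hq2 : 2 < q) (hq4 : q ≤ 4) (ha : 1 < ((m:ℝ) + 1) * (q - 2) / 2) :
    eLpNorm (EF f) (ENNReal.ofReal q) volume ≤ CS m θ q r s * ENNReal.ofReal A := by
  have hvol : ∀ k, volume (Lay m k) ≠ ∞ := fun k =>
    ((volume_Lay_le (by linarith : 0 < r) k).trans_lt
      (ENNReal.mul_lt_top ENNReal.ofReal_lt_top (WI_ne_top m hr).lt_top)).ne
  have hσ : 0 < (q - 2) / (2 * q) := div_pos (by linarith) (by linarith)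
  refine (EF_bound hf (D := Lay m) measurableSet_Lay Lay_disjoint Lay_union hvol
    (β := fun k : ℕ => A * 2 ^ (-(s * k))) (fun k => by positivity)
    (fun k a => Lay_mass hs0 (h a) k) h0 h1 hq2 hq4 ha).trans ?_
  unfold CS
  rw [mul_assoc]
  refine mul_le_mul_right ?_ _
  rw [← ENNReal.tsum_mul_right]
  apply ENNReal.tsum_le_tsum
  intro k
  rw [ENNReal.ofReal_mul hA.le]
  calc ENNReal.ofReal A * ENNReal.ofReal (2 ^ (-(s * k))) * volume (Lay m k) ^ ((q - 2) / (2 * q))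
      ≤ ENNReal.ofReal A * ENNReal.ofReal (2 ^ (-(s * k))) *
        (ENNReal.ofReal (2 ^ ((k + 1 : ℝ) * r)) * WI m r) ^ ((q - 2) / (2 * q)) := by
        gcongr
        exact volume_Lay_le (by linarith) k
    _ = _ := by ring

end Pool.Agent.H.MP_b7167f_an
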