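import Mathlib
import Pool.Agent.H.MP_b7167f_an.Def
import Pool.Agent.H.MP_b7167f_an.RoughSum

open MeasureTheory FourierTransform Set Filter
open scoped ENNReal NNReal ComplexConjugate InnerProductSpace Topology

namespace Pool.Agent.H.MP_b7167f_an

variable {m : ℕ}

attribute [local irreducible] kV Uop

lemma eLpNorm_le_of_sup {X : Type*} [MeasurableSpace X] {μ : Measure X} {g : X → ℂ} {q1 q : ℝ}
    (h1 : 0 < q1) (h2 : q1 ≤ q) {M : ℝ≥0∞} (hMt : M ≠ ∞) (hM : ∀ p, ‖g p‖ₑ ≤ M) :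
    eLpNorm g (ENNReal.ofReal q) μ
      ≤ M ^ (1 - q1 / q) * (eLpNorm g (ENNReal.ofReal q1) μ) ^ (q1 / q) := by
  have hq0 : 0 < q := h1.trans_le h2
  rw [eLpNorm_eq_lintegral_rpow_enorm_toReal (by simpa using hq0) (by simp),
    eLpNorm_eq_lintegral_rpow_enorm_toReal (by simpa using h1) (by simp)]
  rw [ENNReal.toReal_ofReal hq0.le, ENNReal.toReal_ofReal h1.le]
  have hpt : ∀ p, ‖g p‖ₑ ^ q ≤ M ^ (q - q1) * ‖g p‖ₑ ^ q1 := by
    intro p
    calc ‖g p‖ₑ ^ q = ‖g p‖ₑ ^ (q - q1) * ‖g p‖ₑ ^ q1 := by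
          rw [← ENNReal.rpow_add_of_nonneg _ _ (by linarith) h1.le]
          congr 1; ring
      _ ≤ M ^ (q - q1) * ‖g p‖ₑ ^ q1 := by
          gcongr
          exact hM p
  calc (∫⁻ p, ‖g p‖ₑ ^ q ∂μ) ^ (1 / q)
      ≤ (∫⁻ p, M ^ (q - q1) * ‖g p‖ₑ ^ q1 ∂μ) ^ (1 / q) :=
        ENNReal.rpow_le_rpow (lintegral_mono hpt) (by positivity)
    _ = (M ^ (q - q1) * ∫⁻ p, ‖g p‖ₑ ^ q1 ∂μ) ^ (1 / q) := by
        rw [lintegral_const_mul' _ _ (ENNReal.rpow_ne_top_of_nonneg (by linarith) hMt)]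
    _ = M ^ (1 - q1 / q) * ((∫⁻ p, ‖g p‖ₑ ^ q1 ∂μ) ^ (1 / q1)) ^ (q1 / q) := by
        rw [ENNReal.mul_rpow_of_nonneg _ _ (by positivity), ← ENNReal.rpow_mul,
          ← ENNReal.rpow_mul]
        congr 2
        · field_simp
        · field_simp

variable {f : ℝ → EV m → ℂ} {A : ℝ}

lemma sm_EF (hf : Dat f A) : StronglyMeasurable (EF f) := by
  have hvol : ∀ k, volume (Lay m k) ≠ ∞ := fun k =>
    ((volume_Lay_le (by norm_num : (0:ℝ) < 2) k).trans_lt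
      (ENNReal.mul_lt_top ENNReal.ofReal_lt_top (WI_ne_top m (by norm_num)).lt_top)).ne
  refine stronglyMeasurable_of_tendsto (u := atTop)
    (f := fun N p => ∑ i ∈ Finset.range N, ES f (Lay m i) p) ?_ ?_
  · intro N
    exact Finset.stronglyMeasurable_fun_sum _ fun i _ => sm_ES hf (measurableSet_Lay i) (hvol i)
  · rw [tendsto_pi_nhds]
    intro p
    exact tendsto_ES hf measurableSet_Lay Lay_disjoint Lay_union p

/-- constant for the sup bound -/
noncomputable def Csup (m : ℕ) : ℝ≥0∞ := 2 * (∫⁻ η : EV m, ‖qV η‖ₑ ^ (2:ℝ)) ^ (1 / 2 : ℝ)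

lemma Csup_ne_top (m : ℕ) : Csup m ≠ ∞ := by
  unfold Csup
  apply ENNReal.mul_ne_top (by norm_num)
  have h1 := (integrable_of_qV (m := m) (g := fun _ => (1:ℂ)) measurable_const (C := 1) (by simp)).2
  simp only [one_mul] at h1
  have h2 := h1.2
  rw [eLpNorm_eq_lintegral_rpow_enorm_toReal (by norm_num) (by norm_num)] at h2
  simpa using h2.ne

lemma enorm_EF_le (hf : Dat f A) (hA : 0 ≤ A) (p : (ℝ × EV m) × ℝ) :
    ‖EF f p‖ₑ ≤ Csup m * ENNReal.ofReal A := by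
  have hin : ∀ a, ‖∫ η, ch (⟪η, p.1.2⟫_ℝ + ‖η‖ ^ 2 * p.2) * f a η‖ₑ
      ≤ (∫⁻ η : EV m, ‖qV η‖ₑ ^ (2:ℝ)) ^ (1 / 2 : ℝ) * ENNReal.ofReal A := by
    intro a
    have h2 : (∫⁻ y, ‖f a y‖ₑ ^ (2:ℝ)) ≤ ENNReal.ofReal (A ^ 2) := by
      have := hf.L2 a
      simpa only [ENNReal.rpow_ofNat] using this
    have h3 : (ENNReal.ofReal (A ^ 2)) ^ (1 / 2 : ℝ) = ENNReal.ofReal A := by
      rw [ENNReal.ofReal_rpow_of_nonneg (by positivity) (by norm_num), ← Real.sqrt_eq_rpow,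
        Real.sqrt_sq hA]
    calc ‖∫ η, ch (⟪η, p.1.2⟫_ℝ + ‖η‖ ^ 2 * p.2) * f a η‖ₑ
        ≤ ∫⁻ η, ‖ch (⟪η, p.1.2⟫_ℝ + ‖η‖ ^ 2 * p.2) * f a η‖ₑ :=
          enorm_integral_le_lintegral_enorm _
      _ = ∫⁻ η, ((fun η : EV m => ‖qV η‖ₑ) * (fun η : EV m => ‖f a η‖ₑ)) η := by
          congr 1
          ext η
          rw [Pi.mul_apply, enorm_mul, enorm_ch, one_mul, ← enorm_mul, mul_comm, hf.mul_qV]
      _ ≤ (∫⁻ η : EV m, ‖qV η‖ₑ ^ (2:ℝ)) ^ (1 / 2 : ℝ) * (∫⁻ y, ‖f a y‖ₑ ^ (2:ℝ)) ^ (1 / 2 : ℝ) :=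
          ENNReal.lintegral_mul_le_Lp_mul_Lq volume Real.HolderConjugate.two_two
            measurable_qV.enorm.aemeasurable (hf.meas_slice a).enorm.aemeasurable
      _ ≤ (∫⁻ η : EV m, ‖qV η‖ₑ ^ (2:ℝ)) ^ (1 / 2 : ℝ) * (ENNReal.ofReal (A ^ 2)) ^ (1 / 2 : ℝ) := by
          gcongr
      _ = _ := by rw [h3]
  unfold EF
  calc ‖∫ a, ch (a * p.1.1 + a ^ 2 * p.2) * ∫ η, ch (⟪η, p.1.2⟫_ℝ + ‖η‖ ^ 2 * p.2) * f a η‖ₑ
      ≤ ∫⁻ a, ‖ch (a * p.1.1 + a ^ 2 * p.2) * ∫ η, ch (⟪η, p.1.2⟫_ℝ + ‖η‖ ^ 2 * p.2) * f a η‖ₑ :=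
        enorm_integral_le_lintegral_enorm _
    _ ≤ ∫⁻ a, indicator (Icc (-1:ℝ) 1) (fun _ =>
          (∫⁻ η : EV m, ‖qV η‖ₑ ^ (2:ℝ)) ^ (1 / 2 : ℝ) * ENNReal.ofReal A) a := by
        apply lintegral_mono
        intro a
        simp only
        rw [enorm_mul, enorm_ch, one_mul]
        by_cases h : a ∈ Icc (-1:ℝ) 1
        · rw [indicator_of_mem h]; exact hin a
        · rw [indicator_of_notMem h, hf.supp1 a h]; simp
    _ = Csup m * ENNReal.ofReal A := by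
        rw [lintegral_indicator measurableSet_Icc, lintegral_const, Measure.restrict_apply_univ,
          Real.volume_Icc, Csup]
        norm_num
        ring

/-- splitting of the variables `ℝ^(m+1) = ℝ × ℝ^m` -/
noncomputable def spl (m : ℕ) (X : Fin (m + 1) → ℝ) : ℝ × EV m :=
  (X 0, WithLp.toLp 2 (Fin.tail X))

lemma mp_spl (m : ℕ) : MeasurePreserving (spl m) volume volume := by
  have h1 := volume_preserving_piFinSuccAbove (fun _ : Fin (m + 1) => ℝ) 0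
  have h2 := (MeasurePreserving.id (volume : Measure ℝ)).prod (PiLp.volume_preserving_toLp (Fin m))
  have h3 := h2.comp h1
  have h4 : spl m = (Prod.map id (WithLp.toLp 2)) ∘
      (MeasurableEquiv.piFinSuccAbove (fun _ : Fin (m + 1) => ℝ) 0) := by
    ext X
    · rfl
    · simp only [spl, Function.comp_apply, Prod.map]
      rfl
  rw [h4]
  exact h3

lemma integral_spl {g : ℝ × EV m → ℂ} (hg : Integrable g) :
    ∫ X : Fin (m + 1) → ℝ, g (spl m X) = ∫ a, ∫ η, g (a, η) := by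
  have h1 := (mp_spl m).map_eq
  have h2 : ∫ X : Fin (m + 1) → ℝ, g (spl m X) = ∫ z, g z := by
    rw [← (mp_spl m).map_eq, integral_map (mp_spl m).measurable.aemeasurable]
    rw [(mp_spl m).map_eq]
    exact hg.aestronglyMeasurable
  rw [h2, Measure.volume_eq_prod, integral_prod]
  rw [← Measure.volume_eq_prod]
  exact hg

/-- cut-off in the first variable -/
noncomputable def cutf (f : ℝ → EV m → ℂ) (a : ℝ) : EV m → ℂ := indicator (Icc (-1:ℝ) 1) f a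

lemma cutf_of_mem {a : ℝ} (ha : a ∈ Icc (-1:ℝ) 1) : cutf f a = f a := by
  unfold cutf; rw [indicator_of_mem ha]

lemma cutf_of_notMem {a : ℝ} (ha : a ∉ Icc (-1:ℝ) 1) : cutf f a = 0 := by
  unfold cutf; rw [indicator_of_notMem ha]

lemma measurable_cutf (hf : Measurable (Function.uncurry f)) :
    Measurable (Function.uncurry (cutf f)) := by
  have h1 : Function.uncurry (cutf f)
      = indicator (Prod.fst ⁻¹' (Icc (-1:ℝ) 1)) (Function.uncurry f) := by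
    ext z
    by_cases h : z.1 ∈ Icc (-1:ℝ) 1
    · have h' : z ∈ Prod.fst ⁻¹' (Icc (-1:ℝ) 1) := h
      rw [indicator_of_mem h', Function.uncurry, cutf_of_mem h]; rfl
    · have h' : z ∉ Prod.fst ⁻¹' (Icc (-1:ℝ) 1) := h
      rw [indicator_of_notMem h', Function.uncurry, cutf_of_notMem h]; rfl
  rw [h1]
  exact hf.indicator (measurable_fst measurableSet_Icc)

/-- The extension operator in the split variables. -/
lemma extOp_eq_EF (hfm : Measurable (Function.uncurry f)) {B : ℝ} (hB : ∀ a η, ‖f a η‖ ≤ B)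
    (hs : ∀ a η, (∃ j, η j ∉ Icc (-1:ℝ) 1) → f a η = 0) (p : (Fin (m + 1) → ℝ) × ℝ) :
    extOp (m + 1) (fun ξ => f (ξ 0) (WithLp.toLp 2 (Fin.tail ξ))) p
      = EF (cutf f) (spl m p.1, p.2) := by
  set g : ℝ × EV m → ℂ := fun z => ch (z.1 * p.1 0 + z.1 ^ 2 * p.2) *
    (ch (⟪z.2, (spl m p.1).2⟫_ℝ + ‖z.2‖ ^ 2 * p.2) * cutf f z.1 z.2) with hg
  have hgm : Measurable g := by
    have c1 : Continuous (fun z : ℝ × EV m => ch (z.1 * p.1 0 + z.1 ^ 2 * p.2)) := by fun_prop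
    have c2 : Continuous (fun z : ℝ × EV m =>
      ch (⟪z.2, (spl m p.1).2⟫_ℝ + ‖z.2‖ ^ 2 * p.2)) := by fun_prop
    exact c1.measurable.mul (c2.measurable.mul (measurable_cutf hfm))
  have hB0 : 0 ≤ B := (norm_nonneg _).trans (hB 0 0)
  have hgb : ∀ z, ‖g z‖ ≤ B := by
    intro z
    rw [hg]
    simp only [norm_mul, norm_ch, one_mul]
    by_cases h : z.1 ∈ Icc (-1:ℝ) 1
    · rw [cutf_of_mem h]; exact hB _ _
    · rw [cutf_of_notMem h]; simpa using hB0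
  have hcube : MeasurableSet {η : EV m | ∀ j, η j ∈ Icc (-1:ℝ) 1} := by
    have : {η : EV m | ∀ j, η j ∈ Icc (-1:ℝ) 1}
        = ⋂ j, (fun η : EV m => η j) ⁻¹' (Icc (-1:ℝ) 1) := by
      ext η; simp
    rw [this]
    exact MeasurableSet.iInter fun j => measurable_coord j measurableSet_Icc
  have hvol : volume {η : EV m | ∀ j, η j ∈ Icc (-1:ℝ) 1} ≠ ∞ := by
    have h1 : {η : EV m | ∀ j, η j ∈ Icc (-1:ℝ) 1} ⊆ Metric.closedBall 0 (Real.sqrt m) := by
      intro η hη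
      rw [mem_closedBall_zero_iff, EuclideanSpace.norm_eq]
      apply Real.sqrt_le_sqrt
      calc ∑ j, ‖η j‖ ^ 2 ≤ ∑ _j : Fin m, (1:ℝ) := by
            apply Finset.sum_le_sum
            intro j _
            have h := hη j
            rw [mem_Icc] at h
            rw [Real.norm_eq_abs, sq_abs]
            nlinarith [h.1, h.2]
        _ = m := by simp
    exact ((measure_mono h1).trans_lt measure_closedBall_lt_top).ne
  have hgi : Integrable g := by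
    have h1 : g = indicator ((Icc (-1:ℝ) 1) ×ˢ {η : EV m | ∀ j, η j ∈ Icc (-1:ℝ) 1}) g := by
      ext z
      by_cases h : z ∈ (Icc (-1:ℝ) 1) ×ˢ {η : EV m | ∀ j, η j ∈ Icc (-1:ℝ) 1}
      · rw [indicator_of_mem h]
      · rw [indicator_of_notMem h, hg]
        simp only
        by_cases h1 : z.1 ∈ Icc (-1:ℝ) 1
        · have h2 : ∃ j, z.2 j ∉ Icc (-1:ℝ) 1 := by
            by_contra hcon
            push Not at hcon
            exact h ⟨h1, hcon⟩
          rw [cutf_of_mem h1, hs _ _ h2, mul_zero, mul_zero]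
        · rw [cutf_of_notMem h1]; simp
    rw [h1, integrable_indicator_iff (measurableSet_Icc.prod hcube)]
    apply Measure.integrableOn_of_bounded (M := B)
    · rw [Measure.volume_eq_prod, Measure.prod_prod]
      exact ENNReal.mul_ne_top (by simp) hvol
    · exact hgm.aestronglyMeasurable
    · exact Eventually.of_forall hgb
  have hE : EF (cutf f) (spl m p.1, p.2) = ∫ a, ∫ η, g (a, η) := by
    unfold EF
    congr 1
    ext a
    rw [hg]
    simp only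
    rw [integral_const_mul]
    rfl
  rw [hE, ← integral_spl hgi]
  unfold extOp
  have hmeas : MeasurableSet (Icc (fun _ : Fin (m+1) => (-1:ℝ)) (fun _ : Fin (m+1) => (1:ℝ))) :=
    measurableSet_Icc
  rw [← integral_indicator hmeas]
  congr 1
  ext ξ
  by_cases hξ : ξ ∈ Icc (fun _ : Fin (m+1) => (-1:ℝ)) (fun _ : Fin (m+1) => (1:ℝ))
  · have h0 : ξ 0 ∈ Icc (-1:ℝ) 1 := ⟨hξ.1 0, hξ.2 0⟩
    rw [indicator_of_mem hξ, hg]
    simp only [spl]
    rw [cutf_of_mem h0, mul_comm, ← mul_assoc, ← ch_add]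
    congr 1
    unfold ch
    congr 3
    rw [EuclideanSpace.norm_sq_eq]
    simp only [PiLp.inner_apply, RCLike.inner_apply, conj_trivial, Real.norm_eq_abs, sq_abs,
      Fin.sum_univ_succ, Fin.tail]
    have e1 : ∑ x : Fin m, p.1 x.succ * ξ x.succ = ∑ x : Fin m, ξ x.succ * p.1 x.succ :=
      Finset.sum_congr rfl fun x _ => mul_comm _ _
    rw [e1]
    ring
  · rw [indicator_of_notMem hξ, hg]
    simp only [spl]
    have : ∃ i, ξ i ∉ Icc (-1:ℝ) 1 := by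
      by_contra hcon
      push Not at hcon
      exact hξ ⟨fun i => (hcon i).1, fun i => (hcon i).2⟩
    obtain ⟨i, hi⟩ := this
    by_cases h0 : ξ 0 ∈ Icc (-1:ℝ) 1
    · rw [cutf_of_mem h0]
      have h1 : i ≠ 0 := by
        rintro rfl; exact hi h0
      obtain ⟨j, rfl⟩ := Fin.exists_succ_eq.2 h1
      rw [hs _ _ ⟨j, by simpa [Fin.tail] using hi⟩]
      simp
    · rw [cutf_of_notMem h0]; simp

/-- transfer of norms -/
lemma eLpNorm_extOp_eq (hfm : Measurable (Function.uncurry f)) {B : ℝ} (hB : ∀ a η, ‖f a η‖ ≤ B)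
    (hs : ∀ a η, (∃ j, η j ∉ Icc (-1:ℝ) 1) → f a η = 0)
    (hsm : AEStronglyMeasurable (EF (cutf f)) volume) (q : ℝ≥0∞) :
    eLpNorm (extOp (m + 1) (fun ξ => f (ξ 0) (WithLp.toLp 2 (Fin.tail ξ)))) q volume
      = eLpNorm (EF (cutf f)) q volume := by
  have h1 : extOp (m + 1) (fun ξ => f (ξ 0) (WithLp.toLp 2 (Fin.tail ξ)))
      = EF (cutf f) ∘ (Prod.map (spl m) id) := by
    ext p
    exact extOp_eq_EF hfm hB hs p
  rw [h1]
  apply eLpNorm_comp_measurePreserving hsm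
  exact (mp_spl m).prod (MeasurePreserving.id (volume : Measure ℝ))

end Pool.Agent.H.MP_b7167f_an
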