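import Mathlib
import Pool.Agent.H.MP_b7167f_an.AlgAsm
import Pool.Agent.H.MP_b7167f_an.RoughTransfer
import Pool.Agent.H.MP_b7167f_an.HForm

open MvPolynomial MeasureTheory Set Filter Topology
open scoped ENNReal NNReal

namespace Pool.Agent.H.MP_b7167f_an

universe v

variable {n n₁ n₂ k m : ℕ}

lemma Uop_time {H : Type*} [NormedAddCommGroup H] [InnerProductSpace ℂ H] [CompleteSpace H]
    {v : ℝ → H} (hv : Adm v) {q N : ℝ} (hq2 : 2 ≤ q) (hq4 : q ≤ 4) (hN : 0 < N)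
    (ha : 1 < N * (q - 2) / 2) :
    ∫⁻ t, (∫⁻ x, ‖Uop v x t‖ₑ ^ q) ^ N ≤ (2 ^ ((4 - q) / 2)) ^ N * Ca (N * (q - 2) / 2) := by
  have hT : ((2:ℝ≥0∞) ^ ((4 - q) / 2)) ^ N ≠ ∞ :=
    ENNReal.rpow_ne_top_of_nonneg hN.le (ENNReal.rpow_ne_top_of_nonneg (by linarith) (by norm_num))
  calc ∫⁻ t, (∫⁻ x, ‖Uop v x t‖ₑ ^ q) ^ N
      ≤ ∫⁻ t, (2 ^ ((4 - q) / 2)) ^ N * (Lop v t) ^ (N * (q - 2) / 2) := by
        apply lintegral_mono
        intro t
        simp only
        calc (∫⁻ x, ‖Uop v x t‖ₑ ^ q) ^ N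
            ≤ (2 ^ ((4 - q) / 2) * (Lop v t) ^ ((q - 2) / 2)) ^ N :=
              ENNReal.rpow_le_rpow (Uop_Lq hv t hq2 hq4) hN.le
          _ = _ := by
              rw [ENNReal.mul_rpow_of_nonneg _ _ hN.le, ← ENNReal.rpow_mul (Lop v t)]
              congr 2
              ring
    _ = (2 ^ ((4 - q) / 2)) ^ N * ∫⁻ t, (Lop v t) ^ (N * (q - 2) / 2) :=
        lintegral_const_mul' _ _ hT
    _ ≤ _ := mul_le_mul_right (Lop_time ha hv) _

lemma sm_Wop {h : ℝ × ℝ → ℂ} (hh : Measurable h) :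
    Measurable (fun w : (ℝ × ℝ) × ℝ => Wop h w.1 w.2) := by
  unfold Wop
  apply StronglyMeasurable.measurable
  apply StronglyMeasurable.integral_prod_right' (f := fun w : ((ℝ × ℝ) × ℝ) × (ℝ × ℝ) =>
    ch ((w.2.1 * w.1.1.1 + w.2.2 * w.1.1.2) + (w.2.1 ^ 2 + w.2.2 ^ 2) * w.1.2) * h w.2)
  apply Measurable.stronglyMeasurable
  apply Measurable.mul
  · apply Continuous.measurable; fun_prop
  · exact hh.comp measurable_snd

/-- the function of the theorem -/
noncomputable def algF (e : Fin n₁ ⊕ Fin n₂ × Fin 2 ≃ Fin n) (F : HForm.{v} n₁) (P : Fin n₂ → P2)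
    (p : Fin n₂ → Fin m → P2) (ξ : Fin n → ℝ) : ℂ :=
  F.val (fun i => ξ (e (Sum.inl i))) *
    ∏ l, hh (P l) (p l) (ξ (e (Sum.inr (l, 0))), ξ (e (Sum.inr (l, 1))))

lemma measurable_HForm_val (F : HForm.{v} n₁) : Measurable F.val := by
  unfold HForm.val
  apply StronglyMeasurable.measurable
  apply F.T.cont.comp_stronglyMeasurable
  apply stronglyMeasurable_pi'
  intro i
  exact (F.sm i).comp_measurable (measurable_pi_apply i)

lemma extOp_algF (e : Fin n₁ ⊕ Fin n₂ × Fin 2 ≃ Fin n) (F : HForm.{v} n₁) (P : Fin n₂ → P2)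
    (p : Fin n₂ → Fin m → P2) (x : Fin n → ℝ) (t : ℝ) :
    extOp n (algF e F P p) (x, t) = F.T (fun i => Uop (cutoff (F.u i)) (x (e (Sum.inl i))) t) *
      ∏ l, Wop (hh (P l) (p l)) (x (e (Sum.inr (l, 0))), x (e (Sum.inr (l, 1)))) t := by
  unfold algF
  rw [extOp_merge e (measurable_HForm_val F) (fun l => measurable_hh (P l) (p l))]
  congr 1
  exact extOp_form F.T F.sm F.bd _

attribute [local irreducible] Uop Wop Ca hh Lop

/-- the estimate for `q ≤ 4`. -/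
theorem alg_le4 (n₁ n₂ k m : ℕ) {q : ℝ} (hn : 2 ≤ n₁ + 2 * n₂) (hq2 : 2 ≤ q) (hq4 : q ≤ 4)
    (ha : 1 < ((n₁ + 2 * n₂ : ℕ) : ℝ) * (q - 2) / 2) :
    ∃ C : ℝ≥0, ∀ {n : ℕ} (e : Fin n₁ ⊕ Fin n₂ × Fin 2 ≃ Fin n) (F : HForm.{v} n₁)
      (P : Fin n₂ → P2) (p : Fin n₂ → Fin m → P2), (∀ l, (P l).totalDegree ≤ k) →
      (∀ l i, (p l i).totalDegree ≤ k) →
      ∫⁻ w : (Fin n → ℝ) × ℝ, ‖extOp n (algF e F P p) w‖ₑ ^ q ≤ C * ‖F.T‖ₑ ^ q := by
  set N : ℝ := ((n₁ + 2 * n₂ : ℕ) : ℝ) with hN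
  have hN2 : (2:ℝ) ≤ N := by rw [hN]; exact_mod_cast hn
  have hN0 : 0 < N := by linarith
  obtain ⟨C₂, hC₂⟩ := block_time k m hq2 (show (1:ℝ) ≤ N / 2 by linarith)
    (show 1 < (q - 2) * (N / 2) by linarith)
  set A : ℝ≥0∞ := (2 ^ ((4 - q) / 2)) ^ N * Ca (N * (q - 2) / 2) with hA
  have hAT : A ≠ ∞ := by
    rw [hA]
    apply ENNReal.mul_ne_top
    · exact ENNReal.rpow_ne_top_of_nonneg hN0.le
        (ENNReal.rpow_ne_top_of_nonneg (by linarith) (by norm_num))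
    · exact Ca_ne_top ha
  set Ct : ℝ≥0∞ := (∏ _i : Fin n₁, A ^ (1 / N)) * ∏ _l : Fin n₂, (C₂ : ℝ≥0∞) ^ (2 / N) with hCt
  have hCtT : Ct ≠ ∞ := by
    rw [hCt]
    apply ENNReal.mul_ne_top
    · exact ENNReal.prod_ne_top fun i _ => ENNReal.rpow_ne_top_of_nonneg (by positivity) hAT
    · exact ENNReal.prod_ne_top fun i _ =>
        ENNReal.rpow_ne_top_of_nonneg (by positivity) ENNReal.coe_ne_top
  refine ⟨Ct.toNNReal, ?_⟩
  intro n e F P p hP hp
  rw [ENNReal.coe_toNNReal hCtT]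
  have hadm : ∀ i, Adm (cutoff (F.u i)) := fun i => adm_cutoff (F.sm i) (F.bd i)
  set fU : Fin n₁ → ℝ → ℝ → ℝ≥0∞ := fun i t s => ‖Uop (cutoff (F.u i)) s t‖ₑ ^ q with hfU
  set fW : Fin n₂ → ℝ → ℝ × ℝ → ℝ≥0∞ := fun l t z => ‖Wop (hh (P l) (p l)) z t‖ₑ ^ q with hfW
  have mU : ∀ i, Measurable (fun w : ℝ × ℝ => fU i w.2 w.1) := fun i =>
    measurable_enorm_Uop (hadm i) q
  have mW : ∀ l, Measurable (fun w : (ℝ × ℝ) × ℝ => fW l w.2 w.1) := fun l =>
    (sm_Wop (measurable_hh (P l) (p l))).enorm.pow_const q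
  have mUt : ∀ i t, Measurable (fU i t) := fun i t =>
    (mU i).comp (measurable_id.prodMk measurable_const : Measurable fun s : ℝ => (s, t))
  have mWt : ∀ l t, Measurable (fW l t) := fun l t =>
    (mW l).comp (measurable_id.prodMk measurable_const : Measurable fun z : ℝ × ℝ => (z, t))
  have mIU : ∀ i, Measurable (fun t => ∫⁻ s, fU i t s) := fun i => (mU i).lintegral_prod_left'
  have mIW : ∀ l, Measurable (fun t => ∫⁻ z, fW l t z) := fun l => (mW l).lintegral_prod_left'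
  have hpt : ∀ w : (Fin n → ℝ) × ℝ, ‖extOp n (algF e F P p) w‖ₑ ^ q ≤
      ‖F.T‖ₑ ^ q * ((∏ i, fU i w.2 (w.1 (e (Sum.inl i)))) *
        ∏ l, fW l w.2 (w.1 (e (Sum.inr (l, 0))), w.1 (e (Sum.inr (l, 1))))) := by
    rintro ⟨x, t⟩
    rw [extOp_algF]
    simp only [hfU, hfW]
    rw [ENNReal.prod_rpow_of_nonneg (by linarith), ENNReal.prod_rpow_of_nonneg (by linarith),
      ← ENNReal.mul_rpow_of_nonneg _ _ (by linarith), ← ENNReal.mul_rpow_of_nonneg _ _ (by linarith)]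
    apply ENNReal.rpow_le_rpow _ (by linarith)
    rw [enorm_mul, ← mul_assoc]
    apply mul_le_mul'
    · have h := F.T.le_opNorm (fun i => Uop (cutoff (F.u i)) (x (e (Sum.inl i))) t)
      rw [← ofReal_norm]
      refine (ENNReal.ofReal_le_ofReal h).trans ?_
      rw [ENNReal.ofReal_mul (norm_nonneg _), ENNReal.ofReal_prod_of_nonneg
        (fun i _ => norm_nonneg _), ofReal_norm]
      simp only [ofReal_norm]
      exact le_rfl
    · rw [← ofReal_norm, norm_prod, ENNReal.ofReal_prod_of_nonneg (fun i _ => norm_nonneg _)]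
      simp only [ofReal_norm]
      exact le_rfl
  have hmT : ‖F.T‖ₑ ^ q ≠ ∞ := ENNReal.rpow_ne_top_of_nonneg (by linarith) enorm_ne_top
  have hmeas : Measurable (fun w : (Fin n → ℝ) × ℝ => (∏ i, fU i w.2 (w.1 (e (Sum.inl i)))) *
        ∏ l, fW l w.2 (w.1 (e (Sum.inr (l, 0))), w.1 (e (Sum.inr (l, 1))))) := by
    apply Measurable.mul
    · apply Finset.measurable_fun_prod
      intro i _
      exact (mU i).comp (by fun_prop : Measurable fun w : (Fin n → ℝ) × ℝ =>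
        ((w.1 (e (Sum.inl i)), w.2) : ℝ × ℝ))
    · apply Finset.measurable_fun_prod
      intro l _
      exact (mW l).comp (by fun_prop : Measurable fun w : (Fin n → ℝ) × ℝ =>
        (((w.1 (e (Sum.inr (l, 0))), w.1 (e (Sum.inr (l, 1)))), w.2) : (ℝ × ℝ) × ℝ))
  calc ∫⁻ w : (Fin n → ℝ) × ℝ, ‖extOp n (algF e F P p) w‖ₑ ^ q
      ≤ ∫⁻ w : (Fin n → ℝ) × ℝ, ‖F.T‖ₑ ^ q * ((∏ i, fU i w.2 (w.1 (e (Sum.inl i)))) *
        ∏ l, fW l w.2 (w.1 (e (Sum.inr (l, 0))), w.1 (e (Sum.inr (l, 1))))) := lintegral_mono hpt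
    _ = ‖F.T‖ₑ ^ q * ∫⁻ w : (Fin n → ℝ) × ℝ, ((∏ i, fU i w.2 (w.1 (e (Sum.inl i)))) *
        ∏ l, fW l w.2 (w.1 (e (Sum.inr (l, 0))), w.1 (e (Sum.inr (l, 1))))) :=
        lintegral_const_mul' _ _ hmT
    _ = ‖F.T‖ₑ ^ q * ∫⁻ t, (∏ i, ∫⁻ s, fU i t s) * ∏ l, ∫⁻ z, fW l t z := by
        congr 1
        rw [Measure.volume_eq_prod, lintegral_prod_symm _ hmeas.aemeasurable]
        congr 1
        ext t
        exact lintegral_merge e (fun i => mUt i t) (fun l => mWt l t)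
    _ ≤ ‖F.T‖ₑ ^ q * Ct := by
        apply mul_le_mul_right
        set G : Fin n₁ ⊕ Fin n₂ → ℝ → ℝ≥0∞ := Sum.elim
          (fun i t => (∫⁻ s, fU i t s) ^ N) (fun l t => (∫⁻ z, fW l t z) ^ (N / 2)) with hG
        set ex : Fin n₁ ⊕ Fin n₂ → ℝ := Sum.elim (fun _ => 1 / N) (fun _ => 2 / N) with hex
        have hGe : ∀ t, (∏ i, ∫⁻ s, fU i t s) * ∏ l, ∫⁻ z, fW l t z =
            ∏ s ∈ (Finset.univ : Finset (Fin n₁ ⊕ Fin n₂)), (G s t) ^ (ex s) := by
          intro t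
          rw [Fintype.prod_sum_type]
          simp only [hG, hex, Sum.elim_inl, Sum.elim_inr]
          congr 1
          · apply Finset.prod_congr rfl
            intro i _
            rw [← ENNReal.rpow_mul, mul_one_div_cancel hN0.ne', ENNReal.rpow_one]
          · apply Finset.prod_congr rfl
            intro l _
            rw [← ENNReal.rpow_mul]
            have : N / 2 * (2 / N) = 1 := by field_simp
            rw [this, ENNReal.rpow_one]
        simp_rw [hGe]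
        refine (ENNReal.lintegral_prod_norm_pow_le _ ?_ ?_ ?_).trans ?_
        · rintro (i | l) _
          · simp only [hG, Sum.elim_inl]
            exact ((mIU i).pow_const N).aemeasurable
          · simp only [hG, Sum.elim_inr]
            exact ((mIW l).pow_const (N / 2)).aemeasurable
        · rw [Fintype.sum_sum_type]
          simp only [hex, Sum.elim_inl, Sum.elim_inr, Finset.sum_const, Finset.card_univ,
            Fintype.card_fin, nsmul_eq_mul]
          rw [mul_one_div, mul_div_assoc', ← add_div, div_eq_one_iff_eq hN0.ne', hN]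
          push_cast
          ring
        · rintro (i | l) _
          · simp only [hex, Sum.elim_inl]; positivity
          · simp only [hex, Sum.elim_inr]; positivity
        · rw [Fintype.prod_sum_type, hCt]
          simp only [hG, hex, Sum.elim_inl, Sum.elim_inr]
          apply mul_le_mul'
          · apply Finset.prod_le_prod'
            intro i _
            exact ENNReal.rpow_le_rpow (Uop_time (hadm i) hq2 hq4 hN0 ha) (by positivity)
          · apply Finset.prod_le_prod'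
            intro l _
            exact ENNReal.rpow_le_rpow (hC₂ (P l) (hP l) (p l) (hp l)) (by positivity)
    _ = _ := mul_comm _ _

end Pool.Agent.H.MP_b7167f_an
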