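import Mathlib
import Pool.Agent.H.MP_b7167f_an.AlgMain
import Pool.Agent.H.MP_b7167f_an.PairLimit

open MvPolynomial MeasureTheory Set Filter Topology
open scoped ENNReal NNReal

namespace Pool.Agent.H.MP_b7167f_an

universe v

lemma norm_form_le {n₁ : ℕ} (F : HForm.{v} n₁) {ζ : Fin n₁ → ℝ} (h : ∀ i, ζ i ∈ Icc (-1:ℝ) 1) :
    ‖F.val ζ‖ ≤ ‖F.T‖ := by
  unfold HForm.val
  refine (F.T.le_opNorm _).trans ?_
  calc ‖F.T‖ * ∏ i, ‖F.u i (ζ i)‖ ≤ ‖F.T‖ * 1 := by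
        gcongr
        exact Finset.prod_le_one (fun _ _ => norm_nonneg _) fun i _ => F.bd i _ (h i)
    _ = _ := mul_one _

lemma algF_eq {n n₁ n₂ m : ℕ} (e : Fin n₁ ⊕ Fin n₂ × Fin 2 ≃ Fin n) (F : HForm.{v} n₁)
    (P : Fin n₂ → P2) (p : Fin n₂ → Fin m → P2) (ξ : Fin n → ℝ) :
    algF e F P p ξ = F.val (fun i => ξ (e (Sum.inl i))) *
      ∏ l, Set.indicator {ζ : Fin 2 → ℝ | ∀ i, 0 < MvPolynomial.eval ζ (p l i)}
        (fun ζ => Complex.exp (Complex.I * (MvPolynomial.eval ζ (P l) : ℝ)))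
        (fun c => ξ (e (Sum.inr (l, c)))) := by
  unfold algF
  congr 1
  apply Finset.prod_congr rfl
  intro l _
  have hζ : (fun c : Fin 2 => ξ (e (Sum.inr (l, c)))) =
      ![ξ (e (Sum.inr (l, 0))), ξ (e (Sum.inr (l, 1)))] := by
    ext c
    fin_cases c <;> rfl
  rw [hζ]
  unfold hh indS osc pf
  by_cases h : ∀ i, 0 < MvPolynomial.eval ![ξ (e (Sum.inr (l, 0))), ξ (e (Sum.inr (l, 1)))] (p l i)
  · rw [Set.indicator_of_mem, Set.indicator_of_mem]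
    · simp
    · exact h
    · exact h
  · rw [Set.indicator_of_notMem, Set.indicator_of_notMem]
    · simp
    · exact h
    · exact h

/-- the final estimate -/
theorem alg_final (n n₁ n₂ k m : ℕ) (hn : n = n₁ + 2 * n₂) (h2 : 2 ≤ n) {q : ℝ}
    (hq : 2 * ((n:ℝ) + 1) / n < q) :
    ∃ C : ℝ≥0, ∀ (e : Fin n₁ ⊕ Fin n₂ × Fin 2 ≃ Fin n) (F : HForm.{v} n₁)
      (P : Fin n₂ → P2) (p : Fin n₂ → Fin m → P2), (∀ l, (P l).totalDegree ≤ k) →
      (∀ l i, (p l i).totalDegree ≤ k) →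
      eLpNorm (extOp n (algF e F P p)) (ENNReal.ofReal q) volume ≤ C * ‖F.T‖ₑ := by
  have hn0 : (0:ℝ) < n := by exact_mod_cast (by omega : 0 < n)
  have hn2 : (2:ℝ) ≤ n := by exact_mod_cast h2
  have hrc : 2 * ((n:ℝ) + 1) / n = 2 + 2 / n := by field_simp
  rw [hrc] at hq
  have h2n : 2 / (n:ℝ) ≤ 1 := by rw [div_le_one hn0]; exact hn2
  have h2n0 : 0 < 2 / (n:ℝ) := by positivity
  set r : ℝ := min q 4 with hr
  have hr4 : r ≤ 4 := min_le_right _ _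
  have hrq : r ≤ q := min_le_left _ _
  have hrc' : 2 + 2 / (n:ℝ) < r := lt_min hq (by linarith)
  have hr0 : 0 < r := by linarith
  have hq0 : 0 < q := by linarith
  have ha : 1 < ((n₁ + 2 * n₂ : ℕ) : ℝ) * (r - 2) / 2 := by
    rw [← hn]
    have : 2 / (n:ℝ) < r - 2 := by linarith
    rw [div_lt_iff₀ hn0] at this
    linarith
  obtain ⟨C, hC⟩ := alg_le4.{v} n₁ n₂ k m (q := r) (by omega) (by linarith) hr4 ha
  set Cr : ℝ≥0∞ := (C : ℝ≥0∞) ^ (1 / r) with hCr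
  have hCrT : Cr ≠ ∞ := ENNReal.rpow_ne_top_of_nonneg (by positivity) ENNReal.coe_ne_top
  set Cf : ℝ≥0∞ := ((2:ℝ≥0∞) ^ n) ^ (1 - r / q) * Cr ^ (r / q) with hCf
  have hrq1 : r / q ≤ 1 := by rw [div_le_one hq0]; exact hrq
  have hCfT : Cf ≠ ∞ := by
    rw [hCf]
    apply ENNReal.mul_ne_top
    · exact ENNReal.rpow_ne_top_of_nonneg (by linarith) (ENNReal.pow_ne_top (by norm_num))
    · exact ENNReal.rpow_ne_top_of_nonneg (by positivity) hCrT
  refine ⟨Cf.toNNReal, ?_⟩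
  intro e F P p hP hp
  rw [ENNReal.coe_toNNReal hCfT]
  have hT : ‖F.T‖ₑ ≠ ∞ := enorm_ne_top
  have h1 : eLpNorm (extOp n (algF e F P p)) (ENNReal.ofReal r) volume ≤ Cr * ‖F.T‖ₑ := by
    rw [eLpNorm_eq_lintegral_rpow_enorm_toReal (by simpa using hr0) (by simp),
      ENNReal.toReal_ofReal hr0.le]
    calc (∫⁻ w, ‖extOp n (algF e F P p) w‖ₑ ^ r) ^ (1 / r)
        ≤ (C * ‖F.T‖ₑ ^ r) ^ (1 / r) := ENNReal.rpow_le_rpow (hC e F P p hP hp) (by positivity)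
      _ = Cr * ‖F.T‖ₑ := by
          rw [ENNReal.mul_rpow_of_nonneg _ _ (by positivity), ← ENNReal.rpow_mul,
            mul_one_div_cancel hr0.ne', ENNReal.rpow_one]
  have hsup : ∀ w, ‖extOp n (algF e F P p) w‖ₑ ≤ 2 ^ n * ‖F.T‖ₑ := by
    intro w
    have := enorm_extOp_le (f := algF e F P p) (C := ‖F.T‖) (fun ξ hξ => by
      unfold algF
      rw [norm_mul, norm_prod]
      calc _ ≤ ‖F.T‖ * 1 := by
            apply mul_le_mul
            · exact norm_form_le F fun i => (mem_cube.1 hξ) _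
            · exact Finset.prod_le_one (fun _ _ => norm_nonneg _) fun l _ => norm_hh_le _ _ _
            · exact Finset.prod_nonneg fun _ _ => norm_nonneg _
            · exact norm_nonneg _
        _ = _ := mul_one _) w
    rwa [ofReal_norm] at this
  refine (eLpNorm_le_of_sup hr0 hrq (ENNReal.mul_ne_top (ENNReal.pow_ne_top (by norm_num)) hT)
    hsup).trans ?_
  calc (2 ^ n * ‖F.T‖ₑ) ^ (1 - r / q) * (eLpNorm (extOp n (algF e F P p)) (ENNReal.ofReal r)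
        volume) ^ (r / q)
      ≤ (2 ^ n * ‖F.T‖ₑ) ^ (1 - r / q) * (Cr * ‖F.T‖ₑ) ^ (r / q) := by gcongr
    _ = Cf * (‖F.T‖ₑ ^ (1 - r / q) * ‖F.T‖ₑ ^ (r / q)) := by
        rw [ENNReal.mul_rpow_of_nonneg _ _ (by linarith), ENNReal.mul_rpow_of_nonneg _ _
          (by positivity), hCf]
        ring
    _ = Cf * ‖F.T‖ₑ := by
        rw [← ENNReal.rpow_add_of_nonneg _ _ (by linarith) (by positivity)]
        congr 1
        rw [sub_add_cancel, ENNReal.rpow_one]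

end Pool.Agent.H.MP_b7167f_an
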