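import Mathlib
import Pool.Agent.H.MP_b7167f_an.KernelV

open MeasureTheory FourierTransform Set
open scoped ENNReal NNReal ComplexConjugate InnerProductSpace

namespace Pool.Agent.H.MP_b7167f_an

variable {m : ℕ}

/-- the cube `[-R,R]^m` -/
def cubeV (m : ℕ) (R : ℝ) : Set (EV m) := {η | ∀ j, η j ∈ Icc (-R) R}

lemma measurableSet_cubeV (R : ℝ) : MeasurableSet (cubeV m R) := by
  have : cubeV m R = ⋂ j, (fun η : EV m => η j) ⁻¹' (Icc (-R) R) := by
    ext η; simp [cubeV]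
  rw [this]
  exact MeasurableSet.iInter fun j => measurable_coord j measurableSet_Icc

lemma volume_cubeV {R : ℝ} (hR : 0 ≤ R) : volume (cubeV m R) = ENNReal.ofReal (2 * R) ^ m := by
  have h1 := (PiLp.volume_preserving_toLp (Fin m)).measure_preimage
    (measurableSet_cubeV (m := m) R).nullMeasurableSet
  rw [← h1]
  have h2 : (WithLp.toLp 2) ⁻¹' (cubeV m R) = Icc (fun _ : Fin m => -R) (fun _ => R) := by
    ext x
    simp only [cubeV, mem_preimage, mem_ofPred_eq, mem_Icc, Pi.le_def]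
    exact forall_and
  rw [h2, Real.volume_Icc_pi]
  simp only [Finset.prod_const, Finset.card_univ, Fintype.card_fin]
  congr 2
  ring

/-- admissible data: measurable, bounded by `1`, supported in `[-1,1]^m` -/
structure AdmV (F : EV m → ℂ) : Prop where
  me : Measurable F
  bd : ∀ η, ‖F η‖ ≤ 1
  supp : ∀ η, η ∉ cubeV m 1 → F η = 0

lemma memLp_of_cube {E : Type*} [NormedAddCommGroup E] {X : Type*} [MeasurableSpace X]
    {μ : Measure X} {S : Set X} (hS : MeasurableSet S) (hSv : μ S ≠ ∞) {g : X → E} {C : ℝ}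
    (hm : AEStronglyMeasurable g μ) (hb : ∀ s, ‖g s‖ ≤ C) (hs : ∀ s, s ∉ S → g s = 0)
    (p : ℝ≥0∞) : MemLp g p μ := by
  have : g = indicator S g := by
    ext s
    by_cases h : s ∈ S
    · simp [h]
    · simp [h, hs s h]
  rw [this, memLp_indicator_iff_restrict hS]
  have : IsFiniteMeasure (μ.restrict S) := ⟨by rw [Measure.restrict_apply_univ]; exact hSv.lt_top⟩
  exact MemLp.of_bound hm.restrict C (Filter.Eventually.of_forall hb)

lemma integrable_of_cube {E : Type*} [NormedAddCommGroup E] {X : Type*} [MeasurableSpace X]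
    {μ : Measure X} {S : Set X} (hS : MeasurableSet S) (hSv : μ S ≠ ∞) {g : X → E} {C : ℝ}
    (hm : AEStronglyMeasurable g μ) (hb : ∀ s, ‖g s‖ ≤ C) (hs : ∀ s, s ∉ S → g s = 0) :
    Integrable g μ :=
  memLp_one_iff_integrable.1 (memLp_of_cube hS hSv hm hb hs 1)

lemma volume_cubeV_ne_top {R : ℝ} (hR : 0 ≤ R) : volume (cubeV m R) ≠ ∞ := by
  rw [volume_cubeV hR]; exact ENNReal.pow_ne_top ENNReal.ofReal_ne_top

/-- the quadratic form `∑ η_j² τ_j` -/
def qf (τ : Fin m → ℝ) (η : EV m) : ℝ := ∑ j, η j ^ 2 * τ j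

@[fun_prop] lemma continuous_qf : Continuous (fun p : (Fin m → ℝ) × EV m => qf p.1 p.2) := by
  unfold qf; fun_prop

@[fun_prop] lemma continuous_qf' (τ : Fin m → ℝ) : Continuous (qf τ) := by
  unfold qf; fun_prop

/-- `m`-parameter extension operator -/
noncomputable def VV (F : EV m → ℂ) (y : EV m) (τ : Fin m → ℝ) : ℂ :=
  ∫ η, ch (⟪η, y⟫_ℝ + qf τ η) * F η

lemma VV_eq_fourier (F : EV m → ℂ) (y : EV m) (τ : Fin m → ℝ) :
    VV F y τ = 𝓕 (fun η => ch (qf τ η) * F η) (-y) := by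
  rw [fourierV_eq_ch]
  unfold VV
  congr 1
  ext η
  rw [smul_eq_mul, ← mul_assoc, ← ch_add, inner_neg_right, neg_neg]

/-- autocorrelation kernel -/
noncomputable def KK (F : EV m → ℂ) (ζ : EV m) (τ : Fin m → ℝ) : ℂ :=
  ∫ η, ch (∑ j, (2 * η j * ζ j + ζ j ^ 2) * τ j) * (conj (F η) * F (η + ζ))

lemma AdmV.chmul {F : EV m → ℂ} (hF : AdmV F) (τ : Fin m → ℝ) :
    Integrable (fun η => ch (qf τ η) * F η) ∧ MemLp (fun η => ch (qf τ η) * F η) 2 volume := by
  have hm : AEStronglyMeasurable (fun η => ch (qf τ η) * F η) (volume : Measure (EV m)) := by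
    apply Measurable.aestronglyMeasurable
    exact (Continuous.measurable (by fun_prop)).mul hF.me
  have hb : ∀ η, ‖ch (qf τ η) * F η‖ ≤ 1 := by
    intro η; rw [norm_mul, norm_ch, one_mul]; exact hF.bd η
  have hs : ∀ η, η ∉ cubeV m 1 → ch (qf τ η) * F η = 0 := by
    intro η h; rw [hF.supp η h, mul_zero]
  exact ⟨integrable_of_cube (measurableSet_cubeV 1) (volume_cubeV_ne_top zero_le_one) hm hb hs,
    memLp_of_cube (measurableSet_cubeV 1) (volume_cubeV_ne_top zero_le_one) hm hb hs 2⟩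

lemma lintegral_enorm_sq_leV {g : EV m → ℂ} {C : ℝ} (hb : ∀ η, ‖g η‖ ≤ C)
    (hs : ∀ η, η ∉ cubeV m 1 → g η = 0) : ∫⁻ η, ‖g η‖ₑ ^ 2 ≤ ENNReal.ofReal C ^ 2 * 2 ^ m := by
  have h1 : ∀ s, ‖g s‖ₑ ^ 2 ≤ indicator (cubeV m 1) (fun _ => ENNReal.ofReal C ^ 2) s := by
    intro s
    by_cases h : s ∈ cubeV m 1
    · simp only [h, indicator_of_mem]
      have : ‖g s‖ₑ ≤ ENNReal.ofReal C := by
        rw [← ofReal_norm]; exact ENNReal.ofReal_le_ofReal (hb s)
      gcongr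
    · simp [h, hs s h]
  calc ∫⁻ s, ‖g s‖ₑ ^ 2 ≤ ∫⁻ s, indicator (cubeV m 1) (fun _ => ENNReal.ofReal C ^ 2) s :=
        lintegral_mono h1
    _ = ENNReal.ofReal C ^ 2 * 2 ^ m := by
        rw [lintegral_indicator (measurableSet_cubeV 1), setLIntegral_const,
          volume_cubeV zero_le_one]
        simp

theorem VV_L2 {F : EV m → ℂ} (hF : AdmV F) (τ : Fin m → ℝ) :
    ∫⁻ y, ‖VV F y τ‖ₑ ^ 2 ≤ 2 ^ m := by
  simp_rw [VV_eq_fourier]
  have hneg : ∫⁻ y : EV m, ‖𝓕 (fun η => ch (qf τ η) * F η) (-y)‖ₑ ^ 2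
      = ∫⁻ y : EV m, ‖𝓕 (fun η => ch (qf τ η) * F η) y‖ₑ ^ 2 :=
    (Measure.measurePreserving_neg (volume : Measure (EV m))).lintegral_comp_emb
      (MeasurableEquiv.neg (EV m)).measurableEmbedding
      (fun y => ‖𝓕 (fun η => ch (qf τ η) * F η) y‖ₑ ^ 2)
  rw [hneg, plancherelV (hF.chmul τ).1 (hF.chmul τ).2]
  have h1 : ∀ η, ‖ch (qf τ η) * F η‖ₑ = ‖F η‖ₑ := by
    intro η; rw [enorm_mul, enorm_ch, one_mul]
  simp_rw [h1]
  refine (lintegral_enorm_sq_leV hF.bd hF.supp).trans ?_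
  simp

lemma AdmV.ccmul {F : EV m → ℂ} (hF : AdmV F) (η ζ : EV m) :
    ‖conj (F η) * F (η + ζ)‖ ≤ 1 := by
  rw [norm_mul, RCLike.norm_conj]
  calc ‖F η‖ * ‖F (η + ζ)‖ ≤ 1 * 1 :=
        mul_le_mul (hF.bd _) (hF.bd _) (norm_nonneg _) zero_le_one
    _ = 1 := one_mul 1

lemma cube_add {η ζ : EV m} (h1 : η ∈ cubeV m 1) (h2 : η + ζ ∈ cubeV m 1) : ζ ∈ cubeV m 2 := by
  intro j
  have a := h1 j
  have b := h2 j
  rw [PiLp.add_apply] at b
  rw [mem_Icc] at *
  constructor <;> linarith [a.1, a.2, b.1, b.2]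

lemma AdmV.cczero {F : EV m → ℂ} (hF : AdmV F) {η ζ : EV m} (h : η ∉ cubeV m 1 ∨ ζ ∉ cubeV m 2) :
    conj (F η) * F (η + ζ) = 0 := by
  by_cases h1 : η ∈ cubeV m 1
  · by_cases h2 : η + ζ ∈ cubeV m 1
    · exact absurd (cube_add h1 h2) (by tauto)
    · rw [hF.supp _ h2, mul_zero]
  · rw [hF.supp _ h1, map_zero, zero_mul]

lemma KK_supp {F : EV m → ℂ} (hF : AdmV F) (ζ : EV m) (τ : Fin m → ℝ) (hζ : ζ ∉ cubeV m 2) :
    KK F ζ τ = 0 := by
  unfold KK
  rw [← integral_zero (EV m) ℂ]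
  congr 1
  ext η
  rw [hF.cczero (Or.inr hζ), mul_zero]

lemma KK_bound {F : EV m → ℂ} (hF : AdmV F) (ζ : EV m) (τ : Fin m → ℝ) :
    ‖KK F ζ τ‖ ≤ 2 ^ m := by
  unfold KK
  calc ‖∫ η, ch (∑ j, (2 * η j * ζ j + ζ j ^ 2) * τ j) * (conj (F η) * F (η + ζ))‖
      ≤ ∫ η, indicator (cubeV m 1) (fun _ => (1:ℝ)) η := by
        apply norm_integral_le_of_norm_le
        · rw [integrable_indicator_iff (measurableSet_cubeV 1)]
          exact integrableOn_const (volume_cubeV_ne_top zero_le_one)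
        · refine Filter.Eventually.of_forall fun η => ?_
          rw [norm_mul, norm_ch, one_mul]
          by_cases h : η ∈ cubeV m 1
          · rw [indicator_of_mem h]; exact hF.ccmul η ζ
          · rw [indicator_of_notMem h, hF.cczero (Or.inl h), norm_zero]
    _ = 2 ^ m := by
        rw [integral_indicator (measurableSet_cubeV 1), setIntegral_const, Measure.real,
          volume_cubeV zero_le_one]
        simp

lemma measurable_cc {F : EV m → ℂ} (hF : AdmV F) :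
    Measurable (fun p : EV m × EV m => conj (F p.1) * F (p.1 + p.2)) := by
  have h1 : Measurable (fun p : EV m × EV m => F p.1) := hF.me.comp measurable_fst
  have h2 : Measurable (fun p : EV m × EV m => F (p.1 + p.2)) :=
    hF.me.comp (measurable_fst.add measurable_snd)
  exact (Complex.continuous_conj.measurable.comp h1).mul h2

lemma measurable_KK {F : EV m → ℂ} (hF : AdmV F) :
    StronglyMeasurable (fun p : EV m × (Fin m → ℝ) => KK F p.1 p.2) := by
  unfold KK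
  apply StronglyMeasurable.integral_prod_right' (f := fun q : (EV m × (Fin m → ℝ)) × EV m =>
    ch (∑ j, (2 * q.2 j * q.1.1 j + q.1.1 j ^ 2) * q.1.2 j) * (conj (F q.2) * F (q.2 + q.1.1)))
  apply StronglyMeasurable.mul
  · exact Continuous.stronglyMeasurable (by fun_prop)
  · exact ((measurable_cc hF).comp
      (measurable_snd.prodMk (measurable_fst.comp measurable_fst))).stronglyMeasurable

/-- The squared modulus of the extension is the Fourier transform of the autocorrelation. -/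
lemma norm_sq_VV {F : EV m → ℂ} (hF : AdmV F) (y : EV m) (τ : Fin m → ℝ) :
    ((‖VV F y τ‖ ^ 2 : ℝ) : ℂ) = 𝓕 (fun ζ => KK F ζ τ) (-y) := by
  have e1 : ((‖VV F y τ‖ ^ 2 : ℝ) : ℂ) = conj (VV F y τ) * VV F y τ := by
    rw [← Complex.normSq_eq_conj_mul_self, Complex.normSq_eq_norm_sq]
  have e2 : conj (VV F y τ) * VV F y τ
      = ∫ η, ∫ ζ, ch (⟪ζ, y⟫_ℝ + ∑ j, (2 * η j * ζ j + ζ j ^ 2) * τ j) *
          (conj (F η) * F (η + ζ)) := by
    have e3 : conj (VV F y τ) = ∫ η, conj (ch (⟪η, y⟫_ℝ + qf τ η) * F η) := by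
      rw [VV, integral_conj]
    rw [e3, ← integral_mul_const]
    congr 1
    ext η
    rw [VV, ← integral_const_mul, ← integral_add_left_eq_self _ η]
    congr 1
    ext ζ
    rw [map_mul, conj_ch]
    have : ch (-(⟪η, y⟫_ℝ + qf τ η)) * conj (F η) * (ch (⟪η + ζ, y⟫_ℝ + qf τ (η + ζ)) * F (η + ζ))
        = (ch (-(⟪η, y⟫_ℝ + qf τ η)) * ch (⟪η + ζ, y⟫_ℝ + qf τ (η + ζ))) *
          (conj (F η) * F (η + ζ)) := by ring
    rw [this, ← ch_add]
    congr 2
    rw [inner_add_left]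
    have h2 : qf τ (η + ζ) = qf τ η + ∑ j, (2 * η j * ζ j + ζ j ^ 2) * τ j := by
      unfold qf
      rw [← Finset.sum_add_distrib]
      apply Finset.sum_congr rfl
      intro j _
      rw [PiLp.add_apply]
      ring
    rw [h2]
    ring
  rw [e1, e2, fourierV_eq_ch]
  rw [integral_integral_swap]
  · congr 1
    ext ζ
    rw [KK, smul_eq_mul, ← integral_const_mul]
    congr 1
    ext η
    rw [← mul_assoc (ch (-⟪ζ, -y⟫_ℝ)), ← ch_add, inner_neg_right, neg_neg]
  · refine integrable_of_cube (S := (cubeV m 1) ×ˢ (cubeV m 2)) (C := 1)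
      ((measurableSet_cubeV 1).prod (measurableSet_cubeV 2)) ?_ ?_ ?_ ?_
    · rw [Measure.prod_prod]
      exact ENNReal.mul_ne_top (volume_cubeV_ne_top zero_le_one)
        (volume_cubeV_ne_top (by norm_num))
    · apply Measurable.aestronglyMeasurable
      apply Measurable.mul
      · exact Continuous.measurable (by fun_prop)
      · exact measurable_cc hF
    · intro p
      simp only [Function.uncurry]
      rw [norm_mul, norm_ch, one_mul]
      exact hF.ccmul _ _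
    · intro p hp
      simp only [Function.uncurry]
      rw [hF.cczero, mul_zero]
      rw [mem_prod] at hp
      tauto

lemma KK_mem {F : EV m → ℂ} (hF : AdmV F) (τ : Fin m → ℝ) (p : ℝ≥0∞) :
    MemLp (fun ζ => KK F ζ τ) p volume :=
  memLp_of_cube (measurableSet_cubeV 2) (volume_cubeV_ne_top (by norm_num))
    ((measurable_KK hF).comp_measurable (measurable_id.prodMk measurable_const)).aestronglyMeasurable
    (fun ζ => KK_bound hF ζ τ) (fun ζ hζ => KK_supp hF ζ τ hζ) p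

/-- the fourth power integral in space -/
noncomputable def JJ (F : EV m → ℂ) (τ : Fin m → ℝ) : ℝ≥0∞ := ∫⁻ y, ‖VV F y τ‖ₑ ^ 4

lemma JJ_eq {F : EV m → ℂ} (hF : AdmV F) (τ : Fin m → ℝ) :
    JJ F τ = ∫⁻ ζ, ‖KK F ζ τ‖ₑ ^ 2 := by
  have h1 : ∀ y, ‖VV F y τ‖ₑ ^ 4 = ‖𝓕 (fun ζ => KK F ζ τ) (-y)‖ₑ ^ 2 := by
    intro y
    rw [← norm_sq_VV hF, ← ofReal_norm, ← ofReal_norm, Complex.norm_real, Real.norm_eq_abs,
      abs_of_nonneg (by positivity), ENNReal.ofReal_pow (norm_nonneg _), ← pow_mul]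
  unfold JJ
  simp_rw [h1]
  have hneg : ∫⁻ y : EV m, ‖𝓕 (fun ζ => KK F ζ τ) (-y)‖ₑ ^ 2
      = ∫⁻ y : EV m, ‖𝓕 (fun ζ => KK F ζ τ) y‖ₑ ^ 2 :=
    (Measure.measurePreserving_neg (volume : Measure (EV m))).lintegral_comp_emb
      (MeasurableEquiv.neg (EV m)).measurableEmbedding
      (fun y => ‖𝓕 (fun ζ => KK F ζ τ) y‖ₑ ^ 2)
  rw [hneg]
  exact plancherelV (memLp_one_iff_integrable.1 (KK_mem hF τ 1)) (KK_mem hF τ 2)

end Pool.Agent.H.MP_b7167f_an
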