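import Mathlib
import Pool.Agent.H.MP_b7167f_an.Avg

open MeasureTheory FourierTransform Set
open scoped ENNReal NNReal ComplexConjugate InnerProductSpace

namespace Pool.Agent.H.MP_b7167f_an

variable {m : ℕ}

/-- side of the small cube -/
noncomputable def dl (m : ℕ) : ℝ := 1 / (16 * m)

lemma dl_nonneg (m : ℕ) : 0 ≤ dl m := by unfold dl; positivity

lemma dl_pos (hm : 0 < m) : 0 < dl m := by
  have : (0:ℝ) < m := by exact_mod_cast hm
  unfold dl; positivity

lemma dl_le (m : ℕ) : dl m ≤ 1 / 16 := by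
  unfold dl
  rcases Nat.eq_zero_or_pos m with h | h
  · subst h; norm_num
  · have : (1:ℝ) ≤ m := by exact_mod_cast h
    apply one_div_le_one_div_of_le (by norm_num)
    linarith

/-- volume of the small cube -/
noncomputable def vB (m : ℕ) : ℝ := (2 * dl m) ^ m

lemma vB_pos (hm : 0 < m) : 0 < vB m := by
  have := dl_pos hm
  unfold vB; positivity

lemma volume_small (m : ℕ) : volume (cubeV m (dl m)) = ENNReal.ofReal (vB m) := by
  have h0 := dl_nonneg m
  rw [volume_cubeV h0, vB, ENNReal.ofReal_pow]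
  positivity

/-- the smoothing factor -/
noncomputable def Psi (m : ℕ) (η : EV m) : ℂ := ∫ u in cubeV m (dl m), ch (⟪u, η⟫_ℝ)

lemma measurable_Psi : Measurable (Psi m) := by
  unfold Psi
  apply StronglyMeasurable.measurable
  apply StronglyMeasurable.integral_prod_right' (f := fun q : EV m × EV m => ch (⟪q.2, q.1⟫_ℝ))
  exact Continuous.stronglyMeasurable (by fun_prop)

lemma inner_small {u η : EV m} (hu : u ∈ cubeV m (dl m)) (hη : η ∈ cubeV m 1) :
    |⟪u, η⟫_ℝ| ≤ 1 / 16 := by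
  rw [PiLp.inner_apply]
  calc |∑ j, ⟪u j, η j⟫_ℝ| ≤ ∑ j, |⟪u j, η j⟫_ℝ| := Finset.abs_sum_le_sum_abs _ _
    _ ≤ ∑ _j : Fin m, dl m := by
        apply Finset.sum_le_sum
        intro j _
        simp only [RCLike.inner_apply, conj_trivial]
        rw [abs_mul]
        have h1 : |u j| ≤ dl m := abs_le.2 (hu j)
        have h2 : |η j| ≤ 1 := abs_le.2 (hη j)
        calc |η j| * |u j| ≤ 1 * dl m := mul_le_mul h2 h1 (abs_nonneg _) zero_le_one
          _ = dl m := one_mul _
    _ = m * dl m := by simp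
    _ ≤ 1 / 16 := by
        unfold dl
        rcases Nat.eq_zero_or_pos m with h | h
        · subst h; norm_num
        · have : (0:ℝ) < m := by exact_mod_cast h
          apply le_of_eq; field_simp

lemma Psi_lower (hm : 0 < m) {η : EV m} (hη : η ∈ cubeV m 1) : vB m / 2 ≤ ‖Psi m η‖ := by
  have hv : volume (cubeV m (dl m)) ≠ ∞ := volume_cubeV_ne_top (dl_nonneg m)
  have hint : IntegrableOn (fun u : EV m => ch (⟪u, η⟫_ℝ)) (cubeV m (dl m)) := by
    apply Measure.integrableOn_of_bounded (M := 1) hv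
    · exact (Continuous.aestronglyMeasurable (by fun_prop))
    · exact Filter.Eventually.of_forall fun u => by rw [norm_ch]
  have h1 : (Psi m η).re = ∫ u in cubeV m (dl m), (ch (⟪u, η⟫_ℝ)).re := by
    unfold Psi
    exact (RCLike.reCLM (K := ℂ)).integral_comp_comm hint |>.symm
  have h2 : vB m / 2 ≤ (Psi m η).re := by
    rw [h1]
    have h3 : ∫ _u in cubeV m (dl m), (1/2 : ℝ) = vB m / 2 := by
      rw [setIntegral_const, Measure.real, volume_small, ENNReal.toReal_ofReal (vB_pos hm).le]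
      rw [smul_eq_mul]; ring
    rw [← h3]
    apply setIntegral_mono_on
    · exact integrableOn_const hv
    · exact (RCLike.reCLM (K := ℂ)).integrable_comp hint
    · exact measurableSet_cubeV _
    · intro u hu
      have h4 := inner_small hu hη
      rw [ch_eq, Complex.exp_ofReal_mul_I_re]
      have h5 := Real.one_sub_sq_div_two_le_cos (x := 2 * Real.pi * ⟪u, η⟫_ℝ)
      have h6 : (2 * Real.pi * ⟪u, η⟫_ℝ) ^ 2 ≤ 1 := by
        rw [sq_le_one_iff_abs_le_one, abs_mul, abs_of_pos (by positivity)]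
        have := Real.pi_lt_four
        have h7 : 2 * Real.pi ≤ 8 := by linarith
        calc 2 * Real.pi * |⟪u, η⟫_ℝ| ≤ 8 * (1/16) := by gcongr
          _ ≤ 1 := by norm_num
      linarith
  exact h2.trans ((le_abs_self _).trans (Complex.abs_re_le_norm _))

/-- Cauchy–Schwarz on a set of finite measure -/
lemma sq_setLIntegral_le {X : Type*} [MeasurableSpace X] {μ : Measure X} {S : Set X}
    {h : X → ℝ≥0∞} (hh : AEMeasurable h (μ.restrict S)) :
    (∫⁻ u in S, h u ∂μ) ^ 2 ≤ μ S * ∫⁻ u in S, h u ^ 2 ∂μ := by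
  have h1 := ENNReal.lintegral_mul_le_Lp_mul_Lq (μ.restrict S) Real.HolderConjugate.two_two
    (f := fun _ => 1) (g := h) aemeasurable_const hh
  simp only [Pi.mul_apply, one_mul, ENNReal.rpow_ofNat, one_pow, lintegral_const,
    Measure.restrict_apply_univ] at h1
  calc (∫⁻ u in S, h u ∂μ) ^ 2 ≤ (μ S ^ (1 / 2 : ℝ) * (∫⁻ u in S, h u ^ 2 ∂μ) ^ (1 / 2 : ℝ)) ^ 2 := by
        gcongr
    _ = _ := by
        rw [mul_pow, ← ENNReal.rpow_natCast, ← ENNReal.rpow_natCast, ← ENNReal.rpow_mul,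
          ← ENNReal.rpow_mul]
        norm_num

/-- the desmoothed function -/
noncomputable def desm (G : EV m → ℂ) (η : EV m) : ℂ := G η / Psi m η

lemma desm_bound (hm : 0 < m) {G : EV m → ℂ} (hb : ∀ η, ‖G η‖ ≤ 1)
    (hs : ∀ η, η ∉ cubeV m 1 → G η = 0) (η : EV m) : ‖desm G η‖ ≤ 2 / vB m := by
  have hv := vB_pos hm
  unfold desm
  by_cases h : η ∈ cubeV m 1
  · rw [norm_div]
    have h1 := Psi_lower hm h
    have h2 : 0 < ‖Psi m η‖ := lt_of_lt_of_le (by positivity) h1
    rw [div_le_div_iff₀ h2 hv]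
    calc ‖G η‖ * vB m ≤ 1 * vB m := by gcongr; exact hb η
      _ ≤ 2 * ‖Psi m η‖ := by linarith
  · rw [hs η h, zero_div, norm_zero]; positivity

lemma fourier_desm (hm : 0 < m) {G : EV m → ℂ} (hGm : Measurable G) (hb : ∀ η, ‖G η‖ ≤ 1)
    (hs : ∀ η, η ∉ cubeV m 1 → G η = 0) (w : EV m) :
    𝓕 G w = ∫ u in cubeV m (dl m), 𝓕 (desm G) (w - u) := by
  have hgm : Measurable (desm G) := hGm.div measurable_Psi
  have hgs : ∀ η, η ∉ cubeV m 1 → desm G η = 0 := by
    intro η h; unfold desm; rw [hs η h, zero_div]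
  have h1 : ∀ η, ch (-⟪η, w⟫_ℝ) • G η
      = ∫ u in cubeV m (dl m), ch (-⟪η, w - u⟫_ℝ) • desm G η := by
    intro η
    by_cases h : η ∈ cubeV m 1
    · have hP : Psi m η ≠ 0 := by
        have := Psi_lower hm h
        intro h0
        rw [h0, norm_zero] at this
        linarith [vB_pos hm]
      have h2 : ∀ u : EV m, ch (-⟪η, w - u⟫_ℝ) • desm G η
          = (ch (-⟪η, w⟫_ℝ) * desm G η) * ch (⟪u, η⟫_ℝ) := by
        intro u
        rw [inner_sub_right, neg_sub, sub_eq_add_neg, ch_add, smul_eq_mul,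
          real_inner_comm u η]
        ring
      simp_rw [h2]
      rw [integral_const_mul]
      change _ = ch (-⟪η, w⟫_ℝ) * desm G η * Psi m η
      unfold desm
      rw [smul_eq_mul]
      field_simp
    · rw [hs η h]
      simp_rw [hgs η h, smul_zero]
      simp
  rw [fourierV_eq_ch]
  simp_rw [h1]
  rw [integral_integral_swap]
  · congr 1
    ext u
    rw [fourierV_eq_ch]
  · have hv := volume_cubeV_ne_top (m := m) (dl_nonneg m)
    refine integrable_of_cube (S := (cubeV m 1) ×ˢ (univ : Set (EV m))) (C := 2 / vB m)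
      ((measurableSet_cubeV 1).prod MeasurableSet.univ) ?_ ?_ ?_ ?_
    · rw [Measure.prod_prod, Measure.restrict_apply_univ]
      exact ENNReal.mul_ne_top (volume_cubeV_ne_top zero_le_one) hv
    · apply Measurable.aestronglyMeasurable
      change Measurable (fun p : EV m × EV m => ch (-⟪p.1, w - p.2⟫_ℝ) * desm G p.1)
      apply Measurable.mul
      · exact Continuous.measurable (by fun_prop)
      · exact hgm.comp measurable_fst
    · intro p
      simp only [Function.uncurry]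
      rw [norm_smul, norm_ch, one_mul]
      exact desm_bound hm hb hs _
    · intro p hp
      simp only [Function.uncurry]
      rw [hgs, smul_zero]
      simpa using hp

/-- Constant of `avg_fourier`. -/
noncomputable def CB (m : ℕ) : ℝ≥0∞ := ENNReal.ofReal (vB m) * (ENNReal.ofReal (2 / vB m) ^ 2 * 2 ^ m)

lemma CB_ne_top (m : ℕ) : CB m ≠ ∞ := by
  unfold CB
  exact ENNReal.mul_ne_top ENNReal.ofReal_ne_top (ENNReal.mul_ne_top
    (ENNReal.pow_ne_top ENNReal.ofReal_ne_top) (ENNReal.pow_ne_top (by norm_num)))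

theorem avg_fourier (hm : 0 < m) {G : EV m → ℂ} (hGm : Measurable G) (hb : ∀ η, ‖G η‖ ≤ 1)
    (hs : ∀ η, η ∉ cubeV m 1 → G η = 0) {X : Type*} [MeasurableSpace X] {μ : Measure X}
    [SFinite μ] {w : X → EV m} (hw : Measurable w) {M : ℝ≥0∞}
    (hM : ∀ v, μ {x | w x - v ∈ cubeV m (dl m)} ≤ M) :
    ∫⁻ x, ‖𝓕 G (w x)‖ₑ ^ 2 ∂μ ≤ CB m * M := by
  have hgm : Measurable (desm G) := hGm.div measurable_Psi
  have hgs : ∀ η, η ∉ cubeV m 1 → desm G η = 0 := by
    intro η h; unfold desm; rw [hs η h, zero_div]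
  have hgb := desm_bound hm hb hs
  have hg1 : Integrable (desm G) := integrable_of_cube (measurableSet_cubeV 1)
    (volume_cubeV_ne_top zero_le_one) hgm.aestronglyMeasurable hgb hgs
  have hg2 : MemLp (desm G) 2 volume := memLp_of_cube (measurableSet_cubeV 1)
    (volume_cubeV_ne_top zero_le_one) hgm.aestronglyMeasurable hgb hgs 2
  have hc : Continuous (𝓕 (desm G)) := VectorFourier.fourierIntegral_continuous
    Real.continuous_fourierChar (by exact continuous_inner) hg1
  have hpt : ∀ x, ‖𝓕 G (w x)‖ₑ ^ 2 ≤ ENNReal.ofReal (vB m) *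
      ∫⁻ v, indicator {v | w x - v ∈ cubeV m (dl m)} (fun v => ‖𝓕 (desm G) v‖ₑ ^ 2) v := by
    intro x
    rw [fourier_desm hm hGm hb hs]
    calc ‖∫ u in cubeV m (dl m), 𝓕 (desm G) (w x - u)‖ₑ ^ 2
        ≤ (∫⁻ u in cubeV m (dl m), ‖𝓕 (desm G) (w x - u)‖ₑ) ^ 2 := by
          gcongr; exact enorm_integral_le_lintegral_enorm _
      _ ≤ volume (cubeV m (dl m)) * ∫⁻ u in cubeV m (dl m), ‖𝓕 (desm G) (w x - u)‖ₑ ^ 2 := by
          apply sq_setLIntegral_le
          exact (Continuous.measurable (by fun_prop)).aemeasurable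
      _ = ENNReal.ofReal (vB m) * ∫⁻ u, indicator (cubeV m (dl m))
            (fun u => ‖𝓕 (desm G) (w x - u)‖ₑ ^ 2) u := by
          rw [volume_small, lintegral_indicator (measurableSet_cubeV _)]
      _ = _ := by
          congr 1
          rw [← lintegral_sub_left_eq_self
            (fun v : EV m => indicator {v : EV m | w x - v ∈ cubeV m (dl m)}
              (fun v => ‖𝓕 (desm G) v‖ₑ ^ 2) v) (w x)]
          congr 1
          ext u
          by_cases h : u ∈ cubeV m (dl m)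
          · rw [indicator_of_mem h, indicator_of_mem]
            change w x - (w x - u) ∈ cubeV m (dl m)
            rwa [sub_sub_cancel]
          · rw [indicator_of_notMem h, indicator_of_notMem]
            change ¬ (w x - (w x - u) ∈ cubeV m (dl m))
            rwa [sub_sub_cancel]
  have hset : MeasurableSet {p : X × EV m | w p.1 - p.2 ∈ cubeV m (dl m)} :=
    (hw.comp measurable_fst |>.sub measurable_snd) (measurableSet_cubeV _)
  calc ∫⁻ x, ‖𝓕 G (w x)‖ₑ ^ 2 ∂μ
      ≤ ∫⁻ x, (ENNReal.ofReal (vB m) * ∫⁻ v : EV m, indicator {v : EV m | w x - v ∈ cubeV m (dl m)}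
          (fun v => ‖𝓕 (desm G) v‖ₑ ^ 2) v ∂volume) ∂μ := lintegral_mono hpt
    _ = ENNReal.ofReal (vB m) * ∫⁻ x, ∫⁻ v, indicator {p : X × EV m | w p.1 - p.2 ∈ cubeV m (dl m)}
          (fun p => ‖𝓕 (desm G) p.2‖ₑ ^ 2) (x, v) ∂volume ∂μ := by
        rw [lintegral_const_mul' _ _ ENNReal.ofReal_ne_top]
        rfl
    _ = ENNReal.ofReal (vB m) * ∫⁻ v, ∫⁻ x, indicator {p : X × EV m | w p.1 - p.2 ∈ cubeV m (dl m)}
          (fun p => ‖𝓕 (desm G) p.2‖ₑ ^ 2) (x, v) ∂μ ∂volume := by
        congr 1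
        apply lintegral_lintegral_swap
        apply Measurable.aemeasurable
        apply Measurable.indicator _ hset
        exact (hc.measurable.comp measurable_snd).enorm.pow_const 2
    _ ≤ ENNReal.ofReal (vB m) * ∫⁻ v, ‖𝓕 (desm G) v‖ₑ ^ 2 * M := by
        refine mul_le_mul_right (lintegral_mono fun v => ?_) _
        calc ∫⁻ x, indicator {p : X × EV m | w p.1 - p.2 ∈ cubeV m (dl m)}
              (fun p => ‖𝓕 (desm G) p.2‖ₑ ^ 2) (x, v) ∂μ
            = ∫⁻ x, indicator {x | w x - v ∈ cubeV m (dl m)} (fun _ => ‖𝓕 (desm G) v‖ₑ ^ 2) x ∂μ := rfl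
          _ = ‖𝓕 (desm G) v‖ₑ ^ 2 * μ {x | w x - v ∈ cubeV m (dl m)} := by
              rw [lintegral_indicator_const]
              exact (hw.sub measurable_const) (measurableSet_cubeV _)
          _ ≤ ‖𝓕 (desm G) v‖ₑ ^ 2 * M := by gcongr; exact hM v
    _ = ENNReal.ofReal (vB m) * ((∫⁻ v, ‖𝓕 (desm G) v‖ₑ ^ 2) * M) := by
        congr 1
        exact lintegral_mul_const _ (hc.measurable.enorm.pow_const 2)
    _ ≤ ENNReal.ofReal (vB m) * ((ENNReal.ofReal (2 / vB m) ^ 2 * 2 ^ m) * M) := by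
        rw [plancherelV hg1 hg2]
        gcongr
        exact lintegral_enorm_sq_leV hgb hgs
    _ = CB m * M := by unfold CB; ring

end Pool.Agent.H.MP_b7167f_an
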