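import Mathlib
import Pool.Agent.H.MP_b7167f_an.Avg2

open MeasureTheory FourierTransform Set
open scoped ENNReal NNReal ComplexConjugate InnerProductSpace

namespace Pool.Agent.H.MP_b7167f_an

variable {m k : ℕ}

/-- the frequency at which the autocorrelation is evaluated -/
def wv (ζ : EV m) (τ : Fin m → ℝ) : EV m := WithLp.toLp 2 (fun j => -(2 * ζ j * τ j))

lemma KK_eq_fourier (F : EV m → ℂ) (ζ : EV m) (τ : Fin m → ℝ) :
    ‖KK F ζ τ‖ₑ = ‖𝓕 (fun η => conj (F η) * F (η + ζ)) (wv ζ τ)‖ₑ := by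
  rw [fourierV_eq_ch, KK]
  have h : ∀ η : EV m, ch (∑ j, (2 * η j * ζ j + ζ j ^ 2) * τ j) * (conj (F η) * F (η + ζ))
      = ch (∑ j, ζ j ^ 2 * τ j) * (ch (-⟪η, wv ζ τ⟫_ℝ) • (conj (F η) * F (η + ζ))) := by
    intro η
    rw [smul_eq_mul, ← mul_assoc (ch (∑ j, ζ j ^ 2 * τ j)), ← ch_add]
    congr 2
    rw [PiLp.inner_apply, ← Finset.sum_neg_distrib, ← Finset.sum_add_distrib]
    apply Finset.sum_congr rfl
    intro j _
    simp only [wv, RCLike.inner_apply, conj_trivial]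
    ring
  simp_rw [h]
  rw [integral_const_mul, enorm_mul, enorm_ch, one_mul]

/-- Frostman condition: `ν` of a cube of side `ρ ≤ 1` is at most `K ρ^s`. -/
def Frost {k : ℕ} (ν : Measure (Fin k → ℝ)) (K s : ℝ) : Prop :=
  ∀ (x : Fin k → ℝ) (ρ : ℝ), 0 < ρ → ρ ≤ 1 →
    ν (Icc x (fun j => x j + ρ)) ≤ ENNReal.ofReal (K * ρ ^ s)

lemma cover_bound {ν : Measure (Fin k → ℝ)} {K s : ℝ} (hν : Frost ν K s) (a : Fin k → ℝ)
    {ρ : ℝ} (hρ0 : 0 < ρ) (hρ1 : ρ ≤ 1) {N : Fin k → ℕ} (hN : ∀ j, 0 < N j) :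
    ν (Icc a (fun j => a j + N j * ρ)) ≤ (∏ j, (N j : ℝ≥0∞)) * ENNReal.ofReal (K * ρ ^ s) := by
  have hsub : Icc a (fun j => a j + N j * ρ) ⊆ ⋃ m : (∀ j, Fin (N j)),
      Icc (fun j => a j + (m j : ℕ) * ρ) (fun j => a j + (m j : ℕ) * ρ + ρ) := by
    intro x hx
    rw [mem_iUnion]
    have hx1 : ∀ j, 0 ≤ (x j - a j) / ρ := fun j => div_nonneg (by linarith [hx.1 j]) hρ0.le
    refine ⟨fun j => ⟨min ⌊(x j - a j) / ρ⌋₊ (N j - 1), ?_⟩, ?_, ?_⟩
    · have := hN j
      omega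
    · intro j
      have h1 : ((min ⌊(x j - a j) / ρ⌋₊ (N j - 1) : ℕ) : ℝ) ≤ (x j - a j) / ρ :=
        le_trans (by exact_mod_cast min_le_left _ _) (Nat.floor_le (hx1 j))
      rw [le_div_iff₀ hρ0] at h1
      simp only
      linarith
    · intro j
      simp only
      have hb : x j ≤ a j + N j * ρ := hx.2 j
      rcases le_total ⌊(x j - a j) / ρ⌋₊ (N j - 1) with h | h
      · rw [min_eq_left h]
        have h1 := Nat.lt_floor_add_one ((x j - a j) / ρ)
        rw [div_lt_iff₀ hρ0] at h1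
        linarith
      · rw [min_eq_right h]
        have h2 : ((N j - 1 : ℕ) : ℝ) = N j - 1 := by
          rw [Nat.cast_sub (hN j)]; simp
        rw [h2]
        linarith
  calc ν (Icc a (fun j => a j + N j * ρ)) ≤ ν (⋃ m : (∀ j, Fin (N j)),
      Icc (fun j => a j + (m j : ℕ) * ρ) (fun j => a j + (m j : ℕ) * ρ + ρ)) := measure_mono hsub
    _ ≤ ∑ m : (∀ j, Fin (N j)), ν (Icc (fun j => a j + (m j : ℕ) * ρ)
          (fun j => a j + (m j : ℕ) * ρ + ρ)) := measure_iUnion_fintype_le _ _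
    _ ≤ ∑ _m : (∀ j, Fin (N j)), ENNReal.ofReal (K * ρ ^ s) :=
        Finset.sum_le_sum fun m _ => hν _ ρ hρ0 hρ1
    _ = (∏ j, (N j : ℝ≥0∞)) * ENNReal.ofReal (K * ρ ^ s) := by
        rw [Finset.sum_const, Finset.card_univ, Fintype.card_pi, nsmul_eq_mul]
        simp

lemma interval_incl {δ : ℝ} (hδ : δ ≤ 1 / 16) {c : ℝ} (hc : c ≠ 0) (v : ℝ) {x y : ℝ}
    (hx : x ∈ Icc (1:ℝ) 2 ∧ |-(c / x ^ 2) - v| ≤ δ) (hy : y ∈ Icc (1:ℝ) 2 ∧ |-(c / y ^ 2) - v| ≤ δ) :
    x ∈ Icc (y - 8 * δ / |c|) (y - 8 * δ / |c| + 1 / |c|) := by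
  have hc' : 0 < |c| := abs_pos.2 hc
  obtain ⟨⟨hx1, hx2⟩, hx3⟩ := hx
  obtain ⟨⟨hy1, hy2⟩, hy3⟩ := hy
  have h1 : |c| * |x - y| ≤ 8 * δ := by
    have h2 : |c / x ^ 2 - c / y ^ 2| ≤ 2 * δ := by
      have e : c / x ^ 2 - c / y ^ 2 = (-(c / y ^ 2) - v) - (-(c / x ^ 2) - v) := by ring
      rw [e]
      calc _ ≤ |-(c / y ^ 2) - v| + |-(c / x ^ 2) - v| := abs_sub _ _
        _ ≤ 2 * δ := by linarith
    have hx0 : 0 < x := by linarith
    have hy0 : 0 < y := by linarith
    have h3 : |c / x ^ 2 - c / y ^ 2| = |c| * |x - y| * ((x + y) / (x ^ 2 * y ^ 2)) := by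
      have e : c / x ^ 2 - c / y ^ 2 = c * (y - x) * ((x + y) / (x ^ 2 * y ^ 2)) := by
        field_simp; ring
      rw [e, abs_mul, abs_mul, abs_of_pos (show 0 < (x + y) / (x ^ 2 * y ^ 2) by positivity),
        abs_sub_comm y x]
    have h4 : 1 / 4 ≤ (x + y) / (x ^ 2 * y ^ 2) := by
      rw [div_le_div_iff₀ (by norm_num) (by positivity)]
      have h5 : x ^ 2 * y ^ 2 ≤ 4 * (x * y) := by nlinarith [mul_pos hx0 hy0, mul_le_mul hx2 hy2 hy0.le (by norm_num : (0:ℝ) ≤ 2)]
      have h6 : x * y ≤ x + y := by nlinarith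
      linarith
    rw [h3] at h2
    have h7 : |c| * |x - y| * (1/4) ≤ |c| * |x - y| * ((x + y) / (x ^ 2 * y ^ 2)) := by
      gcongr
    linarith
  have h8 : |x - y| ≤ 8 * δ / |c| := by
    rw [le_div_iff₀ hc']; linarith [mul_comm |c| |x - y|]
  rw [abs_le] at h8
  have h9 : 8 * δ / |c| ≤ 1 / 2 * (1 / |c|) := by
    rw [show 1 / 2 * (1 / |c|) = (1/2) / |c| by ring]
    gcongr
    linarith
  rw [mem_Icc]
  constructor <;> linarith [h8.1, h8.2]

/-- The measure of dilations for which the frequencies fall in a given small cube. -/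
lemma nu_bound {ν : Measure (Fin k → ℝ)} {K s δ : ℝ} (hs : 0 ≤ s)
    (hν : Frost ν K s) (hδ : δ ≤ 1 / 16) {z : Fin k → ℝ} (hz : ∀ j, z j ≠ 0)
    (hz2 : ∀ j, |z j| ≤ 2) {t : ℝ} (ht : t ≠ 0) (v : Fin k → ℝ) :
    ENNReal.ofReal (|t| ^ s) *
      ν {x | x ∈ Icc 1 2 ∧ ∀ j, |-((2 * z j * t) / x j ^ 2) - v j| ≤ δ}
      ≤ ENNReal.ofReal K * ∏ j, ENNReal.ofReal (3 / |z j|) := by
  have ht' : 0 < |t| := abs_pos.2 ht
  have hz' : ∀ j, 0 < |z j| := fun j => abs_pos.2 (hz j)
  have h3 : ∀ j, (1:ℝ≥0∞) ≤ ENNReal.ofReal (3 / |z j|) := by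
    intro j
    rw [ENNReal.one_le_ofReal, le_div_iff₀ (hz' j)]
    linarith [hz2 j]
  by_cases h1 : |t| ≤ 1
  · calc ENNReal.ofReal (|t| ^ s) *
          (ν {x | x ∈ Icc 1 2 ∧ ∀ j, |-((2 * z j * t) / x j ^ 2) - v j| ≤ δ})
        ≤ 1 * ν (Icc (1 : Fin k → ℝ) (fun j => (1 : Fin k → ℝ) j + 1)) := by
          gcongr
          · rw [ENNReal.ofReal_le_one]
            exact Real.rpow_le_one ht'.le h1 hs
          · intro x hx
            have h2 := hx.1
            rw [mem_Icc] at h2 ⊢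
            refine ⟨h2.1, fun j => (h2.2 j).trans ?_⟩
            simp only [Pi.one_apply, Pi.ofNat_apply]
            norm_num
      _ ≤ 1 * ENNReal.ofReal (K * 1 ^ s) := by
          gcongr
          exact hν 1 1 one_pos le_rfl
      _ = ENNReal.ofReal K * 1 := by rw [Real.one_rpow, mul_one, one_mul, mul_one]
      _ ≤ ENNReal.ofReal K * ∏ j, ENNReal.ofReal (3 / |z j|) := by
          gcongr
          exact Finset.one_le_prod' fun j _ => h3 j
  · push Not at h1
    by_cases hne : ∀ j, ∃ y, y ∈ Icc (1:ℝ) 2 ∧ |-((2 * z j * t) / y ^ 2) - v j| ≤ δ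
    · choose y hy using hne
      set ρ : ℝ := 1 / |t| with hρ
      have hρ0 : 0 < ρ := by positivity
      have hρ1 : ρ ≤ 1 := by rw [hρ, div_le_one ht']; exact h1.le
      set N : Fin k → ℕ := fun j => ⌈1 / (2 * |z j|)⌉₊ with hNdef
      have hN : ∀ j, 0 < N j := fun j => Nat.ceil_pos.2 (by have := hz' j; positivity)
      have hN2 : ∀ j, (N j : ℝ≥0∞) ≤ ENNReal.ofReal (3 / |z j|) := by
        intro j
        have h4 : (N j : ℝ) < 1 / (2 * |z j|) + 1 :=
          Nat.ceil_lt_add_one (by have := hz' j; positivity)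
        rw [← ENNReal.ofReal_natCast]
        apply ENNReal.ofReal_le_ofReal
        have h5 : 1 ≤ 2 / |z j| := by rw [le_div_iff₀ (hz' j)]; linarith [hz2 j]
        have h6 : 1 / (2 * |z j|) = (1/2) / |z j| := by field_simp
        have h7 : (1/2) / |z j| + 2 / |z j| ≤ 3 / |z j| := by
          rw [← add_div]
          gcongr
          norm_num
        linarith
      calc ENNReal.ofReal (|t| ^ s) *
            (ν {x | x ∈ Icc 1 2 ∧ ∀ j, |-((2 * z j * t) / x j ^ 2) - v j| ≤ δ})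
          ≤ ENNReal.ofReal (|t| ^ s) * ν (Icc (fun j => y j - 8 * δ / |2 * z j * t|)
              (fun j => y j - 8 * δ / |2 * z j * t| + N j * ρ)) := by
            gcongr
            intro x hx
            have h8 : ∀ j, x j ∈ Icc (y j - 8 * δ / |2 * z j * t|)
                (y j - 8 * δ / |2 * z j * t| + 1 / |2 * z j * t|) := fun j =>
              interval_incl hδ (mul_ne_zero (mul_ne_zero two_ne_zero (hz j)) ht) (v j)
                ⟨⟨hx.1.1 j, hx.1.2 j⟩, hx.2 j⟩ (hy j)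
            refine ⟨fun j => (h8 j).1, fun j => (h8 j).2.trans ?_⟩
            have h9 : 1 / |2 * z j * t| ≤ N j * ρ := by
              have h10 : 1 / |2 * z j * t| = 1 / (2 * |z j|) * ρ := by
                rw [hρ, abs_mul, abs_mul, abs_two]
                have := hz' j
                field_simp
              rw [h10]
              gcongr
              exact Nat.le_ceil _
            linarith
        _ ≤ ENNReal.ofReal (|t| ^ s) * ((∏ j, (N j : ℝ≥0∞)) * ENNReal.ofReal (K * ρ ^ s)) := by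
            gcongr
            exact cover_bound hν _ hρ0 hρ1 hN
        _ = (∏ j, (N j : ℝ≥0∞)) * ENNReal.ofReal K := by
            rw [mul_left_comm, ← ENNReal.ofReal_mul (by positivity)]
            congr 2
            rw [hρ, one_div, Real.inv_rpow ht'.le]
            have : 0 < |t| ^ s := by positivity
            field_simp
        _ ≤ (∏ j, ENNReal.ofReal (3 / |z j|)) * ENNReal.ofReal K := by
            gcongr with j
            exact hN2 j
        _ = _ := mul_comm _ _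
    · push Not at hne
      obtain ⟨j, hj⟩ := hne
      have : {x : Fin k → ℝ | x ∈ Icc 1 2 ∧ ∀ j, |-((2 * z j * t) / x j ^ 2) - v j| ≤ δ} = ∅ := by
        rw [eq_empty_iff_forall_notMem]
        rintro x ⟨hx1, hx2⟩
        have := hj (x j) ⟨hx1.1 j, hx1.2 j⟩
        linarith [hx2 j]
      rw [this, measure_empty, mul_zero]
      exact zero_le

/-- the `m = k+1` times -/
noncomputable def tau (p : ℝ × (Fin k → ℝ)) : Fin (k + 1) → ℝ :=
  Fin.cons p.1 (fun j => p.1 / (p.2 j) ^ 2)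

lemma measurable_tau : Measurable (tau : ℝ × (Fin k → ℝ) → Fin (k + 1) → ℝ) := by
  apply measurable_pi_lambda
  intro j
  refine Fin.cases ?_ (fun j => ?_) j
  · simp only [tau, Fin.cons_zero]; exact measurable_fst
  · simp only [tau, Fin.cons_succ]; fun_prop

lemma measurable_wv : Measurable (fun q : EV m × (Fin m → ℝ) => wv q.1 q.2) := by
  unfold wv
  apply (PiLp.volume_preserving_toLp (Fin m)).measurable.comp
  apply measurable_pi_lambda
  intro j
  fun_prop

/-- measure on time and dilation parameters -/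
noncomputable def muX (s : ℝ) (ν : Measure (Fin k → ℝ)) : Measure (ℝ × (Fin k → ℝ)) :=
  ((volume : Measure ℝ).withDensity (fun t => ENNReal.ofReal (|t| ^ s))).prod
    (ν.restrict (Icc 1 2))

instance (s : ℝ) (ν : Measure (Fin k → ℝ)) [IsFiniteMeasure ν] : SFinite (muX s ν) := by
  unfold muX; infer_instance

lemma vol_time {c δ : ℝ} (hc : c ≠ 0) (v : ℝ) :
    volume {t : ℝ | |-(c * t) - v| ≤ δ} ≤ ENNReal.ofReal (2 * δ / |c|) := by
  have hc' : 0 < |c| := abs_pos.2 hc
  calc volume {t : ℝ | |-(c * t) - v| ≤ δ}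
      ≤ volume (Icc (-v / c - δ / |c|) (-v / c + δ / |c|)) := by
        apply measure_mono
        intro t ht
        have h1 : |t - (-v / c)| ≤ δ / |c| := by
          rw [le_div_iff₀ hc', ← abs_mul]
          have : (t - -v / c) * c = -(-(c * t) - v) := by field_simp; ring
          rw [this, abs_neg]
          exact ht
        rw [abs_le] at h1
        rw [mem_Icc]
        constructor <;> linarith [h1.1, h1.2]
    _ = ENNReal.ofReal (2 * δ / |c|) := by
        rw [Real.volume_Icc]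
        congr 1
        ring

lemma set_bound {s : ℝ} (hs : 0 ≤ s) {K : ℝ}
    {ν : Measure (Fin k → ℝ)} [IsFiniteMeasure ν] (hν : Frost ν K s)
    {ζ : EV (k + 1)} (hζ : ∀ j, ζ j ≠ 0) (hζ2 : ζ ∈ cubeV (k + 1) 2) (v : EV (k + 1)) :
    muX s ν {p | wv ζ (tau p) - v ∈ cubeV (k + 1) (dl (k + 1))}
      ≤ ENNReal.ofReal K * ∏ j : Fin (k + 1), ENNReal.ofReal (3 / |ζ j|) := by
  set δ := dl (k + 1) with hδ
  have hδ0 : 0 ≤ δ := dl_nonneg _
  have hδ1 : δ ≤ 1 / 16 := dl_le _
  have hmS : MeasurableSet {p : ℝ × (Fin k → ℝ) | wv ζ (tau p) - v ∈ cubeV (k + 1) δ} := by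
    have h1 : Measurable (fun p : ℝ × (Fin k → ℝ) => wv ζ (tau p) - v) :=
      (measurable_wv.comp (measurable_const.prodMk measurable_tau)).sub measurable_const
    exact h1 (measurableSet_cubeV _)
  unfold muX
  rw [Measure.prod_apply hmS]
  have hmd : Measurable (fun t : ℝ => ENNReal.ofReal (|t| ^ s)) :=
    (measurable_norm.pow_const _).ennreal_ofReal
  have hms : Measurable (fun t : ℝ => (ν.restrict (Icc 1 2))
      (Prod.mk t ⁻¹' {p | wv ζ (tau p) - v ∈ cubeV (k + 1) δ})) := measurable_measure_prodMk_left hmS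
  rw [lintegral_withDensity_eq_lintegral_mul _ hmd hms]
  set A : ℝ≥0∞ := ENNReal.ofReal K * ∏ j : Fin k, ENNReal.ofReal (3 / |ζ j.succ|) with hA
  have hne : ∀ᵐ t : ℝ, t ≠ 0 := by
    rw [ae_iff]; simp
  have hpt : ∀ᵐ t : ℝ, ((fun t : ℝ => ENNReal.ofReal (|t| ^ s)) *
      fun t : ℝ => (ν.restrict (Icc 1 2))
      (Prod.mk t ⁻¹' {p | wv ζ (tau p) - v ∈ cubeV (k + 1) δ})) t
      ≤ indicator {t : ℝ | |-(2 * ζ 0 * t) - v 0| ≤ δ} (fun _ => A) t := by
    filter_upwards [hne] with t ht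
    rw [Pi.mul_apply]
    by_cases h0 : |-(2 * ζ 0 * t) - v 0| ≤ δ
    · rw [indicator_of_mem (show t ∈ {t : ℝ | |-(2 * ζ 0 * t) - v 0| ≤ δ} from h0)]
      calc ENNReal.ofReal (|t| ^ s) * ((ν.restrict (Icc 1 2))
            (Prod.mk t ⁻¹' {p | wv ζ (tau p) - v ∈ cubeV (k + 1) δ}))
          ≤ ENNReal.ofReal (|t| ^ s) * ν {x : Fin k → ℝ | x ∈ Icc 1 2 ∧
              ∀ j, |-((2 * ζ j.succ * t) / x j ^ 2) - v j.succ| ≤ δ} := by
            refine mul_le_mul_right ?_ _
            rw [Measure.restrict_apply (measurable_prodMk_left hmS)]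
            apply measure_mono
            intro x hx
            obtain ⟨hx1, hx2⟩ := hx
            refine ⟨hx2, fun j => ?_⟩
            have h2 := hx1 j.succ
            rw [PiLp.sub_apply] at h2
            simp only [wv, tau, Fin.cons_succ] at h2
            have h3 := abs_le.2 h2
            have e : 2 * ζ j.succ * t / x j ^ 2 = 2 * ζ j.succ * (t / x j ^ 2) := by ring
            rw [e]
            exact h3
        _ ≤ A := nu_bound hs hν hδ1 (fun j => hζ _) (fun j => abs_le.2 (hζ2 _)) ht _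
    · have h1 : (ν.restrict (Icc 1 2))
          (Prod.mk t ⁻¹' {p | wv ζ (tau p) - v ∈ cubeV (k + 1) δ}) = 0 := by
        have : Prod.mk t ⁻¹' {p : ℝ × (Fin k → ℝ) | wv ζ (tau p) - v ∈ cubeV (k + 1) δ} = ∅ := by
          rw [eq_empty_iff_forall_notMem]
          intro x hx
          apply h0
          have h2 := hx 0
          rw [PiLp.sub_apply] at h2
          simp only [wv, tau, Fin.cons_zero] at h2
          exact abs_le.2 h2
        rw [this, measure_empty]
      rw [h1, mul_zero]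
      exact zero_le
  calc _ ≤ ∫⁻ t : ℝ, indicator {t : ℝ | |-(2 * ζ 0 * t) - v 0| ≤ δ} (fun _ => A) t :=
        lintegral_mono_ae hpt
    _ = A * volume {t : ℝ | |-(2 * ζ 0 * t) - v 0| ≤ δ} := by
        rw [lintegral_indicator_const]
        exact measurableSet_le (by fun_prop) measurable_const
    _ ≤ A * ENNReal.ofReal (3 / |ζ 0|) := by
        gcongr
        refine (vol_time (mul_ne_zero two_ne_zero (hζ 0)) _).trans ?_
        apply ENNReal.ofReal_le_ofReal
        rw [abs_mul, abs_two]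
        have hz' := abs_pos.2 (hζ 0)
        rw [div_le_div_iff₀ (by positivity) hz']
        have : δ * |ζ 0| ≤ 1 / 16 * |ζ 0| := by gcongr
        linarith
    _ = _ := by
        rw [Fin.prod_univ_succ, hA]
        ring

/-- The time–dilation average of the squared kernel. -/
theorem KK_avg {s : ℝ} (hs : 0 ≤ s) {K : ℝ}
    {ν : Measure (Fin k → ℝ)} [IsFiniteMeasure ν] (hν : Frost ν K s)
    {F : EV (k + 1) → ℂ} (hF : AdmV F) {ζ : EV (k + 1)} (hζ : ∀ j, ζ j ≠ 0)
    (hζ2 : ζ ∈ cubeV (k + 1) 2) :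
    ∫⁻ p, ‖KK F ζ (tau p)‖ₑ ^ 2 ∂(muX s ν)
      ≤ CB (k + 1) * (ENNReal.ofReal K * ∏ j : Fin (k + 1), ENNReal.ofReal (3 / |ζ j|)) := by
  simp_rw [KK_eq_fourier]
  apply avg_fourier (Nat.succ_pos k)
  · have h1 := (measurable_cc hF).comp (measurable_id.prodMk (measurable_const (a := ζ)))
    exact h1
  · exact fun η => hF.ccmul η ζ
  · exact fun η h => hF.cczero (Or.inl h)
  · exact measurable_wv.comp (measurable_const.prodMk measurable_tau)
  · exact fun v => set_bound hs hν hζ hζ2 v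

end Pool.Agent.H.MP_b7167f_an
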