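import Mathlib
import Pool.Agent.H.MP_b7167f_an.Avg3

open MeasureTheory FourierTransform Set
open scoped ENNReal NNReal ComplexConjugate InnerProductSpace

namespace Pool.Agent.H.MP_b7167f_an

variable {m k : ℕ}

/-- product weight -/
noncomputable def WW (r : ℝ) (ζ : EV m) : ℝ≥0∞ := ∏ j, ENNReal.ofReal (|ζ j| ^ r)

lemma measurable_WW (r : ℝ) : Measurable (WW r : EV m → ℝ≥0∞) := by
  unfold WW
  refine Finset.measurable_fun_prod _ fun j _ => ?_
  exact ((measurable_coord j).norm.pow_const r).ennreal_ofReal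

lemma WW_zero (ζ : EV m) : WW 0 ζ = 1 := by
  unfold WW; simp

lemma WW_mul {ζ : EV m} (hζ : ∀ j, ζ j ≠ 0) (r r' : ℝ) : WW r ζ * WW r' ζ = WW (r + r') ζ := by
  unfold WW
  rw [← Finset.prod_mul_distrib]
  apply Finset.prod_congr rfl
  intro j _
  rw [← ENNReal.ofReal_mul (by positivity), ← Real.rpow_add (abs_pos.2 (hζ j))]

lemma WW_rpow (ζ : EV m) (r : ℝ) {p : ℝ} (hp : 0 ≤ p) : (WW r ζ) ^ p = WW (r * p) ζ := by
  unfold WW
  rw [← ENNReal.prod_rpow_of_nonneg hp]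
  apply Finset.prod_congr rfl
  intro j _
  rw [ENNReal.ofReal_rpow_of_nonneg (by positivity) hp, ← Real.rpow_mul (abs_nonneg _)]

lemma lintegral_EV (g : EV m → ℝ≥0∞) :
    ∫⁻ ζ, g ζ = ∫⁻ x : Fin m → ℝ, g (WithLp.toLp 2 x) :=
  ((PiLp.volume_preserving_toLp (Fin m)).lintegral_comp_emb
    (MeasurableEquiv.toLp 2 (Fin m → ℝ)).measurableEmbedding g).symm

lemma lintegral_WW (r : ℝ) : ∫⁻ ζ in cubeV m 2, WW r ζ
    = (∫⁻ z in Icc (-2:ℝ) 2, ENNReal.ofReal (|z| ^ r)) ^ m := by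
  rw [← lintegral_indicator (measurableSet_cubeV 2), lintegral_EV]
  have h : ∀ x : Fin m → ℝ, indicator (cubeV m 2) (WW r) (WithLp.toLp 2 x)
      = ∏ j, indicator (Icc (-2:ℝ) 2) (fun z => ENNReal.ofReal (|z| ^ r)) (x j) := by
    intro x
    by_cases hx : WithLp.toLp 2 x ∈ cubeV m 2
    · rw [indicator_of_mem hx]
      unfold WW
      apply Finset.prod_congr rfl
      intro j _
      rw [indicator_of_mem]
      exact hx j
    · rw [indicator_of_notMem hx]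
      have : ∃ j, x j ∉ Icc (-2:ℝ) 2 := by
        by_contra hcon
        push Not at hcon
        exact hx fun j => hcon j
      obtain ⟨j, hj⟩ := this
      rw [Finset.prod_eq_zero (Finset.mem_univ j)]
      rw [indicator_of_notMem hj]
  simp_rw [h]
  rw [lintegral_fin_prod]
  · simp_rw [lintegral_indicator measurableSet_Icc]
    simp
  · intro j
    apply Measurable.indicator _ measurableSet_Icc
    exact (measurable_norm.pow_const r).ennreal_ofReal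

lemma lintegral_WW_ne_top {r : ℝ} (hr : -1 < r) : ∫⁻ ζ in cubeV m 2, WW r ζ ≠ ∞ := by
  rw [lintegral_WW]
  exact ENNReal.pow_ne_top (lintegral_abs_rpow_lt_top hr).ne

lemma ae_coord_ne : ∀ᵐ ζ : EV m, ∀ j, ζ j ≠ 0 := by
  rw [ae_all_iff]
  intro j
  rw [ae_iff]
  simp only [not_not]
  have hm : MeasurableSet {ζ : EV m | ζ j = 0} := measurable_coord j (measurableSet_singleton 0)
  rw [← (PiLp.volume_preserving_toLp (Fin m)).measure_preimage hm.nullMeasurableSet]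
  exact Measure.pi_hyperplane (fun _ : Fin m => (volume : Measure ℝ)) j 0

lemma KK_enorm_sq_le {F : EV m → ℂ} (hF : AdmV F) (ζ : EV m) (τ : Fin m → ℝ) :
    ‖KK F ζ τ‖ₑ ^ 2 ≤ 4 ^ m := by
  have : ‖KK F ζ τ‖ₑ ≤ 2 ^ m := by
    rw [← ofReal_norm]
    calc ENNReal.ofReal ‖KK F ζ τ‖ ≤ ENNReal.ofReal (2 ^ m) :=
          ENNReal.ofReal_le_ofReal (KK_bound hF ζ τ)
      _ = 2 ^ m := by rw [ENNReal.ofReal_pow (by norm_num)]; simp
  calc ‖KK F ζ τ‖ₑ ^ 2 ≤ (2 ^ m) ^ 2 := by gcongr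
    _ = 4 ^ m := by rw [← pow_mul, mul_comm m 2, pow_mul]; norm_num

lemma four_pow_ne_top (m : ℕ) : (4:ℝ≥0∞) ^ m ≠ ∞ := ENNReal.pow_ne_top (by norm_num)

lemma JJ_pow_le {a : ℝ} (ha : 1 < a) {F : EV m → ℂ} (hF : AdmV F) (τ : Fin m → ℝ) :
    (JJ F τ) ^ a ≤ (∫⁻ ζ in cubeV m 2, WW (-(1/2)) ζ) ^ (a - 1) *
      ∫⁻ ζ in cubeV m 2, WW ((a - 1) / 2) ζ * (‖KK F ζ τ‖ₑ ^ 2) ^ a := by
  have ha0 : 0 < a := by linarith
  set a' : ℝ := a / (a - 1) with ha'
  have hpq : a'.HolderConjugate a := by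
    rw [ha']
    exact (Real.HolderConjugate.conjExponent ha).symm
  have ha'0 : 0 ≤ a' := by rw [ha']; apply div_nonneg <;> linarith
  set β : ℝ := (a - 1) / (2 * a) with hβ
  have e1 : JJ F τ = ∫⁻ ζ in cubeV m 2, ‖KK F ζ τ‖ₑ ^ 2 := by
    rw [JJ_eq hF, ← lintegral_indicator (measurableSet_cubeV 2)]
    congr 1
    ext z
    by_cases h : z ∈ cubeV m 2
    · rw [indicator_of_mem h]
    · rw [indicator_of_notMem h, KK_supp hF z τ h]; simp
  have e2 : ∫⁻ ζ in cubeV m 2, ‖KK F ζ τ‖ₑ ^ 2 =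
      ∫⁻ ζ in cubeV m 2, ((WW (-β) : EV m → ℝ≥0∞) * (fun ζ : EV m => WW β ζ * ‖KK F ζ τ‖ₑ ^ 2)) ζ := by
    apply lintegral_congr_ae
    filter_upwards [ae_restrict_of_ae ae_coord_ne] with ζ hζ
    rw [Pi.mul_apply, ← mul_assoc, WW_mul hζ, neg_add_cancel, WW_zero, one_mul]
  have hmK : Measurable (fun ζ => ‖KK F ζ τ‖ₑ ^ 2) :=
    (((measurable_KK hF).comp_measurable
      (measurable_id.prodMk measurable_const)).measurable.enorm).pow_const 2
  have e3 := ENNReal.lintegral_mul_le_Lp_mul_Lq (volume.restrict (cubeV m 2)) hpq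
    (measurable_WW (-β)).aemeasurable ((measurable_WW β).mul hmK).aemeasurable
  rw [e1, e2]
  calc (∫⁻ ζ in cubeV m 2, ((WW (-β) : EV m → ℝ≥0∞) * (fun ζ : EV m => WW β ζ * ‖KK F ζ τ‖ₑ ^ 2)) ζ) ^ a
      ≤ ((∫⁻ ζ in cubeV m 2, (WW (-β) ζ) ^ a') ^ (1 / a') *
        (∫⁻ ζ in cubeV m 2, (WW β ζ * ‖KK F ζ τ‖ₑ ^ 2) ^ a) ^ (1 / a)) ^ a :=
        ENNReal.rpow_le_rpow e3 ha0.le
    _ = _ := by
        rw [ENNReal.mul_rpow_of_nonneg _ _ ha0.le, ← ENNReal.rpow_mul, ← ENNReal.rpow_mul]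
        have h1 : 1 / a' * a = a - 1 := by
          rw [ha']; field_simp
        have h2 : 1 / a * a = 1 := by field_simp
        rw [h1, h2, ENNReal.rpow_one]
        congr 2
        · congr 1
          ext z
          rw [WW_rpow _ _ ha'0]
          congr 1
          rw [ha', hβ]
          have : a - 1 ≠ 0 := by linarith
          field_simp
        · ext z
          rw [ENNReal.mul_rpow_of_nonneg _ _ ha0.le, WW_rpow _ _ ha0.le]
          congr 2
          rw [hβ]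
          field_simp

/-- The constant in the averaged bound. -/
noncomputable def CJ (m : ℕ) (K a : ℝ) : ℝ≥0∞ :=
  (∫⁻ ζ in cubeV m 2, WW (-(1/2)) ζ) ^ (a - 1) *
    ((4 ^ m) ^ (a - 1) * (CB m * (ENNReal.ofReal K * ENNReal.ofReal 3 ^ m)) *
      ∫⁻ ζ in cubeV m 2, WW ((a - 1) / 2 - 1) ζ)

lemma CJ_ne_top (m : ℕ) (K : ℝ) {a : ℝ} (ha : 1 < a) : CJ m K a ≠ ∞ := by
  unfold CJ
  apply ENNReal.mul_ne_top
  · exact ENNReal.rpow_ne_top_of_nonneg (by linarith) (lintegral_WW_ne_top (by norm_num))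
  · apply ENNReal.mul_ne_top
    · apply ENNReal.mul_ne_top
      · exact ENNReal.rpow_ne_top_of_nonneg (by linarith) (four_pow_ne_top m)
      · exact ENNReal.mul_ne_top (CB_ne_top m) (ENNReal.mul_ne_top ENNReal.ofReal_ne_top
          (ENNReal.pow_ne_top ENNReal.ofReal_ne_top))
    · exact lintegral_WW_ne_top (by linarith)

/-- The averaged bound on the powers of the fourth moment. -/
theorem JJ_avg {s : ℝ} (hs : 0 ≤ s) {K : ℝ}
    {ν : Measure (Fin k → ℝ)} [IsFiniteMeasure ν] (hν : Frost ν K s)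
    {F : EV (k + 1) → ℂ} (hF : AdmV F) {a : ℝ} (ha : 1 < a) :
    ∫⁻ p, (JJ F (tau p)) ^ a ∂(muX s ν) ≤ CJ (k + 1) K a := by
  have hmK : Measurable (fun q : EV (k + 1) × (ℝ × (Fin k → ℝ)) => ‖KK F q.1 (tau q.2)‖ₑ ^ 2) :=
    (((measurable_KK hF).comp_measurable
      (measurable_fst.prodMk (measurable_tau.comp measurable_snd))).measurable.enorm).pow_const 2
  have hpt : ∀ ζ τ, (‖KK F ζ τ‖ₑ ^ 2) ^ a ≤ (4 ^ (k + 1)) ^ (a - 1) * ‖KK F ζ τ‖ₑ ^ 2 := by
    intro ζ τ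
    have h := KK_enorm_sq_le hF ζ τ
    calc (‖KK F ζ τ‖ₑ ^ 2) ^ a = (‖KK F ζ τ‖ₑ ^ 2) ^ ((a - 1) + 1) := by ring_nf
      _ = (‖KK F ζ τ‖ₑ ^ 2) ^ (a - 1) * (‖KK F ζ τ‖ₑ ^ 2) := by
          rw [ENNReal.rpow_add_of_nonneg _ _ (by linarith) (by norm_num), ENNReal.rpow_one]
      _ ≤ (4 ^ (k + 1)) ^ (a - 1) * ‖KK F ζ τ‖ₑ ^ 2 := by
          gcongr
  have h4 : ((4:ℝ≥0∞) ^ (k + 1)) ^ (a - 1) ≠ ∞ :=
    ENNReal.rpow_ne_top_of_nonneg (by linarith) (four_pow_ne_top _)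
  calc ∫⁻ p, (JJ F (tau p)) ^ a ∂(muX s ν)
      ≤ ∫⁻ p, (∫⁻ ζ in cubeV (k + 1) 2, WW (-(1/2)) ζ) ^ (a - 1) *
        ∫⁻ ζ in cubeV (k + 1) 2, WW ((a - 1) / 2) ζ *
          ((4 ^ (k + 1)) ^ (a - 1) * ‖KK F ζ (tau p)‖ₑ ^ 2) ∂volume ∂(muX s ν) := by
        apply lintegral_mono
        intro p
        refine (JJ_pow_le ha hF (tau p)).trans ?_
        refine mul_le_mul_right (lintegral_mono fun ζ => ?_) _
        exact mul_le_mul_right (hpt ζ (tau p)) _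
    _ = (∫⁻ ζ in cubeV (k + 1) 2, WW (-(1/2)) ζ) ^ (a - 1) *
        ∫⁻ p, ∫⁻ ζ in cubeV (k + 1) 2, WW ((a - 1) / 2) ζ *
          ((4 ^ (k + 1)) ^ (a - 1) * ‖KK F ζ (tau p)‖ₑ ^ 2) ∂volume ∂(muX s ν) := by
        rw [lintegral_const_mul']
        exact ENNReal.rpow_ne_top_of_nonneg (by linarith) (lintegral_WW_ne_top (by norm_num))
    _ = (∫⁻ ζ in cubeV (k + 1) 2, WW (-(1/2)) ζ) ^ (a - 1) *
        ∫⁻ ζ in cubeV (k + 1) 2, ∫⁻ p, WW ((a - 1) / 2) ζ *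
          ((4 ^ (k + 1)) ^ (a - 1) * ‖KK F ζ (tau p)‖ₑ ^ 2) ∂(muX s ν) ∂volume := by
        congr 1
        apply lintegral_lintegral_swap
        apply Measurable.aemeasurable
        apply Measurable.mul
        · exact (measurable_WW _).comp measurable_snd
        · exact (hmK.comp measurable_swap).const_mul _
    _ ≤ (∫⁻ ζ in cubeV (k + 1) 2, WW (-(1/2)) ζ) ^ (a - 1) *
        ∫⁻ ζ in cubeV (k + 1) 2, (4 ^ (k + 1)) ^ (a - 1) * (CB (k + 1) * (ENNReal.ofReal K *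
          ENNReal.ofReal 3 ^ (k + 1))) * WW ((a - 1) / 2 - 1) ζ := by
        refine mul_le_mul_right (lintegral_mono_ae ?_) _
        filter_upwards [ae_restrict_of_ae ae_coord_ne, ae_restrict_mem (measurableSet_cubeV 2)]
          with ζ hζ hζ2
        have hWne : WW ((a - 1) / 2) ζ ≠ ∞ := by
          unfold WW
          exact ENNReal.prod_ne_top fun j _ => ENNReal.ofReal_ne_top
        rw [lintegral_const_mul' _ _ hWne, lintegral_const_mul' _ _ h4]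
        calc WW ((a - 1) / 2) ζ * ((4 ^ (k + 1)) ^ (a - 1) *
              ∫⁻ p, ‖KK F ζ (tau p)‖ₑ ^ 2 ∂(muX s ν))
            ≤ WW ((a - 1) / 2) ζ * ((4 ^ (k + 1)) ^ (a - 1) *
              (CB (k + 1) * (ENNReal.ofReal K * ∏ j : Fin (k + 1), ENNReal.ofReal (3 / |ζ j|)))) := by
              gcongr
              exact KK_avg hs hν hF hζ hζ2
          _ = _ := by
              have h5 : ∏ j : Fin (k + 1), ENNReal.ofReal (3 / |ζ j|)
                  = ENNReal.ofReal 3 ^ (k + 1) * WW (-1) ζ := by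
                unfold WW
                simp_rw [div_eq_mul_inv, ENNReal.ofReal_mul (show (0:ℝ) ≤ 3 by norm_num),
                  Real.rpow_neg_one]
                rw [Finset.prod_mul_distrib]
                simp
              rw [h5, sub_eq_add_neg ((a - 1) / 2) 1, ← WW_mul hζ]
              ring
    _ = CJ (k + 1) K a := by
        rw [lintegral_const_mul' _ _ (ENNReal.mul_ne_top h4 (ENNReal.mul_ne_top (CB_ne_top _)
          (ENNReal.mul_ne_top ENNReal.ofReal_ne_top (ENNReal.pow_ne_top ENNReal.ofReal_ne_top))))]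
        rfl

end Pool.Agent.H.MP_b7167f_an
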