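import Mathlib
import Pool.Agent.H.MP_b7167f_an.Avg4
import Pool.Agent.H.MP_b7167f_an.FormInterp

open MeasureTheory FourierTransform Set
open scoped ENNReal NNReal ComplexConjugate InnerProductSpace

namespace Pool.Agent.H.MP_b7167f_an

variable {m k : ℕ}

lemma sm_VV {F : EV m → ℂ} (hF : AdmV F) :
    StronglyMeasurable (fun p : EV m × (Fin m → ℝ) => VV F p.1 p.2) := by
  unfold VV
  apply StronglyMeasurable.integral_prod_right' (f := fun q : (EV m × (Fin m → ℝ)) × EV m =>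
    ch (⟪q.2, q.1.1⟫_ℝ + qf q.1.2 q.2) * F q.2)
  apply StronglyMeasurable.mul
  · exact Continuous.stronglyMeasurable (by unfold qf; fun_prop)
  · exact (hF.me.comp measurable_snd).stronglyMeasurable

lemma enorm_VV_le {F : EV m → ℂ} (hF : AdmV F) (y : EV m) (τ : Fin m → ℝ) :
    ‖VV F y τ‖ₑ ≤ 2 ^ m := by
  unfold VV
  have h : ‖∫ η, ch (⟪η, y⟫_ℝ + qf τ η) * F η‖ ≤ 2 ^ m := by
    calc ‖∫ η, ch (⟪η, y⟫_ℝ + qf τ η) * F η‖
        ≤ ∫ η, indicator (cubeV m 1) (fun _ => (1:ℝ)) η := by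
          apply norm_integral_le_of_norm_le
          · rw [integrable_indicator_iff (measurableSet_cubeV 1)]
            exact integrableOn_const (volume_cubeV_ne_top zero_le_one)
          · refine Filter.Eventually.of_forall fun η => ?_
            rw [norm_mul, norm_ch, one_mul]
            by_cases h : η ∈ cubeV m 1
            · rw [indicator_of_mem h]; exact hF.bd η
            · rw [indicator_of_notMem h, hF.supp η h, norm_zero]
      _ = 2 ^ m := by
          rw [integral_indicator (measurableSet_cubeV 1), setIntegral_const, Measure.real,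
            volume_cubeV zero_le_one]
          simp
  rw [← ofReal_norm]
  calc ENNReal.ofReal ‖∫ η, ch (⟪η, y⟫_ℝ + qf τ η) * F η‖ ≤ ENNReal.ofReal (2 ^ m) :=
        ENNReal.ofReal_le_ofReal h
    _ = 2 ^ m := by rw [ENNReal.ofReal_pow (by norm_num)]; simp

lemma measurable_JJ {F : EV m → ℂ} (hF : AdmV F) : Measurable (JJ F) := by
  unfold JJ
  have h1 : Measurable (fun p : EV m × (Fin m → ℝ) => ‖VV F p.1 p.2‖ₑ ^ 4) :=
    (sm_VV hF).enorm.pow_const 4
  exact h1.lintegral_prod_left'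

lemma JJ_le {F : EV m → ℂ} (hF : AdmV F) (τ : Fin m → ℝ) : JJ F τ ≤ 8 ^ m := by
  unfold JJ
  calc ∫⁻ y, ‖VV F y τ‖ₑ ^ 4 ≤ ∫⁻ y, (2 ^ m) ^ 2 * ‖VV F y τ‖ₑ ^ 2 := by
        apply lintegral_mono
        intro y
        simp only
        calc ‖VV F y τ‖ₑ ^ 4 = ‖VV F y τ‖ₑ ^ 2 * ‖VV F y τ‖ₑ ^ 2 := by ring
          _ ≤ (2 ^ m) ^ 2 * ‖VV F y τ‖ₑ ^ 2 := by gcongr; exact enorm_VV_le hF y τ
    _ = (2 ^ m) ^ 2 * ∫⁻ y, ‖VV F y τ‖ₑ ^ 2 := by
        rw [lintegral_const_mul' _ _ (ENNReal.pow_ne_top (ENNReal.pow_ne_top (by norm_num)))]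
    _ ≤ (2 ^ m) ^ 2 * 2 ^ m := by gcongr; exact VV_L2 hF τ
    _ = 8 ^ m := by
        rw [← pow_mul, ← pow_add, show m * 2 + m = 3 * m by ring, pow_mul]
        norm_num

/-- Fixed time interpolation between `L²` and `L⁴`. -/
lemma VV_Lq {F : EV m → ℂ} (hF : AdmV F) (τ : Fin m → ℝ) {q : ℝ} (hq2 : 2 ≤ q) (hq4 : q ≤ 4) :
    ∫⁻ y, ‖VV F y τ‖ₑ ^ q ≤ (2 ^ m) ^ ((4 - q) / 2) * (JJ F τ) ^ ((q - 2) / 2) := by
  have h1 : ∀ y, ‖VV F y τ‖ₑ ^ q
      = (‖VV F y τ‖ₑ ^ 2) ^ ((4 - q) / 2) * (‖VV F y τ‖ₑ ^ 4) ^ ((q - 2) / 2) := by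
    intro y
    rw [← ENNReal.rpow_natCast, ← ENNReal.rpow_natCast, ← ENNReal.rpow_mul, ← ENNReal.rpow_mul,
      ← ENNReal.rpow_add_of_nonneg]
    · congr 1
      push_cast
      ring
    · push_cast; linarith
    · push_cast; linarith
  simp_rw [h1]
  have hm : Measurable (fun y => ‖VV F y τ‖ₑ) :=
    ((sm_VV hF).comp_measurable (measurable_id.prodMk measurable_const)).enorm
  refine (ENNReal.lintegral_mul_norm_pow_le (hm.pow_const 2).aemeasurable
    (hm.pow_const 4).aemeasurable (by linarith) (by linarith) (by ring)).trans ?_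
  refine mul_le_mul_left ?_ _
  exact ENNReal.rpow_le_rpow (VV_L2 hF τ) (by linarith)

/-- The constant of the mean bound. -/
noncomputable def CM (k : ℕ) (K s κ p : ℝ) : ℝ≥0∞ :=
  (∫⁻ t : ℝ, ENNReal.ofReal ((1 + |t|) ^ (-(s / (κ - 1))))) ^ (κ - 1) *
    (ENNReal.ofReal (2 ^ s) * ((8 ^ (k + 1)) ^ (κ * p) * 2 * ENNReal.ofReal K +
      CJ (k + 1) K (κ * p)))

lemma CM_ne_top (k : ℕ) {K s κ p : ℝ} (hκ1 : 1 < κ) (hκs : κ - 1 < s) (ha : 1 < κ * p) :
    CM k K s κ p ≠ ∞ := by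
  unfold CM
  apply ENNReal.mul_ne_top
  · apply ENNReal.rpow_ne_top_of_nonneg (by linarith)
    have h1 : Integrable (fun t : ℝ => (1 + ‖t‖) ^ (-(s / (κ - 1)))) := by
      apply integrable_one_add_norm
      simp only [Module.finrank_self, Nat.cast_one]
      rw [lt_div_iff₀ (by linarith)]
      linarith
    exact (h1.lintegral_lt_top).ne
  · apply ENNReal.mul_ne_top ENNReal.ofReal_ne_top
    apply ENNReal.add_ne_top.2 ⟨?_, CJ_ne_top _ _ ha⟩
    apply ENNReal.mul_ne_top _ ENNReal.ofReal_ne_top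
    apply ENNReal.mul_ne_top _ (by norm_num)
    exact ENNReal.rpow_ne_top_of_nonneg (by linarith) (ENNReal.pow_ne_top (by norm_num))

lemma Frost_univ {ν : Measure (Fin k → ℝ)} {K s : ℝ} (hν : Frost ν K s) :
    ν (Icc 1 2) ≤ ENNReal.ofReal K := by
  have h := hν 1 1 one_pos le_rfl
  rw [Real.one_rpow, mul_one] at h
  refine le_trans (measure_mono ?_) h
  intro x hx
  refine ⟨hx.1, fun j => (hx.2 j).trans ?_⟩
  simp only [Pi.ofNat_apply, Pi.one_apply]
  norm_num

lemma weight_le {s : ℝ} (hs : 0 ≤ s) (t : ℝ) :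
    ENNReal.ofReal ((1 + |t|) ^ s) ≤ ENNReal.ofReal (2 ^ s) *
      (indicator (Icc (-1:ℝ) 1) (fun _ => 1) t + ENNReal.ofReal (|t| ^ s)) := by
  by_cases h : |t| ≤ 1
  · rw [indicator_of_mem (show t ∈ Icc (-1:ℝ) 1 from abs_le.1 h)]
    calc ENNReal.ofReal ((1 + |t|) ^ s) ≤ ENNReal.ofReal (2 ^ s) := by
          apply ENNReal.ofReal_le_ofReal
          exact Real.rpow_le_rpow (by positivity) (by linarith) hs
      _ = ENNReal.ofReal (2 ^ s) * 1 := by rw [mul_one]
      _ ≤ _ := by gcongr; exact le_self_add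
  · push Not at h
    calc ENNReal.ofReal ((1 + |t|) ^ s) ≤ ENNReal.ofReal (2 ^ s * |t| ^ s) := by
          apply ENNReal.ofReal_le_ofReal
          rw [← Real.mul_rpow (by norm_num) (abs_nonneg _)]
          exact Real.rpow_le_rpow (by positivity) (by linarith) hs
      _ = ENNReal.ofReal (2 ^ s) * ENNReal.ofReal (|t| ^ s) := by
          rw [ENNReal.ofReal_mul (by positivity)]
      _ ≤ _ := by gcongr; exact le_add_self

/-- Hölder in time. -/
lemma time_holder {s κ : ℝ} (hκ1 : 1 < κ) {g : ℝ → ℝ≥0∞} (hg : Measurable g) :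
    (∫⁻ t, g t) ^ κ ≤ (∫⁻ t : ℝ, ENNReal.ofReal ((1 + |t|) ^ (-(s / (κ - 1))))) ^ (κ - 1) *
      ∫⁻ t, g t ^ κ * ENNReal.ofReal ((1 + |t|) ^ s) := by
  have hκ0 : 0 < κ := by linarith
  set κ' : ℝ := κ / (κ - 1) with hκ'
  have hpq : κ.HolderConjugate κ' := Real.HolderConjugate.conjExponent hκ1
  have hκ'0 : 0 ≤ κ' := by rw [hκ']; apply div_nonneg <;> linarith
  have hw : ∀ r : ℝ, Measurable (fun t : ℝ => ENNReal.ofReal ((1 + |t|) ^ r)) := by
    intro r
    exact ((measurable_const.add measurable_norm).pow_const r).ennreal_ofReal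
  have hpos : ∀ t : ℝ, 0 < 1 + |t| := fun t => by positivity
  have e1 : ∫⁻ t, g t = ∫⁻ t, ((fun t => g t * ENNReal.ofReal ((1 + |t|) ^ (s / κ))) *
      (fun t : ℝ => ENNReal.ofReal ((1 + |t|) ^ (-(s / κ))))) t := by
    apply lintegral_congr
    intro t
    rw [Pi.mul_apply, mul_assoc, ← ENNReal.ofReal_mul (by have := hpos t; positivity),
      ← Real.rpow_add (hpos t)]
    simp
  have e3 := ENNReal.lintegral_mul_le_Lp_mul_Lq volume hpq (hg.mul (hw (s / κ))).aemeasurable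
    (hw (-(s / κ))).aemeasurable
  rw [e1]
  calc (∫⁻ t, ((fun t => g t * ENNReal.ofReal ((1 + |t|) ^ (s / κ))) *
      (fun t : ℝ => ENNReal.ofReal ((1 + |t|) ^ (-(s / κ))))) t) ^ κ
      ≤ ((∫⁻ t, (g t * ENNReal.ofReal ((1 + |t|) ^ (s / κ))) ^ κ) ^ (1 / κ) *
        (∫⁻ t : ℝ, (ENNReal.ofReal ((1 + |t|) ^ (-(s / κ)))) ^ κ') ^ (1 / κ')) ^ κ :=
        ENNReal.rpow_le_rpow e3 hκ0.le
    _ = _ := by
        rw [ENNReal.mul_rpow_of_nonneg _ _ hκ0.le, ← ENNReal.rpow_mul, ← ENNReal.rpow_mul]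
        have h1 : 1 / κ' * κ = κ - 1 := by
          rw [hκ']; field_simp
        have h2 : 1 / κ * κ = 1 := by field_simp
        rw [h1, h2, ENNReal.rpow_one, mul_comm]
        congr 2
        · congr 1
          ext t
          rw [ENNReal.ofReal_rpow_of_nonneg (by have := hpos t; positivity) hκ'0]
          congr 1
          rw [← Real.rpow_mul (hpos t).le]
          congr 1
          rw [hκ']
          have : κ - 1 ≠ 0 := by linarith
          field_simp
        · ext t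
          rw [ENNReal.mul_rpow_of_nonneg _ _ hκ0.le,
            ENNReal.ofReal_rpow_of_nonneg (by have := hpos t; positivity) hκ0.le]
          congr 2
          rw [← Real.rpow_mul (hpos t).le]
          congr 1
          field_simp

/-- The mean bound. -/
theorem mean_bound {s : ℝ} (hs : 0 ≤ s) {K : ℝ}
    {ν : Measure (Fin k → ℝ)} [IsFiniteMeasure ν] (hν : Frost ν K s)
    {F : EV (k + 1) → ℂ} (hF : AdmV F) {p κ : ℝ} (hκ1 : 1 < κ) (ha : 1 < κ * p) :
    ∫⁻ l in Icc (1 : Fin k → ℝ) 2, (∫⁻ t, (JJ F (tau (t, l))) ^ p) ^ κ ∂ν ≤ CM k K s κ p := by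
  have hJm : Measurable (fun z : ℝ × (Fin k → ℝ) => JJ F (tau z)) :=
    (measurable_JJ hF).comp measurable_tau
  have hp : 0 < p := by
    by_contra hcon
    push Not at hcon
    have : κ * p ≤ 0 := mul_nonpos_of_nonneg_of_nonpos (by linarith) hcon
    linarith
  set W : ℝ≥0∞ := (∫⁻ t : ℝ, ENNReal.ofReal ((1 + |t|) ^ (-(s / (κ - 1))))) ^ (κ - 1) with hW
  have hmw : Measurable (fun t : ℝ => ENNReal.ofReal (|t| ^ s)) :=
    (measurable_norm.pow_const _).ennreal_ofReal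
  have hJa : Measurable (fun z : ℝ × (Fin k → ℝ) => JJ F (tau z) ^ (κ * p)) := hJm.pow_const _
  have step : ∀ l : Fin k → ℝ, (∫⁻ t, (JJ F (tau (t, l))) ^ p) ^ κ ≤
      W * (ENNReal.ofReal (2 ^ s) * ((8 ^ (k + 1)) ^ (κ * p) * 2 +
        ∫⁻ t, JJ F (tau (t, l)) ^ (κ * p) ∂((volume : Measure ℝ).withDensity
          (fun t => ENNReal.ofReal (|t| ^ s))))) := by
    intro l
    have hml : Measurable (fun t : ℝ => JJ F (tau (t, l))) :=
      hJm.comp (measurable_id.prodMk measurable_const)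
    refine (time_holder (s := s) hκ1 (hml.pow_const p)).trans ?_
    refine mul_le_mul_right ?_ _
    have e1 : ∀ t, (JJ F (tau (t, l)) ^ p) ^ κ = JJ F (tau (t, l)) ^ (κ * p) := by
      intro t
      rw [← ENNReal.rpow_mul, mul_comm p κ]
    simp_rw [e1]
    calc ∫⁻ t, JJ F (tau (t, l)) ^ (κ * p) * ENNReal.ofReal ((1 + |t|) ^ s)
        ≤ ∫⁻ t, ENNReal.ofReal (2 ^ s) * (indicator (Icc (-1:ℝ) 1)
            (fun _ => (8 ^ (k + 1)) ^ (κ * p)) t +
            ENNReal.ofReal (|t| ^ s) * JJ F (tau (t, l)) ^ (κ * p)) := by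
          apply lintegral_mono
          intro t
          simp only
          calc JJ F (tau (t, l)) ^ (κ * p) * ENNReal.ofReal ((1 + |t|) ^ s)
              ≤ JJ F (tau (t, l)) ^ (κ * p) * (ENNReal.ofReal (2 ^ s) *
                (indicator (Icc (-1:ℝ) 1) (fun _ => 1) t + ENNReal.ofReal (|t| ^ s))) := by
                gcongr
                exact weight_le hs t
            _ = ENNReal.ofReal (2 ^ s) * (JJ F (tau (t, l)) ^ (κ * p) *
                indicator (Icc (-1:ℝ) 1) (fun _ => 1) t +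
                ENNReal.ofReal (|t| ^ s) * JJ F (tau (t, l)) ^ (κ * p)) := by ring
            _ ≤ _ := by
                gcongr
                by_cases h : t ∈ Icc (-1:ℝ) 1
                · rw [indicator_of_mem h, indicator_of_mem h, mul_one]
                  exact ENNReal.rpow_le_rpow (JJ_le hF _) (by linarith)
                · rw [indicator_of_notMem h, indicator_of_notMem h, mul_zero]
      _ = ENNReal.ofReal (2 ^ s) * ((8 ^ (k + 1)) ^ (κ * p) * 2 +
            ∫⁻ t, ENNReal.ofReal (|t| ^ s) * JJ F (tau (t, l)) ^ (κ * p)) := by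
          rw [lintegral_const_mul' _ _ ENNReal.ofReal_ne_top, lintegral_add_left
            (measurable_const.indicator measurableSet_Icc), lintegral_indicator measurableSet_Icc,
            setLIntegral_const, Real.volume_Icc]
          norm_num
      _ = _ := by
          congr 2
          rw [lintegral_withDensity_eq_lintegral_mul _ hmw (hml.pow_const _)]
          rfl
  have hWm : Measurable (fun l : Fin k → ℝ => ∫⁻ t, JJ F (tau (t, l)) ^ (κ * p)
      ∂((volume : Measure ℝ).withDensity (fun t => ENNReal.ofReal (|t| ^ s)))) :=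
    hJa.lintegral_prod_left'
  calc ∫⁻ l in Icc (1 : Fin k → ℝ) 2, (∫⁻ t, (JJ F (tau (t, l))) ^ p) ^ κ ∂ν
      ≤ ∫⁻ l in Icc (1 : Fin k → ℝ) 2, W * (ENNReal.ofReal (2 ^ s) * ((8 ^ (k + 1)) ^ (κ * p) * 2 +
        ∫⁻ t, JJ F (tau (t, l)) ^ (κ * p) ∂((volume : Measure ℝ).withDensity
          (fun t => ENNReal.ofReal (|t| ^ s))))) ∂ν := lintegral_mono step
    _ = W * (ENNReal.ofReal (2 ^ s) * ((8 ^ (k + 1)) ^ (κ * p) * 2 * ν (Icc 1 2) +
        ∫⁻ z, JJ F (tau z) ^ (κ * p) ∂(muX s ν))) := by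
        have hm1 : Measurable (fun l : Fin k → ℝ => ((8 ^ (k + 1)) ^ (κ * p) * 2 +
            ∫⁻ t, JJ F (tau (t, l)) ^ (κ * p) ∂((volume : Measure ℝ).withDensity
              (fun t => ENNReal.ofReal (|t| ^ s))) : ℝ≥0∞)) := measurable_const.add hWm
        rw [lintegral_const_mul _ (hm1.const_mul _), lintegral_const_mul _ hm1,
          lintegral_add_left measurable_const, setLIntegral_const, muX,
          lintegral_prod_symm _ hJa.aemeasurable]
    _ ≤ W * (ENNReal.ofReal (2 ^ s) * ((8 ^ (k + 1)) ^ (κ * p) * 2 * ENNReal.ofReal K +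
        CJ (k + 1) K (κ * p))) := by
        gcongr
        · exact Frost_univ hν
        · exact JJ_avg hs hν hF ha
    _ = CM k K s κ p := rfl

end Pool.Agent.H.MP_b7167f_an
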