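import Mathlib
import Pool.Agent.H.MP_b7167f_an.Avg5

open MeasureTheory FourierTransform Set
open scoped ENNReal NNReal ComplexConjugate InnerProductSpace

namespace Pool.Agent.H.MP_b7167f_an

variable {n m k : ℕ}

lemma map_scale {D : Fin n → ℝ} (hD : ∀ j, 0 < D j) :
    Measure.map (fun x : Fin n → ℝ => fun j => D j * x j) volume
      = ENNReal.ofReal (∏ j, D j)⁻¹ • (volume : Measure (Fin n → ℝ)) := by
  have hdet : Matrix.det (Matrix.diagonal D) = ∏ j, D j := Matrix.det_diagonal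
  have hpos : 0 < ∏ j, D j := Finset.prod_pos fun j _ => hD j
  have h := Real.map_matrix_volume_pi_eq_smul_volume_pi (M := Matrix.diagonal D)
    (by rw [hdet]; exact hpos.ne')
  rw [hdet, abs_of_pos (inv_pos.2 hpos)] at h
  rw [← h]
  congr 1
  ext x j
  simp [Matrix.mulVec_diagonal]

lemma measurable_scale (D : Fin n → ℝ) :
    Measurable (fun x : Fin n → ℝ => fun j => D j * x j) := by
  apply measurable_pi_lambda
  intro j
  exact (measurable_pi_apply j).const_mul _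

lemma lintegral_scale {D : Fin n → ℝ} (hD : ∀ j, 0 < D j) {h : (Fin n → ℝ) → ℝ≥0∞}
    (hm : Measurable h) :
    ∫⁻ x : Fin n → ℝ, h (fun j => D j * x j) = ENNReal.ofReal (∏ j, D j)⁻¹ * ∫⁻ y, h y := by
  rw [← lintegral_map hm (measurable_scale D), map_scale hD, lintegral_smul_measure, smul_eq_mul]

lemma integral_scale {D : Fin n → ℝ} (hD : ∀ j, 0 < D j) {h : (Fin n → ℝ) → ℂ}
    (hm : Measurable h) :
    ∫ x : Fin n → ℝ, h (fun j => D j * x j) = ((∏ j, D j)⁻¹ : ℝ) • ∫ y, h y := by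
  rw [← integral_map (measurable_scale D).aemeasurable hm.aestronglyMeasurable, map_scale hD,
    integral_smul_measure, ENNReal.toReal_ofReal]
  exact inv_nonneg.2 (Finset.prod_nonneg fun j _ => (hD j).le)

/-- the dilation vector `(1, l_1, …, l_k)` -/
def dil (l : Fin k → ℝ) : Fin (k + 1) → ℝ := Fin.cons 1 l

lemma dil_ge {l : Fin k → ℝ} (hl : l ∈ Icc (1 : Fin k → ℝ) 2) (j : Fin (k + 1)) : 1 ≤ dil l j := by
  unfold dil
  refine Fin.cases ?_ (fun j => ?_) j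
  · simp
  · simpa using hl.1 j

lemma tau_eq (t : ℝ) (l : Fin k → ℝ) (j : Fin (k + 1)) : tau (t, l) j = t / (dil l j) ^ 2 := by
  unfold tau dil
  refine Fin.cases ?_ (fun j => ?_) j
  · simp
  · simp

/-- The function on Euclidean space. -/
def toEV (f : (Fin n → ℝ) → ℂ) : EV n → ℂ := fun η => f (WithLp.ofLp η)

lemma toEV_adm {f : (Fin n → ℝ) → ℂ} (hf : Measurable f) (hb : ∀ ξ, ‖f ξ‖ ≤ 1)
    (hs : ∀ ξ, ξ ∉ cube n → f ξ = 0) : AdmV (toEV f) := by
  refine ⟨?_, fun η => hb _, fun η hη => hs _ fun h => hη fun j => mem_cube.1 h j⟩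
  have hofm : Measurable (fun η : EV n => WithLp.ofLp η) := by fun_prop
  exact hf.comp hofm

lemma extOp_dil {f : (Fin (k + 1) → ℝ) → ℂ} (hf : Measurable f)
    (hs : ∀ ξ, ξ ∉ cube (k + 1) → f ξ = 0) {l : Fin k → ℝ} (hl : l ∈ Icc (1 : Fin k → ℝ) 2)
    (x : Fin (k + 1) → ℝ) (t : ℝ) :
    extOp (k + 1) (fun ξ => f (fun j => dil l j * ξ j)) (x, t)
      = ((∏ j, dil l j)⁻¹ : ℝ) •
        VV (toEV f) (WithLp.toLp 2 (fun j => (dil l j)⁻¹ * x j)) (tau (t, l)) := by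
  have hpos : ∀ j, 0 < dil l j := fun j => lt_of_lt_of_le one_pos (dil_ge hl j)
  set h : (Fin (k + 1) → ℝ) → ℂ := fun η =>
    ch ((∑ j, η j * ((dil l j)⁻¹ * x j)) + ∑ j, η j ^ 2 * tau (t, l) j) * f η with hh
  have hm : Measurable h := by
    apply Measurable.mul
    · exact Continuous.measurable (by fun_prop)
    · exact hf
  rw [extOp_eq_integral]
  have e1 : ∀ ξ : Fin (k + 1) → ℝ, ch ((∑ j, ξ j * x j) + (∑ j, ξ j ^ 2) * t) *
      indicator (cube (k + 1)) (fun ξ => f (fun j => dil l j * ξ j)) ξ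
      = h (fun j => dil l j * ξ j) := by
    intro ξ
    have e2 : indicator (cube (k + 1)) (fun ξ => f (fun j => dil l j * ξ j)) ξ
        = f (fun j => dil l j * ξ j) := by
      by_cases hξ : ξ ∈ cube (k + 1)
      · rw [indicator_of_mem hξ]
      · rw [indicator_of_notMem hξ, hs]
        intro hcon
        apply hξ
        rw [mem_cube] at hcon ⊢
        intro j
        have h1 := abs_le.2 (hcon j)
        rw [abs_mul, abs_of_pos (hpos j)] at h1
        have h2 : |ξ j| ≤ dil l j * |ξ j| := le_mul_of_one_le_left (abs_nonneg _) (dil_ge hl j)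
        exact abs_le.1 (h2.trans h1)
    rw [e2, hh]
    simp only
    congr 2
    rw [Finset.sum_mul]
    congr 1
    · apply Finset.sum_congr rfl
      intro j _
      have := (hpos j).ne'
      field_simp
    · apply Finset.sum_congr rfl
      intro j _
      rw [tau_eq]
      have := (hpos j).ne'
      field_simp
  simp_rw [e1]
  rw [integral_scale hpos hm]
  congr 1
  unfold VV toEV
  rw [← (PiLp.volume_preserving_toLp (Fin (k + 1))).integral_comp
    (MeasurableEquiv.toLp 2 (Fin (k + 1) → ℝ)).measurableEmbedding]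
  congr 1
  ext η
  rw [hh]
  simp only [PiLp.inner_apply, RCLike.inner_apply, conj_trivial, qf]
  congr 3
  apply Finset.sum_congr rfl
  intro j _
  ring

lemma extOp_dil_Lq {f : (Fin (k + 1) → ℝ) → ℂ} (hf : Measurable f) (hb : ∀ ξ, ‖f ξ‖ ≤ 1)
    (hs : ∀ ξ, ξ ∉ cube (k + 1) → f ξ = 0) {l : Fin k → ℝ} (hl : l ∈ Icc (1 : Fin k → ℝ) 2)
    {q : ℝ} (hq : 1 ≤ q) (t : ℝ) :
    ∫⁻ x, ‖extOp (k + 1) (fun ξ => f (fun j => dil l j * ξ j)) (x, t)‖ₑ ^ q
      ≤ ∫⁻ y, ‖VV (toEV f) y (tau (t, l))‖ₑ ^ q := by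
  have hF := toEV_adm hf hb hs
  have hpos : ∀ j, 0 < dil l j := fun j => lt_of_lt_of_le one_pos (dil_ge hl j)
  set P : ℝ := ∏ j, dil l j with hP
  have hP1 : 1 ≤ P := by
    calc (1:ℝ) = ∏ _j : Fin (k + 1), (1:ℝ) := by simp
      _ ≤ P := Finset.prod_le_prod (fun _ _ => zero_le_one) fun j _ => dil_ge hl j
  have hm : Measurable (fun y : EV (k + 1) => ‖VV (toEV f) y (tau (t, l))‖ₑ ^ q) :=
    ((sm_VV hF).comp_measurable (measurable_id.prodMk measurable_const)).enorm.pow_const q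
  have hm2 : Measurable (fun y : Fin (k + 1) → ℝ =>
      ‖VV (toEV f) (WithLp.toLp 2 y) (tau (t, l))‖ₑ ^ q) :=
    hm.comp (PiLp.volume_preserving_toLp (Fin (k + 1))).measurable
  calc ∫⁻ x, ‖extOp (k + 1) (fun ξ => f (fun j => dil l j * ξ j)) (x, t)‖ₑ ^ q
      = ∫⁻ x : Fin (k + 1) → ℝ, ENNReal.ofReal P⁻¹ ^ q *
          ‖VV (toEV f) (WithLp.toLp 2 (fun j => (dil l j)⁻¹ * x j)) (tau (t, l))‖ₑ ^ q := by
        apply lintegral_congr
        intro x
        rw [extOp_dil hf hs hl, enorm_smul, ENNReal.mul_rpow_of_nonneg _ _ (by linarith)]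
        congr 2
        rw [Real.enorm_eq_ofReal (by positivity)]
    _ = ENNReal.ofReal P⁻¹ ^ q * ∫⁻ x : Fin (k + 1) → ℝ,
          ‖VV (toEV f) (WithLp.toLp 2 (fun j => (dil l j)⁻¹ * x j)) (tau (t, l))‖ₑ ^ q := by
        rw [lintegral_const_mul']
        exact ENNReal.rpow_ne_top_of_nonneg (by linarith) ENNReal.ofReal_ne_top
    _ = ENNReal.ofReal P⁻¹ ^ q * (ENNReal.ofReal P * ∫⁻ y : Fin (k + 1) → ℝ,
          ‖VV (toEV f) (WithLp.toLp 2 y) (tau (t, l))‖ₑ ^ q) := by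
        rw [lintegral_scale (D := fun j => (dil l j)⁻¹) (fun j => inv_pos.2 (hpos j)) hm2]
        congr 3
        rw [Finset.prod_inv_distrib, inv_inv]
    _ = (ENNReal.ofReal P⁻¹ ^ q * ENNReal.ofReal P) * ∫⁻ y, ‖VV (toEV f) y (tau (t, l))‖ₑ ^ q := by
        rw [mul_assoc, ← lintegral_EV (fun y => ‖VV (toEV f) y (tau (t, l))‖ₑ ^ q)]
    _ ≤ 1 * ∫⁻ y, ‖VV (toEV f) y (tau (t, l))‖ₑ ^ q := by
        gcongr
        have h1 : ENNReal.ofReal P⁻¹ ≤ 1 := by
          rw [ENNReal.ofReal_le_one]; exact inv_le_one_of_one_le₀ hP1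
        calc ENNReal.ofReal P⁻¹ ^ q * ENNReal.ofReal P ≤ ENNReal.ofReal P⁻¹ ^ (1:ℝ) * ENNReal.ofReal P := by
              gcongr ?_ * _
              exact ENNReal.rpow_le_rpow_of_exponent_ge h1 hq
          _ = 1 := by
              rw [ENNReal.rpow_one, ← ENNReal.ofReal_mul (by positivity),
                inv_mul_cancel₀ (by positivity), ENNReal.ofReal_one]
    _ = _ := one_mul _

/-- The bound for one dilate. -/
lemma one_dilate {f : (Fin (k + 1) → ℝ) → ℂ} (hf : Measurable f) (hb : ∀ ξ, ‖f ξ‖ ≤ 1)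
    (hs : ∀ ξ, ξ ∉ cube (k + 1) → f ξ = 0) {l : Fin k → ℝ} (hl : l ∈ Icc (1 : Fin k → ℝ) 2)
    {q q₁ : ℝ} (hq1 : 2 < q₁) (hq4 : q₁ ≤ 4) (hqq : q₁ ≤ q) :
    ∫⁻ z, ‖extOp (k + 1) (fun ξ => f (fun j => dil l j * ξ j)) z‖ₑ ^ q
      ≤ ((2 ^ (k + 1)) ^ (q - q₁) * (2 ^ (k + 1)) ^ ((4 - q₁) / 2)) *
        ∫⁻ t, (JJ (toEV f) (tau (t, l))) ^ ((q₁ - 2) / 2) := by
  have hF := toEV_adm hf hb hs
  have hne : ((2:ℝ≥0∞) ^ (k + 1)) ≠ ∞ := ENNReal.pow_ne_top (by norm_num)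
  have hfm : Measurable (fun ξ : Fin (k + 1) → ℝ => f (fun j => dil l j * ξ j)) :=
    hf.comp (measurable_scale _)
  have hmeas : AEMeasurable (fun z => ‖extOp (k + 1) (fun ξ => f (fun j => dil l j * ξ j)) z‖ₑ ^ q)
      (volume : Measure ((Fin (k + 1) → ℝ) × ℝ)) :=
    ((sm_extOp hfm).enorm.pow_const q).aemeasurable
  rw [Measure.volume_eq_prod] at hmeas ⊢
  rw [lintegral_prod_symm _ hmeas]
  calc ∫⁻ t, ∫⁻ x, ‖extOp (k + 1) (fun ξ => f (fun j => dil l j * ξ j)) (x, t)‖ₑ ^ q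
      ≤ ∫⁻ t, ((2 ^ (k + 1)) ^ (q - q₁) * (2 ^ (k + 1)) ^ ((4 - q₁) / 2)) *
        (JJ (toEV f) (tau (t, l))) ^ ((q₁ - 2) / 2) := by
        apply lintegral_mono
        intro t
        refine (extOp_dil_Lq hf hb hs hl (by linarith) t).trans ?_
        calc ∫⁻ y, ‖VV (toEV f) y (tau (t, l))‖ₑ ^ q
            ≤ ∫⁻ y, (2 ^ (k + 1)) ^ (q - q₁) * ‖VV (toEV f) y (tau (t, l))‖ₑ ^ q₁ := by
              apply lintegral_mono
              intro y
              simp only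
              calc ‖VV (toEV f) y (tau (t, l))‖ₑ ^ q
                  = ‖VV (toEV f) y (tau (t, l))‖ₑ ^ ((q - q₁) + q₁) := by ring_nf
                _ = ‖VV (toEV f) y (tau (t, l))‖ₑ ^ (q - q₁) *
                    ‖VV (toEV f) y (tau (t, l))‖ₑ ^ q₁ := by
                    rw [ENNReal.rpow_add_of_nonneg _ _ (by linarith) (by linarith)]
                _ ≤ _ := by
                    refine mul_le_mul_left ?_ _
                    exact ENNReal.rpow_le_rpow (enorm_VV_le hF _ _) (by linarith)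
          _ = (2 ^ (k + 1)) ^ (q - q₁) * ∫⁻ y, ‖VV (toEV f) y (tau (t, l))‖ₑ ^ q₁ := by
              rw [lintegral_const_mul']
              exact ENNReal.rpow_ne_top_of_nonneg (by linarith) hne
          _ ≤ (2 ^ (k + 1)) ^ (q - q₁) * ((2 ^ (k + 1)) ^ ((4 - q₁) / 2) *
                (JJ (toEV f) (tau (t, l))) ^ ((q₁ - 2) / 2)) := by
              gcongr
              exact VV_Lq hF _ hq1.le hq4
          _ = ((2 ^ (k + 1)) ^ (q - q₁) * (2 ^ (k + 1)) ^ ((4 - q₁) / 2)) *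
                (JJ (toEV f) (tau (t, l))) ^ ((q₁ - 2) / 2) := (mul_assoc _ _ _).symm
    _ = _ := by
        rw [lintegral_const_mul']
        exact ENNReal.mul_ne_top (ENNReal.rpow_ne_top_of_nonneg (by linarith) hne)
          (ENNReal.rpow_ne_top_of_nonneg (by linarith) hne)

/-- Main theorem in the library form. -/
theorem avg_main (k : ℕ) {s K q r : ℝ} (hs : 0 < s) (hq : 2 + 2 / (1 + s) < q) (hr : 0 < r)
    (hrq : r < (1 + s) * q) :
    ∃ C : ℝ≥0, ∀ ν : Measure (Fin k → ℝ), Frost ν K s →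
      ∀ f : (Fin (k + 1) → ℝ) → ℂ, Measurable f → (∀ ξ, ‖f ξ‖ ≤ 1) →
      (∀ ξ, ξ ∉ cube (k + 1) → f ξ = 0) →
      ∫⁻ l in Icc (1 : Fin k → ℝ) 2,
        (eLpNorm (extOp (k + 1) (fun ξ => f (fun j => dil l j * ξ j)))
          (ENNReal.ofReal q) volume) ^ r ∂ν ≤ C := by
  have hs1 : 0 < 1 + s := by linarith
  have hq2 : 2 < q := lt_trans (by have : 0 < 2 / (1 + s) := by positivity
                                   linarith) hq
  have hq0 : 0 < q := by linarith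
  set q₁ : ℝ := min q 4 with hq₁
  have h1 : 2 + 2 / (1 + s) < q₁ := by
    rw [hq₁, lt_min_iff]
    refine ⟨hq, ?_⟩
    have : 2 / (1 + s) < 2 := by
      rw [div_lt_iff₀ hs1]; linarith
    linarith
  have h2 : 2 < q₁ := lt_trans (by have : 0 < 2 / (1 + s) := by positivity
                                   linarith) h1
  have h4 : q₁ ≤ 4 := min_le_right _ _
  have hqq : q₁ ≤ q := min_le_left _ _
  set p : ℝ := (q₁ - 2) / 2 with hp
  have hp0 : 0 < p := by rw [hp]; linarith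
  have hp1 : p ≤ 1 := by rw [hp]; linarith
  have h5 : 1 / p < 1 + s := by
    rw [div_lt_iff₀ hp0, hp]
    have h6 : 2 / (1 + s) < q₁ - 2 := by linarith
    rw [div_lt_iff₀ hs1] at h6
    nlinarith
  have h6 : r / q < 1 + s := by rw [div_lt_iff₀ hq0]; exact hrq
  obtain ⟨κ, hκ1, hκ2⟩ := exists_between (max_lt h6 h5)
  rw [max_lt_iff] at hκ1
  have hκp : 1 < κ * p := by
    have := hκ1.2
    rwa [div_lt_iff₀ hp0] at this
  have hκ : 1 < κ := by
    have : 1 ≤ 1 / p := by rw [le_div_iff₀ hp0]; linarith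
    linarith [hκ1.2]
  set c : ℝ≥0∞ := ((2 ^ (k + 1)) ^ (q - q₁) * (2 ^ (k + 1)) ^ ((4 - q₁) / 2)) with hc
  have hcne : c ≠ ∞ := by
    have hne : ((2:ℝ≥0∞) ^ (k + 1)) ≠ ∞ := ENNReal.pow_ne_top (by norm_num)
    exact ENNReal.mul_ne_top (ENNReal.rpow_ne_top_of_nonneg (by linarith) hne)
      (ENNReal.rpow_ne_top_of_nonneg (by linarith) hne)
  have hrq0 : 0 < r / q := by positivity
  have hfin : c ^ (r / q) * (ENNReal.ofReal K + CM k K s κ p) ≠ ∞ := by
    apply ENNReal.mul_ne_top (ENNReal.rpow_ne_top_of_nonneg hrq0.le hcne)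
    exact ENNReal.add_ne_top.2 ⟨ENNReal.ofReal_ne_top, CM_ne_top k hκ (by linarith) hκp⟩
  refine ⟨(c ^ (r / q) * (ENNReal.ofReal K + CM k K s κ p)).toNNReal, ?_⟩
  rw [ENNReal.coe_toNNReal hfin]
  intro ν hν f hf hb hsu
  have hF := toEV_adm hf hb hsu
  set ν' : Measure (Fin k → ℝ) := ν.restrict (Icc 1 2) with hν'
  have hfm : IsFiniteMeasure ν' := by
    refine ⟨?_⟩
    rw [hν', Measure.restrict_apply_univ]
    exact (Frost_univ hν).trans_lt ENNReal.ofReal_lt_top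
  have hν'F : Frost ν' K s := fun x ρ h1 h2 => (Measure.restrict_apply_le _ _).trans (hν x ρ h1 h2)
  have hν'' : ν' = ν'.restrict (Icc 1 2) := by
    rw [hν', Measure.restrict_restrict measurableSet_Icc, inter_self]
  rw [hν'']
  have hpt : ∀ l ∈ Icc (1 : Fin k → ℝ) 2,
      (eLpNorm (extOp (k + 1) (fun ξ => f (fun j => dil l j * ξ j)))
          (ENNReal.ofReal q) volume) ^ r ≤ c ^ (r / q) *
        (1 + (∫⁻ t, (JJ (toEV f) (tau (t, l))) ^ p) ^ κ) := by
    intro l hl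
    rw [eLpNorm_eq_lintegral_rpow_enorm_toReal (by simpa using hq0) ENNReal.ofReal_ne_top,
      ENNReal.toReal_ofReal hq0.le, ← ENNReal.rpow_mul]
    have e1 : 1 / q * r = r / q := by ring
    rw [e1]
    calc (∫⁻ z, ‖extOp (k + 1) (fun ξ => f (fun j => dil l j * ξ j)) z‖ₑ ^ q) ^ (r / q)
        ≤ (c * ∫⁻ t, (JJ (toEV f) (tau (t, l))) ^ p) ^ (r / q) :=
          ENNReal.rpow_le_rpow (one_dilate hf hb hsu hl h2 h4 hqq) hrq0.le
      _ = c ^ (r / q) * (∫⁻ t, (JJ (toEV f) (tau (t, l))) ^ p) ^ (r / q) :=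
          ENNReal.mul_rpow_of_nonneg _ _ hrq0.le
      _ ≤ _ := by
          gcongr
          rcases le_total (∫⁻ t, (JJ (toEV f) (tau (t, l))) ^ p) 1 with h | h
          · exact (ENNReal.rpow_le_one h hrq0.le).trans le_self_add
          · exact (ENNReal.rpow_le_rpow_of_exponent_le h hκ1.1.le).trans le_add_self
  have hJm : Measurable (fun z : ℝ × (Fin k → ℝ) => (JJ (toEV f) (tau z)) ^ p) :=
    ((measurable_JJ hF).comp measurable_tau).pow_const _
  have hIm : Measurable (fun l : Fin k → ℝ =>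
      (∫⁻ t, (JJ (toEV f) (tau (t, l))) ^ p) ^ κ) := hJm.lintegral_prod_left'.pow_const κ
  calc ∫⁻ l in Icc (1 : Fin k → ℝ) 2,
        (eLpNorm (extOp (k + 1) (fun ξ => f (fun j => dil l j * ξ j)))
          (ENNReal.ofReal q) volume) ^ r ∂ν'
      ≤ ∫⁻ l in Icc (1 : Fin k → ℝ) 2, c ^ (r / q) *
        (1 + (∫⁻ t, (JJ (toEV f) (tau (t, l))) ^ p) ^ κ) ∂ν' :=
        setLIntegral_mono' measurableSet_Icc hpt
    _ = c ^ (r / q) * (ν' (Icc 1 2) + ∫⁻ l in Icc (1 : Fin k → ℝ) 2,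
          (∫⁻ t, (JJ (toEV f) (tau (t, l))) ^ p) ^ κ ∂ν') := by
        rw [lintegral_const_mul' _ _ (ENNReal.rpow_ne_top_of_nonneg hrq0.le hcne),
          lintegral_add_left measurable_const, setLIntegral_const, one_mul]
    _ ≤ c ^ (r / q) * (ENNReal.ofReal K + CM k K s κ p) := by
        gcongr
        · exact Frost_univ hν'F
        · exact mean_bound hs.le hν'F hF hκ hκp

end Pool.Agent.H.MP_b7167f_an
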