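import Mathlib
import Pool.Agent.H.MP_b7167f_an.CubeSlice

open MeasureTheory FourierTransform Set
open scoped ENNReal NNReal ComplexConjugate InnerProductSpace

namespace Pool.Agent.H.MP_b7167f_an

universe v

section OneD

variable {H : Type*} [NormedAddCommGroup H] [InnerProductSpace ℂ H] [CompleteSpace H]

/-- Plancherel in `x` at fixed time for bounded data supported in `[-1,1]`. -/
lemma Uop_L2' {w : ℝ → H} (hw : StronglyMeasurable w) {C : ℝ} (hb : ∀ s, ‖w s‖ ≤ C)
    (hs : ∀ s, s ∉ Icc (-1:ℝ) 1 → w s = 0) (t : ℝ) :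
    ∫⁻ x, ‖Uop w x t‖ₑ ^ 2 = ∫⁻ s, ‖w s‖ₑ ^ 2 := by
  have hm : AEStronglyMeasurable (fun s => ch (s ^ 2 * t) • w s) :=
    (Continuous.stronglyMeasurable (by fun_prop)).aestronglyMeasurable.smul
      hw.aestronglyMeasurable
  have hb' : ∀ s, ‖ch (s ^ 2 * t) • w s‖ ≤ C := by
    intro s; rw [norm_smul, norm_ch, one_mul]; exact hb s
  have hs' : ∀ s, s ∉ Icc (-1:ℝ) 1 → ch (s ^ 2 * t) • w s = 0 := by
    intro s h; rw [hs s h, smul_zero]
  simp_rw [Uop_eq_fourier]
  rw [lintegral_comp_neg' (fun x => ‖𝓕 (fun s => ch (s ^ 2 * t) • w s) x‖ₑ ^ 2),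
    plancherel (integrable_of_supp hm hb' hs') (memLp_of_supp hm hb' hs' 2)]
  congr 1
  ext s
  rw [enorm_smul, enorm_ch, one_mul]

/-- Supremum bound at fixed time in terms of the `L⁴` norm. -/
lemma Uop_sup {v : ℝ → H} (hv : Adm v) (x t : ℝ) :
    ‖Uop v x t‖ₑ ^ 2 ≤ 2 * (Lop v t) ^ (1 / 2 : ℝ) := by
  have h1 : ‖Uop v x t‖ₑ ^ 2 = ‖𝓕 (fun z => Kop v z t) (-x)‖ₑ := by
    rw [← norm_sq_Uop hv, ← ofReal_norm, ← ofReal_norm, Complex.norm_real, Real.norm_eq_abs,
      abs_of_nonneg (by positivity), ENNReal.ofReal_pow (norm_nonneg _)]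
  have h2 : ‖𝓕 (fun z => Kop v z t) (-x)‖ₑ ≤ ∫⁻ z in Icc (-2:ℝ) 2, ‖Kop v z t‖ₑ := by
    rw [fourier_eq_ch]
    refine (enorm_integral_le_lintegral_enorm _).trans (le_of_eq ?_)
    rw [← lintegral_indicator measurableSet_Icc]
    congr 1
    ext z
    by_cases h : z ∈ Icc (-2:ℝ) 2
    · rw [indicator_of_mem h, enorm_smul, enorm_ch, one_mul]
    · rw [indicator_of_notMem h, Kop_supp hv z t h, smul_zero, enorm_zero]
  have hmK : Measurable (fun z => ‖Kop v z t‖ₑ) := (Kop_zmeas hv t).measurable.enorm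
  have h3 := ENNReal.lintegral_mul_le_Lp_mul_Lq (volume.restrict (Icc (-2:ℝ) 2))
    (p := 2) (q := 2) (Real.HolderConjugate.two_two)
    (f := fun _ => (1:ℝ≥0∞)) (g := fun z => ‖Kop v z t‖ₑ) aemeasurable_const hmK.aemeasurable
  have h4 : ∫⁻ z in Icc (-2:ℝ) 2, ‖Kop v z t‖ₑ
      = ∫⁻ z in Icc (-2:ℝ) 2, (((fun _ : ℝ => (1:ℝ≥0∞)) * (fun z : ℝ => ‖Kop v z t‖ₑ) :
        ℝ → ℝ≥0∞)) z := by
    simp
  have h5 : (∫⁻ z in Icc (-2:ℝ) 2, (1:ℝ≥0∞) ^ (2:ℝ)) ^ (1 / (2:ℝ)) = 2 := by
    have e1 : (∫⁻ z in Icc (-2:ℝ) 2, (1:ℝ≥0∞) ^ (2:ℝ)) = (2:ℝ≥0∞) ^ (2:ℝ) := by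
      simp
      norm_num
    rw [e1, ← ENNReal.rpow_mul]
    norm_num
  have h6 : (∫⁻ z in Icc (-2:ℝ) 2, ‖Kop v z t‖ₑ ^ (2:ℝ)) = Lop v t := by
    rw [Lop, Uop_L4 hv, ← lintegral_indicator measurableSet_Icc]
    congr 1
    ext z
    by_cases h : z ∈ Icc (-2:ℝ) 2
    · rw [indicator_of_mem h]; norm_num
    · rw [indicator_of_notMem h, Kop_supp hv z t h]; simp
  rw [h1]
  refine h2.trans ?_
  rw [h4]
  refine h3.trans (le_of_eq ?_)
  rw [h5, h6]

/-- Fixed time `L^Q` bound, `Q ≥ 4`. -/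
lemma Uop_LQ {v : ℝ → H} (hv : Adm v) (t : ℝ) {Q : ℝ} (hQ : 4 ≤ Q) :
    ∫⁻ x, ‖Uop v x t‖ₑ ^ Q ≤ 2 ^ ((Q - 4) / 2) * (Lop v t) ^ (Q / 4) := by
  have h1 : ∀ x, ‖Uop v x t‖ₑ ^ Q
      ≤ (2 * (Lop v t) ^ (1 / 2 : ℝ)) ^ ((Q - 4) / 2) * ‖Uop v x t‖ₑ ^ 4 := by
    intro x
    have : ‖Uop v x t‖ₑ ^ Q = (‖Uop v x t‖ₑ ^ 2) ^ ((Q - 4) / 2) * ‖Uop v x t‖ₑ ^ 4 := by
      rw [← ENNReal.rpow_natCast, ← ENNReal.rpow_natCast, ← ENNReal.rpow_mul,
        ← ENNReal.rpow_add_of_nonneg]
      · congr 1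
        push_cast
        ring
      · push_cast; linarith
      · push_cast; linarith
    rw [this]
    gcongr
    exact Uop_sup hv x t
  calc ∫⁻ x, ‖Uop v x t‖ₑ ^ Q
      ≤ ∫⁻ x, (2 * (Lop v t) ^ (1 / 2 : ℝ)) ^ ((Q - 4) / 2) * ‖Uop v x t‖ₑ ^ 4 :=
        lintegral_mono h1
    _ = (2 * (Lop v t) ^ (1 / 2 : ℝ)) ^ ((Q - 4) / 2) * Lop v t := by
        rw [lintegral_const_mul, Lop]
        have hm := measurable_enorm_Uop_x hv t 1
        simp only [ENNReal.rpow_one] at hm
        exact hm.pow_const 4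
    _ = 2 ^ ((Q - 4) / 2) * (Lop v t) ^ (Q / 4) := by
        rw [ENNReal.mul_rpow_of_nonneg _ _ (by linarith), ← ENNReal.rpow_mul, mul_assoc]
        congr 1
        conv_lhs => rw [← ENNReal.rpow_one (Lop v t)]
        rw [← ENNReal.rpow_mul, ← ENNReal.rpow_add_of_nonneg]
        · congr 1
          ring
        · have : 0 ≤ (Q - 4) / 2 := by linarith
          positivity
        · norm_num

end OneD

/-- Plancherel for multilinear maps applied to one-variable extensions. -/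
theorem plancherel_form {n : ℕ} {H : Fin n → Type*} [∀ i, NormedAddCommGroup (H i)]
    [∀ i, InnerProductSpace ℂ (H i)] [∀ i, CompleteSpace (H i)]
    {G : Type*} [NormedAddCommGroup G] [InnerProductSpace ℂ G] [CompleteSpace G]
    (T : ContinuousMultilinearMap ℂ H G) {v : ∀ i, ℝ → H i} (hv : ∀ i, Adm (v i)) (t : ℝ) :
    ∫⁻ x : Fin n → ℝ, ‖T (fun i => Uop (v i) (x i) t)‖ₑ ^ 2
      = ∫⁻ ξ : Fin n → ℝ, ‖T (fun i => v i (ξ i))‖ₑ ^ 2 := by
  induction n with
  | zero =>
    congr 1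
    ext x
    congr 3
    ext i
    exact Fin.elim0 i
  | succ n ih =>
    have h := (volume_preserving_piFinSuccAbove (fun _ : Fin (n + 1) => ℝ) 0).symm
    rw [← h.lintegral_comp_emb (MeasurableEquiv.measurableEmbedding _)
        (fun x => ‖T (fun i => Uop (v i) (x i) t)‖ₑ ^ 2),
      ← h.lintegral_comp_emb (MeasurableEquiv.measurableEmbedding _)
        (fun ξ => ‖T (fun i => v i (ξ i))‖ₑ ^ 2)]
    have key : ∀ (g : ∀ i : Fin (n + 1), ℝ → H i) (p : ℝ × (Fin n → ℝ)),
        T (fun i => g i ((MeasurableEquiv.piFinSuccAbove (fun _ : Fin (n + 1) => ℝ) 0).symm p i))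
        = T.curryLeft (g 0 p.1) (fun i : Fin n => g i.succ (p.2 i)) := by
      intro g p
      rw [ContinuousMultilinearMap.curryLeft_apply]
      congr 1
      ext i
      refine Fin.cases ?_ (fun j => ?_) i
      · simp [MeasurableEquiv.piFinSuccAbove_symm_apply, Fin.insertNthEquiv]
      · simp [MeasurableEquiv.piFinSuccAbove_symm_apply, Fin.insertNthEquiv]
    have k1 : ∀ p : ℝ × (Fin n → ℝ), T (fun i => Uop (v i)
        ((MeasurableEquiv.piFinSuccAbove (fun _ : Fin (n + 1) => ℝ) 0).symm p i) t)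
        = T.curryLeft (Uop (v 0) p.1 t) (fun i : Fin n => Uop (v i.succ) (p.2 i) t) :=
      fun p => key (fun i s => Uop (v i) s t) p
    have k2 := key v
    simp_rw [k1, k2]
    have smU : ∀ i, StronglyMeasurable (fun s : ℝ => Uop (v i) s t) := fun i => by
      have hmm : Measurable (fun s : ℝ => ((s, t) : ℝ × ℝ)) := by fun_prop
      exact (sm_Uop (hv i)).comp_measurable hmm
    have smT : ∀ (g g' : ∀ i : Fin (n + 1), ℝ → H i), (∀ i, StronglyMeasurable (g i)) →
        Measurable (fun p : ℝ × (Fin n → ℝ) =>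
          ‖T.curryLeft (g 0 p.1) (fun i : Fin n => g i.succ (p.2 i))‖ₑ ^ 2) := by
      intro g _ hg
      have h1 : StronglyMeasurable (fun p : ℝ × (Fin n → ℝ) =>
          T (fun i => g i ((MeasurableEquiv.piFinSuccAbove (fun _ : Fin (n + 1) => ℝ) 0).symm p i))) := by
        apply T.cont.comp_stronglyMeasurable
        apply stronglyMeasurable_pi'
        intro i
        exact (hg i).comp_measurable
          ((measurable_pi_apply i).comp (MeasurableEquiv.measurable _))
      simp_rw [key g] at h1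
      exact h1.enorm.pow_const 2
    rw [Measure.volume_eq_prod, lintegral_prod _ (smT (fun i s => Uop (v i) s t) v smU).aemeasurable,
      lintegral_prod_symm _ (smT v v (fun i => (hv i).sm)).aemeasurable]
    have e1 : ∀ s : ℝ, ∫⁻ y : Fin n → ℝ,
        ‖T.curryLeft (Uop (v 0) s t) (fun i : Fin n => Uop (v i.succ) (y i) t)‖ₑ ^ 2
        = ∫⁻ y : Fin n → ℝ, ‖T.curryLeft (Uop (v 0) s t) (fun i : Fin n => v i.succ (y i))‖ₑ ^ 2 :=
      fun s => ih (H := fun i => H i.succ) (T.curryLeft (Uop (v 0) s t)) (fun i => hv i.succ)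
    simp_rw [e1]
    rw [lintegral_lintegral_swap]
    · congr 1
      ext y
      set L : H 0 →L[ℂ] G := (ContinuousMultilinearMap.apply ℂ (fun i : Fin n => H i.succ) G
        (fun i : Fin n => v i.succ (y i))).comp T.curryLeft with hL
      have hLapp : ∀ z, T.curryLeft z (fun i : Fin n => v i.succ (y i)) = L z := fun z => rfl
      simp_rw [hLapp]
      have hint : ∀ x, Integrable (fun s : ℝ => ch (s * x + s ^ 2 * t) • v 0 s) := by
        intro x
        apply integrable_of_supp (R := 1) (C := 1)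
        · apply AEStronglyMeasurable.smul
          · exact Continuous.aestronglyMeasurable (by fun_prop)
          · exact (hv 0).sm.aestronglyMeasurable
        · intro s; rw [norm_smul, norm_ch, one_mul]; exact (hv 0).bd s
        · intro s hs; rw [(hv 0).supp s hs, smul_zero]
      have e2 : ∀ x, L (Uop (v 0) x t) = Uop (fun s => L (v 0 s)) x t := by
        intro x
        unfold Uop
        rw [← L.integral_comp_comm (hint x)]
        congr 1
        ext s
        rw [map_smul]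
      simp_rw [e2]
      apply Uop_L2' (C := ‖L‖) (L.continuous.comp_stronglyMeasurable (hv 0).sm)
      · intro s
        calc ‖L (v 0 s)‖ ≤ ‖L‖ * ‖v 0 s‖ := L.le_opNorm _
          _ ≤ ‖L‖ * 1 := by gcongr; exact (hv 0).bd s
          _ = ‖L‖ := mul_one _
      · intro s hs
        rw [(hv 0).supp s hs, map_zero]
    · apply Measurable.aemeasurable
      have hg : ∀ i, StronglyMeasurable
          ((fun (i : Fin (n + 1)) (s : ℝ) => if i = 0 then Uop (v i) s t else v i s) i) := by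
        intro i
        by_cases h : i = 0
        · simp only [if_pos h]; exact smU i
        · simp only [if_neg h]; exact (hv i).sm
      have h2 := smT (fun (i : Fin (n + 1)) (s : ℝ) => if i = 0 then Uop (v i) s t else v i s) v hg
      simp only [if_true, Fin.succ_ne_zero, if_false] at h2
      exact h2

/-- Weighted Plancherel inequality: integrating out all variables but the `l`-th one. -/
theorem form_weight {n : ℕ} {H : Fin n → Type v} [∀ i, NormedAddCommGroup (H i)]
    [∀ i, InnerProductSpace ℂ (H i)] [∀ i, CompleteSpace (H i)]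
    (T : ContinuousMultilinearMap ℂ H ℂ) {v : ∀ i, ℝ → H i} (hv : ∀ i, Adm (v i)) (t : ℝ)
    (l : Fin n) {K : ℝ≥0∞}
    (hK : ∀ h : H l, ∫⁻ ξ in cube n, ‖T (Function.update (fun i => v i (ξ i)) l h)‖ₑ ^ 2
      ≤ K * ‖h‖ₑ ^ 2)
    {w : ℝ → ℝ≥0∞} (hw : Measurable w) :
    ∫⁻ x : Fin n → ℝ, w (x l) * ‖T (fun i => Uop (v i) (x i) t)‖ₑ ^ 2
      ≤ K * ∫⁻ s, w s * ‖Uop (v l) s t‖ₑ ^ 2 := by
  cases n with
  | zero => exact Fin.elim0 l
  | succ m =>
    have h := (volume_preserving_piFinSuccAbove (fun _ : Fin (m + 1) => ℝ) l).symm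
    rw [← h.lintegral_comp_emb (MeasurableEquiv.measurableEmbedding _)
        (fun x => w (x l) * ‖T (fun i => Uop (v i) (x i) t)‖ₑ ^ 2)]
    have key : ∀ (g : ∀ i : Fin (m + 1), ℝ → H i) (p : ℝ × (Fin m → ℝ)),
        T (fun i => g i ((MeasurableEquiv.piFinSuccAbove (fun _ : Fin (m + 1) => ℝ) l).symm p i))
        = T.curryMid l (g l p.1) (fun i : Fin m => g (l.succAbove i) (p.2 i)) := by
      intro g p
      rw [ContinuousMultilinearMap.curryMid_apply]
      congr 1
      ext i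
      refine Fin.succAboveCases l ?_ (fun j => ?_) i
      · simp [MeasurableEquiv.piFinSuccAbove_symm_apply, Fin.insertNthEquiv]
      · simp [MeasurableEquiv.piFinSuccAbove_symm_apply, Fin.insertNthEquiv]
    have k0 : ∀ p : ℝ × (Fin m → ℝ),
        (MeasurableEquiv.piFinSuccAbove (fun _ : Fin (m + 1) => ℝ) l).symm p l = p.1 := by
      intro p
      simp [MeasurableEquiv.piFinSuccAbove_symm_apply, Fin.insertNthEquiv]
    have k1 : ∀ p : ℝ × (Fin m → ℝ), T (fun i => Uop (v i)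
        ((MeasurableEquiv.piFinSuccAbove (fun _ : Fin (m + 1) => ℝ) l).symm p i) t)
        = T.curryMid l (Uop (v l) p.1 t) (fun i : Fin m => Uop (v (l.succAbove i)) (p.2 i) t) :=
      fun p => key (fun i s => Uop (v i) s t) p
    simp_rw [k0, k1]
    have smU : ∀ i, StronglyMeasurable (fun s : ℝ => Uop (v i) s t) := fun i => by
      have hmm : Measurable (fun s : ℝ => ((s, t) : ℝ × ℝ)) := by fun_prop
      exact (sm_Uop (hv i)).comp_measurable hmm
    have hmeas : Measurable (fun p : ℝ × (Fin m → ℝ) => w p.1 *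
        ‖T.curryMid l (Uop (v l) p.1 t) (fun i : Fin m => Uop (v (l.succAbove i)) (p.2 i) t)‖ₑ ^ 2) := by
      apply (hw.comp measurable_fst).mul
      have h1 : StronglyMeasurable (fun p : ℝ × (Fin m → ℝ) =>
          T (fun i => Uop (v i)
            ((MeasurableEquiv.piFinSuccAbove (fun _ : Fin (m + 1) => ℝ) l).symm p i) t)) := by
        apply T.cont.comp_stronglyMeasurable
        apply stronglyMeasurable_pi'
        intro i
        exact (smU i).comp_measurable ((measurable_pi_apply i).comp (MeasurableEquiv.measurable _))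
      simp_rw [k1] at h1
      exact h1.enorm.pow_const 2
    rw [Measure.volume_eq_prod, lintegral_prod _ hmeas.aemeasurable]
    rw [← lintegral_const_mul'' _ (by
      apply Measurable.aemeasurable
      exact hw.mul ((smU l).enorm.pow_const 2))]
    apply lintegral_mono
    intro s
    simp only
    have hms : Measurable (fun y : Fin m → ℝ => ‖T.curryMid l (Uop (v l) s t)
        (fun i : Fin m => Uop (v (l.succAbove i)) (y i) t)‖ₑ ^ 2) := by
      apply Measurable.pow_const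
      apply StronglyMeasurable.enorm
      apply (T.curryMid l (Uop (v l) s t)).cont.comp_stronglyMeasurable
      apply stronglyMeasurable_pi'
      intro i
      exact (smU _).comp_measurable (measurable_pi_apply i)
    rw [lintegral_const_mul _ hms, mul_left_comm]
    apply mul_le_mul_right
    rw [plancherel_form (T.curryMid l (Uop (v l) s t)) (fun i => hv (l.succAbove i)) t]
    refine le_trans ?_ (hK (Uop (v l) s t))
    -- compare with the integral over the full cube
    set z := Uop (v l) s t with hz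
    have h2 : ∫⁻ ξ in cube (m + 1), ‖T (Function.update (fun i => v i (ξ i)) l z)‖ₑ ^ 2
        = ∫⁻ p : ℝ × (Fin m → ℝ), (cube (m + 1)).indicator
          (fun ξ => ‖T (Function.update (fun i => v i (ξ i)) l z)‖ₑ ^ 2)
          ((MeasurableEquiv.piFinSuccAbove (fun _ : Fin (m + 1) => ℝ) l).symm p) := by
      rw [← lintegral_indicator measurableSet_cube,
        ← h.lintegral_comp_emb (MeasurableEquiv.measurableEmbedding _)]
    have k2 : ∀ p : ℝ × (Fin m → ℝ), (cube (m + 1)).indicator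
          (fun ξ => ‖T (Function.update (fun i => v i (ξ i)) l z)‖ₑ ^ 2)
          ((MeasurableEquiv.piFinSuccAbove (fun _ : Fin (m + 1) => ℝ) l).symm p)
        = (Icc (-1:ℝ) 1).indicator (fun _ => (1:ℝ≥0∞)) p.1 *
          ‖T.curryMid l z (fun i : Fin m => v (l.succAbove i) (p.2 i))‖ₑ ^ 2 := by
      intro p
      have e1 : (MeasurableEquiv.piFinSuccAbove (fun _ : Fin (m + 1) => ℝ) l).symm p
          = l.insertNth p.1 p.2 := by
        simp [MeasurableEquiv.piFinSuccAbove_symm_apply, Fin.insertNthEquiv]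
      rw [e1]
      have e2 : T (Function.update (fun i => v i ((l.insertNth p.1 p.2 : Fin (m + 1) → ℝ) i)) l z)
          = T.curryMid l z (fun i : Fin m => v (l.succAbove i) (p.2 i)) := by
        rw [ContinuousMultilinearMap.curryMid_apply]
        congr 1
        ext i
        refine Fin.succAboveCases l ?_ (fun j => ?_) i
        · simp
        · simp
      by_cases h1 : p.1 ∈ Icc (-1:ℝ) 1
      · rw [indicator_of_mem h1, one_mul]
        by_cases h2 : p.2 ∈ cube m
        · rw [indicator_of_mem, e2]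
          rw [mem_cube]
          intro i
          refine Fin.succAboveCases l ?_ (fun j => ?_) i
          · rw [Fin.insertNth_apply_same]; exact h1
          · rw [Fin.insertNth_apply_succAbove]; exact mem_cube.1 h2 j
        · rw [indicator_of_notMem]
          · have : ∃ j, p.2 j ∉ Icc (-1:ℝ) 1 := by
              by_contra hcon
              push Not at hcon
              exact h2 (mem_cube.2 hcon)
            obtain ⟨j, hj⟩ := this
            rw [ContinuousMultilinearMap.map_coord_zero _ j ((hv _).supp _ hj)]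
            simp
          · intro hcon
            apply h2
            rw [mem_cube]
            intro j
            have := mem_cube.1 hcon (l.succAbove j)
            rwa [Fin.insertNth_apply_succAbove] at this
      · rw [indicator_of_notMem h1, zero_mul, indicator_of_notMem]
        intro hcon
        have := mem_cube.1 hcon l
        rw [Fin.insertNth_apply_same] at this
        exact h1 this
    rw [h2]
    simp_rw [k2]
    have hm2 : Measurable (fun y : Fin m → ℝ =>
        ‖T.curryMid l z (fun i : Fin m => v (l.succAbove i) (y i))‖ₑ ^ 2) := by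
      apply Measurable.pow_const
      apply StronglyMeasurable.enorm
      apply (T.curryMid l z).cont.comp_stronglyMeasurable
      apply stronglyMeasurable_pi'
      intro i
      exact (hv _).sm.comp_measurable (measurable_pi_apply i)
    rw [Measure.volume_eq_prod, lintegral_prod_mul
      (f := fun s : ℝ => (Icc (-1:ℝ) 1).indicator (fun _ => (1:ℝ≥0∞)) s)
      (measurable_const.indicator measurableSet_Icc).aemeasurable hm2.aemeasurable]
    rw [lintegral_indicator measurableSet_Icc]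
    simp only [lintegral_const, MeasurableSet.univ, Measure.restrict_apply, univ_inter,
      Real.volume_Icc, one_mul]
    refine le_mul_of_one_le_left zero_le ?_
    norm_num

/-- Fixed time bound for a multilinear form. -/
theorem form_time {n : ℕ} (hn : 0 < n) {H : Fin n → Type v} [∀ i, NormedAddCommGroup (H i)]
    [∀ i, InnerProductSpace ℂ (H i)] [∀ i, CompleteSpace (H i)]
    (T : ContinuousMultilinearMap ℂ H ℂ) {v : ∀ i, ℝ → H i} (hv : ∀ i, Adm (v i)) (t : ℝ)
    {K : Fin n → ℝ≥0∞}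
    (hK : ∀ l, ∀ h : H l, ∫⁻ ξ in cube n, ‖T (Function.update (fun i => v i (ξ i)) l h)‖ₑ ^ 2
      ≤ K l * ‖h‖ₑ ^ 2) {q : ℝ} (hq : 2 ≤ q) (hQ : 4 ≤ 2 + n * (q - 2)) :
    ∫⁻ x : Fin n → ℝ, ‖T (fun i => Uop (v i) (x i) t)‖ₑ ^ q
      ≤ ‖T‖ₑ ^ (q - 2) * ∏ l, (K l * (2 ^ ((2 + n * (q - 2) - 4) / 2) *
        (Lop (v l) t) ^ ((2 + n * (q - 2)) / 4))) ^ (1 / n : ℝ) := by
  have hn' : (0:ℝ) < n := by exact_mod_cast hn
  set r : ℝ := q - 2 with hr
  have hr0 : 0 ≤ r := by linarith
  have smU : ∀ i, StronglyMeasurable (fun s : ℝ => Uop (v i) s t) := fun i => by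
    have hmm : Measurable (fun s : ℝ => ((s, t) : ℝ × ℝ)) := by fun_prop
    exact (sm_Uop (hv i)).comp_measurable hmm
  have smT : StronglyMeasurable (fun x : Fin n → ℝ => T (fun i => Uop (v i) (x i) t)) := by
    apply T.cont.comp_stronglyMeasurable
    apply stronglyMeasurable_pi'
    intro i
    exact (smU i).comp_measurable (measurable_pi_apply i)
  have hpt : ∀ x : Fin n → ℝ, ‖T (fun i => Uop (v i) (x i) t)‖ₑ ^ q
      ≤ ‖T‖ₑ ^ r * ∏ l, (‖Uop (v l) (x l) t‖ₑ ^ (n * r) *
        ‖T (fun i => Uop (v i) (x i) t)‖ₑ ^ 2) ^ (1 / n : ℝ) := by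
    intro x
    set A := ‖T (fun i => Uop (v i) (x i) t)‖ₑ with hA
    have h1 : A ≤ ‖T‖ₑ * ∏ l, ‖Uop (v l) (x l) t‖ₑ := by
      have := T.le_opNorm (fun i => Uop (v i) (x i) t)
      rw [hA, ← ofReal_norm, ← ofReal_norm]
      simp_rw [← ofReal_norm]
      rw [← ENNReal.ofReal_prod_of_nonneg (fun _ _ => norm_nonneg _),
        ← ENNReal.ofReal_mul (norm_nonneg _)]
      exact ENNReal.ofReal_le_ofReal this
    have h2 : A ^ q = A ^ r * A ^ 2 := by
      rw [← ENNReal.rpow_natCast, ← ENNReal.rpow_add_of_nonneg _ _ hr0 (by norm_num)]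
      congr 1
      rw [hr]; push_cast; ring
    have h3 : ∏ l : Fin n, (‖Uop (v l) (x l) t‖ₑ ^ (n * r) * A ^ 2) ^ (1 / n : ℝ)
        = (∏ l, ‖Uop (v l) (x l) t‖ₑ) ^ r * A ^ 2 := by
      have : ∀ l : Fin n, (‖Uop (v l) (x l) t‖ₑ ^ (n * r) * A ^ 2) ^ (1 / n : ℝ)
          = ‖Uop (v l) (x l) t‖ₑ ^ r * (A ^ 2) ^ (1 / n : ℝ) := by
        intro l
        rw [ENNReal.mul_rpow_of_nonneg _ _ (by positivity), ← ENNReal.rpow_mul]
        congr 2
        field_simp
      simp_rw [this]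
      rw [Finset.prod_mul_distrib, Finset.prod_const, Finset.card_univ, Fintype.card_fin,
        ← ENNReal.rpow_natCast, ← ENNReal.rpow_mul, one_div, inv_mul_cancel₀ hn'.ne',
        ENNReal.rpow_one, ENNReal.prod_rpow_of_nonneg hr0]
    rw [h2, h3, ← mul_assoc, ← ENNReal.mul_rpow_of_nonneg _ _ hr0]
    gcongr
  calc ∫⁻ x : Fin n → ℝ, ‖T (fun i => Uop (v i) (x i) t)‖ₑ ^ q
      ≤ ∫⁻ x : Fin n → ℝ, ‖T‖ₑ ^ r * ∏ l, (‖Uop (v l) (x l) t‖ₑ ^ (n * r) *
        ‖T (fun i => Uop (v i) (x i) t)‖ₑ ^ 2) ^ (1 / n : ℝ) := lintegral_mono hpt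
    _ = ‖T‖ₑ ^ r * ∫⁻ x : Fin n → ℝ, ∏ l, (‖Uop (v l) (x l) t‖ₑ ^ (n * r) *
        ‖T (fun i => Uop (v i) (x i) t)‖ₑ ^ 2) ^ (1 / n : ℝ) := by
        rw [lintegral_const_mul' _ _ (ENNReal.rpow_ne_top_of_nonneg hr0 enorm_ne_top)]
    _ ≤ ‖T‖ₑ ^ r * ∏ l, (∫⁻ x : Fin n → ℝ, ‖Uop (v l) (x l) t‖ₑ ^ (n * r) *
        ‖T (fun i => Uop (v i) (x i) t)‖ₑ ^ 2) ^ (1 / n : ℝ) := by
        refine mul_le_mul_right ?_ _
        apply ENNReal.lintegral_prod_norm_pow_le
        · intro l _
          apply Measurable.aemeasurable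
          apply Measurable.mul
          · exact ((smU l).enorm.pow_const _).comp (measurable_pi_apply l)
          · exact smT.enorm.pow_const 2
        · rw [Finset.sum_const, Finset.card_univ, Fintype.card_fin, nsmul_eq_mul]
          field_simp
        · intro j _; positivity
    _ ≤ _ := by
        refine mul_le_mul_right ?_ _
        apply Finset.prod_le_prod'
        intro l _
        apply ENNReal.rpow_le_rpow _ (by positivity)
        refine (form_weight T hv t l (hK l)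
          (w := fun s => ‖Uop (v l) s t‖ₑ ^ (n * r)) ((smU l).enorm.pow_const _)).trans ?_
        refine mul_le_mul_right ?_ _
        refine le_trans (le_of_eq ?_) (Uop_LQ (hv l) t hQ)
        congr 1
        ext s
        rw [← ENNReal.rpow_natCast, ← ENNReal.rpow_add_of_nonneg _ _ (by positivity) (by norm_num)]
        congr 1
        push_cast; ring

/-- The constant in the form bound. -/
noncomputable def CK (n : ℕ) (q : ℝ) : ℝ≥0∞ :=
  2 ^ ((2 + n * (q - 2) - 4) / 2) * Ca ((2 + n * (q - 2)) / 4)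

lemma CK_ne_top {n : ℕ} {q : ℝ} (hQ : 4 < 2 + n * (q - 2)) : CK n q ≠ ∞ := by
  unfold CK
  apply ENNReal.mul_ne_top
  · exact ENNReal.rpow_ne_top_of_nonneg (by linarith) (by norm_num)
  · exact Ca_ne_top (by linarith)

/-- The main estimate for multilinear forms: the norm of the form enters only with the power
`q - 2`, the remaining part is measured by the constants `K l`. -/
theorem form_bound {n : ℕ} (hn : 0 < n) (F : HForm.{v} n)
    {K : Fin n → ℝ≥0∞}
    (hK : ∀ l, ∀ h : F.H l, ∫⁻ ξ in cube n,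
      ‖F.T (Function.update (fun i => F.u i (ξ i)) l h)‖ₑ ^ 2 ≤ K l * ‖h‖ₑ ^ 2)
    (hKtop : ∀ l, K l ≠ ∞)
    {q : ℝ} (hq : 2 ≤ q) (hQ : 4 < 2 + n * (q - 2)) :
    ∫⁻ p : (Fin n → ℝ) × ℝ, ‖extOp n F.val p‖ₑ ^ q
      ≤ CK n q * (‖F.T‖ₑ ^ (q - 2) * ∏ l, (K l) ^ (1 / n : ℝ)) := by
  have hn' : (0:ℝ) < n := by exact_mod_cast hn
  set v : ∀ i, ℝ → F.H i := fun i => cutoff (F.u i) with hvdef
  have hv : ∀ i, Adm (v i) := fun i => adm_cutoff (F.sm i) (F.bd i)
  have hK' : ∀ l, ∀ h : F.H l, ∫⁻ ξ in cube n,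
      ‖F.T (Function.update (fun i => v i (ξ i)) l h)‖ₑ ^ 2 ≤ K l * ‖h‖ₑ ^ 2 := by
    intro l h
    refine le_trans (le_of_eq ?_) (hK l h)
    apply setLIntegral_congr_fun measurableSet_cube
    intro ξ hξ
    have : (fun i => v i (ξ i)) = fun i => F.u i (ξ i) := by
      ext i
      rw [hvdef]
      exact indicator_of_mem (mem_cube.1 hξ i) _
    simp only [this]
  have hval : ∀ p : (Fin n → ℝ) × ℝ, extOp n F.val p = F.T (fun i => Uop (v i) (p.1 i) p.2) :=
    fun p => extOp_form F.T F.sm F.bd p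
  simp_rw [hval]
  set Q : ℝ := 2 + n * (q - 2) with hQdef
  have smT : StronglyMeasurable (fun p : (Fin n → ℝ) × ℝ =>
      F.T (fun i => Uop (v i) (p.1 i) p.2)) := by
    apply F.T.cont.comp_stronglyMeasurable
    apply stronglyMeasurable_pi'
    intro i
    have hmm : Measurable (fun p : (Fin n → ℝ) × ℝ => ((p.1 i, p.2) : ℝ × ℝ)) := by fun_prop
    exact (sm_Uop (hv i)).comp_measurable hmm
  rw [Measure.volume_eq_prod, lintegral_prod_symm _ (smT.enorm.pow_const q).aemeasurable]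
  have hC1 : ∀ l, (K l * 2 ^ ((Q - 4) / 2)) ^ (1 / n : ℝ) ≠ ∞ := fun l =>
    ENNReal.rpow_ne_top_of_nonneg (by positivity)
      (ENNReal.mul_ne_top (hKtop l) (ENNReal.rpow_ne_top_of_nonneg (by linarith) (by norm_num)))
  calc ∫⁻ t, ∫⁻ x : Fin n → ℝ, ‖F.T (fun i => Uop (v i) (x i) t)‖ₑ ^ q
      ≤ ∫⁻ t, ‖F.T‖ₑ ^ (q - 2) * ∏ l, (K l * (2 ^ ((Q - 4) / 2) *
        (Lop (v l) t) ^ (Q / 4))) ^ (1 / n : ℝ) := by
        apply lintegral_mono
        intro t
        exact form_time hn F.T hv t hK' hq hQ.le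
    _ = ∫⁻ t, (‖F.T‖ₑ ^ (q - 2) * ∏ l, (K l * 2 ^ ((Q - 4) / 2)) ^ (1 / n : ℝ)) *
          ∏ l, ((Lop (v l) t) ^ (Q / 4)) ^ (1 / n : ℝ) := by
        congr 1
        ext t
        rw [mul_assoc, ← Finset.prod_mul_distrib]
        congr 2
        ext l
        rw [← ENNReal.mul_rpow_of_nonneg _ _ (by positivity), mul_assoc]
    _ = (‖F.T‖ₑ ^ (q - 2) * ∏ l, (K l * 2 ^ ((Q - 4) / 2)) ^ (1 / n : ℝ)) *
          ∫⁻ t, ∏ l, ((Lop (v l) t) ^ (Q / 4)) ^ (1 / n : ℝ) := by
        rw [lintegral_const_mul']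
        apply ENNReal.mul_ne_top
        · exact ENNReal.rpow_ne_top_of_nonneg (by linarith) enorm_ne_top
        · exact ENNReal.prod_ne_top fun l _ => hC1 l
    _ ≤ (‖F.T‖ₑ ^ (q - 2) * ∏ l, (K l * 2 ^ ((Q - 4) / 2)) ^ (1 / n : ℝ)) *
          ∏ l, (∫⁻ t, (Lop (v l) t) ^ (Q / 4)) ^ (1 / n : ℝ) := by
        refine mul_le_mul_right ?_ _
        apply ENNReal.lintegral_prod_norm_pow_le
        · intro l _
          exact ((measurable_Lop (hv l)).pow_const _).aemeasurable
        · rw [Finset.sum_const, Finset.card_univ, Fintype.card_fin, nsmul_eq_mul]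
          field_simp
        · intro j _; positivity
    _ ≤ (‖F.T‖ₑ ^ (q - 2) * ∏ l, (K l * 2 ^ ((Q - 4) / 2)) ^ (1 / n : ℝ)) *
          ∏ _l : Fin n, (Ca (Q / 4)) ^ (1 / n : ℝ) := by
        refine mul_le_mul_right ?_ _
        apply Finset.prod_le_prod'
        intro l _
        exact ENNReal.rpow_le_rpow (Lop_time (by linarith) (hv l)) (by positivity)
    _ = _ := by
        have e1 : ∀ x : ℝ≥0∞, ∏ _l : Fin n, x ^ (1 / n : ℝ) = x := by
          intro x
          rw [Finset.prod_const, Finset.card_univ, Fintype.card_fin, ← ENNReal.rpow_natCast,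
            ← ENNReal.rpow_mul, one_div, inv_mul_cancel₀ hn'.ne', ENNReal.rpow_one]
        have e2 : ∏ l, (K l * 2 ^ ((Q - 4) / 2)) ^ (1 / n : ℝ)
            = (∏ l, (K l) ^ (1 / n : ℝ)) * 2 ^ ((Q - 4) / 2) := by
          simp_rw [ENNReal.mul_rpow_of_nonneg _ _ (show (0:ℝ) ≤ 1 / n by positivity)]
          rw [Finset.prod_mul_distrib, e1]
        rw [e1, e2]
        unfold CK
        rw [← hQdef]
        ring

end Pool.Agent.H.MP_b7167f_an
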