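import Mathlib
import Pool.Agent.H.MP_b7167f_an.FormK

open MeasureTheory Set
open scoped ENNReal NNReal

namespace Pool.Agent.H.MP_b7167f_an

universe v

variable {m : ℕ} {Y : Type} [Fintype Y] [DecidableEq Y]

omit [DecidableEq Y] in
/-- Hölder's inequality for the block form. -/
lemma sum_mul_prod_le' (x₀ : (Fin m → Y) → ℝ) (X : Fin m → Y → ℝ)
    {B₀ : ℝ} {B : Fin m → ℝ} (hB₀ : 0 ≤ B₀) (hB : ∀ l, 0 ≤ B l) (h0 : ∑ z, x₀ z ^ 2 ≤ B₀ ^ 2)
    (h1 : ∀ j, ∑ y, X j y ^ 2 ≤ B j ^ 2) :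
    ∑ z, x₀ z * ∏ j, X j (z j) ≤ B₀ * ∏ l, B l := by
  have h3 : ∑ z : Fin m → Y, (∏ j, X j (z j)) ^ 2 = ∏ j, ∑ y, X j y ^ 2 := by
    rw [Fintype.prod_sum (fun j y => X j y ^ 2)]
    apply Finset.sum_congr rfl
    intro z _
    exact (Finset.prod_pow _ _ _).symm
  have h4 : (∑ z, x₀ z * ∏ j, X j (z j)) ^ 2
      ≤ (∑ z, x₀ z ^ 2) * ∑ z : Fin m → Y, (∏ j, X j (z j)) ^ 2 :=
    Finset.sum_mul_sq_le_sq_mul_sq Finset.univ x₀ (fun z => ∏ j, X j (z j))
  have h5 : ∏ j, ∑ y, X j y ^ 2 ≤ ∏ j : Fin m, B j ^ 2 := by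
    apply Finset.prod_le_prod
    · intro j _
      exact Finset.sum_nonneg fun _ _ => by positivity
    · intro j _
      exact h1 j
  have h6 : (0:ℝ) ≤ ∏ j, ∑ y, X j y ^ 2 := Finset.prod_nonneg fun j _ =>
      Finset.sum_nonneg fun _ _ => by positivity
  have h2 : (∑ z, x₀ z * ∏ j, X j (z j)) ^ 2 ≤ (B₀ * ∏ l, B l) ^ 2 := by
    rw [mul_pow, ← Finset.prod_pow]
    rw [h3] at h4
    exact h4.trans (mul_le_mul h0 h5 h6 (sq_nonneg _))
  exact (abs_le_of_sq_le_sq' h2 (mul_nonneg hB₀ (Finset.prod_nonneg fun _ _ => hB _))).2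

variable [MeasurableSpace Y] [MeasurableSingletonClass Y]

/-- data of a block function: one rough variable `i₀`, finite alphabets in the others -/
structure BF (m : ℕ) (Y : Type) [Fintype Y] [DecidableEq Y] [MeasurableSpace Y]
    [MeasurableSingletonClass Y] where
  i₀ : Fin (m + 1)
  a₀ : ℝ → Y
  a : Fin m → ℝ → Y
  ma₀ : Measurable a₀
  ma : ∀ j, Measurable (a j)
  c : Y → (Fin m → Y) → ℂ
  ν : Fin m → Y → ℝ
  N : Fin m → ℝ
  δ : ℝ
  δ0 : 0 < δ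
  N0 : ∀ j, 0 < N j
  h1 : ∀ j, ∀ s ∈ Icc (-1:ℝ) 1, 1 / (2 * N j) ≤ ν j (a j s)
  ν0 : ∀ j y, 0 ≤ ν j y
  row : ∀ s ∈ Icc (-1:ℝ) 1, ∑ z, (∏ i, ν i (z i)) * ‖c (a₀ s) z‖ ^ 2 ≤ δ ^ 2

namespace BF

variable (D : BF m Y)

/-- the function represented by the block data -/
noncomputable def fn (ξ : Fin (m + 1) → ℝ) : ℂ :=
  D.c (D.a₀ (ξ D.i₀)) (fun j => D.a j (ξ (D.i₀.succAbove j)))

/-- coordinate index -/
def idx (l : Fin (m + 1)) (z : Fin m → Y) : (Fin m → Y) ⊕ Y :=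
  Fin.insertNth (α := fun _ => (Fin m → Y) ⊕ Y) D.i₀ (Sum.inl z) (fun j => Sum.inr (z j)) l

lemma idx_same (z : Fin m → Y) : D.idx D.i₀ z = Sum.inl z := by
  unfold idx; rw [Fin.insertNth_apply_same]

lemma idx_succAbove (j : Fin m) (z : Fin m → Y) : D.idx (D.i₀.succAbove j) z = Sum.inr (z j) := by
  unfold idx; rw [Fin.insertNth_apply_succAbove]

/-- coefficient functions -/
noncomputable def cf (l : Fin (m + 1)) (s : ℝ) (w : (Fin m → Y) ⊕ Y) : ℂ :=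
  Fin.insertNth (α := fun _ => ℂ) D.i₀
    (w.elim (fun z => D.c (D.a₀ s) z * ((∏ j, Real.sqrt (D.ν j (z j))) / D.δ : ℝ)) (fun _ => 0))
    (fun j => w.elim (fun _ => 0) (fun y => if D.a j s = y then
      (((Real.sqrt (D.ν j y) * Real.sqrt (2 * D.N j))⁻¹ : ℝ) : ℂ) else 0)) l

lemma cf_same (s : ℝ) (w : (Fin m → Y) ⊕ Y) : D.cf D.i₀ s w =
    w.elim (fun z => D.c (D.a₀ s) z * ((∏ j, Real.sqrt (D.ν j (z j))) / D.δ : ℝ)) (fun _ => 0) := by
  unfold cf; rw [Fin.insertNth_apply_same]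

lemma cf_succAbove (j : Fin m) (s : ℝ) (w : (Fin m → Y) ⊕ Y) : D.cf (D.i₀.succAbove j) s w =
    w.elim (fun _ => 0) (fun y => if D.a j s = y then
      (((Real.sqrt (D.ν j y) * Real.sqrt (2 * D.N j))⁻¹ : ℝ) : ℂ) else 0) := by
  unfold cf; rw [Fin.insertNth_apply_succAbove]

lemma nu_pos (j : Fin m) {s : ℝ} (hs : s ∈ Icc (-1:ℝ) 1) : 0 < D.ν j (D.a j s) :=
  lt_of_lt_of_le (by have := D.N0 j; positivity) (D.h1 j s hs)

lemma cf_norm (l : Fin (m + 1)) {s : ℝ} (hs : s ∈ Icc (-1:ℝ) 1) :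
    ∑ w, ‖D.cf l s w‖ ^ 2 ≤ 1 := by
  refine Fin.succAboveCases D.i₀ ?_ (fun j => ?_) l
  · rw [Fintype.sum_sum_type]
    simp only [cf_same, Sum.elim_inl, Sum.elim_inr, norm_zero]
    have hδ := D.δ0
    have h1 : ∀ z, ‖D.c (D.a₀ s) z * ((∏ j, Real.sqrt (D.ν j (z j))) / D.δ : ℝ)‖ ^ 2
        = ((∏ i, D.ν i (z i)) * ‖D.c (D.a₀ s) z‖ ^ 2) / D.δ ^ 2 := by
      intro z
      rw [norm_mul, Complex.norm_real, Real.norm_eq_abs, mul_pow, sq_abs, div_pow,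
        ← Finset.prod_pow]
      have : ∀ j, Real.sqrt (D.ν j (z j)) ^ 2 = D.ν j (z j) := fun j => Real.sq_sqrt (D.ν0 _ _)
      simp_rw [this]
      ring
    simp_rw [h1]
    rw [← Finset.sum_div]
    simp only [ne_eq, OfNat.ofNat_ne_zero, not_false_eq_true, zero_pow, Finset.sum_const_zero,
      add_zero]
    rw [div_le_one (by positivity)]
    exact D.row s hs
  · rw [Fintype.sum_sum_type]
    simp only [cf_succAbove, Sum.elim_inl, Sum.elim_inr, norm_zero]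
    simp only [ne_eq, OfNat.ofNat_ne_zero, not_false_eq_true, zero_pow, Finset.sum_const_zero,
      zero_add]
    have hν := D.nu_pos j hs
    have hN := D.N0 j
    rw [Finset.sum_eq_single (D.a j s)]
    · rw [if_pos rfl, Complex.norm_real, Real.norm_eq_abs, sq_abs, inv_pow, mul_pow,
        Real.sq_sqrt hν.le, Real.sq_sqrt (by positivity)]
      have h2 := D.h1 j s hs
      rw [div_le_iff₀ (by positivity)] at h2
      exact inv_le_one_of_one_le₀ h2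
    · intro y _ hy
      rw [if_neg (Ne.symm hy)]
      simp
    · intro h
      exact absurd (Finset.mem_univ _) h

lemma measurable_cf (l : Fin (m + 1)) (w : (Fin m → Y) ⊕ Y) :
    Measurable (fun s => D.cf l s w) := by
  refine Fin.succAboveCases D.i₀ ?_ (fun j => ?_) l
  · simp only [cf_same]
    rcases w with z | i
    · simp only [Sum.elim_inl]
      have : (fun s => D.c (D.a₀ s) z * ((∏ j, Real.sqrt (D.ν j (z j))) / D.δ : ℝ))
        = (fun b => D.c b z * ((∏ j, Real.sqrt (D.ν j (z j))) / D.δ : ℝ)) ∘ D.a₀ := rfl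
      rw [this]
      exact (measurable_of_countable _).comp D.ma₀
    · simp only [Sum.elim_inr]
      exact measurable_const
  · simp only [cf_succAbove]
    rcases w with z | y
    · simp only [Sum.elim_inl]
      exact measurable_const
    · simp only [Sum.elim_inr]
      have : (fun s => if D.a j s = y then
          (((Real.sqrt (D.ν j y) * Real.sqrt (2 * D.N j))⁻¹ : ℝ) : ℂ) else 0)
        = (fun b => if b = y then
          (((Real.sqrt (D.ν j y) * Real.sqrt (2 * D.N j))⁻¹ : ℝ) : ℂ) else 0) ∘ D.a j := rfl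
      rw [this]
      exact (measurable_of_countable _).comp (D.ma j)

/-- the amplitude -/
noncomputable def A : ℝ := D.δ * ∏ j, Real.sqrt (2 * D.N j)

lemma A_pos : 0 < D.A :=
  mul_pos D.δ0 (Finset.prod_pos fun j _ => Real.sqrt_pos.2 (by have := D.N0 j; positivity))

/-- the multilinear form -/
noncomputable def T (F : HForm.{v} (m + 1)) :
    ContinuousMultilinearMap ℂ (fun l : Fin (m + 1) =>
      PiLp 2 (fun _ : (Fin m → Y) ⊕ Y => F.H l)) ℂ :=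
  ((D.A : ℝ) : ℂ) • ∑ z, F.T.compContinuousLinearMap
    (fun l => PiLp.proj 2 (fun _ : (Fin m → Y) ⊕ Y => F.H l) (D.idx l z))

lemma T_apply (F : HForm.{v} (m + 1))
    (x : ∀ l : Fin (m + 1), PiLp 2 (fun _ : (Fin m → Y) ⊕ Y => F.H l)) :
    D.T F x = D.A * ∑ z, F.T (fun l => x l (D.idx l z)) := by
  unfold T
  rw [_root_.smul_apply, _root_.sum_apply, smul_eq_mul]
  rfl

end BF

omit [DecidableEq Y] [MeasurableSpace Y] [MeasurableSingletonClass Y] in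
lemma sum_inl_le' {E : Type*} [NormedAddCommGroup E]
    (x : PiLp 2 (fun _ : (Fin m → Y) ⊕ Y => E)) : ∑ z, ‖x (Sum.inl z)‖ ^ 2 ≤ ‖x‖ ^ 2 := by
  rw [PiLp.norm_sq_eq_of_L2, Fintype.sum_sum_type]
  have : 0 ≤ ∑ i, ‖x (Sum.inr i)‖ ^ 2 := Finset.sum_nonneg fun _ _ => by positivity
  linarith

omit [DecidableEq Y] [MeasurableSpace Y] [MeasurableSingletonClass Y] in
lemma sum_inr_le' {E : Type*} [NormedAddCommGroup E]
    (x : PiLp 2 (fun _ : (Fin m → Y) ⊕ Y => E)) : ∑ i, ‖x (Sum.inr i)‖ ^ 2 ≤ ‖x‖ ^ 2 := by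
  rw [PiLp.norm_sq_eq_of_L2, Fintype.sum_sum_type]
  have : 0 ≤ ∑ z, ‖x (Sum.inl z)‖ ^ 2 := Finset.sum_nonneg fun _ _ => by positivity
  linarith

namespace BF

variable (D : BF m Y)

lemma norm_T_le (F : HForm.{v} (m + 1)) : ‖D.T F‖ ≤ D.A * ‖F.T‖ := by
  apply ContinuousMultilinearMap.opNorm_le_bound (mul_nonneg D.A_pos.le (norm_nonneg _))
  intro x
  rw [T_apply, norm_mul, Complex.norm_real, Real.norm_eq_abs, abs_of_pos D.A_pos, mul_assoc]
  apply mul_le_mul_of_nonneg_left _ D.A_pos.le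
  have h0 : ∑ z, ‖x D.i₀ (Sum.inl z)‖ ^ 2 ≤ ‖x D.i₀‖ ^ 2 := sum_inl_le' (x D.i₀)
  have hXb : ∀ j : Fin m, ∑ y, ‖x (D.i₀.succAbove j) (Sum.inr y)‖ ^ 2
      ≤ ‖x (D.i₀.succAbove j)‖ ^ 2 := fun j => sum_inr_le' (x (D.i₀.succAbove j))
  have h1 : ∀ z, ‖F.T (fun l => x l (D.idx l z))‖
      ≤ ‖F.T‖ * (‖x D.i₀ (Sum.inl z)‖ *
        ∏ j : Fin m, ‖x (D.i₀.succAbove j) (Sum.inr (z j))‖) := by
    intro z
    refine (F.T.le_opNorm _).trans (le_of_eq ?_)
    congr 1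
    rw [Fin.prod_univ_succAbove _ D.i₀, idx_same]
    congr 1
    apply Finset.prod_congr rfl
    intro j _
    rw [idx_succAbove]
  have h3 : (∑ z, ‖x D.i₀ (Sum.inl z)‖ *
      ∏ j : Fin m, ‖x (D.i₀.succAbove j) (Sum.inr (z j))‖) ≤ ∏ l, ‖x l‖ := by
    rw [Fin.prod_univ_succAbove _ D.i₀]
    generalize hx0 : (fun z : Fin m → Y => ‖x D.i₀ (Sum.inl z)‖) = x₀ at h0
    generalize hX : (fun (j : Fin m) (y : Y) => ‖x (D.i₀.succAbove j) (Sum.inr y)‖) = X at hXb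
    generalize hB0 : ‖x D.i₀‖ = B₀ at h0
    generalize hB : (fun j => ‖x (D.i₀.succAbove j)‖) = B
    have e0 : ∀ z, ‖x D.i₀ (Sum.inl z)‖ = x₀ z := fun z => congrFun hx0 z
    have e1 : ∀ (j : Fin m) (y : Y), ‖x (D.i₀.succAbove j) (Sum.inr y)‖ = X j y :=
      fun j y => congrFun (congrFun hX j) y
    have e2 : ∀ j, ‖x (D.i₀.succAbove j)‖ = B j := fun l => congrFun hB l
    have e4 : (∑ z, ‖x D.i₀ (Sum.inl z)‖ * ∏ j : Fin m, ‖x (D.i₀.succAbove j) (Sum.inr (z j))‖)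
        = ∑ z, x₀ z * ∏ j, X j (z j) := by
      apply Finset.sum_congr rfl
      intro z _
      rw [e0 z]
      congr 1
      exact Finset.prod_congr rfl fun j _ => e1 j (z j)
    rw [e4]
    have h0' : ∑ z, x₀ z ^ 2 ≤ B₀ ^ 2 := by
      refine le_trans (le_of_eq ?_) h0
      exact Finset.sum_congr rfl fun z _ => by rw [← e0 z]
    have hXb' : ∀ j, ∑ y, X j y ^ 2 ≤ B j ^ 2 := by
      intro j
      rw [← e2 j]
      refine le_trans (le_of_eq ?_) (hXb j)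
      exact Finset.sum_congr rfl fun y _ => by rw [← e1 j y]
    exact sum_mul_prod_le' x₀ X (by rw [← hB0]; exact norm_nonneg _)
      (fun l => by rw [← e2]; exact norm_nonneg _) h0' hXb'
  calc ‖∑ z, F.T (fun l => x l (D.idx l z))‖
      ≤ ∑ z, ‖F.T (fun l => x l (D.idx l z))‖ := norm_sum_le _ _
    _ ≤ ∑ z, ‖F.T‖ * (‖x D.i₀ (Sum.inl z)‖ *
        ∏ j : Fin m, ‖x (D.i₀.succAbove j) (Sum.inr (z j))‖) := Finset.sum_le_sum fun z _ => h1 z
    _ = ‖F.T‖ * ∑ z, (‖x D.i₀ (Sum.inl z)‖ *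
        ∏ j : Fin m, ‖x (D.i₀.succAbove j) (Sum.inr (z j))‖) := by rw [Finset.mul_sum]
    _ ≤ ‖F.T‖ * ∏ l, ‖x l‖ := mul_le_mul_of_nonneg_left h3 (norm_nonneg _)

/-- multiplication of a form by a block function -/
noncomputable def mul (F : HForm.{v} (m + 1)) : HForm.{v} (m + 1) where
  H l := PiLp 2 (fun _ : (Fin m → Y) ⊕ Y => F.H l)
  T := D.T F
  u l s := WithLp.toLp 2 (fun w => D.cf l s w • F.u l s)
  sm l := by
    apply (PiLp.continuous_toLp 2 _).comp_stronglyMeasurable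
    apply stronglyMeasurable_pi'
    intro w
    exact (D.measurable_cf l w).stronglyMeasurable.smul (F.sm l)
  bd l s hs := by
    have h1 : ‖(WithLp.toLp 2 (fun w => D.cf l s w • F.u l s) :
        PiLp 2 (fun _ : (Fin m → Y) ⊕ Y => F.H l))‖ ^ 2 ≤ 1 := by
      rw [PiLp.norm_sq_eq_of_L2]
      calc ∑ w, ‖D.cf l s w • F.u l s‖ ^ 2
          = (∑ w, ‖D.cf l s w‖ ^ 2) * ‖F.u l s‖ ^ 2 := by
            rw [Finset.sum_mul]
            apply Finset.sum_congr rfl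
            intro k _
            rw [norm_smul, mul_pow]
        _ ≤ 1 * 1 := by
            apply mul_le_mul (D.cf_norm l hs) _ (by positivity) zero_le_one
            exact pow_le_one₀ (norm_nonneg _) (F.bd l s hs)
        _ = 1 := one_mul 1
    exact (sq_le_one_iff₀ (norm_nonneg _)).1 h1

lemma norm_mul_T_le (F : HForm.{v} (m + 1)) : ‖(D.mul F).T‖ ≤ D.A * ‖F.T‖ := D.norm_T_le F

lemma mul_val (F : HForm.{v} (m + 1)) {ξ : Fin (m + 1) → ℝ} (hξ : ξ ∈ cube (m + 1)) :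
    (D.mul F).val ξ = F.val ξ * D.fn ξ := by
  have h1 : (D.mul F).val ξ
      = D.A * ∑ z, F.T (fun l => D.cf l (ξ l) (D.idx l z) • F.u l (ξ l)) := by
    have : (D.mul F).val ξ = D.T F (fun l => WithLp.toLp 2 (fun w => D.cf l (ξ l) w • F.u l (ξ l)))
      := rfl
    rw [this, T_apply]
  rw [h1]
  have h2 : ∀ z, F.T (fun l => D.cf l (ξ l) (D.idx l z) • F.u l (ξ l))
      = (∏ l, D.cf l (ξ l) (D.idx l z)) * F.val ξ := by
    intro z
    rw [ContinuousMultilinearMap.map_smul_univ F.T (fun l => D.cf l (ξ l) (D.idx l z))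
      (fun l => F.u l (ξ l)), smul_eq_mul]
    rfl
  simp_rw [h2]
  rw [← Finset.sum_mul, mul_comm (F.val ξ), ← mul_assoc]
  congr 1
  have hν : ∀ j, 0 < D.ν j (D.a j (ξ (D.i₀.succAbove j))) := fun j =>
    D.nu_pos j (mem_cube.1 hξ _)
  rw [Finset.sum_eq_single (fun j => D.a j (ξ (D.i₀.succAbove j)))]
  · rw [Fin.prod_univ_succAbove _ D.i₀, idx_same, cf_same, Sum.elim_inl]
    have h3 : ∀ j, D.cf (D.i₀.succAbove j) (ξ (D.i₀.succAbove j))
        (D.idx (D.i₀.succAbove j) (fun j => D.a j (ξ (D.i₀.succAbove j))))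
        = (((Real.sqrt (D.ν j (D.a j (ξ (D.i₀.succAbove j)))) *
          Real.sqrt (2 * D.N j))⁻¹ : ℝ) : ℂ) := by
      intro j
      rw [idx_succAbove, cf_succAbove, Sum.elim_inr, if_pos rfl]
    simp_rw [h3]
    unfold A fn
    rw [← Complex.ofReal_prod, Finset.prod_inv_distrib, Finset.prod_mul_distrib]
    have hδ : (D.δ : ℂ) ≠ 0 := by exact_mod_cast D.δ0.ne'
    have e1 : ((∏ j, Real.sqrt (D.ν j (D.a j (ξ (D.i₀.succAbove j)))) : ℝ) : ℂ) ≠ 0 := by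
      have : 0 < ∏ j, Real.sqrt (D.ν j (D.a j (ξ (D.i₀.succAbove j)))) :=
        Finset.prod_pos fun j _ => Real.sqrt_pos.2 (hν j)
      exact_mod_cast this.ne'
    have e2 : ((∏ j, Real.sqrt (2 * D.N j) : ℝ) : ℂ) ≠ 0 := by
      have : 0 < ∏ j, Real.sqrt (2 * D.N j) :=
        Finset.prod_pos fun j _ => Real.sqrt_pos.2 (by have := D.N0 j; positivity)
      exact_mod_cast this.ne'
    generalize (∏ j, Real.sqrt (D.ν j (D.a j (ξ (D.i₀.succAbove j))))) = p1 at e1 ⊢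
    generalize (∏ j, Real.sqrt (2 * D.N j)) = p2 at e2 ⊢
    push_cast
    field_simp
  · intro z _ hz
    obtain ⟨j, hj⟩ : ∃ j, z j ≠ D.a j (ξ (D.i₀.succAbove j)) := by
      by_contra hcon
      push Not at hcon
      exact hz (funext hcon)
    apply Finset.prod_eq_zero (Finset.mem_univ (D.i₀.succAbove j))
    rw [idx_succAbove, cf_succAbove, Sum.elim_inr, if_neg (Ne.symm hj)]
  · intro h
    exact absurd (Finset.mem_univ _) h

end BF

end Pool.Agent.H.MP_b7167f_an
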