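import Mathlib

open Finset

namespace Pool.Agent.H.MP_b7167f_an

/-- Averaging over a dummy coordinate. -/
lemma sum_update_dummy {ι Y R M : Type*} [Fintype ι] [DecidableEq ι] [Fintype Y] [DecidableEq Y]
    [Semiring R] [AddCommMonoid M] [Module R M] (j : ι) (ν : Y → R) (φ : (ι → Y) → M) :
    ∑ z, ν (z j) • ∑ y, φ (Function.update z j y) = (∑ y, ν y) • ∑ z, φ z := by
  classical
  have e := (Equiv.funSplitAt j Y).symm
  have h1 : ∀ f : (ι → Y) → M, ∑ z, f z = ∑ y, ∑ z', f ((Equiv.funSplitAt j Y).symm (y, z')) := by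
    intro f
    rw [← Fintype.sum_prod_type', ← (Equiv.funSplitAt j Y).symm.sum_comp]
  rw [h1 (fun z => ν (z j) • ∑ y, φ (Function.update z j y)), h1 φ]
  have h2 : ∀ (y : Y) (z' : {i // i ≠ j} → Y), (Equiv.funSplitAt j Y).symm (y, z') j = y := by
    intro y z'
    simp [Equiv.funSplitAt, Equiv.piSplitAt]
  have h3 : ∀ (y y' : Y) (z' : {i // i ≠ j} → Y),
      Function.update ((Equiv.funSplitAt j Y).symm (y, z')) j y'
        = (Equiv.funSplitAt j Y).symm (y', z') := by
    intro y y' z'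
    ext i
    by_cases hi : i = j
    · subst hi; simp [Equiv.funSplitAt, Equiv.piSplitAt]
    · simp [Equiv.funSplitAt, Equiv.piSplitAt, hi]
  simp_rw [h2, h3]
  rw [Finset.sum_smul]
  apply Finset.sum_congr rfl
  intro y _
  rw [← Finset.smul_sum, Finset.sum_comm]

end Pool.Agent.H.MP_b7167f_an
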