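import Mathlib
import Pool.Agent.H.MP_b7167f_an.CubeSlice

open MeasureTheory Set
open scoped ENNReal NNReal

namespace Pool.Agent.H.MP_b7167f_an

/-- Tonelli over the cube. -/
lemma lintegral_cube_succ {m : ℕ} {g : (Fin (m + 1) → ℝ) → ℝ≥0∞} (hg : Measurable g) :
    ∫⁻ ξ in cube (m + 1), g ξ
      = ∫⁻ s in Icc (-1:ℝ) 1, ∫⁻ y in cube m, g (Fin.insertNth 0 s y) := by
  have hmp := (volume_preserving_piFinSuccAbove (fun _ : Fin (m + 1) => ℝ) 0).symm
  rw [← lintegral_indicator measurableSet_cube,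
    ← hmp.lintegral_comp_emb (MeasurableEquiv.measurableEmbedding _)]
  simp_rw [MeasurableEquiv.piFinSuccAbove_symm_apply, Fin.insertNthEquiv, Equiv.coe_fn_mk]
  rw [Measure.volume_eq_prod]
  have hgm : Measurable (fun z : ℝ × (Fin m → ℝ) =>
      (cube (m + 1)).indicator g ((0 : Fin (m + 1)).insertNth z.1 z.2)) := by
    have h1 := (hg.indicator (measurableSet_cube (n := m + 1))).comp
      (MeasurableEquiv.piFinSuccAbove (fun _ : Fin (m + 1) => ℝ) 0).symm.measurable
    exact h1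
  rw [lintegral_prod _ hgm.aemeasurable, ← lintegral_indicator measurableSet_Icc]
  congr 1
  ext s
  by_cases hs : s ∈ Icc (-1:ℝ) 1
  · rw [indicator_of_mem hs, ← lintegral_indicator measurableSet_cube]
    congr 1
    ext y
    by_cases hy : y ∈ cube m
    · rw [indicator_of_mem hy, indicator_of_mem]
      rw [mem_cube]
      intro l
      refine Fin.succAboveCases 0 ?_ (fun k => ?_) l
      · rw [Fin.insertNth_apply_same]; exact hs
      · rw [Fin.insertNth_apply_succAbove]; exact mem_cube.1 hy k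
    · rw [indicator_of_notMem hy, indicator_of_notMem]
      intro hcon
      apply hy
      rw [mem_cube]
      intro k
      have := mem_cube.1 hcon ((0 : Fin (m + 1)).succAbove k)
      rwa [Fin.insertNth_apply_succAbove] at this
  · rw [indicator_of_notMem hs]
    rw [← lintegral_zero (μ := (volume : Measure (Fin m → ℝ)))]
    congr 1
    ext y
    rw [indicator_of_notMem]
    intro hcon
    have := mem_cube.1 hcon 0
    rw [Fin.insertNth_apply_same] at this
    exact hs this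

lemma sum_fin_succ_fun {m : ℕ} {Y M : Type*} [Fintype Y] [AddCommMonoid M]
    (φ : (Fin (m + 1) → Y) → M) :
    ∑ z, φ z = ∑ y, ∑ z' : Fin m → Y, φ (Fin.insertNth (α := fun _ => Y) 0 y z') := by
  rw [← Fintype.sum_prod_type', ← (Fin.insertNthEquiv (fun _ : Fin (m + 1) => Y) 0).sum_comp]
  rfl

/-- Tensor products of bounded maps into `L²`. -/
theorem iso {m : ℕ} {Y : Type} [Fintype Y] {E : Type*} [NormedAddCommGroup E] [NormedSpace ℂ E]
    {ω : Fin m → ℝ → Y → ℂ} (hω : ∀ j y, Measurable (fun s => ω j s y)) {κ : Fin m → ℝ≥0∞}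
    (hκ : ∀ j (g : Y → E), ∫⁻ s in Icc (-1:ℝ) 1, ‖∑ y, ω j s y • g y‖ₑ ^ 2
      ≤ κ j * ∑ y, ‖g y‖ₑ ^ 2) (g : (Fin m → Y) → E) :
    ∫⁻ ξ in cube m, ‖∑ z, (∏ j, ω j (ξ j) (z j)) • g z‖ₑ ^ 2 ≤ (∏ j, κ j) * ∑ z, ‖g z‖ₑ ^ 2 := by
  induction m with
  | zero =>
    have h1 : ∀ ξ : Fin 0 → ℝ, ‖∑ z : Fin 0 → Y, (∏ j, ω j (ξ j) (z j)) • g z‖ₑ ^ 2
        = ∑ z, ‖g z‖ₑ ^ 2 := by
      intro ξ
      simp
    simp_rw [h1]
    rw [lintegral_const, Measure.restrict_apply_univ, volume_cube]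
    simp
  | succ m ih =>
    have sm1 : ∀ (k : ℕ) (ω : Fin k → ℝ → Y → ℂ) (hω : ∀ j y, Measurable (fun s => ω j s y))
        (g : (Fin k → Y) → E), StronglyMeasurable (fun ξ : Fin k → ℝ =>
          ∑ z, (∏ j, ω j (ξ j) (z j)) • g z) := by
      intro k ω hω g
      apply Finset.stronglyMeasurable_fun_sum
      intro z _
      apply StronglyMeasurable.smul_const
      apply Measurable.stronglyMeasurable
      apply Finset.measurable_fun_prod
      intro j _
      exact (hω j (z j)).comp (measurable_pi_apply j)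
    rw [lintegral_cube_succ ((sm1 _ ω hω g).enorm.pow_const 2)]
    set A : Y → (Fin m → ℝ) → E := fun y ξ =>
      ∑ z' : Fin m → Y, (∏ j, ω j.succ (ξ j) (z' j)) • g (Fin.insertNth (α := fun _ => Y) 0 y z')
      with hA
    have smA : ∀ y, StronglyMeasurable (A y) := fun y =>
      sm1 m (fun j => ω j.succ) (fun j => hω j.succ) _
    have key : ∀ (s : ℝ) (ξ : Fin m → ℝ), ∑ z : Fin (m + 1) → Y,
        (∏ j, ω j ((Fin.insertNth (α := fun _ => ℝ) 0 s ξ) j) (z j)) • g z
        = ∑ y, ω 0 s y • A y ξ := by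
      intro s ξ
      rw [sum_fin_succ_fun]
      apply Finset.sum_congr rfl
      intro y _
      rw [hA, Finset.smul_sum]
      apply Finset.sum_congr rfl
      intro z' _
      rw [smul_smul, Fin.prod_univ_succ]
      simp
    simp_rw [key]
    have hmeas : Measurable (Function.uncurry (fun (s : ℝ) (ξ : Fin m → ℝ) =>
        ‖∑ y, ω 0 s y • A y ξ‖ₑ ^ 2)) := by
      apply Measurable.pow_const
      apply StronglyMeasurable.enorm
      apply Finset.stronglyMeasurable_fun_sum
      intro y _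
      apply StronglyMeasurable.smul
      · exact ((hω 0 y).comp measurable_fst).stronglyMeasurable
      · exact (smA y).comp_measurable measurable_snd
    rw [lintegral_lintegral_swap hmeas.aemeasurable]
    calc ∫⁻ ξ in cube m, ∫⁻ s in Icc (-1:ℝ) 1, ‖∑ y, ω 0 s y • A y ξ‖ₑ ^ 2
        ≤ ∫⁻ ξ in cube m, κ 0 * ∑ y, ‖A y ξ‖ₑ ^ 2 := lintegral_mono fun ξ => hκ 0 _
      _ = κ 0 * ∑ y, ∫⁻ ξ in cube m, ‖A y ξ‖ₑ ^ 2 := by
          rw [lintegral_const_mul _ (Finset.measurable_fun_sum _ fun y _ =>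
            (smA y).enorm.pow_const 2), lintegral_finsetSum _ fun y _ => (smA y).enorm.pow_const 2]
      _ ≤ κ 0 * ∑ y, (∏ j : Fin m, κ j.succ) *
            ∑ z' : Fin m → Y, ‖g (Fin.insertNth (α := fun _ => Y) 0 y z')‖ₑ ^ 2 := by
          refine mul_le_mul_right ?_ _
          apply Finset.sum_le_sum
          intro y _
          exact ih (ω := fun j => ω j.succ) (fun j => hω j.succ) (κ := fun j => κ j.succ)
            (fun j => hκ j.succ) _
      _ = (∏ j, κ j) * ∑ z, ‖g z‖ₑ ^ 2 := by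
          rw [← Finset.mul_sum, ← mul_assoc, Fin.prod_univ_succ, sum_fin_succ_fun]

end Pool.Agent.H.MP_b7167f_an
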