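import Mathlib
import Pool.Agent.H.MP_b7167f_an.Iso
import Pool.Agent.H.MP_b7167f_an.Dummy

open MeasureTheory Set
open scoped ENNReal NNReal

namespace Pool.Agent.H.MP_b7167f_an

lemma volume_Icc_two : (volume (Icc (-1:ℝ) 1)) = 2 := by
  rw [Real.volume_Icc]; norm_num

section

variable {m : ℕ} {Y : Type} [Fintype Y] {E : Type*} [NormedAddCommGroup E] [NormedSpace ℂ E]
    {ω : Fin m → ℝ → Y → ℂ} {κ : Fin m → ℝ≥0∞}

/-- all variables but the rough one are integrated out -/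
theorem kA (hω : ∀ j y, Measurable (fun s => ω j s y))
    (hκ : ∀ j (g : Y → E), ∫⁻ s in Icc (-1:ℝ) 1, ‖∑ y, ω j s y • g y‖ₑ ^ 2
      ≤ κ j * ∑ y, ‖g y‖ₑ ^ 2) (g : (Fin m → Y) → E) :
    ∫⁻ ξ in cube (m + 1), ‖∑ z, (∏ j : Fin m, ω j (ξ j.succ) (z j)) • g z‖ₑ ^ 2
      ≤ 2 * (∏ j, κ j) * ∑ z, ‖g z‖ₑ ^ 2 := by
  have hm : Measurable (fun ξ : Fin (m + 1) → ℝ =>
      ‖∑ z, (∏ j : Fin m, ω j (ξ j.succ) (z j)) • g z‖ₑ ^ 2) := by
    apply Measurable.pow_const
    apply StronglyMeasurable.enorm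
    apply Finset.stronglyMeasurable_fun_sum
    intro z _
    apply StronglyMeasurable.smul_const
    apply Measurable.stronglyMeasurable
    apply Finset.measurable_fun_prod
    intro j _
    exact (hω j (z j)).comp (measurable_pi_apply j.succ)
  rw [lintegral_cube_succ hm]
  have e1 : ∀ (s : ℝ) (ξ : Fin m → ℝ) (j : Fin m),
      (Fin.insertNth (α := fun _ => ℝ) 0 s ξ : Fin (m + 1) → ℝ) j.succ = ξ j := by
    intro s ξ j
    simp
  simp_rw [e1]
  calc ∫⁻ _s in Icc (-1:ℝ) 1, ∫⁻ ξ in cube m, ‖∑ z, (∏ j : Fin m, ω j (ξ j) (z j)) • g z‖ₑ ^ 2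
      ≤ ∫⁻ _s in Icc (-1:ℝ) 1, (∏ j, κ j) * ∑ z, ‖g z‖ₑ ^ 2 :=
        lintegral_mono fun s => iso hω hκ g
    _ = 2 * (∏ j, κ j) * ∑ z, ‖g z‖ₑ ^ 2 := by
        rw [lintegral_const, Measure.restrict_apply_univ, volume_Icc_two]
        ring

variable [DecidableEq Y]

/-- all variables but the `j₀`-th one are integrated out -/
theorem kB (hω : ∀ j y, Measurable (fun s => ω j s y))
    (hκ : ∀ j (g : Y → E), ∫⁻ s in Icc (-1:ℝ) 1, ‖∑ y, ω j s y • g y‖ₑ ^ 2
      ≤ κ j * ∑ y, ‖g y‖ₑ ^ 2) (j₀ : Fin m) (y₀ : Y)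
    {C : ℝ → (Fin m → Y) → ℂ} (hC : ∀ z, Measurable (fun s => C s z)) (x : Y → E) :
    ∫⁻ ξ in cube (m + 1), ‖∑ z, (C (ξ 0) z * ∏ j ∈ Finset.univ.erase j₀,
        ω j (ξ j.succ) (z j)) • x (z j₀)‖ₑ ^ 2
      ≤ 2 * (∏ j ∈ Finset.univ.erase j₀, κ j) * ∫⁻ s in Icc (-1:ℝ) 1,
        ∑ z : Fin m → Y, (if z j₀ = y₀ then
          ‖∑ y, C s (Function.update z j₀ y) • x y‖ₑ ^ 2 else 0) := by
  classical
  have hm : Measurable (fun ξ : Fin (m + 1) → ℝ =>
      ‖∑ z, (C (ξ 0) z * ∏ j ∈ Finset.univ.erase j₀, ω j (ξ j.succ) (z j)) • x (z j₀)‖ₑ ^ 2) := by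
    apply Measurable.pow_const
    apply StronglyMeasurable.enorm
    apply Finset.stronglyMeasurable_fun_sum
    intro z _
    apply StronglyMeasurable.smul_const
    apply Measurable.stronglyMeasurable
    apply ((hC z).comp (measurable_pi_apply 0)).mul
    apply Finset.measurable_fun_prod
    intro j _
    exact (hω j (z j)).comp (measurable_pi_apply j.succ)
  rw [lintegral_cube_succ hm]
  have e1 : ∀ (s : ℝ) (ξ : Fin m → ℝ) (j : Fin m),
      (Fin.insertNth (α := fun _ => ℝ) 0 s ξ : Fin (m + 1) → ℝ) j.succ = ξ j := by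
    intro s ξ j
    simp
  have e0 : ∀ (s : ℝ) (ξ : Fin m → ℝ),
      (Fin.insertNth (α := fun _ => ℝ) 0 s ξ : Fin (m + 1) → ℝ) 0 = s := by
    intro s ξ
    simp
  simp_rw [e1, e0]
  -- the modified coefficient functions
  set ω' : Fin m → ℝ → Y → ℂ := fun j s y => if j = j₀ then (if y = y₀ then 1 else 0) else ω j s y
    with hω'
  set κ' : Fin m → ℝ≥0∞ := fun j => if j = j₀ then 2 else κ j with hκ'
  have hω'm : ∀ j y, Measurable (fun s => ω' j s y) := by
    intro j y
    simp only [hω']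
    by_cases hj : j = j₀
    · simp only [hj, if_true]; exact measurable_const
    · simp only [hj, if_false]; exact hω j y
  have hκ'b : ∀ j (g : Y → E), ∫⁻ s in Icc (-1:ℝ) 1, ‖∑ y, ω' j s y • g y‖ₑ ^ 2
      ≤ κ' j * ∑ y, ‖g y‖ₑ ^ 2 := by
    intro j g
    simp only [hω', hκ']
    by_cases hj : j = j₀
    · simp only [hj, if_true]
      simp only [ite_smul, one_smul, zero_smul, Finset.sum_ite_eq', Finset.mem_univ, if_true]
      rw [lintegral_const, Measure.restrict_apply_univ, volume_Icc_two, mul_comm]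
      gcongr
      exact Finset.single_le_sum (f := fun y => ‖g y‖ₑ ^ 2) (fun _ _ => zero_le) (Finset.mem_univ y₀)
    · simp only [hj, if_false]; exact hκ j g
  have hprodκ : ∏ j, κ' j = 2 * ∏ j ∈ Finset.univ.erase j₀, κ j := by
    rw [← Finset.mul_prod_erase _ _ (Finset.mem_univ j₀)]
    congr 1
    · simp [hκ']
    · apply Finset.prod_congr rfl
      intro j hj
      simp [hκ', (Finset.mem_erase.1 hj).1]
  have hs : ∀ s ∈ Icc (-1:ℝ) 1, ∫⁻ ξ in cube m, ‖∑ z, (C s z * ∏ j ∈ Finset.univ.erase j₀,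
        ω j (ξ j) (z j)) • x (z j₀)‖ₑ ^ 2
      ≤ 2 * (∏ j ∈ Finset.univ.erase j₀, κ j) * ∑ z : Fin m → Y, (if z j₀ = y₀ then
          ‖∑ y, C s (Function.update z j₀ y) • x y‖ₑ ^ 2 else 0) := by
    intro s _
    set g : (Fin m → Y) → E := fun z => if z j₀ = y₀ then
      ∑ y, C s (Function.update z j₀ y) • x y else 0 with hg
    have h1 := iso hω'm hκ'b g
    rw [hprodκ] at h1
    have h2 : ∑ z, ‖g z‖ₑ ^ 2 = ∑ z : Fin m → Y, (if z j₀ = y₀ then
          ‖∑ y, C s (Function.update z j₀ y) • x y‖ₑ ^ 2 else 0) := by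
      apply Finset.sum_congr rfl
      intro z _
      simp only [hg]
      split_ifs <;> simp
    rw [h2] at h1
    refine le_trans (le_of_eq ?_) h1
    congr 1
    ext ξ
    congr 2
    have h3 := sum_update_dummy (R := ℂ) j₀ (fun y => if y = y₀ then (1:ℂ) else 0)
      (fun z => (C s z * ∏ j ∈ Finset.univ.erase j₀, ω j (ξ j) (z j)) • x (z j₀))
    simp only [Finset.sum_ite_eq', Finset.mem_univ, if_true, one_smul] at h3
    rw [← h3]
    apply Finset.sum_congr rfl
    intro z _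
    by_cases hz : z j₀ = y₀
    · simp only [hz, if_true, one_smul, hg]
      rw [← Finset.mul_prod_erase _ _ (Finset.mem_univ j₀)]
      have h4 : ω' j₀ (ξ j₀) (z j₀) = 1 := by simp [hω', hz]
      rw [h4, one_mul, Finset.smul_sum]
      apply Finset.sum_congr rfl
      intro y _
      rw [smul_smul, Function.update_self, mul_comm (C s _)]
      congr 2
      apply Finset.prod_congr rfl
      intro j hj
      have hj' : j ≠ j₀ := (Finset.mem_erase.1 hj).1
      rw [Function.update_of_ne hj']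
      simp [hω', hj']
    · simp [hz, hg]
  calc _ ≤ ∫⁻ s in Icc (-1:ℝ) 1, 2 * (∏ j ∈ Finset.univ.erase j₀, κ j) *
        ∑ z : Fin m → Y, (if z j₀ = y₀ then
          ‖∑ y, C s (Function.update z j₀ y) • x y‖ₑ ^ 2 else 0) :=
        setLIntegral_mono' measurableSet_Icc hs
    _ = _ := by
        rw [lintegral_const_mul'']
        apply Measurable.aemeasurable
        apply Finset.measurable_fun_sum
        intro z _
        split_ifs
        · apply Measurable.pow_const
          apply StronglyMeasurable.enorm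
          apply Finset.stronglyMeasurable_fun_sum
          intro y _
          apply StronglyMeasurable.smul_const
          exact (hC _).stronglyMeasurable
        · exact measurable_const

end

end Pool.Agent.H.MP_b7167f_an
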