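import Mathlib
import Pool.Agent.H.MP_b7167f_an.BlkForm
import Pool.Agent.H.MP_b7167f_an.BlockK

open MeasureTheory Set
open scoped ENNReal NNReal

namespace Pool.Agent.H.MP_b7167f_an

universe v

variable {m : ℕ} {Y : Type} [Fintype Y] [DecidableEq Y] [MeasurableSpace Y]
    [MeasurableSingletonClass Y]

/-- integrals of functions depending on finitely many letters -/
lemma lintegral_letters {n : ℕ} {b : Fin n → ℝ → Y} (hb : ∀ l, Measurable (b l))
    (G : (Fin n → Y) → ℝ≥0∞) :
    ∫⁻ ξ in cube n, G (fun l => b l (ξ l))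
      = ∑ y : Fin n → Y, G y * ∏ l, volume (Icc (-1:ℝ) 1 ∩ b l ⁻¹' {y l}) := by
  classical
  set S : (Fin n → Y) → Set (Fin n → ℝ) := fun y =>
    Set.pi univ (fun l => Icc (-1:ℝ) 1 ∩ b l ⁻¹' {y l}) with hS
  have hSm : ∀ y, MeasurableSet (S y) := fun y =>
    MeasurableSet.univ_pi fun l => measurableSet_Icc.inter (hb l (measurableSet_singleton _))
  have h1 : ∀ ξ : Fin n → ℝ, (cube n).indicator (fun ξ => G (fun l => b l (ξ l))) ξ
      = ∑ y, (S y).indicator (fun _ => G y) ξ := by
    intro ξ
    by_cases hξ : ξ ∈ cube n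
    · rw [indicator_of_mem hξ, Finset.sum_eq_single (fun l => b l (ξ l))]
      · rw [indicator_of_mem]
        intro l _
        exact ⟨mem_cube.1 hξ l, rfl⟩
      · intro y _ hy
        rw [indicator_of_notMem]
        intro hcon
        apply hy
        funext l
        exact ((hcon l (mem_univ l)).2).symm
      · intro h
        exact absurd (Finset.mem_univ _) h
    · rw [indicator_of_notMem hξ]
      symm
      apply Finset.sum_eq_zero
      intro y _
      rw [indicator_of_notMem]
      intro hcon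
      apply hξ
      rw [mem_cube]
      intro l
      exact (hcon l (mem_univ l)).1
  rw [← lintegral_indicator measurableSet_cube]
  simp_rw [h1]
  rw [lintegral_finsetSum _ (fun y _ => measurable_const.indicator (hSm y))]
  apply Finset.sum_congr rfl
  intro y _
  rw [lintegral_indicator (hSm y), lintegral_const, Measure.restrict_apply_univ, volume_pi_pi]

namespace BF

variable (D : BF m Y)

lemma fn_small {β₀ : Y → ℝ} (hβ0 : ∀ b, 0 ≤ β₀ b)
    (hβ : ∀ b, volume (Icc (-1:ℝ) 1 ∩ D.a₀ ⁻¹' {b}) ≤ ENNReal.ofReal (2 * β₀ b))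
    (h2 : ∀ j y, volume (Icc (-1:ℝ) 1 ∩ D.a j ⁻¹' {y}) ≤ ENNReal.ofReal (4 * D.ν j y))
    (hν1 : ∀ j, ∑ y, D.ν j y = 1)
    (col : ∀ j y, ∑ b, β₀ b * ∑ z, (∏ i, D.ν i (z i)) * ‖D.c b (Function.update z j y)‖ ^ 2
      ≤ D.δ ^ 2) (l : Fin (m + 1)) {s : ℝ} (hs : s ∈ Icc (-1:ℝ) 1) :
    ∫⁻ ξ in cube (m + 1), ‖D.fn (Function.update ξ l s)‖ₑ ^ 2
      ≤ ENNReal.ofReal (2 * 4 ^ m * D.δ ^ 2) := by
  classical
  -- the letter functions
  set bb : Fin (m + 1) → ℝ → Y := Fin.insertNth (α := fun _ => ℝ → Y) D.i₀ D.a₀ D.a with hbb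
  have hbb0 : bb D.i₀ = D.a₀ := by rw [hbb, Fin.insertNth_apply_same]
  have hbb1 : ∀ j, bb (D.i₀.succAbove j) = D.a j := by
    intro j; rw [hbb, Fin.insertNth_apply_succAbove]
  have hbbm : ∀ k, Measurable (bb k) := by
    intro k
    refine Fin.succAboveCases D.i₀ ?_ (fun j => ?_) k
    · rw [hbb0]; exact D.ma₀
    · rw [hbb1]; exact D.ma j
  set b' : Fin (m + 1) → ℝ → Y := Function.update bb l (fun _ => bb l s) with hb'
  have hb'm : ∀ k, Measurable (b' k) := by
    intro k
    by_cases hk : k = l
    · subst hk; rw [hb', Function.update_self]; exact measurable_const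
    · rw [hb', Function.update_of_ne hk]; exact hbbm k
  set G : (Fin (m + 1) → Y) → ℝ≥0∞ := fun y =>
    ‖D.c (y D.i₀) (fun j => y (D.i₀.succAbove j))‖ₑ ^ 2 with hG
  have hpt : ∀ (ξ : Fin (m + 1) → ℝ) (k : Fin (m + 1)),
      bb k ((Function.update ξ l s) k) = b' k (ξ k) := by
    intro ξ k
    by_cases hk : k = l
    · subst hk; rw [hb', Function.update_self, Function.update_self]
    · rw [hb', Function.update_of_ne hk, Function.update_of_ne hk]
  have h3 : ∀ ξ : Fin (m + 1) → ℝ, ‖D.fn (Function.update ξ l s)‖ₑ ^ 2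
      = G (fun k => b' k (ξ k)) := by
    intro ξ
    simp only [hG]
    unfold fn
    congr 2
    congr 1
    · rw [← hpt, hbb0]
    · funext j
      rw [← hpt, hbb1]
  simp_rw [h3]
  rw [lintegral_letters hb'm, ← (Fin.insertNthEquiv (fun _ : Fin (m + 1) => Y) D.i₀).sum_comp,
    Fintype.sum_prod_type]
  simp only [Fin.insertNthEquiv, Equiv.coe_fn_mk]
  have hvol : ∀ y y' : Y, volume (Icc (-1:ℝ) 1 ∩ (fun _ : ℝ => y) ⁻¹' {y'})
      = if y' = y then 2 else 0 := by
    intro y y'
    by_cases h : y' = y
    · rw [if_pos h]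
      have : (Icc (-1:ℝ) 1 ∩ (fun _ : ℝ => y) ⁻¹' {y'}) = Icc (-1:ℝ) 1 := by
        ext x; simp [h]
      rw [this, volume_Icc_two]
    · rw [if_neg h]
      have : (Icc (-1:ℝ) 1 ∩ (fun _ : ℝ => y) ⁻¹' {y'}) = ∅ := by
        ext x; simp [Ne.symm h]
      rw [this, measure_empty]
  have hGi : ∀ (b : Y) (z : Fin m → Y), G (Fin.insertNth (α := fun _ => Y) D.i₀ b z)
      = ‖D.c b z‖ₑ ^ 2 := by
    intro b z
    simp only [hG, Fin.insertNth_apply_same, Fin.insertNth_apply_succAbove]
  simp_rw [hGi, Fin.prod_univ_succAbove _ D.i₀, Fin.insertNth_apply_same,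
    Fin.insertNth_apply_succAbove]
  have hnn : ∀ z : Fin m → Y, 0 ≤ ∏ i, D.ν i (z i) := fun z =>
    Finset.prod_nonneg fun i _ => D.ν0 i _
  have hpr : ∀ z : Fin m → Y, ∏ i, ENNReal.ofReal (4 * D.ν i (z i))
      = ENNReal.ofReal (4 ^ m * ∏ i, D.ν i (z i)) := by
    intro z
    rw [← ENNReal.ofReal_prod_of_nonneg (fun i _ => mul_nonneg (by norm_num) (D.ν0 i _)),
      Finset.prod_mul_distrib, Finset.prod_const, Finset.card_univ, Fintype.card_fin]
  refine Fin.succAboveCases (α := fun l' => l = l' → _) D.i₀ ?_ (fun j => ?_) l rfl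
  · -- the rough variable is fixed
    intro hl
    have e0 : b' D.i₀ = fun _ => D.a₀ s := by
      rw [hb', hl, Function.update_self, hbb0]
    have e1 : ∀ j, b' (D.i₀.succAbove j) = D.a j := by
      intro j
      rw [hb', hl, Function.update_of_ne (Fin.succAbove_ne _ _), hbb1]
    simp_rw [e0, e1, hvol]
    calc ∑ b, ∑ z : Fin m → Y, ‖D.c b z‖ₑ ^ 2 * ((if b = D.a₀ s then 2 else 0) *
          ∏ j, volume (Icc (-1:ℝ) 1 ∩ D.a j ⁻¹' {z j}))
        = ∑ z : Fin m → Y, ‖D.c (D.a₀ s) z‖ₑ ^ 2 * (2 *
          ∏ j, volume (Icc (-1:ℝ) 1 ∩ D.a j ⁻¹' {z j})) := by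
          rw [Finset.sum_eq_single (D.a₀ s)]
          · simp
          · intro b _ hb
            simp [hb]
          · intro h; exact absurd (Finset.mem_univ _) h
      _ ≤ ∑ z : Fin m → Y, ‖D.c (D.a₀ s) z‖ₑ ^ 2 * (2 *
          ∏ j, ENNReal.ofReal (4 * D.ν j (z j))) := by
          gcongr with z _ j _
          exact h2 j (z j)
      _ = ENNReal.ofReal (2 * 4 ^ m * ∑ z : Fin m → Y, (∏ i, D.ν i (z i)) *
          ‖D.c (D.a₀ s) z‖ ^ 2) := by
          rw [Finset.mul_sum, ENNReal.ofReal_sum_of_nonneg]
          · apply Finset.sum_congr rfl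
            intro z _
            rw [hpr, ← ofReal_norm, ← ENNReal.ofReal_pow (norm_nonneg _),
              show (2:ℝ≥0∞) = ENNReal.ofReal 2 by norm_num, ← ENNReal.ofReal_mul (by norm_num),
              ← ENNReal.ofReal_mul (by positivity)]
            congr 1
            ring
          · intro z _
            have := hnn z
            positivity
      _ ≤ ENNReal.ofReal (2 * 4 ^ m * D.δ ^ 2) := by
          apply ENNReal.ofReal_le_ofReal
          apply mul_le_mul_of_nonneg_left (D.row s hs) (by positivity)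
  · -- the `j`-th of the other variables is fixed
    intro hl
    have e0 : b' D.i₀ = D.a₀ := by
      rw [hb', hl, Function.update_of_ne (Fin.succAbove_ne _ _).symm, hbb0]
    have e1 : b' (D.i₀.succAbove j) = fun _ => D.a j s := by
      rw [hb', hl, Function.update_self, hbb1]
    have e2 : ∀ i, i ≠ j → b' (D.i₀.succAbove i) = D.a i := by
      intro i hi
      rw [hb', hl, Function.update_of_ne (fun h => hi (Fin.succAbove_right_injective h)), hbb1]
    rw [e0]
    set y₀ : Y := D.a j s with hy₀
    have h4 : ∀ z : Fin m → Y, ∏ i, volume (Icc (-1:ℝ) 1 ∩ b' (D.i₀.succAbove i) ⁻¹' {z i})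
        ≤ ENNReal.ofReal ((if z j = y₀ then 2 else 0) *
          ∏ i ∈ Finset.univ.erase j, (4 * D.ν i (z i))) := by
      intro z
      rw [← Finset.mul_prod_erase _ _ (Finset.mem_univ j), ENNReal.ofReal_mul
        (by split_ifs <;> norm_num), ENNReal.ofReal_prod_of_nonneg
        (fun i _ => mul_nonneg (by norm_num) (D.ν0 i _))]
      apply mul_le_mul'
      · rw [e1, hvol]
        split_ifs <;> simp
      · apply Finset.prod_le_prod'
        intro i hi
        rw [e2 i (Finset.mem_erase.1 hi).1]
        exact h2 i (z i)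
    calc ∑ b, ∑ z : Fin m → Y, ‖D.c b z‖ₑ ^ 2 * (volume (Icc (-1:ℝ) 1 ∩ D.a₀ ⁻¹' {b}) *
          ∏ i, volume (Icc (-1:ℝ) 1 ∩ b' (D.i₀.succAbove i) ⁻¹' {z i}))
        ≤ ∑ b, ∑ z : Fin m → Y, ‖D.c b z‖ₑ ^ 2 * (ENNReal.ofReal (2 * β₀ b) *
          ENNReal.ofReal ((if z j = y₀ then 2 else 0) *
            ∏ i ∈ Finset.univ.erase j, (4 * D.ν i (z i)))) := by
          gcongr with b _ z _
          · exact hβ b
          · exact h4 z
      _ = ENNReal.ofReal (∑ b, 2 * β₀ b * ∑ z : Fin m → Y, ((if z j = y₀ then 2 else 0) *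
            ∏ i ∈ Finset.univ.erase j, (4 * D.ν i (z i))) * ‖D.c b z‖ ^ 2) := by
          have hn1 : ∀ z : Fin m → Y, 0 ≤ (if z j = y₀ then (2:ℝ) else 0) *
              ∏ i ∈ Finset.univ.erase j, (4 * D.ν i (z i)) := fun z =>
            mul_nonneg (by split_ifs <;> norm_num)
              (Finset.prod_nonneg fun i _ => mul_nonneg (by norm_num) (D.ν0 i _))
          rw [ENNReal.ofReal_sum_of_nonneg]
          · apply Finset.sum_congr rfl
            intro b _
            rw [Finset.mul_sum, ENNReal.ofReal_sum_of_nonneg]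
            · apply Finset.sum_congr rfl
              intro z _
              rw [← ofReal_norm, ← ENNReal.ofReal_pow (norm_nonneg _),
                ← ENNReal.ofReal_mul (mul_nonneg (by norm_num) (hβ0 b)),
                ← ENNReal.ofReal_mul (by positivity)]
              congr 1
              ring
            · intro z _
              exact mul_nonneg (mul_nonneg (by norm_num) (hβ0 b))
                (mul_nonneg (hn1 z) (by positivity))
          · intro b _
            exact mul_nonneg (mul_nonneg (by norm_num) (hβ0 b))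
              (Finset.sum_nonneg fun z _ => mul_nonneg (hn1 z) (by positivity))
      _ ≤ ENNReal.ofReal (2 * 4 ^ m * D.δ ^ 2) := by
          apply ENNReal.ofReal_le_ofReal
          have h5 : ∀ b, ∑ z : Fin m → Y, ((if z j = y₀ then 2 else 0) *
              ∏ i ∈ Finset.univ.erase j, (4 * D.ν i (z i))) * ‖D.c b z‖ ^ 2
              = 2 * 4 ^ (m - 1) * ∑ z : Fin m → Y, (∏ i, D.ν i (z i)) *
                ‖D.c b (Function.update z j y₀)‖ ^ 2 := by
            intro b
            have h6 := sum_update_dummy (R := ℝ) j (D.ν j) (fun z : Fin m → Y =>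
              ((if z j = y₀ then 2 else 0) *
              ∏ i ∈ Finset.univ.erase j, (4 * D.ν i (z i))) * ‖D.c b z‖ ^ 2)
            rw [hν1 j, one_smul] at h6
            rw [← h6, Finset.mul_sum]
            apply Finset.sum_congr rfl
            intro z _
            have h7 : ∀ y, ((if (Function.update z j y) j = y₀ then (2:ℝ) else 0) *
                ∏ i ∈ Finset.univ.erase j, (4 * D.ν i ((Function.update z j y) i))) *
                ‖D.c b (Function.update z j y)‖ ^ 2
                = if y = y₀ then 2 * (4 ^ (m - 1) * ∏ i ∈ Finset.univ.erase j, D.ν i (z i)) *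
                  ‖D.c b (Function.update z j y₀)‖ ^ 2 else 0 := by
              intro y
              rw [Function.update_self]
              split_ifs with hy
              · rw [hy]
                congr 2
                rw [Finset.prod_mul_distrib, Finset.prod_const,
                  Finset.card_erase_of_mem (Finset.mem_univ j), Finset.card_univ,
                  Fintype.card_fin]
                congr 1
                apply Finset.prod_congr rfl
                intro i hi
                rw [Function.update_of_ne (Finset.mem_erase.1 hi).1]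
              · ring
            rw [Finset.sum_congr rfl fun y _ => h7 y,
              Finset.sum_ite_eq' Finset.univ y₀, if_pos (Finset.mem_univ _), smul_eq_mul,
              ← Finset.mul_prod_erase _ _ (Finset.mem_univ j)]
            ring
          simp_rw [h5]
          have h8 : (4:ℝ) ^ m = 4 * 4 ^ (m - 1) := by
            have : m = (m - 1) + 1 := by have := j.pos; omega
            conv_lhs => rw [this, pow_succ]
            ring
          calc ∑ b, 2 * β₀ b * (2 * 4 ^ (m - 1) * ∑ z : Fin m → Y, (∏ i, D.ν i (z i)) *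
                ‖D.c b (Function.update z j y₀)‖ ^ 2)
              = 4 ^ m * ∑ b, β₀ b * ∑ z : Fin m → Y, (∏ i, D.ν i (z i)) *
                ‖D.c b (Function.update z j y₀)‖ ^ 2 := by
                rw [Finset.mul_sum, h8]
                apply Finset.sum_congr rfl
                intro b _
                ring
            _ ≤ 4 ^ m * D.δ ^ 2 := mul_le_mul_of_nonneg_left (col j y₀) (by positivity)
            _ ≤ 2 * 4 ^ m * D.δ ^ 2 := by
                have : 0 ≤ 4 ^ m * D.δ ^ 2 := by positivity
                linarith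

end BF

end Pool.Agent.H.MP_b7167f_an
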