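import Mathlib

open Finset
open scoped ENNReal NNReal ComplexConjugate InnerProductSpace ComplexOrder

namespace Pool.Agent.H.MP_b7167f_an

/-- Spectral decomposition of `Gᴴ G` in coordinates. -/
theorem spec {X Y : Type} [Fintype X] [Fintype Y] [DecidableEq Y] (G : X → Y → ℂ) :
    ∃ (lam : Y → ℝ) (V : Y → Y → ℂ), (∀ i, 0 ≤ lam i) ∧
      (∀ z b, ∑ i, V i z * conj (V i b) = if z = b then 1 else 0) ∧
      (∀ i j, ∑ z, conj (V i z) * V j z = if i = j then 1 else 0) ∧
      (∀ i j, ∑ x, conj (∑ b, G x b * V i b) * (∑ b, G x b * V j b)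
        = if i = j then (lam i : ℂ) else 0) := by
  classical
  set M : Matrix X Y ℂ := Matrix.of G with hM
  have hA : (M.conjTranspose * M).IsHermitian := Matrix.isHermitian_conjTranspose_mul_self M
  have hP : (M.conjTranspose * M).PosSemidef := Matrix.posSemidef_conjTranspose_mul_self M
  set U : Matrix Y Y ℂ := (hA.eigenvectorUnitary : Matrix Y Y ℂ) with hU
  have hU1 : U * U.conjTranspose = 1 := by
    have := (Matrix.mem_unitaryGroup_iff (A := U)).1 hA.eigenvectorUnitary.2
    simpa [Matrix.star_eq_conjTranspose] using this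
  have hU2 : U.conjTranspose * U = 1 := by
    have := (Matrix.mem_unitaryGroup_iff' (A := U)).1 hA.eigenvectorUnitary.2
    simpa [Matrix.star_eq_conjTranspose] using this
  refine ⟨hA.eigenvalues, fun i z => U z i, fun i => hP.eigenvalues_nonneg i, ?_, ?_, ?_⟩
  · intro z b
    have := congrFun (congrFun hU1 z) b
    rw [Matrix.mul_apply, Matrix.one_apply] at this
    simpa [Matrix.conjTranspose_apply] using this
  · intro i j
    have := congrFun (congrFun hU2 i) j
    rw [Matrix.mul_apply, Matrix.one_apply] at this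
    simpa [Matrix.conjTranspose_apply] using this
  · intro i j
    have h1 : (M * U).conjTranspose * (M * U) = Matrix.diagonal (fun i => (hA.eigenvalues i : ℂ)) := by
      have h2 : U.conjTranspose * (M.conjTranspose * M) * U
          = Matrix.diagonal (fun i => (hA.eigenvalues i : ℂ)) := by
        ext i j
        have h3 : ((M.conjTranspose * M) * U) = U * Matrix.diagonal (fun i => (hA.eigenvalues i : ℂ)) := by
          ext z j
          have h4 := congrFun (hA.mulVec_eigenvectorBasis j) z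
          rw [Matrix.mul_diagonal]
          have h5 : (M.conjTranspose * M * U) z j
              = ((M.conjTranspose * M).mulVec (hA.eigenvectorBasis j).ofLp) z := by
            rw [Matrix.mul_apply, Matrix.mulVec, dotProduct]
            rfl
          rw [h5, h4]
          have h6 : U z j = (hA.eigenvectorBasis j).ofLp z := rfl
          rw [h6, Pi.smul_apply, mul_comm]
          simp
        rw [Matrix.mul_assoc, h3, ← Matrix.mul_assoc, hU2, Matrix.one_mul]
      rw [Matrix.conjTranspose_mul, Matrix.mul_assoc, ← Matrix.mul_assoc M.conjTranspose M U,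
        ← Matrix.mul_assoc]
      exact h2
    have h7 := congrFun (congrFun h1 i) j
    rw [Matrix.mul_apply, Matrix.diagonal_apply] at h7
    rw [← h7]
    apply Finset.sum_congr rfl
    intro x _
    rw [Matrix.conjTranspose_apply, Matrix.mul_apply, Matrix.mul_apply]
    rfl

/-- Orthogonality with vector coefficients. -/
theorem orth {X I : Type} [Fintype X] [Fintype I] [DecidableEq I] {W : I → X → ℂ} {lam : I → ℝ}
    (hW : ∀ i j, ∑ x, conj (W i x) * W j x = if i = j then (lam i : ℂ) else 0)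
    {E : Type*} [NormedAddCommGroup E] [InnerProductSpace ℂ E] (h : I → E) :
    ∑ x, ‖∑ i, W i x • h i‖ ^ 2 = ∑ i, lam i * ‖h i‖ ^ 2 := by
  have h1 : ((∑ x, ‖∑ i, W i x • h i‖ ^ 2 : ℝ) : ℂ) = ((∑ i, lam i * ‖h i‖ ^ 2 : ℝ) : ℂ) := by
    push_cast
    have e1 : ∀ x, ((‖∑ i, W i x • h i‖ : ℂ)) ^ 2
        = ∑ i, ∑ j, (conj (W i x) * W j x) * ⟪h i, h j⟫_ℂ := by
      intro x
      have : ((‖∑ i, W i x • h i‖ : ℂ)) ^ 2 = ⟪∑ i, W i x • h i, ∑ i, W i x • h i⟫_ℂ := by
        rw [inner_self_eq_norm_sq_to_K]; norm_cast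
      rw [this, sum_inner]
      apply Finset.sum_congr rfl
      intro i _
      rw [inner_sum]
      apply Finset.sum_congr rfl
      intro j _
      rw [inner_smul_left, inner_smul_right]
      ring
    simp_rw [e1]
    rw [Finset.sum_comm]
    apply Finset.sum_congr rfl
    intro i _
    rw [Finset.sum_comm]
    have e2 : ∀ j, ∑ x, (conj (W i x) * W j x) * ⟪h i, h j⟫_ℂ
        = (if i = j then (lam i : ℂ) else 0) * ⟪h i, h j⟫_ℂ := by
      intro j
      rw [← Finset.sum_mul, hW]
    simp_rw [e2]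
    simp only [ite_mul, zero_mul, Finset.sum_ite_eq, Finset.mem_univ, if_true]
    rw [inner_self_eq_norm_sq_to_K]
    rfl
  exact_mod_cast h1

/-- dyadic level of `x` relative to `ρ` -/
noncomputable def lev (ρ x : ℝ) : ℕ := ⌈Real.logb 2 (x / ρ)⌉₊

lemma le_lev {ρ x : ℝ} (hρ : 0 < ρ) (hx : 0 ≤ x) : x ≤ 2 ^ (lev ρ x) * ρ := by
  rcases hx.eq_or_lt with h | h
  · rw [← h]; positivity
  · have h1 : Real.logb 2 (x / ρ) ≤ (lev ρ x : ℝ) := Nat.le_ceil _
    have h2 : x / ρ ≤ (2:ℝ) ^ ((lev ρ x : ℕ) : ℝ) :=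
      (Real.logb_le_iff_le_rpow (by norm_num) (by positivity)).1 h1
    rw [Real.rpow_natCast, div_le_iff₀ hρ] at h2
    exact h2

lemma lev_lt {ρ x : ℝ} (hρ : 0 < ρ) (hx0 : 0 ≤ x) (h : lev ρ x ≠ 0) : 2 ^ (lev ρ x) * ρ < 2 * x := by
  have h0 : 0 < Real.logb 2 (x / ρ) := by
    by_contra hcon
    push Not at hcon
    exact h (Nat.ceil_eq_zero.2 hcon)
  have hx : 0 < x / ρ := by
    rcases hx0.eq_or_lt with h1 | h1
    · rw [← h1] at h0; simp at h0
    · positivity
  have h1 : (lev ρ x : ℝ) < Real.logb 2 (x / ρ) + 1 := Nat.ceil_lt_add_one h0.le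
  have h2 : (2:ℝ) ^ ((lev ρ x : ℕ) : ℝ) < (2:ℝ) ^ (Real.logb 2 (x / ρ) + 1) :=
    Real.rpow_lt_rpow_of_exponent_lt (by norm_num) h1
  rw [Real.rpow_natCast, Real.rpow_add (by norm_num), Real.rpow_one,
    Real.rpow_logb (by norm_num) (by norm_num) hx] at h2
  have h4 : 2 ^ (lev ρ x) * ρ < x / ρ * 2 * ρ := mul_lt_mul_of_pos_right h2 hρ
  calc 2 ^ (lev ρ x) * ρ < x / ρ * 2 * ρ := h4
    _ = 2 * x := by field_simp

/-- Flattening: a spectral decomposition into levels. -/
theorem flat {X Y : Type} [Fintype X] [Fintype Y] [DecidableEq Y] {G : X → Y → ℂ} {ν : Y → ℝ}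
    {δ N : ℝ} (hδ : 0 < δ) (hN : 0 < N) (hG : ∀ b, ∑ x, ‖G x b‖ ^ 2 ≤ ν b * δ ^ 2) :
    ∃ (lam : Y → ℝ) (V : Y → Y → ℂ) (lv : Y → ℕ), (∀ i, 0 ≤ lam i) ∧
      (∀ z b, ∑ i, V i z * conj (V i b) = if z = b then 1 else 0) ∧
      (∀ i j, ∑ z, conj (V i z) * V j z = if i = j then 1 else 0) ∧
      (∀ i j, ∑ x, conj (∑ b, G x b * V i b) * (∑ b, G x b * V j b)
        = if i = j then (lam i : ℂ) else 0) ∧
      (∀ i, lam i ≤ 2 ^ (lv i) * (δ ^ 2 / (2 * N))) ∧
      (∀ b, 1 / (2 * N) ≤ ν b → ∀ k, ∑ i, (if lv i = k then ‖V i b‖ ^ 2 else 0)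
        ≤ ν b * (4 * N / 2 ^ k)) := by
  obtain ⟨lam, V, hlam, h1, h2, h3⟩ := spec G
  set ρ : ℝ := δ ^ 2 / (2 * N) with hρ
  have hρ0 : 0 < ρ := by positivity
  refine ⟨lam, V, fun i => lev ρ (lam i), hlam, h1, h2, h3, fun i => le_lev hρ0 (hlam i), ?_⟩
  intro b hb k
  by_cases hk : k = 0
  · subst hk
    have e1 : ∑ i, ‖V i b‖ ^ 2 = 1 := by
      have := h1 b b
      simp only [if_true] at this
      have e2 : ((∑ i, ‖V i b‖ ^ 2 : ℝ) : ℂ) = 1 := by
        rw [← this]
        push_cast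
        apply Finset.sum_congr rfl
        intro i _
        rw [Complex.mul_conj, Complex.normSq_eq_norm_sq]
        push_cast
        rfl
      exact_mod_cast e2
    calc ∑ i, (if lev ρ (lam i) = 0 then ‖V i b‖ ^ 2 else 0) ≤ ∑ i, ‖V i b‖ ^ 2 := by
          apply Finset.sum_le_sum
          intro i _
          split_ifs
          · exact le_rfl
          · positivity
      _ = 1 := e1
      _ = 1 / (2 * N) * (2 * N) := by field_simp
      _ ≤ ν b * (4 * N / 2 ^ 0) := by
          have hν : 0 < ν b := lt_of_lt_of_le (by positivity) hb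
          calc 1 / (2 * N) * (2 * N) ≤ ν b * (2 * N) := by gcongr
            _ ≤ ν b * (4 * N / 2 ^ 0) := by
                apply mul_le_mul_of_nonneg_left _ hν.le
                rw [pow_zero, div_one]
                linarith
  · have e1 : ∑ i, lam i * ‖V i b‖ ^ 2 = ∑ x, ‖G x b‖ ^ 2 := by
      have := orth (W := fun i x => ∑ b, G x b * V i b) (lam := lam) h3
        (fun i => (conj (V i b) : ℂ))
      have e2 : ∀ i, ‖(conj (V i b) : ℂ)‖ = ‖V i b‖ := fun i => RCLike.norm_conj _
      simp_rw [e2] at this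
      rw [← this]
      apply Finset.sum_congr rfl
      intro x _
      congr 2
      have e3 : ∀ i, (∑ b', G x b' * V i b') • conj (V i b)
          = ∑ b', G x b' * (V i b' * conj (V i b)) := by
        intro i
        rw [smul_eq_mul, Finset.sum_mul]
        apply Finset.sum_congr rfl
        intro b' _
        ring
      simp_rw [e3]
      rw [Finset.sum_comm]
      simp_rw [← Finset.mul_sum, h1]
      simp
    have e4 : (2 ^ k * ρ / 2) * ∑ i, (if lev ρ (lam i) = k then ‖V i b‖ ^ 2 else 0)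
        ≤ ∑ i, lam i * ‖V i b‖ ^ 2 := by
      rw [Finset.mul_sum]
      apply Finset.sum_le_sum
      intro i _
      split_ifs with h
      · have h5 := lev_lt hρ0 (hlam i) (by rw [h]; exact hk)
        rw [h] at h5
        apply mul_le_mul_of_nonneg_right _ (by positivity)
        linarith
      · rw [mul_zero]
        exact mul_nonneg (hlam i) (by positivity)
    have e5 : (2 ^ k * ρ / 2) * ∑ i, (if lev ρ (lam i) = k then ‖V i b‖ ^ 2 else 0)
        ≤ ν b * δ ^ 2 := e4.trans (e1.le.trans (hG b))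
    have hc : 0 < 2 ^ k * ρ / 2 := by positivity
    rw [mul_comm, ← le_div_iff₀ hc] at e5
    refine e5.trans (le_of_eq ?_)
    rw [hρ]
    field_simp
    ring

end Pool.Agent.H.MP_b7167f_an
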