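import Mathlib
import Pool.Agent.H.MP_b7167f_an.BlockK
import Pool.Agent.H.MP_b7167f_an.Spec
import Pool.Agent.H.MP_b7167f_an.FormK

open MeasureTheory Set
open scoped ENNReal NNReal ComplexConjugate

namespace Pool.Agent.H.MP_b7167f_an

universe v

/-- data of a block function: finite partitions in every variable, weights, and an array -/
structure BData (m : ℕ) (Y : Type) [Fintype Y] [DecidableEq Y] [MeasurableSpace Y]
    [MeasurableSingletonClass Y] where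
  a₀ : ℝ → Y
  a : Fin m → ℝ → Y
  ma₀ : Measurable a₀
  ma : ∀ j, Measurable (a j)
  c : Y → (Fin m → Y) → ℂ
  β₀ : Y → ℝ
  ν : Fin m → Y → ℝ
  N : Fin m → ℝ
  δ : ℝ
  δ0 : 0 < δ
  N0 : ∀ j, 0 < N j
  β0 : ∀ y, 0 ≤ β₀ y
  ν0 : ∀ j y, 0 ≤ ν j y
  ν1 : ∀ j, ∑ y, ν j y = 1
  hβ : ∀ y, volume (Icc (-1:ℝ) 1 ∩ a₀ ⁻¹' {y}) ≤ ENNReal.ofReal (2 * β₀ y)
  h1 : ∀ j, ∀ s ∈ Icc (-1:ℝ) 1, 1 / (2 * N j) ≤ ν j (a j s)
  h2 : ∀ j y, volume (Icc (-1:ℝ) 1 ∩ a j ⁻¹' {y}) ≤ ENNReal.ofReal (4 * ν j y)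
  row : ∀ s ∈ Icc (-1:ℝ) 1, ∑ z, (∏ i, ν i (z i)) * ‖c (a₀ s) z‖ ^ 2 ≤ δ ^ 2
  col : ∀ j y, ∑ b, β₀ b * ∑ z, (∏ i, ν i (z i)) * ‖c b (Function.update z j y)‖ ^ 2 ≤ δ ^ 2

variable {m : ℕ} {Y : Type} [Fintype Y] [DecidableEq Y] [MeasurableSpace Y]
    [MeasurableSingletonClass Y]

namespace BData

variable (D : BData m Y)

/-- the weighted array used for the `j`-th variable -/
noncomputable def G (j : Fin m) (x : Y × (Fin m → Y)) (y : Y) : ℂ :=
  (Real.sqrt (D.β₀ x.1 * ∏ i, D.ν i (x.2 i)) * Real.sqrt (D.ν j y) : ℝ) *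
    D.c x.1 (Function.update x.2 j y)

lemma nuprod_nonneg (z : Fin m → Y) : 0 ≤ ∏ i, D.ν i (z i) :=
  Finset.prod_nonneg fun i _ => D.ν0 i _

lemma normSq_G (j : Fin m) (x : Y × (Fin m → Y)) (y : Y) :
    ‖D.G j x y‖ ^ 2 = D.ν j y * (D.β₀ x.1 * ((∏ i, D.ν i (x.2 i)) *
      ‖D.c x.1 (Function.update x.2 j y)‖ ^ 2)) := by
  have h1 : 0 ≤ D.β₀ x.1 * ∏ i, D.ν i (x.2 i) := mul_nonneg (D.β0 _) (D.nuprod_nonneg _)
  unfold G
  rw [norm_mul, mul_pow, Complex.norm_real, Real.norm_eq_abs,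
    abs_of_nonneg (mul_nonneg (Real.sqrt_nonneg _) (Real.sqrt_nonneg _)), mul_pow,
    Real.sq_sqrt h1, Real.sq_sqrt (D.ν0 j y)]
  ring

lemma sum_G_le (j : Fin m) (y : Y) : ∑ x, ‖D.G j x y‖ ^ 2 ≤ D.ν j y * D.δ ^ 2 := by
  simp_rw [normSq_G]
  rw [← Finset.mul_sum]
  apply mul_le_mul_of_nonneg_left _ (D.ν0 j y)
  rw [Fintype.sum_prod_type]
  simp_rw [← Finset.mul_sum]
  exact D.col j y

lemma exists_flat (j : Fin m) :
    ∃ (lam : Y → ℝ) (V : Y → Y → ℂ) (lv : Y → ℕ), (∀ i, 0 ≤ lam i) ∧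
      (∀ z b, ∑ i, V i z * conj (V i b) = if z = b then 1 else 0) ∧
      (∀ i j, ∑ z, conj (V i z) * V j z = if i = j then 1 else 0) ∧
      (∀ i i', ∑ x, conj (∑ b, D.G j x b * V i b) * (∑ b, D.G j x b * V i' b)
        = if i = i' then (lam i : ℂ) else 0) ∧
      (∀ i, lam i ≤ 2 ^ (lv i) * (D.δ ^ 2 / (2 * D.N j))) ∧
      (∀ b, 1 / (2 * D.N j) ≤ D.ν j b → ∀ k, ∑ i, (if lv i = k then ‖V i b‖ ^ 2 else 0)
        ≤ D.ν j b * (4 * D.N j / 2 ^ k)) :=
  flat D.δ0 (D.N0 j) (D.sum_G_le j)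

/-- eigenvalues -/
noncomputable def lam (j : Fin m) : Y → ℝ := (D.exists_flat j).choose

/-- eigenvectors -/
noncomputable def V (j : Fin m) : Y → Y → ℂ := (D.exists_flat j).choose_spec.choose

/-- levels -/
noncomputable def lv (j : Fin m) : Y → ℕ := (D.exists_flat j).choose_spec.choose_spec.choose

lemma lam_nonneg (j : Fin m) (i : Y) : 0 ≤ D.lam j i :=
  (D.exists_flat j).choose_spec.choose_spec.choose_spec.1 i

lemma V_row (j : Fin m) (z b : Y) :
    ∑ i, D.V j i z * conj (D.V j i b) = if z = b then 1 else 0 :=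
  (D.exists_flat j).choose_spec.choose_spec.choose_spec.2.1 z b

lemma V_col (j : Fin m) (i i' : Y) :
    ∑ z, conj (D.V j i z) * D.V j i' z = if i = i' then 1 else 0 :=
  (D.exists_flat j).choose_spec.choose_spec.choose_spec.2.2.1 i i'

lemma GV_col (j : Fin m) (i i' : Y) :
    ∑ x, conj (∑ b, D.G j x b * D.V j i b) * (∑ b, D.G j x b * D.V j i' b)
        = if i = i' then (D.lam j i : ℂ) else 0 :=
  (D.exists_flat j).choose_spec.choose_spec.choose_spec.2.2.2.1 i i'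

lemma lam_le (j : Fin m) (i : Y) : D.lam j i ≤ 2 ^ (D.lv j i) * (D.δ ^ 2 / (2 * D.N j)) :=
  (D.exists_flat j).choose_spec.choose_spec.choose_spec.2.2.2.2.1 i

lemma V_small (j : Fin m) (b : Y) (hb : 1 / (2 * D.N j) ≤ D.ν j b) (k : ℕ) :
    ∑ i, (if D.lv j i = k then ‖D.V j i b‖ ^ 2 else 0) ≤ D.ν j b * (4 * D.N j / 2 ^ k) :=
  (D.exists_flat j).choose_spec.choose_spec.choose_spec.2.2.2.2.2 b hb k

/-- `V` restricted to a level -/
noncomputable def Vk (j : Fin m) (k : ℕ) (i y : Y) : ℂ := if D.lv j i = k then D.V j i y else 0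

/-- the norm of the coefficient vectors on level `k` -/
noncomputable def R (j : Fin m) (k : ℕ) : ℝ := Real.sqrt (4 * D.N j / 2 ^ k)

lemma R_pos (j : Fin m) (k : ℕ) : 0 < D.R j k := by
  have := D.N0 j
  exact Real.sqrt_pos.2 (by positivity)

lemma R_sq (j : Fin m) (k : ℕ) : D.R j k ^ 2 = 4 * D.N j / 2 ^ k := by
  have := D.N0 j
  exact Real.sq_sqrt (by positivity)

/-- coefficient vector of the `j`-th variable -/
noncomputable def uc (j : Fin m) (k : ℕ) (s : ℝ) (i : Y) : ℂ :=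
  conj (D.Vk j k i (D.a j s)) / (Real.sqrt (D.ν j (D.a j s)) * D.R j k : ℝ)

/-- coefficient of the extension in the `j`-th variable -/
noncomputable def om (j : Fin m) (k : ℕ) (s : ℝ) (y : Y) : ℂ :=
  ∑ i, D.Vk j k i y * D.uc j k s i

lemma nu_pos (j : Fin m) {s : ℝ} (hs : s ∈ Icc (-1:ℝ) 1) : 0 < D.ν j (D.a j s) :=
  lt_of_lt_of_le (by have := D.N0 j; positivity) (D.h1 j s hs)

lemma uc_norm (j : Fin m) (k : ℕ) {s : ℝ} (hs : s ∈ Icc (-1:ℝ) 1) :
    ∑ i, ‖D.uc j k s i‖ ^ 2 ≤ 1 := by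
  have hν := D.nu_pos j hs
  have hR := D.R_pos j k
  have h1 : ∀ i, ‖D.uc j k s i‖ ^ 2 = (if D.lv j i = k then ‖D.V j i (D.a j s)‖ ^ 2 else 0) /
      (D.ν j (D.a j s) * (4 * D.N j / 2 ^ k)) := by
    intro i
    unfold uc Vk
    rw [norm_div, div_pow, RCLike.norm_conj, Complex.norm_real, Real.norm_eq_abs,
      abs_of_nonneg (by positivity), mul_pow, Real.sq_sqrt hν.le, D.R_sq]
    congr 1
    split_ifs <;> simp
  simp_rw [h1]
  rw [← Finset.sum_div, div_le_one (by have := D.N0 j; positivity)]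
  exact D.V_small j _ (D.h1 j s hs) k

lemma measurable_uc (j : Fin m) (k : ℕ) (i : Y) : Measurable (fun s => D.uc j k s i) := by
  have : (fun s => D.uc j k s i) = (fun b => conj (D.Vk j k i b) /
    (Real.sqrt (D.ν j b) * D.R j k : ℝ)) ∘ D.a j := rfl
  rw [this]
  exact (measurable_of_countable _).comp (D.ma j)

lemma measurable_om (j : Fin m) (k : ℕ) (y : Y) : Measurable (fun s => D.om j k s y) := by
  unfold om
  exact Finset.measurable_fun_sum _ fun i _ => (D.measurable_uc j k i).const_mul _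

end BData

/-- Bessel's inequality with vector coefficients. -/
lemma Vk_bessel {E : Type*} [NormedAddCommGroup E] [InnerProductSpace ℂ E] (D : BData m Y)
    (j : Fin m) (k : ℕ) (h : Y → E) :
    ∑ y, ‖∑ i, D.Vk j k i y • h i‖ ^ 2 ≤ ∑ i, ‖h i‖ ^ 2 := by
  have h1 := orth (W := D.V j) (lam := fun _ => 1) (fun i i' => by
    rw [D.V_col j i i']; simp) (fun i => if D.lv j i = k then h i else 0)
  have h2 : ∀ y, ∑ i, D.V j i y • (if D.lv j i = k then h i else 0)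
      = ∑ i, D.Vk j k i y • h i := by
    intro y
    apply Finset.sum_congr rfl
    intro i _
    unfold BData.Vk
    split_ifs <;> simp
  simp_rw [h2] at h1
  rw [h1]
  apply Finset.sum_le_sum
  intro i _
  rw [one_mul]
  split_ifs
  · exact le_rfl
  · simp

/-- Bessel's inequality with vector coefficients, in the dual direction. -/
lemma Vk_bessel' {E : Type*} [NormedAddCommGroup E] [InnerProductSpace ℂ E] (D : BData m Y)
    (j : Fin m) (k : ℕ) (g : Y → E) :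
    ∑ b, ‖∑ y, (∑ i, D.Vk j k i y * conj (D.Vk j k i b)) • g y‖ ^ 2 ≤ ∑ y, ‖g y‖ ^ 2 := by
  set gh : Y → E := fun i => if D.lv j i = k then ∑ y, D.V j i y • g y else 0 with hgh
  have h1 := orth (W := fun i b => conj (D.V j i b)) (lam := fun _ => 1) (fun i i' => by
    have := congrArg conj (D.V_col j i i')
    rw [map_sum] at this
    simp only [map_mul, Complex.conj_conj] at this ⊢
    rw [this]
    split_ifs <;> simp) gh
  have h2 : ∀ b, ∑ y, (∑ i, D.Vk j k i y * conj (D.Vk j k i b)) • g y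
      = ∑ i, conj (D.V j i b) • gh i := by
    intro b
    simp_rw [Finset.sum_smul]
    rw [Finset.sum_comm]
    apply Finset.sum_congr rfl
    intro i _
    simp only [hgh]
    unfold BData.Vk
    split_ifs
    · rw [Finset.smul_sum]
      apply Finset.sum_congr rfl
      intro y _
      rw [smul_smul, mul_comm]
    · simp
  simp_rw [h2]
  rw [h1]
  have h3 := orth (W := fun y i => D.V j i y) (lam := fun _ => 1) (fun y y' => by
    have := congrArg conj (D.V_row j y y')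
    rw [map_sum] at this
    simp only [map_mul, Complex.conj_conj] at this ⊢
    rw [this]
    split_ifs <;> simp) g
  simp only [one_mul] at h3 ⊢
  rw [← h3]
  apply Finset.sum_le_sum
  intro i _
  simp only [hgh]
  split_ifs
  · exact le_rfl
  · simp

end Pool.Agent.H.MP_b7167f_an
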