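import Mathlib
import Pool.Agent.H.MP_b7167f_an.BlockData

open MeasureTheory Set
open scoped ENNReal NNReal ComplexConjugate

namespace Pool.Agent.H.MP_b7167f_an

universe v

variable {m : ℕ} {Y : Type} [Fintype Y] [DecidableEq Y] [MeasurableSpace Y]
    [MeasurableSingletonClass Y]

omit [DecidableEq Y] in
lemma lintegral_comp_fintype {a : ℝ → Y} (ha : Measurable a) (ψ : Y → ℝ≥0∞) :
    ∫⁻ s in Icc (-1:ℝ) 1, ψ (a s) = ∑ b, ψ b * volume (Icc (-1:ℝ) 1 ∩ a ⁻¹' {b}) := by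
  rw [← lintegral_map (measurable_of_countable ψ) ha, lintegral_fintype]
  apply Finset.sum_congr rfl
  intro b _
  rw [Measure.map_apply ha (measurableSet_singleton b),
    Measure.restrict_apply (ha (measurableSet_singleton b)), inter_comm]

lemma enorm_sq_eq {E : Type*} [NormedAddCommGroup E] (x : E) :
    ‖x‖ₑ ^ 2 = ENNReal.ofReal (‖x‖ ^ 2) := by
  rw [← ofReal_norm, ENNReal.ofReal_pow (norm_nonneg _)]

namespace BData

variable (D : BData m Y)

lemma om_eq (j : Fin m) (k : ℕ) (s : ℝ) (y : Y) :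
    D.om j k s y = (∑ i, D.Vk j k i y * conj (D.Vk j k i (D.a j s))) /
      (Real.sqrt (D.ν j (D.a j s)) * D.R j k : ℝ) := by
  unfold om uc
  rw [Finset.sum_div]
  apply Finset.sum_congr rfl
  intro i _
  rw [mul_div_assoc]

lemma om_kappa {E : Type*} [NormedAddCommGroup E] [InnerProductSpace ℂ E] (j : Fin m) (k : ℕ)
    (g : Y → E) :
    ∫⁻ s in Icc (-1:ℝ) 1, ‖∑ y, D.om j k s y • g y‖ₑ ^ 2
      ≤ ENNReal.ofReal (4 / D.R j k ^ 2) * ∑ y, ‖g y‖ₑ ^ 2 := by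
  have hR := D.R_pos j k
  set S : Y → E := fun b => ∑ y, (∑ i, D.Vk j k i y * conj (D.Vk j k i b)) • g y with hS
  set ψ : Y → ℝ≥0∞ := fun b => ENNReal.ofReal (‖S b‖ ^ 2 / (D.ν j b * D.R j k ^ 2)) with hψ
  have h1 : ∀ s, ‖∑ y, D.om j k s y • g y‖ₑ ^ 2 = ψ (D.a j s) := by
    intro s
    have e1 : ∑ y, D.om j k s y • g y
        = (((Real.sqrt (D.ν j (D.a j s)) * D.R j k : ℝ) : ℂ))⁻¹ • S (D.a j s) := by
      rw [hS, Finset.smul_sum]
      apply Finset.sum_congr rfl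
      intro y _
      rw [om_eq, smul_smul, div_eq_inv_mul]
    rw [enorm_sq_eq, e1, norm_smul, mul_pow, norm_inv, Complex.norm_real, Real.norm_eq_abs,
      abs_of_nonneg (mul_nonneg (Real.sqrt_nonneg _) hR.le), inv_pow, mul_pow,
      Real.sq_sqrt (D.ν0 _ _), hψ]
    congr 1
    rw [div_eq_inv_mul]
  simp_rw [h1]
  rw [lintegral_comp_fintype (D.ma j)]
  calc ∑ b, ψ b * volume (Icc (-1:ℝ) 1 ∩ D.a j ⁻¹' {b})
      ≤ ∑ b, ENNReal.ofReal (4 / D.R j k ^ 2 * ‖S b‖ ^ 2) := by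
        apply Finset.sum_le_sum
        intro b _
        calc ψ b * volume (Icc (-1:ℝ) 1 ∩ D.a j ⁻¹' {b})
            ≤ ψ b * ENNReal.ofReal (4 * D.ν j b) := by gcongr; exact D.h2 j b
          _ = ENNReal.ofReal (‖S b‖ ^ 2 / (D.ν j b * D.R j k ^ 2) * (4 * D.ν j b)) :=
              (ENNReal.ofReal_mul
                (div_nonneg (by positivity) (mul_nonneg (D.ν0 _ _) (by positivity)))).symm
          _ ≤ ENNReal.ofReal (4 / D.R j k ^ 2 * ‖S b‖ ^ 2) := by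
              apply ENNReal.ofReal_le_ofReal
              rcases (D.ν0 j b).eq_or_lt with h | h
              · rw [← h]
                simp
                positivity
              · apply le_of_eq
                field_simp
    _ = ENNReal.ofReal (∑ b, 4 / D.R j k ^ 2 * ‖S b‖ ^ 2) := by
        rw [ENNReal.ofReal_sum_of_nonneg]
        intro b _
        positivity
    _ ≤ ENNReal.ofReal (4 / D.R j k ^ 2 * ∑ y, ‖g y‖ ^ 2) := by
        apply ENNReal.ofReal_le_ofReal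
        rw [← Finset.mul_sum]
        apply mul_le_mul_of_nonneg_left _ (by positivity)
        exact Vk_bessel' D j k g
    _ = _ := by
        rw [ENNReal.ofReal_mul (by positivity), ENNReal.ofReal_sum_of_nonneg (fun _ _ => by positivity)]
        simp_rw [enorm_sq_eq]

/-- coefficients of the linear maps -/
noncomputable def coef (k : Fin m → ℕ) (l : Fin (m + 1)) (z : Fin m → Y)
    (w : (Fin m → Y) ⊕ Y) : ℂ :=
  Fin.cases (motive := fun _ => ℂ) (w.elim (fun z' => if z = z' then 1 else 0) (fun _ => 0))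
    (fun j => w.elim (fun _ => 0) (fun i => D.Vk j (k j) i (z j))) l

/-- coefficients of the one-variable functions -/
noncomputable def ucf (k : Fin m → ℕ) (l : Fin (m + 1)) (s : ℝ) (w : (Fin m → Y) ⊕ Y) : ℂ :=
  Fin.cases (motive := fun _ => ℂ)
    (w.elim (fun z => D.c (D.a₀ s) z * ((∏ j, Real.sqrt (D.ν j (z j))) / D.δ : ℝ)) (fun _ => 0))
    (fun j => w.elim (fun _ => 0) (fun i => D.uc j (k j) s i)) l

lemma ucf_norm (k : Fin m → ℕ) (l : Fin (m + 1)) {s : ℝ} (hs : s ∈ Icc (-1:ℝ) 1) :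
    ∑ w, ‖D.ucf k l s w‖ ^ 2 ≤ 1 := by
  refine Fin.cases ?_ (fun j => ?_) l
  · rw [Fintype.sum_sum_type]
    simp only [ucf, Fin.cases_zero, Sum.elim_inl, Sum.elim_inr, norm_zero]
    have hδ := D.δ0
    have h1 : ∀ z, ‖D.c (D.a₀ s) z * ((∏ j, Real.sqrt (D.ν j (z j))) / D.δ : ℝ)‖ ^ 2
        = ((∏ i, D.ν i (z i)) * ‖D.c (D.a₀ s) z‖ ^ 2) / D.δ ^ 2 := by
      intro z
      rw [norm_mul, Complex.norm_real, Real.norm_eq_abs, mul_pow, sq_abs, div_pow,
        ← Finset.prod_pow]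
      have : ∀ j, Real.sqrt (D.ν j (z j)) ^ 2 = D.ν j (z j) := fun j => Real.sq_sqrt (D.ν0 _ _)
      simp_rw [this]
      ring
    simp_rw [h1]
    rw [← Finset.sum_div]
    simp only [ne_eq, OfNat.ofNat_ne_zero, not_false_eq_true, zero_pow, Finset.sum_const_zero,
      add_zero]
    rw [div_le_one (by positivity)]
    exact D.row s hs
  · rw [Fintype.sum_sum_type]
    simp only [ucf, Fin.cases_succ, Sum.elim_inl, Sum.elim_inr, norm_zero]
    simp only [ne_eq, OfNat.ofNat_ne_zero, not_false_eq_true, zero_pow, Finset.sum_const_zero,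
      zero_add]
    exact D.uc_norm j (k j) hs

lemma measurable_ucf (k : Fin m → ℕ) (l : Fin (m + 1)) (w : (Fin m → Y) ⊕ Y) :
    Measurable (fun s => D.ucf k l s w) := by
  unfold ucf
  refine Fin.cases ?_ (fun j => ?_) l
  · simp only [Fin.cases_zero]
    rcases w with z | i
    · simp only [Sum.elim_inl]
      have : (fun s => D.c (D.a₀ s) z * ((∏ j, Real.sqrt (D.ν j (z j))) / D.δ : ℝ))
        = (fun b => D.c b z * ((∏ j, Real.sqrt (D.ν j (z j))) / D.δ : ℝ)) ∘ D.a₀ := rfl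
      rw [this]
      exact (measurable_of_countable _).comp D.ma₀
    · simp only [Sum.elim_inr]
      exact measurable_const
  · simp only [Fin.cases_succ]
    rcases w with z | i
    · simp only [Sum.elim_inl]
      exact measurable_const
    · simp only [Sum.elim_inr]
      exact D.measurable_uc j (k j) i

/-- scalar factor of the `l`-th variable -/
noncomputable def sg (k : Fin m → ℕ) (l : Fin (m + 1)) (s : ℝ) (z : Fin m → Y) : ℂ :=
  ∑ w, D.coef k l z w * D.ucf k l s w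

lemma sg_zero (k : Fin m → ℕ) (s : ℝ) (z : Fin m → Y) :
    D.sg k 0 s z = D.c (D.a₀ s) z * ((∏ j, Real.sqrt (D.ν j (z j))) / D.δ : ℝ) := by
  unfold sg coef ucf
  rw [Fintype.sum_sum_type]
  simp

lemma sg_succ (k : Fin m → ℕ) (j : Fin m) (s : ℝ) (z : Fin m → Y) :
    D.sg k j.succ s z = D.om j (k j) s (z j) := by
  unfold sg coef ucf om
  rw [Fintype.sum_sum_type]
  simp

lemma measurable_sg (k : Fin m → ℕ) (l : Fin (m + 1)) (z : Fin m → Y) :
    Measurable (fun s => D.sg k l s z) := by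
  unfold sg
  exact Finset.measurable_fun_sum _ fun w _ => (D.measurable_ucf k l w).const_mul _

/-- the amplitude -/
noncomputable def A (k : Fin m → ℕ) : ℝ := D.δ * ∏ j, D.R j (k j)

lemma A_pos (k : Fin m → ℕ) : 0 < D.A k :=
  mul_pos D.δ0 (Finset.prod_pos fun j _ => D.R_pos j _)

end BData

variable (D : BData m Y) (k : Fin m → ℕ)

/-- the linear maps `Λ` -/
noncomputable def Lam (F : HForm.{v} (m + 1)) (l : Fin (m + 1)) (z : Fin m → Y) :
    PiLp 2 (fun _ : (Fin m → Y) ⊕ Y => F.H l) →L[ℂ] F.H l :=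
  ∑ w, D.coef k l z w • PiLp.proj 2 (fun _ : (Fin m → Y) ⊕ Y => F.H l) w

lemma Lam_apply (F : HForm.{v} (m + 1)) (l : Fin (m + 1)) (z : Fin m → Y)
    (x : PiLp 2 (fun _ : (Fin m → Y) ⊕ Y => F.H l)) :
    Lam D k F l z x = ∑ w, D.coef k l z w • x w := by
  unfold Lam
  rw [_root_.sum_apply]
  rfl

/-- the multilinear form of a piece -/
noncomputable def pT (F : HForm.{v} (m + 1)) :
    ContinuousMultilinearMap ℂ (fun l : Fin (m + 1) =>
      PiLp 2 (fun _ : (Fin m → Y) ⊕ Y => F.H l)) ℂ :=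
  ((D.A k : ℝ) : ℂ) • ∑ z, F.T.compContinuousLinearMap (fun l => Lam D k F l z)

lemma pT_apply (F : HForm.{v} (m + 1))
    (x : ∀ l : Fin (m + 1), PiLp 2 (fun _ : (Fin m → Y) ⊕ Y => F.H l)) :
    pT D k F x = D.A k * ∑ z, F.T (fun l => Lam D k F l z (x l)) := by
  unfold pT
  rw [_root_.smul_apply, _root_.sum_apply, smul_eq_mul]
  rfl

lemma Lam_zero (F : HForm.{v} (m + 1)) (z : Fin m → Y)
    (x : PiLp 2 (fun _ : (Fin m → Y) ⊕ Y => F.H 0)) :
    Lam D k F 0 z x = x (Sum.inl z) := by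
  rw [Lam_apply, Fintype.sum_sum_type]
  simp [BData.coef]

lemma Lam_succ (F : HForm.{v} (m + 1)) (j : Fin m) (z : Fin m → Y)
    (x : PiLp 2 (fun _ : (Fin m → Y) ⊕ Y => F.H j.succ)) :
    Lam D k F j.succ z x = ∑ i, D.Vk j (k j) i (z j) • x (Sum.inr i) := by
  rw [Lam_apply, Fintype.sum_sum_type]
  simp [BData.coef]

omit [DecidableEq Y] [MeasurableSpace Y] [MeasurableSingletonClass Y] in
lemma sum_inl_le {E : Type*} [NormedAddCommGroup E]
    (x : PiLp 2 (fun _ : (Fin m → Y) ⊕ Y => E)) : ∑ z, ‖x (Sum.inl z)‖ ^ 2 ≤ ‖x‖ ^ 2 := by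
  rw [PiLp.norm_sq_eq_of_L2, Fintype.sum_sum_type]
  have : 0 ≤ ∑ i, ‖x (Sum.inr i)‖ ^ 2 := Finset.sum_nonneg fun _ _ => by positivity
  linarith

omit [DecidableEq Y] [MeasurableSpace Y] [MeasurableSingletonClass Y] in
lemma sum_inr_le {E : Type*} [NormedAddCommGroup E]
    (x : PiLp 2 (fun _ : (Fin m → Y) ⊕ Y => E)) : ∑ i, ‖x (Sum.inr i)‖ ^ 2 ≤ ‖x‖ ^ 2 := by
  rw [PiLp.norm_sq_eq_of_L2, Fintype.sum_sum_type]
  have : 0 ≤ ∑ z, ‖x (Sum.inl z)‖ ^ 2 := Finset.sum_nonneg fun _ _ => by positivity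
  linarith

lemma sum_mul_prod_le {m : ℕ} {Y : Type} [Fintype Y] [DecidableEq Y]
    (x₀ : (Fin m → Y) → ℝ) (X : Fin m → Y → ℝ)
    (B : Fin (m + 1) → ℝ) (hB : ∀ l, 0 ≤ B l) (h0 : ∑ z, x₀ z ^ 2 ≤ B 0 ^ 2)
    (h1 : ∀ j, ∑ y, X j y ^ 2 ≤ B j.succ ^ 2) :
    ∑ z, x₀ z * ∏ j, X j (z j) ≤ ∏ l, B l := by
  have h3 : ∑ z : Fin m → Y, (∏ j, X j (z j)) ^ 2 = ∏ j, ∑ y, X j y ^ 2 := by
    rw [Fintype.prod_sum (fun j y => X j y ^ 2)]
    apply Finset.sum_congr rfl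
    intro z _
    exact (Finset.prod_pow _ _ _).symm
  have h4 : (∑ z, x₀ z * ∏ j, X j (z j)) ^ 2 ≤ (∑ z, x₀ z ^ 2) * ∑ z : Fin m → Y, (∏ j, X j (z j)) ^ 2 :=
    Finset.sum_mul_sq_le_sq_mul_sq Finset.univ x₀ (fun z => ∏ j, X j (z j))
  have h5 : ∏ j, ∑ y, X j y ^ 2 ≤ ∏ j : Fin m, B j.succ ^ 2 := by
    apply Finset.prod_le_prod
    · intro j _
      exact Finset.sum_nonneg fun _ _ => by positivity
    · intro j _
      exact h1 j
  have h6 : (0:ℝ) ≤ ∏ j, ∑ y, X j y ^ 2 := Finset.prod_nonneg fun j _ =>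
      Finset.sum_nonneg fun _ _ => by positivity
  have h2 : (∑ z, x₀ z * ∏ j, X j (z j)) ^ 2 ≤ (∏ l, B l) ^ 2 := by
    rw [Fin.prod_univ_succ, mul_pow, ← Finset.prod_pow]
    rw [h3] at h4
    exact h4.trans (mul_le_mul h0 h5 h6 (sq_nonneg _))
  exact (abs_le_of_sq_le_sq' h2 (Finset.prod_nonneg fun _ _ => hB _)).2

lemma norm_pT_le (F : HForm.{v} (m + 1)) (hF : ‖F.T‖ ≤ 1) : ‖pT D k F‖ ≤ D.A k := by
  apply ContinuousMultilinearMap.opNorm_le_bound (D.A_pos k).le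
  intro x
  rw [pT_apply, norm_mul, Complex.norm_real, Real.norm_eq_abs, abs_of_pos (D.A_pos k)]
  apply mul_le_mul_of_nonneg_left _ (D.A_pos k).le
  have h0 : ∑ z, ‖x 0 (Sum.inl z)‖ ^ 2 ≤ ‖x 0‖ ^ 2 := sum_inl_le (x 0)
  have hXb : ∀ j : Fin m, ∑ y, ‖∑ i, D.Vk j (k j) i y • x j.succ (Sum.inr i)‖ ^ 2
      ≤ ‖x j.succ‖ ^ 2 := by
    intro j
    exact (Vk_bessel D j (k j) (fun i => x j.succ (Sum.inr i))).trans (sum_inr_le (x j.succ))
  have h1 : ∀ z, ‖F.T (fun l => Lam D k F l z (x l))‖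
      ≤ ‖x 0 (Sum.inl z)‖ * ∏ j : Fin m, ‖∑ i, D.Vk j (k j) i (z j) • x j.succ (Sum.inr i)‖ := by
    intro z
    calc ‖F.T (fun l => Lam D k F l z (x l))‖ ≤ ‖F.T‖ * ∏ l, ‖Lam D k F l z (x l)‖ :=
          F.T.le_opNorm _
      _ ≤ 1 * ∏ l, ‖Lam D k F l z (x l)‖ := by
          apply mul_le_mul_of_nonneg_right hF
          exact Finset.prod_nonneg fun _ _ => norm_nonneg _
      _ = _ := by
          rw [one_mul, Fin.prod_univ_succ, Lam_zero]
          congr 1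
          apply Finset.prod_congr rfl
          intro j _
          rw [Lam_succ]
  have h3 : (∑ z, ‖x 0 (Sum.inl z)‖ *
      ∏ j : Fin m, ‖∑ i, D.Vk j (k j) i (z j) • x j.succ (Sum.inr i)‖) ≤ ∏ l, ‖x l‖ := by
    generalize hx0 : (fun z : Fin m → Y => ‖x 0 (Sum.inl z)‖) = x₀ at h0
    generalize hX : (fun (j : Fin m) (y : Y) =>
      ‖∑ i, D.Vk j (k j) i y • x j.succ (Sum.inr i)‖) = X at hXb
    generalize hB : (fun l => ‖x l‖) = B
    have e0 : ∀ z, ‖x 0 (Sum.inl z)‖ = x₀ z := fun z => congrFun hx0 z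
    have e1 : ∀ (j : Fin m) (y : Y), ‖∑ i, D.Vk j (k j) i y • x j.succ (Sum.inr i)‖ = X j y :=
      fun j y => congrFun (congrFun hX j) y
    have e2 : ∀ l, ‖x l‖ = B l := fun l => congrFun hB l
    simp_rw [e0] at h0 ⊢
    simp_rw [e1] at hXb ⊢
    simp_rw [e2] at hXb ⊢
    rw [e2] at h0
    exact sum_mul_prod_le x₀ X B (fun l => by rw [← e2]; exact norm_nonneg _) h0 hXb
  calc ‖∑ z, F.T (fun l => Lam D k F l z (x l))‖
      ≤ ∑ z, ‖F.T (fun l => Lam D k F l z (x l))‖ := norm_sum_le _ _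
    _ ≤ _ := Finset.sum_le_sum fun z _ => h1 z
    _ ≤ ∏ l, ‖x l‖ := h3

/-- the piece -/
noncomputable def piece (F : HForm.{v} (m + 1)) : HForm.{v} (m + 1) where
  H l := PiLp 2 (fun _ : (Fin m → Y) ⊕ Y => F.H l)
  T := pT D k F
  u l s := WithLp.toLp 2 (fun w => D.ucf k l s w • F.u l s)
  sm l := by
    apply (PiLp.continuous_toLp 2 _).comp_stronglyMeasurable
    apply stronglyMeasurable_pi'
    intro w
    exact (D.measurable_ucf k l w).stronglyMeasurable.smul (F.sm l)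
  bd l s hs := by
    have h1 : ‖(WithLp.toLp 2 (fun w => D.ucf k l s w • F.u l s) :
        PiLp 2 (fun _ : (Fin m → Y) ⊕ Y => F.H l))‖ ^ 2 ≤ 1 := by
      rw [PiLp.norm_sq_eq_of_L2]
      calc ∑ w, ‖D.ucf k l s w • F.u l s‖ ^ 2
          = (∑ w, ‖D.ucf k l s w‖ ^ 2) * ‖F.u l s‖ ^ 2 := by
            rw [Finset.sum_mul]
            apply Finset.sum_congr rfl
            intro k _
            rw [norm_smul, mul_pow]
        _ ≤ 1 * 1 := by
            apply mul_le_mul (D.ucf_norm k l hs) _ (by positivity) zero_le_one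
            exact pow_le_one₀ (norm_nonneg _) (F.bd l s hs)
        _ = 1 := one_mul 1
    exact (sq_le_one_iff₀ (norm_nonneg _)).1 h1

/-- the vector functions of a piece -/
noncomputable def pu (F : HForm.{v} (m + 1)) (l : Fin (m + 1)) (s : ℝ) :
    PiLp 2 (fun _ : (Fin m → Y) ⊕ Y => F.H l) :=
  WithLp.toLp 2 (fun w => D.ucf k l s w • F.u l s)

lemma Lam_u (F : HForm.{v} (m + 1)) (l : Fin (m + 1)) (z : Fin m → Y) (s : ℝ) :
    Lam D k F l z (pu D k F l s) = D.sg k l s z • F.u l s := by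
  unfold pu
  rw [Lam_apply]
  simp only
  simp_rw [smul_smul]
  rw [← Finset.sum_smul]
  rfl

/-- the array of a piece -/
noncomputable def pv (b : Y) (y : Fin m → Y) : ℂ :=
  ∑ z, D.c b z * ∏ j, ((Real.sqrt (D.ν j (z j)) : ℂ) *
    (∑ i, D.Vk j (k j) i (z j) * conj (D.Vk j (k j) i (y j))) / (Real.sqrt (D.ν j (y j)) : ℂ))

lemma piece_val (F : HForm.{v} (m + 1)) (ξ : Fin (m + 1) → ℝ) :
    (piece D k F).val ξ = F.val ξ * pv D k (D.a₀ (ξ 0)) (fun j => D.a j (ξ j.succ)) := by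
  have h1 : (piece D k F).val ξ = D.A k * ∑ z, F.T (fun l => D.sg k l (ξ l) z • F.u l (ξ l)) := by
    have : (piece D k F).val ξ = pT D k F (fun l => pu D k F l (ξ l)) := rfl
    rw [this, pT_apply]
    simp_rw [Lam_u]
  rw [h1]
  have h2 : ∀ z, F.T (fun l => D.sg k l (ξ l) z • F.u l (ξ l))
      = (∏ l, D.sg k l (ξ l) z) * F.val ξ := by
    intro z
    rw [ContinuousMultilinearMap.map_smul_univ F.T (fun l => D.sg k l (ξ l) z)
      (fun l => F.u l (ξ l)), smul_eq_mul]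
    rfl
  simp_rw [h2]
  rw [← Finset.sum_mul, mul_comm (F.val ξ), ← mul_assoc]
  congr 1
  unfold pv
  rw [Finset.mul_sum]
  apply Finset.sum_congr rfl
  intro z _
  rw [Fin.prod_univ_succ, D.sg_zero]
  simp_rw [D.sg_succ, D.om_eq]
  unfold BData.A
  have hδ : (D.δ : ℂ) ≠ 0 := by exact_mod_cast D.δ0.ne'
  have hR : ∀ j, (D.R j (k j) : ℂ) ≠ 0 := fun j => by exact_mod_cast (D.R_pos j (k j)).ne'
  push_cast
  have e1 : ∀ j, (∑ i, D.Vk j (k j) i (z j) * conj (D.Vk j (k j) i (D.a j (ξ j.succ)))) /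
      ((Real.sqrt (D.ν j (D.a j (ξ j.succ))) : ℂ) * (D.R j (k j) : ℂ))
      = ((∑ i, D.Vk j (k j) i (z j) * conj (D.Vk j (k j) i (D.a j (ξ j.succ)))) /
        (Real.sqrt (D.ν j (D.a j (ξ j.succ))) : ℂ)) * (D.R j (k j) : ℂ)⁻¹ := by
    intro j
    rw [div_mul_eq_div_div]
    ring
  simp_rw [e1]
  rw [Finset.prod_mul_distrib, Finset.prod_inv_distrib]
  have e2 : ∏ j : Fin m, (D.R j (k j) : ℂ) ≠ 0 := Finset.prod_ne_zero_iff.2 fun j _ => hR j
  have e3 : ∏ j : Fin m, ((Real.sqrt (D.ν j (z j)) : ℂ) *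
      (∑ i, D.Vk j (k j) i (z j) * conj (D.Vk j (k j) i (D.a j (ξ j.succ)))) /
        (Real.sqrt (D.ν j (D.a j (ξ j.succ))) : ℂ))
      = (∏ j : Fin m, (Real.sqrt (D.ν j (z j)) : ℂ)) *
        ∏ j : Fin m, ((∑ i, D.Vk j (k j) i (z j) * conj (D.Vk j (k j) i (D.a j (ξ j.succ)))) /
        (Real.sqrt (D.ν j (D.a j (ξ j.succ))) : ℂ)) := by
    rw [← Finset.prod_mul_distrib]
    apply Finset.prod_congr rfl
    intro j _
    rw [mul_div_assoc]
  rw [e3]
  field_simp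

end Pool.Agent.H.MP_b7167f_an
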