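import Mathlib
import Pool.Agent.H.MP_b7167f_an.BlockForm

open MeasureTheory Set
open scoped ENNReal NNReal ComplexConjugate

namespace Pool.Agent.H.MP_b7167f_an

universe v

section slot

variable {n : ℕ}

/-- a product form at scaled vectors with one free slot -/
lemma map_smul_update (F : HForm.{v} n) (c : Fin n → ℂ) (ξ : Fin n → ℝ) (l : Fin n) (w : F.H l) :
    F.T (Function.update (fun i => c i • F.u i (ξ i)) l w)
      = (∏ i ∈ Finset.univ.erase l, c i) * F.T (Function.update (fun i => F.u i (ξ i)) l w) := by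
  have h1 : Function.update (fun i => c i • F.u i (ξ i)) l w
      = fun i => (Function.update c l 1) i • (Function.update (fun i => F.u i (ξ i)) l w) i := by
    funext i
    by_cases hi : i = l
    · subst hi; simp
    · simp [Function.update_of_ne hi]
  rw [h1, F.T.map_smul_univ, smul_eq_mul]
  congr 1
  rw [Finset.prod_update_of_mem (Finset.mem_univ l), one_mul, Finset.sdiff_singleton_eq_erase]

/-- the linear functional with one free slot -/
noncomputable def slot (F : HForm.{v} n) (l : Fin n) (ξ : Fin n → ℝ) : F.H l →L[ℂ] ℂ :=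
  F.T.toContinuousLinearMap (fun i => F.u i (ξ i)) l

lemma slot_apply (F : HForm.{v} n) (l : Fin n) (ξ : Fin n → ℝ) (w : F.H l) :
    slot F l ξ w = F.T (Function.update (fun i => F.u i (ξ i)) l w) := rfl

lemma norm_slot_le (F : HForm.{v} n) (hF : ‖F.T‖ ≤ 1) (l : Fin n) {ξ : Fin n → ℝ}
    (hξ : ξ ∈ cube n) (w : F.H l) : ‖slot F l ξ w‖ ≤ ‖w‖ := by
  rw [slot_apply]
  have h1 : ∀ i, ‖(Function.update (fun i => F.u i (ξ i)) l w) i‖
      = Function.update (fun i => ‖F.u i (ξ i)‖) l ‖w‖ i := by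
    intro i
    by_cases hi : i = l
    · subst hi; simp
    · simp [Function.update_of_ne hi]
  calc ‖F.T (Function.update (fun i => F.u i (ξ i)) l w)‖
      ≤ ‖F.T‖ * ∏ i, ‖(Function.update (fun i => F.u i (ξ i)) l w) i‖ := F.T.le_opNorm _
    _ ≤ 1 * ∏ i, ‖(Function.update (fun i => F.u i (ξ i)) l w) i‖ := by
        apply mul_le_mul_of_nonneg_right hF
        exact Finset.prod_nonneg fun _ _ => norm_nonneg _
    _ = ‖w‖ * ∏ i ∈ Finset.univ \ {l}, ‖F.u i (ξ i)‖ := by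
        rw [one_mul]
        simp_rw [h1]
        rw [Finset.prod_update_of_mem (Finset.mem_univ l)]
    _ ≤ ‖w‖ * 1 := by
        apply mul_le_mul_of_nonneg_left _ (norm_nonneg _)
        apply Finset.prod_le_one
        · intro i _; exact norm_nonneg _
        · intro i _; exact F.bd i _ (mem_cube.1 hξ i)
    _ = ‖w‖ := mul_one _

end slot

lemma prod_erase_zero {m : ℕ} (c : Fin (m + 1) → ℂ) :
    ∏ i ∈ Finset.univ.erase 0, c i = ∏ j : Fin m, c j.succ := by
  have h1 := Finset.prod_update_of_mem (Finset.mem_univ (0 : Fin (m + 1))) c 1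
  rw [one_mul, Finset.sdiff_singleton_eq_erase] at h1
  rw [← h1, Fin.prod_univ_succ]
  simp

lemma prod_erase_succ {m : ℕ} (c : Fin (m + 1) → ℂ) (j₀ : Fin m) :
    ∏ i ∈ Finset.univ.erase j₀.succ, c i = c 0 * ∏ j ∈ Finset.univ.erase j₀, c j.succ := by
  have h1 := Finset.prod_update_of_mem (Finset.mem_univ j₀.succ) c 1
  rw [one_mul, Finset.sdiff_singleton_eq_erase] at h1
  have h2 := Finset.prod_update_of_mem (Finset.mem_univ j₀) (fun j : Fin m => c j.succ) 1
  rw [one_mul, Finset.sdiff_singleton_eq_erase] at h2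
  rw [← h1, ← h2, Fin.prod_univ_succ]
  congr 1
  apply Finset.prod_congr rfl
  intro j _
  by_cases hj : j = j₀
  · subst hj; simp
  · rw [Function.update_of_ne hj, Function.update_of_ne (by simpa using hj)]

variable {m : ℕ} {Y : Type} [Fintype Y] [DecidableEq Y] [MeasurableSpace Y]
    [MeasurableSingletonClass Y]

variable (D : BData m Y) (k : Fin m → ℕ)

lemma piece_update (F : HForm.{v} (m + 1)) (l : Fin (m + 1)) (ξ : Fin (m + 1) → ℝ)
    (h : PiLp 2 (fun _ : (Fin m → Y) ⊕ Y => F.H l)) :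
    pT D k F (Function.update (fun i => pu D k F i (ξ i)) l h)
      = D.A k * slot F l ξ (∑ z, (∏ i ∈ Finset.univ.erase l, D.sg k i (ξ i) z) •
          Lam D k F l z h) := by
  rw [pT_apply]
  congr 1
  rw [map_sum]
  apply Finset.sum_congr rfl
  intro z _
  have h1 : (fun l' => Lam D k F l' z (Function.update (fun i => pu D k F i (ξ i)) l h l'))
      = Function.update (fun l' => D.sg k l' (ξ l') z • F.u l' (ξ l')) l (Lam D k F l z h) := by
    funext i
    by_cases hi : i = l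
    · subst hi; simp
    · rw [Function.update_of_ne hi, Function.update_of_ne hi, Lam_u]
  rw [h1, map_smul_update, map_smul, smul_eq_mul, slot_apply]

lemma A_sq_mul (l : Finset (Fin m)) :
    D.A k ^ 2 * ∏ j ∈ l, (4 / D.R j (k j) ^ 2)
      = D.δ ^ 2 * 4 ^ l.card * ∏ j ∈ lᶜ, D.R j (k j) ^ 2 := by
  unfold BData.A
  rw [mul_pow, ← Finset.prod_pow, ← Finset.prod_mul_prod_compl l (fun j => D.R j (k j) ^ 2)]
  have h1 : (∏ j ∈ l, D.R j (k j) ^ 2) * ∏ j ∈ l, (4 / D.R j (k j) ^ 2) = 4 ^ l.card := by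
    rw [← Finset.prod_mul_distrib, Finset.prod_congr rfl (g := fun _ => (4:ℝ)),
      Finset.prod_const]
    intro j _
    have := D.R_pos j (k j)
    field_simp
  calc D.δ ^ 2 * ((∏ j ∈ l, D.R j (k j) ^ 2) * ∏ j ∈ lᶜ, D.R j (k j) ^ 2) *
        ∏ j ∈ l, (4 / D.R j (k j) ^ 2)
      = D.δ ^ 2 * ((∏ j ∈ l, D.R j (k j) ^ 2) * ∏ j ∈ l, (4 / D.R j (k j) ^ 2)) *
        ∏ j ∈ lᶜ, D.R j (k j) ^ 2 := by ring
    _ = _ := by rw [h1]

omit [DecidableEq Y] [MeasurableSpace Y] [MeasurableSingletonClass Y] in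
lemma esum_inl_le {E : Type*} [NormedAddCommGroup E]
    (x : PiLp 2 (fun _ : (Fin m → Y) ⊕ Y => E)) :
    ∑ z, ‖x (Sum.inl z)‖ₑ ^ 2 ≤ ‖x‖ₑ ^ 2 := by
  simp_rw [enorm_sq_eq]
  rw [← ENNReal.ofReal_sum_of_nonneg (fun _ _ => by positivity)]
  exact ENNReal.ofReal_le_ofReal (sum_inl_le x)

omit [DecidableEq Y] [MeasurableSpace Y] [MeasurableSingletonClass Y] in
lemma esum_inr_le {E : Type*} [NormedAddCommGroup E]
    (x : PiLp 2 (fun _ : (Fin m → Y) ⊕ Y => E)) :
    ∑ i, ‖x (Sum.inr i)‖ₑ ^ 2 ≤ ‖x‖ₑ ^ 2 := by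
  simp_rw [enorm_sq_eq]
  rw [← ENNReal.ofReal_sum_of_nonneg (fun _ _ => by positivity)]
  exact ENNReal.ofReal_le_ofReal (sum_inr_le x)

lemma K_zero (F : HForm.{v} (m + 1)) (hF : ‖F.T‖ ≤ 1)
    (h : PiLp 2 (fun _ : (Fin m → Y) ⊕ Y => F.H 0)) :
    ∫⁻ ξ in cube (m + 1), ‖pT D k F (Function.update (fun i => pu D k F i (ξ i)) 0 h)‖ₑ ^ 2
      ≤ ENNReal.ofReal (2 * 4 ^ m * D.δ ^ 2) * ‖h‖ₑ ^ 2 := by
  have h1 : ∀ ξ ∈ cube (m + 1),
      ‖pT D k F (Function.update (fun i => pu D k F i (ξ i)) 0 h)‖ₑ ^ 2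
      ≤ ENNReal.ofReal (D.A k ^ 2) *
        ‖∑ z, (∏ j : Fin m, D.om j (k j) (ξ j.succ) (z j)) • h (Sum.inl z)‖ₑ ^ 2 := by
    intro ξ hξ
    rw [piece_update]
    have e1 : ∀ z, (∏ i ∈ Finset.univ.erase 0, D.sg k i (ξ i) z) • Lam D k F 0 z h
        = (∏ j : Fin m, D.om j (k j) (ξ j.succ) (z j)) • h (Sum.inl z) := by
      intro z
      rw [Lam_zero, prod_erase_zero (fun i => D.sg k i (ξ i) z)]
      simp_rw [D.sg_succ]
    simp_rw [e1]
    generalize (∑ z, (∏ j : Fin m, D.om j (k j) (ξ j.succ) (z j)) • h (Sum.inl z)) = w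
    rw [enorm_sq_eq, enorm_sq_eq, norm_mul, mul_pow, Complex.norm_real, Real.norm_eq_abs, sq_abs,
      ← ENNReal.ofReal_mul (sq_nonneg _)]
    apply ENNReal.ofReal_le_ofReal
    have := norm_slot_le F hF 0 hξ w
    gcongr
  calc _ ≤ ∫⁻ ξ in cube (m + 1), ENNReal.ofReal (D.A k ^ 2) *
        ‖∑ z, (∏ j : Fin m, D.om j (k j) (ξ j.succ) (z j)) • h (Sum.inl z)‖ₑ ^ 2 :=
        setLIntegral_mono' measurableSet_cube h1
    _ = ENNReal.ofReal (D.A k ^ 2) * ∫⁻ ξ in cube (m + 1),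
        ‖∑ z, (∏ j : Fin m, D.om j (k j) (ξ j.succ) (z j)) • h (Sum.inl z)‖ₑ ^ 2 :=
        lintegral_const_mul' _ _ ENNReal.ofReal_ne_top
    _ ≤ ENNReal.ofReal (D.A k ^ 2) *
        (2 * (∏ j, ENNReal.ofReal (4 / D.R j (k j) ^ 2)) * ∑ z, ‖h (Sum.inl z)‖ₑ ^ 2) := by
        gcongr
        exact kA (E := F.H 0) (ω := fun j s y => D.om j (k j) s y)
          (κ := fun j => ENNReal.ofReal (4 / D.R j (k j) ^ 2))
          (fun j y => D.measurable_om j (k j) y) (fun j g => D.om_kappa j (k j) g)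
          (fun z => h (Sum.inl z))
    _ ≤ ENNReal.ofReal (D.A k ^ 2) *
        (2 * (∏ j, ENNReal.ofReal (4 / D.R j (k j) ^ 2)) * ‖h‖ₑ ^ 2) := by
        gcongr
        exact esum_inl_le h
    _ = _ := by
        rw [← ENNReal.ofReal_prod_of_nonneg (fun j _ => by positivity), ← mul_assoc]
        congr 1
        have e3 : (2:ℝ≥0∞) = ENNReal.ofReal 2 := by norm_num
        rw [e3, ← ENNReal.ofReal_mul (by norm_num), ← ENNReal.ofReal_mul (by positivity)]
        congr 1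
        have := A_sq_mul D k Finset.univ
        simp only [Finset.card_univ, Fintype.card_fin, Finset.compl_univ, Finset.prod_empty,
          mul_one] at this
        linear_combination 2 * this

end Pool.Agent.H.MP_b7167f_an
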