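import Mathlib
import Pool.Agent.H.MP_b7167f_an.BlockBound

open MeasureTheory Set
open scoped ENNReal NNReal ComplexConjugate

namespace Pool.Agent.H.MP_b7167f_an

universe v

variable {m : ℕ} {Y : Type} [Fintype Y] [DecidableEq Y] [MeasurableSpace Y]
    [MeasurableSingletonClass Y]

variable (D : BData m Y) (k : Fin m → ℕ)

/-- the spectral part of the column estimate -/
lemma spectral (j : Fin m) (l : ℕ) {E : Type*} [NormedAddCommGroup E] [InnerProductSpace ℂ E]
    (h : Y → E) :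
    ∑ x, ‖∑ y, D.G j x y • ∑ i, D.Vk j l i y • h i‖ ^ 2
      ≤ 2 ^ l * (D.δ ^ 2 / (2 * D.N j)) * ∑ i, ‖h i‖ ^ 2 := by
  have h1 := orth (W := fun i x => ∑ b, D.G j x b * D.V j i b) (lam := D.lam j)
    (fun i i' => D.GV_col j i i') (fun i => if D.lv j i = l then h i else 0)
  have h2 : ∀ x, ∑ y, D.G j x y • ∑ i, D.Vk j l i y • h i
      = ∑ i, (∑ b, D.G j x b * D.V j i b) • (if D.lv j i = l then h i else 0) := by
    intro x
    simp_rw [Finset.smul_sum, Finset.sum_smul]
    rw [Finset.sum_comm]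
    apply Finset.sum_congr rfl
    intro i _
    apply Finset.sum_congr rfl
    intro y _
    unfold BData.Vk
    split_ifs
    · rw [smul_smul]
    · simp
  simp_rw [h2]
  rw [h1, Finset.mul_sum]
  apply Finset.sum_le_sum
  intro i _
  have hN := D.N0 j
  have hδ := D.δ0
  split_ifs with hi
  · have := D.lam_le j i
    rw [hi] at this
    gcongr
  · simp
    positivity

/-- the quantity of the column estimate for a fixed letter `b` of the rough variable -/
noncomputable def psi (j : Fin m) {E : Type*} [NormedAddCommGroup E] [InnerProductSpace ℂ E]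
    (x : Y → E) (b : Y) : ℝ :=
  1 / D.δ ^ 2 * ∑ z : Fin m → Y, (∏ i, D.ν i (z i)) *
    ‖∑ y, (D.c b (Function.update z j y) * (Real.sqrt (D.ν j y) : ℂ)) • x y‖ ^ 2

lemma psi_nonneg (j : Fin m) {E : Type*} [NormedAddCommGroup E] [InnerProductSpace ℂ E]
    (x : Y → E) (b : Y) : 0 ≤ psi D j x b := by
  unfold psi
  apply mul_nonneg (by positivity)
  apply Finset.sum_nonneg
  intro z _
  exact mul_nonneg (D.nuprod_nonneg z) (by positivity)

lemma inner_eq (j : Fin m) {E : Type*} [NormedAddCommGroup E] [InnerProductSpace ℂ E]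
    (x : Y → E) (y₀ : Y) (s : ℝ) :
    ∑ z : Fin m → Y, (if z j = y₀ then
      ‖∑ y, D.sg k 0 s (Function.update z j y) • x y‖ₑ ^ 2 else 0)
      = ENNReal.ofReal (psi D j x (D.a₀ s)) := by
  set b := D.a₀ s with hb
  have hδ := D.δ0
  -- the factor not depending on the `j`-th letter
  set ρ : (Fin m → Y) → ℝ := fun z => ∏ i ∈ Finset.univ.erase j, D.ν i (z i) with hρ
  have hρ0 : ∀ z, 0 ≤ ρ z := fun z => Finset.prod_nonneg fun i _ => D.ν0 i _
  set Ψ : (Fin m → Y) → ℝ := fun z =>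
    ‖∑ y, (D.c b (Function.update z j y) * (Real.sqrt (D.ν j y) : ℂ)) • x y‖ ^ 2 with hΨ
  have h1 : ∀ z : Fin m → Y, ‖∑ y, D.sg k 0 s (Function.update z j y) • x y‖ₑ ^ 2
      = ENNReal.ofReal (1 / D.δ ^ 2 * (ρ z * Ψ z)) := by
    intro z
    have e1 : ∑ y, D.sg k 0 s (Function.update z j y) • x y
        = ((∏ i ∈ Finset.univ.erase j, Real.sqrt (D.ν i (z i))) / D.δ : ℝ) •
          ∑ y, (D.c b (Function.update z j y) * (Real.sqrt (D.ν j y) : ℂ)) • x y := by
      rw [Finset.smul_sum]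
      apply Finset.sum_congr rfl
      intro y _
      rw [D.sg_zero, ← hb, ← Finset.mul_prod_erase _ _ (Finset.mem_univ j)]
      have e2 : ∏ i ∈ Finset.univ.erase j, Real.sqrt (D.ν i (Function.update z j y i))
          = ∏ i ∈ Finset.univ.erase j, Real.sqrt (D.ν i (z i)) := by
        apply Finset.prod_congr rfl
        intro i hi
        rw [Function.update_of_ne (Finset.mem_erase.1 hi).1]
      rw [e2, Function.update_self, ← Complex.coe_smul, smul_smul]
      congr 1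
      push_cast
      ring
    rw [enorm_sq_eq, e1, norm_smul, mul_pow, Real.norm_eq_abs, sq_abs, div_pow,
      ← Finset.prod_pow]
    congr 1
    have e3 : ∏ i ∈ Finset.univ.erase j, Real.sqrt (D.ν i (z i)) ^ 2 = ρ z := by
      apply Finset.prod_congr rfl
      intro i _
      exact Real.sq_sqrt (D.ν0 _ _)
    rw [e3]
    simp only [hΨ]
    ring
  simp_rw [h1]
  have h2 : ∀ z : Fin m → Y, (if z j = y₀ then ENNReal.ofReal (1 / D.δ ^ 2 * (ρ z * Ψ z)) else 0)
      = ENNReal.ofReal (1 / D.δ ^ 2 * (if z j = y₀ then ρ z * Ψ z else 0)) := by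
    intro z
    split_ifs <;> simp
  simp_rw [h2]
  rw [← ENNReal.ofReal_sum_of_nonneg]
  swap
  · intro z _
    apply mul_nonneg (by positivity)
    split_ifs
    · exact mul_nonneg (hρ0 z) (by simp only [hΨ]; positivity)
    · exact le_rfl
  congr 1
  rw [← Finset.mul_sum]
  unfold psi
  congr 1
  have h3 := sum_update_dummy (R := ℝ) j (D.ν j) (fun z => if z j = y₀ then ρ z * Ψ z else 0)
  rw [D.ν1 j, one_smul] at h3
  rw [← h3]
  apply Finset.sum_congr rfl
  intro z _
  have h4 : ∀ y, (if (Function.update z j y) j = y₀ then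
      ρ (Function.update z j y) * Ψ (Function.update z j y) else 0)
      = if y = y₀ then ρ z * Ψ z else 0 := by
    intro y
    have e1 : ρ (Function.update z j y) = ρ z := by
      simp only [hρ]
      apply Finset.prod_congr rfl
      intro i hi
      rw [Function.update_of_ne (Finset.mem_erase.1 hi).1]
    have e2 : Ψ (Function.update z j y) = Ψ z := by
      simp only [hΨ, Function.update_idem]
    rw [e1, e2, Function.update_self]
  simp_rw [h4]
  rw [Finset.sum_ite_eq' Finset.univ y₀, if_pos (Finset.mem_univ _), smul_eq_mul, ← mul_assoc]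
  congr 1
  simp only [hρ]
  rw [Finset.mul_prod_erase Finset.univ (fun i => D.ν i (z i)) (Finset.mem_univ j)]

/-- the column estimate -/
lemma core (j : Fin m) {E : Type*} [NormedAddCommGroup E] [InnerProductSpace ℂ E]
    (h : Y → E) (y₀ : Y) :
    ∫⁻ s in Icc (-1:ℝ) 1, ∑ z : Fin m → Y, (if z j = y₀ then
      ‖∑ y, D.sg k 0 s (Function.update z j y) • ∑ i, D.Vk j (k j) i y • h i‖ₑ ^ 2 else 0)
      ≤ ENNReal.ofReal (2 ^ (k j) / D.N j) * ∑ i, ‖h i‖ₑ ^ 2 := by
  have hN := D.N0 j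
  have hδ := D.δ0
  set x : Y → E := fun y => ∑ i, D.Vk j (k j) i y • h i with hx
  have h1 : ∫⁻ s in Icc (-1:ℝ) 1, ∑ z : Fin m → Y, (if z j = y₀ then
      ‖∑ y, D.sg k 0 s (Function.update z j y) • ∑ i, D.Vk j (k j) i y • h i‖ₑ ^ 2 else 0)
      = ∫⁻ s in Icc (-1:ℝ) 1, ENNReal.ofReal (psi D j x (D.a₀ s)) :=
    lintegral_congr fun s => inner_eq D k j x y₀ s
  rw [h1]
  rw [lintegral_comp_fintype D.ma₀ (fun b => ENNReal.ofReal (psi D j x b))]
  have h2 : ∀ b, 2 * D.β₀ b * psi D j x b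
      = 2 / D.δ ^ 2 * ∑ z : Fin m → Y, ‖∑ y, D.G j (b, z) y • x y‖ ^ 2 := by
    intro b
    unfold psi
    have e1 : ∀ z : Fin m → Y, ‖∑ y, D.G j (b, z) y • x y‖ ^ 2
        = D.β₀ b * ((∏ i, D.ν i (z i)) *
          ‖∑ y, (D.c b (Function.update z j y) * (Real.sqrt (D.ν j y) : ℂ)) • x y‖ ^ 2) := by
      intro z
      have hn : 0 ≤ D.β₀ b * ∏ i, D.ν i (z i) := mul_nonneg (D.β0 _) (D.nuprod_nonneg _)
      have e2 : ∑ y, D.G j (b, z) y • x y = (Real.sqrt (D.β₀ b * ∏ i, D.ν i (z i)) : ℝ) •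
          ∑ y, (D.c b (Function.update z j y) * (Real.sqrt (D.ν j y) : ℂ)) • x y := by
        rw [Finset.smul_sum]
        apply Finset.sum_congr rfl
        intro y _
        unfold BData.G
        rw [← Complex.coe_smul, smul_smul]
        congr 1
        push_cast
        ring
      rw [e2, norm_smul, mul_pow, Real.norm_eq_abs, sq_abs, Real.sq_sqrt hn]
      ring
    simp_rw [e1]
    rw [← Finset.mul_sum]
    ring
  calc ∑ b, ENNReal.ofReal (psi D j x b) * volume (Icc (-1:ℝ) 1 ∩ D.a₀ ⁻¹' {b})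
      ≤ ∑ b, ENNReal.ofReal (2 * D.β₀ b * psi D j x b) := by
        apply Finset.sum_le_sum
        intro b _
        calc _ ≤ ENNReal.ofReal (psi D j x b) * ENNReal.ofReal (2 * D.β₀ b) := by
              gcongr; exact D.hβ b
          _ = _ := by
              rw [← ENNReal.ofReal_mul (psi_nonneg D j x b)]
              congr 1
              ring
    _ = ENNReal.ofReal (2 / D.δ ^ 2 * ∑ p : Y × (Fin m → Y), ‖∑ y, D.G j p y • x y‖ ^ 2) := by
        rw [← ENNReal.ofReal_sum_of_nonneg]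
        · congr 1
          simp_rw [h2]
          rw [← Finset.mul_sum, Fintype.sum_prod_type]
        · intro b _
          exact mul_nonneg (mul_nonneg (by norm_num) (D.β0 b)) (psi_nonneg D j x b)
    _ ≤ ENNReal.ofReal (2 / D.δ ^ 2 * (2 ^ (k j) * (D.δ ^ 2 / (2 * D.N j)) *
        ∑ i, ‖h i‖ ^ 2)) := by
        apply ENNReal.ofReal_le_ofReal
        apply mul_le_mul_of_nonneg_left _ (by positivity)
        exact spectral D j (k j) h
    _ = _ := by
        simp_rw [enorm_sq_eq]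
        rw [← ENNReal.ofReal_sum_of_nonneg (fun _ _ => by positivity),
          ← ENNReal.ofReal_mul (by positivity)]
        congr 1
        field_simp

lemma K_succ (F : HForm.{v} (m + 1)) (hF : ‖F.T‖ ≤ 1) (j₀ : Fin m)
    (h : PiLp 2 (fun _ : (Fin m → Y) ⊕ Y => F.H j₀.succ)) :
    ∫⁻ ξ in cube (m + 1),
        ‖pT D k F (Function.update (fun i => pu D k F i (ξ i)) j₀.succ h)‖ₑ ^ 2
      ≤ ENNReal.ofReal (2 * 4 ^ m * D.δ ^ 2) * ‖h‖ₑ ^ 2 := by
  have hN := D.N0 j₀
  have hδ := D.δ0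
  set y₀ : Y := D.a₀ 0 with hy₀
  have h1 : ∀ ξ ∈ cube (m + 1),
      ‖pT D k F (Function.update (fun i => pu D k F i (ξ i)) j₀.succ h)‖ₑ ^ 2
      ≤ ENNReal.ofReal (D.A k ^ 2) *
        ‖∑ z, (D.sg k 0 (ξ 0) z * ∏ j ∈ Finset.univ.erase j₀,
          D.om j (k j) (ξ j.succ) (z j)) •
            ∑ i, D.Vk j₀ (k j₀) i (z j₀) • h (Sum.inr i)‖ₑ ^ 2 := by
    intro ξ hξ
    rw [piece_update]
    have e1 : ∀ z, (∏ i ∈ Finset.univ.erase j₀.succ, D.sg k i (ξ i) z) • Lam D k F j₀.succ z h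
        = (D.sg k 0 (ξ 0) z * ∏ j ∈ Finset.univ.erase j₀,
          D.om j (k j) (ξ j.succ) (z j)) •
            ∑ i, D.Vk j₀ (k j₀) i (z j₀) • h (Sum.inr i) := by
      intro z
      rw [Lam_succ, prod_erase_succ (fun i => D.sg k i (ξ i) z) j₀]
      simp_rw [D.sg_succ]
    simp_rw [e1]
    generalize (∑ z, (D.sg k 0 (ξ 0) z * ∏ j ∈ Finset.univ.erase j₀,
          D.om j (k j) (ξ j.succ) (z j)) •
            ∑ i, D.Vk j₀ (k j₀) i (z j₀) • h (Sum.inr i)) = w
    rw [enorm_sq_eq, enorm_sq_eq, norm_mul, mul_pow, Complex.norm_real, Real.norm_eq_abs, sq_abs,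
      ← ENNReal.ofReal_mul (sq_nonneg _)]
    apply ENNReal.ofReal_le_ofReal
    have := norm_slot_le F hF j₀.succ hξ w
    gcongr
  have h2 := kB (E := F.H j₀.succ) (ω := fun j s y => D.om j (k j) s y)
      (κ := fun j => ENNReal.ofReal (4 / D.R j (k j) ^ 2))
      (fun j y => D.measurable_om j (k j) y) (fun j g => D.om_kappa j (k j) g) j₀ y₀
      (C := fun s z => D.sg k 0 s z) (fun z => D.measurable_sg k 0 z)
      (fun y => ∑ i, D.Vk j₀ (k j₀) i y • h (Sum.inr i))
  have h3 := core D k j₀ (fun i => h (Sum.inr i)) y₀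
  calc _ ≤ ∫⁻ ξ in cube (m + 1), ENNReal.ofReal (D.A k ^ 2) *
        ‖∑ z, (D.sg k 0 (ξ 0) z * ∏ j ∈ Finset.univ.erase j₀,
          D.om j (k j) (ξ j.succ) (z j)) •
            ∑ i, D.Vk j₀ (k j₀) i (z j₀) • h (Sum.inr i)‖ₑ ^ 2 :=
        setLIntegral_mono' measurableSet_cube h1
    _ = ENNReal.ofReal (D.A k ^ 2) * ∫⁻ ξ in cube (m + 1),
        ‖∑ z, (D.sg k 0 (ξ 0) z * ∏ j ∈ Finset.univ.erase j₀,
          D.om j (k j) (ξ j.succ) (z j)) •
            ∑ i, D.Vk j₀ (k j₀) i (z j₀) • h (Sum.inr i)‖ₑ ^ 2 :=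
        lintegral_const_mul' _ _ ENNReal.ofReal_ne_top
    _ ≤ ENNReal.ofReal (D.A k ^ 2) *
        (2 * (∏ j ∈ Finset.univ.erase j₀, ENNReal.ofReal (4 / D.R j (k j) ^ 2)) *
          (ENNReal.ofReal (2 ^ (k j₀) / D.N j₀) * ∑ i, ‖h (Sum.inr i)‖ₑ ^ 2)) := by
        gcongr
        refine h2.trans ?_
        gcongr
    _ ≤ ENNReal.ofReal (D.A k ^ 2) *
        (2 * (∏ j ∈ Finset.univ.erase j₀, ENNReal.ofReal (4 / D.R j (k j) ^ 2)) *
          (ENNReal.ofReal (2 ^ (k j₀) / D.N j₀) * ‖h‖ₑ ^ 2)) := by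
        gcongr
        exact esum_inr_le h
    _ = _ := by
        rw [← ENNReal.ofReal_prod_of_nonneg (fun j _ => by positivity), ← mul_assoc, ← mul_assoc]
        congr 1
        have e3 : (2:ℝ≥0∞) = ENNReal.ofReal 2 := by norm_num
        rw [e3, ← ENNReal.ofReal_mul (by norm_num), ← ENNReal.ofReal_mul (by positivity),
          ← ENNReal.ofReal_mul (by positivity)]
        congr 1
        have h4 := A_sq_mul D k (Finset.univ.erase j₀)
        have h5 : (Finset.univ.erase j₀)ᶜ = {j₀} := by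
          ext j; simp
        have h6 : (Finset.univ.erase j₀).card + 1 = m := by
          rw [Finset.card_erase_add_one (Finset.mem_univ _)]; simp
        rw [h5, Finset.prod_singleton, D.R_sq] at h4
        have h7 : (4:ℝ) ^ m = 4 ^ (Finset.univ.erase j₀).card * 4 := by
          conv_lhs => rw [← h6]
          rw [pow_succ]
        rw [h7]
        generalize (Finset.univ.erase j₀).card = c at h4 ⊢
        generalize ∏ j ∈ Finset.univ.erase j₀, (4 / D.R j (k j) ^ 2) = P at h4 ⊢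
        calc D.A k ^ 2 * (2 * P) * (2 ^ k j₀ / D.N j₀)
            = 2 * (D.A k ^ 2 * P) * (2 ^ k j₀ / D.N j₀) := by ring
          _ = 2 * (D.δ ^ 2 * 4 ^ c * (4 * D.N j₀ / 2 ^ k j₀)) * (2 ^ k j₀ / D.N j₀) := by rw [h4]
          _ = _ := by field_simp

end Pool.Agent.H.MP_b7167f_an
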