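import Mathlib
import Pool.Agent.H.MP_b7167f_an.PairLimit
import Pool.Agent.H.MP_b7167f_an.RoughTransfer

open MeasureTheory Set Filter
open scoped ENNReal NNReal Topology

namespace Pool.Agent.H.MP_b7167f_an

universe v

lemma extOp_congr {n : ℕ} {f g : (Fin n → ℝ) → ℂ} (h : ∀ ξ ∈ cube n, f ξ = g ξ) :
    extOp n f = extOp n g := by
  funext p
  unfold extOp
  apply setIntegral_congr_fun measurableSet_Icc
  intro ξ hξ
  simp only
  rw [h ξ hξ]

/-- choice of the exponents -/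
lemma exists_exponents {n N : ℕ} (hn : 2 ≤ n) (hN : 0 < N) {p : Fin N → ℝ} (hp : ∀ e, 2 ≤ p e)
    (hsum : ∑ e, (p e - 2) < (n:ℝ) - 1) {q : ℝ} (hq : 2 * ((n : ℝ) + 1) / n < q) :
    ∃ (r : ℝ) (w : Fin N → ℝ), 2 < r ∧ r < 4 ∧ r ≤ q ∧ 1 < n * (r - 2) / 2 ∧
      (∀ e, 0 ≤ w e) ∧ ∑ e, w e = 1 ∧
      ∀ e, 0 < (4 - r) * w e / p e - (1 - 2 / p e) * (r - 2) := by
  have hn0 : (0:ℝ) < n := by exact_mod_cast (by omega : 0 < n)
  have hn2 : (2:ℝ) ≤ n := by exact_mod_cast hn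
  have hN0 : (0:ℝ) < N := by exact_mod_cast hN
  set κ : ℝ := ∑ e, (p e - 2) with hκ
  have hκ0 : 0 ≤ κ := Finset.sum_nonneg fun e _ => by linarith [hp e]
  set rc : ℝ := 2 * ((n : ℝ) + 1) / n with hrc
  have hrc' : rc = 2 + 2 / n := by rw [hrc]; field_simp
  set ρ : ℝ := 2 + 2 / (1 + κ) with hρ
  have hrcρ : rc < ρ := by
    rw [hrc', hρ]
    have : 2 / (n:ℝ) < 2 / (1 + κ) := by
      apply div_lt_div_of_pos_left (by norm_num) (by linarith) (by linarith)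
    linarith
  have hρ4 : ρ ≤ 4 := by
    rw [hρ]
    have : 2 / (1 + κ) ≤ 2 := by
      rw [div_le_iff₀ (by linarith)]; linarith
    linarith
  have hmin : rc < min q ρ := lt_min hq hrcρ
  set r : ℝ := (rc + min q ρ) / 2 with hr
  have h1 : rc < r := by rw [hr]; linarith
  have h2 : r < min q ρ := by rw [hr]; linarith
  have h3 : r < q := h2.trans_le (min_le_left _ _)
  have h4 : r < ρ := h2.trans_le (min_le_right _ _)
  have h5 : 2 < r := by
    rw [hrc'] at h1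
    have : 0 < 2 / (n:ℝ) := by positivity
    linarith
  have h6 : r < 4 := by linarith
  have h7 : κ * (r - 2) < 4 - r := by
    have : r - 2 < 2 / (1 + κ) := by rw [hρ] at h4; linarith
    rw [lt_div_iff₀ (by linarith)] at this
    nlinarith
  set η : ℝ := (1 - κ * (r - 2) / (4 - r)) / N with hη
  have hη0 : 0 < η := by
    rw [hη]
    apply div_pos _ hN0
    have : κ * (r - 2) / (4 - r) < 1 := by
      rw [div_lt_one (by linarith)]; exact h7
    linarith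
  refine ⟨r, fun e => (p e - 2) * (r - 2) / (4 - r) + η, h5, h6, h3.le, ?_, ?_, ?_, ?_⟩
  · rw [hrc'] at h1
    have h8 : 2 / (n:ℝ) < r - 2 := by linarith
    rw [div_lt_iff₀ hn0] at h8
    linarith
  · intro e
    have h8 : 0 ≤ (p e - 2) * (r - 2) / (4 - r) := by
      apply div_nonneg
      · apply mul_nonneg <;> linarith [hp e]
      · linarith
    linarith
  · rw [Finset.sum_add_distrib, ← Finset.sum_div, ← Finset.sum_mul, ← hκ, Finset.sum_const,
      Finset.card_univ, Fintype.card_fin, nsmul_eq_mul, hη]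
    field_simp
    ring
  · intro e
    have hpe : 0 < p e := by linarith [hp e]
    have h9 : (4 - r) * ((p e - 2) * (r - 2) / (4 - r) + η) / p e - (1 - 2 / p e) * (r - 2)
        = (4 - r) * η / p e := by
      have : 4 - r ≠ 0 := by linarith
      field_simp
      ring
    rw [h9]
    have : 0 < 4 - r := by linarith
    positivity

/-- The main bound, bundled. -/
theorem pair_main {n N : ℕ} (hn : 2 ≤ n) (hN : 0 < N) {p : Fin N → ℝ} (hp : ∀ e, 2 ≤ p e)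
    (hsum : ∑ e, (p e - 2) < (n:ℝ) - 1) {q : ℝ} (hq : 2 * ((n : ℝ) + 1) / n < q) :
    ∃ C : ℝ≥0, ∀ P : PF n N, P.p = p → ∀ F : HForm.{v} n,
      eLpNorm (extOp n (fun ξ => F.val ξ * ∏ e, P.fac e ξ)) (ENNReal.ofReal q) volume
        ≤ C * ‖F.T‖ₑ := by
  obtain ⟨r, w, hr2, hr4, hrq, ha, hw, hw1, hdl⟩ := exists_exponents hn hN hp hsum hq
  have hr0 : 0 < r := by linarith
  have hq0 : 0 < q := by linarith
  set th : Fin N → ℝ≥0∞ := fun e =>
    (2:ℝ≥0∞) ^ (-(((4 - r) * w e / p e - (1 - 2 / p e) * (r - 2)) / r)) with hth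
  have hth1 : ∀ e, th e < 1 := by
    intro e
    rw [hth]
    simp only
    apply ENNReal.rpow_lt_one_of_one_lt_of_neg (by norm_num)
    have := hdl e
    have h : 0 < ((4 - r) * w e / p e - (1 - 2 / p e) * (r - 2)) / r := by positivity
    linarith
  set Cr : ℝ≥0∞ := PF.KK n N r ^ (1 / r) * (∏ e, (1 - th e)⁻¹) with hCr
  have hCrt : Cr ≠ ⊤ := by
    rw [hCr]
    apply ENNReal.mul_ne_top
    · exact ENNReal.rpow_ne_top_of_nonneg (by positivity) (PF.KK_ne_top hr2.le hr4.le ha)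
    · apply ENNReal.prod_ne_top
      intro e _
      rw [ENNReal.inv_ne_top]
      exact (tsub_pos_of_lt (hth1 e)).ne'
  set K : ℝ≥0∞ := ((2:ℝ≥0∞) ^ n) ^ (1 - r / q) * Cr ^ (r / q) with hK
  have hrq1 : 0 ≤ 1 - r / q := by
    have : r / q ≤ 1 := by rw [div_le_one hq0]; exact hrq
    linarith
  have hKt : K ≠ ⊤ := by
    rw [hK]
    apply ENNReal.mul_ne_top
    · exact ENNReal.rpow_ne_top_of_nonneg hrq1 (ENNReal.pow_ne_top (by norm_num))
    · exact ENNReal.rpow_ne_top_of_nonneg (by positivity) hCrt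
  refine ⟨K.toNNReal, ?_⟩
  intro P hP F
  rw [ENNReal.coe_toNNReal hKt]
  have h1 := P.full_norm F (by omega) hr2.le hr4.le ha hw hw1
  have hthe : ∀ e, P.tht r w e = th e := by
    intro e
    unfold PF.tht PF.dl
    rw [hP]
  simp_rw [hthe] at h1
  rw [← hCr] at h1
  have hsup : ∀ z, ‖extOp n (fun ξ => F.val ξ * ∏ e, P.fac e ξ) z‖ₑ ≤ 2 ^ n * ‖F.T‖ₑ := by
    intro z
    have h := enorm_extOp_le (C := ‖F.T‖) (fun ξ hξ => P.norm_full_le F hξ) z
    rwa [ofReal_norm] at h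
  have hMt : (2:ℝ≥0∞) ^ n * ‖F.T‖ₑ ≠ ⊤ :=
    ENNReal.mul_ne_top (ENNReal.pow_ne_top (by norm_num)) (by simp)
  refine (eLpNorm_le_of_sup hr0 hrq hMt hsup).trans ?_
  calc ((2:ℝ≥0∞) ^ n * ‖F.T‖ₑ) ^ (1 - r / q) *
        (eLpNorm (extOp n (fun ξ => F.val ξ * ∏ e, P.fac e ξ)) (ENNReal.ofReal r) volume) ^ (r / q)
      ≤ ((2:ℝ≥0∞) ^ n * ‖F.T‖ₑ) ^ (1 - r / q) * (Cr * ‖F.T‖ₑ) ^ (r / q) := by
        gcongr
    _ = K * (‖F.T‖ₑ ^ (1 - r / q) * ‖F.T‖ₑ ^ (r / q)) := by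
        rw [ENNReal.mul_rpow_of_nonneg _ _ hrq1, ENNReal.mul_rpow_of_nonneg _ _ (by positivity), hK]
        ring
    _ = K * ‖F.T‖ₑ := by
        rw [← ENNReal.rpow_add_of_nonneg _ _ hrq1 (by positivity)]
        congr 1
        rw [show 1 - r / q + r / q = 1 by ring, ENNReal.rpow_one]

end Pool.Agent.H.MP_b7167f_an
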