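import Mathlib
import Pool.Agent.H.MP_b7167f_an.BlockCore
import Pool.Agent.H.MP_b7167f_an.PairMain

open MeasureTheory Set
open scoped ENNReal NNReal ComplexConjugate

namespace Pool.Agent.H.MP_b7167f_an

universe v

variable {m : ℕ} {Y : Type} [Fintype Y] [DecidableEq Y] [MeasurableSpace Y]
    [MeasurableSingletonClass Y]

variable (D : BData m Y)

lemma sum_Vk (j : Fin m) {L : ℕ} (hL : ∀ i, D.lv j i < L) (z y : Y) :
    ∑ l ∈ Finset.range L, ∑ i, D.Vk j l i z * conj (D.Vk j l i y) = if z = y then 1 else 0 := by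
  rw [← D.V_row j z y, Finset.sum_comm]
  apply Finset.sum_congr rfl
  intro i _
  rw [Finset.sum_eq_single (D.lv j i)]
  · unfold BData.Vk
    simp
  · intro l _ hl
    unfold BData.Vk
    rw [if_neg (Ne.symm hl), if_neg (Ne.symm hl)]
    simp
  · intro h
    exact absurd (Finset.mem_range.2 (hL i)) h

lemma sum_pv {b : Y} {y : Fin m → Y} (hy : ∀ j, 0 < D.ν j (y j)) {L : ℕ}
    (hL : ∀ j i, D.lv j i < L) :
    ∑ k ∈ Fintype.piFinset (fun _ : Fin m => Finset.range L), pv D k b y = D.c b y := by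
  unfold pv
  rw [Finset.sum_comm]
  have h1 : ∀ z : Fin m → Y, ∑ k ∈ Fintype.piFinset (fun _ : Fin m => Finset.range L),
      D.c b z * ∏ j, ((Real.sqrt (D.ν j (z j)) : ℂ) *
        (∑ i, D.Vk j (k j) i (z j) * conj (D.Vk j (k j) i (y j))) /
          (Real.sqrt (D.ν j (y j)) : ℂ)) = D.c b z * (if z = y then 1 else 0) := by
    intro z
    rw [← Finset.mul_sum]
    congr 1
    rw [← Finset.prod_univ_sum (fun _ : Fin m => Finset.range L)
      (fun j l => ((Real.sqrt (D.ν j (z j)) : ℂ) *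
        (∑ i, D.Vk j l i (z j) * conj (D.Vk j l i (y j))) /
          (Real.sqrt (D.ν j (y j)) : ℂ)))]
    have h2 : ∀ j, ∑ l ∈ Finset.range L, ((Real.sqrt (D.ν j (z j)) : ℂ) *
        (∑ i, D.Vk j l i (z j) * conj (D.Vk j l i (y j))) /
          (Real.sqrt (D.ν j (y j)) : ℂ)) = if z j = y j then 1 else 0 := by
      intro j
      rw [← Finset.sum_div, ← Finset.mul_sum, sum_Vk D j (hL j)]
      split_ifs with hz
      · rw [hz, mul_one]
        apply div_self
        have := Real.sqrt_pos.2 (hy j)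
        exact_mod_cast this.ne'
      · simp
    simp_rw [h2]
    rw [Fintype.prod_boole]
    simp [funext_iff]
  simp_rw [h1]
  simp

lemma R_rpow (j : Fin m) (l : ℕ) {q : ℝ} (hq : 2 < q) :
    D.R j l ^ ((q - 2) / q) = 4 ^ ((q - 2) / (2 * q)) * D.N j ^ ((q - 2) / (2 * q)) *
      (2 ^ (-((q - 2) / (2 * q))) : ℝ) ^ l := by
  have hN := D.N0 j
  unfold BData.R
  rw [Real.sqrt_eq_rpow, ← Real.rpow_mul (by positivity),
    show 1 / 2 * ((q - 2) / q) = (q - 2) / (2 * q) by field_simp,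
    Real.div_rpow (by positivity) (by positivity), Real.mul_rpow (by norm_num) hN.le,
    div_eq_mul_inv]
  congr 1
  rw [← Real.rpow_natCast (2 ^ (-((q - 2) / (2 * q)))) l, ← Real.rpow_mul (by norm_num),
    ← Real.rpow_natCast 2 l, ← Real.rpow_mul (by norm_num), ← Real.rpow_neg (by norm_num)]
  congr 1
  ring

/-- the `L^q` norm of one piece -/
lemma piece_norm (k : Fin m → ℕ) (F : HForm.{v} (m + 1)) (hF : ‖F.T‖ ≤ 1) {q : ℝ} (hq : 2 < q)
    (hQ : 4 < 2 + ((m + 1 : ℕ) : ℝ) * (q - 2)) :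
    eLpNorm (extOp (m + 1) (piece D k F).val) (ENNReal.ofReal q) volume
      ≤ (CK (m + 1) q * ENNReal.ofReal (2 * 4 ^ m)) ^ (1 / q) *
        ENNReal.ofReal (D.δ * ∏ j, D.R j (k j) ^ ((q - 2) / q)) := by
  have hδ := D.δ0
  have hq0 : 0 < q := by linarith
  set K₀ : ℝ≥0∞ := ENNReal.ofReal (2 * 4 ^ m * D.δ ^ 2) with hK₀
  have hfb := form_bound (Nat.succ_pos m) (piece D k F) (K := fun _ => K₀)
    (fun l h => by
      refine Fin.cases (motive := fun l => ∀ h : (piece D k F).H l,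
        ∫⁻ ξ in cube (m + 1), ‖(piece D k F).T (Function.update
          (fun i => (piece D k F).u i (ξ i)) l h)‖ₑ ^ 2 ≤ K₀ * ‖h‖ₑ ^ 2) ?_ ?_ l h
      · intro h
        exact K_zero D k F hF h
      · intro j h
        exact K_succ D k F hF j h)
    (fun _ => ENNReal.ofReal_ne_top) hq.le hQ
  have h1 : ∏ _l : Fin (m + 1), K₀ ^ (1 / ((m + 1 : ℕ) : ℝ)) = K₀ := by
    rw [Finset.prod_const, Finset.card_univ, Fintype.card_fin, ← ENNReal.rpow_natCast,
      ← ENNReal.rpow_mul, one_div, inv_mul_cancel₀ (by positivity), ENNReal.rpow_one]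
  rw [h1] at hfb
  set B : ℝ := D.δ * ∏ j, D.R j (k j) ^ ((q - 2) / q) with hB
  have hP0 : 0 ≤ ∏ j, D.R j (k j) ^ ((q - 2) / q) :=
    Finset.prod_nonneg fun j _ => Real.rpow_nonneg (D.R_pos j _).le _
  have hB0 : 0 ≤ B := mul_nonneg hδ.le hP0
  have h2 : D.A k ^ (q - 2) * D.δ ^ 2 = B ^ q := by
    unfold BData.A
    have hR0 : 0 ≤ ∏ j, D.R j (k j) := Finset.prod_nonneg fun j _ => (D.R_pos j _).le
    rw [hB, Real.mul_rpow hδ.le hR0, Real.mul_rpow hδ.le hP0,
      ← Real.finsetProd_rpow _ _ (fun j _ => (D.R_pos j _).le),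
      ← Real.finsetProd_rpow _ _ (fun j _ => Real.rpow_nonneg (D.R_pos j _).le _)]
    have e1 : ∀ j, (D.R j (k j) ^ ((q - 2) / q)) ^ q = D.R j (k j) ^ (q - 2) := by
      intro j
      rw [← Real.rpow_mul (D.R_pos j _).le]
      congr 1
      field_simp
    simp_rw [e1]
    have e2 : D.δ ^ q = D.δ ^ (q - 2) * D.δ ^ 2 := by
      rw [← Real.rpow_natCast D.δ 2, ← Real.rpow_add hδ]
      congr 1
      push_cast
      ring
    rw [e2]
    ring
  have h3 : ‖(piece D k F).T‖ₑ ^ (q - 2) * K₀ ≤ ENNReal.ofReal (2 * 4 ^ m) *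
      ENNReal.ofReal B ^ q := by
    calc ‖(piece D k F).T‖ₑ ^ (q - 2) * K₀
        ≤ ENNReal.ofReal (D.A k) ^ (q - 2) * K₀ := by
          gcongr
          rw [← ofReal_norm]
          exact ENNReal.ofReal_le_ofReal (norm_pT_le D k F hF)
      _ = _ := by
          rw [hK₀, ENNReal.ofReal_rpow_of_nonneg (D.A_pos k).le (by linarith),
            ENNReal.ofReal_rpow_of_nonneg hB0 hq0.le,
            ← ENNReal.ofReal_mul (Real.rpow_nonneg (D.A_pos k).le _),
            ← ENNReal.ofReal_mul (by positivity)]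
          congr 1
          rw [← h2]
          ring
  have hq1 : (ENNReal.ofReal q) ≠ 0 := by
    simp only [ne_eq, ENNReal.ofReal_eq_zero, not_le]; exact hq0
  rw [eLpNorm_eq_lintegral_rpow_enorm_toReal hq1 ENNReal.ofReal_ne_top,
    ENNReal.toReal_ofReal hq0.le]
  calc (∫⁻ p : (Fin (m + 1) → ℝ) × ℝ, ‖extOp (m + 1) (piece D k F).val p‖ₑ ^ q) ^ (1 / q)
      ≤ (CK (m + 1) q * (ENNReal.ofReal (2 * 4 ^ m) * ENNReal.ofReal B ^ q)) ^ (1 / q) := by
        gcongr
        refine hfb.trans ?_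
        gcongr
    _ = _ := by
        rw [← mul_assoc, ENNReal.mul_rpow_of_nonneg _ _ (by positivity : 0 ≤ 1 / q),
          ← ENNReal.rpow_mul, mul_one_div_cancel hq0.ne', ENNReal.rpow_one]

/-- constant of the block theorem -/
noncomputable def Cblk (m : ℕ) (q : ℝ) : ℝ≥0∞ :=
  (CK (m + 1) q * ENNReal.ofReal (2 * 4 ^ m)) ^ (1 / q) *
    ENNReal.ofReal ((4 ^ ((q - 2) / (2 * q)) * (1 - 2 ^ (-((q - 2) / (2 * q))))⁻¹) ^ m)

lemma Cblk_ne_top {m : ℕ} {q : ℝ} (hq : 2 < q) (hQ : 4 < 2 + ((m + 1 : ℕ) : ℝ) * (q - 2)) :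
    Cblk m q ≠ ∞ := by
  unfold Cblk
  apply ENNReal.mul_ne_top _ ENNReal.ofReal_ne_top
  apply ENNReal.rpow_ne_top_of_nonneg (by positivity)
  exact ENNReal.mul_ne_top (CK_ne_top hQ) ENNReal.ofReal_ne_top

theorem block_bound (F : HForm.{v} (m + 1)) (hF : ‖F.T‖ ≤ 1) {q : ℝ} (hq : 2 < q)
    (hQ : 4 < 2 + ((m + 1 : ℕ) : ℝ) * (q - 2)) :
    eLpNorm (extOp (m + 1) (fun ξ => F.val ξ * D.c (D.a₀ (ξ 0)) (fun j => D.a j (ξ j.succ))))
        (ENNReal.ofReal q) volume
      ≤ Cblk m q * ENNReal.ofReal (D.δ * ∏ j, D.N j ^ ((q - 2) / (2 * q))) := by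
  have hδ := D.δ0
  set γ : ℝ := (q - 2) / (2 * q) with hγ
  have hγ0 : 0 < γ := by
    rw [hγ]; exact div_pos (by linarith) (by linarith)
  obtain ⟨L, hL⟩ : ∃ L, ∀ j i, D.lv j i < L := by
    obtain ⟨L, hL⟩ := (Set.finite_range (fun x : Fin m × Y => D.lv x.1 x.2)).bddAbove
    exact ⟨L + 1, fun j i => lt_of_le_of_lt (hL ⟨(j, i), rfl⟩) (Nat.lt_succ_self L)⟩
  have h1 : extOp (m + 1) (fun ξ => F.val ξ * D.c (D.a₀ (ξ 0)) (fun j => D.a j (ξ j.succ)))
      = ∑ k ∈ Fintype.piFinset (fun _ : Fin m => Finset.range L),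
        extOp (m + 1) (piece D k F).val := by
    have h2 : extOp (m + 1) (fun ξ => F.val ξ * D.c (D.a₀ (ξ 0)) (fun j => D.a j (ξ j.succ)))
        = extOp (m + 1) (fun ξ => ∑ k ∈ Fintype.piFinset (fun _ : Fin m => Finset.range L),
          (piece D k F).val ξ) := by
      apply extOp_congr
      intro ξ hξ
      simp_rw [piece_val]
      rw [← Finset.mul_sum, sum_pv D (fun j => D.nu_pos j (mem_cube.1 hξ j.succ)) hL]
    rw [h2]
    funext p
    rw [extOp_sum _ (fun k _ => (piece D k F).measurable_val)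
      (C := fun k => ‖(piece D k F).T‖) (fun k _ ξ hξ => (piece D k F).norm_val_le hξ),
      Finset.sum_apply]
  have hq1 : 1 ≤ ENNReal.ofReal q := by
    rw [← ENNReal.ofReal_one]
    exact ENNReal.ofReal_le_ofReal (by linarith)
  rw [h1]
  refine (eLpNorm_sum_le (fun k _ =>
    (sm_extOp (piece D k F).measurable_val).aestronglyMeasurable) hq1).trans ?_
  set θ : ℝ := 2 ^ (-γ) with hθ
  have hθ0 : 0 < θ := by positivity
  have hθ1 : θ < 1 := Real.rpow_lt_one_of_one_lt_of_neg (by norm_num) (by linarith)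
  calc ∑ k ∈ Fintype.piFinset (fun _ : Fin m => Finset.range L),
        eLpNorm (extOp (m + 1) (piece D k F).val) (ENNReal.ofReal q) volume
      ≤ ∑ k ∈ Fintype.piFinset (fun _ : Fin m => Finset.range L),
        (CK (m + 1) q * ENNReal.ofReal (2 * 4 ^ m)) ^ (1 / q) *
          ENNReal.ofReal (D.δ * ∏ j, D.R j (k j) ^ ((q - 2) / q)) :=
        Finset.sum_le_sum fun k _ => piece_norm D k F hF hq hQ
    _ = (CK (m + 1) q * ENNReal.ofReal (2 * 4 ^ m)) ^ (1 / q) *
        ENNReal.ofReal (∑ k ∈ Fintype.piFinset (fun _ : Fin m => Finset.range L),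
          (D.δ * ∏ j, D.R j (k j) ^ ((q - 2) / q))) := by
        rw [← Finset.mul_sum, ENNReal.ofReal_sum_of_nonneg]
        intro k _
        exact mul_nonneg hδ.le (Finset.prod_nonneg fun j _ => Real.rpow_nonneg (D.R_pos j _).le _)
    _ ≤ (CK (m + 1) q * ENNReal.ofReal (2 * 4 ^ m)) ^ (1 / q) *
        ENNReal.ofReal ((4 ^ γ * (1 - θ)⁻¹) ^ m * (D.δ * ∏ j, D.N j ^ γ)) := by
        gcongr
        calc ∑ k ∈ Fintype.piFinset (fun _ : Fin m => Finset.range L),
              (D.δ * ∏ j, D.R j (k j) ^ ((q - 2) / q))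
            = D.δ * ∏ j, ∑ l ∈ Finset.range L, D.R j l ^ ((q - 2) / q) := by
              rw [← Finset.mul_sum, Finset.prod_univ_sum]
          _ ≤ D.δ * ∏ j, (4 ^ γ * D.N j ^ γ * (1 - θ)⁻¹) := by
              apply mul_le_mul_of_nonneg_left _ hδ.le
              apply Finset.prod_le_prod
              · intro j _
                exact Finset.sum_nonneg fun l _ => Real.rpow_nonneg (D.R_pos j _).le _
              · intro j _
                have e1 : ∀ l, D.R j l ^ ((q - 2) / q) = 4 ^ γ * D.N j ^ γ * θ ^ l :=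
                  fun l => R_rpow D j l hq
                simp_rw [e1]
                rw [← Finset.mul_sum]
                have hN := D.N0 j
                apply mul_le_mul_of_nonneg_left _ (by positivity)
                rw [← tsum_geometric_of_lt_one hθ0.le hθ1]
                exact (summable_geometric_of_lt_one hθ0.le hθ1).sum_le_tsum _
                  (fun l _ => by positivity)
          _ = _ := by
              rw [Finset.prod_mul_distrib, Finset.prod_mul_distrib, Finset.prod_const,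
                Finset.prod_const, Finset.card_univ, Fintype.card_fin, mul_pow]
              ring
    _ = _ := by
        unfold Cblk
        have h1θ : 0 ≤ (1 - θ)⁻¹ := inv_nonneg.2 (by linarith)
        rw [mul_assoc, ← ENNReal.ofReal_mul (by positivity)]

end Pool.Agent.H.MP_b7167f_an
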