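import Mathlib

/-!
Abstract kernel identities: if the weight `ω` has a nonnegative `transform`, then
`∫ ω |∫ κ E|^2` is monotone in `|κ|` (majorant principle) and obeys a Schur bound.
-/

namespace Pool.Agent.H.MP_b7167f_an

open MeasureTheory Complex ComplexConjugate

variable {Ω Y : Type*} [MeasurableSpace Ω] [MeasurableSpace Y] {μ : Measure Ω}
  [IsFiniteMeasure μ] {ν : Measure Y} [SFinite ν]

lemma kernel_integrable {ω : Y → ℝ} (hω : Integrable ω ν) {E : Y → Ω → ℂ}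
    (hE : Measurable (Function.uncurry E)) (hE1 : ∀ y z, ‖E y z‖ ≤ 1)
    {κ : Ω → ℂ} (hκ : Measurable κ) {M : ℝ} (hM : ∀ z, ‖κ z‖ ≤ M) :
    Integrable (fun q : Y × (Ω × Ω) => (ω q.1 : ℂ) *
      ((κ q.2.1 * E q.1 q.2.1) * conj (κ q.2.2 * E q.1 q.2.2))) (ν.prod (μ.prod μ)) := by
  have hE1' : Measurable fun q : Y × (Ω × Ω) => E q.1 q.2.1 :=
    hE.comp (measurable_fst.prodMk (measurable_fst.comp measurable_snd))
  have hE2' : Measurable fun q : Y × (Ω × Ω) => E q.1 q.2.2 :=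
    hE.comp (measurable_fst.prodMk (measurable_snd.comp measurable_snd))
  have h0 : Integrable (fun y => (ω y : ℂ)) ν := hω.ofReal
  have h1 : Integrable (fun q : Y × (Ω × Ω) => (ω q.1 : ℂ)) (ν.prod (μ.prod μ)) :=
    h0.comp_fst (μ.prod μ)
  refine h1.mul_bdd (c := M * M) ?_ ?_
  · apply Measurable.aestronglyMeasurable
    have ha : Measurable fun q : Y × (Ω × Ω) => κ q.2.1 * E q.1 q.2.1 :=
      (hκ.comp (measurable_fst.comp measurable_snd)).mul hE1'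
    have hb : Measurable fun q : Y × (Ω × Ω) => κ q.2.2 * E q.1 q.2.2 :=
      (hκ.comp (measurable_snd.comp measurable_snd)).mul hE2'
    exact ha.mul (Complex.continuous_conj.measurable.comp hb)
  · refine Filter.Eventually.of_forall fun q => ?_
    rw [norm_mul, RCLike.norm_conj, norm_mul, norm_mul]
    have hM0 : 0 ≤ M := (norm_nonneg _).trans (hM q.2.1)
    have a1 : ‖κ q.2.1‖ * ‖E q.1 q.2.1‖ ≤ M :=
      (mul_le_mul (hM _) (hE1 _ _) (norm_nonneg _) hM0).trans (by rw [mul_one])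
    have a2 : ‖κ q.2.2‖ * ‖E q.1 q.2.2‖ ≤ M :=
      (mul_le_mul (hM _) (hE1 _ _) (norm_nonneg _) hM0).trans (by rw [mul_one])
    exact mul_le_mul a1 a2 (by positivity) hM0

lemma kernel_identity {ω : Y → ℝ} (hω : Integrable ω ν) {E : Y → Ω → ℂ}
    (hE : Measurable (Function.uncurry E)) (hE1 : ∀ y z, ‖E y z‖ ≤ 1)
    {κ : Ω → ℂ} (hκ : Measurable κ) {M : ℝ} (hM : ∀ z, ‖κ z‖ ≤ M) :
    ((∫ y, ω y * ‖∫ z, κ z * E y z ∂μ‖ ^ 2 ∂ν : ℝ) : ℂ) =
      ∫ p, κ p.1 * conj (κ p.2) * (∫ y, (ω y : ℂ) * (E y p.1 * conj (E y p.2)) ∂ν)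
        ∂(μ.prod μ) := by
  have hint := kernel_integrable (μ := μ) hω hE hE1 hκ hM
  have hL : ((∫ y, ω y * ‖∫ z, κ z * E y z ∂μ‖ ^ 2 ∂ν : ℝ) : ℂ) =
      ∫ y, (∫ p, (ω y : ℂ) * ((κ p.1 * E y p.1) * conj (κ p.2 * E y p.2)) ∂(μ.prod μ)) ∂ν := by
    rw [← integral_complex_ofReal]
    apply integral_congr_ae
    refine Filter.Eventually.of_forall fun y => ?_
    simp only
    rw [integral_const_mul]
    have := integral_prod_mul (μ := μ) (ν := μ) (fun z => κ z * E y z)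
      (fun z => conj (κ z * E y z))
    rw [this, integral_conj]
    push_cast
    rw [Complex.mul_conj, Complex.normSq_eq_norm_sq]
    push_cast
    rfl
  rw [hL]
  rw [integral_integral_swap hint]
  apply integral_congr_ae
  refine Filter.Eventually.of_forall fun p => ?_
  simp only
  rw [← integral_const_mul]
  apply integral_congr_ae
  refine Filter.Eventually.of_forall fun y => ?_
  simp only [map_mul]
  ring

/-- The transform of the weight. -/
lemma kernel_meas {ω : Y → ℝ} (hω : Integrable ω ν) {E : Y → Ω → ℂ}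
    (hE : Measurable (Function.uncurry E)) (hE1 : ∀ y z, ‖E y z‖ ≤ 1)
    {k : Ω → Ω → ℝ}
    (hk : ∀ z z', (∫ y, (ω y : ℂ) * (E y z * conj (E y z')) ∂ν) = (k z z' : ℂ)) :
    Integrable (fun p : Ω × Ω => k p.1 p.2) (μ.prod μ) := by
  have hint := (kernel_integrable (μ := μ) hω hE hE1 (κ := fun _ => 1) measurable_const (M := 1)
    (fun _ => by simp)).integral_prod_right
  have h2 := hint.re
  refine h2.congr (Filter.Eventually.of_forall fun p => ?_)
  simp only [one_mul]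
  rw [hk]
  simp

/-- Majorant principle. -/
lemma majorant {ω : Y → ℝ} (hω : Integrable ω ν) {E : Y → Ω → ℂ}
    (hE : Measurable (Function.uncurry E)) (hE1 : ∀ y z, ‖E y z‖ ≤ 1)
    {k : Ω → Ω → ℝ} (hk0 : ∀ z z', 0 ≤ k z z')
    (hk : ∀ z z', (∫ y, (ω y : ℂ) * (E y z * conj (E y z')) ∂ν) = (k z z' : ℂ))
    {κ : Ω → ℂ} (hκ : Measurable κ) {M : ℝ} (hM : ∀ z, ‖κ z‖ ≤ M) :
    ∫ y, ω y * ‖∫ z, κ z * E y z ∂μ‖ ^ 2 ∂ν ≤
      M ^ 2 * ∫ y, ω y * ‖∫ z, E y z ∂μ‖ ^ 2 ∂ν := by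
  have hkint := kernel_meas (μ := μ) hω hE hE1 hk
  have h1 := kernel_identity (μ := μ) hω hE hE1 hκ hM
  have h2 := kernel_identity (μ := μ) hω hE hE1 (κ := fun _ => 1) measurable_const (M := 1)
    (fun _ => by simp)
  simp only [one_mul, map_one] at h2
  simp_rw [hk] at h1 h2
  rw [integral_complex_ofReal] at h2
  have h2' : ∫ y, ω y * ‖∫ z, E y z ∂μ‖ ^ 2 ∂ν = ∫ p, k p.1 p.2 ∂(μ.prod μ) := by
    exact_mod_cast h2
  rw [h2', ← integral_const_mul]
  have h3 : ∫ y, ω y * ‖∫ z, κ z * E y z ∂μ‖ ^ 2 ∂ν =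
      (∫ p, κ p.1 * conj (κ p.2) * (k p.1 p.2 : ℂ) ∂(μ.prod μ)).re := by
    rw [← h1, Complex.ofReal_re]
  rw [h3]
  refine (Complex.re_le_norm _).trans ?_
  refine norm_integral_le_of_norm_le (hkint.const_mul _) ?_
  refine Filter.Eventually.of_forall fun p => ?_
  have hM0 : 0 ≤ M := (norm_nonneg _).trans (hM p.1)
  rw [norm_mul, norm_mul, RCLike.norm_conj, Complex.norm_real, Real.norm_eq_abs,
    abs_of_nonneg (hk0 _ _), pow_two]
  exact mul_le_mul_of_nonneg_right (mul_le_mul (hM _) (hM _) (norm_nonneg _) hM0) (hk0 _ _)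

/-- Schur bound. -/
lemma schur {ω : Y → ℝ} (hω : Integrable ω ν) {E : Y → Ω → ℂ}
    (hE : Measurable (Function.uncurry E)) (hE1 : ∀ y z, ‖E y z‖ ≤ 1)
    {k : Ω → Ω → ℝ} (hk0 : ∀ z z', 0 ≤ k z z') (hsymm : ∀ z z', k z z' = k z' z)
    (hk : ∀ z z', (∫ y, (ω y : ℂ) * (E y z * conj (E y z')) ∂ν) = (k z z' : ℂ))
    {B : ℝ} (hB : ∀ z, ∫ z', k z z' ∂μ ≤ B)
    {κ : Ω → ℂ} (hκ : Measurable κ) {M : ℝ} (hM : ∀ z, ‖κ z‖ ≤ M) :
    ∫ y, ω y * ‖∫ z, κ z * E y z ∂μ‖ ^ 2 ∂ν ≤ B * ∫ z, ‖κ z‖ ^ 2 ∂μ := by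
  have hkint := kernel_meas (μ := μ) hω hE hE1 hk
  have h1 := kernel_identity (μ := μ) hω hE hE1 hκ hM
  simp_rw [hk] at h1
  have h3 : ∫ y, ω y * ‖∫ z, κ z * E y z ∂μ‖ ^ 2 ∂ν =
      (∫ p, κ p.1 * conj (κ p.2) * (k p.1 p.2 : ℂ) ∂(μ.prod μ)).re := by
    rw [← h1, Complex.ofReal_re]
  rw [h3]
  have hbd : ∀ z, ‖κ z‖ ^ 2 ≤ M ^ 2 := fun z => by
    have := hM z
    gcongr
  have hsq : Measurable fun z => ‖κ z‖ ^ 2 := by fun_prop
  have hi1 : Integrable (fun p : Ω × Ω => ‖κ p.1‖ ^ 2 * k p.1 p.2) (μ.prod μ) := by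
    refine hkint.bdd_mul (c := M ^ 2) (hsq.comp measurable_fst).aestronglyMeasurable ?_
    refine Filter.Eventually.of_forall fun p => ?_
    rw [Real.norm_eq_abs, abs_of_nonneg (by positivity)]
    exact hbd _
  have hi2 : Integrable (fun p : Ω × Ω => ‖κ p.2‖ ^ 2 * k p.1 p.2) (μ.prod μ) := by
    refine hkint.bdd_mul (c := M ^ 2) (hsq.comp measurable_snd).aestronglyMeasurable ?_
    refine Filter.Eventually.of_forall fun p => ?_
    rw [Real.norm_eq_abs, abs_of_nonneg (by positivity)]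
    exact hbd _
  have hκint : Integrable (fun z => ‖κ z‖ ^ 2) μ := by
    refine Integrable.of_bound hsq.aestronglyMeasurable (M ^ 2) (Filter.Eventually.of_forall fun z => ?_)
    rw [Real.norm_eq_abs, abs_of_nonneg (by positivity)]
    exact hbd _
  have hswap : ∫ p, ‖κ p.2‖ ^ 2 * k p.1 p.2 ∂(μ.prod μ) = ∫ p, ‖κ p.1‖ ^ 2 * k p.1 p.2 ∂(μ.prod μ) := by
    rw [← integral_prod_swap]
    simp only [Prod.fst_swap, Prod.snd_swap]
    apply integral_congr_ae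
    refine Filter.Eventually.of_forall fun p => ?_
    simp only
    rw [hsymm]
  have hmain : ∫ p, ‖κ p.1‖ ^ 2 * k p.1 p.2 ∂(μ.prod μ) ≤ B * ∫ z, ‖κ z‖ ^ 2 ∂μ := by
    rw [integral_prod _ hi1, ← integral_const_mul]
    apply integral_mono_of_nonneg
    · refine Filter.Eventually.of_forall fun z => ?_
      exact integral_nonneg fun z' => mul_nonneg (by positivity) (hk0 _ _)
    · exact hκint.const_mul _
    · refine Filter.Eventually.of_forall fun z => ?_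
      simp only
      rw [integral_const_mul, mul_comm]
      exact mul_le_mul_of_nonneg_right (hB z) (by positivity)
  refine (Complex.re_le_norm _).trans ?_
  calc ‖∫ p, κ p.1 * conj (κ p.2) * (k p.1 p.2 : ℂ) ∂(μ.prod μ)‖
      ≤ ∫ p, (1 / 2) * (‖κ p.1‖ ^ 2 * k p.1 p.2 + ‖κ p.2‖ ^ 2 * k p.1 p.2) ∂(μ.prod μ) := by
        refine norm_integral_le_of_norm_le ((hi1.add hi2).const_mul _) ?_
        refine Filter.Eventually.of_forall fun p => ?_
        rw [norm_mul, norm_mul, RCLike.norm_conj, Complex.norm_real, Real.norm_eq_abs,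
          abs_of_nonneg (hk0 _ _)]
        have := hk0 p.1 p.2
        nlinarith [mul_nonneg (sq_nonneg (‖κ p.1‖ - ‖κ p.2‖)) this]
    _ = ∫ p, ‖κ p.1‖ ^ 2 * k p.1 p.2 ∂(μ.prod μ) := by
        rw [integral_const_mul, integral_add hi1 hi2, hswap]
        ring
    _ ≤ _ := hmain

end Pool.Agent.H.MP_b7167f_an
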