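import Mathlib

/-!
One dimensional van der Corput bound for the extension of the constant function:
`|∫_{-1}^{1} e(x ξ + t ξ^2) dξ| ≤ 4 / sqrt |t|`.
-/

namespace Pool.Agent.H.MP_b7167f_an

open MeasureTheory Complex Real intervalIntegral Set

/-- The character `e(s) = exp (2 π i s)`. -/
noncomputable def ph (s : ℝ) : ℂ := Complex.exp (2 * π * s * I)

lemma ph_eq (s : ℝ) : ph s = Complex.exp (((2 * π * s : ℝ) : ℂ) * I) := by
  simp [ph]

@[simp] lemma norm_ph (s : ℝ) : ‖ph s‖ = 1 := by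
  rw [ph_eq, Complex.norm_exp_ofReal_mul_I]

lemma ph_add (s t : ℝ) : ph (s + t) = ph s * ph t := by
  rw [ph, ph, ph, ← Complex.exp_add]
  congr 1
  push_cast
  ring

@[simp] lemma ph_zero : ph 0 = 1 := by simp [ph]

lemma conj_ph (s : ℝ) : (starRingEnd ℂ) (ph s) = ph (-s) := by
  rw [ph_eq, ph_eq, ← Complex.exp_conj, map_mul, Complex.conj_ofReal, Complex.conj_I]
  congr 1
  push_cast
  ring

lemma ph_neg (s : ℝ) : ph (-s) = (ph s)⁻¹ := by
  rw [ph, ph, ← Complex.exp_neg]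
  congr 1
  push_cast
  ring

@[fun_prop]
lemma continuous_ph : Continuous ph := by
  unfold ph
  fun_prop

lemma ph_sum {ι : Type*} (s : Finset ι) (f : ι → ℝ) : ph (∑ i ∈ s, f i) = ∏ i ∈ s, ph (f i) := by
  classical
  induction s using Finset.induction_on with
  | empty => simp
  | insert a s ha ih => rw [Finset.sum_insert ha, Finset.prod_insert ha, ph_add, ih]

lemma hasDerivAt_ph_sq (u : ℝ) :
    HasDerivAt (fun v : ℝ => ph (v ^ 2)) (4 * π * I * u * ph (u ^ 2)) u := by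
  have h1 : HasDerivAt (fun v : ℝ => (2 * (π : ℂ) * ((v ^ 2 : ℝ) : ℂ) * I)) (4 * π * I * u) u := by
    have h2 : HasDerivAt (fun v : ℝ => ((v ^ 2 : ℝ) : ℂ)) (((2 * u : ℝ)) : ℂ) u := by
      have := (hasDerivAt_pow 2 u).ofReal_comp
      simpa using this
    have h3 := (h2.const_mul (2 * (π : ℂ))).mul_const I
    refine h3.congr_deriv ?_
    push_cast
    ring
  have h4 := h1.cexp
  unfold ph
  convert h4 using 1
  ring

/-- truncated Fresnel integral on `[0, b]`, `b ≥ 0`. -/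
lemma fresnel_nonneg {b : ℝ} (hb : 0 ≤ b) : ‖∫ u in (0 : ℝ)..b, ph (u ^ 2)‖ ≤ 2 := by
  have triv : ∀ c : ℝ, 0 ≤ c → c ≤ 1 → ‖∫ u in (0 : ℝ)..c, ph (u ^ 2)‖ ≤ 1 := by
    intro c hc0 hc1
    have := intervalIntegral.norm_integral_le_of_norm_le_const (a := (0 : ℝ)) (b := c)
      (f := fun u : ℝ => ph (u ^ 2)) (C := 1) (fun x _ => by simp)
    refine this.trans ?_
    rw [sub_zero, abs_of_nonneg hc0, one_mul]
    exact hc1
  rcases le_or_gt b 1 with hb1 | hb1
  · exact (triv b hb hb1).trans (by norm_num)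
  have hint : ∀ a c : ℝ, IntervalIntegrable (fun u : ℝ => ph (u ^ 2)) volume a c :=
    fun a c => (by fun_prop : Continuous fun u : ℝ => ph (u ^ 2)).intervalIntegrable a c
  rw [← integral_add_adjacent_intervals (hint 0 1) (hint 1 b)]
  refine (norm_add_le _ _).trans ?_
  have h01 := triv 1 zero_le_one le_rfl
  suffices h : ‖∫ u in (1 : ℝ)..b, ph (u ^ 2)‖ ≤ 1 by linarith
  have hpos : ∀ u ∈ uIcc (1 : ℝ) b, 0 < u := by
    intro u hu
    rw [uIcc_of_le hb1.le] at hu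
    exact lt_of_lt_of_le one_pos hu.1
  -- primitive
  have hderiv : ∀ u ∈ uIcc (1 : ℝ) b,
      HasDerivAt (fun v : ℝ => ph (v ^ 2) / (4 * π * I * v))
        (ph (u ^ 2) - ph (u ^ 2) / (4 * π * I * (u : ℂ) ^ 2)) u := by
    intro u hu
    have hu0 : (u : ℂ) ≠ 0 := by exact_mod_cast (hpos u hu).ne'
    have hpi : (π : ℂ) ≠ 0 := by exact_mod_cast Real.pi_ne_zero
    have h1 := hasDerivAt_ph_sq u
    have h2 : HasDerivAt (fun v : ℝ => 4 * (π : ℂ) * I * (v : ℂ)) (4 * π * I) u := by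
      have := (Complex.ofRealCLM.hasDerivAt (x := u)).const_mul (4 * (π : ℂ) * I)
      simpa using this
    have h3 := h1.div h2 (by
      simp [hu0, hpi, I_ne_zero])
    refine h3.congr_deriv ?_
    have hI : I ≠ 0 := I_ne_zero
    field_simp
  have hcont : ContinuousOn (fun u : ℝ => ph (u ^ 2) / (4 * π * I * (u : ℂ) ^ 2)) (uIcc (1 : ℝ) b) := by
    apply ContinuousOn.div
    · fun_prop
    · fun_prop
    · intro u hu
      have hu0 : (u : ℂ) ≠ 0 := by exact_mod_cast (hpos u hu).ne'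
      have hpi : (π : ℂ) ≠ 0 := by exact_mod_cast Real.pi_ne_zero
      simp [hu0, hpi, I_ne_zero]
  have hint2 : IntervalIntegrable (fun u : ℝ => ph (u ^ 2) / (4 * π * I * (u : ℂ) ^ 2)) volume 1 b :=
    hcont.intervalIntegrable
  have hFTC := intervalIntegral.integral_eq_sub_of_hasDerivAt hderiv ((hint 1 b).sub hint2)
  rw [intervalIntegral.integral_sub (hint 1 b) hint2] at hFTC
  have hmain : (∫ u in (1 : ℝ)..b, ph (u ^ 2)) =
      ph (b ^ 2) / (4 * π * I * b) - ph ((1 : ℝ) ^ 2) / (4 * π * I * (1 : ℝ)) +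
        ∫ u in (1 : ℝ)..b, ph (u ^ 2) / (4 * π * I * (u : ℂ) ^ 2) := by
    rw [← hFTC]; ring
  rw [hmain]
  have hnorm : ∀ u : ℝ, 0 < u → ‖ph (u ^ 2) / (4 * π * I * (u : ℂ))‖ = 1 / (4 * π * u) := by
    intro u hu
    rw [norm_div, norm_ph]
    simp [abs_of_pos Real.pi_pos, abs_of_pos hu]
  have hb0 : 0 < b := lt_trans one_pos hb1
  have e1 : ‖ph (b ^ 2) / (4 * π * I * (b : ℂ))‖ ≤ 1 / (4 * π) := by
    rw [hnorm b hb0]
    apply one_div_le_one_div_of_le (by positivity)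
    nlinarith [Real.pi_pos]
  have e2 : ‖ph ((1 : ℝ) ^ 2) / (4 * π * I * ((1 : ℝ) : ℂ))‖ ≤ 1 / (4 * π) := by
    rw [hnorm 1 one_pos]; simp
  have e3 : ‖∫ u in (1 : ℝ)..b, ph (u ^ 2) / (4 * π * I * (u : ℂ) ^ 2)‖ ≤ 1 / (4 * π) := by
    have hle : ‖∫ u in (1 : ℝ)..b, ph (u ^ 2) / (4 * π * I * (u : ℂ) ^ 2)‖ ≤
        ∫ u in (1 : ℝ)..b, (1 / (4 * π)) * (u ^ 2)⁻¹ := by
      apply intervalIntegral.norm_integral_le_of_norm_le hb1.le
      · refine Filter.Eventually.of_forall fun u hu => ?_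
        rw [norm_div, norm_ph]
        have : 0 < u := lt_trans one_pos hu.1
        simp [abs_of_pos Real.pi_pos, abs_of_pos this]
        apply le_of_eq
        ring
      · apply ContinuousOn.intervalIntegrable
        apply ContinuousOn.mul continuousOn_const
        apply ContinuousOn.inv₀ (by fun_prop)
        intro u hu
        have := hpos u hu
        positivity
    refine hle.trans ?_
    rw [intervalIntegral.integral_const_mul]
    have hval : ∫ u in (1 : ℝ)..b, (u ^ 2)⁻¹ = 1 - b⁻¹ := by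
      have hd : ∀ u ∈ uIcc (1 : ℝ) b, HasDerivAt (fun v : ℝ => -v⁻¹) ((u ^ 2)⁻¹) u := by
        intro u hu
        have := (hasDerivAt_inv (hpos u hu).ne').neg
        rw [neg_neg] at this
        exact this
      have hi : IntervalIntegrable (fun u : ℝ => (u ^ 2)⁻¹) volume 1 b := by
        apply ContinuousOn.intervalIntegrable
        apply ContinuousOn.inv₀ (by fun_prop)
        intro u hu
        have := hpos u hu
        positivity
      rw [intervalIntegral.integral_eq_sub_of_hasDerivAt hd hi]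
      simp; ring
    rw [hval]
    have : 1 - b⁻¹ ≤ 1 := by
      have : 0 < b⁻¹ := by positivity
      linarith
    have h4 : 0 ≤ 1 / (4 * π) := by positivity
    nlinarith
  have hpi3 : 1 / (4 * π) ≤ 1 / 4 := by
    apply one_div_le_one_div_of_le (by norm_num)
    nlinarith [Real.pi_gt_three]
  calc _ ≤ ‖ph (b ^ 2) / (4 * π * I * b) - ph ((1 : ℝ) ^ 2) / (4 * π * I * (1 : ℝ))‖ +
        ‖∫ u in (1 : ℝ)..b, ph (u ^ 2) / (4 * π * I * (u : ℂ) ^ 2)‖ := norm_add_le _ _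
    _ ≤ (‖ph (b ^ 2) / (4 * π * I * b)‖ + ‖ph ((1 : ℝ) ^ 2) / (4 * π * I * (1 : ℝ))‖) +
        ‖∫ u in (1 : ℝ)..b, ph (u ^ 2) / (4 * π * I * (u : ℂ) ^ 2)‖ := by
          gcongr; exact norm_sub_le _ _
    _ ≤ (1 / (4 * π) + 1 / (4 * π)) + 1 / (4 * π) := by
          gcongr
    _ ≤ 1 := by linarith

lemma fresnel_zero (b : ℝ) : ‖∫ u in (0 : ℝ)..b, ph (u ^ 2)‖ ≤ 2 := by
  rcases le_total 0 b with hb | hb
  · exact fresnel_nonneg hb
  · have h := fresnel_nonneg (b := -b) (by linarith)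
    have h2 : ∫ u in (0 : ℝ)..(-b), ph (u ^ 2) = ∫ u in b..0, ph (u ^ 2) := by
      have := intervalIntegral.integral_comp_neg (a := b) (b := 0) (fun u : ℝ => ph (u ^ 2))
      simpa using this.symm
    rw [h2, intervalIntegral.integral_symm, norm_neg] at h
    exact h

lemma fresnel (a b : ℝ) : ‖∫ u in a..b, ph (u ^ 2)‖ ≤ 4 := by
  have hint : ∀ a c : ℝ, IntervalIntegrable (fun u : ℝ => ph (u ^ 2)) volume a c :=
    fun a c => (by fun_prop : Continuous fun u : ℝ => ph (u ^ 2)).intervalIntegrable a c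
  rw [← integral_add_adjacent_intervals (hint a 0) (hint 0 b)]
  refine (norm_add_le _ _).trans ?_
  have h1 := fresnel_zero b
  have h2 := fresnel_zero a
  rw [intervalIntegral.integral_symm, norm_neg] at h2
  linarith

lemma vdc_pos (x : ℝ) {t : ℝ} (ht : 0 < t) (a b : ℝ) :
    ‖∫ ξ in a..b, ph (x * ξ + t * ξ ^ 2)‖ ≤ 4 / √t := by
  have hs : 0 < √t := Real.sqrt_pos.mpr ht
  have hs2 : √t * √t = t := Real.mul_self_sqrt ht.le
  have h1 : ∀ ξ : ℝ, ph (x * ξ + t * ξ ^ 2) =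
      ph (-(x ^ 2 / (4 * t))) * ph ((√t * ξ + x / (2 * √t)) ^ 2) := by
    intro ξ
    rw [← ph_add]
    congr 1
    have : (√t * ξ + x / (2 * √t)) ^ 2 = t * ξ ^ 2 + x * ξ + x ^ 2 / (4 * t) := by
      rw [add_sq, mul_pow, div_pow, mul_pow]
      rw [Real.sq_sqrt ht.le]
      field_simp
      ring
    rw [this]; ring
  simp_rw [h1]
  rw [intervalIntegral.integral_const_mul, norm_mul, norm_ph, one_mul]
  have h2 := intervalIntegral.integral_comp_mul_add (a := a) (b := b)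
    (fun u : ℝ => ph (u ^ 2)) (c := √t) hs.ne' (x / (2 * √t))
  rw [h2, norm_smul, Real.norm_eq_abs, abs_of_pos (inv_pos.mpr hs), div_eq_inv_mul (4 : ℝ)]
  exact mul_le_mul_of_nonneg_left (fresnel _ _) (inv_pos.mpr hs).le

lemma vdc (x : ℝ) {t : ℝ} (ht : t ≠ 0) (a b : ℝ) :
    ‖∫ ξ in a..b, ph (x * ξ + t * ξ ^ 2)‖ ≤ 4 / √|t| := by
  rcases lt_or_gt_of_ne ht with h | h
  · have h1 := vdc_pos (-x) (t := -t) (by linarith) a b
    rw [abs_of_neg h]
    refine le_trans (le_of_eq ?_) h1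
    rw [← Complex.norm_conj, ← intervalIntegral_conj]
    congr 1
    apply intervalIntegral.integral_congr
    intro ξ _
    simp only [conj_ph]
    congr 1
    ring
  · rw [abs_of_pos h]
    exact vdc_pos x h a b

end Pool.Agent.H.MP_b7167f_an
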