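import Mathlib
import Pool.Agent.H.MP_b7167f_an.VdC
import Pool.Agent.H.MP_b7167f_an.Kernel

/-!
Gaussian weights: Bessel inequality for the Fourier transform and the majorant principle
with Gaussian and power weights in the last variable.
-/

namespace Pool.Agent.H.MP_b7167f_an

open MeasureTheory Complex ComplexConjugate Real Set ENNReal

/-- one-dimensional transform of the Gaussian `exp (-π l y^2)` -/
noncomputable def gk (l v : ℝ) : ℝ := (√l)⁻¹ * Real.exp (-(π * v ^ 2 / l))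

lemma gk_nonneg (l v : ℝ) : 0 ≤ gk l v := by unfold gk; positivity

lemma gk_neg (l v : ℝ) : gk l (-v) = gk l v := by unfold gk; simp

lemma gk_meas (l : ℝ) : Measurable (gk l) := by unfold gk; fun_prop

/-- Gaussian weight on `ℝ^n`. -/
noncomputable def gw (n : ℕ) (l : ℝ) (y : Fin n → ℝ) : ℝ := Real.exp (-(π * l * ∑ i, y i ^ 2))

lemma gw_nonneg (n : ℕ) (l : ℝ) (y : Fin n → ℝ) : 0 ≤ gw n l y := (Real.exp_pos _).le

lemma gw_ofReal (n : ℕ) (l : ℝ) (y v : Fin n → ℝ) :
    (gw n l y : ℂ) * ph (∑ i, y i * v i) =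
      cexp (-∑ i, ((π * l : ℝ) : ℂ) * (y i : ℂ) ^ 2 + ∑ i, (2 * π * v i * I) * (y i : ℂ)) := by
  unfold gw ph
  rw [Complex.ofReal_exp, ← Complex.exp_add]
  congr 1
  push_cast
  rw [Finset.mul_sum, Finset.mul_sum, Finset.sum_mul]
  congr 1
  apply Finset.sum_congr rfl
  intro i _
  ring

lemma gauss_factor {l : ℝ} (hl : 0 < l) (v : ℝ) :
    ((π : ℂ) / ((π * l : ℝ) : ℂ)) ^ (1 / 2 : ℂ) *
      cexp ((2 * π * v * I) ^ 2 / (4 * ((π * l : ℝ) : ℂ))) = (gk l v : ℂ) := by
  unfold gk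
  have h1 : (π : ℂ) / ((π * l : ℝ) : ℂ) = ((l⁻¹ : ℝ) : ℂ) := by
    push_cast
    have : (π : ℂ) ≠ 0 := by exact_mod_cast Real.pi_ne_zero
    field_simp
  rw [h1]
  have h2 : ((l⁻¹ : ℝ) : ℂ) ^ (1 / 2 : ℂ) = (((√l)⁻¹ : ℝ) : ℂ) := by
    rw [show (1 / 2 : ℂ) = ((1 / 2 : ℝ) : ℂ) by push_cast; ring]
    rw [← Complex.ofReal_cpow (by positivity)]
    rw [← Real.sqrt_eq_rpow, Real.sqrt_inv]
  rw [h2]
  push_cast
  congr 1
  congr 1
  have : (π : ℂ) ≠ 0 := by exact_mod_cast Real.pi_ne_zero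
  have hl' : (l : ℂ) ≠ 0 := by exact_mod_cast hl.ne'
  field_simp
  rw [I_sq]
  ring

lemma gauss_transform (n : ℕ) {l : ℝ} (hl : 0 < l) (v : Fin n → ℝ) :
    ∫ y : Fin n → ℝ, (gw n l y : ℂ) * ph (∑ i, y i * v i) = ((∏ i, gk l (v i) : ℝ) : ℂ) := by
  simp_rw [gw_ofReal]
  have hb : ∀ i : Fin n, 0 < (((fun _ => ((π * l : ℝ) : ℂ)) : Fin n → ℂ) i).re := by
    intro i
    simp only [Complex.ofReal_re]
    positivity
  rw [GaussianFourier.integral_cexp_neg_sum_mul_add hb (fun i => 2 * π * v i * I)]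
  push_cast
  apply Finset.prod_congr rfl
  intro i _
  have := gauss_factor hl (v i)
  push_cast at this
  exact this

lemma gw_integrable (n : ℕ) {l : ℝ} (hl : 0 < l) : Integrable (gw n l) := by
  have hb : ∀ i : Fin n, 0 < (((fun _ => ((π * l : ℝ) : ℂ)) : Fin n → ℂ) i).re := by
    intro i
    simp only [Complex.ofReal_re]
    positivity
  have h := (GaussianFourier.integrable_cexp_neg_sum_mul_add hb (fun _ => 0)).norm
  refine h.congr (Filter.Eventually.of_forall fun y => ?_)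
  simp only [zero_mul, Finset.sum_const_zero, add_zero]
  unfold gw
  rw [Complex.norm_exp]
  congr 1
  rw [Complex.neg_re, Complex.re_sum, Finset.mul_sum]
  congr 1
  apply Finset.sum_congr rfl
  intro i _
  rw [← Complex.ofReal_pow, ← Complex.ofReal_mul, Complex.ofReal_re]

lemma gk_lintegral {l : ℝ} (hl : 0 < l) : ∫ v, gk l v = 1 := by
  unfold gk
  rw [integral_const_mul]
  have h := integral_gaussian (π / l)
  have h2 : ∀ v : ℝ, -(π * v ^ 2 / l) = -(π / l) * v ^ 2 := by intro v; ring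
  simp_rw [h2]
  rw [h]
  have : π / (π / l) = l := by field_simp
  rw [this]
  have : 0 < √l := Real.sqrt_pos.mpr hl
  field_simp

lemma gk_integrable {l : ℝ} (hl : 0 < l) : Integrable (gk l) := by
  by_contra h
  have h1 := integral_undef h
  rw [gk_lintegral hl] at h1
  exact one_ne_zero h1

lemma gkprod_integral (n : ℕ) {l : ℝ} (hl : 0 < l) (z : Fin n → ℝ) :
    ∫ z' : Fin n → ℝ, ∏ i, gk l (z i - z' i) = 1 := by
  rw [integral_fintype_prod_volume_eq_prod (fun i (v : ℝ) => gk l (z i - v))]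
  apply Finset.prod_eq_one
  intro i _
  rw [integral_sub_left_eq_self (fun v => gk l v) volume (z i)]
  exact gk_lintegral hl

lemma gkprod_integrable (n : ℕ) {l : ℝ} (hl : 0 < l) (z : Fin n → ℝ) :
    Integrable (fun z' : Fin n → ℝ => ∏ i, gk l (z i - z' i)) := by
  by_contra h
  have h1 := integral_undef h
  rw [gkprod_integral n hl] at h1
  exact one_ne_zero h1

lemma measurable_phsum {α : Type*} [MeasurableSpace α] (n : ℕ) {f g : α → Fin n → ℝ}
    (hf : Measurable f) (hg : Measurable g) : Measurable fun a => ph (∑ i, f a i * g a i) := by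
  apply continuous_ph.measurable.comp
  apply Finset.measurable_sum
  intro i _
  exact ((measurable_pi_apply i).comp hf).mul ((measurable_pi_apply i).comp hg)

/-- Bessel inequality for the Fourier transform of a bounded function on a set of finite
measure, Gaussian version. -/
lemma bessel_gauss (n : ℕ) {S : Set (Fin n → ℝ)} (hS : volume S < ∞) {l : ℝ} (hl : 0 < l)
    {u : (Fin n → ℝ) → ℂ} (hu : Measurable u) {M : ℝ} (hM : ∀ ξ, ‖u ξ‖ ≤ M) :
    ∫ x : Fin n → ℝ, gw n l x * ‖∫ ξ in S, u ξ * ph (∑ i, x i * ξ i)‖ ^ 2 ≤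
      ∫ ξ in S, ‖u ξ‖ ^ 2 := by
  have : IsFiniteMeasure (volume.restrict S) := ⟨by simpa using hS⟩
  have h := schur (μ := volume.restrict S) (ν := (volume : Measure (Fin n → ℝ)))
    (ω := gw n l) (gw_integrable n hl) (E := fun x ξ => ph (∑ i, x i * ξ i))
    (by
      exact measurable_phsum n measurable_fst measurable_snd)
    (fun _ _ => by simp)
    (k := fun z z' => ∏ i, gk l (z i - z' i))
    (fun z z' => Finset.prod_nonneg fun i _ => gk_nonneg _ _)
    (fun z z' => Finset.prod_congr rfl fun i _ => by rw [← gk_neg]; congr 1; ring)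
    (fun z z' => by
      rw [← gauss_transform n hl]
      congr 1
      ext y
      rw [conj_ph, ← ph_add, ← Finset.sum_neg_distrib, ← Finset.sum_add_distrib]
      congr 2
      apply Finset.sum_congr rfl
      intro i _
      ring)
    (B := 1)
    (fun z => by
      rw [← gkprod_integral n hl z]
      exact setIntegral_le_integral (gkprod_integrable n hl z)
        (Filter.Eventually.of_forall fun z' => Finset.prod_nonneg fun i _ => gk_nonneg _ _))
    hu hM
  rw [one_mul] at h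
  exact h

lemma tendsto_gw (n : ℕ) (y : Fin n → ℝ) :
    Filter.Tendsto (fun N : ℕ => ENNReal.ofReal (gw n (1 / ((N : ℝ) + 1)) y)) Filter.atTop
      (nhds 1) := by
  have h1 : Filter.Tendsto (fun N : ℕ => gw n (1 / ((N : ℝ) + 1)) y) Filter.atTop (nhds 1) := by
    unfold gw
    have h2 := tendsto_one_div_add_atTop_nhds_zero_nat (𝕜 := ℝ)
    have h3 : Filter.Tendsto (fun N : ℕ => -(π * (1 / ((N : ℝ) + 1)) * ∑ i, y i ^ 2)) Filter.atTop
        (nhds (-(π * 0 * ∑ i, y i ^ 2))) := ((h2.const_mul π).mul_const _).neg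
    have h4 := (Real.continuous_exp.tendsto _).comp h3
    rw [mul_zero, zero_mul, neg_zero, Real.exp_zero] at h4
    exact h4
  have := ENNReal.tendsto_ofReal h1
  simpa using this

/-- Bessel inequality. -/
lemma bessel (n : ℕ) {S : Set (Fin n → ℝ)} (hS : volume S < ∞)
    {u : (Fin n → ℝ) → ℂ} (hu : Measurable u) {M : ℝ} (hM : ∀ ξ, ‖u ξ‖ ≤ M) :
    ∫⁻ x : Fin n → ℝ, ‖∫ ξ in S, u ξ * ph (∑ i, x i * ξ i)‖ₑ ^ 2 ≤
      ENNReal.ofReal (∫ ξ in S, ‖u ξ‖ ^ 2) := by
  have : IsFiniteMeasure (volume.restrict S) := ⟨by simpa using hS⟩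
  have hmeas : StronglyMeasurable fun x : Fin n → ℝ => ∫ ξ in S, u ξ * ph (∑ i, x i * ξ i) := by
    apply StronglyMeasurable.integral_prod_right (f := fun (x ξ : Fin n → ℝ) =>
      u ξ * ph (∑ i, x i * ξ i))
    apply Measurable.stronglyMeasurable
    exact (hu.comp measurable_snd).mul (measurable_phsum n measurable_fst measurable_snd)
  have hbd : ∀ x : Fin n → ℝ, ‖∫ ξ in S, u ξ * ph (∑ i, x i * ξ i)‖ ≤ M * volume.real S := by
    intro x
    refine norm_setIntegral_le_of_norm_le_const hS ?_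
    intro ξ _
    rw [norm_mul, norm_ph, mul_one]
    exact hM ξ
  set F : (Fin n → ℝ) → ℂ := fun x => ∫ ξ in S, u ξ * ph (∑ i, x i * ξ i) with hF
  have hle : ∀ N : ℕ, ∫⁻ x : Fin n → ℝ, ENNReal.ofReal (gw n (1 / ((N : ℝ) + 1)) x) * ‖F x‖ₑ ^ 2 ≤
      ENNReal.ofReal (∫ ξ in S, ‖u ξ‖ ^ 2) := by
    intro N
    have hl : 0 < 1 / ((N : ℝ) + 1) := by positivity
    have h1 := bessel_gauss n hS hl hu hM
    have hint : Integrable (fun x => gw n (1 / ((N : ℝ) + 1)) x * ‖F x‖ ^ 2) := by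
      refine (gw_integrable n hl).mul_bdd (c := (M * volume.real S) ^ 2) ?_ ?_
      · exact (hmeas.norm.pow 2).aestronglyMeasurable
      · refine Filter.Eventually.of_forall fun x => ?_
        rw [Real.norm_eq_abs, abs_of_nonneg (by positivity)]
        have := hbd x
        gcongr
    have h2 : ∫⁻ x : Fin n → ℝ, ENNReal.ofReal (gw n (1 / ((N : ℝ) + 1)) x) * ‖F x‖ₑ ^ 2 =
        ENNReal.ofReal (∫ x, gw n (1 / ((N : ℝ) + 1)) x * ‖F x‖ ^ 2) := by
      rw [ofReal_integral_eq_lintegral_ofReal hint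
        (Filter.Eventually.of_forall fun x => mul_nonneg (gw_nonneg _ _ _) (by positivity))]
      apply lintegral_congr
      intro x
      rw [ENNReal.ofReal_mul (gw_nonneg _ _ _), ENNReal.ofReal_pow (norm_nonneg _),
        ofReal_norm]
    rw [h2]
    exact ENNReal.ofReal_le_ofReal h1
  have hlim : ∀ x : Fin n → ℝ, Filter.liminf (fun N : ℕ =>
      ENNReal.ofReal (gw n (1 / ((N : ℝ) + 1)) x) * ‖F x‖ₑ ^ 2) Filter.atTop = ‖F x‖ₑ ^ 2 := by
    intro x
    apply Filter.Tendsto.liminf_eq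
    have := ENNReal.Tendsto.mul_const (tendsto_gw n x) (b := ‖F x‖ₑ ^ 2) (Or.inl one_ne_zero)
    simpa using this
  calc ∫⁻ x : Fin n → ℝ, ‖F x‖ₑ ^ 2
      = ∫⁻ x, Filter.liminf (fun N : ℕ =>
          ENNReal.ofReal (gw n (1 / ((N : ℝ) + 1)) x) * ‖F x‖ₑ ^ 2) Filter.atTop := by
        simp_rw [hlim]
    _ ≤ Filter.liminf (fun N : ℕ => ∫⁻ x,
          ENNReal.ofReal (gw n (1 / ((N : ℝ) + 1)) x) * ‖F x‖ₑ ^ 2) Filter.atTop := by
        apply lintegral_liminf_le
        intro N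
        have h1 : Measurable fun a : Fin n → ℝ => ENNReal.ofReal (gw n (1 / ((N : ℝ) + 1)) a) := by
          unfold gw; fun_prop
        exact h1.mul ((hmeas.measurable.enorm).pow_const 2)
    _ ≤ ENNReal.ofReal (∫ ξ in S, ‖u ξ‖ ^ 2) := by
        refine (Filter.liminf_le_liminf (Filter.Eventually.of_forall hle)).trans ?_
        simp

end Pool.Agent.H.MP_b7167f_an
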