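import Mathlib
import Pool.Agent.H.MP_b7167f_an.Gauss

/-!
The majorant principle for `ℝ^k × ℝ` with weights `exp (-π l t^2)` and `|t|^(-β)`.
-/

namespace Pool.Agent.H.MP_b7167f_an

open MeasureTheory Complex ComplexConjugate Real Set ENNReal

/-- one dimensional Gaussian weight -/
noncomputable def g1 (l t : ℝ) : ℝ := Real.exp (-(π * l * t ^ 2))

lemma g1_nonneg (l t : ℝ) : 0 ≤ g1 l t := (Real.exp_pos _).le

lemma g1_transform {l : ℝ} (hl : 0 < l) (v : ℝ) :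
    ∫ t : ℝ, (g1 l t : ℂ) * ph (t * v) = (gk l v : ℂ) := by
  have h := fourierIntegral_gaussian (b := ((π * l : ℝ) : ℂ))
    (by rw [Complex.ofReal_re]; positivity) (2 * π * v)
  have h2 := gauss_factor hl v
  have h3 : (2 * (π : ℂ) * v * I) ^ 2 / (4 * ((π * l : ℝ) : ℂ)) =
      -(2 * π * v) ^ 2 / (4 * ((π * l : ℝ) : ℂ)) := by
    rw [mul_pow, I_sq]; ring
  rw [h3] at h2
  rw [← h2, ← h]
  apply integral_congr_ae
  refine Filter.Eventually.of_forall fun t => ?_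
  simp only
  unfold g1 ph
  rw [Complex.ofReal_exp, ← Complex.exp_add, ← Complex.exp_add]
  congr 1
  push_cast
  ring

lemma g1_integrable {l : ℝ} (hl : 0 < l) : Integrable (g1 l) := by
  have h := integrable_exp_neg_mul_sq (b := π * l) (by positivity)
  refine h.congr (Filter.Eventually.of_forall fun t => ?_)
  unfold g1
  simp only
  congr 1
  ring

section

variable {Ω : Type*} [MeasurableSpace Ω] {μ : Measure Ω} [IsFiniteMeasure μ]

/-- The character `e(y · Φ(z))` -/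
noncomputable def chr {k : ℕ} (p q : (Fin k → ℝ) × ℝ) : ℂ := ph (∑ i, p.1 i * q.1 i + p.2 * q.2)

lemma norm_chr {k : ℕ} (p q : (Fin k → ℝ) × ℝ) : ‖chr p q‖ = 1 := norm_ph _

lemma measurable_chr {α : Type*} [MeasurableSpace α] {k : ℕ} {f g : α → (Fin k → ℝ) × ℝ}
    (hf : Measurable f) (hg : Measurable g) : Measurable fun a => chr (f a) (g a) := by
  unfold chr
  apply continuous_ph.measurable.comp
  apply Measurable.add
  · apply Finset.measurable_sum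
    intro i _
    exact ((measurable_pi_apply i).comp (measurable_fst.comp hf)).mul
      ((measurable_pi_apply i).comp (measurable_fst.comp hg))
  · exact (measurable_snd.comp hf).mul (measurable_snd.comp hg)

lemma chr_mul_conj {k : ℕ} (p q q' : (Fin k → ℝ) × ℝ) :
    chr p q * conj (chr p q') = ph (∑ i, p.1 i * (q.1 i - q'.1 i)) * ph (p.2 * (q.2 - q'.2)) := by
  unfold chr
  rw [conj_ph, ← ph_add, ← ph_add]
  congr 1
  simp only [mul_sub, Finset.sum_sub_distrib]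
  ring

lemma mixed_transform {k : ℕ} {e l : ℝ} (he : 0 < e) (hl : 0 < l) (q q' : (Fin k → ℝ) × ℝ) :
    ∫ p : (Fin k → ℝ) × ℝ, ((gw k e p.1 * g1 l p.2 : ℝ) : ℂ) * (chr p q * conj (chr p q')) =
      (((∏ i, gk e (q.1 i - q'.1 i)) * gk l (q.2 - q'.2) : ℝ) : ℂ) := by
  have h1 : ∀ p : (Fin k → ℝ) × ℝ,
      ((gw k e p.1 * g1 l p.2 : ℝ) : ℂ) * (chr p q * conj (chr p q')) =
      ((gw k e p.1 : ℂ) * ph (∑ i, p.1 i * (q.1 i - q'.1 i))) *
        ((g1 l p.2 : ℂ) * ph (p.2 * (q.2 - q'.2))) := by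
    intro p
    rw [chr_mul_conj]
    push_cast
    ring
  simp_rw [h1]
  rw [Measure.volume_eq_prod]
  rw [integral_prod_mul (fun y : Fin k → ℝ => (gw k e y : ℂ) * ph (∑ i, y i * (q.1 i - q'.1 i)))
    (fun t : ℝ => (g1 l t : ℂ) * ph (t * (q.2 - q'.2)))]
  rw [gauss_transform k he (fun i => q.1 i - q'.1 i), g1_transform hl]
  push_cast
  rfl

lemma maj_mixed {k : ℕ} {e l : ℝ} (he : 0 < e) (hl : 0 < l) {Φ : Ω → (Fin k → ℝ) × ℝ}
    (hΦ : Measurable Φ) {κ : Ω → ℂ} (hκ : Measurable κ) {M : ℝ} (hM : ∀ z, ‖κ z‖ ≤ M) :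
    ∫ p : (Fin k → ℝ) × ℝ, (gw k e p.1 * g1 l p.2) * ‖∫ z, κ z * chr p (Φ z) ∂μ‖ ^ 2 ≤
      M ^ 2 * ∫ p : (Fin k → ℝ) × ℝ, (gw k e p.1 * g1 l p.2) * ‖∫ z, chr p (Φ z) ∂μ‖ ^ 2 := by
  have hω : Integrable (fun p : (Fin k → ℝ) × ℝ => gw k e p.1 * g1 l p.2) := by
    rw [Measure.volume_eq_prod]
    exact (gw_integrable k he).mul_prod (g1_integrable hl)
  exact majorant (μ := μ) (ν := (volume : Measure ((Fin k → ℝ) × ℝ))) hω
    (E := fun p z => chr p (Φ z))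
    (measurable_chr measurable_fst (hΦ.comp measurable_snd))
    (fun _ _ => (norm_chr _ _).le)
    (k := fun z z' => (∏ i, gk e ((Φ z).1 i - (Φ z').1 i)) * gk l ((Φ z).2 - (Φ z').2))
    (fun z z' => mul_nonneg (Finset.prod_nonneg fun i _ => gk_nonneg _ _) (gk_nonneg _ _))
    (fun z z' => mixed_transform he hl _ _) hκ hM

/-- the transform of `κ` -/
noncomputable def tr (μ : Measure Ω) {k : ℕ} (Φ : Ω → (Fin k → ℝ) × ℝ) (κ : Ω → ℂ)
    (p : (Fin k → ℝ) × ℝ) : ℂ := ∫ z, κ z * chr p (Φ z) ∂μ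

lemma tr_meas {k : ℕ} {Φ : Ω → (Fin k → ℝ) × ℝ} (hΦ : Measurable Φ) {κ : Ω → ℂ}
    (hκ : Measurable κ) : Measurable (tr μ Φ κ) := by
  apply StronglyMeasurable.measurable
  apply StronglyMeasurable.integral_prod_right (f := fun (p : (Fin k → ℝ) × ℝ) (z : Ω) =>
      κ z * chr p (Φ z))
  apply Measurable.stronglyMeasurable
  exact (hκ.comp measurable_snd).mul (measurable_chr measurable_fst (hΦ.comp measurable_snd))

lemma tr_bound {k : ℕ} {Φ : Ω → (Fin k → ℝ) × ℝ} {κ : Ω → ℂ} {M : ℝ} (hM : ∀ z, ‖κ z‖ ≤ M)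
    (p : (Fin k → ℝ) × ℝ) : ‖tr μ Φ κ p‖ ≤ M * μ.real univ := by
  unfold tr
  refine (norm_integral_le_of_norm_le_const (C := M) (Filter.Eventually.of_forall fun z => ?_))
  rw [norm_mul, norm_chr, mul_one]
  exact hM z

/-- Majorant principle in `lintegral` form, both Gaussian weights. -/
lemma maj_mixed_lint {k : ℕ} {e l : ℝ} (he : 0 < e) (hl : 0 < l) {Φ : Ω → (Fin k → ℝ) × ℝ}
    (hΦ : Measurable Φ) {κ : Ω → ℂ} (hκ : Measurable κ) {M : ℝ} (hM : ∀ z, ‖κ z‖ ≤ M) :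
    ∫⁻ p : (Fin k → ℝ) × ℝ, ENNReal.ofReal (gw k e p.1 * g1 l p.2) * ‖tr μ Φ κ p‖ₑ ^ 2 ≤
      ENNReal.ofReal (M ^ 2) * ∫⁻ p : (Fin k → ℝ) × ℝ,
        ENNReal.ofReal (gw k e p.1 * g1 l p.2) * ‖tr μ Φ (fun _ => 1) p‖ₑ ^ 2 := by
  have hω : Integrable (fun p : (Fin k → ℝ) × ℝ => gw k e p.1 * g1 l p.2) := by
    rw [Measure.volume_eq_prod]
    exact (gw_integrable k he).mul_prod (g1_integrable hl)
  have hω0 : ∀ p : (Fin k → ℝ) × ℝ, 0 ≤ gw k e p.1 * g1 l p.2 := fun p =>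
    mul_nonneg (gw_nonneg _ _ _) (g1_nonneg _ _)
  have key : ∀ {κ' : Ω → ℂ} (hκ' : Measurable κ') {M' : ℝ} (hM' : ∀ z, ‖κ' z‖ ≤ M'),
      ∫⁻ p : (Fin k → ℝ) × ℝ, ENNReal.ofReal (gw k e p.1 * g1 l p.2) * ‖tr μ Φ κ' p‖ₑ ^ 2 =
      ENNReal.ofReal (∫ p : (Fin k → ℝ) × ℝ, (gw k e p.1 * g1 l p.2) * ‖tr μ Φ κ' p‖ ^ 2) := by
    intro κ' hκ' M' hM'
    have hint : Integrable (fun p : (Fin k → ℝ) × ℝ =>
        (gw k e p.1 * g1 l p.2) * ‖tr μ Φ κ' p‖ ^ 2) := by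
      refine hω.mul_bdd (c := (M' * μ.real univ) ^ 2) ?_ ?_
      · exact ((tr_meas hΦ hκ').norm.pow_const 2).aestronglyMeasurable
      · refine Filter.Eventually.of_forall fun p => ?_
        rw [Real.norm_eq_abs, abs_of_nonneg (by positivity)]
        have := tr_bound (μ := μ) (Φ := Φ) hM' p
        gcongr
    rw [ofReal_integral_eq_lintegral_ofReal hint
      (Filter.Eventually.of_forall fun p => mul_nonneg (hω0 p) (by positivity))]
    apply lintegral_congr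
    intro p
    rw [ENNReal.ofReal_mul (hω0 p), ENNReal.ofReal_pow (norm_nonneg _), ofReal_norm]
  rw [key hκ hM, key (κ' := fun _ => 1) measurable_const (M' := 1) (fun _ => by simp),
    ← ENNReal.ofReal_mul (by positivity)]
  apply ENNReal.ofReal_le_ofReal
  have h := maj_mixed (μ := μ) he hl hΦ hκ hM
  unfold tr
  simpa using h

/-- Majorant principle with weight `exp (-π l t^2)`. -/
lemma maj_gauss {k : ℕ} {l : ℝ} (hl : 0 < l) {Φ : Ω → (Fin k → ℝ) × ℝ}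
    (hΦ : Measurable Φ) {κ : Ω → ℂ} (hκ : Measurable κ) {M : ℝ} (hM : ∀ z, ‖κ z‖ ≤ M) :
    ∫⁻ p : (Fin k → ℝ) × ℝ, ENNReal.ofReal (g1 l p.2) * ‖tr μ Φ κ p‖ₑ ^ 2 ≤
      ENNReal.ofReal (M ^ 2) * ∫⁻ p : (Fin k → ℝ) × ℝ,
        ENNReal.ofReal (g1 l p.2) * ‖tr μ Φ (fun _ => 1) p‖ₑ ^ 2 := by
  set F := tr μ Φ κ with hF
  have hFm : Measurable F := tr_meas hΦ hκ
  have hle : ∀ N : ℕ, ∫⁻ p : (Fin k → ℝ) × ℝ,
      ENNReal.ofReal (gw k (1 / ((N : ℝ) + 1)) p.1 * g1 l p.2) * ‖F p‖ₑ ^ 2 ≤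
      ENNReal.ofReal (M ^ 2) * ∫⁻ p : (Fin k → ℝ) × ℝ,
        ENNReal.ofReal (g1 l p.2) * ‖tr μ Φ (fun _ => 1) p‖ₑ ^ 2 := by
    intro N
    refine (maj_mixed_lint (μ := μ) (by positivity) hl hΦ hκ hM).trans ?_
    gcongr with p
    have h1 : gw k (1 / ((N : ℝ) + 1)) p.1 ≤ 1 := by
      unfold gw
      rw [Real.exp_le_one_iff]
      have : 0 ≤ ∑ i, p.1 i ^ 2 := Finset.sum_nonneg fun i _ => sq_nonneg _
      have h2 : 0 ≤ π * (1 / ((N : ℝ) + 1)) * ∑ i, p.1 i ^ 2 := by positivity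
      linarith
    calc gw k (1 / ((N : ℝ) + 1)) p.1 * g1 l p.2 ≤ 1 * g1 l p.2 :=
          mul_le_mul_of_nonneg_right h1 (g1_nonneg _ _)
      _ = g1 l p.2 := one_mul _
  have hlim : ∀ p : (Fin k → ℝ) × ℝ, Filter.liminf (fun N : ℕ =>
      ENNReal.ofReal (gw k (1 / ((N : ℝ) + 1)) p.1 * g1 l p.2) * ‖F p‖ₑ ^ 2) Filter.atTop =
        ENNReal.ofReal (g1 l p.2) * ‖F p‖ₑ ^ 2 := by
    intro p
    apply Filter.Tendsto.liminf_eq
    have h1 := ENNReal.Tendsto.mul_const (tendsto_gw k p.1)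
      (b := ENNReal.ofReal (g1 l p.2) * ‖F p‖ₑ ^ 2) (Or.inl one_ne_zero)
    rw [one_mul] at h1
    refine h1.congr fun N => ?_
    rw [ENNReal.ofReal_mul (gw_nonneg _ _ _), mul_assoc]
  calc ∫⁻ p : (Fin k → ℝ) × ℝ, ENNReal.ofReal (g1 l p.2) * ‖F p‖ₑ ^ 2
      = ∫⁻ p, Filter.liminf (fun N : ℕ =>
          ENNReal.ofReal (gw k (1 / ((N : ℝ) + 1)) p.1 * g1 l p.2) * ‖F p‖ₑ ^ 2)
          Filter.atTop := by simp_rw [hlim]
    _ ≤ Filter.liminf (fun N : ℕ => ∫⁻ p,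
          ENNReal.ofReal (gw k (1 / ((N : ℝ) + 1)) p.1 * g1 l p.2) * ‖F p‖ₑ ^ 2)
          Filter.atTop := by
        apply lintegral_liminf_le
        intro N
        have h1 : Measurable fun p : (Fin k → ℝ) × ℝ =>
            ENNReal.ofReal (gw k (1 / ((N : ℝ) + 1)) p.1 * g1 l p.2) := by
          unfold gw g1; fun_prop
        exact h1.mul ((hFm.enorm).pow_const 2)
    _ ≤ _ := by
        refine (Filter.liminf_le_liminf (Filter.Eventually.of_forall hle)).trans ?_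
        simp

lemma pow_superposition {β : ℝ} (hβ : 0 < β) {t : ℝ} (ht : t ≠ 0) :
    ∫⁻ l in Ioi (0 : ℝ), ENNReal.ofReal (l ^ (β / 2 - 1)) * ENNReal.ofReal (g1 l t) =
      ENNReal.ofReal (Real.Gamma (β / 2) * π ^ (-(β / 2)) * |t| ^ (-β)) := by
  have hr : 0 < π * t ^ 2 := by positivity
  have h := Real.integral_rpow_mul_exp_neg_mul_Ioi (a := β / 2) (r := π * t ^ 2) (by positivity) hr
  have hval : (1 / (π * t ^ 2)) ^ (β / 2) * Real.Gamma (β / 2) =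
      Real.Gamma (β / 2) * π ^ (-(β / 2)) * |t| ^ (-β) := by
    rw [one_div, Real.inv_rpow hr.le, Real.mul_rpow Real.pi_pos.le (sq_nonneg t), ← sq_abs t,
      ← Real.rpow_natCast (|t|) 2, ← Real.rpow_mul (abs_nonneg t), Real.rpow_neg Real.pi_pos.le,
      Real.rpow_neg (abs_nonneg t)]
    have : ((2 : ℕ) : ℝ) * (β / 2) = β := by push_cast; ring
    rw [this, mul_inv]
    ring
  rw [hval] at h
  rw [← h]
  have hint : Integrable (fun l : ℝ => l ^ (β / 2 - 1) * Real.exp (-(π * t ^ 2 * l)))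
      (volume.restrict (Ioi 0)) := by
    by_contra hcon
    rw [integral_undef hcon] at h
    have : 0 < Real.Gamma (β / 2) * π ^ (-(β / 2)) * |t| ^ (-β) := by
      have := Real.Gamma_pos_of_pos (s := β / 2) (by positivity)
      have h2 : 0 < |t| := abs_pos.mpr ht
      positivity
    linarith
  rw [ofReal_integral_eq_lintegral_ofReal hint]
  · apply setLIntegral_congr_fun measurableSet_Ioi
    intro l hl
    simp only
    rw [← ENNReal.ofReal_mul (Real.rpow_nonneg (le_of_lt hl) _)]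
    congr 2
    unfold g1
    congr 1
    ring
  · refine (ae_restrict_iff' measurableSet_Ioi).mpr (Filter.Eventually.of_forall fun l hl => ?_)
    exact mul_nonneg (Real.rpow_nonneg (le_of_lt hl) _) (Real.exp_pos _).le

/-- Majorant principle with the power weight `|t|^(-β)`. -/
lemma maj_pow {k : ℕ} {β : ℝ} (hβ : 0 < β) {Φ : Ω → (Fin k → ℝ) × ℝ}
    (hΦ : Measurable Φ) {κ : Ω → ℂ} (hκ : Measurable κ) {M : ℝ} (hM : ∀ z, ‖κ z‖ ≤ M) :
    ∫⁻ p : (Fin k → ℝ) × ℝ, ENNReal.ofReal (|p.2| ^ (-β)) * ‖tr μ Φ κ p‖ₑ ^ 2 ≤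
      ENNReal.ofReal (M ^ 2) * ∫⁻ p : (Fin k → ℝ) × ℝ,
        ENNReal.ofReal (|p.2| ^ (-β)) * ‖tr μ Φ (fun _ => 1) p‖ₑ ^ 2 := by
  set c : ℝ := Real.Gamma (β / 2) * π ^ (-(β / 2)) with hc
  have hc0 : 0 < c := by
    have := Real.Gamma_pos_of_pos (s := β / 2) (by positivity)
    positivity
  have hcE : ENNReal.ofReal c ≠ 0 := by simpa using hc0
  have hcT : ENNReal.ofReal c ≠ ⊤ := ENNReal.ofReal_ne_top
  have hae : ∀ᵐ p : (Fin k → ℝ) × ℝ, p.2 ≠ 0 := by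
    have h1 : (volume : Measure ((Fin k → ℝ) × ℝ)) {p | ¬ p.2 ≠ 0} = 0 := by
      have : {p : (Fin k → ℝ) × ℝ | ¬ p.2 ≠ 0} = univ ×ˢ {0} := by
        ext p; simp
      rw [this, Measure.volume_eq_prod, Measure.prod_prod]
      simp
    exact h1
  have key : ∀ {κ' : Ω → ℂ} (hκ' : Measurable κ'),
      ENNReal.ofReal c * ∫⁻ p : (Fin k → ℝ) × ℝ, ENNReal.ofReal (|p.2| ^ (-β)) * ‖tr μ Φ κ' p‖ₑ ^ 2 =
      ∫⁻ l in Ioi (0 : ℝ), ENNReal.ofReal (l ^ (β / 2 - 1)) *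
        ∫⁻ p : (Fin k → ℝ) × ℝ, ENNReal.ofReal (g1 l p.2) * ‖tr μ Φ κ' p‖ₑ ^ 2 := by
    intro κ' hκ'
    have hm : Measurable fun p : (Fin k → ℝ) × ℝ => ‖tr μ Φ κ' p‖ₑ ^ 2 :=
      ((tr_meas hΦ hκ').enorm).pow_const 2
    rw [← lintegral_const_mul' _ _ hcT]
    have e1 : ∫⁻ p : (Fin k → ℝ) × ℝ, ENNReal.ofReal c *
        (ENNReal.ofReal (|p.2| ^ (-β)) * ‖tr μ Φ κ' p‖ₑ ^ 2) =
        ∫⁻ p : (Fin k → ℝ) × ℝ, ∫⁻ l in Ioi (0 : ℝ),
          ENNReal.ofReal (l ^ (β / 2 - 1)) * (ENNReal.ofReal (g1 l p.2) * ‖tr μ Φ κ' p‖ₑ ^ 2) := by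
      apply lintegral_congr_ae
      filter_upwards [hae] with p hp
      rw [← mul_assoc, ← ENNReal.ofReal_mul hc0.le, ← pow_superposition hβ hp]
      rw [← lintegral_mul_const]
      · apply lintegral_congr
        intro l
        rw [mul_assoc]
      · unfold g1; fun_prop
    rw [e1, lintegral_lintegral_swap]
    · apply lintegral_congr
      intro l
      rw [lintegral_const_mul' _ _ ENNReal.ofReal_ne_top]
    · apply Measurable.aemeasurable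
      have h1 : Measurable fun q : ((Fin k → ℝ) × ℝ) × ℝ => ENNReal.ofReal (q.2 ^ (β / 2 - 1)) := by
        fun_prop
      have h2 : Measurable fun q : ((Fin k → ℝ) × ℝ) × ℝ => ENNReal.ofReal (g1 q.2 q.1.2) := by
        unfold g1; fun_prop
      exact h1.mul (h2.mul (hm.comp measurable_fst))
  have h1 := key hκ
  have h2 := key (κ' := fun _ => (1 : ℂ)) measurable_const
  have h3 : ENNReal.ofReal c * ∫⁻ p : (Fin k → ℝ) × ℝ,
        ENNReal.ofReal (|p.2| ^ (-β)) * ‖tr μ Φ κ p‖ₑ ^ 2 ≤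
      ENNReal.ofReal c * (ENNReal.ofReal (M ^ 2) * ∫⁻ p : (Fin k → ℝ) × ℝ,
        ENNReal.ofReal (|p.2| ^ (-β)) * ‖tr μ Φ (fun _ => 1) p‖ₑ ^ 2) := by
    rw [h1, mul_left_comm, h2, ← lintegral_const_mul' _ _ ENNReal.ofReal_ne_top]
    apply setLIntegral_mono' measurableSet_Ioi
    intro l hl
    rw [mul_left_comm]
    gcongr
    exact maj_gauss (μ := μ) hl hΦ hκ hM
  exact (ENNReal.mul_le_mul_iff_right hcE hcT).mp h3

end

end Pool.Agent.H.MP_b7167f_an
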