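import Mathlib
import Pool.Agent.H.MP_b7167f_an.Major

/-!
Extension operator over the cube `[-1,1]^n`: box kernel bounds and `L^2`, `L^4` estimates for
the extension of the constant function.
-/

namespace Pool.Agent.H.MP_b7167f_an

open MeasureTheory Complex ComplexConjugate Real Set ENNReal

/-- The cube measure. -/
noncomputable def cube (n : ℕ) : Measure (Fin n → ℝ) := volume.restrict (Icc (-1) 1)

lemma cube_eq_pi (n : ℕ) : cube n = Measure.pi fun _ => (volume : Measure ℝ).restrict (Icc (-1) 1) := by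
  unfold cube
  rw [← Set.pi_univ_Icc]
  rw [volume_pi, Measure.restrict_pi_pi]
  rfl

lemma volume_cube (n : ℕ) : volume (Icc (-1 : Fin n → ℝ) 1) = ENNReal.ofReal (2 ^ n) := by
  rw [Real.volume_Icc_pi]
  simp only [Pi.one_apply, Pi.neg_apply]
  rw [Finset.prod_const, Finset.card_univ, Fintype.card_fin, ← ENNReal.ofReal_pow (by norm_num)]
  norm_num

lemma volume_cube_lt (n : ℕ) : volume (Icc (-1 : Fin n → ℝ) 1) < ∞ := by
  rw [volume_cube]; exact ENNReal.ofReal_lt_top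

instance (n : ℕ) : IsFiniteMeasure (cube n) := ⟨by
  unfold cube; rw [Measure.restrict_apply_univ]; exact volume_cube_lt n⟩

lemma cube_real_univ (n : ℕ) : (cube n).real univ = 2 ^ n := by
  unfold cube
  rw [Measure.real, Measure.restrict_apply_univ, volume_cube, ENNReal.toReal_ofReal (by positivity)]

/-- parametrisation of the paraboloid -/
def par {n : ℕ} (ξ : Fin n → ℝ) : (Fin n → ℝ) × ℝ := (ξ, ∑ i, ξ i ^ 2)

lemma measurable_par {n : ℕ} : Measurable (par (n := n)) := by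
  unfold par
  fun_prop

lemma chr_par {n : ℕ} (p : (Fin n → ℝ) × ℝ) (ξ : Fin n → ℝ) :
    chr p (par ξ) = ∏ i, ph (p.1 i * ξ i + p.2 * ξ i ^ 2) := by
  unfold chr par
  rw [← ph_sum]
  congr 1
  simp only
  rw [Finset.mul_sum, Finset.sum_add_distrib]

/-- extension operator over the cube -/
noncomputable def E (n : ℕ) (h : (Fin n → ℝ) → ℂ) (p : (Fin n → ℝ) × ℝ) : ℂ :=
  tr (cube n) par h p

lemma E_def (n : ℕ) (h : (Fin n → ℝ) → ℂ) (p : (Fin n → ℝ) × ℝ) :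
    E n h p = ∫ ξ, h ξ * chr p (par ξ) ∂(cube n) := rfl

lemma box_prod (n : ℕ) (p : (Fin n → ℝ) × ℝ) :
    E n (fun _ => 1) p = ∏ i, ∫ ξ in (-1 : ℝ)..1, ph (p.1 i * ξ + p.2 * ξ ^ 2) := by
  rw [E_def]
  simp only [one_mul, chr_par]
  rw [cube_eq_pi]
  rw [integral_fintype_prod_eq_prod (fun i (ξ : ℝ) => ph (p.1 i * ξ + p.2 * ξ ^ 2))]
  apply Finset.prod_congr rfl
  intro i _
  rw [intervalIntegral.integral_of_le (by norm_num), integral_Icc_eq_integral_Ioc]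

lemma one_le_two (x t : ℝ) : ‖∫ ξ in (-1 : ℝ)..1, ph (x * ξ + t * ξ ^ 2)‖ ≤ 2 := by
  have := intervalIntegral.norm_integral_le_of_norm_le_const (a := (-1 : ℝ)) (b := 1)
      (f := fun ξ : ℝ => ph (x * ξ + t * ξ ^ 2)) (C := 1) (fun x _ => by simp)
  refine this.trans ?_
  norm_num

lemma box_bound (n : ℕ) (p : (Fin n → ℝ) × ℝ) (ht : p.2 ≠ 0) :
    ‖E n (fun _ => 1) p‖ ≤ (4 / √|p.2|) ^ n := by
  rw [box_prod, norm_prod]
  calc ∏ i, ‖∫ ξ in (-1 : ℝ)..1, ph (p.1 i * ξ + p.2 * ξ ^ 2)‖ ≤ ∏ _i : Fin n, (4 / √|p.2|) := by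
        apply Finset.prod_le_prod
        · intro i _; positivity
        · intro i _; exact vdc _ ht _ _
    _ = (4 / √|p.2|) ^ n := by rw [Finset.prod_const, Finset.card_univ, Fintype.card_fin]

lemma box_bound_two (n : ℕ) (p : (Fin n → ℝ) × ℝ) : ‖E n (fun _ => 1) p‖ ≤ 2 ^ n := by
  rw [box_prod, norm_prod]
  calc ∏ i, ‖∫ ξ in (-1 : ℝ)..1, ph (p.1 i * ξ + p.2 * ξ ^ 2)‖ ≤ ∏ _i : Fin n, (2 : ℝ) := by
        apply Finset.prod_le_prod
        · intro i _; positivity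
        · intro i _; exact one_le_two _ _
    _ = 2 ^ n := by simp

/-- for `k ≥ 1` the square of the extension of `1` decays like `1/|t|`. -/
lemma box_sq (k : ℕ) (hk : 1 ≤ k) (p : (Fin k → ℝ) × ℝ) (ht : p.2 ≠ 0) :
    ‖E k (fun _ => 1) p‖ ^ 2 ≤ 4 ^ k * 16 / |p.2| := by
  obtain ⟨j, rfl⟩ := Nat.exists_eq_add_of_le' hk
  rw [box_prod, Fin.prod_univ_succ, norm_mul, norm_prod]
  have h0 : 0 < √|p.2| := Real.sqrt_pos.mpr (abs_pos.mpr ht)
  have h1 : ‖∫ ξ in (-1 : ℝ)..1, ph (p.1 0 * ξ + p.2 * ξ ^ 2)‖ ≤ 4 / √|p.2| := vdc _ ht _ _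
  have h2 : ∏ i : Fin j, ‖∫ ξ in (-1 : ℝ)..1, ph (p.1 (Fin.succ i) * ξ + p.2 * ξ ^ 2)‖ ≤ 2 ^ j := by
    calc _ ≤ ∏ _i : Fin j, (2 : ℝ) := by
          apply Finset.prod_le_prod
          · intro i _; positivity
          · intro i _; exact one_le_two _ _
      _ = 2 ^ j := by simp
  have h3 : ‖∫ ξ in (-1 : ℝ)..1, ph (p.1 0 * ξ + p.2 * ξ ^ 2)‖ *
      ∏ i : Fin j, ‖∫ ξ in (-1 : ℝ)..1, ph (p.1 (Fin.succ i) * ξ + p.2 * ξ ^ 2)‖ ≤
      4 / √|p.2| * 2 ^ j := by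
    apply mul_le_mul h1 h2 (Finset.prod_nonneg fun i _ => norm_nonneg _) (by positivity)
  calc _ ≤ (4 / √|p.2| * 2 ^ j) ^ 2 := by
        apply pow_le_pow_left₀ _ h3
        exact mul_nonneg (norm_nonneg _) (Finset.prod_nonneg fun i _ => norm_nonneg _)
    _ = 16 * 4 ^ j / |p.2| := by
        rw [mul_pow, div_pow, Real.sq_sqrt (abs_nonneg _), ← pow_mul, mul_comm j 2, pow_mul]
        norm_num
        ring
    _ ≤ 4 ^ (j + 1) * 16 / |p.2| := by
        have : 0 < |p.2| := abs_pos.mpr ht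
        have h4 := pow_pos (show (0 : ℝ) < 4 by norm_num) j
        rw [div_le_div_iff_of_pos_right this, pow_succ]
        linarith

lemma box_sq' (k : ℕ) (p : (Fin k → ℝ) × ℝ) :
    ‖E k (fun _ => 1) p‖ ^ 2 ≤ 4 ^ k := by
  have h := box_bound_two k p
  calc ‖E k (fun _ => 1) p‖ ^ 2 ≤ (2 ^ k) ^ 2 := pow_le_pow_left₀ (norm_nonneg _) h 2
    _ = 4 ^ k := by rw [← pow_mul, mul_comm, pow_mul]; norm_num

/-- `L^2` bound in the space variables at each time. -/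
lemma E_L2 (n : ℕ) {u : (Fin n → ℝ) → ℂ} (hu : Measurable u) {M : ℝ} (hM : ∀ ξ, ‖u ξ‖ ≤ M)
    (t : ℝ) : ∫⁻ x : Fin n → ℝ, ‖E n u (x, t)‖ₑ ^ 2 ≤ ENNReal.ofReal (∫ ξ, ‖u ξ‖ ^ 2 ∂(cube n)) := by
  have hph : Measurable fun ξ : Fin n → ℝ => ph (t * ∑ i, ξ i ^ 2) := by
    apply continuous_ph.measurable.comp
    fun_prop
  have h := bessel n (volume_cube_lt n) (u := fun ξ => u ξ * ph (t * ∑ i, ξ i ^ 2))
    (hu.mul hph) (M := M) (fun ξ => by rw [norm_mul, norm_ph, mul_one]; exact hM ξ)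
  have h1 : ∀ x : Fin n → ℝ, E n u (x, t) =
      ∫ ξ in Icc (-1) 1, u ξ * ph (t * ∑ i, ξ i ^ 2) * ph (∑ i, x i * ξ i) := by
    intro x
    rw [E_def]
    unfold cube
    congr 1
    ext ξ
    unfold chr par
    simp only
    rw [add_comm, ph_add]
    ring
  simp_rw [h1]
  refine h.trans (le_of_eq ?_)
  congr 1
  unfold cube
  congr 1
  ext ξ
  rw [norm_mul, norm_ph, mul_one]

lemma E_meas (n : ℕ) {u : (Fin n → ℝ) → ℂ} (hu : Measurable u) : Measurable (E n u) :=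
  tr_meas measurable_par hu

lemma E_one_L2 (k : ℕ) (t : ℝ) :
    ∫⁻ x : Fin k → ℝ, ‖E k (fun _ => 1) (x, t)‖ₑ ^ 2 ≤ ENNReal.ofReal (2 ^ k) := by
  refine (E_L2 k measurable_const (M := 1) (fun _ => by simp) t).trans ?_
  apply ENNReal.ofReal_le_ofReal
  simp [cube_real_univ]

lemma lint_tail {γ : ℝ} (hγ : 1 < γ) :
    ∫⁻ t in {t : ℝ | 1 ≤ |t|}, ENNReal.ofReal (|t| ^ (-γ)) < ∞ := by
  have h1 : IntegrableOn (fun t : ℝ => t ^ (-γ)) (Ioi 1) :=
    integrableOn_Ioi_rpow_of_lt (by linarith) one_pos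
  have h1' : IntegrableOn (fun t : ℝ => t ^ (-γ)) (Ici 1) := by
    rwa [integrableOn_Ici_iff_integrableOn_Ioi]
  have e : {t : ℝ | 1 ≤ |t|} = Ici 1 ∪ Iic (-1) := by
    ext t
    rw [Set.mem_ofPred_eq]
    simp only [mem_union, mem_Ici, mem_Iic, le_abs']
    tauto
  rw [e]
  refine (lintegral_union_le _ _ _).trans_lt ?_
  have a1 : ∫⁻ t in Ici (1 : ℝ), ENNReal.ofReal (|t| ^ (-γ)) < ∞ := by
    have : ∫⁻ t in Ici (1 : ℝ), ENNReal.ofReal (|t| ^ (-γ)) =
        ∫⁻ t in Ici (1 : ℝ), ENNReal.ofReal (t ^ (-γ)) := by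
      apply setLIntegral_congr_fun measurableSet_Ici
      intro t ht
      simp only
      rw [abs_of_nonneg (le_trans zero_le_one ht)]
    rw [this]
    exact h1'.lintegral_lt_top
  have a2 : ∫⁻ t in Iic (-1 : ℝ), ENNReal.ofReal (|t| ^ (-γ)) < ∞ := by
    have h := (Measure.measurePreserving_neg (volume : Measure ℝ)).setLIntegral_comp_preimage
      (s := Ici (1 : ℝ)) measurableSet_Ici (f := fun t : ℝ => ENNReal.ofReal (|t| ^ (-γ)))
      (by fun_prop)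
    have hset : Neg.neg ⁻¹' (Ici (1 : ℝ)) = Iic (-1) := by
      ext t; simp [le_neg]
    rw [hset] at h
    simp only [abs_neg] at h
    rw [h]
    exact a1
  exact ENNReal.add_lt_top.mpr ⟨a1, a2⟩

lemma lint_near {β : ℝ} (hβ1 : β < 1) :
    ∫⁻ t in {t : ℝ | |t| < 1}, ENNReal.ofReal (|t| ^ (-β)) < ∞ := by
  have h0 : IntervalIntegrable (fun t : ℝ => t ^ (-β)) volume 0 1 :=
    intervalIntegral.intervalIntegrable_rpow' (by linarith)
  have h1 : IntegrableOn (fun t : ℝ => t ^ (-β)) (Ioo 0 1) := by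
    rw [intervalIntegrable_iff_integrableOn_Ioo_of_le zero_le_one] at h0
    exact h0
  have e : {t : ℝ | |t| < 1} ⊆ (Ioo 0 1 ∪ Ioo (-1) 0) ∪ {0} := by
    intro t ht
    have ht : |t| < 1 := ht
    rw [abs_lt] at ht
    simp only [mem_union, mem_Ioo, mem_singleton_iff]
    rcases lt_trichotomy t 0 with h | h | h
    · left; right; exact ⟨ht.1, h⟩
    · right; exact h
    · left; left; exact ⟨h, ht.2⟩
  refine (lintegral_mono_set e).trans_lt ?_
  refine (lintegral_union_le _ _ _).trans_lt ?_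
  refine ENNReal.add_lt_top.mpr ⟨?_, by simp⟩
  refine (lintegral_union_le _ _ _).trans_lt ?_
  have a1 : ∫⁻ t in Ioo (0 : ℝ) 1, ENNReal.ofReal (|t| ^ (-β)) < ∞ := by
    have : ∫⁻ t in Ioo (0 : ℝ) 1, ENNReal.ofReal (|t| ^ (-β)) =
        ∫⁻ t in Ioo (0 : ℝ) 1, ENNReal.ofReal (t ^ (-β)) := by
      apply setLIntegral_congr_fun measurableSet_Ioo
      intro t ht
      simp only
      rw [abs_of_pos ht.1]
    rw [this]
    exact h1.lintegral_lt_top
  have a2 : ∫⁻ t in Ioo (-1 : ℝ) 0, ENNReal.ofReal (|t| ^ (-β)) < ∞ := by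
    have h := (Measure.measurePreserving_neg (volume : Measure ℝ)).setLIntegral_comp_preimage
      (s := Ioo (0 : ℝ) 1) measurableSet_Ioo (f := fun t : ℝ => ENNReal.ofReal (|t| ^ (-β)))
      (by fun_prop)
    have hset : Neg.neg ⁻¹' (Ioo (0 : ℝ) 1) = Ioo (-1) 0 := by
      ext t
      simp only [mem_preimage, mem_Ioo]
      constructor
      · rintro ⟨h1, h2⟩; exact ⟨by linarith, by linarith⟩
      · rintro ⟨h1, h2⟩; exact ⟨by linarith, by linarith⟩
    rw [hset] at h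
    simp only [abs_neg] at h
    rw [h]
    exact a1
  exact ENNReal.add_lt_top.mpr ⟨a1, a2⟩

/-- weighted `L^4` bound for the extension of `1`. -/
lemma E_one_L4 (k : ℕ) (hk : 1 ≤ k) {β : ℝ} (hβ0 : 0 < β) (hβ1 : β < 1) :
    ∫⁻ p : (Fin k → ℝ) × ℝ, ENNReal.ofReal (|p.2| ^ (-β)) * ‖E k (fun _ => 1) p‖ₑ ^ 4 < ∞ := by
  have hm : Measurable fun p : (Fin k → ℝ) × ℝ =>
      ENNReal.ofReal (|p.2| ^ (-β)) * ‖E k (fun _ => 1) p‖ₑ ^ 4 := by
    have h1 : Measurable fun p : (Fin k → ℝ) × ℝ => ENNReal.ofReal (|p.2| ^ (-β)) := by fun_prop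
    exact h1.mul (((E_meas k measurable_const).enorm).pow_const 4)
  rw [Measure.volume_eq_prod, lintegral_prod_symm' _ hm]
  -- bound on each time slice
  have hslice : ∀ (t : ℝ) (B : ℝ), 0 ≤ B → (∀ y : Fin k → ℝ, ‖E k (fun _ => 1) (y, t)‖ ^ 2 ≤ B) →
      ∫⁻ y : Fin k → ℝ, ENNReal.ofReal (|t| ^ (-β)) * ‖E k (fun _ => 1) (y, t)‖ₑ ^ 4 ≤
        ENNReal.ofReal (2 ^ k * B) * ENNReal.ofReal (|t| ^ (-β)) := by
    intro t B hB hb
    rw [lintegral_const_mul' _ _ ENNReal.ofReal_ne_top, mul_comm]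
    gcongr
    calc ∫⁻ y : Fin k → ℝ, ‖E k (fun _ => 1) (y, t)‖ₑ ^ 4
        ≤ ∫⁻ y : Fin k → ℝ, ENNReal.ofReal B * ‖E k (fun _ => 1) (y, t)‖ₑ ^ 2 := by
          apply lintegral_mono
          intro y
          have : ‖E k (fun _ => 1) (y, t)‖ₑ ^ 4 =
              ‖E k (fun _ => 1) (y, t)‖ₑ ^ 2 * ‖E k (fun _ => 1) (y, t)‖ₑ ^ 2 := by
            rw [← pow_add]
          simp only
          rw [this]
          gcongr
          rw [← ofReal_norm, ← ENNReal.ofReal_pow (norm_nonneg _)]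
          exact ENNReal.ofReal_le_ofReal (hb y)
      _ ≤ ENNReal.ofReal B * ENNReal.ofReal (2 ^ k) := by
          rw [lintegral_const_mul' _ _ ENNReal.ofReal_ne_top]
          gcongr
          exact E_one_L2 k t
      _ = ENNReal.ofReal (2 ^ k * B) := by
          rw [← ENNReal.ofReal_mul hB, mul_comm]
  have hsplit : (univ : Set ℝ) = {t : ℝ | |t| < 1} ∪ {t : ℝ | 1 ≤ |t|} := by
    ext t; simp [lt_or_ge]
  rw [← setLIntegral_univ, hsplit]
  refine (lintegral_union_le _ _ _).trans_lt (ENNReal.add_lt_top.mpr ⟨?_, ?_⟩)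
  · calc ∫⁻ t in {t : ℝ | |t| < 1}, ∫⁻ y : Fin k → ℝ,
          ENNReal.ofReal (|t| ^ (-β)) * ‖E k (fun _ => 1) (y, t)‖ₑ ^ 4
        ≤ ∫⁻ t in {t : ℝ | |t| < 1}, ENNReal.ofReal (2 ^ k * 4 ^ k) * ENNReal.ofReal (|t| ^ (-β)) := by
          apply lintegral_mono
          intro t
          exact hslice t (4 ^ k) (by positivity) (fun y => box_sq' k (y, t))
      _ < ∞ := by
          rw [lintegral_const_mul' _ _ ENNReal.ofReal_ne_top]
          exact ENNReal.mul_lt_top ENNReal.ofReal_lt_top (lint_near hβ1)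
  · calc ∫⁻ t in {t : ℝ | 1 ≤ |t|}, ∫⁻ y : Fin k → ℝ,
          ENNReal.ofReal (|t| ^ (-β)) * ‖E k (fun _ => 1) (y, t)‖ₑ ^ 4
        ≤ ∫⁻ t in {t : ℝ | 1 ≤ |t|},
            ENNReal.ofReal (2 ^ k * (4 ^ k * 16)) * ENNReal.ofReal (|t| ^ (-(1 + β))) := by
          apply setLIntegral_mono' (measurableSet_le measurable_const measurable_norm)
          intro t ht
          have ht0 : t ≠ 0 := by
            rintro rfl
            have ht' : (1 : ℝ) ≤ |(0 : ℝ)| := ht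
            rw [abs_zero] at ht'
            linarith
          have htp : 0 < |t| := abs_pos.mpr ht0
          refine (hslice t (4 ^ k * 16 / |t|) (by positivity)
            (fun y => box_sq k hk (y, t) ht0)).trans (le_of_eq ?_)
          rw [← ENNReal.ofReal_mul (by positivity), ← ENNReal.ofReal_mul (by positivity)]
          congr 1
          rw [neg_add, Real.rpow_add htp, Real.rpow_neg_one]
          ring
      _ < ∞ := by
          rw [lintegral_const_mul' _ _ ENNReal.ofReal_ne_top]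
          exact ENNReal.mul_lt_top ENNReal.ofReal_lt_top (lint_tail (by linarith))

end Pool.Agent.H.MP_b7167f_an
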