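import Mathlib
import Pool.Agent.H.MP_b7167f_an.GaussI

/-!
A weak type Tomas-Stein estimate for the paraboloid and its local-in-time strong consequences.
-/

namespace Pool.Agent.H.MP_b7167f_an

open MeasureTheory Complex ComplexConjugate Real Set ENNReal

variable {ι : Type*} [Fintype ι]

/-- the character of the paraboloid -/
noncomputable def ph2 (p : (ι → ℝ) × ℝ) (ξ : ι → ℝ) : ℂ :=
  ph (∑ i, p.1 i * ξ i + p.2 * ∑ i, ξ i ^ 2)

@[simp] lemma norm_ph2 (p : (ι → ℝ) × ℝ) (ξ : ι → ℝ) : ‖ph2 p ξ‖ = 1 := norm_ph _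

lemma continuous_ph2 : Continuous fun z : ((ι → ℝ) × ℝ) × (ι → ℝ) => ph2 z.1 z.2 := by
  unfold ph2; fun_prop

lemma measurable_ph2 {α : Type*} [MeasurableSpace α] {f : α → (ι → ℝ) × ℝ} {g : α → ι → ℝ}
    (hf : Measurable f) (hg : Measurable g) : Measurable fun a => ph2 (f a) (g a) :=
  by
  unfold ph2
  apply continuous_ph.measurable.comp
  apply Measurable.add
  · apply Finset.measurable_sum
    intro i _
    exact ((measurable_pi_apply i).comp (measurable_fst.comp hf)).mul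
      ((measurable_pi_apply i).comp hg)
  · apply (measurable_snd.comp hf).mul
    apply Finset.measurable_sum
    intro i _
    exact ((measurable_pi_apply i).comp hg).pow_const 2

lemma ph2_prod (p : (ι → ℝ) × ℝ) (ξ : ι → ℝ) :
    ph2 p ξ = ∏ i, ph (p.1 i * ξ i + p.2 * ξ i ^ 2) := by
  unfold ph2
  rw [← ph_sum]
  congr 1
  rw [Finset.mul_sum, Finset.sum_add_distrib]

lemma ph2_sub (p p' : (ι → ℝ) × ℝ) (ξ : ι → ℝ) :
    ph2 p ξ * conj (ph2 p' ξ) = ph2 (p - p') ξ := by
  unfold ph2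
  rw [conj_ph, ← ph_add]
  congr 1
  simp only [Prod.fst_sub, Prod.snd_sub, Pi.sub_apply, sub_mul, Finset.sum_sub_distrib]
  ring

/-- the cube `[-K,K]^ι` -/
def SK (ι : Type*) (K : ℝ) : Set (ι → ℝ) := Icc (fun _ => -K) (fun _ => K)

lemma measurableSet_SK (K : ℝ) : MeasurableSet (SK ι K) := measurableSet_Icc

omit [Fintype ι] in
lemma SK_eq (K : ℝ) : SK ι K = Set.pi univ fun _ => Icc (-K) K := by
  unfold SK
  rw [← Set.pi_univ_Icc]

lemma volume_SK_lt (K : ℝ) : volume (SK ι K) < ∞ := by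
  unfold SK
  rw [Real.volume_Icc_pi]
  exact ENNReal.prod_lt_top fun i _ => ENNReal.ofReal_lt_top

lemma restrict_SK (K : ℝ) : (volume : Measure (ι → ℝ)).restrict (SK ι K) =
    Measure.pi fun _ => (volume : Measure ℝ).restrict (Icc (-K) K) := by
  rw [SK_eq, volume_pi, Measure.restrict_pi_pi]

/-- kernel -/
noncomputable def kern (K : ℝ) (p : (ι → ℝ) × ℝ) : ℂ := ∫ ξ in SK ι K, ph2 p ξ

lemma kern_bound {K : ℝ} (hK : 0 ≤ K) (p : (ι → ℝ) × ℝ) (ht : p.2 ≠ 0) :
    ‖kern K p‖ ≤ (4 / √|p.2|) ^ (Fintype.card ι) := by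
  unfold kern
  rw [restrict_SK]
  simp_rw [ph2_prod]
  rw [integral_fintype_prod_eq_prod (fun i (ξ : ℝ) => ph (p.1 i * ξ + p.2 * ξ ^ 2)), norm_prod]
  calc ∏ i, ‖∫ ξ in Icc (-K) K, ph (p.1 i * ξ + p.2 * ξ ^ 2)‖ ≤ ∏ _i : ι, (4 / √|p.2|) := by
        apply Finset.prod_le_prod
        · intro i _; positivity
        · intro i _
          rw [integral_Icc_eq_integral_Ioc, ← intervalIntegral.integral_of_le (by linarith)]
          exact vdc _ ht _ _
    _ = (4 / √|p.2|) ^ (Fintype.card ι) := by rw [Finset.prod_const, Finset.card_univ]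

/-- Fubini for the square of an integral -/
lemma swap2 {Z Z' S : Type*} [MeasurableSpace Z] [MeasurableSpace Z'] [MeasurableSpace S]
    {μ : Measure Z} {μ' : Measure Z'} {ν : Measure S} [SFinite μ] [SFinite μ'] [IsFiniteMeasure ν]
    {F : Z → S → ℂ} {F' : Z' → S → ℂ} (hF : Measurable (Function.uncurry F))
    (hF' : Measurable (Function.uncurry F')) {f : Z → ℝ} {f' : Z' → ℝ} (hf : Integrable f μ)
    (hf' : Integrable f' μ') (hb : ∀ z ξ, ‖F z ξ‖ ≤ f z) (hb' : ∀ z ξ, ‖F' z ξ‖ ≤ f' z) :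
    ∫ ξ, (∫ z, F z ξ ∂μ) * conj (∫ z, F' z ξ ∂μ') ∂ν =
      ∫ w : Z × Z', ∫ ξ, F w.1 ξ * conj (F' w.2 ξ) ∂ν ∂(μ.prod μ') := by
  have h1 : ∀ ξ, (∫ z, F z ξ ∂μ) * conj (∫ z, F' z ξ ∂μ') =
      ∫ w : Z × Z', F w.1 ξ * conj (F' w.2 ξ) ∂(μ.prod μ') := by
    intro ξ
    rw [← integral_conj, ← integral_prod_mul]
  simp_rw [h1]
  rw [integral_integral_swap]
  have hm : Measurable (Function.uncurry fun (ξ : S) (w : Z × Z') => F w.1 ξ * conj (F' w.2 ξ)) := by
    apply Measurable.mul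
    · exact hF.comp ((measurable_fst.comp measurable_snd).prodMk measurable_fst)
    · exact Complex.continuous_conj.measurable.comp
        (hF'.comp ((measurable_snd.comp measurable_snd).prodMk measurable_fst))
  have hint : Integrable (fun z : S × (Z × Z') => (1 : ℝ) * (f z.2.1 * f' z.2.2))
      (ν.prod (μ.prod μ')) := (integrable_const (1 : ℝ)).mul_prod (hf.mul_prod hf')
  refine hint.mono' hm.aestronglyMeasurable (Filter.Eventually.of_forall fun z => ?_)
  simp only [Function.uncurry]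
  rw [norm_mul, Complex.norm_conj, one_mul]
  have h2 : 0 ≤ f z.2.1 := (norm_nonneg _).trans (hb z.2.1 z.1)
  exact mul_le_mul (hb _ _) (hb' _ _) (norm_nonneg _) h2

/-- slice transform -/
noncomputable def Psi (h : (ι → ℝ) × ℝ → ℂ) (t : ℝ) (ξ : ι → ℝ) : ℂ :=
  ∫ x : ι → ℝ, h (x, t) * ph2 (x, t) ξ

lemma Psi_meas {h : (ι → ℝ) × ℝ → ℂ} (hm : Measurable h) :
    Measurable (Function.uncurry (Psi h)) := by
  apply StronglyMeasurable.measurable
  unfold Function.uncurry Psi
  apply StronglyMeasurable.integral_prod_right (f := fun (z : ℝ × (ι → ℝ)) (x : ι → ℝ) =>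
      h (x, z.1) * ph2 (x, z.1) z.2)
  apply Measurable.stronglyMeasurable
  apply Measurable.mul
  · exact hm.comp (measurable_snd.prodMk (measurable_fst.comp measurable_fst))
  · exact measurable_ph2 (measurable_snd.prodMk (measurable_fst.comp measurable_fst))
      (measurable_snd.comp measurable_fst)

lemma Psi_bound (h : (ι → ℝ) × ℝ → ℂ) (t : ℝ) (ξ : ι → ℝ) :
    ‖Psi h t ξ‖ ≤ ∫ x : ι → ℝ, ‖h (x, t)‖ := by
  unfold Psi
  refine (norm_integral_le_integral_norm _).trans (le_of_eq ?_)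
  congr 1
  ext x
  rw [norm_mul, norm_ph2, mul_one]

/-- Bessel inequality on a slice -/
lemma Psi_bessel {K : ℝ} {h : (ι → ℝ) × ℝ → ℂ} (hm : Measurable h) {Ω : Set ((ι → ℝ) × ℝ)}
    (hh : ∀ p, ‖h p‖ ≤ Ω.indicator (fun _ => (1 : ℝ)) p) {t : ℝ}
    (hΩm : MeasurableSet Ω) (ht : volume {x : ι → ℝ | (x, t) ∈ Ω} < ∞) :
    ∫ ξ in SK ι K, ‖Psi h t ξ‖ ^ 2 ≤ ∫ x : ι → ℝ, ‖h (x, t)‖ := by
  set St : Set (ι → ℝ) := {x | (x, t) ∈ Ω} with hSt
  have hStm : MeasurableSet St := hΩm.preimage (measurable_id.prodMk measurable_const)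
  have hm1 : Measurable fun x : ι → ℝ => h (x, t) := hm.comp (measurable_id.prodMk measurable_const)
  have h1 : ∀ p, ‖h p‖ ≤ 1 := by
    intro p
    refine (hh p).trans ?_
    by_cases hp : p ∈ Ω
    · rw [indicator_of_mem hp]
    · rw [indicator_of_notMem hp]; exact zero_le_one
  have h0 : ∀ x, x ∉ St → h (x, t) = 0 := by
    intro x hx
    have := hh (x, t)
    rw [indicator_of_notMem (show (x, t) ∉ Ω from hx)] at this
    exact norm_le_zero_iff.mp this
  have e1 : ∀ ξ : ι → ℝ, ‖Psi h t ξ‖ = ‖∫ x in St, h (x, t) * ph (∑ i, ξ i * x i)‖ := by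
    intro ξ
    unfold Psi
    have e2 : ∀ x : ι → ℝ, h (x, t) * ph2 (x, t) ξ =
        (h (x, t) * ph (∑ i, ξ i * x i)) * ph (t * ∑ i, ξ i ^ 2) := by
      intro x
      unfold ph2
      rw [ph_add, ← mul_assoc]
      simp only
      congr 3
      congr 1
      ext i
      ring
    simp_rw [e2]
    rw [integral_mul_const, norm_mul, norm_ph, mul_one]
    congr 1
    rw [setIntegral_eq_integral_of_forall_compl_eq_zero]
    intro x hx
    rw [h0 x hx, zero_mul]
  have hb := besselI ht hm1 (fun x => h1 (x, t))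
  have hfin : ∫ x in St, ‖h (x, t)‖ ^ 2 ≤ ∫ x : ι → ℝ, ‖h (x, t)‖ := by
    have hIn : IntegrableOn (fun x : ι → ℝ => ‖h (x, t)‖) St := by
      refine Integrable.mono' (g := fun _ => (1 : ℝ)) ?_ hm1.norm.aestronglyMeasurable ?_
      · exact (integrableOn_const (ne_of_lt ht))
      · exact Filter.Eventually.of_forall fun x => by rw [norm_norm]; exact h1 _
    calc ∫ x in St, ‖h (x, t)‖ ^ 2 ≤ ∫ x in St, ‖h (x, t)‖ := by
          apply integral_mono_of_nonneg
          · exact Filter.Eventually.of_forall fun x => by positivity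
          · exact hIn
          · exact Filter.Eventually.of_forall fun x => by
              have a1 := h1 (x, t)
              have a2 := norm_nonneg (h (x, t))
              simp only
              nlinarith
      _ = ∫ x : ι → ℝ, ‖h (x, t)‖ := by
          rw [setIntegral_eq_integral_of_forall_compl_eq_zero]
          intro x hx
          rw [h0 x hx, norm_zero]
  have hΨm : Measurable fun ξ => Psi h t ξ := (Psi_meas hm).comp (measurable_const.prodMk measurable_id)
  rw [integral_eq_lintegral_of_nonneg_ae (Filter.Eventually.of_forall fun ξ => by positivity)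
    (hΨm.norm.pow_const 2).aestronglyMeasurable]
  apply ENNReal.toReal_le_of_le_ofReal (integral_nonneg fun x => norm_nonneg _)
  refine le_trans ?_ (ENNReal.ofReal_le_ofReal hfin)
  refine le_trans ?_ hb
  refine le_trans (setLIntegral_le_lintegral _ _) (lintegral_mono fun ξ => ?_)
  simp only
  rw [e1, ENNReal.ofReal_pow (norm_nonneg _), ofReal_norm]

/-- interaction of two slices -/
noncomputable def JJ (K : ℝ) (h : (ι → ℝ) × ℝ → ℂ) (w : ℝ × ℝ) : ℂ :=
  ∫ ξ in SK ι K, Psi h w.1 ξ * conj (Psi h w.2 ξ)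

lemma JJ_near {K : ℝ} {h : (ι → ℝ) × ℝ → ℂ} (hm : Measurable h) {w : ℝ × ℝ} {f : ℝ → ℝ}
    (h1 : ∫ ξ in SK ι K, ‖Psi h w.1 ξ‖ ^ 2 ≤ f w.1) (h2 : ∫ ξ in SK ι K, ‖Psi h w.2 ξ‖ ^ 2 ≤ f w.2) :
    ‖JJ K h w‖ ≤ (f w.1 + f w.2) / 2 := by
  have : IsFiniteMeasure ((volume : Measure (ι → ℝ)).restrict (SK ι K)) :=
    ⟨by simpa using volume_SK_lt (ι := ι) K⟩
  have hI : ∀ t, Integrable (fun ξ => ‖Psi h t ξ‖ ^ 2) (volume.restrict (SK ι K)) := by
    intro t
    have hΨm : Measurable fun ξ => Psi h t ξ :=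
      (Psi_meas hm).comp (measurable_const.prodMk measurable_id)
    refine Integrable.of_bound (hΨm.norm.pow_const 2).aestronglyMeasurable
      ((∫ x : ι → ℝ, ‖h (x, t)‖) ^ 2) (Filter.Eventually.of_forall fun ξ => ?_)
    rw [Real.norm_of_nonneg (by positivity)]
    exact pow_le_pow_left₀ (norm_nonneg _) (Psi_bound h t ξ) 2
  unfold JJ
  refine (norm_integral_le_integral_norm _).trans ?_
  calc ∫ ξ in SK ι K, ‖Psi h w.1 ξ * conj (Psi h w.2 ξ)‖
      ≤ ∫ ξ in SK ι K, (‖Psi h w.1 ξ‖ ^ 2 + ‖Psi h w.2 ξ‖ ^ 2) / 2 := by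
        apply integral_mono_of_nonneg
        · exact Filter.Eventually.of_forall fun ξ => norm_nonneg _
        · exact ((hI w.1).add (hI w.2)).div_const 2
        · refine Filter.Eventually.of_forall fun ξ => ?_
          simp only
          rw [norm_mul, Complex.norm_conj]
          nlinarith [sq_nonneg (‖Psi h w.1 ξ‖ - ‖Psi h w.2 ξ‖)]
    _ = ((∫ ξ in SK ι K, ‖Psi h w.1 ξ‖ ^ 2) + ∫ ξ in SK ι K, ‖Psi h w.2 ξ‖ ^ 2) / 2 := by
        rw [integral_div, integral_add (hI w.1) (hI w.2)]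
    _ ≤ _ := by linarith

lemma JJ_far {K : ℝ} (hK : 0 ≤ K) {h : (ι → ℝ) × ℝ → ℂ} (hm : Measurable h) {w : ℝ × ℝ}
    (h1 : Integrable fun x : ι → ℝ => h (x, w.1)) (h2 : Integrable fun x : ι → ℝ => h (x, w.2))
    (hw : w.1 ≠ w.2) :
    ‖JJ K h w‖ ≤ (∫ x : ι → ℝ, ‖h (x, w.1)‖) * (∫ x : ι → ℝ, ‖h (x, w.2)‖) *
      (4 / √|w.1 - w.2|) ^ (Fintype.card ι) := by
  have : IsFiniteMeasure ((volume : Measure (ι → ℝ)).restrict (SK ι K)) :=
    ⟨by simpa using volume_SK_lt (ι := ι) K⟩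
  unfold JJ
  have hmF : ∀ t : ℝ, Measurable (Function.uncurry fun (x ξ : ι → ℝ) => h (x, t) * ph2 (x, t) ξ) := by
    intro t
    apply Measurable.mul
    · exact hm.comp (measurable_fst.prodMk measurable_const)
    · exact measurable_ph2 (measurable_fst.prodMk measurable_const) measurable_snd
  have hs := swap2 (μ := (volume : Measure (ι → ℝ))) (μ' := (volume : Measure (ι → ℝ)))
    (ν := volume.restrict (SK ι K))
    (F := fun x ξ => h (x, w.1) * ph2 (x, w.1) ξ) (F' := fun x ξ => h (x, w.2) * ph2 (x, w.2) ξ)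
    (hmF w.1) (hmF w.2) h1.norm h2.norm
    (fun x ξ => by rw [norm_mul, norm_ph2, mul_one]) (fun x ξ => by rw [norm_mul, norm_ph2, mul_one])
  unfold Psi
  rw [hs]
  refine (norm_integral_le_integral_norm _).trans ?_
  have hk : ∀ z : (ι → ℝ) × (ι → ℝ), ‖∫ ξ in SK ι K, h (z.1, w.1) * ph2 (z.1, w.1) ξ *
      conj (h (z.2, w.2) * ph2 (z.2, w.2) ξ)‖ ≤
      ‖h (z.1, w.1)‖ * ‖h (z.2, w.2)‖ * (4 / √|w.1 - w.2|) ^ (Fintype.card ι) := by
    intro z
    have e1 : ∀ ξ, h (z.1, w.1) * ph2 (z.1, w.1) ξ * conj (h (z.2, w.2) * ph2 (z.2, w.2) ξ) =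
        (h (z.1, w.1) * conj (h (z.2, w.2))) * ph2 ((z.1, w.1) - (z.2, w.2)) ξ := by
      intro ξ
      rw [← ph2_sub, map_mul]
      ring
    simp_rw [e1]
    rw [integral_const_mul, norm_mul, norm_mul, Complex.norm_conj]
    apply mul_le_mul_of_nonneg_left _ (by positivity)
    have := kern_bound hK ((z.1, w.1) - (z.2, w.2)) (by
      simp only [Prod.snd_sub]; exact sub_ne_zero.mpr hw)
    simpa [kern] using this
  calc _ ≤ ∫ z : (ι → ℝ) × (ι → ℝ), ‖h (z.1, w.1)‖ * ‖h (z.2, w.2)‖ *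
        (4 / √|w.1 - w.2|) ^ (Fintype.card ι) ∂(volume.prod volume) := by
        apply integral_mono_of_nonneg
        · exact Filter.Eventually.of_forall fun z => norm_nonneg _
        · exact (h1.norm.mul_prod h2.norm).mul_const _
        · exact Filter.Eventually.of_forall hk
    _ = _ := by
        rw [integral_mul_const, integral_prod_mul (fun x => ‖h (x, w.1)‖) (fun x => ‖h (x, w.2)‖)]

/-- `T T^*` bound -/
lemma TTstar {K : ℝ} (hK : 0 ≤ K) {h : (ι → ℝ) × ℝ → ℂ} (hm : Measurable h)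
    {Ω : Set ((ι → ℝ) × ℝ)} (hΩm : MeasurableSet Ω) (hΩ : volume Ω < ∞)
    (hh : ∀ p, ‖h p‖ ≤ Ω.indicator (fun _ => (1 : ℝ)) p) {a : ℝ} (ha : 0 < a) :
    ∫ ξ in SK ι K, ‖∫ p, h p * ph2 p ξ‖ ^ 2 ≤ 2 * a * (volume Ω).toReal +
      (4 / √a) ^ (Fintype.card ι) * (volume Ω).toReal ^ 2 := by
  have : IsFiniteMeasure ((volume : Measure (ι → ℝ)).restrict (SK ι K)) :=
    ⟨by simpa using volume_SK_lt (ι := ι) K⟩
  set V := (volume Ω).toReal with hV
  have hV0 : 0 ≤ V := ENNReal.toReal_nonneg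
  have hindI : Integrable (Ω.indicator (fun _ => (1 : ℝ))) (volume : Measure ((ι → ℝ) × ℝ)) := by
    rw [integrable_indicator_iff hΩm]
    exact integrableOn_const (ne_of_lt hΩ)
  have hI : Integrable h (volume : Measure ((ι → ℝ) × ℝ)) :=
    hindI.mono' hm.aestronglyMeasurable (Filter.Eventually.of_forall hh)
  have hIL1 : ∫ p, ‖h p‖ ≤ V := by
    calc ∫ p, ‖h p‖ ≤ ∫ p, Ω.indicator (fun _ => (1 : ℝ)) p :=
          integral_mono_of_nonneg (Filter.Eventually.of_forall fun p => norm_nonneg _) hindI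
            (Filter.Eventually.of_forall hh)
      _ = V := by
          rw [integral_indicator hΩm, setIntegral_const, smul_eq_mul, mul_one, hV]
          rfl
  set f : ℝ → ℝ := fun t => ∫ x : ι → ℝ, ‖h (x, t)‖ with hf
  have hf0 : ∀ t, 0 ≤ f t := fun t => integral_nonneg fun x => norm_nonneg _
  have hIp : Integrable h ((volume : Measure (ι → ℝ)).prod (volume : Measure ℝ)) := hI
  have hfI : Integrable f := hIp.integral_norm_prod_right
  have hfV : ∫ t, f t ≤ V := by
    refine le_trans (le_of_eq ?_) hIL1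
    have := integral_prod_symm (μ := (volume : Measure (ι → ℝ))) (ν := (volume : Measure ℝ))
      (fun p => ‖h p‖) hIp.norm
    rw [Measure.volume_eq_prod]
    exact this.symm
  -- Φ as an integral of slices
  have hΦ : ∀ ξ, ∫ p, h p * ph2 p ξ = ∫ t, Psi h t ξ := by
    intro ξ
    rw [Measure.volume_eq_prod, integral_prod_symm]
    · rfl
    · refine hIp.norm.mono' ?_ (Filter.Eventually.of_forall fun p => ?_)
      · exact (hm.mul (measurable_ph2 measurable_id measurable_const)).aestronglyMeasurable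
      · rw [norm_mul, norm_ph2, mul_one]
  -- the square as a double integral
  have hs := swap2 (μ := (volume : Measure ℝ)) (μ' := (volume : Measure ℝ))
    (ν := volume.restrict (SK ι K)) (F := Psi h) (F' := Psi h) (Psi_meas hm) (Psi_meas hm)
    hfI hfI (Psi_bound h) (Psi_bound h)
  have hsq : ((∫ ξ in SK ι K, ‖∫ p, h p * ph2 p ξ‖ ^ 2 : ℝ) : ℂ) = ∫ w : ℝ × ℝ, JJ K h w := by
    have hs' : ∫ ξ in SK ι K, (∫ z, Psi h z ξ) * conj (∫ z, Psi h z ξ) =
        ∫ w : ℝ × ℝ, JJ K h w := hs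
    rw [← hs', ← integral_complex_ofReal]
    congr 1
    ext ξ
    rw [hΦ, Complex.mul_conj']
    push_cast
    rfl
  -- good times
  have hgoodfin : ∀ᵐ t : ℝ, volume {x : ι → ℝ | (x, t) ∈ Ω} < ∞ := by
    have h1 : ∫⁻ t : ℝ, volume {x : ι → ℝ | (x, t) ∈ Ω} ≠ ∞ := by
      have h2 : (volume : Measure ((ι → ℝ) × ℝ)) Ω = ∫⁻ t : ℝ, volume {x : ι → ℝ | (x, t) ∈ Ω} := by
        rw [Measure.volume_eq_prod, Measure.prod_apply_symm hΩm]
        rfl
      rw [← h2]; exact hΩ.ne
    exact ae_lt_top (measurable_measure_prodMk_right hΩm) h1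
  have hgoodint : ∀ᵐ t : ℝ, Integrable fun x : ι → ℝ => h (x, t) := hIp.prod_left_ae
  have hgood : ∀ᵐ t : ℝ, (∫ ξ in SK ι K, ‖Psi h t ξ‖ ^ 2 ≤ f t) ∧
      Integrable fun x : ι → ℝ => h (x, t) := by
    filter_upwards [hgoodfin, hgoodint] with t h1 h2
    exact ⟨Psi_bessel hm hh hΩm h1, h2⟩
  have hgood2 : ∀ᵐ w : ℝ × ℝ, ((∫ ξ in SK ι K, ‖Psi h w.1 ξ‖ ^ 2 ≤ f w.1) ∧
      Integrable fun x : ι → ℝ => h (x, w.1)) ∧ ((∫ ξ in SK ι K, ‖Psi h w.2 ξ‖ ^ 2 ≤ f w.2) ∧
      Integrable fun x : ι → ℝ => h (x, w.2)) := by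
    rw [Measure.volume_eq_prod]
    filter_upwards [Measure.quasiMeasurePreserving_fst.ae hgood,
      Measure.quasiMeasurePreserving_snd.ae hgood] with w h1 h2
    exact ⟨h1, h2⟩
  -- pointwise bound for J
  set c : ℝ := (4 / √a) ^ (Fintype.card ι) with hc
  have hc0 : 0 ≤ c := by positivity
  set N : Set (ℝ × ℝ) := {w | |w.1 - w.2| ≤ a} with hN
  have hNm : MeasurableSet N := measurableSet_le (by fun_prop) measurable_const
  have hJ : ∀ᵐ w : ℝ × ℝ, ‖JJ K h w‖ ≤ N.indicator (fun w => (f w.1 + f w.2) / 2) w +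
      c * (f w.1 * f w.2) := by
    filter_upwards [hgood2] with w hw
    by_cases hwN : w ∈ N
    · rw [indicator_of_mem hwN]
      have := JJ_near hm hw.1.1 hw.2.1
      have : 0 ≤ c * (f w.1 * f w.2) := mul_nonneg hc0 (mul_nonneg (hf0 _) (hf0 _))
      linarith
    · rw [indicator_of_notMem hwN, zero_add]
      have hw3 : a < |w.1 - w.2| := not_le.mp hwN
      have hne : w.1 ≠ w.2 := by
        intro h0
        rw [h0, sub_self, abs_zero] at hw3
        linarith
      refine (JJ_far hK hm hw.1.2 hw.2.2 hne).trans ?_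
      rw [mul_comm]
      apply mul_le_mul_of_nonneg_right _ (mul_nonneg (hf0 _) (hf0 _))
      rw [hc]
      apply pow_le_pow_left₀ (by positivity)
      apply div_le_div_of_nonneg_left (by norm_num) (Real.sqrt_pos.mpr ha)
      exact Real.sqrt_le_sqrt hw3.le
  -- integrate
  have hprodI : Integrable (fun w : ℝ × ℝ => f w.1 * f w.2) := hfI.mul_prod hfI
  have hNint : ∀ g : ℝ → ℝ, (∀ t, 0 ≤ g t) → Integrable g →
      Integrable (N.indicator fun w : ℝ × ℝ => g w.1) ∧
      ∫ w : ℝ × ℝ, N.indicator (fun w : ℝ × ℝ => g w.1) w = 2 * a * ∫ t, g t := by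
    intro g hg0 hg
    have hslice : ∀ t : ℝ, ∫⁻ s : ℝ, ENNReal.ofReal (N.indicator (fun w : ℝ × ℝ => g w.1) (t, s)) =
        ENNReal.ofReal (2 * a * g t) := by
      intro t
      have e1 : ∀ s : ℝ, ENNReal.ofReal (N.indicator (fun w : ℝ × ℝ => g w.1) (t, s)) =
          (Icc (t - a) (t + a)).indicator (fun _ => ENNReal.ofReal (g t)) s := by
        intro s
        by_cases hs : (t, s) ∈ N
        · rw [indicator_of_mem hs, indicator_of_mem]
          have : |t - s| ≤ a := hs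
          rw [abs_le] at this
          constructor <;> linarith
        · rw [indicator_of_notMem hs, ENNReal.ofReal_zero, indicator_of_notMem]
          intro h1
          apply hs
          change |t - s| ≤ a
          rw [abs_le]
          constructor <;> linarith [h1.1, h1.2]
      simp_rw [e1]
      rw [lintegral_indicator measurableSet_Icc, setLIntegral_const, Real.volume_Icc,
        ← ENNReal.ofReal_mul (hg0 t)]
      congr 1
      ring
    have hmeas : AEStronglyMeasurable (N.indicator fun w : ℝ × ℝ => g w.1) volume := by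
      apply AEStronglyMeasurable.indicator _ hNm
      rw [Measure.volume_eq_prod]
      exact hg.aestronglyMeasurable.comp_quasiMeasurePreserving Measure.quasiMeasurePreserving_fst
    have hnn : 0 ≤ᵐ[volume] (N.indicator fun w : ℝ × ℝ => g w.1) :=
      Filter.Eventually.of_forall fun w => indicator_nonneg (fun w _ => hg0 w.1) w
    have hl : ∫⁻ w : ℝ × ℝ, ENNReal.ofReal (N.indicator (fun w : ℝ × ℝ => g w.1) w) =
        ENNReal.ofReal (2 * a * ∫ t, g t) := by
      rw [Measure.volume_eq_prod, lintegral_prod _ (by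
        rw [← Measure.volume_eq_prod]; exact hmeas.aemeasurable.ennreal_ofReal)]
      simp_rw [hslice]
      rw [← ofReal_integral_eq_lintegral_ofReal (hg.const_mul _)
        (Filter.Eventually.of_forall fun t => mul_nonneg (by positivity) (hg0 t)),
        integral_const_mul]
    refine ⟨⟨hmeas, ?_⟩, ?_⟩
    · rw [hasFiniteIntegral_iff_ofReal hnn, hl]
      exact ENNReal.ofReal_lt_top
    · rw [integral_eq_lintegral_of_nonneg_ae hnn hmeas, hl, ENNReal.toReal_ofReal]
      exact mul_nonneg (by positivity) (integral_nonneg hg0)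
  obtain ⟨hNI1, hNe1⟩ := hNint f hf0 hfI
  -- symmetric part
  have hswap : (N.indicator fun w : ℝ × ℝ => f w.2) =
      (N.indicator fun w : ℝ × ℝ => f w.1) ∘ Prod.swap := by
    ext w
    have hiff : w ∈ N ↔ Prod.swap w ∈ N := by
      change |w.1 - w.2| ≤ a ↔ |w.2 - w.1| ≤ a
      rw [abs_sub_comm]
    simp only [Function.comp, indicator]
    by_cases hw : w ∈ N
    · rw [if_pos hw, if_pos (hiff.mp hw)]; rfl
    · rw [if_neg hw, if_neg (fun h => hw (hiff.mpr h))]
  have hmp : MeasurePreserving (Prod.swap : ℝ × ℝ → ℝ × ℝ) volume volume :=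
    Measure.measurePreserving_swap
  have hNI2 : Integrable (N.indicator fun w : ℝ × ℝ => f w.2) := by
    rw [hswap]
    exact hmp.integrable_comp_of_integrable hNI1
  have hNe2 : ∫ w : ℝ × ℝ, N.indicator (fun w : ℝ × ℝ => f w.2) w = 2 * a * ∫ t, f t := by
    rw [← hNe1, hswap]
    exact hmp.integral_comp MeasurableEquiv.prodComm.measurableEmbedding _
  have hsplit : ∀ w : ℝ × ℝ, N.indicator (fun w => (f w.1 + f w.2) / 2) w =
      (N.indicator (fun w : ℝ × ℝ => f w.1) w + N.indicator (fun w : ℝ × ℝ => f w.2) w) / 2 := by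
    intro w
    by_cases hw : w ∈ N
    · rw [indicator_of_mem hw, indicator_of_mem hw, indicator_of_mem hw]
    · rw [indicator_of_notMem hw, indicator_of_notMem hw, indicator_of_notMem hw]; simp
  have hA : Integrable (fun w : ℝ × ℝ => N.indicator (fun w => (f w.1 + f w.2) / 2) w) := by
    simp_rw [hsplit]
    exact (hNI1.add hNI2).div_const 2
  have hGI : Integrable (fun w : ℝ × ℝ => N.indicator (fun w => (f w.1 + f w.2) / 2) w +
      c * (f w.1 * f w.2)) := hA.add (hprodI.const_mul c)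
  have hGe : ∫ w : ℝ × ℝ, (N.indicator (fun w => (f w.1 + f w.2) / 2) w + c * (f w.1 * f w.2)) =
      2 * a * (∫ t, f t) + c * (∫ t, f t) ^ 2 := by
    rw [integral_add hA (hprodI.const_mul c)]
    simp_rw [hsplit]
    rw [integral_div, integral_add hNI1 hNI2, hNe1, hNe2, integral_const_mul,
      Measure.volume_eq_prod, integral_prod_mul]
    ring
  have hfin : ∫ ξ in SK ι K, ‖∫ p, h p * ph2 p ξ‖ ^ 2 ≤ 2 * a * (∫ t, f t) + c * (∫ t, f t) ^ 2 := by
    rw [← hGe]
    have h1 : ∫ ξ in SK ι K, ‖∫ p, h p * ph2 p ξ‖ ^ 2 ≤ ‖∫ w : ℝ × ℝ, JJ K h w‖ := by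
      rw [← hsq, Complex.norm_real]
      exact le_abs_self _
    refine h1.trans ((norm_integral_le_integral_norm _).trans ?_)
    exact integral_mono_of_nonneg (Filter.Eventually.of_forall fun w => norm_nonneg _) hGI hJ
  have hf1 : 0 ≤ ∫ t, f t := integral_nonneg hf0
  refine hfin.trans (add_le_add ?_ ?_)
  · exact mul_le_mul_of_nonneg_left hfV (by positivity)
  · exact mul_le_mul_of_nonneg_left (pow_le_pow_left₀ hf1 hfV 2) hc0

end Pool.Agent.H.MP_b7167f_an
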