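import Mathlib
import Pool.Agent.H.MP_b7167f_an.TS

/-!
Weak type Tomas-Stein estimate and local-in-time strong type consequences.
-/

namespace Pool.Agent.H.MP_b7167f_an

open MeasureTheory Complex ComplexConjugate Real Set ENNReal

variable {ι : Type*} [Fintype ι]

/-- extension operator on `ι → ℝ` -/
noncomputable def EI (g : (ι → ℝ) → ℂ) (p : (ι → ℝ) × ℝ) : ℂ := ∫ ξ, g ξ * ph2 p ξ

lemma EI_meas {g : (ι → ℝ) → ℂ} (hg : Measurable g) : Measurable (EI g) := by
  apply StronglyMeasurable.measurable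
  apply StronglyMeasurable.integral_prod_right (f := fun (p : (ι → ℝ) × ℝ) (ξ : ι → ℝ) =>
      g ξ * ph2 p ξ)
  apply Measurable.stronglyMeasurable
  exact (hg.comp measurable_snd).mul (measurable_ph2 measurable_fst measurable_snd)

lemma EI_eq_set {K : ℝ} {g : (ι → ℝ) → ℂ} (hs : ∀ ξ, ξ ∉ SK ι K → g ξ = 0) (p : (ι → ℝ) × ℝ) :
    EI g p = ∫ ξ in SK ι K, g ξ * ph2 p ξ := by
  unfold EI
  rw [setIntegral_eq_integral_of_forall_compl_eq_zero]
  intro ξ hξ
  rw [hs ξ hξ, zero_mul]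

lemma g_integrable {K : ℝ} {g : (ι → ℝ) → ℂ} (hg : Measurable g)
    (hs : ∀ ξ, ξ ∉ SK ι K → g ξ = 0) {M : ℝ} (hM : ∀ ξ, ‖g ξ‖ ≤ M) : Integrable g := by
  have h1 : IntegrableOn g (SK ι K) := by
    refine Integrable.mono' (g := fun _ => M) (integrableOn_const (ne_of_lt (volume_SK_lt K)))
      hg.aestronglyMeasurable (Filter.Eventually.of_forall hM)
  rwa [integrableOn_iff_integrable_of_support_subset] at h1
  intro ξ hξ
  by_contra h
  exact hξ (hs ξ h)

lemma g_sq_integrable {K : ℝ} {g : (ι → ℝ) → ℂ} (hg : Measurable g)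
    (hs : ∀ ξ, ξ ∉ SK ι K → g ξ = 0) {M : ℝ} (hM : ∀ ξ, ‖g ξ‖ ≤ M) :
    Integrable (fun ξ => ‖g ξ‖ ^ 2) := by
  have hI := (g_integrable hg hs hM).norm
  refine (hI.const_mul M).mono' (hg.norm.pow_const 2).aestronglyMeasurable
    (Filter.Eventually.of_forall fun ξ => ?_)
  rw [Real.norm_of_nonneg (by positivity)]
  nlinarith [norm_nonneg (g ξ), hM ξ]

lemma EI_energy {K : ℝ} {g : (ι → ℝ) → ℂ} (hg : Measurable g)
    (hs : ∀ ξ, ξ ∉ SK ι K → g ξ = 0) {M : ℝ} (hM : ∀ ξ, ‖g ξ‖ ≤ M) (t : ℝ) :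
    ∫⁻ x : ι → ℝ, ‖EI g (x, t)‖ₑ ^ 2 ≤ ENNReal.ofReal (∫ ξ, ‖g ξ‖ ^ 2) := by
  have hph : Measurable fun ξ : ι → ℝ => ph (t * ∑ i, ξ i ^ 2) := by
    apply continuous_ph.measurable.comp
    fun_prop
  have h := besselI (volume_SK_lt (ι := ι) K) (u := fun ξ => g ξ * ph (t * ∑ i, ξ i ^ 2))
    (hg.mul hph) (M := M) (fun ξ => by rw [norm_mul, norm_ph, mul_one]; exact hM ξ)
  have h1 : ∀ x : ι → ℝ, EI g (x, t) =
      ∫ ξ in SK ι K, g ξ * ph (t * ∑ i, ξ i ^ 2) * ph (∑ i, x i * ξ i) := by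
    intro x
    rw [EI_eq_set hs]
    congr 1
    ext ξ
    unfold ph2
    simp only
    rw [add_comm, ph_add]
    ring
  simp_rw [h1]
  refine h.trans (le_of_eq ?_)
  congr 1
  rw [setIntegral_eq_integral_of_forall_compl_eq_zero]
  · congr 1
    ext ξ
    rw [norm_mul, norm_ph, mul_one]
  · intro ξ hξ
    rw [hs ξ hξ]; simp

lemma EI_sup {g : (ι → ℝ) → ℂ} (p : (ι → ℝ) × ℝ) : ‖EI g p‖ ≤ ∫ ξ, ‖g ξ‖ := by
  unfold EI
  refine (norm_integral_le_integral_norm _).trans (le_of_eq ?_)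
  congr 1
  ext ξ
  rw [norm_mul, norm_ph2, mul_one]

/-- Cauchy-Schwarz for real integrals -/
lemma cs_int {α : Type*} [MeasurableSpace α] {μ : Measure α} {f g : α → ℝ}
    (hf : Integrable (fun x => f x ^ 2) μ) (hg : Integrable (fun x => g x ^ 2) μ)
    (hfg : Integrable (fun x => f x * g x) μ) :
    (∫ x, f x * g x ∂μ) ^ 2 ≤ (∫ x, f x ^ 2 ∂μ) * ∫ x, g x ^ 2 ∂μ := by
  have h : ∀ b : ℝ, 0 ≤ (∫ x, f x ^ 2 ∂μ) * (b * b) + (-2 * ∫ x, f x * g x ∂μ) * b +
      ∫ x, g x ^ 2 ∂μ := by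
    intro b
    have h1 : 0 ≤ ∫ x, (b * f x - g x) ^ 2 ∂μ := integral_nonneg fun x => sq_nonneg _
    have e : ∀ x, (b * f x - g x) ^ 2 = (b * b) * f x ^ 2 - (2 * b) * (f x * g x) + g x ^ 2 := by
      intro x; ring
    simp_rw [e] at h1
    have hA : Integrable (fun x => (b * b) * f x ^ 2 - (2 * b) * (f x * g x)) μ :=
      (hf.const_mul _).sub (hfg.const_mul _)
    rw [integral_add hA hg, integral_sub (hf.const_mul _) (hfg.const_mul _), integral_const_mul,
      integral_const_mul] at h1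
    linarith
  have := discrim_le_zero h
  unfold discrim at this
  nlinarith

/-- the level sets of the extension operator -/
def lev (g : (ι → ℝ) → ℂ) (T l : ℝ) : Set ((ι → ℝ) × ℝ) := {p | |p.2| ≤ T ∧ l < ‖EI g p‖}

lemma lev_meas {g : (ι → ℝ) → ℂ} (hg : Measurable g) (T l : ℝ) : MeasurableSet (lev g T l) := by
  have h1 : Measurable fun p : (ι → ℝ) × ℝ => |p.2| := by fun_prop
  exact (measurableSet_le h1 measurable_const).inter
    (measurableSet_lt measurable_const (EI_meas hg).norm)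

lemma strip_energy {K : ℝ} {g : (ι → ℝ) → ℂ} (hg : Measurable g)
    (hs : ∀ ξ, ξ ∉ SK ι K → g ξ = 0) {M : ℝ} (hM : ∀ ξ, ‖g ξ‖ ≤ M) {T : ℝ} (hT : 0 ≤ T) :
    ∫⁻ p in {p : (ι → ℝ) × ℝ | |p.2| ≤ T}, ‖EI g p‖ₑ ^ 2 ≤
      ENNReal.ofReal (2 * T * ∫ ξ, ‖g ξ‖ ^ 2) := by
  have hset : {p : (ι → ℝ) × ℝ | |p.2| ≤ T} = univ ×ˢ Icc (-T) T := by
    ext p
    simp only [mem_prod, mem_univ, true_and, mem_Icc]
    exact abs_le (a := p.2) (b := T)
  rw [hset, Measure.volume_eq_prod, ← Measure.prod_restrict, Measure.restrict_univ,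
    lintegral_prod_symm' _ ((EI_meas hg).enorm.pow_const 2)]
  calc ∫⁻ t in Icc (-T) T, ∫⁻ x : ι → ℝ, ‖EI g (x, t)‖ₑ ^ 2
      ≤ ∫⁻ _t in Icc (-T) T, ENNReal.ofReal (∫ ξ, ‖g ξ‖ ^ 2) :=
        lintegral_mono fun t => EI_energy hg hs hM t
    _ = ENNReal.ofReal (2 * T * ∫ ξ, ‖g ξ‖ ^ 2) := by
        rw [setLIntegral_const, Real.volume_Icc, mul_comm, ← ENNReal.ofReal_mul (by linarith)]
        congr 1
        ring

lemma lev_energy {K : ℝ} {g : (ι → ℝ) → ℂ} (hg : Measurable g)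
    (hs : ∀ ξ, ξ ∉ SK ι K → g ξ = 0) {M : ℝ} (hM : ∀ ξ, ‖g ξ‖ ≤ M) {T : ℝ} (hT : 0 ≤ T)
    {l : ℝ} (hl : 0 < l) :
    volume (lev g T l) ≤ ENNReal.ofReal (2 * T * (∫ ξ, ‖g ξ‖ ^ 2) / l ^ 2) := by
  have h1 : ENNReal.ofReal (l ^ 2) * volume (lev g T l) ≤
      ENNReal.ofReal (2 * T * ∫ ξ, ‖g ξ‖ ^ 2) := by
    calc ENNReal.ofReal (l ^ 2) * volume (lev g T l) = ∫⁻ _p in lev g T l, ENNReal.ofReal (l ^ 2) := by
          rw [setLIntegral_const]
      _ ≤ ∫⁻ p in lev g T l, ‖EI g p‖ₑ ^ 2 := by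
          apply setLIntegral_mono' (lev_meas hg T l)
          intro p hp
          rw [← ofReal_norm, ← ENNReal.ofReal_pow (norm_nonneg _)]
          apply ENNReal.ofReal_le_ofReal
          exact pow_le_pow_left₀ hl.le hp.2.le 2
      _ ≤ ∫⁻ p in {p : (ι → ℝ) × ℝ | |p.2| ≤ T}, ‖EI g p‖ₑ ^ 2 := by
          apply lintegral_mono_set
          intro p hp
          exact hp.1
      _ ≤ _ := strip_energy hg hs hM hT
  have hl2 : (0 : ℝ) < l ^ 2 := by positivity
  rw [ENNReal.ofReal_div_of_pos hl2]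
  rw [ENNReal.le_div_iff_mul_le (Or.inl (ENNReal.ofReal_pos.mpr hl2).ne') (Or.inl ENNReal.ofReal_ne_top)]
  rwa [mul_comm]

/-- basic inequality for level sets -/
lemma lev_ineq {K : ℝ} (hK : 0 ≤ K) {g : (ι → ℝ) → ℂ} (hg : Measurable g)
    (hs : ∀ ξ, ξ ∉ SK ι K → g ξ = 0) {M : ℝ} (hM : ∀ ξ, ‖g ξ‖ ≤ M) {T : ℝ} (hT : 0 ≤ T)
    {l : ℝ} (hl : 0 < l) {a : ℝ} (ha : 0 < a) :
    l ^ 2 * (volume (lev g T l)).toReal ^ 2 ≤ (∫ ξ, ‖g ξ‖ ^ 2) *
      (2 * a * (volume (lev g T l)).toReal +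
        (4 / √a) ^ (Fintype.card ι) * (volume (lev g T l)).toReal ^ 2) := by
  set Ω := lev g T l with hΩdef
  have hΩm : MeasurableSet Ω := lev_meas hg T l
  have hΩ : volume Ω < ∞ := (lev_energy hg hs hM hT hl).trans_lt ENNReal.ofReal_lt_top
  set V := (volume Ω).toReal with hV
  set h : (ι → ℝ) × ℝ → ℂ := Ω.indicator (fun p => conj (EI g p) / ‖EI g p‖) with hh
  have hum := EI_meas hg
  have hm : Measurable h := by
    apply Measurable.indicator _ hΩm
    apply Measurable.div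
    · exact Complex.continuous_conj.measurable.comp hum
    · exact Complex.measurable_ofReal.comp hum.norm
  have hhb : ∀ p, ‖h p‖ ≤ Ω.indicator (fun _ => (1 : ℝ)) p := by
    intro p
    rw [hh]
    by_cases hp : p ∈ Ω
    · rw [indicator_of_mem hp, indicator_of_mem hp, norm_div, Complex.norm_conj, Complex.norm_real,
        norm_norm]
      exact div_self_le_one _
    · rw [indicator_of_notMem hp, indicator_of_notMem hp, norm_zero]
  have hTT := TTstar hK hm hΩm hΩ hhb ha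
  rw [← hV] at hTT
  set Φ : (ι → ℝ) → ℂ := fun ξ => ∫ p, h p * ph2 p ξ with hΦ
  -- integrability
  have hindI : Integrable (Ω.indicator (fun _ => (1 : ℝ))) (volume : Measure ((ι → ℝ) × ℝ)) := by
    rw [integrable_indicator_iff hΩm]
    exact integrableOn_const (ne_of_lt hΩ)
  have hI : Integrable h (volume : Measure ((ι → ℝ) × ℝ)) :=
    hindI.mono' hm.aestronglyMeasurable (Filter.Eventually.of_forall hhb)
  have hgI := g_integrable hg hs hM
  have hΦm : Measurable Φ := by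
    apply StronglyMeasurable.measurable
    apply StronglyMeasurable.integral_prod_right (f := fun (ξ : ι → ℝ) (p : (ι → ℝ) × ℝ) =>
      h p * ph2 p ξ)
    apply Measurable.stronglyMeasurable
    exact (hm.comp measurable_snd).mul (measurable_ph2 measurable_snd measurable_fst)
  have hΦb : ∀ ξ, ‖Φ ξ‖ ≤ ∫ p, ‖h p‖ := by
    intro ξ
    refine (norm_integral_le_integral_norm _).trans (le_of_eq ?_)
    congr 1
    ext p
    rw [norm_mul, norm_ph2, mul_one]
  -- duality
  have hdual : ((∫ p in Ω, ‖EI g p‖ : ℝ) : ℂ) = ∫ ξ, g ξ * Φ ξ := by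
    have e1 : ((∫ p in Ω, ‖EI g p‖ : ℝ) : ℂ) = ∫ p, h p * EI g p := by
      rw [← integral_indicator hΩm, ← integral_complex_ofReal]
      congr 1
      ext p
      rw [hh]
      by_cases hp : p ∈ Ω
      · rw [indicator_of_mem hp, indicator_of_mem hp]
        have hne : (‖EI g p‖ : ℂ) ≠ 0 := by
          have : 0 < ‖EI g p‖ := lt_trans hl hp.2
          exact_mod_cast this.ne'
        rw [div_mul_eq_mul_div, mul_comm, Complex.mul_conj', eq_div_iff hne]
        ring
      · rw [indicator_of_notMem hp, indicator_of_notMem hp]; simp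
    rw [e1]
    have e2 : ∀ p, h p * EI g p = ∫ ξ, h p * (g ξ * ph2 p ξ) := by
      intro p
      unfold EI
      rw [integral_const_mul]
    simp_rw [e2]
    rw [integral_integral_swap]
    · congr 1
      ext ξ
      rw [hΦ]
      simp only
      rw [← integral_const_mul]
      congr 1
      ext p
      ring
    · have : Integrable (fun z : ((ι → ℝ) × ℝ) × (ι → ℝ) => ‖h z.1‖ * ‖g z.2‖)
          ((volume : Measure ((ι → ℝ) × ℝ)).prod (volume : Measure (ι → ℝ))) :=
        hI.norm.mul_prod hgI.norm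
      refine this.mono' ?_ (Filter.Eventually.of_forall fun z => ?_)
      · apply Measurable.aestronglyMeasurable
        exact (hm.comp measurable_fst).mul ((hg.comp measurable_snd).mul
          (measurable_ph2 measurable_fst measurable_snd))
      · simp only [Function.uncurry]
        rw [norm_mul, norm_mul, norm_ph2, mul_one]
  -- lower bound
  have hEIb : ∀ p, ‖EI g p‖ ≤ ∫ ξ, ‖g ξ‖ := fun p => EI_sup p
  have hEII : IntegrableOn (fun p => ‖EI g p‖) Ω := by
    refine Integrable.mono' (g := fun _ => ∫ ξ, ‖g ξ‖) (integrableOn_const (ne_of_lt hΩ))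
      hum.norm.aestronglyMeasurable (Filter.Eventually.of_forall fun p => ?_)
    rw [norm_norm]; exact hEIb p
  have hlow : l * V ≤ ∫ p in Ω, ‖EI g p‖ := by
    calc l * V = ∫ _p in Ω, l := by
          rw [setIntegral_const, smul_eq_mul, mul_comm, hV]; rfl
      _ ≤ ∫ p in Ω, ‖EI g p‖ := by
          apply setIntegral_mono_on (integrableOn_const (ne_of_lt hΩ)) hEII hΩm
          intro p hp
          exact hp.2.le
  -- upper bound
  have hup : ∫ p in Ω, ‖EI g p‖ ≤ ∫ ξ in SK ι K, ‖g ξ‖ * ‖Φ ξ‖ := by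
    have h1 : ∫ p in Ω, ‖EI g p‖ = ‖∫ ξ, g ξ * Φ ξ‖ := by
      rw [← hdual, Complex.norm_real, Real.norm_of_nonneg (integral_nonneg fun p => norm_nonneg _)]
    rw [h1]
    have h2 : ∫ ξ, g ξ * Φ ξ = ∫ ξ in SK ι K, g ξ * Φ ξ := by
      rw [setIntegral_eq_integral_of_forall_compl_eq_zero]
      intro ξ hξ
      rw [hs ξ hξ, zero_mul]
    rw [h2]
    refine (norm_integral_le_integral_norm _).trans (le_of_eq ?_)
    congr 1
    ext ξ
    rw [norm_mul]
  have hfm : IsFiniteMeasure ((volume : Measure (ι → ℝ)).restrict (SK ι K)) :=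
    ⟨by simpa using volume_SK_lt (ι := ι) K⟩
  have hcs := cs_int (μ := (volume : Measure (ι → ℝ)).restrict (SK ι K)) (f := fun ξ => ‖g ξ‖)
    (g := fun ξ => ‖Φ ξ‖) ((g_sq_integrable hg hs hM).integrableOn)
    (Integrable.of_bound (hΦm.norm.pow_const 2).aestronglyMeasurable ((∫ p, ‖h p‖) ^ 2)
      (Filter.Eventually.of_forall fun ξ => by
        rw [Real.norm_of_nonneg (by positivity)]
        exact pow_le_pow_left₀ (norm_nonneg _) (hΦb ξ) 2))
    (Integrable.of_bound (hg.norm.mul hΦm.norm).aestronglyMeasurable (M * ∫ p, ‖h p‖)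
      (Filter.Eventually.of_forall fun ξ => by
        rw [Real.norm_of_nonneg (by positivity)]
        exact mul_le_mul (hM ξ) (hΦb ξ) (norm_nonneg _) ((norm_nonneg _).trans (hM ξ))))
  have hA : ∫ ξ in SK ι K, ‖g ξ‖ ^ 2 = ∫ ξ, ‖g ξ‖ ^ 2 := by
    rw [setIntegral_eq_integral_of_forall_compl_eq_zero]
    intro ξ hξ
    rw [hs ξ hξ]; simp
  rw [hA] at hcs
  have hV0 : 0 ≤ V := ENNReal.toReal_nonneg
  calc l ^ 2 * V ^ 2 = (l * V) ^ 2 := by ring
    _ ≤ (∫ ξ in SK ι K, ‖g ξ‖ * ‖Φ ξ‖) ^ 2 :=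
        pow_le_pow_left₀ (by positivity) (hlow.trans hup) 2
    _ ≤ (∫ ξ, ‖g ξ‖ ^ 2) * ∫ ξ in SK ι K, ‖Φ ξ‖ ^ 2 := hcs
    _ ≤ _ := mul_le_mul_of_nonneg_left hTT (integral_nonneg fun ξ => by positivity)

/-- optimisation in the splitting parameter -/
lemma optimise {n V A l c : ℝ} (hn : 0 < n) (hV : 0 ≤ V) (hA : 0 ≤ A) (hl : 0 < l) (hc : 0 ≤ c)
    (h : ∀ a : ℝ, 0 < a → l ^ 2 * V ^ 2 ≤ A * (2 * a * V + c * a ^ (-(n / 2)) * V ^ 2)) :
    V ≤ ((2 + c) * A / l ^ 2) ^ ((n + 2) / n) := by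
  rcases hV.eq_or_lt with h0 | hV0
  · rw [← h0]
    apply Real.rpow_nonneg
    positivity
  · have h1 := h (V ^ (2 / (n + 2))) (by positivity)
    have e1 : V ^ (2 / (n + 2)) * V = V ^ ((n + 4) / (n + 2)) := by
      nth_rewrite 2 [← Real.rpow_one V]
      rw [← Real.rpow_add hV0]
      congr 1
      field_simp
      ring
    have e2 : (V ^ (2 / (n + 2))) ^ (-(n / 2)) * V ^ 2 = V ^ ((n + 4) / (n + 2)) := by
      rw [← Real.rpow_mul hV0.le, ← Real.rpow_natCast V 2, ← Real.rpow_add hV0]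
      congr 1
      push_cast
      field_simp
      ring
    have e3 : V ^ 2 = V ^ ((n + 4) / (n + 2)) * V ^ (n / (n + 2)) := by
      rw [← Real.rpow_natCast V 2, ← Real.rpow_add hV0]
      congr 1
      push_cast
      field_simp
      ring
    have h2 : V ^ ((n + 4) / (n + 2)) * (l ^ 2 * V ^ (n / (n + 2))) ≤
        V ^ ((n + 4) / (n + 2)) * ((2 + c) * A) := by
      calc V ^ ((n + 4) / (n + 2)) * (l ^ 2 * V ^ (n / (n + 2))) = l ^ 2 * V ^ 2 := by rw [e3]; ring
        _ ≤ _ := h1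
        _ = A * (2 * (V ^ (2 / (n + 2)) * V) + c * ((V ^ (2 / (n + 2))) ^ (-(n / 2)) * V ^ 2)) := by
            ring
        _ = _ := by rw [e1, e2]; ring
    have h3 : l ^ 2 * V ^ (n / (n + 2)) ≤ (2 + c) * A :=
      le_of_mul_le_mul_left h2 (by positivity)
    have h4 : V ^ (n / (n + 2)) ≤ (2 + c) * A / l ^ 2 := by
      rw [le_div_iff₀ (by positivity)]
      linarith
    have h5 : V = (V ^ (n / (n + 2))) ^ ((n + 2) / n) := by
      rw [← Real.rpow_mul hV0.le]
      have : n / (n + 2) * ((n + 2) / n) = 1 := by field_simp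
      rw [this, Real.rpow_one]
    calc V = (V ^ (n / (n + 2))) ^ ((n + 2) / n) := h5
      _ ≤ _ := Real.rpow_le_rpow (by positivity) h4 (by positivity)

/-- weak type Tomas-Stein -/
lemma weak_TS [Nonempty ι] {K : ℝ} (hK : 0 ≤ K) {g : (ι → ℝ) → ℂ} (hg : Measurable g)
    (hs : ∀ ξ, ξ ∉ SK ι K → g ξ = 0) {M : ℝ} (hM : ∀ ξ, ‖g ξ‖ ≤ M) {T : ℝ} (hT : 0 ≤ T)
    {l : ℝ} (hl : 0 < l) :
    volume (lev g T l) ≤ ENNReal.ofReal (((2 + 4 ^ (Fintype.card ι)) * (∫ ξ, ‖g ξ‖ ^ 2) / l ^ 2) ^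
      (((Fintype.card ι : ℝ) + 2) / Fintype.card ι)) := by
  have hΩ : volume (lev g T l) < ∞ := (lev_energy hg hs hM hT hl).trans_lt ENNReal.ofReal_lt_top
  have hn : (0 : ℝ) < Fintype.card ι := by exact_mod_cast Fintype.card_pos
  have h := optimise (n := Fintype.card ι) (V := (volume (lev g T l)).toReal)
    (A := ∫ ξ, ‖g ξ‖ ^ 2) (c := 4 ^ (Fintype.card ι)) hn ENNReal.toReal_nonneg
    (integral_nonneg fun ξ => by positivity) hl (by positivity) (fun a ha => by
      have h1 := lev_ineq hK hg hs hM hT hl ha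
      have e : (4 / √a) ^ (Fintype.card ι) = 4 ^ (Fintype.card ι) * a ^ (-((Fintype.card ι : ℝ) / 2)) := by
        rw [div_pow, Real.sqrt_eq_rpow, ← Real.rpow_natCast (a ^ (1 / 2 : ℝ)), ← Real.rpow_mul ha.le,
          Real.rpow_neg ha.le, div_eq_mul_inv]
        congr 3
        ring
      rw [e] at h1
      exact h1)
  rw [← ENNReal.ofReal_toReal hΩ.ne]
  exact ENNReal.ofReal_le_ofReal h

lemma lint_rpow_Ioc {a : ℝ} (ha : -1 < a) {x : ℝ} (hx : 0 < x) :
    ∫⁻ l in Ioc 0 x, ENNReal.ofReal (l ^ a) = ENNReal.ofReal (x ^ (a + 1) / (a + 1)) := by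
  have hI : IntervalIntegrable (fun l : ℝ => l ^ a) volume 0 x :=
    intervalIntegral.intervalIntegrable_rpow' ha
  rw [intervalIntegrable_iff_integrableOn_Ioc_of_le hx.le] at hI
  rw [← ofReal_integral_eq_lintegral_ofReal hI
    ((ae_restrict_iff' measurableSet_Ioc).mpr (Filter.Eventually.of_forall fun l hl =>
      Real.rpow_nonneg hl.1.le _)), ← intervalIntegral.integral_of_le hx.le,
    integral_rpow (Or.inl ha), Real.zero_rpow (by linarith), sub_zero]

lemma lint_rpow_Ioi {a : ℝ} (ha : a < -1) {x : ℝ} (hx : 0 < x) :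
    ∫⁻ l in Ioi x, ENNReal.ofReal (l ^ a) = ENNReal.ofReal (x ^ (a + 1) / (-(a + 1))) := by
  rw [← ofReal_integral_eq_lintegral_ofReal (integrableOn_Ioi_rpow_of_lt ha hx)
    ((ae_restrict_iff' measurableSet_Ioi).mpr (Filter.Eventually.of_forall fun l hl =>
      Real.rpow_nonneg (hx.trans hl).le _)), integral_Ioi_rpow_of_lt ha hx]
  congr 1
  rw [div_neg, neg_div]

/-- local-in-time strong type estimate -/
lemma local_TS [Nonempty ι] {q : ℝ} (hq2 : 2 < q) (hqr : q < 2 + 4 / (Fintype.card ι : ℝ))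
    {K : ℝ} (hK : 0 ≤ K) :
    ∃ C : ℝ, 0 ≤ C ∧ ∀ (g : (ι → ℝ) → ℂ), Measurable g → (∀ ξ, ξ ∉ SK ι K → g ξ = 0) →
      (∃ M : ℝ, ∀ ξ, ‖g ξ‖ ≤ M) → ∀ T : ℝ, 0 < T →
      ∫⁻ p in {p : (ι → ℝ) × ℝ | |p.2| ≤ T}, ‖EI g p‖ₑ ^ q ≤
        ENNReal.ofReal (C * T ^ (1 - (q - 2) * (Fintype.card ι) / 4) * (∫ ξ, ‖g ξ‖ ^ 2) ^ (q / 2)) := by
  set n : ℝ := (Fintype.card ι : ℝ) with hn
  have hn0 : 0 < n := by rw [hn]; exact_mod_cast Fintype.card_pos
  set r : ℝ := 2 + 4 / n with hr
  have hr2 : ((n + 2) / n) = r / 2 := by rw [hr]; field_simp; ring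
  set c : ℝ := 2 + 4 ^ (Fintype.card ι) with hc
  have hc0 : 0 < c := by positivity
  have hq0 : 0 < q := by linarith
  have hrq : 0 < r - q := by linarith
  have hq2' : 0 < q - 2 := by linarith
  refine ⟨q * (2 / (q - 2) + c ^ (r / 2) / (r - q)), by positivity, ?_⟩
  rintro g hg hs ⟨M, hM⟩ T hT
  set A : ℝ := ∫ ξ, ‖g ξ‖ ^ 2 with hA
  have hA0 : 0 ≤ A := integral_nonneg fun ξ => by positivity
  have hstrip : MeasurableSet {p : (ι → ℝ) × ℝ | |p.2| ≤ T} := by
    have h1 : Measurable fun p : (ι → ℝ) × ℝ => |p.2| := by fun_prop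
    exact measurableSet_le h1 measurable_const
  have e0 : ∀ p, ‖EI g p‖ₑ ^ q = ENNReal.ofReal (‖EI g p‖ ^ q) := by
    intro p
    rw [← ofReal_norm, ENNReal.ofReal_rpow_of_nonneg (norm_nonneg _) hq0.le]
  simp_rw [e0]
  rw [lintegral_rpow_eq_lintegral_meas_lt_mul _ (Filter.Eventually.of_forall fun p => norm_nonneg _)
    (EI_meas hg).norm.aemeasurable hq0]
  have hlev : ∀ l : ℝ, (volume.restrict {p : (ι → ℝ) × ℝ | |p.2| ≤ T}) {p | l < ‖EI g p‖} =
      volume (lev g T l) := by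
    intro l
    rw [Measure.restrict_apply (measurableSet_lt measurable_const (EI_meas hg).norm)]
    congr 1
    ext p
    simp only [lev, mem_inter_iff]
    exact and_comm
  simp_rw [hlev]
  have hen : ∀ l : ℝ, 0 < l → volume (lev g T l) ≤ ENNReal.ofReal (2 * T * A / l ^ 2) :=
    fun l hl => lev_energy hg hs hM hT.le hl
  have hwk : ∀ l : ℝ, 0 < l → volume (lev g T l) ≤ ENNReal.ofReal ((c * A / l ^ 2) ^ (r / 2)) := by
    intro l hl
    have := weak_TS hK hg hs hM hT.le hl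
    rw [← hn, hr2] at this
    exact this
  rcases hA0.eq_or_lt with hA1 | hA1
  · -- zero function
    have h1 : ∫⁻ l in Ioi (0 : ℝ), volume (lev g T l) * ENNReal.ofReal (l ^ (q - 1)) = 0 := by
      rw [setLIntegral_congr_fun (g := fun _ => 0) measurableSet_Ioi]
      · simp
      · intro l hl
        have := hen l hl
        rw [← hA1, mul_zero, zero_div, ENNReal.ofReal_zero, nonpos_iff_eq_zero] at this
        simp only
        rw [this, zero_mul]
    rw [h1, mul_zero]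
    exact zero_le
  · set x : ℝ := √A * T ^ (-(n / 4)) with hx
    have hx0 : 0 < x := by positivity
    have hsplit : Ioi (0 : ℝ) = Ioc 0 x ∪ Ioi x := (Ioc_union_Ioi_eq_Ioi hx0.le).symm
    have hI1 : ∫⁻ l in Ioc 0 x, volume (lev g T l) * ENNReal.ofReal (l ^ (q - 1)) ≤
        ENNReal.ofReal (2 * T * A * (x ^ (q - 2) / (q - 2))) := by
      calc _ ≤ ∫⁻ l in Ioc 0 x, ENNReal.ofReal (2 * T * A) * ENNReal.ofReal (l ^ (q - 3)) := by
            apply setLIntegral_mono' measurableSet_Ioc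
            intro l hl
            refine (mul_le_mul_left (hen l hl.1) _).trans (le_of_eq ?_)
            rw [← ENNReal.ofReal_mul (by have := hl.1; positivity),
              ← ENNReal.ofReal_mul (by positivity)]
            congr 1
            have : l ^ (q - 1) = l ^ (q - 3) * l ^ 2 := by
              rw [← Real.rpow_natCast l 2, ← Real.rpow_add hl.1]; congr 1; push_cast; ring
            rw [this]
            have := hl.1.ne'
            field_simp
        _ = _ := by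
            rw [lintegral_const_mul' _ _ ENNReal.ofReal_ne_top, lint_rpow_Ioc (by linarith) hx0,
              ← ENNReal.ofReal_mul (by positivity)]
            congr 2
            rw [show q - 3 + 1 = q - 2 by ring]
    have hI2 : ∫⁻ l in Ioi x, volume (lev g T l) * ENNReal.ofReal (l ^ (q - 1)) ≤
        ENNReal.ofReal ((c * A) ^ (r / 2) * (x ^ (q - r) / (r - q))) := by
      calc _ ≤ ∫⁻ l in Ioi x, ENNReal.ofReal ((c * A) ^ (r / 2)) * ENNReal.ofReal (l ^ (q - r - 1)) := by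
            apply setLIntegral_mono' measurableSet_Ioi
            intro l hl
            have hl0 : 0 < l := hx0.trans hl
            refine (mul_le_mul_left (hwk l hl0) _).trans (le_of_eq ?_)
            rw [← ENNReal.ofReal_mul (by positivity), ← ENNReal.ofReal_mul (by positivity)]
            congr 1
            have h1 : (c * A / l ^ 2) ^ (r / 2) = (c * A) ^ (r / 2) * l ^ (-r) := by
              rw [Real.div_rpow (by positivity) (by positivity), ← Real.rpow_natCast l 2,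
                ← Real.rpow_mul hl0.le, Real.rpow_neg hl0.le, div_eq_mul_inv]
              congr 3
              push_cast; ring
            rw [h1, mul_assoc, ← Real.rpow_add hl0]
            congr 2
            ring
        _ = _ := by
            rw [lintegral_const_mul' _ _ ENNReal.ofReal_ne_top, lint_rpow_Ioi (by linarith) hx0,
              ← ENNReal.ofReal_mul (by positivity)]
            congr 2
            rw [show q - r - 1 + 1 = q - r by ring, show -(q - r) = r - q by ring]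
    have hxp : ∀ s : ℝ, x ^ s = A ^ (s / 2) * T ^ (-(n * s / 4)) := by
      intro s
      rw [hx, Real.mul_rpow (by positivity) (by positivity), Real.sqrt_eq_rpow,
        ← Real.rpow_mul hA1.le, ← Real.rpow_mul hT.le]
      congr 2 <;> ring
    rw [hsplit]
    calc ENNReal.ofReal q * ∫⁻ l in Ioc 0 x ∪ Ioi x, volume (lev g T l) * ENNReal.ofReal (l ^ (q - 1))
        ≤ ENNReal.ofReal q * (ENNReal.ofReal (2 * T * A * (x ^ (q - 2) / (q - 2))) +
          ENNReal.ofReal ((c * A) ^ (r / 2) * (x ^ (q - r) / (r - q)))) := by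
          gcongr
          exact (lintegral_union_le _ _ _).trans (add_le_add hI1 hI2)
      _ = ENNReal.ofReal (q * (2 * T * A * (x ^ (q - 2) / (q - 2)) +
          (c * A) ^ (r / 2) * (x ^ (q - r) / (r - q)))) := by
          rw [← ENNReal.ofReal_add (by positivity) (by positivity), ← ENNReal.ofReal_mul hq0.le]
      _ = _ := by
          congr 1
          rw [hxp, hxp]
          have f1 : T * T ^ (-(n * (q - 2) / 4)) = T ^ (1 - (q - 2) * n / 4) := by
            nth_rewrite 1 [← Real.rpow_one T]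
            rw [← Real.rpow_add hT]
            congr 1; ring
          have f2 : T ^ (-(n * (q - r) / 4)) = T ^ (1 - (q - 2) * n / 4) := by
            congr 1
            rw [hr]; field_simp; ring
          have f3 : A * A ^ ((q - 2) / 2) = A ^ (q / 2) := by
            nth_rewrite 1 [← Real.rpow_one A]
            rw [← Real.rpow_add hA1]
            congr 1; ring
          have f4 : A ^ (r / 2) * A ^ ((q - r) / 2) = A ^ (q / 2) := by
            rw [← Real.rpow_add hA1]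
            congr 1; ring
          rw [f2, Real.mul_rpow hc0.le hA0, ← f1]
          have f5 : c ^ (r / 2) * A ^ (r / 2) * (A ^ ((q - r) / 2) * (T * T ^ (-(n * (q - 2) / 4))) / (r - q)) =
              c ^ (r / 2) * (A ^ (r / 2) * A ^ ((q - r) / 2)) * (T * T ^ (-(n * (q - 2) / 4))) / (r - q) := by
            ring
          rw [f5, f4, ← f3]
          field_simp

end Pool.Agent.H.MP_b7167f_an
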