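import Mathlib
import Pool.Agent.H.MP_b7167f_an.TS2

/-!
Averages and differences in coordinate directions.
-/

namespace Pool.Agent.H.MP_b7167f_an

open MeasureTheory Complex ComplexConjugate Real Set ENNReal

variable {ι : Type*} [Fintype ι] [DecidableEq ι]

/-- coordinate vector -/
def ej (j : ι) : ι → ℝ := Pi.single j 1

omit [Fintype ι] in
@[simp] lemma ej_same (j : ι) : ej j j = 1 := by simp [ej]

omit [Fintype ι] in
lemma ej_ne {i j : ι} (h : i ≠ j) : ej j i = 0 := by simp [ej, h]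

/-- average of `F` over the segment `ξ + [0,1/R] e_j` -/
noncomputable def Av (j : ι) (R : ℝ) (F : (ι → ℝ) → ℂ) (ξ : ι → ℝ) : ℂ :=
  ∫ s in Icc (0 : ℝ) 1, F (ξ + (s / R) • ej j)

/-- difference -/
noncomputable def Df (j : ι) (R : ℝ) (F : (ι → ℝ) → ℂ) (ξ : ι → ℝ) : ℂ :=
  F (ξ + (1 / R) • ej j) - F ξ

/-- bounded measurable functions supported in a cube -/
structure Good (K M : ℝ) (F : (ι → ℝ) → ℂ) : Prop where
  meas : Measurable F
  supp : ∀ ξ, ξ ∉ SK ι K → F ξ = 0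
  bdd : ∀ ξ, ‖F ξ‖ ≤ M

instance : IsProbabilityMeasure ((volume : Measure ℝ).restrict (Icc (0 : ℝ) 1)) := ⟨by simp⟩

lemma shift_meas {F : (ι → ℝ) → ℂ} (hF : Measurable F) (j : ι) (R : ℝ) :
    Measurable fun z : (ι → ℝ) × ℝ => F (z.1 + (z.2 / R) • ej j) := by
  apply hF.comp
  apply measurable_fst.add
  apply measurable_pi_lambda
  intro i
  simp only [Pi.smul_apply, smul_eq_mul]
  exact (measurable_snd.div_const R).mul_const _

lemma shift_meas' {F : (ι → ℝ) → ℂ} (hF : Measurable F) (v : ι → ℝ) :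
    Measurable fun ξ : ι → ℝ => F (ξ + v) := hF.comp (measurable_id.add_const v)

lemma Av_meas {F : (ι → ℝ) → ℂ} (hF : Measurable F) (j : ι) (R : ℝ) : Measurable (Av j R F) := by
  apply StronglyMeasurable.measurable
  unfold Av
  apply StronglyMeasurable.integral_prod_right (f := fun (ξ : ι → ℝ) (s : ℝ) =>
      F (ξ + (s / R) • ej j))
  exact (shift_meas hF j R).stronglyMeasurable

lemma Df_meas {F : (ι → ℝ) → ℂ} (hF : Measurable F) (j : ι) (R : ℝ) : Measurable (Df j R F) :=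
  (shift_meas' hF _).sub hF

lemma Av_bdd {F : (ι → ℝ) → ℂ} {M : ℝ} (hM : ∀ ξ, ‖F ξ‖ ≤ M) (j : ι) (R : ℝ) (ξ : ι → ℝ) :
    ‖Av j R F ξ‖ ≤ M := by
  unfold Av
  have := norm_integral_le_of_norm_le_const (μ := (volume : Measure ℝ).restrict (Icc (0 : ℝ) 1))
    (f := fun s => F (ξ + (s / R) • ej j)) (C := M) (Filter.Eventually.of_forall fun s => hM _)
  simpa using this

omit [DecidableEq ι] in
lemma SK_mem {K : ℝ} {ξ : ι → ℝ} : ξ ∈ SK ι K ↔ ∀ i, |ξ i| ≤ K := by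
  unfold SK
  rw [mem_Icc, Pi.le_def, Pi.le_def, ← forall_and]
  exact forall_congr' fun i => abs_le.symm

lemma SK_shift {K R s : ℝ} (hR : 1 ≤ R) (hs0 : 0 ≤ s) (hs1 : s ≤ 1) {ξ : ι → ℝ} {j : ι}
    (h : ξ ∉ SK ι (K + 1)) : ξ + (s / R) • ej j ∉ SK ι K := by
  rw [SK_mem] at h ⊢
  intro h2
  apply h
  intro i
  have h3 := h2 i
  have h4 : |(s / R) * ej j i| ≤ 1 := by
    by_cases hij : i = j
    · subst hij
      rw [ej_same, mul_one, abs_of_nonneg (by positivity)]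
      rw [div_le_one (by linarith)]
      linarith
    · rw [ej_ne hij]; simp
  have h5 : ξ i = (ξ + (s / R) • ej j) i - (s / R) * ej j i := by
    simp [Pi.add_apply, Pi.smul_apply]
  rw [h5]
  calc |(ξ + (s / R) • ej j) i - (s / R) * ej j i| ≤
        |(ξ + (s / R) • ej j) i| + |(s / R) * ej j i| := abs_sub _ _
    _ ≤ K + 1 := add_le_add h3 h4

lemma Av_good {K M R : ℝ} (hR : 1 ≤ R) {F : (ι → ℝ) → ℂ} (hF : Good K M F) (j : ι) :
    Good (K + 1) M (Av j R F) where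
  meas := Av_meas hF.meas j R
  supp := by
    intro ξ hξ
    unfold Av
    rw [setIntegral_congr_fun (g := fun _ => 0) measurableSet_Icc]
    · simp
    · intro s hs
      exact hF.supp _ (SK_shift hR hs.1 hs.2 hξ)
  bdd := Av_bdd hF.bdd j R

lemma SK_mono {K K' : ℝ} (h : K ≤ K') : SK ι K ⊆ SK ι K' := by
  intro ξ hξ
  rw [SK_mem] at hξ ⊢
  exact fun i => (hξ i).trans h

lemma Good.mono {K K' M M' : ℝ} {F : (ι → ℝ) → ℂ} (hF : Good K M F) (hK : K ≤ K') (hM : M ≤ M') :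
    Good K' M' F where
  meas := hF.meas
  supp := fun ξ hξ => hF.supp ξ fun h => hξ (SK_mono hK h)
  bdd := fun ξ => (hF.bdd ξ).trans hM

lemma Df_good {K M R : ℝ} (hR : 1 ≤ R) {F : (ι → ℝ) → ℂ} (hF : Good K M F) (j : ι) :
    Good (K + 1) (2 * M) (Df j R F) where
  meas := Df_meas hF.meas j R
  supp := by
    intro ξ hξ
    unfold Df
    rw [hF.supp _ (SK_shift hR zero_le_one le_rfl hξ),
      hF.supp ξ (fun h => hξ (SK_mono (by linarith) h)), sub_zero]
  bdd := by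
    intro ξ
    unfold Df
    refine (norm_sub_le _ _).trans ?_
    linarith [hF.bdd (ξ + (1 / R) • ej j), hF.bdd ξ]

lemma Good.integrable {K M : ℝ} {F : (ι → ℝ) → ℂ} (hF : Good K M F) : Integrable F :=
  g_integrable hF.meas hF.supp hF.bdd

lemma Good.sq_integrable {K M : ℝ} {F : (ι → ℝ) → ℂ} (hF : Good K M F) :
    Integrable fun ξ => ‖F ξ‖ ^ 2 := g_sq_integrable hF.meas hF.supp hF.bdd

/-- pointwise Cauchy-Schwarz for averages -/
lemma Av_sq {F : (ι → ℝ) → ℂ} (hF : Measurable F) {M : ℝ} (hM : ∀ ξ, ‖F ξ‖ ≤ M) (j : ι) (R : ℝ)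
    (ξ : ι → ℝ) : ‖Av j R F ξ‖ ^ 2 ≤ ∫ s in Icc (0 : ℝ) 1, ‖F (ξ + (s / R) • ej j)‖ ^ 2 := by
  have hm : Measurable fun s : ℝ => F (ξ + (s / R) • ej j) :=
    (shift_meas hF j R).comp (measurable_const.prodMk measurable_id)
  have h1 := cs_int (μ := (volume : Measure ℝ).restrict (Icc (0 : ℝ) 1)) (f := fun _ => (1 : ℝ))
    (g := fun s => ‖F (ξ + (s / R) • ej j)‖) (integrable_const _)
    (Integrable.of_bound (hm.norm.pow_const 2).aestronglyMeasurable (M ^ 2)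
      (Filter.Eventually.of_forall fun s => by
        rw [Real.norm_of_nonneg (by positivity)]
        exact pow_le_pow_left₀ (norm_nonneg _) (hM _) 2))
    (Integrable.of_bound (hm.norm.const_mul 1).aestronglyMeasurable M
      (Filter.Eventually.of_forall fun s => by
        rw [one_mul, norm_norm]; exact hM _))
  simp only [one_mul, one_pow] at h1
  have h2 : ∫ _s in Icc (0 : ℝ) 1, (1 : ℝ) = 1 := by simp
  rw [h2, one_mul] at h1
  refine le_trans ?_ h1
  apply pow_le_pow_left₀ (norm_nonneg _)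
  exact norm_integral_le_integral_norm _

/-- translation invariance of the square integral -/
lemma shift_sq (F : (ι → ℝ) → ℂ) (v : ι → ℝ) : ∫ ξ, ‖F (ξ + v)‖ ^ 2 = ∫ ξ, ‖F ξ‖ ^ 2 :=
  integral_add_right_eq_self (fun ξ => ‖F ξ‖ ^ 2) v

lemma prod_shift_integrable {K M R : ℝ} (hR : 1 ≤ R) {F : (ι → ℝ) → ℂ} (hF : Good K M F) (j : ι) :
    Integrable (fun z : (ι → ℝ) × ℝ => F (z.1 + (z.2 / R) • ej j))
      ((volume : Measure (ι → ℝ)).prod (volume.restrict (Icc (0 : ℝ) 1))) := by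
  have h1 : Integrable (fun z : (ι → ℝ) × ℝ => (SK ι (K + 1)).indicator (fun _ => M) z.1 * (1 : ℝ))
      ((volume : Measure (ι → ℝ)).prod (volume.restrict (Icc (0 : ℝ) 1))) := by
    apply Integrable.mul_prod (f := (SK ι (K + 1)).indicator (fun _ => M)) (g := fun _ => (1 : ℝ))
    · rw [integrable_indicator_iff (measurableSet_SK _)]
      exact integrableOn_const (ne_of_lt (volume_SK_lt _))
    · exact integrable_const _
  refine h1.mono' (shift_meas hF.meas j R).aestronglyMeasurable ?_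
  have h2 : ∀ᵐ z : (ι → ℝ) × ℝ ∂((volume : Measure (ι → ℝ)).prod (volume.restrict (Icc (0 : ℝ) 1))),
      z.2 ∈ Icc (0 : ℝ) 1 :=
    Measure.quasiMeasurePreserving_snd.ae (ae_restrict_mem measurableSet_Icc)
  filter_upwards [h2] with z hz
  rw [mul_one]
  by_cases h : z.1 ∈ SK ι (K + 1)
  · rw [indicator_of_mem h]; exact hF.bdd _
  · rw [indicator_of_notMem h, hF.supp _ (SK_shift hR hz.1 hz.2 h), norm_zero]

/-- `L²` contraction -/
lemma Av_L2 {K M R : ℝ} (hR : 1 ≤ R) {F : (ι → ℝ) → ℂ} (hF : Good K M F) (j : ι) :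
    ∫ ξ, ‖Av j R F ξ‖ ^ 2 ≤ ∫ ξ, ‖F ξ‖ ^ 2 := by
  have hI : Integrable (fun z : (ι → ℝ) × ℝ => ‖F (z.1 + (z.2 / R) • ej j)‖ ^ 2)
      ((volume : Measure (ι → ℝ)).prod (volume.restrict (Icc (0 : ℝ) 1))) := by
    refine ((prod_shift_integrable hR hF j).norm.const_mul M).mono'
      ((shift_meas hF.meas j R).norm.pow_const 2).aestronglyMeasurable
      (Filter.Eventually.of_forall fun z => ?_)
    rw [Real.norm_of_nonneg (by positivity)]
    nlinarith [norm_nonneg (F (z.1 + (z.2 / R) • ej j)), hF.bdd (z.1 + (z.2 / R) • ej j)]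
  calc ∫ ξ, ‖Av j R F ξ‖ ^ 2 ≤ ∫ ξ, ∫ s in Icc (0 : ℝ) 1, ‖F (ξ + (s / R) • ej j)‖ ^ 2 := by
        apply integral_mono (Av_good hR hF j).sq_integrable hI.integral_prod_left
        intro ξ
        exact Av_sq hF.meas hF.bdd j R ξ
    _ = ∫ s in Icc (0 : ℝ) 1, ∫ ξ, ‖F (ξ + (s / R) • ej j)‖ ^ 2 := by
        rw [integral_integral_swap]
        exact hI
    _ = ∫ _s in Icc (0 : ℝ) 1, ∫ ξ, ‖F ξ‖ ^ 2 := by
        congr 1
        ext s
        exact shift_sq F _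
    _ = ∫ ξ, ‖F ξ‖ ^ 2 := by simp

end Pool.Agent.H.MP_b7167f_an
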