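import Mathlib
import Pool.Agent.H.MP_b7167f_an.SAvg

/-!
Algebra of averages and differences; `L²` moduli.
-/

namespace Pool.Agent.H.MP_b7167f_an

open MeasureTheory Complex ComplexConjugate Real Set ENNReal

variable {ι : Type*} [Fintype ι] [DecidableEq ι]

lemma slice_integrable {F : (ι → ℝ) → ℂ} (hF : Measurable F) {M : ℝ} (hM : ∀ ξ, ‖F ξ‖ ≤ M)
    (j : ι) (R : ℝ) (ξ : ι → ℝ) :
    Integrable (fun s : ℝ => F (ξ + (s / R) • ej j)) ((volume : Measure ℝ).restrict (Icc 0 1)) := by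
  have hm : Measurable fun s : ℝ => F (ξ + (s / R) • ej j) :=
    (shift_meas hF j R).comp (measurable_const.prodMk measurable_id)
  exact Integrable.of_bound hm.aestronglyMeasurable M (Filter.Eventually.of_forall fun s => hM _)

lemma Av_comm {F : (ι → ℝ) → ℂ} (hF : Measurable F) {M : ℝ} (hM : ∀ ξ, ‖F ξ‖ ≤ M)
    (j j' : ι) (R R' : ℝ) : Av j R (Av j' R' F) = Av j' R' (Av j R F) := by
  ext ξ
  unfold Av
  rw [integral_integral_swap]
  · congr 1
    ext s'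
    congr 1
    ext s
    congr 1
    abel
  · have hm : Measurable (Function.uncurry fun s s' : ℝ =>
        F (ξ + (s / R) • ej j + (s' / R') • ej j')) := by
      apply hF.comp
      apply measurable_pi_lambda
      intro i
      simp only [Pi.add_apply, Pi.smul_apply, smul_eq_mul]
      fun_prop
    exact Integrable.of_bound hm.aestronglyMeasurable M
      (Filter.Eventually.of_forall fun z => hM _)

lemma Av_sub {F G : (ι → ℝ) → ℂ} (hF : Measurable F) {M : ℝ} (hM : ∀ ξ, ‖F ξ‖ ≤ M)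
    (hG : Measurable G) {M' : ℝ} (hM' : ∀ ξ, ‖G ξ‖ ≤ M') (j : ι) (R : ℝ) :
    Av j R (fun ξ => F ξ - G ξ) = fun ξ => Av j R F ξ - Av j R G ξ := by
  ext ξ
  unfold Av
  rw [integral_sub (slice_integrable hF hM j R ξ) (slice_integrable hG hM' j R ξ)]

lemma Av_shift (F : (ι → ℝ) → ℂ) (j : ι) (R : ℝ) (v : ι → ℝ) :
    Av j R (fun ξ => F (ξ + v)) = fun ξ => Av j R F (ξ + v) := by
  ext ξ
  unfold Av
  simp_rw [add_right_comm]

lemma Df_Av {F : (ι → ℝ) → ℂ} (hF : Measurable F) {M : ℝ} (hM : ∀ ξ, ‖F ξ‖ ≤ M)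
    (j j' : ι) (R R' : ℝ) : Df j R (Av j' R' F) = Av j' R' (Df j R F) := by
  unfold Df
  rw [Av_sub (shift_meas' hF _) (fun ξ => hM _) hF hM, Av_shift]

/-- multiplication by a function of the coordinate `j` -/
def Mc (j : ι) (ψ : ℝ → ℂ) (F : (ι → ℝ) → ℂ) (ξ : ι → ℝ) : ℂ := ψ (ξ j) * F ξ

lemma Mc_Av {j j' : ι} (h : j ≠ j') (ψ : ℝ → ℂ) (F : (ι → ℝ) → ℂ) (R : ℝ) :
    Mc j ψ (Av j' R F) = Av j' R (Mc j ψ F) := by
  ext ξ
  unfold Mc Av
  rw [← integral_const_mul]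
  congr 1
  ext s
  congr 2
  simp [ej_ne h]

omit [Fintype ι] [DecidableEq ι] in
lemma Mc_meas {j : ι} {ψ : ℝ → ℂ} (hψ : Measurable ψ) {F : (ι → ℝ) → ℂ} (hF : Measurable F) :
    Measurable (Mc j ψ F) := (hψ.comp (measurable_pi_apply j)).mul hF

omit [DecidableEq ι] in
lemma Mc_good {K M : ℝ} {j : ι} {ψ : ℝ → ℂ} (hψ : Measurable ψ) (h1 : ∀ v, ‖ψ v‖ ≤ 1)
    {F : (ι → ℝ) → ℂ} (hF : Good K M F) : Good K M (Mc j ψ F) where
  meas := Mc_meas hψ hF.meas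
  supp := fun ξ hξ => by unfold Mc; rw [hF.supp ξ hξ, mul_zero]
  bdd := fun ξ => by
    unfold Mc
    rw [norm_mul]
    calc ‖ψ (ξ j)‖ * ‖F ξ‖ ≤ 1 * ‖F ξ‖ := mul_le_mul_of_nonneg_right (h1 _) (norm_nonneg _)
      _ ≤ M := by rw [one_mul]; exact hF.bdd ξ

lemma Good.nonneg {K M : ℝ} {F : (ι → ℝ) → ℂ} (hF : Good K M F) : 0 ≤ M :=
  (norm_nonneg _).trans (hF.bdd 0)

lemma Good.shift {K M : ℝ} {F : (ι → ℝ) → ℂ} (hF : Good K M F) {a : ℝ} (ha0 : 0 ≤ a)
    (ha1 : a ≤ 1) (j : ι) : Good (K + 1) M (fun ξ => F (ξ + a • ej j)) where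
  meas := shift_meas' hF.meas _
  supp := fun ξ hξ => by
    have := SK_shift (R := 1) le_rfl ha0 ha1 (j := j) hξ
    rw [div_one] at this
    exact hF.supp _ this
  bdd := fun ξ => hF.bdd _

lemma Good.sub {K M M' : ℝ} {F G : (ι → ℝ) → ℂ} (hF : Good K M F) (hG : Good K M' G) :
    Good K (M + M') (fun ξ => F ξ - G ξ) where
  meas := hF.meas.sub hG.meas
  supp := fun ξ hξ => by rw [hF.supp ξ hξ, hG.supp ξ hξ, sub_zero]
  bdd := fun ξ => (norm_sub_le _ _).trans (add_le_add (hF.bdd ξ) (hG.bdd ξ))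

lemma Good.add {K M M' : ℝ} {F G : (ι → ℝ) → ℂ} (hF : Good K M F) (hG : Good K M' G) :
    Good K (M + M') (fun ξ => F ξ + G ξ) where
  meas := hF.meas.add hG.meas
  supp := fun ξ hξ => by rw [hF.supp ξ hξ, hG.supp ξ hξ, add_zero]
  bdd := fun ξ => (norm_add_le _ _).trans (add_le_add (hF.bdd ξ) (hG.bdd ξ))

lemma sq_add_le {K M M' : ℝ} {F G : (ι → ℝ) → ℂ} (hF : Good K M F) (hG : Good K M' G) :
    ∫ ξ, ‖F ξ + G ξ‖ ^ 2 ≤ 2 * (∫ ξ, ‖F ξ‖ ^ 2) + 2 * ∫ ξ, ‖G ξ‖ ^ 2 := by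
  rw [← integral_const_mul, ← integral_const_mul, ← integral_add
    (hF.sq_integrable.const_mul 2) (hG.sq_integrable.const_mul 2)]
  apply integral_mono (hF.add hG).sq_integrable
    ((hF.sq_integrable.const_mul 2).add (hG.sq_integrable.const_mul 2))
  intro ξ
  simp only [Pi.add_apply]
  have h1 := norm_add_le (F ξ) (G ξ)
  have h2 : ‖F ξ + G ξ‖ ^ 2 ≤ (‖F ξ‖ + ‖G ξ‖) ^ 2 := pow_le_pow_left₀ (norm_nonneg _) h1 2
  nlinarith [sq_nonneg (‖F ξ‖ - ‖G ξ‖)]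

lemma Df_L2 {K M R : ℝ} (hR : 1 ≤ R) {F : (ι → ℝ) → ℂ} (hF : Good K M F) (j : ι) :
    ∫ ξ, ‖Df j R F ξ‖ ^ 2 ≤ 4 * ∫ ξ, ‖F ξ‖ ^ 2 := by
  have h0 : (0 : ℝ) ≤ 1 / R := by positivity
  have h1 : 1 / R ≤ 1 := by rw [div_le_one (by linarith)]; exact hR
  have hG := hF.shift h0 h1 j
  have hN : Good (K + 1) M (fun ξ => - F ξ) := by
    have := (hF.mono (by linarith : K ≤ K + 1) le_rfl)
    exact ⟨this.meas.neg, fun ξ hξ => by rw [this.supp ξ hξ, neg_zero],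
      fun ξ => by rw [norm_neg]; exact this.bdd ξ⟩
  have h := sq_add_le hG hN
  simp only [norm_neg] at h
  rw [shift_sq F] at h
  have e : ∀ ξ, ‖Df j R F ξ‖ = ‖F (ξ + (1 / R) • ej j) + -F ξ‖ := by
    intro ξ
    unfold Df
    rw [sub_eq_add_neg]
  simp_rw [e]
  linarith

lemma Mc_L2 {K M : ℝ} {j : ι} {ψ : ℝ → ℂ} (hψ : Measurable ψ) (h1 : ∀ v, ‖ψ v‖ ≤ 1)
    {F : (ι → ℝ) → ℂ} (hF : Good K M F) : ∫ ξ, ‖Mc j ψ F ξ‖ ^ 2 ≤ ∫ ξ, ‖F ξ‖ ^ 2 := by
  apply integral_mono (Mc_good hψ h1 hF).sq_integrable hF.sq_integrable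
  intro ξ
  simp only
  unfold Mc
  rw [norm_mul]
  apply pow_le_pow_left₀ (by positivity)
  calc ‖ψ (ξ j)‖ * ‖F ξ‖ ≤ 1 * ‖F ξ‖ := mul_le_mul_of_nonneg_right (h1 _) (norm_nonneg _)
    _ = _ := one_mul _

/-- composition of averages over a list of coordinates -/
noncomputable def PL (L : List ι) (R : ℝ) (F : (ι → ℝ) → ℂ) : (ι → ℝ) → ℂ :=
  L.foldr (fun j G => Av j R G) F

@[simp] lemma PL_nil (R : ℝ) (F : (ι → ℝ) → ℂ) : PL [] R F = F := rfl

@[simp] lemma PL_cons (j : ι) (L : List ι) (R : ℝ) (F : (ι → ℝ) → ℂ) :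
    PL (j :: L) R F = Av j R (PL L R F) := rfl

lemma PL_good {K M R : ℝ} (hR : 1 ≤ R) (L : List ι) {F : (ι → ℝ) → ℂ} (hF : Good K M F) :
    Good (K + L.length) M (PL L R F) := by
  induction L with
  | nil => simpa using hF
  | cons j L ih =>
    rw [PL_cons]
    have := Av_good hR ih j
    simpa [add_assoc] using this

lemma PL_L2 {K M R : ℝ} (hR : 1 ≤ R) (L : List ι) {F : (ι → ℝ) → ℂ} (hF : Good K M F) :
    ∫ ξ, ‖PL L R F ξ‖ ^ 2 ≤ ∫ ξ, ‖F ξ‖ ^ 2 := by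
  induction L with
  | nil => simp
  | cons j L ih =>
    rw [PL_cons]
    exact (Av_L2 hR (PL_good hR L hF) j).trans ih

lemma PL_Av {K M R R' : ℝ} (hR : 1 ≤ R) (L : List ι) {F : (ι → ℝ) → ℂ} (hF : Good K M F) (j : ι) :
    Av j R' (PL L R F) = PL L R (Av j R' F) := by
  induction L with
  | nil => rfl
  | cons i L ih =>
    have hG := PL_good hR L hF
    rw [PL_cons, PL_cons, ← ih, Av_comm hG.meas hG.bdd]

lemma PL_PL {K M R R' : ℝ} (hR : 1 ≤ R) (hR' : 1 ≤ R') (L L' : List ι) {F : (ι → ℝ) → ℂ}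
    (hF : Good K M F) : PL L' R' (PL L R F) = PL L R (PL L' R' F) := by
  induction L' with
  | nil => rfl
  | cons j L' ih =>
    rw [PL_cons, PL_cons, ih, PL_Av hR L (PL_good hR' L' hF)]

lemma PL_sub {K M M' R : ℝ} (hR : 1 ≤ R) (L : List ι) {F G : (ι → ℝ) → ℂ} (hF : Good K M F)
    (hG : Good K M' G) : PL L R (fun ξ => F ξ - G ξ) = fun ξ => PL L R F ξ - PL L R G ξ := by
  induction L with
  | nil => rfl
  | cons j L ih =>
    have h1 := PL_good hR L hF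
    have h2 := PL_good hR L hG
    rw [PL_cons, PL_cons, PL_cons, ih, Av_sub h1.meas h1.bdd h2.meas h2.bdd]

lemma PL_Mc {j : ι} (L : List ι) (h : j ∉ L) (ψ : ℝ → ℂ) (F : (ι → ℝ) → ℂ) (R : ℝ) :
    Mc j ψ (PL L R F) = PL L R (Mc j ψ F) := by
  induction L with
  | nil => rfl
  | cons i L ih =>
    rw [List.mem_cons, not_or] at h
    rw [PL_cons, PL_cons, Mc_Av h.1, ih h.2]

lemma PL_Df {K M R R' : ℝ} (hR : 1 ≤ R) (L : List ι) {F : (ι → ℝ) → ℂ} (hF : Good K M F) (j : ι) :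
    Df j R' (PL L R F) = PL L R (Df j R' F) := by
  induction L with
  | nil => rfl
  | cons i L ih =>
    have hG := PL_good hR L hF
    rw [PL_cons, PL_cons, ← ih, Df_Av hG.meas hG.bdd]

/-- `L²` modulus of continuity in the coordinate directions of a list -/
def Modu (L : List ι) (s A : ℝ) (F : (ι → ℝ) → ℂ) : Prop :=
  ∀ j ∈ L, ∀ a : ℝ, 0 ≤ a → a ≤ 1 → ∫ ξ, ‖F (ξ + a • ej j) - F ξ‖ ^ 2 ≤ (A * a ^ s) ^ 2

lemma Av_modu {K M R : ℝ} (hR : 1 ≤ R) {L : List ι} {s A : ℝ} {F : (ι → ℝ) → ℂ}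
    (hF : Good K M F) (h : Modu L s A F) (i : ι) : Modu L s A (Av i R F) := by
  intro j hj a ha0 ha1
  have hG := (hF.shift ha0 ha1 j).sub (hF.mono (by linarith : K ≤ K + 1) le_rfl)
  have e : (fun ξ => Av i R F (ξ + a • ej j) - Av i R F ξ) =
      Av i R (fun ξ => F (ξ + a • ej j) - F ξ) := by
    rw [Av_sub (shift_meas' hF.meas _) (fun ξ => hF.bdd _) hF.meas hF.bdd, Av_shift]
  have e' : ∀ ξ, Av i R F (ξ + a • ej j) - Av i R F ξ =
      Av i R (fun ξ => F (ξ + a • ej j) - F ξ) ξ := fun ξ => congrFun e ξ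
  simp_rw [e']
  exact (Av_L2 hR hG i).trans (h j hj a ha0 ha1)

lemma PL_modu {K M R : ℝ} (hR : 1 ≤ R) {L : List ι} {s A : ℝ} {F : (ι → ℝ) → ℂ}
    (hF : Good K M F) (h : Modu L s A F) (L' : List ι) : Modu L s A (PL L' R F) := by
  induction L' with
  | nil => exact h
  | cons j L' ih => exact Av_modu hR (PL_good hR L' hF) ih j

/-- `F - Av F` is small in `L²` -/
lemma one_sub_Av {K M R : ℝ} (hR : 1 ≤ R) {L : List ι} {s A : ℝ} (hs : 0 ≤ s)
    {F : (ι → ℝ) → ℂ} (hF : Good K M F) (h : Modu L s A F) {j : ι} (hj : j ∈ L) :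
    ∫ ξ, ‖F ξ - Av j R F ξ‖ ^ 2 ≤ (A * R ^ (-s)) ^ 2 := by
  have hR0 : 0 < R := by linarith
  have hA : ∀ a : ℝ, 0 ≤ a → a ≤ 1 / R → (A * a ^ s) ^ 2 ≤ (A * R ^ (-s)) ^ 2 := by
    intro a ha0 ha1
    rw [mul_pow, mul_pow]
    apply mul_le_mul_of_nonneg_left _ (sq_nonneg A)
    apply pow_le_pow_left₀ (Real.rpow_nonneg ha0 _)
    rw [Real.rpow_neg hR0.le, ← Real.inv_rpow hR0.le]
    apply Real.rpow_le_rpow ha0 _ hs
    rwa [← one_div]
  -- the integrand on the product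
  have hK : K ≤ K + 1 := by linarith
  have hm : Measurable fun z : (ι → ℝ) × ℝ => F z.1 - F (z.1 + (z.2 / R) • ej j) :=
    (hF.meas.comp measurable_fst).sub (shift_meas hF.meas j R)
  have hI : Integrable (fun z : (ι → ℝ) × ℝ => ‖F z.1 - F (z.1 + (z.2 / R) • ej j)‖ ^ 2)
      ((volume : Measure (ι → ℝ)).prod (volume.restrict (Icc (0 : ℝ) 1))) := by
    have h1 := prod_shift_integrable hR hF j
    have h2 : Integrable (fun z : (ι → ℝ) × ℝ => F z.1)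
        ((volume : Measure (ι → ℝ)).prod (volume.restrict (Icc (0 : ℝ) 1))) :=
      hF.integrable.comp_fst _
    refine ((h2.sub h1).norm.const_mul (2 * M)).mono' (hm.norm.pow_const 2).aestronglyMeasurable
      (Filter.Eventually.of_forall fun z => ?_)
    rw [Real.norm_of_nonneg (by positivity)]
    simp only [Pi.sub_apply]
    have h3 : ‖F z.1 - F (z.1 + (z.2 / R) • ej j)‖ ≤ 2 * M := by
      refine (norm_sub_le _ _).trans ?_
      linarith [hF.bdd z.1, hF.bdd (z.1 + (z.2 / R) • ej j)]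
    nlinarith [norm_nonneg (F z.1 - F (z.1 + (z.2 / R) • ej j))]
  have hpt : ∀ ξ, ‖F ξ - Av j R F ξ‖ ^ 2 ≤
      ∫ s in Icc (0 : ℝ) 1, ‖F ξ - F (ξ + (s / R) • ej j)‖ ^ 2 := by
    intro ξ
    have e1 : F ξ - Av j R F ξ = ∫ s in Icc (0 : ℝ) 1, (F ξ - F (ξ + (s / R) • ej j)) := by
      unfold Av
      rw [integral_sub (integrable_const _) (slice_integrable hF.meas hF.bdd j R ξ)]
      congr 1
      simp
    have hms : Measurable fun s : ℝ => F ξ - F (ξ + (s / R) • ej j) :=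
      hm.comp (measurable_const.prodMk measurable_id)
    have hb : ∀ s, ‖F ξ - F (ξ + (s / R) • ej j)‖ ≤ 2 * M := by
      intro s
      refine (norm_sub_le _ _).trans ?_
      linarith [hF.bdd ξ, hF.bdd (ξ + (s / R) • ej j)]
    have h1 := cs_int (μ := (volume : Measure ℝ).restrict (Icc (0 : ℝ) 1)) (f := fun _ => (1 : ℝ))
      (g := fun s => ‖F ξ - F (ξ + (s / R) • ej j)‖) (integrable_const _)
      (Integrable.of_bound (hms.norm.pow_const 2).aestronglyMeasurable ((2 * M) ^ 2)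
        (Filter.Eventually.of_forall fun s => by
          rw [Real.norm_of_nonneg (by positivity)]
          exact pow_le_pow_left₀ (norm_nonneg _) (hb s) 2))
      (Integrable.of_bound (hms.norm.const_mul 1).aestronglyMeasurable (2 * M)
        (Filter.Eventually.of_forall fun s => by
          rw [one_mul, norm_norm]; exact hb s))
    simp only [one_mul, one_pow] at h1
    have h2 : ∫ _s in Icc (0 : ℝ) 1, (1 : ℝ) = 1 := by simp
    rw [h2, one_mul] at h1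
    refine le_trans ?_ h1
    apply pow_le_pow_left₀ (norm_nonneg _)
    rw [e1]
    exact norm_integral_le_integral_norm _
  have hAvI : Integrable fun ξ => ‖F ξ - Av j R F ξ‖ ^ 2 :=
    ((hF.mono hK le_rfl).sub (Av_good hR hF j)).sq_integrable
  calc ∫ ξ, ‖F ξ - Av j R F ξ‖ ^ 2
      ≤ ∫ ξ, ∫ s in Icc (0 : ℝ) 1, ‖F ξ - F (ξ + (s / R) • ej j)‖ ^ 2 :=
        integral_mono hAvI hI.integral_prod_left hpt
    _ = ∫ s in Icc (0 : ℝ) 1, ∫ ξ, ‖F ξ - F (ξ + (s / R) • ej j)‖ ^ 2 := by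
        rw [integral_integral_swap]
        exact hI
    _ ≤ ∫ _s in Icc (0 : ℝ) 1, (A * R ^ (-s)) ^ 2 := by
        apply integral_mono_ae hI.integral_prod_right (integrable_const _)
        refine (ae_restrict_iff' measurableSet_Icc).mpr (Filter.Eventually.of_forall fun t ht => ?_)
        simp only
        have ht0 : 0 ≤ t / R := div_nonneg ht.1 hR0.le
        have ht1 : t / R ≤ 1 / R := div_le_div_of_nonneg_right ht.2 hR0.le
        have h1R : 1 / R ≤ 1 := by rw [div_le_one hR0]; exact hR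
        have := h j hj (t / R) ht0 (ht1.trans h1R)
        simp_rw [norm_sub_rev (F _) (F (_ + _))]
        exact this.trans (hA _ ht0 ht1)
    _ = _ := by simp

/-- `F - P_L F` is small in `L²` -/
lemma one_sub_PL {s : ℝ} (hs : 0 ≤ s) (L' : List ι) (L : List ι) (hLL : ∀ j ∈ L, j ∈ L') :
    ∃ c : ℝ, 0 ≤ c ∧ ∀ (K M R A : ℝ), 1 ≤ R → ∀ F : (ι → ℝ) → ℂ, Good K M F → Modu L' s A F →
      ∫ ξ, ‖F ξ - PL L R F ξ‖ ^ 2 ≤ c * (A * R ^ (-s)) ^ 2 := by
  induction L with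
  | nil =>
    refine ⟨0, le_rfl, ?_⟩
    intro K M R A hR F hF hm
    simp
  | cons j L ih =>
    obtain ⟨c, hc0, hc⟩ := ih (fun i hi => hLL i (List.mem_cons_of_mem _ hi))
    refine ⟨2 + 2 * c, by linarith, ?_⟩
    intro K M R A hR F hF hm
    have h1 := hc K M R A hR F hF hm
    have h2 := one_sub_Av hR hs hF hm (hLL j List.mem_cons_self)
    have hP := PL_good hR L hF
    have hn : (0 : ℝ) ≤ L.length := Nat.cast_nonneg _
    have hFP : Good (K + L.length) (M + M) (fun ξ => F ξ - PL L R F ξ) :=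
      (hF.mono (by linarith) le_rfl).sub hP
    have h3 := Av_L2 hR hFP j
    have e : ∀ ξ, F ξ - PL (j :: L) R F ξ = (F ξ - Av j R F ξ) +
        Av j R (fun ξ => F ξ - PL L R F ξ) ξ := by
      intro ξ
      rw [Av_sub hF.meas hF.bdd hP.meas hP.bdd, PL_cons]
      ring
    simp_rw [e]
    have g1 : Good (K + L.length + 1) (M + M) (fun ξ => F ξ - Av j R F ξ) :=
      (hF.mono (by linarith) le_rfl).sub ((Av_good hR hF j).mono (by linarith) le_rfl)
    refine (sq_add_le g1 (Av_good hR hFP j)).trans ?_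
    nlinarith

end Pool.Agent.H.MP_b7167f_an
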