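import Mathlib
import Pool.Agent.H.MP_b7167f_an.SAvg2

/-!
Integration by parts against averages.
-/

namespace Pool.Agent.H.MP_b7167f_an

open MeasureTheory Complex ComplexConjugate Real Set ENNReal

variable {ι : Type*} [Fintype ι] [DecidableEq ι]

/-- abstract integration by parts -/
lemma ibp_abs {K M R : ℝ} (hR : 1 ≤ R) {F : (ι → ℝ) → ℂ} (hF : Good K M F) (j : ι)
    {W DW : (ι → ℝ) → ℂ} (hW : Measurable W) (hDW : Measurable DW) {c : ℝ}
    (hWb : ∀ ξ, ‖W ξ‖ ≤ c) (hDWb : ∀ ξ, ‖DW ξ‖ ≤ c)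
    (hder : ∀ ξ a, HasDerivAt (fun a : ℝ => W (ξ + a • ej j)) (DW (ξ + a • ej j)) a)
    (hcont : ∀ ξ, Continuous fun a : ℝ => DW (ξ + a • ej j)) :
    ∫ ξ, Av j R F ξ * DW ξ = -(R : ℂ) * ∫ ξ, Df j R F ξ * W ξ := by
  have hR0 : 0 < R := by linarith
  have hRC : (R : ℂ) ≠ 0 := by exact_mod_cast hR0.ne'
  have hI1 : Integrable (fun z : (ι → ℝ) × ℝ => F (z.1 + (z.2 / R) • ej j) * DW z.1)
      ((volume : Measure (ι → ℝ)).prod (volume.restrict (Icc (0 : ℝ) 1))) :=
    (prod_shift_integrable hR hF j).mul_bdd (c := c) (hDW.comp measurable_fst).aestronglyMeasurable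
      (Filter.Eventually.of_forall fun z => hDWb _)
  have hmsub : Measurable fun z : (ι → ℝ) × ℝ => DW (z.1 - (z.2 / R) • ej j) := by
    apply hDW.comp
    apply measurable_pi_lambda
    intro i
    simp only [Pi.sub_apply, Pi.smul_apply, smul_eq_mul]
    exact ((measurable_pi_apply i).comp measurable_fst).sub
      ((measurable_snd.div_const R).mul_const _)
  have hI2 : Integrable (fun z : (ι → ℝ) × ℝ => F z.1 * DW (z.1 - (z.2 / R) • ej j))
      ((volume : Measure (ι → ℝ)).prod (volume.restrict (Icc (0 : ℝ) 1))) :=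
    (hF.integrable.comp_fst _).mul_bdd (c := c) hmsub.aestronglyMeasurable
      (Filter.Eventually.of_forall fun z => hDWb _)
  have hstep1 : ∫ ξ, Av j R F ξ * DW ξ =
      ∫ ξ, ∫ s in Icc (0 : ℝ) 1, F (ξ + (s / R) • ej j) * DW ξ := by
    congr 1
    ext ξ
    unfold Av
    rw [← integral_mul_const]
  have hstep2 : ∫ ξ, ∫ s in Icc (0 : ℝ) 1, F (ξ + (s / R) • ej j) * DW ξ =
      ∫ s in Icc (0 : ℝ) 1, ∫ ξ, F (ξ + (s / R) • ej j) * DW ξ := integral_integral_swap hI1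
  have hstep3 : ∀ s : ℝ, ∫ ξ, F (ξ + (s / R) • ej j) * DW ξ =
      ∫ ξ, F ξ * DW (ξ - (s / R) • ej j) := by
    intro s
    rw [← integral_add_right_eq_self (fun ξ => F ξ * DW (ξ - (s / R) • ej j)) ((s / R) • ej j)]
    congr 1
    ext ξ
    rw [add_sub_cancel_right]
  have hstep4 : ∫ s in Icc (0 : ℝ) 1, ∫ ξ, F ξ * DW (ξ - (s / R) • ej j) =
      ∫ ξ, ∫ s in Icc (0 : ℝ) 1, F ξ * DW (ξ - (s / R) • ej j) :=
    (integral_integral_swap hI2).symm
  have hftc : ∀ ξ : ι → ℝ, ∫ s in Icc (0 : ℝ) 1, DW (ξ - (s / R) • ej j) =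
      (R : ℂ) * (W ξ - W (ξ - (1 / R) • ej j)) := by
    intro ξ
    rw [integral_Icc_eq_integral_Ioc, ← intervalIntegral.integral_of_le zero_le_one]
    have hd : ∀ s ∈ uIcc (0 : ℝ) 1, HasDerivAt (fun s : ℝ => -(R : ℂ) * W (ξ - (s / R) • ej j))
        (DW (ξ - (s / R) • ej j)) s := by
      intro s _
      have h1 := hder ξ (-(s / R))
      have h2 : HasDerivAt (fun s : ℝ => -(s / R)) (-(1 / R)) s :=
        ((hasDerivAt_id s).div_const R).neg
      have h3 := h1.scomp s h2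
      have h4 := h3.const_mul (-(R : ℂ))
      have e1 : (fun s : ℝ => -(R : ℂ) * W (ξ - (s / R) • ej j)) =
          (fun s : ℝ => -(R : ℂ) * ((fun a : ℝ => W (ξ + a • ej j)) ∘ fun s => -(s / R)) s) := by
        ext s
        simp only [Function.comp, neg_smul, sub_eq_add_neg]
      rw [e1]
      refine h4.congr_deriv ?_
      have e2 : ξ + -(s / R) • ej j = ξ - (s / R) • ej j := by
        rw [neg_smul, ← sub_eq_add_neg]
      rw [e2, Complex.real_smul]
      push_cast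
      field_simp
    have hc : Continuous fun s : ℝ => DW (ξ - (s / R) • ej j) := by
      have : (fun s : ℝ => DW (ξ - (s / R) • ej j)) =
          (fun a : ℝ => DW (ξ + a • ej j)) ∘ fun s => -(s / R) := by
        ext s
        simp only [Function.comp, neg_smul, sub_eq_add_neg]
      rw [this]
      exact (hcont ξ).comp (by fun_prop)
    rw [intervalIntegral.integral_eq_sub_of_hasDerivAt hd (hc.intervalIntegrable _ _)]
    simp only [zero_div, zero_smul, sub_zero]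
    ring
  have hstep5 : ∀ ξ : ι → ℝ, ∫ s in Icc (0 : ℝ) 1, F ξ * DW (ξ - (s / R) • ej j) =
      (R : ℂ) * (F ξ * W ξ - F ξ * W (ξ - (1 / R) • ej j)) := by
    intro ξ
    rw [integral_const_mul, hftc]
    ring
  have hIa : Integrable fun ξ => F ξ * W ξ :=
    hF.integrable.mul_bdd (c := c) hW.aestronglyMeasurable
      (Filter.Eventually.of_forall fun z => hWb _)
  have hIb : Integrable fun ξ => F ξ * W (ξ - (1 / R) • ej j) :=
    hF.integrable.mul_bdd (c := c) (hW.comp (measurable_id.sub_const _)).aestronglyMeasurable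
      (Filter.Eventually.of_forall fun z => hWb _)
  have hshift : ∫ ξ, F ξ * W (ξ - (1 / R) • ej j) = ∫ ξ, F (ξ + (1 / R) • ej j) * W ξ := by
    rw [← integral_add_right_eq_self (fun ξ => F ξ * W (ξ - (1 / R) • ej j)) ((1 / R) • ej j)]
    congr 1
    ext ξ
    rw [add_sub_cancel_right]
  have hIc : Integrable fun ξ => F (ξ + (1 / R) • ej j) * W ξ :=
    (hF.shift (by positivity) (by rw [div_le_one hR0]; exact hR) j).integrable.mul_bdd (c := c)
      hW.aestronglyMeasurable (Filter.Eventually.of_forall fun z => hWb _)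
  calc ∫ ξ, Av j R F ξ * DW ξ = ∫ s in Icc (0 : ℝ) 1, ∫ ξ, F (ξ + (s / R) • ej j) * DW ξ := by
        rw [hstep1, hstep2]
    _ = ∫ s in Icc (0 : ℝ) 1, ∫ ξ, F ξ * DW (ξ - (s / R) • ej j) := by simp_rw [hstep3]
    _ = ∫ ξ, (R : ℂ) * (F ξ * W ξ - F ξ * W (ξ - (1 / R) • ej j)) := by
        rw [hstep4]; simp_rw [hstep5]
    _ = (R : ℂ) * ((∫ ξ, F ξ * W ξ) - ∫ ξ, F (ξ + (1 / R) • ej j) * W ξ) := by
        rw [integral_const_mul, integral_sub hIa hIb, hshift]
    _ = -(R : ℂ) * ∫ ξ, Df j R F ξ * W ξ := by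
        have e : ∀ ξ, Df j R F ξ * W ξ = F (ξ + (1 / R) • ej j) * W ξ - F ξ * W ξ := by
          intro ξ
          unfold Df
          ring
        simp_rw [e]
        rw [integral_sub hIc hIa]
        ring

lemma ph_hasDerivAt {u : ℝ → ℝ} {u' a : ℝ} (h : HasDerivAt u u' a) :
    HasDerivAt (fun a => ph (u a)) (2 * π * I * u' * ph (u a)) a := by
  unfold ph
  have h1 : HasDerivAt (fun a : ℝ => ((u a : ℝ) : ℂ)) (u' : ℂ) a := h.ofReal_comp
  have h2 : HasDerivAt (fun a : ℝ => 2 * (π : ℂ) * ((u a : ℝ) : ℂ) * I)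
      (2 * π * (u' : ℂ) * I) a := (h1.const_mul (2 * (π : ℂ))).mul_const I
  have h3 := h2.cexp
  refine h3.congr_deriv ?_
  ring

lemma ph2_hasDerivAt (p : (ι → ℝ) × ℝ) (j : ι) (ξ : ι → ℝ) (a : ℝ) :
    HasDerivAt (fun a : ℝ => ph2 p (ξ + a • ej j))
      (2 * π * I * ((p.1 j + 2 * p.2 * (ξ + a • ej j) j : ℝ) : ℂ) * ph2 p (ξ + a • ej j)) a := by
  have key : ∀ a : ℝ, ∑ i, p.1 i * (ξ + a • ej j) i + p.2 * ∑ i, (ξ + a • ej j) i ^ 2 =
      (∑ i, p.1 i * ξ i + p.2 * ∑ i, ξ i ^ 2) + (p.1 j * a + p.2 * (2 * ξ j * a + a ^ 2)) := by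
    intro a
    have e1 : ∑ i, p.1 i * (ξ + a • ej j) i = ∑ i, p.1 i * ξ i + p.1 j * a := by
      simp only [Pi.add_apply, Pi.smul_apply, smul_eq_mul, mul_add, Finset.sum_add_distrib]
      congr 1
      rw [Finset.sum_eq_single j]
      · rw [ej_same, mul_one]
      · intro i _ hi
        rw [ej_ne hi]; ring
      · intro h; exact absurd (Finset.mem_univ j) h
    have e2 : ∑ i, (ξ + a • ej j) i ^ 2 = ∑ i, ξ i ^ 2 + (2 * ξ j * a + a ^ 2) := by
      have e3 : ∀ i, (ξ + a • ej j) i ^ 2 = ξ i ^ 2 + (2 * ξ i * (a * ej j i) + (a * ej j i) ^ 2) := by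
        intro i
        simp only [Pi.add_apply, Pi.smul_apply, smul_eq_mul]
        ring
      simp_rw [e3]
      rw [Finset.sum_add_distrib]
      congr 1
      rw [Finset.sum_eq_single j]
      · rw [ej_same, mul_one]
      · intro i _ hi
        rw [ej_ne hi]; ring
      · intro h; exact absurd (Finset.mem_univ j) h
    rw [e1, e2]
    ring
  have h1 : HasDerivAt (fun a : ℝ => (∑ i, p.1 i * ξ i + p.2 * ∑ i, ξ i ^ 2) +
      (p.1 j * a + p.2 * (2 * ξ j * a + a ^ 2))) (p.1 j + 2 * p.2 * (ξ j + a)) a := by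
    have h2 : HasDerivAt (fun a : ℝ => p.1 j * a + p.2 * (2 * ξ j * a + a ^ 2))
        (p.1 j * 1 + p.2 * (2 * ξ j * 1 + 2 * a)) a := by
      have ha := hasDerivAt_id' a
      have h5 : HasDerivAt (fun a : ℝ => a ^ 2) (2 * a) a := by
        have := hasDerivAt_pow 2 a
        simpa using this
      have h6 : HasDerivAt (fun a : ℝ => 2 * ξ j * a) (2 * ξ j * 1) a := ha.const_mul _
      have h7 : HasDerivAt (fun a : ℝ => 2 * ξ j * a + a ^ 2) (2 * ξ j * 1 + 2 * a) a := h6.add h5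
      have h8 : HasDerivAt (fun a : ℝ => p.2 * (2 * ξ j * a + a ^ 2))
        (p.2 * (2 * ξ j * 1 + 2 * a)) a := h7.const_mul _
      have h9 : HasDerivAt (fun a : ℝ => p.1 j * a) (p.1 j * 1) a := ha.const_mul _
      exact h9.add h8
    refine (h2.const_add _).congr_deriv ?_
    ring
  have h3 := ph_hasDerivAt h1
  have e4 : (fun a : ℝ => ph2 p (ξ + a • ej j)) = fun a => ph ((∑ i, p.1 i * ξ i +
      p.2 * ∑ i, ξ i ^ 2) + (p.1 j * a + p.2 * (2 * ξ j * a + a ^ 2))) := by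
    ext a
    unfold ph2
    rw [key]
  rw [e4]
  refine h3.congr_deriv ?_
  have e5 : ph2 p (ξ + a • ej j) = ph ((∑ i, p.1 i * ξ i +
      p.2 * ∑ i, ξ i ^ 2) + (p.1 j * a + p.2 * (2 * ξ j * a + a ^ 2))) := by
    unfold ph2
    rw [key]
  rw [e5]
  simp

omit [DecidableEq ι] in
lemma continuous_ph2_right (p : (ι → ℝ) × ℝ) : Continuous (ph2 p) := by
  unfold ph2
  fun_prop

omit [DecidableEq ι] in
lemma Mc_ph_integrable {j : ι} {φ : ℝ → ℂ} (hφ : Measurable φ) {c : ℝ} (hb : ∀ v, ‖φ v‖ ≤ c)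
    {G : (ι → ℝ) → ℂ} (hG : Integrable G) (p : (ι → ℝ) × ℝ) :
    Integrable fun ξ => Mc j φ G ξ * ph2 p ξ := by
  have hphm : Measurable fun ξ : ι → ℝ => ph2 p ξ := measurable_ph2 measurable_const measurable_id
  have h1 : Integrable fun ξ => G ξ * φ (ξ j) :=
    hG.mul_bdd (c := c) (hφ.comp (measurable_pi_apply j)).aestronglyMeasurable
      (Filter.Eventually.of_forall fun ξ => hb _)
  have h2 : Integrable fun ξ => G ξ * φ (ξ j) * ph2 p ξ :=
    h1.mul_bdd (c := 1) hphm.aestronglyMeasurable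
      (Filter.Eventually.of_forall fun ξ => by rw [norm_ph2])
  refine h2.congr (Filter.Eventually.of_forall fun ξ => ?_)
  simp only
  unfold Mc
  ring

/-- integration by parts for the extension operator -/
lemma ibp_EI {K M R : ℝ} (hR : 1 ≤ R) {F : (ι → ℝ) → ℂ} (hF : Good K M F) (j : ι)
    {ψ ψ' : ℝ → ℂ} (hd : ∀ v, HasDerivAt ψ (ψ' v) v) (hψ' : Continuous ψ')
    {D c : ℝ} (hsupp : ∀ v, D < |v| → ψ v = 0) (hb : ∀ v, ‖ψ v‖ ≤ c) (hb' : ∀ v, ‖ψ' v‖ ≤ c)
    (p : (ι → ℝ) × ℝ) (e : ℝ) :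
    2 * π * I * ((p.1 j + 2 * p.2 * e : ℝ) : ℂ) * EI (Mc j ψ (Av j R F)) p =
      -(R : ℂ) * EI (Mc j ψ (Df j R F)) p - EI (Mc j ψ' (Av j R F)) p -
        2 * π * I * (2 * p.2 : ℝ) * EI (Mc j (fun v => ((v - e : ℝ) : ℂ) * ψ v) (Av j R F)) p := by
  have hψc : Continuous ψ := continuous_iff_continuousAt.mpr fun v => (hd v).continuousAt
  have hψm : Measurable ψ := hψc.measurable
  have hψ'm : Measurable ψ' := hψ'.measurable
  have hc0 : 0 ≤ c := (norm_nonneg _).trans (hb 0)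
  set W : (ι → ℝ) → ℂ := fun ξ => ψ (ξ j) * ph2 p ξ with hWdef
  set DW : (ι → ℝ) → ℂ := fun ξ => ψ' (ξ j) * ph2 p ξ +
    ψ (ξ j) * (2 * π * I * ((p.1 j + 2 * p.2 * ξ j : ℝ) : ℂ) * ph2 p ξ) with hDWdef
  have hphm : Measurable fun ξ : ι → ℝ => ph2 p ξ := measurable_ph2 measurable_const measurable_id
  have hWm : Measurable W := (hψm.comp (measurable_pi_apply j)).mul hphm
  have hlin : Measurable fun ξ : ι → ℝ => ((p.1 j + 2 * p.2 * ξ j : ℝ) : ℂ) := by
    apply Complex.measurable_ofReal.comp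
    fun_prop
  have hDWm : Measurable DW := by
    apply Measurable.add
    · exact (hψ'm.comp (measurable_pi_apply j)).mul hphm
    · exact (hψm.comp (measurable_pi_apply j)).mul ((hlin.const_mul _).mul hphm)
  have hWb : ∀ ξ, ‖W ξ‖ ≤ c := by
    intro ξ
    rw [hWdef]
    simp only
    rw [norm_mul, norm_ph2, mul_one]
    exact hb _
  have hlinb : ∀ ξ : ι → ℝ, ‖ψ (ξ j) * (2 * π * I * ((p.1 j + 2 * p.2 * ξ j : ℝ) : ℂ) * ph2 p ξ)‖ ≤
      c * (2 * π * (|p.1 j| + 2 * |p.2| * |D|)) := by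
    intro ξ
    by_cases hD : D < |ξ j|
    · rw [hsupp _ hD, zero_mul, norm_zero]
      positivity
    · rw [norm_mul, norm_mul, norm_ph2, mul_one, norm_mul, norm_mul, Complex.norm_real, norm_mul,
        Complex.norm_I, Complex.norm_real]
      apply mul_le_mul (hb _) _ (by positivity) hc0
      rw [Complex.norm_ofNat, mul_one, Real.norm_of_nonneg Real.pi_pos.le]
      apply mul_le_mul_of_nonneg_left _ (by positivity)
      rw [Real.norm_eq_abs]
      refine (abs_add_le _ _).trans ?_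
      rw [abs_mul, abs_mul, abs_of_pos (by norm_num : (0 : ℝ) < 2)]
      have h1 : |ξ j| ≤ |D| := (not_lt.mp hD).trans (le_abs_self D)
      gcongr
  set c' : ℝ := c + c * (2 * π * (|p.1 j| + 2 * |p.2| * |D|)) with hc'
  have hcc : c ≤ c' := by
    rw [hc']
    have : 0 ≤ c * (2 * π * (|p.1 j| + 2 * |p.2| * |D|)) := by positivity
    linarith
  have hDWb : ∀ ξ, ‖DW ξ‖ ≤ c' := by
    intro ξ
    have h1 : ‖ψ' (ξ j) * ph2 p ξ‖ ≤ c := by
      rw [norm_mul, norm_ph2, mul_one]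
      exact hb' _
    have h2 := hlinb ξ
    have h3 : ‖DW ξ‖ ≤ ‖ψ' (ξ j) * ph2 p ξ‖ +
        ‖ψ (ξ j) * (2 * π * I * ((p.1 j + 2 * p.2 * ξ j : ℝ) : ℂ) * ph2 p ξ)‖ :=
      norm_add_le _ _
    rw [hc']
    linarith
  have hder : ∀ ξ a, HasDerivAt (fun a : ℝ => W (ξ + a • ej j)) (DW (ξ + a • ej j)) a := by
    intro ξ a
    have h1 := ph2_hasDerivAt p j ξ a
    have h2 : HasDerivAt (fun a : ℝ => ψ ((ξ + a • ej j) j)) (ψ' ((ξ + a • ej j) j)) a := by
      have h3 : HasDerivAt (fun a : ℝ => (ξ + a • ej j) j) 1 a := by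
        have : (fun a : ℝ => (ξ + a • ej j) j) = fun a => ξ j + a := by
          ext a; simp
        rw [this]
        exact (hasDerivAt_id a).const_add _
      have h4 := (hd ((ξ + a • ej j) j)).scomp a h3
      rw [one_smul] at h4
      exact h4
    exact h2.mul h1
  have hlinc : ∀ ξ : ι → ℝ, Continuous fun a : ℝ => (ξ + a • ej j : ι → ℝ) := by
    intro ξ
    fun_prop
  have hcont : ∀ ξ, Continuous fun a : ℝ => DW (ξ + a • ej j) := by
    intro ξ
    have hj : Continuous fun a : ℝ => (ξ + a • ej j : ι → ℝ) j := (continuous_apply j).comp (hlinc ξ)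
    have hph : Continuous fun a : ℝ => ph2 p (ξ + a • ej j) :=
      (continuous_ph2_right p).comp (hlinc ξ)
    have hl : Continuous fun a : ℝ => ((p.1 j + 2 * p.2 * (ξ + a • ej j : ι → ℝ) j : ℝ) : ℂ) :=
      Complex.continuous_ofReal.comp (continuous_const.add (continuous_const.mul hj))
    exact ((hψ'.comp hj).mul hph).add ((hψc.comp hj).mul ((continuous_const.mul hl).mul hph))
  have hmain := ibp_abs hR hF j hWm hDWm (c := c') (fun ξ => (hWb ξ).trans hcc) hDWb hder hcont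
  -- rewrite the two sides
  have hA := Av_good hR hF j
  have hr : ∫ ξ, Df j R F ξ * W ξ = EI (Mc j ψ (Df j R F)) p := by
    unfold EI Mc
    congr 1
    ext ξ
    rw [hWdef]
    ring
  have hI1 : Integrable fun ξ => Mc j ψ' (Av j R F) ξ * ph2 p ξ :=
    Mc_ph_integrable hψ'm hb' hA.integrable p
  have hI2 : Integrable fun ξ => Mc j ψ (Av j R F) ξ * ph2 p ξ :=
    Mc_ph_integrable hψm hb hA.integrable p
  have hlm : Measurable fun v : ℝ => ((v - e : ℝ) : ℂ) * ψ v := by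
    apply Measurable.mul _ hψm
    apply Complex.measurable_ofReal.comp
    fun_prop
  have hlb : ∀ v : ℝ, ‖((v - e : ℝ) : ℂ) * ψ v‖ ≤ (|D| + |e|) * c := by
    intro v
    by_cases hD : D < |v|
    · rw [hsupp _ hD, mul_zero, norm_zero]; positivity
    · rw [norm_mul, Complex.norm_real, Real.norm_eq_abs]
      apply mul_le_mul _ (hb _) (norm_nonneg _) (by positivity)
      refine (abs_sub _ _).trans ?_
      have h1 : |v| ≤ |D| := (not_lt.mp hD).trans (le_abs_self D)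
      linarith
  have hI3 : Integrable fun ξ => Mc j (fun v => ((v - e : ℝ) : ℂ) * ψ v) (Av j R F) ξ * ph2 p ξ :=
    Mc_ph_integrable hlm hlb hA.integrable p
  have hl : ∫ ξ, Av j R F ξ * DW ξ = EI (Mc j ψ' (Av j R F)) p +
      2 * π * I * ((p.1 j + 2 * p.2 * e : ℝ) : ℂ) * EI (Mc j ψ (Av j R F)) p +
      2 * π * I * (2 * p.2 : ℝ) * EI (Mc j (fun v => ((v - e : ℝ) : ℂ) * ψ v) (Av j R F)) p := by
    unfold EI
    have hI12 : Integrable fun ξ => Mc j ψ' (Av j R F) ξ * ph2 p ξ +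
        2 * π * I * ((p.1 j + 2 * p.2 * e : ℝ) : ℂ) * (Mc j ψ (Av j R F) ξ * ph2 p ξ) :=
      hI1.add (hI2.const_mul _)
    rw [← integral_const_mul, ← integral_const_mul, ← integral_add hI1 (hI2.const_mul _),
      ← integral_add hI12 (hI3.const_mul _)]
    congr 1
    ext ξ
    rw [hDWdef]
    unfold Mc
    simp only
    push_cast
    ring
  rw [hl, hr] at hmain
  linear_combination hmain

end Pool.Agent.H.MP_b7167f_an
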