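import Mathlib
import Pool.Agent.H.MP_b7167f_an.IBP

/-!
Cell decomposition: bump functions and one-cell estimate.
-/

namespace Pool.Agent.H.MP_b7167f_an

open MeasureTheory Complex ComplexConjugate Real Set ENNReal

/-- bump function supported in `[0,2]` -/
noncomputable def Bp (v : ℝ) : ℝ := Real.smoothTransition v - Real.smoothTransition (v - 1)

/-- derivative of the bump function -/
noncomputable def Bd (v : ℝ) : ℝ :=
  deriv Real.smoothTransition v - deriv Real.smoothTransition (v - 1)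

lemma st_hasDerivAt (v : ℝ) :
    HasDerivAt Real.smoothTransition (deriv Real.smoothTransition v) v :=
  ((Real.smoothTransition.contDiff (n := 1)).differentiable (by norm_num) v).hasDerivAt

lemma st_deriv_continuous : Continuous (deriv Real.smoothTransition) :=
  (Real.smoothTransition.contDiff (n := 1)).continuous_deriv (by norm_num)

lemma Bp_hasDerivAt (v : ℝ) : HasDerivAt Bp (Bd v) v := by
  have h1 := st_hasDerivAt v
  have h2 := st_hasDerivAt (v - 1)
  have h3 : HasDerivAt (fun v : ℝ => v - 1) 1 v := (hasDerivAt_id v).sub_const 1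
  have h4 := h2.comp v h3
  rw [mul_one] at h4
  exact h1.sub h4

lemma Bd_continuous : Continuous Bd :=
  st_deriv_continuous.sub (st_deriv_continuous.comp (continuous_id.sub continuous_const))

lemma Bp_continuous : Continuous Bp :=
  continuous_iff_continuousAt.mpr fun v => (Bp_hasDerivAt v).continuousAt

lemma Bp_zero {v : ℝ} (h : v ∉ Icc (0 : ℝ) 2) : Bp v = 0 := by
  unfold Bp
  rw [mem_Icc, not_and_or, not_le, not_le] at h
  rcases h with h | h
  · rw [Real.smoothTransition.zero_of_nonpos h.le, Real.smoothTransition.zero_of_nonpos (by linarith),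
      sub_zero]
  · rw [Real.smoothTransition.one_of_one_le (by linarith),
      Real.smoothTransition.one_of_one_le (by linarith), sub_self]

lemma Bp_abs (v : ℝ) : |Bp v| ≤ 1 := by
  unfold Bp
  have h1 := Real.smoothTransition.nonneg v
  have h2 := Real.smoothTransition.le_one v
  have h3 := Real.smoothTransition.nonneg (v - 1)
  have h4 := Real.smoothTransition.le_one (v - 1)
  rw [abs_le]
  constructor <;> linarith

lemma Bd_zero {v : ℝ} (h : v ∉ Icc (0 : ℝ) 2) : Bd v = 0 := by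
  have h1 : ∀ᶠ w in nhds v, w ∉ Icc (0 : ℝ) 2 := isClosed_Icc.isOpen_compl.mem_nhds h
  have h2 : HasDerivAt Bp 0 v :=
    (hasDerivAt_const v (0 : ℝ)).congr_of_eventuallyEq (h1.mono fun w hw => Bp_zero hw)
  exact (Bp_hasDerivAt v).unique h2

lemma Bd_bdd : ∃ c : ℝ, 1 ≤ c ∧ ∀ v, |Bd v| ≤ c := by
  obtain ⟨c, hc⟩ := (isCompact_Icc (a := (0 : ℝ)) (b := 2)).exists_bound_of_continuousOn
    Bd_continuous.continuousOn
  refine ⟨max c 1, le_max_right _ _, ?_⟩
  intro v
  by_cases h : v ∈ Icc (0 : ℝ) 2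
  · exact (hc v h).trans (le_max_left _ _)
  · rw [Bd_zero h, abs_zero]
    exact zero_le_one.trans (le_max_right _ _)

/-- bound for the derivative of the bump function -/
noncomputable def cH : ℝ := Classical.choose Bd_bdd

lemma one_le_cH : 1 ≤ cH := (Classical.choose_spec Bd_bdd).1

lemma Bd_abs (v : ℝ) : |Bd v| ≤ cH := (Classical.choose_spec Bd_bdd).2 v

/-- the normalised cut-off functions -/
noncomputable def Pb (b : Fin 4) (v : ℝ) : ℝ :=
  if b = 2 then Bd v / cH else if b = 3 then v / 2 * Bp v else Bp v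

lemma Pb_continuous (b : Fin 4) : Continuous (Pb b) := by
  have h1 := Bp_continuous
  have h2 := Bd_continuous
  unfold Pb
  split_ifs
  · exact h2.div_const _
  · exact (continuous_id.div_const _).mul h1
  · exact h1

lemma Pb_zero (b : Fin 4) {v : ℝ} (h : v ∉ Icc (0 : ℝ) 2) : Pb b v = 0 := by
  unfold Pb
  rw [Bp_zero h, Bd_zero h]
  simp

lemma Pb_abs (b : Fin 4) (v : ℝ) : |Pb b v| ≤ 1 := by
  by_cases h : v ∈ Icc (0 : ℝ) 2
  · unfold Pb
    split_ifs
    · have hc : 0 < cH := by linarith [one_le_cH]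
      rw [abs_div, abs_of_pos hc, div_le_one hc]
      exact Bd_abs v
    · rw [abs_mul]
      have h1 : |v / 2| ≤ 1 := by
        rw [abs_of_nonneg (by linarith [h.1])]
        linarith [h.2]
      calc |v / 2| * |Bp v| ≤ 1 * 1 := mul_le_mul h1 (Bp_abs v) (abs_nonneg _) zero_le_one
        _ = 1 := one_mul 1
    · exact Bp_abs v
  · rw [Pb_zero b h, abs_zero]; exact zero_le_one

/-- complex valued cut-off function centred at the cell with index `e` and width `ρ` -/
noncomputable def Pc (b : Fin 4) (ρ e v : ℝ) : ℂ := ((Pb b (v / ρ - e) : ℝ) : ℂ)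

lemma Pc_meas (b : Fin 4) (ρ e : ℝ) : Measurable (Pc b ρ e) := by
  unfold Pc
  apply Complex.measurable_ofReal.comp
  apply (Pb_continuous b).measurable.comp
  fun_prop

lemma Pc_norm (b : Fin 4) (ρ e v : ℝ) : ‖Pc b ρ e v‖ ≤ 1 := by
  unfold Pc
  rw [Complex.norm_real, Real.norm_eq_abs]
  exact Pb_abs b _

lemma Pc_ne_zero {b : Fin 4} {ρ e v : ℝ} (hρ : 0 < ρ) (h : Pc b ρ e v ≠ 0) :
    |v - (e + 1) * ρ| ≤ ρ := by
  have h1 : v / ρ - e ∈ Icc (0 : ℝ) 2 := by
    by_contra hc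
    apply h
    unfold Pc
    rw [Pb_zero b hc]
    simp
  have e1 : v - (e + 1) * ρ = (v / ρ - e - 1) * ρ := by field_simp; ring
  rw [e1, abs_mul, abs_of_pos hρ]
  have : |v / ρ - e - 1| ≤ 1 := by
    rw [abs_le]
    constructor <;> linarith [h1.1, h1.2]
  nlinarith

variable {ι : Type*} [Fintype ι] [DecidableEq ι]

/-- localised average or difference -/
noncomputable def PU (j : ι) (R ρ e : ℝ) (b : Fin 4) (F : (ι → ℝ) → ℂ) : (ι → ℝ) → ℂ :=
  Mc j (Pc b ρ e) (if b = 1 then Df j R F else Av j R F)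

omit [DecidableEq ι] in
lemma EI_const_mul (c : ℂ) (g : (ι → ℝ) → ℂ) (p : (ι → ℝ) × ℝ) :
    EI (fun ξ => c * g ξ) p = c * EI g p := by
  unfold EI
  rw [← integral_const_mul]
  congr 1
  ext ξ
  ring

lemma one_cell {K M R ρ T : ℝ} (hR : 1 ≤ R) (hρ : 0 < ρ) (hρR : 1 ≤ ρ * R) (hT : ρ * T = R)
    {F : (ι → ℝ) → ℂ} (hF : Good K M F) (j : ι) (p : (ι → ℝ) × ℝ) (ht : |p.2| ≤ 2 * T) (e : ℝ) :
    (1 + |p.1 j / R + (2 * p.2 * ρ / R) * e|) * ‖EI (PU j R ρ e 0 F) p‖ ≤
      (8 + cH) * ∑ b : Fin 4, ‖EI (PU j R ρ e b F) p‖ := by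
  have hR0 : 0 < R := by linarith
  have hcH := one_le_cH
  have hcH0 : 0 < cH := by linarith
  -- the cut-off function and its derivative
  set ψ : ℝ → ℂ := fun v => ((Bp (v / ρ - e) : ℝ) : ℂ) with hψ
  set ψ' : ℝ → ℂ := fun v => ((Bd (v / ρ - e) / ρ : ℝ) : ℂ) with hψ'
  have hd : ∀ v, HasDerivAt ψ (ψ' v) v := by
    intro v
    have h1 : HasDerivAt (fun v : ℝ => v / ρ - e) (1 / ρ) v :=
      ((hasDerivAt_id v).div_const ρ).sub_const e
    have h2 := (Bp_hasDerivAt (v / ρ - e)).comp v h1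
    have h3 := h2.ofReal_comp
    refine h3.congr_deriv ?_
    rw [hψ']
    push_cast
    ring
  have hψ'c : Continuous ψ' := by
    apply Complex.continuous_ofReal.comp
    exact (Bd_continuous.comp (by fun_prop)).div_const _
  have hsupp : ∀ v, |ρ| * (|e| + 2) < |v| → ψ v = 0 := by
    intro v hv
    rw [hψ]
    simp only
    rw [Bp_zero, Complex.ofReal_zero]
    intro h
    rw [abs_of_pos hρ] at hv
    have h1 : |v / ρ| ≤ |e| + 2 := by
      have : v / ρ = (v / ρ - e) + e := by ring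
      rw [this]
      refine (abs_add_le _ _).trans ?_
      have : |v / ρ - e| ≤ 2 := by
        rw [abs_of_nonneg h.1]; exact h.2
      linarith
    rw [abs_div, abs_of_pos hρ, div_le_iff₀ hρ] at h1
    linarith
  have hb : ∀ v, ‖ψ v‖ ≤ 1 + cH / ρ := by
    intro v
    rw [hψ]
    simp only
    rw [Complex.norm_real, Real.norm_eq_abs]
    have : 0 < cH / ρ := by positivity
    linarith [Bp_abs (v / ρ - e)]
  have hb' : ∀ v, ‖ψ' v‖ ≤ 1 + cH / ρ := by
    intro v
    rw [hψ']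
    simp only
    rw [Complex.norm_real, Real.norm_eq_abs, abs_div, abs_of_pos hρ]
    have : |Bd (v / ρ - e)| / ρ ≤ cH / ρ := div_le_div_of_nonneg_right (Bd_abs _) hρ.le
    linarith
  have hmain := ibp_EI hR hF j hd hψ'c hsupp hb hb' p (e * ρ)
  -- identify the terms
  have e0 : Mc j ψ (Av j R F) = PU j R ρ e 0 F := by
    unfold PU
    simp only [Fin.isValue, zero_ne_one, if_false]
    congr 1
  have e1 : Mc j ψ (Df j R F) = PU j R ρ e 1 F := by
    unfold PU
    simp only [Fin.isValue, if_true]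
    congr 1
  have e2 : EI (Mc j ψ' (Av j R F)) p = ((cH / ρ : ℝ) : ℂ) * EI (PU j R ρ e 2 F) p := by
    rw [← EI_const_mul]
    congr 1
    ext ξ
    unfold PU Mc Pc Pb
    rw [hψ']
    simp only [Fin.isValue, if_true]
    rw [if_neg (by decide)]
    rw [← mul_assoc, ← Complex.ofReal_mul]
    congr 2
    field_simp
  have e3 : EI (Mc j (fun v => ((v - e * ρ : ℝ) : ℂ) * ψ v) (Av j R F)) p =
      ((2 * ρ : ℝ) : ℂ) * EI (PU j R ρ e 3 F) p := by
    rw [← EI_const_mul]
    congr 1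
    ext ξ
    unfold PU Mc Pc Pb
    rw [hψ]
    simp only [Fin.isValue, if_true]
    rw [if_neg (by decide), if_neg (by decide)]
    rw [← mul_assoc, ← Complex.ofReal_mul, ← Complex.ofReal_mul]
    congr 2
    field_simp
  rw [e0, e1, e2, e3] at hmain
  set E0 := EI (PU j R ρ e 0 F) p with hE0
  set E1 := EI (PU j R ρ e 1 F) p with hE1
  set E2 := EI (PU j R ρ e 2 F) p with hE2
  set E3 := EI (PU j R ρ e 3 F) p with hE3
  have hn : 2 * π * |p.1 j + 2 * p.2 * (e * ρ)| * ‖E0‖ ≤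
      R * ‖E1‖ + (cH / ρ) * ‖E2‖ + 2 * π * (2 * |p.2|) * (2 * ρ * ‖E3‖) := by
    have hl : ‖2 * π * I * ((p.1 j + 2 * p.2 * (e * ρ) : ℝ) : ℂ) * E0‖ =
        2 * π * |p.1 j + 2 * p.2 * (e * ρ)| * ‖E0‖ := by
      rw [norm_mul, norm_mul, norm_mul, norm_mul, Complex.norm_I, Complex.norm_real,
        Complex.norm_real, Complex.norm_ofNat, Real.norm_of_nonneg Real.pi_pos.le, mul_one,
        Real.norm_eq_abs]
    rw [← hl, hmain]
    refine (norm_sub_le _ _).trans (add_le_add ((norm_sub_le _ _).trans (add_le_add ?_ ?_)) ?_)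
    · rw [norm_mul, norm_neg, Complex.norm_real, Real.norm_of_nonneg hR0.le]
    · rw [norm_mul, Complex.norm_real, Real.norm_of_nonneg (by positivity)]
    · rw [norm_mul, norm_mul, norm_mul, norm_mul, norm_mul, Complex.norm_I, Complex.norm_real,
        Complex.norm_real, Complex.norm_real, Complex.norm_ofNat,
        Real.norm_of_nonneg Real.pi_pos.le, mul_one, Real.norm_eq_abs,
        Real.norm_of_nonneg (by positivity : (0 : ℝ) ≤ 2 * ρ), abs_mul,
        abs_of_pos (by norm_num : (0 : ℝ) < 2)]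
  rw [Fin.sum_univ_four]
  -- divide by R
  have hdiv : |p.1 j / R + (2 * p.2 * ρ / R) * e| = |p.1 j + 2 * p.2 * (e * ρ)| / R := by
    rw [← abs_of_pos hR0, ← abs_div, abs_of_pos hR0]
    congr 1
    field_simp
  rw [hdiv]
  have hpi := Real.pi_gt_three
  have h2 : |p.1 j + 2 * p.2 * (e * ρ)| * ‖E0‖ ≤ R * (‖E1‖ + cH * ‖E2‖ + 8 * ‖E3‖) := by
    have a1 : 0 ≤ ‖E1‖ := norm_nonneg _
    have a2 : 0 ≤ ‖E2‖ := norm_nonneg _
    have a3 : 0 ≤ ‖E3‖ := norm_nonneg _
    have b1 : R * ‖E1‖ ≤ 2 * π * (R * ‖E1‖) := by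
      have : 0 ≤ R * ‖E1‖ := by positivity
      nlinarith
    have b2 : (cH / ρ) * ‖E2‖ ≤ 2 * π * (R * (cH * ‖E2‖)) := by
      have h3 : cH / ρ ≤ cH * R := by
        rw [div_le_iff₀ hρ]
        have : cH * 1 ≤ cH * (ρ * R) := mul_le_mul_of_nonneg_left hρR hcH0.le
        linarith
      have h4 : (cH / ρ) * ‖E2‖ ≤ cH * R * ‖E2‖ := mul_le_mul_of_nonneg_right h3 a2
      have h5 : 0 ≤ cH * R * ‖E2‖ := by positivity
      nlinarith
    have b3 : 2 * π * (2 * |p.2|) * (2 * ρ * ‖E3‖) ≤ 2 * π * (R * (8 * ‖E3‖)) := by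
      have h3 : |p.2| * ρ ≤ 2 * R := by
        rw [← hT]
        nlinarith
      have h4 : |p.2| * ρ * ‖E3‖ ≤ 2 * R * ‖E3‖ := mul_le_mul_of_nonneg_right h3 a3
      have h5 : 2 * π * (2 * |p.2|) * (2 * ρ * ‖E3‖) = 2 * π * 4 * (|p.2| * ρ * ‖E3‖) := by ring
      rw [h5]
      have h6 : 2 * π * (R * (8 * ‖E3‖)) = 2 * π * 4 * (2 * R * ‖E3‖) := by ring
      rw [h6]
      exact mul_le_mul_of_nonneg_left h4 (by positivity)
    have b4 : 2 * π * (|p.1 j + 2 * p.2 * (e * ρ)| * ‖E0‖) ≤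
        2 * π * (R * (‖E1‖ + cH * ‖E2‖ + 8 * ‖E3‖)) := by
      have : 2 * π * (|p.1 j + 2 * p.2 * (e * ρ)| * ‖E0‖) =
        2 * π * |p.1 j + 2 * p.2 * (e * ρ)| * ‖E0‖ := by ring
      rw [this]
      refine hn.trans ?_
      nlinarith
    exact le_of_mul_le_mul_left b4 (by positivity)
  have h3 : |p.1 j + 2 * p.2 * (e * ρ)| / R * ‖E0‖ ≤ ‖E1‖ + cH * ‖E2‖ + 8 * ‖E3‖ := by
    rw [div_mul_eq_mul_div, div_le_iff₀ hR0]
    linarith
  have a0 : 0 ≤ ‖E0‖ := norm_nonneg _
  have a1 : 0 ≤ ‖E1‖ := norm_nonneg _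
  have a2 : 0 ≤ ‖E2‖ := norm_nonneg _
  have a3 : 0 ≤ ‖E3‖ := norm_nonneg _
  nlinarith

end Pool.Agent.H.MP_b7167f_an
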