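import Mathlib
import Pool.Agent.H.MP_b7167f_an.SC

/-!
Cell decomposition: summation over the cells.
-/

namespace Pool.Agent.H.MP_b7167f_an

open MeasureTheory Complex ComplexConjugate Real Set ENNReal

/-- partition of unity -/
lemma Bp_sum (N : ℕ) {v : ℝ} (h1 : 1 - (N : ℝ) ≤ v) (h2 : v ≤ (N : ℝ) + 1) :
    ∑ l ∈ Finset.range (2 * N + 1), Bp (v - ((l : ℝ) - N)) = 1 := by
  have e : ∀ l : ℕ, Bp (v - ((l : ℝ) - N)) =
      (fun l : ℕ => Real.smoothTransition (v - l + N)) l -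
        (fun l : ℕ => Real.smoothTransition (v - l + N)) (l + 1) := by
    intro l
    unfold Bp
    simp only
    push_cast
    congr 2 <;> ring
  simp_rw [e]
  rw [Finset.sum_range_sub']
  rw [Real.smoothTransition.one_of_one_le, Real.smoothTransition.zero_of_nonpos, sub_zero]
  · push_cast; linarith
  · push_cast; linarith

/-- the weights of the cells are summable -/
lemma weight_sum {r : ℝ} (hr : 1 < r) : ∃ S : ℝ, 0 < S ∧ ∀ (a b : ℝ), 1 ≤ |b| → ∀ (L : ℕ) (N : ℝ),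
    ∑ l ∈ Finset.range L, (1 + |a + b * ((l : ℝ) - N)|) ^ (-r) ≤ S := by
  have hsum : Summable fun k : ℤ => (1 + |(k : ℝ)|) ^ (-r) := by
    have h1 : Summable fun k : ℤ => |(k : ℝ)| ^ (-r) := Real.summable_abs_int_rpow hr
    have h2 : Summable fun k : ℤ => if k = 0 then (1 : ℝ) else 0 := by
      apply summable_of_hasFiniteSupport
      apply (Set.finite_singleton (0 : ℤ)).subset
      intro k hk
      by_contra h
      exact hk (if_neg h)
    refine Summable.of_nonneg_of_le (fun k => Real.rpow_nonneg (by positivity) _) (fun k => ?_)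
      (h1.add h2)
    by_cases hk : k = 0
    · subst hk
      rw [if_pos rfl]
      have : (0 : ℝ) ≤ |((0 : ℤ) : ℝ)| ^ (-r) := Real.rpow_nonneg (abs_nonneg _) _
      simp only [Int.cast_zero, abs_zero, add_zero, Real.one_rpow] at this ⊢
      linarith
    · rw [if_neg hk, add_zero]
      have hk0 : 0 < |(k : ℝ)| := by
        rw [abs_pos]
        exact_mod_cast hk
      exact Real.rpow_le_rpow_of_nonpos hk0 (by linarith) (by linarith)
  refine ⟨2 ^ r * (∑' k : ℤ, (1 + |(k : ℝ)|) ^ (-r)) + 1, ?_, ?_⟩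
  · have : 0 ≤ ∑' k : ℤ, (1 + |(k : ℝ)|) ^ (-r) :=
      tsum_nonneg fun k => Real.rpow_nonneg (by positivity) _
    positivity
  intro a b hb L N
  set φ : ℕ → ℤ := fun l => ⌊a + b * ((l : ℝ) - N)⌋ with hφ
  have hinj : Function.Injective φ := by
    intro l l' h
    by_contra hne
    have h1 : |(a + b * ((l : ℝ) - N)) - (a + b * ((l' : ℝ) - N))| < 1 :=
      Int.abs_sub_lt_one_of_floor_eq_floor h
    have h2 : (a + b * ((l : ℝ) - N)) - (a + b * ((l' : ℝ) - N)) = b * ((l : ℝ) - l') := by ring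
    rw [h2, abs_mul] at h1
    have h3 : (1 : ℝ) ≤ |(l : ℝ) - l'| := by
      have h4 : (1 : ℤ) ≤ |(l : ℤ) - l'| := by
        apply Int.one_le_abs
        intro h5
        apply hne
        omega
      have : ((1 : ℤ) : ℝ) ≤ ((|(l : ℤ) - l'| : ℤ) : ℝ) := by exact_mod_cast h4
      rw [Int.cast_abs] at this
      push_cast at this
      exact this
    nlinarith [abs_nonneg b]
  have hterm : ∀ l : ℕ, (1 + |a + b * ((l : ℝ) - N)|) ^ (-r) ≤
      2 ^ r * (1 + |((φ l : ℤ) : ℝ)|) ^ (-r) := by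
    intro l
    set x := a + b * ((l : ℝ) - N) with hx
    have h1 : |((φ l : ℤ) : ℝ)| ≤ |x| + 1 := by
      have h2 := Int.floor_le x
      have h3 := Int.lt_floor_add_one x
      have h4 : |((φ l : ℤ) : ℝ) - x| ≤ 1 := by
        rw [abs_le]
        rw [hφ]
        constructor <;> simp only <;> linarith
      calc |((φ l : ℤ) : ℝ)| = |x + (((φ l : ℤ) : ℝ) - x)| := by congr 1; ring
        _ ≤ |x| + |((φ l : ℤ) : ℝ) - x| := abs_add_le _ _
        _ ≤ |x| + 1 := by linarith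
    have h5 : 1 + |((φ l : ℤ) : ℝ)| ≤ 2 * (1 + |x|) := by linarith [abs_nonneg x]
    have h6 : (2 * (1 + |x|)) ^ (-r) ≤ (1 + |((φ l : ℤ) : ℝ)|) ^ (-r) :=
      Real.rpow_le_rpow_of_nonpos (by positivity) h5 (by linarith)
    rw [Real.mul_rpow (by norm_num) (by positivity), Real.rpow_neg (by norm_num)] at h6
    have h7 : (0 : ℝ) < 2 ^ r := by positivity
    calc (1 + |x|) ^ (-r) = 2 ^ r * ((2 ^ r)⁻¹ * (1 + |x|) ^ (-r)) := by
          rw [← mul_assoc, mul_inv_cancel₀ h7.ne', one_mul]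
      _ ≤ _ := mul_le_mul_of_nonneg_left h6 h7.le
  calc ∑ l ∈ Finset.range L, (1 + |a + b * ((l : ℝ) - N)|) ^ (-r)
      ≤ ∑ l ∈ Finset.range L, 2 ^ r * (1 + |((φ l : ℤ) : ℝ)|) ^ (-r) :=
        Finset.sum_le_sum fun l _ => hterm l
    _ = 2 ^ r * ∑ k ∈ (Finset.range L).map ⟨φ, hinj⟩, (1 + |(k : ℝ)|) ^ (-r) := by
        rw [← Finset.mul_sum, Finset.sum_map]
        rfl
    _ ≤ 2 ^ r * ∑' k : ℤ, (1 + |(k : ℝ)|) ^ (-r) := by
        apply mul_le_mul_of_nonneg_left _ (by positivity)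
        exact hsum.sum_le_tsum _ (fun k _ => Real.rpow_nonneg (by positivity) _)
    _ ≤ _ := by linarith

/-- weighted Hölder inequality -/
lemma holder_weights {q : ℝ} (hq : 1 < q) {S : ℝ} (hS : 0 < S) {L : ℕ} {w z : ℕ → ℝ}
    (hw : ∀ l, 0 < w l) (hz : ∀ l, 0 ≤ z l)
    (hsum : ∑ l ∈ Finset.range L, w l ^ (-(q / (q - 1))) ≤ S) :
    (∑ l ∈ Finset.range L, z l) ^ q ≤ S ^ (q - 1) * ∑ l ∈ Finset.range L, (w l * z l) ^ q := by
  have hq0 : 0 < q := by linarith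
  have hq1 : 0 < q - 1 := by linarith
  have hpq : (q / (q - 1)).HolderConjugate q := (Real.HolderConjugate.conjExponent hq).symm
  have h1 := Real.inner_le_Lp_mul_Lq_of_nonneg (Finset.range L) hpq (f := fun l => (w l)⁻¹)
    (g := fun l => w l * z l) (fun l _ => (inv_pos.mpr (hw l)).le)
    (fun l _ => mul_nonneg (hw l).le (hz l))
  have e1 : ∀ l, (w l)⁻¹ * (w l * z l) = z l := by
    intro l
    rw [← mul_assoc, inv_mul_cancel₀ (hw l).ne', one_mul]
  have e2 : ∀ l, (w l)⁻¹ ^ (q / (q - 1)) = w l ^ (-(q / (q - 1))) := by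
    intro l
    rw [Real.rpow_neg (hw l).le, Real.inv_rpow (hw l).le]
  simp only [e1, e2] at h1
  set X := ∑ l ∈ Finset.range L, (w l * z l) ^ q with hX
  have hX0 : 0 ≤ X := Finset.sum_nonneg fun l _ => Real.rpow_nonneg (mul_nonneg (hw l).le (hz l)) _
  set Y := ∑ l ∈ Finset.range L, w l ^ (-(q / (q - 1))) with hY
  have hY0 : 0 ≤ Y := Finset.sum_nonneg fun l _ => Real.rpow_nonneg (hw l).le _
  have h2 : ∑ l ∈ Finset.range L, z l ≤ S ^ (1 / (q / (q - 1))) * X ^ (1 / q) := by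
    refine h1.trans (mul_le_mul_of_nonneg_right ?_ (Real.rpow_nonneg hX0 _))
    exact Real.rpow_le_rpow hY0 hsum (by positivity)
  have h3 : (∑ l ∈ Finset.range L, z l) ^ q ≤ (S ^ (1 / (q / (q - 1))) * X ^ (1 / q)) ^ q :=
    Real.rpow_le_rpow (Finset.sum_nonneg fun l _ => hz l) h2 hq0.le
  refine h3.trans (le_of_eq ?_)
  rw [Real.mul_rpow (by positivity) (by positivity), ← Real.rpow_mul hS.le, ← Real.rpow_mul hX0]
  congr 2
  · field_simp
  · rw [one_div, inv_mul_cancel₀ hq0.ne', Real.rpow_one]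

variable {ι : Type*} [Fintype ι] [DecidableEq ι]

lemma PU_good {K M R : ℝ} (hR : 1 ≤ R) {F : (ι → ℝ) → ℂ} (hF : Good K M F) (j : ι) (ρ e : ℝ)
    (b : Fin 4) : Good (K + 1) (2 * M) (PU j R ρ e b F) := by
  unfold PU
  apply Mc_good (Pc_meas b ρ e) (Pc_norm b ρ e)
  split_ifs
  · exact Df_good hR hF j
  · exact (Av_good hR hF j).mono le_rfl (by linarith [hF.nonneg])

/-- sum over cells of the extension operator -/
lemma EI_cells {K M R ρ : ℝ} (hR : 1 ≤ R) (hρ : 0 < ρ) {F : (ι → ℝ) → ℂ} (hF : Good K M F)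
    (j : ι) (p : (ι → ℝ) × ℝ) {N : ℕ} (hN : (K + 1) / ρ ≤ (N : ℝ) - 1) :
    EI (Av j R F) p = ∑ l ∈ Finset.range (2 * N + 1), EI (PU j R ρ ((l : ℝ) - N) 0 F) p := by
  unfold EI
  rw [← integral_finsetSum]
  · congr 1
    ext ξ
    rw [← Finset.sum_mul]
    congr 1
    by_cases hξ : ξ ∈ SK ι (K + 1)
    · rw [SK_mem] at hξ
      have h1 : |ξ j / ρ| ≤ (N : ℝ) - 1 := by
        rw [abs_div, abs_of_pos hρ]
        exact (div_le_div_of_nonneg_right (hξ j) hρ.le).trans hN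
      rw [abs_le] at h1
      have h2 := Bp_sum N (v := ξ j / ρ) (by linarith) (by linarith)
      have h3 : ∀ l : ℕ, PU j R ρ ((l : ℝ) - N) 0 F ξ =
          ((Bp (ξ j / ρ - ((l : ℝ) - N)) : ℝ) : ℂ) * Av j R F ξ := by
        intro l
        unfold PU Mc Pc Pb
        simp only [Fin.isValue, zero_ne_one, if_false]
        rw [if_neg (by decide), if_neg (by decide)]
      simp_rw [h3]
      rw [← Finset.sum_mul, ← Complex.ofReal_sum, h2, Complex.ofReal_one, one_mul]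
    · rw [(Av_good hR hF j).supp ξ hξ]
      rw [Finset.sum_eq_zero]
      intro l _
      exact (PU_good hR hF j ρ _ 0).supp ξ hξ
  · intro l _
    exact (PU_good hR hF j ρ _ 0).integrable.mul_bdd (c := 1)
      (continuous_ph2_right p).measurable.aestronglyMeasurable
      (Filter.Eventually.of_forall fun ξ => by rw [norm_ph2])

/-- the spatial decomposition, pointwise -/
lemma SC_pointwise {q : ℝ} (hq : 1 < q) : ∃ C : ℝ, 0 < C ∧ ∀ (K M R ρ T : ℝ), 1 ≤ R → 0 < ρ →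
    1 ≤ ρ * R → ρ * T = R → ∀ F : (ι → ℝ) → ℂ, Good K M F → ∀ (j : ι) (p : (ι → ℝ) × ℝ),
    T ≤ |p.2| → |p.2| ≤ 2 * T → ∀ N : ℕ, (K + 1) / ρ ≤ (N : ℝ) - 1 →
    ‖EI (Av j R F) p‖ ^ q ≤ C * ∑ l ∈ Finset.range (2 * N + 1), ∑ b : Fin 4,
      ‖EI (PU j R ρ ((l : ℝ) - N) b F) p‖ ^ q := by
  have hr : 1 < q / (q - 1) := by
    rw [one_lt_div (by linarith)]; linarith
  obtain ⟨S, hS0, hS⟩ := weight_sum hr
  have hcH := one_le_cH
  refine ⟨S ^ (q - 1) * ((8 + cH) ^ q * 4 ^ (q - 1)), by positivity, ?_⟩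
  intro K M R ρ T hR hρ hρR hT F hF j p ht1 ht2 N hN
  have hR0 : 0 < R := by linarith
  have hT0 : 0 < T := by
    by_contra h
    have : ρ * T ≤ 0 := mul_nonpos_of_nonneg_of_nonpos hρ.le (not_lt.mp h)
    linarith
  set w : ℕ → ℝ := fun l => 1 + |p.1 j / R + (2 * p.2 * ρ / R) * ((l : ℝ) - N)| with hw
  set z : ℕ → ℝ := fun l => ‖EI (PU j R ρ ((l : ℝ) - N) 0 F) p‖ with hz
  have hw0 : ∀ l, 0 < w l := fun l => by rw [hw]; positivity
  have hb : 1 ≤ |2 * p.2 * ρ / R| := by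
    rw [abs_div, abs_mul, abs_mul, abs_of_pos hR0, abs_of_pos hρ,
      abs_of_pos (by norm_num : (0 : ℝ) < 2), le_div_iff₀ hR0, one_mul]
    rw [← hT]
    nlinarith
  have hsum := hS (p.1 j / R) (2 * p.2 * ρ / R) hb (2 * N + 1) N
  have h1 := holder_weights hq hS0 hw0 (z := z) (fun l => norm_nonneg _) hsum
  have h2 : ‖EI (Av j R F) p‖ ≤ ∑ l ∈ Finset.range (2 * N + 1), z l := by
    rw [EI_cells hR hρ hF j p hN]
    exact norm_sum_le _ _
  have h3 : ‖EI (Av j R F) p‖ ^ q ≤ (∑ l ∈ Finset.range (2 * N + 1), z l) ^ q :=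
    Real.rpow_le_rpow (norm_nonneg _) h2 (by linarith)
  refine h3.trans (h1.trans ?_)
  rw [mul_assoc]
  apply mul_le_mul_of_nonneg_left _ (by positivity)
  rw [Finset.mul_sum]
  apply Finset.sum_le_sum
  intro l _
  have h4 := one_cell hR hρ hρR hT hF j p ht2 ((l : ℝ) - N)
  have h5 : (w l * z l) ^ q ≤
      ((8 + cH) * ∑ b : Fin 4, ‖EI (PU j R ρ ((l : ℝ) - N) b F) p‖) ^ q :=
    Real.rpow_le_rpow (mul_nonneg (hw0 l).le (norm_nonneg _)) h4 (by linarith)
  refine h5.trans ?_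
  rw [Real.mul_rpow (by positivity) (Finset.sum_nonneg fun b _ => norm_nonneg _), mul_assoc]
  apply mul_le_mul_of_nonneg_left _ (by positivity)
  have h6 := Real.rpow_sum_le_const_mul_sum_rpow_of_nonneg (Finset.univ : Finset (Fin 4)) hq.le
    (f := fun b => ‖EI (PU j R ρ ((l : ℝ) - N) b F) p‖) (fun b _ => norm_nonneg _)
  simpa using h6

end Pool.Agent.H.MP_b7167f_an
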