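import Mathlib
import Pool.Agent.H.MP_b7167f_an.SC2

/-!
Iterated cell decomposition.
-/

namespace Pool.Agent.H.MP_b7167f_an

open MeasureTheory Complex ComplexConjugate Real Set ENNReal

variable {ι : Type*} [Fintype ι] [DecidableEq ι]

lemma Pb_overlap (b : Fin 4) (L N : ℕ) (v : ℝ) :
    ∑ l ∈ Finset.range L, (Pb b (v - ((l : ℝ) - N))) ^ 2 ≤ 3 := by
  set a : ℕ := ⌈v + N - 2⌉₊ with ha
  have h1 : ∀ l ∈ Finset.range L, (Pb b (v - ((l : ℝ) - N))) ^ 2 ≤
      if l ∈ Finset.Icc a (a + 2) then (1 : ℝ) else 0 := by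
    intro l _
    split_ifs with h
    · rw [← sq_abs]
      have := Pb_abs b (v - ((l : ℝ) - N))
      exact pow_le_one₀ (abs_nonneg _) this
    · rw [Pb_zero]
      · simp
      · intro h2
        apply h
        rw [Finset.mem_Icc]
        have h3 := h2.1
        have h4 := h2.2
        constructor
        · rw [ha, Nat.ceil_le]
          linarith
        · have h5 : v + N - 2 ≤ (a : ℝ) := Nat.le_ceil _
          have h6 : (l : ℝ) ≤ ((a + 2 : ℕ) : ℝ) := by push_cast; linarith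
          exact_mod_cast h6
  refine (Finset.sum_le_sum h1).trans ?_
  rw [← Finset.sum_filter, Finset.sum_const, nsmul_eq_mul, mul_one]
  have h2 : ((Finset.range L).filter fun l => l ∈ Finset.Icc a (a + 2)) ⊆ Finset.Icc a (a + 2) := by
    intro l hl
    exact (Finset.mem_filter.mp hl).2
  have h3 := Finset.card_le_card h2
  rw [Nat.card_Icc] at h3
  have h4 : a + 2 + 1 - a = 3 := by omega
  rw [h4] at h3
  exact_mod_cast h3

lemma PU_L2_sum {K M R ρ : ℝ} (hR : 1 ≤ R) {F : (ι → ℝ) → ℂ} (hF : Good K M F) (j : ι) (L N : ℕ) :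
    ∑ l ∈ Finset.range L, ∑ b : Fin 4, ∫ ξ, ‖PU j R ρ ((l : ℝ) - N) b F ξ‖ ^ 2 ≤
      48 * ∫ ξ, ‖F ξ‖ ^ 2 := by
  rw [Finset.sum_comm]
  have h0 : 0 ≤ ∫ ξ, ‖F ξ‖ ^ 2 := integral_nonneg fun ξ => by positivity
  have hb : ∀ b : Fin 4, ∑ l ∈ Finset.range L, ∫ ξ, ‖PU j R ρ ((l : ℝ) - N) b F ξ‖ ^ 2 ≤
      12 * ∫ ξ, ‖F ξ‖ ^ 2 := by
    intro b
    set G : (ι → ℝ) → ℂ := if b = 1 then Df j R F else Av j R F with hG
    have hGg : Good (K + 1) (2 * M) G := by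
      rw [hG]
      split_ifs
      · exact Df_good hR hF j
      · exact (Av_good hR hF j).mono le_rfl (by linarith [hF.nonneg])
    have hG2 : ∫ ξ, ‖G ξ‖ ^ 2 ≤ 4 * ∫ ξ, ‖F ξ‖ ^ 2 := by
      rw [hG]
      split_ifs
      · exact Df_L2 hR hF j
      · linarith [Av_L2 hR hF j]
    rw [← integral_finsetSum _ (fun l _ => (PU_good hR hF j ρ _ b).sq_integrable)]
    calc ∫ ξ, ∑ l ∈ Finset.range L, ‖PU j R ρ ((l : ℝ) - N) b F ξ‖ ^ 2
        ≤ ∫ ξ, 3 * ‖G ξ‖ ^ 2 := by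
          apply integral_mono
            (integrable_finsetSum _ (fun l _ => (PU_good hR hF j ρ _ b).sq_integrable))
            (hGg.sq_integrable.const_mul 3)
          intro ξ
          simp only
          have e : ∀ l : ℕ, ‖PU j R ρ ((l : ℝ) - N) b F ξ‖ ^ 2 =
              (Pb b (ξ j / ρ - ((l : ℝ) - N))) ^ 2 * ‖G ξ‖ ^ 2 := by
            intro l
            unfold PU Mc Pc
            rw [norm_mul, mul_pow, Complex.norm_real, Real.norm_eq_abs, sq_abs]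
          simp_rw [e]
          rw [← Finset.sum_mul]
          exact mul_le_mul_of_nonneg_right (Pb_overlap b L N _) (by positivity)
      _ = 3 * ∫ ξ, ‖G ξ‖ ^ 2 := integral_const_mul _ _
      _ ≤ 12 * ∫ ξ, ‖F ξ‖ ^ 2 := by linarith
  calc _ ≤ ∑ _b : Fin 4, 12 * ∫ ξ, ‖F ξ‖ ^ 2 := Finset.sum_le_sum fun b _ => hb b
    _ = _ := by
      rw [Finset.sum_const, Finset.card_univ, Fintype.card_fin, nsmul_eq_mul]
      push_cast
      ring

lemma PU_L2 {K M R ρ : ℝ} (hR : 1 ≤ R) {F : (ι → ℝ) → ℂ} (hF : Good K M F) (j : ι) (e : ℝ)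
    (b : Fin 4) : ∫ ξ, ‖PU j R ρ e b F ξ‖ ^ 2 ≤ 4 * ∫ ξ, ‖F ξ‖ ^ 2 := by
  have h0 : 0 ≤ ∫ ξ, ‖F ξ‖ ^ 2 := integral_nonneg fun ξ => by positivity
  unfold PU
  split_ifs
  · exact (Mc_L2 (Pc_meas b ρ e) (Pc_norm b ρ e) (Df_good hR hF j)).trans (Df_L2 hR hF j)
  · refine (Mc_L2 (Pc_meas b ρ e) (Pc_norm b ρ e) (Av_good hR hF j)).trans ?_
    linarith [Av_L2 hR hF j]

/-- localisation in the coordinates of `S` -/
def Loc (S : Set ι) (ρ : ℝ) (F : (ι → ℝ) → ℂ) : Prop :=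
  ∃ c : ι → ℝ, ∀ ξ, F ξ ≠ 0 → ∀ j ∈ S, |ξ j - c j| ≤ ρ

omit [Fintype ι] in
lemma Loc_PU {R ρ e : ℝ} (hρ : 0 < ρ) {S : Set ι} {F : (ι → ℝ) → ℂ} (hF : Loc S ρ F) {j : ι}
    (hj : j ∉ S) (b : Fin 4) : Loc (insert j S) ρ (PU j R ρ e b F) := by
  obtain ⟨c, hc⟩ := hF
  refine ⟨Function.update c j ((e + 1) * ρ), ?_⟩
  intro ξ hξ i hi
  unfold PU Mc at hξ
  have h1 : Pc b ρ e (ξ j) ≠ 0 := left_ne_zero_of_mul hξ
  have h2 : (if b = 1 then Df j R F else Av j R F) ξ ≠ 0 := right_ne_zero_of_mul hξ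
  by_cases hij : i = j
  · subst hij
    rw [Function.update_self]
    exact Pc_ne_zero hρ h1
  · rw [Function.update_of_ne hij]
    have hiS : i ∈ S := by
      rcases hi with h | h
      · exact absurd h hij
      · exact h
    have hex : ∃ a : ℝ, F (ξ + a • ej j) ≠ 0 := by
      by_contra hcon
      push Not at hcon
      apply h2
      split_ifs
      · unfold Df
        have h3 := hcon 0
        rw [zero_smul, add_zero] at h3
        rw [hcon, h3, sub_zero]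
      · unfold Av
        simp_rw [hcon]
        simp
    obtain ⟨a, ha⟩ := hex
    have := hc _ ha i hiS
    simpa [ej_ne hij] using this

/-- the time strip -/
def strip (ι : Type*) (T : ℝ) : Set ((ι → ℝ) × ℝ) := {p | T ≤ |p.2| ∧ |p.2| ≤ 2 * T}

omit [Fintype ι] [DecidableEq ι] in
lemma strip_meas (T : ℝ) : MeasurableSet (strip ι T) := by
  have h1 : Measurable fun p : (ι → ℝ) × ℝ => |p.2| := by fun_prop
  exact (measurableSet_le measurable_const h1).inter (measurableSet_le h1 measurable_const)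

/-- the `q`-th power of the `L^q` norm over a strip -/
noncomputable def Phi (q T : ℝ) (G : (ι → ℝ) → ℂ) : ℝ≥0∞ :=
  ∫⁻ p in strip ι T, ENNReal.ofReal (‖EI G p‖ ^ q)

lemma Phi_SC {q : ℝ} (hq : 1 < q) : ∃ C : ℝ, 0 < C ∧ ∀ (K M R ρ T : ℝ), 1 ≤ R → 0 < ρ →
    1 ≤ ρ * R → ρ * T = R → ∀ F : (ι → ℝ) → ℂ, Good K M F → ∀ (j : ι),
    ∀ N : ℕ, (K + 1) / ρ ≤ (N : ℝ) - 1 →
    Phi q T (Av j R F) ≤ ENNReal.ofReal C * ∑ l ∈ Finset.range (2 * N + 1), ∑ b : Fin 4,
      Phi q T (PU j R ρ ((l : ℝ) - N) b F) := by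
  obtain ⟨C, hC0, hC⟩ := SC_pointwise (ι := ι) hq
  refine ⟨C, hC0, ?_⟩
  intro K M R ρ T hR hρ hρR hT F hF j N hN
  have hmeas : ∀ (l : ℕ) (b : Fin 4), Measurable fun p : (ι → ℝ) × ℝ =>
      ENNReal.ofReal (‖EI (PU j R ρ ((l : ℝ) - N) b F) p‖ ^ q) := by
    intro l b
    exact ((EI_meas (PU_good hR hF j ρ _ b).meas).norm.pow_const q).ennreal_ofReal
  unfold Phi
  have e : ENNReal.ofReal C * ∑ l ∈ Finset.range (2 * N + 1), ∑ b : Fin 4,
      ∫⁻ p in strip ι T, ENNReal.ofReal (‖EI (PU j R ρ ((l : ℝ) - N) b F) p‖ ^ q) =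
      ∫⁻ p in strip ι T, ENNReal.ofReal C * ∑ l ∈ Finset.range (2 * N + 1), ∑ b : Fin 4,
        ENNReal.ofReal (‖EI (PU j R ρ ((l : ℝ) - N) b F) p‖ ^ q) := by
    rw [lintegral_const_mul' _ _ ENNReal.ofReal_ne_top]
    congr 1
    rw [lintegral_finsetSum]
    · apply Finset.sum_congr rfl
      intro l _
      rw [lintegral_finsetSum]
      intro b _
      exact hmeas l b
    · intro l _
      exact Finset.measurable_sum _ fun b _ => hmeas l b
  rw [e]
  apply setLIntegral_mono' (strip_meas T)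
  intro p hp
  have h1 := hC K M R ρ T hR hρ hρR hT F hF j p hp.1 hp.2 N hN
  calc ENNReal.ofReal (‖EI (Av j R F) p‖ ^ q)
      ≤ ENNReal.ofReal (C * ∑ l ∈ Finset.range (2 * N + 1), ∑ b : Fin 4,
        ‖EI (PU j R ρ ((l : ℝ) - N) b F) p‖ ^ q) := ENNReal.ofReal_le_ofReal h1
    _ = _ := by
      rw [ENNReal.ofReal_mul hC0.le, ENNReal.ofReal_sum_of_nonneg]
      · congr 1
        apply Finset.sum_congr rfl
        intro l _
        rw [ENNReal.ofReal_sum_of_nonneg]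
        intro b _
        positivity
      · intro l _
        exact Finset.sum_nonneg fun b _ => by positivity

lemma PU_PL {K M R ρ e : ℝ} (hR : 1 ≤ R) (L : List ι) {F : (ι → ℝ) → ℂ} (hF : Good K M F) {j : ι}
    (hj : j ∉ L) (b : Fin 4) : PU j R ρ e b (PL L R F) = PL L R (PU j R ρ e b F) := by
  unfold PU
  split_ifs
  · rw [PL_Df hR L hF, PL_Mc L hj]
  · rw [PL_Av hR L hF, PL_Mc L hj]

/-- iterated cell decomposition -/
lemma SC_ind {q : ℝ} (hq : 1 < q) (L : List ι) (hnd : L.Nodup) : ∃ C : ℝ, 0 < C ∧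
    ∀ (S : Set ι), (∀ j ∈ L, j ∉ S) → ∀ (K M V R ρ T A : ℝ), 1 ≤ R → 0 < ρ →
    1 ≤ ρ * R → ρ * T = R → 0 ≤ A → ∀ F : (ι → ℝ) → ℂ, Good K M F → Loc S ρ F →
    ∫ ξ, ‖F ξ‖ ^ 2 ≤ V →
    (∀ G : (ι → ℝ) → ℂ, Good (K + L.length) (2 ^ L.length * M) G → Loc (S ∪ {j | j ∈ L}) ρ G →
      ∫ ξ, ‖G ξ‖ ^ 2 ≤ 4 ^ L.length * V → Phi q T G ≤ ENNReal.ofReal (A * ∫ ξ, ‖G ξ‖ ^ 2)) →
    Phi q T (PL L R F) ≤ ENNReal.ofReal (C * A * ∫ ξ, ‖F ξ‖ ^ 2) := by
  induction L with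
  | nil =>
    refine ⟨1, one_pos, ?_⟩
    intro S hS K M V R ρ T A hR hρ hρR hT hA F hF hloc hV hyp
    rw [PL_nil, one_mul]
    apply hyp F
    · simpa using hF
    · simpa using hloc
    · simpa using hV
  | cons j L ih =>
    have hjL : j ∉ L := (List.nodup_cons.mp hnd).1
    obtain ⟨C1, hC10, hC1⟩ := ih (List.nodup_cons.mp hnd).2
    obtain ⟨C0, hC00, hC0⟩ := Phi_SC (ι := ι) hq
    refine ⟨C0 * C1 * 48, by positivity, ?_⟩
    intro S hS K M V R ρ T A hR hρ hρR hT hA F hF hloc hV hyp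
    have hPL := PL_good hR L hF
    obtain ⟨N, hN⟩ := exists_nat_ge ((K + L.length + 1) / ρ + 1)
    have h1 := hC0 (K + L.length) M R ρ T hR hρ hρR hT (PL L R F) hPL j N (by linarith)
    rw [PL_cons]
    refine h1.trans ?_
    have h2 : ∀ (l : ℕ) (b : Fin 4), Phi q T (PU j R ρ ((l : ℝ) - N) b (PL L R F)) ≤
        ENNReal.ofReal (C1 * A * ∫ ξ, ‖PU j R ρ ((l : ℝ) - N) b F ξ‖ ^ 2) := by
      intro l b
      rw [PU_PL hR L hF hjL]
      apply hC1 (insert j S) _ (K + 1) (2 * M) (4 * V) R ρ T A hR hρ hρR hT hA _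
        (PU_good hR hF j ρ _ b) (Loc_PU hρ hloc (hS j List.mem_cons_self) b)
      · refine (PU_L2 hR hF j _ b).trans ?_
        linarith
      · intro G hG hGl hGV
        apply hyp G
        · rw [List.length_cons]
          refine hG.mono ?_ ?_
          · push_cast; linarith
          · rw [pow_succ]; linarith
        · obtain ⟨c, hc⟩ := hGl
          refine ⟨c, fun ξ hξ i hi => hc ξ hξ i ?_⟩
          rcases hi with h | h
          · exact Or.inl (Or.inr h)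
          · rcases List.mem_cons.mp h with h | h
            · exact Or.inl (Or.inl h)
            · exact Or.inr h
        · rw [List.length_cons, pow_succ]
          linarith
      · intro i hi
        rw [mem_insert_iff, not_or]
        exact ⟨fun h => hjL (h ▸ hi), hS i (List.mem_cons_of_mem _ hi)⟩
    have h0 : ∀ (l : ℕ) (b : Fin 4), 0 ≤ C1 * A * ∫ ξ, ‖PU j R ρ ((l : ℝ) - N) b F ξ‖ ^ 2 := by
      intro l b
      have : 0 ≤ ∫ ξ, ‖PU j R ρ ((l : ℝ) - N) b F ξ‖ ^ 2 := integral_nonneg fun ξ => by positivity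
      positivity
    calc ENNReal.ofReal C0 * ∑ l ∈ Finset.range (2 * N + 1), ∑ b : Fin 4,
          Phi q T (PU j R ρ ((l : ℝ) - N) b (PL L R F))
        ≤ ENNReal.ofReal C0 * ∑ l ∈ Finset.range (2 * N + 1), ∑ b : Fin 4,
          ENNReal.ofReal (C1 * A * ∫ ξ, ‖PU j R ρ ((l : ℝ) - N) b F ξ‖ ^ 2) := by
          gcongr with l _ b _
          exact h2 l b
      _ = ENNReal.ofReal (C0 * (C1 * A * ∑ l ∈ Finset.range (2 * N + 1), ∑ b : Fin 4,
          ∫ ξ, ‖PU j R ρ ((l : ℝ) - N) b F ξ‖ ^ 2)) := by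
          rw [ENNReal.ofReal_mul hC00.le]
          congr 1
          rw [Finset.mul_sum, ENNReal.ofReal_sum_of_nonneg]
          · apply Finset.sum_congr rfl
            intro l _
            rw [Finset.mul_sum, ENNReal.ofReal_sum_of_nonneg]
            intro b _
            exact h0 l b
          · intro l _
            rw [Finset.mul_sum]
            exact Finset.sum_nonneg fun b _ => h0 l b
      _ ≤ ENNReal.ofReal (C0 * C1 * 48 * A * ∫ ξ, ‖F ξ‖ ^ 2) := by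
          apply ENNReal.ofReal_le_ofReal
          have h3 := PU_L2_sum (ρ := ρ) hR hF j (2 * N + 1) N
          have h4 : C0 * (C1 * A * ∑ l ∈ Finset.range (2 * N + 1), ∑ b : Fin 4,
              ∫ ξ, ‖PU j R ρ ((l : ℝ) - N) b F ξ‖ ^ 2) ≤ C0 * (C1 * A * (48 * ∫ ξ, ‖F ξ‖ ^ 2)) := by
            gcongr
          refine h4.trans (le_of_eq ?_)
          ring

end Pool.Agent.H.MP_b7167f_an
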