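import Mathlib
import Pool.Agent.H.MP_b7167f_an.Ind

/-!
The `L⁴` estimate in a box: auxiliary integrals.
-/

namespace Pool.Agent.H.MP_b7167f_an

open MeasureTheory Complex ComplexConjugate Real Set ENNReal

section kernel

variable {Ω Y : Type*} [MeasurableSpace Ω] [MeasurableSpace Y] {μ : Measure Ω}
  [IsFiniteMeasure μ] {ν : Measure Y} [SFinite ν]

/-- Non-uniform Schur bound. -/
lemma schur' {ω : Y → ℝ} (hω : Integrable ω ν) {E : Y → Ω → ℂ}
    (hE : Measurable (Function.uncurry E)) (hE1 : ∀ y z, ‖E y z‖ ≤ 1)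
    {k : Ω → Ω → ℝ} (hk0 : ∀ z z', 0 ≤ k z z') (hsymm : ∀ z z', k z z' = k z' z)
    (hk : ∀ z z', (∫ y, (ω y : ℂ) * (E y z * conj (E y z')) ∂ν) = (k z z' : ℂ))
    {κ : Ω → ℂ} (hκ : Measurable κ) {M : ℝ} (hM : ∀ z, ‖κ z‖ ≤ M) :
    ENNReal.ofReal (∫ y, ω y * ‖∫ z, κ z * E y z ∂μ‖ ^ 2 ∂ν) ≤
      ∫⁻ p, ENNReal.ofReal (‖κ p.1‖ ^ 2 * k p.1 p.2) ∂(μ.prod μ) := by
  have hkint := kernel_meas (μ := μ) hω hE hE1 hk
  have h1 := kernel_identity (μ := μ) hω hE hE1 hκ hM
  simp_rw [hk] at h1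
  have h3 : ∫ y, ω y * ‖∫ z, κ z * E y z ∂μ‖ ^ 2 ∂ν =
      (∫ p, κ p.1 * conj (κ p.2) * (k p.1 p.2 : ℂ) ∂(μ.prod μ)).re := by
    rw [← h1, Complex.ofReal_re]
  rw [h3]
  have hbd : ∀ z, ‖κ z‖ ^ 2 ≤ M ^ 2 := fun z => by
    have := hM z
    gcongr
  have hsq : Measurable fun z => ‖κ z‖ ^ 2 := by fun_prop
  have hi1 : Integrable (fun p : Ω × Ω => ‖κ p.1‖ ^ 2 * k p.1 p.2) (μ.prod μ) := by
    refine hkint.bdd_mul (c := M ^ 2) (hsq.comp measurable_fst).aestronglyMeasurable ?_
    refine Filter.Eventually.of_forall fun p => ?_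
    rw [Real.norm_eq_abs, abs_of_nonneg (by positivity)]
    exact hbd _
  have hi2 : Integrable (fun p : Ω × Ω => ‖κ p.2‖ ^ 2 * k p.1 p.2) (μ.prod μ) := by
    refine hkint.bdd_mul (c := M ^ 2) (hsq.comp measurable_snd).aestronglyMeasurable ?_
    refine Filter.Eventually.of_forall fun p => ?_
    rw [Real.norm_eq_abs, abs_of_nonneg (by positivity)]
    exact hbd _
  have hswap : ∫ p, ‖κ p.2‖ ^ 2 * k p.1 p.2 ∂(μ.prod μ) = ∫ p, ‖κ p.1‖ ^ 2 * k p.1 p.2 ∂(μ.prod μ) := by
    rw [← integral_prod_swap]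
    simp only [Prod.fst_swap, Prod.snd_swap]
    apply integral_congr_ae
    refine Filter.Eventually.of_forall fun p => ?_
    simp only
    rw [hsymm]
  rw [← ofReal_integral_eq_lintegral_ofReal hi1
    (Filter.Eventually.of_forall fun p => mul_nonneg (by positivity) (hk0 _ _))]
  apply ENNReal.ofReal_le_ofReal
  refine (Complex.re_le_norm _).trans ?_
  calc ‖∫ p, κ p.1 * conj (κ p.2) * (k p.1 p.2 : ℂ) ∂(μ.prod μ)‖
      ≤ ∫ p, (1 / 2) * (‖κ p.1‖ ^ 2 * k p.1 p.2 + ‖κ p.2‖ ^ 2 * k p.1 p.2) ∂(μ.prod μ) := by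
        refine norm_integral_le_of_norm_le ((hi1.add hi2).const_mul _) ?_
        refine Filter.Eventually.of_forall fun p => ?_
        rw [norm_mul, norm_mul, RCLike.norm_conj, Complex.norm_real, Real.norm_eq_abs,
          abs_of_nonneg (hk0 _ _)]
        have := hk0 p.1 p.2
        nlinarith [mul_nonneg (sq_nonneg (‖κ p.1‖ - ‖κ p.2‖)) this]
    _ = ∫ p, ‖κ p.1‖ ^ 2 * k p.1 p.2 ∂(μ.prod μ) := by
        rw [integral_const_mul, integral_add hi1 hi2, hswap]
        ring

end kernel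

variable {ι : Type*} [Fintype ι] [DecidableEq ι]

/-- averaging a `lintegral` over translations in a coordinate direction -/
lemma avg_lint {C C' : Set (ι → ℝ)} (hC : MeasurableSet C) (hC' : MeasurableSet C') (r : ι)
    {h : (ι → ℝ) → ℝ≥0∞} (hm : Measurable h)
    (hCC : ∀ ξ : ι → ℝ, ∀ a ∈ Icc (0 : ℝ) 1, ξ + a • ej r ∈ C → ξ ∈ C') {B : ℝ≥0∞}
    (hB : ∀ ξ : ι → ℝ, ∫⁻ a in Icc (0 : ℝ) 1, h (ξ + a • ej r) ≤ B) :
    ∫⁻ ξ in C, h ξ ≤ volume C' * B := by
  rw [← lintegral_indicator hC]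
  set H : (ι → ℝ) → ℝ≥0∞ := C.indicator h with hH
  have hHm : Measurable H := hm.indicator hC
  have h1 : ∫⁻ ξ, H ξ = ∫⁻ a in Icc (0 : ℝ) 1, ∫⁻ ξ, H (ξ + a • ej r) := by
    have : ∀ a : ℝ, ∫⁻ ξ, H (ξ + a • ej r) = ∫⁻ ξ, H ξ := fun a =>
      lintegral_add_right_eq_self H _
    simp_rw [this]
    rw [setLIntegral_const, Real.volume_Icc]
    simp
  have hmm : Measurable fun z : ℝ × (ι → ℝ) => H (z.2 + z.1 • ej r) := by
    apply hHm.comp
    apply measurable_pi_lambda
    intro i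
    simp only [Pi.add_apply, Pi.smul_apply, smul_eq_mul]
    fun_prop
  rw [h1, lintegral_lintegral_swap hmm.aemeasurable]
  calc ∫⁻ ξ, ∫⁻ a in Icc (0 : ℝ) 1, H (ξ + a • ej r) ≤ ∫⁻ ξ, C'.indicator (fun _ => B) ξ := by
        apply lintegral_mono
        intro ξ
        by_cases hξ : ξ ∈ C'
        · rw [indicator_of_mem hξ]
          refine le_trans (lintegral_mono fun a => ?_) (hB ξ)
          rw [hH]
          exact indicator_le_self _ _ _
        · rw [indicator_of_notMem hξ, nonpos_iff_eq_zero]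
          beta_reduce
          rw [setLIntegral_congr_fun (g := fun _ => 0) measurableSet_Icc]
          · simp
          · intro a ha
            simp only
            rw [hH, indicator_of_notMem]
            intro h2
            exact hξ (hCC ξ a ha h2)
    _ = volume C' * B := by
        rw [lintegral_indicator hC', setLIntegral_const, mul_comm]

/-- the weight `min (l^{-1/2}, 1/(2|b|))` -/
noncomputable def ww (l b : ℝ) : ℝ≥0∞ := min (ENNReal.ofReal (√l)⁻¹) (ENNReal.ofReal (2 * |b|))⁻¹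

lemma ww_meas (l : ℝ) : Measurable (ww l) := by
  unfold ww
  apply Measurable.min measurable_const
  apply Measurable.inv
  apply Measurable.ennreal_ofReal
  fun_prop

lemma gk_le (l v : ℝ) : gk l v ≤ (√l)⁻¹ ∨ l ≤ 0 := by
  by_cases hl : l ≤ 0
  · exact Or.inr hl
  · left
    have hl : 0 < l := not_le.mp hl
    unfold gk
    have h1 : Real.exp (-(π * v ^ 2 / l)) ≤ 1 := by
      rw [Real.exp_le_one_iff]
      have : 0 ≤ π * v ^ 2 / l := by positivity
      linarith
    calc (√l)⁻¹ * Real.exp (-(π * v ^ 2 / l)) ≤ (√l)⁻¹ * 1 :=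
          mul_le_mul_of_nonneg_left h1 (by positivity)
      _ = _ := mul_one _

lemma gk_line {l : ℝ} (hl : 0 < l) (x b : ℝ) :
    ∫⁻ a in Icc (0 : ℝ) 1, ENNReal.ofReal (gk l (x - 2 * b * a)) ≤ ww l b := by
  unfold ww
  apply le_min
  · calc ∫⁻ a in Icc (0 : ℝ) 1, ENNReal.ofReal (gk l (x - 2 * b * a))
        ≤ ∫⁻ _a in Icc (0 : ℝ) 1, ENNReal.ofReal (√l)⁻¹ := by
          apply lintegral_mono
          intro a
          apply ENNReal.ofReal_le_ofReal
          rcases gk_le l (x - 2 * b * a) with h | h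
          · exact h
          · linarith
      _ = _ := by rw [setLIntegral_const, Real.volume_Icc]; simp
  · by_cases hb : b = 0
    · subst hb
      simp
    · have hb0 : 0 < 2 * |b| := by positivity
      have hint : Integrable fun a : ℝ => gk l (x - 2 * b * a) := by
        have h1 : Integrable fun a : ℝ => gk l (x - a) := (gk_integrable hl).comp_sub_left x
        exact h1.comp_mul_left' (R := 2 * b) (by simpa using hb)
      calc ∫⁻ a in Icc (0 : ℝ) 1, ENNReal.ofReal (gk l (x - 2 * b * a))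
          ≤ ∫⁻ a, ENNReal.ofReal (gk l (x - 2 * b * a)) := setLIntegral_le_lintegral _ _
        _ = ENNReal.ofReal (∫ a, gk l (x - 2 * b * a)) := by
          rw [ofReal_integral_eq_lintegral_ofReal hint
            (Filter.Eventually.of_forall fun a => gk_nonneg _ _)]
        _ = ENNReal.ofReal (2 * |b|)⁻¹ := by
          congr 1
          have h2 := Measure.integral_comp_mul_left (fun a : ℝ => gk l (x - a)) (2 * b)
          rw [h2, integral_sub_left_eq_self (fun v => gk l v) volume x, gk_lintegral hl]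
          rw [abs_inv, abs_mul, abs_of_pos (by norm_num : (0 : ℝ) < 2)]
          simp
        _ = (ENNReal.ofReal (2 * |b|))⁻¹ := by rw [ENNReal.ofReal_inv_of_pos hb0]

lemma abs_rpow_lint {β : ℝ} (hβ : 0 < β) :
    ∫⁻ b in Icc (-1 : ℝ) 1, ENNReal.ofReal (|b| ^ (β - 1)) < ∞ := by
  have h1 : ∫⁻ b in Icc (0 : ℝ) 1, ENNReal.ofReal (|b| ^ (β - 1)) < ∞ := by
    have h2 : IntegrableOn (fun b : ℝ => b ^ (β - 1)) (Icc 0 1) := by
      have := intervalIntegral.intervalIntegrable_rpow' (a := 0) (b := 1) (r := β - 1) (by linarith)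
      rwa [intervalIntegrable_iff_integrableOn_Icc_of_le zero_le_one] at this
    have h3 := h2.lintegral_lt_top
    refine lt_of_le_of_lt (le_of_eq ?_) h3
    apply setLIntegral_congr_fun measurableSet_Icc
    intro b hb
    simp only
    rw [abs_of_nonneg hb.1]
  have h2 : ∫⁻ b in Icc (-1 : ℝ) 0, ENNReal.ofReal (|b| ^ (β - 1)) < ∞ := by
    refine lt_of_le_of_lt (le_of_eq ?_) h1
    rw [← lintegral_indicator measurableSet_Icc, ← lintegral_indicator measurableSet_Icc,
      ← lintegral_neg_eq_self]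
    congr 1
    ext b
    by_cases hb : b ∈ Icc (0 : ℝ) 1
    · rw [indicator_of_mem hb, indicator_of_mem (by constructor <;> linarith [hb.1, hb.2]), abs_neg]
    · rw [indicator_of_notMem hb, indicator_of_notMem]
      intro h3
      apply hb
      constructor <;> linarith [h3.1, h3.2]
  have h3 : Icc (-1 : ℝ) 1 = Icc (-1) 0 ∪ Icc 0 1 := by
    rw [Icc_union_Icc_eq_Icc] <;> norm_num
  rw [h3]
  exact (lintegral_union_le _ _ _).trans_lt (ENNReal.add_lt_top.mpr ⟨h2, h1⟩)

lemma ww_line {β : ℝ} (hβ : 0 < β) (hβ1 : β < 1) : ∃ c : ℝ, 0 ≤ c ∧ ∀ l : ℝ, 0 < l → ∀ x : ℝ,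
    ∫⁻ a in Icc (0 : ℝ) 1, ww l (x + a) ≤ ENNReal.ofReal (c * l ^ (-(β / 2))) := by
  set c0 := ∫⁻ b in Icc (-1 : ℝ) 1, ENNReal.ofReal (|b| ^ (β - 1)) with hc0
  have hc0t : c0 < ∞ := abs_rpow_lint hβ
  refine ⟨c0.toReal + 1, by positivity, ?_⟩
  intro l hl x
  have hpt : ∀ b : ℝ, b ≠ 0 → ww l b ≤ ENNReal.ofReal (l ^ (-(β / 2))) *
      ((Icc (-1 : ℝ) 1).indicator (fun b => ENNReal.ofReal (|b| ^ (β - 1))) b + 1) := by
    intro b hb
    have hb0 : 0 < |b| := abs_pos.mpr hb
    have h1 : ww l b ≤ ENNReal.ofReal (l ^ (-(β / 2)) * |b| ^ (β - 1)) := by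
      unfold ww
      rw [← ENNReal.ofReal_inv_of_pos (by positivity)]
      rw [← ENNReal.ofReal_min]
      apply ENNReal.ofReal_le_ofReal
      set A : ℝ := (√l)⁻¹ with hA
      set B : ℝ := (2 * |b|)⁻¹ with hB
      have hA0 : 0 < A := by positivity
      have hB0 : 0 < B := by positivity
      have h2 : min A B ≤ A ^ β * B ^ (1 - β) := by
        have h3 : 0 < min A B := lt_min hA0 hB0
        calc min A B = (min A B) ^ β * (min A B) ^ (1 - β) := by
              rw [← Real.rpow_add h3]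
              simp
          _ ≤ A ^ β * B ^ (1 - β) := by
              apply mul_le_mul
              · exact Real.rpow_le_rpow h3.le (min_le_left _ _) hβ.le
              · exact Real.rpow_le_rpow h3.le (min_le_right _ _) (by linarith)
              · positivity
              · positivity
      have h4 : A ^ β = l ^ (-(β / 2)) := by
        rw [hA, Real.sqrt_eq_rpow, ← Real.rpow_neg hl.le, ← Real.rpow_mul hl.le]
        congr 1
        ring
      have h5 : B ^ (1 - β) ≤ |b| ^ (β - 1) := by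
        have h6 : B ≤ |b|⁻¹ := by
          rw [hB]
          apply inv_anti₀ hb0
          linarith
        calc B ^ (1 - β) ≤ (|b|⁻¹) ^ (1 - β) := Real.rpow_le_rpow hB0.le h6 (by linarith)
          _ = |b| ^ (β - 1) := by
            rw [Real.inv_rpow hb0.le, ← Real.rpow_neg hb0.le]
            congr 1
            ring
      rw [← h4]
      exact h2.trans (mul_le_mul_of_nonneg_left h5 (by positivity))
    refine h1.trans ?_
    rw [ENNReal.ofReal_mul (by positivity)]
    gcongr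
    by_cases hb1 : b ∈ Icc (-1 : ℝ) 1
    · rw [indicator_of_mem hb1]
      exact le_self_add
    · rw [indicator_of_notMem hb1, zero_add]
      rw [← ENNReal.ofReal_one]
      apply ENNReal.ofReal_le_ofReal
      apply Real.rpow_le_one_of_one_le_of_nonpos _ (by linarith)
      by_contra h
      apply hb1
      have := not_le.mp h
      rw [abs_lt] at this
      exact ⟨this.1.le, this.2.le⟩
  calc ∫⁻ a in Icc (0 : ℝ) 1, ww l (x + a)
      ≤ ∫⁻ a in Icc (0 : ℝ) 1, ENNReal.ofReal (l ^ (-(β / 2))) *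
        ((Icc (-1 : ℝ) 1).indicator (fun b => ENNReal.ofReal (|b| ^ (β - 1))) (x + a) + 1) := by
        apply lintegral_mono_ae
        have h0 : ∀ᵐ a : ℝ, a ≠ -x := by
          rw [ae_iff]
          simp
        filter_upwards [ae_restrict_of_ae h0] with a ha
        apply hpt
        intro h
        apply ha
        linarith
    _ = ENNReal.ofReal (l ^ (-(β / 2))) *
        ((∫⁻ a in Icc (0 : ℝ) 1, (Icc (-1 : ℝ) 1).indicator
          (fun b => ENNReal.ofReal (|b| ^ (β - 1))) (x + a)) + 1) := by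
        rw [lintegral_const_mul' _ _ ENNReal.ofReal_ne_top, lintegral_add_right _ measurable_const]
        congr 2
        rw [setLIntegral_const, Real.volume_Icc]
        simp
    _ ≤ ENNReal.ofReal (l ^ (-(β / 2))) * (c0 + 1) := by
        gcongr
        refine (setLIntegral_le_lintegral _ _).trans ?_
        rw [lintegral_add_left_eq_self (fun b => (Icc (-1 : ℝ) 1).indicator
          (fun b => ENNReal.ofReal (|b| ^ (β - 1))) b) x, lintegral_indicator measurableSet_Icc]
    _ = ENNReal.ofReal ((c0.toReal + 1) * l ^ (-(β / 2))) := by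
        rw [mul_comm, ENNReal.ofReal_mul (by positivity),
          ENNReal.ofReal_add ENNReal.toReal_nonneg zero_le_one, ENNReal.ofReal_toReal hc0t.ne,
          ENNReal.ofReal_one]

end Pool.Agent.H.MP_b7167f_an
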