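import Mathlib
import Pool.Agent.H.MP_b7167f_an.L4
import Pool.Agent.H.MP_b7167f_an.Major

/-!
The `L⁴` estimate in a box.
-/

namespace Pool.Agent.H.MP_b7167f_an

open MeasureTheory Complex ComplexConjugate Real Set ENNReal

variable {ι : Type*} [Fintype ι] [DecidableEq ι]

/-- box with centre `c` and half side lengths `r` -/
def Bx (c r : ι → ℝ) : Set (ι → ℝ) := Icc (c - r) (c + r)

omit [Fintype ι] [DecidableEq ι] in
lemma mem_Bx {c r ξ : ι → ℝ} : ξ ∈ Bx c r ↔ ∀ i, |ξ i - c i| ≤ r i := by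
  unfold Bx
  rw [mem_Icc, Pi.le_def, Pi.le_def, ← forall_and]
  refine forall_congr' fun i => ?_
  rw [abs_le]
  simp only [Pi.sub_apply, Pi.add_apply]
  constructor
  · rintro ⟨h1, h2⟩
    constructor <;> linarith
  · rintro ⟨h1, h2⟩
    constructor <;> linarith

lemma Bx_meas (c r : ι → ℝ) : MeasurableSet (Bx c r) := measurableSet_Icc

lemma Bx_volume (c r : ι → ℝ) : volume (Bx c r) = ∏ i, ENNReal.ofReal (2 * r i) := by
  unfold Bx
  rw [Real.volume_Icc_pi]
  apply Finset.prod_congr rfl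
  intro i _
  congr 1
  simp only [Pi.sub_apply, Pi.add_apply]
  ring

lemma Bx_volume_lt (c r : ι → ℝ) : volume (Bx c r) < ∞ := by
  rw [Bx_volume]
  exact ENNReal.prod_lt_top fun i _ => ENNReal.ofReal_lt_top

/-- two point character -/
noncomputable def Ez (p : (ι → ℝ) × ℝ) (z : (ι → ℝ) × (ι → ℝ)) : ℂ := ph2 p z.1 * conj (ph2 p z.2)

/-- the kernel -/
noncomputable def kz (e l : ℝ) (z z' : (ι → ℝ) × (ι → ℝ)) : ℝ :=
  (∏ i, gk e ((z.1 i - z.2 i) - (z'.1 i - z'.2 i))) *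
    gk l ((∑ i, z.1 i ^ 2 - ∑ i, z.2 i ^ 2) - (∑ i, z'.1 i ^ 2 - ∑ i, z'.2 i ^ 2))

omit [DecidableEq ι] in
lemma Ez_eq (p : (ι → ℝ) × ℝ) (z z' : (ι → ℝ) × (ι → ℝ)) :
    Ez p z * conj (Ez p z') = ph (∑ i, p.1 i * ((z.1 i - z.2 i) - (z'.1 i - z'.2 i))) *
      ph (p.2 * ((∑ i, z.1 i ^ 2 - ∑ i, z.2 i ^ 2) - (∑ i, z'.1 i ^ 2 - ∑ i, z'.2 i ^ 2))) := by
  unfold Ez ph2
  rw [map_mul, Complex.conj_conj, conj_ph, conj_ph, ← ph_add, ← ph_add, ← ph_add, ← ph_add]
  congr 1
  simp only [mul_sub, Finset.sum_sub_distrib]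
  ring

omit [DecidableEq ι] in
lemma Ez_transform {e l : ℝ} (he : 0 < e) (hl : 0 < l) (z z' : (ι → ℝ) × (ι → ℝ)) :
    ∫ p : (ι → ℝ) × ℝ, ((gwI e p.1 * g1 l p.2 : ℝ) : ℂ) * (Ez p z * conj (Ez p z')) =
      (kz e l z z' : ℂ) := by
  set v : ι → ℝ := fun i => (z.1 i - z.2 i) - (z'.1 i - z'.2 i) with hv
  set τ : ℝ := (∑ i, z.1 i ^ 2 - ∑ i, z.2 i ^ 2) - (∑ i, z'.1 i ^ 2 - ∑ i, z'.2 i ^ 2) with hτ
  have h1 : ∀ p : (ι → ℝ) × ℝ, ((gwI e p.1 * g1 l p.2 : ℝ) : ℂ) * (Ez p z * conj (Ez p z')) =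
      ((gwI e p.1 : ℂ) * ph (∑ i, p.1 i * v i)) * ((g1 l p.2 : ℂ) * ph (p.2 * τ)) := by
    intro p
    rw [Ez_eq]
    push_cast
    ring
  simp_rw [h1]
  rw [Measure.volume_eq_prod]
  rw [integral_prod_mul (fun y : ι → ℝ => (gwI e y : ℂ) * ph (∑ i, y i * v i))
    (fun t : ℝ => (g1 l t : ℂ) * ph (t * τ))]
  rw [gauss_transformI he v, g1_transform hl]
  unfold kz
  push_cast
  rfl

omit [DecidableEq ι] in
lemma kz_nonneg (e l : ℝ) (z z' : (ι → ℝ) × (ι → ℝ)) : 0 ≤ kz e l z z' :=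
  mul_nonneg (Finset.prod_nonneg fun i _ => gk_nonneg _ _) (gk_nonneg _ _)

omit [DecidableEq ι] in
lemma kz_symm (e l : ℝ) (z z' : (ι → ℝ) × (ι → ℝ)) : kz e l z z' = kz e l z' z := by
  unfold kz
  congr 1
  · apply Finset.prod_congr rfl
    intro i _
    rw [← gk_neg]
    congr 1
    ring
  · rw [← gk_neg]
    congr 1
    ring

omit [DecidableEq ι] in
lemma Ez_meas : Measurable (Function.uncurry fun (p : (ι → ℝ) × ℝ) (z : (ι → ℝ) × (ι → ℝ)) =>
    Ez p z) := by
  unfold Function.uncurry Ez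
  apply Measurable.mul
  · exact measurable_ph2 measurable_fst (measurable_fst.comp measurable_snd)
  · exact Complex.continuous_conj.measurable.comp
      (measurable_ph2 measurable_fst (measurable_snd.comp measurable_snd))

omit [DecidableEq ι] in
lemma kz_meas {α : Type*} [MeasurableSpace α] (e l : ℝ) {Z Z' : α → (ι → ℝ) × (ι → ℝ)}
    (hZ : Measurable Z) (hZ' : Measurable Z') : Measurable fun a => kz e l (Z a) (Z' a) := by
  have c1 : ∀ i, Measurable fun a => (Z a).1 i :=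
    fun i => (measurable_pi_apply i).comp (measurable_fst.comp hZ)
  have c2 : ∀ i, Measurable fun a => (Z a).2 i :=
    fun i => (measurable_pi_apply i).comp (measurable_snd.comp hZ)
  have c3 : ∀ i, Measurable fun a => (Z' a).1 i :=
    fun i => (measurable_pi_apply i).comp (measurable_fst.comp hZ')
  have c4 : ∀ i, Measurable fun a => (Z' a).2 i :=
    fun i => (measurable_pi_apply i).comp (measurable_snd.comp hZ')
  unfold kz
  apply Measurable.mul
  · apply Finset.measurable_prod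
    intro i _
    exact (gk_meas e).comp (((c1 i).sub (c2 i)).sub ((c3 i).sub (c4 i)))
  · apply (gk_meas l).comp
    apply Measurable.sub
    · exact (Finset.measurable_sum _ fun i _ => (c1 i).pow_const 2).sub
        (Finset.measurable_sum _ fun i _ => (c2 i).pow_const 2)
    · exact (Finset.measurable_sum _ fun i _ => (c3 i).pow_const 2).sub
        (Finset.measurable_sum _ fun i _ => (c4 i).pow_const 2)

attribute [local irreducible] gk kz ww

/-- the inner double integral -/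
lemma kz_inner {e l : ℝ} (hl : 0 < l) (c r : ι → ℝ) (rr : ι)
    (z : (ι → ℝ) × (ι → ℝ)) :
    ∫⁻ ξ in Bx c r, ∫⁻ ζ in Bx c r, ENNReal.ofReal (kz e l z (ξ, ζ)) ≤
      ∫⁻ s in Bx (0 : ι → ℝ) ((2 : ℝ) • r),
        ENNReal.ofReal (∏ i, gk e ((z.1 i - z.2 i) - s i)) *
          (volume (Bx c (r + ej rr)) * ww l (s rr)) := by
  have hmk : Measurable fun w : (ι → ℝ) × (ι → ℝ) => ENNReal.ofReal (kz e l z (w.1, w.1 - w.2)) := by
    apply Measurable.ennreal_ofReal
    exact kz_meas e l (Z := fun _ => z) (Z' := fun w : (ι → ℝ) × (ι → ℝ) => (w.1, w.1 - w.2))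
      measurable_const (measurable_fst.prodMk (measurable_fst.sub measurable_snd))
  have hkeq : ∀ ξ s : ι → ℝ, kz e l z (ξ, ξ - s) = (∏ i, gk e ((z.1 i - z.2 i) - s i)) *
      gk l ((∑ i, z.1 i ^ 2 - ∑ i, z.2 i ^ 2) - (∑ i, ξ i ^ 2 - ∑ i, (ξ i - s i) ^ 2)) := by
    intro ξ s
    unfold kz
    simp only [Pi.sub_apply]
    congr 1
    apply Finset.prod_congr rfl
    intro i _
    congr 1
    ring
  calc ∫⁻ ξ in Bx c r, ∫⁻ ζ in Bx c r, ENNReal.ofReal (kz e l z (ξ, ζ))
      ≤ ∫⁻ ξ in Bx c r, ∫⁻ s in Bx (0 : ι → ℝ) ((2 : ℝ) • r),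
          ENNReal.ofReal (kz e l z (ξ, ξ - s)) := by
        apply setLIntegral_mono' (Bx_meas c r)
        intro ξ hξ
        rw [← lintegral_indicator (Bx_meas _ _), ← lintegral_indicator (Bx_meas _ _)]
        rw [← lintegral_sub_left_eq_self _ ξ]
        apply lintegral_mono
        intro s
        by_cases hs : s ∈ Bx (0 : ι → ℝ) ((2 : ℝ) • r)
        · rw [indicator_of_mem hs]
          exact indicator_le_self _ _ _
        · rw [indicator_of_notMem hs]
          beta_reduce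
          rw [indicator_of_notMem]
          intro h
          apply hs
          rw [mem_Bx] at h hξ ⊢
          intro i
          have h1 := h i
          have h2 := hξ i
          simp only [Pi.sub_apply, Pi.zero_apply, sub_zero, Pi.smul_apply, smul_eq_mul] at h1 ⊢
          rw [abs_le] at h1 h2 ⊢
          constructor <;> linarith
    _ = ∫⁻ s in Bx (0 : ι → ℝ) ((2 : ℝ) • r), ∫⁻ ξ in Bx c r,
          ENNReal.ofReal (kz e l z (ξ, ξ - s)) :=
        lintegral_lintegral_swap (f := fun ξ s : ι → ℝ => ENNReal.ofReal (kz e l z (ξ, ξ - s)))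
          hmk.aemeasurable
    _ ≤ _ := by
        apply lintegral_mono
        intro s
        simp only
        have hP : 0 ≤ ∏ i, gk e ((z.1 i - z.2 i) - s i) :=
          Finset.prod_nonneg fun i _ => gk_nonneg _ _
        simp_rw [hkeq, ENNReal.ofReal_mul hP]
        rw [lintegral_const_mul' _ _ ENNReal.ofReal_ne_top]
        gcongr
        apply avg_lint (Bx_meas c r) (Bx_meas _ _) rr
        · apply Measurable.ennreal_ofReal
          apply (gk_meas l).comp
          fun_prop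
        · intro ξ a ha hξ
          rw [mem_Bx] at hξ ⊢
          intro i
          have h1 := hξ i
          simp only [Pi.add_apply, Pi.smul_apply, smul_eq_mul] at h1 ⊢
          by_cases hi : i = rr
          · subst hi
            rw [ej_same] at h1 ⊢
            rw [abs_le] at h1 ⊢
            constructor <;> linarith [ha.1, ha.2]
          · rw [ej_ne hi] at h1 ⊢
            rw [mul_zero, add_zero] at h1
            rw [add_zero]
            exact h1
        · intro ξ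
          set x : ℝ := (∑ i, z.1 i ^ 2 - ∑ i, z.2 i ^ 2) -
            (∑ i, ξ i ^ 2 - ∑ i, (ξ i - s i) ^ 2) with hx
          refine le_trans (le_of_eq ?_) (gk_line hl x (s rr))
          congr 1
          ext a
          congr 2
          have h2 : ∀ i, (ξ + a • ej rr) i ^ 2 - ((ξ + a • ej rr) i - s i) ^ 2 =
              (ξ i ^ 2 - (ξ i - s i) ^ 2) + 2 * s i * (a * ej rr i) := by
            intro i
            simp only [Pi.add_apply, Pi.smul_apply, smul_eq_mul]
            ring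
          rw [← Finset.sum_sub_distrib (f := fun i => (ξ + a • ej rr) i ^ 2)]
          simp_rw [h2]
          rw [Finset.sum_add_distrib]
          have h3 : ∑ i, 2 * s i * (a * ej rr i) = 2 * s rr * a := by
            rw [Finset.sum_eq_single rr]
            · rw [ej_same, mul_one]
            · intro i _ hi
              rw [ej_ne hi]; ring
            · intro h; exact absurd (Finset.mem_univ rr) h
          rw [h3, Finset.sum_sub_distrib, hx]
          ring

omit [DecidableEq ι] in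
lemma prod_gk_meas {α : Type*} [MeasurableSpace α] (e : ℝ) {f : α → ι → ℝ} (hf : Measurable f) :
    Measurable fun a => ENNReal.ofReal (∏ i, gk e (f a i)) := by
  apply Measurable.ennreal_ofReal
  apply Finset.measurable_prod
  intro i _
  exact (gk_meas e).comp ((measurable_pi_apply i).comp hf)

omit [DecidableEq ι] in
lemma P_int {e : ℝ} (he : 0 < e) (ξ s : ι → ℝ) :
    ∫⁻ ζ : ι → ℝ, ENNReal.ofReal (∏ i, gk e ((ξ i - ζ i) - s i)) = 1 := by
  have h2 := gkprod_integralI he (fun i => ξ i - s i)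
  have h3 := gkprod_integrableI he (fun i => ξ i - s i)
  have e1 : ∀ ζ : ι → ℝ, ∏ i, gk e ((ξ i - ζ i) - s i) =
      ∏ i, gk e ((ξ i - s i) - ζ i) := by
    intro ζ
    apply Finset.prod_congr rfl
    intro i _
    congr 1
    ring
  simp_rw [e1]
  rw [← ofReal_integral_eq_lintegral_ofReal h3
    (Filter.Eventually.of_forall fun ζ => Finset.prod_nonneg fun i _ => gk_nonneg _ _),
    h2, ENNReal.ofReal_one]

omit [DecidableEq ι] in
lemma swap_bound {e : ℝ} (he : 0 < e) (D : Set (ι → ℝ)) {w : (ι → ℝ) → ℝ≥0∞} (hw : Measurable w)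
    (ξ : ι → ℝ) : ∫⁻ ζ : ι → ℝ, ∫⁻ s in D, ENNReal.ofReal (∏ i, gk e ((ξ i - ζ i) - s i)) * w s =
      ∫⁻ s in D, w s := by
  have hPm : Measurable (Function.uncurry fun ζ s : ι → ℝ =>
      ENNReal.ofReal (∏ i, gk e ((ξ i - ζ i) - s i)) * w s) := by
    apply Measurable.mul
    · exact prod_gk_meas e (f := fun z : (ι → ℝ) × (ι → ℝ) => fun i => (ξ i - z.1 i) - z.2 i)
        (measurable_pi_lambda _ fun i => by fun_prop)
    · exact hw.comp measurable_snd
  rw [lintegral_lintegral_swap hPm.aemeasurable]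
  apply lintegral_congr
  intro s
  rw [lintegral_mul_const, P_int he, one_mul]
  exact prod_gk_meas e (f := fun ζ : ι → ℝ => fun i => (ξ i - ζ i) - s i)
    (measurable_pi_lambda _ fun i => by fun_prop)

lemma ww_box {β cβ : ℝ} (hc : ∀ l : ℝ, 0 < l → ∀ x : ℝ,
    ∫⁻ a in Icc (0 : ℝ) 1, ww l (x + a) ≤ ENNReal.ofReal (cβ * l ^ (-(β / 2)))) {l : ℝ} (hl : 0 < l)
    (r : ι → ℝ) (rr : ι) : ∫⁻ s in Bx (0 : ι → ℝ) ((2 : ℝ) • r), ww l (s rr) ≤
      volume (Bx (0 : ι → ℝ) ((2 : ℝ) • r + ej rr)) * ENNReal.ofReal (cβ * l ^ (-(β / 2))) := by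
  apply avg_lint (Bx_meas _ _) (Bx_meas _ _) rr
  · exact (ww_meas l).comp (measurable_pi_apply rr)
  · intro s a ha hs
    rw [mem_Bx] at hs ⊢
    intro i
    have h1 := hs i
    simp only [Pi.add_apply, Pi.smul_apply, smul_eq_mul, Pi.zero_apply, sub_zero] at h1 ⊢
    by_cases hi : i = rr
    · subst hi
      rw [ej_same] at h1 ⊢
      rw [abs_le] at h1 ⊢
      constructor <;> linarith [ha.1, ha.2]
    · rw [ej_ne hi] at h1 ⊢
      rw [mul_zero, add_zero] at h1
      rw [add_zero]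
      exact h1
  · intro s
    refine le_trans (le_of_eq ?_) (hc l hl (s rr))
    congr 1
    ext a
    congr 1
    simp [ej_same]

/-- the triple integral -/
lemma kz_triple {β : ℝ} (hβ : 0 < β) (hβ1 : β < 1) : ∃ cβ : ℝ, 0 ≤ cβ ∧
    ∀ (e l : ℝ), 0 < e → 0 < l → ∀ (c r : ι → ℝ) (rr : ι) (ξ : ι → ℝ),
    ∫⁻ ζ in Bx c r, ∫⁻ ξ' in Bx c r, ∫⁻ ζ' in Bx c r, ENNReal.ofReal (kz e l (ξ, ζ) (ξ', ζ')) ≤
      volume (Bx c (r + ej rr)) * (volume (Bx (0 : ι → ℝ) ((2 : ℝ) • r + ej rr)) *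
        ENNReal.ofReal (cβ * l ^ (-(β / 2)))) := by
  obtain ⟨cβ, hc0, hc⟩ := ww_line hβ hβ1
  refine ⟨cβ, hc0, ?_⟩
  intro e l he hl c r rr ξ
  have hwm : Measurable fun s : ι → ℝ => volume (Bx c (r + ej rr)) * ww l (s rr) :=
    Measurable.const_mul ((ww_meas l).comp (measurable_pi_apply rr)) _
  have h1 : ∫⁻ ζ in Bx c r, ∫⁻ ξ' in Bx c r, ∫⁻ ζ' in Bx c r,
      ENNReal.ofReal (kz e l (ξ, ζ) (ξ', ζ')) ≤
      ∫⁻ ζ in Bx c r, ∫⁻ s in Bx (0 : ι → ℝ) ((2 : ℝ) • r),
          ENNReal.ofReal (∏ i, gk e ((ξ i - ζ i) - s i)) *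
            (volume (Bx c (r + ej rr)) * ww l (s rr)) := by
    apply lintegral_mono
    intro ζ
    exact kz_inner hl c r rr (ξ, ζ)
  have h2 := swap_bound he (Bx (0 : ι → ℝ) ((2 : ℝ) • r)) hwm ξ
  have h3 : ∫⁻ s in Bx (0 : ι → ℝ) ((2 : ℝ) • r), volume (Bx c (r + ej rr)) * ww l (s rr) =
      volume (Bx c (r + ej rr)) * ∫⁻ s in Bx (0 : ι → ℝ) ((2 : ℝ) • r), ww l (s rr) :=
    lintegral_const_mul' _ _ (Bx_volume_lt _ _).ne
  refine h1.trans ((setLIntegral_le_lintegral _ _).trans ?_)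
  rw [h2, h3]
  gcongr
  exact ww_box hc hl r rr

end Pool.Agent.H.MP_b7167f_an
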