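import Mathlib
import Pool.Agent.H.MP_b7167f_an.L4b

/-!
The `L⁴` estimate in a box: conclusion.
-/

namespace Pool.Agent.H.MP_b7167f_an

open MeasureTheory Complex ComplexConjugate Real Set ENNReal

variable {ι : Type*} [Fintype ι] [DecidableEq ι]

attribute [local irreducible] gk kz ww

omit [DecidableEq ι] in
lemma EI_eq_box {c r : ι → ℝ} {G : (ι → ℝ) → ℂ} (hs : ∀ ξ, ξ ∉ Bx c r → G ξ = 0)
    (p : (ι → ℝ) × ℝ) : EI G p = ∫ ξ in Bx c r, G ξ * ph2 p ξ := by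
  unfold EI
  rw [setIntegral_eq_integral_of_forall_compl_eq_zero]
  intro ξ hξ
  rw [hs ξ hξ, zero_mul]

omit [DecidableEq ι] in
lemma EI_sq_eq {c r : ι → ℝ} {G : (ι → ℝ) → ℂ} (hs : ∀ ξ, ξ ∉ Bx c r → G ξ = 0)
    (p : (ι → ℝ) × ℝ) : ∫ z, (G z.1 * conj (G z.2)) * Ez p z
      ∂((volume.restrict (Bx c r)).prod (volume.restrict (Bx c r))) =
        EI G p * conj (EI G p) := by
  rw [EI_eq_box hs, ← integral_conj, ← integral_prod_mul]
  congr 1
  ext z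
  unfold Ez
  rw [map_mul]
  ring

/-- `L⁴` estimate with Gaussian weights -/
lemma L4_gauss {β : ℝ} (hβ : 0 < β) (hβ1 : β < 1) : ∃ cβ : ℝ, 0 ≤ cβ ∧
    ∀ (e l : ℝ), 0 < e → 0 < l → ∀ (c r : ι → ℝ) (rr : ι) (G : (ι → ℝ) → ℂ) (M : ℝ),
    Measurable G → (∀ ξ, ‖G ξ‖ ≤ M) → (∀ ξ, ξ ∉ Bx c r → G ξ = 0) →
    ENNReal.ofReal (∫ p : (ι → ℝ) × ℝ, (gwI e p.1 * g1 l p.2) * ‖EI G p‖ ^ 4) ≤
      ENNReal.ofReal (M ^ 2) * (∫⁻ ξ, ENNReal.ofReal (‖G ξ‖ ^ 2)) *
      (volume (Bx c (r + ej rr)) * (volume (Bx (0 : ι → ℝ) ((2 : ℝ) • r + ej rr)) *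
        ENNReal.ofReal (cβ * l ^ (-(β / 2))))) := by
  obtain ⟨cβ, hc0, hc⟩ := kz_triple (ι := ι) hβ hβ1
  refine ⟨cβ, hc0, ?_⟩
  intro e l he hl c r rr G M hG hM hs
  have hM0 : 0 ≤ M := (norm_nonneg _).trans (hM 0)
  set μ0 : Measure (ι → ℝ) := volume.restrict (Bx c r) with hμ0
  have hfin : IsFiniteMeasure μ0 := ⟨by rw [hμ0]; simpa using Bx_volume_lt c r⟩
  have hω : Integrable (fun p : (ι → ℝ) × ℝ => gwI e p.1 * g1 l p.2) := by
    rw [Measure.volume_eq_prod]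
    exact (gw_integrableI he).mul_prod (g1_integrable hl)
  have hκm : Measurable fun z : (ι → ℝ) × (ι → ℝ) => G z.1 * conj (G z.2) :=
    (hG.comp measurable_fst).mul (Complex.continuous_conj.measurable.comp (hG.comp measurable_snd))
  have hS := schur' (μ := μ0.prod μ0) (ν := (volume : Measure ((ι → ℝ) × ℝ))) hω
    (E := fun p z => Ez p z) Ez_meas
    (fun p z => by unfold Ez; rw [norm_mul, Complex.norm_conj, norm_ph2, norm_ph2, one_mul])
    (k := kz e l) (kz_nonneg e l) (kz_symm e l) (fun z z' => Ez_transform he hl z z')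
    (κ := fun z : (ι → ℝ) × (ι → ℝ) => G z.1 * conj (G z.2)) hκm (M := M * M)
    (fun z => by
      rw [norm_mul, Complex.norm_conj]
      exact mul_le_mul (hM _) (hM _) (norm_nonneg _) hM0)
  have hL : ∀ p : (ι → ℝ) × ℝ, ‖∫ z, (G z.1 * conj (G z.2)) * Ez p z ∂(μ0.prod μ0)‖ ^ 2 =
      ‖EI G p‖ ^ 4 := by
    intro p
    rw [EI_sq_eq hs, norm_mul, Complex.norm_conj]
    ring
  simp_rw [hL] at hS
  refine hS.trans ?_
  -- measurability of the integrand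
  have hkm : Measurable fun w : ((ι → ℝ) × (ι → ℝ)) × ((ι → ℝ) × (ι → ℝ)) =>
      ENNReal.ofReal (kz e l w.1 w.2) :=
    (kz_meas e l (Z := fun w : ((ι → ℝ) × (ι → ℝ)) × ((ι → ℝ) × (ι → ℝ)) => w.1)
      (Z' := fun w : ((ι → ℝ) × (ι → ℝ)) × ((ι → ℝ) × (ι → ℝ)) => w.2) measurable_fst
      measurable_snd).ennreal_ofReal
  have hκ2 : Measurable fun w : ((ι → ℝ) × (ι → ℝ)) × ((ι → ℝ) × (ι → ℝ)) =>
      ENNReal.ofReal (‖G w.1.1 * conj (G w.1.2)‖ ^ 2) :=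
    ((hκm.comp measurable_fst).norm.pow_const 2).ennreal_ofReal
  have hfm : Measurable fun w : ((ι → ℝ) × (ι → ℝ)) × ((ι → ℝ) × (ι → ℝ)) =>
      ENNReal.ofReal (‖G w.1.1 * conj (G w.1.2)‖ ^ 2 * kz e l w.1 w.2) := by
    have : (fun w : ((ι → ℝ) × (ι → ℝ)) × ((ι → ℝ) × (ι → ℝ)) =>
        ENNReal.ofReal (‖G w.1.1 * conj (G w.1.2)‖ ^ 2 * kz e l w.1 w.2)) = fun w =>
        ENNReal.ofReal (‖G w.1.1 * conj (G w.1.2)‖ ^ 2) * ENNReal.ofReal (kz e l w.1 w.2) := by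
      ext w
      rw [ENNReal.ofReal_mul (by positivity)]
    rw [this]
    exact hκ2.mul hkm
  rw [lintegral_prod _ hfm.aemeasurable]
  -- inner integral
  have hI : ∀ z : (ι → ℝ) × (ι → ℝ), ∫⁻ z', ENNReal.ofReal (kz e l z z') ∂(μ0.prod μ0) =
      ∫⁻ ξ' in Bx c r, ∫⁻ ζ' in Bx c r, ENNReal.ofReal (kz e l z (ξ', ζ')) := by
    intro z
    rw [lintegral_prod]
    exact (kz_meas e l (Z := fun _ => z) (Z' := fun w => w) measurable_const
      measurable_id).ennreal_ofReal.aemeasurable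
  have hIm : Measurable fun z : (ι → ℝ) × (ι → ℝ) =>
      ∫⁻ z', ENNReal.ofReal (kz e l z z') ∂(μ0.prod μ0) := hkm.lintegral_prod_right'
  have h1 : ∀ z : (ι → ℝ) × (ι → ℝ),
      ∫⁻ z', ENNReal.ofReal (‖G z.1 * conj (G z.2)‖ ^ 2 * kz e l z z') ∂(μ0.prod μ0) ≤
      ENNReal.ofReal (M ^ 2) * ENNReal.ofReal (‖G z.1‖ ^ 2) *
        ∫⁻ z', ENNReal.ofReal (kz e l z z') ∂(μ0.prod μ0) := by
    intro z
    rw [← ENNReal.ofReal_mul (by positivity), ← lintegral_const_mul' _ _ ENNReal.ofReal_ne_top]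
    apply lintegral_mono
    intro z'
    simp only
    rw [← ENNReal.ofReal_mul (by positivity)]
    apply ENNReal.ofReal_le_ofReal
    apply mul_le_mul_of_nonneg_right _ (kz_nonneg _ _ _ _)
    rw [norm_mul, Complex.norm_conj, mul_pow, mul_comm]
    apply mul_le_mul_of_nonneg_right _ (by positivity)
    exact pow_le_pow_left₀ (norm_nonneg _) (hM _) 2
  refine (lintegral_mono h1).trans ?_
  have hm2 : Measurable fun z : (ι → ℝ) × (ι → ℝ) =>
      ENNReal.ofReal (M ^ 2) * ENNReal.ofReal (‖G z.1‖ ^ 2) *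
        ∫⁻ z', ENNReal.ofReal (kz e l z z') ∂(μ0.prod μ0) :=
    (((hG.comp measurable_fst).norm.pow_const 2).ennreal_ofReal.const_mul _).mul hIm
  rw [lintegral_prod _ hm2.aemeasurable]
  set B : ℝ≥0∞ := volume (Bx c (r + ej rr)) * (volume (Bx (0 : ι → ℝ) ((2 : ℝ) • r + ej rr)) *
        ENNReal.ofReal (cβ * l ^ (-(β / 2)))) with hB
  calc ∫⁻ ξ, ∫⁻ ζ, ENNReal.ofReal (M ^ 2) * ENNReal.ofReal (‖G (ξ, ζ).1‖ ^ 2) *
        (∫⁻ z', ENNReal.ofReal (kz e l (ξ, ζ) z') ∂(μ0.prod μ0)) ∂μ0 ∂μ0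
      ≤ ∫⁻ ξ, ENNReal.ofReal (M ^ 2) * ENNReal.ofReal (‖G ξ‖ ^ 2) * B ∂μ0 := by
        apply lintegral_mono
        intro ξ
        simp only
        rw [lintegral_const_mul']
        · gcongr
          simp_rw [hI]
          exact hc e l he hl c r rr ξ
        · exact ENNReal.mul_ne_top ENNReal.ofReal_ne_top ENNReal.ofReal_ne_top
    _ ≤ ∫⁻ ξ, ENNReal.ofReal (M ^ 2) * ENNReal.ofReal (‖G ξ‖ ^ 2) * B :=
        setLIntegral_le_lintegral _ _
    _ = _ := by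
        have hBt : B ≠ ∞ := by
          rw [hB]
          exact ENNReal.mul_ne_top (Bx_volume_lt _ _).ne
            (ENNReal.mul_ne_top (Bx_volume_lt _ _).ne ENNReal.ofReal_ne_top)
        rw [lintegral_mul_const' _ _ hBt, lintegral_const_mul' _ _ ENNReal.ofReal_ne_top]

/-- `L⁴` estimate in a strip -/
lemma L4_strip {β : ℝ} (hβ : 0 < β) (hβ1 : β < 1) : ∃ cβ : ℝ, 0 ≤ cβ ∧
    ∀ (T : ℝ), 0 < T → ∀ (c r : ι → ℝ) (rr : ι) (G : (ι → ℝ) → ℂ) (M : ℝ),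
    Measurable G → (∀ ξ, ‖G ξ‖ ≤ M) → (∀ ξ, ξ ∉ Bx c r → G ξ = 0) →
    ∫⁻ p in strip ι T, ENNReal.ofReal (‖EI G p‖ ^ 4) ≤
      ENNReal.ofReal (M ^ 2) * (∫⁻ ξ, ENNReal.ofReal (‖G ξ‖ ^ 2)) *
      (volume (Bx c (r + ej rr)) * (volume (Bx (0 : ι → ℝ) ((2 : ℝ) • r + ej rr)) *
        ENNReal.ofReal (cβ * T ^ β))) := by
  obtain ⟨cβ, hc0, hc⟩ := L4_gauss (ι := ι) hβ hβ1
  refine ⟨Real.exp (4 * π) * cβ, by positivity, ?_⟩
  intro T hT c r rr G M hG hM hs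
  have hM0 : 0 ≤ M := (norm_nonneg _).trans (hM 0)
  set l : ℝ := (T ^ 2)⁻¹ with hl
  have hl0 : 0 < l := by positivity
  have hlβ : l ^ (-(β / 2)) = T ^ β := by
    rw [hl, Real.inv_rpow (by positivity), ← Real.rpow_neg (by positivity), neg_neg,
      ← Real.rpow_natCast, ← Real.rpow_mul hT.le]
    congr 1
    push_cast
    ring
  set B : ℝ≥0∞ := ENNReal.ofReal (M ^ 2) * (∫⁻ ξ, ENNReal.ofReal (‖G ξ‖ ^ 2)) *
      (volume (Bx c (r + ej rr)) * (volume (Bx (0 : ι → ℝ) ((2 : ℝ) • r + ej rr)) *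
        ENNReal.ofReal (cβ * T ^ β))) with hB
  have hEm : Measurable (EI G) := EI_meas hG
  -- boundedness of the extension
  obtain ⟨Kc, hKc⟩ : ∃ Kc : ℝ, ∀ p, ‖EI G p‖ ≤ Kc := by
    refine ⟨M * volume.real (Bx c r), fun p => ?_⟩
    rw [EI_eq_box hs]
    refine norm_setIntegral_le_of_norm_le_const (Bx_volume_lt c r) ?_
    intro ξ _
    rw [norm_mul, norm_ph2, mul_one]
    exact hM ξ
  have hle : ∀ N : ℕ, ∫⁻ p : (ι → ℝ) × ℝ, ENNReal.ofReal (gwI (1 / ((N : ℝ) + 1)) p.1) *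
      (ENNReal.ofReal (g1 l p.2) * ENNReal.ofReal (‖EI G p‖ ^ 4)) ≤ B := by
    intro N
    have he : 0 < 1 / ((N : ℝ) + 1) := by positivity
    have h1 := hc _ l he hl0 c r rr G M hG hM hs
    rw [hlβ] at h1
    refine le_trans (le_of_eq ?_) h1
    have hω : Integrable (fun p : (ι → ℝ) × ℝ => gwI (1 / ((N : ℝ) + 1)) p.1 * g1 l p.2) := by
      rw [Measure.volume_eq_prod]
      exact (gw_integrableI he).mul_prod (g1_integrable hl0)
    have hint : Integrable (fun p : (ι → ℝ) × ℝ =>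
        (gwI (1 / ((N : ℝ) + 1)) p.1 * g1 l p.2) * ‖EI G p‖ ^ 4) := by
      refine hω.mul_bdd (c := Kc ^ 4) (hEm.norm.pow_const 4).aestronglyMeasurable
        (Filter.Eventually.of_forall fun p => ?_)
      rw [Real.norm_of_nonneg (by positivity)]
      exact pow_le_pow_left₀ (norm_nonneg _) (hKc p) 4
    rw [ofReal_integral_eq_lintegral_ofReal hint
      (Filter.Eventually.of_forall fun p => mul_nonneg
        (mul_nonneg (gw_nonnegI _ _) (g1_nonneg _ _)) (by positivity))]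
    apply lintegral_congr
    intro p
    rw [ENNReal.ofReal_mul (mul_nonneg (gw_nonnegI _ _) (g1_nonneg _ _)),
      ENNReal.ofReal_mul (gw_nonnegI _ _), mul_assoc]
  have hlim : ∀ p : (ι → ℝ) × ℝ, Filter.liminf (fun N : ℕ =>
      ENNReal.ofReal (gwI (1 / ((N : ℝ) + 1)) p.1) *
      (ENNReal.ofReal (g1 l p.2) * ENNReal.ofReal (‖EI G p‖ ^ 4))) Filter.atTop =
        ENNReal.ofReal (g1 l p.2) * ENNReal.ofReal (‖EI G p‖ ^ 4) := by
    intro p
    apply Filter.Tendsto.liminf_eq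
    have h1 := ENNReal.Tendsto.mul_const (tendsto_gwI p.1)
      (b := ENNReal.ofReal (g1 l p.2) * ENNReal.ofReal (‖EI G p‖ ^ 4)) (Or.inl one_ne_zero)
    rw [one_mul] at h1
    exact h1
  have hfull : ∫⁻ p : (ι → ℝ) × ℝ, ENNReal.ofReal (g1 l p.2) * ENNReal.ofReal (‖EI G p‖ ^ 4) ≤ B := by
    calc ∫⁻ p : (ι → ℝ) × ℝ, ENNReal.ofReal (g1 l p.2) * ENNReal.ofReal (‖EI G p‖ ^ 4)
        = ∫⁻ p, Filter.liminf (fun N : ℕ => ENNReal.ofReal (gwI (1 / ((N : ℝ) + 1)) p.1) *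
            (ENNReal.ofReal (g1 l p.2) * ENNReal.ofReal (‖EI G p‖ ^ 4))) Filter.atTop := by
          simp_rw [hlim]
      _ ≤ Filter.liminf (fun N : ℕ => ∫⁻ p, ENNReal.ofReal (gwI (1 / ((N : ℝ) + 1)) p.1) *
            (ENNReal.ofReal (g1 l p.2) * ENNReal.ofReal (‖EI G p‖ ^ 4))) Filter.atTop := by
          apply lintegral_liminf_le
          intro N
          have h1 : Measurable fun p : (ι → ℝ) × ℝ =>
              ENNReal.ofReal (gwI (1 / ((N : ℝ) + 1)) p.1) := by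
            unfold gwI; fun_prop
          have h2 : Measurable fun p : (ι → ℝ) × ℝ => ENNReal.ofReal (g1 l p.2) := by
            unfold g1; fun_prop
          exact h1.mul (h2.mul (hEm.norm.pow_const 4).ennreal_ofReal)
      _ ≤ B := by
          refine (Filter.liminf_le_liminf (Filter.Eventually.of_forall hle)).trans ?_
          simp
  -- compare the weights
  have hw : ∀ p ∈ strip ι T, ENNReal.ofReal (‖EI G p‖ ^ 4) ≤ ENNReal.ofReal (Real.exp (4 * π)) *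
      (ENNReal.ofReal (g1 l p.2) * ENNReal.ofReal (‖EI G p‖ ^ 4)) := by
    intro p hp
    rw [← mul_assoc, ← ENNReal.ofReal_mul (by positivity)]
    have h1 : 1 ≤ Real.exp (4 * π) * g1 l p.2 := by
      unfold g1
      rw [← Real.exp_add]
      apply Real.one_le_exp
      have h2 : l * p.2 ^ 2 ≤ 4 := by
        rw [hl, inv_mul_le_iff₀ (by positivity), ← sq_abs p.2]
        have := hp.2
        have h3 := abs_nonneg p.2
        nlinarith
      have := Real.pi_pos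
      nlinarith
    calc ENNReal.ofReal (‖EI G p‖ ^ 4) = 1 * ENNReal.ofReal (‖EI G p‖ ^ 4) := (one_mul _).symm
      _ ≤ _ := by
        gcongr
        rw [← ENNReal.ofReal_one]
        exact ENNReal.ofReal_le_ofReal h1
  calc ∫⁻ p in strip ι T, ENNReal.ofReal (‖EI G p‖ ^ 4)
      ≤ ∫⁻ p in strip ι T, ENNReal.ofReal (Real.exp (4 * π)) *
        (ENNReal.ofReal (g1 l p.2) * ENNReal.ofReal (‖EI G p‖ ^ 4)) :=
        setLIntegral_mono' (strip_meas T) hw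
    _ ≤ ∫⁻ p : (ι → ℝ) × ℝ, ENNReal.ofReal (Real.exp (4 * π)) *
        (ENNReal.ofReal (g1 l p.2) * ENNReal.ofReal (‖EI G p‖ ^ 4)) := setLIntegral_le_lintegral _ _
    _ ≤ ENNReal.ofReal (Real.exp (4 * π)) * B := by
        rw [lintegral_const_mul' _ _ ENNReal.ofReal_ne_top]
        gcongr
    _ = _ := by
        rw [hB]
        have e1 : ENNReal.ofReal (Real.exp (4 * π) * cβ * T ^ β) =
            ENNReal.ofReal (Real.exp (4 * π)) * ENNReal.ofReal (cβ * T ^ β) := by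
          rw [mul_assoc, ENNReal.ofReal_mul (by positivity)]
        rw [e1]
        ring

end Pool.Agent.H.MP_b7167f_an
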