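import Mathlib
import Pool.Agent.H.MP_b7167f_an.L4c

/-!
Estimates for functions localised in a cell.
-/

namespace Pool.Agent.H.MP_b7167f_an

open MeasureTheory Complex ComplexConjugate Real Set ENNReal

variable {ι : Type*} [Fintype ι] [DecidableEq ι]

/-- a localised good function is supported in a box -/
lemma Loc_box {K M ρ : ℝ} {L : List ι} {G : (ι → ℝ) → ℂ} (hG : Good K M G)
    (hl : Loc {j | j ∈ L} ρ G) : ∃ c : ι → ℝ, ∀ ξ, ξ ∉ Bx c (fun i => if i ∈ L then ρ else K) →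
      G ξ = 0 := by
  obtain ⟨c, hc⟩ := hl
  refine ⟨fun i => if i ∈ L then c i else 0, ?_⟩
  intro ξ hξ
  by_contra h
  apply hξ
  rw [mem_Bx]
  intro i
  by_cases hi : i ∈ L
  · simp only [if_pos hi]
    exact hc ξ h i hi
  · simp only [if_neg hi, sub_zero]
    by_contra h2
    apply h
    apply hG.supp
    intro h3
    rw [SK_mem] at h3
    exact h2 (h3 i)

lemma prod_if (L : List ι) (hnd : L.Nodup) (x y : ℝ) :
    ∏ i : ι, (if i ∈ L then x else y) = x ^ L.length * y ^ (Fintype.card ι - L.length) := by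
  have h1 : ∏ i : ι, (if i ∈ L then x else y) = ∏ i : ι, (if i ∈ L.toFinset then x else y) := by
    apply Finset.prod_congr rfl
    intro i _
    simp only [List.mem_toFinset]
  rw [h1, Finset.prod_ite]
  rw [Finset.prod_const, Finset.prod_const]
  have h2 : (Finset.univ.filter fun i => i ∈ L.toFinset) = L.toFinset := by
    ext i; simp
  have h3 : (Finset.univ.filter fun i => i ∉ L.toFinset) = L.toFinsetᶜ := by
    ext i; simp
  rw [h2, h3, Finset.card_compl, List.toFinset_card_of_nodup hnd]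

/-- volume bounds of boxes -/
lemma box_vol {L : List ι} (hnd : L.Nodup) {ρ K : ℝ} (hρ : 0 ≤ ρ) (hK : 0 ≤ K)
    {r : ι → ℝ} (hr0 : ∀ i, 0 ≤ r i) (hr : ∀ i, r i ≤ if i ∈ L then 2 * ρ else 2 * K + 1)
    (c : ι → ℝ) : volume (Bx c r) ≤
      ENNReal.ofReal ((4 * (2 * K + 2)) ^ (Fintype.card ι) * ρ ^ L.length) := by
  rw [Bx_volume, ← ENNReal.ofReal_prod_of_nonneg (fun i _ => by
    have := hr0 i; positivity)]
  apply ENNReal.ofReal_le_ofReal
  have h1 : ∏ i, (2 * r i) ≤ ∏ i : ι, (4 * (2 * K + 2)) * (if i ∈ L then ρ else 1) := by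
    apply Finset.prod_le_prod
    · intro i _
      have := hr0 i; positivity
    · intro i _
      have h2 := hr i
      split_ifs at h2 ⊢
      · nlinarith
      · nlinarith
  refine h1.trans (le_of_eq ?_)
  rw [Finset.prod_mul_distrib, Finset.prod_const, Finset.card_univ, prod_if L hnd, one_pow, mul_one]

/-- mass of a localised function -/
lemma cell_mass {K M ρ : ℝ} (hK : 0 ≤ K) (hρ : 0 ≤ ρ) {L : List ι} (hnd : L.Nodup)
    {G : (ι → ℝ) → ℂ} (hG : Good K M G) (hl : Loc {j | j ∈ L} ρ G) :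
    ∫ ξ, ‖G ξ‖ ^ 2 ≤ (4 * (2 * K + 2)) ^ (Fintype.card ι) * ρ ^ L.length * M ^ 2 := by
  obtain ⟨c, hc⟩ := Loc_box hG hl
  set r : ι → ℝ := fun i => if i ∈ L then ρ else K with hr
  have hr0 : ∀ i, 0 ≤ r i := fun i => by rw [hr]; simp only; split_ifs <;> assumption
  have hvol := box_vol hnd hρ hK (r := r) hr0 (fun i => by
    rw [hr]; simp only; split_ifs <;> linarith) c
  have e1 : ∫ ξ, ‖G ξ‖ ^ 2 = ∫ ξ in Bx c r, ‖G ξ‖ ^ 2 := by
    rw [setIntegral_eq_integral_of_forall_compl_eq_zero]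
    intro ξ hξ
    rw [hc ξ hξ]; simp
  rw [e1]
  have h1 : ‖∫ ξ in Bx c r, ‖G ξ‖ ^ 2‖ ≤ M ^ 2 * volume.real (Bx c r) := by
    refine norm_setIntegral_le_of_norm_le_const (Bx_volume_lt c r) ?_
    intro ξ _
    rw [Real.norm_of_nonneg (by positivity)]
    exact pow_le_pow_left₀ (norm_nonneg _) (hG.bdd ξ) 2
  have h2 : volume.real (Bx c r) ≤ (4 * (2 * K + 2)) ^ (Fintype.card ι) * ρ ^ L.length :=
    ENNReal.toReal_le_of_le_ofReal (by positivity) hvol
  refine (le_abs_self _).trans (h1.trans ?_)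
  rw [mul_comm]
  exact mul_le_mul_of_nonneg_right h2 (by positivity)

lemma mass_lint {K M : ℝ} {G : (ι → ℝ) → ℂ} (hG : Good K M G) :
    ∫⁻ ξ, ENNReal.ofReal (‖G ξ‖ ^ 2) = ENNReal.ofReal (∫ ξ, ‖G ξ‖ ^ 2) := by
  rw [ofReal_integral_eq_lintegral_ofReal hG.sq_integrable
    (Filter.Eventually.of_forall fun ξ => by positivity)]

/-- elementary inequality -/
lemma interp_pt {θ μ z : ℝ} (hθ : 0 < θ) (hθ1 : θ < 1) (hμ : 0 < μ) (hz : 0 ≤ z) :
    z ^ (1 + θ) ≤ μ ^ θ * z + μ ^ (θ - 1) * z ^ 2 := by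
  rcases hz.eq_or_lt with h | hz0
  · rw [← h, Real.zero_rpow (by linarith)]
    simp
  have h1 : 0 ≤ μ ^ θ * z := by positivity
  have h2 : 0 ≤ μ ^ (θ - 1) * z ^ 2 := by positivity
  rcases le_total z μ with h | h
  · have : z ^ (1 + θ) ≤ μ ^ θ * z := by
      rw [Real.rpow_add hz0, Real.rpow_one, mul_comm]
      exact mul_le_mul_of_nonneg_right (Real.rpow_le_rpow hz h hθ.le) hz
    linarith
  · have : z ^ (1 + θ) ≤ μ ^ (θ - 1) * z ^ 2 := by
      have e : z ^ (1 + θ) = z ^ (θ - 1) * z ^ 2 := by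
        rw [← Real.rpow_natCast, ← Real.rpow_add hz0]
        congr 1
        push_cast
        ring
      rw [e]
      exact mul_le_mul_of_nonneg_right (Real.rpow_le_rpow_of_nonpos hμ h (by linarith))
        (by positivity)
    linarith

lemma energy_strip {K M T : ℝ} (hT : 0 ≤ T) {G : (ι → ℝ) → ℂ} (hG : Good K M G) :
    ∫⁻ p in strip ι T, ENNReal.ofReal (‖EI G p‖ ^ 2) ≤ ENNReal.ofReal (4 * T * ∫ ξ, ‖G ξ‖ ^ 2) := by
  have h1 := strip_energy hG.meas hG.supp hG.bdd (T := 2 * T) (by linarith)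
  have e : ∀ p : (ι → ℝ) × ℝ, ENNReal.ofReal (‖EI G p‖ ^ 2) = ‖EI G p‖ₑ ^ 2 := by
    intro p
    rw [ENNReal.ofReal_pow (norm_nonneg _), ofReal_norm]
  simp_rw [e]
  refine (lintegral_mono_set ?_).trans (h1.trans (le_of_eq ?_))
  · intro p hp
    exact hp.2
  · congr 1
    ring

/-- the estimate in a cell based on the `L⁴` bound -/
lemma cell_FZ {θ β K : ℝ} (hθ : 0 < θ) (hθ1 : θ < 1) (hβ : 0 < β) (hβ1 : β < 1) (hK : 0 ≤ K)
    (L : List ι) (hnd : L.Nodup) (rr : ι) (hrr : rr ∉ L) : ∃ C : ℝ, 0 ≤ C ∧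
    ∀ (T ρ M : ℝ), 0 < T → 0 < ρ → 0 < M → ∀ G : (ι → ℝ) → ℂ, Good K M G →
    Loc {j | j ∈ L} ρ G →
    Phi (2 + 2 * θ) T G ≤ ENNReal.ofReal (C * (ρ ^ (2 * (L.length : ℝ) * θ) * M ^ (2 * θ) *
      T ^ (1 - θ + β * θ)) * ∫ ξ, ‖G ξ‖ ^ 2) := by
  obtain ⟨cβ, hc0, hc⟩ := L4_strip (ι := ι) hβ hβ1
  set c1 : ℝ := (4 * (2 * K + 2)) ^ (Fintype.card ι) with hc1
  have hc1p : 0 ≤ c1 := by positivity
  refine ⟨4 + c1 * c1 * cβ, by positivity, ?_⟩
  intro T ρ M hT hρ hM G hG hl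
  obtain ⟨c, hcc⟩ := Loc_box hG hl
  set r : ι → ℝ := fun i => if i ∈ L then ρ else K with hr
  set m : ℕ := L.length with hm
  set V : ℝ := ∫ ξ, ‖G ξ‖ ^ 2 with hV
  have hV0 : 0 ≤ V := integral_nonneg fun ξ => by positivity
  have hr0 : ∀ i, 0 ≤ r i := fun i => by
    rw [hr]; simp only; split_ifs
    · exact hρ.le
    · exact hK
  have hv1 : volume (Bx c (r + ej rr)) ≤ ENNReal.ofReal (c1 * ρ ^ m) := by
    apply box_vol hnd hρ.le hK
    · intro i
      have : 0 ≤ ej rr i := by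
        unfold ej
        by_cases hi : i = rr
        · subst hi; simp
        · simp [hi]
      have := hr0 i
      simp only [Pi.add_apply]
      positivity
    · intro i
      simp only [Pi.add_apply]
      rw [hr]
      simp only
      split_ifs with hi
      · have : ej rr i = 0 := ej_ne (fun h => hrr (h ▸ hi))
        rw [this]; linarith
      · have : ej rr i ≤ 1 := by
          by_cases h : i = rr
          · subst h; simp
          · rw [ej_ne h]; norm_num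
        linarith
  have hv2 : volume (Bx (0 : ι → ℝ) ((2 : ℝ) • r + ej rr)) ≤ ENNReal.ofReal (c1 * ρ ^ m) := by
    apply box_vol hnd hρ.le hK
    · intro i
      have : 0 ≤ ej rr i := by
        unfold ej
        by_cases hi : i = rr
        · subst hi; simp
        · simp [hi]
      have := hr0 i
      simp only [Pi.add_apply, Pi.smul_apply, smul_eq_mul]
      positivity
    · intro i
      simp only [Pi.add_apply, Pi.smul_apply, smul_eq_mul]
      rw [hr]
      simp only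
      split_ifs with hi
      · have : ej rr i = 0 := ej_ne (fun h => hrr (h ▸ hi))
        rw [this]; linarith
      · have : ej rr i ≤ 1 := by
          by_cases h : i = rr
          · subst h; simp
          · rw [ej_ne h]; norm_num
        linarith
  have hL4 : ∫⁻ p in strip ι T, ENNReal.ofReal (‖EI G p‖ ^ 4) ≤
      ENNReal.ofReal (M ^ 2 * V * (c1 * ρ ^ m * (c1 * ρ ^ m * (cβ * T ^ β)))) := by
    refine (hc T hT c r rr G M hG.meas hG.bdd hcc).trans ?_
    rw [mass_lint hG, ENNReal.ofReal_mul (p := M ^ 2 * V) (by positivity),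
      ENNReal.ofReal_mul (p := M ^ 2) (by positivity),
      ENNReal.ofReal_mul (p := c1 * ρ ^ m) (q := c1 * ρ ^ m * (cβ * T ^ β)) (by positivity),
      ENNReal.ofReal_mul (p := c1 * ρ ^ m) (q := cβ * T ^ β) (by positivity)]
    gcongr
  have hE := energy_strip hT.le hG
  set μ : ℝ := ρ ^ (2 * m) * M ^ 2 * T ^ (β - 1) with hμ
  have hμ0 : 0 < μ := by positivity
  have hpt : ∀ p : (ι → ℝ) × ℝ, ENNReal.ofReal (‖EI G p‖ ^ (2 + 2 * θ)) ≤
      ENNReal.ofReal (μ ^ θ) * ENNReal.ofReal (‖EI G p‖ ^ 2) +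
        ENNReal.ofReal (μ ^ (θ - 1)) * ENNReal.ofReal (‖EI G p‖ ^ 4) := by
    intro p
    rw [← ENNReal.ofReal_mul (by positivity), ← ENNReal.ofReal_mul (by positivity),
      ← ENNReal.ofReal_add (by positivity) (by positivity)]
    apply ENNReal.ofReal_le_ofReal
    have h1 := interp_pt hθ hθ1 hμ0 (z := ‖EI G p‖ ^ 2) (by positivity)
    have e1 : (‖EI G p‖ ^ 2) ^ (1 + θ) = ‖EI G p‖ ^ (2 + 2 * θ) := by
      rw [← Real.rpow_natCast, ← Real.rpow_mul (norm_nonneg _)]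
      congr 1
      push_cast
      ring
    have e2 : (‖EI G p‖ ^ 2) ^ 2 = ‖EI G p‖ ^ 4 := by ring
    rw [e1, e2] at h1
    exact h1
  have hEm := EI_meas hG.meas
  unfold Phi
  calc ∫⁻ p in strip ι T, ENNReal.ofReal (‖EI G p‖ ^ (2 + 2 * θ))
      ≤ ∫⁻ p in strip ι T, (ENNReal.ofReal (μ ^ θ) * ENNReal.ofReal (‖EI G p‖ ^ 2) +
        ENNReal.ofReal (μ ^ (θ - 1)) * ENNReal.ofReal (‖EI G p‖ ^ 4)) := lintegral_mono hpt
    _ = ENNReal.ofReal (μ ^ θ) * (∫⁻ p in strip ι T, ENNReal.ofReal (‖EI G p‖ ^ 2)) +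
        ENNReal.ofReal (μ ^ (θ - 1)) * ∫⁻ p in strip ι T, ENNReal.ofReal (‖EI G p‖ ^ 4) := by
        rw [lintegral_add_left ((hEm.norm.pow_const 2).ennreal_ofReal.const_mul _),
          lintegral_const_mul' _ _ ENNReal.ofReal_ne_top,
          lintegral_const_mul' _ _ ENNReal.ofReal_ne_top]
    _ ≤ ENNReal.ofReal (μ ^ θ) * ENNReal.ofReal (4 * T * V) + ENNReal.ofReal (μ ^ (θ - 1)) *
        ENNReal.ofReal (M ^ 2 * V * (c1 * ρ ^ m * (c1 * ρ ^ m * (cβ * T ^ β)))) := by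
        gcongr
    _ = ENNReal.ofReal (μ ^ θ * (4 * T * V) + μ ^ (θ - 1) *
        (M ^ 2 * V * (c1 * ρ ^ m * (c1 * ρ ^ m * (cβ * T ^ β))))) := by
        rw [← ENNReal.ofReal_mul (by positivity), ← ENNReal.ofReal_mul (by positivity),
          ← ENNReal.ofReal_add (by positivity) (by positivity)]
    _ = _ := by
        congr 1
        have e0 : (ρ ^ (2 * m) * M ^ 2) ^ θ = ρ ^ (2 * (m : ℝ) * θ) * M ^ (2 * θ) := by
          rw [Real.mul_rpow (by positivity) (by positivity), ← Real.rpow_natCast,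
            ← Real.rpow_natCast M, ← Real.rpow_mul hρ.le, ← Real.rpow_mul hM.le]
          push_cast
          rfl
        have e1 : μ ^ θ * T = ρ ^ (2 * (m : ℝ) * θ) * M ^ (2 * θ) * T ^ (1 - θ + β * θ) := by
          rw [hμ, Real.mul_rpow (by positivity) (by positivity), e0, ← Real.rpow_mul hT.le]
          have : T ^ ((β - 1) * θ) * T = T ^ (1 - θ + β * θ) := by
            nth_rewrite 2 [← Real.rpow_one T]
            rw [← Real.rpow_add hT]
            congr 1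
            ring
          rw [mul_assoc, this]
        have e2 : μ ^ (θ - 1) * (M ^ 2 * ρ ^ (2 * m) * T ^ β) =
            ρ ^ (2 * (m : ℝ) * θ) * M ^ (2 * θ) * T ^ (1 - θ + β * θ) := by
          have h3 : M ^ 2 * ρ ^ (2 * m) * T ^ β = μ * T := by
            rw [hμ]
            have : T ^ (β - 1) * T = T ^ β := by
              nth_rewrite 2 [← Real.rpow_one T]
              rw [← Real.rpow_add hT]
              congr 1
              ring
            rw [mul_assoc (ρ ^ (2 * m) * M ^ 2), this]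
            ring
          rw [h3, ← mul_assoc, ← e1]
          congr 1
          nth_rewrite 2 [← Real.rpow_one μ]
          rw [← Real.rpow_add hμ0]
          congr 1
          ring
        have e3 : μ ^ θ * (4 * T * V) = 4 * (μ ^ θ * T) * V := by ring
        have e4 : μ ^ (θ - 1) * (M ^ 2 * V * (c1 * ρ ^ m * (c1 * ρ ^ m * (cβ * T ^ β)))) =
            c1 * c1 * cβ * (μ ^ (θ - 1) * (M ^ 2 * ρ ^ (2 * m) * T ^ β)) * V := by
          have : ρ ^ (2 * m) = ρ ^ m * ρ ^ m := by rw [two_mul, pow_add]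
          rw [this]
          ring
        rw [e3, e4, e1, e2]
        ring

/-- the estimate in a cell based on the local `L²` bound -/
lemma cell_TS [Nonempty ι] {θ K lam : ℝ} (hθ : 0 < θ) (hθn : θ < 2 / (Fintype.card ι : ℝ))
    (hK : 0 ≤ K) (hl0 : 0 ≤ lam) (hl1 : lam ≤ 1)
    (L : List ι) (hnd : L.Nodup) : ∃ C : ℝ, 0 ≤ C ∧
    ∀ (T ρ M V : ℝ), 1 ≤ T → 0 < ρ → 0 < M → 0 < V → ∀ G : (ι → ℝ) → ℂ, Good K M G →
    Loc {j | j ∈ L} ρ G → ∫ ξ, ‖G ξ‖ ^ 2 ≤ V →
    Phi (2 + 2 * θ) T G ≤ ENNReal.ofReal (C * (T ^ (1 - θ * (Fintype.card ι) / 2) *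
      ((ρ ^ (L.length : ℝ) * M ^ 2) ^ ((1 - lam) * θ) * V ^ (lam * θ))) * ∫ ξ, ‖G ξ‖ ^ 2) := by
  obtain ⟨C0, hC00, hC0⟩ := local_TS (ι := ι) (q := 2 + 2 * θ) (by linarith) (by
    have : 2 * θ < 4 / (Fintype.card ι : ℝ) := by
      have h2 : (4 : ℝ) / (Fintype.card ι : ℝ) = 2 * (2 / (Fintype.card ι : ℝ)) := by ring
      rw [h2]; linarith
    linarith) hK
  set n : ℝ := (Fintype.card ι : ℝ) with hn
  have hn0 : 0 < n := by rw [hn]; exact_mod_cast Fintype.card_pos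
  set c1 : ℝ := (4 * (2 * K + 2)) ^ (Fintype.card ι) with hc1
  have hc1p : 0 ≤ c1 := by positivity
  refine ⟨C0 * 2 * c1 ^ ((1 - lam) * θ), by positivity, ?_⟩
  intro T ρ M V hT hρ hM hV G hG hl hmass
  have hT0 : 0 < T := by linarith
  set m : ℕ := L.length with hm
  set A : ℝ := ∫ ξ, ‖G ξ‖ ^ 2 with hA
  have hA0 : 0 ≤ A := integral_nonneg fun ξ => by positivity
  have hγ : 0 ≤ 1 - θ * n / 2 := by
    have : θ * n < 2 := by rwa [lt_div_iff₀ hn0] at hθn
    linarith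
  have h1 := hC0 G hG.meas hG.supp ⟨M, hG.bdd⟩ (2 * T) (by linarith)
  have e1 : 1 - (2 + 2 * θ - 2) * n / 4 = 1 - θ * n / 2 := by ring
  have e2 : (2 + 2 * θ) / 2 = 1 + θ := by ring
  rw [← hA, e1, e2] at h1
  have h2 : Phi (2 + 2 * θ) T G ≤
      ENNReal.ofReal (C0 * (2 * T) ^ (1 - θ * n / 2) * A ^ (1 + θ)) := by
    refine le_trans ?_ h1
    unfold Phi
    have e : ∀ p : (ι → ℝ) × ℝ, ENNReal.ofReal (‖EI G p‖ ^ (2 + 2 * θ)) =
        ‖EI G p‖ₑ ^ (2 + 2 * θ) := by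
      intro p
      rw [← ENNReal.ofReal_rpow_of_nonneg (norm_nonneg _) (by linarith), ofReal_norm]
    simp_rw [e]
    exact lintegral_mono_set fun p hp => hp.2
  refine h2.trans (ENNReal.ofReal_le_ofReal ?_)
  have h3 : (2 * T) ^ (1 - θ * n / 2) ≤ 2 * T ^ (1 - θ * n / 2) := by
    rw [Real.mul_rpow (by norm_num) hT0.le]
    apply mul_le_mul_of_nonneg_right _ (by positivity)
    have : (2 : ℝ) ^ (1 - θ * n / 2) ≤ 2 ^ (1 : ℝ) :=
      Real.rpow_le_rpow_of_exponent_le (by norm_num) (by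
        have : 0 ≤ θ * n / 2 := by positivity
        linarith)
    rwa [Real.rpow_one] at this
  have h4 : A ^ (1 + θ) ≤ (c1 ^ ((1 - lam) * θ) * ((ρ ^ (m : ℝ) * M ^ 2) ^ ((1 - lam) * θ) *
      V ^ (lam * θ))) * A := by
    rcases hA0.eq_or_lt with h | h
    · rw [← h, Real.zero_rpow (by linarith), mul_zero]
    · rw [Real.rpow_add h, Real.rpow_one, mul_comm]
      apply mul_le_mul_of_nonneg_right _ hA0
      have e3 : A ^ θ = A ^ ((1 - lam) * θ) * A ^ (lam * θ) := by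
        rw [← Real.rpow_add h]
        congr 1
        ring
      rw [e3, ← mul_assoc, ← Real.mul_rpow hc1p (by positivity)]
      apply mul_le_mul _ _ (by positivity) (by positivity)
      · apply Real.rpow_le_rpow hA0 _ (by nlinarith)
        have := cell_mass hK hρ.le hnd hG hl
        rw [← hA, ← hc1, mul_assoc] at this
        rw [Real.rpow_natCast]
        exact this
      · exact Real.rpow_le_rpow hA0 hmass (by positivity)
  have hb : 0 ≤ T ^ (1 - θ * n / 2) := by positivity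
  calc C0 * (2 * T) ^ (1 - θ * n / 2) * A ^ (1 + θ)
      ≤ C0 * (2 * T ^ (1 - θ * n / 2)) * ((c1 ^ ((1 - lam) * θ) *
        ((ρ ^ (m : ℝ) * M ^ 2) ^ ((1 - lam) * θ) * V ^ (lam * θ))) * A) := by
        apply mul_le_mul _ h4 (by positivity) (by positivity)
        exact mul_le_mul_of_nonneg_left h3 hC00
    _ = _ := by ring

end Pool.Agent.H.MP_b7167f_an
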