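import Mathlib
import Pool.Agent.H.MP_b7167f_an.Cell

/-!
The chain of scales.
-/

namespace Pool.Agent.H.MP_b7167f_an

open MeasureTheory Complex ComplexConjugate Real Set ENNReal

variable {ι : Type*} [Fintype ι] [DecidableEq ι]

omit [DecidableEq ι] in
lemma EI_add {X Y : (ι → ℝ) → ℂ} (hX : Integrable X) (hY : Integrable Y) (p : (ι → ℝ) × ℝ) :
    EI (fun ξ => X ξ + Y ξ) p = EI X p + EI Y p := by
  unfold EI
  have h : ∀ {Z : (ι → ℝ) → ℂ}, Integrable Z → Integrable fun ξ => Z ξ * ph2 p ξ := by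
    intro Z hZ
    exact hZ.mul_bdd (c := 1) (continuous_ph2_right p).measurable.aestronglyMeasurable
      (Filter.Eventually.of_forall fun ξ => by rw [norm_ph2])
  rw [← integral_add (h hX) (h hY)]
  congr 1
  ext ξ
  ring

lemma rpow_add_le {q x y : ℝ} (hq : 0 ≤ q) (hx : 0 ≤ x) (hy : 0 ≤ y) :
    (x + y) ^ q ≤ 2 ^ q * (x ^ q + y ^ q) := by
  have h1 : x + y ≤ 2 * max x y := by linarith [le_max_left x y, le_max_right x y]
  have h0 : 0 ≤ max x y := hx.trans (le_max_left _ _)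
  calc (x + y) ^ q ≤ (2 * max x y) ^ q := Real.rpow_le_rpow (by positivity) h1 hq
    _ = 2 ^ q * (max x y) ^ q := Real.mul_rpow (by norm_num) h0
    _ ≤ _ := by
      apply mul_le_mul_of_nonneg_left _ (by positivity)
      rcases max_cases x y with h | h
      · rw [h.1]; linarith [Real.rpow_nonneg hy q]
      · rw [h.1]; linarith [Real.rpow_nonneg hx q]

omit [DecidableEq ι] in
lemma Phi_add {q T : ℝ} (hq : 0 ≤ q) {X Y : (ι → ℝ) → ℂ} (hX : Integrable X) (hY : Integrable Y)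
    (hXm : Measurable X) :
    Phi q T (fun ξ => X ξ + Y ξ) ≤ ENNReal.ofReal (2 ^ q) * (Phi q T X + Phi q T Y) := by
  unfold Phi
  rw [← lintegral_add_left ((EI_meas hXm).norm.pow_const q).ennreal_ofReal,
    ← lintegral_const_mul' _ _ ENNReal.ofReal_ne_top]
  apply lintegral_mono
  intro p
  simp only
  rw [EI_add hX hY, ← ENNReal.ofReal_add (by positivity) (by positivity),
    ← ENNReal.ofReal_mul (by positivity)]
  apply ENNReal.ofReal_le_ofReal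
  refine (Real.rpow_le_rpow (norm_nonneg _) (norm_add_le _ _) hq).trans ?_
  exact rpow_add_le hq (norm_nonneg _) (norm_nonneg _)

omit [Fintype ι] [DecidableEq ι] in
lemma Loc_nil (ρ : ℝ) (F : (ι → ℝ) → ℂ) : Loc {j | j ∈ ([] : List ι)} ρ F :=
  ⟨0, fun ξ _ j hj => absurd hj (by simp)⟩

omit [Fintype ι] [DecidableEq ι] in
lemma Loc_empty (ρ : ℝ) (F : (ι → ℝ) → ℂ) : Loc (∅ : Set ι) ρ F :=
  ⟨0, fun ξ _ j hj => absurd hj (by simp)⟩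

lemma good_mass {K M : ℝ} (hK : 0 ≤ K) {G : (ι → ℝ) → ℂ} (hG : Good K M G) :
    ∫ ξ, ‖G ξ‖ ^ 2 ≤ (4 * (2 * K + 2)) ^ (Fintype.card ι) * M ^ 2 := by
  have := cell_mass hK zero_le_one (L := []) List.nodup_nil hG (Loc_nil 1 G)
  simpa using this

/-- scale conditions -/
lemma scale_cond {T a : ℝ} (hT : 1 ≤ T) (ha : 1 / 2 ≤ a) :
    1 ≤ T ^ a ∧ 0 < T ^ (a - 1) ∧ 1 ≤ T ^ (a - 1) * T ^ a ∧ T ^ (a - 1) * T = T ^ a := by
  have hT0 : 0 < T := by linarith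
  refine ⟨Real.one_le_rpow hT (by linarith), by positivity, ?_, ?_⟩
  · rw [← Real.rpow_add hT0]
    exact Real.one_le_rpow hT (by linarith)
  · nth_rewrite 2 [← Real.rpow_one T]
    rw [← Real.rpow_add hT0]
    congr 1
    ring

/-- the generic step: from an estimate in cells to an estimate for `PL L (T^a) H` -/
lemma step {q : ℝ} (hq : 1 < q) (L : List ι) (hnd : L.Nodup) {a : ℝ} (ha : 1 / 2 ≤ a) :
    ∃ C : ℝ, 0 < C ∧ ∀ (K M V T A : ℝ), 1 ≤ T → 0 ≤ A → ∀ H : (ι → ℝ) → ℂ, Good K M H →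
    ∫ ξ, ‖H ξ‖ ^ 2 ≤ V →
    (∀ G : (ι → ℝ) → ℂ, Good (K + L.length) (2 ^ L.length * M) G →
      Loc {j | j ∈ L} (T ^ (a - 1)) G → ∫ ξ, ‖G ξ‖ ^ 2 ≤ 4 ^ L.length * V →
      Phi q T G ≤ ENNReal.ofReal (A * ∫ ξ, ‖G ξ‖ ^ 2)) →
    Phi q T (PL L (T ^ a) H) ≤ ENNReal.ofReal (C * A * V) := by
  obtain ⟨C, hC0, hC⟩ := SC_ind (ι := ι) hq L hnd
  refine ⟨C, hC0, ?_⟩
  intro K M V T A hT hA H hH hV hyp
  obtain ⟨h1, h2, h3, h4⟩ := scale_cond hT ha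
  have := hC ∅ (fun j _ => by simp) K M V (T ^ a) (T ^ (a - 1)) T A h1 h2 h3 h4 hA H hH
    (Loc_empty _ _) hV (by
      intro G hG hl hGV
      rw [empty_union] at hl
      exact hyp G hG hl hGV)
  refine this.trans (ENNReal.ofReal_le_ofReal ?_)
  exact mul_le_mul_of_nonneg_left hV (by positivity)

/-- exponent bookkeeping for the first kind of estimate -/
lemma book1 {T Λ c c' m θ lam s a a' γ : ℝ} (hT : 0 < T) (hΛ : 0 < Λ) (hc : 0 < c) (hc' : 0 < c') :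
    T ^ γ * (((T ^ (a - 1)) ^ m * (c * Λ) ^ 2) ^ ((1 - lam) * θ) *
      (c' * (Λ * (T ^ a') ^ (-s)) ^ 2) ^ (lam * θ)) * (Λ * (T ^ a') ^ (-s)) ^ 2 =
    ((c ^ 2) ^ ((1 - lam) * θ) * c' ^ (lam * θ)) * (Λ ^ (2 + 2 * θ) *
      T ^ (γ - (1 - a) * m * θ * (1 - lam) - 2 * a' * s * (1 + lam * θ))) := by
  have e1 : (T ^ (a - 1)) ^ m = T ^ ((a - 1) * m) := by rw [← Real.rpow_mul hT.le]
  have e2 : (Λ * (T ^ a') ^ (-s)) ^ 2 = Λ ^ (2 : ℝ) * T ^ (-(2 * a' * s)) := by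
    rw [mul_pow, ← Real.rpow_mul hT.le, ← Real.rpow_natCast (T ^ (a' * -s)),
      ← Real.rpow_mul hT.le, Real.rpow_two]
    congr 2
    push_cast
    ring
  have e3 : (c * Λ) ^ 2 = c ^ 2 * Λ ^ (2 : ℝ) := by rw [mul_pow, Real.rpow_two]
  rw [e1, e2, e3, Real.mul_rpow (by positivity) (by positivity),
    Real.mul_rpow (by positivity) (by positivity), Real.mul_rpow (by positivity) (by positivity),
    Real.mul_rpow (by positivity) (by positivity), ← Real.rpow_mul hT.le, ← Real.rpow_mul hΛ.le,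
    ← Real.rpow_mul hΛ.le, ← Real.rpow_mul hT.le]
  have e4 : Λ ^ (2 + 2 * θ) = Λ ^ (2 * ((1 - lam) * θ)) * Λ ^ (2 * (lam * θ)) * Λ ^ (2 : ℝ) := by
    rw [← Real.rpow_add hΛ, ← Real.rpow_add hΛ]
    congr 1
    ring
  have e5 : T ^ (γ - (1 - a) * m * θ * (1 - lam) - 2 * a' * s * (1 + lam * θ)) =
      T ^ γ * T ^ ((a - 1) * m * ((1 - lam) * θ)) * T ^ (-(2 * a' * s) * (lam * θ)) *
        T ^ (-(2 * a' * s)) := by
    rw [← Real.rpow_add hT, ← Real.rpow_add hT, ← Real.rpow_add hT]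
    congr 1
    ring
  rw [e4, e5]
  ring

/-- exponent bookkeeping for the second kind of estimate -/
lemma book2 {T Λ c m θ s a a' γ : ℝ} (hT : 0 < T) (hΛ : 0 < Λ) (hc : 0 < c) :
    ((T ^ (a - 1)) ^ (2 * m * θ) * (c * Λ) ^ (2 * θ) * T ^ γ) * (Λ * (T ^ a') ^ (-s)) ^ 2 =
    c ^ (2 * θ) * (Λ ^ (2 + 2 * θ) * T ^ (γ - 2 * m * θ * (1 - a) - 2 * a' * s)) := by
  have e1 : (T ^ (a - 1)) ^ (2 * m * θ) = T ^ ((a - 1) * (2 * m * θ)) := by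
    rw [← Real.rpow_mul hT.le]
  have e2 : (Λ * (T ^ a') ^ (-s)) ^ 2 = Λ ^ (2 : ℝ) * T ^ (-(2 * a' * s)) := by
    rw [mul_pow, ← Real.rpow_mul hT.le, ← Real.rpow_natCast (T ^ (a' * -s)),
      ← Real.rpow_mul hT.le, Real.rpow_two]
    congr 2
    push_cast
    ring
  rw [e1, e2, Real.mul_rpow hc.le hΛ.le]
  have e4 : Λ ^ (2 + 2 * θ) = Λ ^ (2 * θ) * Λ ^ (2 : ℝ) := by
    rw [← Real.rpow_add hΛ]
    congr 1
    ring
  have e5 : T ^ (γ - 2 * m * θ * (1 - a) - 2 * a' * s) =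
      T ^ ((a - 1) * (2 * m * θ)) * T ^ γ * T ^ (-(2 * a' * s)) := by
    rw [← Real.rpow_add hT, ← Real.rpow_add hT]
    congr 1
    ring
  rw [e4, e5]
  ring

section

variable {θ s : ℝ} {L : List ι}

/-- middle estimate, first kind -/
lemma mid_TS [Nonempty ι] {lam a a' : ℝ} (hθ : 0 < θ) (hθn : θ < 2 / (Fintype.card ι : ℝ))
    (hs : 0 ≤ s) (hl0 : 0 ≤ lam) (hl1 : lam ≤ 1) (hnd : L.Nodup) (ha : 1 / 2 ≤ a)
    (ha' : 0 ≤ a') {K : ℝ} (hK : 0 ≤ K) :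
    ∃ C : ℝ, 0 ≤ C ∧ ∀ (T Λ : ℝ), 1 ≤ T → 0 < Λ → ∀ F : (ι → ℝ) → ℂ, Good K Λ F →
      Modu L s Λ F → Phi (2 + 2 * θ) T (PL L (T ^ a) (fun ξ => F ξ - PL L (T ^ a') F ξ)) ≤
        ENNReal.ofReal (C * (Λ ^ (2 + 2 * θ) * T ^ (1 - θ * (Fintype.card ι) / 2 -
          (1 - a) * L.length * θ * (1 - lam) - 2 * a' * s * (1 + lam * θ)))) := by
  set m : ℕ := L.length with hm
  have hmn : (0 : ℝ) ≤ m := Nat.cast_nonneg _
  obtain ⟨c, hc0, hc⟩ := one_sub_PL hs L L (fun j hj => hj)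
  obtain ⟨C1, hC10, hC1⟩ := cell_TS hθ hθn (K := K + m + m) (by positivity) hl0 hl1 L hnd
  obtain ⟨C2, hC20, hC2⟩ := step (ι := ι) (q := 2 + 2 * θ) (by linarith) L hnd ha
  refine ⟨C2 * C1 * (c + 1) * (((2 ^ m * 2) ^ 2) ^ ((1 - lam) * θ) *
    (4 ^ m * (c + 1)) ^ (lam * θ)), by positivity, ?_⟩
  intro T Λ hT hΛ F hF hmod
  have hT0 : 0 < T := by linarith
  have hTa' : 1 ≤ T ^ a' := Real.one_le_rpow hT ha'
  have hTa : 1 ≤ T ^ a := Real.one_le_rpow hT (by linarith)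
  have hH : Good (K + m) (2 * Λ) (fun ξ => F ξ - PL L (T ^ a') F ξ) := by
    have := (hF.mono (by linarith : K ≤ K + m) le_rfl).sub (PL_good hTa' L hF)
    exact this.mono le_rfl (by linarith)
  set X : ℝ := (Λ * (T ^ a') ^ (-s)) ^ 2 with hX
  have hX0 : 0 < X := by positivity
  have hV : ∫ ξ, ‖F ξ - PL L (T ^ a') F ξ‖ ^ 2 ≤ (c + 1) * X := by
    refine (hc K Λ (T ^ a') Λ hTa' F hF hmod).trans ?_
    rw [← hX]; nlinarith
  set A : ℝ := C1 * (T ^ (1 - θ * (Fintype.card ι) / 2) *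
      (((T ^ (a - 1)) ^ (m : ℝ) * (2 ^ m * 2 * Λ) ^ 2) ^ ((1 - lam) * θ) *
        (4 ^ m * (c + 1) * X) ^ (lam * θ))) with hA
  have hA0 : 0 ≤ A := by positivity
  have h1 := hC2 (K + m) (2 * Λ) ((c + 1) * X) T A hT hA0 _ hH hV (by
    intro G hG hGl hGV
    have h2 := hC1 T (T ^ (a - 1)) (2 ^ m * 2 * Λ) (4 ^ m * (c + 1) * X) hT (by positivity)
      (by positivity) (by positivity) G (hG.mono le_rfl (by rw [mul_assoc])) hGl (by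
        rw [mul_assoc]; exact hGV)
    exact h2)
  refine h1.trans (ENNReal.ofReal_le_ofReal (le_of_eq ?_))
  have hb := book1 (T := T) (Λ := Λ) (c := 2 ^ m * 2) (c' := 4 ^ m * (c + 1)) (m := m) (θ := θ)
    (lam := lam) (s := s) (a := a) (a' := a') (γ := 1 - θ * (Fintype.card ι) / 2) hT0 hΛ
    (by positivity) (by positivity)
  rw [hA]
  calc C2 * (C1 * (T ^ (1 - θ * (Fintype.card ι) / 2) *
      (((T ^ (a - 1)) ^ (m : ℝ) * (2 ^ m * 2 * Λ) ^ 2) ^ ((1 - lam) * θ) *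
        (4 ^ m * (c + 1) * X) ^ (lam * θ)))) * ((c + 1) * X)
      = C2 * C1 * (c + 1) * (T ^ (1 - θ * (Fintype.card ι) / 2) *
      (((T ^ (a - 1)) ^ (m : ℝ) * (2 ^ m * 2 * Λ) ^ 2) ^ ((1 - lam) * θ) *
        (4 ^ m * (c + 1) * X) ^ (lam * θ)) * X) := by ring
    _ = _ := by
      rw [hX, hb]
      ring

/-- middle estimate, second kind -/
lemma mid_FZ {β a a' : ℝ} (hθ : 0 < θ) (hθ1 : θ < 1) (hβ : 0 < β) (hβ1 : β < 1)
    (hs : 0 ≤ s) (hnd : L.Nodup) (rr : ι) (hrr : rr ∉ L) (ha : 1 / 2 ≤ a)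
    (ha' : 0 ≤ a') {K : ℝ} (hK : 0 ≤ K) :
    ∃ C : ℝ, 0 ≤ C ∧ ∀ (T Λ : ℝ), 1 ≤ T → 0 < Λ → ∀ F : (ι → ℝ) → ℂ, Good K Λ F →
      Modu L s Λ F → Phi (2 + 2 * θ) T (PL L (T ^ a) (fun ξ => F ξ - PL L (T ^ a') F ξ)) ≤
        ENNReal.ofReal (C * (Λ ^ (2 + 2 * θ) * T ^ (1 - θ + β * θ -
          2 * L.length * θ * (1 - a) - 2 * a' * s))) := by
  set m : ℕ := L.length with hm
  have hmn : (0 : ℝ) ≤ m := Nat.cast_nonneg _
  obtain ⟨c, hc0, hc⟩ := one_sub_PL hs L L (fun j hj => hj)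
  obtain ⟨C1, hC10, hC1⟩ := cell_FZ hθ hθ1 hβ hβ1 (K := K + m + m) (by positivity) L hnd rr hrr
  obtain ⟨C2, hC20, hC2⟩ := step (ι := ι) (q := 2 + 2 * θ) (by linarith) L hnd ha
  refine ⟨C2 * C1 * (c + 1) * (2 ^ m * 2) ^ (2 * θ), by positivity, ?_⟩
  intro T Λ hT hΛ F hF hmod
  have hT0 : 0 < T := by linarith
  have hTa' : 1 ≤ T ^ a' := Real.one_le_rpow hT ha'
  have hH : Good (K + m) (2 * Λ) (fun ξ => F ξ - PL L (T ^ a') F ξ) := by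
    have := (hF.mono (by linarith : K ≤ K + m) le_rfl).sub (PL_good hTa' L hF)
    exact this.mono le_rfl (by linarith)
  set X : ℝ := (Λ * (T ^ a') ^ (-s)) ^ 2 with hX
  have hX0 : 0 < X := by positivity
  have hV : ∫ ξ, ‖F ξ - PL L (T ^ a') F ξ‖ ^ 2 ≤ (c + 1) * X := by
    refine (hc K Λ (T ^ a') Λ hTa' F hF hmod).trans ?_
    rw [← hX]; nlinarith
  set A : ℝ := C1 * ((T ^ (a - 1)) ^ (2 * (m : ℝ) * θ) * (2 ^ m * 2 * Λ) ^ (2 * θ) *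
      T ^ (1 - θ + β * θ)) with hA
  have hA0 : 0 ≤ A := by positivity
  have h1 := hC2 (K + m) (2 * Λ) ((c + 1) * X) T A hT hA0 _ hH hV (by
    intro G hG hGl hGV
    exact hC1 T (T ^ (a - 1)) (2 ^ m * 2 * Λ) hT0 (by positivity)
      (by positivity) G (hG.mono le_rfl (by rw [mul_assoc])) hGl)
  refine h1.trans (ENNReal.ofReal_le_ofReal (le_of_eq ?_))
  have hb := book2 (T := T) (Λ := Λ) (c := 2 ^ m * 2) (m := m) (θ := θ)
    (s := s) (a := a) (a' := a') (γ := 1 - θ + β * θ) hT0 hΛ (by positivity)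
  rw [hA]
  calc C2 * (C1 * ((T ^ (a - 1)) ^ (2 * (m : ℝ) * θ) * (2 ^ m * 2 * Λ) ^ (2 * θ) *
      T ^ (1 - θ + β * θ))) * ((c + 1) * X)
      = C2 * C1 * (c + 1) * (((T ^ (a - 1)) ^ (2 * (m : ℝ) * θ) * (2 ^ m * 2 * Λ) ^ (2 * θ) *
      T ^ (1 - θ + β * θ)) * X) := by ring
    _ = _ := by
      rw [hX, hb]
      ring

/-- low frequency estimate -/
lemma low {β : ℝ} (hθ : 0 < θ) (hθ1 : θ < 1) (hβ : 0 < β) (hβ1 : β < 1)
    (hnd : L.Nodup) (rr : ι) (hrr : rr ∉ L) {K : ℝ} (hK : 0 ≤ K) :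
    ∃ C : ℝ, 0 ≤ C ∧ ∀ (T Λ : ℝ), 1 ≤ T → 0 < Λ → ∀ F : (ι → ℝ) → ℂ, Good K Λ F →
      Phi (2 + 2 * θ) T (PL L (T ^ (1 / 2 : ℝ)) F) ≤
        ENNReal.ofReal (C * (Λ ^ (2 + 2 * θ) * T ^ (1 - θ + β * θ - L.length * θ))) := by
  set m : ℕ := L.length with hm
  have hmn : (0 : ℝ) ≤ m := Nat.cast_nonneg _
  obtain ⟨C1, hC10, hC1⟩ := cell_FZ hθ hθ1 hβ hβ1 (K := K + m) (by positivity) L hnd rr hrr
  obtain ⟨C2, hC20, hC2⟩ := step (ι := ι) (q := 2 + 2 * θ) (by linarith) L hnd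
    (a := 1 / 2) le_rfl
  set c : ℝ := (4 * (2 * K + 2)) ^ (Fintype.card ι) with hc
  have hc0 : 0 ≤ c := by positivity
  refine ⟨C2 * C1 * c * (2 ^ m) ^ (2 * θ), by positivity, ?_⟩
  intro T Λ hT hΛ F hF
  have hT0 : 0 < T := by linarith
  have hV : ∫ ξ, ‖F ξ‖ ^ 2 ≤ c * Λ ^ 2 := good_mass hK hF
  set A : ℝ := C1 * ((T ^ ((1 / 2 : ℝ) - 1)) ^ (2 * (m : ℝ) * θ) * (2 ^ m * Λ) ^ (2 * θ) *
      T ^ (1 - θ + β * θ)) with hA
  have hA0 : 0 ≤ A := by positivity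
  have h1 := hC2 K Λ (c * Λ ^ 2) T A hT hA0 _ hF hV (by
    intro G hG hGl hGV
    exact hC1 T (T ^ ((1 / 2 : ℝ) - 1)) (2 ^ m * Λ) hT0 (by positivity)
      (by positivity) G hG hGl)
  refine h1.trans (ENNReal.ofReal_le_ofReal (le_of_eq ?_))
  have hb := book2 (T := T) (Λ := Λ) (c := 2 ^ m) (m := m) (θ := θ)
    (s := 0) (a := 1 / 2) (a' := 0) (γ := 1 - θ + β * θ) hT0 hΛ (by positivity)
  have e0 : (Λ * (T ^ (0 : ℝ)) ^ (-(0 : ℝ))) ^ 2 = Λ ^ 2 := by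
    rw [Real.rpow_zero, neg_zero, Real.rpow_zero, mul_one]
  rw [e0] at hb
  have e1 : 1 - θ + β * θ - 2 * (m : ℝ) * θ * (1 - 1 / 2) - 2 * 0 * 0 =
      1 - θ + β * θ - m * θ := by ring
  rw [e1] at hb
  rw [hA]
  calc C2 * (C1 * ((T ^ ((1 / 2 : ℝ) - 1)) ^ (2 * (m : ℝ) * θ) * (2 ^ m * Λ) ^ (2 * θ) *
      T ^ (1 - θ + β * θ))) * (c * Λ ^ 2)
      = C2 * C1 * c * (((T ^ ((1 / 2 : ℝ) - 1)) ^ (2 * (m : ℝ) * θ) * (2 ^ m * Λ) ^ (2 * θ) *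
      T ^ (1 - θ + β * θ)) * Λ ^ 2) := by ring
    _ = _ := by
      rw [hb]
      ring

/-- high frequency estimate -/
lemma high [Nonempty ι] (hθ : 0 < θ) (hθn : θ < 2 / (Fintype.card ι : ℝ))
    (hs : 0 ≤ s) {K : ℝ} (hK : 0 ≤ K) :
    ∃ C : ℝ, 0 ≤ C ∧ ∀ (T Λ : ℝ), 1 ≤ T → 0 < Λ → ∀ F : (ι → ℝ) → ℂ, Good K Λ F →
      Modu L s Λ F → Phi (2 + 2 * θ) T (fun ξ => F ξ - PL L T F ξ) ≤
        ENNReal.ofReal (C * (Λ ^ (2 + 2 * θ) * T ^ (1 - θ * (Fintype.card ι) / 2 -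
          2 * s * (1 + θ)))) := by
  set m : ℕ := L.length with hm
  have hmn : (0 : ℝ) ≤ m := Nat.cast_nonneg _
  obtain ⟨c, hc0, hc⟩ := one_sub_PL hs L L (fun j hj => hj)
  obtain ⟨C1, hC10, hC1⟩ := cell_TS hθ hθn (K := K + m) (lam := 1) (by positivity) zero_le_one
    le_rfl ([] : List ι) List.nodup_nil
  refine ⟨C1 * (c + 1) * (c + 1) ^ θ, by positivity, ?_⟩
  intro T Λ hT hΛ F hF hmod
  have hT0 : 0 < T := by linarith
  have hH : Good (K + m) (2 * Λ) (fun ξ => F ξ - PL L T F ξ) := by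
    have := (hF.mono (by linarith : K ≤ K + m) le_rfl).sub (PL_good hT L hF)
    exact this.mono le_rfl (by linarith)
  set X : ℝ := (Λ * T ^ (-s)) ^ 2 with hX
  have hX0 : 0 < X := by positivity
  have hV : ∫ ξ, ‖F ξ - PL L T F ξ‖ ^ 2 ≤ (c + 1) * X := by
    refine (hc K Λ T Λ hT F hF hmod).trans ?_
    rw [← hX]; nlinarith
  have h1 := hC1 T 1 (2 * Λ) ((c + 1) * X) hT one_pos (by positivity) (by positivity) _ hH
    (Loc_nil _ _) hV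
  refine h1.trans (ENNReal.ofReal_le_ofReal ?_)
  have h2 : C1 * (T ^ (1 - θ * (Fintype.card ι) / 2) *
      (((1 : ℝ) ^ (([] : List ι).length : ℝ) * (2 * Λ) ^ 2) ^ ((1 - 1) * θ) *
        ((c + 1) * X) ^ (1 * θ))) * ∫ ξ, ‖F ξ - PL L T F ξ‖ ^ 2 ≤
      C1 * (T ^ (1 - θ * (Fintype.card ι) / 2) *
      (((1 : ℝ) ^ (([] : List ι).length : ℝ) * (2 * Λ) ^ 2) ^ ((1 - 1) * θ) *
        ((c + 1) * X) ^ (1 * θ))) * ((c + 1) * X) :=
    mul_le_mul_of_nonneg_left hV (by positivity)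
  refine h2.trans (le_of_eq ?_)
  have e1 : X = Λ ^ (2 : ℝ) * T ^ (-(2 * s)) := by
    rw [hX, mul_pow, ← Real.rpow_natCast (T ^ (-s)), ← Real.rpow_mul hT0.le, Real.rpow_two]
    congr 2
    push_cast
    ring
  have e2 : ((1 : ℝ) ^ (([] : List ι).length : ℝ) * (2 * Λ) ^ 2) ^ (((1 : ℝ) - 1) * θ) = 1 := by
    rw [sub_self, zero_mul, Real.rpow_zero]
  rw [e2, one_mul, one_mul, e1, Real.mul_rpow (by positivity) (by positivity),
    Real.mul_rpow (by positivity) (by positivity), ← Real.rpow_mul hΛ.le, ← Real.rpow_mul hT0.le]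
  have e4 : Λ ^ (2 + 2 * θ) = Λ ^ (2 * θ) * Λ ^ (2 : ℝ) := by
    rw [← Real.rpow_add hΛ]
    congr 1
    ring
  have e5 : T ^ (1 - θ * (Fintype.card ι) / 2 - 2 * s * (1 + θ)) =
      T ^ (1 - θ * (Fintype.card ι) / 2) * T ^ (-(2 * s) * θ) * T ^ (-(2 * s)) := by
    rw [← Real.rpow_add hT0, ← Real.rpow_add hT0]
    congr 1
    ring
  rw [e4, e5]
  ring

end

end Pool.Agent.H.MP_b7167f_an
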