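import Mathlib
import Pool.Agent.H.MP_b7167f_an.Chain

/-!
The chain of scales: conclusion.
-/

namespace Pool.Agent.H.MP_b7167f_an

open MeasureTheory Complex ComplexConjugate Real Set ENNReal

variable {ι : Type*} [Fintype ι] [DecidableEq ι]

/-- scales -/
noncomputable def sc (J i : ℕ) : ℝ := 1 / 2 + (i : ℝ) / (2 * J)

/-- conditions on the parameters -/
structure Cond (n m : ℕ) (θ s : ℝ) : Prop where
  hθ : 0 < θ
  hθ1 : θ < 1
  hθn : θ * n < 2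
  hs : 0 ≤ s
  ex : ∃ (β lam ε : ℝ) (J : ℕ), 0 < β ∧ β < 1 ∧ 0 ≤ lam ∧ lam ≤ 1 ∧ 0 < ε ∧ 1 ≤ J ∧
    (1 - θ + β * θ - m * θ ≤ -ε) ∧ (1 - θ * n / 2 - 2 * s * (1 + θ) ≤ -ε) ∧
    ∀ i < J, (1 - θ * n / 2 - (1 - sc J (i + 1)) * m * θ * (1 - lam) -
        2 * sc J i * s * (1 + lam * θ) ≤ -ε) ∨
      (1 - θ + β * θ - 2 * m * θ * (1 - sc J (i + 1)) - 2 * sc J i * s ≤ -ε)

lemma strip_bound [Nonempty ι] {θ s : ℝ} {L : List ι} (hnd : L.Nodup) (rr : ι) (hrr : rr ∉ L)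
    (hcond : Cond (Fintype.card ι) L.length θ s) :
    ∃ ε : ℝ, 0 < ε ∧ ∀ K : ℝ, 0 ≤ K → ∃ C : ℝ, 0 ≤ C ∧ ∀ (T Λ : ℝ), 1 ≤ T → 0 < Λ →
      ∀ F : (ι → ℝ) → ℂ, Good K Λ F → Modu L s Λ F →
      Phi (2 + 2 * θ) T F ≤ ENNReal.ofReal (C * (Λ ^ (2 + 2 * θ) * T ^ (-ε))) := by
  obtain ⟨β, lam, ε, J, hβ, hβ1, hl0, hl1, hε, hJ, hlow, hhigh, hmid⟩ := hcond.ex
  have hθ := hcond.hθ
  have hθ1 := hcond.hθ1
  have hs := hcond.hs
  have hn0 : (0 : ℝ) < (Fintype.card ι : ℝ) := by exact_mod_cast Fintype.card_pos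
  have hθn : θ < 2 / (Fintype.card ι : ℝ) := by
    rw [lt_div_iff₀ hn0]; exact hcond.hθn
  set m : ℕ := L.length with hm
  set q : ℝ := 2 + 2 * θ with hq
  have hq0 : 0 ≤ q := by linarith
  have hsc : ∀ i : ℕ, 1 / 2 ≤ sc J i := by
    intro i
    unfold sc
    have : (0 : ℝ) ≤ (i : ℝ) / (2 * J) := by positivity
    linarith
  refine ⟨ε, hε, ?_⟩
  -- comparison of powers
  have hpow : ∀ (C T Λ x : ℝ), 0 ≤ C → 1 ≤ T → 0 < Λ → x ≤ -ε →
      ENNReal.ofReal (C * (Λ ^ q * T ^ x)) ≤ ENNReal.ofReal (C * (Λ ^ q * T ^ (-ε))) := by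
    intro C T Λ x hC hT hΛ hx
    apply ENNReal.ofReal_le_ofReal
    apply mul_le_mul_of_nonneg_left _ hC
    apply mul_le_mul_of_nonneg_left _ (by positivity)
    exact Real.rpow_le_rpow_of_exponent_le hT hx
  -- the induction
  have hind : ∀ i : ℕ, i ≤ J → ∀ K : ℝ, 0 ≤ K → ∃ C : ℝ, 0 ≤ C ∧ ∀ (T Λ : ℝ), 1 ≤ T → 0 < Λ →
      ∀ F : (ι → ℝ) → ℂ, Good K Λ F → Modu L s Λ F →
      Phi q T (PL L (T ^ (sc J i)) F) ≤ ENNReal.ofReal (C * (Λ ^ q * T ^ (-ε))) := by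
    intro i
    induction i with
    | zero =>
      intro _ K hK
      obtain ⟨C, hC0, hC⟩ := low hθ hθ1 hβ hβ1 hnd rr hrr hK
      refine ⟨C, hC0, ?_⟩
      intro T Λ hT hΛ F hF hmod
      have e0 : sc J 0 = 1 / 2 := by unfold sc; simp
      rw [e0]
      refine (hC T Λ hT hΛ F hF).trans (hpow C T Λ _ hC0 hT hΛ ?_)
      exact hlow
    | succ i ih =>
      intro hi K hK
      have hmn : (0 : ℝ) ≤ m := Nat.cast_nonneg _
      obtain ⟨C1, hC10, hC1⟩ := ih (by omega) (K + m) (by positivity)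
      have hmidi : ∃ C : ℝ, 0 ≤ C ∧ ∀ (T Λ : ℝ), 1 ≤ T → 0 < Λ → ∀ F : (ι → ℝ) → ℂ, Good K Λ F →
          Modu L s Λ F → Phi q T (PL L (T ^ (sc J (i + 1)))
            (fun ξ => F ξ - PL L (T ^ (sc J i)) F ξ)) ≤
            ENNReal.ofReal (C * (Λ ^ q * T ^ (-ε))) := by
        rcases hmid i (by omega) with h | h
        · obtain ⟨C, hC0, hC⟩ := mid_TS (L := L) (lam := lam) (a := sc J (i + 1)) (a' := sc J i)
            hθ hθn hs hl0 hl1 hnd (hsc _) (by linarith [hsc i]) hK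
          exact ⟨C, hC0, fun T Λ hT hΛ F hF hmod =>
            (hC T Λ hT hΛ F hF hmod).trans (hpow C T Λ _ hC0 hT hΛ h)⟩
        · obtain ⟨C, hC0, hC⟩ := mid_FZ (L := L) (a := sc J (i + 1)) (a' := sc J i)
            hθ hθ1 hβ hβ1 hs hnd rr hrr (hsc _) (by linarith [hsc i]) hK
          exact ⟨C, hC0, fun T Λ hT hΛ F hF hmod =>
            (hC T Λ hT hΛ F hF hmod).trans (hpow C T Λ _ hC0 hT hΛ h)⟩
      obtain ⟨C2, hC20, hC2⟩ := hmidi
      refine ⟨2 ^ q * (C1 + C2), by positivity, ?_⟩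
      intro T Λ hT hΛ F hF hmod
      have ha : 1 ≤ T ^ (sc J (i + 1)) := Real.one_le_rpow hT (by linarith [hsc (i + 1)])
      have ha' : 1 ≤ T ^ (sc J i) := Real.one_le_rpow hT (by linarith [hsc i])
      have hP := PL_good ha L hF
      have hP' := PL_good ha' L hF
      have hF' := hF.mono (by linarith : K ≤ K + m) le_rfl
      have h1 := hC1 T Λ hT hΛ (PL L (T ^ (sc J (i + 1))) F) hP (PL_modu ha hF hmod L)
      have h2 := hC2 T Λ hT hΛ F hF hmod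
      have hsub := hF'.sub hP'
      have e1 : PL L (T ^ (sc J (i + 1))) F = fun ξ =>
          PL L (T ^ (sc J i)) (PL L (T ^ (sc J (i + 1))) F) ξ +
          PL L (T ^ (sc J (i + 1))) (fun ξ => F ξ - PL L (T ^ (sc J i)) F ξ) ξ := by
        rw [PL_sub ha L hF' hP', ← PL_PL ha ha' L L hF]
        ext ξ
        simp only
        ring
      rw [e1]
      refine (Phi_add hq0 (PL_good ha' L hP).integrable (PL_good ha L hsub).integrable
        (PL_good ha' L hP).meas).trans ?_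
      calc ENNReal.ofReal (2 ^ q) * (Phi q T (PL L (T ^ (sc J i)) (PL L (T ^ (sc J (i + 1))) F)) +
            Phi q T (PL L (T ^ (sc J (i + 1))) (fun ξ => F ξ - PL L (T ^ (sc J i)) F ξ)))
          ≤ ENNReal.ofReal (2 ^ q) * (ENNReal.ofReal (C1 * (Λ ^ q * T ^ (-ε))) +
            ENNReal.ofReal (C2 * (Λ ^ q * T ^ (-ε)))) := by gcongr
        _ = _ := by
          have hT0 : 0 < T := by linarith
          rw [← ENNReal.ofReal_add (by positivity) (by positivity),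
            ← ENNReal.ofReal_mul (by positivity)]
          congr 1
          ring
  intro K hK
  obtain ⟨C1, hC10, hC1⟩ := hind J le_rfl K hK
  obtain ⟨C2, hC20, hC2⟩ := high (L := L) hθ hθn hs hK
  refine ⟨2 ^ q * (C1 + C2), by positivity, ?_⟩
  intro T Λ hT hΛ F hF hmod
  have hT0 : 0 < T := by linarith
  have eJ : sc J J = 1 := by
    unfold sc
    have : (J : ℝ) ≠ 0 := by
      have : (1 : ℝ) ≤ J := by exact_mod_cast hJ
      linarith
    field_simp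
    ring
  have h1 := hC1 T Λ hT hΛ F hF hmod
  rw [eJ, Real.rpow_one] at h1
  have h2 := (hC2 T Λ hT hΛ F hF hmod).trans (hpow C2 T Λ _ hC20 hT hΛ hhigh)
  have hP := PL_good hT L hF
  have hmn : (0 : ℝ) ≤ m := Nat.cast_nonneg _
  have hF' := hF.mono (by linarith : K ≤ K + m) le_rfl
  have e1 : F = fun ξ => PL L T F ξ + (F ξ - PL L T F ξ) := by
    ext ξ; ring
  have h3 := Phi_add (q := q) (T := T) hq0 hP.integrable (hF'.sub hP).integrable hP.meas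
  rw [← e1] at h3
  refine h3.trans ?_
  calc ENNReal.ofReal (2 ^ q) * (Phi q T (PL L T F) + Phi q T (fun ξ => F ξ - PL L T F ξ))
      ≤ ENNReal.ofReal (2 ^ q) * (ENNReal.ofReal (C1 * (Λ ^ q * T ^ (-ε))) +
        ENNReal.ofReal (C2 * (Λ ^ q * T ^ (-ε)))) := by gcongr
    _ = _ := by
      rw [← ENNReal.ofReal_add (by positivity) (by positivity),
        ← ENNReal.ofReal_mul (by positivity)]
      congr 1
      ring

/-- sup bound -/
lemma EI_sup_good {K M : ℝ} {F : (ι → ℝ) → ℂ} (hF : Good K M F) (p : (ι → ℝ) × ℝ) :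
    ‖EI F p‖ ≤ volume.real (SK ι K) * M := by
  rw [EI_eq_set hF.supp, mul_comm]
  refine norm_setIntegral_le_of_norm_le_const (volume_SK_lt K) ?_
  intro ξ _
  rw [norm_mul, norm_ph2, mul_one]
  exact hF.bdd ξ

/-- the global bound for one exponent -/
lemma global_bound [Nonempty ι] {θ s : ℝ} {L : List ι} (hnd : L.Nodup) (rr : ι) (hrr : rr ∉ L)
    (hcond : Cond (Fintype.card ι) L.length θ s) {K : ℝ} (hK : 0 ≤ K) :
    ∃ C : ℝ, 0 ≤ C ∧ ∀ (Λ : ℝ), 0 < Λ → ∀ F : (ι → ℝ) → ℂ, Good K Λ F → Modu L s Λ F →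
      ∫⁻ p, ENNReal.ofReal (‖EI F p‖ ^ (2 + 2 * θ)) ≤ ENNReal.ofReal (C * Λ ^ (2 + 2 * θ)) := by
  obtain ⟨ε, hε, hstrip⟩ := strip_bound hnd rr hrr hcond
  obtain ⟨C1, hC10, hC1⟩ := hstrip K hK
  have hθ := hcond.hθ
  set q : ℝ := 2 + 2 * θ with hq
  set v : ℝ := volume.real (SK ι K) with hv
  have hv0 : 0 ≤ v := measureReal_nonneg
  set c : ℝ := (4 * (2 * K + 2)) ^ (Fintype.card ι) with hc
  have hc0 : 0 ≤ c := by positivity
  set x : ℝ := 2 ^ (-ε) with hx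
  have hx0 : 0 < x := by positivity
  have hx1 : x < 1 := Real.rpow_lt_one_of_one_lt_of_neg (by norm_num) (by linarith)
  have hxs : Summable fun l : ℕ => x ^ l := summable_geometric_of_lt_one hx0.le hx1
  refine ⟨v ^ (2 * θ) * (2 * c) + C1 * (1 - x)⁻¹, by
    have : 0 < 1 - x := by linarith
    positivity, ?_⟩
  intro Λ hΛ F hF hmod
  have hcover : (univ : Set ((ι → ℝ) × ℝ)) ⊆ {p | |p.2| ≤ 1} ∪ ⋃ l : ℕ, strip ι (2 ^ l) := by
    intro p _
    by_cases h : |p.2| ≤ 1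
    · exact Or.inl h
    · right
      have h1 : 1 ≤ |p.2| := (not_le.mp h).le
      obtain ⟨l, hl1, hl2⟩ := exists_nat_pow_near h1 (by norm_num : (1 : ℝ) < 2)
      rw [mem_iUnion]
      refine ⟨l, hl1, ?_⟩
      rw [pow_succ] at hl2
      linarith
  have hA : ∫⁻ p in {p : (ι → ℝ) × ℝ | |p.2| ≤ 1}, ENNReal.ofReal (‖EI F p‖ ^ q) ≤
      ENNReal.ofReal (v ^ (2 * θ) * (2 * c) * Λ ^ q) := by
    have h1 := strip_energy hF.meas hF.supp hF.bdd (T := 1) zero_le_one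
    have h2 : ∀ p : (ι → ℝ) × ℝ, ENNReal.ofReal (‖EI F p‖ ^ q) ≤
        ENNReal.ofReal ((v * Λ) ^ (2 * θ)) * ‖EI F p‖ₑ ^ 2 := by
      intro p
      rw [← ofReal_norm, ← ENNReal.ofReal_pow (norm_nonneg _), ← ENNReal.ofReal_mul (by positivity)]
      apply ENNReal.ofReal_le_ofReal
      have e1 : ‖EI F p‖ ^ q = ‖EI F p‖ ^ (2 * θ) * ‖EI F p‖ ^ 2 := by
        rw [hq, ← Real.rpow_natCast, ← Real.rpow_add' (norm_nonneg _) (by push_cast; positivity)]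
        congr 1
        push_cast
        ring
      rw [e1]
      apply mul_le_mul_of_nonneg_right _ (by positivity)
      exact Real.rpow_le_rpow (norm_nonneg _) (EI_sup_good hF p) (by linarith)
    calc ∫⁻ p in {p : (ι → ℝ) × ℝ | |p.2| ≤ 1}, ENNReal.ofReal (‖EI F p‖ ^ q)
        ≤ ∫⁻ p in {p : (ι → ℝ) × ℝ | |p.2| ≤ 1},
          ENNReal.ofReal ((v * Λ) ^ (2 * θ)) * ‖EI F p‖ₑ ^ 2 := lintegral_mono h2
      _ = ENNReal.ofReal ((v * Λ) ^ (2 * θ)) *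
          ∫⁻ p in {p : (ι → ℝ) × ℝ | |p.2| ≤ 1}, ‖EI F p‖ₑ ^ 2 :=
          lintegral_const_mul' _ _ ENNReal.ofReal_ne_top
      _ ≤ ENNReal.ofReal ((v * Λ) ^ (2 * θ)) * ENNReal.ofReal (2 * 1 * ∫ ξ, ‖F ξ‖ ^ 2) := by
          gcongr
      _ ≤ ENNReal.ofReal ((v * Λ) ^ (2 * θ)) * ENNReal.ofReal (2 * (c * Λ ^ 2)) := by
          refine mul_le_mul' le_rfl (ENNReal.ofReal_le_ofReal ?_)
          rw [mul_one]
          exact mul_le_mul_of_nonneg_left (good_mass hK hF) (by norm_num)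
      _ = _ := by
          rw [← ENNReal.ofReal_mul (by positivity)]
          congr 1
          have e2 : Λ ^ q = Λ ^ (2 * θ) * Λ ^ 2 := by
            rw [hq, ← Real.rpow_natCast, ← Real.rpow_add hΛ]
            congr 1
            push_cast
            ring
          rw [Real.mul_rpow hv0 hΛ.le, e2]
          ring
  have hB : ∫⁻ p in ⋃ l : ℕ, strip ι (2 ^ l), ENNReal.ofReal (‖EI F p‖ ^ q) ≤
      ENNReal.ofReal (C1 * (1 - x)⁻¹ * Λ ^ q) := by
    refine (lintegral_iUnion_le _ _).trans ?_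
    calc ∑' l : ℕ, ∫⁻ p in strip ι (2 ^ l), ENNReal.ofReal (‖EI F p‖ ^ q)
        ≤ ∑' l : ℕ, ENNReal.ofReal (C1 * Λ ^ q * x ^ l) := by
          apply ENNReal.tsum_le_tsum
          intro l
          refine (hC1 (2 ^ l) Λ (one_le_pow₀ (by norm_num)) hΛ F hF hmod).trans (le_of_eq ?_)
          congr 1
          have : ((2 : ℝ) ^ l) ^ (-ε) = x ^ l := by
            rw [hx, ← Real.rpow_natCast, ← Real.rpow_natCast, ← Real.rpow_mul (by norm_num),
              ← Real.rpow_mul (by norm_num)]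
            congr 1
            ring
          rw [this]
          ring
      _ = ENNReal.ofReal (∑' l : ℕ, C1 * Λ ^ q * x ^ l) := by
          rw [ENNReal.ofReal_tsum_of_nonneg (fun l => by positivity) (hxs.mul_left _)]
      _ = _ := by
          rw [tsum_mul_left, tsum_geometric_of_lt_one hx0.le hx1]
          congr 1
          ring
  calc ∫⁻ p, ENNReal.ofReal (‖EI F p‖ ^ q) = ∫⁻ p in univ, ENNReal.ofReal (‖EI F p‖ ^ q) := by
        rw [Measure.restrict_univ]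
    _ ≤ ∫⁻ p in {p | |p.2| ≤ 1} ∪ ⋃ l : ℕ, strip ι (2 ^ l), ENNReal.ofReal (‖EI F p‖ ^ q) :=
        lintegral_mono_set hcover
    _ ≤ _ := lintegral_union_le _ _ _
    _ ≤ ENNReal.ofReal (v ^ (2 * θ) * (2 * c) * Λ ^ q) +
        ENNReal.ofReal (C1 * (1 - x)⁻¹ * Λ ^ q) := add_le_add hA hB
    _ = _ := by
        have : 0 < 1 - x := by linarith
        rw [← ENNReal.ofReal_add (by positivity) (by positivity)]
        congr 1
        ring

/-- the global bound for all larger exponents -/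
lemma global_bound' [Nonempty ι] {θ s : ℝ} {L : List ι} (hnd : L.Nodup) (rr : ι) (hrr : rr ∉ L)
    (hcond : Cond (Fintype.card ι) L.length θ s) {K : ℝ} (hK : 0 ≤ K) {q : ℝ}
    (hq : 2 + 2 * θ ≤ q) :
    ∃ C : ℝ, 0 ≤ C ∧ ∀ (Λ : ℝ), 0 < Λ → ∀ F : (ι → ℝ) → ℂ, Good K Λ F → Modu L s Λ F →
      ∫⁻ p, ENNReal.ofReal (‖EI F p‖ ^ q) ≤ ENNReal.ofReal (C * Λ ^ q) := by
  obtain ⟨C, hC0, hC⟩ := global_bound hnd rr hrr hcond hK
  have hθ := hcond.hθ
  set v : ℝ := volume.real (SK ι K) with hv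
  have hv0 : 0 ≤ v := measureReal_nonneg
  refine ⟨v ^ (q - (2 + 2 * θ)) * C, by positivity, ?_⟩
  intro Λ hΛ F hF hmod
  have h1 : ∀ p : (ι → ℝ) × ℝ, ENNReal.ofReal (‖EI F p‖ ^ q) ≤
      ENNReal.ofReal ((v * Λ) ^ (q - (2 + 2 * θ))) * ENNReal.ofReal (‖EI F p‖ ^ (2 + 2 * θ)) := by
    intro p
    rw [← ENNReal.ofReal_mul (by positivity)]
    apply ENNReal.ofReal_le_ofReal
    have e1 : ‖EI F p‖ ^ q = ‖EI F p‖ ^ (q - (2 + 2 * θ)) * ‖EI F p‖ ^ (2 + 2 * θ) := by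
      rw [← Real.rpow_add' (norm_nonneg _) (by linarith)]
      congr 1
      ring
    rw [e1]
    apply mul_le_mul_of_nonneg_right _ (by positivity)
    exact Real.rpow_le_rpow (norm_nonneg _) (EI_sup_good hF p) (by linarith)
  calc ∫⁻ p, ENNReal.ofReal (‖EI F p‖ ^ q)
      ≤ ∫⁻ p, ENNReal.ofReal ((v * Λ) ^ (q - (2 + 2 * θ))) *
        ENNReal.ofReal (‖EI F p‖ ^ (2 + 2 * θ)) := lintegral_mono h1
    _ = ENNReal.ofReal ((v * Λ) ^ (q - (2 + 2 * θ))) *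
        ∫⁻ p, ENNReal.ofReal (‖EI F p‖ ^ (2 + 2 * θ)) :=
        lintegral_const_mul' _ _ ENNReal.ofReal_ne_top
    _ ≤ ENNReal.ofReal ((v * Λ) ^ (q - (2 + 2 * θ))) * ENNReal.ofReal (C * Λ ^ (2 + 2 * θ)) := by
        gcongr
        exact hC Λ hΛ F hF hmod
    _ = _ := by
        rw [← ENNReal.ofReal_mul (by positivity)]
        congr 1
        have e2 : Λ ^ q = Λ ^ (q - (2 + 2 * θ)) * Λ ^ (2 + 2 * θ) := by
          rw [← Real.rpow_add hΛ]
          congr 1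
          ring
        rw [Real.mul_rpow hv0 hΛ.le, e2]
        ring

end Pool.Agent.H.MP_b7167f_an
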