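import Mathlib

open Finset

set_option autoImplicit false

namespace Pool.Agent.H.MP_b7167f_an

/-- The finite minimax theorem (one inequality), by separation. -/
theorem finite_minimax {ι τ : Type} [Fintype ι] [Fintype τ] [Nonempty ι]
    (f : ι → τ → ℝ) (v : ℝ)
    (h : ∀ l : τ → ℝ, (∀ t, 0 ≤ l t) → (∑ t, l t = 1) → ∃ s, ∑ t, l t * f s t ≤ v) :
    ∃ μ : ι → ℝ, (∀ s, 0 ≤ μ s) ∧ (∑ s, μ s = 1) ∧ ∀ t, ∑ s, μ s * f s t ≤ v := by
  classical
  by_contra hcon
  -- the mixed strategies
  let A : (ι → ℝ) →ₗ[ℝ] (τ → ℝ) :=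
    { toFun := fun μ t => ∑ s, μ s * f s t
      map_add' := by
        intro x y
        funext t
        simp [add_mul, Finset.sum_add_distrib]
      map_smul' := by
        intro r x
        funext t
        simp [mul_assoc, Finset.mul_sum] }
  have hA : ∀ μ t, A μ t = ∑ s, μ s * f s t := fun μ t => rfl
  have hAcont : Continuous A := A.continuous_of_finiteDimensional
  set C : Set (τ → ℝ) := A '' (stdSimplex ℝ ι) with hC
  set D : Set (τ → ℝ) := {x | ∀ t, x t ≤ v} with hD
  have hCconv : Convex ℝ C := (convex_stdSimplex ℝ ι).linear_image A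
  have hCcomp : IsCompact C := (isCompact_stdSimplex ℝ ι).image hAcont
  have hDconv : Convex ℝ D := by
    intro x hx y hy a b ha hb hab t
    have h1 : a * x t ≤ a * v := mul_le_mul_of_nonneg_left (hx t) ha
    have h2 : b * y t ≤ b * v := mul_le_mul_of_nonneg_left (hy t) hb
    have h3 : (a • x + b • y) t = a * x t + b * y t := rfl
    rw [h3]
    calc a * x t + b * y t ≤ a * v + b * v := add_le_add h1 h2
      _ = (a + b) * v := by ring
      _ = v := by rw [hab, one_mul]
  have hDclosed : IsClosed D := by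
    have : D = ⋂ t, {x : τ → ℝ | x t ≤ v} := by
      ext x
      simp [hD]
    rw [this]
    exact isClosed_iInter fun t => isClosed_le (continuous_apply t) continuous_const
  have hdisj : Disjoint C D := by
    rw [Set.disjoint_left]
    intro x hxC hxD
    obtain ⟨μ, hμ, rfl⟩ := hxC
    exact hcon ⟨μ, hμ.1, hμ.2, hxD⟩
  obtain ⟨g, u, u', hgC, huu, hgD⟩ :=
    geometric_hahn_banach_compact_closed hCconv hCcomp hDconv hDclosed hdisj
  set l : τ → ℝ := fun t => - g (Pi.single t 1) with hl
  have hg : ∀ x : τ → ℝ, g x = - ∑ t, l t * x t := by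
    intro x
    have h1 : x = ∑ t, x t • (Pi.single t (1 : ℝ) : τ → ℝ) := by
      ext t
      simp [Finset.sum_apply, Pi.single_apply]
    conv_lhs => rw [h1]
    rw [map_sum]
    simp only [map_smul, smul_eq_mul, hl, neg_mul, Finset.sum_neg_distrib, neg_neg]
    exact Finset.sum_congr rfl fun t _ => mul_comm _ _
  have hl0 : ∀ t, 0 ≤ l t := by
    intro t
    by_contra hneg
    push Not at hneg
    -- the points `v - N e_t` belong to `D`
    have hmem : ∀ N : ℝ, 0 ≤ N → (fun s => v - N * (Pi.single t (1 : ℝ) : τ → ℝ) s) ∈ D := by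
      intro N hN s
      show v - N * (Pi.single t (1 : ℝ) : τ → ℝ) s ≤ v
      have : 0 ≤ (Pi.single t (1 : ℝ) : τ → ℝ) s := by
        rw [Pi.single_apply]
        split_ifs <;> norm_num
      nlinarith
    have hval : ∀ N : ℝ, 0 ≤ N → u' < - ∑ s, l s * v + N * l t := by
      intro N hN
      have h1 := hgD _ (hmem N hN)
      rw [hg] at h1
      have h2 : ∑ s, l s * (v - N * (Pi.single t (1 : ℝ) : τ → ℝ) s) =
          ∑ s, l s * v - N * l t := by
        have h3 : ∀ s, l s * (v - N * (Pi.single t (1 : ℝ) : τ → ℝ) s) =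
            l s * v - N * (l s * (Pi.single t (1 : ℝ) : τ → ℝ) s) := fun s => by ring
        rw [Finset.sum_congr rfl (fun s _ => h3 s), Finset.sum_sub_distrib, ← Finset.mul_sum]
        congr 2
        simp [Pi.single_apply]
      rw [h2] at h1
      linarith
    have h1 := hval ((|- ∑ s, l s * v - u'| + 1) / (- l t)) (by
      apply div_nonneg
      · positivity
      · linarith)
    have h2 : (|- ∑ s, l s * v - u'| + 1) / (- l t) * l t = -(|- ∑ s, l s * v - u'| + 1) := by
      generalize (|- ∑ s, l s * v - u'| + 1) = X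
      have : l t ≠ 0 := hneg.ne
      field_simp
    rw [h2] at h1
    have h3 := le_abs_self (- ∑ s, l s * v - u')
    linarith
  have hD0 : (fun _ => v : τ → ℝ) ∈ D := fun t => le_refl v
  have hDv := hgD _ hD0
  rw [hg] at hDv
  have hCs : ∀ s, g (f s) < u := by
    intro s
    apply hgC
    refine ⟨Pi.single s 1, single_mem_stdSimplex ℝ s, ?_⟩
    funext t
    rw [hA]
    simp [Pi.single_apply]
  set L : ℝ := ∑ t, l t with hL
  have hL0 : 0 ≤ L := Finset.sum_nonneg fun t _ => hl0 t
  have hLpos : 0 < L := by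
    rcases hL0.lt_or_eq with h1 | h1
    · exact h1
    · exfalso
      have hz : ∀ t, l t = 0 := by
        intro t
        have h2 := (Finset.sum_eq_zero_iff_of_nonneg (fun t _ => hl0 t)).1 h1.symm
        exact h2 t (Finset.mem_univ t)
      obtain ⟨s⟩ := ‹Nonempty ι›
      have h3 := hCs s
      rw [hg] at h3
      simp only [hz, zero_mul, Finset.sum_const_zero, neg_zero] at h3 hDv
      linarith
  obtain ⟨s, hs⟩ := h (fun t => l t / L) (fun t => div_nonneg (hl0 t) hL0) (by
    rw [← Finset.sum_div]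
    exact div_self hLpos.ne')
  have h4 : ∑ t, l t / L * f s t = (∑ t, l t * f s t) / L := by
    rw [Finset.sum_div]
    exact Finset.sum_congr rfl fun t _ => by ring
  rw [h4, div_le_iff₀ hLpos] at hs
  have h5 := hCs s
  rw [hg] at h5
  rw [← Finset.sum_mul] at hDv
  have h6 : (∑ t, l t) * v = v * L := by rw [← hL]; ring
  rw [h6] at hDv
  linarith

/-- The finite minimax theorem with strategies in a finset. -/
theorem finset_minimax {ι τ : Type} [Fintype τ] (S : Finset ι) (hS : S.Nonempty)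
    (f : ι → τ → ℝ) (v : ℝ)
    (h : ∀ l : τ → ℝ, (∀ t, 0 ≤ l t) → (∑ t, l t = 1) → ∃ s ∈ S, ∑ t, l t * f s t ≤ v) :
    ∃ μ : ι → ℝ, (∀ s ∈ S, 0 ≤ μ s) ∧ (∑ s ∈ S, μ s = 1) ∧
      ∀ t, ∑ s ∈ S, μ s * f s t ≤ v := by
  classical
  have : Nonempty S := hS.to_subtype
  obtain ⟨μ, h0, h1, h2⟩ := finite_minimax (ι := S) (fun s t => f s.1 t) v (by
    intro l hl hl1
    obtain ⟨s, hs, hv⟩ := h l hl hl1
    exact ⟨⟨s, hs⟩, hv⟩)
  have key : ∀ F : ι → ℝ, ∑ s ∈ S, (if hs : s ∈ S then μ ⟨s, hs⟩ else 0) * F s =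
      ∑ s : S, μ s * F s.1 := by
    intro F
    rw [← Finset.sum_coe_sort S]
    refine Finset.sum_congr rfl fun s _ => ?_
    rw [dif_pos s.2]
  refine ⟨fun s => if hs : s ∈ S then μ ⟨s, hs⟩ else 0, ?_, ?_, ?_⟩
  · intro s hs
    show 0 ≤ (if hs : s ∈ S then μ ⟨s, hs⟩ else 0)
    rw [dif_pos hs]
    exact h0 _
  · have := key (fun _ => 1)
    simp only [mul_one] at this
    rw [this, h1]
  · intro t
    rw [key (fun s => f s t)]
    exact h2 t

end Pool.Agent.H.MP_b7167f_an
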