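import Pool.Agent.H.MP_b7167f_an.ChainTele

/-!
Telescoping with minimax, with an exponent `σ` in the block bound and bounded blocks.
-/

open Finset
open scoped ENNReal NNReal

set_option autoImplicit false

namespace Pool.Agent.H.MP_b7167f_an

section MainSigma

variable {Y : Type} [Fintype Y] [DecidableEq Y]

/-- One step of the telescoping. -/
theorem chain_step_sigma [Nonempty Y] {m : ℕ}
    {β₀ : Y → ℝ} (hβ₀ : ∀ y, 0 ≤ β₀ y) (hβ₀s : ∑ y, β₀ y = 1)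
    {β : Fin m → Y → ℝ} (hβ : ∀ j y, 0 ≤ β j y) (hβs : ∀ j, ∑ y, β j y = 1)
    {c : Y → (Fin m → Y) → ℂ} (hc : ∀ b z, ‖c b z‖ ≤ 1)
    {Φ : (Y → (Fin m → Y) → ℂ) → ℝ≥0∞}
    (hΦadd : ∀ g h, Φ (g + h) ≤ Φ g + Φ h)
    (hΦsum : ∀ (S : Finset (Y → Y)) (μ : (Y → Y) → ℝ) (g : (Y → Y) → (Y → (Fin m → Y) → ℂ))
      (B : ℝ≥0∞), (∀ s ∈ S, 0 ≤ μ s) → (∑ s ∈ S, μ s = 1) → (∀ s ∈ S, Φ (g s) ≤ B) →
      Φ (fun b z => ∑ s ∈ S, (μ s : ℂ) * g s b z) ≤ B)
    {Cb : ℝ≥0∞} {γ σ : ℝ}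
    (hblock : ∀ (π : Fin m → Y → Y) (φ : Y → (Fin m → Y) → ℂ) (δ : ℝ), 0 < δ →
      (∀ b z, ‖φ b z‖ ≤ 2) →
      (∀ b, ∑ z, (∏ i, nuW (β i) (π i) (z i)) * ‖φ b z‖ ^ 2 ≤ δ ^ 2) →
      (∀ j y, ∑ b, β₀ b * ∑ z, (∏ i, nuW (β i) (π i) (z i)) *
        ‖φ b (Function.update z j y)‖ ^ 2 ≤ δ ^ 2) →
      Φ (fun b a => φ b (fun j => π j (a j)))
        ≤ Cb * ENNReal.ofReal (δ ^ σ * ∏ j, ((univ.image (π j)).card : ℝ) ^ γ))
    (j : Fin m) {ε N : ℝ} (hε : 0 < ε) (hN : 1 ≤ N)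
    (hent : ∀ w : Y → (Fin m → Y) → ℝ, (∀ b z, 0 ≤ w b z) → (∑ b, ∑ z, w b z = 1) →
      ∃ κ : Y → ℕ, (∀ y, (κ y : ℝ) + 1 ≤ N) ∧
        ∀ y y', κ y = κ y' →
          ∑ b, ∑ z, w b z * ‖c b (Function.update z j y) - c b (Function.update z j y')‖ ^ 2
            ≤ ε ^ 2)
    (π : Fin m → Y → Y) {B : ℝ≥0∞}
    (hB : ∀ ρ : Y → Y, ((univ.image ρ).card : ℝ) ≤ N →
      Φ (fun b a => c b (fun i => Function.update π j (ρ ∘ π j) i (a i))) ≤ B) :
    Φ (fun b a => c b (fun i => π i (a i))) ≤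
      B + Cb * ENNReal.ofReal ((Real.sqrt 2 * ε) ^ σ * ∏ i, ((univ.image (π i)).card : ℝ) ^ γ) := by
  obtain ⟨μ, h0, h1, h2, h3⟩ := exists_mixed (ν := fun i => nuW (β i) (π i))
    (fun i y => nuW_nonneg (hβ i) (π i) y) (fun i => nuW_sum (hβs i) (π i)) hβ₀ hβ₀s (c := c) j hN
    hent
  set S : Finset (Y → Y) := univ.filter (fun ρ : Y → Y => ((univ.image ρ).card : ℝ) ≤ N) with hS
  set φ : Y → (Fin m → Y) → ℂ := fun b z =>
    ∑ ρ ∈ S, (μ ρ : ℂ) * (c b z - c b (Function.update z j (ρ (z j)))) with hφ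
  have hφn : ∀ b z, ‖φ b z‖ ^ 2 ≤
      ∑ ρ ∈ S, μ ρ * ‖c b z - c b (Function.update z j (ρ (z j)))‖ ^ 2 :=
    fun b z => norm_sq_sum_le S μ h0 h1 _
  have hδ : 0 < Real.sqrt 2 * ε := by positivity
  have hδ2 : (Real.sqrt 2 * ε) ^ 2 = 2 * ε ^ 2 := by
    rw [mul_pow, Real.sq_sqrt (by norm_num)]
  have hpw : ∀ z : Fin m → Y, 0 ≤ ∏ i, nuW (β i) (π i) (z i) :=
    fun z => Finset.prod_nonneg fun i _ => nuW_nonneg (hβ i) (π i) _
  have hφ2 : ∀ b z, ‖φ b z‖ ≤ 2 := by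
    intro b z
    calc ‖φ b z‖ ≤ ∑ ρ ∈ S, ‖(μ ρ : ℂ) * (c b z - c b (Function.update z j (ρ (z j))))‖ :=
          norm_sum_le _ _
      _ ≤ ∑ ρ ∈ S, μ ρ * 2 := by
          refine Finset.sum_le_sum fun ρ hρ => ?_
          rw [norm_mul, Complex.norm_real, Real.norm_of_nonneg (h0 ρ hρ)]
          refine mul_le_mul_of_nonneg_left ?_ (h0 ρ hρ)
          refine (norm_sub_le _ _).trans ?_
          linarith [hc b z, hc b (Function.update z j (ρ (z j)))]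
      _ = 2 := by rw [← Finset.sum_mul, h1, one_mul]
  have hb := hblock π φ (Real.sqrt 2 * ε) hδ hφ2 (by
    intro b
    rw [hδ2]
    calc ∑ z, (∏ i, nuW (β i) (π i) (z i)) * ‖φ b z‖ ^ 2
        ≤ ∑ z, (∏ i, nuW (β i) (π i) (z i)) *
          ∑ ρ ∈ S, μ ρ * ‖c b z - c b (Function.update z j (ρ (z j)))‖ ^ 2 :=
          Finset.sum_le_sum fun z _ => mul_le_mul_of_nonneg_left (hφn b z) (hpw z)
      _ = ∑ ρ ∈ S, μ ρ * ∑ z, prodW (fun i => nuW (β i) (π i)) z *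
          ‖c b z - c b (Function.update z j (ρ (z j)))‖ ^ 2 := by
          simp only [Finset.mul_sum, prodW]
          rw [Finset.sum_comm]
          refine Finset.sum_congr rfl fun ρ _ => Finset.sum_congr rfl fun z _ => ?_
          ring
      _ ≤ 2 * ε ^ 2 := h2 b) (by
    intro i y
    rw [hδ2]
    calc ∑ b, β₀ b * ∑ z, (∏ i, nuW (β i) (π i) (z i)) * ‖φ b (Function.update z i y)‖ ^ 2
        ≤ ∑ b, β₀ b * ∑ z, (∏ i, nuW (β i) (π i) (z i)) *
          ∑ ρ ∈ S, μ ρ * ‖c b (Function.update z i y) -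
            c b (Function.update (Function.update z i y) j (ρ ((Function.update z i y) j)))‖ ^ 2 :=
          Finset.sum_le_sum fun b _ => mul_le_mul_of_nonneg_left
            (Finset.sum_le_sum fun z _ => mul_le_mul_of_nonneg_left (hφn b _) (hpw z)) (hβ₀ b)
      _ = ∑ ρ ∈ S, μ ρ * ∑ b, β₀ b * ∑ z, prodW (fun i => nuW (β i) (π i)) z *
          ‖c b (Function.update z i y) -
            c b (Function.update (Function.update z i y) j (ρ ((Function.update z i y) j)))‖ ^ 2 := by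
          simp only [Finset.mul_sum, prodW]
          rw [Finset.sum_congr rfl (fun b _ => Finset.sum_comm), Finset.sum_comm]
          refine Finset.sum_congr rfl fun ρ _ => Finset.sum_congr rfl fun b _ =>
            Finset.sum_congr rfl fun z _ => ?_
          ring
      _ ≤ 2 * ε ^ 2 := h3 i y)
  have hg : Φ (fun b a => ∑ ρ ∈ S, (μ ρ : ℂ) *
      c b (fun i => Function.update π j (ρ ∘ π j) i (a i))) ≤ B := by
    refine hΦsum S μ (fun ρ b a => c b (fun i => Function.update π j (ρ ∘ π j) i (a i))) B h0 h1 ?_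
    intro ρ hρ
    exact hB ρ (Finset.mem_filter.1 hρ).2
  have hdec : (fun (b : Y) (a : Fin m → Y) => c b (fun i => π i (a i))) =
      (fun (b : Y) (a : Fin m → Y) =>
        ∑ ρ ∈ S, (μ ρ : ℂ) * c b (fun i => Function.update π j (ρ ∘ π j) i (a i))) +
      (fun (b : Y) (a : Fin m → Y) => φ b (fun i => π i (a i))) := by
    funext b a
    show c b (fun i => π i (a i)) = (∑ ρ ∈ S, (μ ρ : ℂ) *
      c b (fun i => Function.update π j (ρ ∘ π j) i (a i))) + φ b (fun i => π i (a i))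
    have h4 : ∀ ρ : Y → Y, (fun i => Function.update π j (ρ ∘ π j) i (a i)) =
        Function.update (fun i => π i (a i)) j (ρ (π j (a j))) := by
      intro ρ
      funext i
      by_cases hij : i = j
      · subst hij
        simp
      · rw [Function.update_of_ne hij, Function.update_of_ne hij]
    simp only [hφ, h4, mul_sub, Finset.sum_sub_distrib]
    rw [← Finset.sum_mul]
    have h5 : (∑ ρ ∈ S, (μ ρ : ℂ)) = 1 := by
      rw [← Complex.ofReal_sum, h1, Complex.ofReal_one]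
    rw [h5, one_mul]
    ring
  rw [hdec]
  exact (hΦadd _ _).trans (add_le_add hg hb)

/-- The hybrid induction from level `k` to level `k+1`, abstract form. -/
theorem chain_hybrid_sigma [Nonempty Y] {m : ℕ}
    {β₀ : Y → ℝ} (hβ₀ : ∀ y, 0 ≤ β₀ y) (hβ₀s : ∑ y, β₀ y = 1)
    {β : Fin m → Y → ℝ} (hβ : ∀ j y, 0 ≤ β j y) (hβs : ∀ j, ∑ y, β j y = 1)
    {c : Y → (Fin m → Y) → ℂ} (hc : ∀ b z, ‖c b z‖ ≤ 1)
    {Φ : (Y → (Fin m → Y) → ℂ) → ℝ≥0∞}
    (hΦadd : ∀ g h, Φ (g + h) ≤ Φ g + Φ h)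
    (hΦsum : ∀ (S : Finset (Y → Y)) (μ : (Y → Y) → ℝ) (g : (Y → Y) → (Y → (Fin m → Y) → ℂ))
      (B : ℝ≥0∞), (∀ s ∈ S, 0 ≤ μ s) → (∑ s ∈ S, μ s = 1) → (∀ s ∈ S, Φ (g s) ≤ B) →
      Φ (fun b z => ∑ s ∈ S, (μ s : ℂ) * g s b z) ≤ B)
    {Cb : ℝ≥0∞} {γ σ : ℝ} (hγ : 0 ≤ γ)
    (hblock : ∀ (π : Fin m → Y → Y) (φ : Y → (Fin m → Y) → ℂ) (δ : ℝ), 0 < δ →
      (∀ b z, ‖φ b z‖ ≤ 2) →
      (∀ b, ∑ z, (∏ i, nuW (β i) (π i) (z i)) * ‖φ b z‖ ^ 2 ≤ δ ^ 2) →
      (∀ j y, ∑ b, β₀ b * ∑ z, (∏ i, nuW (β i) (π i) (z i)) *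
        ‖φ b (Function.update z j y)‖ ^ 2 ≤ δ ^ 2) →
      Φ (fun b a => φ b (fun j => π j (a j)))
        ≤ Cb * ENNReal.ofReal (δ ^ σ * ∏ j, ((univ.image (π j)).card : ℝ) ^ γ))
    {ε : ℝ} (hε : 0 < ε) {N N' : Fin m → ℝ} (hN : ∀ j, 1 ≤ N j) (hNN' : ∀ j, N j ≤ N' j)
    (hent : ∀ j, ∀ w : Y → (Fin m → Y) → ℝ, (∀ b z, 0 ≤ w b z) → (∑ b, ∑ z, w b z = 1) →
      ∃ κ : Y → ℕ, (∀ y, (κ y : ℝ) + 1 ≤ N j) ∧
        ∀ y y', κ y = κ y' →
          ∑ b, ∑ z, w b z * ‖c b (Function.update z j y) - c b (Function.update z j y')‖ ^ 2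
            ≤ ε ^ 2)
    {x : ℝ} (hx : 0 ≤ x)
    (hbase : ∀ π : Fin m → Y → Y, (∀ j, ((univ.image (π j)).card : ℝ) ≤ N j) →
      Φ (fun b a => c b (fun i => π i (a i))) ≤ Cb * ENNReal.ofReal x)
    (A : Finset (Fin m)) (π : Fin m → Y → Y)
    (hπ' : ∀ j, ((univ.image (π j)).card : ℝ) ≤ N' j)
    (hπ : ∀ j, j ∉ A → ((univ.image (π j)).card : ℝ) ≤ N j) :
    Φ (fun b a => c b (fun i => π i (a i))) ≤
      Cb * ENNReal.ofReal (x + A.card * ((Real.sqrt 2 * ε) ^ σ * ∏ i, N' i ^ γ)) := by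
  have hN'0 : ∀ i, 0 ≤ N' i := fun i => by linarith [hN i, hNN' i]
  have he0 : 0 ≤ (Real.sqrt 2 * ε) ^ σ * ∏ i, N' i ^ γ := by
    have : 0 ≤ ∏ i, N' i ^ γ := Finset.prod_nonneg fun i _ => Real.rpow_nonneg (hN'0 i) γ
    positivity
  induction A using Finset.induction_on generalizing π with
  | empty =>
    simp only [Finset.card_empty, Nat.cast_zero, zero_mul, add_zero]
    exact hbase π fun j => hπ j (Finset.notMem_empty j)
  | insert j A hj ih =>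
    have h1 := chain_step_sigma hβ₀ hβ₀s hβ hβs hc hΦadd hΦsum hblock j hε (hN j) (hent j) π
      (B := Cb * ENNReal.ofReal (x + A.card * ((Real.sqrt 2 * ε) ^ σ * ∏ i, N' i ^ γ))) (by
      intro ρ hρ
      have hcard : ((univ.image (ρ ∘ π j)).card : ℝ) ≤ N j := by
        have h2 : univ.image (ρ ∘ π j) ⊆ univ.image ρ := by
          intro y hy
          rw [Finset.mem_image] at hy ⊢
          obtain ⟨a, _, rfl⟩ := hy
          exact ⟨π j a, Finset.mem_univ _, rfl⟩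
        have h3 : ((univ.image (ρ ∘ π j)).card : ℝ) ≤ ((univ.image ρ).card : ℝ) := by
          exact_mod_cast Finset.card_le_card h2
        exact h3.trans hρ
      apply ih (Function.update π j (ρ ∘ π j))
      · intro i
        by_cases hij : i = j
        · subst hij
          rw [Function.update_self]
          exact hcard.trans (hNN' i)
        · rw [Function.update_of_ne hij]
          exact hπ' i
      · intro i hi
        by_cases hij : i = j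
        · subst hij
          rw [Function.update_self]
          exact hcard
        · rw [Function.update_of_ne hij]
          apply hπ i
          rw [Finset.mem_insert]
          push Not
          exact ⟨hij, hi⟩)
    refine h1.trans ?_
    have h4 : (Real.sqrt 2 * ε) ^ σ * ∏ i, ((univ.image (π i)).card : ℝ) ^ γ ≤
        (Real.sqrt 2 * ε) ^ σ * ∏ i, N' i ^ γ := by
      refine mul_le_mul_of_nonneg_left ?_ (by positivity)
      exact Finset.prod_le_prod (fun i _ => by positivity) fun i _ =>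
        Real.rpow_le_rpow (by positivity) (hπ' i) hγ
    calc _ ≤ Cb * ENNReal.ofReal (x + A.card * ((Real.sqrt 2 * ε) ^ σ * ∏ i, N' i ^ γ)) +
          Cb * ENNReal.ofReal ((Real.sqrt 2 * ε) ^ σ * ∏ i, N' i ^ γ) := by
          gcongr
      _ = Cb * ENNReal.ofReal (x + (insert j A).card * ((Real.sqrt 2 * ε) ^ σ * ∏ i, N' i ^ γ)) := by
          rw [← mul_add, ← ENNReal.ofReal_add (by positivity) he0, Finset.card_insert_of_notMem hj]
          congr 2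
          push_cast
          ring

/-- Telescoping with minimax, exponent `σ` in the block bound, bounded blocks. -/
theorem chain_sigma {Y : Type} [Fintype Y] [DecidableEq Y] [Nonempty Y] {m : ℕ}
    {β₀ : Y → ℝ} (hβ₀ : ∀ y, 0 ≤ β₀ y) (hβ₀s : ∑ y, β₀ y = 1)
    {β : Fin m → Y → ℝ} (hβ : ∀ j y, 0 ≤ β j y) (hβs : ∀ j, ∑ y, β j y = 1)
    {c : Y → (Fin m → Y) → ℂ} (hc : ∀ b z, ‖c b z‖ ≤ 1)
    {p : Fin m → ℝ} (hp : ∀ j, 0 < p j) {K : ℝ} (hK : 1 ≤ K)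
    (hent : ∀ j, ∀ w : Y → (Fin m → Y) → ℝ, (∀ b z, 0 ≤ w b z) → (∑ b, ∑ z, w b z = 1) →
      ∀ ε : ℝ, 0 < ε → ε ≤ 1 → ∃ κ : Y → ℕ, (∀ y, (κ y : ℝ) + 1 ≤ K * ε ^ (-(p j))) ∧
        ∀ y y', κ y = κ y' →
          ∑ b, ∑ z, w b z * ‖c b (Function.update z j y) - c b (Function.update z j y')‖ ^ 2
            ≤ ε ^ 2)
    {Φ : (Y → (Fin m → Y) → ℂ) → ℝ≥0∞}
    (hΦadd : ∀ g h, Φ (g + h) ≤ Φ g + Φ h)
    (hΦsum : ∀ (S : Finset (Y → Y)) (μ : (Y → Y) → ℝ) (g : (Y → Y) → (Y → (Fin m → Y) → ℂ))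
      (B : ℝ≥0∞), (∀ s ∈ S, 0 ≤ μ s) → (∑ s ∈ S, μ s = 1) → (∀ s ∈ S, Φ (g s) ≤ B) →
      Φ (fun b z => ∑ s ∈ S, (μ s : ℂ) * g s b z) ≤ B)
    {Cb : ℝ≥0∞} {γ σ : ℝ} (hγ : 0 ≤ γ) (hσ : 0 < σ) (_hσ1 : σ ≤ 1)
    (hblock : ∀ (π : Fin m → Y → Y) (φ : Y → (Fin m → Y) → ℂ) (δ : ℝ), 0 < δ →
      (∀ b z, ‖φ b z‖ ≤ 2) →
      (∀ b, ∑ z, (∏ i, nuW (β i) (π i) (z i)) * ‖φ b z‖ ^ 2 ≤ δ ^ 2) →
      (∀ j y, ∑ b, β₀ b * ∑ z, (∏ i, nuW (β i) (π i) (z i)) *
        ‖φ b (Function.update z j y)‖ ^ 2 ≤ δ ^ 2) →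
      Φ (fun b a => φ b (fun j => π j (a j)))
        ≤ Cb * ENNReal.ofReal (δ ^ σ * ∏ j, ((univ.image (π j)).card : ℝ) ^ γ))
    (hsum : γ * ∑ j, p j < σ) :
    Φ c ≤ Cb * ENNReal.ofReal (K ^ (γ * m) * (1 + m * (2 : ℝ) ^ (σ + γ * ∑ j, p j) /
      (1 - (2 : ℝ) ^ (γ * ∑ j, p j - σ)))) := by
  set q : ℝ := γ * ∑ j, p j with hq
  have hK0 : 0 < K := lt_of_lt_of_le one_pos hK
  -- the levels
  set N : ℕ → Fin m → ℝ := fun k j => K * (2 : ℝ) ^ ((k : ℝ) * p j) with hN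
  have hN1 : ∀ k j, 1 ≤ N k j := by
    intro k j
    have h1 : (1 : ℝ) ≤ (2 : ℝ) ^ ((k : ℝ) * p j) :=
      Real.one_le_rpow (by norm_num) (mul_nonneg (Nat.cast_nonneg k) (hp j).le)
    nlinarith
  have hNmono : ∀ k j, N k j ≤ N (k + 1) j := by
    intro k j
    refine mul_le_mul_of_nonneg_left (Real.rpow_le_rpow_of_exponent_le (by norm_num) ?_) hK0.le
    push_cast
    nlinarith [hp j]
  have hNprod : ∀ k, ∏ j, N k j ^ γ = K ^ (γ * m) * (2 : ℝ) ^ ((k : ℝ) * q) := by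
    intro k
    have h1 : ∀ j, N k j ^ γ = K ^ γ * (2 : ℝ) ^ ((k : ℝ) * p j * γ) := by
      intro j
      rw [hN]
      show (K * (2 : ℝ) ^ ((k : ℝ) * p j)) ^ γ = _
      rw [Real.mul_rpow hK0.le (by positivity), ← Real.rpow_mul (by norm_num)]
    rw [Finset.prod_congr rfl fun j _ => h1 j, Finset.prod_mul_distrib, Finset.prod_const,
      Finset.card_univ, Fintype.card_fin, ← Real.rpow_sum_of_pos (by norm_num),
      ← Real.rpow_natCast, ← Real.rpow_mul hK0.le]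
    congr 2
    rw [hq, Finset.mul_sum, Finset.mul_sum]
    exact Finset.sum_congr rfl fun j _ => by ring
  -- entropy at level k
  have hentk : ∀ k : ℕ, ∀ j, ∀ w : Y → (Fin m → Y) → ℝ, (∀ b z, 0 ≤ w b z) →
      (∑ b, ∑ z, w b z = 1) →
      ∃ κ : Y → ℕ, (∀ y, (κ y : ℝ) + 1 ≤ N k j) ∧
        ∀ y y', κ y = κ y' →
          ∑ b, ∑ z, w b z * ‖c b (Function.update z j y) - c b (Function.update z j y')‖ ^ 2
            ≤ ((2 : ℝ) ^ (-(k : ℝ))) ^ 2 := by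
    intro k j w hw hw1
    have h1 : (2 : ℝ) ^ (-(k : ℝ)) ≤ 1 :=
      Real.rpow_le_one_of_one_le_of_nonpos (by norm_num) (by simp)
    obtain ⟨κ, h2, h3⟩ := hent j w hw hw1 ((2 : ℝ) ^ (-(k : ℝ))) (by positivity) h1
    refine ⟨κ, fun y => (h2 y).trans (le_of_eq ?_), h3⟩
    rw [← Real.rpow_mul (by norm_num)]
    show K * (2 : ℝ) ^ (-(k : ℝ) * -(p j)) = K * (2 : ℝ) ^ ((k : ℝ) * p j)
    congr 2
    ring
  -- the main induction
  have hmain : ∀ k : ℕ, ∀ π : Fin m → Y → Y, (∀ j, ((univ.image (π j)).card : ℝ) ≤ N k j) →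
      Φ (fun b a => c b (fun i => π i (a i))) ≤ Cb * ENNReal.ofReal (K ^ (γ * m) *
        (1 + m * ((Real.sqrt 2) ^ σ * (2 : ℝ) ^ q * ∑ i ∈ Finset.range k, ((2 : ℝ) ^ (q - σ)) ^ i))) := by
    intro k
    induction k with
    | zero =>
      intro π hπ
      have h1 := hblock π c 1 one_pos (fun b z => (hc b z).trans (by norm_num)) (by
        intro b
        calc ∑ z, (∏ i, nuW (β i) (π i) (z i)) * ‖c b z‖ ^ 2
            ≤ ∑ z, prodW (fun i => nuW (β i) (π i)) z := by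
              refine Finset.sum_le_sum fun z _ => ?_
              have h2 : ‖c b z‖ ^ 2 ≤ 1 := by
                have := hc b z
                have h3 := norm_nonneg (c b z)
                nlinarith
              exact mul_le_of_le_one_right
                (Finset.prod_nonneg fun i _ => nuW_nonneg (hβ i) (π i) _) h2
          _ = 1 ^ 2 := by
              rw [prodW_sum fun i => nuW_sum (hβs i) (π i), one_pow]) (by
        intro j y
        calc ∑ b, β₀ b * ∑ z, (∏ i, nuW (β i) (π i) (z i)) * ‖c b (Function.update z j y)‖ ^ 2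
            ≤ ∑ b, β₀ b * ∑ z, prodW (fun i => nuW (β i) (π i)) z := by
              refine Finset.sum_le_sum fun b _ => mul_le_mul_of_nonneg_left
                (Finset.sum_le_sum fun z _ => ?_) (hβ₀ b)
              have h2 : ‖c b (Function.update z j y)‖ ^ 2 ≤ 1 := by
                have := hc b (Function.update z j y)
                have h3 := norm_nonneg (c b (Function.update z j y))
                nlinarith
              exact mul_le_of_le_one_right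
                (Finset.prod_nonneg fun i _ => nuW_nonneg (hβ i) (π i) _) h2
          _ = 1 ^ 2 := by
              rw [prodW_sum fun i => nuW_sum (hβs i) (π i)]
              simp only [mul_one, one_pow]
              exact hβ₀s)
      have h4 : (1 : ℝ) ^ σ * ∏ j, ((univ.image (π j)).card : ℝ) ^ γ ≤ K ^ (γ * m) *
          (1 + m * ((Real.sqrt 2) ^ σ * (2 : ℝ) ^ q *
            ∑ i ∈ Finset.range 0, ((2 : ℝ) ^ (q - σ)) ^ i)) := by
        rw [Real.one_rpow, one_mul, Finset.range_zero, Finset.sum_empty, mul_zero, mul_zero, add_zero, mul_one]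
        calc ∏ j, ((univ.image (π j)).card : ℝ) ^ γ ≤ ∏ j, N 0 j ^ γ :=
              Finset.prod_le_prod (fun i _ => Real.rpow_nonneg (Nat.cast_nonneg _) _) fun i _ =>
                Real.rpow_le_rpow (Nat.cast_nonneg _) (hπ i) hγ
          _ = K ^ (γ * m) := by
              rw [hNprod, Nat.cast_zero, zero_mul, Real.rpow_zero, mul_one]
      exact h1.trans (mul_le_mul' le_rfl (ENNReal.ofReal_le_ofReal h4))
    | succ k ih =>
      intro π hπ
      have hx : 0 ≤ K ^ (γ * m) * (1 + m * ((Real.sqrt 2) ^ σ * (2 : ℝ) ^ q *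
          ∑ i ∈ Finset.range k, ((2 : ℝ) ^ (q - σ)) ^ i)) := by positivity
      have h1 := chain_hybrid_sigma hβ₀ hβ₀s hβ hβs hc hΦadd hΦsum hγ hblock
        (ε := (2 : ℝ) ^ (-(k : ℝ))) (by positivity) (N := N k) (N' := N (k + 1)) (hN1 k) (hNmono k)
        (hentk k) hx ih univ π hπ (fun j hj => absurd (Finset.mem_univ j) hj)
      rw [hNprod, Finset.card_univ, Fintype.card_fin] at h1
      rw [Finset.sum_range_succ]
      have h2 : ((2 : ℝ) ^ (q - σ)) ^ k * (2 : ℝ) ^ q =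
          ((2 : ℝ) ^ (-(k : ℝ))) ^ σ * (2 : ℝ) ^ (((k + 1 : ℕ) : ℝ) * q) := by
        rw [← Real.rpow_natCast, ← Real.rpow_mul (by norm_num), ← Real.rpow_add (by norm_num),
          ← Real.rpow_mul (by norm_num), ← Real.rpow_add (by norm_num)]
        congr 1
        push_cast
        ring
      have h3 : K ^ (γ * m) * (1 + m * ((Real.sqrt 2) ^ σ * (2 : ℝ) ^ q *
          ∑ i ∈ Finset.range k, ((2 : ℝ) ^ (q - σ)) ^ i)) +
          m * ((Real.sqrt 2 * (2 : ℝ) ^ (-(k : ℝ))) ^ σ *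
            (K ^ (γ * m) * (2 : ℝ) ^ (((k + 1 : ℕ) : ℝ) * q))) =
          K ^ (γ * m) * (1 + m * ((Real.sqrt 2) ^ σ * (2 : ℝ) ^ q *
          (∑ i ∈ Finset.range k, ((2 : ℝ) ^ (q - σ)) ^ i + ((2 : ℝ) ^ (q - σ)) ^ k))) := by
        have h5 : (Real.sqrt 2 * (2 : ℝ) ^ (-(k : ℝ))) ^ σ *
            (K ^ (γ * m) * (2 : ℝ) ^ (((k + 1 : ℕ) : ℝ) * q)) =
            (Real.sqrt 2) ^ σ * K ^ (γ * m) *
            (((2 : ℝ) ^ (-(k : ℝ))) ^ σ * (2 : ℝ) ^ (((k + 1 : ℕ) : ℝ) * q)) := by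
          rw [Real.mul_rpow (by positivity) (by positivity)]
          ring
        rw [h5, ← h2]
        ring
      rw [h3] at h1
      exact h1
  -- choose a large level
  obtain ⟨k, hk⟩ : ∃ k : ℕ, ∀ j, (Fintype.card Y : ℝ) ≤ N k j := by
    have h1 : ∀ j, ∃ k : ℕ, (Fintype.card Y : ℝ) ≤ k * p j := by
      intro j
      obtain ⟨k, hk⟩ := exists_nat_ge ((Fintype.card Y : ℝ) / p j)
      refine ⟨k, ?_⟩
      rwa [div_le_iff₀ (hp j)] at hk
    choose kk hkk using h1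
    refine ⟨∑ j, kk j, fun j => ?_⟩
    have h2 : (Fintype.card Y : ℝ) ≤ ((∑ j, kk j : ℕ) : ℝ) * p j := by
      refine (hkk j).trans (mul_le_mul_of_nonneg_right ?_ (hp j).le)
      exact_mod_cast Finset.single_le_sum (f := kk) (fun i _ => Nat.zero_le _) (Finset.mem_univ j)
    have h3 : (1 : ℝ) ≤ Fintype.card Y := by
      exact_mod_cast Fintype.card_pos
    have h4 := one_add_mul_self_le_rpow_one_add (s := 1) (by norm_num) (h3.trans h2)
    have h5 : (Fintype.card Y : ℝ) ≤ (2 : ℝ) ^ (((∑ j, kk j : ℕ) : ℝ) * p j) := by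
      have h6 : (1 : ℝ) + 1 = 2 := by norm_num
      rw [h6] at h4
      linarith
    calc (Fintype.card Y : ℝ) ≤ (2 : ℝ) ^ (((∑ j, kk j : ℕ) : ℝ) * p j) := h5
      _ ≤ K * (2 : ℝ) ^ (((∑ j, kk j : ℕ) : ℝ) * p j) :=
          le_mul_of_one_le_left (by positivity) hK
  have h1 := hmain k (fun _ => id) (fun j => by
    rw [Finset.image_id, Finset.card_univ]
    exact hk j)
  have h2 : (fun (b : Y) (a : Fin m → Y) => c b (fun i => (fun _ => id : Fin m → Y → Y) i (a i))) = c := by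
    funext b a
    rfl
  rw [h2] at h1
  refine h1.trans (mul_le_mul' le_rfl (ENNReal.ofReal_le_ofReal
    (mul_le_mul_of_nonneg_left ?_ (by positivity))))
  -- the geometric series
  have hr1 : (2 : ℝ) ^ (q - σ) < 1 :=
    Real.rpow_lt_one_of_one_lt_of_neg (by norm_num) (by linarith)
  have hr0 : 0 < (2 : ℝ) ^ (q - σ) := by positivity
  have hgeom : ∑ i ∈ Finset.range k, ((2 : ℝ) ^ (q - σ)) ^ i ≤ 1 / (1 - (2 : ℝ) ^ (q - σ)) := by
    rw [le_div_iff₀ (by linarith), geom_sum_mul_neg]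
    have : 0 ≤ ((2 : ℝ) ^ (q - σ)) ^ k := by positivity
    linarith
  have hs2 : (Real.sqrt 2) ^ σ ≤ (2 : ℝ) ^ σ := by
    refine Real.rpow_le_rpow (by positivity) ?_ hσ.le
    rw [Real.sqrt_le_left (by norm_num)]
    norm_num
  have h3 : (2 : ℝ) ^ (σ + q) = (2 : ℝ) ^ σ * (2 : ℝ) ^ q := by
    rw [Real.rpow_add (by norm_num)]
  rw [h3, mul_div_assoc, div_eq_mul_one_div ((2 : ℝ) ^ σ * (2 : ℝ) ^ q)]
  have h4 : 0 < (2 : ℝ) ^ q := by positivity
  have h5 : 0 ≤ ∑ i ∈ Finset.range k, ((2 : ℝ) ^ (q - σ)) ^ i :=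
    Finset.sum_nonneg fun i _ => by positivity
  have h6 : (Real.sqrt 2) ^ σ * (2 : ℝ) ^ q * ∑ i ∈ Finset.range k, ((2 : ℝ) ^ (q - σ)) ^ i ≤
      (2 : ℝ) ^ σ * (2 : ℝ) ^ q * (1 / (1 - (2 : ℝ) ^ (q - σ))) :=
    mul_le_mul (mul_le_mul_of_nonneg_right hs2 h4.le) hgeom h5 (by positivity)
  have h7 : (m : ℝ) * ((Real.sqrt 2) ^ σ * (2 : ℝ) ^ q * ∑ i ∈ Finset.range k, ((2 : ℝ) ^ (q - σ)) ^ i) ≤
      m * ((2 : ℝ) ^ σ * (2 : ℝ) ^ q * (1 / (1 - (2 : ℝ) ^ (q - σ)))) :=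
    mul_le_mul_of_nonneg_left h6 (Nat.cast_nonneg m)
  linarith

end MainSigma

end Pool.Agent.H.MP_b7167f_an
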