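import Pool.Agent.H.MP_b7167f_an.ChainMinimax

open Finset
open scoped ENNReal NNReal

set_option autoImplicit false

namespace Pool.Agent.H.MP_b7167f_an

section Weights

variable {Y : Type} [Fintype Y] [DecidableEq Y] {m : ℕ}

/-- The product weight. -/
noncomputable def prodW (ν : Fin m → Y → ℝ) (z : Fin m → Y) : ℝ := ∏ i, ν i (z i)

omit [Fintype Y] [DecidableEq Y] in
theorem prodW_nonneg {ν : Fin m → Y → ℝ} (hν : ∀ i y, 0 ≤ ν i y) (z : Fin m → Y) :
    0 ≤ prodW ν z := Finset.prod_nonneg fun i _ => hν i _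

omit [DecidableEq Y] in
theorem prodW_sum {ν : Fin m → Y → ℝ} (hν : ∀ i, ∑ y, ν i y = 1) : ∑ z, prodW ν z = 1 := by
  classical
  unfold prodW
  have h := Finset.prod_univ_sum (fun _ : Fin m => (univ : Finset Y)) (fun i y => ν i y)
  rw [Fintype.piFinset_univ] at h
  rw [← h]
  exact Finset.prod_eq_one fun i _ => hν i

omit [Fintype Y] [DecidableEq Y] in
theorem prodW_update (ν : Fin m → Y → ℝ) (j : Fin m) (y : Y) (z : Fin m → Y) :
    prodW ν (Function.update z j y) * ν j (z j) = ν j y * prodW ν z := by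
  unfold prodW
  rw [← Finset.mul_prod_erase univ (fun i => ν i (Function.update z j y i)) (Finset.mem_univ j),
    ← Finset.mul_prod_erase univ (fun i => ν i (z i)) (Finset.mem_univ j)]
  have h : ∏ i ∈ univ.erase j, ν i (Function.update z j y i) = ∏ i ∈ univ.erase j, ν i (z i) := by
    refine Finset.prod_congr rfl fun i hi => ?_
    rw [Function.update_of_ne (Finset.ne_of_mem_erase hi)]
  rw [h, Function.update_self]
  ring

omit [Fintype Y] [DecidableEq Y] in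
/-- The exchange involution. -/
def exch (j : Fin m) : ((Fin m → Y) × Y) ≃ ((Fin m → Y) × Y) where
  toFun q := (Function.update q.1 j q.2, q.1 j)
  invFun q := (Function.update q.1 j q.2, q.1 j)
  left_inv q := by simp
  right_inv q := by simp

omit [DecidableEq Y] in
theorem prodW_resample {ν : Fin m → Y → ℝ} (j : Fin m) (hν : ∑ y, ν j y = 1)
    (G : (Fin m → Y) → ℝ) :
    ∑ z, prodW ν z * G z = ∑ y, ν j y * ∑ z, prodW ν z * G (Function.update z j y) := by
  have h1 : ∑ z, prodW ν z * G z = ∑ q : (Fin m → Y) × Y, prodW ν q.1 * G q.1 * ν j q.2 := by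
    rw [Fintype.sum_prod_type]
    refine Finset.sum_congr rfl fun z _ => ?_
    show prodW ν z * G z = ∑ y, prodW ν z * G z * ν j y
    rw [← Finset.mul_sum, hν, mul_one]
  have h2 : ∑ q : (Fin m → Y) × Y, prodW ν q.1 * G q.1 * ν j q.2 =
      ∑ q : (Fin m → Y) × Y, prodW ν (Function.update q.1 j q.2) *
        G (Function.update q.1 j q.2) * ν j (q.1 j) :=
    ((exch j).sum_comp (fun q : (Fin m → Y) × Y => prodW ν q.1 * G q.1 * ν j q.2)).symm
  rw [h1, h2, Fintype.sum_prod_type, Finset.sum_comm]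
  refine Finset.sum_congr rfl fun y _ => ?_
  rw [Finset.mul_sum]
  refine Finset.sum_congr rfl fun z _ => ?_
  have h3 := prodW_update ν j y z
  calc prodW ν (Function.update z j y) * G (Function.update z j y) * ν j (z j)
      = (prodW ν (Function.update z j y) * ν j (z j)) * G (Function.update z j y) := by ring
    _ = ν j y * (prodW ν z * G (Function.update z j y)) := by rw [h3]; ring

/-- The test weight. -/
noncomputable def testW (ν : Fin m → Y → ℝ) (β₀ : Y → ℝ) (l : Y ⊕ (Fin m × Y) → ℝ)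
    (b : Y) (z : Fin m → Y) : ℝ :=
  l (Sum.inl b) * prodW ν z +
    ∑ t : Fin m × Y, l (Sum.inr t) * (β₀ b *
      ∑ z', if Function.update z' t.1 t.2 = z then prodW ν z' else 0)

theorem testW_apply (ν : Fin m → Y → ℝ) (β₀ : Y → ℝ) (l : Y ⊕ (Fin m × Y) → ℝ)
    (H : Y → (Fin m → Y) → ℝ) :
    ∑ b, ∑ z, testW ν β₀ l b z * H b z =
      ∑ b, l (Sum.inl b) * ∑ z, prodW ν z * H b z +
      ∑ t : Fin m × Y, l (Sum.inr t) * ∑ b, β₀ b *
        ∑ z, prodW ν z * H b (Function.update z t.1 t.2) := by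
  have h1 : ∀ b, ∑ z, testW ν β₀ l b z * H b z =
      l (Sum.inl b) * ∑ z, prodW ν z * H b z +
      ∑ t : Fin m × Y, l (Sum.inr t) * (β₀ b *
        ∑ z, prodW ν z * H b (Function.update z t.1 t.2)) := by
    intro b
    unfold testW
    simp only [add_mul, Finset.sum_add_distrib]
    congr 1
    · rw [Finset.mul_sum]
      exact Finset.sum_congr rfl fun z _ => by ring
    · simp only [Finset.sum_mul]
      rw [Finset.sum_comm]
      refine Finset.sum_congr rfl fun t _ => ?_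
      have h2 : ∀ z, l (Sum.inr t) * (β₀ b *
          ∑ z', if Function.update z' t.1 t.2 = z then prodW ν z' else 0) * H b z =
          l (Sum.inr t) * (β₀ b *
          ∑ z', if Function.update z' t.1 t.2 = z then prodW ν z' * H b z else 0) := by
        intro z
        have h3 : (∑ z', if Function.update z' t.1 t.2 = z then prodW ν z' * H b z else 0) =
            (∑ z', if Function.update z' t.1 t.2 = z then prodW ν z' else 0) * H b z := by
          rw [Finset.sum_mul]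
          refine Finset.sum_congr rfl fun z' _ => ?_
          split_ifs <;> simp
        rw [h3]
        ring
      rw [Finset.sum_congr rfl fun z _ => h2 z, ← Finset.mul_sum, ← Finset.mul_sum,
        Finset.sum_comm]
      congr 2
      refine Finset.sum_congr rfl fun z' _ => ?_
      rw [Finset.sum_ite_eq]
      simp
  rw [Finset.sum_congr rfl fun b _ => h1 b, Finset.sum_add_distrib, Finset.sum_comm]
  congr 1
  refine Finset.sum_congr rfl fun t _ => ?_
  rw [Finset.mul_sum]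

theorem testW_nonneg {ν : Fin m → Y → ℝ} (hν : ∀ i y, 0 ≤ ν i y) {β₀ : Y → ℝ}
    (hβ₀ : ∀ y, 0 ≤ β₀ y) {l : Y ⊕ (Fin m × Y) → ℝ} (hl : ∀ t, 0 ≤ l t) (b : Y)
    (z : Fin m → Y) : 0 ≤ testW ν β₀ l b z := by
  unfold testW
  refine add_nonneg (mul_nonneg (hl _) (prodW_nonneg hν _)) (Finset.sum_nonneg fun t _ =>
    mul_nonneg (hl _) (mul_nonneg (hβ₀ b) (Finset.sum_nonneg fun z' _ => ?_)))
  split_ifs
  · exact prodW_nonneg hν _
  · exact le_refl _

theorem testW_sum {ν : Fin m → Y → ℝ} (hν : ∀ i, ∑ y, ν i y = 1) {β₀ : Y → ℝ}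
    (hβ₀ : ∑ y, β₀ y = 1) {l : Y ⊕ (Fin m × Y) → ℝ} (hl : ∑ t, l t = 1) :
    ∑ b, ∑ z, testW ν β₀ l b z = 1 := by
  have h := testW_apply ν β₀ l (fun _ _ => 1)
  simp only [mul_one, prodW_sum hν, hβ₀] at h
  rw [h, ← hl, Fintype.sum_sum_type]

/-- For every mixed test there is a strategy with small payoff. -/
theorem strategy_payoff {ν : Fin m → Y → ℝ} (hν : ∀ i y, 0 ≤ ν i y)
    (hνs : ∀ i, ∑ y, ν i y = 1) {β₀ : Y → ℝ} (hβ₀ : ∀ y, 0 ≤ β₀ y)
    {c : Y → (Fin m → Y) → ℂ} (j : Fin m) {ε : ℝ}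
    {l : Y ⊕ (Fin m × Y) → ℝ} (hl : ∀ t, 0 ≤ l t)
    (ρ : Y → Y) (hρ : ∀ y, ∑ b, ∑ z, testW ν β₀ l b z *
      ‖c b (Function.update z j y) - c b (Function.update z j (ρ y))‖ ^ 2 ≤ ε ^ 2) :
    ∑ b, l (Sum.inl b) * ∑ z, prodW ν z *
        ‖c b z - c b (Function.update z j (ρ (z j)))‖ ^ 2 +
      ∑ t : Fin m × Y, l (Sum.inr t) * ∑ b, β₀ b * ∑ z, prodW ν z *
        ‖c b (Function.update z t.1 t.2) - c b (Function.update (Function.update z t.1 t.2) j
          (ρ ((Function.update z t.1 t.2) j)))‖ ^ 2 ≤ 2 * ε ^ 2 := by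
  set H : Y → Y → (Fin m → Y) → ℝ := fun y b z =>
    ‖c b (Function.update z j y) - c b (Function.update z j (ρ y))‖ ^ 2 with hH
  have hH0 : ∀ y b z, 0 ≤ H y b z := fun y b z => by positivity
  set D1 : Y → ℝ := fun y => ∑ b, l (Sum.inl b) * ∑ z, prodW ν z * H y b z with hD1
  set D2 : Fin m × Y → Y → ℝ := fun t y => ∑ b, β₀ b *
    ∑ z, prodW ν z * H y b (Function.update z t.1 t.2) with hD2
  set D3 : Y → ℝ := fun y => ∑ b, β₀ b * ∑ z, prodW ν z * H y b z with hD3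
  have hD10 : ∀ y, 0 ≤ D1 y := fun y => Finset.sum_nonneg fun b _ => mul_nonneg (hl _)
    (Finset.sum_nonneg fun z _ => mul_nonneg (prodW_nonneg hν _) (hH0 _ _ _))
  have hD20 : ∀ t y, 0 ≤ D2 t y := fun t y => Finset.sum_nonneg fun b _ => mul_nonneg (hβ₀ _)
    (Finset.sum_nonneg fun z _ => mul_nonneg (prodW_nonneg hν _) (hH0 _ _ _))
  have hD30 : ∀ y, 0 ≤ D3 y := fun y => Finset.sum_nonneg fun b _ => mul_nonneg (hβ₀ _)
    (Finset.sum_nonneg fun z _ => mul_nonneg (prodW_nonneg hν _) (hH0 _ _ _))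
  have hD : ∀ y, D1 y + ∑ t : Fin m × Y, l (Sum.inr t) * D2 t y ≤ ε ^ 2 := by
    intro y
    have h1 := testW_apply ν β₀ l (H y)
    have h2 := hρ y
    rw [h1] at h2
    exact h2
  -- resampling of the j-th coordinate
  have hG : ∀ b z y, ‖c b (Function.update z j y) - c b (Function.update (Function.update z j y) j
      (ρ ((Function.update z j y) j)))‖ ^ 2 = H y b z := by
    intro b z y
    simp only [hH, Function.update_self, Function.update_idem]
  have hfirst : ∑ b, l (Sum.inl b) * ∑ z, prodW ν z *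
      ‖c b z - c b (Function.update z j (ρ (z j)))‖ ^ 2 = ∑ y, ν j y * D1 y := by
    have h1 : ∀ b, ∑ z, prodW ν z * ‖c b z - c b (Function.update z j (ρ (z j)))‖ ^ 2 =
        ∑ y, ν j y * ∑ z, prodW ν z * H y b z := by
      intro b
      rw [prodW_resample j (hνs j)]
      refine Finset.sum_congr rfl fun y _ => ?_
      simp only [hG]
    simp only [h1, hD1, Finset.mul_sum]
    rw [Finset.sum_comm]
    refine Finset.sum_congr rfl fun y _ => Finset.sum_congr rfl fun b _ =>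
      Finset.sum_congr rfl fun z _ => ?_
    ring
  have hsecond : ∀ t : Fin m × Y, t.1 ≠ j → ∑ b, β₀ b * ∑ z, prodW ν z *
        ‖c b (Function.update z t.1 t.2) - c b (Function.update (Function.update z t.1 t.2) j
          (ρ ((Function.update z t.1 t.2) j)))‖ ^ 2 = ∑ y, ν j y * D2 t y := by
    intro t ht
    have h1 : ∀ b, ∑ z, prodW ν z *
        ‖c b (Function.update z t.1 t.2) - c b (Function.update (Function.update z t.1 t.2) j
          (ρ ((Function.update z t.1 t.2) j)))‖ ^ 2 =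
        ∑ y, ν j y * ∑ z, prodW ν z * H y b (Function.update z t.1 t.2) := by
      intro b
      rw [prodW_resample j (hνs j)]
      refine Finset.sum_congr rfl fun y _ => ?_
      congr 1
      refine Finset.sum_congr rfl fun z _ => ?_
      rw [Function.update_comm ht t.2 y z |>.symm, hG] 
    simp only [h1, hD2, Finset.mul_sum]
    rw [Finset.sum_comm]
    refine Finset.sum_congr rfl fun y _ => Finset.sum_congr rfl fun b _ =>
      Finset.sum_congr rfl fun z _ => ?_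
    ring
  have hthird : ∀ y', ∑ b, β₀ b * ∑ z, prodW ν z *
        ‖c b (Function.update z j y') - c b (Function.update (Function.update z j y') j
          (ρ ((Function.update z j y') j)))‖ ^ 2 = D3 y' := by
    intro y'
    simp only [hG, hD3]
  have hD2j : ∀ y' y, D2 (j, y') y = D3 y := by
    intro y' y
    simp only [hD2, hD3, hH, Function.update_idem]
  -- split the tests
  have hsplit : ∀ F : Fin m × Y → ℝ, ∑ t, F t =
      ∑ t ∈ univ.filter (fun t : Fin m × Y => t.1 ≠ j), F t + ∑ y, F (j, y) := by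
    intro F
    rw [← Finset.sum_filter_add_sum_filter_not univ (fun t : Fin m × Y => t.1 ≠ j) F]
    congr 1
    refine Finset.sum_nbij' (fun t => t.2) (fun y => (j, y)) ?_ ?_ ?_ ?_ ?_
    · intro t _
      exact Finset.mem_univ _
    · intro y _
      simp
    · intro t ht
      simp only [Finset.mem_filter, ne_eq, not_not] at ht
      ext
      · exact congrArg Fin.val ht.2.symm
      · rfl
    · intro y _
      rfl
    · intro t ht
      simp only [Finset.mem_filter, ne_eq, not_not] at ht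
      rw [← ht.2]
  rw [hfirst, hsplit]
  set Λ : ℝ := ∑ y, l (Sum.inr (j, y)) with hΛ
  have hΛ0 : 0 ≤ Λ := Finset.sum_nonneg fun y _ => hl _
  have hD' : ∀ y, D1 y + ∑ t ∈ univ.filter (fun t : Fin m × Y => t.1 ≠ j),
      l (Sum.inr t) * D2 t y + Λ * D3 y ≤ ε ^ 2 := by
    intro y
    have h1 := hD y
    rw [hsplit] at h1
    simp only [hD2j] at h1
    rw [← Finset.sum_mul, ← add_assoc] at h1
    exact h1
  have hpart1 : ∑ y, ν j y * D1 y + ∑ t ∈ univ.filter (fun t : Fin m × Y => t.1 ≠ j),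
      l (Sum.inr t) * ∑ y, ν j y * D2 t y ≤ ε ^ 2 := by
    have h1 : ∑ y, ν j y * D1 y + ∑ t ∈ univ.filter (fun t : Fin m × Y => t.1 ≠ j),
      l (Sum.inr t) * ∑ y, ν j y * D2 t y = ∑ y, ν j y * (D1 y +
        ∑ t ∈ univ.filter (fun t : Fin m × Y => t.1 ≠ j), l (Sum.inr t) * D2 t y) := by
      simp only [mul_add, Finset.sum_add_distrib, Finset.mul_sum]
      congr 1
      rw [Finset.sum_comm]
      refine Finset.sum_congr rfl fun y _ => Finset.sum_congr rfl fun t _ => ?_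
      ring
    rw [h1]
    calc _ ≤ ∑ y, ν j y * ε ^ 2 := by
          refine Finset.sum_le_sum fun y _ => mul_le_mul_of_nonneg_left ?_ (hν j y)
          have h2 := hD' y
          have h3 : 0 ≤ Λ * D3 y := mul_nonneg hΛ0 (hD30 y)
          linarith
      _ = ε ^ 2 := by rw [← Finset.sum_mul, hνs, one_mul]
  have hpart2 : ∑ y, l (Sum.inr (j, y)) * D3 y ≤ ε ^ 2 := by
    have h1 : ∀ y, Λ * D3 y ≤ ε ^ 2 := by
      intro y
      have h2 := hD' y
      have h3 := hD10 y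
      have h4 : 0 ≤ ∑ t ∈ univ.filter (fun t : Fin m × Y => t.1 ≠ j), l (Sum.inr t) * D2 t y :=
        Finset.sum_nonneg fun t _ => mul_nonneg (hl _) (hD20 _ _)
      linarith
    rcases hΛ0.lt_or_eq with hpos | hz
    · have h2 : ∀ y, D3 y ≤ ε ^ 2 / Λ := by
        intro y
        rw [le_div_iff₀ hpos, mul_comm]
        exact h1 y
      calc ∑ y, l (Sum.inr (j, y)) * D3 y ≤ ∑ y, l (Sum.inr (j, y)) * (ε ^ 2 / Λ) :=
            Finset.sum_le_sum fun y _ => mul_le_mul_of_nonneg_left (h2 y) (hl _)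
        _ = Λ * (ε ^ 2 / Λ) := by rw [← Finset.sum_mul]
        _ = ε ^ 2 := by field_simp
    · have h2 : ∀ y, l (Sum.inr (j, y)) = 0 := by
        intro y
        exact (Finset.sum_eq_zero_iff_of_nonneg (fun y _ => hl (Sum.inr (j, y)))).1 hz.symm y
          (Finset.mem_univ y)
      simp only [h2, zero_mul, Finset.sum_const_zero]
      positivity
  have h5 : ∑ t ∈ univ.filter (fun t : Fin m × Y => t.1 ≠ j), l (Sum.inr t) * ∑ b, β₀ b *
      ∑ z, prodW ν z *
        ‖c b (Function.update z t.1 t.2) - c b (Function.update (Function.update z t.1 t.2) j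
          (ρ ((Function.update z t.1 t.2) j)))‖ ^ 2 =
      ∑ t ∈ univ.filter (fun t : Fin m × Y => t.1 ≠ j), l (Sum.inr t) * ∑ y, ν j y * D2 t y := by
    refine Finset.sum_congr rfl fun t ht => ?_
    rw [hsecond t (Finset.mem_filter.1 ht).2]
  rw [h5]
  simp only [hthird]
  linarith

/-- Existence of a mixed strategy. -/
theorem exists_mixed [Nonempty Y] {ν : Fin m → Y → ℝ} (hν : ∀ i y, 0 ≤ ν i y)
    (hνs : ∀ i, ∑ y, ν i y = 1) {β₀ : Y → ℝ} (hβ₀ : ∀ y, 0 ≤ β₀ y) (hβ₀s : ∑ y, β₀ y = 1)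
    {c : Y → (Fin m → Y) → ℂ} (j : Fin m) {ε N : ℝ} (hN : 1 ≤ N)
    (hent : ∀ w : Y → (Fin m → Y) → ℝ, (∀ b z, 0 ≤ w b z) → (∑ b, ∑ z, w b z = 1) →
      ∃ κ : Y → ℕ, (∀ y, (κ y : ℝ) + 1 ≤ N) ∧
        ∀ y y', κ y = κ y' →
          ∑ b, ∑ z, w b z * ‖c b (Function.update z j y) - c b (Function.update z j y')‖ ^ 2
            ≤ ε ^ 2) :
    ∃ μ : (Y → Y) → ℝ, (∀ ρ ∈ univ.filter (fun ρ : Y → Y => ((univ.image ρ).card : ℝ) ≤ N),
        0 ≤ μ ρ) ∧
      (∑ ρ ∈ univ.filter (fun ρ : Y → Y => ((univ.image ρ).card : ℝ) ≤ N), μ ρ = 1) ∧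
      (∀ b, ∑ ρ ∈ univ.filter (fun ρ : Y → Y => ((univ.image ρ).card : ℝ) ≤ N), μ ρ *
        ∑ z, prodW ν z * ‖c b z - c b (Function.update z j (ρ (z j)))‖ ^ 2 ≤ 2 * ε ^ 2) ∧
      (∀ i y, ∑ ρ ∈ univ.filter (fun ρ : Y → Y => ((univ.image ρ).card : ℝ) ≤ N), μ ρ *
        ∑ b, β₀ b * ∑ z, prodW ν z *
        ‖c b (Function.update z i y) - c b (Function.update (Function.update z i y) j
          (ρ ((Function.update z i y) j)))‖ ^ 2 ≤ 2 * ε ^ 2) := by
  set S : Finset (Y → Y) := univ.filter (fun ρ : Y → Y => ((univ.image ρ).card : ℝ) ≤ N) with hS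
  have hSne : S.Nonempty := by
    obtain ⟨y₀⟩ := ‹Nonempty Y›
    refine ⟨fun _ => y₀, ?_⟩
    rw [hS, Finset.mem_filter]
    refine ⟨Finset.mem_univ _, ?_⟩
    have h1 : (univ.image (fun _ : Y => y₀)).card ≤ 1 := by
      rw [Finset.card_le_one]
      intro a ha b hb
      rw [Finset.mem_image] at ha hb
      obtain ⟨_, _, rfl⟩ := ha
      obtain ⟨_, _, rfl⟩ := hb
      rfl
    have h2 : ((univ.image (fun _ : Y => y₀)).card : ℝ) ≤ 1 := by exact_mod_cast h1
    exact h2.trans hN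
  obtain ⟨μ, h0, h1, h2⟩ := finset_minimax (τ := Y ⊕ (Fin m × Y)) S hSne
    (fun ρ t => match t with
      | Sum.inl b => ∑ z, prodW ν z * ‖c b z - c b (Function.update z j (ρ (z j)))‖ ^ 2
      | Sum.inr t => ∑ b, β₀ b * ∑ z, prodW ν z *
        ‖c b (Function.update z t.1 t.2) - c b (Function.update (Function.update z t.1 t.2) j
          (ρ ((Function.update z t.1 t.2) j)))‖ ^ 2) (2 * ε ^ 2) (by
    intro l hl hl1
    obtain ⟨κ, hκ, hκ2⟩ := hent (testW ν β₀ l) (testW_nonneg hν hβ₀ hl) (testW_sum hνs hβ₀s hl1)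
    -- the choice of representatives
    have hrep : ∃ g : ℕ → Y, ∀ y, κ (g (κ y)) = κ y := by
      refine ⟨fun n => if h : ∃ y, κ y = n then h.choose else Classical.arbitrary Y, fun y => ?_⟩
      have h : ∃ y', κ y' = κ y := ⟨y, rfl⟩
      simp only [dif_pos h]
      exact h.choose_spec
    obtain ⟨g, hg⟩ := hrep
    refine ⟨fun y => g (κ y), ?_, ?_⟩
    · rw [hS, Finset.mem_filter]
      refine ⟨Finset.mem_univ _, ?_⟩
      obtain ⟨y₁, hy₁⟩ : ∃ y₁, ∀ y, κ y ≤ κ y₁ := by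
        obtain ⟨y₁, _, h⟩ := Finset.exists_max_image univ κ Finset.univ_nonempty
        exact ⟨y₁, fun y => h y (Finset.mem_univ _)⟩
      have h3 : (univ.image (fun y => g (κ y))).card ≤ κ y₁ + 1 := by
        have h4 : univ.image (fun y => g (κ y)) ⊆ (Finset.range (κ y₁ + 1)).image g := by
          intro x hx
          rw [Finset.mem_image] at hx
          obtain ⟨y, _, rfl⟩ := hx
          exact Finset.mem_image_of_mem g (Finset.mem_range.2 (Nat.lt_succ_of_le (hy₁ y)))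
        calc _ ≤ ((Finset.range (κ y₁ + 1)).image g).card := Finset.card_le_card h4
          _ ≤ (Finset.range (κ y₁ + 1)).card := Finset.card_image_le
          _ = κ y₁ + 1 := Finset.card_range _
      calc ((univ.image (fun y => g (κ y))).card : ℝ) ≤ ((κ y₁ + 1 : ℕ) : ℝ) := by exact_mod_cast h3
        _ = (κ y₁ : ℝ) + 1 := by push_cast; ring
        _ ≤ N := hκ y₁
    · rw [Fintype.sum_sum_type]
      exact strategy_payoff hν hνs hβ₀ j hl (fun y => g (κ y))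
        (fun y => hκ2 y (g (κ y)) (hg y).symm))
  exact ⟨μ, h0, h1, fun b => h2 (Sum.inl b), fun i y => h2 (Sum.inr (i, y))⟩

omit [Fintype Y] [DecidableEq Y] in
/-- Jensen's inequality. -/
theorem norm_sq_sum_le {ι : Type} (S : Finset ι) (μ : ι → ℝ) (hμ : ∀ s ∈ S, 0 ≤ μ s)
    (hμ1 : ∑ s ∈ S, μ s = 1) (x : ι → ℂ) :
    ‖∑ s ∈ S, (μ s : ℂ) * x s‖ ^ 2 ≤ ∑ s ∈ S, μ s * ‖x s‖ ^ 2 := by
  have h1 : ‖∑ s ∈ S, (μ s : ℂ) * x s‖ ≤ ∑ s ∈ S, μ s * ‖x s‖ := by
    refine (norm_sum_le _ _).trans (le_of_eq (Finset.sum_congr rfl fun s hs => ?_))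
    rw [norm_mul, Complex.norm_real, Real.norm_of_nonneg (hμ s hs)]
  have h2 : (∑ s ∈ S, μ s * ‖x s‖) ^ 2 ≤ (∑ s ∈ S, μ s) * ∑ s ∈ S, μ s * ‖x s‖ ^ 2 := by
    refine Finset.sum_sq_le_sum_mul_sum_of_sq_le_mul S hμ
      (fun s hs => mul_nonneg (hμ s hs) (by positivity)) (fun s _ => le_of_eq ?_)
    ring
  rw [hμ1, one_mul] at h2
  exact (pow_le_pow_left₀ (norm_nonneg _) h1 2).trans h2

end Weights

/-- the weights of the alphabet of the `j`-th variable after applying the map `π`: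
one half of the push-forward of `β` plus one half of the uniform weight on the range of `π` -/
noncomputable def nuW {Y : Type} [Fintype Y] [DecidableEq Y] (β : Y → ℝ) (π : Y → Y) (z : Y) : ℝ :=
  (∑ y, if π y = z then β y else 0) / 2 +
    (if z ∈ univ.image π then 1 / ((univ.image π).card : ℝ) else 0) / 2

section Main

variable {Y : Type} [Fintype Y] [DecidableEq Y]

theorem nuW_nonneg {β : Y → ℝ} (hβ : ∀ y, 0 ≤ β y) (π : Y → Y) (z : Y) : 0 ≤ nuW β π z := by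
  unfold nuW
  refine add_nonneg (div_nonneg (Finset.sum_nonneg fun y _ => ?_) (by norm_num))
    (div_nonneg ?_ (by norm_num))
  · split_ifs
    · exact hβ y
    · exact le_refl _
  · split_ifs
    · positivity
    · exact le_refl _

theorem nuW_sum [Nonempty Y] {β : Y → ℝ} (hβs : ∑ y, β y = 1) (π : Y → Y) :
    ∑ z, nuW β π z = 1 := by
  unfold nuW
  rw [Finset.sum_add_distrib, ← Finset.sum_div, ← Finset.sum_div, Finset.sum_comm]
  have h1 : ∑ y, ∑ z, (if π y = z then β y else 0) = 1 := by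
    rw [← hβs]
    refine Finset.sum_congr rfl fun y _ => ?_
    rw [Finset.sum_ite_eq]
    simp
  have hne : (univ.image π).Nonempty := Finset.univ_nonempty.image π
  have h2 : ∑ z, (if z ∈ univ.image π then 1 / ((univ.image π).card : ℝ) else 0) = 1 := by
    rw [Finset.sum_ite_mem, Finset.univ_inter, Finset.sum_const, nsmul_eq_mul]
    have : ((univ.image π).card : ℝ) ≠ 0 := by
      exact_mod_cast hne.card_pos.ne'
    field_simp
  rw [h1, h2]
  norm_num

/-- One step of the telescoping. -/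
theorem chain_step [Nonempty Y] {m : ℕ}
    {β₀ : Y → ℝ} (hβ₀ : ∀ y, 0 ≤ β₀ y) (hβ₀s : ∑ y, β₀ y = 1)
    {β : Fin m → Y → ℝ} (hβ : ∀ j y, 0 ≤ β j y) (hβs : ∀ j, ∑ y, β j y = 1)
    {c : Y → (Fin m → Y) → ℂ}
    {Φ : (Y → (Fin m → Y) → ℂ) → ℝ≥0∞}
    (hΦadd : ∀ g h, Φ (g + h) ≤ Φ g + Φ h)
    (hΦsum : ∀ (S : Finset (Y → Y)) (μ : (Y → Y) → ℝ) (g : (Y → Y) → (Y → (Fin m → Y) → ℂ))
      (B : ℝ≥0∞), (∀ s ∈ S, 0 ≤ μ s) → (∑ s ∈ S, μ s = 1) → (∀ s ∈ S, Φ (g s) ≤ B) →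
      Φ (fun b z => ∑ s ∈ S, (μ s : ℂ) * g s b z) ≤ B)
    {Cb : ℝ≥0∞} {γ : ℝ}
    (hblock : ∀ (π : Fin m → Y → Y) (φ : Y → (Fin m → Y) → ℂ) (δ : ℝ), 0 < δ →
      (∀ b, ∑ z, (∏ i, nuW (β i) (π i) (z i)) * ‖φ b z‖ ^ 2 ≤ δ ^ 2) →
      (∀ j y, ∑ b, β₀ b * ∑ z, (∏ i, nuW (β i) (π i) (z i)) *
        ‖φ b (Function.update z j y)‖ ^ 2 ≤ δ ^ 2) →
      Φ (fun b a => φ b (fun j => π j (a j)))
        ≤ Cb * ENNReal.ofReal (δ * ∏ j, ((univ.image (π j)).card : ℝ) ^ γ))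
    (j : Fin m) {ε N : ℝ} (hε : 0 < ε) (hN : 1 ≤ N)
    (hent : ∀ w : Y → (Fin m → Y) → ℝ, (∀ b z, 0 ≤ w b z) → (∑ b, ∑ z, w b z = 1) →
      ∃ κ : Y → ℕ, (∀ y, (κ y : ℝ) + 1 ≤ N) ∧
        ∀ y y', κ y = κ y' →
          ∑ b, ∑ z, w b z * ‖c b (Function.update z j y) - c b (Function.update z j y')‖ ^ 2
            ≤ ε ^ 2)
    (π : Fin m → Y → Y) {B : ℝ≥0∞}
    (hB : ∀ ρ : Y → Y, ((univ.image ρ).card : ℝ) ≤ N →
      Φ (fun b a => c b (fun i => Function.update π j (ρ ∘ π j) i (a i))) ≤ B) :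
    Φ (fun b a => c b (fun i => π i (a i))) ≤
      B + Cb * ENNReal.ofReal (Real.sqrt 2 * ε * ∏ i, ((univ.image (π i)).card : ℝ) ^ γ) := by
  obtain ⟨μ, h0, h1, h2, h3⟩ := exists_mixed (ν := fun i => nuW (β i) (π i))
    (fun i y => nuW_nonneg (hβ i) (π i) y) (fun i => nuW_sum (hβs i) (π i)) hβ₀ hβ₀s (c := c) j hN
    hent
  set S : Finset (Y → Y) := univ.filter (fun ρ : Y → Y => ((univ.image ρ).card : ℝ) ≤ N) with hS
  set φ : Y → (Fin m → Y) → ℂ := fun b z =>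
    ∑ ρ ∈ S, (μ ρ : ℂ) * (c b z - c b (Function.update z j (ρ (z j)))) with hφ
  have hφn : ∀ b z, ‖φ b z‖ ^ 2 ≤
      ∑ ρ ∈ S, μ ρ * ‖c b z - c b (Function.update z j (ρ (z j)))‖ ^ 2 :=
    fun b z => norm_sq_sum_le S μ h0 h1 _
  have hδ : 0 < Real.sqrt 2 * ε := by positivity
  have hδ2 : (Real.sqrt 2 * ε) ^ 2 = 2 * ε ^ 2 := by
    rw [mul_pow, Real.sq_sqrt (by norm_num)]
  have hpw : ∀ z : Fin m → Y, 0 ≤ ∏ i, nuW (β i) (π i) (z i) :=
    fun z => Finset.prod_nonneg fun i _ => nuW_nonneg (hβ i) (π i) _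
  have hb := hblock π φ (Real.sqrt 2 * ε) hδ (by
    intro b
    rw [hδ2]
    calc ∑ z, (∏ i, nuW (β i) (π i) (z i)) * ‖φ b z‖ ^ 2
        ≤ ∑ z, (∏ i, nuW (β i) (π i) (z i)) *
          ∑ ρ ∈ S, μ ρ * ‖c b z - c b (Function.update z j (ρ (z j)))‖ ^ 2 :=
          Finset.sum_le_sum fun z _ => mul_le_mul_of_nonneg_left (hφn b z) (hpw z)
      _ = ∑ ρ ∈ S, μ ρ * ∑ z, prodW (fun i => nuW (β i) (π i)) z *
          ‖c b z - c b (Function.update z j (ρ (z j)))‖ ^ 2 := by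
          simp only [Finset.mul_sum, prodW]
          rw [Finset.sum_comm]
          refine Finset.sum_congr rfl fun ρ _ => Finset.sum_congr rfl fun z _ => ?_
          ring
      _ ≤ 2 * ε ^ 2 := h2 b) (by
    intro i y
    rw [hδ2]
    calc ∑ b, β₀ b * ∑ z, (∏ i, nuW (β i) (π i) (z i)) * ‖φ b (Function.update z i y)‖ ^ 2
        ≤ ∑ b, β₀ b * ∑ z, (∏ i, nuW (β i) (π i) (z i)) *
          ∑ ρ ∈ S, μ ρ * ‖c b (Function.update z i y) -
            c b (Function.update (Function.update z i y) j (ρ ((Function.update z i y) j)))‖ ^ 2 :=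
          Finset.sum_le_sum fun b _ => mul_le_mul_of_nonneg_left
            (Finset.sum_le_sum fun z _ => mul_le_mul_of_nonneg_left (hφn b _) (hpw z)) (hβ₀ b)
      _ = ∑ ρ ∈ S, μ ρ * ∑ b, β₀ b * ∑ z, prodW (fun i => nuW (β i) (π i)) z *
          ‖c b (Function.update z i y) -
            c b (Function.update (Function.update z i y) j (ρ ((Function.update z i y) j)))‖ ^ 2 := by
          simp only [Finset.mul_sum, prodW]
          rw [Finset.sum_congr rfl (fun b _ => Finset.sum_comm), Finset.sum_comm]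
          refine Finset.sum_congr rfl fun ρ _ => Finset.sum_congr rfl fun b _ =>
            Finset.sum_congr rfl fun z _ => ?_
          ring
      _ ≤ 2 * ε ^ 2 := h3 i y)
  have hg : Φ (fun b a => ∑ ρ ∈ S, (μ ρ : ℂ) *
      c b (fun i => Function.update π j (ρ ∘ π j) i (a i))) ≤ B := by
    refine hΦsum S μ (fun ρ b a => c b (fun i => Function.update π j (ρ ∘ π j) i (a i))) B h0 h1 ?_
    intro ρ hρ
    exact hB ρ (Finset.mem_filter.1 hρ).2
  have hdec : (fun (b : Y) (a : Fin m → Y) => c b (fun i => π i (a i))) =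
      (fun (b : Y) (a : Fin m → Y) =>
        ∑ ρ ∈ S, (μ ρ : ℂ) * c b (fun i => Function.update π j (ρ ∘ π j) i (a i))) +
      (fun (b : Y) (a : Fin m → Y) => φ b (fun i => π i (a i))) := by
    funext b a
    show c b (fun i => π i (a i)) = (∑ ρ ∈ S, (μ ρ : ℂ) *
      c b (fun i => Function.update π j (ρ ∘ π j) i (a i))) + φ b (fun i => π i (a i))
    have h4 : ∀ ρ : Y → Y, (fun i => Function.update π j (ρ ∘ π j) i (a i)) =
        Function.update (fun i => π i (a i)) j (ρ (π j (a j))) := by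
      intro ρ
      funext i
      by_cases hij : i = j
      · subst hij
        simp
      · rw [Function.update_of_ne hij, Function.update_of_ne hij]
    simp only [hφ, h4, mul_sub, Finset.sum_sub_distrib]
    rw [← Finset.sum_mul]
    have h5 : (∑ ρ ∈ S, (μ ρ : ℂ)) = 1 := by
      rw [← Complex.ofReal_sum, h1, Complex.ofReal_one]
    rw [h5, one_mul]
    ring
  rw [hdec]
  exact (hΦadd _ _).trans (add_le_add hg hb)

/-- The hybrid induction from level `k` to level `k+1`, abstract form. -/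
theorem chain_hybrid [Nonempty Y] {m : ℕ}
    {β₀ : Y → ℝ} (hβ₀ : ∀ y, 0 ≤ β₀ y) (hβ₀s : ∑ y, β₀ y = 1)
    {β : Fin m → Y → ℝ} (hβ : ∀ j y, 0 ≤ β j y) (hβs : ∀ j, ∑ y, β j y = 1)
    {c : Y → (Fin m → Y) → ℂ}
    {Φ : (Y → (Fin m → Y) → ℂ) → ℝ≥0∞}
    (hΦadd : ∀ g h, Φ (g + h) ≤ Φ g + Φ h)
    (hΦsum : ∀ (S : Finset (Y → Y)) (μ : (Y → Y) → ℝ) (g : (Y → Y) → (Y → (Fin m → Y) → ℂ))
      (B : ℝ≥0∞), (∀ s ∈ S, 0 ≤ μ s) → (∑ s ∈ S, μ s = 1) → (∀ s ∈ S, Φ (g s) ≤ B) →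
      Φ (fun b z => ∑ s ∈ S, (μ s : ℂ) * g s b z) ≤ B)
    {Cb : ℝ≥0∞} {γ : ℝ} (hγ : 0 ≤ γ)
    (hblock : ∀ (π : Fin m → Y → Y) (φ : Y → (Fin m → Y) → ℂ) (δ : ℝ), 0 < δ →
      (∀ b, ∑ z, (∏ i, nuW (β i) (π i) (z i)) * ‖φ b z‖ ^ 2 ≤ δ ^ 2) →
      (∀ j y, ∑ b, β₀ b * ∑ z, (∏ i, nuW (β i) (π i) (z i)) *
        ‖φ b (Function.update z j y)‖ ^ 2 ≤ δ ^ 2) →
      Φ (fun b a => φ b (fun j => π j (a j)))
        ≤ Cb * ENNReal.ofReal (δ * ∏ j, ((univ.image (π j)).card : ℝ) ^ γ))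
    {ε : ℝ} (hε : 0 < ε) {N N' : Fin m → ℝ} (hN : ∀ j, 1 ≤ N j) (hNN' : ∀ j, N j ≤ N' j)
    (hent : ∀ j, ∀ w : Y → (Fin m → Y) → ℝ, (∀ b z, 0 ≤ w b z) → (∑ b, ∑ z, w b z = 1) →
      ∃ κ : Y → ℕ, (∀ y, (κ y : ℝ) + 1 ≤ N j) ∧
        ∀ y y', κ y = κ y' →
          ∑ b, ∑ z, w b z * ‖c b (Function.update z j y) - c b (Function.update z j y')‖ ^ 2
            ≤ ε ^ 2)
    {x : ℝ} (hx : 0 ≤ x)
    (hbase : ∀ π : Fin m → Y → Y, (∀ j, ((univ.image (π j)).card : ℝ) ≤ N j) →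
      Φ (fun b a => c b (fun i => π i (a i))) ≤ Cb * ENNReal.ofReal x)
    (A : Finset (Fin m)) (π : Fin m → Y → Y)
    (hπ' : ∀ j, ((univ.image (π j)).card : ℝ) ≤ N' j)
    (hπ : ∀ j, j ∉ A → ((univ.image (π j)).card : ℝ) ≤ N j) :
    Φ (fun b a => c b (fun i => π i (a i))) ≤
      Cb * ENNReal.ofReal (x + A.card * (Real.sqrt 2 * ε * ∏ i, N' i ^ γ)) := by
  have hN'0 : ∀ i, 0 ≤ N' i := fun i => by linarith [hN i, hNN' i]
  have he0 : 0 ≤ Real.sqrt 2 * ε * ∏ i, N' i ^ γ := by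
    have : 0 ≤ ∏ i, N' i ^ γ := Finset.prod_nonneg fun i _ => Real.rpow_nonneg (hN'0 i) γ
    positivity
  induction A using Finset.induction_on generalizing π with
  | empty =>
    simp only [Finset.card_empty, Nat.cast_zero, zero_mul, add_zero]
    exact hbase π fun j => hπ j (Finset.notMem_empty j)
  | insert j A hj ih =>
    have h1 := chain_step hβ₀ hβ₀s hβ hβs hΦadd hΦsum hblock j hε (hN j) (hent j) π
      (B := Cb * ENNReal.ofReal (x + A.card * (Real.sqrt 2 * ε * ∏ i, N' i ^ γ))) (by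
      intro ρ hρ
      have hcard : ((univ.image (ρ ∘ π j)).card : ℝ) ≤ N j := by
        have h2 : univ.image (ρ ∘ π j) ⊆ univ.image ρ := by
          intro y hy
          rw [Finset.mem_image] at hy ⊢
          obtain ⟨a, _, rfl⟩ := hy
          exact ⟨π j a, Finset.mem_univ _, rfl⟩
        have h3 : ((univ.image (ρ ∘ π j)).card : ℝ) ≤ ((univ.image ρ).card : ℝ) := by
          exact_mod_cast Finset.card_le_card h2
        exact h3.trans hρ
      apply ih (Function.update π j (ρ ∘ π j))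
      · intro i
        by_cases hij : i = j
        · subst hij
          rw [Function.update_self]
          exact hcard.trans (hNN' i)
        · rw [Function.update_of_ne hij]
          exact hπ' i
      · intro i hi
        by_cases hij : i = j
        · subst hij
          rw [Function.update_self]
          exact hcard
        · rw [Function.update_of_ne hij]
          apply hπ i
          rw [Finset.mem_insert]
          push Not
          exact ⟨hij, hi⟩)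
    refine h1.trans ?_
    have h4 : Real.sqrt 2 * ε * ∏ i, ((univ.image (π i)).card : ℝ) ^ γ ≤
        Real.sqrt 2 * ε * ∏ i, N' i ^ γ := by
      refine mul_le_mul_of_nonneg_left ?_ (by positivity)
      exact Finset.prod_le_prod (fun i _ => by positivity) fun i _ =>
        Real.rpow_le_rpow (by positivity) (hπ' i) hγ
    calc _ ≤ Cb * ENNReal.ofReal (x + A.card * (Real.sqrt 2 * ε * ∏ i, N' i ^ γ)) +
          Cb * ENNReal.ofReal (Real.sqrt 2 * ε * ∏ i, N' i ^ γ) := by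
          gcongr
      _ = Cb * ENNReal.ofReal (x + (insert j A).card * (Real.sqrt 2 * ε * ∏ i, N' i ^ γ)) := by
          rw [← mul_add, ← ENNReal.ofReal_add (by positivity) he0, Finset.card_insert_of_notMem hj]
          congr 2
          push_cast
          ring

/-- JOB 1.  Telescoping with minimax. -/
theorem chain {Y : Type} [Fintype Y] [DecidableEq Y] [Nonempty Y] {m : ℕ}
    {β₀ : Y → ℝ} (hβ₀ : ∀ y, 0 ≤ β₀ y) (hβ₀s : ∑ y, β₀ y = 1)
    {β : Fin m → Y → ℝ} (hβ : ∀ j y, 0 ≤ β j y) (hβs : ∀ j, ∑ y, β j y = 1)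
    {c : Y → (Fin m → Y) → ℂ} (hc : ∀ b z, ‖c b z‖ ≤ 1)
    {p : Fin m → ℝ} (hp : ∀ j, 0 < p j) {K : ℝ} (hK : 1 ≤ K)
    (hent : ∀ j, ∀ w : Y → (Fin m → Y) → ℝ, (∀ b z, 0 ≤ w b z) → (∑ b, ∑ z, w b z = 1) →
      ∀ ε : ℝ, 0 < ε → ε ≤ 1 → ∃ κ : Y → ℕ, (∀ y, (κ y : ℝ) + 1 ≤ K * ε ^ (-(p j))) ∧
        ∀ y y', κ y = κ y' →
          ∑ b, ∑ z, w b z * ‖c b (Function.update z j y) - c b (Function.update z j y')‖ ^ 2
            ≤ ε ^ 2)
    {Φ : (Y → (Fin m → Y) → ℂ) → ℝ≥0∞}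
    (hΦadd : ∀ g h, Φ (g + h) ≤ Φ g + Φ h)
    (hΦsum : ∀ (S : Finset (Y → Y)) (μ : (Y → Y) → ℝ) (g : (Y → Y) → (Y → (Fin m → Y) → ℂ))
      (B : ℝ≥0∞), (∀ s ∈ S, 0 ≤ μ s) → (∑ s ∈ S, μ s = 1) → (∀ s ∈ S, Φ (g s) ≤ B) →
      Φ (fun b z => ∑ s ∈ S, (μ s : ℂ) * g s b z) ≤ B)
    {Cb : ℝ≥0∞} {γ : ℝ} (hγ : 0 ≤ γ)
    (hblock : ∀ (π : Fin m → Y → Y) (φ : Y → (Fin m → Y) → ℂ) (δ : ℝ), 0 < δ →
      (∀ b, ∑ z, (∏ i, nuW (β i) (π i) (z i)) * ‖φ b z‖ ^ 2 ≤ δ ^ 2) →
      (∀ j y, ∑ b, β₀ b * ∑ z, (∏ i, nuW (β i) (π i) (z i)) *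
        ‖φ b (Function.update z j y)‖ ^ 2 ≤ δ ^ 2) →
      Φ (fun b a => φ b (fun j => π j (a j)))
        ≤ Cb * ENNReal.ofReal (δ * ∏ j, ((univ.image (π j)).card : ℝ) ^ γ))
    (hsum : γ * ∑ j, p j < 1) :
    Φ c ≤ Cb * ENNReal.ofReal (K ^ (γ * m) * (1 + m * (2 : ℝ) ^ (1 + γ * ∑ j, p j) /
      (1 - (2 : ℝ) ^ (γ * ∑ j, p j - 1)))) := by
  set q : ℝ := γ * ∑ j, p j with hq
  have hK0 : 0 < K := lt_of_lt_of_le one_pos hK
  -- the levels
  set N : ℕ → Fin m → ℝ := fun k j => K * (2 : ℝ) ^ ((k : ℝ) * p j) with hN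
  have hN1 : ∀ k j, 1 ≤ N k j := by
    intro k j
    have h1 : (1 : ℝ) ≤ (2 : ℝ) ^ ((k : ℝ) * p j) :=
      Real.one_le_rpow (by norm_num) (mul_nonneg (Nat.cast_nonneg k) (hp j).le)
    nlinarith
  have hNmono : ∀ k j, N k j ≤ N (k + 1) j := by
    intro k j
    refine mul_le_mul_of_nonneg_left (Real.rpow_le_rpow_of_exponent_le (by norm_num) ?_) hK0.le
    push_cast
    nlinarith [hp j]
  have hNprod : ∀ k, ∏ j, N k j ^ γ = K ^ (γ * m) * (2 : ℝ) ^ ((k : ℝ) * q) := by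
    intro k
    have h1 : ∀ j, N k j ^ γ = K ^ γ * (2 : ℝ) ^ ((k : ℝ) * p j * γ) := by
      intro j
      rw [hN]
      show (K * (2 : ℝ) ^ ((k : ℝ) * p j)) ^ γ = _
      rw [Real.mul_rpow hK0.le (by positivity), ← Real.rpow_mul (by norm_num)]
    rw [Finset.prod_congr rfl fun j _ => h1 j, Finset.prod_mul_distrib, Finset.prod_const,
      Finset.card_univ, Fintype.card_fin, ← Real.rpow_sum_of_pos (by norm_num),
      ← Real.rpow_natCast, ← Real.rpow_mul hK0.le]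
    congr 2
    rw [hq, Finset.mul_sum, Finset.mul_sum]
    exact Finset.sum_congr rfl fun j _ => by ring
  -- entropy at level k
  have hentk : ∀ k : ℕ, ∀ j, ∀ w : Y → (Fin m → Y) → ℝ, (∀ b z, 0 ≤ w b z) →
      (∑ b, ∑ z, w b z = 1) →
      ∃ κ : Y → ℕ, (∀ y, (κ y : ℝ) + 1 ≤ N k j) ∧
        ∀ y y', κ y = κ y' →
          ∑ b, ∑ z, w b z * ‖c b (Function.update z j y) - c b (Function.update z j y')‖ ^ 2
            ≤ ((2 : ℝ) ^ (-(k : ℝ))) ^ 2 := by
    intro k j w hw hw1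
    have h1 : (2 : ℝ) ^ (-(k : ℝ)) ≤ 1 :=
      Real.rpow_le_one_of_one_le_of_nonpos (by norm_num) (by simp)
    obtain ⟨κ, h2, h3⟩ := hent j w hw hw1 ((2 : ℝ) ^ (-(k : ℝ))) (by positivity) h1
    refine ⟨κ, fun y => (h2 y).trans (le_of_eq ?_), h3⟩
    rw [← Real.rpow_mul (by norm_num)]
    show K * (2 : ℝ) ^ (-(k : ℝ) * -(p j)) = K * (2 : ℝ) ^ ((k : ℝ) * p j)
    congr 2
    ring
  -- the main induction
  have hmain : ∀ k : ℕ, ∀ π : Fin m → Y → Y, (∀ j, ((univ.image (π j)).card : ℝ) ≤ N k j) →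
      Φ (fun b a => c b (fun i => π i (a i))) ≤ Cb * ENNReal.ofReal (K ^ (γ * m) *
        (1 + m * (Real.sqrt 2 * (2 : ℝ) ^ q * ∑ i ∈ Finset.range k, ((2 : ℝ) ^ (q - 1)) ^ i))) := by
    intro k
    induction k with
    | zero =>
      intro π hπ
      have h1 := hblock π c 1 one_pos (by
        intro b
        calc ∑ z, (∏ i, nuW (β i) (π i) (z i)) * ‖c b z‖ ^ 2
            ≤ ∑ z, prodW (fun i => nuW (β i) (π i)) z := by
              refine Finset.sum_le_sum fun z _ => ?_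
              have h2 : ‖c b z‖ ^ 2 ≤ 1 := by
                have := hc b z
                have h3 := norm_nonneg (c b z)
                nlinarith
              exact mul_le_of_le_one_right
                (Finset.prod_nonneg fun i _ => nuW_nonneg (hβ i) (π i) _) h2
          _ = 1 ^ 2 := by
              rw [prodW_sum fun i => nuW_sum (hβs i) (π i), one_pow]) (by
        intro j y
        calc ∑ b, β₀ b * ∑ z, (∏ i, nuW (β i) (π i) (z i)) * ‖c b (Function.update z j y)‖ ^ 2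
            ≤ ∑ b, β₀ b * ∑ z, prodW (fun i => nuW (β i) (π i)) z := by
              refine Finset.sum_le_sum fun b _ => mul_le_mul_of_nonneg_left
                (Finset.sum_le_sum fun z _ => ?_) (hβ₀ b)
              have h2 : ‖c b (Function.update z j y)‖ ^ 2 ≤ 1 := by
                have := hc b (Function.update z j y)
                have h3 := norm_nonneg (c b (Function.update z j y))
                nlinarith
              exact mul_le_of_le_one_right
                (Finset.prod_nonneg fun i _ => nuW_nonneg (hβ i) (π i) _) h2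
          _ = 1 ^ 2 := by
              rw [prodW_sum fun i => nuW_sum (hβs i) (π i)]
              simp only [mul_one, one_pow]
              exact hβ₀s)
      have h4 : 1 * ∏ j, ((univ.image (π j)).card : ℝ) ^ γ ≤ K ^ (γ * m) *
          (1 + m * (Real.sqrt 2 * (2 : ℝ) ^ q *
            ∑ i ∈ Finset.range 0, ((2 : ℝ) ^ (q - 1)) ^ i)) := by
        rw [one_mul, Finset.range_zero, Finset.sum_empty, mul_zero, mul_zero, add_zero, mul_one]
        calc ∏ j, ((univ.image (π j)).card : ℝ) ^ γ ≤ ∏ j, N 0 j ^ γ :=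
              Finset.prod_le_prod (fun i _ => Real.rpow_nonneg (Nat.cast_nonneg _) _) fun i _ =>
                Real.rpow_le_rpow (Nat.cast_nonneg _) (hπ i) hγ
          _ = K ^ (γ * m) := by
              rw [hNprod, Nat.cast_zero, zero_mul, Real.rpow_zero, mul_one]
      exact h1.trans (mul_le_mul' le_rfl (ENNReal.ofReal_le_ofReal h4))
    | succ k ih =>
      intro π hπ
      have hx : 0 ≤ K ^ (γ * m) * (1 + m * (Real.sqrt 2 * (2 : ℝ) ^ q *
          ∑ i ∈ Finset.range k, ((2 : ℝ) ^ (q - 1)) ^ i)) := by positivity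
      have h1 := chain_hybrid hβ₀ hβ₀s hβ hβs hΦadd hΦsum hγ hblock
        (ε := (2 : ℝ) ^ (-(k : ℝ))) (by positivity) (N := N k) (N' := N (k + 1)) (hN1 k) (hNmono k)
        (hentk k) hx ih univ π hπ (fun j hj => absurd (Finset.mem_univ j) hj)
      rw [hNprod, Finset.card_univ, Fintype.card_fin] at h1
      rw [Finset.sum_range_succ]
      have h2 : ((2 : ℝ) ^ (q - 1)) ^ k * (2 : ℝ) ^ q =
          (2 : ℝ) ^ (-(k : ℝ)) * (2 : ℝ) ^ (((k + 1 : ℕ) : ℝ) * q) := by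
        rw [← Real.rpow_natCast, ← Real.rpow_mul (by norm_num), ← Real.rpow_add (by norm_num),
          ← Real.rpow_add (by norm_num)]
        congr 1
        push_cast
        ring
      have h3 : K ^ (γ * m) * (1 + m * (Real.sqrt 2 * (2 : ℝ) ^ q *
          ∑ i ∈ Finset.range k, ((2 : ℝ) ^ (q - 1)) ^ i)) +
          m * (Real.sqrt 2 * (2 : ℝ) ^ (-(k : ℝ)) *
            (K ^ (γ * m) * (2 : ℝ) ^ (((k + 1 : ℕ) : ℝ) * q))) =
          K ^ (γ * m) * (1 + m * (Real.sqrt 2 * (2 : ℝ) ^ q *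
          (∑ i ∈ Finset.range k, ((2 : ℝ) ^ (q - 1)) ^ i + ((2 : ℝ) ^ (q - 1)) ^ k))) := by
        have h5 : Real.sqrt 2 * (2 : ℝ) ^ (-(k : ℝ)) *
            (K ^ (γ * m) * (2 : ℝ) ^ (((k + 1 : ℕ) : ℝ) * q)) =
            Real.sqrt 2 * K ^ (γ * m) *
            ((2 : ℝ) ^ (-(k : ℝ)) * (2 : ℝ) ^ (((k + 1 : ℕ) : ℝ) * q)) := by ring
        rw [h5, ← h2]
        ring
      rw [h3] at h1
      exact h1
  -- choose a large level
  obtain ⟨k, hk⟩ : ∃ k : ℕ, ∀ j, (Fintype.card Y : ℝ) ≤ N k j := by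
    have h1 : ∀ j, ∃ k : ℕ, (Fintype.card Y : ℝ) ≤ k * p j := by
      intro j
      obtain ⟨k, hk⟩ := exists_nat_ge ((Fintype.card Y : ℝ) / p j)
      refine ⟨k, ?_⟩
      rwa [div_le_iff₀ (hp j)] at hk
    choose kk hkk using h1
    refine ⟨∑ j, kk j, fun j => ?_⟩
    have h2 : (Fintype.card Y : ℝ) ≤ ((∑ j, kk j : ℕ) : ℝ) * p j := by
      refine (hkk j).trans (mul_le_mul_of_nonneg_right ?_ (hp j).le)
      exact_mod_cast Finset.single_le_sum (f := kk) (fun i _ => Nat.zero_le _) (Finset.mem_univ j)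
    have h3 : (1 : ℝ) ≤ Fintype.card Y := by
      exact_mod_cast Fintype.card_pos
    have h4 := one_add_mul_self_le_rpow_one_add (s := 1) (by norm_num) (h3.trans h2)
    have h5 : (Fintype.card Y : ℝ) ≤ (2 : ℝ) ^ (((∑ j, kk j : ℕ) : ℝ) * p j) := by
      have h6 : (1 : ℝ) + 1 = 2 := by norm_num
      rw [h6] at h4
      linarith
    calc (Fintype.card Y : ℝ) ≤ (2 : ℝ) ^ (((∑ j, kk j : ℕ) : ℝ) * p j) := h5
      _ ≤ K * (2 : ℝ) ^ (((∑ j, kk j : ℕ) : ℝ) * p j) :=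
          le_mul_of_one_le_left (by positivity) hK
  have h1 := hmain k (fun _ => id) (fun j => by
    rw [Finset.image_id, Finset.card_univ]
    exact hk j)
  have h2 : (fun (b : Y) (a : Fin m → Y) => c b (fun i => (fun _ => id : Fin m → Y → Y) i (a i))) = c := by
    funext b a
    rfl
  rw [h2] at h1
  refine h1.trans (mul_le_mul' le_rfl (ENNReal.ofReal_le_ofReal
    (mul_le_mul_of_nonneg_left ?_ (by positivity))))
  -- the geometric series
  have hr1 : (2 : ℝ) ^ (q - 1) < 1 :=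
    Real.rpow_lt_one_of_one_lt_of_neg (by norm_num) (by linarith)
  have hr0 : 0 < (2 : ℝ) ^ (q - 1) := by positivity
  have hgeom : ∑ i ∈ Finset.range k, ((2 : ℝ) ^ (q - 1)) ^ i ≤ 1 / (1 - (2 : ℝ) ^ (q - 1)) := by
    rw [le_div_iff₀ (by linarith), geom_sum_mul_neg]
    have : 0 ≤ ((2 : ℝ) ^ (q - 1)) ^ k := by positivity
    linarith
  have hs2 : Real.sqrt 2 ≤ 2 := by
    rw [Real.sqrt_le_left (by norm_num)]
    norm_num
  have h3 : (2 : ℝ) ^ (1 + q) = 2 * (2 : ℝ) ^ q := by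
    rw [Real.rpow_add (by norm_num), Real.rpow_one]
  rw [h3, mul_div_assoc, div_eq_mul_one_div (2 * (2 : ℝ) ^ q)]
  have h4 : 0 < (2 : ℝ) ^ q := by positivity
  have h5 : 0 ≤ ∑ i ∈ Finset.range k, ((2 : ℝ) ^ (q - 1)) ^ i :=
    Finset.sum_nonneg fun i _ => by positivity
  have h6 : Real.sqrt 2 * (2 : ℝ) ^ q * ∑ i ∈ Finset.range k, ((2 : ℝ) ^ (q - 1)) ^ i ≤
      2 * (2 : ℝ) ^ q * (1 / (1 - (2 : ℝ) ^ (q - 1))) :=
    mul_le_mul (mul_le_mul_of_nonneg_right hs2 h4.le) hgeom h5 (by positivity)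
  have h7 : (m : ℝ) * (Real.sqrt 2 * (2 : ℝ) ^ q * ∑ i ∈ Finset.range k, ((2 : ℝ) ^ (q - 1)) ^ i) ≤
      m * (2 * (2 : ℝ) ^ q * (1 / (1 - (2 : ℝ) ^ (q - 1)))) :=
    mul_le_mul_of_nonneg_left h6 (Nat.cast_nonneg m)
  linarith

end Main

end Pool.Agent.H.MP_b7167f_an
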