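import Mathlib
import Pool.Agent.H.MP_b7167f_an.Box

/-!
Parseval identity on the cube `[-1,1]^m`.
-/

namespace Pool.Agent.H.MP_b7167f_an

open MeasureTheory Complex ComplexConjugate Real Set ENNReal Pointwise

noncomputable local instance msCircle : MeasureSpace UnitAddCircle := ⟨AddCircle.haarAddCircle⟩

local instance haarCircle : Measure.IsAddHaarMeasure (volume : Measure UnitAddCircle) :=
  inferInstanceAs (Measure.IsAddHaarMeasure AddCircle.haarAddCircle)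

local instance probCircle : IsProbabilityMeasure (volume : Measure UnitAddCircle) :=
  inferInstanceAs (IsProbabilityMeasure AddCircle.haarAddCircle)

/-- representative of a torus point in `(-1,1]^m` -/
noncomputable def rep {m : ℕ} (θ : UnitAddTorus (Fin m)) : Fin m → ℝ :=
  fun i => 2 * ((AddCircle.equivIoc (1 : ℝ) (-(1 / 2)) (θ i)).1 : ℝ)

lemma measurable_rep {m : ℕ} : Measurable (rep (m := m)) := by
  have h := (UnitAddTorus.measurableEquivPiIoc (ι := Fin m) (fun _ => -(1 / 2))).measurable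
  rw [UnitAddTorus.coe_measurableEquivPiIoc] at h
  exact (measurable_subtype_coe.comp h).const_smul (2 : ℝ)

lemma rep_coe {m : ℕ} {x : Fin m → ℝ}
    (hx : ∀ i, (x i) ∈ Ioc (-(1 / 2) : ℝ) ((-(1 / 2) : ℝ) + 1)) :
    rep (fun i => (x i : UnitAddCircle)) = (2 : ℝ) • x := by
  unfold rep
  ext i
  rw [Pi.smul_apply, smul_eq_mul]
  congr 1
  exact AddCircle.equivIoc_coe_of_mem (hx i)

lemma integral_rep {m : ℕ} (g : (Fin m → ℝ) → ℂ) :
    ∫ θ : UnitAddTorus (Fin m), g (rep θ) = ((2 : ℂ) ^ m)⁻¹ * ∫ ξ, g ξ ∂(cube m) := by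
  rw [UnitAddTorus.integral_preimage (fun θ => g (rep θ)) (fun _ => -(1 / 2))]
  have hms : MeasurableSet {x : Fin m → ℝ | ∀ i, x i ∈ Ioc (-(1 / 2) : ℝ) (-(1 / 2) + 1)} := by
    have := MeasurableSet.univ_pi (fun i : Fin m => measurableSet_Ioc (a := (-(1 / 2) : ℝ))
      (b := -(1 / 2) + 1))
    convert this using 1
    ext x; simp
  rw [setIntegral_congr_fun hms (g := fun x => g ((2 : ℝ) • x))
    (fun x hx => by simp only; rw [rep_coe hx])]
  rw [Measure.setIntegral_comp_smul_of_pos volume _ _ (by norm_num : (0 : ℝ) < 2)]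
  rw [Module.finrank_fin_fun]
  have hset : (2 : ℝ) • {x : Fin m → ℝ | ∀ i, x i ∈ Ioc (-(1 / 2) : ℝ) (-(1 / 2) + 1)} =
      Set.pi univ fun _ => Ioc (-1 : ℝ) 1 := by
    ext y
    rw [Set.mem_smul_set_iff_inv_smul_mem₀ (by norm_num)]
    simp only [mem_ofPred_eq, mem_pi, mem_univ, forall_true_left, Pi.smul_apply, smul_eq_mul,
      mem_Ioc]
    refine forall_congr' fun i => ?_
    constructor
    · rintro ⟨h1, h2⟩; constructor <;> linarith
    · rintro ⟨h1, h2⟩; constructor <;> linarith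
  rw [hset]
  have hae : (Set.pi univ fun _ => Ioc (-1 : ℝ) 1) =ᵐ[volume] Icc (-1 : Fin m → ℝ) 1 := by
    have := Measure.univ_pi_Ioc_ae_eq_Icc (μ := fun _ : Fin m => (volume : Measure ℝ))
      (f := (-1 : Fin m → ℝ)) (g := 1)
    simpa [volume_pi] using this
  rw [setIntegral_congr_set hae]
  unfold cube
  rw [Complex.real_smul]
  push_cast
  rfl

/-- character `e(j·ξ/2)` -/
noncomputable def hc {m : ℕ} (j : Fin m → ℤ) (ξ : Fin m → ℝ) : ℂ := ph (∑ i, (j i : ℝ) * ξ i / 2)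

@[simp] lemma norm_hc {m : ℕ} (j : Fin m → ℤ) (ξ : Fin m → ℝ) : ‖hc j ξ‖ = 1 := norm_ph _

lemma continuous_hc {m : ℕ} (j : Fin m → ℤ) : Continuous (hc j) := by
  unfold hc; fun_prop

lemma conj_hc {m : ℕ} (j : Fin m → ℤ) (ξ : Fin m → ℝ) : conj (hc j ξ) = hc (-j) ξ := by
  unfold hc
  rw [conj_ph, ← Finset.sum_neg_distrib]
  congr 1
  apply Finset.sum_congr rfl
  intro i _
  rw [Pi.neg_apply]
  push_cast
  ring

lemma mFourier_rep {m : ℕ} (j : Fin m → ℤ) (θ : UnitAddTorus (Fin m)) :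
    UnitAddTorus.mFourier j θ = hc j (rep θ) := by
  unfold hc UnitAddTorus.mFourier
  rw [ph_sum]
  simp only [ContinuousMap.coe_mk]
  apply Finset.prod_congr rfl
  intro i _
  have h1 : θ i = ((AddCircle.equivIoc (1 : ℝ) (-(1 / 2)) (θ i)).1 : UnitAddCircle) :=
    (AddCircle.coe_equivIoc (p := (1 : ℝ)) (a := -(1 / 2)) (y := θ i)).symm
  conv_lhs => rw [h1]
  rw [fourier_coe_apply]
  unfold ph rep
  congr 1
  push_cast
  ring

lemma memLp_rep {m : ℕ} {u : (Fin m → ℝ) → ℂ} (hu : Measurable u) {M : ℝ} (hM : ∀ ξ, ‖u ξ‖ ≤ M) :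
    MemLp (fun θ : UnitAddTorus (Fin m) => u (rep θ)) 2 volume :=
  MemLp.of_bound (hu.comp measurable_rep).aestronglyMeasurable M
    (Filter.Eventually.of_forall fun _ => hM _)

lemma coeff_rep {m : ℕ} {u : (Fin m → ℝ) → ℂ} (hu : Measurable u) {M : ℝ} (hM : ∀ ξ, ‖u ξ‖ ≤ M)
    (j : Fin m → ℤ) :
    UnitAddTorus.mFourierCoeff ((memLp_rep hu hM).toLp (fun θ => u (rep θ))) j =
      ((2 : ℂ) ^ m)⁻¹ * ∫ ξ, conj (hc j ξ) * u ξ ∂(cube m) := by
  rw [← integral_rep (fun ξ => conj (hc j ξ) * u ξ)]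
  unfold UnitAddTorus.mFourierCoeff
  apply integral_congr_ae
  filter_upwards [(memLp_rep hu hM).coeFn_toLp] with θ hθ
  rw [hθ, mFourier_rep, conj_hc, smul_eq_mul]

lemma parseval_aux {m : ℕ} {u v : (Fin m → ℝ) → ℂ} (hu : Measurable u) (hv : Measurable v)
    {M M' : ℝ} (hM : ∀ ξ, ‖u ξ‖ ≤ M) (hM' : ∀ ξ, ‖v ξ‖ ≤ M') :
    HasSum (fun j : Fin m → ℤ => conj (((2 : ℂ) ^ m)⁻¹ * ∫ ξ, conj (hc j ξ) * v ξ ∂(cube m)) *
      (((2 : ℂ) ^ m)⁻¹ * ∫ ξ, conj (hc j ξ) * u ξ ∂(cube m)))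
      (((2 : ℂ) ^ m)⁻¹ * ∫ ξ, conj (v ξ) * u ξ ∂(cube m)) := by
  have h := UnitAddTorus.hasSum_prod_mFourierCoeff
    ((memLp_rep hv hM').toLp (fun θ => v (rep θ))) ((memLp_rep hu hM).toLp (fun θ => u (rep θ)))
  simp_rw [coeff_rep hv hM', coeff_rep hu hM] at h
  convert h using 1
  rw [← integral_rep (fun ξ => conj (v ξ) * u ξ)]
  apply integral_congr_ae
  filter_upwards [(memLp_rep hu hM).coeFn_toLp, (memLp_rep hv hM').coeFn_toLp] with θ h1 h2
  rw [h1, h2]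

/-- Parseval identity on the cube. -/
lemma parseval {m : ℕ} {u v : (Fin m → ℝ) → ℂ} (hu : Measurable u) (hv : Measurable v)
    {M M' : ℝ} (hM : ∀ ξ, ‖u ξ‖ ≤ M) (hM' : ∀ ξ, ‖v ξ‖ ≤ M') :
    HasSum (fun j : Fin m → ℤ => (∫ ξ, u ξ * conj (hc j ξ) ∂(cube m)) *
      (∫ ξ, v ξ * hc j ξ ∂(cube m))) ((2 : ℂ) ^ m * ∫ ξ, u ξ * v ξ ∂(cube m)) := by
  have h := parseval_aux hu (v := fun ξ => conj (v ξ)) (Complex.continuous_conj.measurable.comp hv)
    hM (M' := M') (fun ξ => by rw [Complex.norm_conj]; exact hM' ξ)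
  have h2 := h.mul_left ((4 : ℂ) ^ m)
  have e4 : (4 : ℂ) ^ m = 2 ^ m * 2 ^ m := by rw [← mul_pow]; norm_num
  have hne : (2 : ℂ) ^ m ≠ 0 := pow_ne_zero _ two_ne_zero
  have e5 : (4 : ℂ) ^ m * (((2 : ℂ) ^ m)⁻¹ * ∫ ξ, conj (conj (v ξ)) * u ξ ∂(cube m)) =
      (2 : ℂ) ^ m * ∫ ξ, u ξ * v ξ ∂(cube m) := by
    simp only [Complex.conj_conj]
    rw [e4]
    have e1 : ∀ ξ, v ξ * u ξ = u ξ * v ξ := fun ξ => mul_comm _ _
    simp_rw [e1]
    field_simp
  rw [e5] at h2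
  refine HasSum.congr_fun h2 fun j => ?_
  rw [map_mul, ← integral_conj, e4]
  simp only [map_mul, Complex.conj_conj, map_inv₀, map_pow, Complex.conj_ofNat]
  have e1 : ∀ ξ, hc j ξ * v ξ = v ξ * hc j ξ := fun ξ => mul_comm _ _
  have e2 : ∀ ξ, conj (hc j ξ) * u ξ = u ξ * conj (hc j ξ) := fun ξ => mul_comm _ _
  simp_rw [e1, e2]
  field_simp

lemma orth {m : ℕ} (i j : Fin m → ℤ) :
    ∫ ξ, hc j ξ * conj (hc i ξ) ∂(cube m) = if i = j then (2 : ℂ) ^ m else 0 := by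
  have h := orthonormal_iff_ite.mp (UnitAddTorus.orthonormal_mFourier (d := Fin m)) i j
  unfold UnitAddTorus.mFourierLp at h
  rw [ContinuousMap.inner_toLp] at h
  simp_rw [mFourier_rep] at h
  rw [integral_rep (fun ξ => hc j ξ * conj (hc i ξ))] at h
  have hne : (2 : ℂ) ^ m ≠ 0 := pow_ne_zero _ two_ne_zero
  have h2 : ∫ ξ, hc j ξ * conj (hc i ξ) ∂(cube m) = (2 : ℂ) ^ m * (if i = j then 1 else 0) := by
    rw [← h]; field_simp
  rw [h2]
  split_ifs <;> simp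

lemma integrable_cube {m : ℕ} {g : (Fin m → ℝ) → ℂ} (hg : Continuous g) :
    Integrable g (cube m) := by
  unfold cube
  exact (hg.continuousOn.integrableOn_compact isCompact_Icc)

lemma sq_sum {m : ℕ} (J : Finset (Fin m → ℤ)) (a : (Fin m → ℤ) → ℂ) :
    ∫ ξ, ‖∑ j ∈ J, a j * hc j ξ‖ ^ 2 ∂(cube m) = 2 ^ m * ∑ j ∈ J, ‖a j‖ ^ 2 := by
  have h1 : ∀ ξ : Fin m → ℝ, ((‖∑ j ∈ J, a j * hc j ξ‖ ^ 2 : ℝ) : ℂ) =
      ∑ j ∈ J, ∑ i ∈ J, (a j * conj (a i)) * (hc j ξ * conj (hc i ξ)) := by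
    intro ξ
    push_cast
    rw [← Complex.mul_conj', map_sum, Finset.sum_mul_sum]
    apply Finset.sum_congr rfl
    intro j _
    apply Finset.sum_congr rfl
    intro i _
    rw [map_mul]
    ring
  have h2 : ((∫ ξ, ‖∑ j ∈ J, a j * hc j ξ‖ ^ 2 ∂(cube m) : ℝ) : ℂ) =
      ((2 ^ m * ∑ j ∈ J, ‖a j‖ ^ 2 : ℝ) : ℂ) := by
    rw [← integral_complex_ofReal]
    simp_rw [h1]
    have hI : ∀ j i : Fin m → ℤ, Integrable (fun ξ : Fin m → ℝ =>
        (a j * conj (a i)) * (hc j ξ * conj (hc i ξ))) (cube m) := by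
      intro j i
      apply integrable_cube
      have := continuous_hc j
      have := continuous_hc i
      fun_prop
    rw [integral_finsetSum _ (fun j _ => integrable_finsetSum _ fun i _ => hI j i)]
    simp_rw [integral_finsetSum J (fun i _ => hI _ i), integral_const_mul, orth]
    push_cast
    rw [Finset.mul_sum]
    apply Finset.sum_congr rfl
    intro j hj
    simp only [mul_ite, mul_zero]
    rw [Finset.sum_ite_eq' J j]
    rw [if_pos hj, Complex.mul_conj']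
    ring
  exact_mod_cast h2

end Pool.Agent.H.MP_b7167f_an
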