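import Mathlib
import Pool.Agent.H.MP_b7167f_an.Fourier

/-!
The estimate for finite sums of translated kernels in the regular variables.
-/

namespace Pool.Agent.H.MP_b7167f_an

open MeasureTheory Complex ComplexConjugate Real Set ENNReal

/-- finite sum of kernels -/
noncomputable def FS (m : ℕ) (J : Finset (Fin m → ℤ)) (a : (Fin m → ℤ) → ℂ)
    (p : (Fin m → ℝ) × ℝ) : ℂ := ∑ j ∈ J, a j * E m (hc j) p

lemma hc_chr {m : ℕ} (j : Fin m → ℤ) (p : (Fin m → ℝ) × ℝ) (ξ : Fin m → ℝ) :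
    hc j ξ * chr p (par ξ) = 1 * chr ((fun i => p.1 i + (j i : ℝ) / 2), p.2) (par ξ) := by
  unfold hc chr par
  rw [← ph_add, one_mul]
  congr 1
  simp only
  rw [← add_assoc, ← Finset.sum_add_distrib]
  congr 1
  apply Finset.sum_congr rfl
  intro i _
  ring

lemma E_hc {m : ℕ} (j : Fin m → ℤ) (p : (Fin m → ℝ) × ℝ) :
    E m (hc j) p = E m (fun _ => 1) ((fun i => p.1 i + (j i : ℝ) / 2), p.2) := by
  rw [E_def, E_def]
  simp_rw [hc_chr]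

lemma norm_E_hc {m : ℕ} (j : Fin m → ℤ) (p : (Fin m → ℝ) × ℝ) (ht : p.2 ≠ 0) :
    ‖E m (hc j) p‖ ≤ (4 / √|p.2|) ^ m := by
  rw [E_hc]
  exact box_bound m _ ht

lemma chr_continuous {m : ℕ} (p : (Fin m → ℝ) × ℝ) : Continuous fun ξ : Fin m → ℝ => chr p (par ξ) := by
  unfold chr par
  fun_prop

lemma FS_eq {m : ℕ} (J : Finset (Fin m → ℤ)) (a : (Fin m → ℤ) → ℂ) (p : (Fin m → ℝ) × ℝ) :
    FS m J a p = E m (fun ξ => ∑ j ∈ J, a j * hc j ξ) p := by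
  unfold FS
  rw [E_def]
  simp_rw [Finset.sum_mul]
  rw [integral_finsetSum]
  · apply Finset.sum_congr rfl
    intro j _
    rw [E_def, ← integral_const_mul]
    congr 1
    ext ξ
    ring
  · intro j _
    apply integrable_cube
    have := continuous_hc j
    have := chr_continuous p
    fun_prop

lemma FS_meas {m : ℕ} (J : Finset (Fin m → ℤ)) (a : (Fin m → ℤ) → ℂ) : Measurable (FS m J a) := by
  unfold FS
  apply Finset.measurable_sum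
  intro j _
  exact (E_meas m (continuous_hc j).measurable).const_mul _

/-- sup bound -/
lemma FS_sup {m : ℕ} (J : Finset (Fin m → ℤ)) (a : (Fin m → ℤ) → ℂ) (p : (Fin m → ℝ) × ℝ)
    (ht : p.2 ≠ 0) :
    ‖FS m J a p‖ ^ 2 ≤ (16 / |p.2|) ^ m * (J.card * ∑ j ∈ J, ‖a j‖ ^ 2) := by
  have htp : 0 < |p.2| := abs_pos.mpr ht
  have h1 : ‖FS m J a p‖ ≤ (4 / √|p.2|) ^ m * ∑ j ∈ J, ‖a j‖ := by
    unfold FS
    refine (norm_sum_le _ _).trans ?_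
    rw [Finset.mul_sum]
    apply Finset.sum_le_sum
    intro j _
    rw [norm_mul, mul_comm]
    exact mul_le_mul_of_nonneg_right (norm_E_hc j p ht) (norm_nonneg _)
  have h2 : (∑ j ∈ J, ‖a j‖) ^ 2 ≤ J.card * ∑ j ∈ J, ‖a j‖ ^ 2 := sq_sum_le_card_mul_sum_sq
  have h3 : ((4 / √|p.2|) ^ m) ^ 2 = (16 / |p.2|) ^ m := by
    rw [← pow_mul, mul_comm, pow_mul, div_pow, Real.sq_sqrt htp.le]
    norm_num
  calc ‖FS m J a p‖ ^ 2 ≤ ((4 / √|p.2|) ^ m * ∑ j ∈ J, ‖a j‖) ^ 2 :=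
        pow_le_pow_left₀ (norm_nonneg _) h1 2
    _ = (16 / |p.2|) ^ m * (∑ j ∈ J, ‖a j‖) ^ 2 := by rw [mul_pow, h3]
    _ ≤ _ := mul_le_mul_of_nonneg_left h2 (by positivity)

lemma hc_sum_bdd {m : ℕ} (J : Finset (Fin m → ℤ)) (a : (Fin m → ℤ) → ℂ) (ξ : Fin m → ℝ) :
    ‖∑ j ∈ J, a j * hc j ξ‖ ≤ ∑ j ∈ J, ‖a j‖ := by
  refine (norm_sum_le _ _).trans (le_of_eq ?_)
  apply Finset.sum_congr rfl
  intro j _
  rw [norm_mul, norm_hc, mul_one]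

lemma hc_sum_meas {m : ℕ} (J : Finset (Fin m → ℤ)) (a : (Fin m → ℤ) → ℂ) :
    Continuous (fun ξ : Fin m → ℝ => ∑ j ∈ J, a j * hc j ξ) := by
  apply continuous_finsetSum
  intro j _
  exact continuous_const.mul (continuous_hc j)

/-- L² bound -/
lemma FS_L2 {m : ℕ} (J : Finset (Fin m → ℤ)) (a : (Fin m → ℤ) → ℂ) (t : ℝ) :
    ∫⁻ x : Fin m → ℝ, ‖FS m J a (x, t)‖ₑ ^ 2 ≤ ENNReal.ofReal (2 ^ m * ∑ j ∈ J, ‖a j‖ ^ 2) := by
  simp_rw [FS_eq]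
  refine (E_L2 m (hc_sum_meas J a).measurable (hc_sum_bdd J a) t).trans ?_
  rw [sq_sum]

/-- trivial sup bound -/
lemma FS_sup' {m : ℕ} (J : Finset (Fin m → ℤ)) (a : (Fin m → ℤ) → ℂ) (p : (Fin m → ℝ) × ℝ) :
    ‖FS m J a p‖ ^ 2 ≤ 4 ^ m * ∑ j ∈ J, ‖a j‖ ^ 2 := by
  rw [FS_eq, E_def]
  set u := fun ξ : Fin m → ℝ => ∑ j ∈ J, a j * hc j ξ with hu
  have hc1 : Continuous u := hc_sum_meas J a
  have h1 : ‖∫ ξ, u ξ * chr p (par ξ) ∂(cube m)‖ ≤ ∫ ξ, ‖u ξ‖ ∂(cube m) := by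
    refine (norm_integral_le_integral_norm _).trans (le_of_eq ?_)
    congr 1
    ext ξ
    rw [norm_mul, norm_chr, mul_one]
  have hI1 : Integrable (fun ξ => ‖u ξ‖) (cube m) := (integrable_cube hc1).norm
  have hI2 : Integrable (fun ξ => ‖u ξ‖ ^ 2) (cube m) := by
    have : Integrable (fun ξ => ((‖u ξ‖ ^ 2 : ℝ) : ℂ)) (cube m) := by
      apply integrable_cube
      fun_prop
    exact this.re.congr (Filter.Eventually.of_forall fun ξ => by simp only; norm_cast)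
  -- Cauchy-Schwarz via (x - c)^2 ≥ 0
  set I := ∫ ξ, ‖u ξ‖ ∂(cube m) with hI
  have hI0 : 0 ≤ I := integral_nonneg fun ξ => norm_nonneg _
  have h2 : 0 ≤ ∫ ξ, (‖u ξ‖ - I / 2 ^ m) ^ 2 ∂(cube m) := integral_nonneg fun ξ => sq_nonneg _
  have h3 : ∫ ξ, (‖u ξ‖ - I / 2 ^ m) ^ 2 ∂(cube m) =
      ∫ ξ, ‖u ξ‖ ^ 2 ∂(cube m) - I ^ 2 / 2 ^ m := by
    have e : ∀ ξ, (‖u ξ‖ - I / 2 ^ m) ^ 2 = ‖u ξ‖ ^ 2 - (2 * (I / 2 ^ m)) * ‖u ξ‖ + (I / 2 ^ m) ^ 2 := by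
      intro ξ; ring
    simp_rw [e]
    have hA : Integrable (fun ξ => ‖u ξ‖ ^ 2 - (2 * (I / 2 ^ m)) * ‖u ξ‖) (cube m) :=
      hI2.sub (hI1.const_mul _)
    rw [integral_add hA (integrable_const _),
      integral_sub hI2 (hI1.const_mul _), integral_const_mul, ← hI, integral_const,
      cube_real_univ, smul_eq_mul]
    field_simp
    ring
  rw [h3, sq_sum] at h2
  have h2m : (0 : ℝ) < 2 ^ m := by positivity
  have h4 : I ^ 2 ≤ 2 ^ m * (2 ^ m * ∑ j ∈ J, ‖a j‖ ^ 2) := by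
    have : I ^ 2 / 2 ^ m ≤ 2 ^ m * ∑ j ∈ J, ‖a j‖ ^ 2 := by linarith
    rw [div_le_iff₀ h2m] at this
    linarith
  calc _ ≤ I ^ 2 := pow_le_pow_left₀ (norm_nonneg _) h1 2
    _ ≤ 2 ^ m * (2 ^ m * ∑ j ∈ J, ‖a j‖ ^ 2) := h4
    _ = _ := by rw [← mul_assoc, ← mul_pow]; norm_num

/-- log-convexity for bounded functions -/
lemma interp {α : Type*} [MeasurableSpace α] {μ : Measure α} {F : α → ℂ} {q : ℝ} (hq : 2 ≤ q)
    {b : ℝ} (hb : 0 ≤ b) (hF : ∀ x, ‖F x‖ ^ 2 ≤ b) :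
    ∫⁻ x, ‖F x‖ₑ ^ q ∂μ ≤ ENNReal.ofReal (b ^ ((q - 2) / 2)) * ∫⁻ x, ‖F x‖ₑ ^ 2 ∂μ := by
  rw [← lintegral_const_mul' _ _ ENNReal.ofReal_ne_top]
  apply lintegral_mono
  intro x
  simp only
  have h1 : ‖F x‖ₑ ^ q = ENNReal.ofReal (‖F x‖ ^ q) := by
    rw [← ofReal_norm, ENNReal.ofReal_rpow_of_nonneg (norm_nonneg _) (by linarith)]
  have h2 : ‖F x‖ₑ ^ 2 = ENNReal.ofReal (‖F x‖ ^ 2) := by
    rw [← ofReal_norm, ENNReal.ofReal_pow (norm_nonneg _)]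
  rw [h1, h2, ← ENNReal.ofReal_mul (by positivity)]
  apply ENNReal.ofReal_le_ofReal
  have h3 : ‖F x‖ ^ q = (‖F x‖ ^ 2) ^ ((q - 2) / 2) * ‖F x‖ ^ 2 := by
    rw [← Real.rpow_natCast (‖F x‖) 2, ← Real.rpow_mul (norm_nonneg _),
      ← Real.rpow_add' (norm_nonneg _)]
    · congr 1; push_cast; ring
    · push_cast; intro h; linarith
  rw [h3]
  exact mul_le_mul_of_nonneg_right (Real.rpow_le_rpow (by positivity) (hF x) (by linarith))
    (by positivity)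

/-- level function -/
lemma exists_level {ι : Type*} {w : ι → ℝ} (hw : ∀ j, 1 ≤ w j) :
    ∃ lev : ι → ℕ, ∀ j, (2 : ℝ) ^ lev j ≤ w j ∧ w j < 2 ^ (lev j + 1) := by
  choose lev h using fun j => exists_nat_pow_near (hw j) (one_lt_two : (1 : ℝ) < 2)
  exact ⟨lev, h⟩

lemma level_card {ι : Type*} {w : ι → ℝ} (hw : ∀ j, 1 ≤ w j) {ρ : ℝ} (hρ : 0 < ρ)
    (hS : Summable fun j => w j ^ (-ρ)) {l : ℕ} (J : Finset ι) (hJ : ∀ j ∈ J, w j < 2 ^ (l + 1)) :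
    (J.card : ℝ) ≤ (∑' j, w j ^ (-ρ)) * 2 ^ ρ * ((2 : ℝ) ^ ρ) ^ l := by
  have h1 : (J.card : ℝ) * ((2 : ℝ) ^ (l + 1)) ^ (-ρ) ≤ ∑ j ∈ J, w j ^ (-ρ) := by
    rw [← nsmul_eq_mul]
    apply Finset.card_nsmul_le_sum
    intro j hj
    have hwj : 0 < w j := lt_of_lt_of_le one_pos (hw j)
    exact Real.rpow_le_rpow_of_nonpos hwj (hJ j hj).le (by linarith)
  have h2 : ∑ j ∈ J, w j ^ (-ρ) ≤ ∑' j, w j ^ (-ρ) :=
    hS.sum_le_tsum J fun j _ => Real.rpow_nonneg (le_trans zero_le_one (hw j)) _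
  have h3 : (0 : ℝ) < ((2 : ℝ) ^ (l + 1)) ^ (-ρ) := by positivity
  have h4 : (J.card : ℝ) ≤ (∑' j, w j ^ (-ρ)) / ((2 : ℝ) ^ (l + 1)) ^ (-ρ) := by
    rw [le_div_iff₀ h3]; linarith
  refine h4.trans (le_of_eq ?_)
  rw [Real.rpow_neg (by positivity), div_inv_eq_mul, ← Real.rpow_natCast 2 (l + 1),
    ← Real.rpow_mul (by norm_num), ← Real.rpow_natCast ((2 : ℝ) ^ ρ) l,
    ← Real.rpow_mul (by norm_num), mul_assoc, ← Real.rpow_add (by norm_num)]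
  congr 2
  push_cast
  ring

lemma level_energy {ι : Type*} {w : ι → ℝ} {l : ℕ} (J : Finset ι)
    (hJ : ∀ j ∈ J, (2 : ℝ) ^ l ≤ w j) (a : ι → ℂ) :
    ∑ j ∈ J, ‖a j‖ ^ 2 ≤ (1 / 2 : ℝ) ^ l * ∑ j ∈ J, w j * ‖a j‖ ^ 2 := by
  have h1 : (2 : ℝ) ^ l * ∑ j ∈ J, ‖a j‖ ^ 2 ≤ ∑ j ∈ J, w j * ‖a j‖ ^ 2 := by
    rw [Finset.mul_sum]
    apply Finset.sum_le_sum
    intro j hj
    exact mul_le_mul_of_nonneg_right (hJ j hj) (by positivity)
  have h2 : (0 : ℝ) < 2 ^ l := by positivity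
  rw [one_div, inv_pow, ← div_eq_inv_mul, le_div_iff₀ h2]
  linarith

lemma sum_levels {α : Type*} [MeasurableSpace α] {μ : Measure α} {F : ℕ → α → ℂ}
    (hF : ∀ l, AEStronglyMeasurable (F l) μ) {q : ℝ} (hq : 1 ≤ q) {X R : ℝ} (hX : 0 ≤ X)
    (hR0 : 0 ≤ R) (hR1 : R < 1)
    (h : ∀ l, ∫⁻ x, ‖F l x‖ₑ ^ q ∂μ ≤ ENNReal.ofReal (X * R ^ l)) (L : ℕ) :
    ∫⁻ x, ‖∑ l ∈ Finset.range L, F l x‖ₑ ^ q ∂μ ≤
      ENNReal.ofReal (X * (1 - R ^ (1 / q)) ^ (-q)) := by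
  have hq0 : 0 < q := by linarith
  have hp0 : ENNReal.ofReal q ≠ 0 := by simpa using hq0
  have hpT : ENNReal.ofReal q ≠ ⊤ := ENNReal.ofReal_ne_top
  have hpr : (ENNReal.ofReal q).toReal = q := ENNReal.toReal_ofReal hq0.le
  set r := R ^ (1 / q) with hr
  have hr0 : 0 ≤ r := Real.rpow_nonneg hR0 _
  have hr1 : r < 1 := Real.rpow_lt_one hR0 hR1 (by positivity)
  have h1 : ∀ l, eLpNorm (F l) (ENNReal.ofReal q) μ ≤ ENNReal.ofReal (X ^ (1 / q) * r ^ l) := by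
    intro l
    rw [eLpNorm_eq_lintegral_rpow_enorm_toReal hp0 hpT, hpr]
    calc _ ≤ (ENNReal.ofReal (X * R ^ l)) ^ (1 / q) := ENNReal.rpow_le_rpow (h l) (by positivity)
      _ = ENNReal.ofReal (X ^ (1 / q) * r ^ l) := by
        rw [ENNReal.ofReal_rpow_of_nonneg (by positivity) (by positivity),
          Real.mul_rpow hX (by positivity)]
        congr 2
        rw [hr, ← Real.rpow_natCast R l, ← Real.rpow_mul hR0, mul_comm, Real.rpow_mul hR0,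
          Real.rpow_natCast]
  have h2 : eLpNorm (∑ l ∈ Finset.range L, F l) (ENNReal.ofReal q) μ ≤
      ENNReal.ofReal (X ^ (1 / q) * (1 - r)⁻¹) := by
    refine (eLpNorm_sum_le (fun l _ => hF l) ?_).trans ?_
    · rw [← ENNReal.ofReal_one]; exact ENNReal.ofReal_le_ofReal hq
    · refine (Finset.sum_le_sum fun l _ => h1 l).trans ?_
      rw [← ENNReal.ofReal_sum_of_nonneg (fun l _ => by positivity), ← Finset.mul_sum]
      apply ENNReal.ofReal_le_ofReal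
      apply mul_le_mul_of_nonneg_left _ (by positivity)
      rw [← tsum_geometric_of_lt_one hr0 hr1]
      exact (summable_geometric_of_lt_one hr0 hr1).sum_le_tsum _ (fun l _ => by positivity)
  rw [eLpNorm_eq_lintegral_rpow_enorm_toReal hp0 hpT, hpr] at h2
  have h3 := ENNReal.rpow_le_rpow h2 hq0.le
  rw [← ENNReal.rpow_mul, one_div, inv_mul_cancel₀ hq0.ne', ENNReal.rpow_one] at h3
  have h4 : 0 < 1 - r := by linarith
  calc _ = ∫⁻ x, ‖(∑ l ∈ Finset.range L, F l) x‖ₑ ^ q ∂μ := by simp [Finset.sum_apply]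
    _ ≤ _ := h3
    _ = _ := by
      rw [ENNReal.ofReal_rpow_of_nonneg (by positivity) hq0.le, Real.mul_rpow (by positivity)
        (by positivity), ← Real.rpow_mul hX, inv_mul_cancel₀ hq0.ne', Real.rpow_one,
        Real.inv_rpow h4.le, Real.rpow_neg h4.le]

/-- bound for one level -/
lemma level_bound {m : ℕ} {w : (Fin m → ℤ) → ℝ} (hw : ∀ j, 1 ≤ w j) {ρ : ℝ} (hρ : 0 < ρ)
    (hS : Summable fun j => w j ^ (-ρ)) {q : ℝ} (hq : 2 < q) {l : ℕ} (J : Finset (Fin m → ℤ))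
    (hJ1 : ∀ j ∈ J, (2 : ℝ) ^ l ≤ w j) (hJ2 : ∀ j ∈ J, w j < 2 ^ (l + 1)) (a : (Fin m → ℤ) → ℂ)
    {N2 : ℝ} (hN : ∑ j ∈ J, w j * ‖a j‖ ^ 2 ≤ N2) {t : ℝ} (ht : t ≠ 0) :
    ∫⁻ x : Fin m → ℝ, ‖FS m J a (x, t)‖ₑ ^ q ≤
      ENNReal.ofReal (((16 ^ m * ((∑' j, w j ^ (-ρ)) * 2 ^ ρ)) ^ ((q - 2) / 2) * 2 ^ m *
        |t| ^ (-(m * (q - 2) / 2)) * N2 ^ (q / 2)) * (((2 : ℝ) ^ ρ / 2) ^ ((q - 2) / 2) / 2) ^ l) := by
  set S := ∑' j, w j ^ (-ρ) with hSdef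
  have hS0 : 0 ≤ S := tsum_nonneg fun j => Real.rpow_nonneg (le_trans zero_le_one (hw j)) _
  have hN0 : 0 ≤ N2 := le_trans (Finset.sum_nonneg fun j _ => mul_nonneg
    (le_trans zero_le_one (hw j)) (by positivity)) hN
  have htp : 0 < |t| := abs_pos.mpr ht
  have he : ∑ j ∈ J, ‖a j‖ ^ 2 ≤ (1 / 2 : ℝ) ^ l * N2 :=
    (level_energy J hJ1 a).trans (mul_le_mul_of_nonneg_left hN (by positivity))
  have hc := level_card hw hρ hS J hJ2
  rw [← hSdef] at hc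
  have hs0 : 0 ≤ ∑ j ∈ J, ‖a j‖ ^ 2 := Finset.sum_nonneg fun j _ => by positivity
  set b : ℝ := (16 / |t|) ^ m * ((S * 2 ^ ρ * ((2 : ℝ) ^ ρ) ^ l) * ((1 / 2 : ℝ) ^ l * N2)) with hb
  have hsup : ∀ x : Fin m → ℝ, ‖FS m J a (x, t)‖ ^ 2 ≤ b := by
    intro x
    refine (FS_sup J a (x, t) ht).trans ?_
    apply mul_le_mul_of_nonneg_left _ (by positivity)
    exact mul_le_mul hc he hs0 (by positivity)
  have h1 := interp (μ := (volume : Measure (Fin m → ℝ))) hq.le (b := b) (by positivity) hsup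
  refine h1.trans ?_
  have h2 : ∫⁻ x : Fin m → ℝ, ‖FS m J a (x, t)‖ₑ ^ 2 ≤
      ENNReal.ofReal (2 ^ m * ((1 / 2 : ℝ) ^ l * N2)) := by
    refine (FS_L2 J a t).trans (ENNReal.ofReal_le_ofReal ?_)
    exact mul_le_mul_of_nonneg_left he (by positivity)
  refine (mul_le_mul_right h2 _).trans ?_
  rw [← ENNReal.ofReal_mul (by positivity)]
  apply ENNReal.ofReal_le_ofReal
  apply le_of_eq
  set e := (q - 2) / 2 with hedef
  have he0 : 0 < e := by rw [hedef]; linarith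
  have hbe : b = (16 ^ m * (S * 2 ^ ρ)) * (|t|⁻¹ ^ m) * (((2 : ℝ) ^ ρ / 2) ^ l) * N2 := by
    rw [hb, div_eq_mul_inv 16, mul_pow]
    simp only [div_pow, one_pow]
    ring
  have hte : ((|t|⁻¹) ^ m : ℝ) ^ e = |t| ^ (-(m * (q - 2) / 2)) := by
    rw [← Real.rpow_natCast (|t|⁻¹) m, ← Real.rpow_mul (by positivity), Real.inv_rpow htp.le,
      ← Real.rpow_neg htp.le]
    congr 1
    rw [hedef]; ring
  have hle : ((((2 : ℝ) ^ ρ / 2) ^ l : ℝ)) ^ e = ((((2 : ℝ) ^ ρ / 2)) ^ e) ^ l := by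
    rw [← Real.rpow_natCast _ l, ← Real.rpow_mul (by positivity), mul_comm,
      Real.rpow_mul (by positivity), Real.rpow_natCast]
  have hNe : N2 ^ e * N2 = N2 ^ (q / 2) := by
    have : q / 2 = e + 1 := by rw [hedef]; ring
    rw [this, Real.rpow_add' hN0 (by linarith), Real.rpow_one]
  rw [hbe, Real.mul_rpow (by positivity) hN0, Real.mul_rpow (by positivity) (by positivity),
    Real.mul_rpow (by positivity) (by positivity), hte, hle, ← hNe]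
  simp only [div_pow, one_pow]
  ring

/-- Main estimate in the regular variables. -/
lemma S1 {m : ℕ} {w : (Fin m → ℤ) → ℝ} (hw : ∀ j, 1 ≤ w j) {ρ : ℝ} (hρ : 0 < ρ)
    (hS : Summable fun j => w j ^ (-ρ)) {q : ℝ} (hq : 2 < q) (hρq : (ρ - 1) * (q - 2) < 2) :
    ∃ C : ℝ, 0 ≤ C ∧ ∀ (J : Finset (Fin m → ℤ)) (a : (Fin m → ℤ) → ℂ) (t : ℝ), t ≠ 0 →
      ∫⁻ x : Fin m → ℝ, ‖FS m J a (x, t)‖ₑ ^ q ≤
        ENNReal.ofReal (C * |t| ^ (-(m * (q - 2) / 2)) *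
          (∑ j ∈ J, w j * ‖a j‖ ^ 2) ^ (q / 2)) := by
  obtain ⟨lev, hlev⟩ := exists_level hw
  set S := ∑' j, w j ^ (-ρ) with hSdef
  have hS0 : 0 ≤ S := tsum_nonneg fun j => Real.rpow_nonneg (le_trans zero_le_one (hw j)) _
  set R : ℝ := ((2 : ℝ) ^ ρ / 2) ^ ((q - 2) / 2) / 2 with hR
  have hR0 : 0 ≤ R := by positivity
  have hR1 : R < 1 := by
    have h1 : (2 : ℝ) ^ ρ / 2 = 2 ^ (ρ - 1) := by
      rw [Real.rpow_sub (by norm_num), Real.rpow_one]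
    have h2 : R = 2 ^ ((ρ - 1) * ((q - 2) / 2) - 1) := by
      rw [hR, h1, ← Real.rpow_mul (by norm_num), Real.rpow_sub (by norm_num), Real.rpow_one]
    rw [h2]
    apply Real.rpow_lt_one_of_one_lt_of_neg (by norm_num)
    linarith
  refine ⟨(16 ^ m * (S * 2 ^ ρ)) ^ ((q - 2) / 2) * 2 ^ m * (1 - R ^ (1 / q)) ^ (-q), ?_, ?_⟩
  · have : R ^ (1 / q) < 1 := Real.rpow_lt_one hR0 hR1 (by positivity)
    have : 0 < 1 - R ^ (1 / q) := by linarith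
    positivity
  intro J a t ht
  have hN0 : 0 ≤ ∑ j ∈ J, w j * ‖a j‖ ^ 2 := Finset.sum_nonneg fun j _ => mul_nonneg
    (le_trans zero_le_one (hw j)) (by positivity)
  have h1 := sum_levels (μ := (volume : Measure (Fin m → ℝ)))
    (F := fun l x => FS m (J.filter fun j => lev j = l) a (x, t))
    (fun l => ((FS_meas _ a).comp (measurable_id.prodMk measurable_const)).aestronglyMeasurable)
    (q := q) (by linarith)
    (X := (16 ^ m * (S * 2 ^ ρ)) ^ ((q - 2) / 2) * 2 ^ m *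
        |t| ^ (-(m * (q - 2) / 2)) * (∑ j ∈ J, w j * ‖a j‖ ^ 2) ^ (q / 2)) (R := R)
    (by positivity) hR0 hR1
    (fun l => by
      apply level_bound hw hρ hS hq _ _ _ a _ ht
      · intro j hj
        rw [Finset.mem_filter] at hj
        rw [← hj.2]; exact (hlev j).1
      · intro j hj
        rw [Finset.mem_filter] at hj
        rw [← hj.2]; exact (hlev j).2
      · apply Finset.sum_le_sum_of_subset_of_nonneg (Finset.filter_subset _ _)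
        intro j _ _
        exact mul_nonneg (le_trans zero_le_one (hw j)) (by positivity))
    (J.sup lev + 1)
  have h2 : ∀ x : Fin m → ℝ, ∑ l ∈ Finset.range (J.sup lev + 1),
      FS m (J.filter fun j => lev j = l) a (x, t) = FS m J a (x, t) := by
    intro x
    unfold FS
    apply Finset.sum_fiberwise_of_maps_to
    intro j hj
    rw [Finset.mem_range]
    exact Nat.lt_succ_of_le (Finset.le_sup hj)
  simp_rw [h2] at h1
  refine h1.trans (ENNReal.ofReal_le_ofReal (le_of_eq ?_))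
  ring

end Pool.Agent.H.MP_b7167f_an
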