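import Mathlib
import Pool.Agent.H.MP_b7167f_an.Interp

/-!
Weighted `ℓ²` valued estimates in the rough variables.
-/

namespace Pool.Agent.H.MP_b7167f_an

open MeasureTheory Complex ComplexConjugate Real Set ENNReal

section

variable {ι : Type*} {k : ℕ}

/-- weighted square function -/
noncomputable def N2 (k : ℕ) (w : ι → ℝ) (c : ι → (Fin k → ℝ) → ℂ) (J : Finset ι)
    (p : (Fin k → ℝ) × ℝ) : ℝ := ∑ j ∈ J, w j * ‖E k (c j) p‖ ^ 2

lemma N2_nonneg {w : ι → ℝ} (hw : ∀ j, 1 ≤ w j) (c : ι → (Fin k → ℝ) → ℂ) (J : Finset ι)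
    (p : (Fin k → ℝ) × ℝ) : 0 ≤ N2 k w c J p :=
  Finset.sum_nonneg fun j _ => mul_nonneg (le_trans zero_le_one (hw j)) (by positivity)

lemma N2_meas {w : ι → ℝ} {c : ι → (Fin k → ℝ) → ℂ} (hc : ∀ j, Measurable (c j)) (J : Finset ι) :
    Measurable (N2 k w c J) := by
  unfold N2
  apply Finset.measurable_sum
  intro j _
  exact ((E_meas k (hc j)).norm.pow_const 2).const_mul _

/-- difference map -/
def dif {k : ℕ} (z : (Fin k → ℝ) × (Fin k → ℝ)) : (Fin k → ℝ) × ℝ := par z.1 - par z.2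

lemma measurable_dif : Measurable (dif (k := k)) :=
  (measurable_par.comp measurable_fst).sub (measurable_par.comp measurable_snd)

lemma chr_dif (p : (Fin k → ℝ) × ℝ) (z : (Fin k → ℝ) × (Fin k → ℝ)) :
    chr p (dif z) = chr p (par z.1) * conj (chr p (par z.2)) := by
  rw [chr_mul_conj]
  unfold chr dif
  rw [← ph_add]
  rfl

/-- kernel -/
noncomputable def kap (w : ι → ℝ) (c : ι → (Fin k → ℝ) → ℂ) (J : Finset ι)
    (z : (Fin k → ℝ) × (Fin k → ℝ)) : ℂ := ∑ j ∈ J, (w j : ℂ) * (c j z.1 * conj (c j z.2))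

lemma kap_meas {w : ι → ℝ} {c : ι → (Fin k → ℝ) → ℂ} (hc : ∀ j, Measurable (c j)) (J : Finset ι) :
    Measurable (kap w c J) := by
  unfold kap
  apply Finset.measurable_sum
  intro j _
  exact (((hc j).comp measurable_fst).mul
    (Complex.continuous_conj.measurable.comp ((hc j).comp measurable_snd))).const_mul _

lemma kap_bound {w : ι → ℝ} (hw : ∀ j, 1 ≤ w j) {c : ι → (Fin k → ℝ) → ℂ} {J : Finset ι} {A2 : ℝ}
    (hA : ∀ η, ∑ j ∈ J, w j * ‖c j η‖ ^ 2 ≤ A2) (z : (Fin k → ℝ) × (Fin k → ℝ)) :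
    ‖kap w c J z‖ ≤ A2 := by
  unfold kap
  refine (norm_sum_le _ _).trans ?_
  have h1 : ∀ j ∈ J, ‖(w j : ℂ) * (c j z.1 * conj (c j z.2))‖ ≤
      (w j * ‖c j z.1‖ ^ 2 + w j * ‖c j z.2‖ ^ 2) / 2 := by
    intro j _
    have hwj : 0 ≤ w j := le_trans zero_le_one (hw j)
    rw [norm_mul, norm_mul, Complex.norm_conj, Complex.norm_real, Real.norm_of_nonneg hwj]
    nlinarith [mul_nonneg hwj (sq_nonneg (‖c j z.1‖ - ‖c j z.2‖))]
  refine (Finset.sum_le_sum h1).trans ?_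
  rw [← Finset.sum_div, Finset.sum_add_distrib]
  linarith [hA z.1, hA z.2]

lemma c_bound {w : ι → ℝ} (hw : ∀ j, 1 ≤ w j) {c : ι → (Fin k → ℝ) → ℂ} {J : Finset ι} {A2 : ℝ}
    (hA : ∀ η, ∑ j ∈ J, w j * ‖c j η‖ ^ 2 ≤ A2) {j : ι} (hj : j ∈ J) (η : Fin k → ℝ) :
    ‖c j η‖ ≤ √A2 := by
  apply Real.le_sqrt_of_sq_le
  refine le_trans ?_ (hA η)
  refine le_trans ?_ (Finset.single_le_sum (f := fun j => w j * ‖c j η‖ ^ 2)
    (fun i _ => mul_nonneg (le_trans zero_le_one (hw i)) (by positivity)) hj)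
  nlinarith [mul_nonneg (sub_nonneg.mpr (hw j)) (sq_nonneg ‖c j η‖)]

lemma tr_kap {w : ι → ℝ} (hw : ∀ j, 1 ≤ w j) {c : ι → (Fin k → ℝ) → ℂ}
    (hc : ∀ j, Measurable (c j)) {J : Finset ι} {A2 : ℝ}
    (hA : ∀ η, ∑ j ∈ J, w j * ‖c j η‖ ^ 2 ≤ A2) (p : (Fin k → ℝ) × ℝ) :
    tr ((cube k).prod (cube k)) dif (kap w c J) p = (N2 k w c J p : ℂ) := by
  unfold tr kap N2
  simp_rw [Finset.sum_mul]
  rw [integral_finsetSum]
  · push_cast
    apply Finset.sum_congr rfl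
    intro j _
    have h1 : ∀ z : (Fin k → ℝ) × (Fin k → ℝ), (w j : ℂ) * (c j z.1 * conj (c j z.2)) * chr p (dif z) =
        (w j : ℂ) * ((c j z.1 * chr p (par z.1)) * conj (c j z.2 * chr p (par z.2))) := by
      intro z
      rw [chr_dif, map_mul]
      ring
    simp_rw [h1]
    rw [integral_const_mul, integral_prod_mul (fun η => c j η * chr p (par η))
      (fun η => conj (c j η * chr p (par η))), integral_conj, ← E_def, Complex.mul_conj']
  · intro j hj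
    apply Integrable.of_bound (C := w j * (√A2 * √A2))
    · apply Measurable.aestronglyMeasurable
      exact (((((hc j).comp measurable_fst).mul
        (Complex.continuous_conj.measurable.comp ((hc j).comp measurable_snd))).const_mul _)).mul
        (measurable_chr measurable_const measurable_dif)
    · refine Filter.Eventually.of_forall fun z => ?_
      have hwj : 0 ≤ w j := le_trans zero_le_one (hw j)
      rw [norm_mul, norm_chr, mul_one, norm_mul, norm_mul, Complex.norm_conj, Complex.norm_real,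
        Real.norm_of_nonneg hwj]
      apply mul_le_mul_of_nonneg_left _ hwj
      exact mul_le_mul (c_bound hw hA hj _) (c_bound hw hA hj _) (norm_nonneg _) (Real.sqrt_nonneg _)

lemma tr_one (p : (Fin k → ℝ) × ℝ) :
    tr ((cube k).prod (cube k)) dif (fun _ => 1) p = ((‖E k (fun _ => 1) p‖ ^ 2 : ℝ) : ℂ) := by
  unfold tr
  have h1 : ∀ z : (Fin k → ℝ) × (Fin k → ℝ), 1 * chr p (dif z) =
      ((1 * chr p (par z.1)) * conj (1 * chr p (par z.2))) := by
    intro z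
    rw [chr_dif, one_mul, one_mul, one_mul]
  simp_rw [h1]
  rw [integral_prod_mul (fun η => 1 * chr p (par η))
      (fun η => conj (1 * chr p (par η))), integral_conj, ← E_def k (fun _ => 1) p,
      Complex.mul_conj']
  push_cast
  rfl

lemma N2_sup {w : ι → ℝ} (hw : ∀ j, 1 ≤ w j) {c : ι → (Fin k → ℝ) → ℂ}
    (hc : ∀ j, Measurable (c j)) {J : Finset ι} {A2 : ℝ}
    (hA : ∀ η, ∑ j ∈ J, w j * ‖c j η‖ ^ 2 ≤ A2) (p : (Fin k → ℝ) × ℝ) :
    N2 k w c J p ≤ 4 ^ k * A2 := by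
  have h1 := tr_bound (μ := (cube k).prod (cube k)) (Φ := dif) (kap_bound hw hA) p
  rw [tr_kap hw hc hA, Complex.norm_real, Real.norm_of_nonneg (N2_nonneg hw c J p)] at h1
  have h2 : ((cube k).prod (cube k)).real univ = 4 ^ k := by
    rw [← univ_prod_univ, measureReal_prod_prod, cube_real_univ, ← mul_pow]
    norm_num
  rw [h2] at h1
  linarith

lemma N2_L4 {w : ι → ℝ} (hw : ∀ j, 1 ≤ w j) {c : ι → (Fin k → ℝ) → ℂ}
    (hc : ∀ j, Measurable (c j)) {J : Finset ι} {A2 : ℝ}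
    (hA : ∀ η, ∑ j ∈ J, w j * ‖c j η‖ ^ 2 ≤ A2) {β : ℝ} (hβ : 0 < β) :
    ∫⁻ p : (Fin k → ℝ) × ℝ, ENNReal.ofReal (|p.2| ^ (-β)) * ENNReal.ofReal (N2 k w c J p) ^ 2 ≤
      ENNReal.ofReal (A2 ^ 2) *
        ∫⁻ p : (Fin k → ℝ) × ℝ, ENNReal.ofReal (|p.2| ^ (-β)) * ‖E k (fun _ => 1) p‖ₑ ^ 4 := by
  have h := maj_pow (μ := (cube k).prod (cube k)) hβ measurable_dif (kap_meas (w := w) hc J)
    (kap_bound hw hA)
  simp_rw [tr_kap hw hc hA, tr_one] at h
  have e1 : ∀ x : ℝ, 0 ≤ x → ‖(x : ℂ)‖ₑ = ENNReal.ofReal x := by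
    intro x hx
    rw [← ofReal_norm, Complex.norm_real, Real.norm_of_nonneg hx]
  have e2 : ∀ p, ‖((N2 k w c J p : ℝ) : ℂ)‖ₑ ^ 2 = ENNReal.ofReal (N2 k w c J p) ^ 2 := by
    intro p
    rw [e1 _ (N2_nonneg hw c J p)]
  have e3 : ∀ p : (Fin k → ℝ) × ℝ, ‖((‖E k (fun _ => 1) p‖ ^ 2 : ℝ) : ℂ)‖ₑ ^ 2 =
      ‖E k (fun _ => 1) p‖ₑ ^ 4 := by
    intro p
    rw [e1 _ (by positivity), ENNReal.ofReal_pow (norm_nonneg _), ofReal_norm, ← pow_mul]
  simp_rw [e2, e3] at h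
  exact h

lemma N2_L2 {w : ι → ℝ} (hw : ∀ j, 1 ≤ w j) {c : ι → (Fin k → ℝ) → ℂ}
    (hc : ∀ j, Measurable (c j)) {J : Finset ι} {A2 : ℝ}
    (hA : ∀ η, ∑ j ∈ J, w j * ‖c j η‖ ^ 2 ≤ A2) (t : ℝ) :
    ∫⁻ y : Fin k → ℝ, ENNReal.ofReal (N2 k w c J (y, t)) ≤ ENNReal.ofReal (2 ^ k * A2) := by
  have hw0 : ∀ j, 0 ≤ w j := fun j => le_trans zero_le_one (hw j)
  have hI : ∀ j ∈ J, Integrable (fun η => w j * ‖c j η‖ ^ 2) (cube k) := by
    intro j hj
    refine Integrable.of_bound (((hc j).norm.pow_const 2).const_mul (w j)).aestronglyMeasurable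
      (w j * (√A2) ^ 2) ?_
    · refine Filter.Eventually.of_forall fun η => ?_
      have := hw0 j
      rw [Real.norm_of_nonneg (by positivity)]
      apply mul_le_mul_of_nonneg_left _ (hw0 j)
      exact pow_le_pow_left₀ (norm_nonneg _) (c_bound hw hA hj η) 2
  have h1 : ∀ y : Fin k → ℝ, ENNReal.ofReal (N2 k w c J (y, t)) =
      ∑ j ∈ J, ENNReal.ofReal (w j) * ‖E k (c j) (y, t)‖ₑ ^ 2 := by
    intro y
    unfold N2
    rw [ENNReal.ofReal_sum_of_nonneg (fun j _ => mul_nonneg (hw0 j) (by positivity))]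
    apply Finset.sum_congr rfl
    intro j _
    rw [ENNReal.ofReal_mul (hw0 j), ENNReal.ofReal_pow (norm_nonneg _), ofReal_norm]
  simp_rw [h1]
  rw [lintegral_finsetSum' _ (fun j _ => by
    have := (E_meas k (hc j)).comp (measurable_id.prodMk (measurable_const (a := t)))
    exact ((this.enorm.pow_const 2).const_mul _).aemeasurable)]
  have h2 : ∀ j ∈ J, ∫⁻ y : Fin k → ℝ, ENNReal.ofReal (w j) * ‖E k (c j) (y, t)‖ₑ ^ 2 ≤
      ENNReal.ofReal (∫ η, w j * ‖c j η‖ ^ 2 ∂(cube k)) := by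
    intro j hj
    rw [lintegral_const_mul' _ _ ENNReal.ofReal_ne_top, integral_const_mul,
      ENNReal.ofReal_mul (hw0 j)]
    gcongr
    exact E_L2 k (hc j) (c_bound hw hA hj) t
  refine (Finset.sum_le_sum h2).trans ?_
  rw [← ENNReal.ofReal_sum_of_nonneg (fun j _ => integral_nonneg fun η =>
    mul_nonneg (hw0 j) (by positivity)), ← integral_finsetSum _ hI]
  apply ENNReal.ofReal_le_ofReal
  calc ∫ η, ∑ j ∈ J, w j * ‖c j η‖ ^ 2 ∂(cube k) ≤ ∫ _η, A2 ∂(cube k) := by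
        apply integral_mono (integrable_finsetSum _ hI) (integrable_const _)
        intro η; exact hA η
    _ = 2 ^ k * A2 := by rw [integral_const, cube_real_univ, smul_eq_mul]

end

end Pool.Agent.H.MP_b7167f_an
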