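import Mathlib
import Pool.Agent.H.MP_b7167f_an.Ell

/-!
The estimate for finite sums.
-/

namespace Pool.Agent.H.MP_b7167f_an

open MeasureTheory Complex ComplexConjugate Real Set ENNReal

/-- finite sum -/
noncomputable def FF (m k : ℕ) (J : Finset (Fin m → ℤ)) (c : (Fin m → ℤ) → (Fin k → ℝ) → ℂ)
    (p : ((Fin m → ℝ) × (Fin k → ℝ)) × ℝ) : ℂ :=
  ∑ j ∈ J, E k (c j) (p.1.2, p.2) * E m (hc j) (p.1.1, p.2)

lemma FF_eq {m k : ℕ} (J : Finset (Fin m → ℤ)) (c : (Fin m → ℤ) → (Fin k → ℝ) → ℂ)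
    (p : ((Fin m → ℝ) × (Fin k → ℝ)) × ℝ) :
    FF m k J c p = FS m J (fun j => E k (c j) (p.1.2, p.2)) (p.1.1, p.2) := rfl

lemma FF_meas {m k : ℕ} (J : Finset (Fin m → ℤ)) {c : (Fin m → ℤ) → (Fin k → ℝ) → ℂ}
    (hc1 : ∀ j, Measurable (c j)) : Measurable (FF m k J c) := by
  unfold FF
  apply Finset.measurable_sum
  intro j _
  exact ((E_meas k (hc1 j)).comp ((measurable_snd.comp measurable_fst).prodMk measurable_snd)).mul
    ((E_meas m (continuous_hc j).measurable).comp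
      ((measurable_fst.comp measurable_fst).prodMk measurable_snd))

/-- Young's inequality -/
lemma young {θ : ℝ} (h0 : 0 < θ) (h1 : θ < 1) {T S γ β μ : ℝ} (hT : 0 < T) (hS : 0 ≤ S)
    (hμ : μ = (1 - θ) * γ + θ * β) :
    T ^ (-μ) * S ^ (1 + θ) ≤ T ^ (-γ) * S + T ^ (-β) * S ^ 2 := by
  have hX : 0 ≤ T ^ (-γ) * S := by positivity
  have hY : 0 ≤ T ^ (-β) * S ^ 2 := by positivity
  have h := Real.geom_mean_le_arith_mean2_weighted (w₁ := 1 - θ) (w₂ := θ)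
    (by linarith) h0.le hX hY (by ring)
  have e1 : (T ^ (-γ) * S) ^ (1 - θ) * (T ^ (-β) * S ^ 2) ^ θ = T ^ (-μ) * S ^ (1 + θ) := by
    rw [Real.mul_rpow (by positivity) hS, Real.mul_rpow (by positivity) (by positivity),
      ← Real.rpow_mul hT.le, ← Real.rpow_mul hT.le, ← Real.rpow_natCast S 2, ← Real.rpow_mul hS]
    have e2 : T ^ (-μ) = T ^ (-γ * (1 - θ)) * T ^ (-β * θ) := by
      rw [← Real.rpow_add hT]; congr 1; rw [hμ]; ring
    have e3 : S ^ (1 + θ) = S ^ (1 - θ) * S ^ (((2 : ℕ) : ℝ) * θ) := by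
      rw [← Real.rpow_add' hS (by push_cast; linarith)]; congr 1; push_cast; ring
    rw [e2, e3]; ring
  rw [← e1]
  refine h.trans ?_
  have : (1 - θ) * (T ^ (-γ) * S) ≤ 1 * (T ^ (-γ) * S) :=
    mul_le_mul_of_nonneg_right (by linarith) hX
  have : θ * (T ^ (-β) * S ^ 2) ≤ 1 * (T ^ (-β) * S ^ 2) :=
    mul_le_mul_of_nonneg_right h1.le hY
  linarith

/-- choice of exponents -/
lemma exists_exponents {M θ : ℝ} (h0 : 0 < θ) (h1 : θ < 1) (h : 1 < (M + 1) * θ) :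
    ∃ γ β : ℝ, 1 < γ ∧ 0 < β ∧ β < 1 ∧ M * θ = (1 - θ) * γ + θ * β := by
  set β := min (1 / 2) (((M + 1) * θ - 1) / (2 * θ)) with hβ
  have hβ0 : 0 < β := by
    apply lt_min (by norm_num)
    apply div_pos (by linarith) (by linarith)
  have hβ1 : β < 1 := lt_of_le_of_lt (min_le_left _ _) (by norm_num)
  have hβ2 : β ≤ ((M + 1) * θ - 1) / (2 * θ) := min_le_right _ _
  rw [le_div_iff₀ (by linarith)] at hβ2
  refine ⟨(M * θ - θ * β) / (1 - θ), β, ?_, hβ0, hβ1, ?_⟩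
  · rw [lt_div_iff₀ (by linarith)]
    nlinarith
  · have : 1 - θ ≠ 0 := by linarith
    field_simp
    ring

/-- the estimate for each `(y,t)`, small `t` -/
lemma slice_small {m k : ℕ} {w : (Fin m → ℤ) → ℝ} (hw : ∀ j, 1 ≤ w j) {θ : ℝ} (hθ : 0 < θ)
    (J : Finset (Fin m → ℤ)) {c : (Fin m → ℤ) → (Fin k → ℝ) → ℂ} (hc1 : ∀ j, Measurable (c j))
    {A2 : ℝ} (hA0 : 0 < A2) (hA : ∀ η, ∑ j ∈ J, w j * ‖c j η‖ ^ 2 ≤ A2) (y : Fin k → ℝ) (t : ℝ) :
    ∫⁻ x : Fin m → ℝ, ‖FF m k J c ((x, y), t)‖ₑ ^ (2 + 2 * θ) ≤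
      ENNReal.ofReal ((4 ^ m * (4 ^ k * A2)) ^ θ * 2 ^ m) * ENNReal.ofReal (N2 k w c J (y, t)) := by
  have h0 := N2_nonneg hw c J (y, t)
  have hs := N2_sup hw hc1 hA (y, t)
  have hle : ∑ j ∈ J, ‖E k (c j) (y, t)‖ ^ 2 ≤ N2 k w c J (y, t) := by
    unfold N2
    apply Finset.sum_le_sum
    intro j _
    nlinarith [mul_nonneg (sub_nonneg.mpr (hw j)) (sq_nonneg ‖E k (c j) (y, t)‖)]
  have hb : ∀ x : Fin m → ℝ, ‖FS m J (fun j => E k (c j) (y, t)) (x, t)‖ ^ 2 ≤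
      4 ^ m * (4 ^ k * A2) := by
    intro x
    refine (FS_sup' J _ (x, t)).trans ?_
    apply mul_le_mul_of_nonneg_left (hle.trans hs) (by positivity)
  have h1 := interp (μ := (volume : Measure (Fin m → ℝ))) (q := 2 + 2 * θ) (by linarith)
    (b := 4 ^ m * (4 ^ k * A2)) (by positivity) hb
  have e : (2 + 2 * θ - 2) / 2 = θ := by ring
  rw [e] at h1
  simp_rw [FF_eq]
  refine h1.trans ?_
  rw [ENNReal.ofReal_mul (by positivity), mul_assoc]
  gcongr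
  refine (FS_L2 J _ t).trans ?_
  rw [← ENNReal.ofReal_mul (by positivity)]
  apply ENNReal.ofReal_le_ofReal
  exact mul_le_mul_of_nonneg_left hle (by positivity)

lemma lint_iter {X Y : Type*} [MeasureSpace X] [MeasureSpace Y] [SFinite (volume : Measure X)]
    [SFinite (volume : Measure Y)] {f : (X × Y) × ℝ → ℝ≥0∞} (hf : Measurable f) :
    ∫⁻ p, f p = ∫⁻ t : ℝ, ∫⁻ y : Y, ∫⁻ x : X, f ((x, y), t) := by
  rw [Measure.volume_eq_prod, lintegral_prod_symm' _ hf]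
  apply lintegral_congr
  intro t
  rw [Measure.volume_eq_prod, lintegral_prod_symm' (fun z : X × Y => f (z, t))
    (hf.comp (measurable_id.prodMk measurable_const))]

/-- normalized estimate for finite sums -/
lemma finite_est_one {m k : ℕ} (hk : 1 ≤ k) {w : (Fin m → ℤ) → ℝ} (hw : ∀ j, 1 ≤ w j)
    {ρ : ℝ} (hρ : 0 < ρ) (hS : Summable fun j => w j ^ (-ρ)) {θ : ℝ} (h0 : 0 < θ) (h1 : θ < 1)
    (h : 1 < (m + 1) * θ) (hρθ : (ρ - 1) * θ < 1) :
    ∃ C : ℝ≥0∞, C ≠ ⊤ ∧ ∀ (J : Finset (Fin m → ℤ)) (c : (Fin m → ℤ) → (Fin k → ℝ) → ℂ),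
      (∀ j, Measurable (c j)) → (∀ η, ∑ j ∈ J, w j * ‖c j η‖ ^ 2 ≤ 1) →
      ∫⁻ p, ‖FF m k J c p‖ₑ ^ (2 + 2 * θ) ≤ C := by
  obtain ⟨C1, hC1, hS1⟩ := S1 hw hρ hS (q := 2 + 2 * θ) (by linarith) (by linarith)
  obtain ⟨γ, β, hγ, hβ0, hβ1, hμ⟩ := exists_exponents (M := m) h0 h1 h
  set K1 : ℝ≥0∞ := ENNReal.ofReal ((4 ^ m * (4 ^ k * 1)) ^ θ * 2 ^ m) * ENNReal.ofReal (2 ^ k * 1)
    with hK1
  set K2 : ℝ≥0∞ := ∫⁻ t in {t : ℝ | 1 ≤ |t|}, ENNReal.ofReal (|t| ^ (-γ)) with hK2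
  set K3 : ℝ≥0∞ := ∫⁻ p : (Fin k → ℝ) × ℝ, ENNReal.ofReal (|p.2| ^ (-β)) *
    ‖E k (fun _ => 1) p‖ₑ ^ 4 with hK3
  refine ⟨K1 * 2 + ENNReal.ofReal C1 * (K2 * ENNReal.ofReal (2 ^ k * 1) +
    ENNReal.ofReal (1 ^ 2) * K3), ?_, ?_⟩
  · have t1 : K1 ≠ ⊤ := ENNReal.mul_ne_top ENNReal.ofReal_ne_top ENNReal.ofReal_ne_top
    have t2 : K2 ≠ ⊤ := (lint_tail hγ).ne
    have t3 : K3 ≠ ⊤ := (E_one_L4 k hk hβ0 hβ1).ne
    exact ENNReal.add_ne_top.mpr ⟨ENNReal.mul_ne_top t1 (by simp),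
      ENNReal.mul_ne_top ENNReal.ofReal_ne_top (ENNReal.add_ne_top.mpr
        ⟨ENNReal.mul_ne_top t2 ENNReal.ofReal_ne_top, ENNReal.mul_ne_top ENNReal.ofReal_ne_top t3⟩)⟩
  intro J c hc1 hA
  have hFm : Measurable fun p => ‖FF m k J c p‖ₑ ^ (2 + 2 * θ) :=
    ((FF_meas J hc1).enorm).pow_const _
  have hN := N2_meas (w := w) hc1 J
  rw [lint_iter hFm]
  have hsplit : (univ : Set ℝ) = {t : ℝ | |t| < 1} ∪ {t : ℝ | 1 ≤ |t|} := by
    ext t; simp [lt_or_ge]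
  rw [← setLIntegral_univ, hsplit]
  refine (lintegral_union_le _ _ _).trans (add_le_add ?_ ?_)
  · -- small t
    have hb : ∀ t : ℝ, ∫⁻ y : Fin k → ℝ, ∫⁻ x : Fin m → ℝ, ‖FF m k J c ((x, y), t)‖ₑ ^ (2 + 2 * θ) ≤
        K1 := by
      intro t
      calc _ ≤ ∫⁻ y : Fin k → ℝ, ENNReal.ofReal ((4 ^ m * (4 ^ k * 1)) ^ θ * 2 ^ m) *
            ENNReal.ofReal (N2 k w c J (y, t)) :=
            lintegral_mono fun y => slice_small hw h0 J hc1 one_pos hA y t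
        _ ≤ K1 := by
            rw [lintegral_const_mul' _ _ ENNReal.ofReal_ne_top, hK1]
            gcongr
            exact N2_L2 hw hc1 hA t
    calc _ ≤ ∫⁻ _t in {t : ℝ | |t| < 1}, K1 := lintegral_mono fun t => hb t
      _ = K1 * 2 := by
          rw [setLIntegral_const]
          congr 1
          have : {t : ℝ | |t| < 1} = Ioo (-1) 1 := by
            ext t
            rw [Set.mem_ofPred_eq, abs_lt]
            rfl
          rw [this, Real.volume_Ioo]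
          norm_num
  · -- large t
    have hb : ∀ (t : ℝ), 1 ≤ |t| → ∀ y : Fin k → ℝ,
        ∫⁻ x : Fin m → ℝ, ‖FF m k J c ((x, y), t)‖ₑ ^ (2 + 2 * θ) ≤
        ENNReal.ofReal C1 * (ENNReal.ofReal (|t| ^ (-γ)) * ENNReal.ofReal (N2 k w c J (y, t)) +
          ENNReal.ofReal (|t| ^ (-β)) * ENNReal.ofReal (N2 k w c J (y, t)) ^ 2) := by
      intro t ht y
      have htp : 0 < |t| := by linarith
      have ht0 : t ≠ 0 := abs_pos.mp htp
      have hn0 := N2_nonneg hw c J (y, t)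
      simp_rw [FF_eq]
      refine (hS1 J (fun j => E k (c j) (y, t)) t ht0).trans ?_
      have e1 : (2 + 2 * θ) / 2 = 1 + θ := by ring
      have e2 : (m : ℝ) * (2 + 2 * θ - 2) / 2 = m * θ := by ring
      rw [e1, e2]
      have hy := young h0 h1 htp hn0 hμ
      rw [← ENNReal.ofReal_mul (by positivity), ← ENNReal.ofReal_pow hn0,
        ← ENNReal.ofReal_mul (by positivity), ← ENNReal.ofReal_add (by positivity) (by positivity),
        ← ENNReal.ofReal_mul hC1]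
      apply ENNReal.ofReal_le_ofReal
      rw [mul_assoc]
      exact mul_le_mul_of_nonneg_left hy hC1
    have hmset : MeasurableSet {t : ℝ | 1 ≤ |t|} := measurableSet_le measurable_const measurable_norm
    calc _ ≤ ∫⁻ t in {t : ℝ | 1 ≤ |t|}, ∫⁻ y : Fin k → ℝ,
          ENNReal.ofReal C1 * (ENNReal.ofReal (|t| ^ (-γ)) * ENNReal.ofReal (N2 k w c J (y, t)) +
          ENNReal.ofReal (|t| ^ (-β)) * ENNReal.ofReal (N2 k w c J (y, t)) ^ 2) :=
          setLIntegral_mono' hmset fun t ht => lintegral_mono fun y => hb t ht y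
      _ = ENNReal.ofReal C1 * ((∫⁻ t in {t : ℝ | 1 ≤ |t|}, ENNReal.ofReal (|t| ^ (-γ)) *
            ∫⁻ y : Fin k → ℝ, ENNReal.ofReal (N2 k w c J (y, t))) +
          ∫⁻ t in {t : ℝ | 1 ≤ |t|}, ∫⁻ y : Fin k → ℝ,
          ENNReal.ofReal (|t| ^ (-β)) * ENNReal.ofReal (N2 k w c J (y, t)) ^ 2) := by
          have hm1 : ∀ t : ℝ, Measurable fun y : Fin k → ℝ =>
              ENNReal.ofReal (N2 k w c J (y, t)) := fun t =>
            (hN.comp (measurable_id.prodMk measurable_const)).ennreal_ofReal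
          rw [← lintegral_add_left]
          · rw [← lintegral_const_mul' _ _ ENNReal.ofReal_ne_top]
            apply lintegral_congr
            intro t
            rw [lintegral_const_mul' _ _ ENNReal.ofReal_ne_top,
              lintegral_add_left ((hm1 t).const_mul _),
              lintegral_const_mul' _ _ ENNReal.ofReal_ne_top]
          · have hm2 : Measurable fun t : ℝ => ENNReal.ofReal (|t| ^ (-γ)) := by fun_prop
            apply hm2.mul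
            apply Measurable.lintegral_prod_right' (f := fun q : ℝ × (Fin k → ℝ) =>
              ENNReal.ofReal (N2 k w c J (q.2, q.1)))
            exact (hN.comp (measurable_snd.prodMk measurable_fst)).ennreal_ofReal
      _ ≤ _ := by
          gcongr
          · rw [hK2, ← lintegral_mul_const' _ _ ENNReal.ofReal_ne_top]
            apply lintegral_mono
            intro t
            simp only
            gcongr
            exact N2_L2 hw hc1 hA t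
          · refine le_trans ?_ (N2_L4 hw hc1 hA hβ0)
            rw [Measure.volume_eq_prod (Fin k → ℝ) ℝ, lintegral_prod_symm']
            · exact setLIntegral_le_lintegral _ _
            · have hm3 : Measurable fun p : (Fin k → ℝ) × ℝ => ENNReal.ofReal (|p.2| ^ (-β)) := by
                fun_prop
              exact hm3.mul (hN.ennreal_ofReal.pow_const 2)

lemma interp2 {α : Type*} [MeasurableSpace α] {μ : Measure α} {F : α → ℂ} {q0 q : ℝ}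
    (hq0 : 0 < q0) (hq : q0 ≤ q) {b : ℝ} (hb : 0 ≤ b) (hF : ∀ x, ‖F x‖ ^ 2 ≤ b) :
    ∫⁻ x, ‖F x‖ₑ ^ q ∂μ ≤ ENNReal.ofReal (b ^ ((q - q0) / 2)) * ∫⁻ x, ‖F x‖ₑ ^ q0 ∂μ := by
  rw [← lintegral_const_mul' _ _ ENNReal.ofReal_ne_top]
  apply lintegral_mono
  intro x
  simp only
  have h1 : ∀ r : ℝ, 0 ≤ r → ‖F x‖ₑ ^ r = ENNReal.ofReal (‖F x‖ ^ r) := by
    intro r hr
    rw [← ofReal_norm, ENNReal.ofReal_rpow_of_nonneg (norm_nonneg _) hr]
  rw [h1 q (by linarith), h1 q0 hq0.le, ← ENNReal.ofReal_mul (by positivity)]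
  apply ENNReal.ofReal_le_ofReal
  have h3 : ‖F x‖ ^ q = (‖F x‖ ^ 2) ^ ((q - q0) / 2) * ‖F x‖ ^ q0 := by
    rw [← Real.rpow_natCast (‖F x‖) 2, ← Real.rpow_mul (norm_nonneg _),
      ← Real.rpow_add' (norm_nonneg _)]
    · congr 1; push_cast; ring
    · push_cast; intro h; linarith
  rw [h3]
  exact mul_le_mul_of_nonneg_right (Real.rpow_le_rpow (by positivity) (hF x) (by linarith))
    (by positivity)

lemma FF_sup {m k : ℕ} {w : (Fin m → ℤ) → ℝ} (hw : ∀ j, 1 ≤ w j)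
    (J : Finset (Fin m → ℤ)) {c : (Fin m → ℤ) → (Fin k → ℝ) → ℂ} (hc1 : ∀ j, Measurable (c j))
    {A2 : ℝ} (hA : ∀ η, ∑ j ∈ J, w j * ‖c j η‖ ^ 2 ≤ A2) (p : ((Fin m → ℝ) × (Fin k → ℝ)) × ℝ) :
    ‖FF m k J c p‖ ^ 2 ≤ 4 ^ m * (4 ^ k * A2) := by
  rw [FF_eq]
  refine (FS_sup' J _ _).trans ?_
  apply mul_le_mul_of_nonneg_left _ (by positivity)
  refine le_trans ?_ (N2_sup hw hc1 hA (p.1.2, p.2))
  unfold N2
  apply Finset.sum_le_sum
  intro j _
  nlinarith [mul_nonneg (sub_nonneg.mpr (hw j)) (sq_nonneg ‖E k (c j) (p.1.2, p.2)‖)]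

lemma FF_smul {m k : ℕ} (J : Finset (Fin m → ℤ)) (c : (Fin m → ℤ) → (Fin k → ℝ) → ℂ) (a : ℂ)
    (p : ((Fin m → ℝ) × (Fin k → ℝ)) × ℝ) :
    FF m k J (fun j η => a * c j η) p = a * FF m k J c p := by
  unfold FF
  rw [Finset.mul_sum]
  apply Finset.sum_congr rfl
  intro j _
  rw [E_def k (fun η => a * c j η), E_def k (c j)]
  simp_rw [mul_assoc a]
  rw [integral_const_mul]
  ring

/-- estimate for finite sums -/
lemma finite_est {m k : ℕ} (hk : 1 ≤ k) {w : (Fin m → ℤ) → ℝ} (hw : ∀ j, 1 ≤ w j)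
    {ρ : ℝ} (hρ : 0 < ρ) (hS : Summable fun j => w j ^ (-ρ)) {θ : ℝ} (h0 : 0 < θ) (h1 : θ < 1)
    (h : 1 < (m + 1) * θ) (hρθ : (ρ - 1) * θ < 1) {q : ℝ} (hq : 2 + 2 * θ ≤ q) :
    ∃ C : ℝ, 0 ≤ C ∧ ∀ (J : Finset (Fin m → ℤ)) (c : (Fin m → ℤ) → (Fin k → ℝ) → ℂ) (A : ℝ),
      0 < A → (∀ j, Measurable (c j)) → (∀ η, ∑ j ∈ J, w j * ‖c j η‖ ^ 2 ≤ A ^ 2) →
      ∫⁻ p, ‖FF m k J c p‖ₑ ^ q ≤ ENNReal.ofReal (C * A) ^ q := by
  obtain ⟨C, hC, hmain⟩ := finite_est_one (m := m) hk hw hρ hS h0 h1 h hρθ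
  have hq0 : 0 < q := by linarith
  set D : ℝ≥0∞ := ENNReal.ofReal ((4 ^ m * (4 ^ k * 1)) ^ ((q - (2 + 2 * θ)) / 2)) * C with hD
  have hDT : D ≠ ⊤ := ENNReal.mul_ne_top ENNReal.ofReal_ne_top hC
  refine ⟨D.toReal ^ (1 / q), by positivity, ?_⟩
  intro J c A hA0 hc1 hA
  -- normalized functions
  set c' : (Fin m → ℤ) → (Fin k → ℝ) → ℂ := fun j η => ((A⁻¹ : ℝ) : ℂ) * c j η with hc'
  have hc1' : ∀ j, Measurable (c' j) := fun j => (hc1 j).const_mul _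
  have hA' : ∀ η, ∑ j ∈ J, w j * ‖c' j η‖ ^ 2 ≤ 1 := by
    intro η
    have e : ∀ j, w j * ‖c' j η‖ ^ 2 = (A ^ 2)⁻¹ * (w j * ‖c j η‖ ^ 2) := by
      intro j
      rw [hc', norm_mul, Complex.norm_real, Real.norm_of_nonneg (by positivity), mul_pow, inv_pow]
      ring
    simp_rw [e]
    rw [← Finset.mul_sum, ← div_eq_inv_mul, div_le_one (by positivity)]
    exact hA η
  have hb := interp2 (μ := (volume : Measure (((Fin m → ℝ) × (Fin k → ℝ)) × ℝ)))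
    (F := FF m k J c') (q0 := 2 + 2 * θ) (by linarith) hq
    (b := 4 ^ m * (4 ^ k * 1)) (by positivity) (FF_sup hw J hc1' hA')
  have hb2 : ∫⁻ p, ‖FF m k J c' p‖ₑ ^ q ≤ D := by
    refine hb.trans ?_
    rw [hD]
    gcongr
    exact hmain J c' hc1' hA'
  have e1 : ∀ p, ‖FF m k J c p‖ₑ ^ q = ENNReal.ofReal A ^ q * ‖FF m k J c' p‖ₑ ^ q := by
    intro p
    rw [← ENNReal.mul_rpow_of_nonneg _ _ hq0.le]
    congr 1
    rw [hc', FF_smul, enorm_mul]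
    have : ‖((A⁻¹ : ℝ) : ℂ)‖ₑ = (ENNReal.ofReal A)⁻¹ := by
      rw [← ofReal_norm, Complex.norm_real, Real.norm_of_nonneg (by positivity),
        ENNReal.ofReal_inv_of_pos hA0]
    rw [this, ← mul_assoc, ENNReal.mul_inv_cancel (by simpa using hA0) ENNReal.ofReal_ne_top,
      one_mul]
  simp_rw [e1]
  rw [lintegral_const_mul' _ _ (by
    apply ENNReal.rpow_ne_top_of_nonneg hq0.le ENNReal.ofReal_ne_top)]
  rw [ENNReal.ofReal_mul (by positivity), ENNReal.mul_rpow_of_nonneg _ _ hq0.le, mul_comm]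
  gcongr
  refine hb2.trans (le_of_eq ?_)
  rw [ENNReal.ofReal_rpow_of_nonneg (by positivity) hq0.le, ← Real.rpow_mul (by positivity),
    one_div, inv_mul_cancel₀ hq0.ne', Real.rpow_one, ENNReal.ofReal_toReal hDT]

end Pool.Agent.H.MP_b7167f_an
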