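import Mathlib

/-!
The extension operator for the truncated paraboloid, with the frequency variables split into a
first group of `m` variables and a second group of `k` variables (so `d = m + k + 1`), and the
Fourier coefficients in the first group.
-/

namespace Pool.Agent.H.MP_b7167f_an

open MeasureTheory Complex Set

/-- The extension operator `Ef` for the truncated paraboloid over `[-1,1]^m × [-1,1]^k`.
The frequency variable is `ξ = (ξ.1, ξ.2)`, the space variable is `x = ((x.1.1, x.1.2), x.2)`,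
and the last coordinate `x.2` is the one dual to `|ξ|^2`. -/
noncomputable def extension (m k : ℕ) (f : (Fin m → ℝ) × (Fin k → ℝ) → ℂ)
    (x : ((Fin m → ℝ) × (Fin k → ℝ)) × ℝ) : ℂ :=
  ∫ ξ in Icc (-1 : (Fin m → ℝ) × (Fin k → ℝ)) 1,
    f ξ * Complex.exp (2 * Real.pi * ((∑ i, ξ.1 i * x.1.1 i + ∑ i, ξ.2 i * x.1.2 i +
      (∑ i, ξ.1 i ^ 2 + ∑ i, ξ.2 i ^ 2) * x.2 : ℝ) : ℂ) * I)

/-- The Fourier coefficient of frequency `j`, on the cube `[-1,1]^m`, of the function
`f(·, η)` of the first group of variables, the second group of variables `η` being frozen. -/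
noncomputable def coef {m k : ℕ} (f : (Fin m → ℝ) × (Fin k → ℝ) → ℂ) (j : Fin m → ℤ)
    (η : Fin k → ℝ) : ℂ :=
  ∫ ξ in Icc (-1 : Fin m → ℝ) 1,
    f (ξ, η) * Complex.exp (-(Real.pi * ((∑ i, j i * ξ i : ℝ) : ℂ) * I))

end Pool.Agent.H.MP_b7167f_an
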