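import Mathlib

open Finset
open scoped ComplexConjugate

namespace Pool.Agent.H.MP_b7167f_an

variable {M : ℕ} [NeZero M]

lemma sum_stdAddChar (t : ZMod M) :
    ∑ i : ZMod M, ZMod.stdAddChar (t * i) = if t = 0 then (M:ℂ) else 0 := by
  split_ifs with h
  · simp [h]
  · exact AddChar.sum_eq_zero_of_ne_one (ZMod.isPrimitive_stdAddChar M h)

/-- discrete Parseval identity -/
lemma dft_parseval (h : ZMod M → ℂ) :
    ∑ m, ‖ZMod.dft h m‖ ^ 2 = M * ∑ k, ‖h k‖ ^ 2 := by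
  have h1 : ∀ m, ((‖ZMod.dft h m‖ ^ 2 : ℝ) : ℂ)
      = ∑ j, ∑ j', h j * conj (h j') * ZMod.stdAddChar ((j' - j) * m) := by
    intro m
    rw [← Complex.normSq_eq_norm_sq, ← Complex.mul_conj, ZMod.dft_apply, map_sum, sum_mul_sum]
    apply sum_congr rfl
    intro j _
    apply sum_congr rfl
    intro j' _
    rw [smul_eq_mul, smul_eq_mul, map_mul, ← AddChar.inv_apply_eq_conj, ← AddChar.map_neg_eq_inv,
      neg_neg]
    have : (j' - j) * m = -(j * m) + j' * m := by ring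
    rw [this, AddChar.map_add_eq_mul]
    ring
  have h2 : ((∑ m, ‖ZMod.dft h m‖ ^ 2 : ℝ) : ℂ) = ((M * ∑ k, ‖h k‖ ^ 2 : ℝ) : ℂ) := by
    rw [Complex.ofReal_sum]
    simp_rw [h1]
    rw [sum_comm]
    have h3 : ∀ j, ∑ m : ZMod M, ∑ j', h j * conj (h j') * ZMod.stdAddChar ((j' - j) * m)
        = h j * conj (h j) * M := by
      intro j
      rw [sum_comm]
      simp_rw [← mul_sum, sum_stdAddChar]
      simp [sub_eq_zero]
    simp_rw [h3]
    rw [Complex.ofReal_mul, Complex.ofReal_sum, mul_sum]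
    apply sum_congr rfl
    intro k _
    rw [Complex.mul_conj, ← Complex.normSq_eq_norm_sq]
    push_cast
    ring
  exact_mod_cast h2

/-- Expansion in characters with a bound for the sum of the coefficients. -/
theorem exists_char_expansion (h : ZMod M → ℂ) {δ : ℝ} (hδ : ∀ k, ‖h k‖ ≤ δ) :
    ∃ c : ZMod M → ℂ, (∀ k, h k = ∑ m, c m * ZMod.stdAddChar (m * k)) ∧
      ∑ m, ‖c m‖ ≤ Real.sqrt M * δ := by
  have hM : (0:ℝ) < M := by exact_mod_cast Nat.pos_of_ne_zero (NeZero.ne M)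
  have hδ0 : 0 ≤ δ := (norm_nonneg _).trans (hδ 0)
  refine ⟨fun m => (M:ℂ)⁻¹ * ZMod.dft h m, ?_, ?_⟩
  · intro k
    have h1 : h k = (ZMod.dft.symm (ZMod.dft h)) k := by
      rw [LinearEquiv.symm_apply_apply]
    rw [h1, ZMod.invDFT_apply, smul_eq_mul, mul_sum]
    apply sum_congr rfl
    intro m _
    rw [smul_eq_mul]
    ring
  · have h1 : ∑ m, ‖(M:ℂ)⁻¹ * ZMod.dft h m‖ = (M:ℝ)⁻¹ * ∑ m, ‖ZMod.dft h m‖ := by
      rw [mul_sum]
      apply sum_congr rfl
      intro m _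
      rw [norm_mul, norm_inv, Complex.norm_natCast]
    rw [h1]
    have h2 : ∑ m, ‖ZMod.dft h m‖ ≤ Real.sqrt M * Real.sqrt (∑ m, ‖ZMod.dft h m‖ ^ 2) := by
      have := Real.sum_mul_le_sqrt_mul_sqrt univ (fun _ : ZMod M => (1:ℝ))
        (fun m => ‖ZMod.dft h m‖)
      simpa [ZMod.card] using this
    have h3 : ∑ m, ‖ZMod.dft h m‖ ^ 2 ≤ (M * δ) ^ 2 := by
      rw [dft_parseval]
      calc (M:ℝ) * ∑ k, ‖h k‖ ^ 2 ≤ M * ∑ _k : ZMod M, δ ^ 2 := by
            gcongr with k _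
            exact hδ k
        _ = (M * δ) ^ 2 := by
            rw [sum_const, card_univ, ZMod.card, nsmul_eq_mul]
            ring
    calc (M:ℝ)⁻¹ * ∑ m, ‖ZMod.dft h m‖
        ≤ (M:ℝ)⁻¹ * (Real.sqrt M * Real.sqrt ((M * δ) ^ 2)) := by
          gcongr
          exact h2.trans (by gcongr)
      _ = Real.sqrt M * δ := by
          rw [Real.sqrt_sq (by positivity)]
          field_simp

end Pool.Agent.H.MP_b7167f_an
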