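import Mathlib

namespace Pool.Agent.H.MP_b7167f_an

/-- The sections of `f` in the `j`-th variable have packing numbers at most `K ε^(-p)` in
`L²(μ)`, uniformly over the finitely supported probability measures `μ` on the cube `[-1,1]^n`:
whenever `μ` has masses `w i` at points `z i` of the cube, `0 < ε ≤ 1` and `y 1, …, y L` are
numbers in `[-1,1]` such that the sections `z ↦ f (z with j-th coordinate replaced by y a)` have
pairwise distance greater than `ε` in `L²(μ)`, then `L ≤ K ε^(-p)`. -/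
def SectionPacking (n : ℕ) (f : (Fin n → ℝ) → ℂ) (j : Fin n) (p K : ℝ) : Prop :=
  ∀ (N : ℕ) (z : Fin N → Fin n → ℝ) (w : Fin N → ℝ),
    (∀ i, z i ∈ Set.Icc (fun _ : Fin n => (-1 : ℝ)) (fun _ : Fin n => (1 : ℝ))) →
    (∀ i, 0 ≤ w i) → ∑ i, w i = 1 →
    ∀ ε : ℝ, 0 < ε → ε ≤ 1 → ∀ (L : ℕ) (y : Fin L → ℝ), (∀ a, y a ∈ Set.Icc (-1 : ℝ) 1) →
      (∀ a b, a ≠ b → ε ^ 2 < ∑ i, w i *
        ‖f (Function.update (z i) j (y a)) - f (Function.update (z i) j (y b))‖ ^ 2) →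
      (L : ℝ) ≤ K * ε ^ (-p)

end Pool.Agent.H.MP_b7167f_an
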