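import Mathlib

open Finset

namespace Pool.Agent.H.MP_b7167f_an

/-- A maximal separated set gives a partition into small classes. -/
lemma exists_net {Y : Type} [Fintype Y] [DecidableEq Y] (D : Y → Y → ℝ) (hD0 : ∀ y, D y y = 0)
    (hsymm : ∀ y y', D y y' = D y' y) {r : ℝ} (hr : 0 ≤ r) :
    ∃ (S : Finset Y) (κ : Y → ℕ), (∀ a ∈ S, ∀ b ∈ S, a ≠ b → r < D a b) ∧
      (∀ y, κ y + 1 ≤ S.card) ∧ ∀ y y', κ y = κ y' → ∃ s, D y s ≤ r ∧ D s y' ≤ r := by
  classical
  set P : Finset (Finset Y) := univ.filter (fun S => ∀ a ∈ S, ∀ b ∈ S, a ≠ b → r < D a b) with hP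
  have hne : P.Nonempty := ⟨∅, by simp [hP]⟩
  obtain ⟨S, hS, hmax⟩ := P.exists_max_image (fun S => S.card) hne
  have hSsep : ∀ a ∈ S, ∀ b ∈ S, a ≠ b → r < D a b := by
    simpa [hP] using hS
  have hclose : ∀ y, ∃ s : S, D y s ≤ r := by
    intro y
    by_contra hcon
    push Not at hcon
    have hyS : y ∉ S := by
      intro hy
      have := hcon ⟨y, hy⟩
      simp only [hD0] at this
      linarith
    have h1 : insert y S ∈ P := by
      simp only [hP, mem_filter, mem_univ, true_and]
      intro a ha b hb hab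
      rw [mem_insert] at ha hb
      rcases ha with rfl | ha <;> rcases hb with rfl | hb
      · exact absurd rfl hab
      · exact hcon ⟨b, hb⟩
      · rw [hsymm]; exact hcon ⟨a, ha⟩
      · exact hSsep a ha b hb hab
    have h2 := hmax _ h1
    rw [card_insert_of_notMem hyS] at h2
    omega
  choose s hs using hclose
  refine ⟨S, fun y => (S.equivFin (s y) : ℕ), hSsep, ?_, ?_⟩
  · intro y
    exact (S.equivFin (s y)).2
  · intro y y' hyy'
    have h1 : s y = s y' := by
      apply S.equivFin.injective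
      exact Fin.ext hyy'
    refine ⟨s y, hs y, ?_⟩
    rw [h1, hsymm]
    exact hs y'

end Pool.Agent.H.MP_b7167f_an
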