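import Mathlib
import Pool.Agent.H.MP_b7167f_an.PairMain

open MeasureTheory Set Filter
open scoped ENNReal NNReal Topology

namespace Pool.Agent.H.MP_b7167f_an

/-- index of the cell of length `2 / M` of `[-1,1]` containing `s` -/
noncomputable def cellIdx (M : ℕ) [NeZero M] (s : ℝ) : Fin M :=
  ⟨min ⌊(s + 1) * M / 2⌋₊ (M - 1), by have := NeZero.pos M; omega⟩

/-- the point of relative position `θ` in the `k`-th cell -/
noncomputable def repPt (M : ℕ) (θ : ℝ) (k : Fin M) : ℝ := -1 + 2 / M * (k + θ)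

section OneDim

variable (M : ℕ) [NeZero M]

lemma cast_M_pos : (0:ℝ) < M := by exact_mod_cast NeZero.pos M

lemma measurable_cellIdx : Measurable (cellIdx M) := by
  apply measurable_to_countable'
  intro k
  have h1 : cellIdx M ⁻¹' {k} =
      (fun s : ℝ => min ⌊(s + 1) * M / 2⌋₊ (M - 1)) ⁻¹' {(k : ℕ)} := by
    ext s
    simp only [mem_preimage, mem_singleton_iff, cellIdx, Fin.ext_iff]
  rw [h1]
  have h2 : Measurable (fun s : ℝ => min ⌊(s + 1) * M / 2⌋₊ (M - 1)) := by
    apply Measurable.min _ measurable_const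
    exact Nat.measurable_floor.comp (by fun_prop)
  exact h2 (measurableSet_singleton _)

lemma measurable_repPt_cellIdx :
    Measurable (fun x : ℝ × ℝ => repPt M x.1 (cellIdx M x.2)) := by
  have h1 : Measurable (fun k : Fin M => ((k : ℕ) : ℝ)) := measurable_from_top
  have h2 : Measurable (fun x : ℝ × ℝ => (((cellIdx M x.2 : Fin M) : ℕ) : ℝ)) :=
    h1.comp ((measurable_cellIdx M).comp measurable_snd)
  unfold repPt
  exact (((h2.add measurable_fst).const_mul _).const_add _)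

lemma cellIdx_eq_iff {s : ℝ} (hs : s ∈ Ico (-1:ℝ) 1) (k : Fin M) :
    cellIdx M s = k ↔ s ∈ Ico (-1 + 2 / M * (k : ℝ)) (-1 + 2 / M * (k + 1)) := by
  have hM := cast_M_pos M
  have h0 : 0 ≤ (s + 1) * M / 2 := by
    have : 0 ≤ s + 1 := by linarith [hs.1]
    positivity
  have h1 : (s + 1) * M / 2 < M := by
    have : s + 1 < 2 := by linarith [hs.2]
    nlinarith
  have h2 : ⌊(s + 1) * M / 2⌋₊ ≤ M - 1 := by
    have : ⌊(s + 1) * M / 2⌋₊ < M := (Nat.floor_lt h0).2 h1
    omega
  unfold cellIdx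
  rw [Fin.ext_iff]
  simp only
  rw [min_eq_left h2, Nat.floor_eq_iff h0, mem_Ico]
  have e1 : (-1 + 2 / M * (k : ℝ) ≤ s) ↔ (k : ℝ) ≤ (s + 1) * M / 2 := by
    rw [show (-1 + 2 / M * (k : ℝ) ≤ s) ↔ (2 * (k : ℝ) / M ≤ s + 1) by
      constructor
      · intro h; have : 2 * (k : ℝ) / M = 2 / M * k := by ring
        linarith
      · intro h; have : 2 * (k : ℝ) / M = 2 / M * k := by ring
        linarith, div_le_iff₀ hM]
    constructor <;> intro h <;> linarith
  have e2 : (s < -1 + 2 / M * ((k : ℝ) + 1)) ↔ (s + 1) * M / 2 < (k : ℝ) + 1 := by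
    rw [show (s < -1 + 2 / M * ((k : ℝ) + 1)) ↔ (s + 1 < 2 * ((k : ℝ) + 1) / M) by
      constructor
      · intro h; have : 2 * ((k : ℝ) + 1) / M = 2 / M * (k + 1) := by ring
        linarith
      · intro h; have : 2 * ((k : ℝ) + 1) / M = 2 / M * (k + 1) := by ring
        linarith, lt_div_iff₀ hM]
    constructor <;> intro h <;> linarith
  rw [e1, e2]

lemma cell_subset (k : Fin M) :
    Ico (-1 + 2 / M * (k : ℝ)) (-1 + 2 / M * (k + 1)) ⊆ Ico (-1:ℝ) 1 := by
  have hM := cast_M_pos M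
  intro s hs
  have h1 : 0 ≤ 2 / M * (k : ℝ) := by positivity
  have h2 : 2 / M * ((k : ℝ) + 1) ≤ 2 := by
    have h3 : (k : ℝ) + 1 ≤ M := by
      have := k.2
      exact_mod_cast this
    calc 2 / M * ((k : ℝ) + 1) ≤ 2 / M * M := by gcongr
      _ = 2 := by field_simp
  exact ⟨by linarith [hs.1], by linarith [hs.2]⟩

lemma cell_eq (k : Fin M) : Ico (-1:ℝ) 1 ∩ cellIdx M ⁻¹' {k} =
    Ico (-1 + 2 / M * (k : ℝ)) (-1 + 2 / M * (k + 1)) := by
  ext s
  constructor
  · rintro ⟨h1, h2⟩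
    exact (cellIdx_eq_iff M h1 k).1 h2
  · intro h
    have h1 := cell_subset M k h
    exact ⟨h1, (cellIdx_eq_iff M h1 k).2 h⟩

lemma lintegral_cellIdx (G : Fin M → ℝ≥0∞) :
    ∫⁻ s in Ico (-1:ℝ) 1, G (cellIdx M s) = ∑ k, G k * ENNReal.ofReal (2 / M) := by
  have h1 : ∫⁻ s in Ico (-1:ℝ) 1, G (cellIdx M s) =
      ∫⁻ k, G k ∂((volume.restrict (Ico (-1:ℝ) 1)).map (cellIdx M)) := by
    rw [lintegral_map measurable_from_top (measurable_cellIdx M)]
  rw [h1, lintegral_fintype]
  apply Finset.sum_congr rfl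
  intro k _
  congr 1
  rw [Measure.map_apply (measurable_cellIdx M) (measurableSet_singleton _),
    Measure.restrict_apply ((measurable_cellIdx M) (measurableSet_singleton _)), inter_comm,
    cell_eq, Real.volume_Ico]
  congr 1
  ring

lemma lintegral_repPt (k : Fin M) (F : ℝ → ℝ≥0∞) :
    ∫⁻ θ in Ico (0:ℝ) 1, F (repPt M θ k) * ENNReal.ofReal (2 / M) =
      ∫⁻ z in Ico (-1 + 2 / M * (k : ℝ)) (-1 + 2 / M * (k + 1)), F z := by
  have hM := cast_M_pos M
  have h2M : (0:ℝ) < 2 / M := by positivity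
  have himg : (fun θ => repPt M θ k) '' Ico (0:ℝ) 1 =
      Ico (-1 + 2 / M * (k : ℝ)) (-1 + 2 / M * (k + 1)) := by
    ext z
    constructor
    · rintro ⟨θ, hθ, rfl⟩
      unfold repPt
      constructor
      · have : 2 / M * (k : ℝ) ≤ 2 / M * (k + θ) := by
          apply mul_le_mul_of_nonneg_left _ h2M.le
          linarith [hθ.1]
        simp only
        linarith
      · have : 2 / M * ((k : ℝ) + θ) < 2 / M * (k + 1) := by
          apply mul_lt_mul_of_pos_left _ h2M
          linarith [hθ.2]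
        simp only
        linarith
    · intro hz
      refine ⟨(z + 1) * M / 2 - k, ⟨?_, ?_⟩, ?_⟩
      · have h1 : 2 / M * (k : ℝ) ≤ z + 1 := by linarith [hz.1]
        have h2 : (k : ℝ) = (2 / M * (k : ℝ)) * M / 2 := by field_simp
        have h3 : (2 / M * (k : ℝ)) * M / 2 ≤ (z + 1) * M / 2 := by gcongr
        linarith
      · have h1 : z + 1 < 2 / M * ((k : ℝ) + 1) := by linarith [hz.2]
        have h2 : (k : ℝ) + 1 = (2 / M * ((k : ℝ) + 1)) * M / 2 := by field_simp
        have h3 : (z + 1) * M / 2 < (2 / M * ((k : ℝ) + 1)) * M / 2 := by gcongr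
        linarith
      · unfold repPt
        field_simp
        ring
  rw [← himg, lintegral_image_eq_lintegral_abs_deriv_mul measurableSet_Ico
    (f' := fun _ => 2 / M)]
  · apply lintegral_congr
    intro θ
    rw [abs_of_pos h2M, mul_comm]
  · intro x _
    unfold repPt
    have h : HasDerivAt (fun θ : ℝ => -1 + 2 / (M:ℝ) * ((k : ℝ) + θ)) (2 / (M:ℝ)) x := by
      have h0 := ((hasDerivAt_id x).const_add (k : ℝ)).const_mul (2 / (M:ℝ))
      have h1 := h0.const_add (-1)
      simpa using h1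
    exact h.hasDerivWithinAt
  · intro a _ b _ hab
    unfold repPt at hab
    simp only at hab
    have h3 : 2 / (M:ℝ) * (k + a) = 2 / M * (k + b) := by linarith
    have h4 := mul_left_cancel₀ h2M.ne' h3
    linarith

lemma mp_one : MeasurePreserving (fun x : ℝ × ℝ => repPt M x.1 (cellIdx M x.2))
    ((volume.restrict (Ico (0:ℝ) 1)).prod (volume.restrict (Ico (-1:ℝ) 1)))
    (volume.restrict (Ico (-1:ℝ) 1)) := by
  refine ⟨measurable_repPt_cellIdx M, ?_⟩
  apply Measure.ext_of_lintegral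
  intro F hF
  have h0 := lintegral_prod (μ := volume.restrict (Ico (0:ℝ) 1))
    (ν := volume.restrict (Ico (-1:ℝ) 1)) (fun x : ℝ × ℝ => F (repPt M x.1 (cellIdx M x.2)))
    (hF.comp (measurable_repPt_cellIdx M)).aemeasurable
  rw [lintegral_map hF (measurable_repPt_cellIdx M), h0]
  have h1 : ∀ θ : ℝ, ∫⁻ s in Ico (-1:ℝ) 1, F (repPt M θ (cellIdx M s)) =
      ∑ k, F (repPt M θ k) * ENNReal.ofReal (2 / M) :=
    fun θ => lintegral_cellIdx M (fun k => F (repPt M θ k))
  simp_rw [h1]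
  rw [lintegral_finsetSum]
  · simp_rw [lintegral_repPt M _ F, ← cell_eq]
    have h2 := lintegral_iUnion (μ := (volume : Measure ℝ))
      (s := fun k : Fin M => Ico (-1:ℝ) 1 ∩ cellIdx M ⁻¹' {k})
      (fun k => measurableSet_Ico.inter ((measurable_cellIdx M) (measurableSet_singleton _)))
      (fun k l hkl => Disjoint.mono inter_subset_right inter_subset_right
        (Disjoint.preimage _ (by simpa using hkl))) F
    rw [tsum_fintype] at h2
    rw [← h2, ← inter_iUnion]
    have : (⋃ k, cellIdx M ⁻¹' {k}) = univ := by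
      ext s
      simp
    rw [this, inter_univ]
  · intro k _
    apply Measurable.mul_const
    apply hF.comp
    unfold repPt
    fun_prop

lemma repPt_mem {θ : ℝ} (hθ : θ ∈ Ico (0:ℝ) 1) (k : Fin M) : repPt M θ k ∈ Ico (-1:ℝ) 1 := by
  have hM := cast_M_pos M
  have h2M : (0:ℝ) < 2 / M := by positivity
  apply cell_subset M k
  unfold repPt
  constructor
  · have : 2 / M * (k : ℝ) ≤ 2 / M * (k + θ) := by
      apply mul_le_mul_of_nonneg_left _ h2M.le
      linarith [hθ.1]
    linarith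
  · have : 2 / M * ((k : ℝ) + θ) < 2 / M * (k + 1) := by
      apply mul_lt_mul_of_pos_left _ h2M
      linarith [hθ.2]
    linarith

lemma abs_repPt_sub_le {θ s : ℝ} (hθ : θ ∈ Ico (0:ℝ) 1) (hs : s ∈ Ico (-1:ℝ) 1) :
    |repPt M θ (cellIdx M s) - s| ≤ 2 / M := by
  have hM := cast_M_pos M
  have h2M : (0:ℝ) < 2 / M := by positivity
  have h := (cellIdx_eq_iff M hs (cellIdx M s)).1 rfl
  set k := cellIdx M s
  unfold repPt
  have h1 : 2 / M * (k : ℝ) ≤ 2 / M * (k + θ) := by
    apply mul_le_mul_of_nonneg_left _ h2M.le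
    linarith [hθ.1]
  have h2 : 2 / M * ((k : ℝ) + θ) < 2 / M * (k + 1) := by
    apply mul_lt_mul_of_pos_left _ h2M
    linarith [hθ.2]
  have h3 : 2 / M * ((k : ℝ) + 1) = 2 / M * k + 2 / M := by ring
  rw [abs_le]
  constructor <;> linarith [h.1, h.2]

end OneDim

section Multi

attribute [local irreducible] cellIdx repPt

variable {n : ℕ} (M : ℕ) [NeZero M]

/-- replace every coordinate by the point of relative position `θ i` of its cell -/
noncomputable def gridMap (θ ξ : Fin n → ℝ) : Fin n → ℝ := fun i =>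
  repPt M (θ i) (cellIdx M (ξ i))

/-- half open cube -/
def hcube (n : ℕ) (a : ℝ) : Set (Fin n → ℝ) := univ.pi fun _ => Ico a 1

lemma mem_hcube {a : ℝ} {ξ : Fin n → ℝ} : ξ ∈ hcube n a ↔ ∀ i, ξ i ∈ Ico a 1 := by
  simp [hcube]

lemma measurableSet_hcube (a : ℝ) : MeasurableSet (hcube n a) :=
  MeasurableSet.univ_pi fun _ => measurableSet_Ico

lemma restrict_hcube (a : ℝ) : (volume : Measure (Fin n → ℝ)).restrict (hcube n a) =
    Measure.pi fun _ => volume.restrict (Ico a 1) := by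
  rw [volume_pi, hcube, Measure.restrict_pi_pi]

lemma restrict_cube : (volume : Measure (Fin n → ℝ)).restrict (cube n) =
    volume.restrict (hcube n (-1)) := by
  apply Measure.restrict_congr_set
  rw [volume_pi]
  exact (Measure.univ_pi_Ico_ae_eq_Icc (μ := fun _ : Fin n => (volume : Measure ℝ))
    (f := fun _ => (-1:ℝ)) (g := fun _ => (1:ℝ))).symm

lemma measurable_gridMap_pair :
    Measurable (fun x : (Fin n → ℝ) × (Fin n → ℝ) => gridMap M x.1 x.2) := by
  rw [measurable_pi_iff]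
  intro i
  have h1 : Measurable (fun x : (Fin n → ℝ) × (Fin n → ℝ) => (x.1 i, x.2 i)) :=
    ((measurable_pi_apply i).comp measurable_fst).prodMk
      ((measurable_pi_apply i).comp measurable_snd)
  exact Measurable.comp (g := fun y : ℝ × ℝ => repPt M y.1 (cellIdx M y.2))
    (measurable_repPt_cellIdx M) h1

lemma measurable_gridMap (θ : Fin n → ℝ) : Measurable (gridMap M θ) := by
  rw [measurable_pi_iff]
  intro i
  have h1 : Measurable (fun x : Fin n → ℝ => (θ i, x i)) :=
    measurable_const.prodMk (measurable_pi_apply i)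
  exact Measurable.comp (g := fun y : ℝ × ℝ => repPt M y.1 (cellIdx M y.2))
    (measurable_repPt_cellIdx M) h1

lemma mp_multi : MeasurePreserving (fun x : (Fin n → ℝ) × (Fin n → ℝ) => gridMap M x.1 x.2)
    ((volume.restrict (hcube n 0)).prod (volume.restrict (hcube n (-1))))
    (volume.restrict (hcube n (-1))) := by
  rw [restrict_hcube, restrict_hcube]
  have h1 := measurePreserving_pi
    (fun _ : Fin n => (volume.restrict (Ico (0:ℝ) 1)).prod (volume.restrict (Ico (-1:ℝ) 1)))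
    (fun _ : Fin n => volume.restrict (Ico (-1:ℝ) 1)) (fun _ => mp_one M)
  have h2 := (measurePreserving_arrowProdEquivProdArrow ℝ ℝ (Fin n)
    (fun _ => volume.restrict (Ico (0:ℝ) 1)) (fun _ => volume.restrict (Ico (-1:ℝ) 1))).symm
  exact h1.comp h2

lemma gridMap_mem {θ ξ : Fin n → ℝ} (hθ : ∀ i, θ i ∈ Ico (0:ℝ) 1) :
    gridMap M θ ξ ∈ cube n := by
  rw [mem_cube]
  intro i
  exact Ico_subset_Icc_self (repPt_mem M (hθ i) _)

lemma dist_gridMap_le {θ ξ : Fin n → ℝ} (hθ : ∀ i, θ i ∈ Ico (0:ℝ) 1)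
    (hξ : ξ ∈ hcube n (-1)) : dist (gridMap M θ ξ) ξ ≤ 2 / M := by
  have hM := cast_M_pos M
  rw [dist_pi_le_iff (by positivity)]
  intro i
  rw [Real.dist_eq]
  exact abs_repPt_sub_le M (hθ i) (mem_hcube.1 hξ i)

end Multi

/-- approximation in `L¹` -/
lemma exists_grid {n : ℕ} {f : (Fin n → ℝ) → ℂ} (hf : Measurable f)
    (hb : ∀ ξ ∈ cube n, ‖f ξ‖ ≤ 1) {ε : ℝ≥0∞} (hε : ε ≠ 0) :
    ∃ M : ℕ, ∃ _ : NeZero M, ∃ θ : Fin n → ℝ, (∀ i, θ i ∈ Ico (0:ℝ) 1) ∧
      ∫⁻ ξ in cube n, ‖f (gridMap M θ ξ) - f ξ‖ₑ ≤ ε + 2 ^ n * ε + ε := by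
  set F : (Fin n → ℝ) → ℂ := indicator (cube n) f with hF
  have hFm : Measurable F := hf.indicator measurableSet_cube
  have hFi : Integrable F volume := by
    rw [hF, integrable_indicator_iff measurableSet_cube]
    apply Measure.integrableOn_of_bounded (M := 1)
    · rw [volume_cube]; exact ENNReal.pow_ne_top (by norm_num)
    · exact hf.aestronglyMeasurable
    · filter_upwards [ae_restrict_mem measurableSet_cube] with ξ hξ
      exact hb ξ hξ
  obtain ⟨g, hgc, hgle, hgcont, hgi⟩ := hFi.exists_hasCompactSupport_lintegral_sub_le hε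
  have hguc : UniformContinuous g := hgc.uniformContinuous_of_continuous hgcont
  -- a real bound below ε
  obtain ⟨e, he0, heε⟩ : ∃ e : ℝ, 0 < e ∧ ENNReal.ofReal e ≤ ε := by
    rcases eq_or_ne ε ∞ with h | h
    · exact ⟨1, one_pos, by rw [h]; exact le_top⟩
    · exact ⟨ε.toReal, ENNReal.toReal_pos hε h, by rw [ENNReal.ofReal_toReal h]⟩
  obtain ⟨δ, hδ0, hδ⟩ := Metric.uniformContinuous_iff.1 hguc e he0
  obtain ⟨M, hM⟩ := exists_nat_gt (2 / δ)
  have hMpos : (0:ℝ) < M := lt_trans (by positivity) hM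
  have hNZ : NeZero M := ⟨by
    intro h
    rw [h] at hMpos
    simp at hMpos⟩
  have h2M : 2 / (M:ℝ) < δ := by
    rw [div_lt_iff₀ hMpos]
    rw [div_lt_iff₀ hδ0] at hM
    linarith
  -- choose θ
  set I : (Fin n → ℝ) → ℝ≥0∞ := fun θ =>
    ∫⁻ ξ in hcube n (-1), ‖F (gridMap M θ ξ) - g (gridMap M θ ξ)‖ₑ with hI
  have hmeas : Measurable (fun x : Fin n → ℝ => ‖F x - g x‖ₑ) :=
    (hFm.sub hgcont.measurable).enorm
  have hmeas2 : Measurable (fun x : (Fin n → ℝ) × (Fin n → ℝ) =>
      ‖F (gridMap M x.1 x.2) - g (gridMap M x.1 x.2)‖ₑ) :=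
    hmeas.comp (measurable_gridMap_pair M)
  have hint : ∫⁻ θ in hcube n 0, I θ = ∫⁻ ξ in hcube n (-1), ‖F ξ - g ξ‖ₑ := by
    rw [hI]
    have h1 := (mp_multi (n := n) M).lintegral_comp hmeas
    rw [← h1, lintegral_prod _ hmeas2.aemeasurable]
  have hvol : volume (hcube n 0) = 1 := by
    have h1 : volume (hcube n 0) = (volume.restrict (hcube n 0)) univ := by
      rw [Measure.restrict_apply_univ]
    rw [h1, restrict_hcube, Measure.pi_univ]
    simp
  obtain ⟨θ, hθ, hθI⟩ : ∃ θ ∈ hcube n 0, I θ ≤ laverage (volume.restrict (hcube n 0)) I := by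
    apply exists_le_setLAverage
    · rw [hvol]; exact one_ne_zero
    · rw [hvol]; exact ENNReal.one_ne_top
    · exact (Measurable.lintegral_prod_right hmeas2).aemeasurable
  have hθ' : ∀ i, θ i ∈ Ico (0:ℝ) 1 := mem_hcube.1 hθ
  have hIle : I θ ≤ ε := by
    refine hθI.trans ?_
    rw [setLAverage_eq, hvol, div_one, hint]
    exact (setLIntegral_le_lintegral _ _).trans hgle
  refine ⟨M, hNZ, θ, hθ', ?_⟩
  rw [restrict_cube]
  have hsub : hcube n (-1) ⊆ cube n := by
    intro ξ hξ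
    rw [mem_cube]
    intro i
    exact Ico_subset_Icc_self (mem_hcube.1 hξ i)
  calc ∫⁻ ξ in hcube n (-1), ‖f (gridMap M θ ξ) - f ξ‖ₑ
      ≤ ∫⁻ ξ in hcube n (-1), (‖F (gridMap M θ ξ) - g (gridMap M θ ξ)‖ₑ +
          ENNReal.ofReal e + ‖F ξ - g ξ‖ₑ) := by
        apply setLIntegral_mono' (measurableSet_hcube _)
        intro ξ hξ
        have e1 : F (gridMap M θ ξ) = f (gridMap M θ ξ) := by
          rw [hF, indicator_of_mem (gridMap_mem M hθ')]
        have e2 : F ξ = f ξ := by rw [hF, indicator_of_mem (hsub hξ)]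
        have e3 : ‖g (gridMap M θ ξ) - g ξ‖ₑ ≤ ENNReal.ofReal e := by
          rw [← ofReal_norm]
          apply ENNReal.ofReal_le_ofReal
          rw [← dist_eq_norm]
          exact (hδ ((dist_gridMap_le M hθ' hξ).trans_lt h2M)).le
        have e4 : f (gridMap M θ ξ) - f ξ = (F (gridMap M θ ξ) - g (gridMap M θ ξ)) +
            (g (gridMap M θ ξ) - g ξ) + (g ξ - F ξ) := by
          rw [e1, e2]; ring
        rw [e4]
        refine (enorm_add_le _ _).trans ?_
        refine add_le_add ((enorm_add_le _ _).trans (add_le_add le_rfl e3)) ?_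
        rw [← enorm_neg, neg_sub]
    _ = I θ + ENNReal.ofReal e * volume (hcube n (-1)) +
          ∫⁻ ξ in hcube n (-1), ‖F ξ - g ξ‖ₑ := by
        rw [lintegral_add_right _ hmeas, lintegral_add_right _ measurable_const,
          setLIntegral_const]
    _ ≤ ε + 2 ^ n * ε + ε := by
        have hv : volume (hcube n (-1)) = 2 ^ n := by
          have h1 : volume (hcube n (-1)) = (volume.restrict (hcube n (-1))) univ := by
            rw [Measure.restrict_apply_univ]
          rw [h1, ← restrict_cube, Measure.restrict_apply_univ, volume_cube]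
        rw [hv, mul_comm (ENNReal.ofReal e)]
        gcongr
        exact (setLIntegral_le_lintegral _ _).trans hgle

/-- JOB 2.  Reduction to functions on a grid. -/
theorem grid_lim {n : ℕ} {f g : (Fin n → ℝ) → ℂ} (hf : Measurable f)
    (hb : ∀ ξ ∈ cube n, ‖f ξ‖ ≤ 1) (hg : Measurable g) {B : ℝ} (hgB : ∀ ξ ∈ cube n, ‖g ξ‖ ≤ B)
    {q : ℝ} (hq : 1 ≤ q) {C : ℝ≥0∞}
    (h : ∀ (M : ℕ) [NeZero M] (θ : Fin n → ℝ), (∀ i, θ i ∈ Ico (0:ℝ) 1) →
      eLpNorm (extOp n (fun ξ => g ξ * f (fun i => repPt M (θ i) (cellIdx M (ξ i)))))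
        (ENNReal.ofReal q) volume ≤ C) :
    eLpNorm (extOp n (fun ξ => g ξ * f ξ)) (ENNReal.ofReal q) volume ≤ C := by
  set ε : ℕ → ℝ≥0∞ := fun k => ((k : ℝ≥0∞) + 1)⁻¹ with hεdef
  have hε0 : ∀ k, ε k ≠ 0 := by
    intro k
    rw [hεdef]
    simp
  have hεlim : Tendsto ε atTop (𝓝 0) := by
    have h1 := (tendsto_add_atTop_iff_nat (f := fun k : ℕ => ((k : ℝ≥0∞))⁻¹) 1).2
      ENNReal.tendsto_inv_nat_nhds_zero
    refine h1.congr ?_
    intro k
    rw [hεdef]
    push_cast
    rfl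
  choose M hM θ hθ hle using fun k => exists_grid hf hb (hε0 k)
  have hBabs : ∀ ξ ∈ cube n, ‖g ξ‖ ≤ |B| := fun ξ hξ => (hgB ξ hξ).trans (le_abs_self B)
  -- the approximating functions
  have mapp : ∀ k, Measurable (fun ξ : Fin n → ℝ =>
      g ξ * f (@gridMap n (M k) (hM k) (θ k) ξ)) := fun k =>
    hg.mul (hf.comp (@measurable_gridMap n (M k) (hM k) (θ k)))
  have bapp : ∀ k, ∀ ξ ∈ cube n, ‖g ξ * f (@gridMap n (M k) (hM k) (θ k) ξ)‖ ≤ |B| := by
    intro k ξ hξ
    rw [norm_mul]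
    calc ‖g ξ‖ * ‖f (@gridMap n (M k) (hM k) (θ k) ξ)‖ ≤ |B| * 1 := by
          apply mul_le_mul (hBabs ξ hξ) (hb _ (@gridMap_mem n (M k) (hM k) _ _ (hθ k)))
            (norm_nonneg _) (abs_nonneg _)
      _ = |B| := mul_one _
  have mfull : Measurable (fun ξ => g ξ * f ξ) := hg.mul hf
  have bfull : ∀ ξ ∈ cube n, ‖g ξ * f ξ‖ ≤ |B| := by
    intro ξ hξ
    rw [norm_mul]
    calc ‖g ξ‖ * ‖f ξ‖ ≤ |B| * 1 := by
          apply mul_le_mul (hBabs ξ hξ) (hb _ hξ) (norm_nonneg _) (abs_nonneg _)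
      _ = |B| := mul_one _
  have hconv : ∀ p, Tendsto (fun k => extOp n (fun ξ =>
      g ξ * f (@gridMap n (M k) (hM k) (θ k) ξ)) p) atTop
      (𝓝 (extOp n (fun ξ => g ξ * f ξ) p)) := by
    intro p
    simp_rw [extOp_eq_integral]
    apply tendsto_integral_of_L1
    · exact (integrable_ext mfull bfull p).aestronglyMeasurable
    · exact Eventually.of_forall fun k => integrable_ext (mapp k) (bapp k) p
    · have hub : ∀ k, ∫⁻ ξ, ‖ch ((∑ j, ξ j * p.1 j) + (∑ j, ξ j ^ 2) * p.2) *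
            indicator (cube n) (fun ξ => g ξ * f (@gridMap n (M k) (hM k) (θ k) ξ)) ξ
            - ch ((∑ j, ξ j * p.1 j) + (∑ j, ξ j ^ 2) * p.2) *
            indicator (cube n) (fun ξ => g ξ * f ξ) ξ‖ₑ
          ≤ ENNReal.ofReal |B| * (ε k + 2 ^ n * ε k + ε k) := by
        intro k
        calc ∫⁻ ξ, ‖ch ((∑ j, ξ j * p.1 j) + (∑ j, ξ j ^ 2) * p.2) *
            indicator (cube n) (fun ξ => g ξ * f (@gridMap n (M k) (hM k) (θ k) ξ)) ξ
            - ch ((∑ j, ξ j * p.1 j) + (∑ j, ξ j ^ 2) * p.2) *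
            indicator (cube n) (fun ξ => g ξ * f ξ) ξ‖ₑ
            ≤ ∫⁻ ξ, indicator (cube n) (fun ξ => ENNReal.ofReal |B| *
              ‖f (@gridMap n (M k) (hM k) (θ k) ξ) - f ξ‖ₑ) ξ := by
              apply lintegral_mono
              intro ξ
              simp only
              rw [← mul_sub, enorm_mul, enorm_ch, one_mul]
              by_cases h : ξ ∈ cube n
              · rw [indicator_of_mem h, indicator_of_mem h, indicator_of_mem h, ← mul_sub,
                  enorm_mul]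
                have e1 : ‖g ξ‖ₑ ≤ ENNReal.ofReal |B| := by
                  rw [← ofReal_norm]
                  exact ENNReal.ofReal_le_ofReal (hBabs ξ h)
                gcongr
              · rw [indicator_of_notMem h, indicator_of_notMem h, indicator_of_notMem h]; simp
          _ = ENNReal.ofReal |B| *
              ∫⁻ ξ in cube n, ‖f (@gridMap n (M k) (hM k) (θ k) ξ) - f ξ‖ₑ := by
              rw [lintegral_indicator measurableSet_cube,
                lintegral_const_mul' _ _ ENNReal.ofReal_ne_top]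
          _ ≤ ENNReal.ofReal |B| * (ε k + 2 ^ n * ε k + ε k) := by
              gcongr
              exact hle k
      refine tendsto_of_tendsto_of_tendsto_of_le_of_le tendsto_const_nhds ?_
        (fun _ => zero_le) hub
      have h5 : Tendsto (fun k => ε k + 2 ^ n * ε k + ε k) atTop (𝓝 (0 + 2 ^ n * 0 + 0)) := by
        apply Tendsto.add (Tendsto.add hεlim _) hεlim
        exact ENNReal.Tendsto.const_mul hεlim (Or.inr (ENNReal.pow_ne_top (by norm_num)))
      have h6 := ENNReal.Tendsto.const_mul (a := ENNReal.ofReal |B|) h5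
        (Or.inr ENNReal.ofReal_ne_top)
      simpa using h6
  refine (Lp.eLpNorm_lim_le_liminf_eLpNorm
    (f := fun k => extOp n (fun ξ => g ξ * f (@gridMap n (M k) (hM k) (θ k) ξ)))
    (fun k => (sm_extOp (mapp k)).aestronglyMeasurable) _
    (Eventually.of_forall fun p => hconv p)).trans ?_
  apply liminf_le_of_frequently_le'
  exact Frequently.of_forall fun k => @h (M k) (hM k) (θ k) (hθ k)

end Pool.Agent.H.MP_b7167f_an
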