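import Mathlib
import Pool.Agent.H.MP_b7167f_an.BlockSum
import Pool.Agent.H.MP_b7167f_an.ChainTele
import Pool.Agent.H.MP_b7167f_an.Grid

open MeasureTheory Set
open scoped ENNReal NNReal

namespace Pool.Agent.H.MP_b7167f_an

universe v

section linear

variable {n : ℕ}

lemma extOp_const_mul (a : ℂ) (f : (Fin n → ℝ) → ℂ) (p : (Fin n → ℝ) × ℝ) :
    extOp n (fun ξ => a * f ξ) p = a * extOp n f p := by
  unfold extOp
  rw [← integral_const_mul]
  congr 1
  ext ξ
  ring

lemma extOp_add {f g : (Fin n → ℝ) → ℂ} (hf : Measurable f) (hg : Measurable g) {A B : ℝ}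
    (hA : ∀ ξ ∈ cube n, ‖f ξ‖ ≤ A) (hB : ∀ ξ ∈ cube n, ‖g ξ‖ ≤ B) (p : (Fin n → ℝ) × ℝ) :
    extOp n (fun ξ => f ξ + g ξ) p = extOp n f p + extOp n g p := by
  simp_rw [extOp_eq_integral]
  rw [← integral_add (integrable_ext hf hA p) (integrable_ext hg hB p)]
  congr 1
  ext ξ
  by_cases h : ξ ∈ cube n
  · simp_rw [indicator_of_mem h]; ring
  · simp_rw [indicator_of_notMem h]; ring

end linear

variable {m : ℕ} (M : ℕ) [NeZero M]

/-- the function represented by an array on the grid -/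
noncomputable def arr (c : Fin M → (Fin m → Fin M) → ℂ) (ξ : Fin (m + 1) → ℝ) : ℂ :=
  c (cellIdx M (ξ 0)) (fun j => cellIdx M (ξ j.succ))

lemma measurable_arr (c : Fin M → (Fin m → Fin M) → ℂ) : Measurable (arr M c) := by
  have h1 : arr M c = (fun x : Fin M × (Fin m → Fin M) => c x.1 x.2) ∘
    (fun ξ : Fin (m + 1) → ℝ => (cellIdx M (ξ 0), fun j : Fin m => cellIdx M (ξ j.succ))) := rfl
  rw [h1]
  apply (measurable_of_countable _).comp
  apply Measurable.prodMk
  · exact (measurable_cellIdx M).comp (measurable_pi_apply 0)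
  · exact measurable_pi_iff.2 fun j => (measurable_cellIdx M).comp (measurable_pi_apply j.succ)

lemma norm_arr_le (c : Fin M → (Fin m → Fin M) → ℂ) (ξ : Fin (m + 1) → ℝ) :
    ‖arr M c ξ‖ ≤ ∑ b, ∑ z, ‖c b z‖ := by
  unfold arr
  calc ‖c (cellIdx M (ξ 0)) (fun j => cellIdx M (ξ j.succ))‖
      ≤ ∑ z, ‖c (cellIdx M (ξ 0)) z‖ :=
        Finset.single_le_sum (f := fun z => ‖c (cellIdx M (ξ 0)) z‖) (fun _ _ => norm_nonneg _)
          (Finset.mem_univ _)
    _ ≤ _ := Finset.single_le_sum (f := fun b => ∑ z, ‖c b z‖)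
          (fun _ _ => Finset.sum_nonneg fun _ _ => norm_nonneg _) (Finset.mem_univ _)

/-- the functional used in the chain -/
noncomputable def BPhi (F : HForm.{v} (m + 1)) (q : ℝ) (c : Fin M → (Fin m → Fin M) → ℂ) :
    ℝ≥0∞ :=
  eLpNorm (extOp (m + 1) (fun ξ => F.val ξ * arr M c ξ)) (ENNReal.ofReal q) volume

lemma meas_Farr (F : HForm.{v} (m + 1)) (c : Fin M → (Fin m → Fin M) → ℂ) :
    Measurable (fun ξ => F.val ξ * arr M c ξ) := F.measurable_val.mul (measurable_arr M c)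

lemma bdd_Farr (F : HForm.{v} (m + 1)) (c : Fin M → (Fin m → Fin M) → ℂ) {ξ : Fin (m + 1) → ℝ}
    (hξ : ξ ∈ cube (m + 1)) : ‖F.val ξ * arr M c ξ‖ ≤ ‖F.T‖ * ∑ b, ∑ z, ‖c b z‖ := by
  rw [norm_mul]
  exact mul_le_mul (F.norm_val_le hξ) (norm_arr_le M c ξ) (norm_nonneg _) (norm_nonneg _)

lemma BPhi_add (F : HForm.{v} (m + 1)) {q : ℝ} (hq : 1 ≤ q) (g h : Fin M → (Fin m → Fin M) → ℂ) :
    BPhi M F q (g + h) ≤ BPhi M F q g + BPhi M F q h := by
  have hq1 : 1 ≤ ENNReal.ofReal q := by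
    rw [← ENNReal.ofReal_one]; exact ENNReal.ofReal_le_ofReal hq
  unfold BPhi
  have h1 : extOp (m + 1) (fun ξ => F.val ξ * arr M (g + h) ξ)
      = extOp (m + 1) (fun ξ => F.val ξ * arr M g ξ)
        + extOp (m + 1) (fun ξ => F.val ξ * arr M h ξ) := by
    funext p
    have h2 : (fun ξ => F.val ξ * arr M (g + h) ξ)
        = fun ξ => F.val ξ * arr M g ξ + F.val ξ * arr M h ξ := by
      funext ξ
      unfold arr
      simp only [Pi.add_apply]
      ring
    rw [h2, extOp_add (meas_Farr M F g) (meas_Farr M F h) (fun ξ hξ => bdd_Farr M F g hξ)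
      (fun ξ hξ => bdd_Farr M F h hξ), Pi.add_apply]
  rw [h1]
  exact eLpNorm_add_le (sm_extOp (meas_Farr M F g)).aestronglyMeasurable
    (sm_extOp (meas_Farr M F h)).aestronglyMeasurable hq1

lemma BPhi_sum (F : HForm.{v} (m + 1)) {q : ℝ} (hq : 1 ≤ q) {ι : Type} (S : Finset ι)
    (μ : ι → ℝ) (g : ι → (Fin M → (Fin m → Fin M) → ℂ)) (B : ℝ≥0∞) (hμ : ∀ s ∈ S, 0 ≤ μ s)
    (hμ1 : ∑ s ∈ S, μ s = 1) (hB : ∀ s ∈ S, BPhi M F q (g s) ≤ B) :
    BPhi M F q (fun b z => ∑ s ∈ S, (μ s : ℂ) * g s b z) ≤ B := by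
  have hq1 : 1 ≤ ENNReal.ofReal q := by
    rw [← ENNReal.ofReal_one]; exact ENNReal.ofReal_le_ofReal hq
  have h1 : extOp (m + 1) (fun ξ => F.val ξ * arr M (fun b z => ∑ s ∈ S, (μ s : ℂ) * g s b z) ξ)
      = ∑ s ∈ S, (μ s : ℂ) • extOp (m + 1) (fun ξ => F.val ξ * arr M (g s) ξ) := by
    funext p
    have h2 : (fun ξ => F.val ξ * arr M (fun b z => ∑ s ∈ S, (μ s : ℂ) * g s b z) ξ)
        = fun ξ => ∑ s ∈ S, (μ s : ℂ) * (F.val ξ * arr M (g s) ξ) := by
      funext ξ
      unfold arr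
      simp only
      rw [Finset.mul_sum]
      apply Finset.sum_congr rfl
      intro s _
      ring
    rw [h2, extOp_sum S (f := fun s ξ => (μ s : ℂ) * (F.val ξ * arr M (g s) ξ))
      (fun s _ => (meas_Farr M F (g s)).const_mul _)
      (C := fun s => ‖(μ s : ℂ)‖ * (‖F.T‖ * ∑ b, ∑ z, ‖g s b z‖))
      (fun s _ ξ hξ => by
        rw [norm_mul]
        exact mul_le_mul_of_nonneg_left (bdd_Farr M F (g s) hξ) (norm_nonneg _)),
      Finset.sum_apply]
    apply Finset.sum_congr rfl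
    intro s _
    rw [extOp_const_mul, Pi.smul_apply, smul_eq_mul]
  unfold BPhi at hB ⊢
  rw [h1]
  refine (eLpNorm_sum_le (fun s _ =>
    ((sm_extOp (meas_Farr M F (g s))).const_smul (μ s : ℂ)).aestronglyMeasurable) hq1).trans ?_
  calc ∑ s ∈ S, eLpNorm ((μ s : ℂ) • extOp (m + 1) (fun ξ => F.val ξ * arr M (g s) ξ))
        (ENNReal.ofReal q) volume
      ≤ ∑ s ∈ S, ENNReal.ofReal (μ s) * B := by
        apply Finset.sum_le_sum
        intro s hs
        rw [eLpNorm_const_smul]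
        have : ‖(μ s : ℂ)‖ₑ = ENNReal.ofReal (μ s) := by
          rw [← ofReal_norm, Complex.norm_real, Real.norm_eq_abs, abs_of_nonneg (hμ s hs)]
        rw [this]
        gcongr
        exact hB s hs
    _ = B := by
        rw [← Finset.sum_mul, ← ENNReal.ofReal_sum_of_nonneg hμ, hμ1, ENNReal.ofReal_one, one_mul]

lemma volume_cell (k : Fin M) :
    volume (Icc (-1:ℝ) 1 ∩ cellIdx M ⁻¹' {k}) ≤ ENNReal.ofReal (2 / M) := by
  have h1 : volume (Icc (-1:ℝ) 1 ∩ cellIdx M ⁻¹' {k})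
      = volume (Ico (-1:ℝ) 1 ∩ cellIdx M ⁻¹' {k}) := by
    apply measure_congr
    exact (Ico_ae_eq_Icc (a := (-1:ℝ)) (b := 1)).symm.inter (ae_eq_refl _)
  rw [h1, cell_eq, Real.volume_Ico]
  apply le_of_eq
  congr 1
  ring

lemma volume_cell_comp (π : Fin M → Fin M) (z : Fin M) :
    volume (Icc (-1:ℝ) 1 ∩ (fun s => π (cellIdx M s)) ⁻¹' {z})
      ≤ ENNReal.ofReal (4 * nuW (fun _ => 1 / (M:ℝ)) π z) := by
  have hM := cast_M_pos M
  calc volume (Icc (-1:ℝ) 1 ∩ (fun s => π (cellIdx M s)) ⁻¹' {z})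
      ≤ volume (⋃ y ∈ (Finset.univ.filter fun y => π y = z),
          (Icc (-1:ℝ) 1 ∩ cellIdx M ⁻¹' {y})) := by
        apply measure_mono
        rintro s ⟨h1, h2⟩
        simp only [mem_iUnion]
        exact ⟨cellIdx M s, Finset.mem_filter.2 ⟨Finset.mem_univ _, h2⟩, h1, rfl⟩
    _ ≤ ∑ y ∈ (Finset.univ.filter fun y => π y = z),
          volume (Icc (-1:ℝ) 1 ∩ cellIdx M ⁻¹' {y}) := measure_biUnion_finset_le _ _
    _ ≤ ∑ y ∈ (Finset.univ.filter fun y => π y = z), ENNReal.ofReal (2 / M) :=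
        Finset.sum_le_sum fun y _ => volume_cell M y
    _ = ENNReal.ofReal (∑ y ∈ (Finset.univ.filter fun y => π y = z), 2 / (M:ℝ)) := by
        rw [ENNReal.ofReal_sum_of_nonneg]
        intro _ _
        positivity
    _ ≤ _ := by
        apply ENNReal.ofReal_le_ofReal
        unfold nuW
        rw [Finset.sum_filter]
        have h2 : ∑ y, (if π y = z then 2 / (M:ℝ) else 0)
            = 4 * ((∑ y, if π y = z then 1 / (M:ℝ) else 0) / 2) := by
          rw [Finset.sum_div, Finset.mul_sum]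
          apply Finset.sum_congr rfl
          intro y _
          split_ifs
          · ring
          · ring
        rw [h2, mul_add]
        apply le_add_of_nonneg_right
        split_ifs <;> positivity

/-- the block estimate in the form needed by the chain -/
lemma hblock_aux (F : HForm.{v} (m + 1)) (hF : ‖F.T‖ ≤ 1) {q : ℝ} (hq : 2 < q)
    (hQ : 4 < 2 + ((m + 1 : ℕ) : ℝ) * (q - 2)) (π : Fin m → Fin M → Fin M)
    (φ : Fin M → (Fin m → Fin M) → ℂ) (δ : ℝ) (hδ : 0 < δ)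
    (hrow : ∀ b, ∑ z, (∏ i, nuW (fun _ => 1 / (M:ℝ)) (π i) (z i)) * ‖φ b z‖ ^ 2 ≤ δ ^ 2)
    (hcol : ∀ j y, ∑ b : Fin M, 1 / (M:ℝ) * ∑ z, (∏ i, nuW (fun _ => 1 / (M:ℝ)) (π i) (z i)) *
        ‖φ b (Function.update z j y)‖ ^ 2 ≤ δ ^ 2) :
    BPhi M F q (fun b a => φ b (fun j => π j (a j)))
      ≤ Cblk m q * ENNReal.ofReal
        (δ * ∏ j, ((Finset.univ.image (π j)).card : ℝ) ^ ((q - 2) / (2 * q))) := by
  have hM := cast_M_pos M
  have hcard : ∀ j, 0 < (Finset.univ.image (π j)).card := fun j =>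
    Finset.card_pos.2 (Finset.univ_nonempty.image _)
  set D : BData m (Fin M) :=
    { a₀ := cellIdx M
      a := fun j s => π j (cellIdx M s)
      ma₀ := measurable_cellIdx M
      ma := fun j => measurable_from_top.comp (measurable_cellIdx M)
      c := φ
      β₀ := fun _ => 1 / M
      ν := fun j => nuW (fun _ => 1 / (M:ℝ)) (π j)
      N := fun j => ((Finset.univ.image (π j)).card : ℝ)
      δ := δ
      δ0 := hδ
      N0 := fun j => by exact_mod_cast hcard j
      β0 := fun _ => by positivity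
      ν0 := fun j y => nuW_nonneg (fun _ => by positivity) (π j) y
      ν1 := fun j => nuW_sum (by
        rw [Finset.sum_const, Finset.card_univ, Fintype.card_fin, nsmul_eq_mul]
        field_simp) (π j)
      hβ := fun y => by
        have := volume_cell M y
        rwa [show 2 * (1 / (M:ℝ)) = 2 / M by ring]
      h1 := fun j s _ => by
        unfold nuW
        have h3 : π j (cellIdx M s) ∈ Finset.univ.image (π j) :=
          Finset.mem_image_of_mem _ (Finset.mem_univ _)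
        rw [if_pos h3]
        have h4 : 0 ≤ ∑ y, (if π j y = π j (cellIdx M s) then 1 / (M:ℝ) else 0) :=
          Finset.sum_nonneg fun y _ => by split_ifs <;> positivity
        have h5 : 1 / (2 * ((Finset.univ.image (π j)).card : ℝ))
            = 1 / ((Finset.univ.image (π j)).card : ℝ) / 2 := by
          rw [div_div, mul_comm]
        rw [h5]
        linarith
      h2 := fun j y => volume_cell_comp M (π j) y
      row := fun s _ => hrow _
      col := hcol } with hD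
  exact block_bound D F hF hq hQ

end Pool.Agent.H.MP_b7167f_an
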