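import Mathlib
import Pool.Agent.H.MP_b7167f_an.EntDef
import Pool.Agent.H.MP_b7167f_an.EntPhi
import Pool.Agent.H.MP_b7167f_an.EntNet
import Pool.Agent.H.MP_b7167f_an.RoughTransfer

open MeasureTheory Set
open scoped ENNReal NNReal

namespace Pool.Agent.H.MP_b7167f_an

universe v

variable {m : ℕ}

/-- the grid point with given cell indices -/
noncomputable def gpt (M : ℕ) (θ : Fin (m + 1) → ℝ) (b : Fin M) (z : Fin m → Fin M) :
    Fin (m + 1) → ℝ :=
  Fin.cons (repPt M (θ 0) b) (fun j => repPt M (θ j.succ) (z j))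

lemma gpt_update (M : ℕ) (θ : Fin (m + 1) → ℝ) (b : Fin M) (z : Fin m → Fin M) (j : Fin m)
    (y : Fin M) : gpt M θ b (Function.update z j y)
      = Function.update (gpt M θ b z) j.succ (repPt M (θ j.succ) y) := by
  unfold gpt
  rw [← Fin.cons_update]
  congr 1
  funext i
  by_cases hi : i = j
  · subst hi; simp
  · rw [Function.update_of_ne hi, Function.update_of_ne hi]

lemma gpt_mem {M : ℕ} [NeZero M] {θ : Fin (m + 1) → ℝ} (hθ : ∀ i, θ i ∈ Ico (0:ℝ) 1) (b : Fin M)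
    (z : Fin m → Fin M) : gpt M θ b z ∈ cube (m + 1) := by
  rw [mem_cube]
  intro i
  refine Fin.cases ?_ (fun j => ?_) i
  · unfold gpt
    rw [Fin.cons_zero]
    exact Ico_subset_Icc_self (repPt_mem M (hθ 0) b)
  · unfold gpt
    rw [Fin.cons_succ]
    exact Ico_subset_Icc_self (repPt_mem M (hθ j.succ) (z j))

lemma norm_sub_sq_le {E : Type*} [SeminormedAddCommGroup E] (a b c : E) :
    ‖a - c‖ ^ 2 ≤ 2 * ‖a - b‖ ^ 2 + 2 * ‖b - c‖ ^ 2 := by
  have h1 : ‖a - c‖ ≤ ‖a - b‖ + ‖b - c‖ := norm_sub_le_norm_sub_add_norm_sub a b c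
  have h2 : ‖a - c‖ ^ 2 ≤ (‖a - b‖ + ‖b - c‖) ^ 2 := by gcongr
  nlinarith [sq_nonneg (‖a - b‖ - ‖b - c‖)]

/-- the partition hypothesis of the chain, from the packing hypothesis -/
lemma hent_aux {f : (Fin (m + 1) → ℝ) → ℂ} {j : Fin m} {p K : ℝ}
    (hf : SectionPacking (m + 1) f j.succ p K) {p' K' : ℝ} (hpp' : p ≤ p')
    (hKK' : max K 0 * 2 ^ p ≤ K') {M : ℕ} [NeZero M] {θ : Fin (m + 1) → ℝ}
    (hθ : ∀ i, θ i ∈ Ico (0:ℝ) 1) (w : Fin M → (Fin m → Fin M) → ℝ) (hw : ∀ b z, 0 ≤ w b z)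
    (hw1 : ∑ b, ∑ z, w b z = 1) (ε : ℝ) (hε : 0 < ε) (hε1 : ε ≤ 1) :
    ∃ κ : Fin M → ℕ, (∀ y, (κ y : ℝ) + 1 ≤ K' * ε ^ (-p')) ∧
      ∀ y y', κ y = κ y' → ∑ b, ∑ z, w b z *
        ‖f (gpt M θ b (Function.update z j y)) - f (gpt M θ b (Function.update z j y'))‖ ^ 2
          ≤ ε ^ 2 := by
  classical
  set D : Fin M → Fin M → ℝ := fun y y' => ∑ b, ∑ z, w b z *
    ‖f (gpt M θ b (Function.update z j y)) - f (gpt M θ b (Function.update z j y'))‖ ^ 2 with hD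
  have hD0 : ∀ y, D y y = 0 := by
    intro y; simp [hD]
  have hsymm : ∀ y y', D y y' = D y' y := by
    intro y y'
    simp only [hD]
    simp_rw [norm_sub_rev (f (gpt M θ _ (Function.update _ j y)))]
  have htri : ∀ a b c, D a c ≤ 2 * D a b + 2 * D b c := by
    intro a b c
    simp only [hD]
    rw [Finset.mul_sum, Finset.mul_sum, ← Finset.sum_add_distrib]
    apply Finset.sum_le_sum
    intro x _
    rw [Finset.mul_sum, Finset.mul_sum, ← Finset.sum_add_distrib]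
    apply Finset.sum_le_sum
    intro z _
    have := norm_sub_sq_le (f (gpt M θ x (Function.update z j a)))
      (f (gpt M θ x (Function.update z j b))) (f (gpt M θ x (Function.update z j c)))
    nlinarith [hw x z, mul_le_mul_of_nonneg_left this (hw x z)]
  obtain ⟨S, κ, hS, hκ, hcl⟩ := exists_net D hD0 hsymm (r := (ε / 2) ^ 2) (by positivity)
  -- the cardinality of `S`
  have hcard : (S.card : ℝ) ≤ K * (ε / 2) ^ (-p) := by
    set e := Fintype.equivFin (Fin M × (Fin m → Fin M)) with he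
    apply hf (Fintype.card (Fin M × (Fin m → Fin M)))
      (fun i => gpt M θ (e.symm i).1 (e.symm i).2) (fun i => w (e.symm i).1 (e.symm i).2)
      (fun i => gpt_mem hθ _ _) (fun i => hw _ _) _ (ε / 2) (by positivity) (by linarith) S.card
      (fun a => repPt M (θ j.succ) (S.equivFin.symm a))
      (fun a => Ico_subset_Icc_self (repPt_mem M (hθ j.succ) _))
    · intro a b hab
      have h1 : ((S.equivFin.symm a : S) : Fin M) ≠ (S.equivFin.symm b : S) := by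
        intro h
        exact hab (S.equivFin.symm.injective (Subtype.ext h))
      have h2 := hS _ (S.equivFin.symm a).2 _ (S.equivFin.symm b).2 h1
      refine lt_of_lt_of_eq h2 ?_
      simp only [hD]
      rw [← Fintype.sum_prod_type' (f := fun x z => w x z *
        ‖f (gpt M θ x (Function.update z j (S.equivFin.symm a : S))) -
          f (gpt M θ x (Function.update z j (S.equivFin.symm b : S)))‖ ^ 2), ← e.symm.sum_comp]
      apply Finset.sum_congr rfl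
      intro i _
      rw [gpt_update, gpt_update]
    · rw [e.symm.sum_comp (fun x => w x.1 x.2), Fintype.sum_prod_type]
      exact hw1
  refine ⟨κ, ?_, ?_⟩
  · intro y
    have h1 : (κ y : ℝ) + 1 ≤ S.card := by exact_mod_cast hκ y
    refine h1.trans (hcard.trans ?_)
    have h2 : (ε / 2) ^ (-p) = 2 ^ p * ε ^ (-p) := by
      rw [Real.div_rpow hε.le (by norm_num), Real.rpow_neg (by norm_num : (0:ℝ) ≤ 2), div_eq_mul_inv,
        inv_inv, mul_comm]
    rw [h2]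
    have h3 : ε ^ (-p) ≤ ε ^ (-p') := Real.rpow_le_rpow_of_exponent_ge hε hε1 (by linarith)
    have h4 : 0 < ε ^ (-p) := by positivity
    have h5 : (0:ℝ) < 2 ^ p := by positivity
    calc K * (2 ^ p * ε ^ (-p)) ≤ max K 0 * (2 ^ p * ε ^ (-p)) := by
          apply mul_le_mul_of_nonneg_right (le_max_left _ _) (by positivity)
      _ = (max K 0 * 2 ^ p) * ε ^ (-p) := by ring
      _ ≤ K' * ε ^ (-p') := by
          apply mul_le_mul hKK' h3 h4.le
          exact le_trans (mul_nonneg (le_max_right _ _) h5.le) hKK'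
  · intro y y' hyy'
    obtain ⟨s, hs1, hs2⟩ := hcl y y' hyy'
    calc D y y' ≤ 2 * D y s + 2 * D s y' := htri _ _ _
      _ ≤ 2 * (ε / 2) ^ 2 + 2 * (ε / 2) ^ 2 := by gcongr
      _ = ε ^ 2 := by ring

/-- the estimate for exponents close to the critical one and forms of norm at most `1` -/
lemma ent_step {p p' : Fin m → ℝ} (hp : ∀ j, 0 ≤ p j) (hpp' : ∀ j, p j < p' j) {K K' : ℝ}
    (hK1 : 1 ≤ K') (hKK' : ∀ j, max K 0 * 2 ^ (p j) ≤ K') {q : ℝ} (hq : 2 < q)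
    (hQ : 4 < 2 + ((m + 1 : ℕ) : ℝ) * (q - 2)) (hsum : (q - 2) / (2 * q) * ∑ j, p' j < 1)
    {f : (Fin (m + 1) → ℝ) → ℂ} (hf : Measurable f) (hf1 : ∀ ξ ∈ cube (m + 1), ‖f ξ‖ ≤ 1)
    (hfp : ∀ j : Fin m, SectionPacking (m + 1) f j.succ (p j) K) (F : HForm.{v} (m + 1))
    (hF : ‖F.T‖ ≤ 1) :
    eLpNorm (extOp (m + 1) (fun ξ => F.val ξ * f ξ)) (ENNReal.ofReal q) volume
      ≤ Cblk m q * ENNReal.ofReal (K' ^ ((q - 2) / (2 * q) * m) *
        (1 + m * (2 : ℝ) ^ (1 + (q - 2) / (2 * q) * ∑ j, p' j) /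
          (1 - (2 : ℝ) ^ ((q - 2) / (2 * q) * ∑ j, p' j - 1)))) := by
  apply grid_lim hf hf1 F.measurable_val (fun ξ hξ => F.norm_val_le hξ) (by linarith : 1 ≤ q)
  intro M _ θ hθ
  have hM := cast_M_pos M
  have h1 : (fun ξ => F.val ξ * f (fun i => repPt M (θ i) (cellIdx M (ξ i))))
      = fun ξ => F.val ξ * arr M (fun b z => f (gpt M θ b z)) ξ := by
    funext ξ
    unfold arr gpt
    congr 2
    funext i
    refine Fin.cases ?_ (fun j => ?_) i
    · rw [Fin.cons_zero]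
    · rw [Fin.cons_succ]
  rw [h1]
  have hγ : 0 ≤ (q - 2) / (2 * q) := div_nonneg (by linarith) (by linarith)
  have hMs : ∑ _y : Fin M, 1 / (M:ℝ) = 1 := by
    rw [Finset.sum_const, Finset.card_univ, Fintype.card_fin, nsmul_eq_mul]
    field_simp
  exact chain (Y := Fin M) (β₀ := fun _ => 1 / M) (fun _ => by positivity) hMs
    (β := fun _ _ => 1 / M) (fun _ _ => by positivity) (fun _ => hMs)
    (c := fun b z => f (gpt M θ b z)) (fun b z => hf1 _ (gpt_mem hθ b z))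
    (p := p') (fun j => lt_of_le_of_lt (hp j) (hpp' j)) hK1
    (fun j w hw hw1 ε hε hε1 => hent_aux (hfp j) (hpp' j).le (hKK' j) hθ w hw hw1 ε hε hε1)
    (Φ := BPhi M F q) (BPhi_add M F (by linarith))
    (fun S μ g B hμ hμ1 hB => BPhi_sum M F (by linarith) S μ g B hμ hμ1 hB)
    hγ (fun π φ δ hδ hrow hcol => hblock_aux M F hF hq hQ π φ δ hδ hrow hcol) hsum

lemma exists_q {n : ℝ} (hn : 1 ≤ n) {S q : ℝ} (hS : S < 2 * (n + 1))
    (hq : 2 * (n + 1) / n < q) :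
    ∃ r, 2 < r ∧ r ≤ q ∧ 2 * (n + 1) / n < r ∧ (r - 2) / (2 * r) * S < 1 := by
  have hn0 : 0 < n := by linarith
  have h2 : 2 < 2 * (n + 1) / n := by
    rw [lt_div_iff₀ hn0]; linarith
  rcases le_or_gt S 2 with h | h
  · refine ⟨q, by linarith, le_rfl, hq, ?_⟩
    have hq0 : 0 < q := by linarith
    rw [div_mul_eq_mul_div, div_lt_one (by positivity)]
    nlinarith
  · have h3 : 2 * (n + 1) / n < 2 * S / (S - 2) := by
      rw [div_lt_div_iff₀ hn0 (by linarith)]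
      nlinarith
    obtain ⟨r, hr1, hr2⟩ := exists_between (lt_min hq h3)
    have hr3 : r < q := hr2.trans_le (min_le_left _ _)
    have hr4 : r < 2 * S / (S - 2) := hr2.trans_le (min_le_right _ _)
    rw [lt_div_iff₀ (by linarith)] at hr4
    refine ⟨r, by linarith, hr3.le, hr1, ?_⟩
    rw [div_mul_eq_mul_div, div_lt_one (by linarith)]
    nlinarith

theorem ent_main (m : ℕ) {p : Fin m → ℝ} (hp : ∀ j, 0 ≤ p j)
    (hsum : ∑ j, p j < 2 * ((m : ℝ) + 2)) (K : ℝ) {q : ℝ}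
    (hq : 2 * ((m : ℝ) + 2) / (m + 1) < q) :
    ∃ C : ℝ≥0, ∀ f : (Fin (m + 1) → ℝ) → ℂ, Measurable f → (∀ ξ ∈ cube (m + 1), ‖f ξ‖ ≤ 1) →
      (∀ j : Fin m, SectionPacking (m + 1) f j.succ (p j) K) → ∀ F : HForm.{v} (m + 1),
      eLpNorm (extOp (m + 1) (fun ξ => F.val ξ * f ξ)) (ENNReal.ofReal q) volume
        ≤ C * ‖F.T‖ₑ := by
  have hm1 : (1:ℝ) ≤ (m:ℝ) + 1 := by
    have : (0:ℝ) ≤ m := Nat.cast_nonneg m
    linarith
  -- exponents
  obtain ⟨η, hη0, hη⟩ : ∃ η : ℝ, 0 < η ∧ ∑ j, (p j + η) < 2 * (((m:ℝ) + 1) + 1) := by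
    refine ⟨(2 * ((m : ℝ) + 2) - ∑ j, p j) / (m + 1), by
      apply div_pos <;> linarith, ?_⟩
    rw [Finset.sum_add_distrib, Finset.sum_const, Finset.card_univ, Fintype.card_fin,
      nsmul_eq_mul]
    set x := 2 * ((m : ℝ) + 2) - ∑ j, p j with hx
    have hx0 : 0 < x := by rw [hx]; linarith
    have h1 : (m:ℝ) * (x / (m + 1)) < x := by
      rw [mul_div_assoc', div_lt_iff₀ (by linarith)]
      nlinarith
    linarith
  have hq' : 2 * (((m:ℝ) + 1) + 1) / (m + 1) < q := by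
    refine lt_of_eq_of_lt ?_ hq
    congr 1
    ring
  obtain ⟨r, hr2, hrq, hrc, hrs⟩ := exists_q hm1 hη hq'
  have hr0 : 0 < r := by linarith
  have hq0 : 0 < q := by linarith
  have hQ : 4 < 2 + ((m + 1 : ℕ) : ℝ) * (r - 2) := by
    push_cast
    rw [div_lt_iff₀ (by linarith)] at hrc
    linarith
  set P : ℝ := ∑ j, p j with hP
  have hpP : ∀ j, p j ≤ P := fun j =>
    Finset.single_le_sum (f := p) (fun i _ => hp i) (Finset.mem_univ j)
  set K' : ℝ := max 1 (max K 0 * 2 ^ P) with hK'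
  set C₀ : ℝ≥0∞ := Cblk m r * ENNReal.ofReal (K' ^ ((r - 2) / (2 * r) * m) *
        (1 + m * (2 : ℝ) ^ (1 + (r - 2) / (2 * r) * ∑ j, (p j + η)) /
          (1 - (2 : ℝ) ^ ((r - 2) / (2 * r) * ∑ j, (p j + η) - 1)))) with hC₀
  have hC₀t : C₀ ≠ ∞ := ENNReal.mul_ne_top (Cblk_ne_top hr2 hQ) ENNReal.ofReal_ne_top
  set C₁ : ℝ≥0∞ := ((2:ℝ≥0∞) ^ (m + 1)) ^ (1 - r / q) * C₀ ^ (r / q) with hC₁
  have hrq1 : 0 ≤ 1 - r / q := by
    have : r / q ≤ 1 := by rw [div_le_one hq0]; exact hrq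
    linarith
  have hC₁t : C₁ ≠ ∞ := by
    rw [hC₁]
    apply ENNReal.mul_ne_top
    · exact ENNReal.rpow_ne_top_of_nonneg hrq1 (ENNReal.pow_ne_top (by norm_num))
    · exact ENNReal.rpow_ne_top_of_nonneg (by positivity) hC₀t
  refine ⟨C₁.toNNReal, ?_⟩
  rw [ENNReal.coe_toNNReal hC₁t]
  intro f hf hf1 hfp
  -- normalized forms
  have hnorm : ∀ F : HForm.{v} (m + 1), ‖F.T‖ ≤ 1 →
      eLpNorm (extOp (m + 1) (fun ξ => F.val ξ * f ξ)) (ENNReal.ofReal q) volume ≤ C₁ := by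
    intro F hF
    have h1 := ent_step hp (p' := fun j => p j + η) (fun j => by linarith) (K := K) (K' := K')
      (le_max_left _ _) (fun j => by
        refine le_trans ?_ (le_max_right _ _)
        apply mul_le_mul_of_nonneg_left _ (le_max_right _ _)
        exact Real.rpow_le_rpow_of_exponent_le (by norm_num) (hpP j))
      hr2 hQ hrs hf hf1 hfp F hF
    have h2 : ∀ p, ‖extOp (m + 1) (fun ξ => F.val ξ * f ξ) p‖ₑ ≤ (2:ℝ≥0∞) ^ (m + 1) := by
      intro p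
      have := enorm_extOp_le (f := fun ξ => F.val ξ * f ξ) (C := 1) (fun ξ hξ => by
        rw [norm_mul]
        exact mul_le_one₀ ((F.norm_val_le hξ).trans hF) (norm_nonneg _) (hf1 ξ hξ)) p
      simpa using this
    refine (eLpNorm_le_of_sup hr0 hrq (ENNReal.pow_ne_top (by norm_num)) h2).trans ?_
    rw [hC₁]
    gcongr
  intro F
  rcases eq_or_ne ‖F.T‖ 0 with h0 | h0
  · have h1 : (fun ξ => F.val ξ * f ξ) = fun _ => 0 := by
      funext ξ
      have : F.T = 0 := norm_eq_zero.1 h0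
      unfold HForm.val
      rw [this]
      simp
    have h2 : extOp (m + 1) (fun ξ => F.val ξ * f ξ) = fun _ => 0 := by
      rw [h1]
      funext p
      unfold extOp
      simp
    rw [h2]
    simp
  · have hpos : 0 < ‖F.T‖ := lt_of_le_of_ne (norm_nonneg _) (Ne.symm h0)
    set F' : HForm.{v} (m + 1) := ⟨F.H, ((‖F.T‖⁻¹ : ℝ) : ℂ) • F.T, F.u, F.sm, F.bd⟩ with hF'
    have hT' : ‖F'.T‖ ≤ 1 := by
      change ‖((‖F.T‖⁻¹ : ℝ) : ℂ) • F.T‖ ≤ 1
      rw [norm_smul, Complex.norm_real, Real.norm_eq_abs, abs_of_pos (inv_pos.2 hpos),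
        inv_mul_cancel₀ h0]
    have h1 : (fun ξ => F.val ξ * f ξ) = fun ξ => ((‖F.T‖ : ℝ) : ℂ) * (F'.val ξ * f ξ) := by
      funext ξ
      have : F'.val ξ = ((‖F.T‖⁻¹ : ℝ) : ℂ) * F.val ξ := rfl
      rw [this]
      have h0' : ((‖F.T‖ : ℝ) : ℂ) ≠ 0 := by exact_mod_cast h0
      push_cast
      field_simp
    have h2 : extOp (m + 1) (fun ξ => F.val ξ * f ξ)
        = ((‖F.T‖ : ℝ) : ℂ) • extOp (m + 1) (fun ξ => F'.val ξ * f ξ) := by
      rw [h1]
      funext p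
      rw [extOp_const_mul, Pi.smul_apply, smul_eq_mul]
    rw [h2, eLpNorm_const_smul, mul_comm]
    have h3 : ‖((‖F.T‖ : ℝ) : ℂ)‖ₑ = ‖F.T‖ₑ := by
      rw [← ofReal_norm, ← ofReal_norm, Complex.norm_real, Real.norm_eq_abs, abs_of_pos hpos]
    rw [h3]
    gcongr
    exact hnorm F' hT'

end Pool.Agent.H.MP_b7167f_an
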