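import Mathlib
import Pool.Agent.H.MP_b7167f_an.EntDef

open Finset

namespace Pool.Agent.H.MP_b7167f_an

/-- The sections of `A` in the `j`-th variable form a class of Vapnik–Chervonenkis dimension at
most `v`: no `v + 1` points `z i` of the cube `[-1,1]^n` are shattered by the sections
`{z | (z with j-th coordinate replaced by s) ∈ A}`, `s ∈ [-1,1]`. -/
def SectionVC (n : ℕ) (A : Set (Fin n → ℝ)) (j : Fin n) (v : ℕ) : Prop :=
  ∀ z : Fin (v + 1) → Fin n → ℝ,
    (∀ i, z i ∈ Set.Icc (fun _ : Fin n => (-1 : ℝ)) (fun _ : Fin n => (1 : ℝ))) →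
    ∃ T : Set (Fin (v + 1)), ∀ s ∈ Set.Icc (-1 : ℝ) 1, {i | Function.update (z i) j s ∈ A} ≠ T

/-- random sampling separates finitely many sets -/
lemma exists_sample {N L k : ℕ} {w : Fin N → ℝ} (hw : ∀ i, 0 ≤ w i) (hw1 : ∑ i, w i = 1)
    (S : Fin L → Fin N → Bool) {δ : ℝ} (hδ1 : δ ≤ 1)
    (hsep : ∀ a b, a ≠ b → (∑ i, if S a i = S b i then w i else 0) ≤ 1 - δ)
    (hk : (L : ℝ) ^ 2 * (1 - δ) ^ k < 1) :
    ∃ x : Fin k → Fin N, ∀ a b, a ≠ b → ∃ l, S a (x l) ≠ S b (x l) := by
  classical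
  by_contra hcon
  push Not at hcon
  have h1 : ∑ x : Fin k → Fin N, ∏ l, w (x l) = 1 := by
    rw [← Fintype.prod_sum (fun (_ : Fin k) i => w i), hw1]
    simp
  have h2 : ∀ a b, a ≠ b → ∑ x : Fin k → Fin N, ∏ l, (if S a (x l) = S b (x l) then w (x l) else 0)
      ≤ (1 - δ) ^ k := by
    intro a b hab
    rw [← Fintype.prod_sum (fun (_ : Fin k) i => if S a i = S b i then w i else 0),
      Finset.prod_const, Finset.card_univ, Fintype.card_fin]
    exact pow_le_pow_left₀ (Finset.sum_nonneg fun i _ => by split_ifs; exacts [hw i, le_rfl])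
      (hsep a b hab) k
  have hw0 : ∀ x : Fin k → Fin N, 0 ≤ ∏ l, w (x l) := fun x => Finset.prod_nonneg fun l _ => hw _
  have hterm0 : ∀ a b (x : Fin k → Fin N),
      0 ≤ ∏ l, (if S a (x l) = S b (x l) then w (x l) else 0) := fun a b x =>
    Finset.prod_nonneg fun l _ => by split_ifs; exacts [hw _, le_rfl]
  have h3 : ∀ x : Fin k → Fin N, ∏ l, w (x l) ≤ ∑ a : Fin L, ∑ b : Fin L,
      (if a ≠ b then ∏ l, (if S a (x l) = S b (x l) then w (x l) else 0) else 0) := by
    intro x
    obtain ⟨a, b, hab, h⟩ := hcon x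
    have h4 : ∏ l, w (x l) = (if a ≠ b then
        ∏ l, (if S a (x l) = S b (x l) then w (x l) else 0) else 0) := by
      rw [if_pos hab]
      apply Finset.prod_congr rfl
      intro l _
      rw [if_pos (h l)]
    rw [h4]
    calc _ ≤ ∑ b' : Fin L, (if a ≠ b' then
          ∏ l, (if S a (x l) = S b' (x l) then w (x l) else 0) else 0) := by
          apply Finset.single_le_sum (f := fun b' : Fin L => (if a ≠ b' then
            ∏ l, (if S a (x l) = S b' (x l) then w (x l) else 0) else 0)) _ (Finset.mem_univ b)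
          intro b' _
          split_ifs
          · exact hterm0 a b' x
          · exact le_rfl
      _ ≤ _ := by
          apply Finset.single_le_sum (f := fun a' : Fin L => ∑ b' : Fin L, (if a' ≠ b' then
            ∏ l, (if S a' (x l) = S b' (x l) then w (x l) else 0) else 0)) _ (Finset.mem_univ a)
          intro a' _
          apply Finset.sum_nonneg
          intro b' _
          split_ifs
          · exact hterm0 a' b' x
          · exact le_rfl
  have h5 : (1:ℝ) ≤ (L : ℝ) ^ 2 * (1 - δ) ^ k := by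
    calc (1:ℝ) = ∑ x : Fin k → Fin N, ∏ l, w (x l) := h1.symm
      _ ≤ ∑ x : Fin k → Fin N, ∑ a : Fin L, ∑ b : Fin L,
        (if a ≠ b then ∏ l, (if S a (x l) = S b (x l) then w (x l) else 0) else 0) :=
          Finset.sum_le_sum fun x _ => h3 x
      _ = ∑ a : Fin L, ∑ b : Fin L, ∑ x : Fin k → Fin N,
        (if a ≠ b then ∏ l, (if S a (x l) = S b (x l) then w (x l) else 0) else 0) := by
          rw [Finset.sum_comm]
          apply Finset.sum_congr rfl
          intro a _
          rw [Finset.sum_comm]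
      _ ≤ ∑ a : Fin L, ∑ b : Fin L, (1 - δ) ^ k := by
          apply Finset.sum_le_sum
          intro a _
          apply Finset.sum_le_sum
          intro b _
          by_cases hab : a = b
          · simp only [hab, ne_eq, not_true_eq_false, if_false, Finset.sum_const_zero]
            exact pow_nonneg (by linarith) k
          · simp only [hab, ne_eq, not_false_eq_true, if_true]
            exact h2 a b hab
      _ = _ := by
          rw [Finset.sum_const, Finset.sum_const, Finset.card_univ, Fintype.card_fin]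
          simp only [nsmul_eq_mul]
          ring
  linarith

/-- distinct traces on `k` points, no `v + 1` of which are shattered -/
lemma sauer {L k v : ℕ} (S : Fin L → Fin k → Bool)
    (hinj : ∀ a b, a ≠ b → ∃ l, S a l ≠ S b l)
    (hsh : ∀ t : Fin (v + 1) → Fin k, ∃ T : Set (Fin (v + 1)), ∀ a, {i | S a (t i) = true} ≠ T) :
    L ≤ (k + 1) ^ v := by
  classical
  set tr : Fin L → Finset (Fin k) := fun a => univ.filter (fun l => S a l = true) with htr
  have htr_inj : Function.Injective tr := by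
    intro a b hab
    by_contra hne
    obtain ⟨l, hl⟩ := hinj a b hne
    apply hl
    have h1 : (S a l = true) ↔ (S b l = true) := by
      have := congrArg (fun X => l ∈ X) hab
      simpa [htr] using this
    exact Bool.eq_iff_iff.2 h1
  set 𝒜 : Finset (Finset (Fin k)) := univ.image tr with h𝒜
  have hcard : 𝒜.card = L := by
    rw [h𝒜, Finset.card_image_of_injective _ htr_inj, Finset.card_univ, Fintype.card_fin]
  have hvc : 𝒜.vcDim ≤ v := by
    by_contra hcon
    push Not at hcon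
    unfold Finset.vcDim at hcon
    obtain ⟨B, hB, hBv⟩ := (Finset.lt_sup_iff).1 hcon
    rw [Finset.mem_shatterer] at hB
    obtain ⟨B', hB'B, hB'c⟩ := Finset.exists_subset_card_eq (Nat.succ_le_of_lt hBv)
    have hB' : 𝒜.Shatters B' := hB.mono_right hB'B
    set e : B' ≃ Fin (v + 1) := B'.equivFinOfCardEq hB'c with he
    obtain ⟨T, hT⟩ := hsh (fun i => (e.symm i : Fin k))
    -- the subset of `B'` corresponding to `T`
    have hsub : (B'.attach.filter (fun x => e x ∈ T)).image (fun x : B' => (x : Fin k)) ⊆ B' := by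
      intro l hl
      rw [Finset.mem_image] at hl
      obtain ⟨x, _, rfl⟩ := hl
      exact x.2
    obtain ⟨u, hu, huB⟩ := hB' hsub
    rw [h𝒜, Finset.mem_image] at hu
    obtain ⟨a, _, rfl⟩ := hu
    apply hT a
    ext i
    have h1 : ((e.symm i : B') : Fin k) ∈ B' ∩ tr a ↔ i ∈ T := by
      rw [huB, Finset.mem_image]
      constructor
      · rintro ⟨x, hx, hxe⟩
        rw [Finset.mem_filter] at hx
        have : x = e.symm i := Subtype.ext hxe
        rw [this] at hx
        simpa using hx.2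
      · intro hi
        refine ⟨e.symm i, ?_, rfl⟩
        rw [Finset.mem_filter]
        exact ⟨Finset.mem_attach _ _, by simpa using hi⟩
    rw [← h1, Finset.mem_inter]
    simp [htr]
  have h1 := (Finset.card_le_card_shatterer 𝒜).trans Finset.card_shatterer_le_sum_vcDim
  rw [hcard, Fintype.card_fin] at h1
  calc L ≤ ∑ i ∈ Finset.Iic 𝒜.vcDim, k.choose i := h1
    _ ≤ ∑ i ∈ Finset.Iic v, k.choose i := by
        apply Finset.sum_le_sum_of_subset
        intro i hi
        rw [Finset.mem_Iic] at hi ⊢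
        exact hi.trans hvc
    _ = ∑ i ∈ Finset.range (v + 1), k.choose i := by
        apply Finset.sum_congr _ (fun _ _ => rfl)
        ext i
        simp
    _ ≤ ∑ i ∈ Finset.range (v + 1), k ^ i * 1 ^ (v - i) * v.choose i := by
        apply Finset.sum_le_sum
        intro i hi
        rw [Finset.mem_range] at hi
        have h2 : k.choose i ≤ k ^ i := Nat.choose_le_pow k i
        have h3 : 1 ≤ v.choose i := Nat.choose_pos (by omega)
        rw [one_pow, mul_one]
        calc k.choose i ≤ k ^ i * 1 := by rw [mul_one]; exact h2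
          _ ≤ _ := Nat.mul_le_mul_left _ h3
    _ = (k + 1) ^ v := (add_pow k 1 v).symm

/-- the numerical part -/
lemma vc_count {L v : ℕ} (hv : 1 ≤ v) {p ε : ℝ} (hp : 2 * (v:ℝ) < p) (hε : 0 < ε) (hε1 : ε ≤ 1)
    (hL : 1 ≤ L) (h : ∀ k : ℕ, (L : ℝ) ^ 2 * (1 - ε ^ 2) ^ k < 1 → L ≤ (k + 1) ^ v) :
    (L : ℝ) ≤ (2 / (1 / (v:ℝ) - 2 / p) + 3) ^ (p / 2) * ε ^ (-p) := by
  have hv0 : (0:ℝ) < v := by exact_mod_cast hv
  have hp0 : 0 < p := by linarith
  have hL1 : (1:ℝ) ≤ L := by exact_mod_cast hL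
  have hL0 : (0:ℝ) < L := by linarith
  set τ : ℝ := 1 / (v:ℝ) - 2 / p with hτ
  have hτ0 : 0 < τ := by
    rw [hτ, sub_pos, div_lt_div_iff₀ hp0 hv0]
    linarith
  have hlog : 0 ≤ Real.log L := Real.log_nonneg hL1
  set k : ℕ := ⌊2 * Real.log L / ε ^ 2⌋₊ + 1 with hk
  have hk1 : 2 * Real.log L / ε ^ 2 < k := by
    rw [hk]; push_cast; exact Nat.lt_floor_add_one _
  have hk2 : (k:ℝ) ≤ 2 * Real.log L / ε ^ 2 + 1 := by
    rw [hk]; push_cast
    have := Nat.floor_le (a := 2 * Real.log L / ε ^ 2) (by positivity)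
    linarith
  have h1 : (L : ℝ) ^ 2 * (1 - ε ^ 2) ^ k < 1 := by
    have h2 : (1 - ε ^ 2) ^ k ≤ Real.exp (-(ε ^ 2 * k)) := by
      calc (1 - ε ^ 2) ^ k ≤ (Real.exp (-(ε ^ 2))) ^ k := by
            apply pow_le_pow_left₀
            · nlinarith
            · have := Real.add_one_le_exp (-(ε ^ 2))
              linarith
        _ = Real.exp (-(ε ^ 2 * k)) := by
            rw [← Real.exp_nat_mul]
            congr 1
            ring
    have h3 : (L:ℝ) ^ 2 = Real.exp (2 * Real.log L) := by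
      rw [mul_comm, Real.exp_mul, Real.exp_log hL0]
      norm_cast
    calc (L : ℝ) ^ 2 * (1 - ε ^ 2) ^ k ≤ Real.exp (2 * Real.log L) * Real.exp (-(ε ^ 2 * k)) := by
          rw [← h3]
          exact mul_le_mul_of_nonneg_left h2 (by positivity)
      _ = Real.exp (2 * Real.log L - ε ^ 2 * k) := by rw [← Real.exp_add]; congr 1
      _ < 1 := by
          rw [Real.exp_lt_one_iff]
          rw [div_lt_iff₀ (by positivity)] at hk1
          linarith
  have h4 : (L:ℝ) ≤ ((k:ℝ) + 1) ^ v := by exact_mod_cast h k h1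
  have hLτ : Real.log L ≤ (L:ℝ) ^ τ / τ := Real.log_le_rpow_div hL0.le hτ0
  have hLτ1 : 1 ≤ (L:ℝ) ^ τ := Real.one_le_rpow hL1 hτ0.le
  have hε2 : 0 < ε ^ 2 := by positivity
  have hε21 : ε ^ 2 ≤ 1 := pow_le_one₀ hε.le hε1
  set c : ℝ := 2 / τ + 3 with hc
  have hc0 : 0 < c := by positivity
  have h5 : (k:ℝ) + 1 ≤ c * (L:ℝ) ^ τ / ε ^ 2 := by
    rw [le_div_iff₀ hε2]
    calc ((k:ℝ) + 1) * ε ^ 2 ≤ (2 * Real.log L / ε ^ 2 + 1 + 1) * ε ^ 2 := by gcongr
      _ = 2 * Real.log L + 2 * ε ^ 2 := by field_simp; ring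
      _ ≤ 2 * ((L:ℝ) ^ τ / τ) + 3 * (L:ℝ) ^ τ := by linarith
      _ = c * (L:ℝ) ^ τ := by rw [hc]; ring
  have h6 : (L:ℝ) ≤ (c * (L:ℝ) ^ τ / ε ^ 2) ^ v :=
    h4.trans (pow_le_pow_left₀ (by positivity) h5 v)
  -- solve for `L`
  have h7 : (L:ℝ) ^ (1 - τ * v) ≤ (c / ε ^ 2) ^ v := by
    have h8 : (c * (L:ℝ) ^ τ / ε ^ 2) ^ v = (c / ε ^ 2) ^ v * (L:ℝ) ^ (τ * v) := by
      rw [mul_div_right_comm, mul_pow, Real.rpow_mul hL0.le, Real.rpow_natCast]
    rw [h8] at h6
    rw [Real.rpow_sub hL0, Real.rpow_one, div_le_iff₀ (by positivity)]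
    exact h6
  have h9 : 1 - τ * v = 2 * v / p := by
    rw [hτ]; field_simp; ring
  rw [h9] at h7
  have h10 : (L:ℝ) = ((L:ℝ) ^ (2 * v / p)) ^ (p / (2 * v)) := by
    rw [← Real.rpow_mul hL0.le]
    rw [show 2 * (v:ℝ) / p * (p / (2 * v)) = 1 by field_simp, Real.rpow_one]
  calc (L:ℝ) = ((L:ℝ) ^ (2 * v / p)) ^ (p / (2 * v)) := h10
    _ ≤ ((c / ε ^ 2) ^ v) ^ (p / (2 * v)) := Real.rpow_le_rpow (by positivity) h7 (by positivity)
    _ = c ^ (p / 2) * ε ^ (-p) := by
        rw [← Real.rpow_natCast (c / ε ^ 2) v, ← Real.rpow_mul (by positivity),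
          show (v:ℝ) * (p / (2 * v)) = p / 2 by field_simp, Real.div_rpow hc0.le hε2.le,
          Real.rpow_neg hε.le, div_eq_mul_inv]
        congr 2
        rw [← Real.rpow_natCast ε 2, ← Real.rpow_mul hε.le]
        congr 1
        push_cast
        ring

lemma packing_of_vc {v : ℕ} {p : ℝ} (hp : 2 * (v:ℝ) < p) :
    ∃ K : ℝ, ∀ (n : ℕ) (A : Set (Fin n → ℝ)) (j : Fin n), SectionVC n A j v →
      SectionPacking n (A.indicator (fun _ => (1:ℂ))) j p K := by
  classical
  refine ⟨max 1 ((2 / (1 / (v:ℝ) - 2 / p) + 3) ^ (p / 2)), ?_⟩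
  intro n A j hA N z w hz hw hw1 ε hε hε1 L y hy hsep
  have hv0 : (0:ℝ) ≤ v := Nat.cast_nonneg v
  have hεp : 1 ≤ ε ^ (-p) := Real.one_le_rpow_of_pos_of_le_one_of_nonpos hε hε1 (by linarith)
  have hK1 : (1:ℝ) ≤ max 1 ((2 / (1 / (v:ℝ) - 2 / p) + 3) ^ (p / 2)) := le_max_left _ _
  rcases Nat.lt_or_ge L 2 with hL | hL
  · have h1 : (L:ℝ) ≤ 1 := by exact_mod_cast (by omega : L ≤ 1)
    calc (L:ℝ) ≤ 1 * 1 := by rw [mul_one]; exact h1
      _ ≤ _ := mul_le_mul hK1 hεp zero_le_one (by linarith)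
  · -- the sets
    set S : Fin L → Fin N → Bool := fun a i => decide (Function.update (z i) j (y a) ∈ A) with hS
    have hdist : ∀ a b i, ‖A.indicator (fun _ => (1:ℂ)) (Function.update (z i) j (y a)) -
        A.indicator (fun _ => (1:ℂ)) (Function.update (z i) j (y b))‖ ^ 2
        = if S a i = S b i then 0 else 1 := by
      intro a b i
      simp only [hS, Set.indicator_apply]
      by_cases h1 : Function.update (z i) j (y a) ∈ A <;>
        by_cases h2 : Function.update (z i) j (y b) ∈ A <;> simp [h1, h2]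
    have hcount : ∀ k : ℕ, (L : ℝ) ^ 2 * (1 - ε ^ 2) ^ k < 1 → L ≤ (k + 1) ^ v := by
      intro k hk
      obtain ⟨x, hx⟩ := exists_sample hw hw1 S (δ := ε ^ 2) (pow_le_one₀ hε.le hε1) (by
        intro a b hab
        have h1 := hsep a b hab
        simp_rw [hdist] at h1
        have h2 : (∑ i, if S a i = S b i then w i else 0)
            + ∑ i, w i * (if S a i = S b i then 0 else 1) = 1 := by
          rw [← Finset.sum_add_distrib]
          refine Eq.trans ?_ hw1
          apply Finset.sum_congr rfl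
          intro i _
          split_ifs <;> simp
        linarith) hk
      apply sauer (fun a l => S a (x l)) (fun a b hab => hx a b hab)
      intro t
      obtain ⟨T, hT⟩ := hA (fun i => z (x (t i))) (fun i => hz _)
      refine ⟨T, fun a h => hT (y a) (hy a) ?_⟩
      rw [← h]
      ext i
      simp [hS]
    rcases Nat.eq_zero_or_pos v with hv | hv
    · -- only one class
      subst hv
      exfalso
      obtain ⟨T, hT⟩ : ∃ k : ℕ, (L : ℝ) ^ 2 * (1 - ε ^ 2) ^ k < 1 := by
        have hL0 : (0:ℝ) < (L:ℝ) ^ 2 := by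
          have : (0:ℝ) < L := by exact_mod_cast (by omega : 0 < L)
          positivity
        obtain ⟨k, hk⟩ := exists_pow_lt_of_lt_one (one_div_pos.2 hL0)
          (by nlinarith [sq_nonneg ε, pow_pos hε 2] : 1 - ε ^ 2 < 1)
        refine ⟨k, ?_⟩
        rw [lt_div_iff₀ hL0] at hk
        linarith
      have := hcount T hT
      rw [pow_zero] at this
      omega
    · have h1 := vc_count hv hp hε hε1 (by omega) hcount
      refine h1.trans ?_
      exact mul_le_mul_of_nonneg_right (le_max_right _ _) (by linarith)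

end Pool.Agent.H.MP_b7167f_an
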