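import Mathlib
import Pool.Agent.H.MP_b7167f_an.EntDef

open Set

namespace Pool.Agent.H.MP_b7167f_an

lemma SectionPacking.mono {n : ℕ} {f : (Fin n → ℝ) → ℂ} {j : Fin n} {p K K' : ℝ}
    (h : SectionPacking n f j p K) (hK : K ≤ K') : SectionPacking n f j p K' := by
  intro N z w hz hw hw1 ε hε hε1 L y hy hsep
  refine (h N z w hz hw hw1 ε hε hε1 L y hy hsep).trans ?_
  exact mul_le_mul_of_nonneg_right hK (by positivity)

/-- bounded variation in the `j`-th variable, after an arbitrary rearrangement of this variable,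
gives the packing condition. -/
lemma packing_of_variation {n : ℕ} {f : (Fin n → ℝ) → ℂ} {j : Fin n} {P V : ℝ} (hP : 2 ≤ P)
    (b : ℝ → ℝ)
    (hV : ∀ z ∈ Set.Icc (fun _ : Fin n => (-1 : ℝ)) (fun _ : Fin n => (1 : ℝ)),
      ∀ s : ℕ → ℝ, (∀ i, s i ∈ Icc (-1:ℝ) 1) → Monotone (fun i => b (s i)) → ∀ L : ℕ,
      ∑ i ∈ Finset.range L, ‖f (Function.update z j (s (i + 1))) -
        f (Function.update z j (s i))‖ ^ P ≤ V) :
    SectionPacking n f j P (V + 1) := by
  intro N z w hz hw hw1 ε hε hε1 L y hy hsep
  have hεP : 1 ≤ ε ^ (-P) := Real.one_le_rpow_of_pos_of_le_one_of_nonpos hε hε1 (by linarith)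
  have hN : ∃ i : Fin N, True := by
    by_contra h
    push Not at h
    have : IsEmpty (Fin N) := ⟨fun i => (h i).elim⟩
    rw [Finset.univ_eq_empty, Finset.sum_empty] at hw1
    exact zero_ne_one hw1
  obtain ⟨i₀, _⟩ := hN
  rcases Nat.eq_zero_or_pos L with hL | hL
  · subst hL
    have hV0 : 0 ≤ V := by
      have := hV (z i₀) (hz i₀) (fun _ => 0) (fun _ => by constructor <;> norm_num)
        (fun _ _ _ => le_rfl) 0
      simpa using this
    simp only [Nat.cast_zero]
    positivity
  · -- sort the points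
    set σ : Equiv.Perm (Fin L) := Tuple.sort (fun a => b (y a)) with hσ
    have hmono : Monotone ((fun a => b (y a)) ∘ σ) := Tuple.monotone_sort _
    set idx : ℕ → Fin L := fun i => ⟨min i (L - 1), by omega⟩ with hidx
    have hidxm : Monotone idx := by
      intro i i' hii'
      simp only [hidx, Fin.mk_le_mk]
      omega
    set s : ℕ → ℝ := fun i => y (σ (idx i)) with hs
    have hsm : Monotone (fun i => b (s i)) := hmono.comp hidxm
    have hs1 : ∀ i, s i ∈ Icc (-1:ℝ) 1 := fun i => hy _
    -- consecutive distances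
    have hstep : ∀ i ∈ Finset.range (L - 1), ε ^ P ≤ ∑ l, w l *
        ‖f (Function.update (z l) j (s (i + 1))) - f (Function.update (z l) j (s i))‖ ^ P := by
      intro i hi
      rw [Finset.mem_range] at hi
      have hne : σ (idx (i + 1)) ≠ σ (idx i) := by
        intro h
        have h1 := σ.injective h
        simp only [hidx, Fin.mk.injEq] at h1
        omega
      have h1 := hsep _ _ hne
      have h2 := Real.rpow_arith_mean_le_arith_mean_rpow Finset.univ w (fun l =>
        ‖f (Function.update (z l) j (s (i + 1))) - f (Function.update (z l) j (s i))‖ ^ 2)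
        (fun l _ => hw l) hw1 (fun l _ => by positivity) (p := P / 2) (by linarith)
      have h3 : (ε ^ 2) ^ (P / 2) ≤ (∑ l, w l *
        ‖f (Function.update (z l) j (s (i + 1))) - f (Function.update (z l) j (s i))‖ ^ 2)
          ^ (P / 2) := Real.rpow_le_rpow (by positivity) h1.le (by linarith)
      have h4 : ∀ x : ℝ, 0 ≤ x → (x ^ 2) ^ (P / 2) = x ^ P := by
        intro x hx
        rw [← Real.rpow_natCast x 2, ← Real.rpow_mul hx]
        congr 1
        push_cast
        ring
      rw [h4 ε hε.le] at h3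
      refine h3.trans (h2.trans (le_of_eq ?_))
      apply Finset.sum_congr rfl
      intro l _
      rw [h4 _ (norm_nonneg _)]
    have h5 : ((L - 1 : ℕ) : ℝ) * ε ^ P ≤ V := by
      calc ((L - 1 : ℕ) : ℝ) * ε ^ P = ∑ i ∈ Finset.range (L - 1), ε ^ P := by
            rw [Finset.sum_const, Finset.card_range, nsmul_eq_mul]
        _ ≤ ∑ i ∈ Finset.range (L - 1), ∑ l, w l *
            ‖f (Function.update (z l) j (s (i + 1))) - f (Function.update (z l) j (s i))‖ ^ P :=
            Finset.sum_le_sum hstep
        _ = ∑ l, w l * ∑ i ∈ Finset.range (L - 1),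
            ‖f (Function.update (z l) j (s (i + 1))) - f (Function.update (z l) j (s i))‖ ^ P := by
            rw [Finset.sum_comm]
            apply Finset.sum_congr rfl
            intro l _
            rw [Finset.mul_sum]
        _ ≤ ∑ l, w l * V := by
            apply Finset.sum_le_sum
            intro l _
            exact mul_le_mul_of_nonneg_left (hV (z l) (hz l) s hs1 hsm (L - 1)) (hw l)
        _ = V := by rw [← Finset.sum_mul, hw1, one_mul]
    have h6 : ((L - 1 : ℕ) : ℝ) ≤ V * ε ^ (-P) := by
      rw [Real.rpow_neg hε.le, ← div_eq_mul_inv, le_div_iff₀ (by positivity)]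
      exact h5
    have h7 : (L : ℝ) = ((L - 1 : ℕ) : ℝ) + 1 := by
      rw [Nat.cast_sub hL]; simp
    rw [h7, add_mul, one_mul]
    linarith

end Pool.Agent.H.MP_b7167f_an
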