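import Mathlib
import Pool.Agent.H.MP_b7167f_an.EntDef
import Pool.Agent.H.MP_b7167f_an.EntNet
import Pool.Agent.H.MP_b7167f_an.Grid

open MeasureTheory Set
open scoped ENNReal NNReal

namespace Pool.Agent.H.MP_b7167f_an

variable {m : ℕ}

/-- the grid point with given cell indices -/
noncomputable def ggpt (i₀ : Fin (m + 1)) (M : ℕ) (θ : Fin (m + 1) → ℝ) (b : Fin M)
    (z : Fin m → Fin M) : Fin (m + 1) → ℝ :=
  Fin.insertNth (α := fun _ => ℝ) i₀ (repPt M (θ i₀) b)
    (fun j => repPt M (θ (i₀.succAbove j)) (z j))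

lemma ggpt_update (i₀ : Fin (m + 1)) (M : ℕ) (θ : Fin (m + 1) → ℝ) (b : Fin M)
    (z : Fin m → Fin M) (j : Fin m) (y : Fin M) : ggpt i₀ M θ b (Function.update z j y)
      = Function.update (ggpt i₀ M θ b z) (i₀.succAbove j)
        (repPt M (θ (i₀.succAbove j)) y) := by
  unfold ggpt
  funext k
  refine Fin.succAboveCases i₀ ?_ (fun i => ?_) k
  · rw [Function.update_of_ne (Fin.succAbove_ne i₀ j).symm, Fin.insertNth_apply_same,
      Fin.insertNth_apply_same]
  · rw [Fin.insertNth_apply_succAbove]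
    by_cases hi : i = j
    · subst hi; rw [Function.update_self, Function.update_self]
    · rw [Function.update_of_ne hi, Function.update_of_ne
        (fun h => hi (Fin.succAbove_right_injective h)), Fin.insertNth_apply_succAbove]

lemma ggpt_mem {i₀ : Fin (m + 1)} {M : ℕ} [NeZero M] {θ : Fin (m + 1) → ℝ}
    (hθ : ∀ i, θ i ∈ Ico (0:ℝ) 1) (b : Fin M) (z : Fin m → Fin M) :
    ggpt i₀ M θ b z ∈ cube (m + 1) := by
  rw [mem_cube]
  intro k
  unfold ggpt
  refine Fin.succAboveCases i₀ ?_ (fun j => ?_) k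
  · rw [Fin.insertNth_apply_same]
    exact Ico_subset_Icc_self (repPt_mem M (hθ i₀) b)
  · rw [Fin.insertNth_apply_succAbove]
    exact Ico_subset_Icc_self (repPt_mem M (hθ _) (z j))

lemma gnorm_sub_sq_le {E : Type*} [SeminormedAddCommGroup E] (a b c : E) :
    ‖a - c‖ ^ 2 ≤ 2 * ‖a - b‖ ^ 2 + 2 * ‖b - c‖ ^ 2 := by
  have h1 : ‖a - c‖ ≤ ‖a - b‖ + ‖b - c‖ := norm_sub_le_norm_sub_add_norm_sub a b c
  have h2 : ‖a - c‖ ^ 2 ≤ (‖a - b‖ + ‖b - c‖) ^ 2 := by gcongr
  nlinarith [sq_nonneg (‖a - b‖ - ‖b - c‖)]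

/-- the partition hypothesis of the chain, from the packing hypothesis -/
lemma ghent_aux {i₀ : Fin (m + 1)} {f : (Fin (m + 1) → ℝ) → ℂ} {j : Fin m} {p K : ℝ}
    (hf : SectionPacking (m + 1) f (i₀.succAbove j) p K) {p' K' : ℝ} (hpp' : p ≤ p')
    (hKK' : max K 0 * 2 ^ p ≤ K') {M : ℕ} [NeZero M] {θ : Fin (m + 1) → ℝ}
    (hθ : ∀ i, θ i ∈ Ico (0:ℝ) 1) (w : Fin M → (Fin m → Fin M) → ℝ) (hw : ∀ b z, 0 ≤ w b z)
    (hw1 : ∑ b, ∑ z, w b z = 1) (ε : ℝ) (hε : 0 < ε) (hε1 : ε ≤ 1) :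
    ∃ κ : Fin M → ℕ, (∀ y, (κ y : ℝ) + 1 ≤ K' * ε ^ (-p')) ∧
      ∀ y y', κ y = κ y' → ∑ b, ∑ z, w b z *
        ‖f (ggpt i₀ M θ b (Function.update z j y)) -
          f (ggpt i₀ M θ b (Function.update z j y'))‖ ^ 2 ≤ ε ^ 2 := by
  classical
  set D : Fin M → Fin M → ℝ := fun y y' => ∑ b, ∑ z, w b z *
    ‖f (ggpt i₀ M θ b (Function.update z j y)) -
      f (ggpt i₀ M θ b (Function.update z j y'))‖ ^ 2 with hD
  have hD0 : ∀ y, D y y = 0 := by
    intro y; simp [hD]
  have hsymm : ∀ y y', D y y' = D y' y := by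
    intro y y'
    simp only [hD]
    simp_rw [norm_sub_rev (f (ggpt i₀ M θ _ (Function.update _ j y)))]
  have htri : ∀ a b c, D a c ≤ 2 * D a b + 2 * D b c := by
    intro a b c
    simp only [hD]
    rw [Finset.mul_sum, Finset.mul_sum, ← Finset.sum_add_distrib]
    apply Finset.sum_le_sum
    intro x _
    rw [Finset.mul_sum, Finset.mul_sum, ← Finset.sum_add_distrib]
    apply Finset.sum_le_sum
    intro z _
    have := gnorm_sub_sq_le (f (ggpt i₀ M θ x (Function.update z j a)))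
      (f (ggpt i₀ M θ x (Function.update z j b))) (f (ggpt i₀ M θ x (Function.update z j c)))
    nlinarith [hw x z, mul_le_mul_of_nonneg_left this (hw x z)]
  obtain ⟨S, κ, hS, hκ, hcl⟩ := exists_net D hD0 hsymm (r := (ε / 2) ^ 2) (by positivity)
  -- the cardinality of `S`
  have hcard : (S.card : ℝ) ≤ K * (ε / 2) ^ (-p) := by
    set e := Fintype.equivFin (Fin M × (Fin m → Fin M)) with he
    apply hf (Fintype.card (Fin M × (Fin m → Fin M)))
      (fun i => ggpt i₀ M θ (e.symm i).1 (e.symm i).2) (fun i => w (e.symm i).1 (e.symm i).2)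
      (fun i => ggpt_mem hθ _ _) (fun i => hw _ _) _ (ε / 2) (by positivity) (by linarith) S.card
      (fun a => repPt M (θ (i₀.succAbove j)) (S.equivFin.symm a))
      (fun a => Ico_subset_Icc_self (repPt_mem M (hθ _) _))
    · intro a b hab
      have h1 : ((S.equivFin.symm a : S) : Fin M) ≠ (S.equivFin.symm b : S) := by
        intro h
        exact hab (S.equivFin.symm.injective (Subtype.ext h))
      have h2 := hS _ (S.equivFin.symm a).2 _ (S.equivFin.symm b).2 h1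
      refine lt_of_lt_of_eq h2 ?_
      simp only [hD]
      rw [← Fintype.sum_prod_type' (f := fun x z => w x z *
        ‖f (ggpt i₀ M θ x (Function.update z j (S.equivFin.symm a : S))) -
          f (ggpt i₀ M θ x (Function.update z j (S.equivFin.symm b : S)))‖ ^ 2),
        ← e.symm.sum_comp]
      apply Finset.sum_congr rfl
      intro i _
      rw [ggpt_update, ggpt_update]
    · rw [e.symm.sum_comp (fun x => w x.1 x.2), Fintype.sum_prod_type]
      exact hw1
  refine ⟨κ, ?_, ?_⟩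
  · intro y
    have h1 : (κ y : ℝ) + 1 ≤ S.card := by exact_mod_cast hκ y
    refine h1.trans (hcard.trans ?_)
    have h2 : (ε / 2) ^ (-p) = 2 ^ p * ε ^ (-p) := by
      rw [Real.div_rpow hε.le (by norm_num), Real.rpow_neg (by norm_num : (0:ℝ) ≤ 2), div_eq_mul_inv,
        inv_inv, mul_comm]
    rw [h2]
    have h3 : ε ^ (-p) ≤ ε ^ (-p') := Real.rpow_le_rpow_of_exponent_ge hε hε1 (by linarith)
    have h4 : 0 < ε ^ (-p) := by positivity
    have h5 : (0:ℝ) < 2 ^ p := by positivity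
    calc K * (2 ^ p * ε ^ (-p)) ≤ max K 0 * (2 ^ p * ε ^ (-p)) := by
          apply mul_le_mul_of_nonneg_right (le_max_left _ _) (by positivity)
      _ = (max K 0 * 2 ^ p) * ε ^ (-p) := by ring
      _ ≤ K' * ε ^ (-p') := by
          apply mul_le_mul hKK' h3 h4.le
          exact le_trans (mul_nonneg (le_max_right _ _) h5.le) hKK'
  · intro y y' hyy'
    obtain ⟨s, hs1, hs2⟩ := hcl y y' hyy'
    calc D y y' ≤ 2 * D y s + 2 * D s y' := htri _ _ _
      _ ≤ 2 * (ε / 2) ^ 2 + 2 * (ε / 2) ^ 2 := by gcongr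
      _ = ε ^ 2 := by ring

end Pool.Agent.H.MP_b7167f_an
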