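import Mathlib
import Pool.Agent.H.MP_b7167f_an.PairMain
import Pool.Agent.H.MP_b7167f_an.ChainTele
import Pool.Agent.H.MP_b7167f_an.Grid

open MeasureTheory Set
open scoped ENNReal NNReal

namespace Pool.Agent.H.MP_b7167f_an

section linear

variable {n : ℕ}

lemma extOp_const_mul' (a : ℂ) (f : (Fin n → ℝ) → ℂ) (p : (Fin n → ℝ) × ℝ) :
    extOp n (fun ξ => a * f ξ) p = a * extOp n f p := by
  unfold extOp
  rw [← integral_const_mul]
  congr 1
  ext ξ
  ring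

lemma extOp_add' {f g : (Fin n → ℝ) → ℂ} (hf : Measurable f) (hg : Measurable g) {A B : ℝ}
    (hA : ∀ ξ ∈ cube n, ‖f ξ‖ ≤ A) (hB : ∀ ξ ∈ cube n, ‖g ξ‖ ≤ B) (p : (Fin n → ℝ) × ℝ) :
    extOp n (fun ξ => f ξ + g ξ) p = extOp n f p + extOp n g p := by
  simp_rw [extOp_eq_integral]
  rw [← integral_add (integrable_ext hf hA p) (integrable_ext hg hB p)]
  congr 1
  ext ξ
  by_cases h : ξ ∈ cube n
  · simp_rw [indicator_of_mem h]; ring
  · simp_rw [indicator_of_notMem h]; ring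

end linear

variable {m : ℕ} (i₀ : Fin (m + 1)) (M : ℕ) [NeZero M]

/-- the function represented by an array on the grid -/
noncomputable def garr (c : Fin M → (Fin m → Fin M) → ℂ) (ξ : Fin (m + 1) → ℝ) : ℂ :=
  c (cellIdx M (ξ i₀)) (fun j => cellIdx M (ξ (i₀.succAbove j)))

lemma measurable_garr (c : Fin M → (Fin m → Fin M) → ℂ) : Measurable (garr i₀ M c) := by
  have h1 : garr i₀ M c = (fun x : Fin M × (Fin m → Fin M) => c x.1 x.2) ∘
    (fun ξ : Fin (m + 1) → ℝ =>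
      (cellIdx M (ξ i₀), fun j : Fin m => cellIdx M (ξ (i₀.succAbove j)))) := rfl
  rw [h1]
  apply (measurable_of_countable _).comp
  apply Measurable.prodMk
  · exact (measurable_cellIdx M).comp (measurable_pi_apply i₀)
  · exact measurable_pi_iff.2 fun j =>
      (measurable_cellIdx M).comp (measurable_pi_apply (i₀.succAbove j))

lemma norm_garr_le (c : Fin M → (Fin m → Fin M) → ℂ) (ξ : Fin (m + 1) → ℝ) :
    ‖garr i₀ M c ξ‖ ≤ ∑ b, ∑ z, ‖c b z‖ := by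
  unfold garr
  calc ‖c (cellIdx M (ξ i₀)) (fun j => cellIdx M (ξ (i₀.succAbove j)))‖
      ≤ ∑ z, ‖c (cellIdx M (ξ i₀)) z‖ :=
        Finset.single_le_sum (f := fun z => ‖c (cellIdx M (ξ i₀)) z‖) (fun _ _ => norm_nonneg _)
          (Finset.mem_univ _)
    _ ≤ _ := Finset.single_le_sum (f := fun b => ∑ z, ‖c b z‖)
          (fun _ _ => Finset.sum_nonneg fun _ _ => norm_nonneg _) (Finset.mem_univ _)

variable {G : (Fin (m + 1) → ℝ) → ℂ}

/-- the functional used in the chain -/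
noncomputable def GPhi (G : (Fin (m + 1) → ℝ) → ℂ) (q : ℝ) (c : Fin M → (Fin m → Fin M) → ℂ) :
    ℝ≥0∞ :=
  eLpNorm (extOp (m + 1) (fun ξ => G ξ * garr i₀ M c ξ)) (ENNReal.ofReal q) volume

lemma meas_Ggarr (hG : Measurable G) (c : Fin M → (Fin m → Fin M) → ℂ) :
    Measurable (fun ξ => G ξ * garr i₀ M c ξ) := hG.mul (measurable_garr i₀ M c)

lemma bdd_Ggarr (hG1 : ∀ ξ ∈ cube (m + 1), ‖G ξ‖ ≤ 1) (c : Fin M → (Fin m → Fin M) → ℂ)
    {ξ : Fin (m + 1) → ℝ} (hξ : ξ ∈ cube (m + 1)) :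
    ‖G ξ * garr i₀ M c ξ‖ ≤ 1 * ∑ b, ∑ z, ‖c b z‖ := by
  rw [norm_mul]
  exact mul_le_mul (hG1 ξ hξ) (norm_garr_le i₀ M c ξ) (norm_nonneg _) zero_le_one

lemma GPhi_add (hG : Measurable G) (hG1 : ∀ ξ ∈ cube (m + 1), ‖G ξ‖ ≤ 1) {q : ℝ} (hq : 1 ≤ q)
    (g h : Fin M → (Fin m → Fin M) → ℂ) :
    GPhi i₀ M G q (g + h) ≤ GPhi i₀ M G q g + GPhi i₀ M G q h := by
  have hq1 : 1 ≤ ENNReal.ofReal q := by
    rw [← ENNReal.ofReal_one]; exact ENNReal.ofReal_le_ofReal hq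
  unfold GPhi
  have h1 : extOp (m + 1) (fun ξ => G ξ * garr i₀ M (g + h) ξ)
      = extOp (m + 1) (fun ξ => G ξ * garr i₀ M g ξ)
        + extOp (m + 1) (fun ξ => G ξ * garr i₀ M h ξ) := by
    funext p
    have h2 : (fun ξ => G ξ * garr i₀ M (g + h) ξ)
        = fun ξ => G ξ * garr i₀ M g ξ + G ξ * garr i₀ M h ξ := by
      funext ξ
      unfold garr
      simp only [Pi.add_apply]
      ring
    rw [h2, extOp_add' (meas_Ggarr i₀ M hG g) (meas_Ggarr i₀ M hG h)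
      (fun ξ hξ => bdd_Ggarr i₀ M hG1 g hξ) (fun ξ hξ => bdd_Ggarr i₀ M hG1 h hξ), Pi.add_apply]
  rw [h1]
  exact eLpNorm_add_le (sm_extOp (meas_Ggarr i₀ M hG g)).aestronglyMeasurable
    (sm_extOp (meas_Ggarr i₀ M hG h)).aestronglyMeasurable hq1

lemma GPhi_sum (hG : Measurable G) (hG1 : ∀ ξ ∈ cube (m + 1), ‖G ξ‖ ≤ 1) {q : ℝ} (hq : 1 ≤ q)
    {ι : Type} (S : Finset ι) (μ : ι → ℝ) (g : ι → (Fin M → (Fin m → Fin M) → ℂ)) (B : ℝ≥0∞)
    (hμ : ∀ s ∈ S, 0 ≤ μ s) (hμ1 : ∑ s ∈ S, μ s = 1) (hB : ∀ s ∈ S, GPhi i₀ M G q (g s) ≤ B) :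
    GPhi i₀ M G q (fun b z => ∑ s ∈ S, (μ s : ℂ) * g s b z) ≤ B := by
  have hq1 : 1 ≤ ENNReal.ofReal q := by
    rw [← ENNReal.ofReal_one]; exact ENNReal.ofReal_le_ofReal hq
  have h1 : extOp (m + 1)
      (fun ξ => G ξ * garr i₀ M (fun b z => ∑ s ∈ S, (μ s : ℂ) * g s b z) ξ)
      = ∑ s ∈ S, (μ s : ℂ) • extOp (m + 1) (fun ξ => G ξ * garr i₀ M (g s) ξ) := by
    funext p
    have h2 : (fun ξ => G ξ * garr i₀ M (fun b z => ∑ s ∈ S, (μ s : ℂ) * g s b z) ξ)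
        = fun ξ => ∑ s ∈ S, (μ s : ℂ) * (G ξ * garr i₀ M (g s) ξ) := by
      funext ξ
      unfold garr
      simp only
      rw [Finset.mul_sum]
      apply Finset.sum_congr rfl
      intro s _
      ring
    rw [h2, extOp_sum S (f := fun s ξ => (μ s : ℂ) * (G ξ * garr i₀ M (g s) ξ))
      (fun s _ => (meas_Ggarr i₀ M hG (g s)).const_mul _)
      (C := fun s => ‖(μ s : ℂ)‖ * (1 * ∑ b, ∑ z, ‖g s b z‖))
      (fun s _ ξ hξ => by
        rw [norm_mul]
        exact mul_le_mul_of_nonneg_left (bdd_Ggarr i₀ M hG1 (g s) hξ) (norm_nonneg _)),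
      Finset.sum_apply]
    apply Finset.sum_congr rfl
    intro s _
    rw [extOp_const_mul', Pi.smul_apply, smul_eq_mul]
  unfold GPhi at hB ⊢
  rw [h1]
  refine (eLpNorm_sum_le (fun s _ =>
    ((sm_extOp (meas_Ggarr i₀ M hG (g s))).const_smul (μ s : ℂ)).aestronglyMeasurable) hq1).trans ?_
  calc ∑ s ∈ S, eLpNorm ((μ s : ℂ) • extOp (m + 1) (fun ξ => G ξ * garr i₀ M (g s) ξ))
        (ENNReal.ofReal q) volume
      ≤ ∑ s ∈ S, ENNReal.ofReal (μ s) * B := by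
        apply Finset.sum_le_sum
        intro s hs
        rw [eLpNorm_const_smul]
        have : ‖(μ s : ℂ)‖ₑ = ENNReal.ofReal (μ s) := by
          rw [← ofReal_norm, Complex.norm_real, Real.norm_eq_abs, abs_of_nonneg (hμ s hs)]
        rw [this]
        gcongr
        exact hB s hs
    _ = B := by
        rw [← Finset.sum_mul, ← ENNReal.ofReal_sum_of_nonneg hμ, hμ1, ENNReal.ofReal_one, one_mul]

lemma gvolume_cell (k : Fin M) :
    volume (Icc (-1:ℝ) 1 ∩ cellIdx M ⁻¹' {k}) ≤ ENNReal.ofReal (2 / M) := by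
  have h1 : volume (Icc (-1:ℝ) 1 ∩ cellIdx M ⁻¹' {k})
      = volume (Ico (-1:ℝ) 1 ∩ cellIdx M ⁻¹' {k}) := by
    apply measure_congr
    exact (Ico_ae_eq_Icc (a := (-1:ℝ)) (b := 1)).symm.inter (ae_eq_refl _)
  rw [h1, cell_eq, Real.volume_Ico]
  apply le_of_eq
  congr 1
  ring

lemma gvolume_cell_comp (π : Fin M → Fin M) (z : Fin M) :
    volume (Icc (-1:ℝ) 1 ∩ (fun s => π (cellIdx M s)) ⁻¹' {z})
      ≤ ENNReal.ofReal (4 * nuW (fun _ => 1 / (M:ℝ)) π z) := by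
  have hM := cast_M_pos M
  calc volume (Icc (-1:ℝ) 1 ∩ (fun s => π (cellIdx M s)) ⁻¹' {z})
      ≤ volume (⋃ y ∈ (Finset.univ.filter fun y => π y = z),
          (Icc (-1:ℝ) 1 ∩ cellIdx M ⁻¹' {y})) := by
        apply measure_mono
        rintro s ⟨h1, h2⟩
        simp only [mem_iUnion]
        exact ⟨cellIdx M s, Finset.mem_filter.2 ⟨Finset.mem_univ _, h2⟩, h1, rfl⟩
    _ ≤ ∑ y ∈ (Finset.univ.filter fun y => π y = z),
          volume (Icc (-1:ℝ) 1 ∩ cellIdx M ⁻¹' {y}) := measure_biUnion_finset_le _ _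
    _ ≤ ∑ y ∈ (Finset.univ.filter fun y => π y = z), ENNReal.ofReal (2 / M) :=
        Finset.sum_le_sum fun y _ => gvolume_cell M y
    _ = ENNReal.ofReal (∑ y ∈ (Finset.univ.filter fun y => π y = z), 2 / (M:ℝ)) := by
        rw [ENNReal.ofReal_sum_of_nonneg]
        intro _ _
        positivity
    _ ≤ _ := by
        apply ENNReal.ofReal_le_ofReal
        unfold nuW
        rw [Finset.sum_filter]
        have h2 : ∑ y, (if π y = z then 2 / (M:ℝ) else 0)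
            = 4 * ((∑ y, if π y = z then 1 / (M:ℝ) else 0) / 2) := by
          rw [Finset.sum_div, Finset.mul_sum]
          apply Finset.sum_congr rfl
          intro y _
          split_ifs
          · ring
          · ring
        rw [h2, mul_add]
        apply le_add_of_nonneg_right
        split_ifs <;> positivity

end Pool.Agent.H.MP_b7167f_an
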