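import Mathlib

open MeasureTheory Set
open scoped ENNReal NNReal

namespace Pool.Agent.H.MP_b7167f_an

universe u1 u2

variable {E : Type u1} {G : Type u2} [NormedAddCommGroup E] [InnerProductSpace ℂ E]
  [NormedAddCommGroup G] [InnerProductSpace ℂ G]

/-- the map whose kernel is the graph of `N` -/
noncomputable def grL (N : E →L[ℂ] G) : WithLp 2 (E × G) →L[ℂ] G :=
  ((ContinuousLinearMap.snd ℂ E G) - N.comp (ContinuousLinearMap.fst ℂ E G)).comp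
    (WithLp.prodContinuousLinearEquiv 2 ℂ E G : WithLp 2 (E × G) →L[ℂ] (E × G))

lemma grL_apply (N : E →L[ℂ] G) (x : WithLp 2 (E × G)) : grL N x = x.snd - N x.fst := rfl

/-- the graph of `N` as a Hilbert space: a renorming of `E` -/
noncomputable abbrev Gr (N : E →L[ℂ] G) : Submodule ℂ (WithLp 2 (E × G)) :=
  LinearMap.ker (grL N : WithLp 2 (E × G) →ₗ[ℂ] G)

noncomputable instance (N : E →L[ℂ] G) [CompleteSpace E] [CompleteSpace G] :
    CompleteSpace (Gr N) :=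
  (ContinuousLinearMap.isClosed_ker (grL N)).completeSpace_coe

lemma mem_Gr (N : E →L[ℂ] G) (x : WithLp 2 (E × G)) : x ∈ Gr N ↔ x.snd = N x.fst := by
  rw [LinearMap.mem_ker]
  change x.snd - N x.fst = 0 ↔ _
  rw [sub_eq_zero]

/-- the first coordinate on the graph -/
noncomputable def grFst (N : E →L[ℂ] G) : Gr N →L[ℂ] E :=
  ((ContinuousLinearMap.fst ℂ E G).comp
    (WithLp.prodContinuousLinearEquiv 2 ℂ E G : WithLp 2 (E × G) →L[ℂ] (E × G))).comp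
    (Gr N).subtypeL

lemma grFst_apply (N : E →L[ℂ] G) (x : Gr N) : grFst N x = (x : WithLp 2 (E × G)).fst := rfl

lemma norm_sq_Gr (N : E →L[ℂ] G) (x : Gr N) : ‖x‖ ^ 2 = ‖grFst N x‖ ^ 2 + ‖N (grFst N x)‖ ^ 2 := by
  have h1 : ‖x‖ = ‖(x : WithLp 2 (E × G))‖ := rfl
  rw [h1, WithLp.prod_norm_sq_eq_of_L2, (mem_Gr N x).1 x.2, grFst_apply]

lemma norm_grFst_le (N : E →L[ℂ] G) (x : Gr N) : ‖grFst N x‖ ≤ ‖x‖ := by
  have h1 := norm_sq_Gr N x
  have h2 : ‖grFst N x‖ ^ 2 ≤ ‖x‖ ^ 2 := by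
    rw [h1]; have := sq_nonneg ‖N (grFst N x)‖; linarith
  exact (pow_le_pow_iff_left₀ (norm_nonneg _) (norm_nonneg _) two_ne_zero).1 h2

lemma norm_N_grFst_le (N : E →L[ℂ] G) (x : Gr N) : ‖N (grFst N x)‖ ≤ ‖x‖ := by
  have h1 := norm_sq_Gr N x
  have h2 : ‖N (grFst N x)‖ ^ 2 ≤ ‖x‖ ^ 2 := by
    rw [h1]; have := sq_nonneg ‖grFst N x‖; linarith
  exact (pow_le_pow_iff_left₀ (norm_nonneg _) (norm_nonneg _) two_ne_zero).1 h2

/-- the embedding of `E` -/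
noncomputable def grJ (N : E →L[ℂ] G) : E →L[ℂ] Gr N :=
  (((WithLp.prodContinuousLinearEquiv 2 ℂ E G).symm : (E × G) →L[ℂ] WithLp 2 (E × G)).comp
    ((ContinuousLinearMap.id ℂ E).prod N)).codRestrict (Gr N) (fun x => by
      rw [mem_Gr]; rfl)

lemma grFst_grJ (N : E →L[ℂ] G) (x : E) : grFst N (grJ N x) = x := rfl

lemma norm_sq_grJ (N : E →L[ℂ] G) (x : E) : ‖grJ N x‖ ^ 2 = ‖x‖ ^ 2 + ‖N x‖ ^ 2 := by
  rw [norm_sq_Gr, grFst_grJ]

end Pool.Agent.H.MP_b7167f_an
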