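import Mathlib
import Pool.Agent.H.MP_b7167f_an.Defs
import Pool.Agent.H.MP_b7167f_an.Core

/-!
The extension estimate for functions with some regularity in the first group of variables.
-/

namespace Pool.Agent.H.MP_b7167f_an

open MeasureTheory Complex ComplexConjugate Real Set ENNReal

lemma coef_eq {m k : ℕ} (f : (Fin m → ℝ) × (Fin k → ℝ) → ℂ) (j : Fin m → ℤ)
    (η : Fin k → ℝ) : coef f j η = ∫ ξ, f (ξ, η) * conj (hc j ξ) ∂(cube m) := by
  unfold coef cube
  congr 1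
  ext ξ
  congr 1
  rw [conj_hc]
  unfold hc ph
  congr 1
  have : (∑ i, (((-j) i : ℤ) : ℝ) * ξ i / 2 : ℝ) = -(∑ i, (j i : ℝ) * ξ i) / 2 := by
    rw [neg_div, Finset.sum_div, ← Finset.sum_neg_distrib]
    apply Finset.sum_congr rfl
    intro i _
    rw [Pi.neg_apply]
    push_cast
    ring
  rw [this]
  push_cast
  ring

lemma coef_meas {m k : ℕ} {f : (Fin m → ℝ) × (Fin k → ℝ) → ℂ} (hf : Measurable f)
    (j : Fin m → ℤ) : Measurable (coef f j) := by
  have : coef f j = fun η => ∫ ξ, f (ξ, η) * conj (hc j ξ) ∂(cube m) := by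
    ext η; exact coef_eq f j η
  rw [this]
  apply StronglyMeasurable.measurable
  apply StronglyMeasurable.integral_prod_right (f := fun (η : Fin k → ℝ) (ξ : Fin m → ℝ) =>
      f (ξ, η) * conj (hc j ξ))
  apply Measurable.stronglyMeasurable
  exact (hf.comp (measurable_snd.prodMk measurable_fst)).mul
    (Complex.continuous_conj.measurable.comp ((continuous_hc j).measurable.comp measurable_snd))

lemma cube_prod (m k : ℕ) :
    (volume : Measure ((Fin m → ℝ) × (Fin k → ℝ))).restrict (Icc (-1) 1) =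
      (cube m).prod (cube k) := by
  unfold cube
  rw [Measure.prod_restrict, ← Measure.volume_eq_prod]
  congr 1
  rw [Icc_prod_Icc]
  rfl

lemma ext_eq {m k : ℕ} {f : (Fin m → ℝ) × (Fin k → ℝ) → ℂ} (hf : Measurable f) {M : ℝ}
    (hM : ∀ ξ, ‖f ξ‖ ≤ M) (p : ((Fin m → ℝ) × (Fin k → ℝ)) × ℝ) :
    extension m k f p = ∫ η, (∫ ξ, f (ξ, η) * chr (p.1.1, p.2) (par ξ) ∂(cube m)) *
      chr (p.1.2, p.2) (par η) ∂(cube k) := by
  unfold extension
  rw [cube_prod]
  have e1 : ∀ ξ : (Fin m → ℝ) × (Fin k → ℝ), f ξ *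
      Complex.exp (2 * π * ((∑ i, ξ.1 i * p.1.1 i + ∑ i, ξ.2 i * p.1.2 i +
      (∑ i, ξ.1 i ^ 2 + ∑ i, ξ.2 i ^ 2) * p.2 : ℝ) : ℂ) * I) =
      (f ξ * chr (p.1.1, p.2) (par ξ.1)) * chr (p.1.2, p.2) (par ξ.2) := by
    intro ξ
    unfold chr par
    rw [mul_assoc (f ξ), ← ph_add]
    unfold ph
    congr 3
    simp only
    push_cast
    have s1 : ∀ i : Fin m, (ξ.1 i : ℂ) * (p.1.1 i : ℂ) = p.1.1 i * ξ.1 i := fun i => mul_comm _ _
    have s2 : ∀ i : Fin k, (ξ.2 i : ℂ) * (p.1.2 i : ℂ) = p.1.2 i * ξ.2 i := fun i => mul_comm _ _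
    simp_rw [s1, s2]
    ring
  simp_rw [e1]
  rw [integral_prod_symm]
  · congr 1
    ext η
    exact integral_mul_const (chr (p.1.2, p.2) (par η))
      (fun ξ => f (ξ, η) * chr (p.1.1, p.2) (par ξ))
  · apply Integrable.of_bound (C := M)
    · apply Measurable.aestronglyMeasurable
      exact (hf.mul (measurable_chr measurable_const (measurable_par.comp measurable_fst))).mul
        (measurable_chr measurable_const (measurable_par.comp measurable_snd))
    · refine Filter.Eventually.of_forall fun ξ => ?_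
      rw [norm_mul, norm_mul, norm_chr, norm_chr, mul_one, mul_one]
      exact hM ξ

lemma E_hc_sq_sum {m : ℕ} (J : Finset (Fin m → ℤ)) (p : (Fin m → ℝ) × ℝ) :
    ∑ j ∈ J, ‖E m (hc j) p‖ ^ 2 ≤ 4 ^ m := by
  set Q := ∑ j ∈ J, ‖E m (hc j) p‖ ^ 2 with hQ
  have hQ0 : 0 ≤ Q := Finset.sum_nonneg fun j _ => by positivity
  have h1 := FS_sup' J (fun j => conj (E m (hc j) p)) p
  have h2 : FS m J (fun j => conj (E m (hc j) p)) p = (Q : ℂ) := by
    unfold FS
    rw [hQ]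
    push_cast
    apply Finset.sum_congr rfl
    intro j _
    rw [mul_comm, Complex.mul_conj']
  rw [h2, Complex.norm_real, Real.norm_of_nonneg hQ0] at h1
  simp only [Complex.norm_conj] at h1
  rw [← hQ] at h1
  by_contra hcon
  push Not at hcon
  have : 0 < Q := lt_trans (by positivity) hcon
  nlinarith

lemma hasSum_slice {m k : ℕ} {f : (Fin m → ℝ) × (Fin k → ℝ) → ℂ} (hf : Measurable f) {M : ℝ}
    (hM : ∀ ξ, ‖f ξ‖ ≤ M) (η : Fin k → ℝ) (p : (Fin m → ℝ) × ℝ) :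
    HasSum (fun j : Fin m → ℤ => coef f j η * E m (hc j) p)
      ((2 : ℂ) ^ m * ∫ ξ, f (ξ, η) * chr p (par ξ) ∂(cube m)) := by
  have h := parseval (u := fun ξ => f (ξ, η)) (v := fun ξ => chr p (par ξ))
    (hf.comp (measurable_id.prodMk measurable_const)) (chr_continuous p).measurable
    (fun ξ => hM _) (M' := 1) (fun ξ => (norm_chr _ _).le)
  refine HasSum.congr_fun h fun j => ?_
  rw [coef_eq, E_def]
  congr 1
  congr 1
  ext ξ
  exact mul_comm _ _

/-- exhausting sequence of finite sets -/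
noncomputable def Jn (m : ℕ) (n : ℕ) : Finset (Fin m → ℤ) := Finset.Icc (fun _ => -(n : ℤ)) (fun _ => n)

lemma tendsto_Jn (m : ℕ) : Filter.Tendsto (Jn m) Filter.atTop Filter.atTop := by
  apply Filter.tendsto_atTop_finset_of_monotone
  · intro a b hab x hx
    unfold Jn at hx ⊢
    rw [Finset.mem_Icc] at hx ⊢
    constructor
    · intro i
      have := hx.1 i
      simp only at this ⊢
      have : (a : ℤ) ≤ b := by exact_mod_cast hab
      linarith
    · intro i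
      have := hx.2 i
      simp only at this ⊢
      have : (a : ℤ) ≤ b := by exact_mod_cast hab
      linarith
  · intro x
    refine ⟨∑ i, (x i).natAbs, ?_⟩
    unfold Jn
    rw [Finset.mem_Icc]
    have h : ∀ i, |x i| ≤ ((∑ i, (x i).natAbs : ℕ) : ℤ) := by
      intro i
      rw [Int.abs_eq_natAbs]
      exact_mod_cast Finset.single_le_sum (f := fun i => (x i).natAbs) (fun i _ => Nat.zero_le _)
        (Finset.mem_univ i)
    exact ⟨fun i => (abs_le.mp (h i)).1, fun i => (abs_le.mp (h i)).2⟩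

lemma tendsto_FF {m k : ℕ} {f : (Fin m → ℝ) × (Fin k → ℝ) → ℂ} (hf : Measurable f) {M : ℝ}
    (hM : ∀ ξ, ‖f ξ‖ ≤ M) {w : (Fin m → ℤ) → ℝ} (hw : ∀ j, 1 ≤ w j) {A : ℝ}
    {c : (Fin m → ℤ) → (Fin k → ℝ) → ℂ} (hc1 : ∀ j, Measurable (c j))
    (hA : ∀ η, ∀ J : Finset (Fin m → ℤ), ∑ j ∈ J, w j * ‖c j η‖ ^ 2 ≤ A ^ 2)
    (hcf : ∀ᵐ η ∂(cube k), ∀ j, c j η = coef f j η) (p : ((Fin m → ℝ) × (Fin k → ℝ)) × ℝ) :
    Filter.Tendsto (fun n => FF m k (Jn m n) c p) Filter.atTop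
      (nhds ((2 : ℂ) ^ m * extension m k f p)) := by
  have h1 : ∀ n, FF m k (Jn m n) c p = ∫ η, (∑ j ∈ Jn m n, c j η * E m (hc j) (p.1.1, p.2)) *
      chr (p.1.2, p.2) (par η) ∂(cube k) := by
    intro n
    unfold FF
    simp_rw [Finset.sum_mul]
    rw [integral_finsetSum]
    · apply Finset.sum_congr rfl
      intro j _
      rw [E_def k (c j), ← integral_mul_const]
      congr 1
      ext η
      ring
    · intro j _
      have hcb : ∀ η, ‖c j η‖ ≤ √(A ^ 2) := fun η =>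
        c_bound hw (J := {j}) (fun η => hA η {j}) (Finset.mem_singleton_self j) η
      have hms : Measurable fun η => c j η * E m (hc j) (p.1.1, p.2) *
          chr (p.1.2, p.2) (par η) :=
        ((hc1 j).mul_const _).mul (measurable_chr measurable_const measurable_par)
      refine Integrable.of_bound hms.aestronglyMeasurable
        (√(A ^ 2) * ‖E m (hc j) (p.1.1, p.2)‖) ?_
      · refine Filter.Eventually.of_forall fun η => ?_
        rw [norm_mul, norm_chr, mul_one, norm_mul]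
        exact mul_le_mul_of_nonneg_right (hcb η) (norm_nonneg _)
  have h2 : (2 : ℂ) ^ m * extension m k f p =
      ∫ η, ((2 : ℂ) ^ m * ∫ ξ, f (ξ, η) * chr (p.1.1, p.2) (par ξ) ∂(cube m)) *
      chr (p.1.2, p.2) (par η) ∂(cube k) := by
    rw [ext_eq hf hM, ← integral_const_mul]
    congr 1
    ext η
    ring
  rw [h2]
  simp_rw [h1]
  apply tendsto_integral_of_dominated_convergence (fun _ => (A ^ 2 + 4 ^ m) / 2)
  · intro n
    apply Measurable.aestronglyMeasurable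
    apply Measurable.mul _ (measurable_chr measurable_const measurable_par)
    apply Finset.measurable_sum
    intro j _
    exact (hc1 j).mul_const _
  · exact integrable_const _
  · intro n
    refine Filter.Eventually.of_forall fun η => ?_
    rw [norm_mul, norm_chr, mul_one]
    refine (norm_sum_le _ _).trans ?_
    have e1 : ∀ j ∈ Jn m n, ‖c j η * E m (hc j) (p.1.1, p.2)‖ ≤
        (w j * ‖c j η‖ ^ 2 + ‖E m (hc j) (p.1.1, p.2)‖ ^ 2) / 2 := by
      intro j _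
      rw [norm_mul]
      have h3 := mul_nonneg (sub_nonneg.mpr (hw j)) (sq_nonneg ‖c j η‖)
      nlinarith [sq_nonneg (‖c j η‖ - ‖E m (hc j) (p.1.1, p.2)‖)]
    refine (Finset.sum_le_sum e1).trans ?_
    rw [← Finset.sum_div, Finset.sum_add_distrib]
    have := hA η (Jn m n)
    have := E_hc_sq_sum (Jn m n) (p.1.1, p.2)
    linarith
  · filter_upwards [hcf] with η hη
    have h3 := (hasSum_slice hf hM η (p.1.1, p.2))
    have h4 : Filter.Tendsto (fun n => ∑ j ∈ Jn m n, coef f j η * E m (hc j) (p.1.1, p.2))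
      Filter.atTop (nhds ((2 : ℂ) ^ m * ∫ ξ, f (ξ, η) * chr (p.1.1, p.2) (par ξ) ∂(cube m))) :=
      h3.comp (tendsto_Jn m)
    refine (h4.congr fun n => ?_).mul_const _
    apply Finset.sum_congr rfl
    intro j _
    rw [hη j]

lemma exists_theta {m : ℕ} (hm : 1 ≤ m) {ρ : ℝ} (hρm : ρ < m + 2) {q : ℝ}
    (hq : 2 * (m + 2) / (m + 1) < q) :
    ∃ θ : ℝ, 0 < θ ∧ θ < 1 ∧ 1 < ((m : ℝ) + 1) * θ ∧ (ρ - 1) * θ < 1 ∧ 2 + 2 * θ ≤ q := by
  have hm1 : (1 : ℝ) ≤ m := by exact_mod_cast hm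
  set v := max (ρ - 1) (1 / 2) with hv
  have hv0 : 0 < v := lt_of_lt_of_le (by norm_num) (le_max_right _ _)
  have hv1 : v < m + 1 := max_lt (by linarith) (by linarith)
  have hq2 : 1 / ((m : ℝ) + 1) < (q - 2) / 2 := by
    rw [div_lt_iff₀ (by linarith)] at hq ⊢
    linarith
  obtain ⟨θ, hθ1, hθ2⟩ := exists_between (a₁ := 1 / ((m : ℝ) + 1))
    (a₂ := min (min 1 ((q - 2) / 2)) (1 / v)) (lt_min (lt_min (by
      rw [div_lt_one (by linarith)]; linarith) hq2) (by
      apply one_div_lt_one_div_of_lt hv0 hv1))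
  have h1 : θ < 1 := lt_of_lt_of_le hθ2 ((min_le_left _ _).trans (min_le_left _ _))
  have h2 : θ < (q - 2) / 2 := lt_of_lt_of_le hθ2 ((min_le_left _ _).trans (min_le_right _ _))
  have h3 : θ < 1 / v := lt_of_lt_of_le hθ2 (min_le_right _ _)
  have h0 : 0 < θ := lt_trans (by positivity) hθ1
  refine ⟨θ, h0, h1, ?_, ?_, by linarith⟩
  · rw [div_lt_iff₀ (by linarith)] at hθ1
    linarith
  · rw [lt_div_iff₀ hv0] at h3
    have : (ρ - 1) * θ ≤ v * θ := mul_le_mul_of_nonneg_right (le_max_left _ _) h0.le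
    linarith

lemma ext_meas {m k : ℕ} {f : (Fin m → ℝ) × (Fin k → ℝ) → ℂ} (hf : Measurable f) {M : ℝ}
    (hM : ∀ ξ, ‖f ξ‖ ≤ M) : Measurable (extension m k f) := by
  have : extension m k f = fun p => ∫ η, (∫ ξ, f (ξ, η) * chr (p.1.1, p.2) (par ξ) ∂(cube m)) *
      chr (p.1.2, p.2) (par η) ∂(cube k) := by
    ext p; exact ext_eq hf hM p
  rw [this]
  apply StronglyMeasurable.measurable
  apply StronglyMeasurable.integral_prod_right
    (f := fun (p : ((Fin m → ℝ) × (Fin k → ℝ)) × ℝ) (η : Fin k → ℝ) =>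
      (∫ ξ, f (ξ, η) * chr (p.1.1, p.2) (par ξ) ∂(cube m)) * chr (p.1.2, p.2) (par η))
  apply StronglyMeasurable.mul
  · apply StronglyMeasurable.integral_prod_right
      (f := fun (z : (((Fin m → ℝ) × (Fin k → ℝ)) × ℝ) × (Fin k → ℝ)) (ξ : Fin m → ℝ) =>
      f (ξ, z.2) * chr (z.1.1.1, z.1.2) (par ξ))
    apply Measurable.stronglyMeasurable
    apply Measurable.mul
    · exact hf.comp (measurable_snd.prodMk (measurable_snd.comp measurable_fst))
    · apply measurable_chr _ (measurable_par.comp measurable_snd)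
      fun_prop
  · apply Measurable.stronglyMeasurable
    apply measurable_chr _ (measurable_par.comp measurable_snd)
    fun_prop

/-- main estimate, `A > 0` -/
lemma main_pos {m k : ℕ} {w : (Fin m → ℤ) → ℝ} (hw : ∀ j, 1 ≤ w j) {q : ℝ} (hq : 0 < q) {C : ℝ}
    (hfin : ∀ (J : Finset (Fin m → ℤ)) (c : (Fin m → ℤ) → (Fin k → ℝ) → ℂ) (A : ℝ),
      0 < A → (∀ j, Measurable (c j)) → (∀ η, ∑ j ∈ J, w j * ‖c j η‖ ^ 2 ≤ A ^ 2) →
      ∫⁻ p, ‖FF m k J c p‖ₑ ^ q ≤ ENNReal.ofReal (C * A) ^ q)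
    {f : (Fin m → ℝ) × (Fin k → ℝ) → ℂ} (hf : Measurable f) {M : ℝ}
    (hM : ∀ ξ, ‖f ξ‖ ≤ M) {A : ℝ} (hA0 : 0 < A)
    (hA : ∀ᵐ η ∂(cube k), ∀ J : Finset (Fin m → ℤ), ∑ j ∈ J, w j * ‖coef f j η‖ ^ 2 ≤ A ^ 2) :
    eLpNorm (extension m k f) (ENNReal.ofReal q) volume ≤ ENNReal.ofReal (C * A) := by
  classical
  -- modify the coefficients on a null set
  set G : Set (Fin k → ℝ) := {η | ∀ J : Finset (Fin m → ℤ), ∑ j ∈ J, w j * ‖coef f j η‖ ^ 2 ≤ A ^ 2}
    with hG
  have hGm : MeasurableSet G := by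
    have : G = ⋂ J : Finset (Fin m → ℤ), {η | ∑ j ∈ J, w j * ‖coef f j η‖ ^ 2 ≤ A ^ 2} := by
      ext η; simp [hG]
    rw [this]
    apply MeasurableSet.iInter
    intro J
    apply measurableSet_le _ measurable_const
    apply Finset.measurable_sum
    intro j _
    exact ((coef_meas hf j).norm.pow_const 2).const_mul _
  set c : (Fin m → ℤ) → (Fin k → ℝ) → ℂ := fun j => G.indicator (coef f j) with hc
  have hc1 : ∀ j, Measurable (c j) := fun j => (coef_meas hf j).indicator hGm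
  have hcA : ∀ η, ∀ J : Finset (Fin m → ℤ), ∑ j ∈ J, w j * ‖c j η‖ ^ 2 ≤ A ^ 2 := by
    intro η J
    by_cases hη : η ∈ G
    · have : ∀ j, c j η = coef f j η := fun j => indicator_of_mem hη _
      simp_rw [this]
      exact hη J
    · have : ∀ j, c j η = 0 := fun j => indicator_of_notMem hη _
      simp_rw [this]
      simp
      positivity
  have hcf : ∀ᵐ η ∂(cube k), ∀ j, c j η = coef f j η := by
    filter_upwards [hA] with η hη j
    exact indicator_of_mem (show η ∈ G from hη) _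
  have hp0 : ENNReal.ofReal q ≠ 0 := by simpa using hq
  have hlim := tendsto_FF hf hM hw hc1 hcA hcf
  have hfatou : ∫⁻ p, ‖(2 : ℂ) ^ m * extension m k f p‖ₑ ^ q ≤ ENNReal.ofReal (C * A) ^ q := by
    have e1 : ∀ p, ‖(2 : ℂ) ^ m * extension m k f p‖ₑ ^ q =
        Filter.liminf (fun n => ‖FF m k (Jn m n) c p‖ₑ ^ q) Filter.atTop := by
      intro p
      have h1 : Filter.Tendsto (fun n => ‖FF m k (Jn m n) c p‖ₑ ^ q) Filter.atTop
          (nhds (‖(2 : ℂ) ^ m * extension m k f p‖ₑ ^ q)) :=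
        (ENNReal.continuous_rpow_const.tendsto _).comp ((hlim p).enorm)
      exact h1.liminf_eq.symm
    simp_rw [e1]
    refine (lintegral_liminf_le fun n => ((FF_meas (Jn m n) hc1).enorm).pow_const q).trans ?_
    refine (Filter.liminf_le_liminf (Filter.Eventually.of_forall fun n =>
      hfin (Jn m n) c A hA0 hc1 (fun η => hcA η _))).trans ?_
    simp
  rw [eLpNorm_eq_lintegral_rpow_enorm_toReal hp0 ENNReal.ofReal_ne_top,
    ENNReal.toReal_ofReal hq.le]
  have h2 : ∫⁻ p, ‖extension m k f p‖ₑ ^ q ≤ ENNReal.ofReal (C * A) ^ q := by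
    refine (lintegral_mono fun p => ?_).trans hfatou
    simp only
    gcongr
    rw [enorm_mul]
    have h3 : (1 : ℝ≥0∞) ≤ ‖(2 : ℂ) ^ m‖ₑ := by
      rw [← ofReal_norm, norm_pow, ← ENNReal.ofReal_one]
      apply ENNReal.ofReal_le_ofReal
      simp
      exact one_le_pow₀ (by norm_num)
    calc ‖extension m k f p‖ₑ = 1 * ‖extension m k f p‖ₑ := (one_mul _).symm
      _ ≤ _ := by gcongr
  calc _ ≤ (ENNReal.ofReal (C * A) ^ q) ^ (1 / q) := ENNReal.rpow_le_rpow h2 (by positivity)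
    _ = _ := by
      rw [← ENNReal.rpow_mul, mul_one_div_cancel hq.ne', ENNReal.rpow_one]

/-- Main estimate. -/
theorem main_estimate (m k : ℕ) (hm : 1 ≤ m) (hk : 1 ≤ k) (W : (Fin m → ℤ) → ℝ)
    (hW : ∀ j, 1 ≤ W j) (ρ : ℝ) (hρ : 0 < ρ) (hρm : ρ < m + 2)
    (hS : Summable fun j => W j ^ (-ρ)) (q : ℝ) (hq : 2 * (m + 2) / (m + 1) < q) :
    ∃ C : ℝ, 0 ≤ C ∧ ∀ f : (Fin m → ℝ) × (Fin k → ℝ) → ℂ, Measurable f →
      (∃ M : ℝ, ∀ ξ, ‖f ξ‖ ≤ M) → ∀ A : ℝ, 0 ≤ A →
      (∀ᵐ η ∂(volume.restrict (Icc (-1 : Fin k → ℝ) 1)), ∀ J : Finset (Fin m → ℤ),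
        ∑ j ∈ J, W j * ‖coef f j η‖ ^ 2 ≤ A ^ 2) →
      eLpNorm (extension m k f) (ENNReal.ofReal q) volume ≤ ENNReal.ofReal (C * A) := by
  obtain ⟨θ, h0, h1, h2, h3, h4⟩ := exists_theta hm hρm hq
  obtain ⟨C, hC, hfin⟩ := finite_est (m := m) hk hW hρ hS h0 h1 h2 h3 h4
  have hq0 : 0 < q := by linarith
  refine ⟨C, hC, ?_⟩
  rintro f hf ⟨M, hM⟩ A hA0 hA
  have key : ∀ n : ℕ, eLpNorm (extension m k f) (ENNReal.ofReal q) volume ≤
      ENNReal.ofReal (C * (A + 1 / ((n : ℝ) + 1))) := by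
    intro n
    have hn : 0 < 1 / ((n : ℝ) + 1) := by positivity
    apply main_pos hW hq0 hfin hf hM (by linarith)
    filter_upwards [hA] with η hη J
    exact (hη J).trans (pow_le_pow_left₀ hA0 (by linarith) 2)
  have h5 := (tendsto_one_div_add_atTop_nhds_zero_nat (𝕜 := ℝ)).const_add A
  rw [add_zero] at h5
  exact ge_of_tendsto' (ENNReal.tendsto_ofReal (h5.const_mul C)) key

end Pool.Agent.H.MP_b7167f_an
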