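import Mathlib
import Pool.Agent.H.MP_b7167f_an.Graph
import Pool.Agent.H.MP_b7167f_an.FormK

open MeasureTheory Set
open scoped ENNReal NNReal

namespace Pool.Agent.H.MP_b7167f_an

universe v

variable {n : ℕ}

/-- a product form at scaled vectors with one free slot -/
lemma map_smul_update' (F : HForm.{v} n) (c : ℂ) (ξ : Fin n → ℝ) (l : Fin n) (w : F.H l) :
    F.T (Function.update (fun i => c • F.u i (ξ i)) l w)
      = c ^ (n - 1) * F.T (Function.update (fun i => F.u i (ξ i)) l w) := by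
  have h1 : Function.update (fun i => c • F.u i (ξ i)) l w
      = fun i => (Function.update (fun _ => c) l 1) i •
        (Function.update (fun i => F.u i (ξ i)) l w) i := by
    funext i
    by_cases hi : i = l
    · subst hi; simp
    · simp [Function.update_of_ne hi]
  rw [h1, F.T.map_smul_univ, smul_eq_mul]
  congr 1
  rw [Finset.prod_update_of_mem (Finset.mem_univ l), one_mul, Finset.prod_const]
  congr 1
  rw [Finset.sdiff_singleton_eq_erase, Finset.card_erase_of_mem (Finset.mem_univ l),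
    Finset.card_univ, Fintype.card_fin]

/-- the linear functional with one free slot -/
noncomputable def slotL (F : HForm.{v} n) (l : Fin n) (ξ : Fin n → ℝ) : F.H l →L[ℂ] ℂ :=
  F.T.toContinuousLinearMap (fun i => F.u i (ξ i)) l

lemma slotL_apply (F : HForm.{v} n) (l : Fin n) (ξ : Fin n → ℝ) (w : F.H l) :
    slotL F l ξ w = F.T (Function.update (fun i => F.u i (ξ i)) l w) := rfl

lemma norm_slotL_le (F : HForm.{v} n) (l : Fin n) {ξ : Fin n → ℝ}
    (hξ : ξ ∈ cube n) (w : F.H l) : ‖slotL F l ξ w‖ ≤ ‖F.T‖ * ‖w‖ := by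
  rw [slotL_apply]
  have h1 : ∀ i, ‖(Function.update (fun i => F.u i (ξ i)) l w) i‖
      = Function.update (fun i => ‖F.u i (ξ i)‖) l ‖w‖ i := by
    intro i
    by_cases hi : i = l
    · subst hi; simp
    · simp [Function.update_of_ne hi]
  calc ‖F.T (Function.update (fun i => F.u i (ξ i)) l w)‖
      ≤ ‖F.T‖ * ∏ i, ‖(Function.update (fun i => F.u i (ξ i)) l w) i‖ := F.T.le_opNorm _
    _ = ‖F.T‖ * (‖w‖ * ∏ i ∈ Finset.univ \ {l}, ‖F.u i (ξ i)‖) := by
        simp_rw [h1]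
        rw [Finset.prod_update_of_mem (Finset.mem_univ l)]
    _ ≤ ‖F.T‖ * (‖w‖ * 1) := by
        apply mul_le_mul_of_nonneg_left _ (norm_nonneg _)
        apply mul_le_mul_of_nonneg_left _ (norm_nonneg _)
        apply Finset.prod_le_one
        · intro i _; exact norm_nonneg _
        · intro i _; exact F.bd i _ (mem_cube.1 hξ i)
    _ = ‖F.T‖ * ‖w‖ := by rw [mul_one]

lemma sm_slotL (F : HForm.{v} n) (l : Fin n) (w : F.H l) :
    StronglyMeasurable (fun ξ => slotL F l ξ w) := by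
  have h1 : StronglyMeasurable (fun ξ : Fin n → ℝ =>
      (Function.update (fun i => F.u i (ξ i)) l w : ∀ i, F.H i)) := by
    apply stronglyMeasurable_pi'
    intro i
    by_cases hi : i = l
    · subst hi
      simp only [Function.update_self]
      exact stronglyMeasurable_const
    · simp only [Function.update_of_ne hi]
      exact (F.sm i).comp_measurable (measurable_pi_apply i)
  exact F.T.cont.comp_stronglyMeasurable h1

lemma volume_cube_ne_top : (volume.restrict (cube n)) univ ≠ ∞ := by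
  rw [Measure.restrict_apply_univ, volume_cube]
  exact ENNReal.pow_ne_top (by norm_num)

instance : IsFiniteMeasure ((volume : Measure (Fin n → ℝ)).restrict (cube n)) :=
  ⟨lt_top_iff_ne_top.2 volume_cube_ne_top⟩

lemma memLp_slotL (F : HForm.{v} n) (l : Fin n) (w : F.H l) :
    MemLp (fun ξ => slotL F l ξ w) 2 ((volume : Measure (Fin n → ℝ)).restrict (cube n)) := by
  apply MemLp.of_bound (sm_slotL F l w).aestronglyMeasurable (‖F.T‖ * ‖w‖)
  filter_upwards [ae_restrict_mem measurableSet_cube] with ξ hξ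
  exact norm_slotL_le F l hξ w

/-- the map `h ↦ (ξ ↦ T(…, h, …))` into `L²` of the cube, as a linear map -/
noncomputable def MLin (F : HForm.{v} n) (l : Fin n) :
    F.H l →ₗ[ℂ] Lp ℂ 2 ((volume : Measure (Fin n → ℝ)).restrict (cube n)) where
  toFun w := (memLp_slotL F l w).toLp
  map_add' w w' := by
    rw [← MemLp.toLp_add]
    congr 1
    funext ξ
    simp
  map_smul' c w := by
    rw [RingHom.id_apply, ← MemLp.toLp_const_smul]
    congr 1
    funext ξ
    simp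

lemma enorm_MLin (F : HForm.{v} n) (l : Fin n) (w : F.H l) :
    ‖MLin F l w‖ₑ ^ 2 = ∫⁻ ξ in cube n, ‖slotL F l ξ w‖ₑ ^ 2 := by
  have h1 : ‖MLin F l w‖ₑ = eLpNorm (fun ξ => slotL F l ξ w) 2
      ((volume : Measure (Fin n → ℝ)).restrict (cube n)) := by
    change ‖(memLp_slotL F l w).toLp‖ₑ = _
    rw [Lp.enorm_def]
    exact eLpNorm_congr_ae (MemLp.coeFn_toLp _)
  rw [h1]
  have h2 := eLpNorm_nnreal_pow_eq_lintegral (f := fun ξ => slotL F l ξ w)
    (μ := (volume : Measure (Fin n → ℝ)).restrict (cube n)) (p := 2) (by norm_num)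
  simp only [NNReal.coe_ofNat, ENNReal.rpow_ofNat, ENNReal.coe_ofNat] at h2
  exact h2

/-- the map `h ↦ (ξ ↦ T(…, h, …))` into `L²` of the cube -/
noncomputable def MCLM (F : HForm.{v} n) (l : Fin n) :
    F.H l →L[ℂ] Lp ℂ 2 ((volume : Measure (Fin n → ℝ)).restrict (cube n)) :=
  (MLin F l).mkContinuous (Real.sqrt (2 ^ n) * ‖F.T‖) (fun w => by
    have h1 : ‖MLin F l w‖ₑ ^ 2 ≤ ENNReal.ofReal ((Real.sqrt (2 ^ n) * ‖F.T‖ * ‖w‖) ^ 2) := by
      rw [enorm_MLin]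
      calc ∫⁻ ξ in cube n, ‖slotL F l ξ w‖ₑ ^ 2
          ≤ ∫⁻ _ξ in cube n, ENNReal.ofReal ((‖F.T‖ * ‖w‖) ^ 2) := by
            apply setLIntegral_mono' measurableSet_cube
            intro ξ hξ
            rw [← ofReal_norm, ← ENNReal.ofReal_pow (norm_nonneg _)]
            apply ENNReal.ofReal_le_ofReal
            exact pow_le_pow_left₀ (norm_nonneg _) (norm_slotL_le F l hξ w) 2
        _ = ENNReal.ofReal ((Real.sqrt (2 ^ n) * ‖F.T‖ * ‖w‖) ^ 2) := by
            rw [lintegral_const, Measure.restrict_apply_univ, volume_cube]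
            have h2 : (2:ℝ≥0∞) ^ n = ENNReal.ofReal (2 ^ n) := by
              rw [ENNReal.ofReal_pow (by norm_num)]; norm_num
            rw [h2, ← ENNReal.ofReal_mul (by positivity)]
            congr 1
            rw [mul_assoc, mul_pow (Real.sqrt _), Real.sq_sqrt (by positivity)]
            ring
    rw [← ofReal_norm, ← ENNReal.ofReal_pow (norm_nonneg _),
      ENNReal.ofReal_le_ofReal_iff (by positivity)] at h1
    exact (pow_le_pow_iff_left₀ (norm_nonneg _) (by positivity) two_ne_zero).1 h1)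

lemma enorm_MCLM (F : HForm.{v} n) (l : Fin n) (w : F.H l) :
    ‖MCLM F l w‖ₑ ^ 2 = ∫⁻ ξ in cube n, ‖slotL F l ξ w‖ₑ ^ 2 := enorm_MLin F l w

lemma slotL_self (F : HForm.{v} n) (l : Fin n) (s : ℝ) (ξ : Fin n → ℝ) :
    slotL F l ξ (F.u l s) = F.val (Function.update ξ l s) := by
  rw [slotL_apply]
  unfold HForm.val
  congr 1
  funext i
  by_cases hi : i = l
  · subst hi; simp
  · rw [Function.update_of_ne hi, Function.update_of_ne hi]

variable (F : HForm.{v} n) (δ : Fin n → ℝ)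

/-- the scaled map -/
noncomputable def NN (l : Fin n) :
    F.H l →L[ℂ] Lp ℂ 2 ((volume : Measure (Fin n → ℝ)).restrict (cube n)) :=
  (((δ l)⁻¹ : ℝ) : ℂ) • MCLM F l

variable {F δ}

lemma enorm_NN (hδ : ∀ l, 0 < δ l) (l : Fin n) (w : F.H l) :
    ‖NN F δ l w‖ₑ ^ 2 = ENNReal.ofReal ((δ l)⁻¹ ^ 2) * ∫⁻ ξ in cube n, ‖slotL F l ξ w‖ₑ ^ 2 := by
  unfold NN
  rw [← enorm_MCLM]
  change ‖(((δ l)⁻¹ : ℝ) : ℂ) • (MCLM F l w)‖ₑ ^ 2 = _
  rw [enorm_smul, mul_pow]
  congr 1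
  rw [← ofReal_norm, Complex.norm_real, Real.norm_eq_abs, abs_of_pos (inv_pos.2 (hδ l)),
    ENNReal.ofReal_pow (inv_pos.2 (hδ l)).le]

lemma norm_NN_u_le (hδ : ∀ l, 0 < δ l)
    (hF : ∀ l, ∀ s ∈ Icc (-1:ℝ) 1, ∫⁻ ξ in cube n, ‖F.val (Function.update ξ l s)‖ₑ ^ 2
      ≤ ENNReal.ofReal (δ l ^ 2)) (l : Fin n) {s : ℝ} (hs : s ∈ Icc (-1:ℝ) 1) :
    ‖NN F δ l (F.u l s)‖ ≤ 1 := by
  have h1 : ‖NN F δ l (F.u l s)‖ₑ ^ 2 ≤ 1 := by
    rw [enorm_NN hδ]
    simp_rw [slotL_self]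
    calc _ ≤ ENNReal.ofReal ((δ l)⁻¹ ^ 2) * ENNReal.ofReal (δ l ^ 2) := by
          gcongr; exact hF l s hs
      _ = 1 := by
          rw [← ENNReal.ofReal_mul (by positivity), ← mul_pow, inv_mul_cancel₀ (hδ l).ne',
            one_pow, ENNReal.ofReal_one]
  rw [← ofReal_norm, ← ENNReal.ofReal_pow (norm_nonneg _), ENNReal.ofReal_le_one] at h1
  exact (sq_le_one_iff₀ (norm_nonneg _)).1 h1

lemma sqrt_two_inv_sq : ((Real.sqrt 2)⁻¹) ^ 2 = 1 / 2 := by
  rw [inv_pow, Real.sq_sqrt (by norm_num)]; norm_num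

variable (F δ)

/-- the renormed form: the multilinear map -/
noncomputable def rT : ContinuousMultilinearMap ℂ (fun l => Gr (NN F δ l)) ℂ :=
  (((Real.sqrt 2) ^ n : ℝ) : ℂ) • F.T.compContinuousLinearMap (fun l => grFst (NN F δ l))

/-- the renormed form: the one-variable functions -/
noncomputable def rU (l : Fin n) (s : ℝ) : Gr (NN F δ l) :=
  (((Real.sqrt 2)⁻¹ : ℝ) : ℂ) • grJ (NN F δ l) (F.u l s)

variable {F δ}

lemma norm_rU_le (hδ : ∀ l, 0 < δ l)
    (hF : ∀ l, ∀ s ∈ Icc (-1:ℝ) 1, ∫⁻ ξ in cube n, ‖F.val (Function.update ξ l s)‖ₑ ^ 2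
      ≤ ENNReal.ofReal (δ l ^ 2)) (l : Fin n) {s : ℝ} (hs : s ∈ Icc (-1:ℝ) 1) :
    ‖rU F δ l s‖ ≤ 1 := by
  have h1 : ‖rU F δ l s‖ ^ 2 ≤ 1 := by
    unfold rU
    rw [norm_smul, mul_pow, Complex.norm_real, Real.norm_eq_abs, sq_abs, sqrt_two_inv_sq,
      norm_sq_grJ]
    have h2 := F.bd l s hs
    have h3 := norm_NN_u_le hδ hF l hs
    have h4 : ‖F.u l s‖ ^ 2 ≤ 1 := pow_le_one₀ (norm_nonneg _) h2
    have h5 : ‖NN F δ l (F.u l s)‖ ^ 2 ≤ 1 := pow_le_one₀ (norm_nonneg _) h3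
    linarith
  exact (sq_le_one_iff₀ (norm_nonneg _)).1 h1

lemma sm_rU (l : Fin n) : StronglyMeasurable (rU F δ l) :=
  (ContinuousLinearMap.continuous
    ((((Real.sqrt 2)⁻¹ : ℝ) : ℂ) • grJ (NN F δ l))).comp_stronglyMeasurable (F.sm l)

lemma grFst_rU (l : Fin n) (s : ℝ) :
    grFst (NN F δ l) (rU F δ l s) = (((Real.sqrt 2)⁻¹ : ℝ) : ℂ) • F.u l s := by
  unfold rU
  rw [map_smul, grFst_grJ]

lemma rT_apply (x : ∀ l, Gr (NN F δ l)) :
    rT F δ x = (((Real.sqrt 2) ^ n : ℝ) : ℂ) * F.T (fun l => grFst (NN F δ l) (x l)) := rfl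

/-- the renormed form -/
noncomputable def renorm (F : HForm.{v} n) (δ : Fin n → ℝ) (hδ : ∀ l, 0 < δ l)
    (hF : ∀ l, ∀ s ∈ Icc (-1:ℝ) 1, ∫⁻ ξ in cube n, ‖F.val (Function.update ξ l s)‖ₑ ^ 2
      ≤ ENNReal.ofReal (δ l ^ 2)) : HForm.{v} n where
  H l := Gr (NN F δ l)
  T := rT F δ
  u l s := rU F δ l s
  sm l := sm_rU l
  bd l s hs := norm_rU_le hδ hF l hs

lemma rT_val (ξ : Fin n → ℝ) : rT F δ (fun l => rU F δ l (ξ l)) = F.val ξ := by
  rw [rT_apply]
  simp_rw [grFst_rU]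
  rw [F.T.map_smul_univ (fun _ => (((Real.sqrt 2)⁻¹ : ℝ) : ℂ)) (fun l => F.u l (ξ l)),
    Finset.prod_const, Finset.card_univ, Fintype.card_fin, smul_eq_mul, ← mul_assoc]
  have h2 : (((Real.sqrt 2) ^ n : ℝ) : ℂ) * (((Real.sqrt 2)⁻¹ : ℝ) : ℂ) ^ n = 1 := by
    rw [← Complex.ofReal_pow, ← Complex.ofReal_mul, ← mul_pow,
      mul_inv_cancel₀ (by positivity), one_pow, Complex.ofReal_one]
  rw [h2, one_mul]
  rfl

lemma norm_rT_le : ‖rT F δ‖ ≤ (Real.sqrt 2) ^ n * ‖F.T‖ := by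
  apply ContinuousMultilinearMap.opNorm_le_bound (by positivity)
  intro x
  rw [rT_apply, norm_mul, Complex.norm_real, Real.norm_eq_abs, abs_of_pos (by positivity),
    mul_assoc]
  apply mul_le_mul_of_nonneg_left _ (by positivity)
  refine (F.T.le_opNorm _).trans ?_
  apply mul_le_mul_of_nonneg_left _ (norm_nonneg _)
  apply Finset.prod_le_prod
  · intro l _; exact norm_nonneg _
  · intro l _
    exact norm_grFst_le (NN F δ l) (x l)

lemma rT_K (hδ : ∀ l, 0 < δ l) (l : Fin n) (h : Gr (NN F δ l)) :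
    ∫⁻ ξ in cube n, ‖rT F δ (Function.update (fun i => rU F δ i (ξ i)) l h)‖ₑ ^ 2
      ≤ ENNReal.ofReal (2 * δ l ^ 2) * ‖h‖ₑ ^ 2 := by
  have hn : 0 < n := l.pos
  set w : F.H l := grFst (NN F δ l) h with hw
  have h1 : ∀ ξ : Fin n → ℝ, rT F δ (Function.update (fun i => rU F δ i (ξ i)) l h)
      = ((Real.sqrt 2 : ℝ) : ℂ) * slotL F l ξ w := by
    intro ξ
    rw [rT_apply]
    have h2 : (fun i => grFst (NN F δ i) (Function.update (fun i => rU F δ i (ξ i)) l h i))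
        = Function.update (fun i => (((Real.sqrt 2)⁻¹ : ℝ) : ℂ) • F.u i (ξ i)) l w := by
      funext i
      by_cases hi : i = l
      · subst hi
        rw [Function.update_self, Function.update_self]
      · rw [Function.update_of_ne hi, Function.update_of_ne hi, grFst_rU]
    rw [h2, map_smul_update', ← mul_assoc, slotL_apply]
    congr 1
    rw [← Complex.ofReal_pow, ← Complex.ofReal_mul]
    congr 1
    obtain ⟨k, rfl⟩ : ∃ k, n = k + 1 := ⟨n - 1, by omega⟩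
    rw [Nat.add_sub_cancel, pow_succ, mul_right_comm, ← mul_pow, mul_inv_cancel₀ (by positivity),
      one_pow, one_mul]
  simp_rw [h1]
  have h3 : ∀ ξ, ‖((Real.sqrt 2 : ℝ) : ℂ) * slotL F l ξ w‖ₑ ^ 2
      = ENNReal.ofReal 2 * ‖slotL F l ξ w‖ₑ ^ 2 := by
    intro ξ
    rw [enorm_mul, mul_pow]
    congr 1
    rw [← ofReal_norm, Complex.norm_real, Real.norm_eq_abs, abs_of_nonneg (Real.sqrt_nonneg _),
      ← ENNReal.ofReal_pow (Real.sqrt_nonneg _), Real.sq_sqrt (by norm_num)]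
  simp_rw [h3]
  rw [lintegral_const_mul' _ _ ENNReal.ofReal_ne_top]
  have h4 := enorm_NN hδ l w
  have h5 : ∫⁻ ξ in cube n, ‖slotL F l ξ w‖ₑ ^ 2 = ENNReal.ofReal (δ l ^ 2) *
      ‖NN F δ l w‖ₑ ^ 2 := by
    rw [h4, ← mul_assoc, ← ENNReal.ofReal_mul (by positivity), ← mul_pow,
      mul_inv_cancel₀ (hδ l).ne', one_pow, ENNReal.ofReal_one, one_mul]
  rw [h5, ← mul_assoc, ← ENNReal.ofReal_mul (by norm_num)]
  gcongr
  rw [← ofReal_norm, ← ofReal_norm]
  exact ENNReal.ofReal_le_ofReal (norm_N_grFst_le (NN F δ l) h)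

/-- **The main estimate.**  If the multilinear form represents a function which is small in `L²`
in all but one variable, uniformly in the remaining variable, then the extension is small: only
the power `q - 2` of the norm of the form enters. -/
theorem form_small {n : ℕ} (hn : 0 < n) (F : HForm.{v} n) {δ : Fin n → ℝ} (hδ : ∀ l, 0 < δ l)
    (hF : ∀ l, ∀ s ∈ Icc (-1:ℝ) 1, ∫⁻ ξ in cube n, ‖F.val (Function.update ξ l s)‖ₑ ^ 2
      ≤ ENNReal.ofReal (δ l ^ 2)) {q : ℝ} (hq : 2 ≤ q) (hQ : 4 < 2 + n * (q - 2)) :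
    ∫⁻ p : (Fin n → ℝ) × ℝ, ‖extOp n F.val p‖ₑ ^ q
      ≤ CK n q * (ENNReal.ofReal ((Real.sqrt 2) ^ n * ‖F.T‖) ^ (q - 2) *
        ∏ l, (ENNReal.ofReal (2 * δ l ^ 2)) ^ (1 / n : ℝ)) := by
  have h1 : (renorm F δ hδ hF).val = F.val := funext fun ξ => rT_val ξ
  have h2 := form_bound hn (renorm F δ hδ hF) (K := fun l => ENNReal.ofReal (2 * δ l ^ 2))
    (fun l h => rT_K hδ l h) (fun _ => ENNReal.ofReal_ne_top) hq hQ
  rw [h1] at h2
  refine h2.trans ?_
  gcongr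
  rw [← ofReal_norm]
  exact ENNReal.ofReal_le_ofReal norm_rT_le

end Pool.Agent.H.MP_b7167f_an
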