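import Mathlib
import Pool.Agent.H.MP_b7167f_an.GEnt
import Pool.Agent.H.MP_b7167f_an.GPhi
import Pool.Agent.H.MP_b7167f_an.ChainSigma
import Pool.Agent.H.MP_b7167f_an.BlkDelta
import Pool.Agent.H.MP_b7167f_an.Renorm

open MeasureTheory Set
open scoped ENNReal NNReal

namespace Pool.Agent.H.MP_b7167f_an

universe v

variable {m : ℕ}

/-- the estimate for `N` factors with given exponents: the form `F` enters through the norm
of the multilinear form and through `D`, which bounds the function in `L²` in all but one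
variable, uniformly in the remaining variable -/
def Est (m : ℕ) (q : ℝ) (N : ℕ) (i : Fin N → Fin (m + 1)) (p : Fin N → Fin (m + 1) → ℝ) (K : ℝ)
    (θ₀ : ℝ) (C : ℝ≥0∞) : Prop :=
  ∀ F : HForm.{v} (m + 1), (∀ ξ ∈ cube (m + 1), ‖F.val ξ‖ ≤ 1) → ∀ D : ℝ, 0 < D →
    (∀ l, ∀ s ∈ Icc (-1:ℝ) 1, ∫⁻ ξ in cube (m + 1), ‖F.val (Function.update ξ l s)‖ₑ ^ 2
      ≤ ENNReal.ofReal (D ^ 2)) →
    ∀ g : Fin N → (Fin (m + 1) → ℝ) → ℂ, (∀ e, Measurable (g e)) →
      (∀ e, ∀ ξ ∈ cube (m + 1), ‖g e ξ‖ ≤ 1) →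
      (∀ e j, j ≠ i e → SectionPacking (m + 1) (g e) j (p e j) K) →
      eLpNorm (extOp (m + 1) (fun ξ => F.val ξ * ∏ e, g e ξ)) (ENNReal.ofReal q) volume
        ≤ C * ENNReal.ofReal (‖F.T‖ ^ (1 - 2 / q) * D ^ (2 * θ₀ / q))

/-- the constant without factors -/
noncomputable def Czero (n : ℕ) (q : ℝ) : ℝ≥0∞ :=
  (CK n q) ^ (1 / q) * ENNReal.ofReal (((Real.sqrt 2) ^ n) ^ (1 - 2 / q) * 2 ^ (1 / q))

lemma Czero_ne_top {n : ℕ} {q : ℝ} (hq : 2 < q) (hQ : 4 < 2 + n * (q - 2)) : Czero n q ≠ ∞ := by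
  unfold Czero
  apply ENNReal.mul_ne_top _ ENNReal.ofReal_ne_top
  exact ENNReal.rpow_ne_top_of_nonneg (by positivity) (CK_ne_top hQ)

lemma est_zero {q : ℝ} (hq : 2 < q) (hQ : 4 < 2 + ((m + 1 : ℕ) : ℝ) * (q - 2)) (K : ℝ)
    (i : Fin 0 → Fin (m + 1)) (p : Fin 0 → Fin (m + 1) → ℝ) :
    Est.{v} m q 0 i p K 1 (Czero (m + 1) q) := by
  intro F _ D hD hFD g _ _ _
  simp only [Finset.univ_eq_empty, Finset.prod_empty, mul_one]
  have hq0 : 0 < q := by linarith
  have h1 := form_small (Nat.succ_pos m) F (δ := fun _ => D) (fun _ => hD) hFD hq.le hQ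
  have h2 : ∏ _l : Fin (m + 1), (ENNReal.ofReal (2 * D ^ 2)) ^ (1 / ((m + 1 : ℕ) : ℝ))
      = ENNReal.ofReal (2 * D ^ 2) := by
    rw [Finset.prod_const, Finset.card_univ, Fintype.card_fin, ← ENNReal.rpow_natCast,
      ← ENNReal.rpow_mul, one_div, inv_mul_cancel₀ (by positivity), ENNReal.rpow_one]
  rw [h2] at h1
  have hq1 : (ENNReal.ofReal q) ≠ 0 := by
    simp only [ne_eq, ENNReal.ofReal_eq_zero, not_le]; exact hq0
  rw [eLpNorm_eq_lintegral_rpow_enorm_toReal hq1 ENNReal.ofReal_ne_top,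
    ENNReal.toReal_ofReal hq0.le]
  have hq2 : 0 ≤ 1 / q := by positivity
  have hs : (0:ℝ) ≤ (Real.sqrt 2) ^ (m + 1) := by positivity
  calc (∫⁻ x : (Fin (m + 1) → ℝ) × ℝ, ‖extOp (m + 1) (fun ξ => F.val ξ) x‖ₑ ^ q) ^ (1 / q)
      ≤ (CK (m + 1) q * (ENNReal.ofReal ((Real.sqrt 2) ^ (m + 1) * ‖F.T‖) ^ (q - 2) *
          ENNReal.ofReal (2 * D ^ 2))) ^ (1 / q) := by
        gcongr
    _ = Czero (m + 1) q * ENNReal.ofReal (‖F.T‖ ^ (1 - 2 / q) * D ^ (2 / q)) := by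
        unfold Czero
        rw [ENNReal.mul_rpow_of_nonneg _ _ hq2, mul_assoc]
        congr 1
        rw [ENNReal.ofReal_rpow_of_nonneg (by positivity) (by linarith),
          ← ENNReal.ofReal_mul (by positivity), ENNReal.ofReal_rpow_of_nonneg (by positivity) hq2,
          ← ENNReal.ofReal_mul (by positivity)]
        congr 1
        rw [Real.mul_rpow (by positivity) (by positivity), ← Real.rpow_mul (by positivity),
          show (q - 2) * (1 / q) = 1 - 2 / q by field_simp,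
          Real.mul_rpow hs (norm_nonneg _), Real.mul_rpow (by norm_num) (by positivity)]
        have h3 : (D ^ 2) ^ (1 / q) = D ^ (2 / q) := by
          rw [← Real.rpow_natCast D 2, ← Real.rpow_mul hD.le]
          congr 1
          push_cast
          ring
        rw [h3]
        ring

/-- the constant of one step -/
noncomputable def Cstep (m : ℕ) (q θ K' P : ℝ) : ℝ :=
  2 * (((2:ℝ) ^ ((m:ℝ) / 2)) ^ (1 - 2 / q) * (Real.sqrt (2 * 4 ^ m)) ^ (2 * θ / q)) *
  (K' ^ ((q - 2) / (2 * q) * m) *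
    (1 + m * (2 : ℝ) ^ ((1 - 2 / q + 2 * θ / q) + (q - 2) / (2 * q) * P) /
      (1 - (2 : ℝ) ^ ((q - 2) / (2 * q) * P - (1 - 2 / q + 2 * θ / q)))))

lemma min_interp {a D D₂ : ℝ} (ha0 : 0 ≤ a) (ha1 : a ≤ 1) (hD : 0 < D) (hD₂ : 0 < D₂) {x : ℝ≥0∞}
    (hx1 : x ≤ ENNReal.ofReal (D ^ 2)) (hx2 : x ≤ ENNReal.ofReal (D₂ ^ 2)) :
    x ≤ ENNReal.ofReal ((D ^ a * D₂ ^ (1 - a)) ^ 2) := by
  have hx : x ≤ ENNReal.ofReal (min (D ^ 2) (D₂ ^ 2)) := by
    rw [ENNReal.ofReal_min]; exact le_min hx1 hx2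
  refine hx.trans (ENNReal.ofReal_le_ofReal ?_)
  generalize hy : min (D ^ 2) (D₂ ^ 2) = y
  have hy0 : 0 < y := by rw [← hy]; exact lt_min (by positivity) (by positivity)
  have hy1 : y ≤ D ^ 2 := by rw [← hy]; exact min_le_left _ _
  have hy2 : y ≤ D₂ ^ 2 := by rw [← hy]; exact min_le_right _ _
  calc y = y ^ a * y ^ (1 - a) := by
        rw [← Real.rpow_add hy0, add_sub_cancel, Real.rpow_one]
    _ ≤ (D ^ 2) ^ a * (D₂ ^ 2) ^ (1 - a) := by
        apply mul_le_mul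
        · exact Real.rpow_le_rpow hy0.le hy1 ha0
        · exact Real.rpow_le_rpow hy0.le hy2 (by linarith)
        · positivity
        · positivity
    _ = (D ^ a * D₂ ^ (1 - a)) ^ 2 := by
        rw [mul_pow, ← Real.rpow_natCast (D ^ a), ← Real.rpow_natCast (D₂ ^ (1 - a)),
          ← Real.rpow_mul hD.le, ← Real.rpow_mul hD₂.le, ← Real.rpow_natCast D,
          ← Real.rpow_natCast D₂, ← Real.rpow_mul hD.le, ← Real.rpow_mul hD₂.le]
        congr 2 <;> ring

lemma step_real {q θ₀ θ δ T' T D b c P Pg : ℝ} (hq : 2 < q) (hθ₀ : 0 < θ₀) (hθ : 0 ≤ θ)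
    (hδ : 0 < δ) (hT' : 0 ≤ T') (hT : 0 ≤ T) (hD : 0 < D) (hb : 0 ≤ b) (hc : 0 < c) (hP : 0 ≤ P)
    (hPg : P ^ (1 - 2 / q) = Pg) (h : T' ≤ δ * (b * P) * T) :
    T' ^ (1 - 2 / q) * (D ^ (θ₀ / (θ₀ + θ)) * (c * δ) ^ (1 - θ₀ / (θ₀ + θ))) ^
        (2 * (θ₀ + θ) / q)
      ≤ b ^ (1 - 2 / q) * c ^ (2 * θ / q) * (T ^ (1 - 2 / q) * D ^ (2 * θ₀ / q)) *
        (δ ^ (1 - 2 / q + 2 * θ / q) * Pg) := by
  have hq0 : 0 < q := by linarith
  have h2q : 2 / q < 1 := by rw [div_lt_one hq0]; exact hq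
  have hexp : 0 ≤ 1 - 2 / q := by linarith
  have hθs : 0 < θ₀ + θ := by linarith
  have hcδ : 0 < c * δ := mul_pos hc hδ
  have h11 : T' ^ (1 - 2 / q) ≤ (δ * (b * P) * T) ^ (1 - 2 / q) :=
    Real.rpow_le_rpow hT' h hexp
  have h12 : (δ * (b * P) * T) ^ (1 - 2 / q)
      = δ ^ (1 - 2 / q) * (b ^ (1 - 2 / q) * Pg) * T ^ (1 - 2 / q) := by
    rw [Real.mul_rpow (mul_nonneg hδ.le (mul_nonneg hb hP)) hT,
      Real.mul_rpow hδ.le (mul_nonneg hb hP), Real.mul_rpow hb hP, hPg]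
  have h13 : (D ^ (θ₀ / (θ₀ + θ)) * (c * δ) ^ (1 - θ₀ / (θ₀ + θ))) ^ (2 * (θ₀ + θ) / q)
      = D ^ (2 * θ₀ / q) * (c ^ (2 * θ / q) * δ ^ (2 * θ / q)) := by
    rw [Real.mul_rpow (Real.rpow_nonneg hD.le _) (Real.rpow_nonneg hcδ.le _),
      ← Real.rpow_mul hD.le, ← Real.rpow_mul hcδ.le]
    have e1 : θ₀ / (θ₀ + θ) * (2 * (θ₀ + θ) / q) = 2 * θ₀ / q := by
      field_simp
    have e2 : (1 - θ₀ / (θ₀ + θ)) * (2 * (θ₀ + θ) / q) = 2 * θ / q := by
      field_simp; ring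
    rw [e1, e2, Real.mul_rpow hc.le hδ.le]
  have h14 : δ ^ (1 - 2 / q + 2 * θ / q) = δ ^ (1 - 2 / q) * δ ^ (2 * θ / q) := by
    rw [← Real.rpow_add hδ]
  rw [h13, h14]
  rw [h12] at h11
  calc T' ^ (1 - 2 / q) * (D ^ (2 * θ₀ / q) * (c ^ (2 * θ / q) * δ ^ (2 * θ / q)))
      ≤ (δ ^ (1 - 2 / q) * (b ^ (1 - 2 / q) * Pg) * T ^ (1 - 2 / q)) *
        (D ^ (2 * θ₀ / q) * (c ^ (2 * θ / q) * δ ^ (2 * θ / q))) := by
        apply mul_le_mul_of_nonneg_right h11
        exact mul_nonneg (Real.rpow_nonneg hD.le _)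
          (mul_nonneg (Real.rpow_nonneg hc.le _) (Real.rpow_nonneg hδ.le _))
    _ = _ := by ring

lemma est_step {q : ℝ} (hq : 2 < q) {N : ℕ} {i : Fin (N + 1) → Fin (m + 1)}
    {p : Fin (N + 1) → Fin (m + 1) → ℝ} {K : ℝ} {θ₀ θ : ℝ} (hθ₀ : 0 < θ₀) (hθ : 0 ≤ θ)
    (hθ1 : θ ≤ 1) {C : ℝ≥0∞}
    (hE : Est.{v} m q N (fun e => i e.succ) (fun e => p e.succ) K (θ₀ + θ) C)
    {p' : Fin m → ℝ} (hp'0 : ∀ j, 0 < p' j) (hpp' : ∀ j, p 0 ((i 0).succAbove j) ≤ p' j)
    {K' : ℝ} (hK1 : 1 ≤ K') (hKK' : ∀ j, max K 0 * 2 ^ (p 0 ((i 0).succAbove j)) ≤ K')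
    (hsum : (q - 2) / (2 * q) * ∑ j, p' j < 1 - 2 / q + 2 * θ / q) :
    Est.{v} m q (N + 1) i p K θ₀ (C * ENNReal.ofReal (Cstep m q θ K' (∑ j, p' j))) := by
  intro F hF1 D hD hFD g hg hg1 hgp
  have hq0 : 0 < q := by linarith
  set γ : ℝ := (q - 2) / (2 * q) with hγ
  set σ : ℝ := 1 - 2 / q + 2 * θ / q with hσ
  have h2q : 2 / q < 1 := by rw [div_lt_one hq0]; exact hq
  have hγ0 : 0 ≤ γ := div_nonneg (by linarith) (by linarith)
  have hσ0 : 0 < σ := by
    have : 0 ≤ 2 * θ / q := by positivity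
    rw [hσ]; linarith
  have hσ1 : σ ≤ 1 := by
    have : 2 * θ / q ≤ 2 / q := by gcongr; linarith
    rw [hσ]; linarith
  have hcube1 : MeasurableSet (cube (m + 1)) := measurableSet_cube
  -- the multiplier
  set G : (Fin (m + 1) → ℝ) → ℂ := fun ξ => F.val ξ * ∏ e : Fin N, g e.succ ξ with hG
  have hGm : Measurable G :=
    F.measurable_val.mul (Finset.measurable_fun_prod _ fun e _ => hg e.succ)
  have hprod1 : ∀ ξ ∈ cube (m + 1), ‖∏ e : Fin N, g e.succ ξ‖ ≤ 1 := by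
    intro ξ hξ
    rw [norm_prod]
    exact Finset.prod_le_one (fun _ _ => norm_nonneg _) fun e _ => hg1 e.succ ξ hξ
  have hG1 : ∀ ξ ∈ cube (m + 1), ‖G ξ‖ ≤ 1 := by
    intro ξ hξ
    simp only [hG]
    rw [norm_mul]
    exact mul_le_one₀ (hF1 ξ hξ) (norm_nonneg _) (hprod1 ξ hξ)
  have hfun : (fun ξ => F.val ξ * ∏ e, g e ξ) = fun ξ => G ξ * g 0 ξ := by
    funext ξ
    simp only [hG]
    rw [Fin.prod_univ_succ]
    ring
  rw [hfun]
  apply grid_lim (hg 0) (hg1 0) hGm hG1 (by linarith : 1 ≤ q)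
  intro M _ θv hθv
  have hM := cast_M_pos M
  have h1 : (fun ξ => G ξ * g 0 (fun k => repPt M (θv k) (cellIdx M (ξ k))))
      = fun ξ => G ξ * garr (i 0) M (fun b z => g 0 (ggpt (i 0) M θv b z)) ξ := by
    funext ξ
    unfold garr ggpt
    congr 2
    funext k
    refine Fin.succAboveCases (i 0) ?_ (fun j => ?_) k
    · rw [Fin.insertNth_apply_same]
    · rw [Fin.insertNth_apply_succAbove]
  rw [h1]
  have hMs : ∑ _y : Fin M, 1 / (M:ℝ) = 1 := by
    rw [Finset.sum_const, Finset.card_univ, Fintype.card_fin, nsmul_eq_mul]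
    field_simp
  set X : ℝ := ‖F.T‖ ^ (1 - 2 / q) * D ^ (2 * θ₀ / q) with hX
  have hX0 : 0 ≤ X := by positivity
  set c1 : ℝ := ((2:ℝ) ^ ((m:ℝ) / 2)) ^ (1 - 2 / q) * (Real.sqrt (2 * 4 ^ m)) ^ (2 * θ / q) with hc1
  have hc10 : 0 ≤ c1 := by positivity
  -- the block estimate
  have hblock : ∀ (π : Fin m → Fin M → Fin M) (φ : Fin M → (Fin m → Fin M) → ℂ) (δ : ℝ), 0 < δ →
      (∀ b z, ‖φ b z‖ ≤ 2) →
      (∀ b, ∑ z, (∏ i, nuW (fun _ => 1 / (M:ℝ)) (π i) (z i)) * ‖φ b z‖ ^ 2 ≤ δ ^ 2) →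
      (∀ j y, ∑ b : Fin M, 1 / (M:ℝ) * ∑ z, (∏ i, nuW (fun _ => 1 / (M:ℝ)) (π i) (z i)) *
        ‖φ b (Function.update z j y)‖ ^ 2 ≤ δ ^ 2) →
      GPhi (i 0) M G q (fun b a => φ b (fun j => π j (a j)))
        ≤ (C * ENNReal.ofReal (2 * c1 * X)) * ENNReal.ofReal (δ ^ σ *
          ∏ j, ((Finset.univ.image (π j)).card : ℝ) ^ γ) := by
    intro π φ δ hδ hφ2 hrow hcol
    have hcard : ∀ j, 0 < (Finset.univ.image (π j)).card := fun j =>
      Finset.card_pos.2 (Finset.univ_nonempty.image _)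
    have hnu0 : ∀ j y, 0 ≤ nuW (fun _ : Fin M => 1 / (M:ℝ)) (π j) y := fun j y =>
      nuW_nonneg (fun _ => by positivity) (π j) y
    have hhalf : ∀ b z, ‖φ b z / 2‖ ^ 2 ≤ ‖φ b z‖ ^ 2 := by
      intro b z
      rw [norm_div]
      have h2 : ‖(2:ℂ)‖ = 2 := by norm_num
      rw [h2, div_pow]
      have : 0 ≤ ‖φ b z‖ ^ 2 := by positivity
      linarith
    set B : BF m (Fin M) :=
      { i₀ := i 0
        a₀ := cellIdx M
        a := fun j s => π j (cellIdx M s)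
        ma₀ := measurable_cellIdx M
        ma := fun j => measurable_from_top.comp (measurable_cellIdx M)
        c := fun b z => φ b z / 2
        ν := fun j => nuW (fun _ => 1 / (M:ℝ)) (π j)
        N := fun j => ((Finset.univ.image (π j)).card : ℝ)
        δ := δ
        δ0 := hδ
        N0 := fun j => by exact_mod_cast hcard j
        h1 := fun j s _ => by
          unfold nuW
          have h3 : π j (cellIdx M s) ∈ Finset.univ.image (π j) :=
            Finset.mem_image_of_mem _ (Finset.mem_univ _)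
          rw [if_pos h3]
          have h4 : 0 ≤ ∑ y, (if π j y = π j (cellIdx M s) then 1 / (M:ℝ) else 0) :=
            Finset.sum_nonneg fun y _ => by split_ifs <;> positivity
          have h5 : 1 / (2 * ((Finset.univ.image (π j)).card : ℝ))
              = 1 / ((Finset.univ.image (π j)).card : ℝ) / 2 := by
            rw [div_div, mul_comm]
          rw [h5]
          linarith
        ν0 := fun j y => hnu0 j y
        row := fun s _ => by
          refine le_trans ?_ (hrow (cellIdx M s))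
          apply Finset.sum_le_sum
          intro z _
          exact mul_le_mul_of_nonneg_left (hhalf _ z)
            (Finset.prod_nonneg fun j _ => hnu0 j _) } with hB
    have hBi : B.i₀ = i 0 := rfl
    have hBδ : B.δ = δ := rfl
    -- the new form
    set F' : HForm.{v} (m + 1) := B.mul F with hF'
    have hfn : ∀ ξ, B.fn ξ = garr (i 0) M (fun b a => φ b (fun j => π j (a j))) ξ / 2 :=
      fun ξ => rfl
    have hval : ∀ ξ ∈ cube (m + 1), F'.val ξ = F.val ξ * B.fn ξ := fun ξ hξ => B.mul_val F hξ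
    have hfn1 : ∀ ξ, ‖B.fn ξ‖ ≤ 1 := by
      intro ξ
      rw [hfn, norm_div]
      have h2 : ‖(2:ℂ)‖ = 2 := by norm_num
      rw [h2, div_le_one (by norm_num)]
      exact hφ2 _ _
    have hF'1 : ∀ ξ ∈ cube (m + 1), ‖F'.val ξ‖ ≤ 1 := by
      intro ξ hξ
      rw [hval ξ hξ, norm_mul]
      exact mul_le_one₀ (hF1 ξ hξ) (norm_nonneg _) (hfn1 ξ)
    have hupd : ∀ ξ ∈ cube (m + 1), ∀ l, ∀ s ∈ Icc (-1:ℝ) 1,
        Function.update ξ l s ∈ cube (m + 1) := by
      intro ξ hξ l s hs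
      rw [mem_cube] at hξ ⊢
      intro k
      by_cases hk : k = l
      · subst hk; rw [Function.update_self]; exact hs
      · rw [Function.update_of_ne hk]; exact hξ k
    -- smallness
    set a : ℝ := θ₀ / (θ₀ + θ) with ha
    have hθs : 0 < θ₀ + θ := by linarith
    have ha0 : 0 < a := div_pos hθ₀ hθs
    have ha1 : a ≤ 1 := by rw [ha, div_le_one hθs]; linarith
    set D₂ : ℝ := Real.sqrt (2 * 4 ^ m) * δ with hD₂
    have hD₂0 : 0 < D₂ := by positivity
    set D' : ℝ := D ^ a * D₂ ^ (1 - a) with hD'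
    have hD'0 : 0 < D' := by positivity
    have hsmall : ∀ l, ∀ s ∈ Icc (-1:ℝ) 1,
        ∫⁻ ξ in cube (m + 1), ‖F'.val (Function.update ξ l s)‖ₑ ^ 2 ≤ ENNReal.ofReal (D' ^ 2) := by
      intro l s hs
      apply min_interp ha0.le ha1 hD hD₂0
      · refine le_trans ?_ (hFD l s hs)
        apply setLIntegral_mono' hcube1
        intro ξ hξ
        rw [hval _ (hupd ξ hξ l s hs)]
        have : ‖F.val (Function.update ξ l s) * B.fn (Function.update ξ l s)‖ₑ
            ≤ ‖F.val (Function.update ξ l s)‖ₑ := by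
          rw [← ofReal_norm, ← ofReal_norm]
          apply ENNReal.ofReal_le_ofReal
          rw [norm_mul]
          exact mul_le_of_le_one_right (norm_nonneg _) (hfn1 _)
        gcongr
      · have h5 := B.fn_small (β₀ := fun _ => 1 / (M:ℝ)) (fun _ => by positivity)
          (fun b => by
            have := gvolume_cell M b
            rwa [show 2 * (1 / (M:ℝ)) = 2 / M by ring])
          (fun j y => gvolume_cell_comp M (π j) y)
          (fun j => nuW_sum hMs (π j))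
          (fun j y => by
            refine le_trans ?_ (hcol j y)
            apply Finset.sum_le_sum
            intro b _
            apply mul_le_mul_of_nonneg_left _ (by positivity)
            apply Finset.sum_le_sum
            intro z _
            exact mul_le_mul_of_nonneg_left (hhalf _ _)
              (Finset.prod_nonneg fun j _ => hnu0 j _)) l hs
        rw [hBδ] at h5
        have h6 : D₂ ^ 2 = 2 * 4 ^ m * δ ^ 2 := by
          rw [hD₂, mul_pow, Real.sq_sqrt (by positivity)]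
        rw [h6]
        refine le_trans ?_ h5
        apply setLIntegral_mono' hcube1
        intro ξ hξ
        rw [hval _ (hupd ξ hξ l s hs)]
        have : ‖F.val (Function.update ξ l s) * B.fn (Function.update ξ l s)‖ₑ
            ≤ ‖B.fn (Function.update ξ l s)‖ₑ := by
          rw [← ofReal_norm, ← ofReal_norm]
          apply ENNReal.ofReal_le_ofReal
          rw [norm_mul]
          exact mul_le_of_le_one_left (norm_nonneg _) (hF1 _ (hupd ξ hξ l s hs))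
        gcongr
    have hIH := hE F' hF'1 D' hD'0 hsmall (fun e => g e.succ) (fun e => hg e.succ)
      (fun e => hg1 e.succ) (fun e j hj => hgp e.succ j hj)
    -- the function
    have h7 : GPhi (i 0) M G q (fun b a => φ b (fun j => π j (a j)))
        = 2 * eLpNorm (extOp (m + 1) (fun ξ => F'.val ξ * ∏ e : Fin N, g e.succ ξ))
          (ENNReal.ofReal q) volume := by
      unfold GPhi
      have h8 : extOp (m + 1) (fun ξ => G ξ * garr (i 0) M (fun b a => φ b (fun j => π j (a j))) ξ)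
          = (2:ℂ) • extOp (m + 1) (fun ξ => F'.val ξ * ∏ e : Fin N, g e.succ ξ) := by
        have h9 : extOp (m + 1)
            (fun ξ => G ξ * garr (i 0) M (fun b a => φ b (fun j => π j (a j))) ξ)
            = extOp (m + 1) (fun ξ => 2 * (F'.val ξ * ∏ e : Fin N, g e.succ ξ)) := by
          apply extOp_congr
          intro ξ hξ
          rw [hval ξ hξ, hfn]
          simp only [hG]
          ring
        rw [h9]
        funext x
        rw [extOp_const_mul', Pi.smul_apply, smul_eq_mul]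
      rw [h8, eLpNorm_const_smul]
      congr 1
      rw [← ofReal_norm]
      norm_num
    rw [h7]
    have hA : B.A = δ * ((2:ℝ) ^ ((m:ℝ) / 2) *
        ∏ j, Real.sqrt ((Finset.univ.image (π j)).card : ℝ)) := by
      change δ * ∏ j, Real.sqrt (2 * ((Finset.univ.image (π j)).card : ℝ)) = _
      congr 1
      simp_rw [Real.sqrt_mul (show (0:ℝ) ≤ 2 by norm_num)]
      rw [Finset.prod_mul_distrib, Finset.prod_const, Finset.card_univ, Fintype.card_fin]
      congr 1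
      rw [Real.sqrt_eq_rpow, ← Real.rpow_natCast, ← Real.rpow_mul (by norm_num)]
      congr 1
      ring
    have hPs0 : 0 ≤ ∏ j, Real.sqrt ((Finset.univ.image (π j)).card : ℝ) :=
      Finset.prod_nonneg fun _ _ => Real.sqrt_nonneg _
    have hPg : (∏ j, Real.sqrt ((Finset.univ.image (π j)).card : ℝ)) ^ (1 - 2 / q)
        = ∏ j, ((Finset.univ.image (π j)).card : ℝ) ^ γ := by
      rw [← Real.finsetProd_rpow _ _ (fun _ _ => Real.sqrt_nonneg _)]
      apply Finset.prod_congr rfl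
      intro j _
      rw [Real.sqrt_eq_rpow, ← Real.rpow_mul (Nat.cast_nonneg _)]
      congr 1
      rw [hγ]
      field_simp
    have h10 : ‖F'.T‖ ^ (1 - 2 / q) * D' ^ (2 * (θ₀ + θ) / q)
        ≤ c1 * X * (δ ^ σ * ∏ j, ((Finset.univ.image (π j)).card : ℝ) ^ γ) := by
      refine step_real hq hθ₀ hθ hδ (norm_nonneg _) (norm_nonneg _) hD
        (Real.rpow_nonneg (by norm_num) _) (Real.sqrt_pos.2 (by positivity)) hPs0 hPg ?_
      rw [← hA]
      exact B.norm_mul_T_le F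
    calc 2 * eLpNorm (extOp (m + 1) (fun ξ => F'.val ξ * ∏ e : Fin N, g e.succ ξ))
          (ENNReal.ofReal q) volume
        ≤ 2 * (C * ENNReal.ofReal (‖F'.T‖ ^ (1 - 2 / q) * D' ^ (2 * (θ₀ + θ) / q))) := by
          gcongr
      _ ≤ 2 * (C * ENNReal.ofReal (c1 * X * (δ ^ σ *
          ∏ j, ((Finset.univ.image (π j)).card : ℝ) ^ γ))) := by
          gcongr
      _ = _ := by
          rw [show (2:ℝ≥0∞) = ENNReal.ofReal 2 by norm_num, ← mul_assoc, mul_comm (ENNReal.ofReal 2),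
            mul_assoc, ← ENNReal.ofReal_mul (by norm_num), mul_assoc C,
            ← ENNReal.ofReal_mul (by positivity)]
          congr 2
          ring
  have hfin := chain_sigma (Y := Fin M) (β₀ := fun _ => 1 / M) (fun _ => by positivity) hMs
    (β := fun _ _ => 1 / M) (fun _ _ => by positivity) (fun _ => hMs)
    (c := fun b z => g 0 (ggpt (i 0) M θv b z)) (fun b z => hg1 0 _ (ggpt_mem hθv b z))
    (p := p') hp'0 hK1
    (fun j w hw hw1 ε hε hε1 => ghent_aux (hgp 0 _ (Fin.succAbove_ne (i 0) j)) (hpp' j)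
      (hKK' j) hθv w hw hw1 ε hε hε1)
    (Φ := GPhi (i 0) M G q) (GPhi_add (i 0) M hGm hG1 (by linarith))
    (fun S μ g B hμ hμ1 hB => GPhi_sum (i 0) M hGm hG1 (by linarith) S μ g B hμ hμ1 hB)
    hγ0 hσ0 hσ1 hblock hsum
  refine hfin.trans (le_of_eq ?_)
  have h15 : 0 < 1 - (2:ℝ) ^ (γ * ∑ j, p' j - σ) := by
    rw [sub_pos]
    apply Real.rpow_lt_one_of_one_lt_of_neg (by norm_num)
    linarith
  have hK0 : 0 ≤ K' := by linarith
  have hZ0 : 0 ≤ K' ^ (γ * m) * (1 + m * (2:ℝ) ^ (σ + γ * ∑ j, p' j) /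
      (1 - (2:ℝ) ^ (γ * ∑ j, p' j - σ))) := by positivity
  have hCs : Cstep m q θ K' (∑ j, p' j) = 2 * c1 * (K' ^ (γ * m) *
      (1 + m * (2:ℝ) ^ (σ + γ * ∑ j, p' j) / (1 - (2:ℝ) ^ (γ * ∑ j, p' j - σ)))) := rfl
  rw [hCs]
  generalize K' ^ (γ * m) * (1 + m * (2:ℝ) ^ (σ + γ * ∑ j, p' j) /
      (1 - (2:ℝ) ^ (γ * ∑ j, p' j - σ))) = Z at hZ0 ⊢
  rw [mul_assoc C, mul_assoc C, ← ENNReal.ofReal_mul (by positivity),
    ← ENNReal.ofReal_mul (by positivity)]
  congr 2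
  ring

end Pool.Agent.H.MP_b7167f_an
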