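import Mathlib
import Pool.Agent.H.MP_b7167f_an.Master
import Pool.Agent.H.MP_b7167f_an.RoughTransfer

open MeasureTheory Set
open scoped ENNReal NNReal

namespace Pool.Agent.H.MP_b7167f_an

universe v

variable {m : ℕ}

theorem est_all {q : ℝ} (hq : 2 < q) (hQ : 4 < 2 + ((m + 1 : ℕ) : ℝ) * (q - 2)) (K : ℝ) {η : ℝ}
    (hη : 0 < η) (N : ℕ) : ∀ (i : Fin N → Fin (m + 1)) (p : Fin N → Fin (m + 1) → ℝ)
    (_ : ∀ e j, 0 ≤ p e j) (θ : Fin N → ℝ) (_ : ∀ e, 0 ≤ θ e)
    (_ : ∀ e, (q - 2) / (2 * q) * ∑ j, (p e ((i e).succAbove j) + η) < 1 - 2 / q + 2 * θ e / q)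
    (θ₀ : ℝ) (_ : 0 < θ₀) (_ : θ₀ + ∑ e, θ e = 1),
    ∃ C : ℝ≥0∞, C ≠ ∞ ∧ Est.{v} m q N i p K θ₀ C := by
  induction N with
  | zero =>
    intro i p _ θ _ _ θ₀ _ h1
    have : θ₀ = 1 := by simpa using h1
    subst this
    exact ⟨Czero (m + 1) q, Czero_ne_top hq hQ, est_zero hq hQ K i p⟩
  | succ N ih =>
    intro i p hp θ hθ hc θ₀ hθ₀ h1
    rw [Fin.sum_univ_succ] at h1
    have hs0 : 0 ≤ ∑ e : Fin N, θ e.succ := Finset.sum_nonneg fun e _ => hθ e.succ
    obtain ⟨C, hC, hE⟩ := ih (fun e => i e.succ) (fun e => p e.succ) (fun e j => hp e.succ j)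
      (fun e => θ e.succ) (fun e => hθ e.succ) (fun e => hc e.succ) (θ₀ + θ 0)
      (by have := hθ 0; linarith) (by linarith)
    set P : ℝ := ∑ j, p 0 ((i 0).succAbove j) with hP
    set K' : ℝ := max 1 (max K 0 * 2 ^ P) with hK'
    refine ⟨C * ENNReal.ofReal (Cstep m q (θ 0) K' (∑ j, (p 0 ((i 0).succAbove j) + η))),
      ENNReal.mul_ne_top hC ENNReal.ofReal_ne_top, ?_⟩
    apply est_step hq hθ₀ (hθ 0) (by linarith) hE
      (p' := fun j => p 0 ((i 0).succAbove j) + η)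
      (fun j => by have := hp 0 ((i 0).succAbove j); linarith) (fun j => by linarith)
      (K' := K') (le_max_left _ _) (fun j => ?_) (hc 0)
    refine le_trans ?_ (le_max_right _ _)
    apply mul_le_mul_of_nonneg_left _ (le_max_right _ _)
    apply Real.rpow_le_rpow_of_exponent_le (by norm_num)
    exact Finset.single_le_sum (f := fun j => p 0 ((i 0).succAbove j))
      (fun i _ => hp 0 _) (Finset.mem_univ j)

/-- choice of the exponents -/
lemma exists_exps {n : ℝ} (hn : 1 ≤ n) {N m : ℕ} {S : Fin N → ℝ}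
    (hS : ∑ e, max 0 (S e - 2) < 2 * n) {q : ℝ} (hq : 2 * (n + 1) / n < q) :
    ∃ (r η : ℝ) (θ : Fin N → ℝ) (θ₀ : ℝ), 2 < r ∧ r ≤ q ∧ 2 * (n + 1) / n < r ∧ 0 < η ∧
      (∀ e, 0 ≤ θ e) ∧ 0 < θ₀ ∧ θ₀ + ∑ e, θ e = 1 ∧
      ∀ e, (r - 2) / (2 * r) * (S e + m * η) < 1 - 2 / r + 2 * θ e / r := by
  have hn0 : 0 < n := by linarith
  set Sg : ℝ := ∑ e, max 0 (S e - 2) with hSg
  have hSg0 : 0 ≤ Sg := Finset.sum_nonneg fun _ _ => le_max_left _ _
  obtain ⟨t, ht1, ht2⟩ := exists_between hS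
  have ht0 : 0 < t := by linarith
  set η : ℝ := (t - Sg) / (N * m + 1) with hη
  have hNm : (0:ℝ) < (N:ℝ) * m + 1 := by positivity
  have hη0 : 0 < η := div_pos (by linarith) hNm
  have h2 : 2 < 2 * (n + 1) / n := by
    rw [lt_div_iff₀ hn0]; linarith
  have h3 : 2 * (n + 1) / n < 2 + 4 / t := by
    have e1 : 2 * (n + 1) / n = 2 + 2 / n := by field_simp
    rw [e1]
    have : 2 / n < 4 / t := by
      rw [div_lt_div_iff₀ hn0 ht0]; linarith
    linarith
  obtain ⟨r, hr1, hr2⟩ := exists_between (lt_min hq h3)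
  have hrq : r < q := hr2.trans_le (min_le_left _ _)
  have hrt : r < 2 + 4 / t := hr2.trans_le (min_le_right _ _)
  have hr0 : 0 < r := by linarith
  have hrt' : (r - 2) / 4 * t < 1 := by
    have h4 : r - 2 < 4 / t := by linarith
    rw [lt_div_iff₀ ht0] at h4
    linarith
  set κ : ℝ := (1 - (r - 2) / 4 * t) / (N + 1) with hκ
  have hκ0 : 0 < κ := div_pos (by linarith) (by positivity)
  set θ : Fin N → ℝ := fun e => (r - 2) / 4 * max 0 (S e + m * η - 2) + κ with hθ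
  have hθ0 : ∀ e, 0 ≤ θ e := by
    intro e
    have : 0 ≤ (r - 2) / 4 * max 0 (S e + m * η - 2) :=
      mul_nonneg (by linarith) (le_max_left _ _)
    simp only [hθ]
    linarith
  have hsum : ∑ e, θ e ≤ (r - 2) / 4 * t + N * κ := by
    simp only [hθ]
    rw [Finset.sum_add_distrib, Finset.sum_const, Finset.card_univ, Fintype.card_fin,
      nsmul_eq_mul, ← Finset.mul_sum]
    apply add_le_add_left
    apply mul_le_mul_of_nonneg_left _ (by linarith)
    calc ∑ e, max 0 (S e + m * η - 2) ≤ ∑ e, (max 0 (S e - 2) + m * η) := by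
          apply Finset.sum_le_sum
          intro e _
          have hm0 : 0 ≤ (m:ℝ) * η := by positivity
          apply max_le
          · have := le_max_left 0 (S e - 2); linarith
          · have := le_max_right 0 (S e - 2); linarith
      _ = Sg + N * (m * η) := by
          rw [Finset.sum_add_distrib, Finset.sum_const, Finset.card_univ, Fintype.card_fin,
            nsmul_eq_mul]
      _ ≤ t := by
          have h5 : (N:ℝ) * m * η ≤ t - Sg := by
            rw [hη, mul_div_assoc', div_le_iff₀ hNm]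
            nlinarith
          linarith
  have hNκ : (N + 1) * κ = 1 - (r - 2) / 4 * t := by
    rw [hκ]; field_simp
  refine ⟨r, η, θ, 1 - ∑ e, θ e, by linarith, hrq.le, hr1, hη0, hθ0, by nlinarith, by ring, ?_⟩
  intro e
  have h6 : (r - 2) / 4 * (S e + m * η - 2) < θ e := by
    simp only [hθ]
    have : (r - 2) / 4 * (S e + m * η - 2) ≤ (r - 2) / 4 * max 0 (S e + m * η - 2) :=
      mul_le_mul_of_nonneg_left (le_max_right _ _) (by linarith)
    linarith
  have e1 : 1 - 2 / r + 2 * θ e / r = (2 * (r - 2) + 4 * θ e) / (2 * r) := by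
    field_simp
    ring
  rw [e1, div_mul_eq_mul_div, div_lt_div_iff_of_pos_right (by positivity)]
  linarith

theorem master_main (m N : ℕ) (i : Fin N → Fin (m + 1)) {p : Fin N → Fin (m + 1) → ℝ}
    (hp : ∀ e j, 0 ≤ p e j)
    (hsum : ∑ e, max 0 (∑ j, p e ((i e).succAbove j) - 2) < 2 * ((m : ℝ) + 1)) (K : ℝ) {q : ℝ}
    (hq : 2 * ((m : ℝ) + 2) / (m + 1) < q) :
    ∃ C : ℝ≥0, ∀ g : Fin N → (Fin (m + 1) → ℝ) → ℂ, (∀ e, Measurable (g e)) →
      (∀ e, ∀ ξ ∈ cube (m + 1), ‖g e ξ‖ ≤ 1) →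
      (∀ e j, j ≠ i e → SectionPacking (m + 1) (g e) j (p e j) K) → ∀ F : HForm.{v} (m + 1),
      eLpNorm (extOp (m + 1) (fun ξ => F.val ξ * ∏ e, g e ξ)) (ENNReal.ofReal q) volume
        ≤ C * ‖F.T‖ₑ := by
  have hm1 : (1:ℝ) ≤ (m:ℝ) + 1 := by
    have : (0:ℝ) ≤ m := Nat.cast_nonneg m
    linarith
  have hq' : 2 * (((m:ℝ) + 1) + 1) / (m + 1) < q := by
    refine lt_of_eq_of_lt ?_ hq
    congr 1
    ring
  obtain ⟨r, η, θ, θ₀, hr2, hrq, hrc, hη0, hθ0, hθ₀, hθs, hcond⟩ :=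
    exists_exps (m := m) hm1 hsum hq'
  have hr0 : 0 < r := by linarith
  have hq0 : 0 < q := by linarith
  have hQ : 4 < 2 + ((m + 1 : ℕ) : ℝ) * (r - 2) := by
    push_cast
    rw [div_lt_iff₀ (by linarith)] at hrc
    linarith
  obtain ⟨C, hC, hE⟩ := est_all.{v} hr2 hQ K hη0 N i p hp θ hθ0 (fun e => by
    have := hcond e
    rw [Finset.sum_add_distrib, Finset.sum_const, Finset.card_univ, Fintype.card_fin,
      nsmul_eq_mul]
    exact this) θ₀ hθ₀ hθs
  set D : ℝ := Real.sqrt (2 ^ (m + 1)) with hD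
  have hD0 : 0 < D := Real.sqrt_pos.2 (by positivity)
  set C₀ : ℝ≥0∞ := C * ENNReal.ofReal (D ^ (2 * θ₀ / r)) with hC₀
  have hC₀t : C₀ ≠ ∞ := ENNReal.mul_ne_top hC ENNReal.ofReal_ne_top
  set C₁ : ℝ≥0∞ := ((2:ℝ≥0∞) ^ (m + 1)) ^ (1 - r / q) * C₀ ^ (r / q) with hC₁
  have hrq1 : 0 ≤ 1 - r / q := by
    have : r / q ≤ 1 := by rw [div_le_one hq0]; exact hrq
    linarith
  have hC₁t : C₁ ≠ ∞ := by
    rw [hC₁]
    apply ENNReal.mul_ne_top
    · exact ENNReal.rpow_ne_top_of_nonneg hrq1 (ENNReal.pow_ne_top (by norm_num))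
    · exact ENNReal.rpow_ne_top_of_nonneg (by positivity) hC₀t
  refine ⟨C₁.toNNReal, ?_⟩
  rw [ENNReal.coe_toNNReal hC₁t]
  intro g hg hg1 hgp
  -- normalized forms
  have hnorm : ∀ F : HForm.{v} (m + 1), ‖F.T‖ ≤ 1 →
      eLpNorm (extOp (m + 1) (fun ξ => F.val ξ * ∏ e, g e ξ)) (ENNReal.ofReal q) volume
        ≤ C₁ := by
    intro F hF
    have hF1 : ∀ ξ ∈ cube (m + 1), ‖F.val ξ‖ ≤ 1 := fun ξ hξ => (F.norm_val_le hξ).trans hF
    have hFD : ∀ l, ∀ s ∈ Icc (-1:ℝ) 1,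
        ∫⁻ ξ in cube (m + 1), ‖F.val (Function.update ξ l s)‖ₑ ^ 2 ≤ ENNReal.ofReal (D ^ 2) := by
      intro l s hs
      calc ∫⁻ ξ in cube (m + 1), ‖F.val (Function.update ξ l s)‖ₑ ^ 2
          ≤ ∫⁻ _ξ in cube (m + 1), 1 := by
            apply setLIntegral_mono' measurableSet_cube
            intro ξ hξ
            have h3 : Function.update ξ l s ∈ cube (m + 1) := by
              rw [mem_cube] at hξ ⊢
              intro k
              by_cases hk : k = l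
              · subst hk; rw [Function.update_self]; exact hs
              · rw [Function.update_of_ne hk]; exact hξ k
            have h4 : ‖F.val (Function.update ξ l s)‖ₑ ≤ 1 := by
              rw [← ofReal_norm, ← ENNReal.ofReal_one]
              exact ENNReal.ofReal_le_ofReal (hF1 _ h3)
            exact pow_le_one₀ zero_le h4
        _ = ENNReal.ofReal (D ^ 2) := by
            rw [lintegral_const, Measure.restrict_apply_univ, volume_cube, one_mul, hD,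
              Real.sq_sqrt (by positivity), ENNReal.ofReal_pow (by norm_num)]
            norm_num
    have h1 : eLpNorm (extOp (m + 1) (fun ξ => F.val ξ * ∏ e, g e ξ)) (ENNReal.ofReal r) volume
        ≤ C₀ := by
      refine (hE F hF1 D hD0 hFD g hg hg1 hgp).trans ?_
      rw [hC₀]
      gcongr
      have hexp : 0 ≤ 1 - 2 / r := by
        have : 2 / r ≤ 1 := by rw [div_le_one hr0]; linarith
        linarith
      have h5 : ‖F.T‖ ^ (1 - 2 / r) ≤ 1 := Real.rpow_le_one (norm_nonneg _) hF hexp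
      exact mul_le_of_le_one_left (by positivity) h5
    have h2 : ∀ x, ‖extOp (m + 1) (fun ξ => F.val ξ * ∏ e, g e ξ) x‖ₑ ≤ (2:ℝ≥0∞) ^ (m + 1) := by
      intro x
      have := enorm_extOp_le (f := fun ξ => F.val ξ * ∏ e, g e ξ) (C := 1) (fun ξ hξ => by
        rw [norm_mul, norm_prod]
        exact mul_le_one₀ (hF1 ξ hξ) (Finset.prod_nonneg fun _ _ => norm_nonneg _)
          (Finset.prod_le_one (fun _ _ => norm_nonneg _) fun e _ => hg1 e ξ hξ)) x
      simpa using this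
    refine (eLpNorm_le_of_sup hr0 hrq (ENNReal.pow_ne_top (by norm_num)) h2).trans ?_
    rw [hC₁]
    gcongr
  intro F
  rcases eq_or_ne ‖F.T‖ 0 with h0 | h0
  · have h1 : (fun ξ => F.val ξ * ∏ e, g e ξ) = fun _ => 0 := by
      funext ξ
      have : F.T = 0 := norm_eq_zero.1 h0
      unfold HForm.val
      rw [this]
      simp
    have h2 : extOp (m + 1) (fun ξ => F.val ξ * ∏ e, g e ξ) = fun _ => 0 := by
      rw [h1]
      funext p
      unfold extOp
      simp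
    rw [h2]
    simp
  · have hpos : 0 < ‖F.T‖ := lt_of_le_of_ne (norm_nonneg _) (Ne.symm h0)
    set F' : HForm.{v} (m + 1) := ⟨F.H, ((‖F.T‖⁻¹ : ℝ) : ℂ) • F.T, F.u, F.sm, F.bd⟩ with hF'
    have hT' : ‖F'.T‖ ≤ 1 := by
      change ‖((‖F.T‖⁻¹ : ℝ) : ℂ) • F.T‖ ≤ 1
      rw [norm_smul, Complex.norm_real, Real.norm_eq_abs, abs_of_pos (inv_pos.2 hpos),
        inv_mul_cancel₀ h0]
    have h1 : (fun ξ => F.val ξ * ∏ e, g e ξ)
        = fun ξ => ((‖F.T‖ : ℝ) : ℂ) * (F'.val ξ * ∏ e, g e ξ) := by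
      funext ξ
      have : F'.val ξ = ((‖F.T‖⁻¹ : ℝ) : ℂ) * F.val ξ := rfl
      rw [this]
      have h0' : ((‖F.T‖ : ℝ) : ℂ) ≠ 0 := by exact_mod_cast h0
      push_cast
      field_simp
    have h2 : extOp (m + 1) (fun ξ => F.val ξ * ∏ e, g e ξ)
        = ((‖F.T‖ : ℝ) : ℂ) • extOp (m + 1) (fun ξ => F'.val ξ * ∏ e, g e ξ) := by
      rw [h1]
      funext p
      rw [extOp_const_mul', Pi.smul_apply, smul_eq_mul]
    rw [h2, eLpNorm_const_smul, mul_comm]
    have h3 : ‖((‖F.T‖ : ℝ) : ℂ)‖ₑ = ‖F.T‖ₑ := by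
      rw [← ofReal_norm, ← ofReal_norm, Complex.norm_real, Real.norm_eq_abs, abs_of_pos hpos]
    rw [h3]
    gcongr
    exact hnorm F' hT'

end Pool.Agent.H.MP_b7167f_an
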