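import Mathlib

/-!
The regularity threshold.
-/

namespace Pool.Agent.H.MP_b7167f_an

/-- The regularity threshold: `1/5` for `m = k = 1`, and
`m (m + 2 - k) / (2 (2 m ^ 2 + 3 m - 2 + k))` otherwise. -/
noncomputable def threshold (m k : ℕ) : ℝ :=
  if m = 1 ∧ k = 1 then 1 / 5 else
    (m : ℝ) * (m + 2 - k) / (2 * (2 * (m : ℝ) ^ 2 + 3 * m - 2 + k))

end Pool.Agent.H.MP_b7167f_an
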