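import Mathlib
import Pool.Agent.H.MP_b7167f_an.Chain2
import Pool.Agent.H.MP_b7167f_an.Thr

/-!
Choice of the parameters.
-/

namespace Pool.Agent.H.MP_b7167f_an

open Real Set

lemma sc_facts {J i : ℕ} (hJ : 1 ≤ J) (hi : i < J) :
    sc J i = sc J (i + 1) - 1 / (2 * J) ∧ 1 / 2 ≤ sc J (i + 1) ∧ sc J (i + 1) ≤ 1 := by
  have hJ0 : (1 : ℝ) ≤ J := by exact_mod_cast hJ
  have hi0 : ((i : ℝ) + 1) ≤ J := by exact_mod_cast hi
  unfold sc
  refine ⟨?_, ?_, ?_⟩
  · push_cast
    field_simp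
    ring
  · have : (0 : ℝ) ≤ ((i + 1 : ℕ) : ℝ) / (2 * J) := by positivity
    linarith
  · have : ((i + 1 : ℕ) : ℝ) / (2 * J) ≤ 1 / 2 := by
      rw [div_le_div_iff₀ (by linarith) (by norm_num)]
      push_cast
      linarith
    linarith

lemma cond_TS {n m : ℕ} {θ s lam : ℝ} (hθ1 : θ < 1) (hθn : θ * n < 2)
    (hθm : 1 < (m + 1) * θ) (hs : 0 < s) (hl0 : 0 ≤ lam) (hl1 : lam ≤ 1)
    (h1 : 1 - θ * n / 2 - 2 * s * (1 + lam * θ) < 0)
    (h2 : 1 - θ * n / 2 - m * θ * (1 - lam) / 2 - s * (1 + lam * θ) < 0) : Cond n m θ s := by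
  have hθ : 0 < θ := by
    by_contra h
    have : ((m : ℝ) + 1) * θ ≤ 0 := mul_nonpos_of_nonneg_of_nonpos (by positivity) (not_lt.mp h)
    linarith
  refine ⟨hθ, hθ1, hθn, hs.le, ?_⟩
  set g1 : ℝ := 2 * s * (1 + lam * θ) - (1 - θ * n / 2) with hg1
  set g2 : ℝ := s * (1 + lam * θ) + m * θ * (1 - lam) / 2 - (1 - θ * n / 2) with hg2
  set g3 : ℝ := (m + 1) * θ - 1 with hg3
  have hg1p : 0 < g1 := by rw [hg1]; linarith
  have hg2p : 0 < g2 := by rw [hg2]; linarith
  have hg3p : 0 < g3 := by rw [hg3]; linarith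
  set ε : ℝ := min (min g1 g2) g3 / 2 with hε
  have hεp : 0 < ε := by rw [hε]; have := lt_min (lt_min hg1p hg2p) hg3p; linarith
  have he1 : 2 * ε ≤ g1 := by
    rw [hε]; have := (min_le_left (min g1 g2) g3).trans (min_le_left _ _); linarith
  have he2 : 2 * ε ≤ g2 := by
    rw [hε]; have := (min_le_left (min g1 g2) g3).trans (min_le_right _ _); linarith
  have he3 : 2 * ε ≤ g3 := by
    rw [hε]; have := min_le_right (min g1 g2) g3; linarith
  obtain ⟨J, hJ⟩ := exists_nat_ge (s * (1 + lam * θ) / ε + 1)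
  have hlθ : 0 ≤ lam * θ := by positivity
  have hJ1 : (1 : ℝ) ≤ J := by
    have : 0 ≤ s * (1 + lam * θ) / ε := by positivity
    linarith
  have hJn : 1 ≤ J := by exact_mod_cast hJ1
  have hJε : s * (1 + lam * θ) / J ≤ ε := by
    rw [div_le_iff₀ (by linarith)]
    have h3 : s * (1 + lam * θ) / ε ≤ J := by linarith
    rw [div_le_iff₀ hεp] at h3
    linarith
  refine ⟨min (1 / 2) (g3 / 2), lam, ε, J, by positivity, ?_, hl0, hl1, hεp, hJn, ?_, ?_, ?_⟩
  · exact (min_le_left _ _).trans_lt (by norm_num)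
  · have h3 : min (1 / 2) (g3 / 2) * θ ≤ g3 / 2 := by
      have h4 : min (1 / 2) (g3 / 2) ≤ g3 / 2 := min_le_right _ _
      have h5 : 0 ≤ min (1 / 2) (g3 / 2) := by positivity
      nlinarith
    rw [hg3] at h3 he3
    linarith
  · have : 2 * s * (1 + lam * θ) ≤ 2 * s * (1 + θ) := by
      have : lam * θ ≤ θ := by nlinarith
      nlinarith
    linarith
  · intro i hi
    left
    obtain ⟨e1, e2, e3⟩ := sc_facts hJn hi
    set a := sc J (i + 1) with ha
    rw [e1]
    have h3 : 2 * (a - 1 / (2 * (J : ℝ))) * s * (1 + lam * θ) =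
        2 * a * s * (1 + lam * θ) - s * (1 + lam * θ) / J := by
      field_simp
    rw [h3]
    have h4 : 1 - θ * n / 2 - (1 - a) * m * θ * (1 - lam) - 2 * a * s * (1 + lam * θ) =
        -((2 - 2 * a) * g2 + (2 * a - 1) * g1) := by
      rw [hg1, hg2]; ring
    have h5 : 2 * ε ≤ (2 - 2 * a) * g2 + (2 * a - 1) * g1 := by
      nlinarith
    linarith

lemma cond_one {θ s : ℝ} (hθ1 : θ < 1) (hθ : 1 / 2 < θ) (hs : 1 / 5 < s) : Cond 2 1 θ s := by
  refine ⟨by linarith, hθ1, by push_cast; linarith, by linarith, ?_⟩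
  -- gaps
  set g1 : ℝ := 5 / 3 * s * (1 + θ) - (1 - θ) with hg1
  set g2 : ℝ := 4 / 3 * θ + 5 / 3 * s - 1 with hg2
  set g3 : ℝ := 2 * θ - 1 with hg3
  have hg1p : 0 < g1 := by rw [hg1]; nlinarith
  have hg2p : 0 < g2 := by rw [hg2]; linarith
  have hg3p : 0 < g3 := by rw [hg3]; linarith
  set ε : ℝ := min (min g1 g2) g3 / 3 with hε
  have hεp : 0 < ε := by rw [hε]; have := lt_min (lt_min hg1p hg2p) hg3p; linarith
  have he1 : 3 * ε ≤ g1 := by
    rw [hε]; have := (min_le_left (min g1 g2) g3).trans (min_le_left _ _); linarith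
  have he2 : 3 * ε ≤ g2 := by
    rw [hε]; have := (min_le_left (min g1 g2) g3).trans (min_le_right _ _); linarith
  have he3 : 3 * ε ≤ g3 := by
    rw [hε]; have := min_le_right (min g1 g2) g3; linarith
  have hε1 : ε < 1 := by linarith
  obtain ⟨J, hJ⟩ := exists_nat_ge (s * (1 + θ) / ε + 1)
  have hJ1 : (1 : ℝ) ≤ J := by
    have : 0 ≤ s * (1 + θ) / ε := by positivity
    linarith
  have hJn : 1 ≤ J := by exact_mod_cast hJ1
  have hJε : s * (1 + θ) / J ≤ ε := by
    rw [div_le_iff₀ (by linarith)]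
    have h3 : s * (1 + θ) / ε ≤ J := by linarith
    rw [div_le_iff₀ hεp] at h3
    linarith
  have hJε' : s / J ≤ ε := by
    refine le_trans ?_ hJε
    apply div_le_div_of_nonneg_right _ (by linarith)
    nlinarith
  have hβ : ε * θ ≤ ε := by nlinarith
  refine ⟨ε, 1, ε, J, hεp, hε1, zero_le_one, le_rfl, hεp, hJn, ?_, ?_, ?_⟩
  · push_cast
    linarith
  · push_cast
    nlinarith
  · intro i hi
    obtain ⟨e1, e2, e3⟩ := sc_facts hJn hi
    set a := sc J (i + 1) with ha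
    rw [e1]
    push_cast
    rcases le_total a (5 / 6) with h | h
    · right
      have h3 : 2 * (a - 1 / (2 * (J : ℝ))) * s = 2 * a * s - s / J := by field_simp
      rw [h3]
      -- linear in a
      have h4 : 1 - θ - 2 * θ * (1 - a) - 2 * a * s =
          (3 * a - 3 / 2) * (-g2) + (5 / 2 - 3 * a) * (1 - 2 * θ - s) := by
        rw [hg2]; ring
      have h5 : 1 - 2 * θ - s ≤ -(3 * ε) := by linarith
      have h6 : (3 * a - 3 / 2) * (-g2) + (5 / 2 - 3 * a) * (1 - 2 * θ - s) ≤ -(3 * ε) := by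
        nlinarith
      have h7 : 1 - θ + ε * θ - 2 * 1 * θ * (1 - a) - (2 * a * s - s / J) =
        (1 - θ - 2 * θ * (1 - a) - 2 * a * s) + ε * θ + s / J := by ring
      rw [h7, h4]
      linarith
    · left
      have h3 : 2 * (a - 1 / (2 * (J : ℝ))) * s * (1 + 1 * θ) =
          2 * a * s * (1 + θ) - s * (1 + θ) / J := by field_simp
      rw [h3]
      have h4 : 5 / 3 * s * (1 + θ) ≤ 2 * a * s * (1 + θ) := by
        have : 0 < s * (1 + θ) := by positivity
        nlinarith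
      linarith

lemma cond_of_threshold {m k : ℕ} (hm : 1 ≤ m) (hk : 1 ≤ k) (hkm : k ≤ m + 1) {s θ : ℝ}
    (hs : threshold m k < s) (hθ1 : θ < 1) (hθn : θ * ((m + k : ℕ) : ℝ) < 2)
    (hθm : 1 < (m + 1) * θ) : Cond (m + k) m θ s := by
  have hmR : (1 : ℝ) ≤ m := by exact_mod_cast hm
  have hkR : (1 : ℝ) ≤ k := by exact_mod_cast hk
  have hkmR : (k : ℝ) ≤ m + 1 := by exact_mod_cast hkm
  have hθ : 0 < θ := by
    by_contra h
    have : ((m : ℝ) + 1) * θ ≤ 0 := mul_nonpos_of_nonneg_of_nonpos (by positivity) (not_lt.mp h)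
    linarith
  by_cases h11 : m = 1 ∧ k = 1
  · obtain ⟨rfl, rfl⟩ := h11
    unfold threshold at hs
    rw [if_pos ⟨rfl, rfl⟩] at hs
    apply cond_one hθ1 _ hs
    push_cast at hθm
    linarith
  unfold threshold at hs
  rw [if_neg h11] at hs
  have hD : 0 < 2 * (2 * (m : ℝ) ^ 2 + 3 * m - 2 + k) := by nlinarith
  have hs0 : 0 < s := by
    refine lt_of_lt_of_le ?_ hs.le
    apply div_pos _ hD
    apply mul_pos <;> linarith
  have hkey : (m : ℝ) * (m + 2 - k) < s * (2 * (2 * (m : ℝ) ^ 2 + 3 * m - 2 + k)) := by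
    rwa [div_lt_iff₀ hD] at hs
  push_cast at hθn
  have hγ : 1 - θ * ((m : ℝ) + k) / 2 ≤ ((m : ℝ) + 2 - k) / (2 * (m + 1)) := by
    rw [le_div_iff₀ (by positivity)]
    nlinarith
  rcases le_total (θ * m) (2 * s) with h | h
  · -- lam = 0
    apply cond_TS (lam := 0) hθ1 (by push_cast; exact hθn) hθm hs0 le_rfl zero_le_one
    · push_cast
      nlinarith
    · push_cast
      nlinarith
  · set lam : ℝ := (θ * m - 2 * s) / (θ * (m + 2 * s)) with hlam
    have hms : 0 < (m : ℝ) + 2 * s := by linarith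
    have hl0 : 0 ≤ lam := by
      rw [hlam]
      apply div_nonneg (by linarith) (by positivity)
    have hl1 : lam ≤ 1 := by
      rw [hlam, div_le_one (by positivity)]
      nlinarith
    have e1 : 1 + lam * θ = m * (1 + θ) / (m + 2 * s) := by
      rw [hlam]
      field_simp
      ring
    have e2 : θ * (1 - lam) = 2 * s * (1 + θ) / (m + 2 * s) := by
      rw [hlam]
      field_simp
      ring
    have hmain : (1 - θ * ((m : ℝ) + k) / 2) * (m + 2 * s) < 2 * s * m * (1 + θ) := by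
      have h1 : (1 - θ * ((m : ℝ) + k) / 2) * (m + 2 * s) ≤
          ((m : ℝ) + 2 - k) / (2 * (m + 1)) * (m + 2 * s) :=
        mul_le_mul_of_nonneg_right hγ hms.le
      have h2 : ((m : ℝ) + 2 - k) / (2 * (m + 1)) * (m + 2 * s) <
          2 * s * m * ((m + 2) / (m + 1)) := by
        rw [div_mul_eq_mul_div, div_lt_iff₀ (by positivity)]
        have e3 : 2 * s * m * (((m : ℝ) + 2) / (m + 1)) * (2 * (m + 1)) = 4 * s * m * (m + 2) := by
          field_simp
          ring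
        rw [e3]
        nlinarith
      have h3 : ((m : ℝ) + 2) / (m + 1) ≤ 1 + θ := by
        rw [div_le_iff₀ (by positivity)]
        nlinarith
      have h4 : 2 * s * m * (((m : ℝ) + 2) / (m + 1)) ≤ 2 * s * m * (1 + θ) :=
        mul_le_mul_of_nonneg_left h3 (by positivity)
      linarith
    have hq : 1 - θ * ((m : ℝ) + k) / 2 < 2 * s * m * (1 + θ) / (m + 2 * s) := by
      rw [lt_div_iff₀ hms]; exact hmain
    apply cond_TS (lam := lam) hθ1 (by push_cast; exact hθn) hθm hs0 hl0 hl1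
    · push_cast
      rw [e1]
      have : 2 * s * (m * (1 + θ) / (m + 2 * s)) = 2 * s * m * (1 + θ) / (m + 2 * s) := by ring
      rw [this]
      linarith
    · push_cast
      rw [e1]
      have h5 : (m : ℝ) * θ * (1 - lam) / 2 = m * (2 * s * (1 + θ) / (m + 2 * s)) / 2 := by
        rw [← e2]; ring
      rw [h5]
      have : m * (2 * s * (1 + θ) / (m + 2 * s)) / 2 + s * (m * (1 + θ) / (m + 2 * s)) =
          2 * s * m * (1 + θ) / (m + 2 * s) := by ring
      linarith

/-- existence of a suitable exponent -/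
lemma exists_theta_C {m k : ℕ} (hm : 1 ≤ m) (hk : 1 ≤ k) (hkm : k ≤ m + 1) {s q : ℝ}
    (hs : threshold m k < s) (hq : 2 * ((m : ℝ) + 2) / (m + 1) < q) :
    ∃ θ : ℝ, Cond (m + k) m θ s ∧ 2 + 2 * θ ≤ q := by
  have hmR : (1 : ℝ) ≤ m := by exact_mod_cast hm
  have hkR : (1 : ℝ) ≤ k := by exact_mod_cast hk
  have hkmR : (k : ℝ) ≤ m + 1 := by exact_mod_cast hkm
  set u : ℝ := min (min 1 (2 / ((m : ℝ) + k))) ((q - 2) / 2) with hu
  have h1 : 1 / ((m : ℝ) + 1) < u := by
    rw [hu]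
    apply lt_min (lt_min _ _) _
    · rw [div_lt_one (by linarith)]; linarith
    · rw [div_lt_div_iff₀ (by linarith) (by linarith)]; linarith
    · rw [div_lt_iff₀ (by linarith)] at hq ⊢
      linarith
  obtain ⟨θ, hθ1, hθ2⟩ := exists_between h1
  refine ⟨θ, ?_, ?_⟩
  · apply cond_of_threshold hm hk hkm hs
    · exact hθ2.trans_le ((min_le_left _ _).trans (min_le_left _ _))
    · have : θ < 2 / ((m : ℝ) + k) := hθ2.trans_le ((min_le_left _ _).trans (min_le_right _ _))
      rw [lt_div_iff₀ (by linarith)] at this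
      push_cast
      exact this
    · rw [div_lt_iff₀ (by linarith)] at hθ1
      linarith
  · have : θ < (q - 2) / 2 := hθ2.trans_le (min_le_right _ _)
    linarith

end Pool.Agent.H.MP_b7167f_an
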