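import Mathlib
import Pool.Agent.H.MP_b7167f_an.Param
import Pool.Agent.H.MP_b7167f_an.Defs

/-!
Extension estimate for bounded functions with an `L²` modulus in some of the variables.
-/

namespace Pool.Agent.H.MP_b7167f_an

open MeasureTheory Complex Real Set ENNReal

variable {m k : ℕ}

/-- splitting the variables -/
noncomputable def eqv (m k : ℕ) : (Fin m ⊕ Fin k → ℝ) ≃ᵐ (Fin m → ℝ) × (Fin k → ℝ) :=
  MeasurableEquiv.sumPiEquivProdPi fun _ : Fin m ⊕ Fin k => ℝ

lemma eqv_mp (m k : ℕ) : MeasurePreserving (eqv m k) volume volume :=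
  volume_measurePreserving_sumPiEquivProdPi fun _ : Fin m ⊕ Fin k => ℝ

@[simp] lemma eqv_fst (ζ : Fin m ⊕ Fin k → ℝ) (i : Fin m) : (eqv m k ζ).1 i = ζ (Sum.inl i) := rfl

@[simp] lemma eqv_snd (ζ : Fin m ⊕ Fin k → ℝ) (i : Fin k) : (eqv m k ζ).2 i = ζ (Sum.inr i) := rfl

lemma ph2_eqv (x : (Fin m ⊕ Fin k → ℝ) × ℝ) (ζ : Fin m ⊕ Fin k → ℝ) :
    ph2 x ζ = Complex.exp (2 * Real.pi * ((∑ i, (eqv m k ζ).1 i * (eqv m k x.1).1 i +
      ∑ i, (eqv m k ζ).2 i * (eqv m k x.1).2 i +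
      (∑ i, (eqv m k ζ).1 i ^ 2 + ∑ i, (eqv m k ζ).2 i ^ 2) * x.2 : ℝ) : ℂ) * I) := by
  unfold ph2 ph
  congr 3
  rw [Fintype.sum_sum_type, Fintype.sum_sum_type]
  simp only [eqv_fst, eqv_snd]
  congr 1
  have e1 : ∀ a b : ℝ, a * b = b * a := fun a b => mul_comm a b
  simp_rw [fun i : Fin m => e1 (x.1 (Sum.inl i)), fun i : Fin k => e1 (x.1 (Sum.inr i))]
  ring

lemma extension_eq {f : (Fin m → ℝ) × (Fin k → ℝ) → ℂ}
    (hs : ∀ z, z ∉ Icc (-1 : (Fin m → ℝ) × (Fin k → ℝ)) 1 → f z = 0)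
    (x : (Fin m ⊕ Fin k → ℝ) × ℝ) :
    extension m k f (eqv m k x.1, x.2) = EI (fun ζ => f (eqv m k ζ)) x := by
  unfold extension EI
  rw [setIntegral_eq_integral_of_forall_compl_eq_zero]
  · rw [← (eqv_mp m k).integral_comp (eqv m k).measurableEmbedding]
    congr 1
    ext ζ
    rw [ph2_eqv]
  · intro z hz
    rw [hs z hz, zero_mul]

lemma eqv_single (i : Fin m) (a : ℝ) (ζ : Fin m ⊕ Fin k → ℝ) :
    eqv m k (ζ + a • ej (Sum.inl i)) = ((eqv m k ζ).1 + Pi.single i a, (eqv m k ζ).2) := by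
  apply Prod.ext
  · ext j
    simp only [eqv_fst, Pi.add_apply, Pi.smul_apply, smul_eq_mul]
    congr 1
    unfold ej
    by_cases h : j = i
    · subst h; simp
    · rw [Pi.single_eq_of_ne h, Pi.single_eq_of_ne (by simpa using h), mul_zero]
  · ext j
    simp only [eqv_snd, Pi.add_apply, Pi.smul_apply, smul_eq_mul]
    unfold ej
    rw [Pi.single_eq_of_ne (by simp), mul_zero, add_zero]

/-- The estimate for bounded functions that have an `L²` modulus of order `s` in `m` variables. -/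
theorem modulus_estimate (m k : ℕ) (hm : 1 ≤ m) (hk : 1 ≤ k) (hkm : k ≤ m + 1) (s : ℝ)
    (hs : threshold m k < s) (q : ℝ) (hq : 2 * (m + 2) / (m + 1) < q) :
    ∃ C : ℝ, 0 ≤ C ∧ ∀ f : (Fin m → ℝ) × (Fin k → ℝ) → ℂ, Measurable f →
      (∀ z, z ∉ Icc (-1 : (Fin m → ℝ) × (Fin k → ℝ)) 1 → f z = 0) →
      ∀ M B : ℝ, 0 ≤ B → (∀ z, ‖f z‖ ≤ M) →
      (∀ i : Fin m, ∀ a ∈ Icc (0 : ℝ) 1,
        ∫ z, ‖f (z.1 + Pi.single i a, z.2) - f z‖ ^ 2 ≤ (B * a ^ s) ^ 2) →
      eLpNorm (extension m k f) (ENNReal.ofReal q) volume ≤ ENNReal.ofReal (C * (M + B)) := by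
  obtain ⟨θ, hcond, hθq⟩ := exists_theta_C hm hk hkm hs hq
  set L : List (Fin m ⊕ Fin k) := (List.finRange m).map Sum.inl with hL
  have hnd : L.Nodup := (List.nodup_finRange m).map Sum.inl_injective
  have hlen : L.length = m := by rw [hL]; simp
  have hcard : Fintype.card (Fin m ⊕ Fin k) = m + k := by simp
  have hne : Nonempty (Fin m ⊕ Fin k) := ⟨Sum.inr ⟨0, hk⟩⟩
  set rr : Fin m ⊕ Fin k := Sum.inr ⟨0, hk⟩ with hrr
  have hrrL : rr ∉ L := by rw [hL, hrr]; simp
  have hcond' : Cond (Fintype.card (Fin m ⊕ Fin k)) L.length θ s := by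
    rw [hlen, hcard]; exact hcond
  have hq0 : 0 < q := by linarith [hcond.hθ]
  obtain ⟨C, hC0, hC⟩ := global_bound' hnd rr hrrL hcond' (K := 1) zero_le_one hθq
  refine ⟨C ^ (1 / q), by positivity, ?_⟩
  intro f hf hsupp M B hB hM hmod
  have hM0 : 0 ≤ M := (norm_nonneg _).trans (hM 0)
  set F : (Fin m ⊕ Fin k → ℝ) → ℂ := fun ζ => f (eqv m k ζ) with hF
  have hFm : Measurable F := hf.comp (eqv m k).measurable
  -- transfer of the integral
  have hext : Measurable (EI F) := EI_meas hFm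
  have hmp : MeasurePreserving ((eqv m k).prodCongr (MeasurableEquiv.refl ℝ)) volume volume :=
    (eqv_mp m k).prod (MeasurePreserving.id volume)
  have htrans : ∫⁻ x, ‖extension m k f x‖ₑ ^ q = ∫⁻ p, ENNReal.ofReal (‖EI F p‖ ^ q) := by
    rw [← hmp.lintegral_comp_emb (MeasurableEquiv.measurableEmbedding _)]
    apply lintegral_congr
    intro p
    have e1 : extension m k f (((eqv m k).prodCongr (MeasurableEquiv.refl ℝ)) p) = EI F p :=
      extension_eq hsupp p
    rw [e1, ← ENNReal.ofReal_rpow_of_nonneg (norm_nonneg _) hq0.le, ofReal_norm]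
  have hp0 : ENNReal.ofReal q ≠ 0 := by simpa using hq0
  rw [eLpNorm_eq_lintegral_rpow_enorm_toReal hp0 ENNReal.ofReal_ne_top,
    ENNReal.toReal_ofReal hq0.le, htrans]
  rcases (add_nonneg hM0 hB).eq_or_lt with h0 | hΛ
  · -- the trivial case
    have hM00 : M = 0 := by linarith
    have hF0 : ∀ ζ, F ζ = 0 := fun ζ => by
      have := hM (eqv m k ζ)
      rw [hM00] at this
      exact norm_le_zero_iff.mp this
    have hE0 : ∀ p, EI F p = 0 := by
      intro p
      unfold EI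
      simp [hF0]
    simp_rw [hE0]
    simp only [norm_zero]
    rw [Real.zero_rpow hq0.ne']
    simp [hq0]
  · set Λ : ℝ := M + B with hΛd
    have hgood : Good 1 Λ F := by
      refine ⟨hFm, ?_, fun ζ => (hM _).trans (by linarith)⟩
      intro ζ hζ
      apply hsupp
      intro h
      apply hζ
      rw [SK_mem]
      intro i
      rw [abs_le]
      rcases i with i | i
      · exact ⟨h.1.1 i, h.2.1 i⟩
      · exact ⟨h.1.2 i, h.2.2 i⟩
    have hmodF : Modu L s Λ F := by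
      intro j hj a ha0 ha1
      rw [hL, List.mem_map] at hj
      obtain ⟨i, _, rfl⟩ := hj
      have h1 := hmod i a ⟨ha0, ha1⟩
      have e1 : ∫ ζ, ‖F (ζ + a • ej (Sum.inl i)) - F ζ‖ ^ 2 =
          ∫ z, ‖f (z.1 + Pi.single i a, z.2) - f z‖ ^ 2 := by
        rw [← (eqv_mp m k).integral_comp (eqv m k).measurableEmbedding]
        congr 1
        ext ζ
        rw [hF]
        simp only
        rw [eqv_single]
      rw [e1]
      refine h1.trans ?_
      apply pow_le_pow_left₀ (by positivity)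
      apply mul_le_mul_of_nonneg_right _ (by positivity)
      linarith
    have h2 := hC Λ hΛ F hgood hmodF
    calc (∫⁻ p, ENNReal.ofReal (‖EI F p‖ ^ q)) ^ (1 / q)
        ≤ (ENNReal.ofReal (C * Λ ^ q)) ^ (1 / q) := ENNReal.rpow_le_rpow h2 (by positivity)
      _ = ENNReal.ofReal (C ^ (1 / q) * Λ) := by
        rw [ENNReal.ofReal_rpow_of_nonneg (by positivity) (by positivity)]
        congr 1
        rw [Real.mul_rpow hC0 (by positivity), ← Real.rpow_mul hΛ.le, mul_one_div_cancel hq0.ne',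
          Real.rpow_one]

end Pool.Agent.H.MP_b7167f_an
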