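import Mathlib
import Pool.Agent.H.MP_b7167f_an.RoughTransfer

open MeasureTheory FourierTransform Set Filter
open scoped ENNReal NNReal ComplexConjugate InnerProductSpace Topology

namespace Pool.Agent.H.MP_b7167f_an

variable {m : ℕ}

attribute [local irreducible] kV Uop

variable {f : ℝ → EV m → ℂ} {A : ℝ}

lemma kV_L2_eq (x : EV m) (t : ℝ) :
    ∫⁻ y, ‖kV (x + y) t‖ₑ ^ 2 = ∫⁻ η : EV m, ‖qV η‖ₑ ^ 2 := by
  have h1 := plancherelV (phiV_mem x t).1 (phiV_mem x t).2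
  have e1 : ∀ y, ‖𝓕 (phiV x t) y‖ₑ = ‖kV (x + y) t‖ₑ := by
    intro y; rw [fourier_phiV, RCLike.enorm_conj]
  have e2 : ∀ η : EV m, ‖phiV x t η‖ₑ = ‖qV η‖ₑ := by
    intro η; rw [phiV, enorm_mul, enorm_ch, one_mul]
  simp_rw [e1, e2] at h1
  exact h1

lemma enorm_ES_le (hf : Dat f A) {S : Set (EV m)} {β : ℝ}
    (hβ0 : 0 ≤ β) (hβ : ∀ a, ∫⁻ y in S, ‖Fh f a y‖ₑ ^ 2 ≤ ENNReal.ofReal (β ^ 2))
    (p : (ℝ × EV m) × ℝ) : ‖ES f S p‖ₑ ≤ Csup m * ENNReal.ofReal β := by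
  have hin : ∀ a, ‖IS f S p.1.2 p.2 a‖ₑ
      ≤ (∫⁻ η : EV m, ‖qV η‖ₑ ^ (2:ℝ)) ^ (1 / 2 : ℝ) * ENNReal.ofReal β := by
    intro a
    have h2 : (∫⁻ y in S, ‖Fh f a y‖ₑ ^ (2:ℝ)) ≤ ENNReal.ofReal (β ^ 2) := by
      have := hβ a
      simpa only [ENNReal.rpow_ofNat] using this
    have h3 : (ENNReal.ofReal (β ^ 2)) ^ (1 / 2 : ℝ) = ENNReal.ofReal β := by
      rw [ENNReal.ofReal_rpow_of_nonneg (by positivity) (by norm_num), ← Real.sqrt_eq_rpow,
        Real.sqrt_sq hβ0]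
    have h4 : ∫⁻ y in S, ‖kV (p.1.2 + y) p.2‖ₑ ^ (2:ℝ) ≤ ∫⁻ η : EV m, ‖qV η‖ₑ ^ (2:ℝ) := by
      refine (setLIntegral_le_lintegral _ _).trans ?_
      have := kV_L2_eq p.1.2 p.2
      simp only [ENNReal.rpow_ofNat]
      exact this.le
    calc ‖IS f S p.1.2 p.2 a‖ₑ ≤ ∫⁻ y in S, ‖kV (p.1.2 + y) p.2 * Fh f a y‖ₑ :=
          enorm_integral_le_lintegral_enorm _
      _ = ∫⁻ y in S, ((fun y : EV m => ‖kV (p.1.2 + y) p.2‖ₑ) *
            (fun y : EV m => ‖Fh f a y‖ₑ)) y := by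
          congr 1; ext y; rw [Pi.mul_apply, enorm_mul]
      _ ≤ (∫⁻ y in S, ‖kV (p.1.2 + y) p.2‖ₑ ^ (2:ℝ)) ^ (1 / 2 : ℝ) *
            (∫⁻ y in S, ‖Fh f a y‖ₑ ^ (2:ℝ)) ^ (1 / 2 : ℝ) :=
          ENNReal.lintegral_mul_le_Lp_mul_Lq _ Real.HolderConjugate.two_two
            (memLp_kV p.1.2 p.2).1.enorm.restrict (Fh_memLp hf a).1.enorm.restrict
      _ ≤ (∫⁻ η : EV m, ‖qV η‖ₑ ^ (2:ℝ)) ^ (1 / 2 : ℝ) * (ENNReal.ofReal (β ^ 2)) ^ (1 / 2 : ℝ) := by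
          gcongr
      _ = _ := by rw [h3]
  unfold ES
  calc ‖∫ a, ch (a * p.1.1 + a ^ 2 * p.2) * IS f S p.1.2 p.2 a‖ₑ
      ≤ ∫⁻ a, ‖ch (a * p.1.1 + a ^ 2 * p.2) * IS f S p.1.2 p.2 a‖ₑ :=
        enorm_integral_le_lintegral_enorm _
    _ ≤ ∫⁻ a, indicator (Icc (-1:ℝ) 1) (fun _ =>
          (∫⁻ η : EV m, ‖qV η‖ₑ ^ (2:ℝ)) ^ (1 / 2 : ℝ) * ENNReal.ofReal β) a := by
        apply lintegral_mono
        intro a
        simp only
        rw [enorm_mul, enorm_ch, one_mul]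
        by_cases h : a ∈ Icc (-1:ℝ) 1
        · rw [indicator_of_mem h]; exact hin a
        · rw [indicator_of_notMem h, IS_supp hf S _ _ h]; simp
    _ = Csup m * ENNReal.ofReal β := by
        rw [lintegral_indicator measurableSet_Icc, lintegral_const, Measure.restrict_apply_univ,
          Real.volume_Icc, Csup]
        norm_num
        ring

/-- `L^q` bound for the localised extension for all `q ≥ q1`. -/
lemma eLpNorm_ES_le2 (hf : Dat f A) {S : Set (EV m)} (hS : MeasurableSet S)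
    (hvol : volume S ≠ ∞) {β : ℝ}
    (hβ0 : 0 < β) (hβ : ∀ a, ∫⁻ y in S, ‖Fh f a y‖ₑ ^ 2 ≤ ENNReal.ofReal (β ^ 2))
    {θ : ℝ} (h0 : 0 < θ) (h1 : θ < 1)
    {q1 q : ℝ} (hq2 : 2 < q1) (hq4 : q1 ≤ 4) (ha : 1 < ((m:ℝ) + 1) * (q1 - 2) / 2)
    (hqq : q1 ≤ q) :
    eLpNorm (ES f S) (ENNReal.ofReal q) volume
      ≤ (Csup m ^ (1 - q1 / q) * CR m θ q1 ^ (1 / q)) *
        (ENNReal.ofReal β * volume S ^ ((q1 - 2) / (2 * q))) := by
  have hq10 : 0 < q1 := by linarith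
  have hq0 : 0 < q := by linarith
  have hr0 : 0 ≤ 1 - q1 / q := by
    rw [sub_nonneg, div_le_one hq0]; exact hqq
  refine (eLpNorm_le_of_sup hq10 hqq (ENNReal.mul_ne_top (Csup_ne_top m) ENNReal.ofReal_ne_top)
    (enorm_ES_le hf hβ0.le hβ)).trans ?_
  calc (Csup m * ENNReal.ofReal β) ^ (1 - q1 / q) *
        eLpNorm (ES f S) (ENNReal.ofReal q1) volume ^ (q1 / q)
      ≤ (Csup m * ENNReal.ofReal β) ^ (1 - q1 / q) *
        (CR m θ q1 ^ (1 / q1) * (ENNReal.ofReal β * volume S ^ ((q1 - 2) / (2 * q1)))) ^ (q1 / q) := by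
        gcongr
        exact eLpNorm_ES_le hf hS hvol hβ0 hβ h0 h1 hq2 hq4 ha
    _ = _ := by
        rw [ENNReal.mul_rpow_of_nonneg _ _ hr0, ENNReal.mul_rpow_of_nonneg _ _ (by positivity),
          ENNReal.mul_rpow_of_nonneg _ _ (by positivity), ← ENNReal.rpow_mul, ← ENNReal.rpow_mul]
        have e1 : 1 / q1 * (q1 / q) = 1 / q := by field_simp
        have e2 : (q1 - 2) / (2 * q1) * (q1 / q) = (q1 - 2) / (2 * q) := by field_simp
        have e3 : ENNReal.ofReal β ^ (1 - q1 / q) * ENNReal.ofReal β ^ (q1 / q)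
            = ENNReal.ofReal β := by
          rw [← ENNReal.rpow_add_of_nonneg _ _ hr0 (by positivity)]
          simp
        rw [e1, e2]
        calc Csup m ^ (1 - q1 / q) * ENNReal.ofReal β ^ (1 - q1 / q) *
              (CR m θ q1 ^ (1 / q) * (ENNReal.ofReal β ^ (q1 / q) *
                volume S ^ ((q1 - 2) / (2 * q))))
            = Csup m ^ (1 - q1 / q) * CR m θ q1 ^ (1 / q) *
              ((ENNReal.ofReal β ^ (1 - q1 / q) * ENNReal.ofReal β ^ (q1 / q)) *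
                volume S ^ ((q1 - 2) / (2 * q))) := by ring
          _ = _ := by rw [e3]

/-- The summed estimate. -/
theorem EF_bound2 (hf : Dat f A) {D : ℕ → Set (EV m)} (hD : ∀ i, MeasurableSet (D i))
    (hd : Pairwise (Function.onFun Disjoint D)) (hU : ⋃ i, D i = univ)
    (hvol : ∀ i, volume (D i) ≠ ∞) {β : ℕ → ℝ} (hβ0 : ∀ i, 0 < β i)
    (hβ : ∀ i a, ∫⁻ y in D i, ‖Fh f a y‖ₑ ^ 2 ≤ ENNReal.ofReal (β i ^ 2))
    {θ : ℝ} (h0 : 0 < θ) (h1 : θ < 1)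
    {q1 q : ℝ} (hq2 : 2 < q1) (hq4 : q1 ≤ 4) (ha : 1 < ((m:ℝ) + 1) * (q1 - 2) / 2)
    (hqq : q1 ≤ q) :
    eLpNorm (EF f) (ENNReal.ofReal q) volume
      ≤ (Csup m ^ (1 - q1 / q) * CR m θ q1 ^ (1 / q)) *
        ∑' i, (ENNReal.ofReal (β i) * volume (D i) ^ ((q1 - 2) / (2 * q))) := by
  have hq10 : 0 < q1 := by linarith
  have hq0 : 0 < q := by linarith
  refine (Lp.eLpNorm_lim_le_liminf_eLpNorm
    (f := fun N p => ∑ i ∈ Finset.range N, ES f (D i) p) ?_ (EF f) ?_).trans ?_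
  · intro N
    apply StronglyMeasurable.aestronglyMeasurable
    exact Finset.stronglyMeasurable_fun_sum _ fun i _ => sm_ES hf (hD i) (hvol i)
  · exact Eventually.of_forall fun p => tendsto_ES hf hD hd hU p
  · apply liminf_le_of_frequently_le'
    apply Frequently.of_forall
    intro N
    have e1 : (fun p => ∑ i ∈ Finset.range N, ES f (D i) p) = ∑ i ∈ Finset.range N, ES f (D i) := by
      ext p; simp
    rw [e1]
    calc eLpNorm (∑ i ∈ Finset.range N, ES f (D i)) (ENNReal.ofReal q) volume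
        ≤ ∑ i ∈ Finset.range N, eLpNorm (ES f (D i)) (ENNReal.ofReal q) volume := by
          apply eLpNorm_sum_le
          · exact fun i _ => (sm_ES hf (hD i) (hvol i)).aestronglyMeasurable
          · rw [ENNReal.one_le_ofReal]; linarith
      _ ≤ ∑ i ∈ Finset.range N, (Csup m ^ (1 - q1 / q) * CR m θ q1 ^ (1 / q)) *
            (ENNReal.ofReal (β i) * volume (D i) ^ ((q1 - 2) / (2 * q))) :=
          Finset.sum_le_sum fun i _ =>
            eLpNorm_ES_le2 hf (hD i) (hvol i) (hβ0 i) (hβ i) h0 h1 hq2 hq4 ha hqq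
      _ = (Csup m ^ (1 - q1 / q) * CR m θ q1 ^ (1 / q)) * ∑ i ∈ Finset.range N,
            (ENNReal.ofReal (β i) * volume (D i) ^ ((q1 - 2) / (2 * q))) := by
          rw [Finset.mul_sum]
      _ ≤ _ := by
          gcongr
          exact ENNReal.sum_le_tsum _

/-- The constant of the final estimate. -/
noncomputable def CS2 (m : ℕ) (θ q1 q r s : ℝ) : ℝ≥0∞ :=
  (Csup m ^ (1 - q1 / q) * CR m θ q1 ^ (1 / q)) * ∑' k : ℕ, (ENNReal.ofReal (2 ^ (-(s * k))) *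
    (ENNReal.ofReal (2 ^ ((k + 1 : ℝ) * r)) * WI m r) ^ ((q1 - 2) / (2 * q)))

lemma CS2_ne_top {θ q1 q r s : ℝ} (h1 : θ < 1) (hq2 : 2 < q1) (hq4 : q1 ≤ 4) (hqq : q1 ≤ q)
    (ha : 1 < ((m:ℝ) + 1) * (q1 - 2) / 2) (haθ : 1 < ((m:ℝ) + 1) * (q1 - 2) / 2 * θ)
    (hr : 1 < r) (hs : r * ((q1 - 2) / (2 * q)) < s) : CS2 m θ q1 q r s ≠ ∞ := by
  unfold CS2
  have hσ : 0 < (q1 - 2) / (2 * q) := div_pos (by linarith) (by linarith)
  have hq0 : 0 < q := by linarith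
  set σ : ℝ := (q1 - 2) / (2 * q) with hσdef
  apply ENNReal.mul_ne_top
  · apply ENNReal.mul_ne_top
    · apply ENNReal.rpow_ne_top_of_nonneg _ (Csup_ne_top m)
      rw [sub_nonneg, div_le_one hq0]; exact hqq
    · exact ENNReal.rpow_ne_top_of_nonneg (by positivity) (CR_ne_top h1 hq4 ha haθ)
  · have e1 : ∀ k : ℕ, ENNReal.ofReal (2 ^ (-(s * k))) *
        (ENNReal.ofReal (2 ^ ((k + 1 : ℝ) * r)) * WI m r) ^ σ
        = (ENNReal.ofReal (2 ^ (r * σ)) * WI m r ^ σ) * (ENNReal.ofReal (2 ^ (r * σ - s))) ^ k := by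
      intro k
      rw [ENNReal.mul_rpow_of_nonneg _ _ hσ.le, ENNReal.ofReal_rpow_of_nonneg (by positivity) hσ.le,
        ← ENNReal.ofReal_pow (by positivity), ← Real.rpow_natCast (2 ^ (r * σ - s)) k,
        ← Real.rpow_mul (by norm_num), ← Real.rpow_mul (by norm_num)]
      rw [← mul_assoc, ← ENNReal.ofReal_mul (by positivity), ← Real.rpow_add (by norm_num)]
      rw [mul_right_comm (ENNReal.ofReal (2 ^ (r * σ))) (WI m r ^ σ),
        ← ENNReal.ofReal_mul (by positivity), ← Real.rpow_add (by norm_num)]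
      congr 3
      ring
    simp_rw [e1]
    rw [ENNReal.tsum_mul_left, ENNReal.tsum_geometric]
    apply ENNReal.mul_ne_top
    · exact ENNReal.mul_ne_top ENNReal.ofReal_ne_top
        (ENNReal.rpow_ne_top_of_nonneg hσ.le (WI_ne_top m hr))
    · rw [ENNReal.inv_ne_top]
      have h2 : ENNReal.ofReal (2 ^ (r * σ - s)) < 1 := by
        rw [← ENNReal.ofReal_one, ENNReal.ofReal_lt_ofReal_iff (by norm_num)]
        exact Real.rpow_lt_one_of_one_lt_of_neg (by norm_num) (by linarith)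
      exact (tsub_pos_of_lt h2).ne'

/-- The bound for data with dominating mixed smoothness `s` in the last `m` variables. -/
theorem EF_bound_smooth2 (hf : Dat f A) (hA : 0 < A) {s : ℝ} (hs0 : 0 ≤ s)
    (h : ∀ a, ∫⁻ y, ENNReal.ofReal (Wt y ^ (2 * s)) * ‖Fh f a y‖ₑ ^ 2 ≤ ENNReal.ofReal (A ^ 2))
    {θ : ℝ} (h0 : 0 < θ) (h1 : θ < 1) {r : ℝ} (hr : 1 < r)
    {q1 q : ℝ} (hq2 : 2 < q1) (hq4 : q1 ≤ 4) (ha : 1 < ((m:ℝ) + 1) * (q1 - 2) / 2)
    (hqq : q1 ≤ q) :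
    eLpNorm (EF f) (ENNReal.ofReal q) volume ≤ CS2 m θ q1 q r s * ENNReal.ofReal A := by
  have hvol : ∀ k, volume (Lay m k) ≠ ∞ := fun k =>
    ((volume_Lay_le (by linarith : 0 < r) k).trans_lt
      (ENNReal.mul_lt_top ENNReal.ofReal_lt_top (WI_ne_top m hr).lt_top)).ne
  have hσ : 0 < (q1 - 2) / (2 * q) := div_pos (by linarith) (by linarith)
  refine (EF_bound2 hf (D := Lay m) measurableSet_Lay Lay_disjoint Lay_union hvol
    (β := fun k : ℕ => A * 2 ^ (-(s * k))) (fun k => by positivity)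
    (fun k a => Lay_mass hs0 (h a) k) h0 h1 hq2 hq4 ha hqq).trans ?_
  unfold CS2
  rw [mul_assoc (_ * _) _ (ENNReal.ofReal A)]
  refine mul_le_mul_right ?_ _
  rw [← ENNReal.tsum_mul_right]
  apply ENNReal.tsum_le_tsum
  intro k
  rw [ENNReal.ofReal_mul hA.le]
  calc ENNReal.ofReal A * ENNReal.ofReal (2 ^ (-(s * k))) * volume (Lay m k) ^ ((q1 - 2) / (2 * q))
      ≤ ENNReal.ofReal A * ENNReal.ofReal (2 ^ (-(s * k))) *
        (ENNReal.ofReal (2 ^ ((k + 1 : ℝ) * r)) * WI m r) ^ ((q1 - 2) / (2 * q)) := by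
        gcongr
        exact volume_Lay_le (by linarith) k
    _ = _ := by ring

end Pool.Agent.H.MP_b7167f_an
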