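import Mathlib
import Pool.Agent.H.MP_b7167f_an.FormInterp
import Pool.Agent.H.MP_b7167f_an.CubeSlice

open MeasureTheory FourierTransform Set
open scoped ENNReal NNReal ComplexConjugate InnerProductSpace

namespace Pool.Agent.H.MP_b7167f_an

universe v

variable {n : ℕ}

/-- multiply a form by a scalar -/
noncomputable def HForm.scale (F : HForm.{v} n) (c : ℂ) : HForm.{v} n where
  H := F.H
  T := c • F.T
  u := F.u
  sm := F.sm
  bd := F.bd

lemma HForm.scale_val (F : HForm.{v} n) (c : ℂ) (ξ : Fin n → ℝ) :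
    (F.scale c).val ξ = c * F.val ξ := rfl

lemma HForm.scale_norm (F : HForm.{v} n) (c : ℂ) : ‖(F.scale c).T‖ₑ = ‖c‖ₑ * ‖F.T‖ₑ :=
  enorm_smul c F.T

/-- multiply a form by a pure tensor of functions bounded by one -/
noncomputable def HForm.twist (F : HForm.{v} n) (φ : Fin n → ℝ → ℂ)
    (hφ : ∀ j, Measurable (φ j)) (hb : ∀ j s, ‖φ j s‖ ≤ 1) : HForm.{v} n where
  H := F.H
  T := F.T
  u j s := φ j s • F.u j s
  sm j := (hφ j).stronglyMeasurable.smul (F.sm j)
  bd j s hs := by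
    rw [norm_smul]
    exact mul_le_one₀ (hb j s) (norm_nonneg _) (F.bd j s hs)

lemma HForm.twist_val (F : HForm.{v} n) (φ : Fin n → ℝ → ℂ)
    (hφ : ∀ j, Measurable (φ j)) (hb : ∀ j s, ‖φ j s‖ ≤ 1) (ξ : Fin n → ℝ) :
    (F.twist φ hφ hb).val ξ = (∏ j, φ j (ξ j)) * F.val ξ := by
  unfold HForm.val HForm.twist
  simp only
  rw [ContinuousMultilinearMap.map_smul_univ F.T (fun j => φ j (ξ j)) (fun j => F.u j (ξ j)),
    smul_eq_mul]

lemma HForm.twist_T (F : HForm.{v} n) (φ : Fin n → ℝ → ℂ)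
    (hφ : ∀ j, Measurable (φ j)) (hb : ∀ j s, ‖φ j s‖ ≤ 1) :
    (F.twist φ hφ hb).T = F.T := rfl

/-- time integral of the product of the `L⁴` quantities -/
lemma HForm.prodL_time (F : HForm.{v} n) (hn : 0 < n) {r : ℝ}
    (ha : 1 < n * (r - 2) / 2) :
    ∫⁻ t, ∏ j, (F.L j t) ^ ((r - 2) / 2) ≤ Ca (n * (r - 2) / 2) := by
  have hn' : (0:ℝ) < n := by exact_mod_cast hn
  set a : ℝ := n * (r - 2) / 2 with hadef
  calc ∫⁻ t, ∏ j, (F.L j t) ^ ((r - 2) / 2)
      = ∫⁻ t, ∏ j : Fin n, (F.L j t ^ a) ^ ((1:ℝ) / n) := by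
        congr 1
        ext t
        apply Finset.prod_congr rfl
        intro j _
        rw [← ENNReal.rpow_mul]
        congr 1
        rw [hadef]; field_simp
    _ ≤ ∏ j : Fin n, (∫⁻ t, F.L j t ^ a) ^ ((1:ℝ) / n) := by
        apply ENNReal.lintegral_prod_norm_pow_le
        · intro j _
          exact ((measurable_Lop (F.adm j)).pow_const a).aemeasurable
        · rw [Finset.sum_const, Finset.card_univ, Fintype.card_fin, nsmul_eq_mul]
          field_simp
        · intro j _; positivity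
    _ ≤ ∏ _j : Fin n, (Ca a) ^ ((1:ℝ) / n) := by
        exact Finset.prod_le_prod' fun j _ =>
          ENNReal.rpow_le_rpow (Lop_time ha (F.adm j)) (by positivity)
    _ = Ca a := by
        rw [Finset.prod_const, Finset.card_univ, Fintype.card_fin, ← ENNReal.rpow_natCast,
          ← ENNReal.rpow_mul]
        rw [one_div, inv_mul_cancel₀ hn'.ne', ENNReal.rpow_one]

/-- the fixed time `L^b` quantity -/
noncomputable def HForm.Nb (F : HForm.{v} n) (b t : ℝ) : ℝ≥0∞ :=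
  ∏ j, (∫⁻ x, ‖Uop (cutoff (F.u j)) x t‖ₑ ^ b) ^ (1 / b)

lemma HForm.measurable_Nb (F : HForm.{v} n) (b : ℝ) : Measurable (F.Nb b) := by
  unfold HForm.Nb
  apply Finset.measurable_fun_prod
  intro j _
  exact (measurable_lint_Uop (F.adm j) b).pow_const _

lemma slice_meas {f : (Fin n → ℝ) → ℂ} (hf : Measurable f) (t : ℝ) :
    AEStronglyMeasurable (fun x : Fin n → ℝ => extOp n f (x, t)) volume := by
  have h : Measurable (fun x : Fin n → ℝ => ((x, t) : (Fin n → ℝ) × ℝ)) := by fun_prop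
  exact ((sm_extOp hf).comp_measurable h).aestronglyMeasurable

lemma HForm.eLpNorm_slice (F : HForm.{v} n) {b : ℝ} (hb : 0 < b) (t : ℝ) :
    eLpNorm (fun x : Fin n → ℝ => extOp n F.val (x, t)) (ENNReal.ofReal b) volume
      ≤ ‖F.T‖ₑ * F.Nb b t := by
  rw [eLpNorm_eq_lintegral_rpow_enorm_toReal (by simpa using hb) (by simp),
    ENNReal.toReal_ofReal hb.le]
  calc (∫⁻ x : Fin n → ℝ, ‖extOp n F.val (x, t)‖ₑ ^ b) ^ (1 / b)
      ≤ (∫⁻ x : Fin n → ℝ, ‖F.T‖ₑ ^ b * ∏ j, ‖Uop (cutoff (F.u j)) (x j) t‖ₑ ^ b) ^ (1 / b) := by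
        apply ENNReal.rpow_le_rpow _ (by positivity)
        apply lintegral_mono
        intro x
        simp only
        rw [ENNReal.prod_rpow_of_nonneg hb.le, ← ENNReal.mul_rpow_of_nonneg _ _ hb.le]
        exact ENNReal.rpow_le_rpow (F.enorm_ext_le x t) hb.le
    _ = (‖F.T‖ₑ ^ b * ∏ j, ∫⁻ x, ‖Uop (cutoff (F.u j)) x t‖ₑ ^ b) ^ (1 / b) := by
        rw [lintegral_const_mul' _ _ (ENNReal.rpow_ne_top_of_nonneg hb.le (by simp)),
          lintegral_fin_prod (f := fun j x => ‖Uop (cutoff (F.u j)) x t‖ₑ ^ b)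
          (fun j => measurable_enorm_Uop_x (F.adm j) t b)]
    _ = ‖F.T‖ₑ * F.Nb b t := by
        rw [ENNReal.mul_rpow_of_nonneg _ _ (by positivity), ← ENNReal.rpow_mul,
          mul_one_div_cancel hb.ne', ENNReal.rpow_one, HForm.Nb,
          ← ENNReal.prod_rpow_of_nonneg (by positivity)]

/-- Time integral of powers of the fixed time `L^b` quantity. -/
lemma HForm.Nb_time (F : HForm.{v} n) (hn : 0 < n) {r b y : ℝ} (hb2 : 2 ≤ b) (hb4 : b ≤ 4)
    (hy : 0 ≤ y) (hby : (b - 2) * y = r - 2) (ha : 1 < n * (r - 2) / 2) :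
    ∫⁻ t, (F.Nb b t) ^ (b * y) ≤ ((2:ℝ≥0∞) ^ ((4 - b) / 2 * y)) ^ n * Ca (n * (r - 2) / 2) := by
  have hb0 : 0 < b := by linarith
  have hpt : ∀ t, (F.Nb b t) ^ (b * y)
      ≤ ((2:ℝ≥0∞) ^ ((4 - b) / 2 * y)) ^ n * ∏ j, (F.L j t) ^ ((r - 2) / 2) := by
    intro t
    unfold HForm.Nb
    rw [← ENNReal.prod_rpow_of_nonneg (by positivity)]
    calc ∏ j, ((∫⁻ x, ‖Uop (cutoff (F.u j)) x t‖ₑ ^ b) ^ (1 / b)) ^ (b * y)
        = ∏ j, (∫⁻ x, ‖Uop (cutoff (F.u j)) x t‖ₑ ^ b) ^ y := by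
          apply Finset.prod_congr rfl
          intro j _
          rw [← ENNReal.rpow_mul]
          congr 1
          field_simp
      _ ≤ ∏ j, ((2:ℝ≥0∞) ^ ((4 - b) / 2 * y) * (F.L j t) ^ ((r - 2) / 2)) := by
          apply Finset.prod_le_prod'
          intro j _
          calc (∫⁻ x, ‖Uop (cutoff (F.u j)) x t‖ₑ ^ b) ^ y
              ≤ (2 ^ ((4 - b) / 2) * (F.L j t) ^ ((b - 2) / 2)) ^ y :=
                ENNReal.rpow_le_rpow (Uop_Lq (F.adm j) t hb2 hb4) hy
            _ = (2:ℝ≥0∞) ^ ((4 - b) / 2 * y) * (F.L j t) ^ ((r - 2) / 2) := by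
                rw [ENNReal.mul_rpow_of_nonneg _ _ hy, ← ENNReal.rpow_mul, ← ENNReal.rpow_mul]
                congr 2
                rw [← hby]; ring
      _ = _ := by
          rw [Finset.prod_mul_distrib, Finset.prod_const, Finset.card_univ, Fintype.card_fin]
  calc ∫⁻ t, (F.Nb b t) ^ (b * y)
      ≤ ∫⁻ t, ((2:ℝ≥0∞) ^ ((4 - b) / 2 * y)) ^ n * ∏ j, (F.L j t) ^ ((r - 2) / 2) :=
        lintegral_mono hpt
    _ = ((2:ℝ≥0∞) ^ ((4 - b) / 2 * y)) ^ n * ∫⁻ t, ∏ j, (F.L j t) ^ ((r - 2) / 2) := by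
        apply lintegral_const_mul'
        apply ENNReal.pow_ne_top
        apply ENNReal.rpow_ne_top_of_nonneg _ (by norm_num)
        apply mul_nonneg _ hy
        linarith
    _ ≤ _ := mul_le_mul_right (F.prodL_time hn ha) _

/-- Interpolation for finite sums of forms, using only the sum of the norms of the forms and the
`L²` norm of the sum. -/
theorem sum_interp {ι : Type*} (s : Finset ι) (F : ι → HForm.{v} n) (hn : 0 < n)
    {r b x y : ℝ} (hb2 : 2 ≤ b) (hb4 : b ≤ 4) (hx : 0 ≤ x) (hy : 0 ≤ y) (hxy : x + y = 1)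
    (hr : 2 * x + b * y = r) (hby : 1 ≤ b * y) (ha : 1 < n * (r - 2) / 2) :
    ∫⁻ p, ‖extOp n (fun ξ => ∑ m ∈ s, (F m).val ξ) p‖ₑ ^ r
      ≤ (∫⁻ ξ in cube n, ‖∑ m ∈ s, (F m).val ξ‖ₑ ^ 2) ^ x *
        ((∑ m ∈ s, ‖(F m).T‖ₑ) ^ (b * y) *
          (((2:ℝ≥0∞) ^ ((4 - b) / 2 * y)) ^ n * Ca (n * (r - 2) / 2))) := by
  have hb0 : 0 < b := by linarith
  have hby' : (b - 2) * y = r - 2 := by
    have : 2 * x = 2 - 2 * y := by linarith
    rw [← hr, this]; ring
  set g : (Fin n → ℝ) → ℂ := fun ξ => ∑ m ∈ s, (F m).val ξ with hg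
  have hgm : Measurable g := Finset.measurable_fun_sum _ fun m _ => (F m).measurable_val
  have hgb : ∀ ξ ∈ cube n, ‖g ξ‖ ≤ ∑ m ∈ s, ‖(F m).T‖ := by
    intro ξ hξ
    exact (norm_sum_le _ _).trans (Finset.sum_le_sum fun m _ => (F m).norm_val_le hξ)
  set D : ℝ≥0∞ := ∫⁻ ξ in cube n, ‖g ξ‖ₑ ^ 2 with hD
  have hDt : D ≠ ⊤ := by
    have h1 : D ≤ ∫⁻ ξ in cube n, ENNReal.ofReal (∑ m ∈ s, ‖(F m).T‖) ^ 2 := by
      apply setLIntegral_mono' measurableSet_cube
      intro ξ hξ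
      have : ‖g ξ‖ₑ ≤ ENNReal.ofReal (∑ m ∈ s, ‖(F m).T‖) := by
        rw [← ofReal_norm]
        exact ENNReal.ofReal_le_ofReal (hgb ξ hξ)
      gcongr
    rw [setLIntegral_const] at h1
    refine (h1.trans_lt ?_).ne
    apply ENNReal.mul_lt_top (by simp)
    rw [volume_cube]
    exact ENNReal.pow_lt_top (by norm_num)
  have hsm := sm_extOp hgm
  -- fixed time
  have hfix : ∀ t, ∫⁻ z : Fin n → ℝ, ‖extOp n g (z, t)‖ₑ ^ r
      ≤ D ^ x * (∑ m ∈ s, ‖(F m).T‖ₑ * (F m).Nb b t) ^ (b * y) := by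
    intro t
    have h1 : ∀ z : Fin n → ℝ, ‖extOp n g (z, t)‖ₑ ^ r
        = (‖extOp n g (z, t)‖ₑ ^ 2) ^ x * (‖extOp n g (z, t)‖ₑ ^ b) ^ y := by
      intro z
      rw [← ENNReal.rpow_natCast, ← ENNReal.rpow_mul, ← ENNReal.rpow_mul,
        ← ENNReal.rpow_add_of_nonneg]
      · congr 1
        rw [← hr]
        push_cast
        ring
      · push_cast; positivity
      · positivity
    simp_rw [h1]
    have hm : Measurable (fun z : Fin n → ℝ => ‖extOp n g (z, t)‖ₑ) := by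
      have h : Measurable (fun z : Fin n → ℝ => ((z, t) : (Fin n → ℝ) × ℝ)) := by fun_prop
      exact hsm.enorm.comp h
    refine (ENNReal.lintegral_mul_norm_pow_le (hm.pow_const 2).aemeasurable
      (hm.pow_const b).aemeasurable hx hy hxy).trans ?_
    rw [extOp_L2 hgm hgb]
    refine mul_le_mul_right ?_ _
    have h2 : (∫⁻ z : Fin n → ℝ, ‖extOp n g (z, t)‖ₑ ^ b) ^ y
        = (eLpNorm (fun z : Fin n → ℝ => extOp n g (z, t)) (ENNReal.ofReal b) volume) ^ (b * y) := by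
      rw [eLpNorm_eq_lintegral_rpow_enorm_toReal (by simpa using hb0) (by simp),
        ENNReal.toReal_ofReal hb0.le, ← ENNReal.rpow_mul]
      congr 1
      field_simp
    rw [h2]
    apply ENNReal.rpow_le_rpow _ (by positivity)
    have h3 : (fun z : Fin n → ℝ => extOp n g (z, t))
        = ∑ m ∈ s, fun z : Fin n → ℝ => extOp n (F m).val (z, t) := by
      funext z
      rw [Finset.sum_apply]
      simp_rw [extOp_eq_integral]
      rw [← integral_finsetSum]
      · congr 1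
        ext ξ
        rw [← Finset.mul_sum]
        congr 1
        by_cases h : ξ ∈ cube n
        · simp_rw [indicator_of_mem h]; rfl
        · simp_rw [indicator_of_notMem h]; simp
      · intro m _
        have h4 : (fun ξ : Fin n → ℝ => ch ((∑ j, ξ j * (z, t).1 j) + (∑ j, ξ j ^ 2) * (z, t).2) *
            indicator (cube n) (F m).val ξ) = indicator (cube n) (fun ξ : Fin n → ℝ =>
              ch ((∑ j, ξ j * (z, t).1 j) + (∑ j, ξ j ^ 2) * (z, t).2) * (F m).val ξ) := by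
          ext ξ
          by_cases h : ξ ∈ cube n
          · rw [indicator_of_mem h, indicator_of_mem h]
          · rw [indicator_of_notMem h, indicator_of_notMem h, mul_zero]
        rw [h4, integrable_indicator_iff measurableSet_cube]
        apply Measure.integrableOn_of_bounded (M := ‖(F m).T‖)
        · rw [volume_cube]; exact ENNReal.pow_ne_top (by norm_num)
        · apply Measurable.aestronglyMeasurable
          apply Measurable.mul _ (F m).measurable_val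
          exact Continuous.measurable (by fun_prop)
        · filter_upwards [ae_restrict_mem measurableSet_cube] with ξ hξ
          rw [norm_mul, norm_ch, one_mul]
          exact (F m).norm_val_le hξ
    rw [h3]
    refine (eLpNorm_sum_le (fun m _ => slice_meas (F m).measurable_val t) ?_).trans ?_
    · rw [← ENNReal.ofReal_one]; exact ENNReal.ofReal_le_ofReal (by linarith)
    · exact Finset.sum_le_sum fun m _ => (F m).eLpNorm_slice hb0 t
  -- convexity
  set τ : ι → ℝ≥0∞ := fun m => ‖(F m).T‖ₑ with hτ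
  have hconv : ∀ t, (∑ m ∈ s, τ m * (F m).Nb b t) ^ (b * y)
      ≤ (∑ m ∈ s, τ m) ^ (b * y - 1) * ∑ m ∈ s, τ m * ((F m).Nb b t) ^ (b * y) := by
    intro t
    have h := ENNReal.inner_le_weight_mul_Lp_of_nonneg s hby τ (fun m => (F m).Nb b t)
    have hby0 : 0 < b * y := by linarith
    calc (∑ m ∈ s, τ m * (F m).Nb b t) ^ (b * y)
        ≤ ((∑ m ∈ s, τ m) ^ (1 - (b * y)⁻¹) *
          (∑ m ∈ s, τ m * (F m).Nb b t ^ (b * y)) ^ (b * y)⁻¹) ^ (b * y) :=
          ENNReal.rpow_le_rpow h hby0.le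
      _ = _ := by
          rw [ENNReal.mul_rpow_of_nonneg _ _ hby0.le, ← ENNReal.rpow_mul, ← ENNReal.rpow_mul,
            inv_mul_cancel₀ hby0.ne', ENNReal.rpow_one]
          congr 2
          rw [sub_mul, one_mul, inv_mul_cancel₀ hby0.ne']
  set K : ℝ≥0∞ := ((2:ℝ≥0∞) ^ ((4 - b) / 2 * y)) ^ n * Ca (n * (r - 2) / 2) with hK
  have hτt : ∀ m, τ m ≠ ⊤ := fun m => by simp [hτ]
  have hSt : (∑ m ∈ s, τ m) ^ (b * y - 1) ≠ ⊤ := by
    apply ENNReal.rpow_ne_top_of_nonneg (by linarith)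
    exact ENNReal.sum_ne_top.2 fun m _ => hτt m
  calc ∫⁻ p, ‖extOp n g p‖ₑ ^ r
      = ∫⁻ t, ∫⁻ z : Fin n → ℝ, ‖extOp n g (z, t)‖ₑ ^ r := by
        rw [Measure.volume_eq_prod, lintegral_prod_symm]
        exact (hsm.enorm.pow_const r).aemeasurable
    _ ≤ ∫⁻ t, D ^ x * ((∑ m ∈ s, τ m) ^ (b * y - 1) *
          ∑ m ∈ s, τ m * ((F m).Nb b t) ^ (b * y)) := by
        apply lintegral_mono
        intro t
        exact (hfix t).trans (mul_le_mul_right (hconv t) _)
    _ = D ^ x * ((∑ m ∈ s, τ m) ^ (b * y - 1) *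
          ∑ m ∈ s, τ m * ∫⁻ t, ((F m).Nb b t) ^ (b * y)) := by
        rw [lintegral_const_mul' _ _ (ENNReal.rpow_ne_top_of_nonneg hx hDt),
          lintegral_const_mul' _ _ hSt, lintegral_finsetSum]
        · congr 2
          apply Finset.sum_congr rfl
          intro m _
          rw [lintegral_const_mul' _ _ (hτt m)]
        · intro m _
          exact (((F m).measurable_Nb b).pow_const _).const_mul _
    _ ≤ D ^ x * ((∑ m ∈ s, τ m) ^ (b * y - 1) * ∑ m ∈ s, τ m * K) := by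
        gcongr with m _
        exact (F m).Nb_time hn hb2 hb4 hy hby' ha
    _ = D ^ x * ((∑ m ∈ s, τ m) ^ (b * y) * K) := by
        congr 1
        rw [← Finset.sum_mul, ← mul_assoc]
        congr 1
        by_cases h0 : ∑ m ∈ s, τ m = 0
        · rw [h0, mul_zero, ENNReal.zero_rpow_of_pos (by linarith)]
        · have hst : ∑ m ∈ s, τ m ≠ ⊤ := ENNReal.sum_ne_top.2 fun m _ => hτt m
          nth_rewrite 2 [← ENNReal.rpow_one (∑ m ∈ s, τ m)]
          rw [← ENNReal.rpow_add _ _ h0 hst]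
          congr 1
          ring

end Pool.Agent.H.MP_b7167f_an
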