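import Mathlib
import Pool.Agent.H.MP_b7167f_an.DftL1

open Finset
open scoped ComplexConjugate

namespace Pool.Agent.H.MP_b7167f_an

/-- dyadic floor -/
noncomputable def fl (l : ℕ) (x : ℝ) : ℤ := ⌊(2:ℝ) ^ l * x⌋

/-- the new binary digit -/
noncomputable def ep (l : ℕ) (x : ℝ) : ℤ := if l = 0 then 0 else fl l x - 2 * fl (l - 1) x

lemma ep_zero (x : ℝ) : ep 0 x = 0 := by simp [ep]

lemma ep_succ (l : ℕ) (x : ℝ) : ep (l + 1) x = fl (l + 1) x - 2 * fl l x := by simp [ep]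

lemma fl_succ_ge (l : ℕ) (x : ℝ) : 2 * fl l x ≤ fl (l + 1) x := by
  unfold fl
  rw [Int.le_floor]
  have := Int.floor_le ((2:ℝ) ^ l * x)
  push_cast
  rw [pow_succ]
  linarith

lemma fl_succ_le (l : ℕ) (x : ℝ) : fl (l + 1) x ≤ 2 * fl l x + 1 := by
  unfold fl
  rw [Int.floor_le_iff]
  have := Int.lt_floor_add_one ((2:ℝ) ^ l * x)
  push_cast
  rw [pow_succ]
  linarith

lemma ep_nonneg (l : ℕ) (x : ℝ) : 0 ≤ ep l x := by
  cases l with
  | zero => rw [ep_zero]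
  | succ l => rw [ep_succ]; linarith [fl_succ_ge l x]

lemma ep_le_one (l : ℕ) (x : ℝ) : ep l x ≤ 1 := by
  cases l with
  | zero => rw [ep_zero]; norm_num
  | succ l => rw [ep_succ]; linarith [fl_succ_le l x]

lemma abs_fl_le (l : ℕ) {x : ℝ} (hx : |x| ≤ 1) : |fl l x| ≤ 2 ^ l := by
  have h2 : (0:ℝ) < 2 ^ l := by positivity
  rw [abs_le] at hx ⊢
  unfold fl
  constructor
  · rw [Int.le_floor]
    push_cast
    nlinarith [hx.1]
  · have : ⌊(2:ℝ) ^ l * x⌋ ≤ ⌊((2 ^ l : ℤ) : ℝ)⌋ := by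
      apply Int.floor_le_floor
      push_cast
      nlinarith [hx.2]
    rwa [Int.floor_intCast] at this

/-- coding of the floor and of the digit in one integer -/
noncomputable def kap (n l : ℕ) (x : ℝ) : ℤ := (n + 1) * fl l x + ep l x

lemma abs_kap_le (n l : ℕ) {x : ℝ} (hx : |x| ≤ 1) : |kap n l x| ≤ (n + 2) * 2 ^ l := by
  have h1 := abs_le.1 (abs_fl_le l hx)
  have h2 := ep_nonneg l x
  have h3 := ep_le_one l x
  have h4 : (1:ℤ) ≤ 2 ^ l := one_le_pow₀ (by norm_num)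
  have h5 : (0:ℤ) ≤ n := by positivity
  unfold kap
  rw [abs_le]
  constructor
  · nlinarith
  · nlinarith

/-- shifted to a natural number -/
noncomputable def kapN (n l : ℕ) (x : ℝ) : ℕ := (kap n l x + (n + 2) * 2 ^ l).toNat

lemma kapN_cast (n l : ℕ) {x : ℝ} (hx : |x| ≤ 1) :
    ((kapN n l x : ℕ) : ℤ) = kap n l x + (n + 2) * 2 ^ l := by
  unfold kapN
  rw [Int.toNat_of_nonneg]
  have := (abs_le.1 (abs_kap_le n l hx)).1
  linarith

/-- the modulus -/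
def Mm (n l : ℕ) : ℕ := 2 * n * (n + 2) * 2 ^ l + 1

instance (n l : ℕ) : NeZero (Mm n l) := ⟨by unfold Mm; omega⟩

/-- the function of the code of a sum -/
noncomputable def hh (φ : ℝ → ℂ) (n l : ℕ) (z : ℤ) : ℂ :=
  if l = 0 then φ ((z / (n + 1) : ℤ) : ℝ)
  else φ (((z / (n + 1) : ℤ) : ℝ) / 2 ^ l) - φ (((z / (n + 1) - z % (n + 1) : ℤ) : ℝ) / 2 ^ l)

lemma norm_hh_le {φ : ℝ → ℂ} (hb : ∀ x, ‖φ x‖ ≤ 1) {α : ℝ} (hα0 : 0 < α) (hα1 : α ≤ 1)
    (hol : ∀ x y, ‖φ x - φ y‖ ≤ |x - y| ^ α) {n : ℕ} (hn : 0 < n) (l : ℕ) (z : ℤ) :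
    ‖hh φ n l z‖ ≤ n * (2:ℝ) ^ (-((l:ℝ) * α)) := by
  have hn1 : (1:ℝ) ≤ n := by exact_mod_cast hn
  unfold hh
  split_ifs with h
  · subst h
    simp only [Nat.cast_zero, zero_mul, neg_zero, Real.rpow_zero, mul_one]
    exact (hb _).trans hn1
  · have h1 : (0:ℤ) ≤ z % (n + 1) := Int.emod_nonneg _ (by positivity)
    have h2 : z % (n + 1) ≤ n := by
      have := Int.emod_lt_of_pos z (show (0:ℤ) < n + 1 by positivity)
      omega
    have h1' : (0:ℝ) ≤ ((z % (n + 1) : ℤ) : ℝ) := by exact_mod_cast h1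
    have h2' : ((z % (n + 1) : ℤ) : ℝ) ≤ n := by exact_mod_cast h2
    have h2l : (0:ℝ) < 2 ^ l := by positivity
    refine (hol _ _).trans ?_
    have h3 : (((z / (n + 1) : ℤ) : ℝ) / 2 ^ l) - (((z / (n + 1) - z % (n + 1) : ℤ) : ℝ) / 2 ^ l)
        = ((z % (n + 1) : ℤ) : ℝ) / 2 ^ l := by
      push_cast
      ring
    rw [h3, abs_of_nonneg (by positivity)]
    calc (((z % (n + 1) : ℤ) : ℝ) / 2 ^ l) ^ α ≤ ((n:ℝ) / 2 ^ l) ^ α := by
          apply Real.rpow_le_rpow (by positivity) _ hα0.le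
          gcongr
      _ = (n:ℝ) ^ α * (2:ℝ) ^ (-((l:ℝ) * α)) := by
          rw [Real.div_rpow (by positivity) (by positivity), div_eq_mul_inv,
            ← Real.rpow_natCast, ← Real.rpow_mul (by norm_num), Real.rpow_neg (by norm_num)]
      _ ≤ (n:ℝ) ^ (1:ℝ) * (2:ℝ) ^ (-((l:ℝ) * α)) := by
          apply mul_le_mul_of_nonneg_right _ (by positivity)
          exact Real.rpow_le_rpow_of_exponent_le hn1 hα1
      _ = n * (2:ℝ) ^ (-((l:ℝ) * α)) := by rw [Real.rpow_one]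

/-- approximation of a superposition -/
noncomputable def Pa (φ : ℝ → ℂ) (n l : ℕ) (x : Fin n → ℝ) : ℂ :=
  φ (((∑ j, fl l (x j) : ℤ) : ℝ) / 2 ^ l)

/-- differences of the approximations -/
noncomputable def Da (φ : ℝ → ℂ) (n l : ℕ) (x : Fin n → ℝ) : ℂ :=
  if l = 0 then Pa φ n 0 x else Pa φ n l x - Pa φ n (l - 1) x

lemma sum_Da (φ : ℝ → ℂ) (n L : ℕ) (x : Fin n → ℝ) :
    ∑ l ∈ range (L + 1), Da φ n l x = Pa φ n L x := by
  induction L with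
  | zero => simp [Da]
  | succ L ih =>
    rw [sum_range_succ, ih]
    simp [Da]

lemma Da_eq_hh (φ : ℝ → ℂ) (n l : ℕ) (x : Fin n → ℝ) :
    Da φ n l x = hh φ n l (∑ j, kap n l (x j)) := by
  have hE0 : 0 ≤ ∑ j, ep l (x j) := sum_nonneg fun j _ => ep_nonneg l (x j)
  have hE1 : ∑ j, ep l (x j) ≤ n := by
    calc ∑ j, ep l (x j) ≤ ∑ _j : Fin n, (1:ℤ) := sum_le_sum fun j _ => ep_le_one l (x j)
      _ = n := by simp
  have hsum : ∑ j, kap n l (x j) = ∑ j, ep l (x j) + (n + 1) * ∑ j, fl l (x j) := by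
    unfold kap
    rw [sum_add_distrib, mul_sum]
    ring
  have hdiv : (∑ j, kap n l (x j)) / (n + 1) = ∑ j, fl l (x j) := by
    rw [hsum, Int.add_mul_ediv_left _ _ (by positivity), Int.ediv_eq_zero_of_lt hE0 (by omega),
      zero_add]
  have hmod : (∑ j, kap n l (x j)) % (n + 1) = ∑ j, ep l (x j) := by
    rw [hsum, Int.add_mul_emod_self_left, Int.emod_eq_of_lt hE0 (by omega)]
  unfold hh Da
  rw [hdiv, hmod]
  by_cases h : l = 0
  · subst h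
    rw [if_pos rfl, if_pos rfl]
    unfold Pa
    simp
  · rw [if_neg h, if_neg h]
    obtain ⟨m, rfl⟩ : ∃ m, l = m + 1 := ⟨l - 1, by omega⟩
    unfold Pa
    have h1 : ∑ j, fl (m + 1) (x j) - ∑ j, ep (m + 1) (x j) = 2 * ∑ j, fl m (x j) := by
      rw [← sum_sub_distrib, mul_sum]
      apply sum_congr rfl
      intro j _
      rw [ep_succ]
      ring
    rw [h1]
    congr 2
    push_cast
    rw [pow_succ]
    field_simp

lemma norm_Da_le {φ : ℝ → ℂ} (hb : ∀ x, ‖φ x‖ ≤ 1) {α : ℝ} (hα0 : 0 < α) (hα1 : α ≤ 1)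
    (hol : ∀ x y, ‖φ x - φ y‖ ≤ |x - y| ^ α) {n : ℕ} (hn : 0 < n) (l : ℕ) (x : Fin n → ℝ) :
    ‖Da φ n l x‖ ≤ n * (2:ℝ) ^ (-((l:ℝ) * α)) := by
  rw [Da_eq_hh]
  exact norm_hh_le hb hα0 hα1 hol hn l _

/-- Expansion of the differences in tensors. -/
theorem exists_tensor_expansion {φ : ℝ → ℂ} (hb : ∀ x, ‖φ x‖ ≤ 1) {α : ℝ} (hα0 : 0 < α)
    (hα1 : α ≤ 1) (hol : ∀ x y, ‖φ x - φ y‖ ≤ |x - y| ^ α) {n : ℕ} (hn : 0 < n) (l : ℕ) :
    ∃ c : ZMod (Mm n l) → ℂ,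
      (∀ x : Fin n → ℝ, (∀ j, |x j| ≤ 1) →
        Da φ n l x = ∑ m, c m * ∏ j, ZMod.stdAddChar (m * (kapN n l (x j) : ZMod (Mm n l)))) ∧
      ∑ m, ‖c m‖ ≤ Real.sqrt (Mm n l) * (n * (2:ℝ) ^ (-((l:ℝ) * α))) := by
  obtain ⟨c, hc1, hc2⟩ := exists_char_expansion
    (fun k : ZMod (Mm n l) => hh φ n l ((k.val : ℤ) - n * ((n + 2) * 2 ^ l)))
    (δ := n * (2:ℝ) ^ (-((l:ℝ) * α))) (fun k => norm_hh_le hb hα0 hα1 hol hn l _)
  refine ⟨c, ?_, hc2⟩
  intro x hx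
  have hS : (∑ j, kapN n l (x j)) < Mm n l := by
    have h1 : ∀ j, kapN n l (x j) ≤ 2 * ((n + 2) * 2 ^ l) := by
      intro j
      have h2 := kapN_cast n l (hx j)
      have h3 := (abs_le.1 (abs_kap_le n l (hx j))).2
      zify
      rw [h2]
      linarith
    have h2 : ∑ j, kapN n l (x j) ≤ n * (2 * ((n + 2) * 2 ^ l)) := by
      calc ∑ j, kapN n l (x j) ≤ ∑ _j : Fin n, 2 * ((n + 2) * 2 ^ l) := sum_le_sum fun j _ => h1 j
        _ = n * (2 * ((n + 2) * 2 ^ l)) := by simp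
    unfold Mm
    calc ∑ j, kapN n l (x j) ≤ n * (2 * ((n + 2) * 2 ^ l)) := h2
      _ = 2 * n * (n + 2) * 2 ^ l := by ring
      _ < _ := Nat.lt_succ_self _
  have h1 := hc1 ((∑ j, kapN n l (x j) : ℕ) : ZMod (Mm n l))
  rw [ZMod.val_natCast_of_lt hS] at h1
  have h2 : ((∑ j, kapN n l (x j) : ℕ) : ℤ) - n * ((n + 2) * 2 ^ l) = ∑ j, kap n l (x j) := by
    push_cast
    have : ∀ j, ((kapN n l (x j) : ℕ) : ℤ) = kap n l (x j) + (n + 2) * 2 ^ l := fun j =>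
      kapN_cast n l (hx j)
    simp_rw [this]
    rw [sum_add_distrib]
    simp
  rw [h2] at h1
  rw [Da_eq_hh, h1]
  apply sum_congr rfl
  intro m _
  congr 1
  push_cast
  rw [mul_sum]
  have : ∀ s : Finset (Fin n), ZMod.stdAddChar (∑ j ∈ s, m * (kapN n l (x j) : ZMod (Mm n l)))
      = ∏ j ∈ s, (ZMod.stdAddChar (m * (kapN n l (x j) : ZMod (Mm n l))) : ℂ) := by
    intro s
    induction s using Finset.induction_on with
    | empty => simp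
    | insert a s ha ih => rw [sum_insert ha, prod_insert ha, AddChar.map_add_eq_mul, ih]
  exact this univ

lemma sqrt_Mm_le (n l : ℕ) :
    Real.sqrt (Mm n l) ≤ Real.sqrt (Mm n 0) * (2:ℝ) ^ ((l:ℝ) * (1 / 2)) := by
  have h1 : (Mm n l : ℝ) ≤ (Mm n 0 : ℝ) * 2 ^ l := by
    unfold Mm
    push_cast
    have : (1:ℝ) ≤ 2 ^ l := one_le_pow₀ (by norm_num)
    nlinarith
  calc Real.sqrt (Mm n l) ≤ Real.sqrt ((Mm n 0 : ℝ) * 2 ^ l) := Real.sqrt_le_sqrt h1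
    _ = _ := by
        rw [Real.sqrt_mul (by positivity)]
        congr 1
        rw [Real.sqrt_eq_rpow, ← Real.rpow_natCast, ← Real.rpow_mul (by norm_num)]

/-- convergence of the approximations -/
lemma Pa_sub_le {φ : ℝ → ℂ} {α : ℝ} (hα0 : 0 < α)
    (hol : ∀ x y, ‖φ x - φ y‖ ≤ |x - y| ^ α) (n l : ℕ) (x : Fin n → ℝ) :
    ‖Pa φ n l x - φ (∑ j, x j)‖ ≤ ((n:ℝ) / 2 ^ l) ^ α := by
  unfold Pa
  refine (hol _ _).trans ?_
  apply Real.rpow_le_rpow (abs_nonneg _) _ hα0.le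
  have h2l : (0:ℝ) < 2 ^ l := by positivity
  have h1 : ((∑ j, fl l (x j) : ℤ) : ℝ) / 2 ^ l - ∑ j, x j
      = (∑ j, ((fl l (x j) : ℝ) - 2 ^ l * x j)) / 2 ^ l := by
    rw [sum_sub_distrib, ← mul_sum]
    push_cast
    field_simp
  rw [h1, abs_div, abs_of_pos h2l]
  gcongr
  calc |∑ j, ((fl l (x j) : ℝ) - 2 ^ l * x j)| ≤ ∑ j, |(fl l (x j) : ℝ) - 2 ^ l * x j| :=
        abs_sum_le_sum_abs _ _
    _ ≤ ∑ _j : Fin n, (1:ℝ) := by
        apply sum_le_sum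
        intro j _
        have h2 := Int.floor_le ((2:ℝ) ^ l * x j)
        have h3 := Int.lt_floor_add_one ((2:ℝ) ^ l * x j)
        unfold fl
        rw [abs_le]
        constructor <;> linarith
    _ = n := by simp

end Pool.Agent.H.MP_b7167f_an
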