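import Mathlib
import Pool.Agent.H.MP_b7167f_an.SumInterp
import Pool.Agent.H.MP_b7167f_an.SupPiece
import Pool.Agent.H.MP_b7167f_an.AbsSum
import Pool.Agent.H.MP_b7167f_an.PairMain

open MeasureTheory Set Filter
open scoped ENNReal NNReal Topology

namespace Pool.Agent.H.MP_b7167f_an

universe v

/-- data of superposition factors -/
structure SF (n N : ℕ) where
  a : Fin N → Fin n → ℝ → ℝ
  ha : ∀ e j, Measurable (a e j)
  hab : ∀ e j s, |a e j s| ≤ 1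
  φ : Fin N → ℝ → ℂ
  bd : ∀ e x, ‖φ e x‖ ≤ 1
  α : ℝ
  hα0 : 0 < α
  hα1 : α ≤ 1
  hol : ∀ e x y, ‖φ e x - φ e y‖ ≤ |x - y| ^ α

lemma measurable_of_hol {φ : ℝ → ℂ} {α : ℝ} (hα0 : 0 < α)
    (hol : ∀ x y, ‖φ x - φ y‖ ≤ |x - y| ^ α) : Measurable φ := by
  apply Continuous.measurable
  rw [continuous_iff_continuousAt]
  intro x
  rw [ContinuousAt, tendsto_iff_norm_sub_tendsto_zero]
  have h1 : Tendsto (fun y => |y - x| ^ α) (𝓝 x) (𝓝 0) := by
    have h2 : Continuous (fun y : ℝ => |y - x| ^ α) := by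
      have h3 : Continuous (fun y : ℝ => |y - x|) := by fun_prop
      exact h3.rpow_const (fun _ => Or.inr hα0.le)
    have := h2.tendsto x
    simpa [Real.zero_rpow hα0.ne'] using this
  exact squeeze_zero (fun _ => norm_nonneg _) (fun y => hol y x) h1

lemma measurable_fl (l : ℕ) : Measurable (fl l) := by
  unfold fl
  exact (measurable_const.mul measurable_id).floor

lemma measurable_ep (l : ℕ) : Measurable (ep l) := by
  cases l with
  | zero =>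
    have : ep 0 = fun _ => 0 := by funext x; exact ep_zero x
    rw [this]; exact measurable_const
  | succ l =>
    have : ep (l + 1) = fun x => fl (l + 1) x - 2 * fl l x := by funext x; exact ep_succ l x
    rw [this]
    exact (measurable_fl _).sub ((measurable_fl _).const_mul _)

lemma measurable_kapN (n l : ℕ) : Measurable (kapN n l) := by
  unfold kapN kap
  have h : Measurable (fun x : ℝ => ((n:ℤ) + 1) * fl l x + ep l x + (n + 2) * 2 ^ l) :=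
    (((measurable_fl l).const_mul _).add (measurable_ep l)).add measurable_const
  have h2 : Measurable Int.toNat := measurable_from_top
  exact h2.comp h

namespace SF

variable {n N : ℕ} (S : SF n N)

/-- the factor -/
noncomputable def fac (e : Fin N) (ξ : Fin n → ℝ) : ℂ := S.φ e (∑ j, S.a e j (ξ j))

/-- its differences -/
noncomputable def D (e : Fin N) (l : ℕ) (ξ : Fin n → ℝ) : ℂ :=
  Da (S.φ e) n l (fun j => S.a e j (ξ j))

lemma measurable_fac (e : Fin N) : Measurable (S.fac e) := by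
  apply (measurable_of_hol S.hα0 (S.hol e)).comp
  exact Finset.measurable_fun_sum _ fun j _ => (S.ha e j).comp (measurable_pi_apply j)

lemma measurable_Pa (e : Fin N) (l : ℕ) :
    Measurable (fun ξ : Fin n → ℝ => Pa (S.φ e) n l (fun j => S.a e j (ξ j))) := by
  unfold Pa
  apply (measurable_of_hol S.hα0 (S.hol e)).comp
  apply Measurable.div_const
  have h1 : Measurable (fun ξ : Fin n → ℝ => ∑ j, fl l (S.a e j (ξ j))) :=
    Finset.measurable_fun_sum _ fun j _ =>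
      (measurable_fl l).comp ((S.ha e j).comp (measurable_pi_apply j))
  have h2 : Measurable (fun z : ℤ => (z : ℝ)) := measurable_from_top
  exact h2.comp h1

lemma measurable_D (e : Fin N) (l : ℕ) : Measurable (S.D e l) := by
  unfold D Da
  split_ifs
  · exact S.measurable_Pa e 0
  · exact (S.measurable_Pa e l).sub (S.measurable_Pa e (l - 1))

lemma norm_D_le (hn : 0 < n) (e : Fin N) (l : ℕ) (ξ : Fin n → ℝ) :
    ‖S.D e l ξ‖ ≤ n * (2:ℝ) ^ (-((l:ℝ) * S.α)) :=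
  norm_Da_le (S.bd e) S.hα0 S.hα1 (S.hol e) hn l _

lemma norm_D_le' (hn : 0 < n) (e : Fin N) (l : ℕ) (ξ : Fin n → ℝ) :
    ‖S.D e l ξ‖ ≤ n := by
  refine (S.norm_D_le hn e l ξ).trans ?_
  have h1 : (2:ℝ) ^ (-((l:ℝ) * S.α)) ≤ 1 := by
    apply Real.rpow_le_one_of_one_le_of_nonpos (by norm_num)
    have := S.hα0
    have : 0 ≤ (l:ℝ) * S.α := by positivity
    linarith
  calc (n:ℝ) * (2:ℝ) ^ (-((l:ℝ) * S.α)) ≤ n * 1 := by gcongr
    _ = n := mul_one _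

/-- the constant in the coefficient bound -/
noncomputable def Cn (n : ℕ) : ℝ≥0∞ := ENNReal.ofReal (Real.sqrt (Mm n 0)) * n

/-- the constant of the piece estimate -/
noncomputable def KS (n N : ℕ) (r b x y : ℝ) : ℝ≥0∞ :=
  (2 ^ n : ℝ≥0∞) ^ x * (((n:ℝ≥0∞) ^ (2 * x)) ^ N * (((Cn n) ^ (b * y)) ^ N *
    (((2:ℝ≥0∞) ^ ((4 - b) / 2 * y)) ^ n * Ca (n * (r - 2) / 2))))

lemma KS_ne_top {n N : ℕ} {r b x y : ℝ} (hb4 : b ≤ 4) (hb2 : 2 ≤ b) (hx : 0 ≤ x)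
    (hy : 0 ≤ y) (ha : 1 < n * (r - 2) / 2) : KS n N r b x y ≠ ⊤ := by
  unfold KS
  apply ENNReal.mul_ne_top
  · exact ENNReal.rpow_ne_top_of_nonneg hx (ENNReal.pow_ne_top (by norm_num))
  · apply ENNReal.mul_ne_top
    · exact ENNReal.pow_ne_top (ENNReal.rpow_ne_top_of_nonneg (by positivity) (by simp))
    · apply ENNReal.mul_ne_top
      · apply ENNReal.pow_ne_top
        apply ENNReal.rpow_ne_top_of_nonneg (by positivity)
        unfold Cn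
        exact ENNReal.mul_ne_top ENNReal.ofReal_ne_top (by simp)
      · apply ENNReal.mul_ne_top _ (Ca_ne_top ha)
        apply ENNReal.pow_ne_top
        apply ENNReal.rpow_ne_top_of_nonneg _ (by norm_num)
        apply mul_nonneg _ hy
        linarith

/-- The decay exponent of the pieces. -/
noncomputable def dl (b x y α : ℝ) : ℝ := 2 * x * α - b * y * (1 / 2 - α)

/-- Estimate for a piece. -/
theorem piece_bound (F : HForm.{v} n) (hn : 0 < n) {r b x y : ℝ} (hb2 : 2 ≤ b) (hb4 : b ≤ 4)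
    (hx : 0 ≤ x) (hy : 0 ≤ y) (hxy : x + y = 1)
    (hr : 2 * x + b * y = r) (hby : 1 ≤ b * y) (ha : 1 < n * (r - 2) / 2) (l : Fin N → ℕ) :
    ∫⁻ z, ‖extOp n (fun ξ => F.val ξ * ∏ e, S.D e (l e) ξ) z‖ₑ ^ r
      ≤ KS n N r b x y * (‖F.T‖ₑ ^ r * ∏ e, (2:ℝ≥0∞) ^ (-((l e:ℝ) * dl b x y S.α))) := by
  classical
  have hexp := fun e => exists_tensor_expansion (S.bd e) S.hα0 S.hα1 (S.hol e) hn (l e)
  choose c hc1 hc2 using hexp
  -- the tensors
  set ψ : (∀ e, ZMod (Mm n (l e))) → Fin n → ℝ → ℂ := fun m j s =>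
    ∏ e, ZMod.stdAddChar (m e * (kapN n (l e) (S.a e j s) : ZMod (Mm n (l e)))) with hψ
  have hψm : ∀ m j, Measurable (ψ m j) := by
    intro m j
    apply Finset.measurable_fun_prod
    intro e _
    have h1 : Measurable (fun k : ℕ =>
        (ZMod.stdAddChar (m e * (k : ZMod (Mm n (l e)))) : ℂ)) := measurable_from_top
    exact h1.comp ((measurable_kapN n (l e)).comp (S.ha e j))
  have hψb : ∀ m j s, ‖ψ m j s‖ ≤ 1 := by
    intro m j s
    rw [hψ]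
    simp only
    rw [norm_prod]
    exact Finset.prod_le_one (fun _ _ => norm_nonneg _) fun e _ => le_of_eq (AddChar.norm_apply _ _)
  set G : (∀ e, ZMod (Mm n (l e))) → HForm.{v} n := fun m =>
    (F.twist (ψ m) (hψm m) (hψb m)).scale (∏ e, c e (m e)) with hG
  set s : Finset (∀ e, ZMod (Mm n (l e))) := Fintype.piFinset (fun _ => Finset.univ) with hs
  have hval : ∀ ξ, F.val ξ * ∏ e, S.D e (l e) ξ = ∑ m ∈ s, (G m).val ξ := by
    intro ξ
    have h1 : ∀ e, S.D e (l e) ξ = ∑ m, c e m *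
        ∏ j, ZMod.stdAddChar (m * (kapN n (l e) (S.a e j (ξ j)) : ZMod (Mm n (l e)))) :=
      fun e => hc1 e _ (fun j => S.hab e j _)
    simp_rw [h1]
    rw [Finset.prod_univ_sum, Finset.mul_sum]
    apply Finset.sum_congr rfl
    intro m _
    rw [hG]
    simp only
    rw [HForm.scale_val, HForm.twist_val, Finset.prod_mul_distrib, hψ]
    simp only
    rw [Finset.prod_comm]
    ring
  have hGT : ∑ m ∈ s, ‖(G m).T‖ₑ
      ≤ ‖F.T‖ₑ * ∏ e, (Cn n * (2:ℝ≥0∞) ^ ((l e:ℝ) * (1 / 2 - S.α))) := by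
    have h1 : ∀ m, ‖(G m).T‖ₑ = ‖F.T‖ₑ * ∏ e, ‖c e (m e)‖ₑ := by
      intro m
      rw [hG]
      simp only
      rw [HForm.scale_norm, HForm.twist_T, mul_comm]
      congr 1
      rw [← ofReal_norm, norm_prod, ENNReal.ofReal_prod_of_nonneg (fun _ _ => norm_nonneg _)]
      simp_rw [ofReal_norm]
    simp_rw [h1]
    have hps := Finset.prod_univ_sum (fun e : Fin N => (Finset.univ : Finset (ZMod (Mm n (l e)))))
      (fun e m => ‖c e m‖ₑ)
    rw [← Finset.mul_sum, hs, ← hps]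
    apply mul_le_mul_right
    apply Finset.prod_le_prod'
    intro e _
    have h2 : ∑ m, ‖c e m‖ₑ = ENNReal.ofReal (∑ m, ‖c e m‖) := by
      rw [ENNReal.ofReal_sum_of_nonneg (fun _ _ => norm_nonneg _)]
      simp_rw [ofReal_norm]
    rw [h2]
    have h3 : ∑ m, ‖c e m‖ ≤ Real.sqrt (Mm n 0) * n * (2:ℝ) ^ ((l e:ℝ) * (1 / 2 - S.α)) := by
      refine (hc2 e).trans ?_
      calc Real.sqrt (Mm n (l e)) * (n * (2:ℝ) ^ (-((l e:ℝ) * S.α)))
          ≤ (Real.sqrt (Mm n 0) * (2:ℝ) ^ ((l e:ℝ) * (1 / 2))) *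
            (n * (2:ℝ) ^ (-((l e:ℝ) * S.α))) :=
            mul_le_mul_of_nonneg_right (sqrt_Mm_le n (l e)) (by positivity)
        _ = Real.sqrt (Mm n 0) * n * ((2:ℝ) ^ ((l e:ℝ) * (1 / 2)) *
            (2:ℝ) ^ (-((l e:ℝ) * S.α))) := by ring
        _ = _ := by
            rw [← Real.rpow_add (by norm_num)]
            congr 2
            ring
    refine (ENNReal.ofReal_le_ofReal h3).trans (le_of_eq ?_)
    rw [ENNReal.ofReal_mul (by positivity), ENNReal.ofReal_mul (by positivity), ofReal_two_rpow]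
    unfold Cn
    simp
  have hL2 : ∫⁻ ξ in cube n, ‖∑ m ∈ s, (G m).val ξ‖ₑ ^ 2
      ≤ 2 ^ n * (‖F.T‖ₑ ^ 2 * ∏ e, ((n:ℝ≥0∞) * (2:ℝ≥0∞) ^ (-((l e:ℝ) * S.α))) ^ 2) := by
    have hpt : ∀ ξ ∈ cube n, ‖∑ m ∈ s, (G m).val ξ‖ₑ ^ 2
        ≤ ‖F.T‖ₑ ^ 2 * ∏ e, ((n:ℝ≥0∞) * (2:ℝ≥0∞) ^ (-((l e:ℝ) * S.α))) ^ 2 := by
      intro ξ hξ
      rw [← hval ξ, enorm_mul, mul_pow]
      have h1 : ‖F.val ξ‖ₑ ≤ ‖F.T‖ₑ := by
        rw [← ofReal_norm, ← ofReal_norm]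
        exact ENNReal.ofReal_le_ofReal (F.norm_val_le hξ)
      have h2 : ‖∏ e, S.D e (l e) ξ‖ₑ
          ≤ ∏ e, ((n:ℝ≥0∞) * (2:ℝ≥0∞) ^ (-((l e:ℝ) * S.α))) := by
        rw [← ofReal_norm, norm_prod, ENNReal.ofReal_prod_of_nonneg (fun _ _ => norm_nonneg _)]
        apply Finset.prod_le_prod'
        intro e _
        refine (ENNReal.ofReal_le_ofReal (S.norm_D_le hn e (l e) ξ)).trans (le_of_eq ?_)
        rw [ENNReal.ofReal_mul (by positivity), ofReal_two_rpow]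
        simp
      rw [Finset.prod_pow]
      gcongr
    calc ∫⁻ ξ in cube n, ‖∑ m ∈ s, (G m).val ξ‖ₑ ^ 2
        ≤ ∫⁻ _ξ in cube n, ‖F.T‖ₑ ^ 2 *
          ∏ e, ((n:ℝ≥0∞) * (2:ℝ≥0∞) ^ (-((l e:ℝ) * S.α))) ^ 2 :=
          setLIntegral_mono' measurableSet_cube hpt
      _ = _ := by rw [setLIntegral_const, volume_cube, mul_comm]
  have hmain := sum_interp s G hn hb2 hb4 hx hy hxy hr hby ha
  have hfun : (fun ξ => F.val ξ * ∏ e, S.D e (l e) ξ) = fun ξ => ∑ m ∈ s, (G m).val ξ := by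
    funext ξ; exact hval ξ
  rw [hfun]
  refine hmain.trans ?_
  have hby0 : 0 ≤ b * y := by linarith
  have e1 : (2 ^ n * (‖F.T‖ₑ ^ 2 * ∏ e, ((n:ℝ≥0∞) * (2:ℝ≥0∞) ^ (-((l e:ℝ) * S.α))) ^ 2)) ^ x
      = (2 ^ n : ℝ≥0∞) ^ x * (‖F.T‖ₑ ^ (2 * x) * (((n:ℝ≥0∞) ^ (2 * x)) ^ N *
        ∏ e, (2:ℝ≥0∞) ^ (-((l e:ℝ) * S.α * (2 * x))))) := by
    rw [ENNReal.mul_rpow_of_nonneg _ _ hx, ENNReal.mul_rpow_of_nonneg _ _ hx]
    congr 2
    · rw [← ENNReal.rpow_natCast, ← ENNReal.rpow_mul]; norm_num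
    · rw [← ENNReal.prod_rpow_of_nonneg hx]
      have : ∀ e, (((n:ℝ≥0∞) * (2:ℝ≥0∞) ^ (-((l e:ℝ) * S.α))) ^ 2) ^ x
          = (n:ℝ≥0∞) ^ (2 * x) * (2:ℝ≥0∞) ^ (-((l e:ℝ) * S.α * (2 * x))) := by
        intro e
        rw [← ENNReal.rpow_natCast, ← ENNReal.rpow_mul,
          ENNReal.mul_rpow_of_nonneg _ _ (by positivity), ← ENNReal.rpow_mul]
        congr 2
        push_cast
        ring
      simp_rw [this]
      rw [Finset.prod_mul_distrib, Finset.prod_const, Finset.card_univ, Fintype.card_fin]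
  have e2 : (‖F.T‖ₑ * ∏ e, (Cn n * (2:ℝ≥0∞) ^ ((l e:ℝ) * (1 / 2 - S.α)))) ^ (b * y)
      = ‖F.T‖ₑ ^ (b * y) * (((Cn n) ^ (b * y)) ^ N *
        ∏ e, (2:ℝ≥0∞) ^ ((l e:ℝ) * (1 / 2 - S.α) * (b * y))) := by
    rw [ENNReal.mul_rpow_of_nonneg _ _ hby0, ← ENNReal.prod_rpow_of_nonneg hby0]
    congr 1
    have : ∀ e, (Cn n * (2:ℝ≥0∞) ^ ((l e:ℝ) * (1 / 2 - S.α))) ^ (b * y)
        = (Cn n) ^ (b * y) * (2:ℝ≥0∞) ^ ((l e:ℝ) * (1 / 2 - S.α) * (b * y)) := by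
      intro e
      rw [ENNReal.mul_rpow_of_nonneg _ _ hby0, ← ENNReal.rpow_mul]
    simp_rw [this]
    rw [Finset.prod_mul_distrib, Finset.prod_const, Finset.card_univ, Fintype.card_fin]
  calc (∫⁻ ξ in cube n, ‖∑ m ∈ s, (G m).val ξ‖ₑ ^ 2) ^ x *
        ((∑ m ∈ s, ‖(G m).T‖ₑ) ^ (b * y) *
          (((2:ℝ≥0∞) ^ ((4 - b) / 2 * y)) ^ n * Ca (n * (r - 2) / 2)))
      ≤ (2 ^ n * (‖F.T‖ₑ ^ 2 * ∏ e, ((n:ℝ≥0∞) * (2:ℝ≥0∞) ^ (-((l e:ℝ) * S.α))) ^ 2)) ^ x *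
        ((‖F.T‖ₑ * ∏ e, (Cn n * (2:ℝ≥0∞) ^ ((l e:ℝ) * (1 / 2 - S.α)))) ^ (b * y) *
          (((2:ℝ≥0∞) ^ ((4 - b) / 2 * y)) ^ n * Ca (n * (r - 2) / 2))) := by
        gcongr
    _ = KS n N r b x y * ((‖F.T‖ₑ ^ (2 * x) * ‖F.T‖ₑ ^ (b * y)) *
        ((∏ e, (2:ℝ≥0∞) ^ (-((l e:ℝ) * S.α * (2 * x)))) *
          ∏ e, (2:ℝ≥0∞) ^ ((l e:ℝ) * (1 / 2 - S.α) * (b * y)))) := by
        rw [e1, e2, KS]
        ring
    _ = _ := by
        rw [← Finset.prod_mul_distrib, ← ENNReal.rpow_add_of_nonneg _ _ (by positivity) hby0, hr]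
        congr 2
        apply Finset.prod_congr rfl
        intro e _
        rw [← ENNReal.rpow_add _ _ (by norm_num) (by norm_num)]
        congr 1
        unfold dl
        ring

end SF

end Pool.Agent.H.MP_b7167f_an
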