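import Mathlib
import Pool.Agent.H.MP_b7167f_an.SupMain

open MeasureTheory Set Filter
open scoped ENNReal NNReal Topology

namespace Pool.Agent.H.MP_b7167f_an

universe v

namespace SF

variable {n N : ℕ} (S : SF n N)

/-- The ratio of the geometric series. -/
noncomputable def th (r δ : ℝ) : ℝ≥0∞ := (2:ℝ≥0∞) ^ (-(δ / r))

lemma piece_norm (F : HForm.{v} n) (hn : 0 < n) {r b x y : ℝ} (hr0 : 0 < r) (hb2 : 2 ≤ b)
    (hb4 : b ≤ 4) (hx : 0 ≤ x) (hy : 0 ≤ y) (hxy : x + y = 1)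
    (hr : 2 * x + b * y = r) (hby : 1 ≤ b * y) (ha : 1 < n * (r - 2) / 2) (l : Fin N → ℕ) :
    eLpNorm (extOp n (fun ξ => F.val ξ * ∏ e, S.D e (l e) ξ)) (ENNReal.ofReal r) volume
      ≤ (KS n N r b x y ^ (1 / r) * ‖F.T‖ₑ) * ∏ e, (th r (dl b x y S.α)) ^ (l e) := by
  rw [eLpNorm_eq_lintegral_rpow_enorm_toReal (by simpa using hr0) (by simp),
    ENNReal.toReal_ofReal hr0.le]
  refine (ENNReal.rpow_le_rpow (S.piece_bound F hn hb2 hb4 hx hy hxy hr hby ha l)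
    (by positivity)).trans (le_of_eq ?_)
  rw [ENNReal.mul_rpow_of_nonneg _ _ (by positivity), ENNReal.mul_rpow_of_nonneg _ _ (by positivity),
    mul_assoc]
  congr 1
  congr 1
  · rw [← ENNReal.rpow_mul, mul_one_div_cancel hr0.ne', ENNReal.rpow_one]
  · rw [← ENNReal.prod_rpow_of_nonneg (by positivity)]
    apply Finset.prod_congr rfl
    intro e _
    unfold th
    rw [← ENNReal.rpow_natCast, ← ENNReal.rpow_mul, ← ENNReal.rpow_mul]
    congr 1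
    field_simp

lemma sum_D_succ (e : Fin N) (L : ℕ) (ξ : Fin n → ℝ) :
    ∑ l ∈ Finset.range (L + 1), S.D e l ξ = Pa (S.φ e) n L (fun j => S.a e j (ξ j)) :=
  sum_Da _ _ _ _

lemma norm_sum_D_le (e : Fin N) (L : ℕ) (ξ : Fin n → ℝ) :
    ‖∑ l ∈ Finset.range L, S.D e l ξ‖ ≤ 1 := by
  cases L with
  | zero => simp
  | succ L => rw [S.sum_D_succ]; exact S.bd e _

lemma tendsto_err (e : Fin N) :
    Tendsto (fun L => ∫⁻ ξ in cube n, ‖∑ l ∈ Finset.range L, S.D e l ξ - S.fac e ξ‖ₑ)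
      atTop (𝓝 0) := by
  rw [← tendsto_add_atTop_iff_nat 1]
  have hub : ∀ L : ℕ, ∫⁻ ξ in cube n, ‖∑ l ∈ Finset.range (L + 1), S.D e l ξ - S.fac e ξ‖ₑ
      ≤ ENNReal.ofReal (((n:ℝ) / 2 ^ L) ^ S.α) * 2 ^ n := by
    intro L
    calc ∫⁻ ξ in cube n, ‖∑ l ∈ Finset.range (L + 1), S.D e l ξ - S.fac e ξ‖ₑ
        ≤ ∫⁻ _ξ in cube n, ENNReal.ofReal (((n:ℝ) / 2 ^ L) ^ S.α) := by
          apply setLIntegral_mono' measurableSet_cube
          intro ξ _
          rw [S.sum_D_succ, ← ofReal_norm]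
          exact ENNReal.ofReal_le_ofReal (Pa_sub_le S.hα0 (S.hol e) n L _)
      _ = _ := by rw [setLIntegral_const, volume_cube]
  refine tendsto_of_tendsto_of_tendsto_of_le_of_le tendsto_const_nhds ?_ (fun _ => zero_le) hub
  have h1 : Tendsto (fun L : ℕ => ((n:ℝ) / 2 ^ L) ^ S.α) atTop (𝓝 0) := by
    have h2 : Tendsto (fun L : ℕ => (n:ℝ) / 2 ^ L) atTop (𝓝 0) := by
      have : Tendsto (fun L : ℕ => (n:ℝ) * (1 / 2) ^ L) atTop (𝓝 (n * 0)) :=
        (tendsto_pow_atTop_nhds_zero_of_lt_one (by norm_num) (by norm_num)).const_mul (n:ℝ)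
      rw [mul_zero] at this
      refine this.congr fun L => ?_
      rw [one_div, inv_pow]; rfl
    have h3 : Continuous (fun x : ℝ => x ^ S.α) :=
      Real.continuous_rpow_const S.hα0.le
    have := (h3.tendsto 0).comp h2
    simp only [Real.zero_rpow S.hα0.ne'] at this
    exact this
  have h4 := ENNReal.tendsto_ofReal h1
  rw [ENNReal.ofReal_zero] at h4
  have h5 := ENNReal.Tendsto.mul_const h4 (b := 2 ^ n) (Or.inr (ENNReal.pow_ne_top (by norm_num)))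
  simpa using h5

lemma norm_fac_le (e : Fin N) (ξ : Fin n → ℝ) : ‖S.fac e ξ‖ ≤ 1 := S.bd e _

/-- The extension bound at exponent `r`. -/
theorem full_norm (F : HForm.{v} n) (hn : 0 < n) {r b x y : ℝ} (hr1 : 1 ≤ r) (hb2 : 2 ≤ b)
    (hb4 : b ≤ 4) (hx : 0 ≤ x) (hy : 0 ≤ y) (hxy : x + y = 1)
    (hr : 2 * x + b * y = r) (hby : 1 ≤ b * y) (ha : 1 < n * (r - 2) / 2) :
    eLpNorm (extOp n (fun ξ => F.val ξ * ∏ e, S.fac e ξ)) (ENNReal.ofReal r) volume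
      ≤ (KS n N r b x y ^ (1 / r) * ‖F.T‖ₑ) * ∏ _e : Fin N, (1 - th r (dl b x y S.α))⁻¹ := by
  apply abs_sum (g₀ := F.val) F.measurable_val (B := ‖F.T‖) (fun ξ hξ => F.norm_val_le hξ)
    (D := S.D) S.measurable_D (CD := n) (fun e l ξ _ => S.norm_D_le' hn e l ξ)
    (fun e L ξ _ => S.norm_sum_D_le e L ξ) (fac := S.fac) S.measurable_fac
    (fun e ξ _ => S.norm_fac_le e ξ) S.tendsto_err hr1
  intro l
  exact S.piece_norm F hn (by linarith) hb2 hb4 hx hy hxy hr hby ha l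

lemma norm_full_le (F : HForm.{v} n) {ξ : Fin n → ℝ} (hξ : ξ ∈ cube n) :
    ‖F.val ξ * ∏ e, S.fac e ξ‖ ≤ ‖F.T‖ := by
  rw [norm_mul, norm_prod]
  calc ‖F.val ξ‖ * ∏ e, ‖S.fac e ξ‖ ≤ ‖F.T‖ * 1 := by
        apply mul_le_mul (F.norm_val_le hξ) _ (Finset.prod_nonneg fun _ _ => norm_nonneg _)
          (norm_nonneg _)
        exact Finset.prod_le_one (fun _ _ => norm_nonneg _) fun e _ => S.norm_fac_le e ξ
    _ = _ := mul_one _

end SF

lemma dl_mono {b x y α α' : ℝ} (hx : 0 ≤ x) (hby : 1 ≤ b * y) (h : α' ≤ α) :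
    SF.dl b x y α' ≤ SF.dl b x y α := by
  unfold SF.dl
  nlinarith

/-- choice of the exponents -/
lemma exists_exponents_sup {n : ℕ} (hn : 2 ≤ n) {α : ℝ}
    (hα : 1 / ((n:ℝ) + 1) < α) (hα' : (n:ℝ) / (4 * ((n:ℝ) + 1)) < α)
    {q : ℝ} (hq : 2 * ((n : ℝ) + 1) / n < q) :
    ∃ r b x y : ℝ, 2 < r ∧ r ≤ q ∧ 2 ≤ b ∧ b ≤ 4 ∧ 0 ≤ x ∧ 0 ≤ y ∧ x + y = 1 ∧
      2 * x + b * y = r ∧ 1 ≤ b * y ∧ 1 < n * (r - 2) / 2 ∧ 0 < SF.dl b x y α := by
  have hn0 : (0:ℝ) < n := by exact_mod_cast (by omega : 0 < n)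
  have hn2 : (2:ℝ) ≤ n := by exact_mod_cast hn
  set rc : ℝ := 2 * ((n : ℝ) + 1) / n with hrc
  have hrc' : rc = 2 + 2 / n := by rw [hrc]; field_simp
  have hrc2 : 2 < rc := by
    rw [hrc']
    have : 0 < 2 / (n:ℝ) := by positivity
    linarith
  set β : ℝ := min α (1 / 2) with hβ
  have hβα : β ≤ α := min_le_left _ _
  have hβ2 : β ≤ 1 / 2 := min_le_right _ _
  have hβ1 : 1 / ((n:ℝ) + 1) < β := by
    apply lt_min hα
    rw [div_lt_div_iff₀ (by positivity) (by norm_num)]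
    linarith
  have hβ1' : (n:ℝ) / (4 * ((n:ℝ) + 1)) < β := by
    apply lt_min hα'
    rw [div_lt_div_iff₀ (by positivity) (by norm_num)]
    linarith
  set ρ : ℝ := 2 / (1 - β) with hρ
  have h1β : 0 < 1 - β := by linarith
  have hrcρ : rc < ρ := by
    rw [hρ, lt_div_iff₀ h1β, hrc]
    rw [div_lt_iff₀ (by positivity)] at hβ1
    rw [div_mul_eq_mul_div, div_lt_iff₀ hn0]
    nlinarith
  have hρ4 : ρ ≤ 4 := by
    rw [hρ, div_le_iff₀ h1β]; linarith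
  have hmin : rc < min q ρ := lt_min hq hrcρ
  set r : ℝ := (rc + min q ρ) / 2 with hr
  have h1 : rc < r := by rw [hr]; linarith
  have h2 : r < min q ρ := by rw [hr]; linarith
  have h3 : r < q := h2.trans_le (min_le_left _ _)
  have h4 : r < ρ := h2.trans_le (min_le_right _ _)
  have h5 : 2 < r := by linarith
  have h6 : r < 4 := by linarith
  have hA : 1 < n * (r - 2) / 2 := by
    rw [hrc'] at h1
    have h8 : 2 / (n:ℝ) < r - 2 := by linarith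
    rw [div_lt_iff₀ hn0] at h8
    linarith
  by_cases hcase : 5 / 2 ≤ r
  · refine ⟨r, 4, (4 - r) / 2, (r - 2) / 2, h5, h3.le, by norm_num, le_rfl, by linarith,
      by linarith, by ring, by ring, by linarith, hA, ?_⟩
    refine lt_of_lt_of_le ?_ (dl_mono (by linarith) (by linarith) hβα)
    unfold SF.dl
    have h7 : r * (1 - β) < 2 := by
      rw [hρ, lt_div_iff₀ h1β] at h4; exact h4
    nlinarith
  · push Not at hcase
    have h3r : 0 < 3 - r := by linarith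
    refine ⟨r, 2 / (3 - r), (r - 1) / 2, (3 - r) / 2, h5, h3.le, ?_, ?_, by linarith,
      by linarith, by ring, ?_, ?_, hA, ?_⟩
    · rw [le_div_iff₀ h3r]; linarith
    · rw [div_le_iff₀ h3r]; linarith
    · field_simp
      ring
    · have : 2 / (3 - r) * ((3 - r) / 2) = 1 := by field_simp
      rw [this]
    · have hby : 2 / (3 - r) * ((3 - r) / 2) = 1 := by field_simp
      refine lt_of_lt_of_le ?_ (dl_mono (by linarith) (by rw [hby]) hβα)
      unfold SF.dl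
      rw [hby]
      have h7 : 1 / 2 < rc * β := by
        rw [div_lt_iff₀ (by positivity)] at hβ1'
        rw [hrc, div_mul_eq_mul_div, lt_div_iff₀ hn0]
        linarith
      nlinarith

/-- The main bound, bundled. -/
theorem sup_main {n N : ℕ} (hn : 2 ≤ n) {α : ℝ}
    (hα : 1 / ((n:ℝ) + 1) < α) (hα' : (n:ℝ) / (4 * ((n:ℝ) + 1)) < α)
    {q : ℝ} (hq : 2 * ((n : ℝ) + 1) / n < q) :
    ∃ C : ℝ≥0, ∀ S : SF n N, S.α = α → ∀ F : HForm.{v} n,
      eLpNorm (extOp n (fun ξ => F.val ξ * ∏ e, S.fac e ξ)) (ENNReal.ofReal q) volume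
        ≤ C * ‖F.T‖ₑ := by
  obtain ⟨r, b, x, y, hr2, hrq, hb2, hb4, hx, hy, hxy, hr, hby, hA, hdl⟩ :=
    exists_exponents_sup hn hα hα' hq
  have hr0 : 0 < r := by linarith
  have hq0 : 0 < q := by linarith
  have hth1 : SF.th r (SF.dl b x y α) < 1 := by
    unfold SF.th
    apply ENNReal.rpow_lt_one_of_one_lt_of_neg (by norm_num)
    have h : 0 < SF.dl b x y α / r := by positivity
    linarith
  set Cr : ℝ≥0∞ := SF.KS n N r b x y ^ (1 / r) *
    (∏ _e : Fin N, (1 - SF.th r (SF.dl b x y α))⁻¹) with hCr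
  have hCrt : Cr ≠ ⊤ := by
    rw [hCr]
    apply ENNReal.mul_ne_top
    · exact ENNReal.rpow_ne_top_of_nonneg (by positivity) (SF.KS_ne_top hb4 hb2 hx hy hA)
    · apply ENNReal.prod_ne_top
      intro e _
      rw [ENNReal.inv_ne_top]
      exact (tsub_pos_of_lt hth1).ne'
  set K : ℝ≥0∞ := ((2:ℝ≥0∞) ^ n) ^ (1 - r / q) * Cr ^ (r / q) with hK
  have hrq1 : 0 ≤ 1 - r / q := by
    have : r / q ≤ 1 := by rw [div_le_one hq0]; exact hrq
    linarith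
  have hKt : K ≠ ⊤ := by
    rw [hK]
    apply ENNReal.mul_ne_top
    · exact ENNReal.rpow_ne_top_of_nonneg hrq1 (ENNReal.pow_ne_top (by norm_num))
    · exact ENNReal.rpow_ne_top_of_nonneg (by positivity) hCrt
  refine ⟨K.toNNReal, ?_⟩
  intro S hS F
  rw [ENNReal.coe_toNNReal hKt]
  have h1 := S.full_norm F (by omega) (by linarith) hb2 hb4 hx hy hxy hr hby hA
  rw [hS] at h1
  have h2 : eLpNorm (extOp n (fun ξ => F.val ξ * ∏ e, S.fac e ξ)) (ENNReal.ofReal r) volume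
      ≤ Cr * ‖F.T‖ₑ := by
    refine h1.trans (le_of_eq ?_)
    rw [hCr]; ring
  have hsup : ∀ z, ‖extOp n (fun ξ => F.val ξ * ∏ e, S.fac e ξ) z‖ₑ ≤ 2 ^ n * ‖F.T‖ₑ := by
    intro z
    have h := enorm_extOp_le (C := ‖F.T‖) (fun ξ hξ => S.norm_full_le F hξ) z
    rwa [ofReal_norm] at h
  have hMt : (2:ℝ≥0∞) ^ n * ‖F.T‖ₑ ≠ ⊤ :=
    ENNReal.mul_ne_top (ENNReal.pow_ne_top (by norm_num)) (by simp)
  refine (eLpNorm_le_of_sup hr0 hrq hMt hsup).trans ?_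
  calc ((2:ℝ≥0∞) ^ n * ‖F.T‖ₑ) ^ (1 - r / q) *
        (eLpNorm (extOp n (fun ξ => F.val ξ * ∏ e, S.fac e ξ)) (ENNReal.ofReal r) volume) ^ (r / q)
      ≤ ((2:ℝ≥0∞) ^ n * ‖F.T‖ₑ) ^ (1 - r / q) * (Cr * ‖F.T‖ₑ) ^ (r / q) := by
        gcongr
    _ = K * (‖F.T‖ₑ ^ (1 - r / q) * ‖F.T‖ₑ ^ (r / q)) := by
        rw [ENNReal.mul_rpow_of_nonneg _ _ hrq1, ENNReal.mul_rpow_of_nonneg _ _ (by positivity), hK]
        ring
    _ = K * ‖F.T‖ₑ := by
        rw [← ENNReal.rpow_add_of_nonneg _ _ hrq1 (by positivity)]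
        congr 1
        rw [show 1 - r / q + r / q = 1 by ring, ENNReal.rpow_one]

end Pool.Agent.H.MP_b7167f_an
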